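import Pool.Agent.Lib.MP_c7e804_gt.H43FPr1

/-!
Conserved quantities of the fundamental solution.
-/

namespace Pool.Agent.Lib.MP_c7e804_gt

open Matrix Set Complex
open scoped ContDiff ComplexConjugate

theorem fpr_adj (c : ℂ) (x : C3) (M : M2) :
    (c • (sg x * M)).adjugate = -c • (M.adjugate * sg x) := by
  have h := adj_sg 0 x
  rw [zero_smul, zero_add, zero_sub] at h
  rw [Matrix.adjugate_smul, Matrix.adjugate_mul_distrib, h, Fintype.card_fin, pow_one, mul_neg,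
    smul_neg, neg_smul]

theorem fpr_lax (c : ℂ) (x y : C3) (M : M2) :
    ((-c • (sg x * M)).adjugate * sg y + M.adjugate * sg ((-(2 * I * c)) • (x ⨯₃ y))) * M
      + M.adjugate * sg y * (-c • (sg x * M)) = 0 := by
  have h : sg ((-(2 * I * c)) • (x ⨯₃ y)) = -c • (sg x * sg y - sg y * sg x) := by
    rw [sg_smul, sg_comm, smul_smul]
    congr 1
    ring
  rw [fpr_adj, h]
  simp only [neg_neg, neg_smul, mul_neg, neg_mul, add_mul, mul_sub, sub_mul, smul_sub,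
    smul_mul_assoc, mul_smul_comm, mul_assoc]
  abel

theorem fpr_form (κ : ℝ) {A K : M2} (M : M2) (e : Aᴴ * K = K * A) :
    ((-(I * κ) • (A * M))ᴴ * (1 + (κ : ℂ) • K) + Mᴴ * (0 + (κ : ℂ) • I • (A - Aᴴ))) * M
      + Mᴴ * (1 + (κ : ℂ) • K) * -(I * κ) • (A * M) = 0 := by
  have e' : Aᴴ * (K * M) = K * (A * M) := by rw [← mul_assoc, e, mul_assoc]
  have e2 : star (-(I * κ) : ℂ) = I * κ := by simp
  rw [Matrix.conjTranspose_smul, e2, Matrix.conjTranspose_mul]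
  simp only [zero_add, add_mul, mul_add, mul_sub, sub_mul, mul_one, one_mul, smul_mul_assoc,
    mul_smul_comm, mul_assoc, e']
  module

namespace Cap
variable {ψ : ℝ × ℝ → V3} {a b τ θ : ℝ} (h : Cap ψ a b τ θ) {F G : ℂ → ℝ × ℝ → M2}
  (hF : Frame a b (Am ψ) F G) {p : ℝ × ℝ}
include h hF

/-- the boundary form is preserved along both boundary lines -/
theorem H_const (κ : ℝ) {u : ℝ} (hu : u = a ∨ u = b) (v : ℝ) :
    (F κ (u, v))ᴴ * Km ψ θ κ (u, v) * F κ (u, v)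
      = (F κ (u, 0))ᴴ * Km ψ θ κ (u, 0) * F κ (u, 0) := by
  have hK : PDm a b (Km ψ θ κ) (fun r => 0 + (κ : ℂ) • (Am ψ r + (Am ψ r)ᴴ))
      (fun r => 0 + (κ : ℂ) • (I • (Am ψ r - (Am ψ r)ᴴ))) :=
    (PDm.const 1).add (h.pd_K0.const_smul κ)
  have h1 := ((hF.pdF κ).ct.mul hK).mul (hF.pdF κ)
  ext i j
  refine (h1 i j).line_const (h.mem_bd hu 0) (fun t => ?_) v 0
  exact congrFun (congrFun (fpr_form κ (F κ (u, t)) (h.bd_Ah_K0 hu t)) i) j

/-- solutions of the Lax equation are conjugate to their initial value -/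
theorem lax_conj {κ : ℂ} {X : ℝ × ℝ → C3}
    (hX : PD a b X (fun r => (-(2 * I * κ)) • (ph ψ r ⨯₃ X r)) (fun r => (2 * κ) • (ph ψ r ⨯₃ X r)))
    (hp : p ∈ strip a b) : sg (X p) * F κ p = F κ p * sg (X (b, 0)) := by
  have h1 := ((hF.pdF κ).adj.mul (PDm.sg hX)).mul (hF.pdF κ)
  have h2 : (F κ p).adjugate * sg (X p) * F κ p = sg (X (b, 0)) := by
    ext i j
    refine ((h1 i j).eq_of_zero (fun r _ => ?_) (fun r _ => ?_) p hp _ (h.mem_b 0)).trans ?_
    · exact congrFun (congrFun (fpr_lax κ (ph ψ r) (X r) (F κ r)) i) j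
    · have e := fpr_lax (I * κ) (ph ψ r) (X r) (F κ r)
      rw [show -(2 * I * (I * κ)) = 2 * κ by linear_combination (-2 * κ) * Complex.I_sq] at e
      exact congrFun (congrFun e i) j
    · simp only [hF.baseF, Matrix.adjugate_one, one_mul, mul_one]
  rw [← h2, ← mul_assoc, ← mul_assoc, (h.adj_F hF κ hp).2, one_mul]

omit h in
theorem fpr_pd (κ : ℂ) : PDm a b (fun r => (F κ r).adjugate * G κ r)
    (fun r => -((F κ r).adjugate * (Am ψ r * F κ r)))
    (fun r => -(I • ((F κ r).adjugate * (Am ψ r * F κ r)))) := by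
  refine ((hF.pdF κ).adj.mul (hF.pdG κ)).congr (fun _ _ => rfl) (fun r _ => ?_) fun r _ => ?_
  · rw [Am, fpr_adj]
    simp only [neg_neg, neg_smul, mul_sub, mul_neg, smul_mul_assoc, mul_smul_comm, mul_assoc]
    abel
  · rw [Am, fpr_adj]
    simp only [neg_neg, neg_smul, mul_sub, mul_neg, smul_mul_assoc, mul_smul_comm, mul_assoc]
    abel

theorem trace_G (κ : ℂ) (hp : p ∈ strip a b) : ((F κ p).adjugate * G κ p).trace = 0 := by
  have key : ∀ r ∈ strip a b, ((F κ r).adjugate * (Am ψ r * F κ r)).trace = 0 := fun r hr => by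
    rw [Matrix.trace_mul_comm, mul_assoc, (h.adj_F hF κ hr).2, mul_one, Am, trace_sg]
  refine ((fpr_pd hF κ).trace.eq_of_zero (fun r hr => ?_) (fun r hr => ?_) p hp _
    (h.mem_b 0)).trans ?_
  · rw [Matrix.trace_neg, key r hr, neg_zero]
  · rw [Matrix.trace_neg, Matrix.trace_smul, key r hr, smul_zero, neg_zero]
  · rw [hF.baseG, mul_zero, Matrix.trace_zero]

theorem fpr_tr {κ : ℂ} {X : ℝ × ℝ → C3}
    (hX : PD a b X (fun r => (-(2 * I * κ)) • (ph ψ r ⨯₃ X r)) (fun r => (2 * κ) • (ph ψ r ⨯₃ X r))) :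
    PD a b (fun r => (sg (X (b, 0)) * ((F κ r).adjugate * G κ r)).trace)
      (fun r => -2 * (X r ⬝ᵥ ph ψ r)) (fun r => -(2 * I) * (X r ⬝ᵥ ph ψ r)) := by
  have key : ∀ r ∈ strip a b, (sg (X (b, 0)) * ((F κ r).adjugate * (Am ψ r * F κ r))).trace
      = 2 * (X r ⬝ᵥ ph ψ r) := fun r hr => by
    rw [← mul_assoc (F κ r).adjugate, ← mul_assoc, Matrix.trace_mul_comm, ← mul_assoc,
      ← h.lax_conj hF hX hr, mul_assoc, ← mul_assoc (F κ r), (h.adj_F hF κ hr).2, one_mul, Am,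
      trace_sg_mul]
  refine ((PDm.const (sg (X (b, 0)))).mul (fpr_pd hF κ)).trace.congr (fun _ _ => rfl)
    (fun r hr => ?_) fun r hr => ?_
  · rw [zero_mul, zero_add, mul_neg, Matrix.trace_neg, key r hr, neg_mul]
  · rw [zero_mul, zero_add, mul_neg, Matrix.trace_neg, mul_smul_comm, Matrix.trace_smul, key r hr,
      smul_eq_mul]
    ring

theorem trace_XG_b {κ : ℂ} {X : ℝ × ℝ → C3}
    (hX : PD a b X (fun r => (-(2 * I * κ)) • (ph ψ r ⨯₃ X r)) (fun r => (2 * κ) • (ph ψ r ⨯₃ X r))) :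
    (sg (X (b, 0)) * ((F κ (b, τ)).adjugate * G κ (b, τ))).trace
      = -(2 * I) * ∫ v in (0 : ℝ)..τ, X (b, v) ⬝ᵥ ph ψ (b, v) := by
  have e := (h.fpr_tr hF hX).int_v (h.mem_b 0) 0 τ
  rw [hF.baseG, mul_zero, mul_zero, Matrix.trace_zero, sub_zero,
    intervalIntegral.integral_const_mul] at e
  exact e.symm

theorem trace_XG_a {κ : ℂ} {X : ℝ × ℝ → C3}
    (hX : PD a b X (fun r => (-(2 * I * κ)) • (ph ψ r ⨯₃ X r)) (fun r => (2 * κ) • (ph ψ r ⨯₃ X r))) :
    (sg (X (b, 0)) * ((F κ (a, 0)).adjugate * G κ (a, 0))).trace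
      = 2 * ∫ u in a..b, X (u, 0) ⬝ᵥ ph ψ (u, 0) := by
  have e := (h.fpr_tr hF hX).int_u (h.mem_a 0) (h.mem_b 0) 0
  rw [hF.baseG, mul_zero, mul_zero, Matrix.trace_zero, zero_sub,
    intervalIntegral.integral_const_mul] at e
  linear_combination e

end Cap

end Pool.Agent.Lib.MP_c7e804_gt
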