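import Pool.Agent.Lib.MP_c7e804_gt.H43KAv1

/-!
Averaged Green identities for Floquet solutions.
-/

namespace Pool.Agent.Lib.MP_c7e804_gt

open Matrix Set Complex
open scoped ContDiff ComplexConjugate

theorem kav_pd_exp {a b : ℝ} (β : ℝ) :
    PD a b (fun p => ((Real.exp (-2 * β * p.2) : ℝ) : ℂ)) (fun _ => 0)
      (fun p => -2 * β * ((Real.exp (-2 * β * p.2) : ℝ) : ℂ)) := by
  have h1 : ∀ t : ℝ, HasDerivAt (fun t => Real.exp (-2 * β * t))
      (Real.exp (-2 * β * t) * (-2 * β)) t := fun t => by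
    simpa using ((hasDerivAt_id t).const_mul (-2 * β)).exp
  have h2 := ((PD.snd (a := a) (b := b)).comp h1 (by fun_prop)).ofReal
  refine h2.congr (fun _ _ => rfl) (fun _ _ => by simp) (fun _ _ => ?_)
  push_cast; ring

theorem kav_cont_exp {a b : ℝ} (β : ℝ) :
    ContinuousOn (fun p : ℝ × ℝ => Real.exp (-2 * β * p.2)) (strip a b) := by
  apply Continuous.continuousOn; fun_prop

/-- derivative of a weighted average -/
theorem kav_deriv {a b τ β : ℝ} {g gu gv R : ℝ × ℝ → ℂ} (h : PD a b g gu gv)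
    (hR : ∀ r ∈ strip a b, gu r + I * gv r = R r) {u : ℝ} (hu : u ∈ Icc a b)
    (hper : g (u, τ) = (Real.exp (2 * β * τ) : ℝ) * g (u, 0)) :
    HasDerivWithinAt (av τ β g) (av τ β R u - 2 * I * β * av τ β g u) (Icc a b) u := by
  have hG := (kav_pd_exp (a := a) (b := b) β).mul h
  have h1 := hG.deriv_int_v 0 τ hu
  have h2 := hG.int_v hu 0 τ
  have h3 : ((Real.exp (-2 * β * τ) : ℝ) : ℂ) * g (u, τ)
      - ((Real.exp (-2 * β * 0) : ℝ) : ℂ) * g (u, 0) = 0 := by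
    rw [hper, ← mul_assoc, ← ofReal_mul, ← Real.exp_add]; simp
  simp only at h2
  rw [h3] at h2
  have i0 := (cont_line_v hG.cont hu).intervalIntegrable (μ := MeasureTheory.volume) 0 τ
  have i1 := (cont_line_v hG.contu hu).intervalIntegrable (μ := MeasureTheory.volume) 0 τ
  have i2 := (cont_line_v hG.contv hu).intervalIntegrable (μ := MeasureTheory.volume) 0 τ
  have h4 : av τ β R u = (∫ r in (0 : ℝ)..τ, (0 * g (u, r)
      + ((Real.exp (-2 * β * r) : ℝ) : ℂ) * gu (u, r))) + 2 * I * β * av τ β g u := by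
    have h5 := intervalIntegral.integral_add (i1.add (i2.const_mul I)) (i0.const_mul (2 * I * β))
    rw [intervalIntegral.integral_add i1 (i2.const_mul I), intervalIntegral.integral_const_mul,
      intervalIntegral.integral_const_mul] at h5
    rw [h2, mul_zero, add_zero] at h5
    unfold av
    rw [← h5]
    refine intervalIntegral.integral_congr fun r _ => ?_
    have h6 := hR (u, r) hu
    simp only
    rw [← h6]; ring
  rw [h4, add_sub_cancel_right]
  exact h1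

theorem kav_mul_real (τ β : ℝ) (k : ℂ) (f : ℝ × ℝ → ℝ) (u : ℝ) :
    av τ β (fun r => k * (f r : ℂ)) u
      = k * ((∫ v in (0 : ℝ)..τ, Real.exp (-2 * β * v) * f (u, v) : ℝ) : ℂ) := by
  unfold av
  rw [← intervalIntegral.integral_ofReal, ← intervalIntegral.integral_const_mul]
  refine intervalIntegral.integral_congr fun r _ => ?_
  simp only
  push_cast; ring

theorem kav_norm {μ : ℂ} {x : ℝ} (hμ : ‖μ‖ = Real.exp x) :
    conj μ * μ = (Real.exp (2 * x) : ℝ) := by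
  rw [Complex.conj_mul', hμ, ← ofReal_pow, ← Real.exp_nat_mul]; norm_num

theorem kav_zero (τ : ℝ) (f : ℝ × ℝ → ℂ) (u : ℝ) :
    av τ 0 f u = ∫ v in (0 : ℝ)..τ, f (u, v) := by
  simp [av]

theorem kav_im {τ : ℝ} {f : ℝ → ℂ} (hf : Continuous f) :
    (∫ v in (0 : ℝ)..τ, f v).im = ∫ v in (0 : ℝ)..τ, (f v).im :=
  (Complex.imCLM.intervalIntegral_comp_comm (hf.intervalIntegrable 0 τ)).symm

namespace Cap
variable {ψ : ℝ × ℝ → V3} {a b τ θ : ℝ} (h : Cap ψ a b τ θ) {κ μ : ℂ} {c : ℝ × ℝ → C2}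
  {β : ℝ} {p : ℝ × ℝ}
include h

theorem kav_cont_ww : ContinuousOn (ww ψ θ) (strip a b) := by
  obtain ⟨_, _, _, _, h1, _⟩ := h.pd_ww
  exact h1.cont

theorem cont_avF (hc : IsSol a b (Am ψ) κ c) (β : ℝ) : ContinuousOn (avF ψ τ β c) (Icc a b) :=
  contOn_int_v (f := fun r => Real.exp (-2 * β * r.2) * (confE ψ r * ff ψ c r))
    ((kav_cont_exp β).mul (h.cont_E.mul (h.cont_ff hc))) 0 τ

theorem cont_avW (hc : IsSol a b (Am ψ) κ c) (β : ℝ) :
    ContinuousOn (avW ψ θ τ β c) (Icc a b) :=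
  contOn_int_v (f := fun r => Real.exp (-2 * β * r.2) * (ww ψ θ r * (confE ψ r * ff ψ c r)))
    ((kav_cont_exp β).mul (h.kav_cont_ww.mul (h.cont_E.mul (h.cont_ff hc)))) 0 τ

theorem avF_nonneg (c : ℝ × ℝ → C2) (β : ℝ) {u : ℝ} (hu : u ∈ Icc a b) : 0 ≤ avF ψ τ β c u :=
  intervalIntegral.integral_nonneg h.ann.hτ.le fun v _ =>
    mul_nonneg (Real.exp_pos _).le
      (mul_nonneg (h.ann.immersion (u, v) hu).le (h.ff_eq c (p := (u, v)) hu).2)

theorem avW_nonneg (hw : ∀ r ∈ strip a b, 0 ≤ ww ψ θ r) (c : ℝ × ℝ → C2) (β : ℝ) {u : ℝ}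
    (hu : u ∈ Icc a b) : 0 ≤ avW ψ θ τ β c u :=
  intervalIntegral.integral_nonneg h.ann.hτ.le fun v _ =>
    mul_nonneg (Real.exp_pos _).le (mul_nonneg (hw (u, v) hu)
      (mul_nonneg (h.ann.immersion (u, v) hu).le (h.ff_eq c (p := (u, v)) hu).2))

omit h in
theorem kav_per (hc : Floq ψ a b τ κ μ c) {M : ℝ × ℝ → M2} {u : ℝ} (hu : u ∈ Icc a b)
    (hM : M (u, 0 + τ) = M (u, 0)) :
    hf (c (u, τ)) (M (u, τ)) (c (u, τ)) = conj μ * μ * hf (c (u, 0)) (M (u, 0)) (c (u, 0)) := by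
  have h1 := hc.per (u, 0) hu
  simp only [zero_add] at h1 hM
  rw [h1, hM, hf_smul_smul]

theorem deriv_ava (hc : Floq ψ a b τ κ μ c) (hμ : ‖μ‖ = Real.exp (β * τ)) {u : ℝ}
    (hu : u ∈ Icc a b) :
    HasDerivWithinAt (av τ β fun r => hf (c r) (Am ψ r) (c r))
      (-conj κ * avF ψ τ β c u - 2 * I * β * av τ β (fun r => hf (c r) (Am ψ r) (c r)) u)
      (Icc a b) u := by
  obtain ⟨gu, gv, h1, h2⟩ := h.pd_fa hc.sol
  have h3 := kav_deriv (τ := τ) (β := β) h1 h2 hu (by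
    rw [kav_per hc hu (M := Am ψ) (h.per_A (p := (u, 0)) hu), kav_norm hμ, mul_assoc 2])
  rw [kav_mul_real τ β (-conj κ) (fun r => confE ψ r * ff ψ c r) u] at h3
  exact h3

theorem deriv_avb (hc : Floq ψ a b τ κ μ c) (hμ : ‖μ‖ = Real.exp (β * τ)) {u : ℝ}
    (hu : u ∈ Icc a b) :
    HasDerivWithinAt (av τ β fun r => hf (c r) (K0 ψ θ r * Am ψ r) (c r))
      (avF ψ τ β c u + conj κ * avW ψ θ τ β c u
        - 2 * I * β * av τ β (fun r => hf (c r) (K0 ψ θ r * Am ψ r) (c r)) u)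
      (Icc a b) u := by
  obtain ⟨gu, gv, h1, h2⟩ := h.pd_fb hc.sol
  have h3 := kav_deriv (τ := τ) (β := β) h1 h2 hu (by
    rw [kav_per hc hu (M := fun r => K0 ψ θ r * Am ψ r)
      (by rw [h.per_A (p := (u, 0)) hu, h.per_K0 (p := (u, 0)) hu]), kav_norm hμ, mul_assoc 2])
  have cF : Continuous fun x => ((Real.exp (-2 * β * x)
      * (confE ψ (u, x) * ff ψ c (u, x)) : ℝ) : ℂ) :=
    continuous_ofReal.comp
      (cont_line_v ((kav_cont_exp β).mul (h.cont_E.mul (h.cont_ff hc.sol))) hu)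
  have cW : Continuous fun x => ((Real.exp (-2 * β * x)
      * (ww ψ θ (u, x) * (confE ψ (u, x) * ff ψ c (u, x))) : ℝ) : ℂ) :=
    continuous_ofReal.comp (cont_line_v
      ((kav_cont_exp β).mul (h.kav_cont_ww.mul (h.cont_E.mul (h.cont_ff hc.sol)))) hu)
  have h4 : av τ β (fun r => (1 + conj κ * ww ψ θ r) * (confE ψ r * ff ψ c r : ℝ)) u
      = avF ψ τ β c u + conj κ * avW ψ θ τ β c u := by
    unfold av avF avW
    rw [← intervalIntegral.integral_ofReal, ← intervalIntegral.integral_ofReal,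
      ← intervalIntegral.integral_const_mul, ← intervalIntegral.integral_add
        (cF.intervalIntegrable 0 τ) ((cW.intervalIntegrable 0 τ).const_mul _)]
    refine intervalIntegral.integral_congr fun r _ => ?_
    simp only
    push_cast; ring
  rw [h4] at h3
  exact h3

theorem av_rel (hc : Floq ψ a b τ κ μ c) (hμ : ‖μ‖ = 1) {u : ℝ} (hu : u ∈ Icc a b) :
    (κ * av τ 0 (fun r => hf (c r) (Am ψ r) (c r)) u).im = 0 ∧
      (av τ 0 (fun r => hf (c r) (Am ψ r) (c r)) u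
        - κ * av τ 0 (fun r => hf (c r) (K0 ψ θ r * Am ψ r) (c r)) u).im = 0 := by
  have hμ' : conj μ * μ = 1 := by rw [Complex.conj_mul', hμ]; simp
  obtain ⟨_, _, ha, -⟩ := h.pd_fa hc.sol
  obtain ⟨_, _, hb, -⟩ := h.pd_fb hc.sol
  have ca := cont_line_v ha.cont hu
  have cb := cont_line_v hb.cont hu
  rw [kav_zero, kav_zero]
  constructor
  · have h1 := (h.pd_n1 hc.sol).int_v hu 0 τ
    rw [kav_per hc hu (M := fun _ => 1) rfl, hμ', one_mul, sub_self,
      intervalIntegral.integral_const_mul] at h1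
    rw [← intervalIntegral.integral_const_mul, kav_im (by fun_prop)]
    linarith
  · have h1 := (h.pd_n0 hc.sol).int_v hu 0 τ
    rw [kav_per hc hu (M := K0 ψ θ) (h.per_K0 (p := (u, 0)) hu), hμ', one_mul, sub_self,
      intervalIntegral.integral_const_mul] at h1
    rw [← intervalIntegral.integral_const_mul, ← intervalIntegral.integral_sub
      (ca.intervalIntegrable 0 τ) ((cb.intervalIntegrable 0 τ).const_mul κ),
      kav_im (by fun_prop)]
    linarith

theorem avb_real (c : ℝ × ℝ → C2) (β : ℝ) {u : ℝ} (hu : u = a ∨ u = b) :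
    (av τ β (fun r => hf (c r) (K0 ψ θ r * Am ψ r) (c r)) u).im = 0 := by
  have h1 : av τ β (fun r => hf (c r) (K0 ψ θ r * Am ψ r) (c r)) u
      = av τ β (fun r => 1 * ((pu ψ r / 2 * ff ψ c r : ℝ) : ℂ)) u := by
    unfold av
    refine intervalIntegral.integral_congr fun r _ => ?_
    simp only
    rw [h.bd_fb c hu r, one_mul]
  rw [h1, kav_mul_real τ β 1 (fun r => pu ψ r / 2 * ff ψ c r) u, one_mul, ofReal_im]

/-- the weight `w E f` does not vanish identically -/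
theorem avW_pos (hw : ∀ r ∈ strip a b, 0 ≤ ww ψ θ r) (hc : Floq ψ a b τ κ μ c) (β : ℝ) :
    ∃ u ∈ Ioo a b, 0 < avW ψ θ τ β c u := by
  obtain ⟨u, hu, hpos⟩ := h.ww_pos_near
  refine ⟨u, hu, ?_⟩
  have hu' : u ∈ Icc a b := Ioo_subset_Icc_self hu
  have hτ := h.ann.hτ
  have cW := cont_line_v (h.kav_cont_ww.mul (h.cont_E.mul (h.cont_ff hc.sol))) hu'
  refine int_pos (W := fun v => ww ψ θ (u, v) * (confE ψ (u, v) * ff ψ c (u, v)))
    (ρ := fun v => Real.exp (-2 * β * v)) hτ cW.continuousOn (by fun_prop)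
    (fun v _ => mul_nonneg (hw (u, v) hu')
      (mul_nonneg (h.ann.immersion (u, v) hu').le (h.ff_eq c (p := (u, v)) hu').2)) ?_
    (fun v _ => Real.exp_pos _)
  by_contra hcon
  push Not at hcon
  have hN : ∀ v ∈ Ioo 0 τ, Nm ψ (u, v) *ᵥ c (u, v) = -c (u, v) := fun v hv => by
    have h1 := hcon v hv
    have h2 := hpos u ⟨hu.1, le_rfl⟩ v
    have h3 := h.ann.immersion (u, v) hu'
    have h4 := (h.ff_eq c (p := (u, v)) hu').2
    have h5 : ff ψ c (u, v) = 0 := by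
      by_contra h6
      have := mul_pos h2 (mul_pos h3 (lt_of_le_of_ne h4 (Ne.symm h6)))
      linarith
    exact hf_eq_zero (h.ann.fr (p := (u, v)) hu').NN h5
  have hA : ∀ v ∈ Ioo 0 τ, Am ψ (u, v) *ᵥ c (u, v) = 0 := fun v hv => by
    have h1 : Am ψ (u, v) *ᵥ c (u, v) = -(Am ψ (u, v) *ᵥ c (u, v)) := by
      conv_lhs => rw [← h.A_N (p := (u, v)) hu', ← Matrix.mulVec_mulVec, hN v hv]
      rw [Matrix.mulVec_neg]
    have h2 : (2 : ℂ) • (Am ψ (u, v) *ᵥ c (u, v)) = 0 := by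
      rw [two_smul]; nth_rewrite 1 [h1]; exact neg_add_cancel _
    exact (smul_eq_zero.1 h2).resolve_left two_ne_zero
  have hv : τ / 2 ∈ Ioo 0 τ := ⟨by linarith, by linarith⟩
  have h1 := (h.pd_A.mulVec hc.sol).hv (u, τ / 2) hu'
  have h2 : HasDerivAt (fun y => Am ψ (u, y) *ᵥ c (u, y)) 0 (τ / 2) := by
    refine (hasDerivAt_const (τ / 2) (0 : C2)).congr_of_eventuallyEq ?_
    filter_upwards [Ioo_mem_nhds hv.1 hv.2] with y hy using hA y hy
  have h3 := h1.unique h2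
  rw [hA _ hv, smul_zero, Matrix.mulVec_zero, add_zero, h.sg_ph1 (p := (u, τ / 2)) hu',
    Matrix.smul_mulVec, Matrix.add_mulVec, Matrix.smul_mulVec, Matrix.smul_mulVec, hA _ hv,
    hN _ hv, smul_zero, zero_add] at h3
  have h4 := (smul_eq_zero.1 h3).resolve_left I_ne_zero
  have h5 := (smul_eq_zero.1 h4).resolve_left (by exact_mod_cast h.q_pos.ne')
  exact hc.ne (u, τ / 2) hu' (neg_eq_zero.1 h5)

end Cap

end Pool.Agent.Lib.MP_c7e804_gt
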