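import Pool.Agent.Lib.MP_c7e804_gt.H43Basic

/-!
Total variation of the argument.
-/

namespace Pool.Agent.Lib.MP_c7e804_gt

open Matrix Set Complex
open scoped ContDiff ComplexConjugate

section
variable {τ : ℝ} {G G' H H' : ℝ → ℂ}

theorem wind_aux_cont (hG : ∀ v, HasDerivAt G (G' v) v) : Continuous G :=
  continuous_iff_continuousAt.2 fun v => (hG v).continuousAt

theorem wind_aux_im {g : ℝ → ℂ} (hg : IntervalIntegrable g MeasureTheory.volume 0 τ) :
    ∫ v in (0 : ℝ)..τ, (g v).im = (∫ v in (0 : ℝ)..τ, g v).im :=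
  Complex.imCLM.intervalIntegral_comp_comm hg

theorem wind_aux_exp (hG : ∀ v, HasDerivAt G (G' v) v) (hc : Continuous G') (h0 : ∀ v, G v ≠ 0) :
    cexp (∫ v in (0 : ℝ)..τ, G' v / G v) = G τ / G 0 := by
  have cq : Continuous fun v => G' v / G v := hc.div (wind_aux_cont hG) h0
  have hL : ∀ v, HasDerivAt (fun x => ∫ r in (0 : ℝ)..x, G' r / G r) (G' v / G v) v := fun v =>
    (cq.integral_hasStrictDerivAt 0 v).hasDerivAt
  have hK : ∀ v, HasDerivAt (fun x => G x * cexp (-(∫ r in (0 : ℝ)..x, G' r / G r))) 0 v := by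
    intro v
    refine HasDerivAt.congr_deriv ((hG v).mul (hL v).neg.cexp) ?_
    have := h0 v
    simp only [Pi.neg_apply]
    field_simp
    ring
  have hconst := is_const_of_deriv_eq_zero (fun v => (hK v).differentiableAt)
    (fun v => (hK v).deriv) τ 0
  simp only [intervalIntegral.integral_same, neg_zero, Complex.exp_zero, mul_one] at hconst
  rw [← hconst, Complex.exp_neg]
  have h1 := h0 τ
  have h2 := Complex.exp_ne_zero (∫ v in (0 : ℝ)..τ, G' v / G v)
  field_simp

/-- curves in the right half plane -/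
theorem wind_aux_arg (hG : ∀ v, HasDerivAt G (G' v) v) (hc : Continuous G') (h0 : ∀ v, G v ≠ 0)
    (h1 : ∀ v ∈ uIcc 0 τ, 0 < (G v).re) : wind τ G G' = arg (G τ) - arg (G 0) := by
  have cq : Continuous fun v => G' v / G v := hc.div (wind_aux_cont hG) h0
  have := intervalIntegral.integral_eq_sub_of_hasDerivAt (f := fun v => Complex.log (G v))
    (f' := fun v => G' v / G v) (a := 0) (b := τ)
    (fun v hv => (hG v).clog_real (Or.inl (h1 v hv))) (cq.intervalIntegrable _ _)
  unfold wind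
  rw [wind_aux_im (cq.intervalIntegrable _ _), this, Complex.sub_im, Complex.log_im,
    Complex.log_im]

theorem wind_exp (hG : ∀ v, HasDerivAt G (G' v) v) (hc : Continuous G') (h0 : ∀ v, G v ≠ 0) :
    cexp (I * wind τ G G') = G τ / G 0 * ((‖G 0‖ : ℂ) / ‖G τ‖) := by
  have cq : Continuous fun v => G' v / G v := hc.div (wind_aux_cont hG) h0
  have e := wind_aux_exp (τ := τ) hG hc h0
  unfold wind
  rw [wind_aux_im (cq.intervalIntegrable _ _)]
  set L := ∫ v in (0 : ℝ)..τ, G' v / G v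
  have hn : Real.exp L.re = ‖G τ‖ / ‖G 0‖ := by rw [← Complex.norm_exp, e, norm_div]
  have h2 : cexp L = cexp (L.re : ℂ) * cexp (I * L.im) := by
    rw [← Complex.exp_add, mul_comm I, Complex.re_add_im]
  have h3 : cexp (L.re : ℂ) = (‖G τ‖ : ℂ) / ‖G 0‖ := by
    rw [← Complex.ofReal_exp, hn, Complex.ofReal_div]
  have n0 : (‖G 0‖ : ℂ) ≠ 0 := Complex.ofReal_ne_zero.2 (norm_ne_zero_iff.2 (h0 0))
  have n1 : (‖G τ‖ : ℂ) ≠ 0 := Complex.ofReal_ne_zero.2 (norm_ne_zero_iff.2 (h0 τ))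
  rw [← e, h2, h3]
  field_simp

theorem wind_mul (hG : ∀ v, HasDerivAt G (G' v) v) (hc : Continuous G') (h0 : ∀ v, G v ≠ 0)
    (hH : ∀ v, HasDerivAt H (H' v) v) (hc' : Continuous H') (h0' : ∀ v, H v ≠ 0) :
    wind τ (fun v => G v * H v) (fun v => G' v * H v + G v * H' v)
      = wind τ G G' + wind τ H H' := by
  have cq : Continuous fun v => (G' v / G v).im :=
    Complex.continuous_im.comp (hc.div (wind_aux_cont hG) h0)
  have cq' : Continuous fun v => (H' v / H v).im :=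
    Complex.continuous_im.comp (hc'.div (wind_aux_cont hH) h0')
  unfold wind
  rw [← intervalIntegral.integral_add (cq.intervalIntegrable _ _) (cq'.intervalIntegrable _ _)]
  congr 1
  funext v
  rw [← Complex.add_im]
  congr 1
  have := h0 v
  have := h0' v
  field_simp

theorem wind_smul {t : ℂ} (ht : t ≠ 0) :
    wind τ (fun v => t * G v) (fun v => t * G' v) = wind τ G G' := by
  unfold wind
  simp only [mul_div_mul_left _ _ ht]

theorem wind_re_pos (hG : ∀ v, HasDerivAt G (G' v) v) (hc : Continuous G') (h0 : ∀ v, G v ≠ 0)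
    (hτ : 0 ≤ τ) (h1 : ∀ v ∈ Icc 0 τ, 0 < (G v).re) (h2 : (G 0).im = 0) :
    |wind τ G G'| < Real.pi / 2 := by
  rw [wind_aux_arg hG hc h0 (by rw [uIcc_of_le hτ]; exact h1)]
  have a0 : arg (G 0) = 0 :=
    Complex.arg_eq_zero_iff.2 ⟨(h1 0 (left_mem_Icc.2 hτ)).le, h2⟩
  rw [a0, sub_zero]
  exact Complex.abs_arg_lt_pi_div_two_iff.2 (Or.inl (h1 τ (right_mem_Icc.2 hτ)))

theorem wind_cont {X : Type} [TopologicalSpace X] {S : Set X} {G G' : X → ℝ → ℂ}
    (hG : ContinuousOn (fun x : X × ℝ => G x.1 x.2) (S ×ˢ univ))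
    (hG' : ContinuousOn (fun x : X × ℝ => G' x.1 x.2) (S ×ˢ univ))
    (h0 : ∀ x ∈ S, ∀ v, G x v ≠ 0) : ContinuousOn (fun x => wind τ (G x) (G' x)) S := by
  rw [continuousOn_iff_continuous_domRestrict]
  have hi : Continuous fun z : S × ℝ => (((z.1 : X), z.2) : X × ℝ) :=
    (continuous_subtype_val.comp continuous_fst).prodMk continuous_snd
  have hm : ∀ z : S × ℝ, (((z.1 : X), z.2) : X × ℝ) ∈ S ×ˢ (univ : Set ℝ) :=
    fun z => ⟨z.1.2, mem_univ _⟩
  have c1 : Continuous fun z : S × ℝ => G z.1 z.2 := hG.comp_continuous hi hm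
  have c2 : Continuous fun z : S × ℝ => G' z.1 z.2 := hG'.comp_continuous hi hm
  have c3 : Continuous fun z : S × ℝ => (G' z.1 z.2 / G z.1 z.2).im :=
    Complex.continuous_im.comp (c2.div c1 fun z => h0 _ z.1.2 _)
  exact intervalIntegral.continuous_parametric_intervalIntegral_of_continuous'
    (f := fun (x : S) (v : ℝ) => (G' x v / G x v).im) c3 0 τ

theorem wind_int (hG : ∀ v, HasDerivAt G (G' v) v) (hc : Continuous G') (h0 : ∀ v, G v ≠ 0)
    (hp : G τ = G 0) : ∃ n : ℤ, wind τ G G' = 2 * Real.pi * n := by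
  have e := wind_exp (τ := τ) hG hc h0
  have n0 : (‖G 0‖ : ℂ) ≠ 0 := Complex.ofReal_ne_zero.2 (norm_ne_zero_iff.2 (h0 0))
  rw [hp, div_self (h0 0), div_self n0, mul_one] at e
  obtain ⟨n, hn⟩ := Complex.exp_eq_one_iff.1 e
  refine ⟨n, ?_⟩
  have := congrArg Complex.im hn
  simp at this
  linarith

theorem wind_homotopy {x y : ℝ} (hxy : x ≤ y) {G G' : ℝ → ℝ → ℂ}
    (hd : ∀ t ∈ Icc x y, ∀ v, HasDerivAt (G t) (G' t v) v)
    (hG : ContinuousOn (fun z : ℝ × ℝ => G z.1 z.2) (Icc x y ×ˢ univ))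
    (hG' : ContinuousOn (fun z : ℝ × ℝ => G' z.1 z.2) (Icc x y ×ˢ univ))
    (h0 : ∀ t ∈ Icc x y, ∀ v, G t v ≠ 0) (hp : ∀ t ∈ Icc x y, G t τ = G t 0) :
    wind τ (G x) (G' x) = wind τ (G y) (G' y) := by
  have hw : ContinuousOn (fun t => wind τ (G t) (G' t)) (Icc x y) := wind_cont hG hG' h0
  have hn : ∀ t ∈ Icc x y, ∃ n : ℤ, wind τ (G t) (G' t) = 2 * Real.pi * n := by
    intro t ht
    have ci : Continuous fun v : ℝ => ((t, v) : ℝ × ℝ) := continuous_const.prodMk continuous_id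
    have cG' : Continuous (G' t) := hG'.comp_continuous ci fun v => ⟨ht, mem_univ _⟩
    exact wind_int (hd t ht) cG' (h0 t ht) (hp t ht)
  have hpi := Real.pi_pos
  have odd : ∀ (k : ℤ) (t : ℝ), t ∈ Icc x y →
      wind τ (G t) (G' t) ≠ 2 * Real.pi * k + Real.pi := by
    intro k t ht e
    obtain ⟨n, hn⟩ := hn t ht
    rw [hn] at e
    have h1 : Real.pi * (2 * n) = Real.pi * (2 * k + 1) := by linarith
    have h2 : (2 * n : ℝ) = 2 * k + 1 := mul_left_cancel₀ hpi.ne' h1
    have h3 : 2 * n = 2 * k + 1 := by exact_mod_cast h2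
    omega
  obtain ⟨nx, hnx⟩ := hn x (left_mem_Icc.2 hxy)
  obtain ⟨ny, hny⟩ := hn y (right_mem_Icc.2 hxy)
  rcases lt_trichotomy nx ny with h | h | h
  · exfalso
    have h' : (nx : ℝ) + 1 ≤ ny := by exact_mod_cast h
    obtain ⟨t, ht, e⟩ := intermediate_value_Icc hxy hw
      (show 2 * Real.pi * nx + Real.pi ∈ Icc (wind τ (G x) (G' x)) (wind τ (G y) (G' y)) from
        ⟨by rw [hnx]; linarith, by rw [hny]; nlinarith⟩)
    exact odd nx t ht e
  · rw [hnx, hny, h]
  · exfalso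
    have h' : (ny : ℝ) + 1 ≤ nx := by exact_mod_cast h
    obtain ⟨t, ht, e⟩ := intermediate_value_Icc' hxy hw
      (show 2 * Real.pi * ny + Real.pi ∈ Icc (wind τ (G y) (G' y)) (wind τ (G x) (G' x)) from
        ⟨by rw [hny]; linarith, by rw [hnx]; nlinarith⟩)
    exact odd ny t ht e

/-- closed curves with `Re (G conj H) > 0` wind equally often -/
theorem wind_eq_of_re (hG : ∀ v, HasDerivAt G (G' v) v) (hc : Continuous G')
    (hH : ∀ v, HasDerivAt H (H' v) v) (hc' : Continuous H') (hp : G τ = G 0) (hp' : H τ = H 0)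
    (h1 : ∀ v, 0 < (G v * conj (H v)).re) : wind τ G G' = wind τ H H' := by
  have g0 : ∀ v, G v ≠ 0 := fun v h => by simpa [h] using h1 v
  have h0 : ∀ v, H v ≠ 0 := fun v h => by simpa [h] using h1 v
  have cG := wind_aux_cont hG
  have cH := wind_aux_cont hH
  have hK : ∀ v, HasDerivAt (fun v => G v / H v) ((G' v * H v - G v * H' v) / H v ^ 2) v :=
    fun v => (hG v).div (hH v) (h0 v)
  have cK : Continuous fun v => (G' v * H v - G v * H' v) / H v ^ 2 :=
    ((hc.mul cH).sub (cG.mul hc')).div (cH.pow 2) fun v => pow_ne_zero 2 (h0 v)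
  have k0 : ∀ v, G v / H v ≠ 0 := fun v => div_ne_zero (g0 v) (h0 v)
  have kre : ∀ v, 0 < (G v / H v).re := by
    intro v
    have h2 := h1 v
    have h3 : 0 < normSq (H v) := normSq_pos.2 (h0 v)
    rw [Complex.div_re, ← add_div]
    refine div_pos ?_ h3
    simpa using h2
  have e1 := wind_aux_arg (τ := τ) hK cK k0 fun v _ => kre v
  rw [hp, hp', sub_self] at e1
  have e2 := wind_mul (τ := τ) hK cK k0 hH hc' h0
  rw [e1, zero_add] at e2
  rw [← e2]
  congr 1
  · funext v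
    have := h0 v
    field_simp
  · funext v
    have := h0 v
    field_simp
    ring

/-- shift of the base point for periodic curves -/
theorem wind_shift (hp : ∀ v, G (v + τ) = G v) (hp' : ∀ v, G' (v + τ) = G' v) (t : ℝ) :
    wind τ (fun v => G (t + v)) (fun v => G' (t + v)) = wind τ G G' := by
  have per : Function.Periodic (fun v => (G' v / G v).im) τ := fun v => by
    simp only [hp v, hp' v]
  unfold wind
  rw [intervalIntegral.integral_comp_add_left (fun v => (G' v / G v).im) t, add_zero,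
    per.intervalIntegral_add_eq t 0, zero_add]

end

end Pool.Agent.Lib.MP_c7e804_gt
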