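import Pool.Agent.Lib.MP_c7e804_gt.H43SpecDefs
import Pool.Agent.Lib.MP_c7e804_gt.H43FPr
import Pool.Agent.Lib.MP_c7e804_gt.H43KAv
import Pool.Agent.Lib.MP_c7e804_gt.H43Wind

/-!
The invariant line at the left zero of the determinant.
-/

namespace Pool.Agent.Lib.MP_c7e804_gt

open Matrix Set Complex
open scoped ContDiff ComplexConjugate

section
variable (ψ : ℝ × ℝ → V3) (b θ : ℝ) (F : ℂ → ℝ × ℝ → M2) (x : C2)

/-- solution along the boundary line `u = b` -/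
noncomputable def cl (κ : ℝ) (v : ℝ) : C2 := F κ (b, v) *ᵥ x

noncomputable def aa (κ v : ℝ) : ℂ := star (cl b F x (ka θ) v) ⬝ᵥ cl b F x κ v

noncomputable def bb (κ v : ℝ) : ℂ := br (cl b F x (ka θ) v) (cl b F x κ v)

noncomputable def aa' (κ v : ℝ) : ℂ :=
  I * ((ka θ - κ) * (pu ψ (b, v) / 2) : ℝ) * aa b θ F x κ v
    - I * ((1 + κ * (Real.cos θ - 1)) / (1 + Real.cos θ) : ℝ)
      * conj (Qf ψ b (cl b F x (ka θ)) v) * bb b θ F x κ v

noncomputable def bb' (κ v : ℝ) : ℂ :=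
  I * (ka θ - κ : ℝ) * (aa b θ F x κ v * Qf ψ b (cl b F x (ka θ)) v
    - (pu ψ (b, v) / 2 : ℝ) * bb b θ F x κ v)

end

private theorem th0_cont_br {Z : Type} [TopologicalSpace Z] {f g : Z → C2} (hf : Continuous f)
    (hg : Continuous g) : Continuous fun z => br (f z) (g z) := by
  unfold br
  fun_prop

private theorem th0_br_add (x y z : C2) : br x (y + z) = br x y + br x z := by
  simp only [br, Pi.add_apply]
  ring

private theorem th0_br_smul (t : ℂ) (x y : C2) : br x (t • y) = t * br x y := by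
  simp only [br, Pi.smul_apply, smul_eq_mul]
  ring

private theorem th0_lagrange (x y : C2) : hf x 1 x * hf y 1 y =
    hf x 1 y * conj (hf x 1 y) + br x y * conj (br x y) := by
  simp only [hf, br, one_mulVec, dotProduct, Fin.sum_univ_two, Pi.star_apply, star_def, map_add,
    map_mul, map_sub, conj_conj]
  ring

private theorem th0_hf_eig {n : V3} {c : C2} (hc : sg (cv n) *ᵥ c = c) (w : C3) :
    hf c (sg w) c = (cv n ⬝ᵥ w) * hf c 1 c := by
  have := hf_eig (H := 1) (x := cv n) (w := w) (c := c) (s := 1)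
    (by rw [star_cv, one_mul, mul_one]) (by rw [hc, ofReal_one, one_smul])
  rwa [ofReal_one, one_mul, one_mul] at this

private theorem th0_cos {θ : ℝ} (h : 0 < θ ∧ θ < Real.pi) : 0 < 1 + Real.cos θ := by
  have := Real.cos_lt_cos_of_nonneg_of_le_pi h.1.le le_rfl h.2
  rw [Real.cos_pi] at this
  linarith

private theorem th0_Km {θ : ℝ} (h : 0 < θ ∧ θ < Real.pi) (ψ : ℝ × ℝ → V3) (p : ℝ × ℝ) (y : C2) :
    Km ψ θ (ka θ) p *ᵥ y = (ka θ : ℂ) • (sg (cv (ψ p)) *ᵥ y - y) := by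
  have h1 : 1 + ka θ * Real.cos θ = -ka θ := by
    have := (th0_cos h).ne'
    unfold ka
    field_simp
    ring
  rw [Km_eq, h1, add_mulVec, smul_mulVec, smul_mulVec, one_mulVec, ofReal_neg, neg_smul, smul_sub]
  abel

namespace Cap
variable {ψ : ℝ × ℝ → V3} {a b τ θ : ℝ} (h : Cap ψ a b τ θ) {F G : ℂ → ℝ × ℝ → M2}
  (hF : Frame a b (Am ψ) F G)
include h hF

theorem deriv_Qf (κ : ℝ) (x : C2) (v : ℝ) :
    HasDerivAt (Qf ψ b (cl b F x κ)) (Qd ψ b (cl b F x κ) v) v := by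
  have hc := h.sol_F hF κ x
  refine ((PD.br hc (PDm.mulVec h.pd_A hc)).hv (b, v) (h.mem_b v)).congr_deriv ?_
  have h1 : ∀ (t : ℂ) (y : C2), br (t • y) y = 0 := fun t y => by
    simp only [br, Pi.smul_apply, smul_eq_mul]
    ring
  simp only [h1, mulVec_smul, zero_add]
  rw [mulVec_mulVec _ (Am ψ (b, v)) (Am ψ (b, v)), h.A_A (h.mem_b v), zero_mulVec, smul_zero,
    add_zero, smul_mulVec, th0_br_smul]
  rfl

theorem cont_cl : Continuous (fun z : (ℝ × C2) × ℝ => cl b F z.1.2 z.1.1 z.2) :=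
  Continuous.matrix_mulVec (continuous_matrix fun i j => (hF.cont i j).comp_continuous
    (f := fun z : (ℝ × C2) × ℝ => ((z.1.1 : ℂ), (b, z.2))) (by fun_prop)
    fun z => ⟨trivial, h.mem_b _⟩) (by fun_prop)

theorem cont_Qf : Continuous (fun z : (ℝ × C2) × ℝ => Qf ψ b (cl b F z.1.2 z.1.1) z.2) :=
  th0_cont_br (h.cont_cl hF) (Continuous.matrix_mulVec (continuous_matrix fun i j =>
    (cont_line_v (h.pd_A i j).cont (h.mem_b 0)).comp continuous_snd) (h.cont_cl hF))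

theorem cont_Qd : Continuous (fun z : (ℝ × C2) × ℝ => Qd ψ b (cl b F z.1.2 z.1.1) z.2) :=
  continuous_const.mul (th0_cont_br (h.cont_cl hF) (Continuous.matrix_mulVec
    (continuous_matrix fun i j => (cont_line_v (h.pd_A i j).contu (h.mem_b 0)).comp continuous_snd)
    (h.cont_cl hF)))

omit hF in
theorem Qf_ne {c : ℝ × ℝ → C2} {v : ℝ} (h0 : 0 < ff ψ c (b, v)) :
    br (c (b, v)) (Am ψ (b, v) *ᵥ c (b, v)) ≠ 0 := by
  intro e
  have h1 := nil_of_br (h.A_A (h.mem_b v)) e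
  have h2 := hf_mul (c (b, v)) (Am ψ (b, v)) 1 (Am ψ (b, v)) (c (b, v))
  rw [h1, mul_one, h.Ah_A (h.mem_b v), hf_smul, (h.ff_eq c (h.mem_b v)).1] at h2
  have h3 : hf 0 1 0 = 0 := by simp [hf]
  have h4 := (h.ann.immersion _ (h.mem_b v)).ne'
  rw [h3, eq_comm, mul_eq_zero, div_eq_zero_iff, ofReal_eq_zero, ofReal_eq_zero] at h2
  simp [h4, h0.ne'] at h2

variable {x : C2} (hx1 : star x ⬝ᵥ x = 1) (hx2 : sg (cv (ψ (b, 0))) *ᵥ x = x)
include hx1 hx2

theorem V_eig (v : ℝ) : sg (cv (ψ (b, v))) *ᵥ cl b F x (ka θ) v = cl b F x (ka θ) v := by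
  have h1 := congrArg (· *ᵥ x) (h.H_const hF (ka θ) (Or.inr rfl) v)
  simp only [hF.baseF, conjTranspose_one, one_mul, mul_one] at h1
  rw [th0_Km h.ann.hθb, hx2, sub_self, smul_zero, ← mulVec_mulVec, ← mulVec_mulVec] at h1
  have h2 := congrArg ((F (ka θ) (b, v)).adjugateᴴ *ᵥ ·) h1
  simp only [mulVec_zero] at h2
  rw [mulVec_mulVec, ← conjTranspose_mul, (h.adj_F hF _ (h.mem_b v)).2, conjTranspose_one,
    one_mulVec, th0_Km h.ann.hθb] at h2
  exact sub_eq_zero.1 ((smul_eq_zero.1 h2).resolve_left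
    (ofReal_ne_zero.2 (ka_neg h.ann.hθb).ne))

private theorem th0_VAV (v : ℝ) : hf (cl b F x (ka θ) v) (Am ψ (b, v)) (cl b F x (ka θ) v) =
    (pu ψ (b, v) : ℂ) / 2 * hf (cl b F x (ka θ) v) 1 (cl b F x (ka θ) v) := by
  rw [Am, th0_hf_eig (h.V_eig hF hx1 hx2 v), h.bd_psi_ph (Or.inr rfl)]

private theorem th0_unit (v : ℝ) : hf (cl b F x (ka θ) v) 1 (cl b F x (ka θ) v) = 1 := by
  have hi := fun v => hf_herm_im (K := 1) conjTranspose_one (cl b F x (ka θ) v)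
  have hd : ∀ v, HasDerivAt (fun v => (hf (cl b F x (ka θ) v) 1 (cl b F x (ka θ) v)).re) 0 v :=
    fun v => by
      refine ((h.pd_n1 (h.sol_F hF (ka θ) x)).hv (b, v) (h.mem_b v)).congr_deriv ?_
      have h1 := th0_VAV h hF hx1 hx2 v
      have h2 := hi v
      simp only [cl] at h1 h2
      simp only [h1, mul_im, h2, ofReal_im, div_ofNat_im, mul_zero, zero_mul, zero_div, add_zero]
  have h1 := is_const_of_deriv_eq_zero (fun v => (hd v).differentiableAt) (fun v => (hd v).deriv)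
    v 0
  have h2 : hf (cl b F x (ka θ) 0) 1 (cl b F x (ka θ) 0) = 1 := by
    rw [cl, hF.baseF, one_mulVec, hf, one_mulVec, hx1]
  rw [h2] at h1
  exact Complex.ext h1 (hi v)

theorem V_unit (v : ℝ) : star (cl b F x (ka θ) v) ⬝ᵥ cl b F x (ka θ) v = 1 := by
  have := th0_unit h hF hx1 hx2 v
  rwa [hf, one_mulVec] at this

theorem V_per : ∃ μ : ℂ, ‖μ‖ = 1 ∧ F (ka θ) (b, τ) *ᵥ x = μ • x := by
  have h1 := h.V_eig hF hx1 hx2 τ
  have h2 : ψ (b, τ) = ψ (b, 0) := by simpa using h.ann.periodic (b, 0) (h.mem_b 0)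
  have h3 : cv (ψ (b, 0)) ≠ 0 := fun e => by
    have := cv_dot (ψ (b, 0)) (ψ (b, 0))
    rw [e, h.ann.sphere_b] at this
    simp at this
  have h4 : x ≠ 0 := fun e => by simp [e] at hx1
  rw [h2] at h1
  obtain ⟨μ, hμ⟩ := eig_unique (s := 1) h3 h4 (by rw [hx2, one_smul]) (by rw [h1, one_smul])
  refine ⟨μ, ?_, hμ⟩
  have h5 := th0_unit h hF hx1 hx2 τ
  rw [hμ, hf_smul_smul, hf, one_mulVec, hx1, mul_one, conj_mul'] at h5
  have h6 : ‖μ‖ ^ 2 = 1 := by exact_mod_cast h5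
  exact (pow_eq_one_iff_of_nonneg (norm_nonneg _) two_ne_zero).1 h6

theorem norm_QV (v : ℝ) :
    ‖Qf ψ b (cl b F x (ka θ)) v‖ = √(confE ψ (b, v)) * (1 + Real.cos θ) / 2 := by
  have hp := h.mem_b v
  have h1 := th0_unit h hF hx1 hx2 v
  have h2 := th0_VAV h hF hx1 hx2 v
  have h3 := th0_lagrange (cl b F x (ka θ) v) (Am ψ (b, v) *ᵥ cl b F x (ka θ) v)
  have h4 : hf (cl b F x (ka θ) v) 1 (Am ψ (b, v) *ᵥ cl b F x (ka θ) v) =
      hf (cl b F x (ka θ) v) (Am ψ (b, v)) (cl b F x (ka θ) v) := by rw [hf, one_mulVec, hf]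
  rw [h4, h2, hf_mul, mul_one, h.Ah_A hp, hf_smul, hf_add, Nm,
    th0_hf_eig (h.V_eig hF hx1 hx2 v), h1, cv_dot, dotProduct_comm, h.ann.angle_b,
    mul_conj' (br _ _)] at h3
  have h5 : ‖Qf ψ b (cl b F x (ka θ)) v‖ ^ 2 =
      confE ψ (b, v) / 2 * (1 + Real.cos θ) - pu ψ (b, v) ^ 2 / 4 := by
    apply ofReal_injective
    simp only [mul_one, one_mul, map_div₀, conj_ofReal, map_ofNat] at h3
    simp only [Qf, ofReal_sub, ofReal_mul, ofReal_div, ofReal_pow, ofReal_add, ofReal_one,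
      ofReal_ofNat]
    linear_combination -h3
  have h6 := Real.sq_sqrt (h.ann.immersion _ hp).le
  refine (sq_eq_sq₀ (norm_nonneg _) (by have := th0_cos h.ann.hθb; positivity)).1 ?_
  rw [h5, h.pu_b, mul_pow, Real.sin_sq, div_pow, mul_pow, h6]
  ring

theorem arg_QV (v : ℝ) : (Qd ψ b (cl b F x (ka θ)) v / Qf ψ b (cl b F x (ka θ)) v).im
    = (√(confE ψ (b, v)) - 2 * hq ψ b / √(confE ψ (b, v))) / Real.sin θ := by
  have hp := h.mem_b v
  have hE := Real.sqrt_pos.2 (h.ann.immersion _ hp)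
  have h6 := Real.sq_sqrt (h.ann.immersion _ hp).le
  have hs := h.sin_pos
  have hQ : Qf ψ b (cl b F x (ka θ)) v ≠ 0 := by
    rw [← norm_pos_iff, h.norm_QV hF hx1 hx2]
    have := th0_cos h.ann.hθb
    positivity
  have hpu : pu ψ (b, v) ≠ 0 := by
    rw [h.pu_b]
    positivity
  have h1 := congrArg (fun M => br (cl b F x (ka θ) v) (M *ᵥ cl b F x (ka θ) v))
    (h.bd_K0_A (Or.inr rfl) v)
  simp only [K0, ← mulVec_mulVec, add_mulVec, smul_mulVec, one_mulVec, th0_br_add,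
    th0_br_smul, br_self, zero_add] at h1
  have h2 := br_sg (cv (ψ (b, v))) (cl b F x (ka θ) v) (Am ψ (b, v) *ᵥ cl b F x (ka θ) v)
  rw [h.V_eig hF hx1 hx2] at h2
  have h3 : Qd ψ b (cl b F x (ka θ)) v / Qf ψ b (cl b F x (ka θ)) v =
      I * (gam ψ (b, v) + (2 * hq ψ b * (Real.cos θ - 1) / pu ψ (b, v) : ℝ)) := by
    have hpu' : (pu ψ (b, v) : ℂ) ≠ 0 := ofReal_ne_zero.2 hpu
    rw [div_eq_iff hQ, Qd, h.sg_ph1 hp, add_mulVec, smul_mulVec, smul_mulVec, th0_br_add,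
      th0_br_smul, th0_br_smul, Qf]
    simp only [ofReal_div, ofReal_mul, ofReal_sub, ofReal_one, ofReal_ofNat]
    field_simp
    linear_combination (-2 * hq ψ b : ℂ) * h1 + (2 * hq ψ b : ℂ) * h2
  have h4 := h.bd_al (Or.inr rfl) v
  rw [h3, I_mul_im, add_re, ofReal_re, gam]
  simp only [sub_re, ofReal_re, I_mul_re, ofReal_im, neg_zero, sub_zero]
  rw [eq_div_of_mul_eq hpu h4, h.pu_b]
  field_simp
  linear_combination -h6

end Cap

end Pool.Agent.Lib.MP_c7e804_gt
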