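import Pool.Agent.Lib.MP_c7e804_gt.H43SpecDefs
import Pool.Agent.Lib.MP_c7e804_gt.H43Th0

/-!
Definitions for obtuse contact angles.
-/

namespace Pool.Agent.Lib.MP_c7e804_gt

open Matrix Set Complex
open scoped ContDiff ComplexConjugate

/-- length of the closed curve `v ↦ ψ (u, v)` -/
noncomputable def LL (ψ : ℝ × ℝ → V3) (τ u : ℝ) : ℝ := ∫ v in (0 : ℝ)..τ, √(confE ψ (u, v))

/-- speed of the Gauss image of the curve `v ↦ ψ (u, v)` -/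
noncomputable def wN (ψ : ℝ × ℝ → V3) (b u v : ℝ) : ℝ := 2 * hq ψ b / √(confE ψ (u, v))

/-- length of the Gauss image of the closed curve `v ↦ ψ (u, v)` -/
noncomputable def LS (ψ : ℝ × ℝ → V3) (b τ u : ℝ) : ℝ := ∫ v in (0 : ℝ)..τ, wN ψ b u v

/-- boundary form of two solutions -/
noncomputable def Z2 (ψ : ℝ × ℝ → V3) (θ τ : ℝ) (κ : ℂ) (c c' : ℝ × ℝ → C2) (u : ℝ) : ℂ :=
  ∫ v in (0 : ℝ)..τ, hf (c (u, v)) (Km ψ θ κ (u, v) * Am ψ (u, v)) (c' (u, v))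

/-- boundary form of one solution -/
noncomputable def ZZ (ψ : ℝ × ℝ → V3) (θ τ : ℝ) (κ : ℂ) (c : ℝ × ℝ → C2) (u : ℝ) : ℂ :=
  ∫ v in (0 : ℝ)..τ, hf (c (u, v)) (Km ψ θ κ (u, v) * Am ψ (u, v)) (c (u, v))

/-- there is a Bloch solution on which the boundary form of the line `u = b` is not positive -/
def NP (ψ : ℝ × ℝ → V3) (a b τ θ : ℝ) (κ μ : ℂ) : Prop :=
  ∃ c, Floq ψ a b τ κ μ c ∧ ‖μ‖ = 1 ∧ (ZZ ψ θ τ (conj κ) c b).re ≤ 0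

/-- twisted periodic function with continuous derivative -/
structure Tw (τ : ℝ) (ν : ℂ) (η η' : ℝ → ℂ) : Prop where
  der : ∀ v, HasDerivAt η (η' v) v
  cont : Continuous η'
  per : η τ = ν * η 0

/-- the isoperimetric form -/
noncomputable def qf (τ s : ℝ) (w : ℝ → ℝ) (η η' ζ ζ' : ℝ → ℂ) : ℂ :=
  ∫ v in (0 : ℝ)..τ, (((s / w v : ℝ) : ℂ) * conj (η' v) * ζ' v - I * conj (η' v) * ζ v)

section
variable (ψ : ℝ × ℝ → V3) (b θ : ℝ) (F : ℂ → ℝ × ℝ → M2) (x : C2)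

/-- scalar coordinate of a solution along the line `u = b` -/
noncomputable def eta (c : ℝ × ℝ → C2) (v : ℝ) : ℂ :=
  br (c (b, v)) (Am ψ (b, v) *ᵥ cl b F x (ka θ) v) / Qf ψ b (cl b F x (ka θ)) v

/-- its derivative -/
noncomputable def eta' (c : ℝ × ℝ → C2) (v : ℝ) : ℂ :=
  -I * (hq ψ b : ℂ) * br (cl b F x (ka θ) v) (c (b, v)) / Qf ψ b (cl b F x (ka θ)) v

end

/-- the window of multipliers on which the boundary form of the line `u = b` is indefinite -/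
structure Window (ψ : ℝ × ℝ → V3) (a b τ θ : ℝ) (μ₀ : ℂ) : Prop where
  norm : ‖μ₀‖ = 1
  sq : μ₀ ^ 2 = cexp (I * ((LL ψ τ b - LS ψ b τ b) / Real.sin θ : ℝ))
  npa : NP ψ a b τ θ (ka θ) μ₀
  npb : NP ψ a b τ θ (kb θ) (μ₀ * cexp (I * (LS ψ b τ b / Real.sin θ : ℝ)))
  one : ∃ φ ∈ Ioo 0 (LS ψ b τ b / Real.sin θ), μ₀ * cexp (I * φ) = 1
  win : ∀ κ μ, NP ψ a b τ θ κ μ → ∃ φ ∈ Icc 0 (LS ψ b τ b / Real.sin θ), μ = μ₀ * cexp (I * φ)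
  uniq : ∀ κ κ' μ, NP ψ a b τ θ κ μ → NP ψ a b τ θ κ' μ → κ = κ' ∨ conj κ = κ'

/-- short boundary curve, short Gauss image, nonzero flux -/
structure Small (ψ : ℝ × ℝ → V3) (b τ θ : ℝ) : Prop where
  l1 : LL ψ τ b < 2 * Real.pi * Real.sin θ
  l2 : LS ψ b τ b < 2 * Real.pi * Real.sin θ
  fl : flux ψ τ b ≠ 0

/-- rotation of the parameter domain by a half turn -/
def rotR {F : Type} (f : ℝ × ℝ → F) : ℝ × ℝ → F := fun p => f (-p.1, -p.2)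

open Polynomial in
/-- abstract spectral data, with a root of `R` in every gap -/
structure SpecO (g : ℕ) (Y P R : Polynomial ℝ) (κa κb : ℝ) (Δ D α T β : ℝ → ℝ) : Prop where
  ka_neg : κa < 0
  kb_pos : 0 < κb
  Ydeg : Y.natDegree = 2 * g + 1
  Ylead : 0 < Y.leadingCoeff
  Pdeg : P.natDegree = g
  Plead : 0 < P.leadingCoeff
  Rdeg : R.natDegree = g + 2
  Rlead : 0 < R.leadingCoeff
  Δne : ∀ κ, κb < κ → Δ κ ≠ 0
  dD : ∀ κ, HasDerivAt D (α κ * P.eval κ) κ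
  dα : ∀ κ, ∃ α', HasDerivAt α α' κ ∧
    2 * α' * Y.eval κ + α κ * Y.derivative.eval κ = -2 * D κ * P.eval κ
  quadD : ∀ κ, D κ ^ 2 + α κ ^ 2 * Y.eval κ = 1
  dT : ∀ κ, κ ≠ κa → κ ≠ κb → HasDerivAt T (β κ * R.eval κ / (2 * Δ κ)) κ
  dβ : ∀ κ, κ ≠ κa → κ ≠ κb → ∃ β', HasDerivAt β β' κ ∧
    2 * β' * Y.eval κ + β κ * Y.derivative.eval κ = T κ * R.eval κ / Δ κ
  quadT : ∀ κ, κ ≠ κa → κ ≠ κb → T κ ^ 2 - β κ ^ 2 * Y.eval κ = 1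
  Ypos : ∀ κ ∈ Ioo κa κb, 0 < Y.eval κ
  real : ∀ z : ℂ, aeval z Y = 0 → z.im = 0
  Pne : ∀ κ, 0 ≤ Y.eval κ → P.eval κ ≠ 0
  gapR : ∀ x y, κb < x → x < y → Y.eval x = 0 → Y.eval y = 0 → (∀ κ ∈ Ioo x y, Y.eval κ < 0) →
    ∃ κ ∈ Ioo x y, R.eval κ = 0
  Ra : R.eval κa * P.eval κa < 0
  R0 : R.eval 0 = 0
  Rb : Y.eval κb = 0 → R.eval κb = 0

end Pool.Agent.Lib.MP_c7e804_gt
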