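import Pool.Agent.Lib.MP_c7e804_gt.H43Spec4b
import Pool.Agent.Lib.MP_c7e804_gt.H43ODefs

/-!
A root of the second spectral polynomial in every gap, from the signs of the boundary forms.
-/

namespace Pool.Agent.Lib.MP_c7e804_gt

open Matrix Set Complex
open scoped ContDiff ComplexConjugate

/-- a continuous argument of a differentiable function is differentiable -/
theorem h25_lift {th : ℝ → ℝ} {w : ℝ → ℂ} {w' : ℂ} {κ : ℝ} (hth : ContinuousAt th κ)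
    (he : ∀ᶠ k in nhds κ, cexp (I * th k) = w k) (hw : HasDerivAt w w' κ) :
    HasDerivAt th (w' / w κ).im κ := by
  have h0 : cexp (I * th κ) = w κ := he.self_of_nhds
  have hne : w κ ≠ 0 := h0 ▸ Complex.exp_ne_zero _
  have h1 : HasDerivAt (fun k => w k / w κ) (w' / w κ) κ := hw.div_const _
  have h2 : HasDerivAt (fun k => Complex.log (w k / w κ)) (w' / w κ) κ := by
    have h3 := h1.clog_real (by rw [div_self hne]; exact Complex.one_mem_slitPlane)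
    rwa [div_self hne, div_one] at h3
  have h4 : HasDerivAt (fun k => th κ + (Complex.log (w k / w κ)).im) (w' / w κ).im κ :=
    (Complex.imCLM.hasFDerivAt.comp_hasDerivAt κ h2).const_add _
  refine h4.congr_of_eventuallyEq ?_
  have h5 : ∀ᶠ k in nhds κ, |th k - th κ| < Real.pi := by
    have := Metric.continuousAt_iff'.1 hth Real.pi Real.pi_pos
    simpa only [Real.dist_eq] using this
  filter_upwards [he, h5] with k hk hk'
  rw [← hk, ← h0, ← Complex.exp_sub, Complex.log_exp]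
  · simp
  · simpa using (abs_lt.1 hk').1
  · simpa using (abs_lt.1 hk').2.le

/-- Rolle's theorem for a lifted argument in a gap -/
theorem h25_rolle {Y R : Polynomial ℝ} {Δ T β th : ℝ → ℝ} {x y : ℝ} (hxy : x < y)
    (hn : ∀ κ ∈ Ioo x y, Y.eval κ < 0) (hΔ : ∀ κ ∈ Ioo x y, Δ κ ≠ 0)
    (dT : ∀ κ ∈ Ioo x y, HasDerivAt T (β κ * R.eval κ / (2 * Δ κ)) κ)
    (dβ : ∀ κ ∈ Ioo x y, ∃ β', HasDerivAt β β' κ ∧
      2 * β' * Y.eval κ + β κ * Y.derivative.eval κ = T κ * R.eval κ / Δ κ)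
    (hc : ContinuousOn th (Icc x y)) (he : th x = th y)
    (hth : ∀ κ ∈ Ioo x y,
      cexp (I * th κ) = -((T κ : ℂ) - I * ((β κ * √(-Y.eval κ) : ℝ) : ℂ))) :
    ∃ κ ∈ Ioo x y, R.eval κ = 0 := by
  obtain ⟨κ, hκ, h0⟩ := exists_hasDerivAt_eq_zero (f' := fun κ =>
      R.eval κ / (2 * Δ κ * √(-Y.eval κ))) hxy hc he (by
    intro κ hκ
    obtain ⟨β', h1, h2⟩ := dβ κ hκ
    have hp : 0 < -Y.eval κ := neg_pos.2 (hn κ hκ)
    have hs : 0 < √(-Y.eval κ) := Real.sqrt_pos.2 hp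
    have hD := hΔ κ hκ
    have h5 : √(-Y.eval κ) ^ 2 = -Y.eval κ := Real.sq_sqrt hp.le
    have h3 : HasDerivAt (fun k => β k * √(-Y.eval k))
        (-(T κ * (R.eval κ / (2 * Δ κ * √(-Y.eval κ))))) κ := by
      refine (h1.mul ((Y.hasDerivAt κ).neg.sqrt hp.ne')).congr_deriv ?_
      simp only [Pi.neg_apply]
      generalize √(-Y.eval κ) = s at hs h5 ⊢
      have h6 : (2 * β' * Y.eval κ + β κ * Y.derivative.eval κ) * Δ κ = T κ * R.eval κ := by
        rw [h2]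
        field_simp
      field_simp
      linear_combination -h6 + (2 * β' * Δ κ) * h5
    have h4 := (((dT κ hκ).ofReal_comp).sub (h3.ofReal_comp.const_mul I)).neg
    have hnb : Ioo x y ∈ nhds κ := Ioo_mem_nhds hκ.1 hκ.2
    have h7 := h25_lift (hc.continuousAt (Icc_mem_nhds hκ.1 hκ.2))
      (Filter.mem_of_superset hnb hth) h4
    refine h7.congr_deriv ?_
    have hne : -((T κ : ℂ) - I * ((β κ * √(-Y.eval κ) : ℝ) : ℂ)) ≠ 0 :=
      hth κ hκ ▸ Complex.exp_ne_zero _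
    have h8 : β κ * R.eval κ / (2 * Δ κ)
        = β κ * √(-Y.eval κ) * (R.eval κ / (2 * Δ κ * √(-Y.eval κ))) := by
      field_simp
    rw [h8]
    generalize R.eval κ / (2 * Δ κ * √(-Y.eval κ)) = ρ
    have h9 : -(((β κ * √(-Y.eval κ) * ρ : ℝ) : ℂ) - I * ((-(T κ * ρ) : ℝ) : ℂ))
        = (I * ρ) * -((T κ : ℂ) - I * ((β κ * √(-Y.eval κ) : ℝ) : ℂ)) := by
      push_cast
      linear_combination (-(ρ : ℂ) * β κ * √(-Y.eval κ)) * I_sq
    rw [h9, mul_div_cancel_right₀ _ hne]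
    simp)
  refine ⟨κ, hκ, ?_⟩
  have hs : 0 < √(-Y.eval κ) := Real.sqrt_pos.2 (neg_pos.2 (hn κ hκ))
  have hD := hΔ κ hκ
  simpa only [div_eq_zero_iff, mul_eq_zero, hD, hs.ne', or_false, OfNat.ofNat_ne_zero] using h0

/-- the lifted angle of a quotient of two numbers of the slit plane -/
theorem h25_arg {za zb w : ℂ} {φ : ℝ} (ha : za ≠ 0) (hw : ‖w‖ = 1)
    (h : cexp (φ * I) * zb = w * za) : cexp (I * ((arg zb - arg za + φ : ℝ) : ℂ)) = w := by
  have hn : ‖zb‖ = ‖za‖ := by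
    have := congrArg norm h
    rwa [norm_mul, norm_mul, Complex.norm_exp_ofReal_mul_I, hw, one_mul, one_mul] at this
  have h1 := Complex.norm_mul_exp_arg_mul_I za
  have h2 := Complex.norm_mul_exp_arg_mul_I zb
  have h3 : ((‖za‖ : ℝ) : ℂ) ≠ 0 := by exact_mod_cast norm_ne_zero_iff.2 ha
  have h4 : cexp (I * ((arg zb - arg za + φ : ℝ) : ℂ)) * cexp (arg za * I)
      = cexp (φ * I) * cexp (arg zb * I) := by
    rw [← Complex.exp_add, ← Complex.exp_add]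
    congr 1
    push_cast
    ring
  refine mul_right_cancel₀ ha ?_
  rw [hn] at h2
  rw [← h]
  linear_combination (-cexp (I * ((arg zb - arg za + φ : ℝ) : ℂ))) * h1 + (‖za‖ : ℂ) * h4
    + cexp (φ * I) * h2

/-- weighted boundary form of a solution on the line `u` -/
noncomputable def h25Z (ψ : ℝ × ℝ → V3) (τ θ κ β : ℝ) (c : ℝ × ℝ → C2) (u : ℝ) : ℂ :=
  av τ β (fun r => hf (c r) (Km ψ θ κ r * Am ψ r) (c r)) u

namespace Cap
variable {ψ : ℝ × ℝ → V3} {a b τ θ : ℝ} (h : Cap ψ a b τ θ) {c : ℝ × ℝ → C2}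
include h

/-- the imaginary part of the boundary form has the sign of the growth rate -/
theorem h25_im {κ β : ℝ} {μ : ℂ} (hc : Floq ψ a b τ κ μ c) (hμ : ‖μ‖ = Real.exp (β * τ))
    {u : ℝ} (hu : u = a ∨ u = b) :
    ∃ N : ℝ, 0 < N ∧ κ * (h25Z ψ τ θ κ β c u).im = β * N := by
  have hτ := h.ann.hτ
  have hu' : u ∈ Icc a b := by
    have := h.ann.hab.le
    rcases hu with rfl | rfl
    exacts [left_mem_Icc.2 this, right_mem_Icc.2 this]
  have hn := h.pd_n1 hc.sol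
  have c1 := cont_line_v hn.cont hu'
  have c2 := cont_line_v hn.contv hu'
  obtain ⟨_, _, hfa, -⟩ := h.pd_fa hc.sol
  have c3 := cont_line_v hfa.cont hu'
  have ce : Continuous fun v : ℝ => Real.exp (-2 * β * v) := by fun_prop
  refine ⟨∫ v in (0 : ℝ)..τ, Real.exp (-2 * β * v) * (hf (c (u, v)) 1 (c (u, v))).re, ?_, ?_⟩
  · exact intervalIntegral.intervalIntegral_pos_of_pos ((ce.mul c1).intervalIntegrable _ _)
      (fun v => mul_pos (Real.exp_pos _) (hf_one_pos (hc.ne (u, v) hu'))) hτ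
  · have hd : ∀ v ∈ uIcc (0 : ℝ) τ, HasDerivAt
        (fun v => Real.exp (-2 * β * v) * (hf (c (u, v)) 1 (c (u, v))).re)
        (-2 * β * (Real.exp (-2 * β * v) * (hf (c (u, v)) 1 (c (u, v))).re)
          + 2 * κ * (Real.exp (-2 * β * v) * (hf (c (u, v)) (Am ψ (u, v)) (c (u, v))).im)) v := by
      intro v _
      have h1 : HasDerivAt (fun t : ℝ => -2 * β * t) (-2 * β) v := by
        simpa using (hasDerivAt_id v).const_mul (-2 * β)
      refine (h1.exp.mul (hn.hv (u, v) hu')).congr_deriv ?_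
      simp only [Complex.im_ofReal_mul]
      ring
    have i1 := ((ce.mul c1).intervalIntegrable (μ := MeasureTheory.volume) 0 τ).const_mul (-2 * β)
    have i2 := ((ce.mul (Complex.continuous_im.comp c3)).intervalIntegrable
      (μ := MeasureTheory.volume) 0 τ).const_mul (2 * κ)
    have hI := intervalIntegral.integral_eq_sub_of_hasDerivAt hd (i1.add i2)
    have hp := kav_per hc hu' (M := fun _ => 1) rfl
    rw [kav_norm hμ] at hp
    have hz : Real.exp (-2 * β * τ) * (hf (c (u, τ)) 1 (c (u, τ))).re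
        - Real.exp (-2 * β * 0) * (hf (c (u, 0)) 1 (c (u, 0))).re = 0 := by
      rw [hp, Complex.re_ofReal_mul, ← mul_assoc, ← Real.exp_add,
        show -2 * β * τ + 2 * (β * τ) = -2 * β * 0 by ring, sub_self]
    rw [hz] at hI
    have hI2 := (intervalIntegral.integral_add i1 i2).symm.trans hI
    rw [intervalIntegral.integral_const_mul, intervalIntegral.integral_const_mul] at hI2
    have e : (h25Z ψ τ θ κ β c u).im = ∫ v in (0 : ℝ)..τ,
        Real.exp (-2 * β * v) * (hf (c (u, v)) (Am ψ (u, v)) (c (u, v))).im := by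
      rw [h25Z, h.k1_av_Km hc.sol β hu', Complex.add_im, Complex.im_ofReal_mul,
        h.avb_real c β hu, mul_zero, add_zero, av, kav_im (by fun_prop)]
      simp only [Complex.im_ofReal_mul]
    rw [e]
    simp only [Pi.mul_apply, Function.comp_apply] at hI2
    linarith

/-- relation between the two boundary forms of an isotropic solution -/
theorem h25_rel {κ μ β : ℝ} (hc : Floq ψ a b τ κ μ c) (hμ : |μ| = Real.exp (β * τ)) {ta l : ℂ}
    (ha : ∀ v y, hf (c (a, v)) (Km ψ θ κ (a, v)) y = ta * br (c (a, v)) y)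
    (hb : ∀ v y, hf (c (b, v)) (Km ψ θ κ (b, v)) y = l * ta * br (c (b, v)) y) :
    cexp (((2 * β * (b - a) : ℝ) : ℂ) * I) * h25Z ψ τ θ κ β c b = l * h25Z ψ τ θ κ β c a := by
  have hΓ := k1_factor (x₀ := a) (s := fun _ => 0) h.ann.hab.le
    (fun u hu => h.k1_gam hc hμ hu) continuousOn_const
  simp only [mul_zero, intervalIntegral.integral_zero, sub_self, Complex.ofReal_zero, zero_mul,
    Complex.exp_zero, one_mul] at hΓ
  have bd : ∀ (u : ℝ) (t : ℂ), (∀ v y, hf (c (u, v)) (Km ψ θ κ (u, v)) y = t * br (c (u, v)) y) →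
      h25Z ψ τ θ κ β c u = t * av τ β (fun r => br (c r) (Am ψ r *ᵥ c r)) u := by
    intro u t ht
    unfold h25Z av
    rw [← intervalIntegral.integral_const_mul]
    refine intervalIntegral.integral_congr fun v _ => ?_
    have e : hf (c (u, v)) (Km ψ θ κ (u, v) * Am ψ (u, v)) (c (u, v))
        = hf (c (u, v)) (Km ψ θ κ (u, v)) (Am ψ (u, v) *ᵥ c (u, v)) := by
      simp only [hf, Matrix.mulVec_mulVec]
    simp only [e, ht]
    ring
  rw [bd a ta ha, bd b _ hb]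
  linear_combination (-l * ta) * hΓ

end Cap

namespace Setup
variable {ψ : ℝ × ℝ → V3} {a b τ θ : ℝ} {g : ℕ} {s : ℕ → ℝ × ℝ → ℂ} {F G : ℂ → ℝ × ℝ → M2}
  (h : Setup ψ a b τ θ g s F G)
include h

theorem h25_cont {u : ℝ} (hu : u ∈ Icc a b) : Continuous fun q : ℝ × ℝ × C2 =>
    h25Z ψ τ θ q.1 q.2.1 (fun r => F q.1 r *ᵥ q.2.2) u := by
  unfold h25Z av
  refine intervalIntegral.continuous_parametric_intervalIntegral_of_continuous' ?_ 0 τ
  have cF : Continuous fun p : (ℝ × ℝ × C2) × ℝ => F p.1.1 (u, p.2) :=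
    continuous_matrix fun i j => (h.frame.cont i j).comp_continuous
      (f := fun p : (ℝ × ℝ × C2) × ℝ => (((p.1.1 : ℝ) : ℂ), ((u, p.2) : ℝ × ℝ))) (by fun_prop)
      fun _ => ⟨mem_univ _, hu⟩
  have cK : Continuous fun p : (ℝ × ℝ × C2) × ℝ => K0 ψ θ (u, p.2) :=
    continuous_matrix fun i j => (cont_line_v (h.cap.pd_K0 i j).cont hu).comp continuous_snd
  have cA : Continuous fun p : (ℝ × ℝ × C2) × ℝ => Am ψ (u, p.2) :=
    continuous_matrix fun i j => (cont_line_v (h.cap.pd_A i j).cont hu).comp continuous_snd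
  have cc : Continuous fun p : (ℝ × ℝ × C2) × ℝ => F p.1.1 (u, p.2) *ᵥ p.1.2.2 :=
    cF.matrix_mulVec (by fun_prop)
  have cM : Continuous fun p : (ℝ × ℝ × C2) × ℝ => Km ψ θ p.1.1 (u, p.2) * Am ψ (u, p.2) :=
    (continuous_const.add ((Complex.continuous_ofReal.comp
      (continuous_fst.comp continuous_fst)).smul cK)).matrix_mul cA
  have ce : Continuous fun p : (ℝ × ℝ × C2) × ℝ =>
      ((Real.exp (-2 * p.1.2.1 * p.2) : ℝ) : ℂ) := by fun_prop
  have cf := ce.mul (cc.star.dotProduct (cM.matrix_mulVec cc))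
  refine cf.congr fun p => ?_
  simp only [Function.uncurry, hf, Pi.mul_apply]

theorem h25_floq {κ σ : ℝ} {x : C2} (hx : x ≠ 0)
    (he : sg (X0 ψ b g s κ) *ᵥ x = (I * σ) • x) :
    Floq ψ a b τ κ ((Dk b τ F κ - alk ψ b τ g s F κ * σ : ℝ) : ℂ) (fun r => F κ r *ᵥ x) := by
  refine h.cap.floq_F h.frame hx ?_
  rw [h.M_eq, add_mulVec, smul_mulVec, smul_mulVec, one_mulVec, he, smul_smul, ← add_smul]
  congr 1
  push_cast
  linear_combination (alk ψ b τ g s F κ * σ : ℂ) * I_sq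

/-- the two boundary forms of an eigenvector in a closed gap -/
theorem h25_eig {κ σ β : ℝ} (h1 : κ ≠ ka θ) (h2 : κ ≠ kb θ) {x : C2}
    (he : sg (X0 ψ b g s κ) *ᵥ x = (I * σ) • x)
    (hβ : |Dk b τ F κ - alk ψ b τ g s F κ * σ| = Real.exp (β * τ)) :
    cexp (((2 * β * (b - a) : ℝ) : ℂ) * I) * h25Z ψ τ θ κ β (fun r => F κ r *ᵥ x) b
      = ((Tk ψ a b θ F κ : ℂ) - I * ((bek ψ a b θ g s F κ * σ : ℝ) : ℂ))
        * h25Z ψ τ θ κ β (fun r => F κ r *ᵥ x) a := by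
  by_cases hx : x = 0
  · simp [h25Z, av, hf, hx]
  obtain ⟨ta, hta⟩ := null_form hx (hf_null (h.X0_ne κ) (h.Ha_X κ) he)
  have hB : Bm ψ a b θ F κ *ᵥ x
      = ((Tk ψ a b θ F κ : ℂ) + (bek ψ a b θ g s F κ : ℂ) * (I * σ)) • x := by
    rw [h.B_eq h1 h2, add_mulVec, smul_mulVec, smul_mulVec, one_mulVec, he, smul_smul, add_smul]
  refine h.cap.h25_rel (h.h25_floq hx he) hβ (ta := ta) (fun v y => ?_) fun v y => ?_
  · obtain ⟨y', rfl⟩ := h.s4a_surj κ (h.cap.mem_a v) y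
    rw [h.form_a, hta, h.s4a_br κ (h.cap.mem_a v)]
  · obtain ⟨y', rfl⟩ := h.s4a_surj κ (h.cap.mem_b v) y
    have e1 : hf y' (Km ψ θ κ (b, 0)) x
        = ((Tk ψ a b θ F κ : ℂ) + (bek ψ a b θ g s F κ : ℂ) * (I * σ))
          * hf y' (Ha ψ a θ F κ) x := by
      rw [← h.Ha_Bm h1 h2, hf, hf, ← mulVec_mulVec, hB, mulVec_smul, dotProduct_smul, smul_eq_mul]
    have e2 : hf x (Ha ψ a θ F κ) y' = conj (hf y' (Ha ψ a θ F κ) x) := by
      rw [← hf_ct, h.Ha_herm]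
    rw [h.form_b, h.s4a_br κ (h.cap.mem_b v), mul_assoc, ← hta, e2, ← Km_herm, hf_ct, e1, map_mul]
    congr 1
    simp only [map_add, map_mul, Complex.conj_ofReal, Complex.conj_I]
    push_cast
    ring

/-- signs of the boundary forms of an eigenvector -/
theorem h25_sign {κ σ β : ℝ} {x : C2} (he : sg (X0 ψ b g s κ) *ᵥ x = (I * σ) • x)
    (hβ : |Dk b τ F κ - alk ψ b τ g s F κ * σ| = Real.exp (β * τ)) {u ε : ℝ} (hu : u = a ∨ u = b)
    (hQ : ∀ (μ : ℂ) (c : ℝ × ℝ → C2), Floq ψ a b τ κ μ c → ‖μ‖ = 1 → 0 < ε *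
      (∫ v in (0 : ℝ)..τ, hf (c (u, v)) (Km ψ θ κ (u, v) * Am ψ (u, v)) (c (u, v))).re) :
    ∃ N : ℝ, 0 ≤ N ∧ κ * (h25Z ψ τ θ κ β (fun r => F κ r *ᵥ x) u).im = β * N ∧
      (β = 0 → 0 ≤ ε * (h25Z ψ τ θ κ β (fun r => F κ r *ᵥ x) u).re) ∧
      (x ≠ 0 → 0 < N ∧ (β = 0 → 0 < ε * (h25Z ψ τ θ κ β (fun r => F κ r *ᵥ x) u).re)) := by
  by_cases hx : x = 0
  · refine ⟨0, le_rfl, ?_, fun _ => ?_, fun h0 => absurd hx h0⟩ <;> simp [h25Z, av, hf, hx]
  have hc := h.h25_floq hx he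
  have hμ : ‖((Dk b τ F κ - alk ψ b τ g s F κ * σ : ℝ) : ℂ)‖ = Real.exp (β * τ) := by
    rw [Complex.norm_real, Real.norm_eq_abs, hβ]
  obtain ⟨N, hN, hN'⟩ := h.cap.h25_im hc hμ hu
  have h0 : β = 0 → 0 < ε * (h25Z ψ τ θ κ β (fun r => F κ r *ᵥ x) u).re := by
    rintro rfl
    rw [h25Z, kav_zero]
    have h1 := hQ _ _ hc (by rw [hμ]; simp)
    exact h1
  exact ⟨N, hN.le, hN', fun e => (h0 e).le, fun _ => ⟨hN, h0⟩⟩

/-- If the boundary forms of all Floquet solutions with unimodular multiplier are negative on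
`u = a` and positive on `u = b` in a closed gap, then `R` has a root in the gap. -/
theorem R_root_gap_of_forms {Y P R : Polynomial ℝ} (hp : Polys ψ a b τ θ g s Y P R) {x y : ℝ}
    (hb : kb θ < x) (hxy : x < y) (hx : Y.eval x = 0) (hy : Y.eval y = 0)
    (hn : ∀ κ ∈ Ioo x y, Y.eval κ < 0)
    (hQ : ∀ κ ∈ Icc x y, ∀ (μ : ℂ) (c : ℝ × ℝ → C2), Floq ψ a b τ κ μ c → ‖μ‖ = 1 →
      (∫ v in (0 : ℝ)..τ, hf (c (a, v)) (Km ψ θ κ (a, v) * Am ψ (a, v)) (c (a, v))).re < 0 ∧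
      0 < (∫ v in (0 : ℝ)..τ, hf (c (b, v)) (Km ψ θ κ (b, v) * Am ψ (b, v)) (c (b, v))).re) :
    ∃ κ ∈ Ioo x y, R.eval κ = 0 := by
  have hθ := h.cap.ann.hθa
  have hτ := h.cap.ann.hτ
  have hab := h.cap.ann.hab.le
  have hY : ∀ κ : ℝ, Y.eval κ = (Yf ψ b g s κ).re := fun κ => by
    have e : Polynomial.aeval (κ : ℂ) Y = ((Y.eval κ : ℝ) : ℂ) :=
      Polynomial.aeval_algebraMap_apply_eq_algebraMap_eval (A := ℂ) κ Y
    rw [← hp.Yev, e, Complex.ofReal_re]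
  have hpos : ∀ κ ∈ Icc x y, 0 < κ ∧ κ ≠ ka θ ∧ κ ≠ kb θ := fun κ hκ => by
    have h1 := hb.trans_le hκ.1
    have h2 := (kb_pos hθ).trans h1
    exact ⟨h2, ((ka_neg hθ).trans h2).ne', h1.ne'⟩
  have hle : ∀ κ ∈ Icc x y, Y.eval κ ≤ 0 := fun κ hκ => by
    rcases hκ.1.eq_or_lt with e | e
    · rw [← e, hx]
    · rcases hκ.2.eq_or_lt with e' | e'
      · rw [e', hy]
      · exact (hn κ ⟨e, e'⟩).le
  obtain ⟨σ, hσ⟩ : ∃ σ : ℝ → ℝ, σ = fun κ => √(-Y.eval κ) := ⟨_, rfl⟩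
  obtain ⟨m, hm⟩ : ∃ m : ℝ → ℝ, m = fun κ => Dk b τ F κ - alk ψ b τ g s F κ * σ κ := ⟨_, rfl⟩
  obtain ⟨β, hβ⟩ : ∃ β : ℝ → ℝ, β = fun κ => Real.log (m κ) / τ := ⟨_, rfl⟩
  obtain ⟨z, hz⟩ : ∃ z : Fin 2 → ℝ → C2, z = fun j κ =>
    ((I * σ κ) • (1 : M2) + sg (X0 ψ b g s κ)) *ᵥ Pi.single j 1 := ⟨_, rfl⟩
  obtain ⟨Z, hZ⟩ : ∃ Z : ℝ → ℝ → ℂ, Z = fun u κ =>
    h25Z ψ τ θ κ (β κ) (fun r => F κ r *ᵥ z 0 κ) u
      + h25Z ψ τ θ κ (β κ) (fun r => F κ r *ᵥ z 1 κ) u := ⟨_, rfl⟩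
  have hσ2 : ∀ κ ∈ Icc x y, σ κ ^ 2 = -Y.eval κ := fun κ hκ => by
    rw [hσ]
    exact Real.sq_sqrt (neg_nonneg.2 (hle κ hκ))
  have hm0 : ∀ κ ∈ Icc x y, m κ ≠ 0 := fun κ hκ => by
    have h1 := h.quadD κ
    rw [← hY] at h1
    refine left_ne_zero_of_mul_eq_one (b := Dk b τ F κ + alk ψ b τ g s F κ * σ κ) ?_
    rw [hm]
    linear_combination h1 - alk ψ b τ g s F κ ^ 2 * hσ2 κ hκ
  have hmβ : ∀ κ ∈ Icc x y, |Dk b τ F κ - alk ψ b τ g s F κ * σ κ| = Real.exp (β κ * τ) :=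
    fun κ hκ => by
      have h1 := hm0 κ hκ
      rw [hβ, div_mul_cancel₀ _ hτ.ne', Real.exp_log_eq_abs h1, hm]
  have hze : ∀ κ ∈ Icc x y, ∀ j, sg (X0 ψ b g s κ) *ᵥ z j κ = (I * σ κ) • z j κ := by
    intro κ hκ j
    have h1 : X0 ψ b g s κ ⬝ᵥ X0 ψ b g s κ = (I * σ κ) * (I * σ κ) := by
      rw [← h.s2_Yre κ, ← hY]
      have h2 : ((σ κ : ℝ) : ℂ) ^ 2 = -((Y.eval κ : ℝ) : ℂ) := by exact_mod_cast hσ2 κ hκ
      linear_combination h2 - (σ κ : ℂ) ^ 2 * I_sq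
    rw [hz]
    simp only
    rw [mulVec_mulVec, ← smul_mulVec, mul_add, sg_mul, cross_self, sg_zero, smul_zero, add_zero, h1,
      mul_smul_comm, mul_one, smul_add, smul_smul, add_comm]
  have hzne : ∀ κ, z 0 κ ≠ 0 ∨ z 1 κ ≠ 0 := by
    intro κ
    by_contra hc
    push Not at hc
    refine h.X0_ne κ (sg_inj (d := I * σ κ) ?_).2
    rw [hz] at hc
    ext i j
    fin_cases j
    · simpa using congrFun hc.1 i
    · simpa using congrFun hc.2 i
  have cσ : Continuous σ := by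
    rw [hσ]
    exact Real.continuous_sqrt.comp Y.continuous.neg
  have cm : Continuous m := by
    rw [hm]
    exact h.cont_Dk.sub (h.cont_alk.mul cσ)
  have cβ : ContinuousOn β (Icc x y) := by
    rw [hβ]
    exact (cm.continuousOn.log hm0).div_const τ
  have cz : ∀ j, Continuous (z j) := fun j => by
    rw [hz]
    exact (((continuous_const.mul (Complex.continuous_ofReal.comp cσ)).smul continuous_const).add
      (s2a_cont_sg.comp h.s2a_contX)).matrix_mulVec continuous_const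
  have cZ : ∀ u ∈ Icc a b, ContinuousOn (Z u) (Icc x y) := fun u hu => by
    have c1 : ∀ j, ContinuousOn
        (fun κ : ℝ => h25Z ψ τ θ κ (β κ) (fun r => F κ r *ᵥ z j κ) u) (Icc x y) := fun j => by
      have c2 := (h.h25_cont hu).comp_continuousOn (f := fun κ : ℝ => (κ, β κ, z j κ))
        (continuousOn_id.prodMk (cβ.prodMk (cz j).continuousOn))
      simpa only [Function.comp_def] using c2
    rw [hZ]
    exact ContinuousOn.add (c1 0) (c1 1)
  have hS : ∀ κ ∈ Icc x y, ∀ u ε : ℝ, (u = a ∨ u = b) →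
      (∀ (μ : ℂ) (c : ℝ × ℝ → C2), Floq ψ a b τ κ μ c → ‖μ‖ = 1 → 0 < ε *
        (∫ v in (0 : ℝ)..τ, hf (c (u, v)) (Km ψ θ κ (u, v) * Am ψ (u, v)) (c (u, v))).re) →
      (β κ ≠ 0 → (Z u κ).im ≠ 0) ∧ (β κ = 0 → (Z u κ).im = 0 ∧ 0 < ε * (Z u κ).re) := by
    intro κ hκ u ε hu hq
    obtain ⟨N, a1, a2, a3, a4⟩ := h.h25_sign (hze κ hκ 0) (hmβ κ hκ) hu hq
    obtain ⟨N', b1, b2, b3, b4⟩ := h.h25_sign (hze κ hκ 1) (hmβ κ hκ) hu hq
    have hk := (hpos κ hκ).1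
    have e : κ * (Z u κ).im = β κ * (N + N') := by
      rw [hZ]
      simp only [Complex.add_im]
      linarith
    refine ⟨fun h0 h1 => ?_, fun h0 => ⟨?_, ?_⟩⟩
    · have h2 : 0 < N + N' := by
        rcases hzne κ with h3 | h3
        · linarith [(a4 h3).1]
        · linarith [(b4 h3).1]
      rw [h1, mul_zero] at e
      exact mul_ne_zero h0 h2.ne' e.symm
    · rw [h0, zero_mul] at e
      exact (mul_eq_zero.1 e).resolve_left hk.ne'
    · rw [hZ]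
      simp only [Complex.add_re]
      rcases hzne κ with h3 | h3
      · linarith [(a4 h3).2 h0, b3 h0]
      · linarith [(b4 h3).2 h0, a3 h0]
  have hSa := fun κ hκ => hS κ hκ a (-1) (Or.inl rfl) fun μ c hc hμ => by
    linarith [(hQ κ hκ μ c hc hμ).1]
  have hSb := fun κ hκ => hS κ hκ b 1 (Or.inr rfl) fun μ c hc hμ => by
    linarith [(hQ κ hκ μ c hc hμ).2]
  have sa : ∀ κ ∈ Icc x y, -Z a κ ∈ slitPlane := fun κ hκ => by
    rw [mem_slitPlane_iff, Complex.neg_re, Complex.neg_im]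
    by_cases h0 : β κ = 0
    · exact Or.inl (by linarith [((hSa κ hκ).2 h0).2])
    · exact Or.inr (neg_ne_zero.2 ((hSa κ hκ).1 h0))
  have sb : ∀ κ ∈ Icc x y, Z b κ ∈ slitPlane := fun κ hκ => by
    rw [mem_slitPlane_iff]
    by_cases h0 : β κ = 0
    · exact Or.inl (by linarith [((hSb κ hκ).2 h0).2])
    · exact Or.inr ((hSb κ hκ).1 h0)
  have hedge : ∀ κ ∈ Icc x y, Y.eval κ = 0 →
      arg (Z b κ) - arg (-Z a κ) + 2 * β κ * (b - a) = 0 := fun κ hκ h0 => by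
    have h1 : σ κ = 0 := by rw [hσ]; simp [h0]
    have h2 := h.quadD κ
    rw [← hY, h0, mul_zero, add_zero] at h2
    have h3 : β κ = 0 := by
      have h4 := hmβ κ hκ
      rw [h1, mul_zero, sub_zero, (pow_eq_one_iff_of_nonneg (abs_nonneg (Dk b τ F κ))
        two_ne_zero).1 (by rw [sq_abs, h2]), eq_comm, Real.exp_eq_one_iff] at h4
      exact (mul_eq_zero.1 h4).resolve_right hτ.ne'
    obtain ⟨a1, a2⟩ := (hSa κ hκ).2 h3
    obtain ⟨b1, b2⟩ := (hSb κ hκ).2 h3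
    rw [arg_eq_zero_iff.2 ⟨by linarith, b1⟩, arg_eq_zero_iff.2
      ⟨by rw [Complex.neg_re]; linarith, by rw [Complex.neg_im, a1, neg_zero]⟩, h3]
    simp
  refine h25_rolle (Y := Y) (Δ := Dl θ) (T := Tk ψ a b θ F) (β := bek ψ a b θ g s F)
    (th := fun κ => arg (Z b κ) - arg (-Z a κ) + 2 * β κ * (b - a)) hxy hn
    (fun κ hκ => ?_) (fun κ hκ => ?_) (fun κ hκ => ?_) ?_ ?_ fun κ hκ => ?_
  · have := hpos κ (Ioo_subset_Icc_self hκ)
    exact h.s3_Dl_ne this.2.1 this.2.2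
  · have := hpos κ (Ioo_subset_Icc_self hκ)
    exact (h.dTβ hp this.2.1 this.2.2).1
  · have := hpos κ (Ioo_subset_Icc_self hκ)
    exact (h.dTβ hp this.2.1 this.2.2).2
  · refine (ContinuousOn.sub (fun κ hκ => ?_) fun κ hκ => ?_).add
      ((continuousOn_const.mul cβ).mul continuousOn_const)
    · exact ContinuousAt.comp_continuousWithinAt (f := Z b) (continuousAt_arg (sb κ hκ))
        (cZ b (right_mem_Icc.2 hab) κ hκ)
    · exact ContinuousAt.comp_continuousWithinAt (f := fun κ => -Z a κ)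
        (continuousAt_arg (sa κ hκ)) (cZ a (left_mem_Icc.2 hab) κ hκ).neg
  · rw [hedge x (left_mem_Icc.2 hxy.le) hx, hedge y (right_mem_Icc.2 hxy.le) hy]
  · have hκ' := Ioo_subset_Icc_self hκ
    obtain ⟨-, h1, h2⟩ := hpos κ hκ'
    have e0 : √(-Y.eval κ) = σ κ := by rw [hσ]
    rw [e0]
    refine h25_arg (slitPlane_ne_zero (sa κ hκ')) ?_ ?_
    · have h3 := h.quadT h1 h2
      rw [← hY] at h3
      have e : -((Tk ψ a b θ F κ : ℂ) - I * ((bek ψ a b θ g s F κ * σ κ : ℝ) : ℂ))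
          = ((-Tk ψ a b θ F κ : ℝ) : ℂ) + ((bek ψ a b θ g s F κ * σ κ : ℝ) : ℂ) * I := by
        push_cast
        ring
      rw [e, norm_add_mul_I, Real.sqrt_eq_one]
      linear_combination h3 + bek ψ a b θ g s F κ ^ 2 * hσ2 κ hκ'
    · have e1 := h.h25_eig h1 h2 (hze κ hκ' 0) (hmβ κ hκ')
      have e2 := h.h25_eig h1 h2 (hze κ hκ' 1) (hmβ κ hκ')
      rw [hZ]
      simp only
      linear_combination e1 + e2

theorem R_root_gap' {Y P R : Polynomial ℝ} (hp : Polys ψ a b τ θ g s Y P R)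
    (hpos : ∀ κ : ℝ, kb θ < κ → ∀ (μ : ℂ) (c : ℝ × ℝ → C2), Floq ψ a b τ κ μ c → ‖μ‖ = 1 →
      0 < (ZZ ψ θ τ κ c b).re ∧ (ZZ ψ θ τ κ c a).re < 0) {x y : ℝ}
    (hb : kb θ < x) (hxy : x < y) (hx : Y.eval x = 0) (hy : Y.eval y = 0)
    (hn : ∀ κ ∈ Ioo x y, Y.eval κ < 0) : ∃ κ ∈ Ioo x y, R.eval κ = 0 :=
  h.R_root_gap_of_forms hp hb hxy hx hy hn fun κ hκ μ c hc hμ =>
    (hpos κ (hb.trans_le hκ.1) μ c hc hμ).symm

end Setup

end Pool.Agent.Lib.MP_c7e804_gt
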