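import Pool.Agent.Lib.MP_c7e804_gt.H43Alg2

/-!
Polynomial functions of the spectral parameter.
-/

namespace Pool.Agent.Lib.MP_c7e804_gt

open Matrix Set Complex
open scoped ContDiff ComplexConjugate

theorem IsPoly.add {n : ℕ} {c c' : ℂ} {f f' : ℂ → ℂ} (h : IsPoly n c f) (h' : IsPoly n c' f') :
    IsPoly n (c + c') (fun κ => f κ + f' κ) := by
  obtain ⟨P, h1, h2, h3⟩ := h
  obtain ⟨Q, h1', h2', h3'⟩ := h'
  exact ⟨P + Q, (Polynomial.natDegree_add_le _ _).trans (_root_.max_le h1 h1'), by simp [h2, h2'],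
    fun κ => by simp [h3, h3']⟩
theorem IsPoly.mul {n n' : ℕ} {c c' : ℂ} {f f' : ℂ → ℂ} (h : IsPoly n c f) (h' : IsPoly n' c' f') :
    IsPoly (n + n') (c * c') (fun κ => f κ * f' κ) := by
  obtain ⟨P, h1, h2, h3⟩ := h
  obtain ⟨Q, h1', h2', h3'⟩ := h'
  exact ⟨P * Q, Polynomial.natDegree_mul_le.trans (add_le_add h1 h1'),
    by rw [Polynomial.coeff_mul_add_eq_of_natDegree_le h1 h1', h2, h2'],
    fun κ => by simp [h3, h3']⟩
theorem IsPoly.mono {n m : ℕ} {c : ℂ} {f : ℂ → ℂ} (h : IsPoly n c f) (hm : n < m) :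
    IsPoly m 0 f := by
  obtain ⟨P, h1, -, h3⟩ := h
  exact ⟨P, h1.trans hm.le, Polynomial.coeff_eq_zero_of_natDegree_lt (h1.trans_lt hm), h3⟩
theorem IsPoly.const (c : ℂ) : IsPoly 0 c (fun _ => c) :=
  ⟨Polynomial.C c, by simp, by simp, fun κ => by simp⟩
theorem IsPoly.id : IsPoly 1 1 (fun κ => κ) :=
  ⟨Polynomial.X, by simp, by simp, fun κ => by simp⟩
theorem IsPoly.sum_range (n : ℕ) (c : ℕ → ℂ) :
    IsPoly n (c n) (fun κ => ∑ j ∈ Finset.range (n + 1), κ ^ j * c j) := by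
  refine ⟨∑ j ∈ Finset.range (n + 1), Polynomial.monomial j (c j), ?_, ?_, fun κ => ?_⟩
  · refine Polynomial.natDegree_sum_le_of_forall_le _ _ fun j hj => ?_
    exact (Polynomial.natDegree_monomial_le _).trans (Nat.lt_succ_iff.1 (Finset.mem_range.1 hj))
  · simp [Polynomial.coeff_monomial]
  · simp [Polynomial.eval_finsetSum, mul_comm]
theorem IsPoly.differentiable {n : ℕ} {c : ℂ} {f : ℂ → ℂ} (h : IsPoly n c f) :
    Differentiable ℂ f := by
  obtain ⟨P, -, -, h3⟩ := h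
  have : f = fun κ => P.eval κ := funext fun κ => (h3 κ).symm
  rw [this]
  exact P.differentiable

/-- a polynomial function vanishing on the real line away from a finite set vanishes -/
theorem alg_poly_eq_zero (P : Polynomial ℂ) (S : Finset ℝ)
    (h0 : ∀ κ : ℝ, κ ∉ S → P.eval (κ : ℂ) = 0) : P = 0 := by
  apply Polynomial.eq_zero_of_infinite_isRoot
  have hinf : ((fun κ : ℝ => (κ : ℂ)) '' (S : Set ℝ)ᶜ).Infinite :=
    (S.finite_toSet.infinite_compl).image Complex.ofReal_injective.injOn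
  refine hinf.mono ?_
  rintro _ ⟨κ, hκ, rfl⟩
  exact h0 κ hκ

/-- real part on the real line of a polynomial function -/
theorem IsPoly.exists_real {n : ℕ} {c : ℂ} {f : ℂ → ℂ} (h : IsPoly n c f) (hc : 0 < c.re) :
    ∃ P : Polynomial ℝ, P.natDegree = n ∧ 0 < P.leadingCoeff ∧ (∀ κ : ℝ, P.eval κ = (f κ).re) ∧
      ((∀ κ : ℝ, (f κ).im = 0) → ∀ z : ℂ, Polynomial.aeval z P = f z) := by
  obtain ⟨Q, h1, h2, h3⟩ := h
  set P : Polynomial ℝ := ∑ j ∈ Finset.range (n + 1), Polynomial.monomial j (Q.coeff j).re with hP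
  have hcoeff : P.coeff n = c.re := by simp [hP, Polynomial.coeff_monomial, h2]
  have hle : P.natDegree ≤ n := by
    refine Polynomial.natDegree_sum_le_of_forall_le _ _ fun j hj => ?_
    exact (Polynomial.natDegree_monomial_le _).trans (Nat.lt_succ_iff.1 (Finset.mem_range.1 hj))
  have hdeg : P.natDegree = n :=
    Polynomial.natDegree_eq_of_le_of_coeff_ne_zero hle (by rw [hcoeff]; exact hc.ne')
  have hev : ∀ κ : ℝ, P.eval κ = (f κ).re := by
    intro κ
    rw [← h3, Polynomial.eval_eq_sum_range' (Nat.lt_succ_of_le h1), hP]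
    simp only [Polynomial.eval_finsetSum, Polynomial.eval_monomial, Complex.re_sum]
    refine Finset.sum_congr rfl fun j _ => ?_
    rw [← Complex.ofReal_pow, Complex.re_mul_ofReal]
  refine ⟨P, hdeg, by rw [Polynomial.leadingCoeff, hdeg, hcoeff]; exact hc, hev, fun him z => ?_⟩
  have hz : P.map (algebraMap ℝ ℂ) - Q = 0 := by
    refine alg_poly_eq_zero _ ∅ fun κ _ => ?_
    rw [Polynomial.eval_sub, h3, Polynomial.eval_map_algebraMap]
    have : Polynomial.aeval (κ : ℂ) P = ((P.eval κ : ℝ) : ℂ) :=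
      Polynomial.aeval_algebraMap_apply_eq_algebraMap_eval κ P
    rw [this, hev, sub_eq_zero]
    exact Complex.ext (by simp) (by simp [him κ])
  rw [← h3, ← sub_eq_zero.1 hz, Polynomial.eval_map_algebraMap]

/-- a polynomial function vanishing on the real line away from a finite set vanishes -/
theorem IsPoly.eq_zero {n : ℕ} {c : ℂ} {f : ℂ → ℂ} (h : IsPoly n c f) (S : Finset ℝ)
    (h0 : ∀ κ : ℝ, κ ∉ S → f κ = 0) (z : ℂ) : f z = 0 := by
  obtain ⟨P, -, -, h3⟩ := h
  rw [← h3, alg_poly_eq_zero P S fun κ hκ => by rw [h3, h0 κ hκ], Polynomial.eval_zero]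

end Pool.Agent.Lib.MP_c7e804_gt
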