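import Pool.Agent.Lib.MP_c7e804_gt.H43Basic

/-!
Algebra of Pauli matrices and spinors.
-/

namespace Pool.Agent.Lib.MP_c7e804_gt

open Matrix Set Complex
open scoped ContDiff ComplexConjugate

theorem alg1_sg00 (x : C3) : sg x 0 0 = x 2 := rfl
theorem alg1_sg01 (x : C3) : sg x 0 1 = x 0 - I * x 1 := rfl
theorem alg1_sg10 (x : C3) : sg x 1 0 = x 0 + I * x 1 := rfl
theorem alg1_sg11 (x : C3) : sg x 1 1 = -x 2 := rfl

theorem alg1_ext2 {M K : M2} (h00 : M 0 0 = K 0 0) (h01 : M 0 1 = K 0 1) (h10 : M 1 0 = K 1 0)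
    (h11 : M 1 1 = K 1 1) : M = K := by
  ext i j
  fin_cases i <;> fin_cases j
  exacts [h00, h01, h10, h11]

theorem alg1_extv2 {x y : C2} (h0 : x 0 = y 0) (h1 : x 1 = y 1) : x = y := by
  ext i
  fin_cases i
  exacts [h0, h1]

theorem alg1_extv3 {F : Type} {x y : Fin 3 → F} (h0 : x 0 = y 0) (h1 : x 1 = y 1)
    (h2 : x 2 = y 2) : x = y := by
  ext i
  fin_cases i
  exacts [h0, h1, h2]

theorem alg1_mv0 (M : M2) (c : C2) : (M *ᵥ c) 0 = M 0 0 * c 0 + M 0 1 * c 1 := by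
  simp [Matrix.mulVec, dotProduct, Fin.sum_univ_two]

theorem alg1_mv1 (M : M2) (c : C2) : (M *ᵥ c) 1 = M 1 0 * c 0 + M 1 1 * c 1 := by
  simp [Matrix.mulVec, dotProduct, Fin.sum_univ_two]

theorem alg1_ne2 {c : C2} (hc : c ≠ 0) : c 0 ≠ 0 ∨ c 1 ≠ 0 := by
  by_contra hn
  push Not at hn
  exact hc (alg1_extv2 hn.1 hn.2)

theorem sg_add (x y : C3) : sg (x + y) = sg x + sg y := by
  apply alg1_ext2 <;> simp [sg] <;> ring
theorem sg_sub (x y : C3) : sg (x - y) = sg x - sg y := by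
  apply alg1_ext2 <;> simp [sg] <;> ring
theorem sg_neg (x : C3) : sg (-x) = -sg x := by
  apply alg1_ext2 <;> simp [sg] <;> ring
theorem sg_smul (c : ℂ) (x : C3) : sg (c • x) = c • sg x := by
  apply alg1_ext2 <;> simp [sg] <;> ring
theorem sg_zero : sg 0 = 0 := by
  apply alg1_ext2 <;> simp [sg]
theorem sg_mul (x y : C3) : sg x * sg y = (x ⬝ᵥ y) • (1 : M2) + I • sg (x ⨯₃ y) := by
  apply alg1_ext2 <;>
    simp [sg, Matrix.mul_apply, Fin.sum_univ_two, dotProduct, Fin.sum_univ_three, cross_apply]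
  · linear_combination (-(x 1 * y 1)) * I_sq
  · linear_combination (x 2 * y 0 - x 0 * y 2) * I_sq
  · linear_combination (-(x 2 * y 0 - x 0 * y 2)) * I_sq
  · linear_combination (-(x 1 * y 1)) * I_sq
theorem sg_comm (x y : C3) : sg x * sg y - sg y * sg x = (2 * I) • sg (x ⨯₃ y) := by
  rw [sg_mul, sg_mul, dotProduct_comm y x, ← cross_anticomm x y, sg_neg]
  module
theorem sg_anti (x y : C3) : sg x * sg y + sg y * sg x = (2 * (x ⬝ᵥ y)) • (1 : M2) := by
  rw [sg_mul, sg_mul, dotProduct_comm y x, ← cross_anticomm x y, sg_neg]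
  module
theorem trace_sg (x : C3) : (sg x).trace = 0 := by
  simp [sg, Matrix.trace_fin_two]
theorem trace_sg_mul (x y : C3) : (sg x * sg y).trace = 2 * (x ⬝ᵥ y) := by
  rw [sg_mul, trace_add, trace_smul, trace_smul, trace_sg, trace_one]
  simp
  ring
theorem sg_ct (x : C3) : (sg x)ᴴ = sg (star x) := by
  apply alg1_ext2 <;> simp [sg, sub_eq_add_neg]
theorem det_sg (d : ℂ) (x : C3) : (d • (1 : M2) + sg x).det = d ^ 2 - x ⬝ᵥ x := by
  simp [sg, Matrix.det_fin_two, dotProduct, Fin.sum_univ_three]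
  linear_combination (x 1 ^ 2) * I_sq
theorem adj_sg (d : ℂ) (x : C3) : (d • (1 : M2) + sg x).adjugate = d • (1 : M2) - sg x := by
  rw [Matrix.adjugate_fin_two]
  apply alg1_ext2 <;> simp [sg] <;> ring
theorem sg_inj {d : ℂ} {x : C3} (h : d • (1 : M2) + sg x = 0) : d = 0 ∧ x = 0 := by
  have h00 := congrFun (congrFun h 0) 0
  have h01 := congrFun (congrFun h 0) 1
  have h10 := congrFun (congrFun h 1) 0
  have h11 := congrFun (congrFun h 1) 1
  simp only [Matrix.add_apply, Matrix.smul_apply, alg1_sg00, alg1_sg01, alg1_sg10, alg1_sg11,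
    Matrix.zero_apply, one_apply_eq, smul_eq_mul, mul_one, ne_eq, zero_ne_one, one_ne_zero,
    not_false_eq_true, one_apply_ne, mul_zero, zero_add] at h00 h01 h10 h11
  refine ⟨by linear_combination (h00 + h11) / 2, alg1_extv3 ?_ ?_ ?_⟩
  · show x 0 = 0
    linear_combination (h01 + h10) / 2
  · show x 1 = 0
    linear_combination I * (h01 - h10) / 2 + x 1 * I_sq
  · show x 2 = 0
    linear_combination (h00 - h11) / 2
theorem sg_eq_zero {x : C3} (h : sg x = 0) : x = 0 :=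
  (sg_inj (d := 0) (by rw [zero_smul, zero_add, h])).2
theorem exists_decomp (M : M2) : ∃ (d : ℂ) (x : C3), M = d • (1 : M2) + sg x := by
  refine ⟨(M 0 0 + M 1 1) / 2,
    ![(M 0 1 + M 1 0) / 2, I * (M 0 1 - M 1 0) / 2, (M 0 0 - M 1 1) / 2], ?_⟩
  apply alg1_ext2 <;> simp [sg]
  · ring
  · linear_combination ((M 0 1 - M 1 0) / 2) * I_sq
  · linear_combination (-(M 0 1 - M 1 0) / 2) * I_sq
  · ring

theorem star_cv (x : V3) : star (cv x) = cv x := by
  ext i; simp [cv]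
theorem cv_add (x y : V3) : cv (x + y) = cv x + cv y := by
  ext i; simp [cv]
theorem cv_sub (x y : V3) : cv (x - y) = cv x - cv y := by
  ext i; simp [cv]
theorem cv_smul (c : ℝ) (x : V3) : cv (c • x) = (c : ℂ) • cv x := by
  ext i; simp [cv]
theorem cv_dot (x y : V3) : cv x ⬝ᵥ cv y = ((x ⬝ᵥ y : ℝ) : ℂ) := by
  simp [cv, dotProduct]
theorem cv_cross (x y : V3) : cv x ⨯₃ cv y = cv (x ⨯₃ y) := by
  apply alg1_extv3 <;> simp [cv, cross_apply]
theorem eq_re_im (x : C3) : x = cv (re3 x) + I • cv (im3 x) := by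
  ext i
  apply Complex.ext <;> simp [cv, re3, im3]
theorem star_eq_re_im (x : C3) : star x = cv (re3 x) - I • cv (im3 x) := by
  ext i
  apply Complex.ext <;> simp [cv, re3, im3]
theorem cv_dot_re (x : V3) (y : C3) : (cv x ⬝ᵥ y).re = x ⬝ᵥ re3 y := by
  simp [cv, re3, dotProduct, Fin.sum_univ_three]
theorem cv_dot_im (x : V3) (y : C3) : (cv x ⬝ᵥ y).im = x ⬝ᵥ im3 y := by
  simp [cv, im3, dotProduct, Fin.sum_univ_three]
theorem dot_star_pos {x : C3} (hx : x ≠ 0) :
    0 < (x ⬝ᵥ star x).re ∧ (x ⬝ᵥ star x).im = 0 := by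
  have e : x ⬝ᵥ star x = ((normSq (x 0) + normSq (x 1) + normSq (x 2) : ℝ) : ℂ) := by
    simp [dotProduct, Fin.sum_univ_three, mul_conj]
  rw [e, ofReal_re, ofReal_im]
  refine ⟨?_, rfl⟩
  have h0 := normSq_nonneg (x 0)
  have h1 := normSq_nonneg (x 1)
  have h2 := normSq_nonneg (x 2)
  by_contra hn
  apply hx
  apply alg1_extv3
  · exact normSq_eq_zero.1 (by linarith)
  · exact normSq_eq_zero.1 (by linarith)
  · exact normSq_eq_zero.1 (by linarith)

theorem alg1_par {x y : C3} (hx : x ≠ 0) (h : y ⨯₃ x = 0) : ∃ t : ℂ, y = t • x := by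
  have h0 := congrFun h 0
  have h1 := congrFun h 1
  have h2 := congrFun h 2
  simp only [cross_apply, cons_val_zero, cons_val_one, cons_val_two, Pi.zero_apply,
    Nat.succ_eq_add_one, Nat.reduceAdd, tail_cons, head_cons] at h0 h1 h2
  by_cases a0 : x 0 = 0
  · by_cases a1 : x 1 = 0
    · have a2 : x 2 ≠ 0 := fun a2 => hx (alg1_extv3 a0 a1 a2)
      refine ⟨y 2 / x 2, alg1_extv3 ?_ ?_ ?_⟩ <;> simp only [Pi.smul_apply, smul_eq_mul] <;>
        field_simp
      · linear_combination -h1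
      · linear_combination h0
    · refine ⟨y 1 / x 1, alg1_extv3 ?_ ?_ ?_⟩ <;> simp only [Pi.smul_apply, smul_eq_mul] <;>
        field_simp
      · linear_combination h2
      · linear_combination -h0
  · refine ⟨y 0 / x 0, alg1_extv3 ?_ ?_ ?_⟩ <;> simp only [Pi.smul_apply, smul_eq_mul] <;>
      field_simp
    · linear_combination -h2
    · linear_combination h1

/-- a matrix commuting with a nonzero Pauli matrix -/
theorem centralizer {x : C3} (hx : x ≠ 0) {M : M2} (h : M * sg x = sg x * M) :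
    ∃ d t : ℂ, M = d • (1 : M2) + t • sg x := by
  obtain ⟨d, y, rfl⟩ := exists_decomp M
  have e : (2 * I) • sg (y ⨯₃ x) = 0 := by
    rw [← sg_comm]
    simp only [add_mul, mul_add, smul_mul_assoc, mul_smul_comm, one_mul, mul_one] at h
    exact sub_eq_zero.2 (add_left_cancel h)
  have e2 : y ⨯₃ x = 0 :=
    sg_eq_zero ((smul_eq_zero.1 e).resolve_left (mul_ne_zero two_ne_zero I_ne_zero))
  obtain ⟨t, rfl⟩ := alg1_par hx e2
  exact ⟨d, t, by rw [sg_smul]⟩

theorem exists_eig (x : C3) {s : ℂ} (h : s ^ 2 = x ⬝ᵥ x) :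
    ∃ c : C2, c ≠ 0 ∧ sg x *ᵥ c = s • c := by
  have e : ((-s) • (1 : M2) + sg x).det = 0 := by rw [det_sg, ← h]; ring
  obtain ⟨c, hc, hm⟩ := Matrix.exists_mulVec_eq_zero_iff.2 e
  refine ⟨c, hc, ?_⟩
  rw [add_mulVec, smul_mulVec, one_mulVec, neg_smul, neg_add_eq_zero] at hm
  exact hm.symm

theorem br_mulVec (M : M2) (x y : C2) : br (M *ᵥ x) (M *ᵥ y) = M.det * br x y := by
  simp only [br, alg1_mv0, alg1_mv1, Matrix.det_fin_two]
  ring
theorem br_sg (w : C3) (x y : C2) : br (sg w *ᵥ x) y = -br x (sg w *ᵥ y) := by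
  simp only [br, alg1_mv0, alg1_mv1, alg1_sg00, alg1_sg01, alg1_sg10, alg1_sg11]
  ring
theorem br_self (x : C2) : br x x = 0 := by
  simp only [br]
  ring
theorem br_smul (s t : ℂ) (x y : C2) : br (s • x) (t • y) = s * t * br x y := by
  simp only [br, Pi.smul_apply, smul_eq_mul]
  ring
theorem br_eq_zero {x y : C2} (hx : x ≠ 0) (h : br x y = 0) : ∃ t : ℂ, y = t • x := by
  simp only [br] at h
  rcases alg1_ne2 hx with a0 | a1
  · refine ⟨y 0 / x 0, alg1_extv2 ?_ ?_⟩ <;> simp only [Pi.smul_apply, smul_eq_mul] <;>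
      field_simp
    linear_combination h
  · refine ⟨y 1 / x 1, alg1_extv2 ?_ ?_⟩ <;> simp only [Pi.smul_apply, smul_eq_mul] <;>
      field_simp
    linear_combination -h

theorem eig_unique {x : C3} (hx : x ≠ 0) {s : ℂ} {c c' : C2} (hc : c ≠ 0)
    (h1 : sg x *ᵥ c = s • c) (h2 : sg x *ᵥ c' = s • c') : ∃ t : ℂ, c' = t • c := by
  apply br_eq_zero hc
  by_contra hb
  apply hx
  refine (sg_inj (d := -s) ?_).2
  have a0 := congrFun h1 0
  have a1 := congrFun h1 1
  have b0 := congrFun h2 0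
  have b1 := congrFun h2 1
  simp only [alg1_mv0, alg1_mv1, Pi.smul_apply, smul_eq_mul] at a0 a1 b0 b1
  apply alg1_ext2 <;> apply mul_right_cancel₀ hb <;>
    simp only [br, Matrix.add_apply, Matrix.smul_apply, Matrix.zero_apply, one_apply_eq,
      smul_eq_mul, mul_one, ne_eq, zero_ne_one, one_ne_zero, not_false_eq_true, one_apply_ne,
      mul_zero, zero_add, zero_mul]
  · linear_combination c' 1 * a0 - c 1 * b0
  · linear_combination c 0 * b0 - c' 0 * a0
  · linear_combination c' 1 * a1 - c 1 * b1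
  · linear_combination c 0 * b1 - c' 0 * a1

theorem exists_unit_eig {n : V3} (hn : n ⬝ᵥ n = 1) :
    ∃ c : C2, star c ⬝ᵥ c = 1 ∧ sg (cv n) *ᵥ c = c := by
  obtain ⟨c, hc, h⟩ := exists_eig (cv n) (s := 1) (by rw [cv_dot, hn]; simp)
  have e : star c ⬝ᵥ c = ((normSq (c 0) + normSq (c 1) : ℝ) : ℂ) := by
    simp [dotProduct, Fin.sum_univ_two, normSq_eq_conj_mul_self]
  have hp : 0 < normSq (c 0) + normSq (c 1) := by
    have h0 := normSq_nonneg (c 0)
    have h1 := normSq_nonneg (c 1)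
    rcases alg1_ne2 hc with a | a
    · have := normSq_pos.2 a
      linarith
    · have := normSq_pos.2 a
      linarith
  set m := normSq (c 0) + normSq (c 1)
  refine ⟨(((√m)⁻¹ : ℝ) : ℂ) • c, ?_, ?_⟩
  · rw [star_smul, smul_dotProduct, dotProduct_smul, e, Complex.star_def, conj_ofReal,
      smul_eq_mul, smul_eq_mul, ← ofReal_mul, ← ofReal_mul, ← mul_assoc, ← mul_inv,
      Real.mul_self_sqrt hp.le, inv_mul_cancel₀ hp.ne', ofReal_one]
  · rw [mulVec_smul, h, one_smul]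

/-- a nilpotent Pauli matrix has rank one -/
theorem nilp_form {x : C3} (hx : x ≠ 0) {c : C2} (hc : c ≠ 0) (h : sg x *ᵥ c = 0) :
    ∃ t : ℂ, t ≠ 0 ∧ ∀ y : C2, sg x *ᵥ y = (t * br c y) • c := by
  have a0 := congrFun h 0
  have a1 := congrFun h 1
  simp only [alg1_mv0, alg1_mv1, Pi.zero_apply, alg1_sg00, alg1_sg01, alg1_sg10,
    alg1_sg11] at a0 a1
  have key : ∃ t : ℂ, ∀ y : C2, sg x *ᵥ y = (t * br c y) • c := by
    rcases alg1_ne2 hc with a | a
    · refine ⟨(x 0 - I * x 1) / c 0 ^ 2, fun y => alg1_extv2 ?_ ?_⟩ <;>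
        simp only [alg1_mv0, alg1_mv1, alg1_sg00, alg1_sg01, alg1_sg10, alg1_sg11, br,
          Pi.smul_apply, smul_eq_mul] <;> field_simp
      · linear_combination y 0 * a0
      · linear_combination (c 0 * y 0) * a1 + (c 1 * y 0 - c 0 * y 1) * a0
    · refine ⟨-(x 0 + I * x 1) / c 1 ^ 2, fun y => alg1_extv2 ?_ ?_⟩ <;>
        simp only [alg1_mv0, alg1_mv1, alg1_sg00, alg1_sg01, alg1_sg10, alg1_sg11, br,
          Pi.smul_apply, smul_eq_mul] <;> field_simp
      · linear_combination (c 1 * y 1) * a0 + (c 0 * y 1 - c 1 * y 0) * a1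
      · linear_combination y 1 * a1
  obtain ⟨t, ht⟩ := key
  refine ⟨t, ?_, ht⟩
  rintro rfl
  apply hx
  apply sg_eq_zero
  have b0 := ht ![1, 0]
  have b1 := ht ![0, 1]
  rw [zero_mul, zero_smul] at b0 b1
  have c0 := congrFun b0 0
  have c1 := congrFun b0 1
  have d0 := congrFun b1 0
  have d1 := congrFun b1 1
  simp only [alg1_mv0, alg1_mv1, cons_val_zero, cons_val_one, mul_one, mul_zero, add_zero,
    zero_add, Pi.zero_apply] at c0 c1 d0 d1
  exact alg1_ext2 c0 d0 c1 d1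

theorem trace_of_nilp_form {X M : M2} {t : ℂ} {c : C2} (h : ∀ y : C2, X *ᵥ y = (t * br c y) • c) :
    (X * M).trace = t * br c (M *ᵥ c) := by
  have c0 := congrFun (h ![1, 0]) 0
  have c1 := congrFun (h ![1, 0]) 1
  have d0 := congrFun (h ![0, 1]) 0
  have d1 := congrFun (h ![0, 1]) 1
  simp only [alg1_mv0, alg1_mv1, cons_val_zero, cons_val_one, mul_one, mul_zero, add_zero,
    zero_add, br, Pi.smul_apply, smul_eq_mul] at c0 c1 d0 d1
  simp only [Matrix.trace_fin_two, Matrix.mul_apply, Fin.sum_univ_two, br, alg1_mv0, alg1_mv1,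
    c0, c1, d0, d1]
  ring

/-- if `A² = 0` and `[c, A c] = 0` then `A c = 0` -/
theorem nil_of_br {A : M2} (hA : A * A = 0) {c : C2} (h : br c (A *ᵥ c) = 0) : A *ᵥ c = 0 := by
  by_cases hc : c = 0
  · rw [hc, mulVec_zero]
  obtain ⟨t, ht⟩ := br_eq_zero hc h
  have e : (t * t) • c = 0 := by
    rw [mul_smul, ← ht, ← mulVec_smul, ← ht, mulVec_mulVec, hA, zero_mulVec]
  have e2 : t = 0 := mul_self_eq_zero.1 ((smul_eq_zero.1 e).resolve_right hc)
  rw [ht, e2, zero_smul]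

end Pool.Agent.Lib.MP_c7e804_gt
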