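import Pool.Agent.Lib.MP_c7e804_gt.H43Alg1

/-!
Hermitian forms and the boundary matrix.
-/

namespace Pool.Agent.Lib.MP_c7e804_gt

open Matrix Set Complex
open scoped ContDiff ComplexConjugate

theorem hf_add (x : C2) (K K' : M2) (y : C2) : hf x (K + K') y = hf x K y + hf x K' y := by
  simp only [hf, Matrix.add_mulVec, dotProduct_add]
theorem hf_smul (x : C2) (t : ℂ) (K : M2) (y : C2) : hf x (t • K) y = t * hf x K y := by
  simp only [hf, Matrix.smul_mulVec, dotProduct_smul, smul_eq_mul]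
theorem hf_smul_smul (s t : ℂ) (x : C2) (K : M2) (y : C2) :
    hf (s • x) K (t • y) = conj s * t * hf x K y := by
  simp only [hf, Matrix.mulVec_smul, star_smul, smul_dotProduct, dotProduct_smul, smul_eq_mul,
    Complex.star_def]
  ring
theorem hf_mul (x : C2) (M K M' : M2) (y : C2) :
    hf (M *ᵥ x) K (M' *ᵥ y) = hf x (Mᴴ * K * M') y := by
  simp only [hf, Matrix.star_mulVec, Matrix.dotProduct_mulVec, Matrix.vecMul_vecMul]
theorem hf_ct (x : C2) (K : M2) (y : C2) : hf x Kᴴ y = conj (hf y K x) := by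
  simp [hf, Matrix.mulVec, dotProduct, Fin.sum_univ_two]
  ring
theorem hf_herm_im {K : M2} (hK : Kᴴ = K) (x : C2) : (hf x K x).im = 0 := by
  have h := hf_ct x K x
  rw [hK] at h
  exact Complex.conj_eq_iff_im.1 h.symm
theorem alg2_ne {x : C2} (hx : x ≠ 0) : x 0 ≠ 0 ∨ x 1 ≠ 0 := by
  by_contra h
  rw [not_or, not_not, not_not] at h
  exact hx (funext fun i => by fin_cases i; exacts [h.1, h.2])

theorem alg2_right (x : C2) (H M : M2) (y : C2) : hf x (H * M) y = hf x H (M *ᵥ y) := by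
  simp only [hf, Matrix.mulVec_mulVec]

theorem alg2_left (x : C2) (w : C3) (H : M2) (y : C2) :
    hf x (sg (star w) * H) y = hf (sg w *ᵥ x) H y := by
  have h := hf_mul x (sg w) H 1 y
  rw [mul_one, Matrix.one_mulVec, sg_ct] at h
  exact h.symm

theorem alg2_smul_right (x : C2) (H : M2) (t : ℂ) (y : C2) : hf x H (t • y) = t * hf x H y := by
  simpa using hf_smul_smul 1 t x H y

theorem alg2_smul_left (x : C2) (H : M2) (t : ℂ) (y : C2) :
    hf (t • x) H y = conj t * hf x H y := by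
  simpa using hf_smul_smul t 1 x H y

theorem hf_one_pos {x : C2} (hx : x ≠ 0) : 0 < (hf x 1 x).re := by
  have e : (hf x 1 x).re = Complex.normSq (x 0) + Complex.normSq (x 1) := by
    simp [hf, dotProduct, Fin.sum_univ_two, Complex.normSq_apply]
  rw [e]
  rcases alg2_ne hx with h | h
  · exact add_pos_of_pos_of_nonneg (Complex.normSq_pos.2 h) (Complex.normSq_nonneg _)
  · exact add_pos_of_nonneg_of_pos (Complex.normSq_nonneg _) (Complex.normSq_pos.2 h)

theorem alg2_proj {n : V3} (hn : n ⬝ᵥ n = 1) (x : C2) :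
    (hf ((1 + sg (cv n)) *ᵥ x) 1 ((1 + sg (cv n)) *ᵥ x)).re = 2 * (hf x (1 + sg (cv n)) x).re := by
  have h1 := sg_anti (cv n) (cv n)
  rw [cv_dot, hn, Complex.ofReal_one, mul_one] at h1
  have h2 : (1 + sg (cv n))ᴴ * 1 * (1 + sg (cv n)) = ((2 : ℝ) : ℂ) • (1 + sg (cv n)) := by
    rw [Matrix.conjTranspose_add, Matrix.conjTranspose_one, sg_ct, star_cv]
    simp only [add_mul, mul_add, one_mul, mul_one, Complex.ofReal_ofNat]
    linear_combination (norm := module) (1 / 2 : ℂ) • h1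
  rw [hf_mul, h2, hf_smul, Complex.re_ofReal_mul]

theorem alg2_re (n : V3) (d t : ℝ) (x : C2) :
    (hf x ((d : ℂ) • (1 : M2) + (t : ℂ) • sg (cv n)) x).re =
      d * (hf x 1 x).re + t * (hf x (sg (cv n)) x).re := by
  rw [hf_add, hf_smul, hf_smul, Complex.add_re, Complex.re_ofReal_mul, Complex.re_ofReal_mul]

theorem alg2_plus {n : V3} (hn : n ⬝ᵥ n = 1) (x : C2) :
    0 ≤ (hf x 1 x).re + (hf x (sg (cv n)) x).re := by
  have h := alg2_proj hn x
  rw [hf_add, Complex.add_re] at h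
  by_cases h0 : (1 + sg (cv n)) *ᵥ x = 0
  · rw [h0] at h
    simp only [hf, Matrix.mulVec_zero, dotProduct_zero, Complex.zero_re] at h ⊢
    linarith
  · linarith [hf_one_pos h0]

theorem alg2_bound {n : V3} (hn : n ⬝ᵥ n = 1) (x : C2) :
    0 ≤ (hf x 1 x).re + (hf x (sg (cv n)) x).re ∧ 0 ≤ (hf x 1 x).re - (hf x (sg (cv n)) x).re := by
  refine ⟨alg2_plus hn x, ?_⟩
  have h := alg2_plus (n := (-1 : ℝ) • n) (by simpa using hn) x
  rw [cv_smul, sg_smul, hf_smul, Complex.re_ofReal_mul] at h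
  linarith

/-- `d + t σ n` with `|t| ≤ d`, `n` a real unit vector, is positive semidefinite -/
theorem hf_nonneg {n : V3} (hn : n ⬝ᵥ n = 1) {d t : ℝ} (h : |t| ≤ d) (x : C2) :
    0 ≤ (hf x ((d : ℂ) • (1 : M2) + (t : ℂ) • sg (cv n)) x).re := by
  obtain ⟨h1, h2⟩ := alg2_bound hn x
  rw [alg2_re]
  nlinarith [mul_nonneg h1 (neg_le_iff_add_nonneg.1 (abs_le.1 h).1),
    mul_nonneg h2 (sub_nonneg.2 (abs_le.1 h).2)]

theorem hf_pos {n : V3} (hn : n ⬝ᵥ n = 1) {d t : ℝ} (h : |t| < d) {x : C2} (hx : x ≠ 0) :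
    0 < (hf x ((d : ℂ) • (1 : M2) + (t : ℂ) • sg (cv n)) x).re := by
  have h1 := hf_nonneg hn (le_refl |t|) x
  rw [alg2_re] at h1 ⊢
  nlinarith [mul_pos (sub_pos.2 h) (hf_one_pos hx)]

theorem hf_eq_zero {n : V3} (hn : n ⬝ᵥ n = 1) {x : C2}
    (h : (hf x (1 + sg (cv n)) x).re = 0) : sg (cv n) *ᵥ x = -x := by
  have e := alg2_proj hn x
  rw [h, mul_zero] at e
  have h0 : (1 + sg (cv n)) *ᵥ x = 0 := by
    by_contra h0
    exact (hf_one_pos h0).ne' e
  rw [Matrix.add_mulVec, Matrix.one_mulVec] at h0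
  exact eq_neg_of_add_eq_zero_right h0

/-- null vectors of a form -/
theorem null_form {H : M2} {c : C2} (hc : c ≠ 0) (h : hf c H c = 0) :
    ∃ t : ℂ, ∀ y : C2, hf c H y = t * br c y := by
  simp only [hf, br, Matrix.mulVec, dotProduct, Fin.sum_univ_two, Pi.star_apply] at h ⊢
  rcases alg2_ne hc with h0 | h0
  · refine ⟨(star (c 0) * H 0 1 + star (c 1) * H 1 1) / c 0, fun y => ?_⟩
    field_simp
    linear_combination y 0 * h
  · refine ⟨-(star (c 0) * H 0 0 + star (c 1) * H 1 0) / c 1, fun y => ?_⟩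
    field_simp
    linear_combination y 1 * h

/-- eigenvectors of a matrix that is self-adjoint for `H`, real eigenvalue -/
theorem hf_eig {H : M2} {x w : C3} {c : C2} {s : ℝ} (hH : H * sg x = sg (star x) * H)
    (hc : sg x *ᵥ c = (s : ℂ) • c) :
    (s : ℂ) * hf c (H * sg w) c = (x ⬝ᵥ w) * hf c H c := by
  have h1 : hf c (H * (sg x * sg w)) c = s * hf c (H * sg w) c := by
    rw [← mul_assoc, hH, mul_assoc, alg2_left, hc, alg2_smul_left, Complex.conj_ofReal]
  have h2 : hf c (H * (sg w * sg x)) c = s * hf c (H * sg w) c := by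
    rw [← mul_assoc, alg2_right, hc, alg2_smul_right]
  have h3 := hf_add c (H * (sg x * sg w)) (H * (sg w * sg x)) c
  rw [← mul_add, sg_anti, mul_smul_comm, mul_one, hf_smul, h1, h2] at h3
  linear_combination (-1 / 2 : ℂ) * h3

/-- eigenvectors with an imaginary or zero eigenvalue are null -/
theorem hf_null {H : M2} {x : C3} (hx : x ≠ 0) {c : C2} {s : ℝ} (hH : H * sg x = sg (star x) * H)
    (hc : sg x *ᵥ c = (I * s) • c) : hf c H c = 0 := by
  have key : ∀ y, hf c H (sg x *ᵥ y) = -(I * s) * hf c H y := fun y => by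
    rw [← alg2_right, hH, alg2_left, hc, alg2_smul_left, map_mul, Complex.conj_I,
      Complex.conj_ofReal, neg_mul]
  by_cases hs : s = 0
  · by_cases h0 : c = 0
    · simp [hf, h0]
    subst hs
    rw [Complex.ofReal_zero, mul_zero, zero_smul] at hc
    obtain ⟨t, ht, h1⟩ := nilp_form hx h0 hc
    obtain ⟨y, hy⟩ : ∃ y, br c y ≠ 0 := by
      rcases alg2_ne h0 with h2 | h2
      · exact ⟨![0, 1], by simpa [br] using h2⟩
      · exact ⟨![1, 0], by simpa [br] using h2⟩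
    have e := key y
    rw [h1, alg2_smul_right, Complex.ofReal_zero, mul_zero, neg_zero, zero_mul] at e
    exact (mul_eq_zero.1 e).resolve_left (mul_ne_zero ht hy)
  · have e := key c
    rw [hc, alg2_smul_right] at e
    have e2 : (2 * I * s) * hf c H c = 0 := by linear_combination e
    exact (mul_eq_zero.1 e2).resolve_left
      (mul_ne_zero (mul_ne_zero two_ne_zero Complex.I_ne_zero) (Complex.ofReal_ne_zero.2 hs))

/-- matrix form of the boundary relation -/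
theorem bc_matrix {n : V3} {x : C3} {d t : ℝ}
    (h1 : d • im3 x + t • n ⨯₃ re3 x = 0) (h2 : n ⬝ᵥ im3 x = 0) :
    ((d : ℂ) • (1 : M2) + (t : ℂ) • sg (cv n)) * sg x
      = sg (star x) * ((d : ℂ) • (1 : M2) + (t : ℂ) • sg (cv n)) := by
  have e1 : sg x = sg (cv (re3 x)) + I • sg (cv (im3 x)) := by
    rw [← sg_smul, ← sg_add, ← eq_re_im]
  have e2 : sg (star x) = sg (cv (re3 x)) - I • sg (cv (im3 x)) := by
    rw [← sg_smul, ← sg_sub, ← star_eq_re_im]
  have hc := sg_comm (cv n) (cv (re3 x))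
  have ha := sg_anti (cv n) (cv (im3 x))
  have h3 := congrArg (fun y => sg (cv y)) h1
  have h4 : cv 0 = 0 := funext fun _ => Complex.ofReal_zero
  simp only [cv_add, cv_smul, sg_add, sg_smul, ← cv_cross, h4, sg_zero] at h3
  rw [cv_dot, h2, Complex.ofReal_zero, mul_zero, zero_smul] at ha
  rw [e1, e2]
  simp only [add_mul, mul_add, sub_mul, smul_mul_assoc, mul_smul_comm, one_mul, mul_one]
  linear_combination (norm := module) (t : ℂ) • hc + (I * t) • ha + (2 * I) • h3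

theorem Km_eq (ψ : ℝ × ℝ → V3) (θ κ : ℝ) (p : ℝ × ℝ) :
    Km ψ θ κ p = ((1 + κ * Real.cos θ : ℝ) : ℂ) • (1 : M2) + (κ : ℂ) • sg (cv (ψ p)) := by
  simp only [Km, K0, Complex.ofReal_add, Complex.ofReal_mul, Complex.ofReal_one]
  module

theorem Km_herm (ψ : ℝ × ℝ → V3) (θ κ : ℝ) (p : ℝ × ℝ) : (Km ψ θ κ p)ᴴ = Km ψ θ κ p := by
  rw [Km_eq, Matrix.conjTranspose_add, Matrix.conjTranspose_smul, Matrix.conjTranspose_smul,
    Matrix.conjTranspose_one, sg_ct, star_cv, Complex.star_def, Complex.conj_ofReal,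
    Complex.conj_ofReal]

theorem Km_det {ψ : ℝ × ℝ → V3} {p : ℝ × ℝ} (hp : ψ p ⬝ᵥ ψ p = 1) (θ κ : ℝ) :
    (Km ψ θ κ p).det = (Dl θ κ : ℂ) := by
  rw [Km_eq, ← sg_smul, det_sg, smul_dotProduct, dotProduct_smul, cv_dot, hp, Dl]
  simp only [smul_eq_mul]
  push_cast
  ring

theorem alg2_cos {θ : ℝ} (h : 0 < θ ∧ θ < Real.pi) : 0 < 1 + Real.cos θ ∧ 0 < 1 - Real.cos θ := by
  have h1 := pow_pos (Real.sin_pos_of_pos_of_lt_pi h.1 h.2) 2
  rw [Real.sin_sq] at h1
  constructor <;> nlinarith [Real.neg_one_le_cos θ, Real.cos_le_one θ]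

theorem ka_neg {θ : ℝ} (h : 0 < θ ∧ θ < Real.pi) : ka θ < 0 :=
  div_neg_of_neg_of_pos (by norm_num) (alg2_cos h).1
theorem kb_pos {θ : ℝ} (h : 0 < θ ∧ θ < Real.pi) : 0 < kb θ := one_div_pos.2 (alg2_cos h).2
theorem Dl_eq {θ : ℝ} (h : 0 < θ ∧ θ < Real.pi) (κ : ℝ) :
    Dl θ κ = Real.sin θ ^ 2 * ((κ - ka θ) * (kb θ - κ)) := by
  have h1 := (alg2_cos h).1.ne'
  have h2 := (alg2_cos h).2.ne'
  rw [Real.sin_sq, Dl, ka, kb, show 1 - Real.cos θ ^ 2 = (1 + Real.cos θ) * (1 - Real.cos θ) by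
    ring]
  field_simp
  ring
theorem abs_lt_of_mem {θ κ : ℝ} (h : 0 < θ ∧ θ < Real.pi) (hκ : κ ∈ Ioo (ka θ) (kb θ)) :
    |κ| < 1 + κ * Real.cos θ := by
  have h1 := (div_lt_iff₀ (alg2_cos h).1).1 hκ.1
  have h2 := (lt_div_iff₀ (alg2_cos h).2).1 hκ.2
  rw [abs_lt]
  constructor <;> linarith

end Pool.Agent.Lib.MP_c7e804_gt
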