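import Pool.Agent.Lib.MP_c7e804_gt.H43Count

/-!
The rotation angle excludes gaps on the negative half line.
-/

namespace Pool.Agent.Lib.MP_c7e804_gt

open Matrix Set Complex
open scoped ContDiff ComplexConjugate

private theorem neg_phase {P : Polynomial ℝ} {D α Θ : ℝ → ℝ} {m : ℝ → ℂ} (hA : Angle P D α Θ m)
    {κ : ℝ} (hκ : κ ≤ 0) :
    Real.cos (2 * Θ κ) * (D κ ^ 2 + (m κ).im ^ 2) = D κ ^ 2 - (m κ).im ^ 2 ∧
    Real.sin (2 * Θ κ) * (D κ ^ 2 + (m κ).im ^ 2) = 2 * D κ * (m κ).im ∧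
    0 < D κ ^ 2 + (m κ).im ^ 2 := by
  have h0 : (‖m κ‖ : ℂ) ^ 2 ≠ 0 := pow_ne_zero _ (by simpa using hA.ne κ hκ)
  have h1 := hA.phase κ hκ
  rw [eq_div_iff h0] at h1
  have e1 : 2 * I * (Θ κ : ℂ) = ((2 * Θ κ : ℝ) : ℂ) * I := by push_cast; ring
  have e2 : ‖m κ‖ ^ 2 = D κ ^ 2 + (m κ).im ^ 2 := by
    rw [Complex.sq_norm, Complex.normSq_apply, hA.re κ hκ]; ring
  have e3 : (‖m κ‖ : ℂ) ^ 2 = ((D κ ^ 2 + (m κ).im ^ 2 : ℝ) : ℂ) := by
    rw [← e2]; push_cast; ring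
  rw [e1, e3] at h1
  have h2 := congrArg Complex.re h1
  have h3 := congrArg Complex.im h1
  rw [Complex.re_mul_ofReal, Complex.exp_ofReal_mul_I_re, sq (m κ), Complex.mul_re,
    hA.re κ hκ] at h2
  rw [Complex.im_mul_ofReal, Complex.exp_ofReal_mul_I_im, sq (m κ), Complex.mul_im,
    hA.re κ hκ] at h3
  refine ⟨by linarith, by linarith, ?_⟩
  rw [← e2]
  exact pow_pos (norm_pos_iff.2 (hA.ne κ hκ)) 2

private theorem neg_local {P : Polynomial ℝ} {D α Θ : ℝ → ℝ} {m : ℝ → ℂ} (hA : Angle P D α Θ m)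
    (hD : ∀ κ, HasDerivAt D (α κ * P.eval κ) κ) {l : ℝ} (hl : Real.cos l = 0) {z : ℝ}
    (hz : z ≤ 0) (hΘ : Θ z = l) :
    ∃ ε > 0, ∀ κ ≤ 0, κ ≠ z → |κ - z| < ε → 0 < (Θ κ - l) * (κ - z) := by
  have c2 : Real.cos (2 * l) = -1 := by rw [Real.cos_two_mul, hl]; norm_num
  have s2 : Real.sin (2 * l) = 0 := by rw [Real.sin_two_mul, hl]; ring
  have hD0 : D z = 0 := by
    have h1 := (neg_phase hA hz).1
    rw [hΘ, c2] at h1
    have h2 : D z ^ 2 = 0 := by linarith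
    exact pow_eq_zero_iff (two_ne_zero) |>.1 h2
  have hs := hA.sign z hz (by rw [hD0]; simp)
  have t1 : Filter.Tendsto (slope D z) (nhdsWithin z (Iic 0 ∩ {z}ᶜ)) (nhds (α z * P.eval z)) :=
    (hasDerivAt_iff_tendsto_slope.1 (hD z)).mono_left (nhdsWithin_mono _ inter_subset_right)
  have t2 : Filter.Tendsto (fun κ => (m κ).im) (nhdsWithin z (Iic 0 ∩ {z}ᶜ)) (nhds (m z).im) :=
    (Complex.continuous_im.tendsto _).comp
      ((hA.contm z hz).tendsto.mono_left (nhdsWithin_mono _ inter_subset_left))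
  have t3 : Filter.Tendsto Θ (nhdsWithin z (Iic 0 ∩ {z}ᶜ)) (nhds l) := by
    rw [← hΘ]
    exact (hA.contΘ z hz).tendsto.mono_left (nhdsWithin_mono _ inter_subset_left)
  have e1 := (t1.mul t2).eventually (gt_mem_nhds hs)
  have e2 := t3.eventually (Ioo_mem_nhds (a := l - Real.pi / 2) (b := l + Real.pi / 2)
    (by linarith [Real.pi_pos]) (by linarith [Real.pi_pos]))
  obtain ⟨ε, hε, h⟩ := Metric.mem_nhdsWithin_iff.1 (e1.and e2)
  refine ⟨ε, hε, fun κ hκ hne hd => ?_⟩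
  obtain ⟨h1, h2, h3⟩ := h ⟨by simpa [Real.dist_eq] using hd, hκ, hne⟩
  obtain ⟨-, h4, h5⟩ := neg_phase hA hκ
  have hk : κ - z ≠ 0 := sub_ne_zero.2 hne
  have h6 : D κ = slope D z κ * (κ - z) := by
    rw [slope_def_field, hD0, sub_zero, div_mul_cancel₀ _ hk]
  have h7 : Real.sin (2 * Θ κ) = -Real.sin (2 * (Θ κ - l)) := by
    rw [show 2 * Θ κ = 2 * (Θ κ - l) + 2 * l by ring, Real.sin_add, c2, s2]; ring
  have h8 : 0 < Real.sin (2 * (Θ κ - l)) * (κ - z) := by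
    have h9 : Real.sin (2 * (Θ κ - l)) * (κ - z) * (D κ ^ 2 + (m κ).im ^ 2)
        = -2 * (slope D z κ * (m κ).im) * (κ - z) ^ 2 := by
      rw [h7] at h4
      linear_combination (-(κ - z)) * h4 - 2 * (m κ).im * (κ - z) * h6
    have h10 : 0 < (κ - z) ^ 2 := by positivity
    have h11 : 0 < -2 * (slope D z κ * (m κ).im) * (κ - z) ^ 2 := mul_pos (by linarith) h10
    rw [← h9] at h11
    exact (mul_pos_iff_of_pos_right h5).1 h11
  rcases lt_trichotomy (Θ κ) l with h9 | h9 | h9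
  · have h10 : Real.sin (2 * (Θ κ - l)) < 0 :=
      Real.sin_neg_of_neg_of_neg_pi_lt (by linarith) (by linarith)
    have h11 : κ - z < 0 := by nlinarith
    exact mul_pos_of_neg_of_neg (by linarith) h11
  · rw [h9] at h8
    simp at h8
  · have h10 : 0 < Real.sin (2 * (Θ κ - l)) :=
      Real.sin_pos_of_pos_of_lt_pi (by linarith) (by linarith)
    have h11 : 0 < κ - z := by nlinarith
    exact mul_pos (by linarith) h11

theorem Angle.cross {P : Polynomial ℝ} {D α Θ : ℝ → ℝ} {m : ℝ → ℂ} (hA : Angle P D α Θ m)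
    (hD : ∀ κ, HasDerivAt D (α κ * P.eval κ) κ) {l : ℝ} (hl : Real.cos l = 0) {x y : ℝ}
    (hxy : x < y) (hy : y ≤ 0) (hx : l ≤ Θ x) : l < Θ y := by
  obtain ⟨x', hx', hl'⟩ : ∃ x' < y, l < Θ x' := by
    rcases hx.lt_or_eq with h | h
    · exact ⟨x, hxy, h⟩
    · obtain ⟨ε, hε, h1⟩ := neg_local hA hD hl (hxy.le.trans hy) h.symm
      have h2 : 0 < min (ε / 2) ((y - x) / 2) := lt_min (by linarith) (by linarith)
      have h3 := min_le_left (ε / 2) ((y - x) / 2)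
      have h4 := min_le_right (ε / 2) ((y - x) / 2)
      have h5 := h1 (x + min (ε / 2) ((y - x) / 2)) (by linarith) (by linarith)
        (by rw [add_sub_cancel_left, abs_of_pos h2]; linarith)
      rw [add_sub_cancel_left] at h5
      exact ⟨x + min (ε / 2) ((y - x) / 2), by linarith,
        sub_pos.1 ((mul_pos_iff_of_pos_right h2).1 h5)⟩
  by_contra hn
  have hn' : Θ y ≤ l := not_lt.1 hn
  have hc : ContinuousOn Θ (Icc x' y) := hA.contΘ.mono fun κ hκ => hκ.2.trans hy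
  have hcl : IsClosed (Icc x' y ∩ Θ ⁻¹' {l}) :=
    hc.preimage_isClosed_of_isClosed isClosed_Icc isClosed_singleton
  have hK : IsCompact (Icc x' y ∩ Θ ⁻¹' {l}) :=
    isCompact_Icc.of_isClosed_subset hcl inter_subset_left
  have ivt : ∀ w ∈ Icc x' y, Θ w ≤ l → ∃ z ∈ Icc x' y ∩ Θ ⁻¹' {l}, z ≤ w := fun w hw h => by
    obtain ⟨z, hz, e⟩ := intermediate_value_Icc' hw.1 (hc.mono (Icc_subset_Icc_right hw.2))
      (⟨h, hl'.le⟩ : l ∈ Icc (Θ w) (Θ x'))
    exact ⟨z, ⟨⟨hz.1, hz.2.trans hw.2⟩, e⟩, hz.2⟩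
  obtain ⟨z₀, hz₀, -⟩ := ivt y ⟨hx'.le, le_rfl⟩ hn'
  obtain ⟨z, ⟨hz, hzl⟩, hmin⟩ := hK.exists_isLeast ⟨z₀, hz₀⟩
  have hzl' : Θ z = l := hzl
  have hxz : x' < z := hz.1.lt_of_ne fun e => by rw [e, hzl'] at hl'; exact lt_irrefl _ hl'
  obtain ⟨ε, hε, h1⟩ := neg_local hA hD hl (hz.2.trans hy) hzl'
  have h2 : 0 < min (ε / 2) ((z - x') / 2) := lt_min (by linarith) (by linarith)
  have h3 := min_le_left (ε / 2) ((z - x') / 2)
  have h4 := min_le_right (ε / 2) ((z - x') / 2)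
  have h5 := h1 (z - min (ε / 2) ((z - x') / 2)) (by linarith [hz.2]) (by linarith)
    (by rw [sub_sub_cancel_left, abs_neg, abs_of_pos h2]; linarith)
  rw [sub_sub_cancel_left] at h5
  obtain ⟨w, hw, h6⟩ := ivt (z - min (ε / 2) ((z - x') / 2)) ⟨by linarith, by linarith [hz.2]⟩
    (by nlinarith)
  have := hmin hw
  linarith

private theorem neg_band {g : ℕ} {Y P R : Polynomial ℝ} {κa κb C₀ : ℝ} {Δ D α T β : ℝ → ℝ}
    (h : Spec g Y P R κa κb C₀ Δ D α T β) {x y : ℝ} (hxy : x < y) (hx : Y.eval x = 0)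
    (hy : D y ^ 2 = 1) (hpos : ∀ κ ∈ Ioo x y, 0 < Y.eval κ) : ∃ z ∈ Ioo x y, D z = 0 := by
  by_contra hn
  push Not at hn
  have hx1 : D x ^ 2 = 1 := by have := h.quadD x; rw [hx] at this; linarith
  have hd : ∀ κ, HasDerivAt (fun t => D t ^ 2) (2 * D κ * (α κ * P.eval κ)) κ := fun κ => by
    exact ((h.dD κ).fun_pow 2).congr_deriv (by simp)
  have hc : ContinuousOn (fun t => D t ^ 2) (Icc x y) := fun κ _ =>
    (hd κ).continuousAt.continuousWithinAt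
  obtain ⟨w, hw, hmin⟩ := isCompact_Icc.exists_isMinOn (nonempty_Icc.2 hxy.le) hc
  have h1 : 1 ≤ D w ^ 2 := by
    by_contra h2
    have h3 : D w ^ 2 < 1 := not_le.1 h2
    have h4 : w ∈ Ioo x y :=
      ⟨hw.1.lt_of_ne fun e => by rw [← e, hx1] at h3; exact lt_irrefl _ h3,
        hw.2.lt_of_ne fun e => by rw [e, hy] at h3; exact lt_irrefl _ h3⟩
    have h5 := (hmin.isLocalMin (Icc_mem_nhds h4.1 h4.2)).hasDerivAt_eq_zero (hd w)
    have h6 : α w = 0 := by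
      rcases mul_eq_zero.1 h5 with h7 | h7
      · exact absurd (by linarith) (hn w h4)
      · exact (mul_eq_zero.1 h7).resolve_right (h.Pne w (hpos w h4).le)
    have h7 := h.quadD w
    rw [h6] at h7
    linarith
  have h2 : ∀ κ ∈ Ioo x y, α κ = 0 := fun κ hκ => by
    have h3 : D w ^ 2 ≤ D κ ^ 2 := hmin (Ioo_subset_Icc_self hκ)
    have h4 := h.quadD κ
    have h5 := hpos κ hκ
    have h6 : α κ ^ 2 ≤ 0 := by
      by_contra h7
      have := mul_pos (not_le.1 h7) h5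
      linarith
    exact pow_eq_zero_iff (two_ne_zero) |>.1 (le_antisymm h6 (sq_nonneg _))
  obtain ⟨α', hα, -⟩ := h.dα x
  have t1 : Filter.Tendsto α (nhdsWithin x (Ioi x)) (nhds (α x)) :=
    hα.continuousAt.tendsto.mono_left nhdsWithin_le_nhds
  have t2 : Filter.Tendsto α (nhdsWithin x (Ioi x)) (nhds 0) :=
    tendsto_const_nhds.congr' (Filter.mem_of_superset (Ioo_mem_nhdsGT hxy)
      fun κ hκ => (h2 κ hκ).symm)
  exact (h.simple hx).2 (tendsto_nhds_unique t1 t2)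

theorem Spec.neg_unique {g : ℕ} {Y P R : Polynomial ℝ} {κa κb C₀ : ℝ} {Δ D α T β Θ : ℝ → ℝ}
    {m : ℝ → ℂ} (h : Spec g Y P R κa κb C₀ Δ D α T β) (hA : Angle P D α Θ m) :
    ∀ x ≤ κa, ∀ y ≤ κa, Y.eval x = 0 → Y.eval y = 0 → x = y := by
  have hpi := Real.pi_pos
  have lo : ∀ κ ≤ 0, -(Real.pi / 2) < Θ κ := fun κ hκ => by
    obtain ⟨κ₁, h1⟩ := hA.low
    exact hA.cross h.dD (by simp) (x := min κ₁ κ - 1) (by linarith [min_le_right κ₁ κ]) hκ
      (h1 _ (by linarith [min_le_left κ₁ κ])).le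
  have hi : ∀ κ ≤ 0, Θ κ < Real.pi / 2 + Real.pi := fun κ hκ => by
    have h0 := hA.Θ0
    by_contra h1
    rcases hκ.lt_or_eq with h2 | h2
    · have := hA.cross h.dD (l := Real.pi / 2 + Real.pi) (by simp [Real.cos_add_pi]) h2 le_rfl
        (not_lt.1 h1)
      linarith
    · rw [h2] at h1
      linarith
  have zero : ∀ z ≤ 0, D z = 0 → Θ z = Real.pi / 2 := fun z hz h0 => by
    obtain ⟨h1, -, h2⟩ := neg_phase hA hz
    rw [h0] at h1 h2
    have h3 : Real.cos (2 * Θ z) = -1 := by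
      have h4 : (Real.cos (2 * Θ z) + 1) * ((0 : ℝ) ^ 2 + (m z).im ^ 2) = 0 := by linarith
      have := (mul_eq_zero.1 h4).resolve_right h2.ne'
      linarith
    rw [Real.cos_two_mul] at h3
    have h4 : Real.cos (Θ z) = 0 := pow_eq_zero_iff (two_ne_zero) |>.1 (by linarith)
    have h5 : Real.sin (Θ z - Real.pi / 2) = 0 := by rw [Real.sin_sub_pi_div_two, h4, neg_zero]
    have := (Real.sin_eq_zero_iff_of_lt_of_lt (by linarith [lo z hz]) (by linarith [hi z hz])).1 h5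
    linarith
  have key : ∀ x y, x < y → y ≤ κa → Y.eval x = 0 → Y.eval y = 0 → False := by
    intro x y hxy hy hx0 hy0
    obtain ⟨r, hmono, hroot, -, hsign⟩ := h.roots
    obtain ⟨i, hi, rfl⟩ := (hroot x).1 hx0
    obtain ⟨j, hj, rfl⟩ := (hroot y).1 hy0
    have hij : i < j := (hmono.lt_iff_lt hi hj).1 hxy
    have h1 : (1 : ℕ) ∈ Iic (2 * g) := by simp only [mem_Iic]; omega
    have h01 : r 0 < r 1 := hmono (by simp) h1 one_pos
    have h1j : r 1 ≤ r j := hmono.monotoneOn h1 hj (by omega)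
    have hr1 : Y.eval (r 1) = 0 := (hroot _).2 ⟨1, h1, rfl⟩
    obtain ⟨z₁, hz₁, hD₁⟩ := neg_band h h01 ((hroot _).2 ⟨0, by simp, rfl⟩)
      (by have := h.quadD (r 1); rw [hr1] at this; linarith)
      (fun κ hκ => by simpa using hsign 0 (by omega) κ hκ)
    have hK : IsCompact (Icc (r j) κa ∩ (fun κ => Y.eval κ) ⁻¹' {0}) :=
      isCompact_Icc.inter_right (isClosed_singleton.preimage Y.continuous)
    obtain ⟨w, ⟨hw, hw0⟩, hmax⟩ := hK.exists_isGreatest ⟨r j, ⟨le_rfl, hy⟩, hy0⟩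
    have hw0' : Y.eval w = 0 := hw0
    have hwn : w < 0 := hw.2.trans_lt h.ka_neg
    have hY0 : 0 < Y.eval 0 := h.Ypos 0 ⟨h.ka_neg, h.kb_pos⟩
    obtain ⟨z₂, hz₂, hD₂⟩ := neg_band h hwn hw0'
      (by rw [← hA.re 0 le_rfl, hA.m0]; simp) (fun κ hκ => by
        by_contra h2
        obtain ⟨t, ht, e⟩ := intermediate_value_Icc hκ.2.le Y.continuous.continuousOn
          (⟨not_lt.1 h2, hY0.le⟩ : (0 : ℝ) ∈ Icc (Y.eval κ) (Y.eval 0))
        have e' : Y.eval t = 0 := e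
        by_cases h3 : t ≤ κa
        · have := hmax ⟨⟨by linarith [hw.1, hκ.1, ht.1], h3⟩, e⟩
          linarith [hκ.1, ht.1]
        · have := h.Ypos t ⟨not_le.1 h3, ht.2.trans_lt h.kb_pos⟩
          linarith)
    have h12 : z₁ < z₂ := by linarith [hz₁.2, hz₂.1, hw.1]
    have h3 := hA.cross h.dD Real.cos_pi_div_two h12 hz₂.2.le
      (zero z₁ (h12.le.trans hz₂.2.le) hD₁).ge
    rw [zero z₂ hz₂.2.le hD₂] at h3
    exact lt_irrefl _ h3
  intro x hx y hy hx0 hy0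
  rcases lt_trichotomy x y with h1 | h1 | h1
  · exact (key x y h1 hy hx0 hy0).elim
  · exact h1
  · exact (key y x h1 hx hy0 hx0).elim

end Pool.Agent.Lib.MP_c7e804_gt
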