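import Pool.Agent.Lib.MP_c7e804_gt.H43Wind

/-!
A hyperbolic system has no rotation.
-/

namespace Pool.Agent.Lib.MP_c7e804_gt

open Matrix Set Complex
open scoped ContDiff ComplexConjugate

theorem hyp_mono {f f' : ℝ → ℝ} (hf : ∀ v, HasDerivAt f (f' v) v) (h0 : ∀ v, 0 ≤ v → 0 ≤ f' v) :
    ∀ v, 0 ≤ v → f 0 ≤ f v := by
  have hm : MonotoneOn f (Ici 0) := by
    refine monotoneOn_of_deriv_nonneg (convex_Ici 0)
      (fun x _ => (hf x).continuousAt.continuousWithinAt)
      (fun x _ => (hf x).differentiableAt.differentiableWithinAt) fun x hx => ?_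
    rw [(hf x).deriv]
    exact h0 x (interior_subset hx)
  intro v hv
  exact hm (mem_Ici.2 le_rfl) hv hv

theorem hyp_real {p r α β : ℝ → ℝ} (hp : ∀ v, HasDerivAt p (α v * r v) v)
    (hr : ∀ v, HasDerivAt r (β v * p v) v) (hα : ∀ v, 0 ≤ α v) (hβ : ∀ v, 0 ≤ β v)
    (hp0 : p 0 = 1) (hr0 : r 0 = 0) : ∀ v, 0 ≤ v → 1 ≤ p v := by
  have h1 : ∀ v, 0 ≤ v → 0 ≤ p v * r v := by
    intro v hv
    have := hyp_mono (f := fun t => p t * r t) (fun t => (hp t).mul (hr t)) (fun t _ => by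
      have e : α t * r t * r t + p t * (β t * p t) = α t * r t ^ 2 + β t * p t ^ 2 := by ring
      rw [e]
      have := hα t
      have := hβ t
      positivity) v hv
    simp only [hr0, mul_zero] at this
    exact this
  have h2 : ∀ v, 0 ≤ v → 1 ≤ p v * p v := by
    intro v hv
    have := hyp_mono (f := fun t => p t * p t) (fun t => (hp t).mul (hp t)) (fun t ht => by
      have e : α t * r t * p t + p t * (α t * r t) = 2 * α t * (p t * r t) := by ring
      rw [e]
      have := hα t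
      have := h1 t ht
      positivity) v hv
    simp only [hp0, mul_one] at this
    exact this
  intro v hv
  have hc : ContinuousOn p (Icc 0 v) := fun x _ => (hp x).continuousAt.continuousWithinAt
  have h3 : 0 ≤ p v := by
    by_contra hneg
    push Not at hneg
    obtain ⟨t, ht, e⟩ := intermediate_value_Icc' hv hc
      (show (0 : ℝ) ∈ Icc (p v) (p 0) from ⟨hneg.le, by rw [hp0]; exact zero_le_one⟩)
    have := h2 t ht.1
    rw [e] at this
    norm_num at this
  have h4 := h2 v hv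
  nlinarith

theorem hyperbolic_re {x y : ℝ → ℂ} {om l : ℝ → ℝ} {k₁ k₂ : ℝ} (hk₁ : 0 < k₁) (hk₂ : 0 < k₂)
    (hom : Continuous om) (hl : Continuous l)
    (hx : ∀ v, HasDerivAt x (I * om v * x v - I * (k₁ * l v : ℝ) * y v) v)
    (hy : ∀ v, HasDerivAt y (-(I * om v * y v) + I * (k₂ * l v : ℝ) * x v) v)
    (hb : ∀ v, |om v| ≤ √(k₁ * k₂) * l v) (hx0 : x 0 = 1) (hy0 : y 0 = 0) :
    ∀ v, 0 ≤ v → 1 ≤ (x v).re := by
  have _ := hom
  have _ := hl
  obtain ⟨s₁, hs₁, rfl⟩ : ∃ s, 0 < s ∧ k₁ = s * s :=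
    ⟨√k₁, Real.sqrt_pos.2 hk₁, (Real.mul_self_sqrt hk₁.le).symm⟩
  obtain ⟨s₂, hs₂, rfl⟩ : ∃ s, 0 < s ∧ k₂ = s * s :=
    ⟨√k₂, Real.sqrt_pos.2 hk₂, (Real.mul_self_sqrt hk₂.le).symm⟩
  have hs : √(s₁ * s₁ * (s₂ * s₂)) = s₁ * s₂ := by
    rw [show s₁ * s₁ * (s₂ * s₂) = (s₁ * s₂) * (s₁ * s₂) by ring]
    exact Real.sqrt_mul_self (by positivity)
  rw [hs] at hb
  have hne := hs₂.ne'
  have x1 : ∀ v, HasDerivAt (fun t => (x t).re)
      (-(om v * (x v).im) + s₁ * s₁ * l v * (y v).im) v := fun v => by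
    have := Complex.reCLM.hasFDerivAt.comp_hasDerivAt v (hx v)
    refine this.congr_deriv ?_
    simp only [reCLM_apply, sub_re, mul_re, mul_im, I_re, I_im, ofReal_re, ofReal_im]
    ring
  have x2 : ∀ v, HasDerivAt (fun t => (x t).im)
      (om v * (x v).re - s₁ * s₁ * l v * (y v).re) v := fun v => by
    have := Complex.imCLM.hasFDerivAt.comp_hasDerivAt v (hx v)
    refine this.congr_deriv ?_
    simp only [imCLM_apply, sub_im, mul_re, mul_im, I_re, I_im, ofReal_re, ofReal_im]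
    ring
  have y1 : ∀ v, HasDerivAt (fun t => (y t).re)
      (om v * (y v).im - s₂ * s₂ * l v * (x v).im) v := fun v => by
    have := Complex.reCLM.hasFDerivAt.comp_hasDerivAt v (hy v)
    refine this.congr_deriv ?_
    simp only [reCLM_apply, add_re, neg_re, mul_re, mul_im, I_re, I_im, ofReal_re, ofReal_im]
    ring
  have y2 : ∀ v, HasDerivAt (fun t => (y t).im)
      (-(om v * (y v).re) + s₂ * s₂ * l v * (x v).re) v := fun v => by
    have := Complex.imCLM.hasFDerivAt.comp_hasDerivAt v (hy v)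
    refine this.congr_deriv ?_
    simp only [imCLM_apply, add_im, neg_im, mul_re, mul_im, I_re, I_im, ofReal_re, ofReal_im]
    ring
  have hα : ∀ v, 0 ≤ s₁ * s₂ * l v + om v := fun v => by linarith [(abs_le.1 (hb v)).1]
  have hβ : ∀ v, 0 ≤ s₁ * s₂ * l v - om v := fun v => by linarith [(abs_le.1 (hb v)).2]
  have A := hyp_real (p := fun t => (x t).re + s₁ / s₂ * (y t).re)
    (r := fun t => s₁ / s₂ * (y t).im - (x t).im)
    (fun v => ((x1 v).add ((y1 v).const_mul (s₁ / s₂))).congr_deriv (by field_simp; ring))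
    (fun v => (((y2 v).const_mul (s₁ / s₂)).sub (x2 v)).congr_deriv (by field_simp; ring))
    hα hβ (by simp [hx0, hy0]) (by simp [hx0, hy0])
  have B := hyp_real (p := fun t => (x t).re - s₁ / s₂ * (y t).re)
    (r := fun t => (x t).im + s₁ / s₂ * (y t).im)
    (fun v => ((x1 v).sub ((y1 v).const_mul (s₁ / s₂))).congr_deriv (by field_simp; ring))
    (fun v => ((x2 v).add ((y2 v).const_mul (s₁ / s₂))).congr_deriv (by field_simp; ring))
    hβ hα (by simp [hx0, hy0]) (by simp [hx0, hy0])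
  intro v hv
  have h1 := A v hv
  have h2 := B v hv
  linarith

end Pool.Agent.Lib.MP_c7e804_gt
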