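import Pool.Agent.Lib.MP_c7e804_gt.H43Th1
import Pool.Agent.Lib.MP_c7e804_gt.H43Hyp

/-!
The rotation angle to the left of the definite interval.
-/

namespace Pool.Agent.Lib.MP_c7e804_gt

open Matrix Set Complex
open scoped ContDiff ComplexConjugate

/-- the rotation angle for `κ ≤ ka θ` -/
noncomputable def Th1 (ψ : ℝ × ℝ → V3) (b τ θ : ℝ) (F : ℂ → ℝ × ℝ → M2) (x : C2) (κ : ℝ) : ℝ :=
  wind τ (aa b θ F x κ) (aa' ψ b θ F x κ)
    + wind τ (Qf ψ b (cl b F x (ka θ))) (Qd ψ b (cl b F x (ka θ))) / 2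

/-- the inequality that makes the system hyperbolic -/
theorem th2_ineq {c s e q K : ℝ} (hs : 0 < s) (he : 0 < e) (hq : 0 < q) (hc : 0 < 1 + c)
    (hcs : s ^ 2 + c ^ 2 = 1) (hK : ((c / s - 2 * q / (e ^ 2 * s)) ^ 2 + 1) * e ^ 2 / (4 * q) ≤ K) :
    |(-1 / (1 + c) + K) * (e * s / 2) + (e - 2 * q / e) / s / 2|
      ≤ √((1 + -K * (c - 1)) * ((-1 / (1 + c) + K) * (1 + c))) * (e / 2) := by
  have e1 : (-1 / (1 + c) + K) * (e * s / 2) + (e - 2 * q / e) / s / 2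
      = (K * s + (c / s - 2 * q / (e ^ 2 * s))) * (e / 2) := by
    field_simp
    linear_combination (-e ^ 2) * hcs
  have e2 : (1 + -K * (c - 1)) * ((-1 / (1 + c) + K) * (1 + c)) = K ^ 2 * s ^ 2 + 2 * K * c - 1 := by
    field_simp
    linear_combination (-K ^ 2) * hcs
  rw [e1, e2, abs_mul, abs_of_pos (half_pos he)]
  refine mul_le_mul_of_nonneg_right (Real.abs_le_sqrt ?_) (half_pos he).le
  rw [div_le_iff₀ (by positivity)] at hK
  have e3 : s * (c / s - 2 * q / (e ^ 2 * s)) = c - 2 * q / e ^ 2 := by field_simp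
  generalize c / s - 2 * q / (e ^ 2 * s) = D at hK e3 ⊢
  have e4 : D ^ 2 + 1 ≤ K * (4 * q) / e ^ 2 := (le_div_iff₀ (by positivity)).2 hK
  have e5 : K * (4 * q) / e ^ 2 = 2 * K * (c - s * D) := by
    rw [e3]
    ring
  nlinarith

namespace Cap
variable {ψ : ℝ × ℝ → V3} {a b τ θ : ℝ} (h : Cap ψ a b τ θ) {F G : ℂ → ℝ × ℝ → M2}
  (hF : Frame a b (Am ψ) F G)
  {x : C2} (hx1 : star x ⬝ᵥ x = 1) (hx2 : sg (cv (ψ (b, 0))) *ᵥ x = x)

include h in
theorem th2_cos : 0 < 1 + Real.cos θ ∧ 0 < 1 - Real.cos θ := by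
  have h1 := h.sin_pos
  have h2 := Real.sin_sq_add_cos_sq θ
  constructor <;> nlinarith [Real.neg_one_le_cos θ, Real.cos_le_one θ]

include h in
theorem th2_cont_E : Continuous fun v => confE ψ (b, v) :=
  cont_line_v h.cont_E ⟨h.ann.hab.le, le_rfl⟩

include h in
theorem th2_cont_pu : Continuous fun v => pu ψ (b, v) := by
  simp only [h.pu_b]
  exact h.th2_cont_E.sqrt.mul continuous_const

include h hF in
theorem th2_cont_Q : Continuous (Qf ψ b (cl b F x (ka θ))) :=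
  (h.cont_Qf hF).comp (f := fun v : ℝ => ((ka θ, x), v)) (by fun_prop)

include h hF in
theorem th2_cont_Qd : Continuous (Qd ψ b (cl b F x (ka θ))) :=
  (h.cont_Qd hF).comp (f := fun v : ℝ => ((ka θ, x), v)) (by fun_prop)

include h hF in
theorem th2_cont_aa : Continuous (fun z : ℝ × ℝ => aa b θ F x z.1 z.2) ∧
    Continuous fun z : ℝ × ℝ => aa' ψ b θ F x z.1 z.2 := by
  have c1 : Continuous fun z : ℝ × ℝ => cl b F x z.1 z.2 :=
    (h.cont_cl hF).comp (f := fun z : ℝ × ℝ => ((z.1, x), z.2)) (by fun_prop)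
  have c2 : Continuous fun z : ℝ × ℝ => cl b F x (ka θ) z.2 :=
    (h.cont_cl hF).comp (f := fun z : ℝ × ℝ => ((ka θ, x), z.2)) (by fun_prop)
  have c3 : Continuous fun z : ℝ × ℝ => aa b θ F x z.1 z.2 := c2.star.dotProduct c1
  have c4 : Continuous fun z : ℝ × ℝ => bb b θ F x z.1 z.2 :=
    (((continuous_apply 0).comp c2).mul ((continuous_apply 1).comp c1)).sub
      (((continuous_apply 1).comp c2).mul ((continuous_apply 0).comp c1))
  have c5 : Continuous fun z : ℝ × ℝ => pu ψ (b, z.2) := h.th2_cont_pu.comp continuous_snd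
  have c6 : Continuous fun z : ℝ × ℝ => conj (Qf ψ b (cl b F x (ka θ)) z.2) :=
    continuous_conj.comp ((h.th2_cont_Q hF).comp continuous_snd)
  refine ⟨c3, ?_⟩
  unfold aa'
  exact ((continuous_const.mul (continuous_ofReal.comp ((continuous_const.sub continuous_fst).mul
    (c5.div_const _)))).mul c3).sub
    (((continuous_const.mul (continuous_ofReal.comp (by fun_prop))).mul c6).mul c4)

include h hF in
theorem th2_cont_aa' (κ : ℝ) : Continuous (aa' ψ b θ F x κ) :=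
  (h.th2_cont_aa hF).2.comp (f := fun v : ℝ => (κ, v)) (by fun_prop)

include h hF hx1 hx2

theorem th2_Q_ne (v : ℝ) : Qf ψ b (cl b F x (ka θ)) v ≠ 0 := by
  rw [← norm_pos_iff, h.norm_QV hF hx1 hx2]
  have := Real.sqrt_pos.2 (h.ann.immersion _ (h.mem_b v))
  have := h.th2_cos.1
  positivity

theorem Th1_cont : ContinuousOn (Th1 ψ b τ θ F x) (Iic (ka θ)) :=
  (wind_cont (h.th2_cont_aa hF).1.continuousOn (h.th2_cont_aa hF).2.continuousOn
    fun _ hκ v => h.aa_ne hF hx1 hx2 hκ v).add continuousOn_const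

theorem Th1_ka : Th1 ψ b τ θ F x (ka θ)
    = wind τ (Qf ψ b (cl b F x (ka θ))) (Qd ψ b (cl b F x (ka θ))) / 2 := by
  have : wind τ (aa b θ F x (ka θ)) (aa' ψ b θ F x (ka θ)) = 0 := by
    simp [wind, (h.aa_ka hF hx1 hx2 _).2]
  rw [Th1, this, zero_add]

theorem Th1_phase {κ : ℝ} (hκ : κ ≤ ka θ) : hf x (F κ (b, τ)) x ≠ 0 ∧
    cexp (2 * I * Th1 ψ b τ θ F x κ)
      = hf x (F κ (b, τ)) x ^ 2 / (‖hf x (F κ (b, τ)) x‖ : ℂ) ^ 2 := by
  obtain ⟨μ, hμ, hV⟩ := h.V_per hF hx1 hx2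
  have ea : aa b θ F x κ τ = conj μ * hf x (F κ (b, τ)) x := by
    simp only [aa, cl, hV, hf, star_smul, smul_dotProduct, smul_eq_mul, star_def]
  have eQ : Qf ψ b (cl b F x (ka θ)) τ = μ * μ * Qf ψ b (cl b F x (ka θ)) 0 := by
    have := h.per_A (h.mem_b 0)
    simp only [zero_add] at this
    simp only [Qf, cl, hV, hF.baseF, one_mulVec, this, mulVec_smul, br_smul]
  have hm : hf x (F κ (b, τ)) x ≠ 0 := fun h0 => h.aa_ne hF hx1 hx2 hκ τ (by rw [ea, h0, mul_zero])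
  refine ⟨hm, ?_⟩
  have w1 := wind_exp (τ := τ) (h.deriv_aa hF hx1 hx2 κ) (h.th2_cont_aa' hF κ)
    (h.aa_ne hF hx1 hx2 hκ)
  have w2 := wind_exp (τ := τ) (h.deriv_Qf hF (ka θ) x) (h.th2_cont_Qd hF) (h.th2_Q_ne hF hx1 hx2)
  have hQ := h.th2_Q_ne hF hx1 hx2 0
  have hQ' : (‖Qf ψ b (cl b F x (ka θ)) 0‖ : ℂ) ≠ 0 := ofReal_ne_zero.2 (norm_ne_zero_iff.2 hQ)
  have hμ' : μ * conj μ = 1 := by rw [mul_conj, normSq_eq_norm_sq, hμ]; simp
  rw [(h.aa_zero hF hx1 hx2 κ).1, ea, norm_mul, norm_conj, hμ] at w1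
  rw [eQ, norm_mul, norm_mul, hμ, one_mul, one_mul, div_self hQ', mul_one,
    mul_div_cancel_right₀ _ hQ] at w2
  have e : 2 * I * (Th1 ψ b τ θ F x κ : ℂ) = I * wind τ (aa b θ F x κ) (aa' ψ b θ F x κ)
      + I * wind τ (aa b θ F x κ) (aa' ψ b θ F x κ)
      + I * wind τ (Qf ψ b (cl b F x (ka θ))) (Qd ψ b (cl b F x (ka θ))) := by
    rw [Th1]
    push_cast
    ring
  rw [e, Complex.exp_add, Complex.exp_add, w1, w2]
  simp only [norm_one, ofReal_one, one_mul, div_one]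
  linear_combination (μ * conj μ + 1) * hf x (F κ (b, τ)) x ^ 2
    / (‖hf x (F κ (b, τ)) x‖ : ℂ) ^ 2 * hμ'

theorem Th1_low : ∃ κ₁, ∀ κ ≤ κ₁, -(Real.pi / 2) < Th1 ψ b τ θ F x κ := by
  have hE : ∀ v, 0 < confE ψ (b, v) := fun v => h.ann.immersion _ (h.mem_b v)
  have he : ∀ v, 0 < √(confE ψ (b, v)) := fun v => Real.sqrt_pos.2 (hE v)
  have hs := h.sin_pos
  have hq0 := h.q_pos
  obtain ⟨hc1, hc2⟩ := h.th2_cos
  have ce : Continuous fun v => √(confE ψ (b, v)) := h.th2_cont_E.sqrt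
  obtain ⟨C, hC⟩ : BddAbove (range fun v => ((Real.cos θ / Real.sin θ
      - 2 * hq ψ b / (√(confE ψ (b, v)) ^ 2 * Real.sin θ)) ^ 2 + 1) * √(confE ψ (b, v)) ^ 2
        / (4 * hq ψ b)) := by
    refine (Function.Periodic.isBounded_of_continuous (c := τ) (fun v => ?_) h.ann.hτ.ne'
      ?_).bddAbove
    · have := h.ann.perE _ (h.mem_b v)
      simp only at this
      simp only [this]
    · exact ((((continuous_const.sub (continuous_const.div ((ce.pow 2).mul continuous_const)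
        fun v => (mul_pos (pow_pos (he v) 2) hs).ne')).pow 2).add continuous_const).mul
          (ce.pow 2)).div_const _
  refine ⟨min (-C) (ka θ - 1), fun κ hκ => ?_⟩
  have hκ1 : C ≤ -κ := by linarith [hκ.trans (min_le_left _ _)]
  have hκ2 : κ < ka θ := by linarith [hκ.trans (min_le_right _ _)]
  have hκ0 : κ < 0 := hκ2.trans (ka_neg h.ann.hθb)
  set Q := Qf ψ b (cl b F x (ka θ)) with hQdef
  set Q' := Qd ψ b (cl b F x (ka θ)) with hQ'def
  have hQ : ∀ v, Q v ≠ 0 := h.th2_Q_ne hF hx1 hx2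
  have hnQ : ∀ v, (‖Q v‖ : ℂ) ≠ 0 := fun v => ofReal_ne_zero.2 (norm_ne_zero_iff.2 (hQ v))
  have cw : Continuous fun v => (Q' v / Q v).im :=
    continuous_im.comp ((h.th2_cont_Qd hF).div (h.th2_cont_Q hF) hQ)
  let χ : ℝ → ℝ := fun v => wind v Q Q' / 2
  let χ' : ℝ → ℝ := fun v => (Q' v / Q v).im / 2
  have cχ' : Continuous χ' := cw.div_const _
  have dχ : ∀ v, HasDerivAt χ (χ' v) v := fun v =>
    (cw.integral_hasStrictDerivAt 0 v).hasDerivAt.div_const 2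
  let H : ℝ → ℂ := fun v => cexp (I * χ v)
  have hH : ∀ v, H v ≠ 0 := fun v => exp_ne_zero _
  have dH : ∀ v, HasDerivAt H (H v * (I * χ' v)) v := fun v =>
    ((dχ v).ofReal_comp.const_mul I).cexp
  have cH : Continuous H := continuous_iff_continuousAt.2 fun v => (dH v).continuousAt
  have cH' : Continuous fun v => H v * (I * χ' v) :=
    cH.mul (continuous_const.mul (continuous_ofReal.comp cχ'))
  have H0 : H 0 = 1 := by simp [H, χ, wind]
  have HH : ∀ v, H v * H v = Q v / Q 0 * ((‖Q 0‖ : ℂ) / ‖Q v‖) := fun v => by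
    rw [← wind_exp (τ := v) (h.deriv_Qf hF (ka θ) x) (h.th2_cont_Qd hF) hQ, ← Complex.exp_add]
    congr 1
    simp only [χ]
    push_cast
    ring
  have nQ : ∀ v, (‖Q v‖ : ℂ) = (√(confE ψ (b, v)) : ℝ) * (1 + (Real.cos θ : ℝ)) / 2 := fun v => by
    rw [hQdef, h.norm_QV hF hx1 hx2]
    push_cast
    ring
  have cQ : ∀ v, conj (Q v) = (‖Q v‖ : ℂ) ^ 2 / Q v := fun v => by
    rw [eq_div_iff (hQ v), mul_comm, mul_conj, normSq_eq_norm_sq]
    push_cast
    ring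
  have hc1' : (1 + (Real.cos θ : ℝ) : ℂ) ≠ 0 := by exact_mod_cast hc1.ne'
  have da := h.deriv_aa hF hx1 hx2 κ
  have key := hyperbolic_re (x := fun v => aa b θ F x κ v * H v)
    (y := fun v => bb b θ F x κ v * (H v)⁻¹ * ((‖Q 0‖ : ℂ) / Q 0))
    (om := fun v => (ka θ - κ) * (pu ψ (b, v) / 2) + χ' v) (l := fun v => √(confE ψ (b, v)) / 2)
    (k₁ := 1 + κ * (Real.cos θ - 1)) (k₂ := (ka θ - κ) * (1 + Real.cos θ)) (by nlinarith)
    (mul_pos (sub_pos.2 hκ2) hc1) ((continuous_const.mul (h.th2_cont_pu.div_const _)).add cχ')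
    (ce.div_const _) (fun v => ?_) (fun v => ?_) (fun v => ?_)
    (by rw [(h.aa_zero hF hx1 hx2 κ).1, H0, one_mul])
    (by rw [(h.aa_zero hF hx1 hx2 κ).2, zero_mul, zero_mul])
  · have w := wind_re_pos (fun v => (da v).mul (dH v))
      (((h.th2_cont_aa' hF κ).mul cH).add
        ((continuous_iff_continuousAt.2 fun v => (da v).continuousAt).mul cH'))
      (fun v => mul_ne_zero (h.aa_ne hF hx1 hx2 hκ2.le v) (hH v)) h.ann.hτ.le
      (fun v hv => one_pos.trans_le (key v hv.1))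
      (by rw [Pi.mul_apply, (h.aa_zero hF hx1 hx2 κ).1, H0, one_mul, one_im])
    have w2 := wind_mul (τ := τ) da (h.th2_cont_aa' hF κ) (h.aa_ne hF hx1 hx2 hκ2.le) dH cH' hH
    have w3 : wind τ H (fun v => H v * (I * χ' v)) = wind τ Q Q' / 2 := by
      simp only [wind, mul_div_cancel_left₀ _ (hH _), I_mul_im, ofReal_re, χ',
        intervalIntegral.integral_div]
    rw [w3] at w2
    exact (abs_lt.1 w).1.trans_eq w2
  · have hA : conj (Q v) * H v = ‖Q v‖ * (H v)⁻¹ * ((‖Q 0‖ : ℂ) / Q 0) := by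
      have h1 := hH v
      have h2 := hQ v
      have h3 := hQ 0
      have h4 := hnQ v
      have h5 := HH v
      rw [cQ]
      field_simp at h5 ⊢
      linear_combination h5
    rw [nQ v] at hA
    have hk : (((1 + κ * (Real.cos θ - 1)) / (1 + Real.cos θ) : ℝ) : ℂ) * (1 + (Real.cos θ : ℝ))
        = (1 + κ * (Real.cos θ - 1) : ℝ) := by
      rw [ofReal_div, ← div_mul_cancel₀ ((1 + κ * (Real.cos θ - 1) : ℝ) : ℂ) hc1']
      push_cast
      field_simp
    refine ((da v).mul (dH v)).congr_deriv ?_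
    simp only [aa', ← hQdef, ofReal_add ((ka θ - κ) * _), ofReal_mul (1 + κ * (Real.cos θ - 1)),
      ofReal_div (√(confE ψ (b, v))), ofReal_ofNat]
    linear_combination (-I * (((1 + κ * (Real.cos θ - 1)) / (1 + Real.cos θ) : ℝ) : ℂ)
      * bb b θ F x κ v) * hA - I * bb b θ F x κ v * (√(confE ψ (b, v)) : ℝ) / 2 * (H v)⁻¹
        * ((‖Q 0‖ : ℂ) / Q 0) * hk
  · have hB : Q v * (H v)⁻¹ * ((‖Q 0‖ : ℂ) / Q 0) = ‖Q v‖ * H v := by
      have h1 := hH v
      have h3 := hQ 0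
      have h4 := hnQ v
      have h5 := HH v
      field_simp at h5 ⊢
      linear_combination -h5
    rw [nQ v] at hB
    have hi : -(H v * (I * χ' v)) / H v ^ 2 = -(I * χ' v) * (H v)⁻¹ := by
      have h1 := hH v
      field_simp
    refine (((h.deriv_bb hF hx1 hx2 κ v).mul ((dH v).inv (hH v))).mul_const
      ((‖Q 0‖ : ℂ) / Q 0)).congr_deriv ?_
    simp only [bb', ← hQdef, hi, Pi.inv_apply, ofReal_add, ofReal_mul, ofReal_one,
      ofReal_div (√(confE ψ (b, v))), ofReal_ofNat]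
    linear_combination (I * (ka θ - κ : ℝ) * aa b θ F x κ v) * hB
  · have := th2_ineq hs (he v) hq0 hc1 (Real.sin_sq_add_cos_sq θ) ((hC ⟨v, rfl⟩).trans hκ1)
    simp only [χ', hQdef, hQ'def, h.arg_QV hF hx1 hx2]
    simp only [h.pu_b, ka, sub_eq_add_neg _ κ]
    rwa [neg_neg] at this

end Cap

end Pool.Agent.Lib.MP_c7e804_gt
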