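import Pool.Agent.Lib.MP_c7e804_gt.H43Nu
import Pool.Agent.Lib.MP_c7e804_gt.H43Th2
import Pool.Agent.Lib.MP_c7e804_gt.H43Neg

/-!
Gluing the rotation angle.
-/

namespace Pool.Agent.Lib.MP_c7e804_gt

open Matrix Set Complex
open scoped ContDiff ComplexConjugate

namespace Setup
variable {ψ : ℝ × ℝ → V3} {a b τ θ : ℝ} {g : ℕ} {s : ℕ → ℝ × ℝ → ℂ} {F G : ℂ → ℝ × ℝ → M2}
  (h : Setup ψ a b τ θ g s F G)
  (hw : ∀ r ∈ strip a b, 0 ≤ ww ψ θ r) (hc : 0 ≤ Real.cos θ)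
include h

theorem ang_cont_X0 (i : Fin 3) : Continuous fun κ : ℝ => X0 ψ b g s κ i :=
  (h.cap.poly_Xk h.kill.toPKill (h.cap.mem_b 0) i).differentiable.continuous.comp
    Complex.continuous_ofReal

theorem ang_cont_Y : Continuous fun κ : ℝ => (Yf ψ b g s κ).re := by
  have := h.ang_cont_X0
  simp only [Yf, dotProduct]
  fun_prop

theorem ang_cont_r : Continuous fun κ : ℝ => (cv (ψ (b, 0)) ⬝ᵥ X0 ψ b g s κ).re := by
  have := h.ang_cont_X0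
  simp only [dotProduct]
  fun_prop

theorem ang_hf_X {x : C2} (hx1 : star x ⬝ᵥ x = 1) (hx2 : sg (cv (ψ (b, 0))) *ᵥ x = x) (κ : ℝ) :
    hf x (sg (X0 ψ b g s κ)) x = ((cv (ψ (b, 0)) ⬝ᵥ X0 ψ b g s κ).re : ℂ) := by
  have h1 := hf_eig (H := 1) (x := cv (ψ (b, 0))) (w := X0 ψ b g s κ) (c := x) (s := 1)
    (by rw [star_cv, one_mul, mul_one]) (by simpa using hx2)
  have h2 : hf x 1 x = 1 := by simpa [hf] using hx1
  have h3 : (cv (ψ (b, 0)) ⬝ᵥ X0 ψ b g s κ).im = 0 := by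
    rw [cv_dot_im]; exact (h.kill.bc κ b (Or.inr rfl) 0).2
  rw [h2, one_mul, mul_one, Complex.ofReal_one, one_mul] at h1
  rw [h1]
  exact Complex.ext (by simp only [ofReal_re]) (by simp only [ofReal_im, h3])

theorem ang_hf_M {x : C2} (hx1 : star x ⬝ᵥ x = 1) (hx2 : sg (cv (ψ (b, 0))) *ᵥ x = x) (κ : ℝ) :
    hf x (F κ (b, τ)) x = Dk b τ F κ
      + I * alk ψ b τ g s F κ * ((cv (ψ (b, 0)) ⬝ᵥ X0 ψ b g s κ).re : ℂ) := by
  have h2 : hf x 1 x = 1 := by simpa [hf] using hx1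
  rw [h.M_eq κ, hf_add, hf_smul, hf_smul, h2, h.ang_hf_X hx1 hx2, mul_one]

theorem ang_norm {ε κ : ℝ} (hε : ε = 1 ∨ ε = -1) (hY : 0 ≤ (Yf ψ b g s κ).re) :
    ‖(Dk b τ F κ + I * alk ψ b τ g s F κ * (-ε * √(Yf ψ b g s κ).re : ℝ) : ℂ)‖ = 1 := by
  have h1 := h.quadD κ
  have h2 := Real.sq_sqrt hY
  have h3 : ε ^ 2 = 1 := by rcases hε with rfl | rfl <;> norm_num
  generalize √(Yf ψ b g s κ).re = r at h2
  have h4 : (Dk b τ F κ + I * alk ψ b τ g s F κ * (-ε * r : ℝ) : ℂ)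
      = (Dk b τ F κ : ℝ) + (alk ψ b τ g s F κ * (-ε * r) : ℝ) * I := by push_cast; ring
  rw [h4, Complex.norm_add_mul_I, ← Real.sqrt_one]
  congr 1
  rw [← h2] at h1
  linear_combination h1 + (alk ψ b τ g s F κ) ^ 2 * r ^ 2 * h3

include hw hc

theorem exists_angle (hs : SimpleAt ψ τ b) {Y P R : Polynomial ℝ}
    (hp : Polys ψ a b τ θ g s Y P R) :
    ∃ Θ m, Angle P (Dk b τ F) (alk ψ b τ g s F) Θ m := by
  obtain ⟨x, hx1, hx2⟩ := exists_unit_eig (h.cap.bd_unit (Or.inr rfl) 0)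
  have hx : x ≠ 0 := by
    rintro rfl
    simp at hx1
  have hka : ka θ < 0 := ka_neg h.cap.ann.hθa
  obtain ⟨ε, hε, hP⟩ := h.exists_sign hw
  obtain ⟨ν, hν1, hν2, hν3, hν4⟩ := h.exists_nu hw hc hε hP hs hx hx2
  have hPe : ∀ κ : ℝ, P.eval κ = (Pf ψ b τ g s κ).re := fun κ => by
    rw [← hp.Pev]; simp
  have hr : (cv (ψ (b, 0)) ⬝ᵥ X0 ψ b g s (ka θ)).re = -ε * √(Yf ψ b g s (ka θ)).re := by
    have h1 := h.ang_hf_X hx1 hx2 (ka θ)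
    rw [hf, h.sheet_ka hw hε hP hx hx2, dotProduct_smul, hx1, smul_eq_mul, mul_one] at h1
    exact (Complex.ofReal_injective h1).symm
  obtain ⟨t, ht, ht1, ht2⟩ : ∃ t : ℝ → ℝ, Continuous t ∧
      (∀ κ ≤ ka θ, t κ = (cv (ψ (b, 0)) ⬝ᵥ X0 ψ b g s κ).re) ∧
      ∀ κ, ka θ ≤ κ → t κ = -ε * √(Yf ψ b g s κ).re := by
    refine ⟨fun κ => if κ ≤ ka θ then (cv (ψ (b, 0)) ⬝ᵥ X0 ψ b g s κ).re
      else -ε * √(Yf ψ b g s κ).re, ?_, fun κ hκ => if_pos hκ, fun κ hκ => ?_⟩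
    · refine Continuous.if_le h.ang_cont_r (continuous_const.mul h.ang_cont_Y.sqrt)
        continuous_id continuous_const ?_
      rintro κ rfl
      exact hr
    · rcases hκ.eq_or_lt with rfl | hκ
      · exact (if_pos le_rfl).trans hr
      · exact if_neg hκ.not_ge
  obtain ⟨Θ, hΘ1, hΘ2⟩ : ∃ Θ : ℝ → ℝ, (∀ κ ≤ ka θ, Θ κ = Th1 ψ b τ θ F x κ) ∧
      ∀ κ, ka θ ≤ κ → Θ κ = ν κ := by
    refine ⟨fun κ => if κ ≤ ka θ then Th1 ψ b τ θ F x κ else ν κ, fun κ hκ => if_pos hκ,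
      fun κ hκ => ?_⟩
    rcases hκ.eq_or_lt with rfl | hκ
    · exact (if_pos le_rfl).trans ((h.cap.Th1_ka h.frame hx1 hx2).trans hν3.symm)
    · exact if_neg hκ.not_ge
  refine ⟨Θ, fun κ => Dk b τ F κ + I * alk ψ b τ g s F κ * t κ, ?_, ?_, fun κ hκ => ?_,
    fun κ _ => by simp, fun κ hκ => ?_, fun κ hκ hD => ?_, ?_, ?_, ?_⟩
  · rw [← Iic_union_Icc_eq_Iic hka.le]
    exact ((h.cap.Th1_cont h.frame hx1 hx2).congr fun κ hκ => hΘ1 κ hκ).union_of_isClosed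
      (hν1.congr fun κ hκ => hΘ2 κ hκ.1) isClosed_Iic isClosed_Icc
  · have h1 := h.cont_Dk
    have h2 := h.cont_alk
    fun_prop
  · rcases le_total κ (ka θ) with h1 | h1
    · rw [ht1 κ h1, ← h.ang_hf_M hx1 hx2]
      exact (h.cap.Th1_phase h.frame hx1 hx2 h1).1
    · rw [ht2 κ h1, ← norm_ne_zero_iff, h.ang_norm hε (hP κ ⟨h1, hκ⟩).1]
      exact one_ne_zero
  · rcases le_total κ (ka θ) with h1 | h1
    · rw [ht1 κ h1, hΘ1 κ h1, ← h.ang_hf_M hx1 hx2]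
      exact (h.cap.Th1_phase h.frame hx1 hx2 h1).2
    · rw [ht2 κ h1, hΘ2 κ h1, h.ang_norm hε (hP κ ⟨h1, hκ⟩).1, hν2 κ ⟨h1, hκ⟩]
      simp
  · have hq := h.quadD κ
    have hD2 : Dk b τ F κ ^ 2 < 1 := (sq_lt_one_iff_abs_lt_one _).2 hD
    have hαY : 0 < alk ψ b τ g s F κ ^ 2 * (Yf ψ b g s κ).re := by linarith
    have hα : 0 < alk ψ b τ g s F κ ^ 2 := by
      rcases (sq_nonneg (alk ψ b τ g s F κ)).eq_or_lt with h0 | h0
      · rw [← h0, zero_mul] at hαY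
        exact absurd hαY (lt_irrefl _)
      · exact h0
    have hY : 0 < (Yf ψ b g s κ).re := (mul_pos_iff_of_pos_left hα).1 hαY
    have him : (Dk b τ F κ + I * alk ψ b τ g s F κ * t κ : ℂ).im = alk ψ b τ g s F κ * t κ := by
      simp
    have hPt : t κ * (Pf ψ b τ g s κ).re < 0 := by
      rcases lt_or_ge κ (ka θ) with h1 | h1
      · rw [ht1 κ h1.le]
        exact h.left_sign hw h1 hY
      · rw [ht2 κ h1]
        have h2 := mul_pos (Real.sqrt_pos.2 hY) (hP κ ⟨h1, hκ⟩).2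
        linarith
    rw [him, hPe]
    have := mul_neg_of_pos_of_neg hα hPt
    linarith
  · simp [h.D_zero.1, h.D_zero.2]
  · rw [hΘ2 0 hka.le]
    exact hν4
  · obtain ⟨κ₁, hκ₁⟩ := h.cap.Th1_low h.frame hx1 hx2
    refine ⟨min κ₁ (ka θ), fun κ hκ => ?_⟩
    rw [hΘ1 κ (hκ.trans (min_le_right _ _))]
    exact hκ₁ κ (hκ.trans (min_le_left _ _))

theorem genus_le (hs : SimpleAt ψ τ b) : g ≤ 1 := by
  obtain ⟨Y, P, R, hp⟩ := h.exists_polys h.P_real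
  obtain ⟨Θ, m, hA⟩ := h.exists_angle hw hc hs hp
  have hS := h.spec hw hp
  exact hS.count (hS.neg_unique hA)

end Setup

end Pool.Agent.Lib.MP_c7e804_gt
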