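import Pool.Agent.Lib.MP_c7e804_gt.H43XLax

/-!
The formal Killing field is compatible with the boundary matrix.
-/

namespace Pool.Agent.Lib.MP_c7e804_gt

open Matrix Set Complex Finset.HasAntidiagonal
open scoped ContDiff ComplexConjugate

/-- convolution identity for the defect sequence -/
theorem bci_conv (K : M2) (Y B : ℕ → M2) (y : ℕ → ℂ) (hY0 : Y 0 = 0) (hB0 : B 0 = 0)
    (hY : ∀ n, ∑ x ∈ antidiagonal n, Y (x.1 + 1) * Y (x.2 + 1) = y n • (1 : M2))
    (hB : ∀ n, ∑ x ∈ antidiagonal n, B (x.1 + 1) * B (x.2 + 1) = y n • (1 : M2)) (n : ℕ) :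
    ∑ x ∈ antidiagonal n,
      ((K * Y (x.1 + 1) - B (x.1 + 1) * K + Y x.1 - B x.1) * Y (x.2 + 1)
        + B (x.2 + 1) * (K * Y (x.1 + 1) - B (x.1 + 1) * K + Y x.1 - B x.1)) = 0 := by
  have e : ∀ x : ℕ × ℕ, ((K * Y (x.1 + 1) - B (x.1 + 1) * K + Y x.1 - B x.1) * Y (x.2 + 1)
        + B (x.2 + 1) * (K * Y (x.1 + 1) - B (x.1 + 1) * K + Y x.1 - B x.1))
      = (K * (Y (x.1 + 1) * Y (x.2 + 1)) - (B (x.2 + 1) * B (x.1 + 1)) * K)
        + (B (x.2 + 1) * K * Y (x.1 + 1) - B (x.1 + 1) * K * Y (x.2 + 1))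
        + (Y x.1 * Y (x.2 + 1) - B (x.2 + 1) * B x.1)
        + (B (x.2 + 1) * Y x.1 - B x.1 * Y (x.2 + 1)) := by
    intro x
    noncomm_ring
  have hB' : ∀ n, ∑ x ∈ antidiagonal n, B (x.2 + 1) * B (x.1 + 1) = y n • (1 : M2) := by
    intro n
    rw [← hB n]
    exact Finset.Nat.sum_antidiagonal_swap (f := fun x => B (x.1 + 1) * B (x.2 + 1))
  have s1 : ∑ x ∈ antidiagonal n,
      (K * (Y (x.1 + 1) * Y (x.2 + 1)) - (B (x.2 + 1) * B (x.1 + 1)) * K) = 0 := by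
    rw [Finset.sum_sub_distrib, ← Finset.mul_sum, ← Finset.sum_mul, hY, hB']
    simp
  have s2 : ∑ x ∈ antidiagonal n,
      (B (x.2 + 1) * K * Y (x.1 + 1) - B (x.1 + 1) * K * Y (x.2 + 1)) = 0 := by
    rw [Finset.sum_sub_distrib, sub_eq_zero]
    exact Finset.Nat.sum_antidiagonal_swap (f := fun x => B (x.1 + 1) * K * Y (x.2 + 1))
  have s3 : ∑ x ∈ antidiagonal n, (Y x.1 * Y (x.2 + 1) - B (x.2 + 1) * B x.1) = 0 := by
    cases n with
    | zero => simp [hY0, hB0]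
    | succ m =>
      rw [Finset.Nat.sum_antidiagonal_succ]
      simp only [hY0, hB0, zero_mul, mul_zero, sub_zero, zero_add]
      rw [Finset.sum_sub_distrib, hY, hB', sub_self]
  have s4 : ∑ x ∈ antidiagonal n, (B (x.2 + 1) * Y x.1 - B x.1 * Y (x.2 + 1)) = 0 := by
    cases n with
    | zero => simp [hY0, hB0]
    | succ m =>
      rw [Finset.Nat.sum_antidiagonal_succ]
      simp only [hY0, hB0, zero_mul, mul_zero, sub_zero, zero_add]
      rw [Finset.sum_sub_distrib, sub_eq_zero]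
      exact Finset.Nat.sum_antidiagonal_swap (f := fun x => B (x.1 + 1) * Y (x.2 + 1))
  simp only [e, Finset.sum_add_distrib, s1, s2, s3, s4, add_zero]

theorem bci_sum_top (f : ℕ × ℕ → M2) (n : ℕ) (hf : ∀ j k, j < n → f (j, k) = 0) :
    ∑ x ∈ antidiagonal n, f x = f (n, 0) := by
  apply Finset.sum_eq_single_of_mem
  · simp
  · rintro ⟨j, k⟩ hx hne
    apply hf
    simp only [Finset.HasAntidiagonal.mem_antidiagonal] at hx
    simp only [ne_eq, Prod.mk.injEq, not_and] at hne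
    omega

theorem bci_sum_top2 (f : ℕ × ℕ → M2) (n : ℕ) (hf : ∀ j k, j < n → f (j, k) = 0) :
    ∑ x ∈ antidiagonal (n + 1), f x = f (n + 1, 0) + f (n, 1) := by
  rw [Finset.Nat.sum_antidiagonal_succ', bci_sum_top (fun x => f (x.1, x.2 + 1)) n]
  intro j k hj
  exact hf j (k + 1) hj

theorem bci_sq (x : ℕ → C3) (n : ℕ) :
    ∑ z ∈ antidiagonal n, sg (x z.1) * sg (x z.2)
      = (∑ z ∈ antidiagonal n, x z.1 ⬝ᵥ x z.2) • (1 : M2) := by
  have h1 : ∑ z ∈ antidiagonal n, sg (x z.2) * sg (x z.1)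
      = ∑ z ∈ antidiagonal n, sg (x z.1) * sg (x z.2) :=
    Finset.Nat.sum_antidiagonal_swap (f := fun z => sg (x z.1) * sg (x z.2))
  have h2 : ∑ z ∈ antidiagonal n, (sg (x z.1) * sg (x z.2) + sg (x z.2) * sg (x z.1))
      = (2 : ℂ) • ((∑ z ∈ antidiagonal n, x z.1 ⬝ᵥ x z.2) • (1 : M2)) := by
    simp only [sg_anti]
    rw [← Finset.sum_smul, ← Finset.mul_sum, mul_smul]
  rw [Finset.sum_add_distrib, h1, ← two_smul ℂ] at h2
  exact smul_right_injective M2 (two_ne_zero) h2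

theorem bci_rel {ψ : ℝ × ℝ → V3} {θ : ℝ} {p : ℝ × ℝ} {x x' : C3}
    (h : K0 ψ θ p * sg x' - (sg x')ᴴ * K0 ψ θ p + sg x - (sg x)ᴴ = 0) : Rel ψ θ p x x' := by
  have e : K0 ψ θ p * sg x' - (sg x')ᴴ * K0 ψ θ p + sg x - (sg x)ᴴ
      = (2 * I * ((ψ p ⬝ᵥ im3 x' : ℝ) : ℂ)) • (1 : M2)
        + sg ((2 * I) • cv (im3 x + Real.cos θ • im3 x' + ψ p ⨯₃ re3 x')) := by
    have a1 := sg_comm (cv (ψ p)) (cv (re3 x'))
    have a2 := sg_anti (cv (ψ p)) (cv (im3 x'))
    rw [cv_cross] at a1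
    rw [cv_dot] at a2
    have b1 : sg x' = sg (cv (re3 x')) + I • sg (cv (im3 x')) := by
      rw [← sg_smul, ← sg_add, ← eq_re_im]
    have b2 : (sg x')ᴴ = sg (cv (re3 x')) - I • sg (cv (im3 x')) := by
      rw [sg_ct, ← sg_smul, ← sg_sub, ← star_eq_re_im]
    have b3 : sg x = sg (cv (re3 x)) + I • sg (cv (im3 x)) := by
      rw [← sg_smul, ← sg_add, ← eq_re_im]
    have b4 : (sg x)ᴴ = sg (cv (re3 x)) - I • sg (cv (im3 x)) := by
      rw [sg_ct, ← sg_smul, ← sg_sub, ← star_eq_re_im]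
    rw [b2, b4, b1, b3, sg_smul, cv_add, cv_add, cv_smul, sg_add, sg_add, sg_smul, K0]
    generalize sg (cv (ψ p)) = P at a1 a2 ⊢
    generalize sg (cv (re3 x')) = R' at a1 ⊢
    generalize sg (cv (im3 x')) = M' at a2 ⊢
    generalize sg (cv (re3 x)) = R
    generalize sg (cv (im3 x)) = M
    generalize sg (cv (ψ p ⨯₃ re3 x')) = W at a1 ⊢
    simp only [add_mul, mul_add, sub_mul, smul_mul_assoc, mul_smul_comm, one_mul, mul_one]
    linear_combination (norm := module) a1 + I • a2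
  rw [e] at h
  obtain ⟨h1, h2⟩ := sg_inj h
  have hI : (2 * I : ℂ) ≠ 0 := mul_ne_zero two_ne_zero I_ne_zero
  refine ⟨?_, ?_⟩
  · have h3 := (smul_eq_zero.1 h2).resolve_left hI
    funext i
    have h4 := congrFun h3 i
    simp only [cv, Pi.zero_apply, ofReal_eq_zero] at h4
    exact h4
  · have h3 := (mul_eq_zero.1 h1).resolve_left hI
    exact ofReal_eq_zero.1 h3

/-- algebraic core of the induction step -/
theorem bci_step {A Ah N P1 P2 D D' Dv X1 X1h : M2} {q E g al : ℂ} (hq : q ≠ 0) (hE : E ≠ 0)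
    (AA : A * A = 0) (AAh : A * Ah = (E / 2) • (1 - N)) (hP1 : P1 = g • A + q • N)
    (hP2 : P2 * A + A * P2 = (2 * -q ^ 2) • (1 : M2)) (hX1 : X1 = al • A - P2)
    (DA : D * A = 0) (hd : Dv * A + D * (I • P1) = 0) (hDv : Dv = I • (D' * A - Ah * D'))
    (hc : (D' * ((2 * q) • A) + ((2 * q) • Ah) * D') + (D * X1 + X1h * D) = 0) : D = 0 := by
  have h1 : D * N = D := by
    have h2 : D * (A * Ah) = 0 := by rw [← mul_assoc, DA, zero_mul]
    rw [AAh, mul_smul_comm, smul_eq_zero] at h2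
    have h3 := h2.resolve_left (div_ne_zero hE two_ne_zero)
    rw [mul_sub, mul_one, sub_eq_zero] at h3
    exact h3.symm
  have h2 : D * P1 = q • D := by
    rw [hP1, mul_add, mul_smul_comm, mul_smul_comm, DA, h1, smul_zero, zero_add]
  have h3 : Ah * D' * A = q • D := by
    rw [hDv, smul_mul_assoc, mul_smul_comm, ← smul_add, smul_eq_zero, h2, sub_mul, mul_assoc, AA,
      mul_zero, zero_sub] at hd
    have := hd.resolve_left I_ne_zero
    rw [neg_add_eq_zero] at this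
    exact this
  have h4 : D * (P2 * A) = (2 * -q ^ 2) • D := by
    have : D * (P2 * A + A * P2) = (2 * -q ^ 2) • D := by rw [hP2, mul_smul_comm, mul_one]
    rw [mul_add, ← mul_assoc D A, DA, zero_mul, add_zero] at this
    exact this
  have h5 := congrArg (· * A) hc
  simp only [hX1, add_mul, mul_sub, sub_mul, smul_mul_assoc, mul_smul_comm, zero_mul] at h5
  rw [mul_assoc D' A, AA, mul_zero, h3, DA, mul_assoc D P2, h4, mul_assoc X1h, DA] at h5
  have h6 : (4 * q ^ 2) • D = 0 := by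
    simp only [smul_zero, zero_mul, mul_zero, zero_add, add_zero, zero_sub] at h5
    linear_combination (norm := module) h5
  exact (smul_eq_zero.1 h6).resolve_left (mul_ne_zero (by norm_num) (pow_ne_zero 2 hq))

theorem bci_line {a b u : ℝ} {M Mu Mv : ℝ × ℝ → M2} (h : PDm a b M Mu Mv)
    (hu : ∀ v, ((u, v) : ℝ × ℝ) ∈ strip a b) (h0 : ∀ v, M (u, v) = 0) (v : ℝ) :
    Mv (u, v) = 0 := by
  ext i j
  have h1 := (h i j).hv (u, v) (hu v)
  simp only [h0, Matrix.zero_apply] at h1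
  exact h1.unique (hasDerivAt_const v 0)

/-- the Lenard sequence shifted by one -/
noncomputable def bciS (S : ℕ → ℝ × ℝ → ℂ) : ℕ → ℝ × ℝ → ℂ
  | 0 => fun _ => 0
  | j + 1 => S j

theorem bci_Xj (ψ : ℝ × ℝ → V3) (b : ℝ) (S : ℕ → ℝ × ℝ → ℂ) (j : ℕ) :
    Xj ψ b S j = Xv ψ b (bciS S j) (S j) := by
  cases j <;> rfl

/-- the coefficients shifted by one -/
noncomputable def bciY (ψ : ℝ × ℝ → V3) (b : ℝ) (S : ℕ → ℝ × ℝ → ℂ) : ℕ → ℝ × ℝ → C3
  | 0 => fun _ => 0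
  | j + 1 => Xj ψ b S j

/-- the defect -/
noncomputable def bciD (ψ : ℝ × ℝ → V3) (b θ : ℝ) (S : ℕ → ℝ × ℝ → ℂ) (n : ℕ) (p : ℝ × ℝ) : M2 :=
  K0 ψ θ p * sg (bciY ψ b S (n + 1) p) - (sg (bciY ψ b S (n + 1) p))ᴴ * K0 ψ θ p
    + sg (bciY ψ b S n p) - (sg (bciY ψ b S n p))ᴴ

theorem bci_X0 {ψ : ℝ × ℝ → V3} {b : ℝ} {S : ℕ → ℝ × ℝ → ℂ} (hS : S 0 = fun _ => 1)
    (p : ℝ × ℝ) : Xj ψ b S 0 p = (2 * (hq ψ b : ℂ)) • ph ψ p := by
  simp [Xj, Xv, hS, du_const]

theorem bci_X1 {ψ : ℝ × ℝ → V3} {b : ℝ} {S : ℕ → ℝ × ℝ → ℂ} (hS : S 0 = fun _ => 1)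
    (p : ℝ × ℝ) :
    Xj ψ b S 1 p = (2 * (hq ψ b : ℂ) * S 1 p - 4 * UU ψ b p) • ph ψ p - ph2 ψ p := by
  simp [Xj, Xv, hS, du_const]

namespace Cap
variable {ψ : ℝ × ℝ → V3} {a b τ θ : ℝ} (h : Cap ψ a b τ θ)
include h

theorem bci_dot {S : ℕ → ℝ × ℝ → ℂ} (hS : Lenard a b τ (hq ψ b) (UU ψ b) S) {p : ℝ × ℝ}
    (hp : p ∈ strip a b) (n : ℕ) :
    ∑ z ∈ antidiagonal n, Xj ψ b S z.1 p ⬝ᵥ Xj ψ b S z.2 p
      = if n = 1 then 4 * (hq ψ b : ℂ) ^ 3 else 0 := by
  simp only [bci_Xj, h.Xv_Xv hp]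
  rw [← Finset.mul_sum]
  simp only [Finset.sum_add_distrib, Finset.sum_sub_distrib, ← Finset.mul_sum, mul_assoc]
  match n with
  | 0 => simp [bciS, du_const]
  | 1 =>
    simp [Finset.Nat.sum_antidiagonal_succ, bciS, du_const, hS.zero]
    ring
  | m + 2 =>
    have t1 : ∑ z ∈ antidiagonal (m + 2), S z.1 p * bciS S z.2 p
        = ∑ z ∈ antidiagonal (m + 1), S z.1 p * S z.2 p := by
      rw [Finset.Nat.sum_antidiagonal_succ']
      simp [bciS]
    have t2 : ∑ z ∈ antidiagonal (m + 2), bciS S z.1 p * S z.2 p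
        = ∑ z ∈ antidiagonal (m + 1), S z.1 p * S z.2 p := by
      rw [Finset.Nat.sum_antidiagonal_succ]
      simp [bciS]
    have t3 : ∀ f g : (ℝ × ℝ → ℂ) → ℂ, f (fun _ => 0) = 0 → g (fun _ => 0) = 0 →
        ∑ z ∈ antidiagonal (m + 2), f (bciS S z.1) * g (bciS S z.2)
        = ∑ z ∈ antidiagonal m, f (S z.1) * g (S z.2) := by
      intro f g hf hg
      rw [Finset.Nat.sum_antidiagonal_succ, Finset.Nat.sum_antidiagonal_succ']
      simp [bciS, hf, hg]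
    have t4 := t3 (fun T => du (du T) p) (fun T => T p) (by simp [du_const]) rfl
    have t5 := t3 (fun T => T p) (fun T => du (du T) p) rfl (by simp [du_const])
    have t6 := t3 (fun T => T p) (fun T => T p) rfl rfl
    have t7 := t3 (fun T => du T p) (fun T => du T p) (by simp [du_const]) (by simp [du_const])
    have t8 : ∑ z ∈ antidiagonal m, du (du (S z.1)) p * S z.2 p
        = ∑ z ∈ antidiagonal m, S z.1 p * du (du (S z.2)) p := by
      rw [← Finset.Nat.sum_antidiagonal_swap]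
      simp [mul_comm]
    have hq := hS.quad m p hp
    rw [← Finset.Nat.sum_antidiagonal_eq_sum_range_succ (fun i j => S i p * S j p),
      ← Finset.Nat.sum_antidiagonal_eq_sum_range_succ (fun i j => 2 * S i p * du (du (S j)) p
        - du (S i) p * du (S j) p + 4 * UU ψ b p * S i p * S j p)] at hq
    simp only [Finset.sum_add_distrib, Finset.sum_sub_distrib, ← Finset.mul_sum, mul_assoc] at hq
    rw [t1, t2, t4, t5, t6, t7, t8, if_neg (by omega)]
    linear_combination (MP_c7e804_gt.hq ψ b : ℂ) ^ 2 * hq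

theorem bci_pdY {S : ℕ → ℝ × ℝ → ℂ} (hS : Lenard a b τ (hq ψ b) (UU ψ b) S) (n : ℕ) :
    ∃ Mu, PDm a b (fun p => sg (bciY ψ b S n p)) Mu (fun p =>
      (-I) • (Am ψ p * sg (bciY ψ b S (n + 1) p) - sg (bciY ψ b S (n + 1) p) * Am ψ p)) := by
  have key : ∀ (y : C3) (p : ℝ × ℝ), (-I) • (Am ψ p * sg y - sg y * Am ψ p)
      = sg ((2 : ℂ) • (ph ψ p ⨯₃ y)) := by
    intro y p
    rw [Am, sg_comm, sg_smul, smul_smul]
    congr 1
    linear_combination (-2 : ℂ) * I_sq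
  match n with
  | 0 =>
    refine ⟨_, (PDm.const (a := a) (b := b) (sg 0)).congr (fun p _ => rfl) (fun p _ => rfl) ?_⟩
    intro p _
    simp only [bciY, bci_X0 hS.zero, sg_smul, Am, mul_smul_comm, smul_mul_assoc, sub_self,
      smul_zero]
  | 1 =>
    have h1 := h.pd_Xv (Hol.const (a := a) (b := b) (τ := τ) 0) (hS.hol 0)
      (by intro r _; simp [L3, du_const, hS.zero]) (S 1)
    exact ⟨_, (PDm.sg h1).congr (fun p _ => rfl) (fun p _ => rfl) (fun p _ => key _ p)⟩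
  | j + 2 =>
    have h1 := h.pd_Xv (hS.hol j) (hS.hol (j + 1)) (hS.ode j) (S (j + 2))
    exact ⟨_, (PDm.sg h1).congr (fun p _ => rfl) (fun p _ => rfl) (fun p _ => key _ p)⟩

theorem bci_pdD {S : ℕ → ℝ × ℝ → ℂ} (hS : Lenard a b τ (hq ψ b) (UU ψ b) S) (n : ℕ) :
    ∃ Mu Mv, PDm a b (bciD ψ b θ S n) Mu Mv ∧ ∀ u, u = a ∨ u = b → ∀ v, Mv (u, v) =
      I • (bciD ψ b θ S (n + 1) (u, v) * Am ψ (u, v)
        - (Am ψ (u, v))ᴴ * bciD ψ b θ S (n + 1) (u, v)) := by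
  obtain ⟨M0, h0⟩ := h.bci_pdY hS n
  obtain ⟨M1, h1⟩ := h.bci_pdY hS (n + 1)
  have h2 := (((h.pd_K0.mul h1).add ((h1.ct.mul h.pd_K0).const_smul (-1))).add h0).add
    (h0.ct.const_smul (-1))
  refine ⟨_, _, h2.congr (fun p _ => ?_) (fun p _ => rfl) (fun p _ => rfl), ?_⟩
  · simp only [bciD, neg_smul, one_smul, sub_eq_add_neg]
  · intro u hu v
    have e := h.bd_Ah_K0 hu v
    simp only [bciD, conjTranspose_smul, conjTranspose_sub, conjTranspose_mul, star_neg,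
      RCLike.star_def, conj_I, neg_neg]
    generalize Am ψ (u, v) = A at e ⊢
    generalize Aᴴ = Ah at e ⊢
    generalize K0 ψ θ (u, v) = K at e ⊢
    generalize sg (bciY ψ b S (n + 1) (u, v)) = Y1
    generalize sg (bciY ψ b S (n + 1 + 1) (u, v)) = Y2
    generalize Y1ᴴ = B1
    generalize Y2ᴴ = B2
    have e1 : Ah * (K * Y2) = K * (A * Y2) := by rw [← mul_assoc, e, mul_assoc]
    have e2 : B2 * (Ah * K) = B2 * (K * A) := by rw [e]
    simp only [add_mul, mul_add, sub_mul, mul_sub, smul_mul_assoc, mul_smul_comm, mul_assoc, e1, e2]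
    module

theorem bci_zero {S : ℕ → ℝ × ℝ → ℂ} (hS : Lenard a b τ (hq ψ b) (UU ψ b) S) {u : ℝ}
    (hu : u = a ∨ u = b) (n : ℕ) : ∀ v, bciD ψ b θ S n (u, v) = 0 := by
  have hq0 : (hq ψ b : ℂ) ≠ 0 := ofReal_ne_zero.2 h.q_pos.ne'
  have hX0 : ∀ p, sg (bciY ψ b S 1 p) = (2 * (hq ψ b : ℂ)) • Am ψ p := by
    intro p
    simp only [bciY, bci_X0 hS.zero, sg_smul, Am]
  have hB0 : ∀ p, (sg (bciY ψ b S 1 p))ᴴ = (2 * (hq ψ b : ℂ)) • (Am ψ p)ᴴ := by
    intro p
    rw [hX0, conjTranspose_smul]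
    simp
  have conv : ∀ v n, ∑ x ∈ antidiagonal n,
      (bciD ψ b θ S x.1 (u, v) * sg (bciY ψ b S (x.2 + 1) (u, v))
        + (sg (bciY ψ b S (x.2 + 1) (u, v)))ᴴ * bciD ψ b θ S x.1 (u, v)) = 0 := by
    intro v n
    have hY : ∀ n, ∑ x ∈ antidiagonal n,
        sg (bciY ψ b S (x.1 + 1) (u, v)) * sg (bciY ψ b S (x.2 + 1) (u, v))
        = (if n = 1 then 4 * (hq ψ b : ℂ) ^ 3 else 0) • (1 : M2) := by
      intro n
      rw [← h.bci_dot hS (h.mem_bd hu v) n]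
      exact bci_sq (fun j => Xj ψ b S j (u, v)) n
    refine bci_conv (K0 ψ θ (u, v)) (fun j => sg (bciY ψ b S j (u, v)))
      (fun j => (sg (bciY ψ b S j (u, v)))ᴴ) (fun n => if n = 1 then 4 * (hq ψ b : ℂ) ^ 3 else 0)
      sg_zero ?_ hY ?_ n
    · simp only [bciY, sg_zero, conjTranspose_zero]
    · intro n
      have h1 := congrArg conjTranspose (hY n)
      rw [conjTranspose_sum, conjTranspose_smul, conjTranspose_one] at h1
      simp only [conjTranspose_mul] at h1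
      rw [← Finset.Nat.sum_antidiagonal_swap]
      simp only [Prod.fst_swap, Prod.snd_swap]
      rw [h1]
      congr 1
      split_ifs <;> simp
  induction n using Nat.strong_induction_on with
  | _ n ih =>
    match n, ih with
    | 0, _ =>
      intro v
      rw [bciD, hB0, hX0]
      simp only [bciY, sg_zero, conjTranspose_zero, mul_smul_comm, smul_mul_assoc, h.bd_Ah_K0 hu v,
        sub_self, add_zero]
    | m + 1, ih =>
      obtain ⟨Mu, Mv, hM, hMv⟩ := h.bci_pdD hS m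
      obtain ⟨Nu, Nv, hN, hNv⟩ := h.bci_pdD hS (m + 1)
      have DA : ∀ v, bciD ψ b θ S (m + 1) (u, v) * Am ψ (u, v) = 0 := by
        intro v
        have a1 := bci_line hM (h.mem_bd hu) (ih m (by omega)) v
        rw [hMv u hu v, smul_eq_zero, sub_eq_zero] at a1
        have a2 := a1.resolve_left I_ne_zero
        have a3 := conv v (m + 1)
        rw [bci_sum_top _ _ (fun j k hj => by simp only [ih j hj v, zero_mul, mul_zero, add_zero])]
          at a3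
        simp only [zero_add] at a3
        rw [hB0, hX0, mul_smul_comm, smul_mul_assoc, ← a2, ← smul_add, ← two_smul ℂ, smul_eq_zero,
          smul_eq_zero] at a3
        exact (a3.resolve_left (mul_ne_zero two_ne_zero hq0)).resolve_left two_ne_zero
      intro v
      have hp := h.mem_bd hu v
      have b1 := bci_line (hN.mul h.pd_A) (h.mem_bd hu) DA v
      have b2 := conv v (m + 1 + 1)
      rw [bci_sum_top2 _ _ (fun j k hj => by simp only [ih j hj v, zero_mul, mul_zero, add_zero])]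
        at b2
      simp only [zero_add] at b2
      rw [hB0, hX0] at b2
      have hE : (confE ψ (u, v) : ℂ) ≠ 0 := by
        intro e
        have := (dot_star_pos (h.ph_ne hp)).1
        rw [h.ph_star hp, e] at this
        simp at this
      have AAh : Am ψ (u, v) * (Am ψ (u, v))ᴴ
          = ((confE ψ (u, v) : ℂ) / 2) • (1 - Nm ψ (u, v)) := by
        have c1 := sg_anti (ph ψ (u, v)) (star (ph ψ (u, v)))
        rw [h.ph_star hp, ← sg_ct] at c1
        have c2 := h.Ah_A hp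
        simp only [Am] at c2 ⊢
        linear_combination (norm := module) c1 - c2
      have hP2 : sg (ph2 ψ (u, v)) * Am ψ (u, v) + Am ψ (u, v) * sg (ph2 ψ (u, v))
          = (2 * -(hq ψ b : ℂ) ^ 2) • (1 : M2) := by
        rw [add_comm, Am, sg_anti, h.ph_ph2 hp]
      have hX1 : sg (bciY ψ b S (1 + 1) (u, v))
          = (2 * (hq ψ b : ℂ) * S 1 (u, v) - 4 * UU ψ b (u, v)) • Am ψ (u, v)
            - sg (ph2 ψ (u, v)) := by
        simp only [bciY, bci_X1 hS.zero, sg_sub, sg_smul, Am]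
      exact bci_step hq0 hE (h.A_A hp) AAh (h.sg_ph1 hp) hP2 hX1 (DA v) b1 (hNv u hu v) b2

theorem rel_Xj {S : ℕ → ℝ × ℝ → ℂ} (hS : Lenard a b τ (hq ψ b) (UU ψ b) S) {u : ℝ}
    (hu : u = a ∨ u = b) (v : ℝ) :
    Rel ψ θ (u, v) 0 (Xj ψ b S 0 (u, v)) ∧
      ∀ j, Rel ψ θ (u, v) (Xj ψ b S j (u, v)) (Xj ψ b S (j + 1) (u, v)) :=
  ⟨bci_rel (h.bci_zero hS hu 0 v), fun j => bci_rel (h.bci_zero hS hu (j + 1) v)⟩

end Cap

end Pool.Agent.Lib.MP_c7e804_gt
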