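import Pool.Agent.Lib.MP_c7e804_gt.H63Defs

/-!
Simple closed boundary curves.
-/

namespace Pool.Agent.Lib.MP_c7e804_gt

/-- The closed curve `v ↦ ψ (u, v)` of period `τ` is simple: two parameters with the same image
differ by an integer multiple of the period. -/
def SimpleAt (ψ : ℝ × ℝ → V3) (τ u : ℝ) : Prop :=
  ∀ v v' : ℝ, ψ (u, v) = ψ (u, v') → ∃ k : ℤ, v' = v + k * τ

end Pool.Agent.Lib.MP_c7e804_gt
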