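import Pool.Agent.Lib.MP_c7e804_gt.H63Jacobi
import Pool.Agent.Lib.MP_c7e804_gt.H43Defs

/-!
Definitions for the spectral method (Lax pair, boundary matrix, polynomial Killing fields).
-/

namespace Pool.Agent.Lib.MP_c7e804_gt

open Matrix Set Complex
open scoped ContDiff

abbrev C3 := Fin 3 → ℂ
abbrev C2 := Fin 2 → ℂ
abbrev M2 := Matrix (Fin 2) (Fin 2) ℂ

/-- complexification of a real vector -/
def cv (x : V3) : C3 := fun i => (x i : ℂ)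

/-- real part of a complex vector -/
def re3 (x : C3) : V3 := fun i => (x i).re

/-- imaginary part of a complex vector -/
def im3 (x : C3) : V3 := fun i => (x i).im

/-- Pauli matrix of a vector -/
def sg (x : C3) : M2 := !![x 2, x 0 - I * x 1; x 0 + I * x 1, -x 2]

/-- determinant of two spinors -/
def br (x y : C2) : ℂ := x 0 * y 1 - x 1 * y 0

/-- Hermitian form `x^* K y` -/
def hf (x : C2) (K : M2) (y : C2) : ℂ := star x ⬝ᵥ (K *ᵥ y)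

/-- `f` is continuous on the strip with continuous first derivatives `fu` (one sided on the
boundary) and `fv`. -/
structure PD {F : Type} [NormedAddCommGroup F] [NormedSpace ℝ F] (a b : ℝ)
    (f fu fv : ℝ × ℝ → F) : Prop where
  cont : ContinuousOn f (strip a b)
  contu : ContinuousOn fu (strip a b)
  contv : ContinuousOn fv (strip a b)
  hu : ∀ p ∈ strip a b, HasDerivWithinAt (fun x => f (x, p.2)) (fu p) (Icc a b) p.1
  hv : ∀ p ∈ strip a b, HasDerivAt (fun y => f (p.1, y)) (fv p) p.2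

/-- entrywise version of `PD` for matrices -/
def PDm (a b : ℝ) (F Fu Fv : ℝ × ℝ → M2) : Prop :=
  ∀ i j, PD a b (fun p => F p i j) (fun p => Fu p i j) (fun p => Fv p i j)

/-- smooth up to the boundary, holomorphic in `u + i v`, periodic in `v` -/
structure Hol (a b τ : ℝ) (f : ℝ × ℝ → ℂ) : Prop where
  sm : ∀ p ∈ strip a b, ContDiffAt ℝ ∞ f p
  cr : ∀ p ∈ strip a b, dv f p = I * du f p
  per : ∀ p ∈ strip a b, f (p.1, p.2 + τ) = f p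

/-- componentwise `u`-derivative -/
noncomputable def du3 (X : ℝ × ℝ → C3) (p : ℝ × ℝ) : C3 := fun i => du (fun r => X r i) p

/-- `φ = ψ_z` -/
noncomputable def ph (ψ : ℝ × ℝ → V3) (p : ℝ × ℝ) : C3 :=
  fun i => ((du ψ p i : ℂ) - I * (dv ψ p i : ℂ)) / 2

noncomputable def ph1 (ψ : ℝ × ℝ → V3) : ℝ × ℝ → C3 := du3 (ph ψ)

noncomputable def ph2 (ψ : ℝ × ℝ → V3) : ℝ × ℝ → C3 := du3 (ph1 ψ)

/-- the nilpotent matrix `A = σ φ` -/
noncomputable def Am (ψ : ℝ × ℝ → V3) (p : ℝ × ℝ) : M2 := sg (ph ψ p)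

/-- `σ N` -/
noncomputable def Nm (ψ : ℝ × ℝ → V3) (p : ℝ × ℝ) : M2 := sg (cv (normal ψ p))

/-- half the constant Hopf differential -/
noncomputable def hq (ψ : ℝ × ℝ → V3) (b : ℝ) : ℝ := sffL ψ (b, 0) / 2

/-- the Hill potential -/
noncomputable def UU (ψ : ℝ × ℝ → V3) (b : ℝ) (p : ℝ × ℝ) : ℂ :=
  (ph2 ψ p ⬝ᵥ ph2 ψ p) / (4 * (hq ψ b : ℂ) ^ 2)

/-- `γ = ω_u - i ω_v` -/
noncomputable def gam (ψ : ℝ × ℝ → V3) (p : ℝ × ℝ) : ℂ := (al ψ p : ℂ) - I * (be ψ p : ℂ)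

noncomputable def K0 (ψ : ℝ × ℝ → V3) (θ : ℝ) (p : ℝ × ℝ) : M2 :=
  (Real.cos θ : ℂ) • (1 : M2) + sg (cv (ψ p))

/-- the boundary matrix -/
noncomputable def Km (ψ : ℝ × ℝ → V3) (θ : ℝ) (κ : ℂ) (p : ℝ × ℝ) : M2 :=
  1 + κ • K0 ψ θ p

/-- support function minus its boundary value -/
noncomputable def ww (ψ : ℝ × ℝ → V3) (θ : ℝ) (p : ℝ × ℝ) : ℝ :=
  normal ψ p ⬝ᵥ ψ p - Real.cos θ

/-- `(|ψ|² / 2)_u` -/
noncomputable def pu (ψ : ℝ × ℝ → V3) (p : ℝ × ℝ) : ℝ := ψ p ⬝ᵥ du ψ p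

/-- determinant of the boundary matrix on the sphere -/
noncomputable def Dl (θ κ : ℝ) : ℝ := (1 + κ * Real.cos θ) ^ 2 - κ ^ 2

noncomputable def ka (θ : ℝ) : ℝ := -1 / (1 + Real.cos θ)

noncomputable def kb (θ : ℝ) : ℝ := 1 / (1 - Real.cos θ)

/-- equal angles, positive Hopf differential -/
structure Cap (ψ : ℝ × ℝ → V3) (a b τ θ : ℝ) : Prop where
  ann : CapAnnulus ψ a b τ θ θ
  Lpos : 0 < sffL ψ (b, 0)

/-- the vector attached to a pair of scalar functions -/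
noncomputable def Xv (ψ : ℝ × ℝ → V3) (b : ℝ) (T T' : ℝ × ℝ → ℂ) (p : ℝ × ℝ) : C3 :=
  (2 * (hq ψ b : ℂ) * T' p - du (du T) p - 4 * UU ψ b p * T p) • ph ψ p
    + du T p • ph1 ψ p - T p • ph2 ψ p

/-- the third order operator `T''' + 4 U T' + 2 U' T` -/
noncomputable def L3 (U T : ℝ × ℝ → ℂ) (p : ℝ × ℝ) : ℂ :=
  du (du (du T)) p + 4 * U p * du T p + 2 * du U p * T p

/-- Lenard sequence of the potential `U` -/
structure Lenard (a b τ : ℝ) (q : ℝ) (U : ℝ × ℝ → ℂ) (S : ℕ → ℝ × ℝ → ℂ) : Prop where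
  hol : ∀ j, Hol a b τ (S j)
  zero : S 0 = fun _ => 1
  ode : ∀ j, ∀ p ∈ strip a b, L3 U (S j) p = 4 * (q : ℂ) * du (S (j + 1)) p
  quad : ∀ n, ∀ p ∈ strip a b,
    4 * (q : ℂ) * ∑ i ∈ Finset.range (n + 2), S i p * S (n + 1 - i) p =
      ∑ i ∈ Finset.range (n + 1), (2 * S i p * du (du (S (n - i))) p
        - du (S i) p * du (S (n - i)) p + 4 * U p * S i p * S (n - i) p)

/-- coefficients of the formal Killing field -/
noncomputable def Xj (ψ : ℝ × ℝ → V3) (b : ℝ) (S : ℕ → ℝ × ℝ → ℂ) : ℕ → ℝ × ℝ → C3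
  | 0 => Xv ψ b (fun _ => 0) (S 0)
  | j + 1 => Xv ψ b (S j) (S (j + 1))

/-- boundary relation between consecutive coefficients `X`, `X'` at the point `p` -/
def Rel (ψ : ℝ × ℝ → V3) (θ : ℝ) (p : ℝ × ℝ) (X X' : C3) : Prop :=
  im3 X + Real.cos θ • im3 X' + ψ p ⨯₃ re3 X' = 0 ∧ ψ p ⬝ᵥ im3 X' = 0

/-- monic polynomial in `κ` with function coefficients -/
noncomputable def Sk (g : ℕ) (s : ℕ → ℝ × ℝ → ℂ) (κ : ℂ) (p : ℝ × ℝ) : ℂ :=
  ∑ j ∈ Finset.range (g + 1), κ ^ j * s j p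

/-- polynomial Killing field -/
noncomputable def Xk (ψ : ℝ × ℝ → V3) (b : ℝ) (g : ℕ) (s : ℕ → ℝ × ℝ → ℂ) (κ : ℂ) :
    ℝ × ℝ → C3 :=
  Xv ψ b (Sk g s κ) (fun p => κ * Sk g s κ p)

/-- polynomial Killing field compatible with the boundary matrix -/
structure PKill (ψ : ℝ × ℝ → V3) (a b τ θ : ℝ) (g : ℕ) (s : ℕ → ℝ × ℝ → ℂ) : Prop where
  hol : ∀ j, Hol a b τ (s j)
  top : s g = fun _ => 1
  ode : ∀ κ : ℂ, ∀ p ∈ strip a b,
    L3 (UU ψ b) (Sk g s κ) p = 4 * (hq ψ b : ℂ) * κ * du (Sk g s κ) p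
  bc : ∀ κ : ℝ, ∀ u, u = a ∨ u = b → ∀ v,
    (1 + κ * Real.cos θ) • im3 (Xk ψ b g s κ (u, v)) + κ • ψ (u, v) ⨯₃ re3 (Xk ψ b g s κ (u, v)) = 0
      ∧ ψ (u, v) ⬝ᵥ im3 (Xk ψ b g s κ (u, v)) = 0

/-- nowhere vanishing polynomial Killing field -/
structure Kill (ψ : ℝ × ℝ → V3) (a b τ θ : ℝ) (g : ℕ) (s : ℕ → ℝ × ℝ → ℂ) : Prop
    extends PKill ψ a b τ θ g s where
  ne : ∀ κ : ℂ, ∀ p ∈ strip a b, Xk ψ b g s κ p ≠ 0

/-- solution of the Lax system -/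
def IsSol (a b : ℝ) (A : ℝ × ℝ → M2) (κ : ℂ) (c : ℝ × ℝ → C2) : Prop :=
  PD a b c (fun p => -κ • (A p *ᵥ c p)) (fun p => -(I * κ) • (A p *ᵥ c p))

/-- fundamental solution `F` normalised at `(b, 0)` and its `κ`-derivative `G` -/
structure Frame (a b : ℝ) (A : ℝ × ℝ → M2) (F G : ℂ → ℝ × ℝ → M2) : Prop where
  pdF : ∀ κ, PDm a b (F κ) (fun p => -κ • (A p * F κ p)) (fun p => -(I * κ) • (A p * F κ p))
  pdG : ∀ κ, PDm a b (G κ) (fun p => -κ • (A p * G κ p) - A p * F κ p)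
    (fun p => -(I * κ) • (A p * G κ p) - I • (A p * F κ p))
  baseF : ∀ κ, F κ (b, 0) = 1
  baseG : ∀ κ, G κ (b, 0) = 0
  zero : ∀ p ∈ strip a b, F 0 p = 1
  der : ∀ κ, ∀ p ∈ strip a b, ∀ i j, HasDerivAt (fun k => F k p i j) (G κ p i j) κ
  cont : ∀ i j, ContinuousOn (fun x : ℂ × (ℝ × ℝ) => F x.1 x.2 i j) (univ ×ˢ strip a b)

/-- weighted average over a period -/
noncomputable def av (τ β : ℝ) (f : ℝ × ℝ → ℂ) (u : ℝ) : ℂ :=
  ∫ v in (0 : ℝ)..τ, (Real.exp (-2 * β * v) : ℂ) * f (u, v)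

/-- `c^* (1 + σ N) c` -/
noncomputable def ff (ψ : ℝ × ℝ → V3) (c : ℝ × ℝ → C2) (p : ℝ × ℝ) : ℝ :=
  (hf (c p) (1 + Nm ψ p) (c p)).re

/-- weighted average of `E c^* (1 + σ N) c` -/
noncomputable def avF (ψ : ℝ × ℝ → V3) (τ β : ℝ) (c : ℝ × ℝ → C2) (u : ℝ) : ℝ :=
  ∫ v in (0 : ℝ)..τ, Real.exp (-2 * β * v) * (confE ψ (u, v) * ff ψ c (u, v))

/-- weighted average of `w E c^* (1 + σ N) c` -/
noncomputable def avW (ψ : ℝ × ℝ → V3) (θ τ β : ℝ) (c : ℝ × ℝ → C2) (u : ℝ) : ℝ :=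
  ∫ v in (0 : ℝ)..τ, Real.exp (-2 * β * v) * (ww ψ θ (u, v) * (confE ψ (u, v) * ff ψ c (u, v)))

/-- Floquet solution with multiplier `μ` -/
structure Floq (ψ : ℝ × ℝ → V3) (a b τ : ℝ) (κ μ : ℂ) (c : ℝ × ℝ → C2) : Prop where
  sol : IsSol a b (Am ψ) κ c
  per : ∀ p ∈ strip a b, c (p.1, p.2 + τ) = μ • c p
  ne : ∀ p ∈ strip a b, c p ≠ 0

/-- total variation of the argument of `G` (with derivative `G'`) on `[0, τ]` -/
noncomputable def wind (τ : ℝ) (G G' : ℝ → ℂ) : ℝ := ∫ v in (0 : ℝ)..τ, (G' v / G v).im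

/-- flux vector -/
noncomputable def flux (ψ : ℝ × ℝ → V3) (τ u : ℝ) : V3 := ∫ v in (0 : ℝ)..τ, du ψ (u, v)

/-- `f` is a polynomial function of degree at most `n` with coefficient `c` in degree `n` -/
def IsPoly (n : ℕ) (c : ℂ) (f : ℂ → ℂ) : Prop :=
  ∃ P : Polynomial ℂ, P.natDegree ≤ n ∧ P.coeff n = c ∧ ∀ κ, P.eval κ = f κ

end Pool.Agent.Lib.MP_c7e804_gt
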