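import Pool.Agent.Lib.MP_c7e804_gt.H43Tr

/-!
Transplantation: change of variables over one period.
-/

namespace Pool.Agent.Lib.MP_c7e804_gt

open Matrix Set Complex
open scoped ContDiff ComplexConjugate

section chg
open MeasureTheory

/-- the derivative of the map `(x, y)` -/
noncomputable def chg_D (r s : ℝ) : ℝ × ℝ →L[ℝ] ℝ × ℝ :=
  ((ContinuousLinearMap.fst ℝ ℝ ℝ).smulRight r + (ContinuousLinearMap.snd ℝ ℝ ℝ).smulRight (-s)).prod
    ((ContinuousLinearMap.fst ℝ ℝ ℝ).smulRight s + (ContinuousLinearMap.snd ℝ ℝ ℝ).smulRight r)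

theorem chg_det (r s : ℝ) : (chg_D r s).det = r ^ 2 + s ^ 2 := by
  rw [ContinuousLinearMap.det, ← LinearMap.det_toMatrix (Module.Basis.finTwoProd ℝ),
    Matrix.det_fin_two]
  simp [LinearMap.toMatrix_apply, chg_D]
  ring

theorem chg_null {c : ℝ → ℝ × ℝ} (hc : Differentiable ℝ c) : volume (range c) = 0 := by
  have h1 : volume (({0} : Set ℝ) ×ˢ (univ : Set ℝ)) = 0 := by
    rw [Measure.volume_eq_prod, Measure.prod_prod]
    simp
  have h2 := addHaar_image_eq_zero_of_differentiableOn_of_addHaar_eq_zero volume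
    (f := fun p : ℝ × ℝ => c p.2) (hc.comp differentiable_snd).differentiableOn h1
  refine measure_mono_null ?_ h2
  rintro _ ⟨v, rfl⟩
  exact ⟨(0, v), ⟨rfl, trivial⟩, rfl⟩

theorem chg_zero {η : ℝ → ℝ} {τ Pd : ℝ} (hPd : 0 < Pd) (hc : Continuous η)
    (hp : ∀ v, η (v + τ) = η v + Pd) : ∃ v0, η v0 = 0 := by
  have hn : ∀ (n : ℕ) (v : ℝ), η (v + n * τ) = η v + n * Pd := by
    intro n
    induction n with
    | zero => simp
    | succ n ih =>
      intro v
      have e : v + ((n + 1 : ℕ) : ℝ) * τ = (v + n * τ) + τ := by push_cast; ring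
      rw [e, hp, ih]; push_cast; ring
  obtain ⟨n, hn'⟩ := exists_nat_ge (|η 0| / Pd)
  have hb : |η 0| ≤ n * Pd := by rwa [div_le_iff₀ hPd] at hn'
  have h1 : 0 ≤ η (0 + n * τ) := by
    rw [hn]; have := neg_abs_le (η 0); linarith
  have h2 : η (-(n * τ)) ≤ 0 := by
    have := hn n (-(n * τ))
    rw [neg_add_cancel] at this
    have := le_abs_self (η 0); linarith
  exact intermediate_value_univ _ _ hc ⟨h2, h1⟩

theorem chg_line {η ρ H : ℝ → ℝ} {τ Pd : ℝ} (hτ : 0 < τ) (hPd : 0 < Pd)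
    (hd : ∀ v, HasDerivAt η (ρ v) v) (hρ : ∀ v, 0 < ρ v)
    (hp : ∀ v, η (v + τ) = η v + Pd) (hH : ∀ v, H (v + τ) = H v) :
    ∫ v, ({v | η v ∈ Ioc 0 Pd}).indicator H v = ∫ v in (0 : ℝ)..τ, H v := by
  have hm : StrictMono η := strictMono_of_deriv_pos fun v => by rw [(hd v).deriv]; exact hρ v
  have hc : Continuous η := continuous_iff_continuousAt.2 fun v => (hd v).continuousAt
  obtain ⟨v0, hv0⟩ := chg_zero hPd hc hp
  have hs : {v | η v ∈ Ioc 0 Pd} = Ioc v0 (v0 + τ) := by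
    ext v
    have e1 : 0 < η v ↔ v0 < v := by rw [← hv0]; exact hm.lt_iff_lt
    have e2 : η v ≤ Pd ↔ v ≤ v0 + τ := by
      have : Pd = η (v0 + τ) := by rw [hp, hv0, zero_add]
      rw [this]; exact hm.le_iff_le
    simp only [mem_ofPred_eq, mem_Ioc, e1, e2]
  rw [hs, integral_indicator measurableSet_Ioc,
    ← intervalIntegral.integral_of_le (by linarith)]
  have := Function.Periodic.intervalIntegral_add_eq (f := H) (T := τ) hH v0 0
  rwa [zero_add] at this

end chg

theorem Merc.change {a b τ Pd : ℝ} {x y r s : ℝ × ℝ → ℝ} (h : Merc a b τ Pd x y r s) {X : ℝ}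
    (hX : ∀ p ∈ strip a b, |x p| < X) {G : ℝ × ℝ → ℝ} (hG : Continuous G)
    (hper : ∀ w : ℝ × ℝ, G (w.1, w.2 + Pd) = G w)
    (h0 : ∀ w, (∀ p ∈ strip a b, (x p, y p) ≠ w) → G w = 0) :
    ∫ t in (-X)..X, ∫ φ in (0 : ℝ)..Pd, G (t, φ)
      = ∫ u in a..b, ∫ v in (0 : ℝ)..τ, G (x (u, v), y (u, v)) * (r (u, v) ^ 2 + s (u, v) ^ 2) := by
  have hab := h.hab
  have hPd := h.Pd_pos
  have hX0 : 0 < X := lt_of_le_of_lt (abs_nonneg _) (hX (a, 0) ⟨le_rfl, hab.le⟩)
  set Z : ℝ × ℝ → ℝ × ℝ := fun p => (x p, y p) with hZ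
  set S : Set (ℝ × ℝ) := Ioo a b ×ˢ univ with hS
  have hSo : IsOpen S := isOpen_Ioo.prod isOpen_univ
  have hSs : S ⊆ strip a b := fun p hp => ⟨hp.1.1.le, hp.1.2.le⟩
  set D : Set (ℝ × ℝ) := (S ∩ y ⁻¹' Ioi 0) \ (S ∩ y ⁻¹' Ioi Pd) with hD
  have hDm : MeasurableSet D :=
    (((h.pdy.cont.mono hSs).isOpen_inter_preimage hSo isOpen_Ioi).measurableSet).diff
      ((h.pdy.cont.mono hSs).isOpen_inter_preimage hSo isOpen_Ioi).measurableSet
  have hDmem : ∀ p, p ∈ D ↔ p.1 ∈ Ioo a b ∧ y p ∈ Ioc 0 Pd := by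
    intro p
    simp only [hD, hS, Set.mem_sdiff, mem_inter_iff, mem_prod, mem_univ, and_true, mem_preimage,
      mem_Ioi, mem_Ioc, not_and, not_lt]
    tauto
  have hDs : ∀ p ∈ D, p ∈ strip a b := fun p hp => hSs hp.1.1
  have hder : ∀ p ∈ D, HasFDerivWithinAt Z (chg_D (r p) (s p)) D p := by
    intro p hp
    have hp' := ((hDmem p).1 hp).1
    exact ((h.pdx.hasFDerivAt hp'.1 hp'.2).prodMk
      (h.pdy.hasFDerivAt hp'.1 hp'.2)).hasFDerivWithinAt
  have hinj : InjOn Z D := fun p hp p' hp' e =>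
    h.inj (hDs p hp) (hDs p' hp') (congrArg Prod.fst e) (congrArg Prod.snd e)
  set R : Set (ℝ × ℝ) := Ioc (-X) X ×ˢ Ioc 0 Pd with hR
  have hRm : MeasurableSet R := measurableSet_Ioc.prod measurableSet_Ioc
  have hGR : MeasureTheory.IntegrableOn G R :=
    (hG.continuousOn.integrableOn_compact
      ((isCompact_Icc (a := -X) (b := X)).prod (isCompact_Icc (a := 0) (b := Pd)))).mono_set
      (prod_mono Ioc_subset_Icc_self Ioc_subset_Icc_self)
  have hsub : Z '' D ⊆ R := by
    rintro _ ⟨p, hp, rfl⟩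
    have h1 := abs_lt.1 (hX p (hDs p hp))
    exact ⟨⟨h1.1, h1.2.le⟩, ((hDmem p).1 hp).2⟩
  have hline : ∀ u ∈ Icc a b, MeasureTheory.volume (range fun v => Z (u, v)) = 0 := by
    intro u hu
    refine chg_null fun v => ?_
    exact ((h.pdx.hv (u, v) hu).prodMk (h.pdy.hv (u, v) hu)).differentiableAt
  have e1 : ∫ t in (-X)..X, ∫ φ in (0 : ℝ)..Pd, G (t, φ) = ∫ w in R, G w := by
    rw [intervalIntegral.integral_of_le (by linarith), hR, MeasureTheory.Measure.volume_eq_prod,
      MeasureTheory.setIntegral_prod _ hGR]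
    simp only [intervalIntegral.integral_of_le hPd.le]
  have e2 : ∫ w in R, G w = ∫ w in Z '' D, G w := by
    refine MeasureTheory.setIntegral_eq_of_subset_of_ae_sdiff_eq_zero hRm.nullMeasurableSet hsub ?_
    have ha := MeasureTheory.measure_eq_zero_iff_ae_notMem.1 (hline a ⟨le_rfl, hab.le⟩)
    have hb := MeasureTheory.measure_eq_zero_iff_ae_notMem.1 (hline b ⟨hab.le, le_rfl⟩)
    filter_upwards [ha, hb] with w hwa hwb hw
    refine h0 w fun p hp e => ?_
    rcases hp.1.eq_or_lt with h1 | h1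
    · exact hwa ⟨p.2, by rw [h1]; exact e⟩
    rcases hp.2.eq_or_lt with h2 | h2
    · exact hwb ⟨p.2, by rw [← h2]; exact e⟩
    refine hw.2 ⟨p, (hDmem p).2 ⟨⟨h1, h2⟩, ?_⟩, e⟩
    have := hw.1.2
    rw [← e] at this
    exact this
  set H : ℝ × ℝ → ℝ := fun p => G (x p, y p) * (r p ^ 2 + s p ^ 2) with hH
  have eH : (fun p => |(chg_D (r p) (s p)).det| • G (Z p)) = H := by
    funext p
    rw [chg_det, abs_of_nonneg (by positivity), smul_eq_mul, mul_comm]
  have e3 : ∫ w in Z '' D, G w = ∫ p in D, H p := by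
    rw [MeasureTheory.integral_image_eq_integral_abs_det_fderiv_smul _ hDm hder hinj, eH]
  have hHi : MeasureTheory.IntegrableOn H D := by
    rw [← eH]
    exact (MeasureTheory.integrableOn_image_iff_integrableOn_abs_det_fderiv_smul _ hDm hder hinj
      G).1 (hGR.mono_set hsub)
  have e4 : ∀ u, ∫ v, D.indicator H (u, v)
      = (Ioo a b).indicator (fun u => ∫ v in (0 : ℝ)..τ, H (u, v)) u := by
    intro u
    by_cases hu : u ∈ Ioo a b
    · have hus : ∀ v, (u, v) ∈ strip a b := fun v => ⟨hu.1.le, hu.2.le⟩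
      rw [indicator_of_mem hu, ← chg_line (η := fun v => y (u, v)) (ρ := fun v => r (u, v)) h.hτ hPd
        (fun v => h.pdy.hv (u, v) (hus v)) (fun v => h.rpos _ (hus v))
        (fun v => h.pery (u, v) (hus v))]
      · congr 1
        funext v
        by_cases hv : y (u, v) ∈ Ioc 0 Pd
        · rw [indicator_of_mem ((hDmem _).2 ⟨hu, hv⟩), indicator_of_mem (by exact hv)]
        · rw [indicator_of_notMem (fun hh => hv ((hDmem _).1 hh).2),
            indicator_of_notMem (by exact hv)]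
      · intro v
        have a1 := h.perx (u, v) (hus v)
        have a2 := h.pery (u, v) (hus v)
        have a3 := h.perr (u, v) (hus v)
        have a4 := h.pers (u, v) (hus v)
        have a5 := hper (x (u, v), y (u, v))
        simp only at a1 a2 a3 a4 a5
        simp only [hH, a1, a2, a3, a4, a5]
    · rw [indicator_of_notMem hu]
      have : (fun v => D.indicator H (u, v)) = fun _ => 0 := by
        funext v
        exact indicator_of_notMem (fun hh => hu ((hDmem _).1 hh).1) _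
      rw [this, MeasureTheory.integral_zero]
  rw [e1, e2, e3, ← MeasureTheory.integral_indicator hDm, MeasureTheory.Measure.volume_eq_prod,
    MeasureTheory.integral_prod _ ((MeasureTheory.integrable_indicator_iff hDm).2 hHi)]
  simp only [e4]
  rw [MeasureTheory.integral_indicator measurableSet_Ioo, intervalIntegral.integral_of_le hab.le,
    MeasureTheory.integral_Ioc_eq_integral_Ioo]

end Pool.Agent.Lib.MP_c7e804_gt
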