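import Pool.Agent.Lib.MP_c7e804_gt.H43XLax

/-!
Genus at most one gives spherical curvature lines.
-/

namespace Pool.Agent.Lib.MP_c7e804_gt

open Matrix Set Complex
open scoped ContDiff ComplexConjugate

/-- the Killing field at `κ = 0` is a constant, real, nonzero vector -/
theorem end_zero {ψ : ℝ × ℝ → V3} {a b τ θ : ℝ} (h : Cap ψ a b τ θ) {g : ℕ}
    {s : ℕ → ℝ × ℝ → ℂ} (hk : Kill ψ a b τ θ g s) :
    ∃ e : V3, e ≠ 0 ∧ ∀ p ∈ strip a b, Xk ψ b g s 0 p = cv e := by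
  have hc := (h.pd_Xk hk.toPKill 0).eq_of_zero (fun p _ => by simp) (fun p _ => by simp)
  have hb := (hk.bc 0 b (Or.inr rfl) 0).1
  have him : im3 (Xk ψ b g s 0 (b, 0)) = 0 := by simpa using hb
  have he : Xk ψ b g s 0 (b, 0) = cv (re3 (Xk ψ b g s 0 (b, 0))) := by
    funext i
    have := congrFun him i
    simp only [im3, Pi.zero_apply] at this
    apply Complex.ext
    · simp [cv, re3]
    · simp [cv, this]
  refine ⟨re3 (Xk ψ b g s 0 (b, 0)), fun h0 => ?_, fun p hp => ?_⟩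
  · apply hk.ne 0 (b, 0) (h.mem_b 0)
    rw [he, h0]
    funext i
    simp [cv]
  · rw [hc p hp (b, 0) (h.mem_b 0)]
    exact he

theorem end_N_one {ψ : ℝ × ℝ → V3} {a b τ θ : ℝ} (h : Cap ψ a b τ θ) (T' : ℝ × ℝ → ℂ)
    {p : ℝ × ℝ} (hp : p ∈ strip a b) :
    normal ψ p ⬝ᵥ im3 (Xv ψ b (fun _ => 1) T' p) = hq ψ b * be ψ p := by
  rw [← cv_dot_im, h.N_Xv hp, du_const]
  simp [gam]

theorem end_du (x y e : V3) (i : Fin 3) :
    (((-(2 * I)) • ((fun j => ((x j : ℂ) - I * (y j : ℂ)) / 2 : C3) ⨯₃ cv e)) i).im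
      + (x ⨯₃ e) i = 0 := by
  fin_cases i <;> simp [cv, cross_apply] <;> ring

theorem end_dv (x y e : V3) (i : Fin 3) :
    (((2 : ℂ) • ((fun j => ((x j : ℂ) - I * (y j : ℂ)) / 2 : C3) ⨯₃ cv e)) i).im
      + (y ⨯₃ e) i = 0 := by
  fin_cases i <;> simp [cv, cross_apply] <;> ring

theorem end_coeff {c : ℝ} {n e : V3} {x y : C3}
    (H : ∀ κ : ℝ, (1 + κ * c) • im3 (cv e + (κ : ℂ) • x + ((κ : ℂ) ^ 2) • y)
      + κ • n ⨯₃ re3 (cv e + (κ : ℂ) • x + ((κ : ℂ) ^ 2) • y) = 0) :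
    im3 x + n ⨯₃ e = 0 := by
  have e1 : ∀ κ : ℝ, im3 (cv e + (κ : ℂ) • x + ((κ : ℂ) ^ 2) • y)
      = κ • im3 x + κ ^ 2 • im3 y := by
    intro κ
    funext i
    simp [im3, cv, ← Complex.ofReal_pow]
  have e2 : ∀ κ : ℝ, re3 (cv e + (κ : ℂ) • x + ((κ : ℂ) ^ 2) • y)
      = e + κ • re3 x + κ ^ 2 • re3 y := by
    intro κ
    funext i
    simp [re3, cv, ← Complex.ofReal_pow]
  have h1 := H 1
  have h2 := H (-1)
  have h3 := H 2
  rw [e1, e2] at h1 h2 h3
  simp only [map_add, map_smul] at h1 h2 h3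
  linear_combination (norm := module) h1 - (1 / 3 : ℝ) • h2 - (1 / 6 : ℝ) • h3

theorem Cap.foliated_of_genus {ψ : ℝ × ℝ → V3} {a b τ θ : ℝ} (h : Cap ψ a b τ θ) {g : ℕ}
    {s : ℕ → ℝ × ℝ → ℂ} (hk : Kill ψ a b τ θ g s) (hg : g ≤ 1) :
    ∃ e : V3, e ≠ 0 ∧ FoliatedAbout ψ a b e := by
  obtain ⟨e, he0, he⟩ := end_zero h hk
  refine ⟨e, he0, h.ann.foliated_of_Z e ?_⟩
  have hq0 := h.q_pos
  obtain rfl | rfl : g = 0 ∨ g = 1 := by omega
  · have hS : Sk 0 s 0 = fun _ => 1 := by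
      funext p
      simp [Sk, hk.top]
    intro p hp
    refine h.ann.Z_zero_of_dep e (s := hq ψ b) (t := 0) (Or.inl hq0.ne') (fun r hr => ?_) hp
    have h1 := he r hr
    rw [Xk, hS] at h1
    have h2 := end_N_one h (fun _ => 0 * 1) hr
    rw [h1] at h2
    have h3 : im3 (cv e) = 0 := by
      funext i
      simp [im3, cv]
    rw [h3, dotProduct_zero] at h2
    linarith
  · have htop : s 1 = fun _ => 1 := hk.top
    have hS0 : Sk 1 s 0 = s 0 := by
      funext p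
      simp [Sk, Finset.sum_range_succ]
    have hx0 : ∀ p ∈ strip a b, Xv ψ b (s 0) (fun _ => 0) p = cv e := by
      intro p hp
      rw [← he p hp, Xk, hS0]
      simp
    have hL : ∀ κ : ℂ, ∀ p ∈ strip a b, L3 (UU ψ b) (Sk 1 s κ) p
        = L3 (UU ψ b) (s 0) p + κ * L3 (UU ψ b) (s 1) p := by
      intro κ p hp
      have := h.L3_sum (Finset.range 2) (fun j => κ ^ j) (T := s) (fun i _ => hk.hol i) hp
      simp only [Finset.sum_range_succ (fun i => κ ^ i * L3 (UU ψ b) (s i) p),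
        Finset.range_zero, Finset.sum_empty, zero_add, pow_zero, one_mul, pow_one] at this
      exact this
    have hode : ∀ r ∈ strip a b, L3 (UU ψ b) (s 1) r = 4 * (hq ψ b : ℂ) * du (s 0) r := by
      intro r hr
      have h0 := hk.ode 0 r hr
      have h1 := hk.ode 1 r hr
      rw [hL 0 r hr] at h0
      rw [hL 1 r hr] at h1
      have e1 : Sk 1 s 1 = fun p => s 0 p + (fun _ => (1 : ℂ)) p := by
        funext p
        simp [Sk, Finset.sum_range_succ, htop]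
      have hc : Hol a b τ (fun _ => (1 : ℂ)) := Hol.const 1
      rw [e1, (hk.hol 0).du_add hc hr, du_const] at h1
      linear_combination h1 - h0
    have hpd := h.pd_Xv (hk.hol 1) (hk.hol 0) hode (fun _ => 0)
    have hcr := h.pd_psi.clm (LinearMap.toContinuousLinearMap ((crossProduct (R := ℝ)).flip e))
    have hW : ∀ i, ∀ p ∈ strip a b, (Xv ψ b (s 1) (s 0) p i).im + (ψ p ⨯₃ e) i
        = (Xv ψ b (s 1) (s 0) (b, 0) i).im + (ψ (b, 0) ⨯₃ e) i := by
      intro i p hp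
      refine ((PD.pi.1 hpd i).im.add (PD.pi.1 hcr i)).eq_of_zero ?_ ?_ p hp (b, 0) (h.mem_b 0)
      · intro r hr
        rw [hx0 r hr]
        exact end_du _ _ e i
      · intro r hr
        rw [hx0 r hr]
        exact end_dv _ _ e i
    have hX : ∀ κ : ℝ, Xk ψ b 1 s κ (b, 0) = cv e + (κ : ℂ) • Xv ψ b (s 1) (s 0) (b, 0)
        + ((κ : ℂ) ^ 2) • ((2 * hq ψ b : ℂ) • ph ψ (b, 0)) := by
      intro κ
      rw [h.Xk_eq hk.hol κ (h.mem_b 0), ← hx0 _ (h.mem_b 0)]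
      simp only [Finset.sum_range_succ, Finset.range_zero, Finset.sum_empty, zero_add, pow_zero,
        pow_one, one_smul]
      have e1 : Xv ψ b (s 1) (s 0) (b, 0) = Xv ψ b (s 1) (fun _ => 0) (b, 0)
          + (2 * hq ψ b * s 0 (b, 0) : ℂ) • ph ψ (b, 0) := by
        simp only [Xv]
        module
      have e2 : s 1 (b, 0) = 1 := by rw [htop]
      rw [e1, e2]
      module
    have hb : im3 (Xv ψ b (s 1) (s 0) (b, 0)) + ψ (b, 0) ⨯₃ e = 0 := by
      refine end_coeff (c := Real.cos θ) (y := (2 * hq ψ b : ℂ) • ph ψ (b, 0)) fun κ => ?_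
      rw [← hX κ]
      exact (hk.bc κ b (Or.inr rfl) 0).1
    intro p hp
    refine h.ann.Z_zero_of_dep e (s := hq ψ b) (t := -1) (Or.inl hq0.ne') (fun r hr => ?_) hp
    have h1 : im3 (Xv ψ b (s 1) (s 0) r) = e ⨯₃ ψ r := by
      rw [← cross_anticomm, eq_neg_iff_add_eq_zero]
      funext i
      exact (hW i r hr).trans (congrFun hb i)
    have h2 := end_N_one h (s 0) hr
    rw [← htop, h1] at h2
    simp only [rotN]
    linarith

end Pool.Agent.Lib.MP_c7e804_gt
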