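import Pool.Agent.Lib.MP_c7e804_gt.H43Int1

/-!
Calculus on the strip: maximum principle.
-/

namespace Pool.Agent.Lib.MP_c7e804_gt

open Matrix Set Complex
open scoped ContDiff ComplexConjugate

section
variable {a b τ : ℝ}

/-- weak minimum principle for periodic superharmonic functions -/
theorem min_principle {g gu gv guu guv gvu gvv : ℝ × ℝ → ℝ} (hτ : 0 < τ)
    (h : PD a b g gu gv) (hu : PD a b gu guu guv) (hv : PD a b gv gvu gvv)
    (hper : ∀ p ∈ strip a b, g (p.1, p.2 + τ) = g p)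
    (hΔ : ∀ p ∈ strip a b, guu p + gvv p ≤ 0) (ha : ∀ v, 0 ≤ g (a, v)) (hb : ∀ v, 0 ≤ g (b, v)) :
    ∀ p ∈ strip a b, 0 ≤ g p := by
  intro p hp
  by_contra hneg
  rw [not_le] at hneg
  obtain ⟨ε, hε, hε'⟩ : ∃ ε : ℝ, 0 < ε ∧ g p < -(ε * (b - a) ^ 2) := by
    refine ⟨-g p / ((b - a) ^ 2 + 1), div_pos (by linarith) (by positivity), ?_⟩
    rw [div_mul_eq_mul_div, lt_neg, div_lt_iff₀ (by positivity)]
    linarith
  have hK : Icc a b ×ˢ Icc (0 : ℝ) τ ⊆ strip a b := fun r hr => hr.1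
  obtain ⟨q, hq, hmin⟩ := (isCompact_Icc.prod isCompact_Icc).exists_isMinOn
    (f := fun r : ℝ × ℝ => g r - ε * (r.1 - a) ^ 2) ⟨(p.1, 0), hp, le_rfl, hτ.le⟩
    ((h.cont.mono hK).sub (by fun_prop))
  have hall : ∀ r ∈ strip a b, g q - ε * (q.1 - a) ^ 2 ≤ g r - ε * (r.1 - a) ^ 2 := fun r hr => by
    obtain ⟨v, hv', e⟩ := per_reduce hτ hper hr
    rw [e]
    exact hmin (a := (r.1, v)) ⟨hr, hv'⟩
  have h0 := hall p hp
  have h1 : 0 ≤ ε * (p.1 - a) ^ 2 := by positivity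
  have h2 : 0 ≤ ε * (b - a) ^ 2 := by positivity
  have hqa : a < q.1 := lt_of_le_of_ne hq.1.1 fun e => by
    have := ha q.2
    rw [← e] at h0
    rw [e] at this
    simp only [Prod.mk.eta, sub_self] at this h0
    linarith
  have hqb : q.1 < b := lt_of_le_of_ne hq.1.2 fun e => by
    have := hb q.2
    rw [e] at h0
    rw [← e] at this
    simp only [Prod.mk.eta] at this
    linarith
  have hn := Icc_mem_nhds hqa hqb
  have hsq : ∀ t : ℝ, HasDerivAt (fun x : ℝ => ε * (x - a) ^ 2) (ε * (2 * (t - a))) t := fun t => by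
    simpa using (((hasDerivAt_id t).sub_const a).pow 2).const_mul ε
  have a1 := (second_deriv_nonpos (g := fun x => ε * (x - a) ^ 2 - g (x, q.2))
    (g' := fun x => ε * (2 * (x - a)) - gu (x, q.2)) (g'' := ε * (2 * 1) - guu q) (x := q.1)
    (by
      filter_upwards [hn] with x hx
      have := hall (x, q.2) hx
      simp only [Prod.mk.eta]
      linarith)
    (by
      filter_upwards [Ioo_mem_nhds hqa hqb] with x hx
      exact (hsq x).sub ((h.hu (x, q.2) ⟨hx.1.le, hx.2.le⟩).hasDerivAt (Icc_mem_nhds hx.1 hx.2)))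
    (((((hasDerivAt_id q.1).sub_const a).const_mul 2).const_mul ε).sub
      ((hu.hu q hq.1).hasDerivAt hn))).2
  have a2 := (second_deriv_nonpos (g := fun y => -g (q.1, y)) (g' := fun y => -gv (q.1, y))
    (g'' := -gvv q) (x := q.2)
    (Filter.Eventually.of_forall fun y => by
      have := hall (q.1, y) hq.1
      simp only [Prod.mk.eta]
      linarith)
    (Filter.Eventually.of_forall fun y => (h.hv (q.1, y) hq.1).neg) (hv.hv q hq.1).neg).2
  linarith [hΔ q hq.1]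

private theorem int_left {g gu gv : ℝ × ℝ → ℝ} (hab : a < b) (h : PD a b g gu gv) {v : ℝ}
    (hm : ∀ u ∈ Icc a b, g (a, v) ≤ g (u, v)) : 0 ≤ gu (a, v) := by
  have h1 := ((h.hu (a, v) ⟨le_rfl, hab.le⟩).mono_of_mem_nhdsWithin
    (Icc_mem_nhdsGT hab)).limsup_slope_le' (r := 0) (by simp)
  by_contra hn
  obtain ⟨u, h2, h3⟩ := ((h1 (not_le.1 hn)).and (Ioo_mem_nhdsGT hab)).exists
  rw [slope_def_field, div_lt_iff₀ (sub_pos.2 h3.1), zero_mul] at h2
  linarith [hm u ⟨h3.1.le, h3.2.le⟩]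

private theorem int_right {g gu gv : ℝ × ℝ → ℝ} (hab : a < b) (h : PD a b g gu gv) {v : ℝ}
    (hm : ∀ u ∈ Icc a b, g (b, v) ≤ g (u, v)) : gu (b, v) ≤ 0 := by
  have h1 := ((h.neg.hu (b, v) ⟨hab.le, le_rfl⟩).mono_of_mem_nhdsWithin
    (Icc_mem_nhdsLT hab)).limsup_slope_le' (r := 0) (by simp)
  by_contra hn
  obtain ⟨u, h2, h3⟩ := ((h1 (neg_lt_zero.2 (not_le.1 hn))).and (Ioo_mem_nhdsLT hab)).exists
  rw [slope_def_field, div_lt_iff_of_neg (sub_neg.2 h3.2), zero_mul] at h2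
  linarith [hm u ⟨h3.1.le, h3.2.le⟩]

/-- comparison with a linear function: boundary gradient estimate -/
theorem grad_estimate {g gu gv guu guv gvu gvv : ℝ × ℝ → ℝ} (hab : a < b) (hτ : 0 < τ)
    (h : PD a b g gu gv) (hu : PD a b gu guu guv) (hv : PD a b gv gvu gvv)
    (hper : ∀ p ∈ strip a b, g (p.1, p.2 + τ) = g p)
    (hΔ : ∀ p ∈ strip a b, guu p + gvv p ≤ 0) {ga gb : ℝ} (ha : ∀ v, g (a, v) = ga)
    (hb : ∀ v, g (b, v) = gb) :
    (∀ v, (gb - ga) / (b - a) ≤ gu (a, v)) ∧ ∀ v, gu (b, v) ≤ (gb - ga) / (b - a) := by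
  obtain ⟨m, hm⟩ : ∃ m, m = (gb - ga) / (b - a) := ⟨_, rfl⟩
  have hm' : m * (b - a) = gb - ga := by rw [hm, div_mul_cancel₀ _ (sub_pos.2 hab).ne']
  rw [← hm]
  have h1 : PD a b (fun p => g p - (ga + m * (p.1 - a))) (fun p => gu p - m) gv :=
    (h.sub ((PD.const ga).add ((PD.const m).rmul (PD.fst.sub (PD.const a))))).congr
      (fun _ _ => rfl) (fun _ _ => by simp) fun _ _ => by simp
  have h2 : PD a b (fun p => gu p - m) guu guv :=
    (hu.sub (PD.const m)).congr (fun _ _ => rfl) (fun _ _ => by simp) fun _ _ => by simp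
  have e1 : ∀ v, g (a, v) - (ga + m * (a - a)) = 0 := fun v => by rw [ha]; ring
  have e2 : ∀ v, g (b, v) - (ga + m * (b - a)) = 0 := fun v => by rw [hb, hm']; ring
  have h3 := min_principle hτ h1 h2 hv (fun p hp => by rw [hper p hp]) hΔ
    (fun v => (e1 v).ge) fun v => (e2 v).ge
  exact ⟨fun v => sub_nonneg.1 (int_left hab h1 fun u hu' => (e1 v).le.trans (h3 (u, v) hu')),
    fun v => sub_nonpos.1 (int_right hab h1 fun u hu' => (e2 v).le.trans (h3 (u, v) hu'))⟩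

theorem PD.du_nonneg_left {g gu gv : ℝ × ℝ → ℝ} (hab : a < b) (h : PD a b g gu gv) {v : ℝ}
    (hm : ∀ u ∈ Icc a b, g (a, v) ≤ g (u, v)) : 0 ≤ gu (a, v) := int_left hab h hm

theorem PD.du_nonpos_right {g gu gv : ℝ × ℝ → ℝ} (hab : a < b) (h : PD a b g gu gv) {v : ℝ}
    (hm : ∀ u ∈ Icc a b, g (b, v) ≤ g (u, v)) : gu (b, v) ≤ 0 := int_right hab h hm

/-- positivity of an integral -/
theorem int_pos {W ρ : ℝ → ℝ} (hab : a < b) (hW : ContinuousOn W (Icc a b))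
    (hρ : ContinuousOn ρ (Icc a b)) (h0 : ∀ u ∈ Icc a b, 0 ≤ W u) (h1 : ∃ u ∈ Ioo a b, 0 < W u)
    (h2 : ∀ u ∈ Ioo a b, 0 < ρ u) : 0 < ∫ u in a..b, ρ u * W u := by
  obtain ⟨u, hu, hu'⟩ := h1
  have h3 : ∀ x ∈ Icc a b, 0 ≤ ρ x := fun x hx =>
    le_on_closure (f := fun _ => (0 : ℝ)) (s := Ioo a b) (fun y hy => (h2 y hy).le)
      continuousOn_const (by rwa [closure_Ioo hab.ne]) (by rwa [closure_Ioo hab.ne])
  exact intervalIntegral.integral_pos hab (hρ.mul hW)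
    (fun x hx => mul_nonneg (h3 x (Ioc_subset_Icc_self hx)) (h0 x (Ioc_subset_Icc_self hx)))
    ⟨u, Ioo_subset_Icc_self hu, mul_pos (h2 u hu) hu'⟩

/-- the period integral of a holomorphic periodic function does not depend on the line -/
theorem period_const {f fu : ℝ × ℝ → ℂ} (h : PD a b f fu (fun p => I * fu p))
    (hper : ∀ p ∈ strip a b, f (p.1, p.2 + τ) = f p) {x x' : ℝ} (hx : x ∈ Icc a b)
    (hx' : x' ∈ Icc a b) : ∫ v in (0 : ℝ)..τ, f (x, v) = ∫ v in (0 : ℝ)..τ, f (x', v) := by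
  have h1 : ∀ u ∈ Icc a b, ∫ v in (0 : ℝ)..τ, fu (u, v) = 0 := fun u hu => by
    have h2 := h.int_v hu 0 τ
    have h3 := hper (u, 0) hu
    rw [zero_add] at h3
    rw [intervalIntegral.integral_const_mul, h3, sub_self] at h2
    exact (mul_eq_zero.1 h2).resolve_left I_ne_zero
  have h2 := (convex_Icc a b).norm_image_sub_le_of_norm_hasDerivWithin_le
    (f := fun u => ∫ v in (0 : ℝ)..τ, f (u, v)) (f' := fun _ => 0) (C := 0)
    (fun u hu => h1 u hu ▸ h.deriv_int_v 0 τ hu) (fun _ _ => norm_zero.le) hx' hx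
  rwa [zero_mul, norm_le_zero_iff, sub_eq_zero] at h2

end

end Pool.Agent.Lib.MP_c7e804_gt
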