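import Pool.Agent.Lib.MP_c7e804_gt.H43Alg
import Pool.Agent.Lib.MP_c7e804_gt.H43Int

/-!
Existence of the fundamental solution (Dyson series).
-/

namespace Pool.Agent.Lib.MP_c7e804_gt

open Matrix Set Complex
open scoped ContDiff ComplexConjugate

/-- locally normally convergent series of continuous functions -/
theorem fex_cont {X : Type} [TopologicalSpace X] {s : Set X} {f : ℕ → X → ℂ}
    (hf : ∀ n, ContinuousOn (f n) s)
    (h : ∀ x ∈ s, ∃ U ∈ nhds x, ∃ w : ℕ → ℝ, Summable w ∧ ∀ n, ∀ y ∈ s ∩ U, ‖f n y‖ ≤ w n) :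
    ContinuousOn (fun x => ∑' n, f n x) s := by
  intro x hx
  obtain ⟨U, hU, w, hw, hb⟩ := h x hx
  have h1 := continuousOn_tsum (s := s ∩ U) (fun n => (hf n).mono inter_subset_left) hw hb
  exact (continuousWithinAt_inter hU).1 (h1 x ⟨hx, mem_of_mem_nhds hU⟩)

theorem fex_int {g : ℕ → ℝ → ℂ} {x y : ℝ} (hg : ∀ n, ContinuousOn (g n) (uIcc x y)) {w : ℕ → ℝ}
    (hw : Summable w) (hb : ∀ n, ∀ t ∈ uIcc x y, ‖g n t‖ ≤ w n) :
    HasSum (fun n => ∫ t in x..y, g n t) (∫ t in x..y, ∑' n, g n t) :=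
  intervalIntegral.hasSum_integral_of_dominated_convergence (fun n _ => w n)
    (fun n => ((hg n).mono uIoc_subset_uIcc).aestronglyMeasurable measurableSet_uIoc)
    (fun n => Filter.Eventually.of_forall fun t ht => hb n t (uIoc_subset_uIcc ht))
    (Filter.Eventually.of_forall fun _ _ => hw) intervalIntegrable_const
    (Filter.Eventually.of_forall fun t ht =>
      (Summable.of_norm_bounded hw fun n => hb n t (uIoc_subset_uIcc ht)).hasSum)

theorem fex_nhds (p : ℝ × ℝ) : {q : ℝ × ℝ | |q.2| ≤ |p.2| + 1} ∈ nhds p := by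
  have h : {q : ℝ × ℝ | |q.2| < |p.2| + 1} ∈ nhds p :=
    (isOpen_lt (continuous_snd.abs) continuous_const).mem_nhds (lt_add_one |p.2|)
  exact Filter.mem_of_superset h fun q (hq : |q.2| < |p.2| + 1) => hq.le

/-- termwise differentiation on the strip -/
theorem fex_pd {a b : ℝ} (hab : a ≤ b) {f fu fv : ℕ → ℝ × ℝ → ℂ}
    (h : ∀ n, PD a b (f n) (fu n) (fv n))
    (hb : ∀ R : ℝ, ∃ w : ℕ → ℝ, Summable w ∧ ∀ n, ∀ p ∈ strip a b, |p.2| ≤ R →
      ‖f n p‖ ≤ w n ∧ ‖fu n p‖ ≤ w n ∧ ‖fv n p‖ ≤ w n) :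
    PD a b (fun p => ∑' n, f n p) (fun p => ∑' n, fu n p) (fun p => ∑' n, fv n p) := by
  have hbm : b ∈ Icc a b := right_mem_Icc.2 hab
  refine PD.of_int (fex_cont (fun n => (h n).cont) fun p _ => ?_)
    (fex_cont (fun n => (h n).contu) fun p _ => ?_)
    (fex_cont (fun n => (h n).contv) fun p _ => ?_) (fun p hp => ?_) (fun p hp => ?_)
  · obtain ⟨w, hw, hw'⟩ := hb (|p.2| + 1)
    exact ⟨_, fex_nhds p, w, hw, fun n q hq => (hw' n q hq.1 hq.2).1⟩
  · obtain ⟨w, hw, hw'⟩ := hb (|p.2| + 1)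
    exact ⟨_, fex_nhds p, w, hw, fun n q hq => (hw' n q hq.1 hq.2).2.1⟩
  · obtain ⟨w, hw, hw'⟩ := hb (|p.2| + 1)
    exact ⟨_, fex_nhds p, w, hw, fun n q hq => (hw' n q hq.1 hq.2).2.2⟩
  · obtain ⟨w, hw, hw'⟩ := hb |p.2|
    have hp' : p.1 ∈ Icc a b := hp
    have hs : uIcc b p.1 ⊆ Icc a b := uIcc_subset_Icc hbm hp'
    have h1 := fex_int (g := fun n r => fu n (r, p.2)) (x := b) (y := p.1)
      (fun n => (cont_line_u (h n).contu p.2).mono hs) hw
      (fun n t ht => (hw' n (t, p.2) (hs ht) le_rfl).2.1)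
    have h2 : HasSum (fun n => f n (b, p.2)) (∑' n, f n (b, p.2)) :=
      (Summable.of_norm_bounded hw fun n => (hw' n (b, p.2) hbm le_rfl).1).hasSum
    have h3 := h2.add h1
    simp only [fun n => (h n).int_u hbm hp' p.2, add_sub_cancel] at h3
    exact h3.tsum_eq
  · obtain ⟨w, hw, hw'⟩ := hb |p.2|
    have hp' : p.1 ∈ Icc a b := hp
    have h1 := fex_int (g := fun n r => fv n (p.1, r)) (x := 0) (y := p.2)
      (fun n => (cont_line_v (h n).contv hp').continuousOn) hw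
      (fun n t ht => (hw' n (p.1, t) hp' (by
        have := abs_sub_left_of_mem_uIcc ht
        rwa [sub_zero, sub_zero] at this)).2.2)
    have h2 : HasSum (fun n => f n (p.1, 0)) (∑' n, f n (p.1, 0)) :=
      (Summable.of_norm_bounded hw fun n => (hw' n (p.1, 0) hp' (by simp)).1).hasSum
    have h3 := h2.add h1
    simp only [fun n => (h n).int_v hp' 0 p.2, add_sub_cancel] at h3
    exact h3.tsum_eq

/-- the terms of the Dyson series -/
noncomputable def fexT (b : ℝ) (A : ℝ × ℝ → M2) : ℕ → ℝ × ℝ → M2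
  | 0 => fun _ => 1
  | n + 1 => fun p => Matrix.of fun i j =>
      (∫ t in (0 : ℝ)..p.2, I * -(A (b, t) * fexT b A n (b, t)) i j) +
        ∫ r in b..p.1, -(A (r, p.2) * fexT b A n (r, p.2)) i j

/-- the `u`-derivatives of the terms -/
noncomputable def fexD (b : ℝ) (A : ℝ × ℝ → M2) : ℕ → ℝ × ℝ → M2
  | 0 => fun _ => 0
  | n + 1 => fun p => -(A p * fexT b A n p)

theorem fexT_pd {a b : ℝ} (hab : a ≤ b) {A A' : ℝ × ℝ → M2}
    (hA : PDm a b A A' (fun p => I • A' p)) (n : ℕ) :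
    PDm a b (fexT b A n) (fexD b A n) (fun p => I • fexD b A n p) := by
  induction n with
  | zero => exact (PDm.const 1).congr (fun _ _ => rfl) (fun _ _ => rfl) fun _ _ => smul_zero _
  | succ n ih =>
    intro i j
    have h1 := ((hA.mul ih) i j).neg
    have h2 := PD.primitive hab h1 (h1.const_mul I) (fun p _ => by
      beta_reduce
      rw [Matrix.smul_mul, Matrix.mul_smul, ← smul_add, Matrix.smul_apply, smul_eq_mul, mul_neg])
    exact h2

theorem fex_mul_le {M N : M2} {C B : ℝ} (hM : ∀ i j, ‖M i j‖ ≤ C) (hN : ∀ i j, ‖N i j‖ ≤ B)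
    (i j : Fin 2) : ‖(M * N) i j‖ ≤ 2 * C * B := by
  have h : ∀ k, ‖M i k * N k j‖ ≤ C * B := fun k => by
    rw [norm_mul]
    exact mul_le_mul (hM i k) (hN k j) (norm_nonneg _) ((norm_nonneg _).trans (hM i k))
  rw [Matrix.mul_apply, Fin.sum_univ_two]
  refine (norm_add_le _ _).trans ?_
  linarith [h 0, h 1]

theorem fexT_le {a b : ℝ} (hab : a ≤ b) {A : ℝ × ℝ → M2} {C : ℝ} (hC : 0 ≤ C)
    (hA : ∀ p ∈ strip a b, ∀ i j, ‖A p i j‖ ≤ C) (n : ℕ) : ∀ p ∈ strip a b, ∀ i j,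
      ‖fexT b A n p i j‖ ≤ (2 * C) ^ n / n.factorial * (|p.2| + b - p.1) ^ n := by
  have hbm : b ∈ Icc a b := right_mem_Icc.2 hab
  induction n with
  | zero =>
    intro p _ i j
    show ‖(1 : M2) i j‖ ≤ _
    rw [Matrix.one_apply]
    split_ifs <;> simp
  | succ n ih =>
    intro p hp i j
    have hp' : p.1 ∈ Icc a b := hp
    set c : ℝ := 2 * C * ((2 * C) ^ n / n.factorial) with hc
    have hc0 : 0 ≤ c := by positivity
    have hq : ∀ q ∈ strip a b, ‖(A q * fexT b A n q) i j‖ ≤ c * (|q.2| + b - q.1) ^ n := by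
      intro q hq
      have := fex_mul_le (hA q hq) (ih q hq) i j
      rwa [← mul_assoc] at this
    have h1 : ‖∫ t in (0 : ℝ)..p.2, I * -(A (b, t) * fexT b A n (b, t)) i j‖ ≤
        c * (|p.2| ^ (n + 1) / (n + 1)) := by
      refine (intervalIntegral.norm_integral_le_abs_of_norm_le (g := fun t => c * |t - 0| ^ n)
        (Filter.Eventually.of_forall fun t => ?_)
        (Continuous.intervalIntegrable (by fun_prop) _ _)).trans (le_of_eq ?_)
      · have := hq (b, t) hbm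
        rw [norm_mul, norm_I, one_mul, norm_neg, sub_zero]
        simpa only [add_sub_cancel_right] using this
      · rw [intervalIntegral.abs_integral_eq_abs_integral_uIoc, MeasureTheory.integral_const_mul,
          integral_pow_abs_sub_uIoc, sub_zero, abs_of_nonneg (by positivity)]
    have h2 : ‖∫ r in b..p.1, -(A (r, p.2) * fexT b A n (r, p.2)) i j‖ ≤
        c * (((|p.2| + b - p.1) ^ (n + 1) - |p.2| ^ (n + 1)) / (n + 1)) := by
      refine (intervalIntegral.norm_integral_le_abs_of_norm_le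
        (g := fun r => c * (|p.2| + b - r) ^ n) ?_
        (Continuous.intervalIntegrable (by fun_prop) _ _)).trans (le_of_eq ?_)
      · filter_upwards [MeasureTheory.ae_restrict_mem measurableSet_uIoc] with r hr
        rw [norm_neg]
        exact hq (r, p.2) (uIcc_subset_Icc hbm hp' (uIoc_subset_uIcc hr))
      · have h3 : |p.2| ^ (n + 1) ≤ (|p.2| + b - p.1) ^ (n + 1) :=
          pow_le_pow_left₀ (abs_nonneg _) (by linarith [hp'.2]) _
        rw [intervalIntegral.integral_const_mul,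
          intervalIntegral.integral_comp_sub_left (fun x : ℝ => x ^ n), integral_pow,
          add_sub_cancel_right, abs_mul, abs_of_nonneg hc0, abs_div, abs_sub_comm,
          abs_of_nonneg (sub_nonneg.2 h3), abs_of_nonneg (by positivity : (0 : ℝ) ≤ n + 1)]
    refine ((norm_add_le _ _).trans (add_le_add h1 h2)).trans (le_of_eq ?_)
    rw [hc, Nat.factorial_succ]
    push_cast
    have h4 : (0 : ℝ) < n.factorial := by exact_mod_cast n.factorial_pos
    field_simp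
    ring

/-- coefficient sequences of exponential growth -/
def FexGood (c : ℕ → ℂ) : Prop := ∃ M K : ℝ, 0 ≤ K ∧ ∀ n, ‖c n‖ ≤ M * K ^ n

theorem FexGood.succ {c : ℕ → ℂ} (h : FexGood c) : FexGood fun n => c (n + 1) := by
  obtain ⟨M, K, hK, h⟩ := h
  exact ⟨M * K, K, hK, fun n => (h (n + 1)).trans (le_of_eq (by ring))⟩

theorem fex_pow_le {κ : ℂ} {R : ℝ} (h : ‖κ‖ ≤ R) (n : ℕ) : ‖κ ^ n‖ ≤ 1 * R ^ n := by
  rw [norm_pow, one_mul]
  exact pow_le_pow_left₀ (norm_nonneg _) h n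

theorem fex_dpow_le {κ : ℂ} {R : ℝ} (h : ‖κ‖ ≤ R) (n : ℕ) :
    ‖(n : ℂ) * κ ^ (n - 1)‖ ≤ 1 * (2 * (R + 1)) ^ n := by
  have hR : 0 ≤ R := (norm_nonneg _).trans h
  have h1 : (n : ℝ) ≤ 2 ^ n := by exact_mod_cast n.lt_two_pow_self.le
  have h2 : ‖κ‖ ^ (n - 1) ≤ (R + 1) ^ n :=
    (pow_le_pow_left₀ (norm_nonneg _) (by linarith) _).trans
      (pow_le_pow_right₀ (by linarith) (Nat.sub_le n 1))
  rw [norm_mul, norm_pow, Complex.norm_natCast, one_mul, mul_pow]
  exact mul_le_mul h1 h2 (by positivity) (by positivity)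

/-- the series with coefficients `c` -/
noncomputable def fexS (b : ℝ) (A : ℝ × ℝ → M2) (c : ℕ → ℂ) (p : ℝ × ℝ) : M2 :=
  Matrix.of fun i j => ∑' n, c n * fexT b A n p i j

theorem fex_bound {a b : ℝ} (hab : a ≤ b) {A : ℝ × ℝ → M2} {C : ℝ} (hC : 0 ≤ C)
    (hA : ∀ p ∈ strip a b, ∀ i j, ‖A p i j‖ ≤ C) (M : ℝ) {K : ℝ} (_hK : 0 ≤ K) (R : ℝ) :
    ∃ w : ℕ → ℝ, Summable w ∧ ∀ n, ∀ z : ℂ, ‖z‖ ≤ M * K ^ n → ∀ p ∈ strip a b, |p.2| ≤ R →
      ∀ i j, ‖z * fexT b A n p i j‖ ≤ w n := by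
  refine ⟨fun n => M * ((K * (2 * C) * (R + b - a)) ^ n / n.factorial),
    (Real.summable_pow_div_factorial _).mul_left M, fun n z hz p hp hR i j => ?_⟩
  have hp' : p.1 ∈ Icc a b := hp
  have h1 : (|p.2| + b - p.1) ^ n ≤ (R + b - a) ^ n :=
    pow_le_pow_left₀ (by linarith [abs_nonneg p.2, hp'.2]) (by linarith [hp'.1]) n
  have h2 := (fexT_le hab hC hA n p hp i j).trans (mul_le_mul_of_nonneg_left h1 (by positivity))
  rw [norm_mul]
  refine (mul_le_mul hz h2 (norm_nonneg _) ((norm_nonneg _).trans hz)).trans (le_of_eq ?_)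
  beta_reduce
  rw [mul_pow (K * (2 * C)), mul_pow K]
  ring

theorem fex_summable {a b : ℝ} (hab : a ≤ b) {A : ℝ × ℝ → M2} {C : ℝ} (hC : 0 ≤ C)
    (hA : ∀ p ∈ strip a b, ∀ i j, ‖A p i j‖ ≤ C) {c : ℕ → ℂ} (hc : FexGood c) {p : ℝ × ℝ}
    (hp : p ∈ strip a b) (i j : Fin 2) : Summable fun n => c n * fexT b A n p i j := by
  obtain ⟨M, K, hK, h⟩ := hc
  obtain ⟨w, hw, hw'⟩ := fex_bound hab hC hA M hK |p.2|
  exact Summable.of_norm_bounded hw fun n => hw' n _ (h n) p hp le_rfl i j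

theorem fex_sumD {a b : ℝ} (hab : a ≤ b) {A : ℝ × ℝ → M2} {C : ℝ} (hC : 0 ≤ C)
    (hA : ∀ p ∈ strip a b, ∀ i j, ‖A p i j‖ ≤ C) {c : ℕ → ℂ} (hc : FexGood c) {p : ℝ × ℝ}
    (hp : p ∈ strip a b) (i j : Fin 2) : HasSum (fun n => c n * fexD b A n p i j)
      (-(A p * fexS b A (fun n => c (n + 1)) p) i j) := by
  have h0 := ((fex_summable hab hC hA hc.succ hp 0 j).hasSum.mul_left (A p i 0)).add
    ((fex_summable hab hC hA hc.succ hp 1 j).hasSum.mul_left (A p i 1))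
  have h1 : HasSum (fun n => c (n + 1) * fexD b A (n + 1) p i j)
      (-(A p * fexS b A (fun n => c (n + 1)) p) i j) := by
    have e : (fun n => c (n + 1) * fexD b A (n + 1) p i j) = fun n =>
        -(A p i 0 * (c (n + 1) * fexT b A n p 0 j) + A p i 1 * (c (n + 1) * fexT b A n p 1 j)) := by
      funext n
      show c (n + 1) * -(A p * fexT b A n p) i j = _
      rw [Matrix.mul_apply, Fin.sum_univ_two]
      ring
    rw [e, Matrix.mul_apply, Fin.sum_univ_two]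
    exact h0.neg
  have h2 := (hasSum_nat_add_iff (f := fun n => c n * fexD b A n p i j) 1).1 h1
  have h3 : fexD b A 0 p i j = 0 := rfl
  rwa [Finset.sum_range_one, h3, mul_zero, add_zero] at h2

theorem fexS_pd {a b : ℝ} (hab : a ≤ b) {A A' : ℝ × ℝ → M2}
    (hA' : PDm a b A A' (fun p => I • A' p)) {C : ℝ} (hC : 0 ≤ C)
    (hA : ∀ p ∈ strip a b, ∀ i j, ‖A p i j‖ ≤ C) {c : ℕ → ℂ} (hc : FexGood c) :
    PDm a b (fexS b A c) (fun p => -(A p * fexS b A (fun n => c (n + 1)) p))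
      (fun p => I • -(A p * fexS b A (fun n => c (n + 1)) p)) := by
  intro i j
  have h1 := fex_pd hab (fun n => (fexT_pd hab hA' n i j).const_mul (c n)) (fun R => by
    obtain ⟨M, K, hK, h⟩ := hc
    obtain ⟨w, hw, hw'⟩ := fex_bound hab hC hA M hK R
    obtain ⟨w₁, hw₁, hw₁'⟩ := fex_bound hab hC hA (M * K) hK R
    let w₂ : ℕ → ℝ := fun n => Nat.casesOn n 0 fun k => 2 * C * w₁ k
    have hw₂ : Summable w₂ := (summable_nat_add_iff 1).1 (hw₁.mul_left (2 * C))
    have hD : ∀ n, ∀ p ∈ strip a b, |p.2| ≤ R → ‖c n * fexD b A n p i j‖ ≤ w₂ n := by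
      intro n p hp hR
      cases n with
      | zero =>
        show ‖c 0 * 0‖ ≤ 0
        rw [mul_zero, norm_zero]
      | succ k =>
        have h2 := fex_mul_le (N := c (k + 1) • fexT b A k p) (hA p hp)
          (hw₁' k _ ((h (k + 1)).trans (le_of_eq (by ring))) p hp hR) i j
        show ‖c (k + 1) * -(A p * fexT b A k p) i j‖ ≤ 2 * C * w₁ k
        rwa [Matrix.mul_smul, Matrix.smul_apply, smul_eq_mul, ← norm_neg, ← mul_neg] at h2
    refine ⟨fun n => w n + w₂ n, hw.add hw₂, fun n p hp hR => ?_⟩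
    have h3 := hw' n _ (h n) p hp hR i j
    have h4 := hD n p hp hR
    have h5 := (norm_nonneg _).trans h3
    have h6 := (norm_nonneg _).trans h4
    beta_reduce
    refine ⟨by linarith, by linarith, ?_⟩
    rw [Matrix.smul_apply, smul_eq_mul, mul_left_comm, norm_mul, norm_I, one_mul]
    linarith)
  refine h1.congr (fun _ _ => rfl) (fun p hp => (fex_sumD hab hC hA hc hp i j).tsum_eq.symm)
    fun p hp => ?_
  have h2 := ((fex_sumD hab hC hA hc hp i j).mul_left I).tsum_eq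
  refine h2.symm.trans (tsum_congr fun n => ?_)
  beta_reduce
  rw [Matrix.smul_apply, smul_eq_mul, mul_left_comm]

theorem fexS_base (b : ℝ) (A : ℝ × ℝ → M2) (c : ℕ → ℂ) : fexS b A c (b, 0) = c 0 • (1 : M2) := by
  ext i j
  refine tsum_eq_single 0 fun n hn => ?_
  obtain ⟨k, rfl⟩ := Nat.exists_eq_succ_of_ne_zero hn
  have h : fexT b A (k + 1) (b, 0) i j = 0 := by
    show (∫ t in (0 : ℝ)..(0 : ℝ), I * -(A (b, t) * fexT b A k (b, t)) i j) +
      (∫ r in b..b, -(A (r, 0) * fexT b A k (r, 0)) i j) = 0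
    rw [intervalIntegral.integral_same, intervalIntegral.integral_same, add_zero]
  rw [h, mul_zero]

theorem exists_frame {a b τ : ℝ} (hab : a < b) (hτ : 0 < τ) {A A' : ℝ × ℝ → M2}
    (hA : PDm a b A A' (fun p => I • A' p)) (hper : ∀ p ∈ strip a b, A (p.1, p.2 + τ) = A p) :
    ∃ F G, Frame a b A F G := by
  obtain ⟨C, hC, hb⟩ : ∃ C : ℝ, 0 ≤ C ∧ ∀ p ∈ strip a b, ∀ i j, ‖A p i j‖ ≤ C := by
    have h1 : ∀ q : Fin 2 × Fin 2, ∃ C, ∀ p ∈ strip a b, ‖A p q.1 q.2‖ ≤ C := fun q =>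
      bdd_of_per hτ (hA q.1 q.2).cont fun p hp => by rw [hper p hp]
    choose C hC using h1
    obtain ⟨q₀, hq₀⟩ := Finite.exists_max C
    exact ⟨max (C q₀) 0, le_max_right _ _, fun p hp i j =>
      ((hC (i, j) p hp).trans (hq₀ _)).trans (le_max_left _ _)⟩
  have g1 : ∀ κ : ℂ, FexGood fun n => κ ^ n := fun κ =>
    ⟨1, ‖κ‖, norm_nonneg _, fex_pow_le le_rfl⟩
  have g2 : ∀ κ : ℂ, FexGood fun n => (n : ℂ) * κ ^ (n - 1) := fun κ =>
    ⟨1, 2 * (‖κ‖ + 1), by positivity, fex_dpow_le le_rfl⟩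
  have e1 : ∀ (κ : ℂ) (p : ℝ × ℝ), fexS b A (fun n => κ ^ (n + 1)) p =
      κ • fexS b A (fun n => κ ^ n) p := by
    intro κ p
    ext i j
    refine Eq.trans (tsum_congr fun n => ?_) (tsum_mul_left (a := κ))
    ring
  have e2 : ∀ (κ : ℂ), ∀ p ∈ strip a b,
      fexS b A (fun n => ((n + 1 : ℕ) : ℂ) * κ ^ (n + 1 - 1)) p =
        κ • fexS b A (fun n => (n : ℂ) * κ ^ (n - 1)) p + fexS b A (fun n => κ ^ n) p := by
    intro κ p hp
    ext i j
    have h1 := (((fex_summable hab.le hC hb (g2 κ) hp i j).hasSum.mul_left κ).add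
      (fex_summable hab.le hC hb (g1 κ) hp i j).hasSum).tsum_eq
    refine Eq.trans (tsum_congr fun n => ?_) h1
    cases n with
    | zero => simp
    | succ k =>
      simp only [Nat.add_sub_cancel]
      push_cast
      ring
  refine ⟨fun κ => fexS b A fun n => κ ^ n, fun κ => fexS b A fun n => (n : ℂ) * κ ^ (n - 1),
    fun κ => ?_, fun κ => ?_, fun κ => ?_, fun κ => ?_, fun p _ => ?_, fun κ p hp i j => ?_,
    fun i j => ?_⟩
  · refine (fexS_pd hab.le hA hC hb (g1 κ)).congr (fun _ _ => rfl) (fun p _ => ?_) fun p _ => ?_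
    · rw [e1, Matrix.mul_smul, neg_smul]
    · rw [e1, Matrix.mul_smul, neg_smul, smul_neg, smul_smul]
  · refine (fexS_pd hab.le hA hC hb (g2 κ)).congr (fun _ _ => rfl) (fun p hp => ?_) fun p hp => ?_
    · rw [e2 κ p hp, Matrix.mul_add, Matrix.mul_smul, neg_smul, neg_add']
    · rw [e2 κ p hp, Matrix.mul_add, Matrix.mul_smul, neg_smul, smul_neg, smul_add, smul_smul,
        neg_add']
  · rw [fexS_base, pow_zero, one_smul]
  · rw [fexS_base, Nat.cast_zero, zero_mul, zero_smul]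
  · ext i j
    show ∑' n, (0 : ℂ) ^ n * fexT b A n p i j = fexT b A 0 p i j
    rw [tsum_eq_single 0 fun n hn => by rw [zero_pow hn, zero_mul], pow_zero, one_mul]
  · obtain ⟨w, hw, hw'⟩ := fex_bound hab.le hC hb 1 (K := 2 * (‖κ‖ + 1 + 1)) (by positivity) |p.2|
    have hκ : κ ∈ Metric.ball (0 : ℂ) (‖κ‖ + 1) := mem_ball_zero_iff.2 (lt_add_one _)
    exact hasDerivAt_tsum_of_isPreconnected (g := fun n k => k ^ n * fexT b A n p i j)
      (g' := fun n k => (n : ℂ) * k ^ (n - 1) * fexT b A n p i j) hw Metric.isOpen_ball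
      (convex_ball _ _).isPreconnected (fun n y _ => (hasDerivAt_pow n y).mul_const _)
      (fun n y hy => hw' n _ (fex_dpow_le (mem_ball_zero_iff.1 hy).le n) p hp le_rfl i j) hκ
      (fex_summable hab.le hC hb (g1 κ) hp i j) hκ
  · refine fex_cont (f := fun n (x : ℂ × (ℝ × ℝ)) => x.1 ^ n * fexT b A n x.2 i j)
      (fun n => (continuous_fst.pow n).continuousOn.mul
        ((fexT_pd hab.le hA n i j).cont.comp continuousOn_snd fun x hx => hx.2)) fun x _ => ?_
    obtain ⟨w, hw, hw'⟩ := fex_bound hab.le hC hb 1 (K := ‖x.1‖ + 1) (by positivity) (|x.2.2| + 1)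
    refine ⟨Metric.ball 0 (‖x.1‖ + 1) ×ˢ {q : ℝ × ℝ | |q.2| ≤ |x.2.2| + 1},
      prod_mem_nhds (Metric.isOpen_ball.mem_nhds (mem_ball_zero_iff.2 (lt_add_one _)))
        (fex_nhds x.2), w, hw, fun n y hy => ?_⟩
    exact hw' n _ (fex_pow_le (mem_ball_zero_iff.1 hy.2.1).le n) y.2 hy.1.2 hy.2.2 i j

end Pool.Agent.Lib.MP_c7e804_gt
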