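import Pool.Agent.Lib.MP_c7e804_gt.H43Poly0

/-!
Finite type: existence of a polynomial Killing field.
-/

namespace Pool.Agent.Lib.MP_c7e804_gt

open Matrix Set Complex
open scoped ContDiff ComplexConjugate

theorem p1_im_add (x y : C3) : im3 (x + y) = im3 x + im3 y := by
  funext i
  simp [im3]

theorem p1_re_add (x y : C3) : re3 (x + y) = re3 x + re3 y := by
  funext i
  simp [re3]

theorem p1_im_smul (c : ℝ) (x : C3) : im3 ((c : ℂ) • x) = c • im3 x := by
  funext i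
  simp [im3]

theorem p1_re_smul (c : ℝ) (x : C3) : re3 ((c : ℂ) • x) = c • re3 x := by
  funext i
  simp [re3]

theorem p1_im_zero : im3 0 = 0 := funext fun i => by simp [im3]

theorem p1_re_zero : re3 0 = 0 := funext fun i => by simp [re3]

section
variable {ψ : ℝ × ℝ → V3} {θ : ℝ} {p : ℝ × ℝ}

theorem p1_rel_add {X X' Y Y' : C3} (h : Rel ψ θ p X X') (h' : Rel ψ θ p Y Y') :
    Rel ψ θ p (X + Y) (X' + Y') := by
  rw [Rel, p1_im_add, p1_im_add, p1_re_add, map_add, dotProduct_add, h.2, h'.2]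
  refine ⟨?_, by simp⟩
  have e := congrArg₂ (fun x y => x + y) h.1 h'.1
  simp only [add_zero] at e
  rw [← e]
  module

theorem p1_rel_smul (c : ℝ) {X X' : C3} (h : Rel ψ θ p X X') :
    Rel ψ θ p ((c : ℂ) • X) ((c : ℂ) • X') := by
  rw [Rel, p1_im_smul, p1_im_smul, p1_re_smul, map_smul, dotProduct_smul, h.2]
  refine ⟨?_, by simp⟩
  have e := congrArg (fun x => c • x) h.1
  simp only [smul_zero] at e
  rw [← e]
  module

theorem p1_rel_sum {ι : Type} (s : Finset ι) (c : ι → ℝ) {X X' : ι → C3}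
    (h : ∀ j ∈ s, Rel ψ θ p (X j) (X' j)) :
    Rel ψ θ p (∑ j ∈ s, (c j : ℂ) • X j) (∑ j ∈ s, (c j : ℂ) • X' j) := by
  classical
  induction s using Finset.induction_on with
  | empty => simp [Rel, p1_im_zero, p1_re_zero]
  | insert j s hj ih =>
    rw [Finset.sum_insert hj, Finset.sum_insert hj]
    exact p1_rel_add (p1_rel_smul _ (h j (Finset.mem_insert_self _ _)))
      (ih fun i hi => h i (Finset.mem_insert_of_mem hi))

theorem p1_horner {M : Type} [AddCommMonoid M] [Module ℂ M] (κ : ℂ) (Y : ℕ → M) (n : ℕ) :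
    ∑ j ∈ Finset.range (n + 2), κ ^ j • Y (n + 1 - j)
      = κ • ∑ j ∈ Finset.range (n + 1), κ ^ j • Y (n - j) + Y (n + 1) := by
  rw [Finset.sum_range_succ', Finset.smul_sum]
  simp only [pow_zero, one_smul, Nat.sub_zero, Nat.add_sub_add_right, smul_smul, pow_succ']

theorem p1_last {M : Type} [AddCommMonoid M] [Module ℂ M] (c : ℕ → ℂ) (Y : ℕ → M) (n : ℕ) :
    ∑ j ∈ Finset.range (n + 2), c j • Y (n + 1 - j)
      = ∑ j ∈ Finset.range (n + 1), c j • Y (n - j + 1) + c (n + 1) • Y 0 := by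
  rw [Finset.sum_range_succ, Nat.sub_self]
  congr 1
  refine Finset.sum_congr rfl fun j hj => ?_
  have := Finset.mem_range.1 hj
  rw [show n + 1 - j = n - j + 1 by omega]

theorem p1_bc (κ : ℝ) {Y : ℕ → C3} (h0 : Rel ψ θ p 0 (Y 0)) (h : ∀ j, Rel ψ θ p (Y j) (Y (j + 1)))
    (n : ℕ) :
    (1 + κ * Real.cos θ) • im3 (∑ j ∈ Finset.range (n + 1), (κ : ℂ) ^ j • Y (n - j))
      + κ • ψ p ⨯₃ re3 (∑ j ∈ Finset.range (n + 1), (κ : ℂ) ^ j • Y (n - j)) = im3 (Y n) ∧
    ψ p ⬝ᵥ im3 (∑ j ∈ Finset.range (n + 1), (κ : ℂ) ^ j • Y (n - j)) = 0 := by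
  induction n with
  | zero =>
    simp only [zero_add, Finset.sum_range_one, pow_zero, one_smul, Nat.sub_self]
    refine ⟨?_, h0.2⟩
    have e := congrArg (fun x => κ • x + im3 (Y 0)) h0.1
    simp only [p1_im_zero, smul_zero, zero_add] at e
    refine Eq.trans ?_ e
    module
  | succ n ih =>
    rw [p1_horner, p1_im_add, p1_re_add, p1_im_smul, p1_re_smul, dotProduct_add, dotProduct_smul,
      ih.2, (h n).2]
    refine ⟨?_, by simp⟩
    have e := congrArg₂ (fun x y => κ • x + κ • y + im3 (Y (n + 1))) (h n).1 ih.1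
    simp only [smul_zero, zero_add, map_smul, LinearMap.smul_apply] at e
    simp only [map_smul, map_add, LinearMap.smul_apply]
    have e2 : ∀ A B : V3, A + κ • im3 (Y n) = κ • im3 (Y n) + B → A = B := fun A B hh => by
      rw [add_comm] at hh
      exact add_left_cancel hh
    apply e2
    rw [← e]
    module

theorem p1_Xv_snd (b : ℝ) (T T' R' : ℝ × ℝ → ℂ) (p : ℝ × ℝ) :
    Xv ψ b T T' p = Xv ψ b T R' p + (T' p - R' p) • Xv ψ b (fun _ => 0) (fun _ => 1) p := by
  simp only [Xv, du_const]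
  module

theorem p1_Xv_zero (b : ℝ) (p : ℝ × ℝ) :
    Xv ψ b (fun _ => 0) (fun _ => 1) p = (2 * (hq ψ b : ℂ)) • ph ψ p := by
  simp [Xv, du_const]

end

namespace Cap
variable {ψ : ℝ × ℝ → V3} {a b τ θ : ℝ} (h : Cap ψ a b τ θ)
include h

theorem p1_pu_ne {u : ℝ} (hu : u = a ∨ u = b) (v : ℝ) : pu ψ (u, v) ≠ 0 := by
  intro h0
  have hE : 0 < confE ψ (u, v) := (h.ann.fr (h.mem_bd hu v)).pos
  have hs := mul_pos (Real.sqrt_pos.2 hE) h.sin_pos
  rcases hu with rfl | rfl
  · rw [h.pu_a] at h0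
    linarith
  · rw [h.pu_b] at h0
    linarith

/-- a terminating sequence gives a polynomial Killing field -/
theorem p1_of_seq {T : ℕ → ℝ × ℝ → ℂ} (hol : ∀ j, Hol a b τ (T j)) (zero : T 0 = fun _ => 1)
    (ode : ∀ j, ∀ p ∈ strip a b, L3 (UU ψ b) (T j) p = 4 * (hq ψ b : ℂ) * du (T (j + 1)) p)
    (rel : ∀ u, u = a ∨ u = b → ∀ v, Rel ψ θ (u, v) 0 (Xj ψ b T 0 (u, v)) ∧
      ∀ j, Rel ψ θ (u, v) (Xj ψ b T j (u, v)) (Xj ψ b T (j + 1) (u, v)))
    {m : ℕ} (hm : ∀ p ∈ strip a b, T (m + 1) p = 0) :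
    PKill ψ a b τ θ m (fun j => T (m - j)) where
  hol j := hol _
  top := by rw [Nat.sub_self, zero]
  ode κ p hp := by
    have e1 := h.L3_sum (Finset.range (m + 1)) (fun j => κ ^ j) (T := fun j => T (m - j))
      (fun j _ => hol _) hp
    have e2 := Hol.du_sum (Finset.range (m + 1)) (f := fun j r => κ ^ j * T (m - j) r)
      (fun j _ => (hol _).const_mul _) hp
    have e3 := p1_horner κ (fun j => du (T j) p) m
    have e4 := p1_last (fun j => κ ^ j) (fun j => du (T j) p) m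
    have e5 : du (T (m + 1)) p = 0 := by
      rw [Hol.du_congr h.ann.hab (hol _) (Hol.const 0) hm p hp, du_const]
    have e6 : du (T 0) p = 0 := by rw [zero, du_const]
    simp only [e5, e6, smul_eq_mul, mul_zero, add_zero] at e3 e4
    change L3 (UU ψ b) (fun r => ∑ j ∈ Finset.range (m + 1), κ ^ j * T (m - j) r) p =
      4 * (hq ψ b : ℂ) * κ * du (fun r => ∑ j ∈ Finset.range (m + 1), κ ^ j * T (m - j) r) p
    rw [e1, e2, Finset.sum_congr rfl fun j _ => Hol.du_const_mul (κ ^ j) (hol (m - j)) hp,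
      mul_assoc _ κ, ← e3, e4, Finset.mul_sum]
    refine Finset.sum_congr rfl fun j _ => ?_
    rw [ode _ p hp]
    ring
  bc κ u hu v := by
    have hp := h.mem_bd hu v
    obtain ⟨r0, r1⟩ := rel u hu v
    have e0 : Xj ψ b T 0 (u, v) = Xv ψ b (fun _ => 0) (fun _ => 1) (u, v) := by rw [Xj, zero]
    have eX : Xk ψ b m (fun j => T (m - j)) κ (u, v) =
        ∑ j ∈ Finset.range (m + 2), (κ : ℂ) ^ j • Xj ψ b T (m + 1 - j) (u, v) := by
      have e1 := h.Xv_sum (Finset.range (m + 1)) (fun j => (κ : ℂ) ^ j) (T := fun j => T (m - j))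
        (T' := fun j => T (m - j + 1)) (fun j _ => hol _) hp
      have e3 := p1_horner (κ : ℂ) (fun j => T j (u, v)) m
      have e4 := p1_last (fun j => (κ : ℂ) ^ j) (fun j => T j (u, v)) m
      simp only [hm _ hp, zero, smul_eq_mul, mul_one, add_zero] at e3 e4
      rw [p1_last (fun j => (κ : ℂ) ^ j) (fun j => Xj ψ b T j (u, v)) m, e0]
      simp only [Xj]
      rw [← e1, Xk, p1_Xv_snd b _ _ (fun r => ∑ j ∈ Finset.range (m + 1),
        (κ : ℂ) ^ j * T (m - j + 1) r)]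
      congr 2
      simp only [Sk]
      rw [← e3, e4]
      ring
    have eY : Xj ψ b T (m + 2) (u, v) = T (m + 2) (u, v) • Xj ψ b T 0 (u, v) := by
      rw [e0, Xj, h.Xv_congr (hol _) (Hol.const 0) hm hp (R' := T (m + 2)) rfl,
        p1_Xv_snd b _ _ (fun _ => 0)]
      simp [Xv, du_const]
    have him : (T (m + 2) (u, v)).im = 0 := by
      have e1 := (r1 (m + 1)).2
      have e2 := h.bd_psi_ph hu v
      have e3 : ∀ X : C3, ψ (u, v) ⬝ᵥ im3 X = (cv (ψ (u, v)) ⬝ᵥ X).im := fun X => by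
        simp [dotProduct, Fin.sum_univ_three, im3, cv]
      rw [eY, e0, p1_Xv_zero, e3, dotProduct_smul, dotProduct_smul, e2] at e1
      simp only [smul_eq_mul] at e1
      have e4 : T (m + 2) (u, v) * (2 * (hq ψ b : ℂ) * ((pu ψ (u, v) : ℂ) / 2)) =
          T (m + 2) (u, v) * ((hq ψ b * pu ψ (u, v) : ℝ) : ℂ) := by
        push_cast
        ring
      rw [e4, im_mul_ofReal] at e1
      exact (mul_eq_zero.1 e1).resolve_right (mul_ne_zero h.q_pos.ne' (h.p1_pu_ne hu v))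
    have hz : im3 (Xj ψ b T (m + 1) (u, v)) = 0 := by
      have e1 := (r1 (m + 1)).1
      have e2 := (p1_rel_smul (T (m + 2) (u, v)).re r0).1
      have e3 : (((T (m + 2) (u, v)).re : ℝ) : ℂ) = T (m + 2) (u, v) :=
        Complex.ext (by simp) (by simp [him])
      rw [e3, ← eY, smul_zero, p1_im_zero, zero_add] at e2
      rwa [add_assoc, e2, add_zero] at e1
    have := p1_bc κ r0 r1 (m + 1)
    rwa [← eX, hz] at this

theorem exists_pkill : ∃ g s, PKill ψ a b τ θ g s := by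
  obtain ⟨S, hS⟩ := exists_lenard h.ann.hab h.q_pos.ne' h.hol_U
  obtain ⟨m, c, hc, hm⟩ := h.lenard_dep hS
  let T : ℕ → ℝ × ℝ → ℂ := fun j r =>
    ∑ i ∈ Finset.range (j + 1), (c (m + 1 - i) : ℂ) * S (j - i) r
  have hol : ∀ j, Hol a b τ (T j) := fun j => Hol.sum _ fun i _ => (hS.hol _).const_mul _
  have zero : T 0 = fun _ => 1 := by
    funext r
    simp [T, hc, hS.zero]
  have hsucc : ∀ j r, T (j + 1) r =
      ∑ i ∈ Finset.range (j + 1), (c (m + 1 - i) : ℂ) * S (j - i + 1) r + c (m + 1 - (j + 1)) := by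
    intro j r
    have e := p1_last (fun i => (c (m + 1 - i) : ℂ)) (fun i => S i r) j
    simpa only [smul_eq_mul, hS.zero, mul_one] using e
  have hX : ∀ j, ∀ p ∈ strip a b, Xj ψ b T j p =
      ∑ i ∈ Finset.range (j + 1), (c (m + 1 - i) : ℂ) • Xj ψ b S (j - i) p := by
    intro j p hp
    rcases j with _ | j
    · simp [Xj, zero, hS.zero, hc]
    · have e1 := h.Xv_sum (Finset.range (j + 1)) (fun i => (c (m + 1 - i) : ℂ))
        (T := fun i => S (j - i)) (T' := fun i => S (j - i + 1)) (fun i _ => hS.hol _) hp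
      rw [p1_last (fun i => (c (m + 1 - i) : ℂ)) (fun i => Xj ψ b S i p) j]
      simp only [Xj]
      rw [← e1, p1_Xv_snd b _ _ (fun r => ∑ i ∈ Finset.range (j + 1),
        (c (m + 1 - i) : ℂ) * S (j - i + 1) r), hsucc, hS.zero, add_sub_cancel_left]
  refine ⟨m, _, h.p1_of_seq hol zero (fun j p hp => ?_) (fun u hu v => ?_) (m := m)
    fun p hp => ?_⟩
  · have e1 := h.L3_sum (Finset.range (j + 1)) (fun i => (c (m + 1 - i) : ℂ))
      (T := fun i => S (j - i)) (fun i _ => hS.hol _) hp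
    have e2 := Hol.du_sum (Finset.range (j + 2))
      (f := fun i r => (c (m + 1 - i) : ℂ) * S (j + 1 - i) r)
      (fun i _ => (hS.hol _).const_mul _) hp
    have e4 := p1_last (fun i => (c (m + 1 - i) : ℂ)) (fun i => du (S i) p) j
    have e6 : du (S 0) p = 0 := by rw [hS.zero, du_const]
    simp only [e6, smul_eq_mul, mul_zero, add_zero] at e4
    change L3 (UU ψ b) (fun r => ∑ i ∈ Finset.range (j + 1), (c (m + 1 - i) : ℂ) * S (j - i) r) p =
      4 * (hq ψ b : ℂ) *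
        du (fun r => ∑ i ∈ Finset.range (j + 2), (c (m + 1 - i) : ℂ) * S (j + 1 - i) r) p
    rw [e1, e2, Finset.sum_congr rfl fun i _ =>
      Hol.du_const_mul (c (m + 1 - i) : ℂ) (hS.hol (j + 1 - i)) hp, e4, Finset.mul_sum]
    refine Finset.sum_congr rfl fun i _ => ?_
    rw [hS.ode _ p hp]
    ring
  · have hp := h.mem_bd hu v
    obtain ⟨r0, r1⟩ := h.rel_Xj hS hu v
    refine ⟨by rwa [Xj, zero, ← hS.zero], fun j => ?_⟩
    rw [hX _ _ hp, hX _ _ hp,
      p1_last (fun i => (c (m + 1 - i) : ℂ)) (fun i => Xj ψ b S i (u, v)) j]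
    have e := p1_rel_add (p1_rel_sum (Finset.range (j + 1)) (fun i => c (m + 1 - i))
      fun i _ => r1 (j - i)) (p1_rel_smul (c (m + 1 - (j + 1))) r0)
    rwa [smul_zero, add_zero] at e
  · rw [← hm p hp, ← Finset.sum_range_reflect]
    rfl

end Cap

end Pool.Agent.Lib.MP_c7e804_gt
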