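import Pool.Agent.Lib.MP_c7e804_gt.H43XLax
import Pool.Agent.Lib.MP_c7e804_gt.H43FEx
import Pool.Agent.Lib.MP_c7e804_gt.H43FPr
import Pool.Agent.Lib.MP_c7e804_gt.H43Poly1

/-!
A polynomial Killing field of minimal degree has no zeros.
-/

namespace Pool.Agent.Lib.MP_c7e804_gt

open Matrix Set Complex
open scoped ContDiff ComplexConjugate

/-- an entire function vanishing on the real line vanishes -/
theorem poly2_entire {f : ℂ → ℂ} (hf : Differentiable ℂ f) (h : ∀ x : ℝ, f x = 0) (z : ℂ) :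
    f z = 0 := by
  have ha : AnalyticOnNhd ℂ f univ := hf.differentiableOn.analyticOnNhd isOpen_univ
  have ht : Filter.Tendsto (fun x : ℝ => (x : ℂ)) (nhdsWithin 0 {0}ᶜ) (nhdsWithin 0 {0}ᶜ) := by
    refine tendsto_nhdsWithin_iff.2 ⟨?_, ?_⟩
    · have : Filter.Tendsto (fun x : ℝ => (x : ℂ)) (nhds 0) (nhds ((0 : ℝ) : ℂ)) :=
        Complex.continuous_ofReal.tendsto 0
      simpa using this.mono_left nhdsWithin_le_nhds
    · filter_upwards [self_mem_nhdsWithin] with x hx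
      simpa using hx
  have hfr : ∃ᶠ z in nhdsWithin (0 : ℂ) {0}ᶜ, f z = 0 :=
    ht.frequently (Filter.Eventually.frequently (Filter.Eventually.of_forall h))
  exact ha.eqOn_zero_of_preconnected_of_frequently_eq_zero isPreconnected_univ (mem_univ 0) hfr
    (mem_univ z)

/-- coefficients of the quotient by `κ - k` -/
noncomputable def poly2_quo (g : ℕ) (s : ℕ → ℝ × ℝ → ℂ) (k : ℂ) (j : ℕ) (p : ℝ × ℝ) : ℂ :=
  ∑ m ∈ Finset.range (g + 2), (if j < m then k ^ (m - 1 - j) else 0) * s m p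

theorem poly2_quo_top (g : ℕ) (s : ℕ → ℝ × ℝ → ℂ) (k : ℂ) (ht : s (g + 1) = fun _ => 1) :
    poly2_quo g s k g = fun _ => 1 := by
  funext p
  unfold poly2_quo
  rw [Finset.sum_range_succ, Finset.sum_eq_zero, ht]
  · simp
  · intro m hm
    have : ¬ g < m := by
      have := Finset.mem_range.1 hm
      omega
    simp [this]

theorem poly2_quo_mul (g : ℕ) (s : ℕ → ℝ × ℝ → ℂ) (k κ : ℂ) (p : ℝ × ℝ) :
    (κ - k) * Sk g (poly2_quo g s k) κ p = Sk (g + 1) s κ p - Sk (g + 1) s k p := by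
  unfold Sk poly2_quo
  simp_rw [Finset.mul_sum]
  rw [Finset.sum_comm, ← Finset.sum_sub_distrib]
  refine Finset.sum_congr rfl fun m hm => ?_
  have hm' : m ≤ g + 1 := by
    have := Finset.mem_range.1 hm
    omega
  have e1 : ∑ j ∈ Finset.range (g + 1), κ ^ j * (if j < m then k ^ (m - 1 - j) else 0)
      = ∑ j ∈ Finset.range m, κ ^ j * k ^ (m - 1 - j) := by
    rw [← Finset.sum_subset (s₁ := Finset.range m) (Finset.range_subset_range.2 hm')]
    · refine Finset.sum_congr rfl fun j hj => ?_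
      rw [if_pos (Finset.mem_range.1 hj)]
    · intro j _ hj
      rw [if_neg (fun hh => hj (Finset.mem_range.2 hh)), mul_zero]
  have e2 := geom_sum₂_mul κ k m
  calc ∑ j ∈ Finset.range (g + 1),
        (κ - k) * (κ ^ j * ((if j < m then k ^ (m - 1 - j) else 0) * s m p))
      = (∑ j ∈ Finset.range (g + 1), κ ^ j * (if j < m then k ^ (m - 1 - j) else 0))
          * (κ - k) * s m p := by
        rw [Finset.sum_mul, Finset.sum_mul]
        refine Finset.sum_congr rfl fun j _ => ?_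
        ring
    _ = κ ^ m * s m p - k ^ m * s m p := by
        rw [e1, e2]
        ring

theorem poly2_im3_smul (r : ℝ) (x : C3) : im3 ((r : ℂ) • x) = r • im3 x := by
  funext i
  simp [im3]

theorem poly2_re3_smul (r : ℝ) (x : C3) : re3 ((r : ℂ) • x) = r • re3 x := by
  funext i
  simp [re3]

theorem poly2_cont_im3 : Continuous im3 := by
  refine continuous_pi fun i => ?_
  unfold im3
  fun_prop

theorem poly2_cont_re3 : Continuous re3 := by
  refine continuous_pi fun i => ?_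
  unfold re3
  fun_prop

/-- the boundary relation survives division by a real factor -/
theorem poly2_bc_div {n : V3} {c : ℝ} {X Y : ℝ → C3} (hY : Continuous Y) {r : ℝ → ℝ} {D : Set ℝ}
    (hD : Dense D) (hr : ∀ κ ∈ D, r κ ≠ 0) (e : ∀ κ, X κ = (r κ : ℂ) • Y κ)
    (hX : ∀ κ : ℝ, (1 + κ * c) • im3 (X κ) + κ • n ⨯₃ re3 (X κ) = 0 ∧ n ⬝ᵥ im3 (X κ) = 0)
    (κ : ℝ) : (1 + κ * c) • im3 (Y κ) + κ • n ⨯₃ re3 (Y κ) = 0 ∧ n ⬝ᵥ im3 (Y κ) = 0 := by
  have ci : Continuous fun κ => im3 (Y κ) := poly2_cont_im3.comp hY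
  have cr : Continuous fun κ => re3 (Y κ) := poly2_cont_re3.comp hY
  have cx : Continuous fun κ => n ⨯₃ re3 (Y κ) :=
    (LinearMap.continuous_of_finiteDimensional (crossProduct n)).comp cr
  have c1 : Continuous fun κ : ℝ => (1 + κ * c) • im3 (Y κ) + κ • n ⨯₃ re3 (Y κ) := by
    fun_prop
  have c2 : Continuous fun κ : ℝ => n ⬝ᵥ im3 (Y κ) := continuous_const.dotProduct ci
  constructor
  · refine congrFun (Continuous.ext_on hD c1 (continuous_const (y := (0 : V3))) ?_) κ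
    intro x hx
    have h1 := (hX x).1
    rw [e, poly2_im3_smul, poly2_re3_smul, map_smul, smul_comm (1 + x * c), smul_comm x,
      ← smul_add] at h1
    exact (smul_eq_zero.1 h1).resolve_left (hr x hx)
  · refine congrFun (Continuous.ext_on hD c2 (continuous_const (y := (0 : ℝ))) ?_) κ
    intro x hx
    have h1 := (hX x).2
    rw [e, poly2_im3_smul, dotProduct_smul, smul_eq_mul] at h1
    exact (mul_eq_zero.1 h1).resolve_left (hr x hx)

theorem poly2_diff_sg {X : ℂ → C3} (hX : ∀ i, Differentiable ℂ fun κ => X κ i) (i j : Fin 2) :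
    Differentiable ℂ fun κ => sg (X κ) i j := by
  have h0 := hX 0
  have h1 := hX 1
  have h2 := hX 2
  fin_cases i <;> fin_cases j <;> simp only [sg] <;> simp <;> fun_prop

theorem poly2_diff_Km (ψ : ℝ × ℝ → V3) (θ : ℝ) (p : ℝ × ℝ) (i j : Fin 2) :
    Differentiable ℂ fun κ => Km ψ θ κ p i j := by
  simp only [Km, Matrix.add_apply, Matrix.smul_apply, smul_eq_mul]
  fun_prop

theorem poly2_one_add_ne {κ : ℂ} (hκ : κ.im ≠ 0) (t : ℝ) : 1 + κ * t ≠ 0 := by
  intro h0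
  have h1 := congrArg Complex.im h0
  have h2 := congrArg Complex.re h0
  simp at h1 h2
  rcases h1 with h1 | h1
  · exact hκ h1
  · rw [h1] at h2
    simp at h2

theorem poly2_det_Km {ψ : ℝ × ℝ → V3} {p : ℝ × ℝ} (hp : ψ p ⬝ᵥ ψ p = 1) (θ : ℝ) {κ : ℂ}
    (hκ : κ.im ≠ 0) : (Km ψ θ κ p).det ≠ 0 := by
  have e : Km ψ θ κ p = (1 + κ * Real.cos θ) • (1 : M2) + sg (κ • cv (ψ p)) := by
    rw [Km, K0, sg_smul, smul_add, add_smul, one_smul, smul_smul, add_assoc]
  rw [e, det_sg, smul_dotProduct, dotProduct_smul, cv_dot, hp]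
  have e2 : (1 + κ * (Real.cos θ : ℂ)) ^ 2 - κ • κ • ((1 : ℝ) : ℂ)
      = (1 + κ * ((Real.cos θ - 1 : ℝ) : ℂ)) * (1 + κ * ((Real.cos θ + 1 : ℝ) : ℂ)) := by
    simp only [smul_eq_mul, Complex.ofReal_sub, Complex.ofReal_add, Complex.ofReal_one]
    ring
  rw [e2]
  exact mul_ne_zero (poly2_one_add_ne hκ _) (poly2_one_add_ne hκ _)

/-- polynomial Killing field without the boundary relation -/
structure Poly2Pre (ψ : ℝ × ℝ → V3) (a b τ : ℝ) (g : ℕ) (s : ℕ → ℝ × ℝ → ℂ) : Prop where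
  hol : ∀ j, Hol a b τ (s j)
  top : s g = fun _ => 1
  ode : ∀ κ : ℂ, ∀ p ∈ strip a b,
    L3 (UU ψ b) (Sk g s κ) p = 4 * (hq ψ b : ℂ) * κ * du (Sk g s κ) p

namespace Cap
variable {ψ : ℝ × ℝ → V3} {a b τ θ : ℝ} (h : Cap ψ a b τ θ)
include h

theorem poly2_L3_mul {T : ℝ × ℝ → ℂ} (hT : Hol a b τ T) (c : ℂ) {p : ℝ × ℝ}
    (hp : p ∈ strip a b) : L3 (UU ψ b) (fun r => c * T r) p = c * L3 (UU ψ b) T p := by
  have := h.L3_sum (Finset.univ : Finset Unit) (fun _ => c) (T := fun _ => T) (fun _ _ => hT) hp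
  simpa using this

theorem poly2_Xv_mul {T T' : ℝ × ℝ → ℂ} (hT : Hol a b τ T) (c : ℂ) {p : ℝ × ℝ}
    (hp : p ∈ strip a b) :
    Xv ψ b (fun r => c * T r) (fun r => c * T' r) p = c • Xv ψ b T T' p := by
  have := h.Xv_sum (Finset.univ : Finset Unit) (fun _ => c) (T := fun _ => T) (T' := fun _ => T')
    (fun _ _ => hT) hp
  simpa using this

/-- division by a linear factor -/
theorem poly2_div {g : ℕ} {s : ℕ → ℝ × ℝ → ℂ} (hk : Poly2Pre ψ a b τ g s) {k : ℂ}
    (h0 : ∀ p ∈ strip a b, Sk g s k p = 0) :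
    ∃ g' s', g = g' + 1 ∧ Poly2Pre ψ a b τ g' s' ∧
      (∀ κ, ∀ p ∈ strip a b, Sk g s κ p = (κ - k) * Sk g' s' κ p) ∧
      ∀ κ, ∀ p ∈ strip a b, Xk ψ b g s κ p = (κ - k) • Xk ψ b g' s' κ p := by
  have hab : a < b := h.ann.hab
  rcases g with _ | g
  · have := h0 _ (h.mem_b 0)
    simp [Sk, hk.top] at this
  have hol : ∀ j, Hol a b τ (poly2_quo g s k j) := fun j =>
    Hol.sum _ fun m _ => (hk.hol m).const_mul _
  have eS : ∀ κ, ∀ p ∈ strip a b,
      Sk (g + 1) s κ p = (κ - k) * Sk g (poly2_quo g s k) κ p := by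
    intro κ p hp
    rw [poly2_quo_mul, h0 p hp, sub_zero]
  refine ⟨g, poly2_quo g s k, rfl, ⟨hol, poly2_quo_top g s k hk.top, ?_⟩, eS, ?_⟩
  · intro κ p hp
    have eL : ∀ κ : ℂ, L3 (UU ψ b) (Sk g (poly2_quo g s k) κ) p
        = ∑ j ∈ Finset.range (g + 1), κ ^ j * L3 (UU ψ b) (poly2_quo g s k j) p := fun κ =>
      h.L3_sum (Finset.range (g + 1)) (fun j => κ ^ j) (fun j _ => hol j) hp
    have eD : ∀ κ : ℂ, du (Sk g (poly2_quo g s k) κ) p
        = ∑ j ∈ Finset.range (g + 1), κ ^ j * du (poly2_quo g s k j) p := by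
      intro κ
      have := Hol.du_sum (Finset.range (g + 1)) (f := fun j r => κ ^ j * poly2_quo g s k j r)
        (fun j _ => (hol j).const_mul _) hp
      refine this.trans (Finset.sum_congr rfl fun j _ => ?_)
      exact (hol j).du_const_mul _ hp
    have c1 : Continuous fun κ : ℂ => L3 (UU ψ b) (Sk g (poly2_quo g s k) κ) p := by
      simp_rw [eL]
      fun_prop
    have c2 : Continuous fun κ : ℂ =>
        4 * (hq ψ b : ℂ) * κ * du (Sk g (poly2_quo g s k) κ) p := by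
      simp_rw [eD]
      fun_prop
    refine congrFun (Continuous.ext_on (dense_compl_singleton k) c1 c2 ?_) κ
    intro x hx
    have hx' : x - k ≠ 0 := sub_ne_zero.2 hx
    have h1 := hk.ode x p hp
    have hS := hol_Sk (g := g) hol x
    rw [h.L3_congr (hol_Sk hk.hol x) (hS.const_mul (x - k)) (eS x) hp,
      Hol.du_congr hab (hol_Sk hk.hol x) (hS.const_mul (x - k)) (eS x) p hp,
      h.poly2_L3_mul hS _ hp, hS.du_const_mul _ hp] at h1
    apply mul_left_cancel₀ hx'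
    rw [h1]
    ring
  · intro κ p hp
    have hS := hol_Sk (g := g) hol κ
    unfold Xk
    rw [← h.poly2_Xv_mul hS _ hp]
    refine h.Xv_congr (hol_Sk hk.hol κ) (hS.const_mul (κ - k)) (eS κ) hp ?_
    rw [eS κ p hp]
    ring

theorem poly2_cont_Xk {g : ℕ} {s : ℕ → ℝ × ℝ → ℂ} (hs : ∀ j, Hol a b τ (s j)) {p : ℝ × ℝ}
    (hp : p ∈ strip a b) : Continuous fun κ : ℝ => Xk ψ b g s κ p := by
  simp_rw [h.Xk_eq hs _ hp]
  fun_prop

/-- a zero at one point is a zero everywhere -/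
theorem poly2_zero {g : ℕ} {s : ℕ → ℝ × ℝ → ℂ} (hk : PKill ψ a b τ θ g s) {κ : ℂ}
    {p : ℝ × ℝ} (hp : p ∈ strip a b) (h0 : Xk ψ b g s κ p = 0) :
    ∀ r ∈ strip a b, Xk ψ b g s κ r = 0 := by
  obtain ⟨F, G, hF⟩ := exists_frame h.ann.hab h.ann.hτ h.pd_A (fun r hr => h.per_A hr)
  have hX := h.pd_Xk hk κ
  have e0 : sg (Xk ψ b g s κ (b, 0)) = 0 := by
    have e := h.lax_conj hF hX hp
    rw [h0, sg_zero, zero_mul] at e
    have e' := congrArg (fun M => (F κ p).adjugate * M) e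
    simp only [mul_zero] at e'
    rw [← mul_assoc, (h.adj_F hF κ hp).1, one_mul] at e'
    exact e'.symm
  intro r hr
  have e := h.lax_conj hF hX hr
  rw [e0, mul_zero] at e
  have e' := congrArg (fun M => M * (F κ r).adjugate) e
  simp only [zero_mul] at e'
  rw [mul_assoc, (h.adj_F hF κ hr).2, mul_one] at e'
  exact sg_eq_zero e'

theorem poly2_Sk_zero {g : ℕ} {s : ℕ → ℝ × ℝ → ℂ} {κ : ℂ} {p : ℝ × ℝ} (hp : p ∈ strip a b)
    (h0 : Xk ψ b g s κ p = 0) : Sk g s κ p = 0 := by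
  have e := h.Xk_ph (g := g) (s := s) κ hp
  rw [h0, zero_dotProduct] at e
  have hq0 : (hq ψ b : ℂ) ≠ 0 := by exact_mod_cast h.q_pos.ne'
  exact (mul_eq_zero.1 e.symm).resolve_left (pow_ne_zero 2 hq0)

/-- non-real zeros come in conjugate pairs -/
theorem poly2_conj {g : ℕ} {s : ℕ → ℝ × ℝ → ℂ} (hk : PKill ψ a b τ θ g s) {k : ℂ}
    (hk0 : k.im ≠ 0) (h0 : Xk ψ b g s k (b, 0) = 0) : Xk ψ b g s (conj k) (b, 0) = 0 := by
  have hp := h.mem_b 0
  have d1 : ∀ i, Differentiable ℂ fun κ => Xk ψ b g s κ (b, 0) i := fun i =>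
    (h.poly_Xk hk hp i).differentiable
  have d2 : ∀ i, Differentiable ℂ fun κ => (star (Xk ψ b g s (conj κ) (b, 0)) : C3) i := by
    intro i z
    have := (d1 i (conj z)).conj_conj
    rw [Complex.conj_conj] at this
    exact this
  have key : Km ψ θ (conj k) (b, 0) * sg (Xk ψ b g s (conj k) (b, 0))
      = sg (star (Xk ψ b g s (conj (conj k)) (b, 0))) * Km ψ θ (conj k) (b, 0) := by
    ext i j
    rw [← sub_eq_zero]
    refine poly2_entire (f := fun κ => (Km ψ θ κ (b, 0) * sg (Xk ψ b g s κ (b, 0))) i j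
      - (sg (star (Xk ψ b g s (conj κ) (b, 0))) * Km ψ θ κ (b, 0)) i j) ?_ ?_ (conj k)
    · simp only [Matrix.mul_apply]
      refine Differentiable.sub (Differentiable.fun_sum fun l _ => ?_)
        (Differentiable.fun_sum fun l _ => ?_)
      · exact (poly2_diff_Km ψ θ _ i l).mul (poly2_diff_sg d1 l j)
      · exact (poly2_diff_sg d2 i l).mul (poly2_diff_Km ψ θ _ l j)
    · intro x
      simp only [Complex.conj_ofReal]
      rw [h.Km_Xk hk x (Or.inr rfl) 0, sub_self]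
  rw [Complex.conj_conj, h0, star_zero, sg_zero, zero_mul] at key
  have hd : (Km ψ θ (conj k) (b, 0)).det ≠ 0 :=
    poly2_det_Km (h.bd_unit (Or.inr rfl) 0) θ (by simpa using hk0)
  have e' := congrArg (fun M => (Km ψ θ (conj k) (b, 0)).adjugate * M) key
  simp only [mul_zero] at e'
  rw [← mul_assoc, Matrix.adjugate_mul, smul_mul_assoc, one_mul] at e'
  exact sg_eq_zero ((smul_eq_zero.1 e').resolve_left hd)

theorem pkill_reduce {g : ℕ} {s : ℕ → ℝ × ℝ → ℂ} (hk : PKill ψ a b τ θ g s) {κ : ℂ}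
    {p : ℝ × ℝ} (hp : p ∈ strip a b) (h0 : Xk ψ b g s κ p = 0) :
    ∃ g' s', g' < g ∧ PKill ψ a b τ θ g' s' := by
  have z1 := h.poly2_zero hk hp h0
  obtain ⟨g1, s1, hg1, hk1, eS1, eX1⟩ := h.poly2_div ⟨hk.hol, hk.top, hk.ode⟩
    (fun r hr => h.poly2_Sk_zero hr (z1 r hr))
  by_cases him : κ.im = 0
  · refine ⟨g1, s1, by omega, hk1.hol, hk1.top, hk1.ode, fun x u hu v => ?_⟩
    have hm := h.mem_bd hu v
    refine poly2_bc_div (X := fun x : ℝ => Xk ψ b g s x (u, v))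
      (h.poly2_cont_Xk hk1.hol hm) (r := fun x => x - κ.re) (dense_compl_singleton κ.re)
      (fun y hy => sub_ne_zero.2 hy) (fun y => ?_) (fun y => hk.bc y u hu v) x
    have : κ = (κ.re : ℂ) := by
      apply Complex.ext <;> simp [him]
    rw [eX1 y _ hm, Complex.ofReal_sub, ← this]
  · have z2 := h.poly2_zero hk (h.mem_b 0) (h.poly2_conj hk him (z1 _ (h.mem_b 0)))
    have hne : conj κ - κ ≠ 0 := by
      intro e
      have := congrArg Complex.im e
      simp at this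
      exact him (by linarith)
    obtain ⟨g2, s2, hg2, hk2, -, eX2⟩ := h.poly2_div hk1 (k := conj κ) (fun r hr => by
      have e := h.poly2_Sk_zero hr (z2 r hr)
      rw [eS1 _ r hr] at e
      exact (mul_eq_zero.1 e).resolve_left hne)
    refine ⟨g2, s2, by omega, hk2.hol, hk2.top, hk2.ode, fun x u hu v => ?_⟩
    have hm := h.mem_bd hu v
    refine poly2_bc_div (X := fun x : ℝ => Xk ψ b g s x (u, v))
      (h.poly2_cont_Xk hk2.hol hm) (r := fun x => Complex.normSq (x - κ)) dense_univ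
      (fun y _ => ?_) (fun y => ?_) (fun y => hk.bc y u hu v) x
    · intro e
      have e2 := congrArg Complex.im (Complex.normSq_eq_zero.1 e)
      simp at e2
      exact him e2
    · rw [eX1 y _ hm, eX2 y _ hm, smul_smul, ← Complex.mul_conj]
      simp

theorem exists_kill : ∃ g s, Kill ψ a b τ θ g s := by
  obtain ⟨g, s, hk⟩ := h.exists_pkill
  induction g using Nat.strong_induction_on generalizing s with
  | _ g ih =>
    by_cases h0 : ∀ κ : ℂ, ∀ p ∈ strip a b, Xk ψ b g s κ p ≠ 0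
    · exact ⟨g, s, hk, h0⟩
    · push Not at h0
      obtain ⟨κ, p, hp, h0⟩ := h0
      obtain ⟨g', s', hlt, hk'⟩ := h.pkill_reduce hk hp h0
      exact ih g' hlt s' hk'

end Cap

end Pool.Agent.Lib.MP_c7e804_gt
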