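import Pool.Agent.Lib.MP_c7e804_gt.H43Geo

/-!
Reductions: flat case, reversal of orientation, star-shaped annuli.
-/

namespace Pool.Agent.Lib.MP_c7e804_gt

open Matrix Set Complex
open scoped ContDiff ComplexConjugate

/-- reversal of the `u`-direction -/
def flipU (ψ : ℝ × ℝ → V3) : ℝ × ℝ → V3 := fun p => ψ (-p.1, p.2)

section
variable {F : Type} [NormedAddCommGroup F] [NormedSpace ℝ F]

theorem red_fderiv (f : ℝ × ℝ → F) (p w : ℝ × ℝ) :
    fderiv ℝ (fun q : ℝ × ℝ => f (-q.1, q.2)) p w = fderiv ℝ f (-p.1, p.2) (-w.1, w.2) := by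
  have := ContinuousLinearEquiv.comp_right_fderiv
    ((ContinuousLinearEquiv.neg ℝ (M := ℝ)).prodCongr (ContinuousLinearEquiv.refl ℝ ℝ))
    (f := f) (x := p)
  exact congrArg (fun L : ℝ × ℝ →L[ℝ] F => L w) this

theorem red_du (f : ℝ × ℝ → F) :
    du (fun q : ℝ × ℝ => f (-q.1, q.2)) = fun p => -du f (-p.1, p.2) := by
  funext p
  simp only [du]
  rw [red_fderiv, ← map_neg]
  simp

theorem red_dv (f : ℝ × ℝ → F) :
    dv (fun q : ℝ × ℝ => f (-q.1, q.2)) = fun p => dv f (-p.1, p.2) := by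
  funext p
  simp only [dv]
  rw [red_fderiv]
  simp

theorem red_du_neg (f : ℝ × ℝ → F) : du (fun q => -f q) = fun p => -du f p := by
  funext p
  simp only [du]
  rw [fderiv_fun_neg]
  rfl

theorem red_dv_neg (f : ℝ × ℝ → F) : dv (fun q => -f q) = fun p => -dv f p := by
  funext p
  simp only [dv]
  rw [fderiv_fun_neg]
  rfl

theorem red_sm {f : ℝ × ℝ → F} {p : ℝ × ℝ} (h : ContDiffAt ℝ ∞ f (-p.1, p.2)) :
    ContDiffAt ℝ ∞ (fun q : ℝ × ℝ => f (-q.1, q.2)) p :=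
  ContDiffAt.comp (g := f) (f := fun q : ℝ × ℝ => ((-q.1, q.2) : ℝ × ℝ)) p h
    (contDiffAt_fst.neg.prodMk contDiffAt_snd)

end

theorem red_flip_du (ψ : ℝ × ℝ → V3) : du (flipU ψ) = fun p => -du ψ (-p.1, p.2) := red_du ψ

theorem red_flip_dv (ψ : ℝ × ℝ → V3) : dv (flipU ψ) = fun p => dv ψ (-p.1, p.2) := red_dv ψ

theorem red_flip_duu (ψ : ℝ × ℝ → V3) :
    du (du (flipU ψ)) = fun p => du (du ψ) (-p.1, p.2) := by
  rw [red_flip_du, red_du_neg (fun p : ℝ × ℝ => du ψ (-p.1, p.2)), red_du (du ψ)]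
  funext p
  simp

theorem red_flip_dvv (ψ : ℝ × ℝ → V3) :
    dv (dv (flipU ψ)) = fun p => dv (dv ψ) (-p.1, p.2) := by
  rw [red_flip_dv, red_dv (dv ψ)]

theorem red_flip_E (ψ : ℝ × ℝ → V3) (p : ℝ × ℝ) :
    confE (flipU ψ) p = confE ψ (-p.1, p.2) := by
  simp only [confE, red_flip_du, neg_dotProduct, dotProduct_neg, neg_neg]

theorem red_flip_N (ψ : ℝ × ℝ → V3) (p : ℝ × ℝ) :
    normal (flipU ψ) p = -normal ψ (-p.1, p.2) := by
  simp only [normal, red_flip_E, red_flip_du, red_flip_dv, map_neg, LinearMap.neg_apply, smul_neg]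

theorem red_flip_L (ψ : ℝ × ℝ → V3) (p : ℝ × ℝ) :
    sffL (flipU ψ) p = -sffL ψ (-p.1, p.2) := by
  simp only [sffL, red_flip_duu, red_flip_N, dotProduct_neg]

theorem red_mem {a b : ℝ} {p : ℝ × ℝ} (hp : p ∈ strip (-b) (-a)) :
    ((-p.1, p.2) : ℝ × ℝ) ∈ strip a b := by
  obtain ⟨h1, h2⟩ := hp
  exact ⟨by show a ≤ -p.1; linarith, by show -p.1 ≤ b; linarith⟩

section
variable {ψ : ℝ × ℝ → V3} {a b τ θ : ℝ} (h : CapAnnulus ψ a b τ θ θ)
include h

theorem red_L_const {p : ℝ × ℝ} (hp : p ∈ strip a b) : sffL ψ p = sffL ψ (b, 0) :=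
  (PD.of_sm fun _ hq => h.smL hq).eq_of_zero (fun _ hq => (h.Lu hq).du_eq)
    (fun _ hq => (h.Lv hq).dv_eq) p hp (b, 0) ⟨h.hab.le, le_rfl⟩

theorem flip_cap : CapAnnulus (flipU ψ) (-b) (-a) τ (Real.pi - θ) (Real.pi - θ) where
  hab := neg_lt_neg h.hab
  hτ := h.hτ
  smooth := fun _ hp => red_sm (h.smooth _ (red_mem hp))
  periodic := fun _ hp => h.periodic _ (red_mem hp)
  immersion := fun p hp => by rw [red_flip_E]; exact h.immersion _ (red_mem hp)
  conformal_eq := fun p hp => by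
    rw [red_flip_E, red_flip_dv]; exact h.conformal_eq _ (red_mem hp)
  conformal_orth := fun p hp => by
    rw [red_flip_du, red_flip_dv]
    simp only [neg_dotProduct]
    rw [h.conformal_orth _ (red_mem hp), neg_zero]
  harmonic := fun p hp => by
    rw [red_flip_duu, red_flip_dvv]; exact h.harmonic _ (red_mem hp)
  inside := fun p h1 h2 =>
    h.inside (-p.1, p.2) (by show a < -p.1; linarith) (by show -p.1 < b; linarith)
  sphere_a := fun v => by simpa only [flipU, neg_neg] using h.sphere_b v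
  sphere_b := fun v => by simpa only [flipU, neg_neg] using h.sphere_a v
  hθa := ⟨by linarith [h.hθa.2], by linarith [h.hθa.1]⟩
  hθb := ⟨by linarith [h.hθa.2], by linarith [h.hθa.1]⟩
  angle_a := fun v => by
    rw [red_flip_N, Real.cos_pi_sub, neg_dotProduct]
    simpa only [flipU, neg_neg, neg_inj] using h.angle_b v
  angle_b := fun v => by
    rw [red_flip_N, Real.cos_pi_sub, neg_dotProduct]
    simpa only [flipU, neg_neg, neg_inj] using h.angle_a v

theorem flip_normal {p : ℝ × ℝ} (hp : p ∈ strip (-b) (-a)) :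
    normal (flipU ψ) p = -normal ψ (-p.1, p.2) := by
  have _ := h
  have _ := hp
  exact red_flip_N ψ p

theorem flip_L : sffL (flipU ψ) (-a, 0) = -sffL ψ (b, 0) := by
  rw [red_flip_L, red_L_const h]
  exact ⟨by show a ≤ - -a; linarith, by show - -a ≤ b; linarith [h.hab]⟩

theorem flip_foliated {e : V3} (hf : FoliatedAbout (flipU ψ) (-b) (-a) e) :
    FoliatedAbout ψ a b e := by
  refine ⟨fun p hp => ⟨_, (h.dNv hp).dv_eq⟩, fun u h1 h2 => ?_⟩
  have := hf.2 (-u) (neg_le_neg h2) (neg_le_neg h1)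
  simpa only [flipU, neg_neg] using this

theorem foliated_of_flat (h0 : sffL ψ (b, 0) = 0) : ∃ e : V3, e ≠ 0 ∧ FoliatedAbout ψ a b e := by
  have hb : ((b, 0) : ℝ × ℝ) ∈ strip a b := ⟨h.hab.le, le_rfl⟩
  have hN : ∀ p ∈ strip a b, normal ψ p = normal ψ (b, 0) := fun p hp =>
    (PD.of_sm fun _ hq => h.smN hq).eq_of_zero
      (fun q hq => by rw [(h.dNu hq).du_eq, red_L_const h hq, h0]; simp)
      (fun q hq => by rw [(h.dNv hq).dv_eq, red_L_const h hq, h0]; simp) p hp (b, 0) hb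
  refine ⟨normal ψ (b, 0), fun e0 => ?_, fun p hp => ⟨_, (h.dNv hp).dv_eq⟩, fun u h1 h2 => ?_⟩
  · have := (h.fr hb).NN
    rw [e0] at this
    simp at this
  · refine Or.inr ⟨normal ψ (b, 0) ⬝ᵥ ψ (u, 0), fun v => ?_⟩
    have hsm : ∀ q ∈ strip a b, ContDiffAt ℝ ∞ (fun r => normal ψ (b, 0) ⬝ᵥ ψ r) q :=
      fun q hq => sm_dot contDiffAt_const (h.smooth q hq)
    refine (PD.of_sm hsm).line_const (u := u) ⟨h1, h2⟩ (fun w => ?_) v 0
    have hw : ((u, w) : ℝ × ℝ) ∈ strip a b := ⟨h1, h2⟩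
    rw [((HasD.const (normal ψ (b, 0))).dot (hasD_dv (sm_diff (h.smooth _ hw)))).dv_eq,
      zero_dotProduct, zero_add, ← hN _ hw]
    exact (h.fr hw).NB

/-- a star-shaped annulus has positive Hopf differential, an acute angle and `N · ψ ≥ cos θ` -/
theorem star_shaped (h0 : sffL ψ (b, 0) ≠ 0) (hs : ∀ p ∈ strip a b, 0 ≤ normal ψ p ⬝ᵥ ψ p) :
    0 < sffL ψ (b, 0) ∧ 0 ≤ Real.cos θ ∧ ∀ p ∈ strip a b, 0 ≤ ww ψ θ p := by
  have hL : 0 < sffL ψ (b, 0) := by
    rcases lt_or_gt_of_ne h0 with hneg | hpos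
    · exfalso
      have hc : Cap (flipU ψ) (-b) (-a) τ (Real.pi - θ) :=
        ⟨flip_cap h, by rw [flip_L h]; linarith⟩
      obtain ⟨wuu, wuv, wvu, wvv, h1, h2, h3, h4⟩ := hc.pd_ww
      have key := min_principle h.hτ h1.neg h2.neg h3.neg
        (fun p hp => by rw [hc.per_ww hp])
        (fun p hp => by
          have e1 := h4 p hp
          have e2 : normal (flipU ψ) p ⬝ᵥ flipU ψ p ≤ 0 := by
            rw [red_flip_N, neg_dotProduct]
            have := hs _ (red_mem hp)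
            simp only [flipU]
            linarith
          have e3 : 0 ≤ 2 * (2 * hq (flipU ψ) (-a)) ^ 2 / confE (flipU ψ) p :=
            div_nonneg (by positivity) (hc.ann.immersion p hp).le
          have e4 := mul_nonneg e3 (neg_nonneg.2 e2)
          show -wuu p + -wvv p ≤ 0
          linarith)
        (fun v => by rw [hc.bd_ww (Or.inl rfl)]; simp)
        (fun v => by rw [hc.bd_ww (Or.inr rfl)]; simp)
      obtain ⟨u₀, hu₀, hpos⟩ := hc.ww_pos_near
      have e1 := hpos u₀ ⟨hu₀.1, le_rfl⟩ 0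
      have e2 := key (u₀, 0) ⟨hu₀.1.le, hu₀.2.le⟩
      linarith
    · exact hpos
  have hc : Cap ψ a b τ θ := ⟨h, hL⟩
  refine ⟨hL, ?_, ?_⟩
  · rw [← h.angle_b 0]
    exact hs (b, 0) ⟨h.hab.le, le_rfl⟩
  · obtain ⟨wuu, wuv, wvu, wvv, h1, h2, h3, h4⟩ := hc.pd_ww
    refine min_principle h.hτ h1 h2 h3 (fun p hp => hc.per_ww hp) (fun p hp => ?_)
      (fun v => (hc.bd_ww (Or.inl rfl) v).ge) (fun v => (hc.bd_ww (Or.inr rfl) v).ge)
    have e3 : 0 ≤ 2 * (2 * hq ψ b) ^ 2 / confE ψ p :=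
      div_nonneg (by positivity) (h.immersion p hp).le
    have e4 := mul_nonneg e3 (hs p hp)
    rw [h4 p hp]
    linarith

end

end Pool.Agent.Lib.MP_c7e804_gt
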