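import Pool.Agent.Lib.MP_c7e804_gt.H43Ang
import Pool.Agent.Lib.MP_c7e804_gt.H43End
import Pool.Agent.Lib.MP_c7e804_gt.H43Poly2
import Pool.Agent.Lib.MP_c7e804_gt.H43Red

/-!
The core theorem.
-/

namespace Pool.Agent.Lib.MP_c7e804_gt

open Matrix Set Complex
open scoped ContDiff ComplexConjugate

theorem Cap.core {ψ : ℝ × ℝ → V3} {a b τ θ : ℝ} (h : Cap ψ a b τ θ)
    (hw : ∀ r ∈ strip a b, 0 ≤ ww ψ θ r) (hc : 0 ≤ Real.cos θ) (hs : SimpleAt ψ τ b) :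
    ∃ e : V3, e ≠ 0 ∧ FoliatedAbout ψ a b e := by
  obtain ⟨g, s, hk⟩ := h.exists_kill
  obtain ⟨F, G, hF⟩ := exists_frame h.ann.hab h.ann.hτ h.pd_A fun p hp => h.per_A hp
  exact h.foliated_of_genus hk (Setup.genus_le ⟨h, hk, hF⟩ hw hc hs)

theorem star_pos {ψ : ℝ × ℝ → V3} {a b τ θ : ℝ} (h : CapAnnulus ψ a b τ θ θ)
    (hs : SimpleAt ψ τ b) (hp : ∀ p ∈ strip a b, 0 ≤ normal ψ p ⬝ᵥ ψ p) :
    ∃ e : V3, e ≠ 0 ∧ FoliatedAbout ψ a b e := by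
  by_cases h0 : sffL ψ (b, 0) = 0
  · exact foliated_of_flat h h0
  · obtain ⟨h1, h2, h3⟩ := star_shaped h h0 hp
    exact Cap.core ⟨h, h1⟩ h3 h2 hs

theorem star_main {ψ : ℝ × ℝ → V3} {a b τ θ : ℝ} (h : CapAnnulus ψ a b τ θ θ)
    (ha : SimpleAt ψ τ a) (hb : SimpleAt ψ τ b)
    (hp : (∀ p ∈ strip a b, 0 ≤ normal ψ p ⬝ᵥ ψ p) ∨ ∀ p ∈ strip a b, normal ψ p ⬝ᵥ ψ p ≤ 0) :
    ∃ e : V3, e ≠ 0 ∧ FoliatedAbout ψ a b e := by
  rcases hp with hp | hp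
  · exact star_pos h hb hp
  · obtain ⟨e, he, hf⟩ := star_pos (flip_cap h) (b := -a) (fun v v' hv => ha v v' (by
      simpa [flipU] using hv)) (fun p hp' => by
      rw [flip_normal h hp', neg_dotProduct]
      have : ((-p.1, p.2) : ℝ × ℝ) ∈ strip a b := ⟨by linarith [hp'.2], by linarith [hp'.1]⟩
      have := hp _ this
      simp only [flipU]
      linarith)
    exact ⟨e, he, flip_foliated h hf⟩

end Pool.Agent.Lib.MP_c7e804_gt
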