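import Pool.Agent.Lib.MP_c7e804_gt.H43Count2

/-!
Counting the zeros of the second spectral polynomial.
-/

namespace Pool.Agent.Lib.MP_c7e804_gt

open Matrix Set Complex
open scoped ContDiff ComplexConjugate

/-- an increasing list of `n` roots bounds the degree from below -/
theorem count_le_natDegree {p : Polynomial ℝ} (hp : p ≠ 0) (n : ℕ) (y : ℕ → ℝ)
    (hy : ∀ i, i + 1 < n → y i < y (i + 1)) (hr : ∀ i < n, p.eval (y i) = 0) :
    n ≤ p.natDegree := by
  classical
  have hm : ∀ j, j < n → ∀ i, i < j → y i < y j := by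
    intro j
    induction j with
    | zero => intro _ i hi; omega
    | succ j ih =>
      intro hj i hi
      rcases Nat.lt_succ_iff_lt_or_eq.1 hi with h | h
      · exact (ih (by omega) i h).trans (hy j hj)
      · subst h; exact hy i hj
  have hinj : Set.InjOn y (Finset.range n : Set ℕ) := by
    intro i hi j hj hij
    have hi' : i < n := by simpa using hi
    have hj' : j < n := by simpa using hj
    rcases lt_trichotomy i j with h | h | h
    · exact absurd hij (hm j hj' i h).ne
    · exact h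
    · exact absurd hij (hm i hi' j h).ne'
  have hc : ((Finset.range n).image y).card = n := by
    rw [Finset.card_image_of_injOn hinj, Finset.card_range]
  rw [← hc]
  apply Polynomial.card_le_degree_of_subset_roots
  intro z hz
  have hz' : z ∈ (Finset.range n).image y := hz
  obtain ⟨i, hi, rfl⟩ := Finset.mem_image.1 hz'
  exact (Polynomial.mem_roots hp).2 (hr i (Finset.mem_range.1 hi))

namespace Spec
variable {g : ℕ} {Y P R : Polynomial ℝ} {κa κb C₀ : ℝ} {Δ D α T β : ℝ → ℝ}
  (h : Spec g Y P R κa κb C₀ Δ D α T β)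
include h

theorem count (hneg : ∀ x ≤ κa, ∀ y ≤ κa, Y.eval x = 0 → Y.eval y = 0 → x = y) : g ≤ 1 := by
  by_contra hg
  have hg2 : 2 ≤ g := by omega
  obtain ⟨x, hmono, hroot, hleft, hsign⟩ := h.roots
  have hka := h.ka_neg
  have hkb := h.kb_pos
  have hx : ∀ i ≤ 2 * g, Y.eval (x i) = 0 := fun i hi => (hroot _).2 ⟨i, hi, rfl⟩
  have hlt : ∀ i j, i < j → j ≤ 2 * g → x i < x j := fun i j hij hj =>
    hmono (show i ∈ Iic (2 * g) from (hij.le.trans hj)) (show j ∈ Iic (2 * g) from hj) hij
  have hY0 : 0 < Y.eval 0 := h.Ypos 0 ⟨hka, hkb⟩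
  have hout : ∀ i ≤ 2 * g, x i ≤ κa ∨ κb ≤ x i := by
    intro i hi
    by_contra hc
    push Not at hc
    exact (h.Ypos _ ⟨hc.1, hc.2⟩).ne' (hx i hi)
  have hx0 : x 0 ≤ κa := by
    rcases hout 0 (Nat.zero_le _) with h0 | h0
    · exact h0
    · exact absurd (hleft 0 (hkb.trans_le h0)) (not_lt.2 hY0.le)
  have hxb : ∀ i, 1 ≤ i → i ≤ 2 * g → κb ≤ x i := by
    intro i h1 hi
    rcases hout i hi with h0 | h0
    · exact absurd (hneg _ hx0 _ h0 (hx 0 (Nat.zero_le _)) (hx i hi)) (hlt 0 i h1 hi).ne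
    · exact h0
  have hneg' : ∀ i < 2 * g, Odd i → ∀ κ ∈ Ioo (x i) (x (i + 1)), Y.eval κ < 0 := by
    intro i hi ho κ hκ
    have := hsign i hi κ hκ
    rw [ho.neg_one_pow] at this
    linarith
  have hpos' : ∀ i < 2 * g, Even i → ∀ κ ∈ Ioo (x i) (x (i + 1)), 0 < Y.eval κ := by
    intro i hi he κ hκ
    have := hsign i hi κ hκ
    rw [he.neg_one_pow] at this
    linarith
  have hP0 : P ≠ 0 := fun e => by have := h.Plead; rw [e] at this; simp at this
  have hR0 : R ≠ 0 := fun e => by have := h.Rlead; rw [e] at this; simp at this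
  have hPz : ∀ j : ℕ, ∃ z, j < g → z ∈ Ioo (x (2 * j + 1)) (x (2 * j + 1 + 1)) ∧ P.eval z = 0 := by
    intro j
    by_cases hj : j < g
    · obtain ⟨z, hz, hz'⟩ := h.P_root_gap (hlt (2 * j + 1) (2 * j + 1 + 1) (by omega) (by omega))
        (hx _ (by omega)) (hx _ (by omega)) (hneg' (2 * j + 1) (by omega) ⟨j, rfl⟩)
      exact ⟨z, fun _ => ⟨hz, hz'⟩⟩
    · exact ⟨0, fun hj' => absurd hj' hj⟩
  choose z hz using hPz
  have hPneg : ∀ κ < 0, P.eval κ ≠ 0 := by
    intro κ hκ e
    have := count_le_natDegree hP0 (g + 1) (fun i => Nat.casesOn i κ z) ?_ ?_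
    · rw [h.Pdeg] at this; omega
    · intro i hi
      cases i with
      | zero =>
        have h1 := (hz 0 (by omega)).1.1
        have h2 := hxb (2 * 0 + 1) (by omega) (by omega)
        show κ < z 0
        linarith
      | succ i =>
        have h1 := (hz i (by omega)).1.2
        have h2 := (hz (i + 1) (by omega)).1.1
        have h3 := hlt (2 * i + 1 + 1) (2 * (i + 1) + 1) (by omega) (by omega)
        show z i < z (i + 1)
        linarith
    · intro i hi
      cases i with
      | zero => exact e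
      | succ i => exact (hz i (by omega)).2
  obtain ⟨r, hr, hr'⟩ := h.R_root_neg hPneg
  have hRw : ∀ i : ℕ, ∃ w, i + 1 < 2 * g →
      w ∈ Ico (x (i + 1)) (x (i + 1 + 1)) ∧ R.eval w = 0 := by
    intro i
    by_cases hi : i + 1 < 2 * g
    · have hl := hlt (i + 1) (i + 1 + 1) (by omega) (by omega)
      rcases (hxb (i + 1) (by omega) hi.le).eq_or_lt with e | e
      · refine ⟨κb, fun _ => ⟨⟨e.ge, e ▸ hl⟩, h.Rb ?_⟩⟩
        rw [e]; exact hx _ hi.le
      · rcases Nat.even_or_odd (i + 1) with he | ho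
        · obtain ⟨w, hw, hw'⟩ := h.R_root_band e hl (hx _ hi.le) (hx _ (by omega))
            (hpos' _ hi he)
          exact ⟨w, fun _ => ⟨⟨hw.1.le, hw.2⟩, hw'⟩⟩
        · obtain ⟨w, hw, hw'⟩ := h.R_root_gap e hl (hx _ hi.le) (hx _ (by omega))
            (hneg' _ hi ho)
          exact ⟨w, fun _ => ⟨⟨hw.1.le, hw.2⟩, hw'⟩⟩
    · exact ⟨0, fun hi' => absurd hi' hi⟩
  choose w hw using hRw
  have := count_le_natDegree hR0 (2 * g + 1)
    (fun i => Nat.casesOn i r (fun j => Nat.casesOn j 0 w)) ?_ ?_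
  · rw [h.Rdeg] at this; omega
  · intro i hi
    match i, hi with
    | 0, _ => exact hr
    | 1, _ =>
      have h1 := (hw 0 (by omega)).1.1
      have h2 := hxb (0 + 1) (by omega) (by omega)
      show (0 : ℝ) < w 0
      linarith
    | i + 2, hi =>
      have h1 := (hw i (by omega)).1.2
      have h2 := (hw (i + 1) (by omega)).1.1
      show w i < w (i + 1)
      linarith
  · intro i hi
    match i, hi with
    | 0, _ => exact hr'
    | 1, _ => exact h.R0
    | i + 2, hi => exact (hw i (by omega)).2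

end Spec

end Pool.Agent.Lib.MP_c7e804_gt
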