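import Pool.Agent.Lib.MP_c7e804_gt.H43SpecDefs

/-!
Roots of the spectral polynomial.
-/

namespace Pool.Agent.Lib.MP_c7e804_gt

open Matrix Set Complex
open scoped ContDiff ComplexConjugate

namespace Spec
variable {g : ℕ} {Y P R : Polynomial ℝ} {κa κb C₀ : ℝ} {Δ D α T β : ℝ → ℝ}
  (h : Spec g Y P R κa κb C₀ Δ D α T β)
include h

theorem simple {κ : ℝ} (h0 : Y.eval κ = 0) : Y.derivative.eval κ ≠ 0 ∧ α κ ≠ 0 := by
  obtain ⟨α', -, h1⟩ := h.dα κ
  have h2 := h.quadD κ
  have h3 := h.Pne κ h0.ge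
  rw [h0] at h1 h2
  have h4 : α κ * Y.derivative.eval κ ≠ 0 := by
    intro h5
    have h6 : D κ * P.eval κ = 0 := by linarith
    rw [(mul_eq_zero.1 h6).resolve_right h3] at h2
    norm_num at h2
  exact ⟨right_ne_zero_of_mul h4, left_ne_zero_of_mul h4⟩

/-- the roots of `Y`, listed increasingly, and the sign of `Y` between them -/
theorem roots : ∃ x : ℕ → ℝ, StrictMonoOn x (Iic (2 * g)) ∧
    (∀ κ, Y.eval κ = 0 ↔ ∃ i ≤ 2 * g, κ = x i) ∧
    (∀ κ < x 0, Y.eval κ < 0) ∧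
    (∀ i < 2 * g, ∀ κ ∈ Ioo (x i) (x (i + 1)), 0 < (-1) ^ i * Y.eval κ) := by
  classical
  have hY : Y ≠ 0 := fun h0 => by simpa [h0] using h.Ylead
  have hs : Y.Splits := Polynomial.Splits.of_splits_map (algebraMap ℝ ℂ) (IsAlgClosed.splits _)
    fun z hz => ⟨z.re, by
      have := h.real z (by
        rw [Polynomial.aeval_def, Polynomial.eval₂_eq_eval_map]
        exact (Polynomial.mem_roots'.1 hz).2)
      exact Complex.ext (by simp) (by simp [this])⟩
  have hn : Y.roots.Nodup := by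
    rw [Multiset.nodup_iff_count_le_one]
    intro a
    rw [Polynomial.count_roots]
    by_contra hc
    obtain ⟨h1, h2⟩ := (Polynomial.one_lt_rootMultiplicity_iff_isRoot hY).1 (not_le.1 hc)
    exact (h.simple h1).1 h2
  have hc : Y.roots.toFinset.card = 2 * g + 1 := by
    rw [Multiset.toFinset_card_of_nodup hn, ← hs.natDegree_eq_card_roots, h.Ydeg]
  let e := Y.roots.toFinset.orderEmbOfFin hc
  let x : ℕ → ℝ := fun i => if hi : i < 2 * g + 1 then e ⟨i, hi⟩ else 0
  have hx : ∀ i : Fin (2 * g + 1), x i = e i := fun i => dif_pos i.2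
  have mono : StrictMonoOn x (Iic (2 * g)) := fun i hi j hj hij => by
    rw [hx ⟨i, Nat.lt_succ_of_le hi⟩, hx ⟨j, Nat.lt_succ_of_le hj⟩]
    exact e.strictMono hij
  have ev : ∀ κ, Y.eval κ = Y.leadingCoeff * ∏ i ∈ Finset.range (2 * g + 1), (κ - x i) := by
    intro κ
    rw [hs.eval_eq_prod_roots, Finset.prod_range]
    congr 1
    have : (Y.roots.map (κ - ·)).prod = ∏ a ∈ Y.roots.toFinset, (κ - a) := by
      rw [Finset.prod, Multiset.toFinset_val, hn.dedup]
    rw [this, ← Finset.image_orderEmbOfFin_univ _ hc, Finset.prod_image e.injective.injOn]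
    exact Finset.prod_congr rfl fun i _ => by rw [hx]
  have sgn : ∀ n κ, n ≤ 2 * g + 1 → (∀ i < n, x i < κ) → (∀ i, n ≤ i → i ≤ 2 * g → κ < x i) →
      0 < (-1) ^ (2 * g + 1 - n) * Y.eval κ := by
    intro n κ hn h1 h2
    rw [ev, ← Finset.prod_range_mul_prod_Ico _ hn]
    have a1 : 0 < ∏ i ∈ Finset.range n, (κ - x i) :=
      Finset.prod_pos fun i hi => sub_pos.2 (h1 i (Finset.mem_range.1 hi))
    have a2 : 0 < ∏ i ∈ Finset.Ico n (2 * g + 1), -(κ - x i) :=
      Finset.prod_pos fun i hi => by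
        have := Finset.mem_Ico.1 hi
        linarith [h2 i this.1 (Nat.le_of_lt_succ this.2)]
    rw [Finset.prod_neg, Nat.card_Ico] at a2
    have := mul_pos h.Ylead (mul_pos a1 a2)
    linarith
  refine ⟨x, mono, fun κ => ?_, fun κ hκ => ?_, fun i hi κ hκ => ?_⟩
  · rw [ev, mul_eq_zero, or_iff_right h.Ylead.ne', Finset.prod_eq_zero_iff]
    simp only [Finset.mem_range, Nat.lt_succ_iff, sub_eq_zero]
  · have := sgn 0 κ (Nat.zero_le _) (by simp) fun i _ hi =>
      hκ.trans_le (mono.monotoneOn (Nat.zero_le _) hi (Nat.zero_le _))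
    rw [Nat.sub_zero, pow_succ, pow_mul] at this
    norm_num at this
    exact this
  · have := sgn (i + 1) κ (by omega)
      (fun j hj => (mono.monotoneOn (show j ≤ 2 * g by omega) hi.le (by omega)).trans_lt hκ.1)
      fun j h1 h2 => hκ.2.trans_le (mono.monotoneOn hi h2 h1)
    rwa [show (-1 : ℝ) ^ (2 * g + 1 - (i + 1)) = (-1) ^ i from
      neg_one_pow_congr (by rw [Nat.even_iff, Nat.even_iff]; omega)] at this

theorem P_root_gap {x y : ℝ} (hxy : x < y) (hx : Y.eval x = 0) (hy : Y.eval y = 0)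
    (hn : ∀ κ ∈ Ioo x y, Y.eval κ < 0) : ∃ κ ∈ Ioo x y, P.eval κ = 0 := by
  have hc : Continuous α :=
    continuous_iff_continuousAt.2 fun κ => (h.dα κ).choose_spec.1.continuousAt
  obtain ⟨κ, hκ, h0⟩ := exists_hasDerivAt_eq_zero (f := fun κ => α κ * Real.sqrt (-Y.eval κ))
    (f' := fun κ => D κ * P.eval κ / Real.sqrt (-Y.eval κ)) hxy
    (hc.mul Y.continuous.neg.sqrt).continuousOn (by simp [hx, hy]) fun κ hκ => by
      obtain ⟨α', h1, h2⟩ := h.dα κ
      have h3 : 0 < -Y.eval κ := neg_pos.2 (hn κ hκ)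
      have h4 := Real.sqrt_pos.2 h3
      have h5 := Real.mul_self_sqrt h3.le
      refine (h1.fun_mul ((Y.hasDerivAt κ).fun_neg.sqrt h3.ne')).congr_deriv ?_
      field_simp
      linear_combination 2 * α' * h5 - h2
  refine ⟨κ, hκ, ?_⟩
  have h3 : 0 < -Y.eval κ := neg_pos.2 (hn κ hκ)
  have h4 := h.quadD κ
  rcases mul_eq_zero.1 ((div_eq_zero_iff.1 h0).resolve_right (Real.sqrt_pos.2 h3).ne') with h5 | h5
  · rw [h5] at h4
    nlinarith [sq_nonneg (α κ)]
  · exact h5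

end Spec

end Pool.Agent.Lib.MP_c7e804_gt
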