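import Pool.Agent.Lib.MP_c7e804_gt.H43Count1

/-!
Roots of the second spectral polynomial.
-/

namespace Pool.Agent.Lib.MP_c7e804_gt

open Matrix Set Complex
open scoped ContDiff ComplexConjugate

/-- a real polynomial of positive even degree with positive leading coefficient and no negative
root is positive on the negative half line -/
theorem cnt2_pos {Q : Polynomial ℝ} {n : ℕ} (hd : Q.natDegree = 2 * n + 2) (hl : 0 < Q.leadingCoeff)
    (h0 : ∀ κ < 0, Q.eval κ ≠ 0) : ∀ κ < 0, 0 < Q.eval κ := by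
  intro κ hκ
  have hX : (-Polynomial.X : Polynomial ℝ).natDegree = 1 := by simp
  have h1 : (Q.comp (-Polynomial.X)).natDegree = 2 * n + 2 := by
    rw [Polynomial.natDegree_comp, hX, hd, mul_one]
  have h2 : 0 ≤ (Q.comp (-Polynomial.X)).leadingCoeff := by
    rw [Polynomial.leadingCoeff_comp (by rw [hX]; norm_num), hd]
    simp only [Polynomial.leadingCoeff_neg, Polynomial.leadingCoeff_X]
    rw [Even.neg_one_pow ⟨n + 1, by ring⟩, mul_one]
    exact hl.le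
  have h3 := Polynomial.tendsto_atTop_of_leadingCoeff_nonneg (Q.comp (-Polynomial.X))
    (Polynomial.natDegree_pos_iff_degree_pos.1 (by omega)) h2
  obtain ⟨t, ht1, ht2⟩ := ((h3.eventually_gt_atTop 0).and (Filter.eventually_gt_atTop (-κ))).exists
  simp only [Polynomial.eval_comp, Polynomial.eval_neg, Polynomial.eval_X] at ht1
  by_contra hc
  obtain ⟨z, hz, hz0⟩ := intermediate_value_Icc' (show -t ≤ κ by linarith)
    Q.continuous.continuousOn (show (0 : ℝ) ∈ Icc (Q.eval κ) (Q.eval (-t)) from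
      ⟨not_lt.1 hc, ht1.le⟩)
  exact h0 z (lt_of_le_of_lt hz.2 hκ) hz0

namespace Spec
variable {g : ℕ} {Y P R : Polynomial ℝ} {κa κb C₀ : ℝ} {Δ D α T β : ℝ → ℝ}
  (h : Spec g Y P R κa κb C₀ Δ D α T β)
include h

theorem cnt2_ne {κ : ℝ} (hκ : κb < κ) : κ ≠ κa ∧ κ ≠ κb :=
  ⟨(lt_trans (lt_trans h.ka_neg h.kb_pos) hκ).ne', hκ.ne'⟩

theorem cnt2_contβ {x y : ℝ} (hb : κb < x) : ContinuousOn β (Icc x y) := by
  intro κ hκ
  have hn := h.cnt2_ne (lt_of_lt_of_le hb hκ.1)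
  obtain ⟨β', h1, -⟩ := h.dβ κ hn.1 hn.2
  exact h1.continuousAt.continuousWithinAt

theorem cnt2_contT {x y : ℝ} (hb : κb < x) : ContinuousOn T (Icc x y) := by
  intro κ hκ
  have hn := h.cnt2_ne (lt_of_lt_of_le hb hκ.1)
  exact (h.dT κ hn.1 hn.2).continuousAt.continuousWithinAt

theorem R_root_band {x y : ℝ} (hb : κb < x) (hxy : x < y) (hx : Y.eval x = 0) (hy : Y.eval y = 0)
    (hn : ∀ κ ∈ Ioo x y, 0 < Y.eval κ) : ∃ κ ∈ Ioo x y, R.eval κ = 0 := by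
  have hc : ContinuousOn (fun κ => β κ * √(Y.eval κ)) (Icc x y) :=
    (h.cnt2_contβ hb).mul (Real.continuous_sqrt.comp Y.continuous).continuousOn
  obtain ⟨κ, hκ, h0⟩ := exists_hasDerivAt_eq_zero (f' := fun κ =>
      T κ * R.eval κ / Δ κ / (2 * √(Y.eval κ))) hxy hc (by simp [hx, hy]) (by
    intro κ hκ
    have hne := h.cnt2_ne (lt_trans hb hκ.1)
    obtain ⟨β', h1, h2⟩ := h.dβ κ hne.1 hne.2
    have hp := hn κ hκ
    have hs : 0 < √(Y.eval κ) := Real.sqrt_pos.2 hp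
    have h3 := h1.mul ((Y.hasDerivAt κ).sqrt hp.ne')
    refine h3.congr_deriv ?_
    rw [← h2]
    field_simp
    rw [Real.sq_sqrt hp.le]
    ring)
  refine ⟨κ, hκ, ?_⟩
  have hne := h.cnt2_ne (lt_trans hb hκ.1)
  have hp := hn κ hκ
  have hs : 0 < √(Y.eval κ) := Real.sqrt_pos.2 hp
  have hΔ := h.Δne κ (lt_trans hb hκ.1)
  have hT : T κ ≠ 0 := by
    intro e
    have := h.quadT κ hne.1 hne.2
    rw [e] at this
    nlinarith [sq_nonneg (β κ)]
  simp only [div_eq_zero_iff, mul_eq_zero, hT, hΔ, hs.ne', false_or, or_false,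
    OfNat.ofNat_ne_zero] at h0
  exact h0

theorem R_root_gap {x y : ℝ} (hb : κb < x) (hxy : x < y) (hx : Y.eval x = 0) (hy : Y.eval y = 0)
    (hn : ∀ κ ∈ Ioo x y, Y.eval κ < 0) : ∃ κ ∈ Ioo x y, R.eval κ = 0 := by
  have hone : ∀ κ, Y.eval κ = 0 → |D κ| = 1 := by
    intro κ e
    have := h.quadD κ
    rw [e, mul_zero, add_zero] at this
    rw [← abs_one, ← sq_eq_sq_iff_abs_eq_abs, this, one_pow]
  have hcD : Continuous fun κ => |D κ| :=
    (continuous_iff_continuousAt.2 fun κ => (h.dD κ).continuousAt).abs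
  have hD : ∀ κ ∈ Icc x y, |D κ| < C₀ := by
    intro κ hκ
    by_contra hc
    obtain ⟨z, hz, hz0⟩ := intermediate_value_Icc hκ.1 hcD.continuousOn
      (show C₀ ∈ Icc |D x| |D κ| from ⟨by rw [hone x hx]; exact h.C₀gt.le, not_lt.1 hc⟩)
    have hzx : z ≠ x := by
      rintro rfl
      exact h.C₀gt.ne ((hone z hx).symm.trans hz0)
    have hzy : z ≠ y := by
      rintro rfl
      exact h.C₀gt.ne ((hone z hy).symm.trans hz0)
    exact h.k3 z (lt_of_lt_of_le (lt_trans h.kb_pos hb) hz.1)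
      (hn z ⟨lt_of_le_of_ne hz.1 hzx.symm, lt_of_le_of_ne (le_trans hz.2 hκ.2) hzy⟩) hz0
  have hT : ∀ κ ∈ Icc x y, 1 - T κ ≠ 0 := by
    intro κ hκ
    refine sub_ne_zero.2 (h.k2 κ (lt_of_lt_of_le hb hκ.1) ?_ (hD κ hκ)).symm
    rcases eq_or_lt_of_le hκ.1 with e | e
    · rw [← e, hx]
    · rcases eq_or_lt_of_le hκ.2 with e' | e'
      · rw [e', hy]
      · exact (hn κ ⟨e, e'⟩).le
  have hc : ContinuousOn (fun κ => β κ * √(-Y.eval κ) / (1 - T κ)) (Icc x y) :=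
    ((h.cnt2_contβ hb).mul (Real.continuous_sqrt.comp Y.continuous.neg).continuousOn).div
      (continuousOn_const.sub (h.cnt2_contT hb)) hT
  obtain ⟨κ, hκ, h0⟩ := exists_hasDerivAt_eq_zero (f' := fun κ =>
      R.eval κ / Δ κ / (2 * √(-Y.eval κ)) / (1 - T κ)) hxy hc (by simp [hx, hy]) (by
    intro κ hκ
    have hne := h.cnt2_ne (lt_trans hb hκ.1)
    obtain ⟨β', h1, h2⟩ := h.dβ κ hne.1 hne.2
    have hp : 0 < -Y.eval κ := neg_pos.2 (hn κ hκ)
    have hs : 0 < √(-Y.eval κ) := Real.sqrt_pos.2 hp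
    have hΔ := h.Δne κ (lt_trans hb hκ.1)
    have hT' := hT κ (Ioo_subset_Icc_self hκ)
    have h3 := (h1.mul ((Y.hasDerivAt κ).neg.sqrt hp.ne')).div
      ((h.dT κ hne.1 hne.2).const_sub 1) hT'
    have h4 := h.quadT κ hne.1 hne.2
    have h5 : √(-Y.eval κ) ^ 2 = -Y.eval κ := Real.sq_sqrt hp.le
    refine h3.congr_deriv ?_
    simp only [Pi.neg_apply, Pi.mul_apply]
    generalize √(-Y.eval κ) = s at hs h5 ⊢
    have h6 : (2 * β' * Y.eval κ + β κ * Y.derivative.eval κ) * Δ κ = T κ * R.eval κ := by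
      rw [h2]
      field_simp
    field_simp
    linear_combination -(1 - T κ) * h6 + R.eval κ * h4
      + (2 * β' * Δ κ * (1 - T κ) + β κ ^ 2 * R.eval κ) * h5)
  refine ⟨κ, hκ, ?_⟩
  have hs : 0 < √(-Y.eval κ) := Real.sqrt_pos.2 (neg_pos.2 (hn κ hκ))
  have hΔ := h.Δne κ (lt_trans hb hκ.1)
  have hT' := hT κ (Ioo_subset_Icc_self hκ)
  simp only [div_eq_zero_iff, mul_eq_zero, hT', hΔ, hs.ne', or_false,
    OfNat.ofNat_ne_zero] at h0
  exact h0

theorem R_root_neg (hP : ∀ κ < 0, P.eval κ ≠ 0) : ∃ κ < 0, R.eval κ = 0 := by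
  by_contra hc
  have hR : ∀ κ < 0, R.eval κ ≠ 0 := fun κ hκ e => hc ⟨κ, hκ, e⟩
  have hP0 : P ≠ 0 := Polynomial.leadingCoeff_ne_zero.1 h.Plead.ne'
  have hR0 : R ≠ 0 := Polynomial.leadingCoeff_ne_zero.1 h.Rlead.ne'
  have hQ := cnt2_pos (Q := P * R) (n := g)
    (by rw [Polynomial.natDegree_mul hP0 hR0, h.Pdeg, h.Rdeg]; ring)
    (by rw [Polynomial.leadingCoeff_mul]; exact mul_pos h.Plead h.Rlead)
    (fun κ hκ => by rw [Polynomial.eval_mul]; exact mul_ne_zero (hP κ hκ) (hR κ hκ))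
  have ha := h.ka_neg
  have hb := h.kb_pos
  have hne : ∀ κ ∈ Icc (κa / 2) 0, κ ≠ κa ∧ κ ≠ κb := fun κ hκ =>
    ⟨by linarith [hκ.1] |> ne_of_gt, (lt_of_le_of_lt hκ.2 hb).ne⟩
  obtain ⟨ξ, hξ, e⟩ := exists_hasDerivAt_eq_slope T (fun κ => β κ * R.eval κ / (2 * Δ κ))
    (show κa / 2 < 0 by linarith)
    (fun κ hκ => (h.dT κ (hne κ hκ).1 (hne κ hκ).2).continuousAt.continuousWithinAt)
    (fun κ hκ => h.dT κ (hne κ (Ioo_subset_Icc_self hκ)).1 (hne κ (Ioo_subset_Icc_self hκ)).2)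
  have h1 := h.βP ξ ⟨by linarith [hξ.1], hξ.2⟩
  have h2 := hQ ξ hξ.2
  rw [Polynomial.eval_mul] at h2
  have h3 : 0 < β ξ * R.eval ξ := by
    have h4 : 0 < (β ξ * R.eval ξ) * P.eval ξ ^ 2 := by nlinarith [mul_pos h1 h2]
    exact (mul_pos_iff_of_pos_right (pow_pos (sq_pos_of_ne_zero (hP ξ hξ.2)) 1)).1 (by simpa using h4)
  have h4 := h.Δpos ξ ⟨by linarith [hξ.1], lt_trans hξ.2 hb⟩
  have h5 : 0 < (T 0 - T (κa / 2)) / (0 - κa / 2) := by
    rw [← e]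
    positivity
  have h6 : T (κa / 2) < T 0 := by
    have := (div_pos_iff_of_pos_right (show 0 < 0 - κa / 2 by linarith)).1 h5
    linarith
  have h7 := h.quadT 0 ha.ne' hb.ne
  have h8 := h.quadT (κa / 2) (by linarith) (by linarith)
  have h9 := h.Ypos (κa / 2) ⟨by linarith, by linarith⟩
  have h10 := h.Tpos (κa / 2) ⟨by linarith, by linarith⟩
  rw [h.β0] at h7
  nlinarith [mul_nonneg (sq_nonneg (β (κa / 2))) h9.le]

end Spec

end Pool.Agent.Lib.MP_c7e804_gt
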