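import Pool.Agent.Lib.MP_c7e804_gt.H43Wind

/-!
Simple locally convex spherical curves around an axis.
-/

namespace Pool.Agent.Lib.MP_c7e804_gt

open Matrix Set Complex
open scoped ContDiff ComplexConjugate

/-- a unit vector orthogonal to a given vector -/
private theorem cur_exists_perp (e : V3) :
    ∃ f : V3, f ⬝ᵥ f = 1 ∧ e ⬝ᵥ f = 0 := by
  have key : ∀ u : V3, e ⬝ᵥ u = 0 → 0 < u ⬝ᵥ u → ∃ f : V3, f ⬝ᵥ f = 1 ∧ e ⬝ᵥ f = 0 := by
    intro u hu hp
    have hs : 0 < √(u ⬝ᵥ u) := Real.sqrt_pos.mpr hp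
    refine ⟨(√(u ⬝ᵥ u))⁻¹ • u, ?_, ?_⟩
    · rw [smul_dotProduct, dotProduct_smul, smul_eq_mul, smul_eq_mul]
      have := Real.mul_self_sqrt hp.le
      field_simp
      nlinarith
    · rw [dotProduct_smul, hu, smul_zero]
  by_cases h : e 0 = 0 ∧ e 1 = 0
  · refine key ![1, 0, 0] ?_ ?_
    · simp [dotProduct, Fin.sum_univ_three, h.1]
    · simp [dotProduct, Fin.sum_univ_three]
  · refine key ![-e 1, e 0, 0] ?_ ?_
    · simp [dotProduct, Fin.sum_univ_three]; ring
    · simp only [dotProduct, Fin.sum_univ_three]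
      simp only [Matrix.cons_val_zero, Matrix.cons_val_one, Matrix.cons_val]
      rcases not_and_or.mp h with h | h
      · have := mul_self_pos.mpr h
        nlinarith [mul_self_nonneg (e 1)]
      · have := mul_self_pos.mpr h
        nlinarith [mul_self_nonneg (e 0)]

/-- projection to the plane orthogonal to `e`, as a complex number -/
private theorem cur_exists_P {e : V3} (he : e ⬝ᵥ e = 1) :
    ∃ P : V3 →L[ℝ] ℂ, ∀ a b : V3,
      (conj (P a) * P b).re = a ⬝ᵥ b - (e ⬝ᵥ a) * (e ⬝ᵥ b) ∧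
      (conj (P a) * P b).im = e ⬝ᵥ (a ⨯₃ b) := by
  obtain ⟨f, hf, hef⟩ := cur_exists_perp e
  let L : V3 →ₗ[ℝ] ℂ :=
    { toFun := fun w => ⟨f ⬝ᵥ w, (e ⨯₃ f) ⬝ᵥ w⟩
      map_add' := fun x y => by
        apply Complex.ext <;> simp [dotProduct_add]
      map_smul' := fun c x => by
        apply Complex.ext <;> simp [dotProduct_smul] }
  refine ⟨LinearMap.toContinuousLinearMap L, fun a b => ?_⟩
  have hL : ∀ w, (LinearMap.toContinuousLinearMap L) w = ⟨f ⬝ᵥ w, (e ⨯₃ f) ⬝ᵥ w⟩ := fun w => rfl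
  rw [hL, hL]
  simp only [Complex.mul_re, Complex.mul_im, Complex.conj_re, Complex.conj_im]
  simp only [dotProduct, Fin.sum_univ_three, cross_apply, Matrix.cons_val_zero,
    Matrix.cons_val_one, Matrix.cons_val] at he hf hef ⊢
  constructor
  · linear_combination
      ((f 0 * f 0 + f 1 * f 1 + f 2 * f 2) * (a 0 * b 0 + a 1 * b 1 + a 2 * b 2)
        - (f 0 * a 0 + f 1 * a 1 + f 2 * a 2) * (f 0 * b 0 + f 1 * b 1 + f 2 * b 2)) * he
      + ((a 0 * b 0 + a 1 * b 1 + a 2 * b 2)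
        - (e 0 * a 0 + e 1 * a 1 + e 2 * a 2) * (e 0 * b 0 + e 1 * b 1 + e 2 * b 2)) * hf
      + (-(e 0 * f 0 + e 1 * f 1 + e 2 * f 2) * (a 0 * b 0 + a 1 * b 1 + a 2 * b 2)
        + (f 0 * a 0 + f 1 * a 1 + f 2 * a 2) * (e 0 * b 0 + e 1 * b 1 + e 2 * b 2)
        + (e 0 * a 0 + e 1 * a 1 + e 2 * a 2) * (f 0 * b 0 + f 1 * b 1 + f 2 * b 2)) * hef
  · linear_combination
      (e 0 * (a 1 * b 2 - a 2 * b 1) + e 1 * (a 2 * b 0 - a 0 * b 2)
        + e 2 * (a 0 * b 1 - a 1 * b 0)) * hf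
      - (f 0 * (a 1 * b 2 - a 2 * b 1) + f 1 * (a 2 * b 0 - a 0 * b 2)
        + f 2 * (a 0 * b 1 - a 1 * b 0)) * hef

/-- a lift that turns more than once over a period meets itself -/
private theorem cur_meet {τ c : ℝ} (hτ : 0 < τ) {φ h : ℝ → ℝ} (hφ : Continuous φ)
    (hm : StrictMono φ) (hc : 2 * Real.pi < c) (hp : ∀ v, φ (v + τ) = φ v + c)
    (hh : Continuous h) (hhp : Function.Periodic h τ) :
    ∃ v w, v < w ∧ w < v + τ ∧ φ w = φ v + 2 * Real.pi ∧ h w = h v := by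
  have hc0 : 0 < c := lt_trans (by positivity) hc
  have hn : ∀ n : ℕ, φ (n * τ) = φ 0 + n * c := by
    intro n
    induction n with
    | zero => simp
    | succ n ih => push_cast; rw [add_mul, one_mul, hp, ih]; ring
  have hn' : ∀ n : ℕ, φ (-(n * τ)) = φ 0 - n * c := by
    intro n
    induction n with
    | zero => simp
    | succ n ih =>
      have := hp (-(((n + 1 : ℕ) : ℝ) * τ))
      have e1 : -(((n + 1 : ℕ) : ℝ) * τ) + τ = -(n * τ) := by push_cast; ring
      rw [e1, ih] at this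
      push_cast at this ⊢
      linarith
  have hsurj : Function.Surjective φ := by
    intro y
    obtain ⟨n, hn1⟩ := exists_nat_gt (|y - φ 0| / c)
    have hn2 : |y - φ 0| < n * c := by rwa [div_lt_iff₀ hc0] at hn1
    have := abs_lt.mp hn2
    apply intermediate_value_univ (-(n * τ)) (n * τ) hφ
    rw [hn, hn']
    constructor <;> linarith [this.1, this.2]
  let Φ := hm.orderIsoOfSurjective φ hsurj
  have hΦ : ∀ y, φ (Φ.symm y) = y := fun y => StrictMono.orderIsoOfSurjective_self_symm_apply φ hm hsurj y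
  have hcont : Continuous fun v => h (Φ.symm (φ v + 2 * Real.pi)) :=
    hh.comp (Φ.symm.continuous.comp (hφ.add continuous_const))
  obtain ⟨vM, -, hM⟩ := (isCompact_Icc (a := (0 : ℝ)) (b := τ)).exists_isMaxOn
    (nonempty_Icc.mpr hτ.le) hh.continuousOn
  obtain ⟨vm, -, hmn⟩ := (isCompact_Icc (a := (0 : ℝ)) (b := τ)).exists_isMinOn
    (nonempty_Icc.mpr hτ.le) hh.continuousOn
  have hM' : ∀ x, h x ≤ h vM := by
    intro x
    obtain ⟨y, hy, e⟩ := hhp.exists_mem_Ico₀ hτ x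
    rw [e]; exact hM (Ico_subset_Icc_self hy)
  have hm' : ∀ x, h vm ≤ h x := by
    intro x
    obtain ⟨y, hy, e⟩ := hhp.exists_mem_Ico₀ hτ x
    rw [e]; exact hmn (Ico_subset_Icc_self hy)
  obtain ⟨v, hv⟩ := intermediate_value_univ₂ hcont hh (hM' _) (hm' _)
  refine ⟨v, Φ.symm (φ v + 2 * Real.pi), ?_, ?_, hΦ _, hv⟩
  · apply hm.lt_iff_lt.mp
    rw [hΦ]; linarith [Real.pi_pos]
  · apply hm.lt_iff_lt.mp
    rw [hΦ, hp]; linarith

/-- up on the first half turn, down on the second one -/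
private theorem cur_hill {x y : ℝ} (hxy : x < y) {φ f f' : ℝ → ℝ} (hφ : Continuous φ)
    (hm : StrictMono φ) (hc : φ y = φ x + 2 * Real.pi) (hf : ∀ v, HasDerivAt f (f' v) v)
    (hs : ∀ v, ∃ r, 0 < r ∧ f' v = r * Real.sin (φ v - φ x)) (hx : f x = 0) (hy : f y = 0) :
    ∀ v ∈ Ioo x y, 0 < f v := by
  obtain ⟨t, ht, e⟩ : φ x + Real.pi ∈ φ '' Ioo x y := by
    apply intermediate_value_Ioo hxy.le hφ.continuousOn
    rw [hc]; constructor <;> linarith [Real.pi_pos]
  have hfc : Continuous f := continuous_iff_continuousAt.mpr fun v => (hf v).continuousAt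
  have h1 : StrictMonoOn f (Icc x t) := by
    apply strictMonoOn_of_deriv_pos (convex_Icc _ _) hfc.continuousOn
    intro v hv
    rw [interior_Icc] at hv
    obtain ⟨r, hr, er⟩ := hs v
    rw [(hf v).deriv, er]
    have a1 := hm hv.1
    have a2 := hm hv.2
    exact mul_pos hr (Real.sin_pos_of_pos_of_lt_pi (by linarith) (by linarith))
  have h2 : StrictAntiOn f (Icc t y) := by
    apply strictAntiOn_of_deriv_neg (convex_Icc _ _) hfc.continuousOn
    intro v hv
    rw [interior_Icc] at hv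
    obtain ⟨r, hr, er⟩ := hs v
    rw [(hf v).deriv, er]
    have a1 := hm hv.1
    have a2 := hm hv.2
    have : 0 < Real.sin (φ v - φ x - Real.pi) :=
      Real.sin_pos_of_pos_of_lt_pi (by linarith) (by linarith)
    rw [Real.sin_sub_pi] at this
    exact mul_neg_of_pos_of_neg hr (by linarith)
  intro v hv
  rcases le_total v t with h | h
  · have := h1 (left_mem_Icc.mpr ht.1.le) ⟨hv.1.le, h⟩ hv.1
    linarith
  · have := h2 ⟨h, hv.2.le⟩ (right_mem_Icc.mpr ht.2.le) hv.2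
    linarith

private theorem cur_hasDerivAt_dot {f g : ℝ → V3} {f' g' : V3} {v : ℝ} (hf : HasDerivAt f f' v)
    (hg : HasDerivAt g g' v) :
    HasDerivAt (fun t => f t ⬝ᵥ g t) (f' ⬝ᵥ g v + f v ⬝ᵥ g') v := by
  have a := hasDerivAt_pi.mp hf
  have b := hasDerivAt_pi.mp hg
  simp only [dotProduct, Fin.sum_univ_three]
  exact ((((a 0).mul (b 0)).add ((a 1).mul (b 1))).add ((a 2).mul (b 2))).congr_deriv (by ring)

private theorem cur_hasDerivAt_det {c : V3} {f g : ℝ → V3} {f' g' : V3} {v : ℝ}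
    (hf : HasDerivAt f f' v) (hg : HasDerivAt g g' v) :
    HasDerivAt (fun t => c ⬝ᵥ (f t ⨯₃ g t)) (c ⬝ᵥ (f' ⨯₃ g v) + c ⬝ᵥ (f v ⨯₃ g')) v := by
  have a := hasDerivAt_pi.mp hf
  have b := hasDerivAt_pi.mp hg
  simp only [dotProduct, Fin.sum_univ_three, cross_apply, Matrix.cons_val_zero,
    Matrix.cons_val_one, Matrix.cons_val]
  have := (((((a 1).mul (b 2)).sub ((a 2).mul (b 1))).const_mul (c 0)).add
    ((((a 2).mul (b 0)).sub ((a 0).mul (b 2))).const_mul (c 1))).add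
    ((((a 0).mul (b 1)).sub ((a 1).mul (b 0))).const_mul (c 2))
  exact this.congr_deriv (by ring)

private theorem cur_cont_dot {f g : ℝ → V3} (hf : Continuous f) (hg : Continuous g) :
    Continuous fun t => f t ⬝ᵥ g t := by
  simp only [dotProduct, Fin.sum_univ_three]
  fun_prop

/-- polar form of a nowhere vanishing curve -/
private theorem cur_polar {z z' : ℝ → ℂ} (hz : ∀ v, HasDerivAt z (z' v) v) (hc : Continuous z')
    (h0 : ∀ v, z v ≠ 0) (x v : ℝ) :
    conj (z x) * z v = ((‖z x‖ * ‖z v‖ : ℝ) : ℂ) *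
      cexp (((wind v z z' - wind x z z' : ℝ) : ℂ) * I) := by
  have hn : ∀ t, ((‖z t‖ : ℝ) : ℂ) ≠ 0 := fun t => by
    exact_mod_cast (norm_ne_zero_iff.mpr (h0 t))
  have e1 := wind_exp (τ := v) hz hc h0
  have e2 := wind_exp (τ := x) hz hc h0
  have e3 : cexp (((wind v z z' - wind x z z' : ℝ) : ℂ) * I)
      = cexp (I * wind v z z') / cexp (I * wind x z z') := by
    rw [← Complex.exp_sub]; congr 1; push_cast; ring
  have e4 : conj (z x) = ((‖z x‖ : ℝ) : ℂ) ^ 2 / z x := by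
    rw [eq_div_iff (h0 x), ← Complex.normSq_eq_conj_mul_self, Complex.normSq_eq_norm_sq]
    push_cast; ring
  rw [e3, e1, e2, e4]
  have := h0 0
  have := h0 x
  have := h0 v
  have := hn 0
  have := hn x
  have := hn v
  push_cast
  field_simp

private theorem cur_div_im (a b : ℂ) : (b / a).im = (conj a * b).im / normSq a := by
  rw [Complex.div_im]
  simp only [Complex.mul_im, Complex.conj_re, Complex.conj_im]
  ring

private theorem cur_self_pos {a : V3} (h : a ≠ 0) : 0 < a ⬝ᵥ a := by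
  have h1 : 0 ≤ a ⬝ᵥ a := by
    simp only [dotProduct, Fin.sum_univ_three]
    nlinarith [mul_self_nonneg (a 0), mul_self_nonneg (a 1), mul_self_nonneg (a 2)]
  exact lt_of_le_of_ne h1 fun e => h (dotProduct_self_eq_zero.mp e.symm)

/-- the moving frame -/
private theorem cur_frame {g t m : V3} {s : ℝ} (hs : s ≠ 0) (h1 : g ⬝ᵥ g = 1) (h2 : g ⬝ᵥ t = 0)
    (h3 : s * s = t ⬝ᵥ t) (h4 : g ⨯₃ t = s • m) :
    t ⨯₃ m = s • g ∧ g ⬝ᵥ m = 0 ∧ m ⬝ᵥ m = 1 := by
  have a0 := congrFun h4 0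
  have a1 := congrFun h4 1
  have a2 := congrFun h4 2
  simp only [dotProduct, Fin.sum_univ_three, cross_apply, Matrix.cons_val_zero,
    Matrix.cons_val_one, Matrix.cons_val, Pi.smul_apply, smul_eq_mul] at h1 h2 h3 a0 a1 a2
  refine ⟨?_, ?_, ?_⟩
  · ext i
    apply mul_left_cancel₀ hs
    fin_cases i <;>
      simp only [cross_apply, Matrix.cons_val_zero, Matrix.cons_val_one, Matrix.cons_val,
        Pi.smul_apply, smul_eq_mul, Fin.zero_eta, Fin.mk_one, Fin.reduceFinMk]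
    · linear_combination (-t 1) * a2 + t 2 * a1 - g 0 * h3 - t 0 * h2
    · linear_combination (-t 2) * a0 + t 0 * a2 - g 1 * h3 - t 1 * h2
    · linear_combination (-t 0) * a1 + t 1 * a0 - g 2 * h3 - t 2 * h2
  · apply mul_left_cancel₀ hs
    simp only [dotProduct, Fin.sum_univ_three]
    linear_combination (-g 0) * a0 - g 1 * a1 - g 2 * a2
  · apply mul_left_cancel₀ (mul_ne_zero hs hs)
    simp only [dotProduct, Fin.sum_univ_three]
    linear_combination (-(s * m 0 + (g 1 * t 2 - g 2 * t 1))) * a0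
      - (s * m 1 + (g 2 * t 0 - g 0 * t 2)) * a1 - (s * m 2 + (g 0 * t 1 - g 1 * t 0)) * a2
      + (t 0 * t 0 + t 1 * t 1 + t 2 * t 2) * h1 - h3
      - (g 0 * t 0 + g 1 * t 1 + g 2 * t 2) * h2

private theorem cur_binet (a e t m : V3) :
    (a ⬝ᵥ t) * (e ⬝ᵥ m) - (a ⬝ᵥ m) * (e ⬝ᵥ t) = -(e ⬝ᵥ (a ⨯₃ (t ⨯₃ m))) := by
  simp only [dotProduct, Fin.sum_univ_three, cross_apply, Matrix.cons_val_zero,
    Matrix.cons_val_one, Matrix.cons_val]
  ring

private theorem cur_par {e V : V3} (he : e ⬝ᵥ e = 1) (h : e ⨯₃ V = 0) (a : V3) :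
    a ⬝ᵥ V = (e ⬝ᵥ V) * (e ⬝ᵥ a) := by
  have a0 := congrFun h 0
  have a1 := congrFun h 1
  have a2 := congrFun h 2
  simp only [dotProduct, Fin.sum_univ_three, cross_apply, Matrix.cons_val_zero,
    Matrix.cons_val_one, Matrix.cons_val, Pi.zero_apply] at he a0 a1 a2 ⊢
  linear_combination (-(a 0 * V 0 + a 1 * V 1 + a 2 * V 2)) * he
    + (e 1 * a 2 - e 2 * a 1) * a0 + (e 2 * a 0 - e 0 * a 2) * a1 + (e 0 * a 1 - e 1 * a 0) * a2

private theorem cur_dot_integral (c : V3) {F : ℝ → V3} (hF : Continuous F) (x y : ℝ) :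
    c ⬝ᵥ (∫ v in x..y, F v) = ∫ v in x..y, c ⬝ᵥ F v := by
  let L : V3 →ₗ[ℝ] ℝ :=
    { toFun := fun w => c ⬝ᵥ w
      map_add' := fun x y => dotProduct_add _ _ _
      map_smul' := fun r x => dotProduct_smul _ _ _ }
  exact ((LinearMap.toContinuousLinearMap L).intervalIntegral_comp_comm
    (hF.intervalIntegrable x y)).symm

theorem convex_curve {τ : ℝ} (hτ : 0 < τ) {γ γ' γ'' m : ℝ → V3} {k : ℝ → ℝ} {e : V3} {ε : ℝ}
    (h1 : ∀ v, HasDerivAt γ (γ' v) v) (h2 : ∀ v, HasDerivAt γ' (γ'' v) v) (h3 : Continuous γ'')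
    (hp : ∀ v, γ (v + τ) = γ v) (hu : ∀ v, γ v ⬝ᵥ γ v = 1) (h0 : ∀ v, γ' v ≠ 0)
    (hε : ε = 1 ∨ ε = -1) (hm : ∀ v, γ v ⨯₃ γ' v = (ε * √(γ' v ⬝ᵥ γ' v)) • m v)
    (hm' : ∀ v, HasDerivAt m (-k v • γ' v) v) (hk : ∀ v, 0 < k v) (hkc : Continuous k)
    (he : e ⬝ᵥ e = 1) (hem : ∀ v, 0 < e ⬝ᵥ m v)
    (hs : ∀ v v', γ v = γ v' → ∃ j : ℤ, v' = v + j * τ)
    (hfl : e ⨯₃ (∫ v in (0 : ℝ)..τ, √(γ' v ⬝ᵥ γ' v) • γ v) = 0) :
    (∀ v, 0 < e ⬝ᵥ γ v) ∧
      ∫ v in (0 : ℝ)..τ, k v * √(γ' v ⬝ᵥ γ' v) * (e ⬝ᵥ γ v) / (1 - (e ⬝ᵥ m v) ^ 2)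
        ≤ 2 * Real.pi := by
  obtain ⟨P, hP⟩ := cur_exists_P he
  obtain ⟨σ, hσ⟩ : ∃ σ : ℝ → ℝ, ∀ v, √(γ' v ⬝ᵥ γ' v) = σ v := ⟨_, fun _ => rfl⟩
  have hγc : Continuous γ := continuous_iff_continuousAt.mpr fun v => (h1 v).continuousAt
  have hγ'c : Continuous γ' := continuous_iff_continuousAt.mpr fun v => (h2 v).continuousAt
  have hmc : Continuous m := continuous_iff_continuousAt.mpr fun v => (hm' v).continuousAt
  have hσc : Continuous σ := by
    have := (cur_cont_dot hγ'c hγ'c).sqrt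
    simpa only [hσ] using this
  have hσp : ∀ v, 0 < σ v := fun v => hσ v ▸ Real.sqrt_pos.mpr (cur_self_pos (h0 v))
  have hσ2 : ∀ v, σ v * σ v = γ' v ⬝ᵥ γ' v := fun v =>
    hσ v ▸ Real.mul_self_sqrt (cur_self_pos (h0 v)).le
  simp only [hσ] at hm hfl ⊢
  have hε2 : ε * ε = 1 := by rcases hε with h | h <;> rw [h] <;> norm_num
  have hε0 : ε ≠ 0 := by rcases hε with h | h <;> rw [h] <;> norm_num
  have horth : ∀ v, γ v ⬝ᵥ γ' v = 0 := by
    intro v
    have a := cur_hasDerivAt_dot (h1 v) (h1 v)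
    simp only [hu] at a
    have b := a.unique (hasDerivAt_const v (1 : ℝ))
    rw [dotProduct_comm (γ' v)] at b
    linarith
  have hfr : ∀ v, γ' v ⨯₃ m v = (ε * σ v) • γ v ∧ γ v ⬝ᵥ m v = 0 ∧ m v ⬝ᵥ m v = 1 := fun v =>
    cur_frame (mul_ne_zero hε0 (hσp v).ne') (hu v) (horth v)
      (by rw [← hσ2]; linear_combination (σ v * σ v) * hε2) (hm v)
  have hp' : ∀ v, γ' (v + τ) = γ' v := by
    intro v
    have a := (h1 (v + τ)).comp_add_const v τ
    simp only [hp] at a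
    exact a.unique (h1 v)
  have hpσ : ∀ v, σ (v + τ) = σ v := fun v => by rw [← hσ, ← hσ, hp']
  have hpm : ∀ v, m (v + τ) = m v := by
    intro v
    have a := hm (v + τ)
    rw [hp, hp', hpσ, hm v] at a
    exact (smul_right_injective V3 (mul_ne_zero hε0 (hσp v).ne') a).symm
  -- the projected curve
  have hnsq : ∀ a : V3, normSq (P a) = a ⬝ᵥ a - (e ⬝ᵥ a) * (e ⬝ᵥ a) := by
    intro a
    rw [← (hP a a).1, ← Complex.normSq_eq_conj_mul_self, Complex.ofReal_re]
  obtain ⟨z, hzd⟩ : ∃ z : ℝ → ℂ, z = fun v => P (γ v) := ⟨_, rfl⟩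
  obtain ⟨z', hz'd⟩ : ∃ z' : ℝ → ℂ, z' = fun v => P (γ' v) := ⟨_, rfl⟩
  have hzv : ∀ v, z v = P (γ v) := fun v => by rw [hzd]
  have hz'v : ∀ v, z' v = P (γ' v) := fun v => by rw [hz'd]
  have hz : ∀ v, HasDerivAt z (z' v) v := fun v => by
    rw [hzd, hz'v]
    exact P.hasFDerivAt.comp_hasDerivAt v (h1 v)
  have hzc : Continuous z := by rw [hzd]; exact P.continuous.comp hγc
  have hz'c : Continuous z' := by rw [hz'd]; exact P.continuous.comp hγ'c
  have hzim : ∀ v, (conj (z v) * z' v).im = ε * σ v * (e ⬝ᵥ m v) := fun v => by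
    rw [hzv, hz'v, (hP _ _).2, hm, dotProduct_smul, smul_eq_mul]
  have hz0 : ∀ v, z v ≠ 0 := by
    intro v h
    have a := hzim v
    rw [h] at a
    simp only [map_zero, zero_mul, Complex.zero_im] at a
    exact (mul_ne_zero (mul_ne_zero hε0 (hσp v).ne') (hem v).ne') a.symm
  have hwc : Continuous fun v => (z' v / z v).im :=
    Complex.continuous_im.comp (hz'c.div hzc hz0)
  obtain ⟨φ, hφd⟩ : ∃ φ : ℝ → ℝ, φ = fun v => ε * wind v z z' := ⟨_, rfl⟩
  have hφv : ∀ v, φ v = ε * wind v z z' := fun v => by rw [hφd]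
  have hφ : ∀ v, HasDerivAt φ (σ v * (e ⬝ᵥ m v) / normSq (z v)) v := by
    intro v
    rw [hφd]
    have a := ((hwc.integral_hasStrictDerivAt 0 v).hasDerivAt).const_mul ε
    refine a.congr_deriv ?_
    rw [cur_div_im, hzim]
    linear_combination (σ v * (e ⬝ᵥ m v) / normSq (z v)) * hε2
  have hφc : Continuous φ := continuous_iff_continuousAt.mpr fun v => (hφ v).continuousAt
  have hφm : StrictMono φ := by
    apply strictMono_of_deriv_pos
    intro v
    rw [(hφ v).deriv]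
    exact div_pos (mul_pos (hσp v) (hem v)) (Complex.normSq_pos.mpr (hz0 v))
  have hφ0 : φ 0 = 0 := by rw [hφv]; simp [wind]
  have hφp : ∀ v, φ (v + τ) = φ v + φ τ := by
    intro v
    have hper : Function.Periodic (fun v => (z' v / z v).im) τ := fun v => by
      simp only [hzv, hz'v, hp, hp']
    have a := hper.intervalIntegral_add_eq_add 0 v fun x y => hwc.intervalIntegrable x y
    rw [zero_add] at a
    simp only [hφv, wind]
    rw [a]; ring
  have hpol : ∀ x v, γ x ⬝ᵥ γ v - (e ⬝ᵥ γ x) * (e ⬝ᵥ γ v)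
        = ‖z x‖ * ‖z v‖ * Real.cos (φ v - φ x) ∧
      ε * (e ⬝ᵥ (γ x ⨯₃ γ v)) = ‖z x‖ * ‖z v‖ * Real.sin (φ v - φ x) := by
    intro x v
    have a := cur_polar hz hz'c hz0 x v
    have b := congrArg Complex.re a
    have c := congrArg Complex.im a
    rw [Complex.re_ofReal_mul, Complex.exp_ofReal_mul_I_re] at b
    rw [Complex.im_ofReal_mul, Complex.exp_ofReal_mul_I_im] at c
    have b' := (hP (γ x) (γ v)).1
    have c' := (hP (γ x) (γ v)).2
    rw [← hzv, ← hzv] at b' c'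
    rw [← b', ← c', b, c, hφv, hφv, ← mul_sub]
    rcases hε with h | h <;> rw [h]
    · simp
    · rw [neg_one_mul, neg_one_mul, Real.cos_neg, Real.sin_neg]
      exact ⟨rfl, by ring⟩
  -- exactly one turn
  have hone : φ τ = 2 * Real.pi := by
    obtain ⟨n, hn⟩ := wind_int (τ := τ) hz hz'c hz0 (by rw [hzv, hzv, ← hp 0, zero_add])
    obtain ⟨d, hd⟩ : ∃ d : ℤ, φ τ = 2 * Real.pi * d := by
      rcases hε with h | h
      · exact ⟨n, by rw [hφv, hn, h, one_mul]⟩
      · exact ⟨-n, by rw [hφv, hn, h]; push_cast; ring⟩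
    have hpos : 0 < φ τ := hφ0 ▸ hφm hτ
    have hd0 : 0 < d := by
      rw [hd] at hpos
      have : (0 : ℝ) < d := by
        by_contra hh
        nlinarith [Real.pi_pos]
      exact_mod_cast this
    by_contra hne
    have hd1 : d ≠ 1 := fun h => hne (by rw [hd, h]; simp)
    have hd2 : (2 : ℝ) ≤ d := by exact_mod_cast (by omega : (2 : ℤ) ≤ d)
    obtain ⟨v, w, hvw, hwv, e1, e2⟩ := cur_meet hτ hφc hφm (c := φ τ)
      (by rw [hd]; nlinarith [Real.pi_pos]) hφp (h := fun v => e ⬝ᵥ γ v)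
      (cur_cont_dot continuous_const hγc) (fun v => by simp only [hp])
    have a := (hpol v w).1
    rw [e1, add_sub_cancel_left, Real.cos_two_pi, mul_one] at a
    have n1 := hnsq (γ v)
    have n2 := hnsq (γ w)
    rw [← hzv, Complex.normSq_eq_norm_sq, hu] at n1 n2
    rw [e2] at n2 a
    have n3 : ‖z w‖ = ‖z v‖ := by
      have := n2.trans n1.symm
      exact (pow_left_inj₀ (norm_nonneg _) (norm_nonneg _) two_ne_zero).mp this
    rw [n3] at a
    have n4 : γ v ⬝ᵥ γ w = 1 := by nlinarith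
    have n5 : γ v - γ w = 0 := by
      apply dotProduct_self_eq_zero.mp
      rw [sub_dotProduct, dotProduct_sub, dotProduct_sub, hu, hu, dotProduct_comm (γ w), n4]
      ring
    obtain ⟨j, hj⟩ := hs v w (sub_eq_zero.mp n5)
    have j1 : (0 : ℝ) < j := by
      by_contra hh
      nlinarith
    have j2 : (j : ℝ) < 1 := by
      by_contra hh
      nlinarith
    have j3 : 0 < j := by exact_mod_cast j1
    have j4 : j < 1 := by exact_mod_cast j2
    omega
  -- the curve lies on one side of each tangent great circle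
  have hside : ∀ x, ∀ v ∈ Ioo x (x + τ), 0 < γ x ⬝ᵥ m v := by
    intro x v hv
    have a := cur_hill (x := x) (y := x + τ) (by linarith) hφc hφm (by rw [hφp, hone])
      (f := fun v => (γ x ⬝ᵥ m v) / (e ⬝ᵥ m v))
      (f' := fun v => k v * σ v * (‖z x‖ * ‖z v‖) / (e ⬝ᵥ m v) ^ 2 * Real.sin (φ v - φ x))
      (fun v => by
        have b := (cur_hasDerivAt_dot (hasDerivAt_const v (γ x)) (hm' v)).div
          (cur_hasDerivAt_dot (hasDerivAt_const v e) (hm' v)) (hem v).ne'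
        refine b.congr_deriv ?_
        have c := cur_binet (γ x) e (γ' v) (m v)
        rw [(hfr v).1, map_smul, dotProduct_smul, smul_eq_mul] at c
        have c' := (hpol x v).2
        simp only [zero_dotProduct, zero_add, dotProduct_smul, smul_eq_mul]
        rw [div_mul_eq_mul_div]
        congr 1
        linear_combination (-k v) * c + k v * σ v * c')
      (fun v => ⟨_, div_pos (mul_pos (mul_pos (hk v) (hσp v))
        (mul_pos (norm_pos_iff.mpr (hz0 x)) (norm_pos_iff.mpr (hz0 v))))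
        (pow_pos (hem v) 2), rfl⟩)
      (by simp only [(hfr x).2.1, zero_div]) (by simp only [hpm, (hfr x).2.1, zero_div]) v hv
    exact (div_pos_iff_of_pos_right (hem v)).mp a
  -- the flux
  have hI : ∀ c : V3, ∀ x, c ⬝ᵥ (∫ v in (0 : ℝ)..τ, σ v • γ v)
      = ∫ v in x..x + τ, k v * σ v * (c ⬝ᵥ m v) := by
    intro c x
    rw [cur_dot_integral c (F := fun v => σ v • γ v) (hσc.smul hγc)]
    have c1 : Continuous fun v => c ⬝ᵥ (σ v • γ v) :=
      cur_cont_dot continuous_const (hσc.smul hγc)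
    have c2 : Continuous fun v => k v * σ v * (c ⬝ᵥ m v) :=
      (hkc.mul hσc).mul (cur_cont_dot continuous_const hmc)
    have hper : Function.Periodic (fun v => c ⬝ᵥ (σ v • γ v)) τ := fun v => by
      simp only [hp, hpσ]
    have a := hper.intervalIntegral_add_eq 0 x
    rw [zero_add] at a
    rw [a]
    have b := intervalIntegral.integral_eq_sub_of_hasDerivAt (a := x) (b := x + τ)
      (f := fun t => ε * (c ⬝ᵥ (m t ⨯₃ γ t)))
      (f' := fun t => k t * σ t * (c ⬝ᵥ m t) - c ⬝ᵥ (σ t • γ t))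
      (fun t _ => by
        refine ((cur_hasDerivAt_det (c := c) (hm' t) (h1 t)).const_mul ε).congr_deriv ?_
        rw [← cross_anticomm (γ' t) (m t), ← cross_anticomm (γ t) (-k t • γ' t), map_smul, hm,
          (hfr t).1]
        simp only [dotProduct_neg, dotProduct_smul, smul_eq_mul]
        linear_combination (k t * σ t * (c ⬝ᵥ m t) - σ t * (c ⬝ᵥ γ t)) * hε2)
      ((c2.sub c1).intervalIntegrable _ _)
    rw [intervalIntegral.integral_sub (c2.intervalIntegrable _ _) (c1.intervalIntegrable _ _),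
      hp, hpm, sub_self] at b
    linarith
  have hpos : ∀ c : V3, ∀ x, (∀ v ∈ Ioo x (x + τ), 0 < c ⬝ᵥ m v) →
      0 < c ⬝ᵥ (∫ v in (0 : ℝ)..τ, σ v • γ v) := by
    intro c x hc
    rw [hI c x]
    exact intervalIntegral.intervalIntegral_pos_of_pos_on
      (((hkc.mul hσc).mul (cur_cont_dot continuous_const hmc)).intervalIntegrable _ _)
      (fun v hv => mul_pos (mul_pos (hk v) (hσp v)) (hc v hv)) (by linarith)
  have hmain : ∀ v, 0 < e ⬝ᵥ γ v := by
    intro x
    have a := hpos (γ x) x (hside x)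
    rw [cur_par he hfl] at a
    exact (mul_pos_iff_of_pos_left (hpos e 0 fun v _ => hem v)).mp a
  refine ⟨hmain, le_of_eq ?_⟩
  have hw := wind_eq_of_re (τ := τ) (H := fun v => P (-m v)) (H' := fun v => P (-(-k v • γ' v)))
    hz hz'c (fun v => P.hasFDerivAt.comp_hasDerivAt v (hm' v).neg)
    (P.continuous.comp (hkc.neg.smul hγ'c).neg) (by rw [hzv, hzv, ← hp 0, zero_add])
    (by simp only [← hpm 0, zero_add]) (fun v => by
      rw [mul_comm, hzv, (hP _ _).1, neg_dotProduct, dotProduct_comm (m v), (hfr v).2.1,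
        dotProduct_neg]
      have := mul_pos (hem v) (hmain v)
      linarith)
  rw [← hone, hφv, hw, wind, ← intervalIntegral.integral_const_mul]
  refine intervalIntegral.integral_congr fun v _ => ?_
  rw [cur_div_im, (hP _ _).2, hnsq, ← cross_anticomm]
  simp only [map_neg, map_smul, LinearMap.neg_apply, LinearMap.smul_apply, neg_neg, (hfr v).1,
    dotProduct_neg, neg_dotProduct, dotProduct_smul, smul_eq_mul, (hfr v).2.2]
  rw [← mul_div_assoc]
  congr 1
  · linear_combination (-(k v * σ v * (e ⬝ᵥ γ v))) * hε2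
  · ring

end Pool.Agent.Lib.MP_c7e804_gt
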