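import Pool.Agent.Lib.MP_c7e804_gt.H43Geo

/-!
Properties of the fundamental solution.
-/

namespace Pool.Agent.Lib.MP_c7e804_gt

open Matrix Set Complex
open scoped ContDiff ComplexConjugate

theorem fpr1_det_der (c : ℂ) (x : C3) (M : M2) :
    (c • (sg x * M)) 0 0 * M 1 1 + M 0 0 * (c • (sg x * M)) 1 1
      - ((c • (sg x * M)) 0 1 * M 1 0 + M 0 1 * (c • (sg x * M)) 1 0) = 0 := by
  simp [sg, Matrix.vecMul, dotProduct, Fin.sum_univ_two]
  ring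

theorem fpr1_adj_der (c : ℂ) (x : C3) (M N : M2) :
    (c • (sg x * M)).adjugate * N + M.adjugate * (c • (sg x * N)) = 0 := by
  ext i j
  fin_cases i <;> fin_cases j <;>
    simp [sg, Matrix.adjugate_fin_two, Matrix.vecMul, dotProduct, Fin.sum_univ_two] <;> ring

theorem fpr1_shift {a b : ℝ} {M Mu Mv : ℝ × ℝ → M2} (h : PDm a b M Mu Mv) (t : ℝ) :
    PDm a b (fun p => M (p.1, p.2 + t)) (fun p => Mu (p.1, p.2 + t))
      (fun p => Mv (p.1, p.2 + t)) := fun i j => (h i j).shift t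

theorem fpr1_const {a b : ℝ} {M Mu Mv : ℝ × ℝ → M2} (h : PDm a b M Mu Mv)
    (h1 : ∀ p ∈ strip a b, Mu p = 0) (h2 : ∀ p ∈ strip a b, Mv p = 0) {p r : ℝ × ℝ}
    (hp : p ∈ strip a b) (hr : r ∈ strip a b) : M p = M r := by
  ext i j
  exact (h i j).eq_of_zero (fun q hq => by simp [h1 q hq]) (fun q hq => by simp [h2 q hq])
    p hp r hr

namespace Cap
variable {ψ : ℝ × ℝ → V3} {a b τ θ : ℝ} (h : Cap ψ a b τ θ) {F G : ℂ → ℝ × ℝ → M2}
  (hF : Frame a b (Am ψ) F G) {p : ℝ × ℝ}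
include h hF

theorem det_F (κ : ℂ) (hp : p ∈ strip a b) : (F κ p).det = 1 := by
  have hP := hF.pdF κ
  have hd := ((hP 0 0).mul (hP 1 1)).sub ((hP 0 1).mul (hP 1 0))
  have hc := hd.eq_of_zero (fun q _ => fpr1_det_der (-κ) (ph ψ q) (F κ q))
    (fun q _ => fpr1_det_der (-(I * κ)) (ph ψ q) (F κ q)) p hp (b, 0) (h.mem_b 0)
  rw [Matrix.det_fin_two, hc, hF.baseF κ]
  simp

theorem adj_F (κ : ℂ) (hp : p ∈ strip a b) :
    (F κ p).adjugate * F κ p = 1 ∧ F κ p * (F κ p).adjugate = 1 := by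
  rw [Matrix.adjugate_mul, Matrix.mul_adjugate, h.det_F hF κ hp, one_smul]
  exact ⟨rfl, rfl⟩

theorem sol_F (κ : ℂ) (x : C2) : IsSol a b (Am ψ) κ (fun r => F κ r *ᵥ x) := by
  have _ := h.ann.hab
  refine ((hF.pdF κ).mulVec (PD.const x)).congr (fun _ _ => rfl) (fun q _ => ?_) (fun q _ => ?_)
  · simp only [Matrix.mulVec_zero, add_zero, Matrix.smul_mulVec, Matrix.mulVec_mulVec]
  · simp only [Matrix.mulVec_zero, add_zero, Matrix.smul_mulVec, Matrix.mulVec_mulVec]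

theorem F_ne (κ : ℂ) {x : C2} (hx : x ≠ 0) (hp : p ∈ strip a b) : F κ p *ᵥ x ≠ 0 := by
  intro h0
  apply hx
  have h1 : (F κ p).adjugate *ᵥ (F κ p *ᵥ x) = x := by
    rw [Matrix.mulVec_mulVec, (h.adj_F hF κ hp).1, Matrix.one_mulVec]
  rw [← h1, h0, Matrix.mulVec_zero]

theorem mono_F (κ : ℂ) (hp : p ∈ strip a b) : F κ (p.1, p.2 + τ) = F κ p * F κ (b, τ) := by
  have hP := hF.pdF κ
  have hd := hP.adj.mul (fpr1_shift hP τ)
  have hc := fpr1_const hd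
    (fun q hq => by
      rw [h.per_A hq]
      exact fpr1_adj_der (-κ) (ph ψ q) (F κ q) (F κ (q.1, q.2 + τ)))
    (fun q hq => by
      rw [h.per_A hq]
      exact fpr1_adj_der (-(I * κ)) (ph ψ q) (F κ q) (F κ (q.1, q.2 + τ))) hp (h.mem_b 0)
  simp only [hF.baseF κ, zero_add, Matrix.adjugate_one, one_mul] at hc
  rw [← hc, ← Matrix.mul_assoc, (h.adj_F hF κ hp).2, one_mul]

theorem floq_F {κ μ : ℂ} {x : C2} (hx : x ≠ 0) (he : F κ (b, τ) *ᵥ x = μ • x) :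
    Floq ψ a b τ κ μ (fun r => F κ r *ᵥ x) := by
  refine ⟨h.sol_F hF κ x, fun q hq => ?_, fun q hq => h.F_ne hF κ hx hq⟩
  rw [h.mono_F hF κ hq, ← Matrix.mulVec_mulVec, he, Matrix.mulVec_smul]

end Cap

end Pool.Agent.Lib.MP_c7e804_gt
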