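import Pool.Agent.Lib.MP_c7e804_gt.H43Int

/-!
Fourier estimate: high frequencies cannot satisfy the boundary condition.
-/

namespace Pool.Agent.Lib.MP_c7e804_gt

open Matrix Set Complex
open scoped ContDiff ComplexConjugate

/-- unnormalised Fourier coefficient -/
noncomputable def fouCo (τ : ℝ) (f : ℝ → ℂ) (n : ℤ) : ℂ :=
  ∫ v in (0 : ℝ)..τ, cexp (-(2 * Real.pi * I * n * v / τ)) * f v

theorem fou_parseval {τ : ℝ} (hτ : 0 < τ) {f : ℝ → ℂ} (hf : Continuous f) :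
    HasSum (fun n : ℤ => ‖fouCo τ f n‖ ^ 2) (τ * ∫ v in (0 : ℝ)..τ, ‖f v‖ ^ 2) := by
  have hL : MeasureTheory.MemLp f 2 (MeasureTheory.volume.restrict (Ioc (0 : ℝ) τ)) := by
    obtain ⟨M, hM⟩ := isCompact_Icc.exists_bound_of_continuousOn (hf.continuousOn (s := Icc 0 τ))
    refine MeasureTheory.MemLp.of_bound hf.aestronglyMeasurable M ?_
    filter_upwards [MeasureTheory.ae_restrict_mem measurableSet_Ioc] with x hx
    exact hM x (Ioc_subset_Icc_self hx)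
  have h := (hasSum_sq_fourierCoeffOn hτ hL).mul_left (τ ^ 2)
  have e1 : (fun n : ℤ => ‖fouCo τ f n‖ ^ 2) = fun n => τ ^ 2 * ‖fourierCoeffOn hτ f n‖ ^ 2 := by
    funext n
    rw [fourierCoeffOn_eq_integral]
    have : ∫ x in (0 : ℝ)..τ, fourier (-n) (x : AddCircle (τ - 0)) • f x = fouCo τ f n := by
      unfold fouCo
      congr 1
      funext x
      rw [fourier_coe_apply, smul_eq_mul]
      congr 2
      push_cast
      ring
    rw [this, norm_smul, Real.norm_eq_abs, mul_pow, sq_abs, sub_zero]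
    field_simp
  have e2 : τ * ∫ v in (0 : ℝ)..τ, ‖f v‖ ^ 2 =
      τ ^ 2 * (τ - 0)⁻¹ • ∫ v in (0 : ℝ)..τ, ‖f v‖ ^ 2 := by
    rw [smul_eq_mul, sub_zero]
    field_simp
  rw [e1, e2]
  exact h

theorem fou_im {τ : ℝ} {f : ℝ → ℂ} (hf : Continuous f) (n : ℤ) :
    fouCo τ (fun v => ((f v).im : ℂ)) n = (fouCo τ f n - conj (fouCo τ f (-n))) / (2 * I) := by
  unfold fouCo
  rw [← intervalIntegral.intervalIntegral_conj, ← intervalIntegral.integral_sub,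
    ← intervalIntegral.integral_div]
  · congr 1
    funext v
    beta_reduce
    rw [im_eq_sub_conj, map_mul, ← exp_conj]
    have : conj (-(2 * (Real.pi : ℂ) * I * ((-n : ℤ) : ℂ) * v / τ)) =
        -(2 * Real.pi * I * n * v / τ) := by
      simp only [map_neg, map_div₀, map_mul, conj_ofReal, conj_I, map_intCast, map_ofNat]
      push_cast
      ring
    rw [this]
    ring
  · exact Continuous.intervalIntegrable (by fun_prop) _ _
  · exact Continuous.intervalIntegrable (by fun_prop) _ _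

theorem fou_pd_exp (a b : ℝ) (c : ℂ) :
    PD a b (fun p => cexp (-(c * (p.1 + I * p.2)))) (fun p => -c * cexp (-(c * (p.1 + I * p.2))))
      (fun p => I * (-c * cexp (-(c * (p.1 + I * p.2))))) where
  cont := by fun_prop
  contu := by fun_prop
  contv := by fun_prop
  hu := by
    intro p _
    apply HasDerivAt.hasDerivWithinAt
    have h : HasDerivAt (fun x : ℝ => -(c * ((x : ℂ) + I * p.2))) (-(c * 1)) p.1 :=
      (((hasDerivAt_id p.1).ofReal_comp.add_const _).const_mul c).neg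
    exact h.cexp.congr_deriv (by ring)
  hv := by
    intro p _
    have h : HasDerivAt (fun y : ℝ => -(c * ((p.1 : ℂ) + I * y))) (-(c * (I * 1))) p.2 :=
      ((((hasDerivAt_id p.2).ofReal_comp.const_mul I).const_add _).const_mul c).neg
    exact h.cexp.congr_deriv (by ring)

section
variable {a b τ : ℝ} {T : ℝ × ℝ → ℂ}

theorem fou_split (τ : ℝ) (n : ℤ) (u v : ℝ) :
    cexp (-((2 * Real.pi * n / τ : ℂ) * (u + I * v))) =
      cexp (-((2 * Real.pi * n / τ : ℂ) * u)) * cexp (-(2 * Real.pi * I * n * v / τ)) := by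
  rw [← Complex.exp_add]
  congr 1
  ring

theorem fou_pd (hT : Hol a b τ T) (c : ℂ) :
    PD a b (fun p => cexp (-(c * (p.1 + I * p.2))) * T p)
      (fun p => cexp (-(c * (p.1 + I * p.2))) * (du T p - c * T p))
      (fun p => I * (cexp (-(c * (p.1 + I * p.2))) * (du T p - c * T p))) :=
  ((fou_pd_exp a b c).mul hT.pd).congr (fun _ _ => rfl) (fun _ _ => by ring) (fun _ _ => by ring)

theorem fou_per (hτ : 0 < τ) (hT : Hol a b τ T) (n : ℤ) (p : ℝ × ℝ) (hp : p ∈ strip a b) :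
    cexp (-((2 * Real.pi * n / τ : ℂ) * (p.1 + I * (p.2 + τ : ℝ)))) * T (p.1, p.2 + τ) =
      cexp (-((2 * Real.pi * n / τ : ℂ) * (p.1 + I * p.2))) * T p := by
  rw [hT.per p hp]
  congr 1
  have h0 : (τ : ℂ) ≠ 0 := by exact_mod_cast hτ.ne'
  rw [Complex.exp_eq_exp_iff_exists_int]
  refine ⟨-n, ?_⟩
  push_cast
  field_simp
  ring

theorem fou_shift (hτ : 0 < τ) (hT : Hol a b τ T) (n : ℤ) {u u' : ℝ} (hu : u ∈ Icc a b)
    (hu' : u' ∈ Icc a b) : fouCo τ (fun v => T (u, v)) n =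
      (Real.exp (2 * Real.pi / τ * n * (u - u')) : ℝ) * fouCo τ (fun v => T (u', v)) n := by
  have h := period_const (fou_pd hT (2 * Real.pi * n / τ)) (fun p hp => fou_per hτ hT n p hp) hu hu'
  simp only [fou_split, mul_assoc (cexp _), intervalIntegral.integral_const_mul] at h
  have e : ((Real.exp (2 * Real.pi / τ * n * (u - u')) : ℝ) : ℂ) =
      (cexp (-((2 * Real.pi * n / τ : ℂ) * u)))⁻¹ * cexp (-((2 * Real.pi * n / τ : ℂ) * u')) := by
    rw [← Complex.exp_neg, ← Complex.exp_add]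
    push_cast
    congr 1
    ring
  rw [e, mul_assoc]
  unfold fouCo
  rw [← h, ← mul_assoc, inv_mul_cancel₀ (Complex.exp_ne_zero _), one_mul]

theorem fou_du (hab : a < b) (hτ : 0 < τ) (hT : Hol a b τ T) (n : ℤ) {u : ℝ} (hu : u ∈ Icc a b) :
    fouCo τ (fun v => du T (u, v)) n =
      ((2 * Real.pi / τ * n : ℝ) : ℂ) * fouCo τ (fun v => T (u, v)) n := by
  have h := (fou_pd hT (2 * Real.pi * n / τ)).int_v hu 0 τ
  have h2 := fou_per hτ hT n (u, 0) hu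
  simp only [zero_add] at h2
  rw [h2, sub_self] at h
  simp only [fou_split, mul_assoc (cexp _), intervalIntegral.integral_const_mul, mul_eq_zero,
    I_ne_zero, Complex.exp_ne_zero, false_or] at h
  have c1 := cont_line_v hT.pd.cont hu
  have c2 := cont_line_v (hT.du hab).pd.cont hu
  simp only [mul_sub] at h
  have ce : Continuous fun v : ℝ => cexp (-(2 * Real.pi * I * n * v / τ)) := by fun_prop
  rw [intervalIntegral.integral_sub ((ce.fun_mul c2).intervalIntegrable _ _)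
    ((ce.fun_mul (continuous_const.fun_mul c1)).intervalIntegrable _ _), sub_eq_zero] at h
  unfold fouCo
  rw [h, ← intervalIntegral.integral_const_mul]
  congr 1
  funext v
  push_cast
  ring

theorem fou_line' (hτ : 0 < τ) {f0 f1 f2 : ℝ → ℂ} (c0 : Continuous f0) (c1 : Continuous f1)
    (c2 : Continuous f2) {l C : ℝ} (h1 : ∀ n : ℤ, fouCo τ f1 n = ((l * n : ℝ) : ℂ) * fouCo τ f0 n)
    (h2 : ∀ n : ℤ, fouCo τ f2 n = ((l * n : ℝ) : ℂ) * fouCo τ f1 n)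
    (h : ∀ v, |(f2 v).im| ≤ C * (‖f1 v‖ + ‖f0 v‖)) :
    ∃ L R : ℝ, L ≤ R ∧
      HasSum (fun n : ℤ => (l * n) ^ 4 / 4 * ‖fouCo τ f0 n - conj (fouCo τ f0 (-n))‖ ^ 2) L ∧
      HasSum (fun n : ℤ => 2 * C ^ 2 * ((l * n) ^ 2 + 1) * ‖fouCo τ f0 n‖ ^ 2) R := by
  have p0 := fou_parseval hτ c0
  have p1 := fou_parseval hτ c1
  have p2 := fou_parseval hτ (f := fun v => (((f2 v).im : ℝ) : ℂ)) (by fun_prop)
  refine ⟨τ * ∫ v in (0 : ℝ)..τ, ‖(((f2 v).im : ℝ) : ℂ)‖ ^ 2,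
    2 * C ^ 2 * ((τ * ∫ v in (0 : ℝ)..τ, ‖f1 v‖ ^ 2) +
      τ * ∫ v in (0 : ℝ)..τ, ‖f0 v‖ ^ 2), ?_, ?_, ?_⟩
  · rw [← mul_add, ← intervalIntegral.integral_add (Continuous.intervalIntegrable (by fun_prop) _ _)
      (Continuous.intervalIntegrable (by fun_prop) _ _), mul_left_comm,
      ← intervalIntegral.integral_const_mul (2 * C ^ 2)]
    refine mul_le_mul_of_nonneg_left ?_ hτ.le
    refine intervalIntegral.integral_mono_on hτ.le (Continuous.intervalIntegrable (by fun_prop) _ _)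
      (Continuous.intervalIntegrable (by fun_prop) _ _) fun v _ => ?_
    rw [Complex.norm_real, Real.norm_eq_abs]
    have h1 := pow_le_pow_left₀ (abs_nonneg _) (h v) 2
    nlinarith [mul_nonneg (sq_nonneg C) (sq_nonneg (‖f1 v‖ - ‖f0 v‖))]
  · refine p2.congr_fun fun n => ?_
    rw [fou_im c2, h2, h2, h1, h1]
    have : ((l * n : ℝ) : ℂ) * (((l * n : ℝ) : ℂ) * fouCo τ f0 n) -
        conj (((l * (-n : ℤ) : ℝ) : ℂ) * (((l * (-n : ℤ) : ℝ) : ℂ) * fouCo τ f0 (-n))) =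
        (((l * n) ^ 2 : ℝ) : ℂ) * (fouCo τ f0 n - conj (fouCo τ f0 (-n))) := by
      simp only [map_mul, conj_ofReal]
      push_cast
      ring
    rw [this, norm_div, norm_mul, norm_mul, Complex.norm_real, Complex.norm_I, Real.norm_eq_abs,
      abs_of_nonneg (sq_nonneg _), Complex.norm_ofNat]
    ring
  · refine ((p1.add p0).mul_left (2 * C ^ 2)).congr_fun fun n => ?_
    rw [h1, norm_mul, Complex.norm_real, Real.norm_eq_abs, mul_pow |l * n|, sq_abs]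
    ring

theorem fou_real1 {d P B : ℝ} (h0 : 0 ≤ d) (h1 : d ≤ 1 / 2) :
    (d * P) ^ 2 + B ^ 2 + P ^ 2 + (d * B) ^ 2 ≤ 8 * ((d * P - B) ^ 2 + (P - d * B) ^ 2) := by
  have h2 : 0 ≤ d * (P - B) ^ 2 := by positivity
  have h3 : 0 ≤ (7 * d ^ 2 - 16 * d + 7) * (P ^ 2 + B ^ 2) :=
    mul_nonneg (by nlinarith) (by positivity)
  nlinarith

theorem fou_real2 {E A B : ℝ} (h0 : 0 < E) (h : 2 ≤ E ∨ 2 ≤ E⁻¹) :
    A ^ 2 + B ^ 2 + (E * A) ^ 2 + (E⁻¹ * B) ^ 2 ≤ 8 * ((A - B) ^ 2 + (E * A - E⁻¹ * B) ^ 2) := by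
  rcases h with h | h
  · have := fou_real1 (d := E⁻¹) (P := E * A) (B := B) (by positivity)
      (by rw [inv_eq_one_div]; exact one_div_le_one_div_of_le (by norm_num) h)
    rwa [inv_mul_cancel_left₀ h0.ne'] at this
  · have := fou_real1 (d := E) (P := E⁻¹ * B) (B := A) h0.le
      (by rw [le_inv_comm₀ (by norm_num) h0] at h; linarith)
    rw [mul_inv_cancel_left₀ h0.ne'] at this
    nlinarith

theorem fou_term {E k C : ℝ} (h0 : 0 < E) (h : 2 ≤ E ∨ 2 ≤ E⁻¹) (hk : 64 * C ^ 2 + 16 ≤ k ^ 2)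
    (x y : ℂ) :
    ‖x‖ ^ 2 + 2 * C ^ 2 * (k ^ 2 + 1) *
      (‖x‖ ^ 2 + ‖y‖ ^ 2 + ‖(E : ℂ) * x‖ ^ 2 + ‖((E⁻¹ : ℝ) : ℂ) * y‖ ^ 2) ≤
      2 * (k ^ 4 / 4 * ‖x - conj y‖ ^ 2 +
        k ^ 4 / 4 * ‖(E : ℂ) * x - conj (((E⁻¹ : ℝ) : ℂ) * y)‖ ^ 2) := by
  have key : ∀ z w : ℂ, (‖z‖ - ‖w‖) ^ 2 ≤ ‖z - conj w‖ ^ 2 := by
    intro z w
    have := abs_norm_sub_norm_le z (conj w)
    rw [Complex.norm_conj] at this
    rw [← sq_abs]
    exact pow_le_pow_left₀ (abs_nonneg _) this 2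
  have k1 := key x y
  have k2 := key ((E : ℂ) * x) (((E⁻¹ : ℝ) : ℂ) * y)
  have n1 : ‖(E : ℂ) * x‖ = E * ‖x‖ := by
    rw [norm_mul, Complex.norm_real, Real.norm_eq_abs, abs_of_pos h0]
  have n2 : ‖((E⁻¹ : ℝ) : ℂ) * y‖ = E⁻¹ * ‖y‖ := by
    rw [norm_mul, Complex.norm_real, Real.norm_eq_abs, abs_of_pos (inv_pos.2 h0)]
  have k3 := fou_real2 (A := ‖x‖) (B := ‖y‖) h0 h
  rw [← n1, ← n2] at k3
  generalize ‖(E : ℂ) * x - conj (((E⁻¹ : ℝ) : ℂ) * y)‖ ^ 2 = Q2 at *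
  generalize ‖x - conj y‖ ^ 2 = Q1 at *
  have hS : ‖x‖ ^ 2 ≤ ‖x‖ ^ 2 + ‖y‖ ^ 2 + ‖(E : ℂ) * x‖ ^ 2 + ‖((E⁻¹ : ℝ) : ℂ) * y‖ ^ 2 := by
    have := sq_nonneg ‖y‖
    have := sq_nonneg ‖(E : ℂ) * x‖
    have := sq_nonneg ‖((E⁻¹ : ℝ) : ℂ) * y‖
    linarith
  have hS0 : 0 ≤ ‖x‖ ^ 2 := sq_nonneg _
  generalize ‖x‖ ^ 2 + ‖y‖ ^ 2 + ‖(E : ℂ) * x‖ ^ 2 + ‖((E⁻¹ : ℝ) : ℂ) * y‖ ^ 2 = S at *
  have hSQ : S ≤ 8 * (Q1 + Q2) := by linarith
  have hC := sq_nonneg C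
  have h4 : 16 * (2 * C ^ 2 * (k ^ 2 + 1) + 1) ≤ k ^ 4 := by nlinarith
  have h5 : k ^ 4 * S ≤ k ^ 4 * (8 * (Q1 + Q2)) := mul_le_mul_of_nonneg_left hSQ (by positivity)
  have h6 := mul_le_mul_of_nonneg_right h4 (hS0.trans hS)
  nlinarith

theorem fou_zero (hτ : 0 < τ) {f : ℝ → ℂ} (hf : Continuous f) (hp : ∀ v, f (v + τ) = f v)
    (h : ∀ n, fouCo τ f n = 0) (v : ℝ) : f v = 0 := by
  have p0 := fou_parseval hτ hf
  simp only [h, norm_zero] at p0
  have h1 : τ * ∫ v in (0 : ℝ)..τ, ‖f v‖ ^ 2 = 0 := by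
    refine p0.unique ?_
    simp
  have h2 : ∫ v in (0 : ℝ)..τ, ‖f v‖ ^ 2 = 0 := (mul_eq_zero.1 h1).resolve_left hτ.ne'
  have hper : Function.Periodic (fun v => ‖f v‖ ^ 2) τ := fun x => by simp only [hp]
  have h3 := hper.intervalIntegral_add_eq v 0
  rw [zero_add, h2] at h3
  by_contra hv
  have h4 := intervalIntegral.integral_lt_integral_of_continuousOn_of_le_of_exists_lt
    (f := fun _ => (0 : ℝ)) (g := fun v => ‖f v‖ ^ 2) (a := v) (b := v + τ) (by linarith)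
    continuousOn_const (by fun_prop) (fun _ _ => sq_nonneg _)
    ⟨v, ⟨le_rfl, by linarith⟩, by positivity⟩
  rw [h3] at h4
  simp at h4

end

theorem fourier_unique {a b τ : ℝ} (hab : a < b) (hτ : 0 < τ) (C : ℝ) : ∃ n₀ : ℕ,
    ∀ T : ℝ × ℝ → ℂ, Hol a b τ T →
      (∀ u, u = a ∨ u = b → ∀ v,
        |(du (du T) (u, v)).im| ≤ C * (‖du T (u, v)‖ + ‖T (u, v)‖)) →
      (∀ n : ℤ, |n| ≤ n₀ →
        ∫ v in (0 : ℝ)..τ, cexp (-(2 * Real.pi * I * n * v / τ)) * T (a, v) = 0) →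
      ∀ p ∈ strip a b, T p = 0 := by
  obtain ⟨l, hl⟩ : ∃ l, l = 2 * Real.pi / τ := ⟨_, rfl⟩
  have hl0 : 0 < l := by rw [hl]; have := Real.pi_pos; positivity
  have hba : 0 < b - a := sub_pos.2 hab
  obtain ⟨n₀, hn₀⟩ := exists_nat_ge (max (1 / (l * (b - a))) ((64 * C ^ 2 + 16) / l))
  refine ⟨n₀, fun T hT hbd hlow => ?_⟩
  have ha : a ∈ Icc a b := left_mem_Icc.2 hab.le
  have hb : b ∈ Icc a b := right_mem_Icc.2 hab.le
  have line : ∀ u (hu : u ∈ Icc a b), (∀ v,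
      |(du (du T) (u, v)).im| ≤ C * (‖du T (u, v)‖ + ‖T (u, v)‖)) → _ := fun u hu h =>
    fou_line' hτ (cont_line_v hT.pd.cont hu) (cont_line_v (hT.du hab).pd.cont hu)
      (cont_line_v ((hT.du hab).du hab).pd.cont hu) (fun n => fou_du hab hτ hT n hu)
      (fun n => fou_du hab hτ (hT.du hab) n hu) h
  obtain ⟨La, Ra, hLa, sLa, sRa⟩ := line a ha (hbd a (Or.inl rfl))
  obtain ⟨Lb, Rb, hLb, sLb, sRb⟩ := line b hb (hbd b (Or.inr rfl))
  have hs := fun n => fou_shift hτ hT n hb ha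
  rw [← hl] at sLa sRa sLb sRb hs
  have hlow' : ∀ n : ℤ, |n| ≤ n₀ → fouCo τ (fun v => T (a, v)) n = 0 := hlow
  generalize hx : fouCo τ (fun v => T (a, v)) = x at *
  generalize fouCo τ (fun v => T (b, v)) = y at *
  have sRa' := (Equiv.neg ℤ).hasSum_iff.2 sRa
  have sRb' := (Equiv.neg ℤ).hasSum_iff.2 sRb
  have tot := ((sLa.add sLb).mul_left 2).sub (((sRa.add sRa').add sRb).add sRb')
  have term : ∀ n : ℤ, ‖x n‖ ^ 2 ≤
      2 * ((l * n) ^ 4 / 4 * ‖x n - conj (x (-n))‖ ^ 2 +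
        (l * n) ^ 4 / 4 * ‖y n - conj (y (-n))‖ ^ 2) -
      (2 * C ^ 2 * ((l * n) ^ 2 + 1) * ‖x n‖ ^ 2 +
        2 * C ^ 2 * ((l * (-n : ℤ)) ^ 2 + 1) * ‖x (-n)‖ ^ 2 +
        2 * C ^ 2 * ((l * n) ^ 2 + 1) * ‖y n‖ ^ 2 +
        2 * C ^ 2 * ((l * (-n : ℤ)) ^ 2 + 1) * ‖y (-n)‖ ^ 2) := by
    intro n
    by_cases hn : |n| ≤ n₀
    · rw [hs n, hs (-n), hlow' n hn, hlow' (-n) (by rwa [abs_neg])]
      simp
    · have hn' : (n₀ : ℝ) ≤ |(n : ℝ)| := by exact_mod_cast (not_le.1 hn).le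
      have g1 : 1 ≤ l * (b - a) * |(n : ℝ)| := by
        have := ((le_max_left _ _).trans hn₀).trans hn'
        rwa [div_le_iff₀ (by positivity), mul_comm] at this
      have g2 : 64 * C ^ 2 + 16 ≤ l * |(n : ℝ)| := by
        have := ((le_max_right _ _).trans hn₀).trans hn'
        rwa [div_le_iff₀ hl0, mul_comm _ l] at this
      have g3 : 64 * C ^ 2 + 16 ≤ (l * n) ^ 2 := by
        rw [mul_pow, ← sq_abs (n : ℝ), ← mul_pow]
        nlinarith [sq_nonneg C]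
      have e1 : Real.exp (l * ((-n : ℤ) : ℝ) * (b - a)) = (Real.exp (l * n * (b - a)))⁻¹ := by
        rw [← Real.exp_neg]
        push_cast
        ring_nf
      have g4 : 2 ≤ Real.exp (l * n * (b - a)) ∨ 2 ≤ (Real.exp (l * n * (b - a)))⁻¹ := by
        rcases abs_cases (n : ℝ) with h | h
        · left
          have := Real.add_one_le_exp (l * n * (b - a))
          rw [h.1] at g1
          linarith
        · right
          rw [← Real.exp_neg]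
          have := Real.add_one_le_exp (-(l * n * (b - a)))
          rw [h.1] at g1
          linarith
      have := fou_term (Real.exp_pos _) g4 g3 (x n) (x (-n))
      rw [hs n, hs (-n), e1]
      have e2 : (l * ((-n : ℤ) : ℝ)) ^ 2 = (l * n) ^ 2 := by push_cast; ring
      rw [e2]
      linarith
  have hx0 : ∀ n, x n = 0 := by
    intro n
    have h1 := le_hasSum tot n (fun m _ => (sq_nonneg _).trans (term m))
    have h2 : ‖x n‖ ^ 2 ≤ 0 := ((term n).trans h1).trans (by linarith)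
    have h3 : ‖x n‖ = 0 := pow_eq_zero_iff (two_ne_zero) |>.1 (le_antisymm h2 (sq_nonneg _))
    exact norm_eq_zero.1 h3
  intro p hp
  refine fou_zero hτ (cont_line_v hT.pd.cont (u := p.1) hp) (fun v => hT.per (p.1, v) hp)
    (fun n => ?_) p.2
  rw [fou_shift hτ hT n (u := p.1) hp ha, hx, hx0, mul_zero]

end Pool.Agent.Lib.MP_c7e804_gt
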