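import Pool.Agent.Lib.MP_c7e804_gt.H43Int

/-!
Mercator coordinates of the Gauss map: definitions.
-/

namespace Pool.Agent.Lib.MP_c7e804_gt

open Matrix Set Complex
open scoped ContDiff ComplexConjugate

/-- a conformal map `x + i y` with derivative `r + i s`, `r > 0`, and period `i Pd` -/
structure Merc (a b τ Pd : ℝ) (x y r s : ℝ × ℝ → ℝ) : Prop where
  hab : a < b
  hτ : 0 < τ
  pdx : PD a b x r (fun p => -s p)
  pdy : PD a b y s r
  rpos : ∀ p ∈ strip a b, 0 < r p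
  perx : ∀ p ∈ strip a b, x (p.1, p.2 + τ) = x p
  pery : ∀ p ∈ strip a b, y (p.1, p.2 + τ) = y p + Pd
  perr : ∀ p ∈ strip a b, r (p.1, p.2 + τ) = r p
  pers : ∀ p ∈ strip a b, s (p.1, p.2 + τ) = s p
  Pd_pos : 0 < Pd

open Classical in
/-- transplantation of `f` by the map `(x, y)`, extended by zero -/
noncomputable def Tr (a b : ℝ) (x y f : ℝ × ℝ → ℝ) (w : ℝ × ℝ) : ℝ :=
  if h : ∃ p, p ∈ strip a b ∧ (x p, y p) = w then f h.choose else 0

end Pool.Agent.Lib.MP_c7e804_gt
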