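import Pool.Agent.Lib.MP_c7e804_gt.H43Geo
import Pool.Agent.Lib.MP_c7e804_gt.H43MercDefs

/-!
Mercator coordinates of the Gauss map: existence.
-/

namespace Pool.Agent.Lib.MP_c7e804_gt

open Matrix Set Complex
open scoped ContDiff ComplexConjugate

theorem merc_comp {a b : ℝ} {f fu fv : ℝ × ℝ → ℝ} (h : PD a b f fu fv) {G G' : ℝ → ℝ}
    {S : Set ℝ} (hS : ∀ p ∈ strip a b, f p ∈ S) (hG : ∀ t ∈ S, HasDerivAt G (G' t) t)
    (hG' : ContinuousOn G' S) :
    PD a b (fun p => G (f p)) (fun p => G' (f p) * fu p) (fun p => G' (f p) * fv p) := by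
  have hc : ContinuousOn G S := fun t ht => (hG t ht).continuousAt.continuousWithinAt
  have hc' : ContinuousOn (fun p => G' (f p)) (strip a b) := hG'.comp h.cont hS
  refine ⟨hc.comp h.cont hS, hc'.mul h.contu, hc'.mul h.contv, fun p hp => ?_, fun p hp => ?_⟩
  · exact (hG (f p) (hS p hp)).comp_hasDerivWithinAt p.1 (h.hu p hp)
  · exact (hG (f p) (hS p hp)).comp p.2 (h.hv p hp)

theorem merc_artanh {t : ℝ} (ht : t ∈ Ioo (-1 : ℝ) 1) :
    HasDerivAt Real.artanh (1 / (1 - t ^ 2)) t := by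
  have h1 : 0 < 1 + t := by linarith [ht.1]
  have h2 : 0 < 1 - t := by linarith [ht.2]
  have e : Real.artanh =ᶠ[nhds t] fun s => 1 / 2 * (Real.log (1 + s) - Real.log (1 - s)) := by
    filter_upwards [Ioo_mem_nhds ht.1 ht.2] with s hs
    have h3 : 0 < 1 + s := by linarith [hs.1]
    have h4 : 0 < 1 - s := by linarith [hs.2]
    rw [Real.artanh_eq_half_log ⟨hs.1.le, hs.2.le⟩, Real.log_div h3.ne' h4.ne']
  have d1 : HasDerivAt (fun s : ℝ => Real.log (1 + s)) (1 / (1 + t)) t :=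
    ((hasDerivAt_id t).const_add 1).log h1.ne'
  have d2 : HasDerivAt (fun s : ℝ => Real.log (1 - s)) (-1 / (1 - t)) t :=
    ((hasDerivAt_id t).const_sub 1).log h2.ne'
  have d3 := ((d1.sub d2).const_mul (1 / 2)).congr_of_eventuallyEq e
  refine d3.congr_deriv ?_
  have h5 : 1 - t ^ 2 = (1 + t) * (1 - t) := by ring
  rw [h5]
  field_simp
  ring

theorem merc_rdot {a b : ℝ} {x xu xv : ℝ × ℝ → V3} (e : V3) (h : PD a b x xu xv) :
    PD a b (fun p => e ⬝ᵥ x p) (fun p => e ⬝ᵥ xu p) (fun p => e ⬝ᵥ xv p) := by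
  have h0 := (PD.const (a := a) (b := b) (e 0)).rmul (PD.pi.1 h 0)
  have h1 := (PD.const (a := a) (b := b) (e 1)).rmul (PD.pi.1 h 1)
  have h2 := (PD.const (a := a) (b := b) (e 2)).rmul (PD.pi.1 h 2)
  refine ((h0.add h1).add h2).congr (fun p _ => ?_) (fun p _ => ?_) (fun p _ => ?_) <;>
    simp [dotProduct, Fin.sum_univ_three]

theorem merc_frame {A B N e : V3} {E : ℝ} (h : Fr A B N E) (he : e ⬝ᵥ e = 1) :
    (e ⬝ᵥ A) ^ 2 + (e ⬝ᵥ B) ^ 2 = E * (1 - (e ⬝ᵥ N) ^ 2) := by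
  have hE := h.pos.ne'
  have e1 := congrArg (fun x => e ⬝ᵥ x) (h.decomp e)
  simp only [dotProduct_add, dotProduct_smul, smul_eq_mul] at e1
  rw [he] at e1
  field_simp at e1
  linarith

/-- the holomorphic function `e · φ` -/
noncomputable def mercF (ψ : ℝ × ℝ → V3) (e : V3) (p : ℝ × ℝ) : ℂ :=
  ∑ i ∈ (Finset.univ : Finset (Fin 3)), (e i : ℂ) * ph ψ p i

theorem mercF_eq (ψ : ℝ × ℝ → V3) (e : V3) (p : ℝ × ℝ) :
    mercF ψ e p = (((e ⬝ᵥ du ψ p : ℝ) : ℂ) - I * ((e ⬝ᵥ dv ψ p : ℝ) : ℂ)) / 2 := by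
  simp only [mercF, ph, dotProduct, Fin.sum_univ_three]
  push_cast
  ring

theorem Cap.merc_hol {ψ : ℝ × ℝ → V3} {a b τ θ : ℝ} (h : Cap ψ a b τ θ) (e : V3) :
    Hol a b τ (mercF ψ e) :=
  Hol.sum Finset.univ (f := fun i p => (e i : ℂ) * ph ψ p i)
    fun i _ => (h.hol_ph i).const_mul (e i : ℂ)

theorem Cap.merc_neg {ψ : ℝ × ℝ → V3} {a b τ θ : ℝ} (h : Cap ψ a b τ θ) {e : V3}
    (ha : ∀ v, e ⬝ᵥ du ψ (a, v) < 0) (hb : ∀ v, e ⬝ᵥ du ψ (b, v) < 0) :
    ∀ p ∈ strip a b, e ⬝ᵥ du ψ p < 0 := by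
  have hab := h.ann.hab
  have hτ := h.ann.hτ
  have hF := h.merc_hol e
  have hF1 := hF.du hab
  have hre : ∀ p, (mercF ψ e p).re = (e ⬝ᵥ du ψ p) / 2 := fun p => by
    rw [mercF_eq]; simp
  have hcont : ContinuousOn (fun p => -(mercF ψ e p).re) (strip a b) := hF.pd.re.neg.cont
  have hper : ∀ p ∈ strip a b, -(mercF ψ e (p.1, p.2 + τ)).re = -(mercF ψ e p).re :=
    fun p hp => by rw [hF.per p hp]
  obtain ⟨c1, hc1, h1⟩ := lower_of_per hτ (f := fun v => -(mercF ψ e (a, v)).re)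
    (cont_line_v hcont ⟨le_rfl, hab.le⟩) (fun v => hper (a, v) (h.mem_a v))
    (fun v => by rw [hre]; linarith [ha v])
  obtain ⟨c2, hc2, h2⟩ := lower_of_per hτ (f := fun v => -(mercF ψ e (b, v)).re)
    (cont_line_v hcont ⟨hab.le, le_rfl⟩) (fun v => hper (b, v) (h.mem_b v))
    (fun v => by rw [hre]; linarith [hb v])
  have g0 := hF.pd.re.neg.sub (PD.const (a := a) (b := b) (min c1 c2))
  have g1 := hF1.pd.re.neg.sub (PD.const (a := a) (b := b) (0 : ℝ))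
  have g2 := (hF1.pd.const_mul I).re.neg.sub (PD.const (a := a) (b := b) (0 : ℝ))
  have key := min_principle hτ g0 g1 g2 (fun p hp => by simp only [hper p hp])
    (fun p _ => by simp [← mul_assoc])
    (fun v => by linarith [h1 v, min_le_left c1 c2])
    (fun v => by linarith [h2 v, min_le_right c1 c2])
  intro p hp
  have h3 := key p hp
  have h4 : 0 < min c1 c2 := lt_min hc1 hc2
  simp only [hre] at h3
  linarith

theorem merc_re {q A B : ℝ} (hA : A < 0) :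
    (-(q : ℂ) * (((A : ℂ) - I * (B : ℂ)) / 2)⁻¹).re = -(2 * q * A) / (A ^ 2 + B ^ 2) := by
  have h0 : 0 < A ^ 2 + B ^ 2 := by nlinarith [sq_nonneg B, mul_pos_of_neg_of_neg hA hA]
  have h1 : -(q : ℂ) * (((A : ℂ) - I * (B : ℂ)) / 2)⁻¹ =
      ((-(2 * q * A) / (A ^ 2 + B ^ 2) : ℝ) : ℂ) + ((-(2 * q * B) / (A ^ 2 + B ^ 2) : ℝ) : ℂ) * I := by
    have h2 : ((A : ℂ) ^ 2 + (B : ℂ) ^ 2) ≠ 0 := by exact_mod_cast h0.ne'
    have h3 : (A : ℂ) - I * (B : ℂ) ≠ 0 := by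
      intro h4
      have := congrArg Complex.re h4
      simp at this
      exact hA.ne this
    push_cast
    field_simp
    linear_combination (-(q : ℂ) * (B : ℂ) ^ 2) * Complex.I_sq
  rw [h1]
  simp only [add_re, ofReal_re, mul_re, I_re, mul_zero, ofReal_im, I_im, mul_one, sub_self,
    add_zero]

theorem merc_im {q A B : ℝ} (hA : A < 0) :
    (-(q : ℂ) * (((A : ℂ) - I * (B : ℂ)) / 2)⁻¹).im = -(2 * q * B) / (A ^ 2 + B ^ 2) := by
  have h0 : 0 < A ^ 2 + B ^ 2 := by nlinarith [sq_nonneg B, mul_pos_of_neg_of_neg hA hA]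
  have h1 : -(q : ℂ) * (((A : ℂ) - I * (B : ℂ)) / 2)⁻¹ =
      ((-(2 * q * A) / (A ^ 2 + B ^ 2) : ℝ) : ℂ) + ((-(2 * q * B) / (A ^ 2 + B ^ 2) : ℝ) : ℂ) * I := by
    have h2 : ((A : ℂ) ^ 2 + (B : ℂ) ^ 2) ≠ 0 := by exact_mod_cast h0.ne'
    have h3 : (A : ℂ) - I * (B : ℂ) ≠ 0 := by
      intro h4
      have := congrArg Complex.re h4
      simp at this
      exact hA.ne this
    push_cast
    field_simp
    linear_combination (-(q : ℂ) * (B : ℂ) ^ 2) * Complex.I_sq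
  rw [h1]
  simp only [add_im, ofReal_re, mul_im, I_re, mul_zero, ofReal_im, I_im, mul_one, zero_add,
    add_zero]

theorem Cap.exists_merc {ψ : ℝ × ℝ → V3} {a b τ θ : ℝ} (h : Cap ψ a b τ θ) {e : V3}
    (he : e ⬝ᵥ e = 1) (ha : ∀ v, e ⬝ᵥ du ψ (a, v) < 0) (hb : ∀ v, e ⬝ᵥ du ψ (b, v) < 0) :
    ∃ x y r s : ℝ × ℝ → ℝ,
      Merc a b τ (∫ v in (0 : ℝ)..τ, -(2 * hq ψ b / confE ψ (b, v)) * (e ⬝ᵥ du ψ (b, v))
        / (1 - (e ⬝ᵥ normal ψ (b, v)) ^ 2)) x y r s ∧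
      ∀ p ∈ strip a b, e ⬝ᵥ normal ψ p = Real.tanh (x p) ∧
        (2 * hq ψ b) ^ 2 / confE ψ p = (r p ^ 2 + s p ^ 2) / Real.cosh (x p) ^ 2 := by
  have hab := h.ann.hab
  have hτ := h.ann.hτ
  have hq0 := h.q_pos
  have hF := h.merc_hol e
  have hA := h.merc_neg ha hb
  have hE : ∀ p ∈ strip a b, 0 < confE ψ p := h.ann.immersion
  have hfr : ∀ p ∈ strip a b, (e ⬝ᵥ du ψ p) ^ 2 + (e ⬝ᵥ dv ψ p) ^ 2 =
      confE ψ p * (1 - (e ⬝ᵥ normal ψ p) ^ 2) := fun p hp => merc_frame (h.ann.fr hp) he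
  have hn : ∀ p ∈ strip a b, 0 < 1 - (e ⬝ᵥ normal ψ p) ^ 2 := fun p hp => by
    have h1 : 0 < confE ψ p * (1 - (e ⬝ᵥ normal ψ p) ^ 2) := by
      rw [← hfr p hp]
      nlinarith [sq_nonneg (e ⬝ᵥ dv ψ p), mul_pos_of_neg_of_neg (hA p hp) (hA p hp)]
    exact (pos_iff_pos_of_mul_pos h1).1 (hE p hp)
  have hS : ∀ p ∈ strip a b, e ⬝ᵥ normal ψ p ∈ Ioo (-1 : ℝ) 1 := fun p hp => by
    have h1 := hn p hp
    constructor <;> nlinarith
  have hne : ∀ p ∈ strip a b, mercF ψ e p ≠ 0 := fun p hp h0 => by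
    have h1 := congrArg Complex.re h0
    rw [mercF_eq] at h1
    simp at h1
    exact (hA p hp).ne h1
  have hw := (hF.pd.inv hne).const_mul (-(hq ψ b : ℂ))
  set w : ℝ × ℝ → ℂ := fun p => -(hq ψ b : ℂ) * (mercF ψ e p)⁻¹ with hwdef
  have hr : ∀ p ∈ strip a b, (w p).re =
      -(2 * hq ψ b / confE ψ p) * (e ⬝ᵥ du ψ p) / (1 - (e ⬝ᵥ normal ψ p) ^ 2) := fun p hp => by
    simp only [hwdef]
    rw [mercF_eq, merc_re (hA p hp), hfr p hp]
    have h1 := (hE p hp).ne'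
    have h2 := (hn p hp).ne'
    field_simp
  have hs : ∀ p ∈ strip a b, (w p).im =
      -(2 * hq ψ b / confE ψ p) * (e ⬝ᵥ dv ψ p) / (1 - (e ⬝ᵥ normal ψ p) ^ 2) := fun p hp => by
    simp only [hwdef]
    rw [mercF_eq, merc_im (hA p hp), hfr p hp]
    have h1 := (hE p hp).ne'
    have h2 := (hn p hp).ne'
    field_simp
  have hwper : ∀ p ∈ strip a b, w (p.1, p.2 + τ) = w p := fun p hp => by
    simp only [hwdef]; rw [hF.per p hp]
  have hrpos : ∀ p ∈ strip a b, 0 < (w p).re := fun p hp => by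
    rw [hr p hp]
    have h1 : 0 < 2 * hq ψ b / confE ψ p := div_pos (by linarith) (hE p hp)
    exact div_pos (mul_pos_of_neg_of_neg (by linarith) (hA p hp)) (hn p hp)
  have hx := merc_comp (merc_rdot e h.pd_N) (G := Real.artanh) (G' := fun t => 1 / (1 - t ^ 2))
    hS (fun t ht => merc_artanh ht) (by
      refine continuousOn_const.div (by fun_prop) fun t ht => ?_
      have h1 := ht.1
      have h2 := ht.2
      nlinarith)
  have hy := PD.primitive hab.le hw.im hw.re (fun p _ => by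
    have e1 : -(hq ψ b : ℂ) * (-(I * du (mercF ψ e) p) / mercF ψ e p ^ 2) =
        I * (-(hq ψ b : ℂ) * (-du (mercF ψ e) p / mercF ψ e p ^ 2)) := by ring
    rw [e1, mul_im]
    simp only [I_re, zero_mul, I_im, one_mul, zero_add])
  have hcb : Continuous fun v => (w (b, v)).re := cont_line_v hw.re.cont ⟨hab.le, le_rfl⟩
  have hPd : (∫ v in (0 : ℝ)..τ, -(2 * hq ψ b / confE ψ (b, v)) * (e ⬝ᵥ du ψ (b, v))
        / (1 - (e ⬝ᵥ normal ψ (b, v)) ^ 2)) = ∫ v in (0 : ℝ)..τ, (w (b, v)).re :=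
    intervalIntegral.integral_congr fun v _ => (hr (b, v) (h.mem_b v)).symm
  refine ⟨fun p => Real.artanh (e ⬝ᵥ normal ψ p),
    fun p => (∫ t in (0 : ℝ)..p.2, (w (b, t)).re) + ∫ r in b..p.1, (w (r, p.2)).im,
    fun p => (w p).re, fun p => (w p).im, ⟨hab, hτ, ?_, hy, hrpos, ?_, ?_, ?_, ?_, ?_⟩, ?_⟩
  · refine hx.congr (fun p _ => rfl) (fun p hp => ?_) (fun p hp => ?_)
    · rw [hr p hp, dotProduct_smul, smul_eq_mul]; ring
    · rw [hs p hp, dotProduct_smul, smul_eq_mul]; ring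
  · intro p hp
    rw [h.ann.perN p hp]
  · intro p hp
    rw [hPd]
    have hper : Function.Periodic (fun v => (w (b, v)).re) τ := fun v => by
      simp only []
      rw [hwper (b, v) (h.mem_b v)]
    have e1 := hper.intervalIntegral_add_eq p.2 0
    have e2 := intervalIntegral.integral_add_adjacent_intervals
      (hcb.intervalIntegrable (μ := MeasureTheory.volume) 0 p.2)
      (hcb.intervalIntegrable (μ := MeasureTheory.volume) p.2 (p.2 + τ))
    have e3 : (∫ r in b..p.1, (w (r, p.2 + τ)).im) = ∫ r in b..p.1, (w (r, p.2)).im := by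
      refine intervalIntegral.integral_congr fun r hr' => ?_
      have h1 : r ∈ Icc a b := uIcc_subset_Icc ⟨hab.le, le_rfl⟩ hp hr'
      exact congrArg Complex.im (hwper (r, p.2) h1)
    rw [zero_add] at e1
    simp only []
    rw [e3, ← e2, e1]
    ring
  · intro p hp
    exact congrArg Complex.re (hwper p hp)
  · intro p hp
    exact congrArg Complex.im (hwper p hp)
  · rw [hPd]
    exact intervalIntegral.intervalIntegral_pos_of_pos (hcb.intervalIntegrable 0 τ)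
      (fun v => hrpos (b, v) (h.mem_b v)) hτ
  · intro p hp
    refine ⟨(Real.tanh_artanh (hS p hp)).symm, ?_⟩
    simp only []
    rw [Real.cosh_artanh (hS p hp), div_pow, Real.sq_sqrt (hn p hp).le, hr p hp, hs p hp]
    have h1 := (hE p hp).ne'
    have h2 := (hn p hp).ne'
    have h3 := hfr p hp
    field_simp
    linear_combination -h3

end Pool.Agent.Lib.MP_c7e804_gt
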