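import Pool.Agent.Lib.MP_c7e804_gt.H43PoinS

/-!
A Jacobi field with zero boundary values does not change sign.
-/

namespace Pool.Agent.Lib.MP_c7e804_gt

open Matrix Set Complex
open scoped ContDiff ComplexConjugate

/-- double integral over one period of the strip -/
noncomputable def nodI (a b τ : ℝ) (F : ℝ × ℝ → ℝ) : ℝ :=
  ∫ u in a..b, ∫ v in (0 : ℝ)..τ, F (u, v)

section nod
variable {a b τ : ℝ} {F G : ℝ × ℝ → ℝ}

theorem nod_add (hab : a ≤ b) (hF : ContinuousOn F (strip a b)) (hG : ContinuousOn G (strip a b)) :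
    nodI a b τ (fun p => F p + G p) = nodI a b τ F + nodI a b τ G := by
  unfold nodI
  rw [← intervalIntegral.integral_add ((contOn_int_v hF 0 τ).intervalIntegrable_of_Icc hab)
    ((contOn_int_v hG 0 τ).intervalIntegrable_of_Icc hab)]
  refine intervalIntegral.integral_congr fun u hu => ?_
  rw [uIcc_of_le hab] at hu
  exact intervalIntegral.integral_add ((cont_line_v hF hu).intervalIntegrable _ _)
    ((cont_line_v hG hu).intervalIntegrable _ _)

theorem nod_mul (c : ℝ) : nodI a b τ (fun p => c * F p) = c * nodI a b τ F := by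
  unfold nodI
  simp only [intervalIntegral.integral_const_mul]

theorem nod_lin (hab : a ≤ b) (hF : ContinuousOn F (strip a b)) (hG : ContinuousOn G (strip a b))
    (c d : ℝ) :
    nodI a b τ (fun p => c * F p + d * G p) = c * nodI a b τ F + d * nodI a b τ G := by
  rw [← nod_mul, ← nod_mul]
  exact nod_add hab (continuousOn_const.mul hF) (continuousOn_const.mul hG)

theorem nod_mono (hab : a ≤ b) (hτ : 0 ≤ τ) (hF : ContinuousOn F (strip a b))
    (hG : ContinuousOn G (strip a b)) (h : ∀ p ∈ strip a b, F p ≤ G p) :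
    nodI a b τ F ≤ nodI a b τ G := by
  unfold nodI
  refine intervalIntegral.integral_mono_on hab
    ((contOn_int_v hF 0 τ).intervalIntegrable_of_Icc hab)
    ((contOn_int_v hG 0 τ).intervalIntegrable_of_Icc hab) fun u hu => ?_
  exact intervalIntegral.integral_mono_on hτ ((cont_line_v hF hu).intervalIntegrable _ _)
    ((cont_line_v hG hu).intervalIntegrable _ _) fun v _ => h (u, v) hu

theorem nod_nonneg (hab : a ≤ b) (hτ : 0 ≤ τ) (h : ∀ p ∈ strip a b, 0 ≤ F p) :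
    0 ≤ nodI a b τ F := by
  unfold nodI
  refine intervalIntegral.integral_nonneg hab fun u hu => ?_
  exact intervalIntegral.integral_nonneg hτ fun v _ => h (u, v) hu

theorem nod_pos1 {f : ℝ → ℝ} (hab : a < b) (hf : ContinuousOn f (Icc a b))
    (h0 : ∀ u ∈ Icc a b, 0 ≤ f u) (h1 : ∃ u ∈ Icc a b, 0 < f u) : 0 < ∫ u in a..b, f u := by
  have := intervalIntegral.integral_lt_integral_of_continuousOn_of_le_of_exists_lt
    (f := fun _ => (0 : ℝ)) (g := f) hab continuousOn_const hf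
    (fun u hu => h0 u (Ioc_subset_Icc_self hu)) h1
  simpa using this

theorem nod_pos (hab : a < b) (hτ : 0 < τ) (hF : ContinuousOn F (strip a b))
    (h : ∀ p ∈ strip a b, 0 ≤ F p) (hper : ∀ p ∈ strip a b, F (p.1, p.2 + τ) = F p)
    {p : ℝ × ℝ} (hp : p ∈ strip a b) (hpos : 0 < F p) : 0 < nodI a b τ F := by
  unfold nodI
  refine nod_pos1 hab (contOn_int_v hF 0 τ)
    (fun u hu => intervalIntegral.integral_nonneg hτ.le fun v _ => h (u, v) hu) ⟨p.1, hp, ?_⟩
  have hP : Function.Periodic (fun v => F (p.1, v)) τ := fun v => hper (p.1, v) hp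
  obtain ⟨v, hv, e⟩ := hP.exists_mem_Ico₀ hτ p.2
  refine nod_pos1 hτ (cont_line_v hF hp).continuousOn (fun v _ => h (p.1, v) hp)
    ⟨v, Ico_subset_Icc_self hv, ?_⟩
  exact lt_of_lt_of_eq hpos e

theorem nod_du {P Pu Pv : ℝ × ℝ → ℝ} (hab : a ≤ b) (h : PD a b P Pu Pv)
    (ha : ∀ v, P (a, v) = 0) (hb : ∀ v, P (b, v) = 0) : nodI a b τ Pu = 0 := by
  unfold nodI
  rw [fubini_strip h.contu (left_mem_Icc.2 hab) (right_mem_Icc.2 hab)]
  simp only [h.int_u (left_mem_Icc.2 hab) (right_mem_Icc.2 hab), ha, hb, sub_self,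
    intervalIntegral.integral_zero]

theorem nod_dv {P Pu Pv : ℝ × ℝ → ℝ} (hab : a ≤ b) (h : PD a b P Pu Pv)
    (hper : ∀ p ∈ strip a b, P (p.1, p.2 + τ) = P p) : nodI a b τ Pv = 0 := by
  unfold nodI
  rw [intervalIntegral.integral_congr (g := fun _ => (0 : ℝ)) fun u hu => ?_]
  · simp
  · rw [uIcc_of_le hab] at hu
    have h1 := hper (u, 0) hu
    simp only [zero_add] at h1
    simp only [h.int_v hu, h1, sub_self]

/-- a `C¹` cutoff of the positive part -/
theorem nod_cut {δ : ℝ} (hδ : 0 < δ) : ∃ G G' : ℝ → ℝ, (∀ t, HasDerivAt G (G' t) t) ∧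
    Continuous G' ∧ (∀ t, 0 ≤ G' t ∧ G' t ≤ 1) ∧ (∀ t, t ≤ δ → G t = 0 ∧ G' t = 0) ∧
    ∀ t, 0 ≤ G t ∧ G t ≤ |t| ∧ t - 2 * δ ≤ G t := by
  set g : ℝ → ℝ := fun t => min 1 (max 0 ((t - δ) / δ)) with hg
  have hc : Continuous g := by rw [hg]; fun_prop
  have h01 : ∀ t, 0 ≤ g t ∧ g t ≤ 1 := fun t =>
    ⟨le_min zero_le_one (le_max_left _ _), min_le_left _ _⟩
  have hz : ∀ t, t ≤ δ → g t = 0 := fun t ht => by
    have : (t - δ) / δ ≤ 0 := div_nonpos_of_nonpos_of_nonneg (by linarith) hδ.le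
    simp only [hg, max_eq_left this, min_eq_right zero_le_one]
  have ho : ∀ t, 2 * δ ≤ t → g t = 1 := fun t ht => by
    have : 1 ≤ (t - δ) / δ := by rw [le_div_iff₀ hδ]; linarith
    exact min_eq_left (this.trans (le_max_right _ _))
  have hG0 : ∀ t, t ≤ δ → ∫ r in (0 : ℝ)..t, g r = 0 := fun t ht => by
    rw [intervalIntegral.integral_congr (g := fun _ => (0 : ℝ)) fun r hr => ?_]
    · simp
    · exact hz r (hr.2.trans (_root_.max_le hδ.le ht))
  have hpos : ∀ t, 0 ≤ ∫ r in (0 : ℝ)..t, g r := fun t => by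
    rcases le_total t δ with ht | ht
    · rw [hG0 t ht]
    · exact intervalIntegral.integral_nonneg (by linarith) fun r _ => (h01 r).1
  refine ⟨fun t => ∫ r in (0 : ℝ)..t, g r, g,
    fun t => (hc.integral_hasStrictDerivAt 0 t).hasDerivAt, hc, h01,
    fun t ht => ⟨hG0 t ht, hz t ht⟩, fun t => ⟨hpos t, ?_, ?_⟩⟩
  · have := intervalIntegral.norm_integral_le_of_norm_le_const (a := 0) (b := t) (C := 1) (f := g)
      fun r _ => by rw [Real.norm_eq_abs, abs_of_nonneg (h01 r).1]; exact (h01 r).2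
    rw [sub_zero, one_mul, Real.norm_eq_abs] at this
    exact (le_abs_self _).trans this
  · rcases le_total t (2 * δ) with ht | ht
    · linarith [hpos t]
    · have h1 := intervalIntegral.integral_add_adjacent_intervals (μ := MeasureTheory.volume)
        (hc.intervalIntegrable 0 (2 * δ)) (hc.intervalIntegrable (2 * δ) t)
      have h2 : ∫ r in (2 * δ)..t, g r = t - 2 * δ := by
        rw [intervalIntegral.integral_congr (g := fun _ => (1 : ℝ)) fun r hr => ?_]
        · simp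
        · rw [uIcc_of_le ht] at hr
          exact ho r hr.1
      have h3 := hpos (2 * δ)
      show t - 2 * δ ≤ ∫ r in (0 : ℝ)..t, g r
      linarith

/-- Green's identity for a cutoff of the Jacobi field -/
theorem nod_green {ρ w wu wv wuu wuv wvu wvv : ℝ × ℝ → ℝ} (hab : a < b)
    (hw : PD a b w wu wv) (hu : PD a b wu wuu wuv) (hv : PD a b wv wvu wvv)
    (hper : ∀ p ∈ strip a b, w (p.1, p.2 + τ) = w p)
    (hΔ : ∀ p ∈ strip a b, wuu p + wvv p = -2 * ρ p * w p)
    (ha : ∀ v, w (a, v) = 0) (hb : ∀ v, w (b, v) = 0) {G G' : ℝ → ℝ}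
    (hG : ∀ t, HasDerivAt G (G' t) t) (hG' : Continuous G') (h0 : G 0 = 0) :
    ∃ D : ℝ × ℝ → ℝ, ContinuousOn D (strip a b) ∧ nodI a b τ D = 0 ∧ ∀ p ∈ strip a b,
      D p = G' (w p) * (wu p ^ 2 + wv p ^ 2) - 2 * ρ p * G (w p) * w p := by
  have hf := hw.comp hG hG'
  have h1 := hf.rmul hu
  have h2 := hf.rmul hv
  refine ⟨fun p => (G' (w p) * wu p * wu p + G (w p) * wuu p)
    + (G' (w p) * wv p * wv p + G (w p) * wvv p), h1.contu.add h2.contv, ?_, fun p hp => ?_⟩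
  · rw [nod_add hab.le h1.contu h2.contv, nod_du hab.le h1 (fun v => by simp [ha, h0])
      (fun v => by simp [hb, h0]),
      nod_dv hab.le h2 (fun p hp => by simp only [hper p hp, hw.per_v hper p hp]), add_zero]
  · have := hΔ p hp
    simp only []
    linear_combination G (w p) * this

/-- the field is small near the boundary -/
theorem nod_small {w wu wv : ℝ × ℝ → ℝ} (hab : a < b) (hτ : 0 < τ) (hw : PD a b w wu wv)
    (hper : ∀ p ∈ strip a b, w (p.1, p.2 + τ) = w p)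
    (ha : ∀ v, w (a, v) = 0) (hb : ∀ v, w (b, v) = 0) {δ : ℝ} (hδ : 0 < δ) :
    ∃ η, 0 < η ∧ ∀ p ∈ strip a b, p.1 ≤ a + η ∨ b - η ≤ p.1 → |w p| ≤ δ := by
  obtain ⟨C, hC⟩ := bdd_of_per hτ hw.contu (hw.per_u hab hper)
  have hC0 : 0 ≤ C := (norm_nonneg _).trans (hC (a, 0) ⟨le_rfl, hab.le⟩)
  have key : ∀ p ∈ strip a b, ∀ x ∈ Icc a b, w (x, p.2) = 0 → |w p| ≤ C * |p.1 - x| := by
    intro p hp x hx h0
    have h1 := hw.int_u hx hp p.2
    rw [h0, sub_zero] at h1
    have h2 := intervalIntegral.norm_integral_le_of_norm_le_const (a := x) (b := p.1) (C := C)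
      (f := fun r => wu (r, p.2)) fun r hr => hC (r, p.2)
        (uIcc_subset_Icc hx hp (uIoc_subset_uIcc hr))
    rw [h1] at h2
    exact h2
  refine ⟨δ / (C + 1), by positivity, fun p hp h => ?_⟩
  have hη : C * (δ / (C + 1)) ≤ δ := by
    rw [← mul_div_assoc, div_le_iff₀ (by positivity)]; nlinarith
  rcases h with h | h
  · refine (key p hp a (left_mem_Icc.2 hab.le) (ha _)).trans (le_trans ?_ hη)
    refine mul_le_mul_of_nonneg_left ?_ hC0
    rw [abs_of_nonneg (by linarith [hp.1])]; linarith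
  · refine (key p hp b (right_mem_Icc.2 hab.le) (hb _)).trans (le_trans ?_ hη)
    refine mul_le_mul_of_nonneg_left ?_ hC0
    rw [abs_of_nonpos (by linarith [hp.2])]; linarith

theorem nod_pt {δ J ρ t x y g g' : ℝ} (hδ : 0 < δ) (hρ : 0 ≤ ρ) (hJ : ρ ≤ J) (h1 : 0 ≤ g')
    (h2 : g' ≤ 1) (h3 : 0 ≤ g) (h4 : g ≤ |t|) (h5 : t - 2 * δ ≤ g) :
    (g' * x) ^ 2 + (g' * y) ^ 2 - 2 * g ^ 2 * ρ
      ≤ g' * (x ^ 2 + y ^ 2) - 2 * ρ * g * t + 4 * δ * (J * |t|) := by
  have e1 : g' ^ 2 * (x ^ 2 + y ^ 2) ≤ g' * (x ^ 2 + y ^ 2) :=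
    mul_le_mul_of_nonneg_right (by nlinarith) (by positivity)
  have e2 : ρ * g * (t - g) ≤ ρ * g * (2 * δ) :=
    mul_le_mul_of_nonneg_left (by linarith) (mul_nonneg hρ h3)
  have e3 : ρ * g ≤ J * |t| := mul_le_mul hJ h4 h3 (hρ.trans hJ)
  have e4 : δ * (ρ * g) ≤ δ * (J * |t|) := mul_le_mul_of_nonneg_left e3 hδ.le
  nlinarith

end nod

theorem Merc.no_sign_change {a b τ Pd : ℝ} {x y r s : ℝ × ℝ → ℝ} (h : Merc a b τ Pd x y r s)
    (h1 : Pd ≤ 2 * Real.pi) {w wu wv wuu wuv wvu wvv : ℝ × ℝ → ℝ}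
    (hw : PD a b w wu wv) (hu : PD a b wu wuu wuv) (hv : PD a b wv wvu wvv)
    (hper : ∀ p ∈ strip a b, w (p.1, p.2 + τ) = w p)
    (hΔ : ∀ p ∈ strip a b,
      wuu p + wvv p = -2 * ((r p ^ 2 + s p ^ 2) / Real.cosh (x p) ^ 2) * w p)
    (ha : ∀ v, w (a, v) = 0) (hb : ∀ v, w (b, v) = 0) {p : ℝ × ℝ} (hp : p ∈ strip a b)
    (hpos : 0 < w p) : ∀ p' ∈ strip a b, 0 ≤ w p' := by
  by_contra hcon
  push Not at hcon
  obtain ⟨p', hp', hneg⟩ := hcon
  have hab := h.hab
  have hτ := h.hτ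
  obtain ⟨c, hc, hP⟩ := h.poincare_strip h1
  set J : ℝ × ℝ → ℝ := fun q => r q ^ 2 + s q ^ 2 with hJ
  set ρ : ℝ × ℝ → ℝ := fun q => (r q ^ 2 + s q ^ 2) / Real.cosh (x q) ^ 2 with hρ
  have cJ : ContinuousOn J (strip a b) := (h.pdx.contu.pow 2).add (h.pdy.contu.pow 2)
  have cρ : ContinuousOn ρ (strip a b) :=
    cJ.div ((Real.continuous_cosh.comp_continuousOn h.pdx.cont).pow 2)
      fun q _ => (pow_pos (Real.cosh_pos _) 2).ne'
  have J0 : ∀ q ∈ strip a b, 0 < J q := fun q hq => by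
    have := h.rpos q hq
    simp only [hJ]; positivity
  have ρ0 : ∀ q, 0 ≤ ρ q := fun q => by simp only [hρ]; positivity
  have ρJ : ∀ q, ρ q ≤ J q := fun q =>
    div_le_self (by positivity) (one_le_pow₀ (Real.one_le_cosh _))
  have Jper : ∀ q ∈ strip a b, J (q.1, q.2 + τ) = J q := fun q hq => by
    simp only [hJ, h.perr q hq, h.pers q hq]
  set δ0 : ℝ := min (w p) (-w p') / 4 with hδ0
  have δ0pos : 0 < δ0 := by
    have : 0 < min (w p) (-w p') := lt_min hpos (by linarith)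
    positivity
  have δ1 : 4 * δ0 ≤ w p := by have := min_le_left (w p) (-w p'); linarith
  have δ2 : 4 * δ0 ≤ -w p' := by have := min_le_right (w p) (-w p'); linarith
  have cw := hw.cont
  have cF1 : ContinuousOn (fun q => max (w q - 2 * δ0) 0 ^ 2 * J q) (strip a b) :=
    (((cw.sub continuousOn_const).sup continuousOn_const).pow 2).mul cJ
  have cF2 : ContinuousOn (fun q => max (-w q - 2 * δ0) 0 ^ 2 * J q) (strip a b) :=
    (((cw.neg.sub continuousOn_const).sup continuousOn_const).pow 2).mul cJ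
  have cW : ContinuousOn (fun q => J q * |w q|) (strip a b) := cJ.mul cw.abs
  have A1 := nod_pos hab hτ cF1 (fun q hq => mul_nonneg (sq_nonneg _) (J0 q hq).le)
    (fun q hq => by simp only [hper q hq, Jper q hq]) hp
    (mul_pos (pow_pos (lt_max_of_lt_left (by linarith)) 2) (J0 p hp))
  have A2 := nod_pos hab hτ cF2 (fun q hq => mul_nonneg (sq_nonneg _) (J0 q hq).le)
    (fun q hq => by simp only [hper q hq, Jper q hq]) hp'
    (mul_pos (pow_pos (lt_max_of_lt_left (by linarith)) 2) (J0 p' hp'))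
  have B0 : 0 ≤ nodI a b τ (fun q => J q * |w q|) :=
    nod_nonneg hab.le hτ.le fun q hq => mul_nonneg (J0 q hq).le (abs_nonneg _)
  set a1 := nodI a b τ (fun q => max (w q - 2 * δ0) 0 ^ 2 * J q)
  set a2 := nodI a b τ (fun q => max (-w q - 2 * δ0) 0 ^ 2 * J q)
  set B := nodI a b τ (fun q => J q * |w q|)
  have A0 : 0 < min a1 a2 := lt_min A1 A2
  set δ : ℝ := min δ0 (c * min a1 a2 / (8 * (B + 1))) with hδ
  have δpos : 0 < δ := lt_min δ0pos (by positivity)
  have δle : δ ≤ δ0 := min_le_left _ _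
  have δB : 4 * δ * B < c * min a1 a2 := by
    have h2 : δ ≤ c * min a1 a2 / (8 * (B + 1)) := min_le_right _ _
    rw [le_div_iff₀ (by positivity)] at h2
    nlinarith
  obtain ⟨G, G', hG, cG', G01, Gz, Gb⟩ := nod_cut δpos
  obtain ⟨η, ηpos, hη⟩ := nod_small hab hτ hw hper ha hb δpos
  have G0 : G 0 = 0 := (Gz 0 δpos.le).1
  obtain ⟨D1, cD1, iD1, eD1⟩ := nod_green (ρ := ρ) hab hw hu hv hper hΔ ha hb hG cG' G0
  obtain ⟨D2, cD2, iD2, eD2⟩ := nod_green (ρ := ρ) (τ := τ) hab hw.neg hu.neg hv.neg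
    (fun q hq => by simp only [hper q hq]) (fun q hq => by linear_combination -hΔ q hq)
    (fun v => by simp [ha]) (fun v => by simp [hb]) hG cG' G0
  have hf := hw.comp hG cG'
  have hg := hw.neg.comp hG cG'
  obtain ⟨α, β, hαβ, hineq⟩ := hP _ _ _ _ _ _ η ηpos hf hg
    (fun q hq => by simp only [hper q hq]) (fun q hq => by simp only [hper q hq])
    (fun q _ => (Gb _).1) (fun q _ => (Gb _).1)
    (fun q hq h2 => ⟨(Gz _ ((le_abs_self _).trans (hη q hq h2))).1,
      (Gz _ ((neg_le_abs _).trans (hη q hq h2))).1⟩)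
  have hk : 0 < α ^ 2 + β ^ 2 := by
    rcases hαβ with h2 | h2 <;> positivity
  have hdis : ∀ t : ℝ, (G t = 0 ∧ G' t = 0) ∨ (G (-t) = 0 ∧ G' (-t) = 0) := fun t => by
    rcases le_total t 0 with ht | ht
    · exact Or.inl (Gz t (by linarith))
    · exact Or.inr (Gz (-t) (by linarith))
  have hmax : ∀ t : ℝ, max (t - 2 * δ0) 0 ^ 2 ≤ G t ^ 2 := fun t =>
    pow_le_pow_left₀ (le_max_right _ _) (_root_.max_le (by linarith [(Gb t).2.2]) (Gb t).1) 2
  have hL : α ^ 2 * a1 + β ^ 2 * a2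
      ≤ nodI a b τ (fun q => (α * G (w q) - β * G (-w q)) ^ 2 * J q) := by
    rw [← nod_lin hab.le cF1 cF2]
    refine nod_mono hab.le hτ.le ((continuousOn_const.mul cF1).add (continuousOn_const.mul cF2))
      ((((continuousOn_const.mul hf.cont).sub (continuousOn_const.mul hg.cont)).pow 2).mul cJ)
      fun q hq => ?_
    have e1 := mul_le_mul_of_nonneg_left (hmax (w q)) (mul_nonneg (sq_nonneg α) (J0 q hq).le)
    have e2 := mul_le_mul_of_nonneg_left (hmax (-w q)) (mul_nonneg (sq_nonneg β) (J0 q hq).le)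
    have e3 : G (w q) * G (-w q) = 0 := by
      rcases hdis (w q) with h2 | h2 <;> simp [h2.1]
    have e4 : (α * G (w q) - β * G (-w q)) ^ 2 * J q
        = α ^ 2 * J q * G (w q) ^ 2 + β ^ 2 * J q * G (-w q) ^ 2 := by
      linear_combination (-2 * α * β * J q) * e3
    rw [e4]
    linarith
  have hR : nodI a b τ (fun q => (α * (G' (w q) * wu q) - β * (G' (-w q) * -wu q)) ^ 2
      + (α * (G' (w q) * wv q) - β * (G' (-w q) * -wv q)) ^ 2
      - 2 * (α * G (w q) - β * G (-w q)) ^ 2 * ρ q) ≤ (α ^ 2 + β ^ 2) * (4 * δ) * B := by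
    have e0 : (α ^ 2 + β ^ 2) * (4 * δ) * B = nodI a b τ (fun q => (α ^ 2 * D1 q + β ^ 2 * D2 q)
        + (α ^ 2 + β ^ 2) * (4 * δ) * (J q * |w q|)) := by
      have cD : ContinuousOn (fun q => α ^ 2 * D1 q + β ^ 2 * D2 q) (strip a b) :=
        (continuousOn_const.mul cD1).add (continuousOn_const.mul cD2)
      have cK : ContinuousOn (fun q => (α ^ 2 + β ^ 2) * (4 * δ) * (J q * |w q|)) (strip a b) :=
        continuousOn_const.mul cW
      rw [nod_add hab.le cD cK, nod_lin hab.le cD1 cD2, nod_mul, iD1, iD2]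
      ring
    rw [e0]
    refine nod_mono hab.le hτ.le
      (((((continuousOn_const.mul hf.contu).sub (continuousOn_const.mul hg.contu)).pow 2).add
        (((continuousOn_const.mul hf.contv).sub (continuousOn_const.mul hg.contv)).pow 2)).sub
        ((continuousOn_const.mul (((continuousOn_const.mul hf.cont).sub
          (continuousOn_const.mul hg.cont)).pow 2)).mul cρ))
      (((continuousOn_const.mul cD1).add (continuousOn_const.mul cD2)).add
        (continuousOn_const.mul cW)) fun q hq => ?_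
    have e1 := mul_le_mul_of_nonneg_left (nod_pt (x := wu q) (y := wv q) δpos (ρ0 q) (ρJ q)
      (G01 (w q)).1 (G01 (w q)).2 (Gb (w q)).1 (Gb (w q)).2.1 (Gb (w q)).2.2) (sq_nonneg α)
    have e2 := mul_le_mul_of_nonneg_left (nod_pt (x := -wu q) (y := -wv q) δpos (ρ0 q) (ρJ q)
      (G01 (-w q)).1 (G01 (-w q)).2 (Gb (-w q)).1 (Gb (-w q)).2.1 (Gb (-w q)).2.2) (sq_nonneg β)
    rw [abs_neg] at e2
    have e3 : G (w q) * G (-w q) = 0 := by
      rcases hdis (w q) with h2 | h2 <;> simp [h2.1]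
    have e4 : G' (w q) * G' (-w q) = 0 := by
      rcases hdis (w q) with h2 | h2 <;> simp [h2.2]
    simp only [eD1 q hq, eD2 q hq]
    have e5 : (α * (G' (w q) * wu q) - β * (G' (-w q) * -wu q)) ^ 2
        + (α * (G' (w q) * wv q) - β * (G' (-w q) * -wv q)) ^ 2
        - 2 * (α * G (w q) - β * G (-w q)) ^ 2 * ρ q
        = α ^ 2 * ((G' (w q) * wu q) ^ 2 + (G' (w q) * wv q) ^ 2 - 2 * G (w q) ^ 2 * ρ q)
          + β ^ 2 * ((G' (-w q) * -wu q) ^ 2 + (G' (-w q) * -wv q) ^ 2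
            - 2 * G (-w q) ^ 2 * ρ q) := by
      linear_combination (2 * α * β * (wu q ^ 2 + wv q ^ 2)) * e4 + (4 * α * β * ρ q) * e3
    rw [e5]
    linarith
  have hfin : c * (α ^ 2 * a1 + β ^ 2 * a2) ≤ (α ^ 2 + β ^ 2) * (4 * δ) * B :=
    (mul_le_mul_of_nonneg_left hL hc.le).trans (le_trans hineq hR)
  have e1 := mul_le_mul_of_nonneg_left (min_le_left a1 a2) (mul_nonneg hc.le (sq_nonneg α))
  have e2 := mul_le_mul_of_nonneg_left (min_le_right a1 a2) (mul_nonneg hc.le (sq_nonneg β))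
  have e3 := mul_lt_mul_of_pos_left δB hk
  nlinarith

end Pool.Agent.Lib.MP_c7e804_gt
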