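import Pool.Agent.Lib.MP_c7e804_gt.H43Xi1

/-!
The axis.
-/

namespace Pool.Agent.Lib.MP_c7e804_gt

open Matrix Set Complex
open scoped ContDiff ComplexConjugate

theorem xi_dot_pos {t : V3} (ht : t ≠ 0) : 0 < t ⬝ᵥ t := by
  have h0 : 0 ≤ t ⬝ᵥ t := by
    simp only [dotProduct, Fin.sum_univ_three]; nlinarith [sq_nonneg (t 0), sq_nonneg (t 1), sq_nonneg (t 2)]
  rcases h0.lt_or_eq with h1 | h1
  · exact h1
  · exact absurd (dotProduct_self_eq_zero.1 h1.symm) ht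

theorem xi_one_sub {n N : V3} (hn : n ⬝ᵥ n = 1) (hN : N ⬝ᵥ N = 1) :
    1 - n ⬝ᵥ N = ((N - n) ⬝ᵥ (N - n)) / 2 := by
  simp only [sub_dotProduct, dotProduct_sub, hn, hN, dotProduct_comm N n]; ring

theorem xi_le_one {n N : V3} (hn : n ⬝ᵥ n = 1) (hN : N ⬝ᵥ N = 1) : n ⬝ᵥ N ≤ 1 := by
  have h1 := xi_one_sub hn hN
  have h0 : 0 ≤ (N - n) ⬝ᵥ (N - n) := by
    simp only [dotProduct, Fin.sum_univ_three]
    nlinarith [mul_self_nonneg ((N - n) 0), mul_self_nonneg ((N - n) 1), mul_self_nonneg ((N - n) 2)]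
  linarith

theorem xi_strict {N t : V3} {P l : ℝ} (hN : N ⬝ᵥ N = 1) (ht : t ≠ 0) (hP : 0 < P) (hl : 0 < l)
    (h : ∀ n : V3, n ⬝ᵥ n = 1 → -P * (1 - n ⬝ᵥ N) ≤ n ⬝ᵥ t / l) : 0 < N ⬝ᵥ t := by
  have h1 := h N hN
  rw [hN, sub_self, mul_zero, le_div_iff₀ hl, zero_mul] at h1
  rcases h1.lt_or_eq with h2 | h2
  · exact h2
  exfalso
  have hT := xi_dot_pos ht
  set T := t ⬝ᵥ t with hTdef
  set r : ℝ := 1 / (2 * P * l) with hr
  have hr0 : 0 < r := by positivity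
  have hD : 0 < 1 + r ^ 2 * T := by positivity
  have hNt : N ⬝ᵥ t = 0 := h2.symm
  have htN : t ⬝ᵥ N = 0 := by rw [dotProduct_comm]; exact hNt
  have h3 := h ((1 + r ^ 2 * T)⁻¹ • ((1 - r ^ 2 * T) • N - (2 * r) • t)) (by
    simp only [smul_dotProduct, dotProduct_smul, sub_dotProduct, dotProduct_sub, hN, hNt, htN,
      ← hTdef, smul_eq_mul]
    field_simp
    ring)
  simp only [smul_dotProduct, sub_dotProduct, hN, hNt, htN, ← hTdef, smul_eq_mul] at h3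
  have e1 : 1 - (1 + r ^ 2 * T)⁻¹ * ((1 - r ^ 2 * T) * 1 - 2 * r * 0) =
      2 * r ^ 2 * T / (1 + r ^ 2 * T) := by field_simp; ring
  have e2 : (1 + r ^ 2 * T)⁻¹ * ((1 - r ^ 2 * T) * 0 - 2 * r * T) / l =
      -(2 * r * T / l) / (1 + r ^ 2 * T) := by field_simp; ring
  rw [e1, e2, ← mul_div_assoc, div_le_div_iff_of_pos_right hD] at h3
  have e3 : P * (2 * r ^ 2 * T) = r * T / l := by
    rw [hr]; field_simp
  have h4 : 0 < r * T / l := by positivity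
  have e4 : 2 * r * T / l = 2 * (r * T / l) := by ring
  linarith

/-- the linear functional `x ↦ n · x` -/
noncomputable def xiL (n : V3) : V3 →L[ℝ] ℝ :=
  LinearMap.toContinuousLinearMap
    { toFun := fun x => n ⬝ᵥ x
      map_add' := fun x y => dotProduct_add n x y
      map_smul' := fun c x => by simp }

theorem xiL_apply (n x : V3) : xiL n x = n ⬝ᵥ x := rfl

/-- the `u`-derivative of the comparison function -/
noncomputable def xiGu (ψ : ℝ × ℝ → V3) (θ : ℝ) (n : V3) (r : ℝ × ℝ) : ℝ :=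
  -(ψ r ⬝ᵥ du ψ r) - (normal ψ r ⬝ᵥ ψ r - Real.cos θ) * (n ⬝ᵥ du ψ r)
    + (ψ r ⬝ᵥ du ψ r) * (n ⬝ᵥ normal ψ r)

/-- the `v`-derivative of the comparison function -/
noncomputable def xiGv (ψ : ℝ × ℝ → V3) (θ : ℝ) (n : V3) (r : ℝ × ℝ) : ℝ :=
  -(ψ r ⬝ᵥ dv ψ r) - (normal ψ r ⬝ᵥ ψ r - Real.cos θ) * (n ⬝ᵥ dv ψ r)
    + (ψ r ⬝ᵥ dv ψ r) * (n ⬝ᵥ normal ψ r)

namespace Cap
variable {ψ : ℝ × ℝ → V3} {a b τ θ : ℝ} (h : Cap ψ a b τ θ)
include h

theorem xi_smu (n : V3) {p : ℝ × ℝ} (hp : p ∈ strip a b) : ContDiffAt ℝ ∞ (xiGu ψ θ n) p := by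
  have h1 := h.ann.smooth p hp
  have h2 := h.ann.smA hp
  have h3 := h.ann.smN hp
  exact ((sm_dot h1 h2).neg.sub (((sm_dot h3 h1).sub contDiffAt_const).mul
    (sm_dot contDiffAt_const h2))).add ((sm_dot h1 h2).mul (sm_dot contDiffAt_const h3))

theorem xi_smv (n : V3) {p : ℝ × ℝ} (hp : p ∈ strip a b) : ContDiffAt ℝ ∞ (xiGv ψ θ n) p := by
  have h1 := h.ann.smooth p hp
  have h2 := h.ann.smB hp
  have h3 := h.ann.smN hp
  exact ((sm_dot h1 h2).neg.sub (((sm_dot h3 h1).sub contDiffAt_const).mul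
    (sm_dot contDiffAt_const h2))).add ((sm_dot h1 h2).mul (sm_dot contDiffAt_const h3))

theorem xi_lap (n : V3) {p : ℝ × ℝ} (hp : p ∈ strip a b) :
    du (xiGu ψ θ n) p + dv (xiGv ψ θ n) p = -2 * confE ψ p * (1 - n ⬝ᵥ normal ψ p) := by
  have F := h.ann.fr hp
  have u0 := hasD_du (sm_diff (h.ann.smooth p hp))
  have v0 := hasD_dv (sm_diff (h.ann.smooth p hp))
  have u1 := hasD_du (sm_diff (h.ann.smA hp))
  have v1 : HasD (0, 1) (dv ψ) (-du (du ψ) p) p :=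
    (hasD_dv (sm_diff (h.ann.smB hp))).congr_val (h.ann.Bv hp)
  have u2 := h.ann.dNu hp
  have v2 := h.ann.dNv hp
  have e1 := ((((u0.dot u1).neg).sub (((u2.dot u0).sub (HasD.const (Real.cos θ))).mul
    ((HasD.const n).dot u1))).add ((u0.dot u1).mul ((HasD.const n).dot u2))).du_eq
  have e2 := ((((v0.dot v1).neg).sub (((v2.dot v0).sub (HasD.const (Real.cos θ))).mul
    ((HasD.const n).dot v1))).add ((v0.dot v1).mul ((HasD.const n).dot v2))).dv_eq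
  change du (xiGu ψ θ n) p = _ at e1
  change dv (xiGv ψ θ n) p = _ at e2
  rw [e1, e2]
  simp only [zero_dotProduct, smul_dotProduct, dotProduct_smul, dotProduct_neg, F.AA, F.BB, F.NA,
    F.NB, smul_eq_mul, dotProduct_comm (du ψ p) (ψ p), dotProduct_comm (dv ψ p) (ψ p)]
  ring

theorem xi_pd {Ξ : ℝ × ℝ → V3}
    (hΞ : PD a b Ξ (fun r => -ww ψ θ r • du ψ r + pu ψ r • normal ψ r)
      (fun r => -ww ψ θ r • dv ψ r + (ψ r ⬝ᵥ dv ψ r) • normal ψ r)) (n : V3) :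
    PD a b (fun r => 1 / 2 - (ψ r ⬝ᵥ ψ r) / 2 + n ⬝ᵥ Ξ r) (xiGu ψ θ n) (xiGv ψ θ n) := by
  have h1 : PD a b (fun r => 1 / 2 - (ψ r ⬝ᵥ ψ r) / 2) _ _ :=
    PD.of_sm fun p hp => contDiffAt_const.sub
      ((sm_dot (h.ann.smooth p hp) (h.ann.smooth p hp)).div_const 2)
  have h2 := h1.add (PD.clm (xiL n) hΞ)
  refine h2.congr (fun p _ => rfl) (fun p hp => ?_) (fun p hp => ?_)
  · have u0 := hasD_du (sm_diff (h.ann.smooth p hp))
    have e := ((HasD.const (1 / 2 : ℝ)).sub ((u0.dot u0).mul (HasD.const (2⁻¹ : ℝ)))).du_eq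
    have e' : du (fun r => 1 / 2 - (ψ r ⬝ᵥ ψ r) / 2) p = -(ψ p ⬝ᵥ du ψ p) := by
      simp only [div_eq_mul_inv] at e ⊢
      rw [e, dotProduct_comm (du ψ p) (ψ p)]; ring
    simp only [e', xiL_apply, xiGu, ww, pu, dotProduct_add, dotProduct_smul, smul_eq_mul]
    ring
  · have u0 := hasD_dv (sm_diff (h.ann.smooth p hp))
    have e := ((HasD.const (1 / 2 : ℝ)).sub ((u0.dot u0).mul (HasD.const (2⁻¹ : ℝ)))).dv_eq
    have e' : dv (fun r => 1 / 2 - (ψ r ⬝ᵥ ψ r) / 2) p = -(ψ p ⬝ᵥ dv ψ p) := by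
      simp only [div_eq_mul_inv] at e ⊢
      rw [e, dotProduct_comm (dv ψ p) (ψ p)]; ring
    simp only [e', xiL_apply, xiGv, ww, dotProduct_add, dotProduct_smul, smul_eq_mul]
    ring

theorem xi_bd (n : V3) {u : ℝ} (hu : u = a ∨ u = b) (v : ℝ) :
    xiGu ψ θ n (u, v) = -pu ψ (u, v) * (1 - n ⬝ᵥ normal ψ (u, v)) := by
  have h1 := h.bd_ww hu v
  simp only [ww] at h1
  simp only [xiGu, pu, h1]
  ring

theorem xi_pu_b (v : ℝ) : 0 < pu ψ (b, v) := by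
  rw [h.pu_b]
  exact mul_pos (Real.sqrt_pos.2 (h.ann.immersion _ (h.mem_b v))) h.sin_pos

theorem xi_pu_a (v : ℝ) : 0 < -pu ψ (a, v) := by
  rw [h.pu_a, neg_neg]
  exact mul_pos (Real.sqrt_pos.2 (h.ann.immersion _ (h.mem_a v))) h.sin_pos

/-- the derivative of the comparison function with `n = N (b, 0)` is positive just left of `b` -/
theorem xi_left : ∃ c, a ≤ c ∧ c < b ∧
    ∀ u ∈ Ioo c b, 0 < xiGu ψ θ (normal ψ (b, 0)) (u, 0) := by
  have hp := h.mem_b 0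
  have F := h.ann.fr hp
  set n := normal ψ (b, 0) with hn
  have u0 := hasD_du (sm_diff (h.ann.smooth _ hp))
  have u1 := h.ann.dAu hp
  have u2 := h.ann.dNu hp
  set L := sffL ψ (b, 0) with hL
  set E := confE ψ (b, 0) with hE
  set A := du ψ (b, 0) with hA
  set P := ψ (b, 0) ⬝ᵥ A with hP
  have hP0 : 0 < P := h.xi_pu_b 0
  have hL0 : 0 < L := h.Lpos
  have hE0 : 0 < E := F.pos
  have d1 : HasDerivAt (fun u => normal ψ (u, 0)) (-(L * E⁻¹) • A) b := by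
    have := hasDerivAt_line_u u2.1
    rwa [u2.du_eq] at this
  have d2 : HasDerivAt (fun u => normal ψ (u, 0) ⬝ᵥ ψ (u, 0)) (-(L * E⁻¹) * P) b := by
    have h2 := u2.dot u0
    have := hasDerivAt_line_u h2.1
    rw [h2.du_eq] at this
    refine this.congr_deriv ?_
    simp only [smul_dotProduct, smul_eq_mul, hP, dotProduct_comm A (ψ (b, 0))]
    rw [← hn, F.NA]; ring
  have d3 : HasDerivAt (fun u => n ⬝ᵥ du ψ (u, 0)) L b := by
    have h2 := (HasD.const n).dot u1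
    have := hasDerivAt_line_u h2.1
    rw [h2.du_eq] at this
    refine this.congr_deriv ?_
    simp only [zero_dotProduct, dotProduct_add, dotProduct_sub, dotProduct_smul, smul_eq_mul]
    rw [F.NA, F.NB, F.NN]; ring
  have d4 : ContinuousAt (fun u => ψ (u, 0) ⬝ᵥ du ψ (u, 0)) b :=
    (hasDerivAt_line_u (u0.dot u1).1).continuousAt
  have t1 := hasDerivAt_iff_tendsto_slope.1 d1
  have t2 := hasDerivAt_iff_tendsto_slope.1 d2
  have t3 := hasDerivAt_iff_tendsto_slope.1 d3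
  have t4 : Filter.Tendsto (fun u => ψ (u, 0) ⬝ᵥ du ψ (u, 0)) (nhdsWithin b {b}ᶜ) (nhds P) :=
    d4.tendsto.mono_left nhdsWithin_le_nhds
  have t5 : Filter.Tendsto (fun u => slope (fun u => normal ψ (u, 0)) b u ⬝ᵥ
      slope (fun u => normal ψ (u, 0)) b u) (nhdsWithin b {b}ᶜ)
      (nhds ((-(L * E⁻¹) • A) ⬝ᵥ (-(L * E⁻¹) • A))) :=
    ((continuous_id.dotProduct continuous_id).tendsto _).comp t1
  have t6 := ((t4.mul t5).div_const 2).neg.sub (t2.mul t3)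
  have hlim : 0 < -(P * ((-(L * E⁻¹) • A) ⬝ᵥ (-(L * E⁻¹) • A)) / 2) - -(L * E⁻¹) * P * L := by
    simp only [smul_dotProduct, dotProduct_smul, smul_eq_mul]
    rw [F.AA]
    have : -(P * (-(L * E⁻¹) * (-(L * E⁻¹) * E)) / 2) - -(L * E⁻¹) * P * L =
        P * L ^ 2 / (2 * E) := by field_simp; ring
    rw [this]; positivity
  have ev := t6.eventually (lt_mem_nhds hlim)
  have ev2 := ev.filter_mono (nhdsWithin_mono b (show Iio b ⊆ {b}ᶜ from fun x hx => ne_of_lt hx))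
  obtain ⟨c, hc, hc2⟩ := (mem_nhdsLT_iff_exists_Ioo_subset' h.ann.hab).1 ev2
  refine ⟨max a c, le_max_left _ _, max_lt h.ann.hab hc, fun u hu => ?_⟩
  have hu1 : u ∈ Ioo c b := ⟨(le_max_right _ _).trans_lt hu.1, hu.2⟩
  have hu2 : ((u, 0) : ℝ × ℝ) ∈ strip a b := ⟨((le_max_left _ _).trans_lt hu.1).le, hu.2.le⟩
  have h5 := hc2 hu1
  simp only [Set.mem_ofPred_eq, slope_def_module, slope_def_field] at h5
  have hw : normal ψ (b, 0) ⬝ᵥ ψ (b, 0) = Real.cos θ := h.ann.angle_b 0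
  have hs : 0 < (u - b) ^ 2 := by
    have : u - b ≠ 0 := sub_ne_zero.2 hu.2.ne
    positivity
  have hne : u - b ≠ 0 := sub_ne_zero.2 hu.2.ne
  have h6 := mul_pos hs h5
  have h7 := xi_one_sub F.NN (h.ann.fr hu2).NN
  have h8 : n ⬝ᵥ normal ψ (u, 0) = 1 - (normal ψ (u, 0) - n) ⬝ᵥ (normal ψ (u, 0) - n) / 2 := by
    linarith
  refine h6.trans_eq ?_
  simp only [xiGu, h8, smul_dotProduct, dotProduct_smul, smul_eq_mul]
  rw [hw, ← hA, F.NA]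
  field_simp
  ring

theorem xi_sign {Ξ : ℝ × ℝ → V3} {t : V3}
    (hΞ : PD a b Ξ (fun r => -ww ψ θ r • du ψ r + pu ψ r • normal ψ r)
      (fun r => -ww ψ θ r • dv ψ r + (ψ r ⬝ᵥ dv ψ r) • normal ψ r))
    (hb : ∀ v, Ξ (b, v) = 0) (ha : ∀ v, Ξ (a, v) = -t)
    (hper : ∀ r ∈ strip a b, Ξ (r.1, r.2 + τ) = Ξ r) :
    t ≠ 0 ∧ (∀ v, 0 < normal ψ (b, v) ⬝ᵥ t) ∧ ∀ v, normal ψ (a, v) ⬝ᵥ t < 0 := by
  have hab := h.ann.hab
  have hl : 0 < b - a := sub_pos.2 hab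
  have gper : ∀ n : V3, ∀ p ∈ strip a b,
      (fun r => 1 / 2 - (ψ r ⬝ᵥ ψ r) / 2 + n ⬝ᵥ Ξ r) (p.1, p.2 + τ) =
        (fun r => 1 / 2 - (ψ r ⬝ᵥ ψ r) / 2 + n ⬝ᵥ Ξ r) p := fun n p hp => by
    simp only [hper p hp, h.ann.periodic p hp]
  have glap : ∀ n : V3, n ⬝ᵥ n = 1 → ∀ p ∈ strip a b,
      du (xiGu ψ θ n) p + dv (xiGv ψ θ n) p ≤ 0 := fun n hn p hp => by
    rw [h.xi_lap n hp]
    have h1 := xi_le_one hn (h.ann.fr hp).NN
    have h2 := h.ann.immersion p hp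
    nlinarith
  have ga : ∀ n : V3, ∀ v, (fun r => 1 / 2 - (ψ r ⬝ᵥ ψ r) / 2 + n ⬝ᵥ Ξ r) (a, v) = -(n ⬝ᵥ t) :=
    fun n v => by simp only [ha, h.ann.sphere_a, dotProduct_neg]; ring
  have gb : ∀ n : V3, ∀ v, (fun r => 1 / 2 - (ψ r ⬝ᵥ ψ r) / 2 + n ⬝ᵥ Ξ r) (b, v) = 0 :=
    fun n v => by simp only [hb, h.ann.sphere_b, dotProduct_zero]; ring
  have key : ∀ n : V3, n ⬝ᵥ n = 1 →
      (∀ v, n ⬝ᵥ t / (b - a) ≤ -pu ψ (a, v) * (1 - n ⬝ᵥ normal ψ (a, v))) ∧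
        ∀ v, -pu ψ (b, v) * (1 - n ⬝ᵥ normal ψ (b, v)) ≤ n ⬝ᵥ t / (b - a) := fun n hn => by
    have := grad_estimate hab h.ann.hτ (h.xi_pd hΞ n) (PD.of_sm fun p hp => h.xi_smu n hp)
      (PD.of_sm fun p hp => h.xi_smv n hp) (gper n) (glap n hn) (ga n) (gb n)
    simp only [zero_sub, neg_neg] at this
    refine ⟨fun v => ?_, fun v => ?_⟩
    · rw [← h.xi_bd n (Or.inl rfl)]; exact this.1 v
    · rw [← h.xi_bd n (Or.inr rfl)]; exact this.2 v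
  have ht : t ≠ 0 := by
    rintro rfl
    set n := normal ψ (b, 0) with hn
    have hn1 : n ⬝ᵥ n = 1 := (h.ann.fr (h.mem_b 0)).NN
    have hg := h.xi_pd hΞ n
    have hmin := min_principle h.ann.hτ hg (PD.of_sm fun p hp => h.xi_smu n hp)
      (PD.of_sm fun p hp => h.xi_smv n hp) (gper n) (glap n hn1)
      (fun v => (ga n v).ge.trans' (by simp)) (fun v => (gb n v).ge)
    obtain ⟨c, hac, hcb, hc⟩ := h.xi_left
    obtain ⟨x, hx, hx2⟩ := exists_hasDerivAt_eq_slope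
      (fun u => (fun r => 1 / 2 - (ψ r ⬝ᵥ ψ r) / 2 + n ⬝ᵥ Ξ r) (u, (0 : ℝ)))
      (fun u => xiGu ψ θ n (u, 0)) hcb
      ((cont_line_u hg.cont 0).mono (Icc_subset_Icc hac le_rfl)) fun x hx => by
        have hx' : ((x, 0) : ℝ × ℝ) ∈ strip a b := ⟨(hac.trans_lt hx.1).le, hx.2.le⟩
        exact (hg.hu _ hx').hasDerivAt (Icc_mem_nhds (hac.trans_lt hx.1) hx.2)
    have h1 := hc x hx
    have h2 := hmin (c, 0) ⟨hac, hcb.le⟩
    rw [hx2, gb n 0] at h1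
    have h3 := (div_pos_iff_of_pos_right (sub_pos.2 hcb)).1 h1
    linarith
  refine ⟨ht, fun v => ?_, fun v => ?_⟩
  · exact xi_strict (h.ann.fr (h.mem_b v)).NN ht (h.xi_pu_b v) hl fun n hn => (key n hn).2 v
  · have := xi_strict (t := -t) (h.ann.fr (h.mem_a v)).NN (neg_ne_zero.2 ht) (h.xi_pu_a v) hl
      fun n hn => by
        have h1 := (key n hn).1 v
        rw [dotProduct_neg, neg_div]
        linarith
    rw [dotProduct_neg] at this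
    linarith

theorem exists_axis : ∃ e : V3, e ⬝ᵥ e = 1 ∧ (∀ v, 0 < normal ψ (b, v) ⬝ᵥ e) ∧
    (∀ v, normal ψ (a, v) ⬝ᵥ e < 0) ∧ e ⨯₃ flux ψ τ b = 0 ∧
    ((∀ r ∈ strip a b, 0 ≤ ww ψ θ r) → e ⬝ᵥ flux ψ τ b < 0) := by
  obtain ⟨Ξ, t, hΞ, hb, ha, hper, hx, hd⟩ := h.exists_xi
  obtain ⟨ht, h1, h2⟩ := h.xi_sign hΞ hb ha hper
  have hT := xi_dot_pos ht
  have hs : 0 < (√(t ⬝ᵥ t))⁻¹ := inv_pos.2 (Real.sqrt_pos.2 hT)
  refine ⟨(√(t ⬝ᵥ t))⁻¹ • t, ?_, fun v => ?_, fun v => ?_, ?_, fun hw => ?_⟩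
  · rw [smul_dotProduct, dotProduct_smul, smul_eq_mul, smul_eq_mul, ← mul_assoc, ← mul_inv,
      Real.mul_self_sqrt hT.le, inv_mul_cancel₀ hT.ne']
  · rw [dotProduct_smul, smul_eq_mul]; exact mul_pos hs (h1 v)
  · rw [dotProduct_smul, smul_eq_mul]; exact mul_neg_of_pos_of_neg hs (h2 v)
  · rw [map_smul, LinearMap.smul_apply, hx, smul_zero]
  · rw [smul_dotProduct, smul_eq_mul, hd]
    obtain ⟨_, _, _, _, hw1, -⟩ := h.pd_ww
    have hc : ContinuousOn (fun r => ww ψ θ r * confE ψ r) (strip a b) := hw1.cont.mul h.cont_E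
    obtain ⟨u0, hu0, hu1⟩ := h.ww_pos_near
    have hpos := int_pos (ρ := fun _ => 1) h.ann.hab (contOn_int_v hc 0 τ) continuousOn_const
      (fun u hu => intervalIntegral.integral_nonneg h.ann.hτ.le fun v _ =>
        mul_nonneg (hw (u, v) hu) (h.ann.immersion (u, v) hu).le)
      ⟨u0, hu0, intervalIntegral.intervalIntegral_pos_of_pos_on
        ((cont_line_v hc (Ioo_subset_Icc_self hu0)).intervalIntegrable _ _)
        (fun v _ => mul_pos (hu1 u0 ⟨hu0.1, le_rfl⟩ v)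
          (h.ann.immersion (u0, v) (Ioo_subset_Icc_self hu0))) h.ann.hτ⟩
      fun _ _ => one_pos
    simp only [one_mul] at hpos
    exact mul_neg_of_pos_of_neg hs (by linarith)

end Cap

end Pool.Agent.Lib.MP_c7e804_gt
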