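import Pool.Agent.Lib.MP_c7e804_gt.H43Curve
import Pool.Agent.Lib.MP_c7e804_gt.H43Xi
import Pool.Agent.Lib.MP_c7e804_gt.H43Merc
import Pool.Agent.Lib.MP_c7e804_gt.H43Nod
import Pool.Agent.Lib.MP_c7e804_gt.H43Core

/-!
The free boundary case.
-/

namespace Pool.Agent.Lib.MP_c7e804_gt

open Matrix Set Complex
open scoped ContDiff ComplexConjugate

theorem Cap.free_aux {ψ : ℝ × ℝ → V3} {a b τ : ℝ} (h : Cap ψ a b τ (Real.pi / 2)) {u σ : ℝ}
    (hu : u = a ∨ u = b) (hσ : σ = 1 ∨ σ = -1)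
    (hpu : ∀ v, pu ψ (u, v) = σ * √(confE ψ (u, v))) (hs : SimpleAt ψ τ u) {e : V3}
    (he : e ⬝ᵥ e = 1) (hN : ∀ v, e ⬝ᵥ normal ψ (u, v) < 0) (hfl : e ⨯₃ flux ψ τ b = 0) :
    (∀ v, 0 < σ * (e ⬝ᵥ du ψ (u, v))) ∧
      ∫ v in (0 : ℝ)..τ, 2 * hq ψ b / confE ψ (u, v) * (σ * (e ⬝ᵥ du ψ (u, v)))
        / (1 - (e ⬝ᵥ normal ψ (u, v)) ^ 2) ≤ 2 * Real.pi := by
  have hm : ∀ v, ((u, v) : ℝ × ℝ) ∈ strip a b := h.mem_bd hu
  have hI : u ∈ Icc a b := hm 0
  have hσ2 : σ * σ = 1 := by rcases hσ with rfl | rfl <;> norm_num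
  have hE : ∀ v, 0 < confE ψ (u, v) := fun v => h.ann.immersion _ (hm v)
  have hS : ∀ v, 0 < √(confE ψ (u, v)) := fun v => Real.sqrt_pos.2 (hE v)
  have hSS : ∀ v, √(confE ψ (u, v)) * √(confE ψ (u, v)) = confE ψ (u, v) :=
    fun v => Real.mul_self_sqrt (hE v).le
  have hBB : ∀ v, dv ψ (u, v) ⬝ᵥ dv ψ (u, v) = confE ψ (u, v) :=
    fun v => h.ann.conformal_eq _ (hm v)
  have hang : ∀ v, normal ψ (u, v) ⬝ᵥ ψ (u, v) = Real.cos (Real.pi / 2) := fun v => by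
    have := h.bd_ww hu v
    rw [ww] at this
    linarith
  have hψ : ∀ v, √(confE ψ (u, v)) • ψ (u, v) = σ • du ψ (u, v) := fun v => by
    have e1 := h.ann.bd_psi hI (h.bd_unit hu) hang v
    change ψ (u, v) = (pu ψ (u, v) * _) • _ + _ at e1
    rw [Real.cos_pi_div_two, zero_smul, add_zero, hpu v] at e1
    rw [e1, smul_smul]
    congr 1
    have := (hE v).ne'
    field_simp
    rw [sq, hSS v, mul_comm]
  have key := convex_curve (τ := τ) h.ann.hτ (γ := fun v => ψ (u, v)) (γ' := fun v => dv ψ (u, v))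
    (γ'' := fun v => dv (dv ψ) (u, v)) (m := fun v => -normal ψ (u, v))
    (k := fun v => 2 * hq ψ b / confE ψ (u, v)) (e := e) (ε := -σ)
    (fun v => hasDerivAt_line_v (sm_diff (h.ann.smooth _ (hm v))))
    (fun v => hasDerivAt_line_v (sm_diff (h.ann.smB (hm v))))
    (cont_line_v (a := a) (b := b) (fun r hr =>
      (sm_dv (h.ann.smB hr)).continuousAt.continuousWithinAt) hI)
    (fun v => h.ann.periodic _ (hm v)) (h.bd_unit hu)
    (fun v h0 => by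
      have := hBB v
      rw [h0, zero_dotProduct] at this
      exact (hE v).ne this)
    (by rcases hσ with rfl | rfl <;> simp)
    (fun v => by
      have e1 : √(confE ψ (u, v)) • (ψ (u, v) ⨯₃ dv ψ (u, v)) =
          √(confE ψ (u, v)) • ((-σ * √(confE ψ (u, v))) • -normal ψ (u, v)) := by
        rw [← LinearMap.smul_apply, ← map_smul, hψ v, map_smul, LinearMap.smul_apply,
          (h.ann.fr (hm v)).AxB, smul_smul, smul_smul, smul_neg, ← neg_smul]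
        congr 1
        linear_combination (-σ) * hSS v
      rw [hBB v]
      exact smul_right_injective _ (hS v).ne' e1)
    (fun v => by
      have e1 := (hasDerivAt_line_v (sm_diff (h.ann.smN (hm v)))).neg
      rw [(h.ann.dNv (hm v)).dv_eq, h.L_const (hm v), ← neg_smul, ← div_eq_mul_inv] at e1
      exact e1)
    (fun v => div_pos (by linarith [h.q_pos]) (hE v))
    (continuous_const.div (cont_line_v h.cont_E hI) fun v => (hE v).ne')
    he (fun v => by rw [dotProduct_neg]; linarith [hN v]) hs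
    (by
      have e1 : (fun v => √(dv ψ (u, v) ⬝ᵥ dv ψ (u, v)) • ψ (u, v)) =
          fun v => σ • du ψ (u, v) := by
        funext v; rw [hBB v, hψ v]
      rw [e1, intervalIntegral.integral_smul]
      change e ⨯₃ (σ • flux ψ τ u) = 0
      rw [h.flux_const hI, map_smul, hfl, smul_zero])
  have hd : ∀ v, √(confE ψ (u, v)) * (e ⬝ᵥ ψ (u, v)) = σ * (e ⬝ᵥ du ψ (u, v)) := fun v => by
    have := congrArg (fun x => e ⬝ᵥ x) (hψ v)
    simpa only [dotProduct_smul, smul_eq_mul] using this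
  refine ⟨fun v => ?_, ?_⟩
  · rw [← hd v]
    exact mul_pos (hS v) (key.1 v)
  · refine le_of_eq_of_le ?_ key.2
    congr 1
    funext v
    rw [hBB v, dotProduct_neg, neg_sq, ← hd v, mul_assoc]

theorem Cap.free_bd {ψ : ℝ × ℝ → V3} {a b τ : ℝ} (h : Cap ψ a b τ (Real.pi / 2))
    (ha : SimpleAt ψ τ a) (hb : SimpleAt ψ τ b) : ∃ e : V3, e ⬝ᵥ e = 1 ∧
    (∀ v, e ⬝ᵥ du ψ (a, v) < 0) ∧ (∀ v, e ⬝ᵥ du ψ (b, v) < 0) ∧
    ∫ v in (0 : ℝ)..τ, -(2 * hq ψ b / confE ψ (b, v)) * (e ⬝ᵥ du ψ (b, v))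
        / (1 - (e ⬝ᵥ normal ψ (b, v)) ^ 2) ≤ 2 * Real.pi := by
  obtain ⟨e, he, hNb, hNa, hfl, -⟩ := h.exists_axis
  have k1 := h.free_aux (u := a) (σ := -1) (Or.inl rfl) (Or.inr rfl)
    (fun v => by rw [h.pu_a v, Real.sin_pi_div_two]; ring) ha he
    (fun v => by rw [dotProduct_comm]; exact hNa v) hfl
  have k2 := h.free_aux (u := b) (σ := 1) (Or.inr rfl) (Or.inl rfl)
    (fun v => by rw [h.pu_b v, Real.sin_pi_div_two]; ring) hb (e := -e)
    (by rw [neg_dotProduct, dotProduct_neg, neg_neg, he])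
    (fun v => by rw [neg_dotProduct, dotProduct_comm]; linarith [hNb v])
    (by rw [map_neg, LinearMap.neg_apply, hfl, neg_zero])
  refine ⟨e, he, fun v => by linarith [k1.1 v], fun v => ?_, ?_⟩
  · have := k2.1 v
    rw [neg_dotProduct] at this
    linarith
  · refine le_of_eq_of_le ?_ k2.2
    congr 1
    funext v
    rw [neg_dotProduct, neg_dotProduct, neg_sq]
    ring

theorem Cap.free_star {ψ : ℝ × ℝ → V3} {a b τ : ℝ} (h : Cap ψ a b τ (Real.pi / 2))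
    (ha : SimpleAt ψ τ a) (hb : SimpleAt ψ τ b) : ∀ p ∈ strip a b, 0 ≤ ww ψ (Real.pi / 2) p := by
  obtain ⟨e, he, h1, h2, h3⟩ := h.free_bd ha hb
  obtain ⟨x, y, r, s, hm, hx⟩ := h.exists_merc he h1 h2
  obtain ⟨wuu, wuv, wvu, wvv, hw, hu, hv, hΔ⟩ := h.pd_ww
  obtain ⟨u₀, hu₀, hpos⟩ := h.ww_pos_near
  refine hm.no_sign_change h3 hw hu hv (fun p hp => h.per_ww hp) (fun p hp => ?_)
    (fun v => h.bd_ww (Or.inl rfl) v) (fun v => h.bd_ww (Or.inr rfl) v)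
    (p := (u₀, 0)) ⟨hu₀.1.le, hu₀.2.le⟩ (hpos u₀ ⟨hu₀.1, le_rfl⟩ 0)
  rw [hΔ p hp, ← (hx p hp).2, ww, Real.cos_pi_div_two]
  ring

theorem free_main {ψ : ℝ × ℝ → V3} {a b τ : ℝ}
    (h : CapAnnulus ψ a b τ (Real.pi / 2) (Real.pi / 2))
    (ha : SimpleAt ψ τ a) (hb : SimpleAt ψ τ b) : ∃ e : V3, e ≠ 0 ∧ FoliatedAbout ψ a b e := by
  rcases lt_trichotomy (sffL ψ (b, 0)) 0 with h0 | h0 | h0
  · have h' := flip_cap h
    have e2 : Real.pi - Real.pi / 2 = Real.pi / 2 := by ring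
    rw [e2] at h'
    have hc : Cap (flipU ψ) (-b) (-a) τ (Real.pi / 2) := ⟨h', by rw [flip_L h]; linarith⟩
    have ha' : SimpleAt (flipU ψ) τ (-b) := fun v v' hv => hb v v' (by simpa [flipU] using hv)
    have hb' : SimpleAt (flipU ψ) τ (-a) := fun v v' hv => ha v v' (by simpa [flipU] using hv)
    obtain ⟨e, he, hf⟩ := hc.core (hc.free_star ha' hb') (by simp) hb'
    exact ⟨e, he, flip_foliated h hf⟩
  · exact foliated_of_flat h h0
  · have hc : Cap ψ a b τ (Real.pi / 2) := ⟨h, h0⟩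
    exact hc.core (hc.free_star ha hb) (by simp) hb

end Pool.Agent.Lib.MP_c7e804_gt
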