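import Pool.Agent.Lib.MP_c7e804_gt.H43Geo2

/-!
Boundary equations and the support function.
-/

namespace Pool.Agent.Lib.MP_c7e804_gt

open Matrix Set Complex
open scoped ContDiff ComplexConjugate

/-- complexification as a continuous linear map -/
noncomputable def geoCv : V3 →L[ℝ] C3 :=
  ContinuousLinearMap.pi fun i => Complex.ofRealCLM.comp (ContinuousLinearMap.proj i)

theorem geoCv_apply (x : V3) : geoCv x = cv x := rfl

theorem geo_ph_eq (ψ : ℝ × ℝ → V3) (p : ℝ × ℝ) :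
    ph ψ p = (1 / 2 : ℂ) • (cv (du ψ p) - I • cv (dv ψ p)) := by
  ext i
  simp only [ph, cv, Pi.smul_apply, Pi.sub_apply, smul_eq_mul]
  ring

namespace Cap
variable {ψ : ℝ × ℝ → V3} {a b τ θ : ℝ} (h : Cap ψ a b τ θ) {p : ℝ × ℝ}
include h

theorem bd_unit {u : ℝ} (hu : u = a ∨ u = b) (v : ℝ) : ψ (u, v) ⬝ᵥ ψ (u, v) = 1 := by
  rcases hu with rfl | rfl
  · exact h.ann.sphere_a v
  · exact h.ann.sphere_b v

theorem geo_angle {u : ℝ} (hu : u = a ∨ u = b) (v : ℝ) :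
    normal ψ (u, v) ⬝ᵥ ψ (u, v) = Real.cos θ := by
  rcases hu with rfl | rfl
  · exact h.ann.angle_a v
  · exact h.ann.angle_b v

theorem geo_mem {u : ℝ} (hu : u = a ∨ u = b) : a ≤ u ∧ u ≤ b := by
  rcases hu with rfl | rfl
  · exact ⟨le_rfl, h.ann.hab.le⟩
  · exact ⟨h.ann.hab.le, le_rfl⟩

theorem geo_psiB {u : ℝ} (hu : u = a ∨ u = b) (v : ℝ) : ψ (u, v) ⬝ᵥ dv ψ (u, v) = 0 :=
  h.ann.bd_psiB (h.geo_mem hu) (h.bd_unit hu) v

theorem geo_psi {u : ℝ} (hu : u = a ∨ u = b) (v : ℝ) :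
    ψ (u, v) = (pu ψ (u, v) * (confE ψ (u, v))⁻¹) • du ψ (u, v) + Real.cos θ • normal ψ (u, v) :=
  h.ann.bd_psi (h.geo_mem hu) (h.bd_unit hu) (h.geo_angle hu) v

theorem bd_ww {u : ℝ} (hu : u = a ∨ u = b) (v : ℝ) : ww ψ θ (u, v) = 0 := by
  rw [ww, h.geo_angle hu v, sub_self]

theorem bd_psi_ph {u : ℝ} (hu : u = a ∨ u = b) (v : ℝ) :
    cv (ψ (u, v)) ⬝ᵥ ph ψ (u, v) = (pu ψ (u, v) : ℂ) / 2 := by
  rw [geo_ph_eq, dotProduct_smul, dotProduct_sub, dotProduct_smul, cv_dot, cv_dot,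
    h.geo_psiB hu v, pu]
  simp only [smul_eq_mul, ofReal_zero]
  ring

theorem bd_cross_u {u : ℝ} (hu : u = a ∨ u = b) (v : ℝ) :
    ψ (u, v) ⨯₃ du ψ (u, v) = Real.cos θ • dv ψ (u, v) := by
  have F := h.ann.fr (p := (u, v)) (h.geo_mem hu)
  conv_lhs => rw [h.geo_psi hu v]
  simp only [map_add, map_smul, LinearMap.add_apply, LinearMap.smul_apply, cross_self, F.NxA,
    smul_zero, zero_add]

theorem geo_cross_v {u : ℝ} (hu : u = a ∨ u = b) (v : ℝ) :
    ψ (u, v) ⨯₃ dv ψ (u, v) = pu ψ (u, v) • normal ψ (u, v) - Real.cos θ • du ψ (u, v) := by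
  have F := h.ann.fr (p := (u, v)) (h.geo_mem hu)
  have hE := F.pos.ne'
  conv_lhs => rw [h.geo_psi hu v]
  simp only [map_add, map_smul, LinearMap.add_apply, LinearMap.smul_apply, F.AxB, F.NxB,
    smul_smul, smul_neg]
  rw [mul_assoc, inv_mul_cancel₀ hE, mul_one, sub_eq_add_neg]

theorem bd_cross_N {u : ℝ} (hu : u = a ∨ u = b) (v : ℝ) :
    normal ψ (u, v) ⨯₃ ψ (u, v) = (pu ψ (u, v) / confE ψ (u, v)) • dv ψ (u, v) := by
  have F := h.ann.fr (p := (u, v)) (h.geo_mem hu)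
  conv_lhs => rw [h.geo_psi hu v]
  simp only [map_add, map_smul, cross_self, F.NxA, smul_zero, add_zero, div_eq_mul_inv]

theorem bd_K0_A {u : ℝ} (hu : u = a ∨ u = b) (v : ℝ) :
    K0 ψ θ (u, v) * Am ψ (u, v) = ((pu ψ (u, v) : ℂ) / 2) • (1 + Nm ψ (u, v)) := by
  have e : cv (ψ (u, v)) ⨯₃ ph ψ (u, v) = (I * (Real.cos θ : ℂ)) • ph ψ (u, v)
      - (I * (pu ψ (u, v) : ℂ) / 2) • cv (normal ψ (u, v)) := by
    rw [geo_ph_eq, map_smul, map_sub, map_smul, cv_cross, cv_cross, h.bd_cross_u hu v,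
      h.geo_cross_v hu v, cv_sub, cv_smul, cv_smul, cv_smul]
    ext i
    simp only [Pi.smul_apply, Pi.sub_apply, smul_eq_mul]
    linear_combination
      ((Real.cos θ : ℂ) * cv (dv ψ (u, v)) i / 2) * Complex.I_sq
  rw [K0, Am, Nm, add_mul, sg_mul, e, h.bd_psi_ph hu v, sg_sub, sg_smul, sg_smul, smul_mul_assoc,
    one_mul, smul_sub, smul_smul, smul_smul, smul_add]
  have e1 : I * (I * (Real.cos θ : ℂ)) = -(Real.cos θ : ℂ) := by
    linear_combination (Real.cos θ : ℂ) * Complex.I_sq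
  have e2 : I * (I * (pu ψ (u, v) : ℂ) / 2) = -((pu ψ (u, v) : ℂ) / 2) := by
    linear_combination ((pu ψ (u, v) : ℂ) / 2) * Complex.I_sq
  rw [e1, e2, neg_smul, neg_smul]
  abel

theorem bd_Ah_K0 {u : ℝ} (hu : u = a ∨ u = b) (v : ℝ) :
    (Am ψ (u, v))ᴴ * K0 ψ θ (u, v) = K0 ψ θ (u, v) * Am ψ (u, v) := by
  have e1 : (K0 ψ θ (u, v))ᴴ = K0 ψ θ (u, v) := by
    rw [K0, conjTranspose_add, conjTranspose_smul, conjTranspose_one, sg_ct, star_cv]
    simp only [RCLike.star_def, conj_ofReal]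
  have e2 : (K0 ψ θ (u, v) * Am ψ (u, v))ᴴ = K0 ψ θ (u, v) * Am ψ (u, v) := by
    rw [h.bd_K0_A hu v, conjTranspose_smul, conjTranspose_add, conjTranspose_one, Nm, sg_ct,
      star_cv]
    simp only [RCLike.star_def, map_div₀, conj_ofReal, map_ofNat]
  rw [← e2, conjTranspose_mul, e1]

theorem pu_b (v : ℝ) : pu ψ (b, v) = √(confE ψ (b, v)) * Real.sin θ := h.ann.s_b v

theorem pu_a (v : ℝ) : pu ψ (a, v) = -(√(confE ψ (a, v)) * Real.sin θ) := h.ann.s_a v

theorem bd_al {u : ℝ} (hu : u = a ∨ u = b) (v : ℝ) :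
    al ψ (u, v) * pu ψ (u, v) = confE ψ (u, v) - 2 * hq ψ b * Real.cos θ := by
  have ht : ((u, v) : ℝ × ℝ) ∈ strip a b := h.geo_mem hu
  have e := h.ann.bd_psiBv (h.geo_mem hu) (h.bd_unit hu) v
  rw [(h.ann.dBv ht).dv_eq] at e
  simp only [dotProduct_neg, dotProduct_add, dotProduct_sub, dotProduct_smul, smul_eq_mul] at e
  rw [h.geo_psiB hu v, dotProduct_comm (ψ (u, v)) (normal ψ (u, v)), h.geo_angle hu v,
    h.L_const ht] at e
  rw [pu]
  linarith

theorem geo_sm_ww (hp : p ∈ strip a b) : ContDiffAt ℝ ∞ (ww ψ θ) p :=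
  (sm_dot (h.ann.smN hp) (h.ann.smooth p hp)).sub contDiffAt_const

theorem geo_sm1 (hp : p ∈ strip a b) :
    ContDiffAt ℝ ∞ (fun r => -(2 * hq ψ b) / confE ψ r * pu ψ r) p := by
  simp only [div_eq_mul_inv]
  exact (contDiffAt_const.mul (h.ann.smEi hp)).mul (sm_dot (h.ann.smooth p hp) (h.ann.smA hp))

theorem geo_sm2 (hp : p ∈ strip a b) :
    ContDiffAt ℝ ∞ (fun r => 2 * hq ψ b / confE ψ r * (ψ r ⬝ᵥ dv ψ r)) p := by
  simp only [div_eq_mul_inv]
  exact (contDiffAt_const.mul (h.ann.smEi hp)).mul (sm_dot (h.ann.smooth p hp) (h.ann.smB hp))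

theorem geo_wu (hp : p ∈ strip a b) :
    du (ww ψ θ) p = -(2 * hq ψ b) / confE ψ p * pu ψ p := by
  have F := h.ann.fr hp
  have e := (((h.ann.dNu hp).dot (hasD_du (sm_diff (h.ann.smooth p hp)))).sub
    (HasD.const (Real.cos θ))).du_eq
  change du (ww ψ θ) p = _ at e
  rw [e, F.NA, h.L_const hp, smul_dotProduct, pu, dotProduct_comm (du ψ p), smul_eq_mul]
  ring

theorem geo_wv (hp : p ∈ strip a b) :
    dv (ww ψ θ) p = 2 * hq ψ b / confE ψ p * (ψ p ⬝ᵥ dv ψ p) := by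
  have F := h.ann.fr hp
  have e := (((h.ann.dNv hp).dot (hasD_dv (sm_diff (h.ann.smooth p hp)))).sub
    (HasD.const (Real.cos θ))).dv_eq
  change dv (ww ψ θ) p = _ at e
  rw [e, F.NB, h.L_const hp, smul_dotProduct, dotProduct_comm (dv ψ p), smul_eq_mul]
  ring

theorem geo_pd_ww : PD a b (ww ψ θ) (fun r => -(2 * hq ψ b) / confE ψ r * pu ψ r)
    (fun r => 2 * hq ψ b / confE ψ r * (ψ r ⬝ᵥ dv ψ r)) :=
  (PD.of_sm fun _ hp => h.geo_sm_ww hp).congr (fun _ _ => rfl) (fun _ hp => (h.geo_wu hp).symm)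
    fun _ hp => (h.geo_wv hp).symm

/-- first and second derivatives of the support function -/
theorem pd_ww : ∃ wuu wuv wvu wvv : ℝ × ℝ → ℝ,
    PD a b (ww ψ θ) (fun r => -(2 * hq ψ b) / confE ψ r * pu ψ r)
      (fun r => 2 * hq ψ b / confE ψ r * (ψ r ⬝ᵥ dv ψ r)) ∧
    PD a b (fun r => -(2 * hq ψ b) / confE ψ r * pu ψ r) wuu wuv ∧
    PD a b (fun r => 2 * hq ψ b / confE ψ r * (ψ r ⬝ᵥ dv ψ r)) wvu wvv ∧
    ∀ r ∈ strip a b, wuu r + wvv r =
      -(2 * (2 * hq ψ b) ^ 2 / confE ψ r) * (normal ψ r ⬝ᵥ ψ r) := by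
  refine ⟨_, _, _, _, h.geo_pd_ww, PD.of_sm fun _ hp => h.geo_sm1 hp,
    PD.of_sm fun _ hp => h.geo_sm2 hp, fun r hr => ?_⟩
  have F := h.ann.fr hr
  have hE := F.pos.ne'
  have e1 := (((HasD.const (-(2 * hq ψ b))).mul (h.ann.Eiu hr)).mul
    ((hasD_du (sm_diff (h.ann.smooth r hr))).dot (h.ann.dAu hr))).du_eq
  have e2 := (((HasD.const (2 * hq ψ b)).mul (h.ann.Eiv hr)).mul
    ((hasD_dv (sm_diff (h.ann.smooth r hr))).dot (h.ann.dBv hr))).dv_eq
  simp only [div_eq_mul_inv, pu]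
  rw [e1, e2]
  simp only [dotProduct_neg, dotProduct_add, dotProduct_sub, dotProduct_smul, smul_eq_mul,
    F.AA, F.BB, h.L_const hr]
  rw [dotProduct_comm (ψ r) (normal ψ r)]
  field_simp
  ring

theorem per_ww (hp : p ∈ strip a b) : ww ψ θ (p.1, p.2 + τ) = ww ψ θ p := by
  simp only [ww]
  rw [h.ann.perN p hp, h.ann.periodic p hp]

theorem ww_le (hp : p ∈ strip a b) : ww ψ θ p ≤ 1 - Real.cos θ := by
  have h1 : ψ p ⬝ᵥ ψ p ≤ 1 := by
    obtain ⟨u, v⟩ := p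
    rcases eq_or_lt_of_le hp.1 with e | e
    · exact (h.bd_unit (Or.inl e.symm) v).le
    · rcases eq_or_lt_of_le hp.2 with e' | e'
      · exact (h.bd_unit (Or.inr e') v).le
      · exact (h.ann.inside _ e e').le
  have h2 := (h.ann.fr hp).NN
  have h3 : normal ψ p ⬝ᵥ ψ p ≤ 1 := by
    simp only [dotProduct, Fin.sum_univ_three] at h1 h2 ⊢
    nlinarith [sq_nonneg (normal ψ p 0 - ψ p 0), sq_nonneg (normal ψ p 1 - ψ p 1),
      sq_nonneg (normal ψ p 2 - ψ p 2)]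
  rw [ww]
  linarith

/-- the support function exceeds its boundary value near the boundary -/
theorem ww_pos_near : ∃ u₀ ∈ Ioo a b, ∀ u ∈ Ioc a u₀, ∀ v, 0 < ww ψ θ (u, v) := by
  have hab := h.ann.hab
  set f : ℝ × ℝ → ℝ := fun r => -(2 * hq ψ b) / confE ψ r * pu ψ r with hf
  have hpos : ∀ v, 0 < f (a, v) := by
    intro v
    have hE := h.ann.immersion (a, v) (h.mem_a v)
    have hq := h.q_pos
    have hs := h.sin_pos
    have hr := Real.sqrt_pos.2 hE
    have e : f (a, v) = 2 * MP_c7e804_gt.hq ψ b / confE ψ (a, v) *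
        (√(confE ψ (a, v)) * Real.sin θ) := by
      simp only [hf]
      rw [h.pu_a v]
      ring
    rw [e]
    positivity
  have hev : ∀ᶠ x in nhds a, ∀ y ∈ Icc (0 : ℝ) τ, 0 < f (x, y) :=
    isCompact_Icc.eventually_forall_of_forall_eventually (P := fun x y => 0 < f (x, y))
      fun y _ => (h.geo_sm1 (h.mem_a y)).continuousAt.eventually (lt_mem_nhds (hpos y))
  obtain ⟨ε, hε, hball⟩ := Metric.eventually_nhds_iff.1 hev
  have hper : Per a b τ f := fun r hr => by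
    simp only [hf, pu]
    rw [h.ann.perE r hr, h.ann.perA r hr, h.ann.periodic r hr]
  have hu0 : a < min (a + ε / 2) ((a + b) / 2) := lt_min (by linarith) (by linarith)
  have hu1 : min (a + ε / 2) ((a + b) / 2) < b := (min_le_right _ _).trans_lt (by linarith)
  refine ⟨min (a + ε / 2) ((a + b) / 2), ⟨hu0, hu1⟩, fun u hu v => ?_⟩
  have hub : u < b := hu.2.trans_lt hu1
  have hue : u ≤ a + ε / 2 := hu.2.trans (min_le_left _ _)
  have hfpos : ∀ x ∈ Icc a u, 0 < f (x, v) := by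
    intro x hx
    have hxs : ((x, v) : ℝ × ℝ) ∈ strip a b := ⟨hx.1, hx.2.trans hub.le⟩
    obtain ⟨y, hy, e⟩ := per_reduce h.ann.hτ hper hxs
    rw [e]
    refine hball ?_ y hy
    rw [Real.dist_eq, abs_lt]
    constructor <;> linarith [hx.1, hx.2]
  have hder : ∀ x ∈ Icc a u, HasDerivAt (fun t => ww ψ θ (t, v)) (f (x, v)) x := by
    intro x hx
    have hxs : ((x, v) : ℝ × ℝ) ∈ strip a b := ⟨hx.1, hx.2.trans hub.le⟩
    have := hasDerivAt_line_u (sm_diff (h.geo_sm_ww hxs))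
    rwa [h.geo_wu hxs] at this
  have hmono : StrictMonoOn (fun t => ww ψ θ (t, v)) (Icc a u) := by
    refine strictMonoOn_of_deriv_pos (convex_Icc a u)
      (fun x hx => (hder x hx).continuousAt.continuousWithinAt) fun x hx => ?_
    have hx' : x ∈ Icc a u := interior_subset hx
    rw [(hder x hx').deriv]
    exact hfpos x hx'
  have := hmono (left_mem_Icc.2 hu.1.le) (right_mem_Icc.2 hu.1.le) hu.1
  simp only at this
  rwa [h.bd_ww (Or.inl rfl) v] at this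

theorem flux_const {u : ℝ} (hu : u ∈ Icc a b) : flux ψ τ u = flux ψ τ b := by
  have hA : PD a b (du ψ) (du (du ψ)) (dv (du ψ)) := PD.of_sm fun _ hp => h.ann.smA hp
  have hB : PD a b (dv ψ) (du (dv ψ)) (dv (dv ψ)) := PD.of_sm fun _ hp => h.ann.smB hp
  have hd : ∀ x ∈ Icc a b, HasDerivWithinAt (flux ψ τ) 0 (Icc a b) x := by
    intro x hx
    have e1 := hA.deriv_int_v 0 τ hx
    have e2 : ∫ r in (0 : ℝ)..τ, du (du ψ) (x, r) = 0 := by
      have e3 : ∀ r, du (du ψ) (x, r) = -dv (dv ψ) (x, r) := fun r => by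
        rw [h.ann.Bv (p := (x, r)) hx, neg_neg]
      simp only [e3]
      rw [intervalIntegral.integral_neg, hB.int_v hx 0 τ]
      have := h.ann.perB (x, 0) hx
      simp only [zero_add] at this
      rw [this, sub_self, neg_zero]
    rw [e2] at e1
    exact e1
  have hc := constant_of_has_deriv_right_zero (f := flux ψ τ) (a := a) (b := b)
    (fun x hx => (hd x hx).continuousWithinAt)
    fun x hx => (hd x (Ico_subset_Icc_self hx)).mono_of_mem_nhdsWithin (Icc_mem_nhdsGE_of_mem hx)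
  rw [hc u hu, hc b (right_mem_Icc.2 h.ann.hab.le)]

theorem int_ph {u : ℝ} (hu : u ∈ Icc a b) :
    ∫ v in (0 : ℝ)..τ, ph ψ (u, v) = (1 / 2 : ℂ) • cv (flux ψ τ b) := by
  have iA : IntervalIntegrable (fun v => du ψ (u, v)) MeasureTheory.volume 0 τ :=
    (cont_line_v h.pd_psi.contu hu).intervalIntegrable 0 τ
  have iB : IntervalIntegrable (fun v => dv ψ (u, v)) MeasureTheory.volume 0 τ :=
    (cont_line_v h.pd_psi.contv hu).intervalIntegrable 0 τ
  have cA : Continuous fun v => geoCv (du ψ (u, v)) :=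
    geoCv.continuous.comp (cont_line_v h.pd_psi.contu hu)
  have cB : Continuous fun v => I • geoCv (dv ψ (u, v)) :=
    (geoCv.continuous.comp (cont_line_v h.pd_psi.contv hu)).const_smul I
  have eB : ∫ v in (0 : ℝ)..τ, dv ψ (u, v) = 0 := by
    rw [h.pd_psi.int_v hu 0 τ]
    have := h.ann.periodic (u, 0) hu
    simp only [zero_add] at this
    rw [this, sub_self]
  simp only [geo_ph_eq, ← geoCv_apply]
  rw [intervalIntegral.integral_smul, intervalIntegral.integral_sub (cA.intervalIntegrable 0 τ)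
    (cB.intervalIntegrable 0 τ), intervalIntegral.integral_smul,
    geoCv.intervalIntegral_comp_comm iA, geoCv.intervalIntegral_comp_comm iB, eB, map_zero,
    smul_zero, sub_zero, ← h.flux_const hu, flux]

end Cap

end Pool.Agent.Lib.MP_c7e804_gt
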