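import Pool.Agent.Lib.MP_c7e804_gt.H43Alg
import Pool.Agent.Lib.MP_c7e804_gt.H43Int

/-!
Structure equations of the annulus in complex form.
-/

namespace Pool.Agent.Lib.MP_c7e804_gt

open Matrix Set Complex
open scoped ContDiff ComplexConjugate

theorem g1_clm {F G : Type} [NormedAddCommGroup F] [NormedSpace ℝ F] [NormedAddCommGroup G]
    [NormedSpace ℝ G] (L : F →L[ℝ] G) {w p : ℝ × ℝ} {f : ℝ × ℝ → F} {f' : F}
    (hf : HasD w f f' p) : HasD w (fun q => L (f q)) (L f') p := by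
  have h1 : HasFDerivAt (fun q => L (f q)) _ p := L.hasFDerivAt.comp p hf.1.hasFDerivAt
  refine ⟨h1.differentiableAt, ?_⟩
  rw [h1.fderiv, ← hf.2]; simp

theorem g1_ofReal {w p : ℝ × ℝ} {f : ℝ × ℝ → ℝ} {f' : ℝ} (hf : HasD w f f' p) :
    HasD w (fun q => (f q : ℂ)) (f' : ℂ) p := g1_clm Complex.ofRealCLM hf

theorem g1_cmul {w p : ℝ × ℝ} {f g : ℝ × ℝ → ℂ} {f' g' : ℂ} (hf : HasD w f f' p)
    (hg : HasD w g g' p) : HasD w (fun q => f q * g q) (f' * g p + f p * g') p := by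
  refine ⟨hf.1.mul hg.1, ?_⟩
  rw [fderiv_fun_mul hf.1 hg.1, ← hf.2, ← hg.2]; simp; ring

theorem g1_cdot {w p : ℝ × ℝ} {X Y : ℝ × ℝ → C3} {X' Y' : C3}
    (hX : ∀ i, HasD w (fun q => X q i) (X' i) p) (hY : ∀ i, HasD w (fun q => Y q i) (Y' i) p) :
    HasD w (fun q => X q ⬝ᵥ Y q) (X' ⬝ᵥ Y p + X p ⬝ᵥ Y') p := by
  have := ((g1_cmul (hX 0) (hY 0)).add (g1_cmul (hX 1) (hY 1))).add (g1_cmul (hX 2) (hY 2))
  simp only [dotProduct, Fin.sum_univ_three]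
  exact this.congr_val (by ring)

theorem g1_ccross {w p : ℝ × ℝ} {X Y : ℝ × ℝ → C3} {X' Y' : C3}
    (hX : ∀ i, HasD w (fun q => X q i) (X' i) p) (hY : ∀ i, HasD w (fun q => Y q i) (Y' i) p)
    (i : Fin 3) : HasD w (fun q => (X q ⨯₃ Y q) i) ((X' ⨯₃ Y p + X p ⨯₃ Y') i) p := by
  fin_cases i
  · have := (g1_cmul (hX 1) (hY 2)).sub (g1_cmul (hX 2) (hY 1))
    simp only [cross_apply]
    exact this.congr_val (by simp; ring)
  · have := (g1_cmul (hX 2) (hY 0)).sub (g1_cmul (hX 0) (hY 2))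
    simp only [cross_apply]
    exact this.congr_val (by simp; ring)
  · have := (g1_cmul (hX 0) (hY 1)).sub (g1_cmul (hX 1) (hY 0))
    simp only [cross_apply]
    exact this.congr_val (by simp; ring)

theorem g1_dph {ψ : ℝ × ℝ → V3} {w p : ℝ × ℝ} {A' B' : V3} (hA : HasD w (du ψ) A' p)
    (hB : HasD w (dv ψ) B' p) (i : Fin 3) :
    HasD w (fun r => ph ψ r i) (((A' i : ℂ) - I * (B' i : ℂ)) / 2) p := by
  have h1 := g1_cmul ((g1_ofReal (hA.apply i)).sub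
    (g1_cmul (HasD.const I) (g1_ofReal (hB.apply i)))) (HasD.const (2⁻¹ : ℂ))
  simp only [ph, div_eq_mul_inv]
  exact h1.congr_val (by ring)

theorem g1_ph_eq (ψ : ℝ × ℝ → V3) (p : ℝ × ℝ) :
    ph ψ p = (2⁻¹ : ℂ) • cv (du ψ p) - (I / 2) • cv (dv ψ p) := by
  ext i; simp [ph, cv]; ring

theorem g1_star_ph (ψ : ℝ × ℝ → V3) (p : ℝ × ℝ) :
    star (ph ψ p) = (2⁻¹ : ℂ) • cv (du ψ p) + (I / 2) • cv (dv ψ p) := by
  ext i; simp [ph, cv]; ring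

theorem g1_basis {x y z w : C3} (hd : (x ⨯₃ y) ⬝ᵥ z ≠ 0) (hx : x ⬝ᵥ w = 0) (hy : y ⬝ᵥ w = 0)
    (hz : z ⬝ᵥ w = 0) : w = 0 := by
  have e : ((x ⨯₃ y) ⬝ᵥ z) • w =
      (x ⬝ᵥ w) • (y ⨯₃ z) + (y ⬝ᵥ w) • (z ⨯₃ x) + (z ⬝ᵥ w) • (x ⨯₃ y) := by
    ext i; fin_cases i <;> simp [cross_apply, dotProduct, Fin.sum_univ_three] <;> ring
  rw [hx, hy, hz, zero_smul, zero_smul, zero_smul, add_zero, add_zero] at e
  exact (smul_eq_zero.1 e).resolve_left hd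

theorem g1_hd {a b τ : ℝ} {X : ℝ × ℝ → C3} (hX : ∀ i, Hol a b τ (fun r => X r i)) {p : ℝ × ℝ}
    (hp : p ∈ strip a b) (i : Fin 3) : HasD (1, 0) (fun q => X q i) (du3 X p i) p :=
  hasD_du (sm_diff ((hX i).sm p hp))

namespace Cap
variable {ψ : ℝ × ℝ → V3} {a b τ θ : ℝ} (h : Cap ψ a b τ θ) {p : ℝ × ℝ}
include h

theorem L_const (hp : p ∈ strip a b) : sffL ψ p = 2 * hq ψ b := by
  have hb : ((b, 0) : ℝ × ℝ) ∈ strip a b := ⟨h.ann.hab.le, le_rfl⟩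
  have := PD.eq_of_zero (PD.of_sm (a := a) (b := b) fun q hq => h.ann.smL hq)
    (fun q hq => (h.ann.Lu hq).du_eq) (fun q hq => (h.ann.Lv hq).dv_eq) p hp _ hb
  rw [this, hq]; ring

theorem q_pos : 0 < hq ψ b := by
  have := h.Lpos
  rw [hq]; linarith

theorem mem_a (v : ℝ) : ((a, v) : ℝ × ℝ) ∈ strip a b := ⟨le_rfl, h.ann.hab.le⟩

theorem mem_b (v : ℝ) : ((b, v) : ℝ × ℝ) ∈ strip a b := ⟨h.ann.hab.le, le_rfl⟩

theorem mem_bd {u : ℝ} (hu : u = a ∨ u = b) (v : ℝ) : ((u, v) : ℝ × ℝ) ∈ strip a b := by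
  rcases hu with rfl | rfl
  · exact h.mem_a v
  · exact h.mem_b v

theorem sin_pos : 0 < Real.sin θ := Real.sin_pos_of_pos_of_lt_pi h.ann.hθa.1 h.ann.hθa.2


theorem hol_ph (i : Fin 3) : Hol a b τ (fun r => ph ψ r i) := by
  refine ⟨fun q hq => ?_, fun q hq => ?_, fun q hq => ?_⟩
  · have h1 : ContDiffAt ℝ ∞ (fun r => ((du ψ r i : ℝ) : ℂ)) q :=
      Complex.ofRealCLM.contDiff.contDiffAt.comp q (sm_apply (h.ann.smA hq) i)
    have h2 : ContDiffAt ℝ ∞ (fun r => ((dv ψ r i : ℝ) : ℂ)) q :=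
      Complex.ofRealCLM.contDiff.contDiffAt.comp q (sm_apply (h.ann.smB hq) i)
    simp only [ph, div_eq_mul_inv]
    exact (h1.sub (contDiffAt_const.mul h2)).mul contDiffAt_const
  · have e1 := (g1_dph (hasD_du (sm_diff (h.ann.smA hq))) (hasD_du (sm_diff (h.ann.smB hq))) i).du_eq
    have e2 := (g1_dph (hasD_dv (sm_diff (h.ann.smA hq))) (hasD_dv (sm_diff (h.ann.smB hq))) i).dv_eq
    rw [e1, e2, h.ann.Bu hq, h.ann.Bv hq]
    simp only [Pi.neg_apply, ofReal_neg]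
    linear_combination (((dv (du ψ) q i : ℝ) : ℂ) / 2) * I_sq
  · simp only [ph]
    rw [h.ann.perA q hq, h.ann.perB q hq]

theorem hol_ph1 (i : Fin 3) : Hol a b τ (fun r => ph1 ψ r i) := (h.hol_ph i).du h.ann.hab

theorem hol_ph2 (i : Fin 3) : Hol a b τ (fun r => ph2 ψ r i) := (h.hol_ph1 i).du h.ann.hab

theorem hol_U : Hol a b τ (UU ψ b) := by
  have := ((((h.hol_ph2 0).mul (h.hol_ph2 0)).add ((h.hol_ph2 1).mul (h.hol_ph2 1))).add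
    ((h.hol_ph2 2).mul (h.hol_ph2 2))).const_mul (4 * (hq ψ b : ℂ) ^ 2)⁻¹
  have e : UU ψ b = fun r => (4 * (hq ψ b : ℂ) ^ 2)⁻¹ *
      (ph2 ψ r 0 * ph2 ψ r 0 + ph2 ψ r 1 * ph2 ψ r 1 + ph2 ψ r 2 * ph2 ψ r 2) := by
    funext r
    simp only [UU, dotProduct, Fin.sum_univ_three]
    rw [div_eq_inv_mul]
  rw [e]; exact this


theorem g1_ph1_eq (hp : p ∈ strip a b) :
    ph1 ψ p = gam ψ p • ph ψ p + (hq ψ b : ℂ) • cv (normal ψ p) := by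
  ext i
  have e := (g1_dph (h.ann.dAu hp) (h.ann.dBu hp) i).du_eq
  change ph1 ψ p i = _ at e
  rw [e, h.L_const hp]
  simp only [gam, ph, cv, Pi.add_apply, Pi.sub_apply, Pi.smul_apply, smul_eq_mul]
  push_cast
  linear_combination (-(be ψ p : ℂ) * (dv ψ p i : ℂ) / 2) * I_sq

theorem g1_N_ph (hp : p ∈ strip a b) : cv (normal ψ p) ⬝ᵥ ph ψ p = 0 := by
  have F := h.ann.fr hp
  rw [g1_ph_eq]
  simp only [dotProduct_sub, dotProduct_smul, cv_dot, F.NA, F.NB, smul_eq_mul, ofReal_zero]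
  ring

theorem g1_N_x_ph (hp : p ∈ strip a b) : cv (normal ψ p) ⨯₃ ph ψ p = I • ph ψ p := by
  have F := h.ann.fr hp
  rw [g1_ph_eq, map_sub, map_smul, map_smul, cv_cross, cv_cross, F.NxA, F.NxB]
  ext i
  simp only [cv, Pi.smul_apply, Pi.sub_apply, Pi.neg_apply, smul_eq_mul, ofReal_neg]
  linear_combination ((dv ψ p i : ℂ) / 2) * I_sq

theorem g1_ph_star (hp : p ∈ strip a b) :
    ph ψ p ⬝ᵥ star (ph ψ p) = (confE ψ p : ℂ) / 2 := by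
  have F := h.ann.fr hp
  rw [g1_star_ph, g1_ph_eq]
  simp only [sub_dotProduct, dotProduct_add, smul_dotProduct, dotProduct_smul, cv_dot, F.AA, F.BB,
    F.AB, F.BA, smul_eq_mul, ofReal_zero]
  linear_combination (-(confE ψ p : ℂ) / 4) * I_sq

theorem ph_ph (hp : p ∈ strip a b) : ph ψ p ⬝ᵥ ph ψ p = 0 := by
  have F := h.ann.fr hp
  rw [g1_ph_eq]
  simp only [sub_dotProduct, dotProduct_sub, smul_dotProduct, dotProduct_smul, cv_dot, F.AA, F.BB,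
    F.AB, F.BA, smul_eq_mul, ofReal_zero]
  linear_combination ((confE ψ p : ℂ) / 4) * I_sq

theorem ph_ph1 (hp : p ∈ strip a b) : ph ψ p ⬝ᵥ ph1 ψ p = 0 := by
  rw [h.g1_ph1_eq hp, dotProduct_add, dotProduct_smul, dotProduct_smul, h.ph_ph hp,
    dotProduct_comm, h.g1_N_ph hp]
  simp

theorem ph1_ph1 (hp : p ∈ strip a b) : ph1 ψ p ⬝ᵥ ph1 ψ p = (hq ψ b : ℂ) ^ 2 := by
  have hN : cv (normal ψ p) ⬝ᵥ cv (normal ψ p) = 1 := by rw [cv_dot, (h.ann.fr hp).NN]; simp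
  have h1 : ph ψ p ⬝ᵥ cv (normal ψ p) = 0 := by rw [dotProduct_comm, h.g1_N_ph hp]
  rw [h.g1_ph1_eq hp]
  simp only [add_dotProduct, dotProduct_add, smul_dotProduct, dotProduct_smul, h.ph_ph hp,
    h.g1_N_ph hp, h1, hN, smul_eq_mul]
  ring

theorem ph_ph2 (hp : p ∈ strip a b) : ph ψ p ⬝ᵥ ph2 ψ p = -(hq ψ b : ℂ) ^ 2 := by
  have := (g1_cdot (g1_hd h.hol_ph hp) (g1_hd h.hol_ph1 hp)).eq_of_strip h.ann.hab hp
    (HasD.const 0) fun q hq => h.ph_ph1 hq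
  change ph1 ψ p ⬝ᵥ ph1 ψ p + ph ψ p ⬝ᵥ ph2 ψ p = 0 at this
  rw [h.ph1_ph1 hp] at this
  linear_combination this

theorem ph1_ph2 (hp : p ∈ strip a b) : ph1 ψ p ⬝ᵥ ph2 ψ p = 0 := by
  have := (g1_cdot (g1_hd h.hol_ph1 hp) (g1_hd h.hol_ph1 hp)).eq_of_strip h.ann.hab hp
    (HasD.const _) fun q hq => h.ph1_ph1 hq
  change ph2 ψ p ⬝ᵥ ph1 ψ p + ph1 ψ p ⬝ᵥ ph2 ψ p = 0 at this
  rw [dotProduct_comm (ph2 ψ p)] at this
  linear_combination this / 2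

theorem ph2_ph2 (hp : p ∈ strip a b) :
    ph2 ψ p ⬝ᵥ ph2 ψ p = 4 * UU ψ b p * (hq ψ b : ℂ) ^ 2 := by
  have hq0 : (hq ψ b : ℂ) ≠ 0 := ofReal_ne_zero.2 h.q_pos.ne'
  simp only [UU]
  field_simp

theorem ph_x_ph1 (hp : p ∈ strip a b) :
    ph ψ p ⨯₃ ph1 ψ p = (-(I * hq ψ b)) • ph ψ p := by
  rw [h.g1_ph1_eq hp, map_add, map_smul, map_smul, cross_self, ← cross_anticomm,
    h.g1_N_x_ph hp]
  module

theorem ph_x_ph2 (hp : p ∈ strip a b) :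
    ph ψ p ⨯₃ ph2 ψ p = (-(I * hq ψ b)) • ph1 ψ p := by
  ext i
  have h2 : HasD (1, 0) (fun q => ((-(I * hq ψ b)) • ph ψ q) i) (((-(I * hq ψ b)) • ph1 ψ p) i) p := by
    have := g1_cmul (HasD.const (w := (1, 0)) (p := p) (-(I * (hq ψ b : ℂ)))) (g1_hd h.hol_ph hp i)
    simp only [Pi.smul_apply, smul_eq_mul]
    exact this.congr_val (by simp [ph1])
  have := (g1_ccross (g1_hd h.hol_ph hp) (g1_hd h.hol_ph1 hp) i).eq_of_strip h.ann.hab hp h2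
    fun q hq => by rw [h.ph_x_ph1 hq]
  change (ph1 ψ p ⨯₃ ph1 ψ p + ph ψ p ⨯₃ ph2 ψ p) i = _ at this
  rw [cross_self, zero_add] at this
  exact this

theorem ph3 (hp : p ∈ strip a b) :
    du3 (ph2 ψ) p = (-2 * du (UU ψ b) p) • ph ψ p - (4 * UU ψ b p) • ph1 ψ p := by
  have hq0 : (hq ψ b : ℂ) ≠ 0 := ofReal_ne_zero.2 h.q_pos.ne'
  have e1 := (g1_cdot (g1_hd h.hol_ph hp) (g1_hd h.hol_ph2 hp)).eq_of_strip h.ann.hab hp
    (HasD.const _) fun q hq => h.ph_ph2 hq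
  have e2 := (g1_cdot (g1_hd h.hol_ph1 hp) (g1_hd h.hol_ph2 hp)).eq_of_strip h.ann.hab hp
    (HasD.const _) fun q hq => h.ph1_ph2 hq
  have hU := g1_cmul (g1_cmul (HasD.const (4 : ℂ)) (hasD_du (sm_diff (h.hol_U.sm p hp))))
    (HasD.const ((hq ψ b : ℂ) ^ 2))
  have e3 := (g1_cdot (g1_hd h.hol_ph2 hp) (g1_hd h.hol_ph2 hp)).eq_of_strip h.ann.hab hp
    hU fun q hq => h.ph2_ph2 hq
  change ph1 ψ p ⬝ᵥ ph2 ψ p + _ = _ at e1
  change ph2 ψ p ⬝ᵥ ph2 ψ p + _ = _ at e2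
  rw [h.ph1_ph2 hp] at e1
  rw [h.ph2_ph2 hp] at e2
  rw [dotProduct_comm (du3 (ph2 ψ) p)] at e3
  have c10 : ph1 ψ p ⬝ᵥ ph ψ p = 0 := by rw [dotProduct_comm, h.ph_ph1 hp]
  have c20 : ph2 ψ p ⬝ᵥ ph ψ p = -(hq ψ b : ℂ) ^ 2 := by rw [dotProduct_comm, h.ph_ph2 hp]
  have c21 : ph2 ψ p ⬝ᵥ ph1 ψ p = 0 := by rw [dotProduct_comm, h.ph1_ph2 hp]
  rw [← sub_eq_zero]
  refine g1_basis (x := ph ψ p) (y := ph1 ψ p) (z := ph2 ψ p) ?_ ?_ ?_ ?_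
  · rw [h.ph_x_ph1 hp, smul_dotProduct, h.ph_ph2 hp, smul_eq_mul]
    exact mul_ne_zero (neg_ne_zero.2 (mul_ne_zero I_ne_zero hq0)) (neg_ne_zero.2 (pow_ne_zero 2 hq0))
  · simp only [dotProduct_sub, dotProduct_smul, smul_eq_mul, h.ph_ph hp, h.ph_ph1 hp]
    linear_combination e1
  · simp only [dotProduct_sub, dotProduct_smul, smul_eq_mul, c10, h.ph1_ph1 hp]
    linear_combination e2
  · simp only [dotProduct_sub, dotProduct_smul, smul_eq_mul, c20, c21]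
    linear_combination e3 / 2

theorem ph1_eq (hp : p ∈ strip a b) :
    ph1 ψ p = gam ψ p • ph ψ p + (hq ψ b : ℂ) • cv (normal ψ p) := h.g1_ph1_eq hp

theorem N_ph (hp : p ∈ strip a b) : cv (normal ψ p) ⬝ᵥ ph ψ p = 0 := h.g1_N_ph hp

theorem N_ph1 (hp : p ∈ strip a b) : cv (normal ψ p) ⬝ᵥ ph1 ψ p = hq ψ b := by
  have hN : cv (normal ψ p) ⬝ᵥ cv (normal ψ p) = 1 := by rw [cv_dot, (h.ann.fr hp).NN]; simp
  rw [h.ph1_eq hp, dotProduct_add, dotProduct_smul, dotProduct_smul, h.N_ph hp, hN]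
  simp

theorem N_ph2 (hp : p ∈ strip a b) : cv (normal ψ p) ⬝ᵥ ph2 ψ p = hq ψ b * gam ψ p := by
  have F := h.ann.fr hp
  have hE : (confE ψ p : ℂ) ≠ 0 := ofReal_ne_zero.2 F.pos.ne'
  have hN : ∀ i, HasD (1, 0) (fun q => cv (normal ψ q) i)
      (cv (-(sffL ψ p * (confE ψ p)⁻¹) • du ψ p) i) p :=
    fun i => g1_ofReal ((h.ann.dNu hp).apply i)
  have e := (g1_cdot hN (g1_hd h.hol_ph1 hp)).eq_of_strip h.ann.hab hp
    (HasD.const _) fun q hq => h.N_ph1 hq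
  change _ + cv (normal ψ p) ⬝ᵥ ph2 ψ p = 0 at e
  have hA : cv (du ψ p) ⬝ᵥ ph1 ψ p = gam ψ p * (confE ψ p : ℂ) / 2 := by
    rw [h.ph1_eq hp, g1_ph_eq]
    simp only [dotProduct_add, dotProduct_sub, dotProduct_smul, cv_dot, F.AA, F.AB, F.AN,
      smul_eq_mul, ofReal_zero]
    ring
  rw [cv_smul, smul_dotProduct, hA, h.L_const hp, smul_eq_mul] at e
  push_cast at e
  field_simp at e
  linear_combination e

theorem ph_ne (hp : p ∈ strip a b) : ph ψ p ≠ 0 := by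
  intro h0
  have := h.g1_ph_star hp
  rw [h0, zero_dotProduct] at this
  have hE : (confE ψ p : ℂ) ≠ 0 := ofReal_ne_zero.2 (h.ann.fr hp).pos.ne'
  exact hE (by linear_combination -2 * this)

theorem ph_star (hp : p ∈ strip a b) : ph ψ p ⬝ᵥ star (ph ψ p) = (confE ψ p : ℂ) / 2 := h.g1_ph_star hp

theorem N_x_ph (hp : p ∈ strip a b) : cv (normal ψ p) ⨯₃ ph ψ p = I • ph ψ p := h.g1_N_x_ph hp


omit h in
theorem cv_du (p : ℝ × ℝ) : cv (du ψ p) = ph ψ p + star (ph ψ p) := by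
  rw [g1_star_ph, g1_ph_eq]; module

omit h in
theorem cv_dv (p : ℝ × ℝ) : cv (dv ψ p) = I • (ph ψ p - star (ph ψ p)) := by
  rw [g1_star_ph, g1_ph_eq]
  ext i
  simp only [Pi.smul_apply, Pi.sub_apply, Pi.add_apply, smul_eq_mul]
  linear_combination (cv (dv ψ p) i) * I_sq


end Cap

end Pool.Agent.Lib.MP_c7e804_gt
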