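import Pool.Agent.Lib.MP_c7e804_gt.H43Geo1

/-!
Structure equations of the annulus in matrix form.
-/

namespace Pool.Agent.Lib.MP_c7e804_gt

open Matrix Set Complex
open scoped ContDiff ComplexConjugate

namespace Cap
variable {ψ : ℝ × ℝ → V3} {a b τ θ : ℝ} (h : Cap ψ a b τ θ) {p : ℝ × ℝ}
include h

theorem pd_psi : PD a b ψ (du ψ) (dv ψ) := PD.of_sm h.ann.smooth

theorem pd_N : PD a b (normal ψ) (fun r => (-(2 * hq ψ b) / confE ψ r) • du ψ r)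
    (fun r => (2 * hq ψ b / confE ψ r) • dv ψ r) := by
  refine (PD.of_sm fun r hr => h.ann.smN hr).congr (fun _ _ => rfl) (fun r hr => ?_)
    (fun r hr => ?_)
  · rw [(h.ann.dNu hr).du_eq, h.L_const hr, neg_div, div_eq_mul_inv]
  · rw [(h.ann.dNv hr).dv_eq, h.L_const hr, div_eq_mul_inv]

theorem pd_ph : PD a b (ph ψ) (ph1 ψ) (fun r => I • ph1 ψ r) :=
  PD.pi.2 fun i => (h.hol_ph i).pd

theorem pd_A : PDm a b (Am ψ) (fun r => sg (ph1 ψ r)) (fun r => I • sg (ph1 ψ r)) :=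
  (PDm.sg h.pd_ph).congr (fun _ _ => rfl) (fun _ _ => rfl) (fun r _ => (sg_smul I _).symm)

theorem pd_K0 : PDm a b (K0 ψ θ) (fun r => Am ψ r + (Am ψ r)ᴴ)
    (fun r => I • (Am ψ r - (Am ψ r)ᴴ)) := by
  refine ((PDm.const ((Real.cos θ : ℂ) • (1 : M2))).add (PDm.sg h.pd_psi.cv)).congr
    (fun _ _ => rfl) (fun r _ => ?_) (fun r _ => ?_)
  · rw [zero_add, cv_du, sg_add, Am, sg_ct]
  · rw [zero_add, cv_dv, sg_smul, sg_sub, Am, sg_ct]

theorem per_A (hp : p ∈ strip a b) : Am ψ (p.1, p.2 + τ) = Am ψ p :=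
  congrArg sg (funext fun i => (h.hol_ph i).per p hp)

theorem per_K0 (hp : p ∈ strip a b) : K0 ψ θ (p.1, p.2 + τ) = K0 ψ θ p := by
  rw [K0, K0, h.ann.periodic p hp]

theorem per_Nm (hp : p ∈ strip a b) : Nm ψ (p.1, p.2 + τ) = Nm ψ p := by
  rw [Nm, Nm, h.ann.perN p hp]

theorem cont_E : ContinuousOn (confE ψ) (strip a b) := fun _ hr =>
  (h.ann.smE hr).continuousAt.continuousWithinAt

theorem cont_gam : ContinuousOn (gam ψ) (strip a b) := fun _ hr =>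
  ((Complex.continuous_ofReal.continuousAt.comp (h.ann.smal hr).continuousAt).sub
    (continuousAt_const.mul (Complex.continuous_ofReal.continuousAt.comp
      (h.ann.smbe hr).continuousAt))).continuousWithinAt

theorem per_gam (hp : p ∈ strip a b) : gam ψ (p.1, p.2 + τ) = gam ψ p := by
  rw [gam, gam, h.ann.peral p hp, h.ann.perbe p hp]

theorem A_A (hp : p ∈ strip a b) : Am ψ p * Am ψ p = 0 := by
  rw [Am, sg_mul, h.ph_ph hp, cross_self, sg_zero, zero_smul, smul_zero, add_zero]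

theorem Ah_A (hp : p ∈ strip a b) :
    (Am ψ p)ᴴ * Am ψ p = ((confE ψ p : ℂ) / 2) • (1 + Nm ψ p) := by
  have e1 : (confE ψ p : ℂ) • cv (normal ψ p) = (2 * I) • (star (ph ψ p) ⨯₃ ph ψ p) := by
    rw [← cv_smul, ← (h.ann.fr hp).AxB, ← cv_cross, cv_du, cv_dv]
    generalize star (ph ψ p) = y
    generalize ph ψ p = x
    ext i
    fin_cases i <;> simp [cross_apply] <;> ring
  have e2 : I • (star (ph ψ p) ⨯₃ ph ψ p) = ((confE ψ p : ℂ) / 2) • cv (normal ψ p) := by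
    rw [div_eq_inv_mul, mul_smul, e1, smul_smul]
    congr 1
    ring
  rw [Am, sg_ct, sg_mul, dotProduct_comm, h.ph_star hp, ← sg_smul, e2, sg_smul, smul_add, Nm]

theorem N_A (hp : p ∈ strip a b) : Nm ψ p * Am ψ p = -Am ψ p := by
  rw [Nm, Am, sg_mul, h.N_ph hp, h.N_x_ph hp, sg_smul, smul_smul, I_mul_I, zero_smul, zero_add,
    neg_one_smul]

theorem A_N (hp : p ∈ strip a b) : Am ψ p * Nm ψ p = Am ψ p := by
  have e := sg_anti (cv (normal ψ p)) (ph ψ p)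
  rw [h.N_ph hp, mul_zero, zero_smul] at e
  have e' : Nm ψ p * Am ψ p + Am ψ p * Nm ψ p = 0 := e
  rw [h.N_A hp, neg_add_eq_zero] at e'
  exact e'.symm

theorem N_N (hp : p ∈ strip a b) : Nm ψ p * Nm ψ p = 1 := by
  rw [Nm, sg_mul, cv_dot, (h.ann.fr hp).NN, cross_self, sg_zero, smul_zero, add_zero,
    Complex.ofReal_one, one_smul]

theorem Ah_K0_A (hp : p ∈ strip a b) :
    (Am ψ p)ᴴ * K0 ψ θ p * Am ψ p = (-(ww ψ θ p : ℂ)) • ((Am ψ p)ᴴ * Am ψ p) := by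
  obtain ⟨s, t, e⟩ : ∃ s t : ℝ, ψ p = s • du ψ p + t • dv ψ p
      + (normal ψ p ⬝ᵥ ψ p) • normal ψ p :=
    ⟨_, _, by rw [dotProduct_comm (normal ψ p)]; exact (h.ann.fr hp).decomp (ψ p)⟩
  have e1 : sg (cv (ψ p)) = (s : ℂ) • (Am ψ p + (Am ψ p)ᴴ) + (t : ℂ) • I • (Am ψ p - (Am ψ p)ᴴ)
      + ((normal ψ p ⬝ᵥ ψ p : ℝ) : ℂ) • Nm ψ p := by
    have e2 := congrArg (fun x => sg (cv x)) e
    simp only [cv_add, cv_smul, sg_add, sg_smul, cv_du, cv_dv, sg_sub] at e2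
    rw [e2, Am, sg_ct, Nm]
  have h1 := h.A_A hp
  have h2 : (Am ψ p)ᴴ * (Am ψ p)ᴴ = 0 := by rw [← conjTranspose_mul, h1, conjTranspose_zero]
  have h3 : (Am ψ p)ᴴ * Am ψ p * Am ψ p = 0 := by rw [mul_assoc, h1, mul_zero]
  have h4 : (Am ψ p)ᴴ * Nm ψ p * Am ψ p = -((Am ψ p)ᴴ * Am ψ p) := by
    rw [mul_assoc, h.N_A hp, mul_neg]
  rw [K0, e1, ww]
  simp only [mul_add, add_mul, mul_sub, sub_mul, mul_smul_comm, smul_mul_assoc, mul_one, h2, h3,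
    h4, zero_mul, add_zero, sub_zero, smul_zero, zero_add, Complex.ofReal_sub]
  module

theorem sg_ph1 (hp : p ∈ strip a b) :
    sg (ph1 ψ p) = gam ψ p • Am ψ p + (hq ψ b : ℂ) • Nm ψ p := by
  rw [h.ph1_eq hp, sg_add, sg_smul, sg_smul, Am, Nm]

end Cap

end Pool.Agent.Lib.MP_c7e804_gt
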