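import Pool.Agent.Lib.MP_c7e804_gt.H43PD

/-!
Calculus on the strip: integrals and primitives.
-/

namespace Pool.Agent.Lib.MP_c7e804_gt

open Matrix Set Complex
open scoped ContDiff ComplexConjugate

section
variable {F : Type} [NormedAddCommGroup F] [NormedSpace ℝ F] [CompleteSpace F] {a b τ : ℝ}
  {f fu fv : ℝ × ℝ → F}

private def i1cl (a b u : ℝ) : ℝ := max a (min b u)

private theorem i1cl_mem (hab : a ≤ b) (u : ℝ) : i1cl a b u ∈ Icc a b :=
  ⟨le_max_left _ _, _root_.max_le hab (min_le_left _ _)⟩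

private theorem i1cl_eq {u : ℝ} (hu : u ∈ Icc a b) : i1cl a b u = u := by
  unfold i1cl
  rw [min_eq_right hu.2, max_eq_right hu.1]

private theorem i1cl_cont : Continuous (i1cl a b) :=
  continuous_const.max (continuous_const.min continuous_id)

omit [NormedSpace ℝ F] [CompleteSpace F] in
private theorem i1_cont (hab : a ≤ b) (h : ContinuousOn f (strip a b)) :
    Continuous (fun p : ℝ × ℝ => f (i1cl a b p.1, p.2)) :=
  h.comp_continuous ((i1cl_cont.comp continuous_fst).prodMk continuous_snd)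
    (fun p => i1cl_mem hab p.1)

omit [NormedSpace ℝ F] [CompleteSpace F] in
private theorem i1_line_v (h : ContinuousOn f (strip a b)) {u : ℝ} (hu : u ∈ Icc a b) :
    Continuous (fun v => f (u, v)) :=
  h.comp_continuous (continuous_const.prodMk continuous_id) (fun _ => hu)

omit [NormedSpace ℝ F] [CompleteSpace F] in
private theorem i1_line_u (h : ContinuousOn f (strip a b)) (v : ℝ) :
    ContinuousOn (fun u => f (u, v)) (Icc a b) :=
  h.comp (continuous_id.prodMk continuous_const).continuousOn (fun _ hu => hu)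

private theorem i1_ftc {m m' : ℝ → F}
    (h : ∀ u ∈ Icc a b, HasDerivWithinAt m (m' u) (Icc a b) u) (hc : ContinuousOn m' (Icc a b))
    {x x' : ℝ} (hx : x ∈ Icc a b) (hx' : x' ∈ Icc a b) :
    ∫ u in x..x', m' u = m x' - m x := by
  have hs : uIcc x x' ⊆ Icc a b := uIcc_subset_Icc hx hx'
  refine intervalIntegral.integral_eq_sub_of_hasDeriv_right
    (ContinuousOn.mono (fun u hu => (h u hu).continuousWithinAt) hs) (fun u hu => ?_)
    (hc.mono hs).intervalIntegrable
  have h1 : a < u := lt_of_le_of_lt (le_min hx.1 hx'.1) hu.1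
  have h2 : u < b := lt_of_lt_of_le hu.2 (_root_.max_le hx.2 hx'.2)
  exact ((h u ⟨h1.le, h2.le⟩).hasDerivAt (Icc_mem_nhds h1 h2)).hasDerivWithinAt

private theorem i1_prim {m' : ℝ → F} (hc : ContinuousOn m' (Icc a b)) {x u : ℝ}
    (hx : x ∈ Icc a b) (hu : u ∈ Icc a b) :
    HasDerivWithinAt (fun y => ∫ r in x..y, m' r) (m' u) (Icc a b) u := by
  have hab : a ≤ b := hx.1.trans hx.2
  have hg : Continuous (fun r => m' (i1cl a b r)) :=
    hc.comp_continuous i1cl_cont (i1cl_mem hab)
  have h1 := (hg.integral_hasStrictDerivAt x u).hasDerivAt.hasDerivWithinAt (s := Icc a b)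
  rw [i1cl_eq hu] at h1
  have e : ∀ y ∈ Icc a b, ∫ r in x..y, m' r = ∫ r in x..y, m' (i1cl a b r) := fun y hy =>
    intervalIntegral.integral_congr fun r hr => by
      simp only [i1cl_eq (uIcc_subset_Icc hx hy hr)]
  exact h1.congr e (e u hu)

theorem PD.int_u (h : PD a b f fu fv) {x x' : ℝ} (hx : x ∈ Icc a b) (hx' : x' ∈ Icc a b) (v : ℝ) :
    ∫ r in x..x', fu (r, v) = f (x', v) - f (x, v) :=
  i1_ftc (m := fun r => f (r, v)) (m' := fun r => fu (r, v)) (fun u hu => h.hu (u, v) hu)
    (i1_line_u h.contu v) hx hx'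

theorem PD.int_v (h : PD a b f fu fv) {u : ℝ} (hu : u ∈ Icc a b) (y y' : ℝ) :
    ∫ r in y..y', fv (u, r) = f (u, y') - f (u, y) :=
  intervalIntegral.integral_eq_sub_of_hasDerivAt (f := fun r => f (u, r))
    (f' := fun r => fv (u, r)) (fun r _ => h.hv (u, r) hu)
    ((i1_line_v h.contv hu).intervalIntegrable _ _)

theorem contOn_int_v (h : ContinuousOn f (strip a b)) (y y' : ℝ) :
    ContinuousOn (fun u => ∫ r in y..y', f (u, r)) (Icc a b) := by
  intro u hu
  have hab : a ≤ b := hu.1.trans hu.2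
  have hc : Continuous (fun u => ∫ r in y..y', f (i1cl a b u, r)) :=
    intervalIntegral.continuous_parametric_intervalIntegral_of_continuous'
      (f := fun u r => f (i1cl a b u, r)) (i1_cont hab h) y y'
  refine hc.continuousOn.congr (fun x hx => ?_) u hu
  simp only [i1cl_eq hx]

theorem cont_int_u (h : ContinuousOn f (strip a b)) {x x' : ℝ} (hx : x ∈ Icc a b)
    (hx' : x' ∈ Icc a b) : Continuous (fun v => ∫ r in x..x', f (r, v)) := by
  have hab : a ≤ b := hx.1.trans hx.2
  have hc : Continuous (fun v => ∫ r in x..x', f (i1cl a b r, v)) :=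
    intervalIntegral.continuous_parametric_intervalIntegral_of_continuous'
      (f := fun v r => f (i1cl a b r, v)) ((i1_cont hab h).comp continuous_swap) x x'
  refine hc.congr fun v => intervalIntegral.integral_congr fun r hr => ?_
  simp only [i1cl_eq (uIcc_subset_Icc hx hx' hr)]

theorem fubini_strip (h : ContinuousOn f (strip a b)) {x x' : ℝ} (hx : x ∈ Icc a b)
    (hx' : x' ∈ Icc a b) (y y' : ℝ) :
    ∫ r in x..x', ∫ t in y..y', f (r, t) = ∫ t in y..y', ∫ r in x..x', f (r, t) := by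
  refine MeasureTheory.intervalIntegral_intervalIntegral_swap (F := fun r t => f (r, t)) ?_
  have hK : IsCompact (uIcc x x' ×ˢ uIcc y y') := isCompact_uIcc.prod isCompact_uIcc
  have hc : ContinuousOn f (uIcc x x' ×ˢ uIcc y y') :=
    h.mono fun p hp => uIcc_subset_Icc hx hx' hp.1
  exact (hc.integrableOn_compact hK).mono_set (prod_mono uIoc_subset_uIcc uIoc_subset_uIcc)

/-- differentiation under the integral sign, `u`-direction -/
theorem PD.deriv_int_v (h : PD a b f fu fv) (y y' : ℝ) {u : ℝ} (hu : u ∈ Icc a b) :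
    HasDerivWithinAt (fun x => ∫ r in y..y', f (x, r)) (∫ r in y..y', fu (u, r)) (Icc a b) u := by
  have h1 := (i1_prim (contOn_int_v h.contu y y') hu hu).const_add (∫ r in y..y', f (u, r))
  have e : ∀ x ∈ Icc a b, ∫ r in y..y', f (x, r) =
      (∫ r in y..y', f (u, r)) + ∫ s in u..x, ∫ r in y..y', fu (s, r) := fun x hx => by
    rw [fubini_strip h.contu hu hx y y',
      intervalIntegral.integral_congr (g := fun t => f (x, t) - f (u, t))
        (fun t _ => h.int_u hu hx t),
      intervalIntegral.integral_sub ((i1_line_v h.cont hx).intervalIntegrable _ _)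
        ((i1_line_v h.cont hu).intervalIntegrable _ _)]
    abel
  exact h1.congr e (e u hu)

/-- differentiation under the integral sign, `v`-direction -/
theorem PD.deriv_int_u (h : PD a b f fu fv) {x x' : ℝ} (hx : x ∈ Icc a b) (hx' : x' ∈ Icc a b)
    (v : ℝ) : HasDerivAt (fun y => ∫ r in x..x', f (r, y)) (∫ r in x..x', fv (r, v)) v := by
  have h1 := (((cont_int_u h.contv hx hx').integral_hasStrictDerivAt v v).hasDerivAt).const_add
    (∫ r in x..x', f (r, v))
  have hs : uIcc x x' ⊆ Icc a b := uIcc_subset_Icc hx hx'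
  have e : (fun y => ∫ r in x..x', f (r, y)) =
      fun y => (∫ r in x..x', f (r, v)) + ∫ t in v..y, ∫ r in x..x', fv (r, t) := by
    funext y
    rw [← fubini_strip h.contv hx hx' v y,
      intervalIntegral.integral_congr (g := fun r => f (r, y) - f (r, v))
        (fun r hr => h.int_v (hs hr) v y),
      intervalIntegral.integral_sub ((i1_line_u h.cont y).mono hs).intervalIntegrable
        ((i1_line_u h.cont v).mono hs).intervalIntegrable]
    abel
  rw [e]
  exact h1

/-- `PD` from the two integral formulas -/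
theorem PD.of_int (hf : ContinuousOn f (strip a b)) (hu : ContinuousOn fu (strip a b))
    (hv : ContinuousOn fv (strip a b))
    (h1 : ∀ p ∈ strip a b, f p = f (b, p.2) + ∫ r in b..p.1, fu (r, p.2))
    (h2 : ∀ p ∈ strip a b, f p = f (p.1, 0) + ∫ r in (0 : ℝ)..p.2, fv (p.1, r)) :
    PD a b f fu fv := by
  refine ⟨hf, hu, hv, fun p hp => ?_, fun p hp => ?_⟩
  · have hp' : p.1 ∈ Icc a b := hp
    have hb : b ∈ Icc a b := right_mem_Icc.2 (hp'.1.trans hp'.2)
    have h3 := (i1_prim (i1_line_u hu p.2) hb hp').const_add (f (b, p.2))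
    exact h3.congr (fun x hx => h1 (x, p.2) hx) (h1 (p.1, p.2) hp)
  · have hp' : p.1 ∈ Icc a b := hp
    have h3 := (((i1_line_v hv hp').integral_hasStrictDerivAt 0 p.2).hasDerivAt).const_add
      (f (p.1, 0))
    have e : (fun y => f (p.1, y)) = fun y => f (p.1, 0) + ∫ r in (0 : ℝ)..y, fv (p.1, r) :=
      funext fun y => h2 (p.1, y) hp
    rw [e]
    exact h3

theorem PD.eq_of_zero (h : PD a b f fu fv) (h1 : ∀ p ∈ strip a b, fu p = 0)
    (h2 : ∀ p ∈ strip a b, fv p = 0) : ∀ p ∈ strip a b, ∀ r ∈ strip a b, f p = f r := by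
  intro p hp r hr
  have hp' : p.1 ∈ Icc a b := hp
  have hr' : r.1 ∈ Icc a b := hr
  have e1 := h.int_u hr' hp' p.2
  have e2 := h.int_v hr' r.2 p.2
  rw [intervalIntegral.integral_congr (g := fun _ => (0 : F))
    (fun x hx => h1 (x, p.2) (uIcc_subset_Icc hr' hp' hx)), intervalIntegral.integral_zero] at e1
  rw [intervalIntegral.integral_congr (g := fun _ => (0 : F))
    (fun y _ => h2 (r.1, y) hr), intervalIntegral.integral_zero] at e2
  exact (sub_eq_zero.1 e1.symm).trans (sub_eq_zero.1 e2.symm)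

theorem PD.line_const (h : PD a b f fu fv) {u : ℝ} (hu : u ∈ Icc a b) (h2 : ∀ v, fv (u, v) = 0)
    (v v' : ℝ) : f (u, v) = f (u, v') := by
  have e := h.int_v hu v' v
  simp only [h2, intervalIntegral.integral_zero] at e
  exact sub_eq_zero.1 e.symm

/-- a closed one-form `P du + Q dv` has the primitive vanishing at `(b, 0)` -/
theorem PD.primitive {P Pu Pv Q Qu Qv : ℝ × ℝ → F} (hab : a ≤ b) (hP : PD a b P Pu Pv)
    (hQ : PD a b Q Qu Qv) (hc : ∀ p ∈ strip a b, Pv p = Qu p) :
    PD a b (fun p => (∫ t in (0 : ℝ)..p.2, Q (b, t)) + ∫ r in b..p.1, P (r, p.2)) P Q := by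
  have hb : b ∈ Icc a b := right_mem_Icc.2 hab
  have hQb : Continuous (fun t => Q (b, t)) := i1_line_v hQ.cont hb
  refine ⟨?_, hP.cont, hQ.cont, fun p hp => ?_, fun p hp => ?_⟩
  · have c1 : Continuous (fun y => ∫ t in (0 : ℝ)..y, Q (b, t)) :=
      continuous_iff_continuousAt.2 fun y =>
        (hQb.integral_hasStrictDerivAt 0 y).hasDerivAt.continuousAt
    have c2 : Continuous (fun p : ℝ × ℝ => ∫ r in b..p.1, P (i1cl a b r, p.2)) :=
      intervalIntegral.continuous_parametric_intervalIntegral_of_continuous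
        (f := fun (p : ℝ × ℝ) r => P (i1cl a b r, p.2))
        ((i1_cont hab hP.cont).comp (continuous_snd.prodMk (continuous_snd.comp continuous_fst)))
        continuous_fst
    refine ((c1.comp continuous_snd).add c2).continuousOn.congr fun p hp => ?_
    have hp' : p.1 ∈ Icc a b := hp
    have e : ∫ r in b..p.1, P (r, p.2) = ∫ r in b..p.1, P (i1cl a b r, p.2) :=
      intervalIntegral.integral_congr fun r hr => by
        simp only [i1cl_eq (uIcc_subset_Icc hb hp' hr)]
    simp only [e]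
    rfl
  · have hp' : p.1 ∈ Icc a b := hp
    exact (i1_prim (i1_line_u hP.cont p.2) hb hp').const_add (∫ t in (0 : ℝ)..p.2, Q (b, t))
  · have hp' : p.1 ∈ Icc a b := hp
    have h1 := ((hQb.integral_hasStrictDerivAt 0 p.2).hasDerivAt).add (hP.deriv_int_u hb hp' p.2)
    have e : Q (b, p.2) + ∫ r in b..p.1, Pv (r, p.2) = Q p := by
      rw [intervalIntegral.integral_congr (g := fun r => Qu (r, p.2))
        (fun r hr => hc (r, p.2) (uIcc_subset_Icc hb hp' hr)), hQ.int_u hb hp' p.2]
      abel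
    rw [e] at h1
    exact h1

omit [CompleteSpace F] in
private theorem i1_nhds {p : ℝ × ℝ} (h1 : a < p.1) (h2 : p.1 < b) :
    {q : ℝ × ℝ | a < q.1 ∧ q.1 < b} ∈ nhds p :=
  ((isOpen_lt continuous_const continuous_fst).inter
    (isOpen_lt continuous_fst continuous_const)).mem_nhds ⟨h1, h2⟩

theorem PD.hasFDerivAt (h : PD a b f fu fv) {p : ℝ × ℝ} (h1 : a < p.1) (h2 : p.1 < b) :
    HasFDerivAt f ((ContinuousLinearMap.fst ℝ ℝ ℝ).smulRight (fu p)
      + (ContinuousLinearMap.snd ℝ ℝ ℝ).smulRight (fv p)) p := by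
  have hn := i1_nhds h1 h2
  have hs : strip a b ∈ nhds p := Filter.mem_of_superset hn fun q hq => ⟨hq.1.le, hq.2.le⟩
  have c : Continuous (fun w : F => ContinuousLinearMap.toSpanSingleton ℝ w) :=
    (ContinuousLinearMap.toSpanSingletonCLE (𝕜 := ℝ) (E := F)).continuous
  have h3 := hasStrictFDerivAt_uncurry_coprod (𝕜 := ℝ) (u := p) (f := fun x y => f (x, y))
    (f₁ := fun x y => ContinuousLinearMap.toSpanSingleton ℝ (fu (x, y)))
    (f₂ := fun x y => ContinuousLinearMap.toSpanSingleton ℝ (fv (x, y)))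
    (Filter.mem_of_superset hn fun q hq =>
      ((h.hu q ⟨hq.1.le, hq.2.le⟩).hasDerivAt (Icc_mem_nhds hq.1 hq.2)).hasFDerivAt)
    (Filter.mem_of_superset hs fun q hq => (h.hv q hq).hasFDerivAt)
    (c.continuousAt.comp (h.contu.continuousAt hs))
    (c.continuousAt.comp (h.contv.continuousAt hs))
  refine h3.hasFDerivAt.congr_fderiv ?_
  ext <;> simp [Function.HasUncurry.uncurry]

theorem PD.contDiffAt (h : PD a b f fu fv) {p : ℝ × ℝ} (h1 : a < p.1) (h2 : p.1 < b) :
    ContDiffAt ℝ 1 f p := by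
  refine contDiffAt_one_iff.2 ⟨fun q => (ContinuousLinearMap.fst ℝ ℝ ℝ).smulRight (fu q)
      + (ContinuousLinearMap.snd ℝ ℝ ℝ).smulRight (fv q), _, i1_nhds h1 h2, ?_,
    fun q hq => h.hasFDerivAt hq.1 hq.2⟩
  have hsub : {q : ℝ × ℝ | a < q.1 ∧ q.1 < b} ⊆ strip a b := fun q hq => ⟨hq.1.le, hq.2.le⟩
  exact (((ContinuousLinearMap.smulRightL ℝ (ℝ × ℝ) F
      (ContinuousLinearMap.fst ℝ ℝ ℝ)).continuous.comp_continuousOn (h.contu.mono hsub)).add
    ((ContinuousLinearMap.smulRightL ℝ (ℝ × ℝ) F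
      (ContinuousLinearMap.snd ℝ ℝ ℝ)).continuous.comp_continuousOn (h.contv.mono hsub)))

/-- fundamental theorem of calculus on `[a, b]` for one-sided derivatives -/
theorem ftc_Icc {m m' : ℝ → F} (hab : a ≤ b)
    (h : ∀ u ∈ Icc a b, HasDerivWithinAt m (m' u) (Icc a b) u) (hc : ContinuousOn m' (Icc a b)) :
    ∫ u in a..b, m' u = m b - m a :=
  i1_ftc h hc (left_mem_Icc.2 hab) (right_mem_Icc.2 hab)

end

end Pool.Agent.Lib.MP_c7e804_gt
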