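import Pool.Agent.Lib.MP_c7e804_gt.H43K1

/-!
A boundary gradient estimate.
-/

namespace Pool.Agent.Lib.MP_c7e804_gt

open Matrix Set Complex
open scoped ContDiff ComplexConjugate

namespace Cap
variable {ψ : ℝ × ℝ → V3} {a b τ θ : ℝ} (h : Cap ψ a b τ θ) {c : ℝ × ℝ → C2}
include h

/-- boundary gradient estimate for the superharmonic function `c^* K c` -/
theorem key5 {κ : ℝ} {μ : ℂ} (hκ : ∀ r ∈ strip a b, 0 ≤ 1 + κ * ww ψ θ r)
    (hc : Floq ψ a b τ κ μ c) (hμ : ‖μ‖ = 1) {na nb : ℝ}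
    (ha : ∀ v, hf (c (a, v)) (Km ψ θ κ (a, v)) (c (a, v)) = na)
    (hb : ∀ v, hf (c (b, v)) (Km ψ θ κ (b, v)) (c (b, v)) = nb) (hlt : nb < na) (v : ℝ) :
    0 < ff ψ c (b, v) := by
  obtain ⟨gu, gv, hfb, hΔ⟩ := h.pd_fb hc.sol
  have split : ∀ r, (hf (c r) (Km ψ θ κ r) (c r)).re =
      (hf (c r) 1 (c r)).re + κ * (hf (c r) (K0 ψ θ r) (c r)).re := fun r => by
    rw [Km, hf_add, hf_smul, Complex.add_re, Complex.re_ofReal_mul]
  have h1 : PD a b (fun r => (hf (c r) (Km ψ θ κ r) (c r)).re)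
      (fun r => -(2 * κ ^ 2) * (hf (c r) (K0 ψ θ r * Am ψ r) (c r)).re)
      (fun r => 2 * κ ^ 2 * (hf (c r) (K0 ψ θ r * Am ψ r) (c r)).im) := by
    refine ((h.pd_n1 hc.sol).add ((PD.const κ).rmul (h.pd_n0 hc.sol))).congr
      (fun r _ => split r) (fun r _ => ?_) (fun r _ => ?_)
    · simp only [Complex.sub_re, Complex.re_ofReal_mul]
      ring
    · simp only [Complex.sub_im, Complex.im_ofReal_mul]
      ring
  have h2 := (PD.const (-(2 * κ ^ 2))).rmul hfb.re
  have h3 := (PD.const (2 * κ ^ 2)).rmul hfb.im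
  have hper : ∀ p ∈ strip a b, (hf (c (p.1, p.2 + τ)) (Km ψ θ κ (p.1, p.2 + τ))
      (c (p.1, p.2 + τ))).re = (hf (c p) (Km ψ θ κ p) (c p)).re := fun p hp => by
    have e : conj μ * μ = 1 := by
      rw [Complex.conj_mul', hμ]
      simp
    rw [hc.per p hp, hf_smul_smul, e, one_mul, Km, Km, h.per_K0 hp]
  have h4 := (grad_estimate h.ann.hab h.ann.hτ h1 h2 h3 hper (fun p hp => by
      have e := congrArg Complex.re (hΔ p hp)
      simp only [Complex.add_re, Complex.mul_re, Complex.I_re, Complex.I_im, Complex.conj_ofReal,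
        Complex.ofReal_re, Complex.ofReal_im, Complex.one_re, Complex.add_im, Complex.mul_im,
        mul_zero, zero_mul, sub_zero, one_mul] at e
      have h5 : 0 ≤ (1 + κ * ww ψ θ p) * (confE ψ p * ff ψ c p) :=
        mul_nonneg (hκ p hp) (mul_nonneg (h.ann.immersion p hp).le (h.ff_eq c hp).2)
      have h6 := mul_nonneg (sq_nonneg κ) h5
      rw [← e] at h6
      linarith)
    (ga := na) (gb := nb) (fun v => by simp only [ha v, Complex.ofReal_re])
    (fun v => by simp only [hb v, Complex.ofReal_re])).2 v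
  have h5 : (nb - na) / (b - a) < 0 :=
    div_neg_of_neg_of_pos (sub_neg.2 hlt) (sub_pos.2 h.ann.hab)
  simp only [h.bd_fb c (Or.inr rfl) v, Complex.ofReal_re] at h4
  have h6 : 0 < pu ψ (b, v) := by
    rw [h.pu_b v]
    exact mul_pos (Real.sqrt_pos.2 (h.ann.immersion _ (h.mem_b v))) h.sin_pos
  refine (h.ff_eq c (h.mem_b v)).2.lt_of_ne fun e => ?_
  rw [← e] at h4
  linarith

end Cap

end Pool.Agent.Lib.MP_c7e804_gt
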