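import Pool.Agent.Lib.MP_c7e804_gt.H43KAv

/-!
The four key consequences of the positivity of the weight.
-/

namespace Pool.Agent.Lib.MP_c7e804_gt

open Matrix Set Complex
open scoped ContDiff ComplexConjugate

/-- integrating factor -/
theorem k1_factor {a b β x₀ : ℝ} (hab : a ≤ b) {m s : ℝ → ℂ}
    (hm : ∀ u ∈ Icc a b, HasDerivWithinAt m (s u - 2 * I * β * m u) (Icc a b) u)
    (hs : ContinuousOn s (Icc a b)) :
    ∫ u in a..b, Complex.exp (((2 * β * (u - x₀) : ℝ) : ℂ) * I) * s u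
      = Complex.exp (((2 * β * (b - x₀) : ℝ) : ℂ) * I) * m b
        - Complex.exp (((2 * β * (a - x₀) : ℝ) : ℂ) * I) * m a := by
  have he : ∀ u : ℝ, HasDerivAt (fun u : ℝ => Complex.exp (((2 * β * (u - x₀) : ℝ) : ℂ) * I))
      (Complex.exp (((2 * β * (u - x₀) : ℝ) : ℂ) * I) * (((2 * β : ℝ) : ℂ) * I)) u := by
    intro u
    have h1 : HasDerivAt (fun u : ℝ => 2 * β * (u - x₀)) (2 * β) u := by
      simpa using ((hasDerivAt_id u).sub_const x₀).const_mul (2 * β)
    exact (h1.ofReal_comp.mul_const I).cexp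
  refine ftc_Icc (m := fun u : ℝ => Complex.exp (((2 * β * (u - x₀) : ℝ) : ℂ) * I) * m u) hab
    (fun u hu => ?_) ?_
  · have h2 := ((he u).hasDerivWithinAt (s := Icc a b)).mul (hm u hu)
    refine HasDerivWithinAt.congr_deriv h2 ?_
    push_cast
    ring
  · refine ContinuousOn.mul (Continuous.continuousOn ?_) hs
    fun_prop

theorem k1_re_im {a b β x₀ : ℝ} (hab : a ≤ b) {s : ℝ → ℝ} (hs : ContinuousOn s (Icc a b)) :
    (∫ u in a..b, Complex.exp (((2 * β * (u - x₀) : ℝ) : ℂ) * I) * (s u : ℂ)).re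
        = ∫ u in a..b, Real.cos (2 * β * (u - x₀)) * s u ∧
      (∫ u in a..b, Complex.exp (((2 * β * (u - x₀) : ℝ) : ℂ) * I) * (s u : ℂ)).im
        = ∫ u in a..b, Real.sin (2 * β * (u - x₀)) * s u := by
  have hi : IntervalIntegrable
      (fun u : ℝ => Complex.exp (((2 * β * (u - x₀) : ℝ) : ℂ) * I) * (s u : ℂ))
      MeasureTheory.volume a b := by
    refine ContinuousOn.intervalIntegrable ?_
    rw [uIcc_of_le hab]
    refine ContinuousOn.mul (Continuous.continuousOn ?_)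
      (Complex.continuous_ofReal.comp_continuousOn hs)
    fun_prop
  constructor
  · have h1 := (Complex.reCLM.intervalIntegral_comp_comm hi).symm
    simp only [Complex.reCLM_apply] at h1
    rw [h1]
    refine intervalIntegral.integral_congr fun u _ => ?_
    simp only [Complex.mul_re, Complex.exp_ofReal_mul_I_re, Complex.ofReal_re, Complex.ofReal_im,
      mul_zero, sub_zero]
  · have h1 := (Complex.imCLM.intervalIntegral_comp_comm hi).symm
    simp only [Complex.imCLM_apply] at h1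
    rw [h1]
    refine intervalIntegral.integral_congr fun u _ => ?_
    simp only [Complex.mul_im, Complex.exp_ofReal_mul_I_im, Complex.ofReal_re, Complex.ofReal_im,
      mul_zero, zero_add]

theorem k1_av_add {a b τ β : ℝ} {f g : ℝ × ℝ → ℂ} (hf : ContinuousOn f (strip a b))
    (hg : ContinuousOn g (strip a b)) (k : ℂ) {u : ℝ} (hu : u ∈ Icc a b) :
    av τ β (fun r => f r + k * g r) u = av τ β f u + k * av τ β g u := by
  have h1 := cont_line_v hf hu
  have h2 := cont_line_v hg hu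
  have he : Continuous fun v : ℝ => ((Real.exp (-2 * β * v) : ℝ) : ℂ) := by fun_prop
  unfold av
  have c1 : Continuous fun v : ℝ => ((Real.exp (-2 * β * v) : ℝ) : ℂ) * f (u, v) := he.mul h1
  have c2 : Continuous fun v : ℝ => k * (((Real.exp (-2 * β * v) : ℝ) : ℂ) * g (u, v)) :=
    continuous_const.mul (he.mul h2)
  rw [← intervalIntegral.integral_const_mul, ← intervalIntegral.integral_add
    (c1.intervalIntegrable _ _) (c2.intervalIntegrable _ _)]
  refine intervalIntegral.integral_congr fun v _ => ?_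
  simp only
  ring

theorem k1_hf_Km (ψ : ℝ × ℝ → V3) (θ : ℝ) (κ : ℂ) (x : C2) (r : ℝ × ℝ) :
    hf x (Km ψ θ κ r * Am ψ r) x = hf x (Am ψ r) x + κ * hf x (K0 ψ θ r * Am ψ r) x := by
  rw [Km, add_mul, one_mul, smul_mul_assoc, hf_add, hf_smul]

namespace Cap
variable {ψ : ℝ × ℝ → V3} {a b τ θ : ℝ} (h : Cap ψ a b τ θ)
  (hw : ∀ r ∈ strip a b, 0 ≤ ww ψ θ r) {c : ℝ × ℝ → C2}

include h in
theorem k1_av_Km {κ κ' : ℂ} (hc : IsSol a b (Am ψ) κ' c) (β : ℝ) {u : ℝ} (hu : u ∈ Icc a b) :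
    av τ β (fun r => hf (c r) (Km ψ θ κ r * Am ψ r) (c r)) u
      = av τ β (fun r => hf (c r) (Am ψ r) (c r)) u
        + κ * av τ β (fun r => hf (c r) (K0 ψ θ r * Am ψ r) (c r)) u := by
  obtain ⟨_, _, h1, -⟩ := h.pd_fa hc
  obtain ⟨_, _, h2, -⟩ := h.pd_fb hc
  rw [← k1_av_add h1.cont h2.cont κ hu]
  simp only [k1_hf_Km]

include h in
/-- Green identity with integrating factor for a real spectral parameter -/
theorem k1_green {κ β : ℝ} {μ : ℂ} (hc : Floq ψ a b τ κ μ c) (hμ : ‖μ‖ = Real.exp (β * τ))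
    (x₀ : ℝ) :
    ∫ u in a..b, Complex.exp (((2 * β * (u - x₀) : ℝ) : ℂ) * I)
        * ((κ ^ 2 * avW ψ θ τ β c u : ℝ) : ℂ)
      = Complex.exp (((2 * β * (b - x₀) : ℝ) : ℂ) * I)
          * av τ β (fun r => hf (c r) (Km ψ θ κ r * Am ψ r) (c r)) b
        - Complex.exp (((2 * β * (a - x₀) : ℝ) : ℂ) * I)
          * av τ β (fun r => hf (c r) (Km ψ θ κ r * Am ψ r) (c r)) a := by
  have hab := h.ann.hab.le
  rw [h.k1_av_Km hc.sol β (right_mem_Icc.2 hab), h.k1_av_Km hc.sol β (left_mem_Icc.2 hab)]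
  refine k1_factor (m := fun u => av τ β (fun r => hf (c r) (Am ψ r) (c r)) u
    + κ * av τ β (fun r => hf (c r) (K0 ψ θ r * Am ψ r) (c r)) u)
    (s := fun u => ((κ ^ 2 * avW ψ θ τ β c u : ℝ) : ℂ)) hab (fun u hu => ?_) ?_
  · have h1 := (h.deriv_ava hc hμ hu).add ((h.deriv_avb hc hμ hu).const_mul (κ : ℂ))
    refine HasDerivWithinAt.congr_deriv h1 ?_
    simp only [Complex.conj_ofReal]
    push_cast
    ring
  · exact Complex.continuous_ofReal.comp_continuousOn
      (continuousOn_const.mul (h.cont_avW hc.sol β))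

include h in
/-- the weighted period of the holomorphic function `[c, A c]` -/
theorem k1_gam {κ : ℂ} {μ β : ℝ} (hc : Floq ψ a b τ κ μ c) (hμ : |μ| = Real.exp (β * τ))
    {u : ℝ} (hu : u ∈ Icc a b) :
    HasDerivWithinAt (av τ β fun r => br (c r) (Am ψ r *ᵥ c r))
      (0 - 2 * I * β * av τ β (fun r => br (c r) (Am ψ r *ᵥ c r)) u) (Icc a b) u := by
  have hQ : PD a b (fun r => br (c r) (Am ψ r *ᵥ c r)) (fun r => br (c r) (sg (ph1 ψ r) *ᵥ c r))
      (fun r => I * br (c r) (sg (ph1 ψ r) *ᵥ c r)) := by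
    have h0 : PD a b c (fun p => -κ • (Am ψ p *ᵥ c p)) (fun p => -(I * κ) • (Am ψ p *ᵥ c p)) :=
      hc.sol
    refine (h0.br (h.pd_A.mulVec h0)).congr (fun _ _ => rfl) (fun p hp => ?_) (fun p hp => ?_)
    · simp only [Matrix.mulVec_smul, Matrix.mulVec_mulVec, h.A_A hp, Matrix.zero_mulVec,
        smul_zero, add_zero]
      simp only [br, Pi.smul_apply, smul_eq_mul]
      ring
    · simp only [Matrix.mulVec_smul, Matrix.mulVec_mulVec, h.A_A hp, Matrix.zero_mulVec,
        smul_zero, add_zero, Matrix.smul_mulVec]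
      simp only [br, Pi.smul_apply, smul_eq_mul]
      ring
  have hE0 : PD a b (fun p : ℝ × ℝ => Real.exp (-2 * β * p.2))
      (fun p => (-2 * β * Real.exp (-2 * β * p.2)) * 0)
      (fun p => (-2 * β * Real.exp (-2 * β * p.2)) * 1) := by
    refine PD.comp (PD.snd (a := a) (b := b)) (G := fun t => Real.exp (-2 * β * t))
      (G' := fun t => -2 * β * Real.exp (-2 * β * t)) (fun t => ?_) (by fun_prop)
    have h1 : HasDerivAt (fun t : ℝ => -2 * β * t) (-2 * β) t := by
      simpa using (hasDerivAt_id t).const_mul (-2 * β)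
    refine HasDerivAt.congr_deriv h1.exp ?_
    ring
  have hg : PD a b
      (fun p => ((Real.exp (-2 * β * p.2) : ℝ) : ℂ) * br (c p) (Am ψ p *ᵥ c p))
      (fun p => ((Real.exp (-2 * β * p.2) : ℝ) : ℂ) * br (c p) (sg (ph1 ψ p) *ᵥ c p))
      (fun p => I * (((Real.exp (-2 * β * p.2) : ℝ) : ℂ) * br (c p) (sg (ph1 ψ p) *ᵥ c p))
        + (-2 * β) * (((Real.exp (-2 * β * p.2) : ℝ) : ℂ) * br (c p) (Am ψ p *ᵥ c p))) := by
    refine (hE0.ofReal.mul hQ).congr (fun _ _ => rfl) (fun p _ => ?_) (fun p _ => ?_)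
    · push_cast
      ring
    · push_cast
      ring
  have hd := hg.deriv_int_v 0 τ hu
  have hv := hg.int_v hu 0 τ
  have hmem : ((u, (0 : ℝ)) : ℝ × ℝ) ∈ strip a b := hu
  have hper : ((Real.exp (-2 * β * τ) : ℝ) : ℂ) * br (c (u, τ)) (Am ψ (u, τ) *ᵥ c (u, τ))
      = ((Real.exp (-2 * β * 0) : ℝ) : ℂ) * br (c (u, 0)) (Am ψ (u, 0) *ᵥ c (u, 0)) := by
    have e1 := hc.per _ hmem
    have e2 := h.per_A hmem
    simp only [zero_add] at e1 e2
    have e3 : Real.exp (-2 * β * τ) * (μ * μ) = 1 := by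
      rw [← abs_mul_abs_self, hμ, ← Real.exp_add, ← Real.exp_add, ← Real.exp_zero]
      congr 1
      ring
    have e4 : ((Real.exp (-2 * β * τ) : ℝ) : ℂ) * ((μ : ℂ) * μ) = 1 := by exact_mod_cast e3
    rw [e1, e2, Matrix.mulVec_smul, br_smul, ← mul_assoc, e4]
    simp
  simp only [hper, sub_self] at hv
  have c1 : Continuous fun v : ℝ => (-2 * (β : ℂ)) * (((Real.exp (-2 * β * v) : ℝ) : ℂ)
      * br (c (u, v)) (Am ψ (u, v) *ᵥ c (u, v))) := continuous_const.mul (cont_line_v hg.cont hu)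
  have c2 : Continuous fun v : ℝ => I * (((Real.exp (-2 * β * v) : ℝ) : ℂ)
      * br (c (u, v)) (sg (ph1 ψ (u, v)) *ᵥ c (u, v))) :=
    continuous_const.mul (cont_line_v hg.contu hu)
  rw [intervalIntegral.integral_add (c2.intervalIntegrable _ _)
    (c1.intervalIntegrable _ _), intervalIntegral.integral_const_mul,
    intervalIntegral.integral_const_mul] at hv
  refine HasDerivWithinAt.congr_deriv hd ?_
  unfold av
  simp only
  linear_combination (-I) * hv
    + (∫ r in (0 : ℝ)..τ, ((Real.exp (-2 * β * r) : ℝ) : ℂ)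
      * br (c (u, r)) (sg (ph1 ψ (u, r)) *ᵥ c (u, r))) * Complex.I_mul_I

include h hw

/-- unimodular multipliers occur only for real spectral parameter -/
theorem key1 {κ μ : ℂ} (hc : Floq ψ a b τ κ μ c) (hμ : ‖μ‖ = 1) : κ.im = 0 := by
  have hab := h.ann.hab
  have hμ' : ‖μ‖ = Real.exp (0 * τ) := by simp [hμ]
  have hW := int_pos (ρ := fun _ => (1 : ℝ)) hab (h.cont_avW hc.sol 0) continuousOn_const
    (fun u hu => h.avW_nonneg hw c 0 hu) (h.avW_pos hw hc 0) (fun _ _ => one_pos)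
  simp only [one_mul] at hW
  have hZ := ftc_Icc
    (m := fun u => κ * av τ 0 (fun r => hf (c r) (Am ψ r) (c r)) u
      + (Complex.normSq κ : ℂ) * av τ 0 (fun r => hf (c r) (K0 ψ θ r * Am ψ r) (c r)) u)
    (m' := fun u => ((Complex.normSq κ : ℂ) * conj κ) * (avW ψ θ τ 0 c u : ℂ)) hab.le
    (fun u hu => by
      have h1 := ((h.deriv_ava hc hμ' hu).const_mul κ).add
        ((h.deriv_avb hc hμ' hu).const_mul (Complex.normSq κ : ℂ))
      refine HasDerivWithinAt.congr_deriv h1 ?_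
      rw [← Complex.mul_conj]
      push_cast
      ring)
    (continuousOn_const.mul (Complex.continuous_ofReal.comp_continuousOn (h.cont_avW hc.sol 0)))
  rw [intervalIntegral.integral_const_mul, intervalIntegral.integral_ofReal] at hZ
  have i1 := (h.av_rel hc hμ (right_mem_Icc.2 hab.le)).1
  have i2 := (h.av_rel hc hμ (left_mem_Icc.2 hab.le)).1
  have i3 := h.avb_real c 0 (u := b) (Or.inr rfl)
  have i4 := h.avb_real c 0 (u := a) (Or.inl rfl)
  have hI := congrArg Complex.im hZ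
  simp only [Complex.sub_im, Complex.add_im, i1, i2, Complex.re_ofReal_mul,
    i3, i4, Complex.mul_im, Complex.ofReal_im, Complex.ofReal_re, Complex.conj_im, Complex.conj_re,
    mul_zero, zero_mul, add_zero, zero_add, sub_zero] at hI
  rcases mul_eq_zero.1 ((mul_eq_zero.1 hI).resolve_right hW.ne') with h0 | h0
  · rw [Complex.normSq_eq_zero.1 h0, Complex.zero_im]
  · exact neg_eq_zero.1 h0

/-- gap identity -/
theorem key2 {κ μ β : ℝ} (hκ : κ ≠ 0) (hc : Floq ψ a b τ κ μ c) (hμ : |μ| = Real.exp (β * τ))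
    (hβ : 2 * |β| * (b - a) ≤ Real.pi) {ta tb : ℂ}
    (ha : ∀ v y, hf (c (a, v)) (Km ψ θ κ (a, v)) y = ta * br (c (a, v)) y)
    (hb : ∀ v y, hf (c (b, v)) (Km ψ θ κ (b, v)) y = tb * br (c (b, v)) y) :
    ta ≠ tb ∧ av τ β (fun r => br (c r) (Am ψ r *ᵥ c r)) b ≠ 0 := by
  have hab := h.ann.hab
  have hμ' : ‖(μ : ℂ)‖ = Real.exp (β * τ) := by rw [Complex.norm_real, Real.norm_eq_abs, hμ]
  have hG := h.k1_green hc hμ' ((a + b) / 2)
  have hΓ := k1_factor (x₀ := (a + b) / 2) (s := fun _ => 0) hab.le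
    (fun u hu => h.k1_gam hc hμ hu) continuousOn_const
  simp only [mul_zero, intervalIntegral.integral_zero] at hΓ
  have bd : ∀ (u : ℝ) (t : ℂ), (∀ v y, hf (c (u, v)) (Km ψ θ κ (u, v)) y = t * br (c (u, v)) y) →
      av τ β (fun r => hf (c r) (Km ψ θ κ r * Am ψ r) (c r)) u
        = t * av τ β (fun r => br (c r) (Am ψ r *ᵥ c r)) u := by
    intro u t ht
    unfold av
    rw [← intervalIntegral.integral_const_mul]
    refine intervalIntegral.integral_congr fun v _ => ?_
    have e : hf (c (u, v)) (Km ψ θ κ (u, v) * Am ψ (u, v)) (c (u, v))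
        = hf (c (u, v)) (Km ψ θ κ (u, v)) (Am ψ (u, v) *ᵥ c (u, v)) := by
      simp only [hf, Matrix.mulVec_mulVec]
    simp only [e, ht]
    ring
  rw [bd a ta ha, bd b tb hb] at hG
  have hs : ContinuousOn (fun u => κ ^ 2 * avW ψ θ τ β c u) (Icc a b) :=
    continuousOn_const.mul (h.cont_avW hc.sol β)
  have hre := (k1_re_im (β := β) (x₀ := (a + b) / 2) hab.le hs).1
  have hk2 : 0 < κ ^ 2 := by positivity
  have hpos := int_pos (ρ := fun u => Real.cos (2 * β * (u - (a + b) / 2))) hab hs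
    (Continuous.continuousOn (by fun_prop))
    (fun u hu => mul_nonneg hk2.le (h.avW_nonneg hw c β hu))
    (by
      obtain ⟨u, hu, hp⟩ := h.avW_pos hw hc β
      exact ⟨u, hu, mul_pos hk2 hp⟩)
    (fun u hu => by
      refine Real.cos_pos_of_mem_Ioo (abs_lt.1 ?_)
      have h1 : |u - (a + b) / 2| < (b - a) / 2 := abs_lt.2 ⟨by linarith [hu.1], by linarith [hu.2]⟩
      rw [abs_mul, abs_mul, abs_two]
      rcases (abs_nonneg β).eq_or_lt with h0 | h0
      · rw [← h0]
        simpa using Real.pi_pos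
      · nlinarith [mul_lt_mul_of_pos_left h1 h0])
  have hne : (tb - ta) * (Complex.exp (((2 * β * (b - (a + b) / 2) : ℝ) : ℂ) * I)
      * av τ β (fun r => br (c r) (Am ψ r *ᵥ c r)) b) ≠ 0 := by
    intro h0
    have e : (∫ u in a..b, Complex.exp (((2 * β * (u - (a + b) / 2) : ℝ) : ℂ) * I)
        * ((κ ^ 2 * avW ψ θ τ β c u : ℝ) : ℂ)) = 0 := by
      rw [hG]
      linear_combination h0 - ta * hΓ
    rw [e, Complex.zero_re] at hre
    exact hpos.ne hre
  refine ⟨fun e => hne (by rw [e, sub_self, zero_mul]), fun e => hne (by rw [e]; simp)⟩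

/-- the critical growth rate does not occur for positive spectral parameter -/
theorem key3 {κ β : ℝ} {μ : ℂ} (hκ : 0 < κ) (hc : Floq ψ a b τ κ μ c)
    (hμ : ‖μ‖ = Real.exp (β * τ)) : 2 * |β| * (b - a) ≠ Real.pi := by
  intro hβ
  have hab := h.ann.hab
  have hs : ContinuousOn (fun u => avF ψ τ β c u + κ * avW ψ θ τ β c u) (Icc a b) :=
    (h.cont_avF hc.sol β).add (continuousOn_const.mul (h.cont_avW hc.sol β))
  have hG := k1_factor (x₀ := a) (β := β)
    (m := av τ β fun r => hf (c r) (K0 ψ θ r * Am ψ r) (c r))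
    (s := fun u => ((avF ψ τ β c u + κ * avW ψ θ τ β c u : ℝ) : ℂ)) hab.le
    (fun u hu => by
      refine HasDerivWithinAt.congr_deriv (h.deriv_avb hc hμ hu) ?_
      simp only [Complex.conj_ofReal]
      push_cast
      ring)
    (Complex.continuous_ofReal.comp_continuousOn hs)
  have him := (k1_re_im (β := β) (x₀ := a) hab.le hs).2
  have i3 := h.avb_real c β (u := b) (Or.inr rfl)
  have i4 := h.avb_real c β (u := a) (Or.inl rfl)
  have hb0 : 0 < |β| := by
    rcases (abs_nonneg β).eq_or_lt with h0 | h0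
    · rw [← h0] at hβ
      have := Real.pi_pos
      linarith
    · exact h0
  have hsin : Real.sin (2 * β * (b - a)) = 0 := by
    rcases abs_cases β with ⟨h1, -⟩ | ⟨h1, -⟩
    · rw [h1] at hβ
      rw [hβ, Real.sin_pi]
    · rw [h1] at hβ
      rw [show 2 * β * (b - a) = -Real.pi by linarith, Real.sin_neg, Real.sin_pi, neg_zero]
  have hzero : ∫ u in a..b, Real.sin (2 * β * (u - a))
      * (avF ψ τ β c u + κ * avW ψ θ τ β c u) = 0 := by
    rw [← him, hG]
    simp only [Complex.sub_im, Complex.mul_im, Complex.exp_ofReal_mul_I_im, i3, i4, hsin, sub_self,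
      mul_zero, zero_mul, add_zero, Real.sin_zero]
  have hpos := int_pos (ρ := fun u => Real.sin (2 * |β| * (u - a))) hab hs
    (Continuous.continuousOn (by fun_prop))
    (fun u hu => add_nonneg (h.avF_nonneg c β hu) (mul_nonneg hκ.le (h.avW_nonneg hw c β hu)))
    (by
      obtain ⟨u, hu, hp⟩ := h.avW_pos hw hc β
      exact ⟨u, hu, add_pos_of_nonneg_of_pos (h.avF_nonneg c β (Ioo_subset_Icc_self hu))
        (mul_pos hκ hp)⟩)
    (fun u hu => by
      refine Real.sin_pos_of_pos_of_lt_pi ?_ ?_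
      · have := sub_pos.2 hu.1
        positivity
      · rw [← hβ]
        nlinarith [hu.2])
  rcases abs_cases β with ⟨h1, -⟩ | ⟨h1, -⟩
  · rw [h1, hzero] at hpos
    exact lt_irrefl _ hpos
  · have e : ∀ u : ℝ, Real.sin (2 * |β| * (u - a)) * (avF ψ τ β c u + κ * avW ψ θ τ β c u)
        = -(Real.sin (2 * β * (u - a)) * (avF ψ τ β c u + κ * avW ψ θ τ β c u)) := by
      intro u
      rw [h1, show 2 * -β * (u - a) = -(2 * β * (u - a)) by ring, Real.sin_neg]
      ring
    simp only [e, intervalIntegral.integral_neg, hzero, neg_zero] at hpos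
    exact lt_irrefl _ hpos

/-- band identity -/
theorem key4 {κ : ℝ} {μ : ℂ} (hκ : κ ≠ 0) (hc : Floq ψ a b τ κ μ c) (hμ : ‖μ‖ = 1) :
    ∃ r : ℝ, 0 < r ∧
      (∫ v in (0 : ℝ)..τ, hf (c (b, v)) (Km ψ θ κ (b, v) * Am ψ (b, v)) (c (b, v)))
        - (∫ v in (0 : ℝ)..τ, hf (c (a, v)) (Km ψ θ κ (a, v) * Am ψ (a, v)) (c (a, v))) = r := by
  have hab := h.ann.hab
  have hμ' : ‖μ‖ = Real.exp (0 * τ) := by simp [hμ]
  have hG := h.k1_green hc hμ' 0
  have hk2 : 0 < κ ^ 2 := by positivity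
  have hs : ContinuousOn (fun u => κ ^ 2 * avW ψ θ τ 0 c u) (Icc a b) :=
    continuousOn_const.mul (h.cont_avW hc.sol 0)
  have hpos := int_pos (ρ := fun _ => (1 : ℝ)) hab hs continuousOn_const
    (fun u hu => mul_nonneg hk2.le (h.avW_nonneg hw c 0 hu))
    (by
      obtain ⟨u, hu, hp⟩ := h.avW_pos hw hc 0
      exact ⟨u, hu, mul_pos hk2 hp⟩)
    (fun _ _ => one_pos)
  simp only [one_mul] at hpos
  refine ⟨_, hpos, ?_⟩
  simp only [av, mul_zero, zero_mul, Complex.ofReal_zero, Complex.exp_zero, one_mul,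
    Real.exp_zero, Complex.ofReal_one] at hG
  rw [← hG, intervalIntegral.integral_ofReal]

end Cap

end Pool.Agent.Lib.MP_c7e804_gt
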