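import Pool.Agent.Lib.MP_c7e804_gt.H43Geo

/-!
Pointwise Green identities for solutions of the Lax system.
-/

namespace Pool.Agent.Lib.MP_c7e804_gt

open Matrix Set Complex
open scoped ContDiff ComplexConjugate

theorem kav1_l (s : ℂ) (A M : M2) (x y : C2) :
    hf (s • (A *ᵥ x)) M y = conj s * hf x (Aᴴ * M) y := by
  have e := hf_smul_smul s 1 (A *ᵥ x) M y
  have e' := hf_mul x A M 1 y
  rw [one_smul, mul_one] at e
  rw [one_mulVec, mul_one] at e'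
  rw [e, e']

theorem kav1_r (s : ℂ) (A M : M2) (x y : C2) :
    hf x M (s • (A *ᵥ y)) = s * hf x (M * A) y := by
  have e := hf_smul_smul 1 s x M (A *ᵥ y)
  have e' := hf_mul x 1 M A y
  rw [one_smul, map_one, one_mul] at e
  rw [one_mulVec, conjTranspose_one, one_mul] at e'
  rw [e, e']

theorem kav1_zero (x y : C2) : hf x 0 y = 0 := by simp [hf]

theorem kav1_sub (x : C2) (K K' : M2) (y : C2) : hf x (K - K') y = hf x K y - hf x K' y := by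
  simp only [hf, sub_mulVec, dotProduct_sub]

theorem kav1_K0_herm (ψ : ℝ × ℝ → V3) (θ : ℝ) (p : ℝ × ℝ) : (K0 ψ θ p)ᴴ = K0 ψ θ p := by
  rw [K0, conjTranspose_add, conjTranspose_smul, conjTranspose_one, sg_ct, star_cv,
    Complex.star_def, Complex.conj_ofReal]

theorem kav1_ct_K0 (ψ : ℝ × ℝ → V3) (θ : ℝ) (p : ℝ × ℝ) (A : M2) (x : C2) :
    hf x (Aᴴ * K0 ψ θ p) x = conj (hf x (K0 ψ θ p * A) x) := by
  rw [← hf_ct, conjTranspose_mul, kav1_K0_herm]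

namespace Cap
variable {ψ : ℝ × ℝ → V3} {a b τ θ : ℝ} (h : Cap ψ a b τ θ) {κ μ : ℂ} {c : ℝ × ℝ → C2}
  {β : ℝ} {p : ℝ × ℝ}
include h

theorem ff_eq (c : ℝ × ℝ → C2) (hp : p ∈ strip a b) :
    hf (c p) (1 + Nm ψ p) (c p) = (ff ψ c p : ℂ) ∧ 0 ≤ ff ψ c p := by
  constructor
  · have hH : (1 + Nm ψ p)ᴴ = 1 + Nm ψ p := by
      rw [Nm, conjTranspose_add, conjTranspose_one, sg_ct, star_cv]
    apply Complex.ext
    · rw [Complex.ofReal_re, ff]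
    · rw [Complex.ofReal_im, hf_herm_im hH]
  · have := hf_nonneg (h.ann.fr hp).NN (d := 1) (t := 1) (by simp) (c p)
    simpa [ff, Nm] using this

theorem cont_ff (hc : IsSol a b (Am ψ) κ c) : ContinuousOn (ff ψ c) (strip a b) :=
  (PDm.hf hc ((PDm.const 1).add (PDm.sg h.pd_N.cv)) hc).re.cont

theorem kav1_AhA (c : ℝ × ℝ → C2) (hp : p ∈ strip a b) :
    hf (c p) ((Am ψ p)ᴴ * Am ψ p) (c p) = (confE ψ p : ℂ) / 2 * ff ψ c p := by
  rw [h.Ah_A hp, hf_smul, (h.ff_eq c hp).1]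

/-- first derivatives of `c^* A c` -/
theorem pd_fa (hc : IsSol a b (Am ψ) κ c) : ∃ gu gv : ℝ × ℝ → ℂ,
    PD a b (fun r => hf (c r) (Am ψ r) (c r)) gu gv ∧
      ∀ r ∈ strip a b, gu r + I * gv r = -conj κ * (confE ψ r * ff ψ c r : ℝ) := by
  refine ⟨_, _, PDm.hf hc h.pd_A hc, fun r hr => ?_⟩
  simp only [kav1_l, kav1_r, hf_smul, h.kav1_AhA c hr, h.A_A hr, kav1_zero, map_neg, map_mul,
    conj_I, ofReal_mul]
  linear_combination (conj κ * ((confE ψ r : ℂ) / 2 * ff ψ c r)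
    + hf (c r) (sg (ph1 ψ r)) (c r)) * I_sq

/-- first derivatives of `c^* K₀ A c` -/
theorem pd_fb (hc : IsSol a b (Am ψ) κ c) : ∃ gu gv : ℝ × ℝ → ℂ,
    PD a b (fun r => hf (c r) (K0 ψ θ r * Am ψ r) (c r)) gu gv ∧
      ∀ r ∈ strip a b, gu r + I * gv r =
        (1 + conj κ * ww ψ θ r) * (confE ψ r * ff ψ c r : ℝ) := by
  refine ⟨_, _, PDm.hf hc (h.pd_K0.mul h.pd_A) hc, fun r hr => ?_⟩
  have e1 : (Am ψ r)ᴴ * (K0 ψ θ r * Am ψ r) = (-(ww ψ θ r : ℂ)) • ((Am ψ r)ᴴ * Am ψ r) := by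
    rw [← mul_assoc, h.Ah_K0_A hr]
  have e2 : K0 ψ θ r * Am ψ r * Am ψ r = 0 := by rw [mul_assoc, h.A_A hr, mul_zero]
  simp only [kav1_l, kav1_r, e1, e2, add_mul, sub_mul, smul_mul_assoc, mul_smul_comm, hf_add,
    kav1_sub, hf_smul, h.kav1_AhA c hr, h.A_A hr, kav1_zero, map_neg, map_mul,
    conj_I, ofReal_mul]
  linear_combination (-conj κ * (ww ψ θ r : ℂ) * ((confE ψ r : ℂ) / 2 * ff ψ c r)
    - ((confE ψ r : ℂ) / 2 * ff ψ c r) + hf (c r) (K0 ψ θ r * sg (ph1 ψ r)) (c r)) * I_sq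

theorem pd_n1 (hc : IsSol a b (Am ψ) κ c) :
    PD a b (fun r => (hf (c r) 1 (c r)).re)
      (fun r => -2 * (κ * hf (c r) (Am ψ r) (c r)).re)
      (fun r => 2 * (κ * hf (c r) (Am ψ r) (c r)).im) := by
  refine (PDm.hf hc (PDm.const 1) hc).re.congr (fun _ _ => rfl) ?_ ?_
  · intro r _
    simp only [kav1_l, kav1_r, kav1_zero, mul_one, one_mul, hf_ct]
    simp
    ring
  · intro r _
    simp only [kav1_l, kav1_r, kav1_zero, mul_one, one_mul, hf_ct]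
    simp
    ring

theorem pd_n0 (hc : IsSol a b (Am ψ) κ c) :
    PD a b (fun r => (hf (c r) (K0 ψ θ r) (c r)).re)
      (fun r => 2 * (hf (c r) (Am ψ r) (c r) - κ * hf (c r) (K0 ψ θ r * Am ψ r) (c r)).re)
      (fun r => -2 * (hf (c r) (Am ψ r) (c r) - κ * hf (c r) (K0 ψ θ r * Am ψ r) (c r)).im) := by
  refine (PDm.hf hc h.pd_K0 hc).re.congr (fun _ _ => rfl) ?_ ?_
  · intro r _
    simp only [kav1_l, kav1_r, kav1_ct_K0, hf_add, hf_ct]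
    simp
    ring
  · intro r _
    simp only [kav1_l, kav1_r, kav1_ct_K0, hf_smul, kav1_sub, hf_ct]
    simp
    ring

theorem bd_fb (c : ℝ × ℝ → C2) {u : ℝ} (hu : u = a ∨ u = b) (v : ℝ) :
    hf (c (u, v)) (K0 ψ θ (u, v) * Am ψ (u, v)) (c (u, v))
      = (pu ψ (u, v) / 2 * ff ψ c (u, v) : ℝ) := by
  rw [h.bd_K0_A hu, hf_smul, (h.ff_eq c (h.mem_bd hu v)).1]
  push_cast
  ring

end Cap

end Pool.Agent.Lib.MP_c7e804_gt
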