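import Pool.Agent.Lib.MP_c7e804_gt.H43PD

/-!
Existence of the Lenard sequence.
-/

namespace Pool.Agent.Lib.MP_c7e804_gt

open Matrix Set Complex
open scoped ContDiff ComplexConjugate

/-- the Lenard recursion -/
noncomputable def lnrdS (q : ℝ) (U : ℝ × ℝ → ℂ) : ℕ → ℝ × ℝ → ℂ
  | 0 => fun _ => 1
  | n + 1 => fun p => (8 * (q : ℂ))⁻¹ *
      ((∑ i : Fin (n + 1), (2 * lnrdS q U i p * du (du (lnrdS q U (n - i))) p
        - du (lnrdS q U i) p * du (lnrdS q U (n - i)) p
        + 4 * U p * lnrdS q U i p * lnrdS q U (n - i) p))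
      - 4 * (q : ℂ) * ∑ i : Fin n, lnrdS q U (i + 1) p * lnrdS q U (n - i) p)
decreasing_by all_goals omega

theorem len_zero (q : ℝ) (U : ℝ × ℝ → ℂ) : lnrdS q U 0 = fun _ => 1 := by rw [lnrdS]

theorem len_succ (q : ℝ) (U : ℝ × ℝ → ℂ) (n : ℕ) : lnrdS q U (n + 1) = fun p => (8 * (q : ℂ))⁻¹ *
    ((∑ i ∈ Finset.range (n + 1), (2 * lnrdS q U i p * du (du (lnrdS q U (n - i))) p
        - du (lnrdS q U i) p * du (lnrdS q U (n - i)) p
        + 4 * U p * lnrdS q U i p * lnrdS q U (n - i) p))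
      - 4 * (q : ℂ) * ∑ i ∈ Finset.range n, lnrdS q U (i + 1) p * lnrdS q U (n - i) p) := by
  rw [lnrdS]
  simp only [Finset.sum_range]

theorem len_term {a b τ : ℝ} (hab : a < b) {U f g : ℝ × ℝ → ℂ} (hU : Hol a b τ U)
    (hf : Hol a b τ f) (hg : Hol a b τ g) :
    Hol a b τ (fun p => 2 * f p * du (du g) p - du f p * du g p + 4 * U p * f p * g p) :=
  (((hf.const_mul 2).mul ((hg.du hab).du hab)).sub ((hf.du hab).mul (hg.du hab))).add
    (((hU.const_mul 4).mul hf).mul hg)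

theorem len_term_du {a b τ : ℝ} (hab : a < b) {U f g : ℝ × ℝ → ℂ} (hU : Hol a b τ U)
    (hf : Hol a b τ f) (hg : Hol a b τ g) {p : ℝ × ℝ} (hp : p ∈ strip a b) :
    du (fun p => 2 * f p * du (du g) p - du f p * du g p + 4 * U p * f p * g p) p =
      2 * (f p * L3 U g p) + (du f p * du (du g) p - du (du f) p * du g p)
        + 4 * U p * (du f p * g p - f p * du g p) := by
  rw [(((hf.const_mul 2).mul ((hg.du hab).du hab)).sub ((hf.du hab).mul (hg.du hab))).du_add
      (((hU.const_mul 4).mul hf).mul hg) hp,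
    ((hf.const_mul 2).mul ((hg.du hab).du hab)).du_sub ((hf.du hab).mul (hg.du hab)) hp,
    (hf.const_mul 2).du_mul ((hg.du hab).du hab) hp, hf.du_const_mul 2 hp,
    (hf.du hab).du_mul (hg.du hab) hp, ((hU.const_mul 4).mul hf).du_mul hg hp,
    (hU.const_mul 4).du_mul hf hp, hU.du_const_mul 4 hp, L3]
  ring

theorem len_hol {a b τ : ℝ} (q : ℝ) (hab : a < b) {U : ℝ × ℝ → ℂ} (hU : Hol a b τ U) (n : ℕ) :
    Hol a b τ (lnrdS q U n) := by
  induction n using Nat.strong_induction_on with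
  | _ n ih =>
    rcases n with _ | n
    · rw [len_zero]
      exact Hol.const 1
    · rw [len_succ]
      refine Hol.const_mul _ (Hol.sub (Hol.sum _ fun i hi => ?_)
        (Hol.const_mul _ (Hol.sum _ fun i hi => ?_)))
      · exact len_term hab hU (ih i (Finset.mem_range.1 hi)) (ih _ (by omega))
      · exact (ih _ (Nat.succ_lt_succ (Finset.mem_range.1 hi))).mul (ih _ (by omega))

theorem len_quad {q : ℝ} (hq : q ≠ 0) (U : ℝ × ℝ → ℂ) (n : ℕ) (p : ℝ × ℝ) :
    4 * (q : ℂ) * ∑ i ∈ Finset.range (n + 2), lnrdS q U i p * lnrdS q U (n + 1 - i) p =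
      ∑ i ∈ Finset.range (n + 1), (2 * lnrdS q U i p * du (du (lnrdS q U (n - i))) p
        - du (lnrdS q U i) p * du (lnrdS q U (n - i)) p
        + 4 * U p * lnrdS q U i p * lnrdS q U (n - i) p) := by
  have h0 : (q : ℂ) ≠ 0 := Complex.ofReal_ne_zero.2 hq
  have h := congrFun (len_succ q U n) p
  rw [Finset.sum_range_succ, Finset.sum_range_succ', Nat.sub_self, Nat.sub_zero, len_zero]
  simp only [Nat.add_sub_add_right]
  rw [eq_inv_mul_iff_mul_eq₀ (mul_ne_zero (by norm_num) h0)] at h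
  linear_combination h

theorem len_flip (n : ℕ) (A B : ℕ → ℂ) :
    ∑ i ∈ Finset.range (n + 1), A i * B (n - i) = ∑ i ∈ Finset.range (n + 1), B i * A (n - i) := by
  rw [← Finset.sum_flip]
  refine Finset.sum_congr rfl fun i hi => ?_
  rw [Nat.sub_sub_self (Nat.lt_succ_iff.1 (Finset.mem_range.1 hi)), mul_comm]

theorem len_sum {a b τ q : ℝ} (hab : a < b) (hq : q ≠ 0) {U : ℝ × ℝ → ℂ} (hU : Hol a b τ U)
    (n : ℕ) {p : ℝ × ℝ} (hp : p ∈ strip a b) :
    ∑ i ∈ Finset.range (n + 1), lnrdS q U i p *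
      (L3 U (lnrdS q U (n - i)) p - 4 * (q : ℂ) * du (lnrdS q U (n + 1 - i)) p) = 0 := by
  have hS := len_hol q hab hU
  have h1 := Hol.sum (Finset.range (n + 2)) fun i _ => (hS i).mul (hS (n + 1 - i))
  have h2 := Hol.du_congr hab (h1.const_mul (4 * (q : ℂ)))
    (Hol.sum (Finset.range (n + 1)) fun i _ => len_term hab hU (hS i) (hS (n - i)))
    (fun r _ => len_quad hq U n r) p hp
  rw [h1.du_const_mul _ hp, Hol.du_sum _ (fun i _ => (hS i).mul (hS (n + 1 - i))) hp,
    Hol.du_sum _ (fun i _ => len_term hab hU (hS i) (hS (n - i))) hp,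
    Finset.sum_congr rfl fun i _ => (hS i).du_mul (hS (n + 1 - i)) hp,
    Finset.sum_congr rfl fun i _ => len_term_du hab hU (hS i) (hS (n - i)) hp] at h2
  simp only [Finset.sum_add_distrib, Finset.sum_sub_distrib, ← Finset.mul_sum] at h2
  rw [len_flip (n + 1) (fun i => du (lnrdS q U i) p) fun i => lnrdS q U i p,
    len_flip n (fun i => du (lnrdS q U i) p) fun i => lnrdS q U i p,
    len_flip n (fun i => du (du (lnrdS q U i)) p) fun i => du (lnrdS q U i) p,
    Finset.sum_range_succ _ (n + 1), Nat.sub_self, len_zero, du_const] at h2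
  simp only [mul_sub, Finset.sum_sub_distrib, mul_left_comm _ (4 * (q : ℂ)), ← Finset.mul_sum]
  linear_combination (-1 / 2 : ℂ) * h2

theorem exists_lenard {a b τ q : ℝ} (hab : a < b) (hq : q ≠ 0) {U : ℝ × ℝ → ℂ}
    (hU : Hol a b τ U) : ∃ S, Lenard a b τ q U S := by
  refine ⟨lnrdS q U, len_hol q hab hU, len_zero q U, fun j p hp => ?_,
    fun n p _ => len_quad hq U n p⟩
  induction j using Nat.strong_induction_on with
  | _ n ih =>
    have h := len_sum hab hq hU n hp
    rw [Finset.sum_range_succ', Finset.sum_eq_zero, len_zero] at h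
    · simpa [sub_eq_zero] using h
    · intro i hi
      have hi' := Finset.mem_range.1 hi
      rw [ih (n - (i + 1)) (by omega), show n + 1 - (i + 1) = n - (i + 1) + 1 by omega, sub_self,
        mul_zero]

end Pool.Agent.Lib.MP_c7e804_gt
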