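import Pool.Agent.Lib.MP_c7e804_gt.H43Nu1

/-!
The rotation angle on the definite interval.
-/

namespace Pool.Agent.Lib.MP_c7e804_gt

open Matrix Set Complex
open scoped ContDiff ComplexConjugate

theorem nu_smul (ψ : ℝ × ℝ → V3) (b τ : ℝ) (F : ℂ → ℝ × ℝ → M2) (κ : ℝ) (x : C2) {t : ℂ}
    (ht : t ≠ 0) : wind τ (Qf ψ b (cl b F (t • x) κ)) (Qd ψ b (cl b F (t • x) κ))
      = wind τ (Qf ψ b (cl b F x κ)) (Qd ψ b (cl b F x κ)) := by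
  rw [← wind_smul (G := Qf ψ b (cl b F x κ)) (mul_ne_zero ht ht)]
  congr 1
  · ext v
    simp only [Qf, cl, mulVec_smul, br_smul]
  · ext v
    simp only [Qd, cl, mulVec_smul, br_smul]
    ring

theorem nu_indep (ψ : ℝ × ℝ → V3) (b τ : ℝ) (F : ℂ → ℝ × ℝ → M2) (κ : ℝ) {X : C3} (hX : X ≠ 0)
    {l : ℂ} {x y : C2} (hx : x ≠ 0) (hy : y ≠ 0) (h1 : sg X *ᵥ x = l • x)
    (h2 : sg X *ᵥ y = l • y) : wind τ (Qf ψ b (cl b F y κ)) (Qd ψ b (cl b F y κ))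
      = wind τ (Qf ψ b (cl b F x κ)) (Qd ψ b (cl b F x κ)) := by
  obtain ⟨t, rfl⟩ := eig_unique hX hx h1 h2
  exact nu_smul ψ b τ F κ x fun ht => hy (by rw [ht, zero_smul])

theorem nu_proj {X : C3} {l : ℂ} (h : l ^ 2 = X ⬝ᵥ X) (x : C2) :
    sg X *ᵥ ((l • (1 : M2) + sg X) *ᵥ x) = l • ((l • (1 : M2) + sg X) *ᵥ x) := by
  rw [mulVec_mulVec, ← smul_mulVec, mul_add, sg_mul, cross_self, sg_zero, smul_zero, add_zero, ← h,
    smul_add, smul_smul, Matrix.mul_smul, Matrix.mul_one, add_comm, sq]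

theorem nu_exists {X : C3} (hX : X ≠ 0) (l : ℂ) : ∃ x : C2, (l • (1 : M2) + sg X) *ᵥ x ≠ 0 := by
  by_contra h
  push Not at h
  refine hX (sg_inj (d := l) ?_).2
  ext i j
  simpa using congrFun (h (Pi.single j 1)) i

theorem nu_cont_sg {X : ℝ → C3} (hX : Continuous X) {l : ℝ → ℂ} (hl : Continuous l) (x : C2) :
    Continuous fun κ => (l κ • (1 : M2) + sg (X κ)) *ᵥ x := by
  refine continuous_pi fun i => ?_
  fin_cases i <;> simp [sg, mulVec, dotProduct, Fin.sum_univ_two] <;> fun_prop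

namespace Setup
variable {ψ : ℝ × ℝ → V3} {a b τ θ : ℝ} {g : ℕ} {s : ℕ → ℝ × ℝ → ℂ} {F G : ℂ → ℝ × ℝ → M2}
  (h : Setup ψ a b τ θ g s F G)
  (hw : ∀ r ∈ strip a b, 0 ≤ ww ψ θ r) (hc : 0 ≤ Real.cos θ)
  {ε : ℝ} (hε : ε = 1 ∨ ε = -1)
  (hP : ∀ κ ∈ Icc (ka θ) 0, 0 ≤ (Yf ψ b g s κ).re ∧ 0 < ε * (Pf ψ b τ g s κ).re)
include h hw hε hP hc

theorem exists_nu (hs : SimpleAt ψ τ b) {x : C2} (hx : x ≠ 0)
    (hx2 : sg (cv (ψ (b, 0))) *ᵥ x = x) : ∃ ν : ℝ → ℝ, ContinuousOn ν (Icc (ka θ) 0) ∧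
    (∀ κ ∈ Icc (ka θ) 0, cexp (2 * I * ν κ) =
      (Dk b τ F κ + I * alk ψ b τ g s F κ * (-ε * √(Yf ψ b g s κ).re : ℝ)) ^ 2) ∧
    ν (ka θ) = wind τ (Qf ψ b (cl b F x (ka θ))) (Qd ψ b (cl b F x (ka θ))) / 2 ∧
    ν 0 ≤ Real.pi := by
  have hθ := h.cap.ann.hθa
  set l : ℝ → ℂ := fun κ => ((-ε * √(Yf ψ b g s κ).re : ℝ) : ℂ) with hl
  have he2 : ε ^ 2 = 1 := by rcases hε with rfl | rfl <;> norm_num
  have hr : ∀ κ ∈ Icc (ka θ) 0, (-ε * √(Yf ψ b g s κ).re) ^ 2 = (Yf ψ b g s κ).re := fun κ hκ => by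
    rw [mul_pow, neg_sq, he2, one_mul, Real.sq_sqrt (hP κ hκ).1]
  have hl2 : ∀ κ ∈ Icc (ka θ) 0, l κ ^ 2 = X0 ψ b g s κ ⬝ᵥ X0 ψ b g s κ := fun κ hκ => by
    rw [hl]
    dsimp only
    rw [← ofReal_pow, hr κ hκ]
    exact Complex.ext (ofReal_re _) ((ofReal_im _).trans (h.Y_real κ).symm)
  have hy : ∀ κ : ℝ, ∃ y : C2, κ ∈ Icc (ka θ) 0 → y ≠ 0 ∧ sg (X0 ψ b g s κ) *ᵥ y = l κ • y := by
    intro κ
    by_cases hκ : κ ∈ Icc (ka θ) 0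
    · obtain ⟨y, hy⟩ := exists_eig _ (hl2 κ hκ)
      exact ⟨y, fun _ => hy⟩
    · exact ⟨0, fun h' => absurd h' hκ⟩
  choose y hy using hy
  have hX : Continuous fun κ : ℝ => X0 ψ b g s κ := continuous_pi fun i =>
    (h.cap.poly_Xk h.kill.toPKill (h.cap.mem_b 0) i).differentiable.continuous.comp
      continuous_ofReal
  have hlc : Continuous l := by
    have : Continuous fun κ : ℝ => Yf ψ b g s κ := hX.dotProduct hX
    fun_prop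
  have h0 : (0 : ℝ) ∈ Icc (ka θ) 0 := ⟨(ka_neg hθ).le, le_rfl⟩
  have h1 : ka θ ∈ Icc (ka θ) 0 := ⟨le_rfl, (ka_neg hθ).le⟩
  refine ⟨fun κ => wind τ (Qf ψ b (cl b F (y κ) κ)) (Qd ψ b (cl b F (y κ) κ)) / 2,
    fun κ₀ hκ₀ => ?_, fun κ hκ => ?_, ?_, ?_⟩
  · obtain ⟨x₀, hx₀⟩ := nu_exists (h.X0_ne κ₀) (l κ₀)
    have hz := nu_cont_sg hX hlc x₀
    set z := fun κ : ℝ => (l κ • (1 : M2) + sg (X0 ψ b g s κ)) *ᵥ x₀ with hzd
    have hm : Continuous fun w : ℝ × ℝ => (((w.1, z w.1), w.2) : (ℝ × C2) × ℝ) := by fun_prop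
    have q1 : Continuous fun w : ℝ × ℝ => Qf ψ b (cl b F (z w.1) w.1) w.2 := by
      simpa only [Function.comp_def] using (h.cap.cont_Qf h.frame).comp hm
    have q2 : Continuous fun w : ℝ × ℝ => Qd ψ b (cl b F (z w.1) w.1) w.2 := by
      simpa only [Function.comp_def] using (h.cap.cont_Qd h.frame).comp hm
    have hc' := wind_cont (τ := τ) (S := Icc (ka θ) 0 ∩ {κ | z κ ≠ 0})
      (G := fun κ => Qf ψ b (cl b F (z κ) κ)) (G' := fun κ => Qd ψ b (cl b F (z κ) κ))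
      q1.continuousOn q2.continuousOn
      fun κ hκ v => h.sheet_ne hw hc hε hP hκ.1 hκ.2 (nu_proj (hl2 κ hκ.1) x₀) v
    have hn : Icc (ka θ) 0 ∩ {κ | z κ ≠ 0} ∈ nhdsWithin κ₀ (Icc (ka θ) 0) :=
      inter_mem_nhdsWithin _ ((isOpen_ne_fun hz continuous_const).mem_nhds hx₀)
    refine ContinuousWithinAt.div_const (ContinuousWithinAt.mono_of_mem_nhdsWithin ?_ hn) 2
    refine (hc'.congr fun κ hκ => ?_) κ₀ ⟨hκ₀, hx₀⟩
    exact nu_indep ψ b τ F κ (h.X0_ne κ) hκ.2 (hy κ hκ.1).1 (nu_proj (hl2 κ hκ.1) x₀) (hy κ hκ.1).2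
  · have hne := h.sheet_ne hw hc hε hP hκ (hy κ hκ).1 (hy κ hκ).2
    have hm : Continuous fun v : ℝ => (((κ, y κ), v) : (ℝ × C2) × ℝ) := by fun_prop
    have hq : Continuous fun v => Qd ψ b (cl b F (y κ) κ) v := by
      simpa only [Function.comp_def] using (h.cap.cont_Qd h.frame).comp hm
    have e := wind_exp (τ := τ) (h.cap.deriv_Qf h.frame κ (y κ)) hq hne
    set μ : ℂ := Dk b τ F κ + I * alk ψ b τ g s F κ * l κ with hμ
    have e1 : cl b F (y κ) κ τ = μ • y κ := by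
      rw [cl, h.M_eq κ, add_mulVec, smul_mulVec, smul_mulVec, one_mulVec, (hy κ hκ).2, smul_smul,
        ← add_smul]
    have e2 : cl b F (y κ) κ 0 = y κ := by rw [cl, h.frame.baseF, one_mulVec]
    have e3 : Am ψ (b, τ) = Am ψ (b, 0) := by simpa using h.cap.per_A (h.cap.mem_b 0)
    have e4 : Qf ψ b (cl b F (y κ) κ) τ = μ ^ 2 * Qf ψ b (cl b F (y κ) κ) 0 := by
      rw [Qf, Qf, e1, e2, e3, mulVec_smul, br_smul, sq]
    have e5 : ‖μ ^ 2‖ = 1 := by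
      rw [norm_pow, Complex.sq_norm, ← h.quadD κ, ← hr κ hκ, normSq_apply]
      simp [hμ, hl]
      ring
    rw [e4, norm_mul, e5, one_mul, div_self (by exact_mod_cast norm_ne_zero_iff.2 (hne 0)),
      mul_one, mul_div_cancel_right₀ _ (hne 0)] at e
    rw [← e]
    congr 1
    push_cast
    ring
  · dsimp only
    rw [nu_indep ψ b τ F _ (h.X0_ne _) hx (hy _ h1).1 (h.sheet_ka hw hε hP hx hx2) (hy _ h1).2]
  · obtain ⟨e, e1, e2, -, e3, e4⟩ := h.cap.exists_axis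
    have e5 := (h.cap.wind_zero hc hs e1 e2 (hy 0 h0).1
      (h.sheet_zero hw hε hP e1 e3 (e4 hw) (hy 0 h0).2)).2
    have e6 : cl b F (y 0) 0 = fun _ => y 0 := by
      ext1 v
      rw [cl, ofReal_zero, h.frame.zero _ (h.cap.mem_b v), one_mulVec]
    dsimp only
    rw [e6]
    linarith

end Setup

end Pool.Agent.Lib.MP_c7e804_gt
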