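import Pool.Agent.Lib.MP_c7e804_gt.H43Wind

/-!
Hopf's Umlaufsatz (the inequality).
-/

namespace Pool.Agent.Lib.MP_c7e804_gt

open Matrix Set Complex
open scoped ContDiff ComplexConjugate

theorem uml_sin {x y : ℝ} (h : ∀ a ∈ Icc x y, 0 ≤ Real.sin a) : y - x ≤ Real.pi := by
  by_contra hc
  have hpi := Real.pi_gt_three
  have h0 : ∀ a ∈ Icc x (y - Real.pi), Real.sin a = 0 := fun a ha => by
    have h1 := h a ⟨ha.1, by linarith [ha.2]⟩
    have h2 := h (a + Real.pi) ⟨by linarith [ha.1], by linarith [ha.2]⟩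
    rw [Real.sin_add_pi] at h2
    linarith
  have he : 0 < min (y - Real.pi - x) 1 := lt_min (by linarith) one_pos
  have h1 := h0 x ⟨le_rfl, by linarith⟩
  have h2 := h0 (x + min (y - Real.pi - x) 1)
    ⟨by linarith, by linarith [min_le_left (y - Real.pi - x) 1]⟩
  rw [Real.sin_add, h1, zero_mul, zero_add, mul_eq_zero] at h2
  rcases h2 with h2 | h2
  · have := Real.sin_sq_add_cos_sq x
    rw [h1, h2] at this
    norm_num at this
  · exact (Real.sin_pos_of_pos_of_lt_pi he
      (by linarith [min_le_right (y - Real.pi - x) 1])).ne' h2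

theorem uml_edge {τ : ℝ} (hτ : 0 ≤ τ) {Θ : ℝ → ℝ} (hc : Continuous Θ)
    (h : ∀ v ∈ Icc 0 τ, 0 ≤ Real.sin (Θ v)) : |Θ τ - Θ 0| ≤ Real.pi := by
  have hpi := Real.pi_pos
  refine abs_sub_le_iff.2 ⟨uml_sin fun a ha => ?_, uml_sin fun a ha => ?_⟩
  · obtain ⟨v, hv, rfl⟩ := intermediate_value_Icc hτ hc.continuousOn ha
    exact h v hv
  · obtain ⟨v, hv, rfl⟩ := intermediate_value_Icc' hτ hc.continuousOn ha
    exact h v hv

/-- Mean of the derivative along a parameter interval. -/
noncomputable def umlSig (z' : ℝ → ℂ) (s t : ℝ) : ℂ := ∫ r in (0 : ℝ)..1, z' (s + r * (t - s))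

theorem uml_sig_cont {z' : ℝ → ℂ} (hc : Continuous z') :
    Continuous fun p : ℝ × ℝ => umlSig z' p.1 p.2 :=
  intervalIntegral.continuous_parametric_intervalIntegral_of_continuous'
    (f := fun (p : ℝ × ℝ) r => z' (p.1 + r * (p.2 - p.1))) (by fun_prop) 0 1

theorem uml_sig_mul {z z' : ℝ → ℂ} (h1 : ∀ v, HasDerivAt z (z' v) v) (hc : Continuous z')
    (s t : ℝ) : ((t - s : ℝ) : ℂ) * umlSig z' s t = z t - z s := by
  have h : ∀ r, HasDerivAt (fun r : ℝ => z (s + r * (t - s)))
      (((t - s : ℝ) : ℂ) * z' (s + r * (t - s))) r := fun r => by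
    have := (h1 (s + r * (t - s))).scomp r (((hasDerivAt_id r).mul_const (t - s)).const_add s)
    simpa [Function.comp_def] using this
  have := intervalIntegral.integral_eq_sub_of_hasDerivAt (a := 0) (b := 1) (fun r _ => h r)
    (Continuous.intervalIntegrable (by fun_prop) _ _)
  rw [intervalIntegral.integral_const_mul] at this
  simpa [umlSig] using this

theorem uml_sig_self (z' : ℝ → ℂ) (s : ℝ) : umlSig z' s s = z' s := by simp [umlSig]

theorem uml_min {τ : ℝ} (hτ : 0 < τ) {z z' z'' : ℝ → ℂ} (h1 : ∀ v, HasDerivAt z (z' v) v)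
    (h2 : ∀ v, HasDerivAt z' (z'' v) v) (h3 : Continuous z'') (hp : ∀ v, z (v + τ) = z v)
    (h0 : ∀ v, z' v ≠ 0) (hs : ∀ v v', z v = z v' → ∃ k : ℤ, v' = v + k * τ)
    (hm : ∀ v ∈ Icc 0 τ, (z 0).im ≤ (z v).im) : |wind τ z' z''| ≤ 2 * Real.pi := by
  have hc : Continuous z' := continuous_iff_continuousAt.2 fun v => (h2 v).continuousAt
  have hτ' : (τ : ℂ) ≠ 0 := by exact_mod_cast hτ.ne'
  let T : ℝ → ℝ → ℂ := fun s d => umlSig z' s (s + d) - umlSig z' (s + d) (s + τ)
  have hTc : Continuous fun p : ℝ × ℝ => T p.1 p.2 :=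
    ((uml_sig_cont hc).comp (f := fun p : ℝ × ℝ => (p.1, p.1 + p.2)) (by fun_prop)).sub
      ((uml_sig_cont hc).comp (f := fun p : ℝ × ℝ => (p.1 + p.2, p.1 + τ)) (by fun_prop))
  have hz : ∀ s, umlSig z' s (s + τ) = 0 := fun s => by
    have := uml_sig_mul h1 hc s (s + τ)
    rw [hp, sub_self, add_sub_cancel_left] at this
    exact (mul_eq_zero.1 this).resolve_left hτ'
  have hT0 : ∀ s, T s 0 = z' s := fun s => by simp only [T, add_zero, hz, uml_sig_self, sub_zero]
  have hT : ∀ s d, ((d * (τ - d) : ℝ) : ℂ) * T s d = τ * (z (s + d) - z s) := fun s d => by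
    have e1 := uml_sig_mul h1 hc s (s + d)
    have e2 := uml_sig_mul h1 hc (s + d) (s + τ)
    rw [hp] at e2
    simp only [T]
    push_cast at e1 e2 ⊢
    linear_combination (τ - d) * e1 - d * e2
  have hne : ∀ s, ∀ d ∈ Icc 0 τ, T s d ≠ 0 := fun s d hd h => by
    rcases hd.1.eq_or_lt with rfl | hd0
    · exact h0 s (hT0 s ▸ h)
    rcases hd.2.eq_or_lt with rfl | hd1
    · simp only [T, hz, uml_sig_self, zero_sub, neg_eq_zero] at h
      exact h0 _ h
    have e := hT s d
    rw [h, mul_zero] at e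
    obtain ⟨k, hk⟩ := hs s (s + d) (sub_eq_zero.1 ((mul_eq_zero.1 e.symm).resolve_left hτ')).symm
    have hk' : d = k * τ := by linarith
    have k0 : (0 : ℝ) < k := by nlinarith
    have k1 : (k : ℝ) < 1 := by nlinarith
    have k2 : 0 < k := by exact_mod_cast k0
    have k3 : k < 1 := by exact_mod_cast k1
    omega
  have him : ∀ s d, d * (τ - d) * (T s d).im = τ * ((z (s + d)).im - (z s).im) := fun s d => by
    simpa only [re_ofReal_mul, im_ofReal_mul, sub_im] using congrArg Complex.im (hT s d)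
  obtain ⟨f, hf, hf'⟩ := exists_continuousOn_eqOn_exp_comp (U := (univ : Set (ℝ × ℝ)))
    (by have := (convex_univ (𝕜 := ℝ) (E := ℝ × ℝ)).contractibleSpace univ_nonempty
        exact SimplyConnectedSpace.ofContractible _) isOpen_univ
    (g := fun p => T p.1 (max 0 (min τ p.2)))
    (hTc.comp (f := fun p : ℝ × ℝ => (p.1, max 0 (min τ p.2))) (by fun_prop)).continuousOn
    (by
      rintro ⟨p, -, h⟩
      exact hne _ _ ⟨le_max_left _ _, _root_.max_le hτ.le (min_le_left _ _)⟩ h)
  rw [continuousOn_univ] at hf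
  have he : ∀ s, ∀ d ∈ Icc 0 τ, cexp (f (s, d)) = T s d := fun s d hd => by
    have := hf' (mem_univ (s, d))
    simpa only [Function.comp, min_eq_right hd.2, max_eq_right hd.1] using this
  have hcl : ∀ g : ℝ → ℝ, Continuous g → (∀ d ∈ Ioo 0 τ, 0 ≤ g d) → ∀ d ∈ Icc 0 τ, 0 ≤ g d :=
    fun g hg h d hd => closure_minimal h (isClosed_le continuous_const hg)
      (by rwa [closure_Ioo hτ.ne])
  have e1 := uml_edge hτ.le (Θ := fun d => (f (0, d)).im) (by fun_prop)
    (hcl _ (by fun_prop) fun d hd => by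
      have h4 := him 0 d
      rw [← he 0 d (Ioo_subset_Icc_self hd), exp_im, zero_add] at h4
      have h5 := mul_nonneg hτ.le (sub_nonneg.2 (hm d (Ioo_subset_Icc_self hd)))
      rw [← h4, ← mul_assoc] at h5
      exact nonneg_of_mul_nonneg_right h5
        (mul_pos (mul_pos hd.1 (sub_pos.2 hd.2)) (Real.exp_pos _)))
  have e2 := uml_edge hτ.le (Θ := fun t => -(f (t, τ - t)).im) (by fun_prop)
    (hcl _ (by fun_prop) fun d hd => by
      have h4 := him d (τ - d)
      rw [← he d (τ - d) ⟨by linarith [hd.2], by linarith [hd.1]⟩, exp_im, add_sub_cancel,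
        sub_sub_cancel, ← zero_add τ, hp, zero_add] at h4
      have h5 := mul_nonneg hτ.le (sub_nonneg.2 (hm d (Ioo_subset_Icc_self hd)))
      rw [Real.sin_neg]
      refine nonneg_of_mul_nonneg_right (a := (τ - d) * d * Real.exp (f (d, τ - d)).re) ?_
        (mul_pos (mul_pos (sub_pos.2 hd.2) hd.1) (Real.exp_pos _))
      linarith)
  have hw : Continuous fun v => wind v z' z'' :=
    intervalIntegral.continuous_primitive (fun a b => Continuous.intervalIntegrable
      (continuous_im.comp (h3.div hc h0)) a b) 0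
  have hd : ∀ v, cexp (I * (((f (v, 0)).im - (f (0, 0)).im - wind v z' z'' : ℝ) : ℂ)) = 1 := by
    intro v
    have h4 : ∀ s, cexp (I * ((f (s, 0)).im : ℂ)) = z' s / (‖z' s‖ : ℂ) := fun s => by
      rw [← hT0, ← he s 0 ⟨le_rfl, hτ.le⟩, norm_exp, ofReal_exp, ← exp_sub]
      congr 1
      linear_combination re_add_im (f (s, 0))
    have h5 : ∀ s, (‖z' s‖ : ℂ) ≠ 0 := fun s => by exact_mod_cast norm_ne_zero_iff.2 (h0 s)
    push_cast
    rw [mul_sub, mul_sub, exp_sub, exp_sub, h4, h4, wind_exp h2 h3 h0]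
    have := h0 v
    have := h0 0
    have := h5 v
    have := h5 0
    field_simp
  have e3 := uml_edge hτ.le (Θ := fun v => (f (v, 0)).im - (f (0, 0)).im - wind v z' z'')
    (by fun_prop) fun v _ => by
      have := congrArg Complex.im (hd v)
      rw [mul_comm, exp_ofReal_mul_I_im, one_im] at this
      exact this.ge
  have e4 : (f (τ, 0)).im - (f (0, 0)).im - wind τ z' z'' = 0 := by
    have h4 := congrArg Complex.re (hd τ)
    rw [mul_comm, exp_ofReal_mul_I_re, one_re] at h4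
    have h5 : wind 0 z' z'' = 0 := by simp [wind]
    simp only [h5, sub_self, sub_zero] at e3
    have := abs_le.1 e3
    have hpi := Real.pi_pos
    exact (Real.cos_eq_one_iff_of_lt_of_lt (by linarith) (by linarith)).1 h4
  simp only [sub_self, sub_zero] at e1 e2
  have := abs_le.1 e1
  have := abs_le.1 e2
  exact abs_le.2 ⟨by linarith, by linarith⟩

theorem umlauf {τ : ℝ} (hτ : 0 < τ) {z z' z'' : ℝ → ℂ} (h1 : ∀ v, HasDerivAt z (z' v) v)
    (h2 : ∀ v, HasDerivAt z' (z'' v) v) (h3 : Continuous z'') (hp : ∀ v, z (v + τ) = z v)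
    (h0 : ∀ v, z' v ≠ 0) (hs : ∀ v v', z v = z v' → ∃ k : ℤ, v' = v + k * τ) :
    |wind τ z' z''| ≤ 2 * Real.pi := by
  have per : ∀ {g g' : ℝ → ℂ}, (∀ v, HasDerivAt g (g' v) v) → (∀ v, g (v + τ) = g v) →
      ∀ v, g' (v + τ) = g' v := fun {g g'} hg hq v => by
    have := (hg (v + τ)).comp_add_const v τ
    simp only [hq] at this
    exact this.unique (hg v)
  have hc : Continuous z := continuous_iff_continuousAt.2 fun v => (h1 v).continuousAt
  obtain ⟨t, -, ht⟩ := (isCompact_Icc (a := 0) (b := τ)).exists_isMinOn (nonempty_Icc.2 hτ.le)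
    (continuous_im.comp hc).continuousOn
  rw [← wind_shift (per h1 hp) (per h2 (per h1 hp)) t]
  refine uml_min hτ (z := fun v => z (t + v)) (fun v => (h1 (t + v)).comp_const_add t v)
    (fun v => (h2 (t + v)).comp_const_add t v) (by fun_prop) (fun v => by rw [← add_assoc, hp])
    (fun v => h0 _) (fun v v' h => ?_) fun v _ => ?_
  · obtain ⟨k, hk⟩ := hs _ _ h
    exact ⟨k, by linarith⟩
  · obtain ⟨y, hy, e⟩ := Function.Periodic.exists_mem_Ico₀ (f := z) hp hτ (t + v)
    simp only [add_zero, e]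
    exact ht (Ico_subset_Icc_self hy)

end Pool.Agent.Lib.MP_c7e804_gt
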