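import Pool.Agent.Lib.MP_c7e804_gt.H43Th1
import Pool.Agent.Lib.MP_c7e804_gt.H43Uml

/-!
The rotation angle at the origin: Umlaufsatz and parallel curves.
-/

namespace Pool.Agent.Lib.MP_c7e804_gt

open Matrix Set Complex
open scoped ContDiff ComplexConjugate

/-- inner product with a fixed vector -/
noncomputable def nu0L (A : V3) : V3 →L[ℝ] ℝ :=
  LinearMap.toContinuousLinearMap
    { toFun := fun w => A ⬝ᵥ w
      map_add' := fun x y => dotProduct_add A x y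
      map_smul' := fun c x => by simp }

theorem nu0L_apply (A w : V3) : nu0L A w = A ⬝ᵥ w := rfl

/-- complex coordinate of the projection to the plane spanned by `A` and `B` -/
noncomputable def nu0Z (A B : V3) : V3 →L[ℝ] ℂ :=
  LinearMap.toContinuousLinearMap
    { toFun := fun w => ((A ⬝ᵥ w : ℝ) : ℂ) + I * ((B ⬝ᵥ w : ℝ) : ℂ)
      map_add' := fun x y => by simp only [dotProduct_add]; push_cast; ring
      map_smul' := fun c x => by
        simp only [dotProduct_smul, smul_eq_mul, RingHom.id_apply, Complex.real_smul]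
        push_cast; ring }

theorem nu0Z_apply (A B w : V3) :
    nu0Z A B w = ((A ⬝ᵥ w : ℝ) : ℂ) + I * ((B ⬝ᵥ w : ℝ) : ℂ) := rfl

theorem nu0Z_re (A B w : V3) : (nu0Z A B w).re = A ⬝ᵥ w := by simp [nu0Z_apply]

theorem nu0Z_im (A B w : V3) : (nu0Z A B w).im = B ⬝ᵥ w := by simp [nu0Z_apply]

theorem nu0_nonneg (w : V3) : 0 ≤ w ⬝ᵥ w := Finset.sum_nonneg fun i _ => mul_self_nonneg (w i)

theorem nu0_frame {e : V3} (he : e ⬝ᵥ e = 1) {x : C2} (hx : x ≠ 0) (hxe : sg (cv e) *ᵥ x = x) :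
    ∃ (A B : V3) (μ : ℝ), Fr A B e μ ∧
      ∀ w : C3, br x (sg w *ᵥ x) = (cv A + I • cv B) ⬝ᵥ w := by
  set m : C3 := ![x 0 ^ 2 - x 1 ^ 2, I * (x 0 ^ 2 + x 1 ^ 2), -2 * x 0 * x 1] with hm
  have h0 := congrFun hxe 0
  have h1 := congrFun hxe 1
  simp only [sg, cv, Matrix.mulVec, dotProduct, Fin.sum_univ_two, Matrix.of_apply,
    Matrix.cons_val', Matrix.cons_val_zero, Matrix.cons_val_one, Matrix.cons_val_fin_one] at h0 h1
  have hc : cv e ⨯₃ m = (-I) • m := by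
    ext i
    fin_cases i
    · simp [hm, cross_apply, cv]
      linear_combination (-I * x 0) * h0 + (I * x 1) * h1 - (2 * (e 1 : ℂ) * x 0 * x 1) * I_sq
    · simp [hm, cross_apply, cv]
      linear_combination (x 0) * h0 + (x 1) * h1 + (x 0 ^ 2 + x 1 ^ 2) * I_sq
    · simp [hm, cross_apply, cv]
      linear_combination (I * x 1) * h0 + (I * x 0) * h1 + ((e 1 : ℂ) * (x 1 ^ 2 - x 0 ^ 2)) * I_sq
  have hA : e ⨯₃ re3 m = im3 m := by
    ext i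
    have := congrArg Complex.re (congrFun hc i)
    fin_cases i <;> simp [cross_apply, cv, re3, im3] at this ⊢ <;> linarith
  have hB : e ⨯₃ im3 m = -re3 m := by
    ext i
    have := congrArg Complex.im (congrFun hc i)
    fin_cases i <;> simp [cross_apply, cv, re3, im3] at this ⊢ <;> linarith
  have eB : e ⬝ᵥ im3 m = 0 := by rw [← hA]; exact dot_self_cross _ _
  have eA : e ⬝ᵥ re3 m = 0 := by
    have : e ⬝ᵥ (e ⨯₃ im3 m) = 0 := dot_self_cross _ _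
    rw [hB, dotProduct_neg] at this
    linarith
  have hne : re3 m ≠ 0 := by
    intro hz
    have hz' : im3 m = 0 := by rw [← hA, hz]; simp
    have hm0 : m = 0 := by
      rw [eq_re_im m, hz, hz']
      ext i
      simp [cv]
    have a0 : x 0 ^ 2 - x 1 ^ 2 = 0 := by simpa [hm] using congrFun hm0 0
    have a1 : x 0 ^ 2 + x 1 ^ 2 = 0 := by simpa [hm] using congrFun hm0 1
    have b0 : x 0 ^ 2 = 0 := by linear_combination (1 / 2 : ℂ) * a0 + (1 / 2 : ℂ) * a1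
    have b1 : x 1 ^ 2 = 0 := by linear_combination (-1 / 2 : ℂ) * a0 + (1 / 2 : ℂ) * a1
    apply hx
    ext i
    fin_cases i
    · simpa using b0
    · simpa using b1
  have hpos : 0 < re3 m ⬝ᵥ re3 m := by
    rcases (nu0_nonneg (re3 m)).lt_or_eq with h | h
    · exact h
    · exact absurd (dotProduct_self_eq_zero.1 h.symm) hne
  refine ⟨re3 m, im3 m, re3 m ⬝ᵥ re3 m, ⟨hpos, rfl, ?_, ?_, ?_⟩, fun w => ?_⟩
  · rw [← hA, cross_dot_cross, he, eA, dotProduct_comm (re3 m) e, eA]; ring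
  · rw [← hA]; exact dot_cross_self _ _
  · have : re3 m ⨯₃ (e ⨯₃ re3 m) = (re3 m ⬝ᵥ re3 m) • e - (e ⬝ᵥ re3 m) • re3 m := by
      ext i; fin_cases i <;> simp [cross_apply, dotProduct, Fin.sum_univ_three] <;> ring
    rw [← hA, this, eA, zero_smul, sub_zero, smul_smul, inv_mul_cancel₀ hpos.ne', one_smul]
  · rw [← eq_re_im m]
    simp [hm, br, sg, Matrix.mulVec, dotProduct, Fin.sum_univ_two, Fin.sum_univ_three]
    ring

section
variable {A B e : V3} {μ : ℝ} (F : Fr A B e μ)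
include F

theorem nu0Z_cross (w : V3) : nu0Z A B (e ⨯₃ w) = I * nu0Z A B w := by
  have h1 : A ⬝ᵥ (e ⨯₃ w) = -((e ⨯₃ A) ⬝ᵥ w) := by
    simp [cross_apply, dotProduct, Fin.sum_univ_three]; ring
  have h2 : B ⬝ᵥ (e ⨯₃ w) = -((e ⨯₃ B) ⬝ᵥ w) := by
    simp [cross_apply, dotProduct, Fin.sum_univ_three]; ring
  rw [nu0Z_apply, nu0Z_apply, h1, h2, F.NxA, F.NxB, neg_dotProduct]
  push_cast
  linear_combination (-((B ⬝ᵥ w : ℝ) : ℂ)) * I_sq

theorem nu0Z_eq_zero {w : V3} (h : nu0Z A B w = 0) : w = (w ⬝ᵥ e) • e := by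
  have h1 : w ⬝ᵥ A = 0 := by rw [dotProduct_comm, ← nu0Z_re A B, h]; simp
  have h2 : w ⬝ᵥ B = 0 := by rw [dotProduct_comm, ← nu0Z_im A B, h]; simp
  have := F.decomp w
  rw [h1, h2] at this
  simpa using this

theorem nu0_sq (w : V3) : (A ⬝ᵥ w) ^ 2 + (B ⬝ᵥ w) ^ 2 = μ * (w ⬝ᵥ w - (e ⬝ᵥ w) ^ 2) := by
  have hμ := F.pos.ne'
  have h1 := congrArg (fun y => y ⬝ᵥ w) (F.decomp w)
  simp only [add_dotProduct, smul_dotProduct, smul_eq_mul] at h1
  rw [dotProduct_comm w A, dotProduct_comm w B, dotProduct_comm w e] at h1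
  rw [h1]
  field_simp
  ring

/-- stereographic projection is injective -/
theorem nu0_inj {P P' : V3} (hP : P ⬝ᵥ P = 1) (hP' : P' ⬝ᵥ P' = 1) (h1 : 0 < 1 + e ⬝ᵥ P)
    (h1' : 0 < 1 + e ⬝ᵥ P')
    (h : (1 + e ⬝ᵥ P)⁻¹ • nu0Z A B P = (1 + e ⬝ᵥ P')⁻¹ • nu0Z A B P') : P = P' := by
  have a1 : (1 + e ⬝ᵥ P)⁻¹ * (A ⬝ᵥ P) = (1 + e ⬝ᵥ P')⁻¹ * (A ⬝ᵥ P') := by
    have := congrArg Complex.re h
    rwa [Complex.smul_re, Complex.smul_re, nu0Z_re, nu0Z_re] at this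
  have a2 : (1 + e ⬝ᵥ P)⁻¹ * (B ⬝ᵥ P) = (1 + e ⬝ᵥ P')⁻¹ * (B ⬝ᵥ P') := by
    have := congrArg Complex.im h
    rwa [Complex.smul_im, Complex.smul_im, nu0Z_im, nu0Z_im] at this
  have b1 := nu0_sq F P
  have b2 := nu0_sq F P'
  rw [hP] at b1
  rw [hP'] at b2
  field_simp at a1 a2
  have hμ := F.pos
  have c : μ * ((1 + e ⬝ᵥ P) * (1 + e ⬝ᵥ P') * (e ⬝ᵥ P - e ⬝ᵥ P')) = 0 := by
    have e1 : ((A ⬝ᵥ P) * (1 + e ⬝ᵥ P')) ^ 2 = ((1 + e ⬝ᵥ P) * (A ⬝ᵥ P')) ^ 2 := by rw [a1]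
    have e2 : ((B ⬝ᵥ P) * (1 + e ⬝ᵥ P')) ^ 2 = ((1 + e ⬝ᵥ P) * (B ⬝ᵥ P')) ^ 2 := by
      rw [← a2, mul_comm]
    linear_combination (-1 / 2 : ℝ) * e1 + (-1 / 2 : ℝ) * e2
      + (1 / 2 : ℝ) * (1 + e ⬝ᵥ P') ^ 2 * b1 - (1 / 2 : ℝ) * (1 + e ⬝ᵥ P) ^ 2 * b2
  have hs : e ⬝ᵥ P = e ⬝ᵥ P' := by
    have := (mul_eq_zero.1 ((mul_eq_zero.1 c).resolve_left hμ.ne')).resolve_left
      (mul_pos h1 h1').ne'
    linarith
  have hA : A ⬝ᵥ P = A ⬝ᵥ P' := by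
    rw [← hs] at a1
    exact mul_left_cancel₀ h1.ne' (by linarith)
  have hB : B ⬝ᵥ P = B ⬝ᵥ P' := by
    rw [← hs] at a2
    exact mul_left_cancel₀ h1.ne' (by linarith)
  rw [F.decomp P, F.decomp P', dotProduct_comm P, dotProduct_comm P, dotProduct_comm P,
    dotProduct_comm P', dotProduct_comm P', dotProduct_comm P', hA, hB, hs]

/-- the segment between the two tangent curves avoids the origin -/
theorem nu0_ne {P N t : V3} {c α β : ℝ} (hc : 0 ≤ c) (hPN : N ⬝ᵥ P = c) (hNN : N ⬝ᵥ N = 1)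
    (hNt : N ⬝ᵥ t = 0) (ht : 0 < t ⬝ᵥ t) (hNe : 0 < N ⬝ᵥ e) (h1 : 0 < 1 + e ⬝ᵥ P) (hα : 0 ≤ α)
    (hβ : 0 ≤ β) (hαβ : 0 < α + β) :
    α • ((1 + e ⬝ᵥ P) • nu0Z A B t - (e ⬝ᵥ t) • nu0Z A B P)
      + β • ((1 + e ⬝ᵥ N) • nu0Z A B t - (e ⬝ᵥ t) • nu0Z A B N) ≠ 0 := by
  intro h0
  have h2 : nu0Z A B (α • ((1 + e ⬝ᵥ P) • t - (e ⬝ᵥ t) • P)
      + β • ((1 + e ⬝ᵥ N) • t - (e ⬝ᵥ t) • N)) = 0 := by
    rw [← h0]; simp only [map_add, map_sub, map_smul]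
  have h3 := nu0Z_eq_zero F h2
  have h4 := congrArg (fun y => N ⬝ᵥ y) h3
  have h5 := congrArg (fun y => t ⬝ᵥ y) h3
  simp only [dotProduct_add, dotProduct_sub, dotProduct_smul, add_dotProduct, sub_dotProduct,
    smul_dotProduct, smul_eq_mul] at h4 h5
  rw [dotProduct_comm t e, dotProduct_comm P e] at h4 h5
  rw [dotProduct_comm e N] at h4 h5
  rw [hPN, hNN, hNt] at h4
  have h6 : (e ⬝ᵥ t) * (α * c + β + (α + β) * (N ⬝ᵥ e)) = 0 := by linear_combination -h4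
  have h7 : 0 < α * c + β + (α + β) * (N ⬝ᵥ e) := by positivity
  have h8 : e ⬝ᵥ t = 0 := (mul_eq_zero.1 h6).resolve_right h7.ne'
  rw [h8] at h5
  have h9 : (α * (1 + e ⬝ᵥ P) + β * (1 + N ⬝ᵥ e)) * (t ⬝ᵥ t) = 0 := by linear_combination h5
  have h10 : 0 < α * (1 + e ⬝ᵥ P) + β * (1 + N ⬝ᵥ e) := by
    rcases hα.lt_or_eq with h | h
    · positivity
    · have : 0 < β := by linarith
      positivity
  exact (mul_pos h10 ht).ne' h9

end

theorem nu0_pos {e P N : V3} {c : ℝ} (he : e ⬝ᵥ e = 1) (hP : P ⬝ᵥ P = 1) (hc : 0 ≤ c)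
    (hPN : N ⬝ᵥ P = c) (hNe : 0 < N ⬝ᵥ e) : 0 < 1 + e ⬝ᵥ P := by
  have h1 : (e + P) ⬝ᵥ (e + P) = 2 * (1 + e ⬝ᵥ P) := by
    simp only [add_dotProduct, dotProduct_add, he, hP, dotProduct_comm P e]; ring
  rcases (nu0_nonneg (e + P)).lt_or_eq with h | h
  · linarith
  · have h2 := dotProduct_self_eq_zero.1 h.symm
    have h3 : N ⬝ᵥ (e + P) = 0 := by rw [h2]; simp
    rw [dotProduct_add, hPN] at h3
    linarith

namespace Cap
variable {ψ : ℝ × ℝ → V3} {a b τ θ : ℝ} (h : Cap ψ a b τ θ)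
include h

theorem wind_zero (hc : 0 ≤ Real.cos θ) (hs : SimpleAt ψ τ b) {e : V3} (he : e ⬝ᵥ e = 1)
    (hN : ∀ v, 0 < normal ψ (b, v) ⬝ᵥ e) {x : C2} (hx : x ≠ 0) (hxe : sg (cv e) *ᵥ x = x) :
    (∀ v, Qf ψ b (fun _ => x) v ≠ 0) ∧
      wind τ (Qf ψ b fun _ => x) (Qd ψ b fun _ => x) ≤ 2 * Real.pi := by
  obtain ⟨A, B, μ, F, hm⟩ := nu0_frame he hx hxe
  have hb : b ∈ Icc a b := ⟨h.ann.hab.le, le_rfl⟩
  have hmem : ∀ v, ((b, v) : ℝ × ℝ) ∈ strip a b := fun v => hb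
  have h1 : ∀ v, 0 < 1 + e ⬝ᵥ ψ (b, v) := fun v =>
    nu0_pos he (h.ann.sphere_b v) hc (h.ann.angle_b v) (hN v)
  set m : C3 := cv A + I • cv B with hmdef
  have hQ : ∀ v, Qf ψ b (fun _ => x) v = m ⬝ᵥ ph ψ (b, v) := fun v => hm _
  have hQd : ∀ v, Qd ψ b (fun _ => x) v = m ⬝ᵥ (I • ph1 ψ (b, v)) := fun v => by
    rw [Qd, hm, dotProduct_smul, smul_eq_mul]
  have hQ2 : ∀ v, 2 * I * Qf ψ b (fun _ => x) v =
      (1 + e ⬝ᵥ normal ψ (b, v)) • nu0Z A B (dv ψ (b, v))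
        - (e ⬝ᵥ dv ψ (b, v)) • nu0Z A B (normal ψ (b, v)) := by
    intro v
    have G := h.ann.fr (hmem v)
    have e1 : e ⨯₃ du ψ (b, v) = (e ⬝ᵥ normal ψ (b, v)) • dv ψ (b, v)
        - (e ⬝ᵥ dv ψ (b, v)) • normal ψ (b, v) := by
      have e2 : du ψ (b, v) = -(normal ψ (b, v) ⨯₃ dv ψ (b, v)) := by rw [G.NxB, neg_neg]
      rw [e2]
      ext i; fin_cases i <;> simp [cross_apply, dotProduct, Fin.sum_univ_three] <;> ring
    have e3 := nu0Z_cross F (du ψ (b, v))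
    rw [e1, map_sub, map_smul, map_smul] at e3
    have e4 : 2 * I * (m ⬝ᵥ ph ψ (b, v)) = I * nu0Z A B (du ψ (b, v)) + nu0Z A B (dv ψ (b, v)) := by
      simp only [hmdef, nu0Z_apply, ph, cv, dotProduct, Fin.sum_univ_three, Pi.add_apply,
        Pi.smul_apply, smul_eq_mul]
      push_cast
      linear_combination (-(((A 0 : ℂ) + I * B 0) * dv ψ (b, v) 0 + ((A 1 : ℂ) + I * B 1) * dv ψ (b, v) 1
        + ((A 2 : ℂ) + I * B 2) * dv ψ (b, v) 2)) * I_sq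
    rw [hQ, e4, ← e3, add_smul, one_smul]
    ring
  have hne : ∀ (v α β : ℝ), 0 ≤ α → 0 ≤ β → 0 < α + β →
      α • ((1 + e ⬝ᵥ ψ (b, v)) • nu0Z A B (dv ψ (b, v)) - (e ⬝ᵥ dv ψ (b, v)) • nu0Z A B (ψ (b, v)))
        + β • (2 * I * Qf ψ b (fun _ => x) v) ≠ 0 := by
    intro v α β hα hβ hαβ
    have G := h.ann.fr (hmem v)
    rw [hQ2]
    exact nu0_ne F hc (h.ann.angle_b v) G.NN G.NB (by rw [G.BB]; exact G.pos) (hN v) (h1 v) hα hβ hαβ
  have hQne : ∀ v, Qf ψ b (fun _ => x) v ≠ 0 := by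
    intro v h0
    apply hne v 0 1 le_rfl zero_le_one (by norm_num)
    rw [h0]; simp
  refine ⟨hQne, ?_⟩
  have hPs : ContDiff ℝ ∞ (fun v : ℝ => ψ (b, v)) := contDiff_iff_contDiffAt.2 fun v =>
    (h.ann.smooth _ (hmem v)).comp v (contDiffAt_const.prodMk contDiffAt_id)
  have hPd : ∀ v, HasDerivAt (fun v : ℝ => ψ (b, v)) (dv ψ (b, v)) v := fun v =>
    hasDerivAt_line_v (sm_diff (h.ann.smooth _ (hmem v)))
  set ζ : ℝ → ℂ := fun v => (1 + e ⬝ᵥ ψ (b, v))⁻¹ • nu0Z A B (ψ (b, v)) with hζ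
  have hζs : ContDiff ℝ ∞ ζ :=
    ((contDiff_const.add ((nu0L e).contDiff.comp hPs)).inv fun v => (h1 v).ne').smul
      ((nu0Z A B).contDiff.comp hPs)
  have hζ1 : ∀ v, deriv ζ v = ((1 + e ⬝ᵥ ψ (b, v)) ^ 2)⁻¹ •
      ((1 + e ⬝ᵥ ψ (b, v)) • nu0Z A B (dv ψ (b, v))
        - (e ⬝ᵥ dv ψ (b, v)) • nu0Z A B (ψ (b, v))) := by
    intro v
    have d1 : HasDerivAt (fun v : ℝ => 1 + e ⬝ᵥ ψ (b, v)) (e ⬝ᵥ dv ψ (b, v)) v :=
      ((nu0L e).hasFDerivAt.comp_hasDerivAt v (hPd v)).const_add 1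
    have d2 : HasDerivAt (fun v : ℝ => nu0Z A B (ψ (b, v))) (nu0Z A B (dv ψ (b, v))) v :=
      (nu0Z A B).hasFDerivAt.comp_hasDerivAt v (hPd v)
    have d3 := (d1.inv (h1 v).ne').smul d2
    have d4 : HasDerivAt ζ _ v := d3
    rw [d4.deriv]
    have := (h1 v).ne'
    simp only [Pi.inv_apply, smul_sub, smul_smul]
    rw [sub_eq_add_neg, ← neg_smul]
    congr 2
    · field_simp
    · field_simp
  have hζs1 : ContDiff ℝ ∞ (deriv ζ) := (contDiff_infty_iff_deriv.1 hζs).2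
  have hζd : ∀ v, HasDerivAt ζ (deriv ζ v) v := fun v =>
    ((contDiff_infty_iff_deriv.1 hζs).1 v).hasDerivAt
  have hζd1 : ∀ v, HasDerivAt (deriv ζ) (deriv (deriv ζ) v) v := fun v =>
    ((contDiff_infty_iff_deriv.1 hζs1).1 v).hasDerivAt
  have hζc2 : Continuous (deriv (deriv ζ)) := (contDiff_infty_iff_deriv.1 hζs1).2.continuous
  have hper : ∀ v, ψ (b, v + τ) = ψ (b, v) := fun v => h.ann.periodic (b, v) (hmem v)
  have hperB : ∀ v, dv ψ (b, v + τ) = dv ψ (b, v) := fun v => h.ann.perB (b, v) (hmem v)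
  have hum : |wind τ (deriv ζ) (deriv (deriv ζ))| ≤ 2 * Real.pi := by
    refine umlauf h.ann.hτ hζd hζd1 hζc2 (fun v => by simp only [hζ, hper]) (fun v h0 => ?_)
      (fun v v' hv => hs v v' ?_)
    · apply hne v ((1 + e ⬝ᵥ ψ (b, v)) ^ 2)⁻¹ 0 (by positivity) le_rfl
        (by have := h1 v; positivity)
      rw [← hζ1, h0]; simp
    · exact nu0_inj F (h.ann.sphere_b v) (h.ann.sphere_b v') (h1 v) (h1 v') hv
  have hQder : ∀ v, HasDerivAt (Qf ψ b fun _ => x) (Qd ψ b (fun _ => x) v) v := by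
    intro v
    have d := ((PD.const m).dot h.pd_ph).hv (b, v) (hmem v)
    have e1 : (Qf ψ b fun _ => x) = fun y => m ⬝ᵥ ph ψ (b, y) := funext hQ
    rw [e1, hQd]
    simpa using d
  have hQc : Continuous (Qf ψ b fun _ => x) :=
    continuous_iff_continuousAt.2 fun v => (hQder v).continuousAt
  have hQdc : Continuous (Qd ψ b fun _ => x) := by
    have d := cont_line_v ((PD.const m).dot h.pd_ph).contv hb
    have e1 : (Qd ψ b fun _ => x) = fun y => m ⬝ᵥ (I • ph1 ψ (b, y)) := funext hQd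
    rw [e1]
    simpa using d
  have hQp : Qf ψ b (fun _ => x) τ = Qf ψ b (fun _ => x) 0 := by
    have := h.per_A (hmem 0)
    simp only [zero_add] at this
    simp only [Qf, this]
  have hζp : deriv ζ τ = deriv ζ 0 := by
    have e1 := hper 0
    have e2 := hperB 0
    rw [zero_add] at e1 e2
    rw [hζ1, hζ1, e1, e2]
  have hh := wind_homotopy (τ := τ) (zero_le_one : (0 : ℝ) ≤ 1)
    (G := fun r v => (1 - r) • deriv ζ v + r • (2 * I * Qf ψ b (fun _ => x) v))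
    (G' := fun r v => (1 - r) • deriv (deriv ζ) v + r • (2 * I * Qd ψ b (fun _ => x) v))
    (fun r _ v => ((hζd1 v).const_smul (1 - r)).add (((hQder v).const_mul (2 * I)).const_smul r))
    (Continuous.continuousOn (by have := hζs1.continuous; fun_prop))
    (Continuous.continuousOn (by fun_prop))
    (fun r hr v => by
      have := hne v ((1 - r) * ((1 + e ⬝ᵥ ψ (b, v)) ^ 2)⁻¹) r
        (mul_nonneg (by linarith [hr.2]) (by positivity)) hr.1 (by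
          have h2 : 0 < ((1 + e ⬝ᵥ ψ (b, v)) ^ 2)⁻¹ := by have := h1 v; positivity
          rcases hr.1.lt_or_eq with h3 | h3
          · have : 0 ≤ (1 - r) * ((1 + e ⬝ᵥ ψ (b, v)) ^ 2)⁻¹ :=
              mul_nonneg (by linarith [hr.2]) h2.le
            linarith
          · rw [← h3]; simpa using h2)
      rwa [mul_smul, ← hζ1] at this)
    (fun r _ => by simp only [hQp, hζp])
  simp only [sub_zero, one_smul, zero_smul, add_zero, sub_self, zero_add] at hh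
  rw [wind_smul (mul_ne_zero two_ne_zero I_ne_zero)] at hh
  rw [← hh]
  exact (le_abs_self _).trans hum

end Cap

end Pool.Agent.Lib.MP_c7e804_gt
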