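import Pool.Agent.Lib.MP_c7e804_gt.H43Th0

/-!
Coordinates with respect to the invariant line.
-/

namespace Pool.Agent.Lib.MP_c7e804_gt

open Matrix Set Complex
open scoped ContDiff ComplexConjugate

/-- the orthogonal complement of a spinor -/
noncomputable def th1J (V : C2) : C2 := ![-conj (V 1), conj (V 0)]

theorem th1_dot_J (V y : C2) : star (th1J V) ⬝ᵥ y = br V y := by
  simp [th1J, br, dotProduct, Fin.sum_univ_two]
  ring

theorem th1_br_J (V : C2) : br V (th1J V) = star V ⬝ᵥ V := by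
  simp [th1J, br, dotProduct, Fin.sum_univ_two]
  ring

theorem th1_V_J (V : C2) : star V ⬝ᵥ th1J V = 0 := by
  simp [th1J, dotProduct, Fin.sum_univ_two]
  ring

theorem th1_dec {V : C2} (hV : star V ⬝ᵥ V = 1) (y : C2) :
    y = (star V ⬝ᵥ y) • V + br V y • th1J V := by
  have e : conj (V 0) * V 0 + conj (V 1) * V 1 = 1 := by
    simpa [dotProduct, Fin.sum_univ_two] using hV
  ext i
  fin_cases i
  · simp [th1J, br, dotProduct, Fin.sum_univ_two]
    linear_combination (-y 0) * e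
  · simp [th1J, br, dotProduct, Fin.sum_univ_two]
    linear_combination (-y 1) * e

theorem th1_S_J {n : V3} {V : C2} (hS : sg (cv n) *ᵥ V = V) :
    sg (cv n) *ᵥ th1J V = -th1J V := by
  have e0 := congrArg conj (congrFun hS 0)
  have e1 := congrArg conj (congrFun hS 1)
  simp [sg, cv, mulVec, dotProduct, Fin.sum_univ_two] at e0 e1
  ext i
  fin_cases i
  · simp [sg, cv, th1J, mulVec, dotProduct, Fin.sum_univ_two]
    linear_combination e1
  · simp [sg, cv, th1J, mulVec, dotProduct, Fin.sum_univ_two]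
    linear_combination -e0

theorem th1_br_add (x y z : C2) : br x (y + z) = br x y + br x z := by
  simp [br]; ring

theorem th1_br_smul (x y : C2) (t : ℂ) : br x (t • y) = t * br x y := by
  simp [br]; ring

theorem th1_br_add' (x y z : C2) : br (x + y) z = br x z + br y z := by
  simp [br]; ring

theorem th1_br_smul' (x y : C2) (t : ℂ) : br (t • x) y = t * br x y := by
  simp [br]; ring

theorem th1_star_mulVec (M : M2) (x y : C2) : star (M *ᵥ x) ⬝ᵥ y = star x ⬝ᵥ (Mᴴ *ᵥ y) := by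
  rw [star_mulVec, dotProduct_mulVec]

theorem th1_conj_dot (x y : C2) : star x ⬝ᵥ y = conj (star y ⬝ᵥ x) := by
  simp [dotProduct, Fin.sum_univ_two]
  ring

/-- the diagonal entry -/
theorem th1_diag {n : V3} {w : C3} {V : C2} (hV : star V ⬝ᵥ V = 1) (hS : sg (cv n) *ᵥ V = V) :
    star V ⬝ᵥ (sg w *ᵥ V) = cv n ⬝ᵥ w := by
  have e := congrArg (fun M : M2 => star V ⬝ᵥ (M *ᵥ V)) (sg_anti (cv n) w)
  have hH : (sg (cv n))ᴴ = sg (cv n) := by rw [sg_ct, star_cv]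
  have e1 : star V ⬝ᵥ ((sg (cv n) * sg w) *ᵥ V) = star V ⬝ᵥ (sg w *ᵥ V) := by
    rw [← mulVec_mulVec, ← hH, ← th1_star_mulVec, hS]
  have e2 : star V ⬝ᵥ ((sg w * sg (cv n)) *ᵥ V) = star V ⬝ᵥ (sg w *ᵥ V) := by
    rw [← mulVec_mulVec, hS]
  simp only [add_mulVec, dotProduct_add, e1, e2, smul_mulVec, one_mulVec, dotProduct_smul, hV,
    smul_eq_mul] at e
  linear_combination e / 2

/-- the off-diagonal entry -/
theorem th1_off {n : V3} {A : M2} {c : ℂ} {V : C2} (hS : sg (cv n) *ᵥ V = V)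
    (hA : Aᴴ * (c • (1 : M2) + sg (cv n)) = (c • (1 : M2) + sg (cv n)) * A) :
    (1 + c) * (star V ⬝ᵥ (A *ᵥ th1J V)) = (c - 1) * conj (br V (A *ᵥ V)) := by
  have e := congrArg (fun M : M2 => star V ⬝ᵥ (M *ᵥ th1J V)) hA
  have hH : (sg (cv n))ᴴ = sg (cv n) := by rw [sg_ct, star_cv]
  have e1 : star V ⬝ᵥ ((Aᴴ * (c • (1 : M2) + sg (cv n))) *ᵥ th1J V)
      = (c - 1) * conj (br V (A *ᵥ V)) := by
    rw [← mulVec_mulVec, add_mulVec, th1_S_J hS, smul_mulVec, one_mulVec, ← th1_star_mulVec,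
      ← th1_dot_J, ← th1_conj_dot, dotProduct_add, dotProduct_smul, dotProduct_neg, smul_eq_mul]
    ring
  have e2 : star V ⬝ᵥ (((c • (1 : M2) + sg (cv n)) * A) *ᵥ th1J V)
      = (1 + c) * (star V ⬝ᵥ (A *ᵥ th1J V)) := by
    have e3 : star V ⬝ᵥ (sg (cv n) *ᵥ (A *ᵥ th1J V)) = star V ⬝ᵥ (A *ᵥ th1J V) := by
      rw [← hH, ← th1_star_mulVec, hS]
    rw [← mulVec_mulVec, add_mulVec, smul_mulVec, one_mulVec, dotProduct_add, e3, dotProduct_smul,
      smul_eq_mul]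
    ring
  simp only [e1, e2] at e
  exact e.symm

namespace Cap
variable {ψ : ℝ × ℝ → V3} {a b τ θ : ℝ} (h : Cap ψ a b τ θ) {F G : ℂ → ℝ × ℝ → M2}
  (hF : Frame a b (Am ψ) F G)
  {x : C2} (hx1 : star x ⬝ᵥ x = 1) (hx2 : sg (cv (ψ (b, 0))) *ᵥ x = x)
include h hF hx1 hx2

omit hF hx1 hx2 in
theorem th1_cos : 0 < 1 + Real.cos θ ∧ 0 < 1 - Real.cos θ := by
  have hs := h.sin_pos
  have e := Real.sin_sq_add_cos_sq θ
  have h1 := Real.neg_one_le_cos θ
  have h2 := Real.cos_le_one θ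
  have : 0 < (1 + Real.cos θ) * (1 - Real.cos θ) := by nlinarith
  constructor
  · by_contra hn
    nlinarith
  · by_contra hn
    nlinarith

theorem th1_alpha (v : ℝ) : star (cl b F x (ka θ) v) ⬝ᵥ (Am ψ (b, v) *ᵥ cl b F x (ka θ) v)
    = (pu ψ (b, v) : ℂ) / 2 := by
  rw [Am, th1_diag (h.V_unit hF hx1 hx2 v) (h.V_eig hF hx1 hx2 v), h.bd_psi_ph (Or.inr rfl) v]

theorem deriv_aa (κ v : ℝ) : HasDerivAt (aa b θ F x κ) (aa' ψ b θ F x κ v) v := by
  have hd := (((h.sol_F hF (ka θ) x).star).dot (h.sol_F hF κ x)).hv (b, v) (h.mem_b v)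
  have hV := h.V_unit hF hx1 hx2 v
  have hS := h.V_eig hF hx1 hx2 v
  have hα := h.th1_alpha hF hx1 hx2 v
  have hr := th1_off (c := (Real.cos θ : ℂ)) hS (h.bd_Ah_K0 (Or.inr rfl) v)
  have hcos : (1 + (Real.cos θ : ℂ)) ≠ 0 := by exact_mod_cast h.th1_cos.1.ne'
  suffices e : aa' ψ b θ F x κ v =
      star (-(I * (ka θ : ℂ)) • (Am ψ (b, v) *ᵥ cl b F x (ka θ) v)) ⬝ᵥ
      cl b F x κ v + star (cl b F x (ka θ) v) ⬝ᵥ (-(I * κ) • (Am ψ (b, v) *ᵥ cl b F x κ v)) by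
    rw [e]
    exact hd
  unfold aa' aa bb Qf
  set V := cl b F x (ka θ) v
  set c := cl b F x κ v
  set A := Am ψ (b, v)
  have e1 : star (A *ᵥ V) ⬝ᵥ c
      = (pu ψ (b, v) : ℂ) / 2 * (star V ⬝ᵥ c) + conj (br V (A *ᵥ V)) * br V c := by
    conv_lhs => rw [th1_dec hV (A *ᵥ V), hα]
    rw [star_add, star_smul, star_smul, add_dotProduct, smul_dotProduct, smul_dotProduct,
      th1_dot_J]
    simp
  have e2 : star V ⬝ᵥ (A *ᵥ c)
      = (star V ⬝ᵥ c) * ((pu ψ (b, v) : ℂ) / 2) + br V c * (star V ⬝ᵥ (A *ᵥ th1J V)) := by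
    conv_lhs => rw [th1_dec hV c]
    rw [mulVec_add, mulVec_smul, mulVec_smul, dotProduct_add, dotProduct_smul, dotProduct_smul, hα,
      smul_eq_mul, smul_eq_mul]
  have e3 : star V ⬝ᵥ (A *ᵥ th1J V)
      = ((Real.cos θ : ℂ) - 1) / (1 + Real.cos θ) * conj (br V (A *ᵥ V)) := by
    field_simp
    linear_combination hr
  rw [star_smul, smul_dotProduct, dotProduct_smul, e1, e2, e3]
  have e4 : star (-(I * (ka θ : ℂ))) = I * (ka θ : ℂ) := by simp
  rw [e4, smul_eq_mul, smul_eq_mul, ka]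
  push_cast
  rw [← ofReal_cos]
  field_simp
  ring

theorem deriv_bb (κ v : ℝ) : HasDerivAt (bb b θ F x κ) (bb' ψ b θ F x κ v) v := by
  have hd := ((h.sol_F hF (ka θ) x).br (h.sol_F hF κ x)).hv (b, v) (h.mem_b v)
  have hV := h.V_unit hF hx1 hx2 v
  have hα := h.th1_alpha hF hx1 hx2 v
  suffices e : bb' ψ b θ F x κ v = br (-(I * (ka θ : ℂ)) • (Am ψ (b, v) *ᵥ cl b F x (ka θ) v))
      (cl b F x κ v) + br (cl b F x (ka θ) v) (-(I * κ) • (Am ψ (b, v) *ᵥ cl b F x κ v)) by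
    rw [e]
    exact hd
  unfold bb' aa bb Qf
  set V := cl b F x (ka θ) v
  set c := cl b F x κ v
  have hsg : ∀ y z : C2, br (Am ψ (b, v) *ᵥ y) z = -br y (Am ψ (b, v) *ᵥ z) :=
    fun y z => br_sg _ y z
  set A := Am ψ (b, v)
  have e1 : br V (A *ᵥ th1J V) = -((pu ψ (b, v) : ℂ) / 2) := by
    have e := hsg V (th1J V)
    rw [th1_dec hV (A *ᵥ V), hα, th1_br_add', th1_br_smul', th1_br_smul', th1_br_J, hV,
      br_self] at e
    linear_combination e
  have e2 : br V (A *ᵥ c)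
      = (star V ⬝ᵥ c) * br V (A *ᵥ V) - br V c * ((pu ψ (b, v) : ℂ) / 2) := by
    conv_lhs => rw [th1_dec hV c]
    rw [mulVec_add, mulVec_smul, mulVec_smul, th1_br_add, th1_br_smul, th1_br_smul, e1]
    ring
  rw [th1_br_smul', th1_br_smul, hsg V c, e2]
  push_cast
  ring

theorem aa_zero (κ : ℝ) : aa b θ F x κ 0 = 1 ∧ bb b θ F x κ 0 = 0 := by
  simp only [aa, bb, cl, hF.baseF, one_mulVec]
  exact ⟨hx1, br_self x⟩

theorem aa_ka (v : ℝ) : aa b θ F x (ka θ) v = 1 ∧ aa' ψ b θ F x (ka θ) v = 0 := by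
  refine ⟨h.V_unit hF hx1 hx2 v, ?_⟩
  simp [aa', bb, br_self]

theorem aa_ne {κ : ℝ} (hκ : κ ≤ ka θ) (v : ℝ) : aa b θ F x κ v ≠ 0 := by
  intro h0
  have hV := h.V_unit hF hx1 hx2 v
  have hS := h.V_eig hF hx1 hx2 v
  have hx0 : x ≠ 0 := by
    rintro rfl
    simp at hx1
  have hne : cl b F x κ v ≠ 0 := h.F_ne hF κ hx0 (h.mem_b v)
  have hH := congrArg (fun M : M2 => hf x M x) (h.H_const hF κ (Or.inr rfl) v)
  simp only [← hf_mul, hF.baseF, one_mulVec] at hH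
  change hf (cl b F x κ v) _ (cl b F x κ v) = _ at hH
  unfold aa at h0
  set V := cl b F x (ka θ) v
  set c := cl b F x κ v
  have hc : c = br V c • th1J V := by
    have e := th1_dec hV c
    rwa [h0, zero_smul, zero_add] at e
  have hb : br V c ≠ 0 := by
    intro hb
    rw [hb, zero_smul] at hc
    exact hne hc
  set β := br V c
  rw [hc, hf_smul_smul, Km_eq, Km_eq] at hH
  simp only [hf, add_mulVec, smul_mulVec, one_mulVec, th1_S_J hS, hx2, dotProduct_add,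
    dotProduct_smul, dotProduct_neg, hx1, th1_dot_J, th1_br_J, hV, smul_eq_mul] at hH
  rw [← normSq_eq_conj_mul_self] at hH
  have hR : normSq β * ((1 + κ * Real.cos θ) - κ) = (1 + κ * Real.cos θ) + κ := by
    apply ofReal_injective
    push_cast at hH ⊢
    linear_combination hH
  obtain ⟨c1, c2⟩ := h.th1_cos
  have hk : κ * (1 + Real.cos θ) ≤ -1 := by
    rw [ka, le_div_iff₀ c1] at hκ
    exact hκ
  have hkn : κ < 0 := by
    by_contra hn
    nlinarith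
  have hβ : 0 < normSq β := normSq_pos.mpr hb
  have : 0 < normSq β * ((1 + κ * Real.cos θ) - κ) := by
    apply mul_pos hβ
    nlinarith
  nlinarith

end Cap

end Pool.Agent.Lib.MP_c7e804_gt
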