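import Pool.Agent.Lib.MP_c7e804_gt.H43Spec4
import Pool.Agent.Lib.MP_c7e804_gt.H43Th1
import Pool.Agent.Lib.MP_c7e804_gt.H43Nu0

/-!
The sheet of the spectral curve over the definite interval.
-/

namespace Pool.Agent.Lib.MP_c7e804_gt

open Matrix Set Complex
open scoped ContDiff ComplexConjugate

private theorem nu1_cv_ne {n : V3} (hn : n ⬝ᵥ n = 1) : cv n ≠ 0 := by
  intro h0
  have := cv_dot n n
  rw [h0, hn] at this
  simp at this

private theorem nu1_smul_cancel {s t : ℂ} {x : C2} (hx : x ≠ 0) (h : s • x = t • x) : s = t :=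
  smul_left_injective ℂ hx h

private theorem nu1_one_add_cos {θ : ℝ} (hθ : 0 < θ ∧ θ < Real.pi) : 0 < 1 + Real.cos θ := by
  have h := ka_neg hθ
  have h1 := Real.neg_one_le_cos θ
  rcases h1.eq_or_lt with h2 | h2
  · rw [ka, ← h2] at h; simp at h
  · linarith

/-- a real number with prescribed square and sign -/
private theorem nu1_sqrt {ε l y : ℝ} (hε : ε = 1 ∨ ε = -1) (h1 : l ^ 2 = y) (h2 : ε * l ≤ 0) :
    -ε * √y = l := by
  rw [← h1, Real.sqrt_sq_eq_abs]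
  rcases hε with rfl | rfl
  · rw [abs_of_nonpos (by linarith)]; ring
  · rw [abs_of_nonneg (by linarith)]; ring

namespace Setup
variable {ψ : ℝ × ℝ → V3} {a b τ θ : ℝ} {g : ℕ} {s : ℕ → ℝ × ℝ → ℂ} {F G : ℂ → ℝ × ℝ → M2}
  (h : Setup ψ a b τ θ g s F G)
  (hw : ∀ r ∈ strip a b, 0 ≤ ww ψ θ r) (hc : 0 ≤ Real.cos θ)
include h

private theorem nu1_cont_Y : Continuous fun κ : ℝ => (Yf ψ b g s κ).re := by
  have := (h.cap.poly_XX h.kill.toPKill (h.cap.mem_b 0)).differentiable.continuous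
  exact Complex.continuous_re.comp (this.comp Complex.continuous_ofReal)

private theorem nu1_cont_P : Continuous fun κ : ℝ => (Pf ψ b τ g s κ).re := by
  obtain ⟨Y, P, R, hp⟩ := h.exists_polys h.P_real
  have : (fun κ : ℝ => (Pf ψ b τ g s κ).re) = fun κ => P.eval κ := by
    funext κ; rw [← hp.Pev]; simp
  rw [this]
  exact P.continuous

private theorem nu1_cont_X :
    Continuous fun κ : ℝ => (cv (ψ (b, 0)) ⬝ᵥ X0 ψ b g s κ).re := by
  have hX : ∀ i, Continuous fun κ : ℝ => X0 ψ b g s κ i := fun i =>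
    ((h.cap.poly_Xk h.kill.toPKill (h.cap.mem_b 0) i).differentiable.continuous).comp
      Complex.continuous_ofReal
  refine Complex.continuous_re.comp ?_
  simp only [dotProduct]
  exact continuous_finsetSum _ fun i _ => continuous_const.mul (hX i)

include hw

/-- the sign of `P` on the definite interval -/
theorem exists_sign : ∃ ε : ℝ, (ε = 1 ∨ ε = -1) ∧
    ∀ κ ∈ Icc (ka θ) 0, 0 ≤ (Yf ψ b g s κ).re ∧ 0 < ε * (Pf ψ b τ g s κ).re := by
  have hθ := h.cap.ann.hθa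
  have ha := ka_neg hθ
  have hb := kb_pos hθ
  have hY : ∀ κ ∈ Icc (ka θ) 0, 0 ≤ (Yf ψ b g s κ).re := by
    have hcl : IsClosed {κ : ℝ | 0 ≤ (Yf ψ b g s κ).re} :=
      isClosed_le continuous_const h.nu1_cont_Y
    have hsub : Ioo (ka θ) (kb θ) ⊆ {κ : ℝ | 0 ≤ (Yf ψ b g s κ).re} :=
      fun κ hκ => (h.Y_pos hκ).le
    have := closure_minimal hsub hcl
    rw [closure_Ioo (ha.trans hb).ne] at this
    exact fun κ hκ => this ⟨hκ.1, hκ.2.trans hb.le⟩
  have hne : ∀ κ ∈ Icc (ka θ) 0, (Pf ψ b τ g s κ).re ≠ 0 := fun κ hκ => h.P_ne hw (hY κ hκ)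
  have h0 : (0 : ℝ) ∈ Icc (ka θ) 0 := ⟨ha.le, le_rfl⟩
  have hiv : ∀ x ∈ Icc (ka θ) 0, ∀ y ∈ Icc (ka θ) 0, (Pf ψ b τ g s x).re < 0 →
      0 < (Pf ψ b τ g s y).re → False := fun x hx y hy h1 h2 => by
    obtain ⟨z, hz, hz0⟩ := isPreconnected_Icc.intermediate_value hx hy
      h.nu1_cont_P.continuousOn (⟨h1.le, h2.le⟩ : (0 : ℝ) ∈ Icc _ _)
    exact hne z hz hz0
  rcases (hne 0 h0).lt_or_gt with h1 | h1
  · refine ⟨-1, Or.inr rfl, fun κ hκ => ⟨hY κ hκ, ?_⟩⟩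
    rcases (hne κ hκ).lt_or_gt with h2 | h2
    · linarith
    · exact (hiv 0 h0 κ hκ h1 h2).elim
  · refine ⟨1, Or.inl rfl, fun κ hκ => ⟨hY κ hκ, ?_⟩⟩
    rcases (hne κ hκ).lt_or_gt with h2 | h2
    · exact (hiv κ hκ 0 h0 h2 h1).elim
    · linarith

variable {ε : ℝ} (hε : ε = 1 ∨ ε = -1)
  (hP : ∀ κ ∈ Icc (ka θ) 0, 0 ≤ (Yf ψ b g s κ).re ∧ 0 < ε * (Pf ψ b τ g s κ).re)
include hε hP

/-- at the left end the sheet is the invariant line -/
theorem sheet_ka {x : C2} (hx : x ≠ 0) (hx2 : sg (cv (ψ (b, 0))) *ᵥ x = x) :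
    sg (X0 ψ b g s (ka θ)) *ᵥ x = ((-ε * √(Yf ψ b g s (ka θ)).re : ℝ) : ℂ) • x := by
  have hθ := h.cap.ann.hθa
  have ha := ka_neg hθ
  have hc1 := nu1_one_add_cos hθ
  have hu : ψ (b, 0) ⬝ᵥ ψ (b, 0) = 1 := h.cap.ann.sphere_b 0
  have hka : (ka θ : ℂ) ≠ 0 := by exact_mod_cast ha.ne
  have hK : ∀ y : C2, Km ψ θ (ka θ) (b, 0) *ᵥ y =
      (ka θ : ℂ) • (sg (cv (ψ (b, 0))) *ᵥ y - y) := fun y => by
    have e : 1 + ka θ * Real.cos θ = -ka θ := by
      rw [ka]; field_simp; ring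
    rw [Km_eq, e, add_mulVec, smul_mulVec, smul_mulVec, one_mulVec, smul_sub]
    push_cast
    rw [neg_smul]; abel
  have hKX := h.cap.Km_Xk h.kill.toPKill (ka θ) (Or.inr rfl) 0
  have h1 : sg (cv (ψ (b, 0))) *ᵥ (sg (X0 ψ b g s (ka θ)) *ᵥ x) =
      sg (X0 ψ b g s (ka θ)) *ᵥ x := by
    have e := congrArg (fun M : M2 => M *ᵥ x) hKX
    simp only [← mulVec_mulVec] at e
    rw [hK x, hx2, sub_self, smul_zero, mulVec_zero, hK] at e
    exact sub_eq_zero.1 ((smul_eq_zero.1 e).resolve_left hka)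
  obtain ⟨l, hl⟩ := eig_unique (s := 1) (nu1_cv_ne hu) hx (by rw [hx2, one_smul])
    (by rw [h1, one_smul])
  have hl1 : l = cv (ψ (b, 0)) ⬝ᵥ X0 ψ b g s (ka θ) := by
    have e := congrArg (fun M : M2 => M *ᵥ x) (sg_anti (cv (ψ (b, 0))) (X0 ψ b g s (ka θ)))
    simp only [add_mulVec, ← mulVec_mulVec, smul_mulVec, one_mulVec] at e
    rw [h1, hx2, hl, ← add_smul] at e
    have := nu1_smul_cancel hx e
    linear_combination this / 2
  have hl2 : l ^ 2 = Yf ψ b g s (ka θ) := by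
    have e := congrArg (fun M : M2 => M *ᵥ x)
      (sg_anti (X0 ψ b g s (ka θ)) (X0 ψ b g s (ka θ)))
    simp only [add_mulVec, ← mulVec_mulVec, smul_mulVec, one_mulVec] at e
    rw [hl, mulVec_smul, hl, smul_smul, ← add_smul] at e
    have := nu1_smul_cancel hx e
    rw [Yf]
    linear_combination this / 2
  have hl3 : l.im = 0 := by
    rw [hl1, cv_dot_im]
    exact (h.kill.bc (ka θ) b (Or.inr rfl) 0).2
  have hl4 : l = (l.re : ℂ) := Complex.ext (by simp) (by simp [hl3])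
  have hl5 : l.re ^ 2 = (Yf ψ b g s (ka θ)).re := by
    rw [← hl2, hl4]; norm_cast
  obtain ⟨hY0, hP0⟩ := hP (ka θ) ⟨le_rfl, ha.le⟩
  have hsign : ε * l.re ≤ 0 := by
    rcases hY0.eq_or_lt with hY | hY
    · have : l.re = 0 := by
        rw [← hY] at hl5; exact pow_eq_zero_iff (by norm_num) |>.1 hl5
      rw [this, mul_zero]
    · have hev : ∀ᶠ κ : ℝ in nhdsWithin (ka θ) (Iio (ka θ)),
          (cv (ψ (b, 0)) ⬝ᵥ X0 ψ b g s κ).re * (Pf ψ b τ g s κ).re ≤ 0 := by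
        have e1 : ∀ᶠ κ : ℝ in nhds (ka θ), 0 < (Yf ψ b g s κ).re :=
          h.nu1_cont_Y.continuousAt.eventually (lt_mem_nhds hY)
        filter_upwards [nhdsWithin_le_nhds e1, self_mem_nhdsWithin] with κ h2 h3
        exact (h.left_sign hw h3 h2).le
      have hle : (cv (ψ (b, 0)) ⬝ᵥ X0 ψ b g s (ka θ)).re * (Pf ψ b τ g s (ka θ)).re ≤ 0 :=
        le_of_tendsto
          (((h.nu1_cont_X.mul h.nu1_cont_P).tendsto (ka θ)).mono_left nhdsWithin_le_nhds) hev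
      rw [← hl1] at hle
      by_contra hcon
      have h3 := mul_pos (not_le.1 hcon) hP0
      have h4 : ε * ε = 1 := by rcases hε with rfl | rfl <;> norm_num
      have h5 : ε * l.re * (ε * (Pf ψ b τ g s (ka θ)).re) =
          l.re * (Pf ψ b τ g s (ka θ)).re := by
        linear_combination (l.re * (Pf ψ b τ g s (ka θ)).re) * h4
      linarith
  rw [nu1_sqrt hε hl5 hsign, ← hl4, hl]

/-- at the origin the sheet is the axis -/
theorem sheet_zero {e : V3} (he : e ⬝ᵥ e = 1) (h1 : e ⨯₃ flux ψ τ b = 0)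
    (h2 : e ⬝ᵥ flux ψ τ b < 0) {x : C2}
    (hx : sg (X0 ψ b g s (0 : ℝ)) *ᵥ x = ((-ε * √(Yf ψ b g s (0 : ℝ)).re : ℝ) : ℂ) • x) :
    sg (cv e) *ᵥ x = x := by
  have _hw := hw
  obtain ⟨y, hy0, hy1, hy2, hy3⟩ := h.X_zero
  have ha := ka_neg h.cap.ann.hθa
  obtain ⟨f, hf⟩ : ∃ f, f = e ⬝ᵥ flux ψ τ b := ⟨_, rfl⟩
  have hfl : flux ψ τ b = f • e := by
    have := cross_cross_eq_smul_sub_smul' e e (flux ψ τ b)
    rw [h1, map_zero, he, one_smul, ← hf] at this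
    exact (sub_eq_zero.1 this.symm).symm
  rw [← hf] at h2
  have hye : y ⨯₃ e = 0 := by
    rw [hfl, map_smul] at hy2
    exact (smul_eq_zero.1 hy2).resolve_left h2.ne
  obtain ⟨t, ht⟩ : ∃ t, t = y ⬝ᵥ e := ⟨_, rfl⟩
  have hy : y = t • e := by
    have := cross_cross_eq_smul_sub_smul' e y e
    rw [hye, map_zero, he, one_smul, ← ht] at this
    exact sub_eq_zero.1 this.symm
  have hX : X0 ψ b g s (0 : ℝ) = (t : ℂ) • cv e := by
    rw [X0, Complex.ofReal_zero, hy1 _ (h.cap.mem_b 0), hy, cv_smul]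
  have ht0 : t ≠ 0 := by
    rintro rfl
    exact hy0 (by rw [hy, zero_smul])
  have hY : t ^ 2 = (Yf ψ b g s (0 : ℝ)).re := by
    rw [Yf, hX, smul_dotProduct, dotProduct_smul, cv_dot, he]
    simp [pow_two]
  have hP0 := (hP 0 ⟨ha.le, le_rfl⟩).2
  rw [Complex.ofReal_zero, hy3, Complex.ofReal_re, hfl, dotProduct_smul, ← ht, smul_eq_mul] at hP0
  have hsign : ε * t ≤ 0 := by
    by_contra hcon
    have := mul_pos (not_le.1 hcon) (neg_pos.2 h2)
    nlinarith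
  rw [nu1_sqrt hε hY hsign, hX, sg_smul, smul_mulVec] at hx
  exact smul_right_injective _ (by exact_mod_cast ht0) hx

include hc

/-- the Hill solution on the sheet has no zero on the line `u = b` -/
theorem sheet_ne {κ : ℝ} (hκ : κ ∈ Icc (ka θ) 0) {x : C2} (hx : x ≠ 0)
    (he : sg (X0 ψ b g s κ) *ᵥ x = ((-ε * √(Yf ψ b g s κ).re : ℝ) : ℂ) • x) (v : ℝ) :
    Qf ψ b (cl b F x κ) v ≠ 0 := by
  have hθ := h.cap.ann.hθa
  have hc1 := nu1_one_add_cos hθ
  rcases hκ.1.eq_or_lt with rfl | hκ1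
  · obtain ⟨y, hy1, hy2⟩ := exists_unit_eig (h.cap.ann.sphere_b 0)
    have hy0 : y ≠ 0 := by
      rintro rfl
      simp at hy1
    obtain ⟨t, ht⟩ := eig_unique (h.X0_ne (ka θ)) hy0 (h.sheet_ka hw hε hP hy0 hy2) he
    have ht0 : t ≠ 0 := by
      rintro rfl
      exact hx (by rw [ht, zero_smul])
    have e : Qf ψ b (cl b F x (ka θ)) v = t * t * Qf ψ b (cl b F y (ka θ)) v := by
      simp only [Qf, cl, ht, mulVec_smul, br_smul]
    have hn := h.cap.norm_QV h.frame hy1 hy2 v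
    have hE := Real.sqrt_pos.2 (h.cap.ann.immersion _ (h.cap.mem_b v))
    have : Qf ψ b (cl b F y (ka θ)) v ≠ 0 := by
      rw [← norm_pos_iff, hn]; positivity
    rw [e]
    exact mul_ne_zero (mul_ne_zero ht0 ht0) this
  rcases hκ.2.eq_or_lt with rfl | hκ2
  · obtain ⟨e, he1, he2, -, he3, he4⟩ := h.cap.exists_axis
    have hxe := h.sheet_zero hw hε hP he1 he3 (he4 hw) he
    have hcl : cl b F x 0 v = x := by
      rw [cl, Complex.ofReal_zero, h.frame.zero _ (h.cap.mem_b v), one_mulVec]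
    rw [Qf, hcl]
    refine h.cap.Qf_ne (c := fun _ => x) (v := v) ?_
    refine (h.cap.ff_eq (fun _ => x) (h.cap.mem_b v)).2.lt_of_ne fun h0 => ?_
    have hN := hf_eq_zero (h.cap.ann.fr (h.cap.mem_b v)).NN (x := x) h0.symm
    have e1 := congrArg (fun M : M2 => M *ᵥ x) (sg_anti (cv e) (cv (normal ψ (b, v))))
    simp only [add_mulVec, ← mulVec_mulVec, smul_mulVec, one_mulVec] at e1
    rw [hN, hxe, hN, mulVec_neg, hxe, cv_dot] at e1
    have e2 : (-2 : ℂ) = 2 * ((e ⬝ᵥ normal ψ (b, v) : ℝ) : ℂ) :=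
      nu1_smul_cancel hx (by rw [← e1, neg_smul, two_smul, neg_add])
    have e3 : (-2 : ℝ) = 2 * (e ⬝ᵥ normal ψ (b, v)) := by exact_mod_cast e2
    have := he2 v
    rw [dotProduct_comm] at this
    linarith
  · have hY := h.Y_pos ⟨hκ1, hκ2.trans (kb_pos hθ)⟩
    have hs := Real.sqrt_pos.2 hY
    have hε0 : ε ≠ 0 := by rcases hε with rfl | rfl <;> norm_num
    have ht : -ε * √(Yf ψ b g s κ).re ≠ 0 := mul_ne_zero (neg_ne_zero.2 hε0) hs.ne'
    have hb := h.band_ineq hw hκ2.ne ht hx he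
    obtain ⟨hfl, hμ⟩ := h.floq_eig hx he
    have hlt : (hf x (Km ψ θ κ (b, 0)) x).re < (hf x (Ha ψ a θ F κ) x).re := by
      by_contra hcon
      have h1 := mul_nonneg (sub_nonneg.2 (not_lt.1 hcon))
        (mul_pos (hP κ hκ).2 hs).le
      nlinarith
    have hκw : ∀ r ∈ strip a b, 0 ≤ 1 + κ * ww ψ θ r := fun r hr => by
      have h1 := h.cap.ww_le hr
      have h2 := hw r hr
      have h3 : ka θ * (1 + Real.cos θ) = -1 := by rw [ka]; field_simp
      have h4 : ka θ * ww ψ θ r ≤ κ * ww ψ θ r := mul_le_mul_of_nonneg_right hκ.1 h2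
      have h5 : ka θ * (1 + Real.cos θ) ≤ ka θ * ww ψ θ r :=
        mul_le_mul_of_nonpos_left (by linarith) (ka_neg hθ).le
      linarith
    refine h.cap.Qf_ne (c := fun r => F κ r *ᵥ x) (v := v) ?_
    refine h.cap.key5 hκw hfl hμ (fun v => ?_) (fun v => ?_) hlt v
    · rw [h.form_a]
      exact Complex.ext (by simp) (by simp [hf_herm_im (h.Ha_herm κ)])
    · rw [h.form_b]
      exact Complex.ext (by simp) (by simp [hf_herm_im (Km_herm ψ θ κ (b, 0))])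

end Setup

end Pool.Agent.Lib.MP_c7e804_gt
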