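import Pool.Agent.Lib.MP_c7e804_gt.H43ODefs
import Pool.Agent.Lib.MP_c7e804_gt.H43Count
import Pool.Agent.Lib.MP_c7e804_gt.H43Neg

/-!
Root count for obtuse contact angles.
-/

namespace Pool.Agent.Lib.MP_c7e804_gt

open Matrix Set Complex
open scoped ContDiff ComplexConjugate

namespace SpecO
variable {g : ℕ} {Y P R : Polynomial ℝ} {κa κb : ℝ} {Δ D α T β : ℝ → ℝ}
  (h : SpecO g Y P R κa κb Δ D α T β)
include h

theorem simple {κ : ℝ} (h0 : Y.eval κ = 0) : Y.derivative.eval κ ≠ 0 ∧ α κ ≠ 0 := by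
  obtain ⟨α', -, h1⟩ := h.dα κ
  have h2 := h.quadD κ
  have h3 := h.Pne κ h0.ge
  rw [h0] at h1 h2
  have h4 : α κ * Y.derivative.eval κ ≠ 0 := by
    intro h5
    have h6 : D κ * P.eval κ = 0 := by linarith
    rw [(mul_eq_zero.1 h6).resolve_right h3] at h2
    norm_num at h2
  exact ⟨right_ne_zero_of_mul h4, left_ne_zero_of_mul h4⟩

/-- the roots of `Y`, listed increasingly, and the sign of `Y` between them -/
theorem roots : ∃ x : ℕ → ℝ, StrictMonoOn x (Iic (2 * g)) ∧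
    (∀ κ, Y.eval κ = 0 ↔ ∃ i ≤ 2 * g, κ = x i) ∧
    (∀ κ < x 0, Y.eval κ < 0) ∧
    (∀ i < 2 * g, ∀ κ ∈ Ioo (x i) (x (i + 1)), 0 < (-1) ^ i * Y.eval κ) := by
  classical
  have hY : Y ≠ 0 := fun h0 => by simpa [h0] using h.Ylead
  have hs : Y.Splits := Polynomial.Splits.of_splits_map (algebraMap ℝ ℂ) (IsAlgClosed.splits _)
    fun z hz => ⟨z.re, by
      have := h.real z (by
        rw [Polynomial.aeval_def, Polynomial.eval₂_eq_eval_map]
        exact (Polynomial.mem_roots'.1 hz).2)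
      exact Complex.ext (by simp) (by simp [this])⟩
  have hn : Y.roots.Nodup := by
    rw [Multiset.nodup_iff_count_le_one]
    intro a
    rw [Polynomial.count_roots]
    by_contra hc
    obtain ⟨h1, h2⟩ := (Polynomial.one_lt_rootMultiplicity_iff_isRoot hY).1 (not_le.1 hc)
    exact (h.simple h1).1 h2
  have hc : Y.roots.toFinset.card = 2 * g + 1 := by
    rw [Multiset.toFinset_card_of_nodup hn, ← hs.natDegree_eq_card_roots, h.Ydeg]
  let e := Y.roots.toFinset.orderEmbOfFin hc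
  let x : ℕ → ℝ := fun i => if hi : i < 2 * g + 1 then e ⟨i, hi⟩ else 0
  have hx : ∀ i : Fin (2 * g + 1), x i = e i := fun i => dif_pos i.2
  have mono : StrictMonoOn x (Iic (2 * g)) := fun i hi j hj hij => by
    rw [hx ⟨i, Nat.lt_succ_of_le hi⟩, hx ⟨j, Nat.lt_succ_of_le hj⟩]
    exact e.strictMono hij
  have ev : ∀ κ, Y.eval κ = Y.leadingCoeff * ∏ i ∈ Finset.range (2 * g + 1), (κ - x i) := by
    intro κ
    rw [hs.eval_eq_prod_roots, Finset.prod_range]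
    congr 1
    have : (Y.roots.map (κ - ·)).prod = ∏ a ∈ Y.roots.toFinset, (κ - a) := by
      rw [Finset.prod, Multiset.toFinset_val, hn.dedup]
    rw [this, ← Finset.image_orderEmbOfFin_univ _ hc, Finset.prod_image e.injective.injOn]
    exact Finset.prod_congr rfl fun i _ => by rw [hx]
  have sgn : ∀ n κ, n ≤ 2 * g + 1 → (∀ i < n, x i < κ) → (∀ i, n ≤ i → i ≤ 2 * g → κ < x i) →
      0 < (-1) ^ (2 * g + 1 - n) * Y.eval κ := by
    intro n κ hn h1 h2
    rw [ev, ← Finset.prod_range_mul_prod_Ico _ hn]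
    have a1 : 0 < ∏ i ∈ Finset.range n, (κ - x i) :=
      Finset.prod_pos fun i hi => sub_pos.2 (h1 i (Finset.mem_range.1 hi))
    have a2 : 0 < ∏ i ∈ Finset.Ico n (2 * g + 1), -(κ - x i) :=
      Finset.prod_pos fun i hi => by
        have := Finset.mem_Ico.1 hi
        linarith [h2 i this.1 (Nat.le_of_lt_succ this.2)]
    rw [Finset.prod_neg, Nat.card_Ico] at a2
    have := mul_pos h.Ylead (mul_pos a1 a2)
    linarith
  refine ⟨x, mono, fun κ => ?_, fun κ hκ => ?_, fun i hi κ hκ => ?_⟩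
  · rw [ev, mul_eq_zero, or_iff_right h.Ylead.ne', Finset.prod_eq_zero_iff]
    simp only [Finset.mem_range, Nat.lt_succ_iff, sub_eq_zero]
  · have := sgn 0 κ (Nat.zero_le _) (by simp) fun i _ hi =>
      hκ.trans_le (mono.monotoneOn (Nat.zero_le _) hi (Nat.zero_le _))
    rw [Nat.sub_zero, pow_succ, pow_mul] at this
    norm_num at this
    exact this
  · have := sgn (i + 1) κ (by omega)
      (fun j hj => (mono.monotoneOn (show j ≤ 2 * g by omega) hi.le (by omega)).trans_lt hκ.1)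
      fun j h1 h2 => hκ.2.trans_le (mono.monotoneOn hi h2 h1)
    rwa [show (-1 : ℝ) ^ (2 * g + 1 - (i + 1)) = (-1) ^ i from
      neg_one_pow_congr (by rw [Nat.even_iff, Nat.even_iff]; omega)] at this

theorem P_root_gap {x y : ℝ} (hxy : x < y) (hx : Y.eval x = 0) (hy : Y.eval y = 0)
    (hn : ∀ κ ∈ Ioo x y, Y.eval κ < 0) : ∃ κ ∈ Ioo x y, P.eval κ = 0 := by
  have hc : Continuous α :=
    continuous_iff_continuousAt.2 fun κ => (h.dα κ).choose_spec.1.continuousAt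
  obtain ⟨κ, hκ, h0⟩ := exists_hasDerivAt_eq_zero (f := fun κ => α κ * Real.sqrt (-Y.eval κ))
    (f' := fun κ => D κ * P.eval κ / Real.sqrt (-Y.eval κ)) hxy
    (hc.mul Y.continuous.neg.sqrt).continuousOn (by simp [hx, hy]) fun κ hκ => by
      obtain ⟨α', h1, h2⟩ := h.dα κ
      have h3 : 0 < -Y.eval κ := neg_pos.2 (hn κ hκ)
      have h4 := Real.sqrt_pos.2 h3
      have h5 := Real.mul_self_sqrt h3.le
      refine (h1.fun_mul ((Y.hasDerivAt κ).fun_neg.sqrt h3.ne')).congr_deriv ?_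
      field_simp
      linear_combination 2 * α' * h5 - h2
  refine ⟨κ, hκ, ?_⟩
  have h3 : 0 < -Y.eval κ := neg_pos.2 (hn κ hκ)
  have h4 := h.quadD κ
  rcases mul_eq_zero.1 ((div_eq_zero_iff.1 h0).resolve_right (Real.sqrt_pos.2 h3).ne') with h5 | h5
  · rw [h5] at h4
    nlinarith [sq_nonneg (α κ)]
  · exact h5

theorem cnt2_ne {κ : ℝ} (hκ : κb < κ) : κ ≠ κa ∧ κ ≠ κb :=
  ⟨(lt_trans (lt_trans h.ka_neg h.kb_pos) hκ).ne', hκ.ne'⟩

theorem cnt2_contβ {x y : ℝ} (hb : κb < x) : ContinuousOn β (Icc x y) := by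
  intro κ hκ
  have hn := h.cnt2_ne (lt_of_lt_of_le hb hκ.1)
  obtain ⟨β', h1, -⟩ := h.dβ κ hn.1 hn.2
  exact h1.continuousAt.continuousWithinAt

theorem R_root_band {x y : ℝ} (hb : κb < x) (hxy : x < y) (hx : Y.eval x = 0) (hy : Y.eval y = 0)
    (hn : ∀ κ ∈ Ioo x y, 0 < Y.eval κ) : ∃ κ ∈ Ioo x y, R.eval κ = 0 := by
  have hc : ContinuousOn (fun κ => β κ * √(Y.eval κ)) (Icc x y) :=
    (h.cnt2_contβ hb).mul (Real.continuous_sqrt.comp Y.continuous).continuousOn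
  obtain ⟨κ, hκ, h0⟩ := exists_hasDerivAt_eq_zero (f' := fun κ =>
      T κ * R.eval κ / Δ κ / (2 * √(Y.eval κ))) hxy hc (by simp [hx, hy]) (by
    intro κ hκ
    have hne := h.cnt2_ne (lt_trans hb hκ.1)
    obtain ⟨β', h1, h2⟩ := h.dβ κ hne.1 hne.2
    have hp := hn κ hκ
    have hs : 0 < √(Y.eval κ) := Real.sqrt_pos.2 hp
    have h3 := h1.mul ((Y.hasDerivAt κ).sqrt hp.ne')
    refine h3.congr_deriv ?_
    rw [← h2]
    field_simp
    rw [Real.sq_sqrt hp.le]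
    ring)
  refine ⟨κ, hκ, ?_⟩
  have hne := h.cnt2_ne (lt_trans hb hκ.1)
  have hp := hn κ hκ
  have hs : 0 < √(Y.eval κ) := Real.sqrt_pos.2 hp
  have hΔ := h.Δne κ (lt_trans hb hκ.1)
  have hT : T κ ≠ 0 := by
    intro e
    have := h.quadT κ hne.1 hne.2
    rw [e] at this
    nlinarith [sq_nonneg (β κ)]
  simp only [div_eq_zero_iff, mul_eq_zero, hT, hΔ, hs.ne', false_or, or_false,
    OfNat.ofNat_ne_zero] at h0
  exact h0

theorem R_root_neg (hP : ∀ κ < 0, P.eval κ ≠ 0) : ∃ κ < 0, R.eval κ = 0 := by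
  by_contra hc
  have hR : ∀ κ < 0, R.eval κ ≠ 0 := fun κ hκ e => hc ⟨κ, hκ, e⟩
  have hP0 : P ≠ 0 := Polynomial.leadingCoeff_ne_zero.1 h.Plead.ne'
  have hR0 : R ≠ 0 := Polynomial.leadingCoeff_ne_zero.1 h.Rlead.ne'
  have hQ := cnt2_pos (Q := P * R) (n := g)
    (by rw [Polynomial.natDegree_mul hP0 hR0, h.Pdeg, h.Rdeg]; ring)
    (by rw [Polynomial.leadingCoeff_mul]; exact mul_pos h.Plead h.Rlead)
    (fun κ hκ => by rw [Polynomial.eval_mul]; exact mul_ne_zero (hP κ hκ) (hR κ hκ))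
  have h2 := hQ κa h.ka_neg
  rw [Polynomial.eval_mul] at h2
  linarith [h.Ra]

theorem count (hneg : ∀ x ≤ κa, ∀ y ≤ κa, Y.eval x = 0 → Y.eval y = 0 → x = y) : g ≤ 1 := by
  by_contra hg
  have hg2 : 2 ≤ g := by omega
  obtain ⟨x, hmono, hroot, hleft, hsign⟩ := h.roots
  have hka := h.ka_neg
  have hkb := h.kb_pos
  have hx : ∀ i ≤ 2 * g, Y.eval (x i) = 0 := fun i hi => (hroot _).2 ⟨i, hi, rfl⟩
  have hlt : ∀ i j, i < j → j ≤ 2 * g → x i < x j := fun i j hij hj =>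
    hmono (show i ∈ Iic (2 * g) from (hij.le.trans hj)) (show j ∈ Iic (2 * g) from hj) hij
  have hY0 : 0 < Y.eval 0 := h.Ypos 0 ⟨hka, hkb⟩
  have hout : ∀ i ≤ 2 * g, x i ≤ κa ∨ κb ≤ x i := by
    intro i hi
    by_contra hc
    push Not at hc
    exact (h.Ypos _ ⟨hc.1, hc.2⟩).ne' (hx i hi)
  have hx0 : x 0 ≤ κa := by
    rcases hout 0 (Nat.zero_le _) with h0 | h0
    · exact h0
    · exact absurd (hleft 0 (hkb.trans_le h0)) (not_lt.2 hY0.le)
  have hxb : ∀ i, 1 ≤ i → i ≤ 2 * g → κb ≤ x i := by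
    intro i h1 hi
    rcases hout i hi with h0 | h0
    · exact absurd (hneg _ hx0 _ h0 (hx 0 (Nat.zero_le _)) (hx i hi)) (hlt 0 i h1 hi).ne
    · exact h0
  have hneg' : ∀ i < 2 * g, Odd i → ∀ κ ∈ Ioo (x i) (x (i + 1)), Y.eval κ < 0 := by
    intro i hi ho κ hκ
    have := hsign i hi κ hκ
    rw [ho.neg_one_pow] at this
    linarith
  have hpos' : ∀ i < 2 * g, Even i → ∀ κ ∈ Ioo (x i) (x (i + 1)), 0 < Y.eval κ := by
    intro i hi he κ hκ
    have := hsign i hi κ hκ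
    rw [he.neg_one_pow] at this
    linarith
  have hP0 : P ≠ 0 := fun e => by have := h.Plead; rw [e] at this; simp at this
  have hR0 : R ≠ 0 := fun e => by have := h.Rlead; rw [e] at this; simp at this
  have hPz : ∀ j : ℕ, ∃ z, j < g → z ∈ Ioo (x (2 * j + 1)) (x (2 * j + 1 + 1)) ∧ P.eval z = 0 := by
    intro j
    by_cases hj : j < g
    · obtain ⟨z, hz, hz'⟩ := h.P_root_gap (hlt (2 * j + 1) (2 * j + 1 + 1) (by omega) (by omega))
        (hx _ (by omega)) (hx _ (by omega)) (hneg' (2 * j + 1) (by omega) ⟨j, rfl⟩)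
      exact ⟨z, fun _ => ⟨hz, hz'⟩⟩
    · exact ⟨0, fun hj' => absurd hj' hj⟩
  choose z hz using hPz
  have hPneg : ∀ κ < 0, P.eval κ ≠ 0 := by
    intro κ hκ e
    have := count_le_natDegree hP0 (g + 1) (fun i => Nat.casesOn i κ z) ?_ ?_
    · rw [h.Pdeg] at this; omega
    · intro i hi
      cases i with
      | zero =>
        have h1 := (hz 0 (by omega)).1.1
        have h2 := hxb (2 * 0 + 1) (by omega) (by omega)
        show κ < z 0
        linarith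
      | succ i =>
        have h1 := (hz i (by omega)).1.2
        have h2 := (hz (i + 1) (by omega)).1.1
        have h3 := hlt (2 * i + 1 + 1) (2 * (i + 1) + 1) (by omega) (by omega)
        show z i < z (i + 1)
        linarith
    · intro i hi
      cases i with
      | zero => exact e
      | succ i => exact (hz i (by omega)).2
  obtain ⟨r, hr, hr'⟩ := h.R_root_neg hPneg
  have hRw : ∀ i : ℕ, ∃ w, i + 1 < 2 * g →
      w ∈ Ico (x (i + 1)) (x (i + 1 + 1)) ∧ R.eval w = 0 := by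
    intro i
    by_cases hi : i + 1 < 2 * g
    · have hl := hlt (i + 1) (i + 1 + 1) (by omega) (by omega)
      rcases (hxb (i + 1) (by omega) hi.le).eq_or_lt with e | e
      · refine ⟨κb, fun _ => ⟨⟨e.ge, e ▸ hl⟩, h.Rb ?_⟩⟩
        rw [e]; exact hx _ hi.le
      · rcases Nat.even_or_odd (i + 1) with he | ho
        · obtain ⟨w, hw, hw'⟩ := h.R_root_band e hl (hx _ hi.le) (hx _ (by omega))
            (hpos' _ hi he)
          exact ⟨w, fun _ => ⟨⟨hw.1.le, hw.2⟩, hw'⟩⟩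
        · obtain ⟨w, hw, hw'⟩ := h.gapR _ _ e hl (hx _ hi.le) (hx _ (by omega))
            (hneg' _ hi ho)
          exact ⟨w, fun _ => ⟨⟨hw.1.le, hw.2⟩, hw'⟩⟩
    · exact ⟨0, fun hi' => absurd hi' hi⟩
  choose w hw using hRw
  have := count_le_natDegree hR0 (2 * g + 1)
    (fun i => Nat.casesOn i r (fun j => Nat.casesOn j 0 w)) ?_ ?_
  · rw [h.Rdeg] at this; omega
  · intro i hi
    match i, hi with
    | 0, _ => exact hr
    | 1, _ =>
      have h1 := (hw 0 (by omega)).1.1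
      have h2 := hxb (0 + 1) (by omega) (by omega)
      show (0 : ℝ) < w 0
      linarith
    | i + 2, hi =>
      have h1 := (hw i (by omega)).1.2
      have h2 := (hw (i + 1) (by omega)).1.1
      show w i < w (i + 1)
      linarith
  · intro i hi
    match i, hi with
    | 0, _ => exact hr'
    | 1, _ => exact h.R0
    | i + 2, hi => exact (hw i (by omega)).2

end SpecO

private theorem oneg_phase {P : Polynomial ℝ} {D α Θ : ℝ → ℝ} {m : ℝ → ℂ} (hA : Angle P D α Θ m)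
    {κ : ℝ} (hκ : κ ≤ 0) :
    Real.cos (2 * Θ κ) * (D κ ^ 2 + (m κ).im ^ 2) = D κ ^ 2 - (m κ).im ^ 2 ∧
    Real.sin (2 * Θ κ) * (D κ ^ 2 + (m κ).im ^ 2) = 2 * D κ * (m κ).im ∧
    0 < D κ ^ 2 + (m κ).im ^ 2 := by
  have h0 : (‖m κ‖ : ℂ) ^ 2 ≠ 0 := pow_ne_zero _ (by simpa using hA.ne κ hκ)
  have h1 := hA.phase κ hκ
  rw [eq_div_iff h0] at h1
  have e1 : 2 * I * (Θ κ : ℂ) = ((2 * Θ κ : ℝ) : ℂ) * I := by push_cast; ring
  have e2 : ‖m κ‖ ^ 2 = D κ ^ 2 + (m κ).im ^ 2 := by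
    rw [Complex.sq_norm, Complex.normSq_apply, hA.re κ hκ]; ring
  have e3 : (‖m κ‖ : ℂ) ^ 2 = ((D κ ^ 2 + (m κ).im ^ 2 : ℝ) : ℂ) := by
    rw [← e2]; push_cast; ring
  rw [e1, e3] at h1
  have h2 := congrArg Complex.re h1
  have h3 := congrArg Complex.im h1
  rw [Complex.re_mul_ofReal, Complex.exp_ofReal_mul_I_re, sq (m κ), Complex.mul_re,
    hA.re κ hκ] at h2
  rw [Complex.im_mul_ofReal, Complex.exp_ofReal_mul_I_im, sq (m κ), Complex.mul_im,
    hA.re κ hκ] at h3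
  refine ⟨by linarith, by linarith, ?_⟩
  rw [← e2]
  exact pow_pos (norm_pos_iff.2 (hA.ne κ hκ)) 2

private theorem oneg_band {g : ℕ} {Y P R : Polynomial ℝ} {κa κb : ℝ} {Δ D α T β : ℝ → ℝ}
    (h : SpecO g Y P R κa κb Δ D α T β) {x y : ℝ} (hxy : x < y) (hx : Y.eval x = 0)
    (hy : D y ^ 2 = 1) (hpos : ∀ κ ∈ Ioo x y, 0 < Y.eval κ) : ∃ z ∈ Ioo x y, D z = 0 := by
  by_contra hn
  push Not at hn
  have hx1 : D x ^ 2 = 1 := by have := h.quadD x; rw [hx] at this; linarith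
  have hd : ∀ κ, HasDerivAt (fun t => D t ^ 2) (2 * D κ * (α κ * P.eval κ)) κ := fun κ => by
    exact ((h.dD κ).fun_pow 2).congr_deriv (by simp)
  have hc : ContinuousOn (fun t => D t ^ 2) (Icc x y) := fun κ _ =>
    (hd κ).continuousAt.continuousWithinAt
  obtain ⟨w, hw, hmin⟩ := isCompact_Icc.exists_isMinOn (nonempty_Icc.2 hxy.le) hc
  have h1 : 1 ≤ D w ^ 2 := by
    by_contra h2
    have h3 : D w ^ 2 < 1 := not_le.1 h2
    have h4 : w ∈ Ioo x y :=
      ⟨hw.1.lt_of_ne fun e => by rw [← e, hx1] at h3; exact lt_irrefl _ h3,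
        hw.2.lt_of_ne fun e => by rw [e, hy] at h3; exact lt_irrefl _ h3⟩
    have h5 := (hmin.isLocalMin (Icc_mem_nhds h4.1 h4.2)).hasDerivAt_eq_zero (hd w)
    have h6 : α w = 0 := by
      rcases mul_eq_zero.1 h5 with h7 | h7
      · exact absurd (by linarith) (hn w h4)
      · exact (mul_eq_zero.1 h7).resolve_right (h.Pne w (hpos w h4).le)
    have h7 := h.quadD w
    rw [h6] at h7
    linarith
  have h2 : ∀ κ ∈ Ioo x y, α κ = 0 := fun κ hκ => by
    have h3 : D w ^ 2 ≤ D κ ^ 2 := hmin (Ioo_subset_Icc_self hκ)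
    have h4 := h.quadD κ
    have h5 := hpos κ hκ
    have h6 : α κ ^ 2 ≤ 0 := by
      by_contra h7
      have := mul_pos (not_le.1 h7) h5
      linarith
    exact pow_eq_zero_iff (two_ne_zero) |>.1 (le_antisymm h6 (sq_nonneg _))
  obtain ⟨α', hα, -⟩ := h.dα x
  have t1 : Filter.Tendsto α (nhdsWithin x (Ioi x)) (nhds (α x)) :=
    hα.continuousAt.tendsto.mono_left nhdsWithin_le_nhds
  have t2 : Filter.Tendsto α (nhdsWithin x (Ioi x)) (nhds 0) :=
    tendsto_const_nhds.congr' (Filter.mem_of_superset (Ioo_mem_nhdsGT hxy)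
      fun κ hκ => (h2 κ hκ).symm)
  exact (h.simple hx).2 (tendsto_nhds_unique t1 t2)

theorem SpecO.neg_unique {g : ℕ} {Y P R : Polynomial ℝ} {κa κb : ℝ} {Δ D α T β Θ : ℝ → ℝ}
    {m : ℝ → ℂ} (h : SpecO g Y P R κa κb Δ D α T β) (hA : Angle P D α Θ m) :
    ∀ x ≤ κa, ∀ y ≤ κa, Y.eval x = 0 → Y.eval y = 0 → x = y := by
  have hpi := Real.pi_pos
  have lo : ∀ κ ≤ 0, -(Real.pi / 2) < Θ κ := fun κ hκ => by
    obtain ⟨κ₁, h1⟩ := hA.low
    exact hA.cross h.dD (by simp) (x := min κ₁ κ - 1) (by linarith [min_le_right κ₁ κ]) hκ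
      (h1 _ (by linarith [min_le_left κ₁ κ])).le
  have hi : ∀ κ ≤ 0, Θ κ < Real.pi / 2 + Real.pi := fun κ hκ => by
    have h0 := hA.Θ0
    by_contra h1
    rcases hκ.lt_or_eq with h2 | h2
    · have := hA.cross h.dD (l := Real.pi / 2 + Real.pi) (by simp [Real.cos_add_pi]) h2 le_rfl
        (not_lt.1 h1)
      linarith
    · rw [h2] at h1
      linarith
  have zero : ∀ z ≤ 0, D z = 0 → Θ z = Real.pi / 2 := fun z hz h0 => by
    obtain ⟨h1, -, h2⟩ := oneg_phase hA hz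
    rw [h0] at h1 h2
    have h3 : Real.cos (2 * Θ z) = -1 := by
      have h4 : (Real.cos (2 * Θ z) + 1) * ((0 : ℝ) ^ 2 + (m z).im ^ 2) = 0 := by linarith
      have := (mul_eq_zero.1 h4).resolve_right h2.ne'
      linarith
    rw [Real.cos_two_mul] at h3
    have h4 : Real.cos (Θ z) = 0 := pow_eq_zero_iff (two_ne_zero) |>.1 (by linarith)
    have h5 : Real.sin (Θ z - Real.pi / 2) = 0 := by rw [Real.sin_sub_pi_div_two, h4, neg_zero]
    have := (Real.sin_eq_zero_iff_of_lt_of_lt (by linarith [lo z hz]) (by linarith [hi z hz])).1 h5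
    linarith
  have key : ∀ x y, x < y → y ≤ κa → Y.eval x = 0 → Y.eval y = 0 → False := by
    intro x y hxy hy hx0 hy0
    obtain ⟨r, hmono, hroot, -, hsign⟩ := h.roots
    obtain ⟨i, hi, rfl⟩ := (hroot x).1 hx0
    obtain ⟨j, hj, rfl⟩ := (hroot y).1 hy0
    have hij : i < j := (hmono.lt_iff_lt hi hj).1 hxy
    have h1 : (1 : ℕ) ∈ Iic (2 * g) := by simp only [mem_Iic]; omega
    have h01 : r 0 < r 1 := hmono (by simp) h1 one_pos
    have h1j : r 1 ≤ r j := hmono.monotoneOn h1 hj (by omega)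
    have hr1 : Y.eval (r 1) = 0 := (hroot _).2 ⟨1, h1, rfl⟩
    obtain ⟨z₁, hz₁, hD₁⟩ := oneg_band h h01 ((hroot _).2 ⟨0, by simp, rfl⟩)
      (by have := h.quadD (r 1); rw [hr1] at this; linarith)
      (fun κ hκ => by simpa using hsign 0 (by omega) κ hκ)
    have hK : IsCompact (Icc (r j) κa ∩ (fun κ => Y.eval κ) ⁻¹' {0}) :=
      isCompact_Icc.inter_right (isClosed_singleton.preimage Y.continuous)
    obtain ⟨w, ⟨hw, hw0⟩, hmax⟩ := hK.exists_isGreatest ⟨r j, ⟨le_rfl, hy⟩, hy0⟩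
    have hw0' : Y.eval w = 0 := hw0
    have hwn : w < 0 := hw.2.trans_lt h.ka_neg
    have hY0 : 0 < Y.eval 0 := h.Ypos 0 ⟨h.ka_neg, h.kb_pos⟩
    obtain ⟨z₂, hz₂, hD₂⟩ := oneg_band h hwn hw0'
      (by rw [← hA.re 0 le_rfl, hA.m0]; simp) (fun κ hκ => by
        by_contra h2
        obtain ⟨t, ht, e⟩ := intermediate_value_Icc hκ.2.le Y.continuous.continuousOn
          (⟨not_lt.1 h2, hY0.le⟩ : (0 : ℝ) ∈ Icc (Y.eval κ) (Y.eval 0))
        have e' : Y.eval t = 0 := e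
        by_cases h3 : t ≤ κa
        · have := hmax ⟨⟨by linarith [hw.1, hκ.1, ht.1], h3⟩, e⟩
          linarith [hκ.1, ht.1]
        · have := h.Ypos t ⟨not_le.1 h3, ht.2.trans_lt h.kb_pos⟩
          linarith)
    have h12 : z₁ < z₂ := by linarith [hz₁.2, hz₂.1, hw.1]
    have h3 := hA.cross h.dD Real.cos_pi_div_two h12 hz₂.2.le
      (zero z₁ (h12.le.trans hz₂.2.le) hD₁).ge
    rw [zero z₂ hz₂.2.le hD₂] at h3
    exact lt_irrefl _ h3
  intro x hx y hy hx0 hy0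
  rcases lt_trichotomy x y with h1 | h1 | h1
  · exact (key x y h1 hy hx0 hy0).elim
  · exact h1
  · exact (key y x h1 hx hy0 hx0).elim

end Pool.Agent.Lib.MP_c7e804_gt
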