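import Pool.Agent.Lib.MP_c7e804_gt.H49Main
import Pool.Agent.Lib.MP_c7e804_gt.H43Free

/-!
Assembly of the cases of the contact angle.
-/

namespace Pool.Agent.Lib.MP_c7e804_gt

open Matrix Set Filter Topology

variable {ψ : ℝ × ℝ → V3} {a b τ θ : ℝ}

theorem Embedded.flip (he : Embedded ψ a b τ) : Embedded (flipU ψ) (-b) (-a) τ := by
  intro p hp q hq e
  obtain ⟨h1, h2⟩ := he _ (red_mem hp) _ (red_mem hq) e
  exact ⟨neg_injective h1, h2⟩

/-- reduction to positive Hopf differential -/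
theorem reduce_cap (h : CapAnnulus ψ a b τ θ θ)
    (h1 : Cap ψ a b τ θ → ∃ e : V3, e ≠ 0 ∧ FoliatedAbout ψ a b e)
    (h2 : Cap (flipU ψ) (-b) (-a) τ (Real.pi - θ) →
      ∃ e : V3, e ≠ 0 ∧ FoliatedAbout (flipU ψ) (-b) (-a) e) :
    ∃ e : V3, e ≠ 0 ∧ FoliatedAbout ψ a b e := by
  rcases lt_trichotomy (sffL ψ (b, 0)) 0 with h0 | h0 | h0
  · obtain ⟨e, he, hf⟩ := h2 ⟨flip_cap h, by rw [flip_L h]; linarith⟩
    exact ⟨e, he, flip_foliated h hf⟩
  · exact foliated_of_flat h h0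
  · exact h1 ⟨h, h0⟩

theorem Cap.nonobtuse_main (h : Cap ψ a b τ θ) (hc : 0 ≤ Real.cos θ) (he : Embedded ψ a b τ) :
    ∃ e : V3, e ≠ 0 ∧ FoliatedAbout ψ a b e := by
  rcases hc.lt_or_eq with hc | hc
  · exact h.acute_main hc he
  · have e : θ = Real.pi / 2 := by
      have := Real.arccos_cos h.ann.hθa.1.le h.ann.hθa.2.le
      rw [← hc, Real.arccos_zero] at this
      exact this.symm
    subst e
    exact free_main h.ann (he.simple h.ann.hab.le).1 (he.simple h.ann.hab.le).2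

theorem nonobtuse_main (h : CapAnnulus ψ a b τ θ θ) (he : Embedded ψ a b τ)
    (hs : 0 ≤ Real.cos θ * sffL ψ (b, 0)) : ∃ e : V3, e ≠ 0 ∧ FoliatedAbout ψ a b e := by
  refine reduce_cap h (fun hc => hc.nonobtuse_main ?_ he) fun hc => hc.nonobtuse_main ?_ he.flip
  · exact nonneg_of_mul_nonneg_left hs hc.Lpos
  · have h1 := hc.Lpos
    rw [flip_L h] at h1
    rw [Real.cos_pi_sub]
    by_contra h2
    nlinarith

theorem full_of_obtuse
    (hob : ∀ (ψ : ℝ × ℝ → V3) (a b τ θ : ℝ), Cap ψ a b τ θ → Real.cos θ < 0 → Embedded ψ a b τ →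
      ∃ e : V3, e ≠ 0 ∧ FoliatedAbout ψ a b e)
    (h : CapAnnulus ψ a b τ θ θ) (he : Embedded ψ a b τ) :
    ∃ e : V3, e ≠ 0 ∧ FoliatedAbout ψ a b e := by
  have key : ∀ (ψ : ℝ × ℝ → V3) (a b τ θ : ℝ), Cap ψ a b τ θ → Embedded ψ a b τ →
      ∃ e : V3, e ≠ 0 ∧ FoliatedAbout ψ a b e := fun ψ a b τ θ hc he =>
    (le_or_gt 0 (Real.cos θ)).elim (fun k => hc.nonobtuse_main k he) fun k => hob ψ a b τ θ hc k he
  exact reduce_cap h (fun hc => key _ _ _ _ _ hc he) fun hc => key _ _ _ _ _ hc he.flip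

end Pool.Agent.Lib.MP_c7e804_gt
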