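import Pool.Agent.Lib.MP_c7e804_gt.H81Len3
import Pool.Agent.Lib.MP_c7e804_gt.H43Xi
import Pool.Agent.Lib.MP_c7e804_gt.H43ODefs

/-!
For an obtuse contact angle a simple boundary curve and its Gauss image are short.
-/

namespace Pool.Agent.Lib.MP_c7e804_gt

open Matrix Set Complex
open scoped ContDiff ComplexConjugate

variable {ψ : ℝ × ℝ → V3} {a b τ θ : ℝ}

theorem Cap.len_aux (h : Cap ψ a b τ θ) (hc : Real.cos θ ≤ 0) {u σ : ℝ} (hu : u = a ∨ u = b)
    (hσ : σ = 1 ∨ σ = -1) (hpu : ∀ v, pu ψ (u, v) = σ * (√(confE ψ (u, v)) * Real.sin θ))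
    (hs : SimpleAt ψ τ u) {e : V3} (he : e ⬝ᵥ e = 1) (hN : ∀ v, e ⬝ᵥ normal ψ (u, v) < 0) :
    LL ψ τ u - Real.cos θ * LS ψ b τ u < 2 * Real.pi * Real.sin θ ∧
      LS ψ b τ u - Real.cos θ * LL ψ τ u < 2 * Real.pi * Real.sin θ ∧ flux ψ τ u ≠ 0 := by
  have hm : ∀ v, ((u, v) : ℝ × ℝ) ∈ strip a b := h.mem_bd hu
  have hI : u ∈ Icc a b := hm 0
  have hσ2 : σ * σ = 1 := by rcases hσ with rfl | rfl <;> norm_num
  have hE : ∀ v, 0 < confE ψ (u, v) := fun v => h.ann.immersion _ (hm v)
  have hS : ∀ v, 0 < √(confE ψ (u, v)) := fun v => Real.sqrt_pos.2 (hE v)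
  have hSS : ∀ v, √(confE ψ (u, v)) * √(confE ψ (u, v)) = confE ψ (u, v) :=
    fun v => Real.mul_self_sqrt (hE v).le
  have hs0 := h.sin_pos
  have hsc := Real.sin_sq_add_cos_sq θ
  have hw : ∀ v, 0 < wN ψ b u v := fun v => div_pos (by linarith [h.q_pos]) (hS v)
  have cS : Continuous fun v => √(confE ψ (u, v)) := (cont_line_v h.cont_E hI).sqrt
  have cw : Continuous (wN ψ b u) := continuous_const.div cS fun v => (hS v).ne'
  have dψ : ∀ v, HasDerivAt (fun v => ψ (u, v)) (dv ψ (u, v)) v :=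
    fun v => hasDerivAt_line_v (sm_diff (h.ann.smooth _ (hm v)))
  have dN : ∀ v, HasDerivAt (fun v => normal ψ (u, v))
      ((wN ψ b u v * (√(confE ψ (u, v)))⁻¹) • dv ψ (u, v)) v := fun v => by
    have e1 := hasDerivAt_line_v (sm_diff (h.ann.smN (hm v)))
    rw [(h.ann.dNv (hm v)).dv_eq, h.L_const (hm v)] at e1
    refine e1.congr_deriv ?_
    congr 1
    rw [wN, div_eq_mul_inv, mul_assoc _ _ (√(confE ψ (u, v)))⁻¹, ← mul_inv, hSS]
  have hNN : ∀ v, normal ψ (u, v) ⬝ᵥ normal ψ (u, v) = 1 := fun v => (h.ann.fr (hm v)).NN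
  have hNψ := h.geo_angle hu
  have hψN : ∀ v, ψ (u, v) ⬝ᵥ normal ψ (u, v) = Real.cos θ := fun v => by
    rw [dotProduct_comm, hNψ]
  have F : FC τ (-σ) (fun v => (Real.sin θ)⁻¹ • (ψ (u, v) - Real.cos θ • normal ψ (u, v)))
      (fun v => (√(confE ψ (u, v)))⁻¹ • dv ψ (u, v)) (fun v => -normal ψ (u, v))
      (fun v => (Real.sin θ)⁻¹ * (√(confE ψ (u, v)) - Real.cos θ * wN ψ b u v)) (wN ψ b u) :=
    { hτ := h.ann.hτ
      hε := by rcases hσ with rfl | rfl <;> simp
      dx := fun v => by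
        refine (((dψ v).sub ((dN v).const_smul (Real.cos θ))).const_smul
          (Real.sin θ)⁻¹).congr_deriv ?_
        have := (hS v).ne'
        ext i
        simp only [Pi.smul_apply, Pi.sub_apply, smul_eq_mul]
        field_simp
      dy := fun v => (dN v).neg.congr_deriv (by rw [smul_smul, neg_mul, neg_smul])
      cl := continuous_const.mul (cS.sub (continuous_const.mul cw))
      cm := cw
      lp := fun v => mul_pos (inv_pos.2 hs0) (by nlinarith [hS v, hw v])
      mp := hw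
      px := fun v => by
        rw [h.ann.periodic _ (hm v), h.ann.perN _ (hm v)]
      py := fun v => by rw [h.ann.perN _ (hm v)]
      pl := fun v => by simp only [wN]; rw [h.ann.perE _ (hm v)]
      pm := fun v => by simp only [wN]; rw [h.ann.perE _ (hm v)]
      xx := fun v => by
        simp only [sub_dotProduct, dotProduct_sub, smul_dotProduct, dotProduct_smul, hNN, hNψ, hψN,
          h.bd_unit hu, smul_eq_mul]
        field_simp
        linarith
      yy := fun v => by rw [neg_dotProduct, dotProduct_neg, neg_neg, hNN]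
      xy := fun v => by
        simp only [sub_dotProduct, smul_dotProduct, dotProduct_neg, hNN, hψN, smul_eq_mul]
        ring
      hT := fun v => by
        have Fr := h.ann.fr (hm v)
        have e1 : normal ψ (u, v) ⨯₃ ψ (u, v) =
            (pu ψ (u, v) * (confE ψ (u, v))⁻¹) • dv ψ (u, v) := by
          conv_lhs => rw [h.geo_psi hu v]
          rw [map_add, map_smul, map_smul, cross_self, smul_zero, add_zero, Fr.NxA]
        rw [map_neg, LinearMap.neg_apply, map_smul, map_sub, map_smul, cross_self, smul_zero,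
          sub_zero, e1, neg_smul, smul_neg, neg_neg, smul_smul, smul_smul]
        congr 1
        rw [hpu]
        have := (hS v).ne'
        have := (hE v).ne'
        field_simp
        nlinarith [hSS v] }
  have hg : ∀ v, Real.sin θ • ((Real.sin θ)⁻¹ • (ψ (u, v) - Real.cos θ • normal ψ (u, v)))
      + (-Real.cos θ) • -normal ψ (u, v) = ψ (u, v) := fun v => by
    rw [smul_inv_smul₀ hs0.ne']
    module
  obtain ⟨h1, h2, e', he'⟩ := F.len_main (c := -Real.cos θ) hs0 (by linarith) (by linarith)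
    (fun v => by
      rw [mul_inv_cancel_left₀ hs0.ne']
      linarith [hS v])
    (by
      simp only [hg]
      exact contDiff_iff_contDiffAt.2 fun v =>
        (h.ann.smooth _ (hm v)).comp v (contDiffAt_const.prodMk contDiffAt_id))
    (by simp only [hg]; exact hs) he (fun v => by rw [dotProduct_neg]; linarith [hN v])
  have iS := cS.intervalIntegrable (μ := MeasureTheory.volume) 0 τ
  have iw := cw.intervalIntegrable (μ := MeasureTheory.volume) 0 τ
  have e1 : ∫ v in (0 : ℝ)..τ, (Real.sin θ)⁻¹ * (√(confE ψ (u, v)) - Real.cos θ * wN ψ b u v)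
      = (Real.sin θ)⁻¹ * (LL ψ τ u - Real.cos θ * LS ψ b τ u) := by
    rw [intervalIntegral.integral_const_mul, intervalIntegral.integral_sub iS (iw.const_mul _),
      intervalIntegral.integral_const_mul, LL, LS]
  rw [intervalIntegral.integral_add (F.cl.const_mul _ |>.intervalIntegrable _ _) (iw.const_mul _),
    intervalIntegral.integral_const_mul, e1, intervalIntegral.integral_const_mul, ← LS] at h2
  rw [e1, inv_mul_lt_iff₀ hs0] at h1
  refine ⟨by linarith, ?_, fun h0 => ?_⟩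
  swap
  · have cA : Continuous fun v => du ψ (u, v) :=
      cont_line_v (fun r hr => (h.ann.smA hr).continuousAt.continuousWithinAt) hI
    have h3 : 0 < (σ • e') ⬝ᵥ flux ψ τ u := by
      rw [flux, len_dot_integral _ cA]
      refine intervalIntegral.intervalIntegral_pos_of_pos_on
        ((len_cont_dot continuous_const cA).intervalIntegrable _ _) (fun v _ => ?_) h.ann.hτ
      have h4 := he' v
      rw [sub_eq_iff_eq_add.2 (h.geo_psi hu v), smul_smul, dotProduct_smul, hpu, smul_eq_mul] at h4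
      rw [smul_dotProduct, smul_eq_mul]
      refine (mul_pos_iff_of_pos_left (mul_pos (hS v) (inv_pos.2 (hE v)))).1 (h4.trans_eq ?_)
      field_simp
    rw [h0, dotProduct_zero] at h3
    exact lt_irrefl _ h3
  have h3 := mul_lt_mul_of_pos_left h2 hs0
  have h4 : Real.sin θ * (-Real.cos θ * ((Real.sin θ)⁻¹ * (LL ψ τ u - Real.cos θ * LS ψ b τ u))
      + Real.sin θ * LS ψ b τ u) = LS ψ b τ u - Real.cos θ * LL ψ τ u := by
    field_simp
    linear_combination (LS ψ b τ u) * hsc
  linarith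

theorem Cap.len_lt' (h : Cap ψ a b τ θ) (hc : Real.cos θ ≤ 0) {u : ℝ} (hu : u = a ∨ u = b)
    (hs : SimpleAt ψ τ u) :
    LL ψ τ u - Real.cos θ * LS ψ b τ u < 2 * Real.pi * Real.sin θ ∧
      LS ψ b τ u - Real.cos θ * LL ψ τ u < 2 * Real.pi * Real.sin θ ∧ flux ψ τ u ≠ 0 := by
  obtain ⟨e, he, h1, h2, -⟩ := h.exists_axis
  rcases hu with rfl | rfl
  · exact h.len_aux hc (Or.inl rfl) (Or.inr rfl) (fun v => by rw [h.pu_a, neg_one_mul]) hs he
      fun v => by rw [dotProduct_comm]; exact h2 v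
  · exact h.len_aux hc (Or.inr rfl) (Or.inl rfl) (fun v => by rw [h.pu_b, one_mul]) hs (e := -e)
      (by simpa using he) fun v => by
        rw [neg_dotProduct, dotProduct_comm]
        linarith [h1 v]

theorem Cap.len_lt (h : Cap ψ a b τ θ) (hc : Real.cos θ ≤ 0) {u : ℝ} (hu : u = a ∨ u = b)
    (hs : SimpleAt ψ τ u) :
    LL ψ τ u < 2 * Real.pi * Real.sin θ ∧ LS ψ b τ u < 2 * Real.pi * Real.sin θ := by
  obtain ⟨h1, h2, -⟩ := h.len_lt' hc hu hs
  have p1 : 0 ≤ LL ψ τ u :=
    intervalIntegral.integral_nonneg h.ann.hτ.le fun v _ => Real.sqrt_nonneg _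
  have p2 : 0 ≤ LS ψ b τ u := intervalIntegral.integral_nonneg h.ann.hτ.le fun v _ =>
    div_nonneg (by linarith [h.q_pos]) (Real.sqrt_nonneg _)
  constructor <;> nlinarith

theorem Cap.flux_ne (h : Cap ψ a b τ θ) (hc : Real.cos θ ≤ 0) {u : ℝ} (hu : u = a ∨ u = b)
    (hs : SimpleAt ψ τ u) : flux ψ τ u ≠ 0 := (h.len_lt' hc hu hs).2.2

theorem Cap.small (h : Cap ψ a b τ θ) (hc : Real.cos θ ≤ 0) (hs : SimpleAt ψ τ b) :
    Small ψ b τ θ :=
  ⟨(h.len_lt hc (Or.inr rfl) hs).1, (h.len_lt hc (Or.inr rfl) hs).2, h.flux_ne hc (Or.inr rfl) hs⟩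

end Pool.Agent.Lib.MP_c7e804_gt
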