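import Pool.Agent.Lib.MP_c7e804_gt.H43OMain
import Pool.Agent.Lib.MP_c7e804_gt.H81Len
import Pool.Agent.Lib.MP_c7e804_gt.H49Fin

/-!
All contact angles.
-/

namespace Pool.Agent.Lib.MP_c7e804_gt

variable {ψ : ℝ × ℝ → V3} {a b τ θ : ℝ}

theorem Cap.obtuse (h : Cap ψ a b τ θ) (hc : Real.cos θ ≤ 0) (ha : SimpleAt ψ τ a)
    (hb : SimpleAt ψ τ b) : ∃ e : V3, e ≠ 0 ∧ FoliatedAbout ψ a b e :=
  h.short (h.len_lt hc (Or.inl rfl) ha).1 (h.len_lt hc (Or.inl rfl) ha).2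
    (h.len_lt hc (Or.inr rfl) hb).1 (h.len_lt hc (Or.inr rfl) hb).2

theorem full_main (h : CapAnnulus ψ a b τ θ θ) (he : Embedded ψ a b τ) :
    ∃ e : V3, e ≠ 0 ∧ FoliatedAbout ψ a b e :=
  full_of_obtuse (fun _ _ _ _ _ hc k he' =>
    hc.obtuse k.le (he'.simple hc.ann.hab.le).1 (he'.simple hc.ann.hab.le).2) h he

end Pool.Agent.Lib.MP_c7e804_gt
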