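import Pool.Agent.Lib.MP_c7e804_gt.H43SpecDefs

/-!
Boundary forms of the Lax system on the two boundary lines: definitions.
-/

namespace Pool.Agent.Lib.MP_c7e804_gt

open Matrix Set Complex
open scoped ContDiff ComplexConjugate

/-- boundary line `u` with the sign `ε` of the outer conormal -/
def Sd (a b u ε : ℝ) : Prop := (u = b ∧ ε = 1) ∨ (u = a ∧ ε = -1)

/-- identity for `ε = 1`, complex conjugation for `ε = -1` -/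
def cj (ε : ℝ) (μ : ℂ) : ℂ := ⟨μ.re, ε * μ.im⟩

/-- length of the curve `v ↦ ψ (u, v)` -/
noncomputable def lenL (ψ : ℝ × ℝ → V3) (τ u : ℝ) : ℝ := ∫ v in (0 : ℝ)..τ, √(confE ψ (u, v))

/-- length of the Gauss image of the curve `v ↦ ψ (u, v)` -/
noncomputable def lenS (ψ : ℝ × ℝ → V3) (b τ u : ℝ) : ℝ :=
  ∫ v in (0 : ℝ)..τ, 2 * hq ψ b / √(confE ψ (u, v))

/-- `σ (N_v)` -/
noncomputable def Nvm (ψ : ℝ × ℝ → V3) (b : ℝ) (p : ℝ × ℝ) : M2 :=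
  sg (cv ((2 * hq ψ b / confE ψ p) • dv ψ p))

/-- density `- σ (ψ × N_v) / 2` of the boundary form -/
noncomputable def Jm (ψ : ℝ × ℝ → V3) (b : ℝ) (p : ℝ × ℝ) : M2 :=
  sg (cv ((-(hq ψ b / confE ψ p)) • (ψ p ⨯₃ dv ψ p)))

/-- the boundary form on the line `u` -/
noncomputable def Jf (ψ : ℝ × ℝ → V3) (b τ u : ℝ) (c' c : ℝ → C2) : ℂ :=
  ∫ v in (0 : ℝ)..τ, hf (c' v) (Jm ψ b (u, v)) (c v)

/-- solution of the Lax system along the line `u` -/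
def LSol (ψ : ℝ × ℝ → V3) (u : ℝ) (κ : ℂ) (c : ℝ → C2) : Prop :=
  ∀ v, HasDerivAt c (-(I * κ) • (Am ψ (u, v) *ᵥ c v)) v

/-- functions along the line `u` whose derivative lies in the range of `A` -/
def Adm (ψ : ℝ × ℝ → V3) (u : ℝ) (c : ℝ → C2) : Prop :=
  ∃ d : ℝ → C2, ∀ v, HasDerivAt c (Am ψ (u, v) *ᵥ d v) v

/-- the invariant line at `ka θ` on the boundary line `u` -/
structure SpA (ψ : ℝ × ℝ → V3) (τ θ u : ℝ) (V : ℝ → C2) (μ : ℂ) : Prop where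
  sol : LSol ψ u (ka θ) V
  eig : ∀ v, sg (cv (ψ (u, v))) *ᵥ V v = V v
  unit : ∀ v, star (V v) ⬝ᵥ V v = 1
  per : V τ = μ • V 0

/-- there is a Floquet solution with unimodular multiplier on which the form is not positive -/
def Neg (ψ : ℝ × ℝ → V3) (a b τ u ε : ℝ) (κ μ : ℂ) : Prop :=
  ‖μ‖ = 1 ∧ ∃ c, Floq ψ a b τ κ (cj ε μ) c ∧
    ε * (Jf ψ b τ u (fun v => c (u, v)) (fun v => c (u, v))).re ≤ 0

/-- differential equations of the monodromy -/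
structure Base (D α Y P : ℝ → ℝ) (κa κb : ℝ) : Prop where
  ka_neg : κa < 0
  kb_pos : 0 < κb
  contP : Continuous P
  der : ∀ κ, ∃ α' Y', HasDerivAt D (α κ * P κ) κ ∧ HasDerivAt α α' κ ∧ HasDerivAt Y Y' κ ∧
    2 * α' * Y κ + α κ * Y' = -2 * D κ * P κ
  quad : ∀ κ, D κ ^ 2 + α κ ^ 2 * Y κ = 1
  Ypos : ∀ κ ∈ Ioo κa κb, 0 < Y κ
  D0 : D 0 = 1
  α0 : α 0 = 0
  P0 : P 0 ≠ 0

/-- what the boundary form of one line says about the multipliers -/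
structure Side (D α Y P : ℝ → ℝ) (κa κb A B : ℝ) (μa : ℂ) (N : ℂ → ℂ → Prop) : Prop where
  A0 : 0 < A
  Aπ : A < Real.pi
  B0 : 0 < B
  Bπ : B < Real.pi
  sq : μa ^ 2 = cexp (2 * I * (A - B))
  win : ∀ κ μ, N κ μ → ‖μ‖ = 1 ∧ Real.cos B ≤ (μ * conj μa * cexp (-(I * B))).re
  uniq : ∀ (κ : ℂ) (κ' : ℝ) (μ : ℂ), N κ μ → N κ' μ → κ = κ'
  sheet : ∀ κ ∈ Ioo κa κb, ∀ t : ℝ, t ^ 2 = Y κ → t * P κ ≤ 0 → N κ (D κ + I * α κ * t)
  strict : ∀ κ ∈ Ioo κa κb, ∀ t : ℝ, t ^ 2 = Y κ → t * P κ < 0 →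
    Real.cos B < ((D κ + I * α κ * t) * conj μa * cexp (-(I * B))).re
  spa : N κa μa ∧ ∃ t : ℝ, t ^ 2 = Y κa ∧ μa = D κa + I * α κa * t
  spb : N κb (μa * cexp (2 * I * B)) ∧
    ∃ t : ℝ, t ^ 2 = Y κb ∧ μa * cexp (2 * I * B) = D κb + I * α κb * t

/-- the phase of the multiplier on the negative sheet -/
structure Win (D α Y P : ℝ → ℝ) (κa κb ε : ℝ) (ϕ : ℝ → ℝ) : Prop where
  hε : ε = 1 ∨ ε = -1
  cont : ContinuousOn ϕ (Icc κa κb)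
  ex : ∀ κ ∈ Icc κa κb, cexp (I * ϕ κ) = D κ + I * α κ * (-ε * √(Y κ) : ℝ)
  zero : ϕ 0 = 0
  pos : ∀ κ ∈ Ioo κa κb, 0 < ε * P κ
  lo : -Real.pi < ϕ κa ∧ ϕ κa < 0
  hi : 0 < ϕ κb ∧ ϕ κb < Real.pi

/-- the window of one line is swept out by the negative sheet -/
structure WinSide (κa κb A B : ℝ) (μa : ℂ) (N : ℂ → ℂ → Prop) (ϕ : ℝ → ℝ) : Prop where
  vala : ϕ κa = A - B - Real.pi
  valb : ϕ κb = A + B - Real.pi
  ma : μa = cexp (I * ϕ κa)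
  mb : μa * cexp (2 * I * B) = cexp (I * ϕ κb)
  only : ∀ κ μ, N κ μ → ∃ k ∈ Icc κa κb, κ = k ∧ μ = cexp (I * ϕ k)

theorem Sd.bd {a b u ε : ℝ} (h : Sd a b u ε) : u = a ∨ u = b :=
  h.elim (fun e => Or.inr e.1) fun e => Or.inl e.1

theorem Sd.sgn {a b u ε : ℝ} (h : Sd a b u ε) : ε = 1 ∨ ε = -1 :=
  h.elim (fun e => Or.inl e.2) fun e => Or.inr e.2

theorem Sd.sq {a b u ε : ℝ} (h : Sd a b u ε) : ε * ε = 1 := by
  rcases h.sgn with e | e <;> rw [e] <;> norm_num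

theorem cj_one (μ : ℂ) : cj 1 μ = μ := Complex.ext rfl (one_mul _)

theorem cj_neg_one (μ : ℂ) : cj (-1) μ = conj μ := Complex.ext rfl (neg_one_mul _)

end Pool.Agent.Lib.MP_c7e804_gt
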