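import Pool.Agent.Lib.MP_c7e804_gt.H43Geo
import Pool.Agent.Lib.MP_c7e804_gt.H43Int
import Pool.Agent.Lib.MP_c7e804_gt.H71Defs

/-!
The boundary curves are longer than their Gauss images.
-/

namespace Pool.Agent.Lib.MP_c7e804_gt

open Matrix Set
open scoped ContDiff

namespace Cap
variable {ψ : ℝ × ℝ → V3} {a b τ θ : ℝ} (h : Cap ψ a b τ θ) {p : ℝ × ℝ}
include h

theorem os_c : 0 < 1 + Real.cos θ := by
  have h1 := h.sin_pos
  have h2 := Real.sin_sq_add_cos_sq θ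
  have h3 := Real.neg_one_le_cos θ
  by_contra hc
  have : Real.cos θ = -1 := by linarith
  rw [this] at h2
  nlinarith

theorem os_pos (hp : p ∈ strip a b) : 0 < 1 + Real.cos θ + ww ψ θ p := by
  obtain ⟨u, v⟩ := p
  rcases eq_or_lt_of_le hp.1 with e | e
  · rw [h.bd_ww (Or.inl e.symm) v, add_zero]
    exact h.os_c
  · rcases eq_or_lt_of_le hp.2 with e' | e'
    · rw [h.bd_ww (Or.inr e') v, add_zero]
      exact h.os_c
    · have h1 := h.ann.inside (u, v) e e'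
      have h2 := (h.ann.fr hp).NN
      rw [ww]
      simp only [dotProduct, Fin.sum_univ_three] at h1 h2 ⊢
      nlinarith [sq_nonneg (normal ψ (u, v) 0 + ψ (u, v) 0),
        sq_nonneg (normal ψ (u, v) 1 + ψ (u, v) 1), sq_nonneg (normal ψ (u, v) 2 + ψ (u, v) 2)]

theorem os_norm (hp : p ∈ strip a b) : ψ p ⬝ᵥ ψ p =
    (pu ψ p ^ 2 + (ψ p ⬝ᵥ dv ψ p) ^ 2) / confE ψ p + (normal ψ p ⬝ᵥ ψ p) ^ 2 := by
  have F := h.ann.fr hp
  have hE := F.pos.ne'
  have e := congrArg (fun x => ψ p ⬝ᵥ x) (F.decomp (ψ p))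
  simp only [dotProduct_add, dotProduct_smul, smul_eq_mul] at e
  rw [e, dotProduct_comm (normal ψ p), pu]
  field_simp

theorem os_smH (hp : p ∈ strip a b) :
    ContDiffAt ℝ ∞ (fun r => (1 + Real.cos θ + ww ψ θ r)⁻¹) p :=
  (contDiffAt_const.add (h.geo_sm_ww hp)).inv (h.os_pos hp).ne'

theorem os_div : ∃ G₁ G₁u G₁v G₂ G₂u G₂v : ℝ × ℝ → ℝ, PD a b G₁ G₁u G₁v ∧ PD a b G₂ G₂u G₂v ∧
    (∀ r ∈ strip a b, G₂ (r.1, r.2 + τ) = G₂ r) ∧
    (∀ r ∈ strip a b, G₁u r + G₂v r = (2 * hq ψ b) ^ 2 / confE ψ r * (1 - ψ r ⬝ᵥ ψ r)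
      / (1 + Real.cos θ + ww ψ θ r) ^ 2) ∧
    ∀ r ∈ strip a b, G₁ r = al ψ r
      + -(2 * hq ψ b) / confE ψ r * pu ψ r * (1 + Real.cos θ + ww ψ θ r)⁻¹ := by
  obtain ⟨wuu, wuv, wvu, wvv, -, h1, h2, h3⟩ := h.pd_ww
  have hab := h.ann.hab
  refine ⟨fun r => al ψ r + -(2 * hq ψ b) / confE ψ r * pu ψ r * (1 + Real.cos θ + ww ψ θ r)⁻¹,
    _, _, fun r => be ψ r + 2 * hq ψ b / confE ψ r * (ψ r ⬝ᵥ dv ψ r)
      * (1 + Real.cos θ + ww ψ θ r)⁻¹, _, _,
    PD.of_sm fun _ hp => (h.ann.smal hp).add ((h.geo_sm1 hp).mul (h.os_smH hp)),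
    PD.of_sm fun _ hp => (h.ann.smbe hp).add ((h.geo_sm2 hp).mul (h.os_smH hp)),
    fun r hr => ?_, fun r hr => ?_, fun _ _ => rfl⟩
  · simp only
    rw [h.ann.perbe r hr, h.ann.perE r hr, h.ann.periodic r hr, h.ann.perB r hr, h.per_ww hr]
  · have hH := (h.os_pos hr).ne'
    have hE := (h.ann.immersion r hr).ne'
    have k1 := PD.unique_u hab (PD.of_sm fun _ hp => h.geo_sm1 hp) h1 r hr
    have k2 := PD.unique_v (PD.of_sm fun _ hp => h.geo_sm2 hp) h2 r hr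
    have e1 := ((hasD_du (sm_diff (h.ann.smal hr))).add ((hasD_du (sm_diff (h.geo_sm1 hr))).mul
      (((HasD.const (1 + Real.cos θ)).add (hasD_du (sm_diff (h.geo_sm_ww hr)))).inv hH))).du_eq
    have e2 := ((hasD_dv (sm_diff (h.ann.smbe hr))).add ((hasD_dv (sm_diff (h.geo_sm2 hr))).mul
      (((HasD.const (1 + Real.cos θ)).add (hasD_dv (sm_diff (h.geo_sm_ww hr)))).inv hH))).dv_eq
    have g := (h.ann.gauss hr).2
    have k3 := h3 r hr
    have k4 := h.os_norm hr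
    have k5 : normal ψ r ⬝ᵥ ψ r = 1 + Real.cos θ + ww ψ θ r - 1 := by rw [ww]; ring
    rw [e1, e2, k1, k2, h.geo_wu hr, h.geo_wv hr, k4]
    rw [h.L_const hr] at g
    rw [k5] at k3 ⊢
    generalize 1 + Real.cos θ + ww ψ θ r = H at *
    have k6 : du (al ψ) r = (2 * hq ψ b) ^ 2 * (confE ψ r)⁻¹ - dv (be ψ) r := by linarith
    have k7 : wuu r = -(2 * (2 * hq ψ b) ^ 2 / confE ψ r) * (H - 1) - wvv r := by linarith
    rw [k6, k7]
    field_simp
    ring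

theorem os_bd {u ε : ℝ} (hu : Sd a b u ε) (v : ℝ) :
    al ψ (u, v) + -(2 * hq ψ b) / confE ψ (u, v) * pu ψ (u, v)
      * (1 + Real.cos θ + ww ψ θ (u, v))⁻¹
      = ε / Real.sin θ * (√(confE ψ (u, v)) - 2 * hq ψ b / √(confE ψ (u, v))) := by
  have hE := h.ann.immersion _ (h.mem_bd hu.bd v)
  have hS := Real.sqrt_pos.2 hE
  have hSS := Real.mul_self_sqrt hE.le
  have h1 := h.bd_al hu.bd v
  have h2 : pu ψ (u, v) = ε * (√(confE ψ (u, v)) * Real.sin θ) := by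
    rcases hu with ⟨rfl, rfl⟩ | ⟨rfl, rfl⟩
    · rw [h.pu_b, one_mul]
    · rw [h.pu_a, neg_one_mul]
  have hs := h.sin_pos
  have hc := h.os_c
  have h3 := Real.sin_sq_add_cos_sq θ
  have h4 := hu.sq
  rw [h.bd_ww hu.bd v, add_zero, h2]
  rw [h2] at h1
  generalize √(confE ψ (u, v)) = S at *
  rw [← hSS] at h1 ⊢
  have h5 : al ψ (u, v) = ε * (S * S - 2 * hq ψ b * Real.cos θ) / (S * Real.sin θ) := by
    rw [← h1]
    field_simp
    linear_combination (-al ψ (u, v)) * h4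
  rw [h5]
  field_simp
  linear_combination (-(ε * 2 * hq ψ b)) * h3

theorem len_sum : lenS ψ b τ a + lenS ψ b τ b < lenL ψ τ a + lenL ψ τ b := by
  obtain ⟨G₁, G₁u, G₁v, G₂, G₂u, G₂v, h1, h2, h3, h4, h5⟩ := h.os_div
  have hab := h.ann.hab
  have hτ := h.ann.hτ
  have hs := h.sin_pos
  have e1 := ftc_Icc hab.le (fun u hu => h1.deriv_int_v 0 τ hu) (contOn_int_v h1.contu 0 τ)
  have e2 : ∀ u ∈ Icc a b, ∫ r in (0 : ℝ)..τ, G₁u (u, r) =
      ∫ r in (0 : ℝ)..τ, (G₁u (u, r) + G₂v (u, r)) := fun u hu => by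
    rw [intervalIntegral.integral_add ((cont_line_v h1.contu hu).intervalIntegrable _ _)
      ((cont_line_v h2.contv hu).intervalIntegrable _ _), h2.int_v hu 0 τ]
    have := h3 (u, 0) hu
    simp only [zero_add] at this
    rw [this, sub_self, add_zero]
  have e3 : ∀ u ∈ Ioo a b, 0 < ∫ r in (0 : ℝ)..τ, G₁u (u, r) := fun u hu => by
    have hu' : u ∈ Icc a b := Ioo_subset_Icc_self hu
    rw [e2 u hu']
    refine intervalIntegral.intervalIntegral_pos_of_pos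
      (((cont_line_v h1.contu hu').add (cont_line_v h2.contv hu')).intervalIntegrable _ _)
      (fun v => ?_) hτ
    rw [h4 (u, v) hu']
    have k1 := h.ann.inside (u, v) hu.1 hu.2
    have k2 := h.os_pos (p := (u, v)) hu'
    have k3 := h.ann.immersion (u, v) hu'
    have k4 := h.q_pos
    have k5 : 0 < 1 - ψ (u, v) ⬝ᵥ ψ (u, v) := by linarith
    positivity
  have e4 : 0 < ∫ u in a..b, ∫ r in (0 : ℝ)..τ, G₁u (u, r) :=
    intervalIntegral.intervalIntegral_pos_of_pos_on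
      (((contOn_int_v h1.contu 0 τ).mono (by rw [uIcc_of_le hab.le])).intervalIntegrable) e3 hab
  have e5 : ∀ u ε, Sd a b u ε → ∫ r in (0 : ℝ)..τ, G₁ (u, r) =
      ε / Real.sin θ * (lenL ψ τ u - lenS ψ b τ u) := fun u ε hu => by
    have hI : u ∈ Icc a b := h.mem_bd hu.bd 0
    have hc : Continuous fun v => √(confE ψ (u, v)) := (cont_line_v h.cont_E hI).sqrt
    have hc' : Continuous fun v => 2 * hq ψ b / √(confE ψ (u, v)) :=
      continuous_const.div hc fun v => (Real.sqrt_pos.2 (h.ann.immersion (u, v) hI)).ne'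
    rw [lenL, lenS, ← intervalIntegral.integral_sub (hc.intervalIntegrable _ _)
      (hc'.intervalIntegrable _ _), ← intervalIntegral.integral_const_mul]
    congr 1
    funext v
    rw [h5 (u, v) hI, h.os_bd hu v]
  rw [e1, e5 b 1 (Or.inl ⟨rfl, rfl⟩), e5 a (-1) (Or.inr ⟨rfl, rfl⟩)] at e4
  have e6 : 1 / Real.sin θ * (lenL ψ τ b - lenS ψ b τ b) - -1 / Real.sin θ
      * (lenL ψ τ a - lenS ψ b τ a) = (lenL ψ τ a + lenL ψ τ b - (lenS ψ b τ a + lenS ψ b τ b))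
      / Real.sin θ := by ring
  rw [e6] at e4
  linarith [(div_pos_iff_of_pos_right hs).1 e4]

end Cap

end Pool.Agent.Lib.MP_c7e804_gt
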