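import Pool.Agent.Lib.MP_c7e804_gt.H71Out1

/-!
Signs in the outer bands and at the left end of the definite interval.
-/

namespace Pool.Agent.Lib.MP_c7e804_gt

open Matrix Set Complex
open scoped ContDiff ComplexConjugate

theorem out2_dot {n X : C3} {z : C2} {l : ℂ} (hz : z ≠ 0) (h1 : sg n *ᵥ z = z)
    (h2 : sg X *ᵥ z = l • z) : n ⬝ᵥ X = l := by
  have e := congrArg (fun M : M2 => M *ᵥ z) (sg_anti n X)
  simp only [add_mulVec, ← mulVec_mulVec, smul_mulVec, one_mulVec] at e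
  rw [h1, h2, mulVec_smul, h1, ← add_smul] at e
  have := smul_left_injective ℂ hz e
  linear_combination -this / 2

theorem out2_real {t k d P Z m1 m2 w1 w2 : ℝ} (ht : 0 < t) (hk : k < 0)
    (c1 : 0 < t * P * m1) (c2 : 0 < -t * P * m2)
    (f1 : t * w1 = m1 * (d * t - k * Z)) (f2 : -t * w2 = m2 * (d * -t - k * Z))
    (g1 : w1 < 0) (g2 : w2 < 0) : Z * P < 0 := by
  have d1 : 0 < m1 * P := (mul_pos_iff_of_pos_left ht).1 (by linarith)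
  have d2 : m2 * P < 0 := by
    have : 0 < -(m2 * P) := (mul_pos_iff_of_pos_left ht).1 (by linarith)
    linarith
  have hP : P ≠ 0 := by
    rintro rfl
    simp at d1
  have hP2 : 0 < P ^ 2 := by positivity
  have r1 : (d * t - k * Z) * P < 0 := by
    by_contra hc
    have h1 := mul_nonneg d1.le (not_lt.1 hc)
    have h2 := mul_neg_of_neg_of_pos (mul_neg_of_pos_of_neg ht g1) hP2
    rw [f1] at h2
    linarith
  have r2 : (d * -t - k * Z) * P < 0 := by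
    by_contra hc
    have h1 := mul_nonpos_of_nonpos_of_nonneg d2.le (not_lt.1 hc)
    have h2 := mul_pos (mul_pos_of_neg_of_neg (neg_neg_of_pos ht) g2) hP2
    rw [f2] at h2
    linarith
  have r3 : -k * (Z * P) < 0 := by linarith
  by_contra hc
  linarith [mul_nonneg (neg_pos.2 hk).le (not_lt.1 hc)]

namespace Setup
variable {ψ : ℝ × ℝ → V3} {a b τ θ : ℝ} {g : ℕ} {s : ℕ → ℝ × ℝ → ℂ} {F G : ℂ → ℝ × ℝ → M2}
  (h : Setup ψ a b τ θ g s F G) {ε : ℝ} {ϕ : ℝ → ℝ} (hW : Wnd ψ a b τ θ g s F ε ϕ)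
include h hW

/-- signs of the two boundary forms on an eigenvector in an outer band -/
theorem w_band {κ t : ℝ} (hκ : κ ∉ Icc (ka θ) (kb θ)) {y : C2} (hy : y ≠ 0)
    (he : sg (X0 ψ b g s κ) *ᵥ y = (t : ℂ) • y) (ht : t ≠ 0) :
    0 < t * (Pf ψ b τ g s κ).re * (hf y (Km ψ θ κ (b, 0)) y).re ∧
      t * (Pf ψ b τ g s κ).re * (hf y (Ha ψ a θ F κ) y).re < 0 := by
  obtain ⟨hc, hμ⟩ := h.floq_eig hy he
  obtain ⟨p1, p2⟩ := h.w_posJ hW hκ hc hμ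
  have s1 := h.sheet_J (Or.inr rfl) hy he
  have s2 := h.sheet_J (Or.inl rfl) hy he
  rw [h.form_b κ y y 0] at s1
  rw [h.form_a κ y y 0] at s2
  have ht2 : 0 < t ^ 2 := by positivity
  constructor
  · rw [mul_assoc, ← s1, ← mul_assoc, ← sq]
    exact mul_pos ht2 p1
  · rw [mul_assoc, ← s2, ← mul_assoc, ← sq]
    exact mul_neg_of_pos_of_neg ht2 p2

theorem w_left_sign {κ : ℝ} (hκ : κ < ka θ) (hY : 0 < (Yf ψ b g s κ).re) :
    (cv (ψ (b, 0)) ⬝ᵥ X0 ψ b g s κ).re * (Pf ψ b τ g s κ).re < 0 := by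
  have hθ := h.cap.ann.hθa
  have k0 : κ < 0 := hκ.trans (ka_neg hθ)
  have k1 : κ < kb θ := k0.trans (kb_pos hθ)
  have hn : κ ∉ Icc (ka θ) (kb θ) := fun e => absurd e.1 (not_le.2 hκ)
  have hΔ : Dl θ κ < 0 := by
    rw [Dl_eq hθ]
    exact mul_neg_of_pos_of_neg (pow_pos h.cap.sin_pos 2)
      (mul_neg_of_neg_of_pos (sub_neg.2 hκ) (sub_pos.2 k1))
  obtain ⟨t, x, y, ht, -, hx0, hy0, hx, hy⟩ := h.spec4_eig hY
  have hH : Km ψ θ κ (b, 0) * sg (X0 ψ b g s κ) = sg (star (X0 ψ b g s κ)) * Km ψ θ κ (b, 0) :=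
    h.cap.Km_Xk h.kill.toPKill κ (Or.inr rfl) 0
  have hs := h.cap.ann.sphere_b 0
  have c1 := (h.w_band hW hn hx0 hx ht.ne').1
  have c2 := (h.w_band hW hn hy0 hy (neg_ne_zero.2 ht.ne')).1
  have f1 := spec4_axis hs (Km_eq ψ θ κ (b, 0)) (Km_herm ψ θ κ (b, 0)) hH hx
  have f2 := spec4_axis hs (Km_eq ψ θ κ (b, 0)) (Km_herm ψ θ κ (b, 0)) hH hy
  have g1 := mul_neg_of_neg_of_pos hΔ (hf_one_pos hx0)
  have g2 := mul_neg_of_neg_of_pos hΔ (hf_one_pos hy0)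
  rw [Dl] at g1 g2
  exact out2_real ht k0 c1 c2 f1 f2 g1 g2

theorem out2_centre : 0 < √(Yf ψ b g s (ka θ)).re * (ε * (Pf ψ b τ g s (ka θ)).re) := by
  have hθ := h.cap.ann.hθa
  obtain ⟨c1, c2⟩ := h.w_centre hW (left_mem_Icc.2 ((ka_neg hθ).trans (kb_pos hθ)).le)
  exact mul_pos (Real.sqrt_pos.2 c1) c2

theorem w_dot_b : (cv (ψ (b, 0)) ⬝ᵥ X0 ψ b g s (ka θ)).re * (Pf ψ b τ g s (ka θ)).re < 0 := by
  obtain ⟨y, hy, e1, e2⟩ := hW.yb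
  rw [out2_dot hy e1 e2, ofReal_re]
  have := h.out2_centre hW
  linarith

theorem w_dot_a :
    0 < (cv (ψ (a, 0)) ⬝ᵥ Xk ψ b g s (ka θ) (a, 0)).re * (Pf ψ b τ g s (ka θ)).re := by
  obtain ⟨y, hy, e1, e2⟩ := hW.ya
  have e3 := h.s4a_conj (ka θ) (h.cap.mem_a 0) y
  rw [e2, mulVec_smul] at e3
  rw [out2_dot (h.cap.F_ne h.frame (ka θ) hy (h.cap.mem_a 0)) e1 e3, ofReal_re]
  have := h.out2_centre hW
  linarith

theorem w_R_ka : (Rf ψ a b θ g s (ka θ)).re * (Pf ψ b τ g s (ka θ)).re < 0 := by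
  have h1 := h.w_dot_b hW
  have h2 := h.w_dot_a hW
  have h3 : Dl θ (ka θ) = 0 := by
    rw [Dl_eq h.cap.ann.hθa, sub_self, zero_mul, mul_zero]
  have h4 : (1 + (ka θ : ℂ) * Real.cos θ) ^ 2 - (ka θ : ℂ) ^ 2 = 0 := by
    rw [Dl] at h3
    exact_mod_cast h3
  have h5 : (Rf ψ a b θ g s (ka θ)).re = 2 * (cv (ψ (b, 0)) ⬝ᵥ X0 ψ b g s (ka θ)).re
      - 2 * (cv (ψ (a, 0)) ⬝ᵥ Xk ψ b g s (ka θ) (a, 0)).re := by
    rw [Rf, h4, X0]
    simp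
  rw [h5]
  linarith

end Setup

end Pool.Agent.Lib.MP_c7e804_gt
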