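import Pool.Agent.Lib.MP_c7e804_gt.H43Core
import Pool.Agent.Lib.MP_c7e804_gt.H43OCount
import Pool.Agent.Lib.MP_c7e804_gt.H43OSub
import Pool.Agent.Lib.MP_c7e804_gt.H71Out2
import Pool.Agent.Lib.MP_c7e804_gt.H25Gap

/-!
The spectral argument for short boundary curves with short Gauss images.
-/

namespace Pool.Agent.Lib.MP_c7e804_gt

open Matrix Set Complex
open scoped ContDiff ComplexConjugate

namespace Setup
variable {ψ : ℝ × ℝ → V3} {a b τ θ : ℝ} {g : ℕ} {s : ℕ → ℝ × ℝ → ℂ} {F G : ℂ → ℝ × ℝ → M2}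
  (h : Setup ψ a b τ θ g s F G) {ε : ℝ} {ϕ : ℝ → ℝ} (hW : Wnd ψ a b τ θ g s F ε ϕ)
include h hW

theorem specO {Y P R : Polynomial ℝ} (hp : Polys ψ a b τ θ g s Y P R) :
    SpecO g Y P R (ka θ) (kb θ) (Dl θ) (Dk b τ F)
      (alk ψ b τ g s F) (Tk ψ a b θ F) (bek ψ a b θ g s F) := by
  have hθ := h.cap.ann.hθa
  have hY : ∀ κ : ℝ, Y.eval κ = (Yf ψ b g s κ).re := fun κ => by
    have e := Polynomial.aeval_algebraMap_apply_eq_algebraMap_eval (A := ℂ) κ Y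
    rw [← hp.Yev]
    have e' : Polynomial.aeval (κ : ℂ) Y = ((Y.eval κ : ℝ) : ℂ) := e
    rw [e', Complex.ofReal_re]
  have hP : ∀ κ : ℝ, P.eval κ = (Pf ψ b τ g s κ).re := fun κ => by
    rw [← hp.Pev]; simp
  have hs : 0 < Real.sin θ ^ 2 := pow_pos h.cap.sin_pos 2
  refine
    { ka_neg := ka_neg hθ, kb_pos := kb_pos hθ, Ydeg := hp.Ydeg, Ylead := hp.Ylead,
      Pdeg := hp.Pdeg, Plead := hp.Plead, Rdeg := hp.Rdeg, Rlead := hp.Rlead,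
      Δne := ?_, dD := h.dD hp, dα := h.dα hp, quadD := ?_,
      dT := fun κ h1 h2 => (h.dTβ hp h1 h2).1, dβ := fun κ h1 h2 => (h.dTβ hp h1 h2).2,
      quadT := ?_, Ypos := ?_, real := ?_, Pne := ?_, gapR := ?_, Ra := ?_, R0 := ?_, Rb := ?_ }
  · intro κ hκ
    rw [Dl_eq hθ]
    have h1 : 0 < κ - ka θ := by linarith [ka_neg hθ, kb_pos hθ]
    exact mul_ne_zero hs.ne' (mul_ne_zero h1.ne' (sub_neg.2 hκ).ne)
  · intro κ; rw [hY]; exact h.quadD κ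
  · intro κ h1 h2; rw [hY]; exact h.quadT h1 h2
  · intro κ hκ; rw [hY]; exact h.Y_pos hκ
  · intro z hz; rw [hp.Yev] at hz; exact h.w_root_real hW hz
  · intro κ hκ; rw [hY] at hκ; rw [hP]; exact h.w_P_ne hW hκ
  · intro x y hb hxy hx hy hn
    exact h.R_root_gap_of_forms hp hb hxy hx hy hn fun κ hκ μ c hc hμ =>
      (h.w_pos hW (fun hm => absurd (hb.trans_le hκ.1) (not_lt.2 hm.2)) hc hμ).symm
  · rw [hp.Rev, hP]; exact h.w_R_ka hW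
  · rw [hp.Rev]; exact h.R_zero
  · intro h0
    rw [hp.Rev]
    refine h.R_kb ?_
    rw [hY] at h0
    exact Complex.ext h0 (h.Y_real _)

omit hW in
theorem wind_QV {x : C2} (hx1 : star x ⬝ᵥ x = 1) (hx2 : sg (cv (ψ (b, 0))) *ᵥ x = x) :
    wind τ (Qf ψ b (cl b F x (ka θ))) (Qd ψ b (cl b F x (ka θ))) / 2
      = lenL ψ τ b / (2 * Real.sin θ) - lenS ψ b τ b / (2 * Real.sin θ) := by
  have hc : Continuous fun v => √(confE ψ (b, v)) := h.cap.th2_cont_E.sqrt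
  have hc' : Continuous fun v => 2 * hq ψ b / √(confE ψ (b, v)) :=
    continuous_const.div hc fun v =>
      (Real.sqrt_pos.2 (h.cap.ann.immersion (b, v) (h.cap.mem_b v))).ne'
  simp only [wind, h.cap.arg_QV h.frame hx1 hx2]
  rw [intervalIntegral.integral_div, intervalIntegral.integral_sub (hc.intervalIntegrable _ _)
    (hc'.intervalIntegrable _ _), lenL, lenS]
  ring

theorem exists_angleO {Y P R : Polynomial ℝ} (hp : Polys ψ a b τ θ g s Y P R) :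
    ∃ Θ m, Angle P (Dk b τ F) (alk ψ b τ g s F) Θ m := by
  obtain ⟨x, hx1, hx2⟩ := exists_unit_eig (h.cap.bd_unit (Or.inr rfl) 0)
  have hx : x ≠ 0 := by
    rintro rfl
    simp at hx1
  have hka : ka θ < 0 := ka_neg h.cap.ann.hθa
  have hkb : 0 < kb θ := kb_pos h.cap.ann.hθa
  have hε := hW.win.hε
  have hsub : Icc (ka θ) 0 ⊆ Icc (ka θ) (kb θ) := Icc_subset_Icc_right hkb.le
  have hP : ∀ κ ∈ Icc (ka θ) 0, 0 ≤ (Yf ψ b g s κ).re ∧ 0 < ε * (Pf ψ b τ g s κ).re :=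
    fun κ hκ => ⟨(h.w_centre hW (hsub hκ)).1.le, (h.w_centre hW (hsub hκ)).2⟩
  obtain ⟨ν, hν1, hν2, hν3, hν4⟩ : ∃ ν : ℝ → ℝ, ContinuousOn ν (Icc (ka θ) 0) ∧
      (∀ κ ∈ Icc (ka θ) 0, cexp (2 * I * ν κ) =
        (Dk b τ F κ + I * alk ψ b τ g s F κ * (-ε * √(Yf ψ b g s κ).re : ℝ)) ^ 2) ∧
      ν (ka θ) = wind τ (Qf ψ b (cl b F x (ka θ))) (Qd ψ b (cl b F x (ka θ))) / 2 ∧
      ν 0 ≤ Real.pi := by
    refine ⟨fun κ => ϕ κ + Real.pi, (hW.win.cont.mono hsub).add continuousOn_const,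
      fun κ hκ => ?_, ?_, ?_⟩
    · rw [← hW.win.ex κ (hsub hκ), ← Complex.exp_nat_mul]
      push_cast
      rw [show 2 * I * ((ϕ κ : ℂ) + Real.pi) = 2 * (I * ϕ κ) + 2 * Real.pi * I by ring,
        Complex.exp_add, Complex.exp_two_pi_mul_I, mul_one]
    · simp only
      rw [h.wind_QV hx1 hx2, hW.vala]
      ring
    · simp only
      rw [hW.win.zero, zero_add]
  have hPe : ∀ κ : ℝ, P.eval κ = (Pf ψ b τ g s κ).re := fun κ => by
    rw [← hp.Pev]; simp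
  have hr : (cv (ψ (b, 0)) ⬝ᵥ X0 ψ b g s (ka θ)).re = -ε * √(Yf ψ b g s (ka θ)).re := by
    have h1 := h.ang_hf_X hx1 hx2 (ka θ)
    rw [hf, h.w_sheet_ka hW hx hx2, dotProduct_smul, hx1, smul_eq_mul, mul_one] at h1
    exact (Complex.ofReal_injective h1).symm
  obtain ⟨t, ht, ht1, ht2⟩ : ∃ t : ℝ → ℝ, Continuous t ∧
      (∀ κ ≤ ka θ, t κ = (cv (ψ (b, 0)) ⬝ᵥ X0 ψ b g s κ).re) ∧
      ∀ κ, ka θ ≤ κ → t κ = -ε * √(Yf ψ b g s κ).re := by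
    refine ⟨fun κ => if κ ≤ ka θ then (cv (ψ (b, 0)) ⬝ᵥ X0 ψ b g s κ).re
      else -ε * √(Yf ψ b g s κ).re, ?_, fun κ hκ => if_pos hκ, fun κ hκ => ?_⟩
    · refine Continuous.if_le h.ang_cont_r (continuous_const.mul h.ang_cont_Y.sqrt)
        continuous_id continuous_const ?_
      rintro κ rfl
      exact hr
    · rcases hκ.eq_or_lt with rfl | hκ
      · exact (if_pos le_rfl).trans hr
      · exact if_neg hκ.not_ge
  obtain ⟨Θ, hΘ1, hΘ2⟩ : ∃ Θ : ℝ → ℝ, (∀ κ ≤ ka θ, Θ κ = Th1 ψ b τ θ F x κ) ∧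
      ∀ κ, ka θ ≤ κ → Θ κ = ν κ := by
    refine ⟨fun κ => if κ ≤ ka θ then Th1 ψ b τ θ F x κ else ν κ, fun κ hκ => if_pos hκ,
      fun κ hκ => ?_⟩
    rcases hκ.eq_or_lt with rfl | hκ
    · exact (if_pos le_rfl).trans ((h.cap.Th1_ka h.frame hx1 hx2).trans hν3.symm)
    · exact if_neg hκ.not_ge
  refine ⟨Θ, fun κ => Dk b τ F κ + I * alk ψ b τ g s F κ * t κ, ?_, ?_, fun κ hκ => ?_,
    fun κ _ => by simp, fun κ hκ => ?_, fun κ hκ hD => ?_, ?_, ?_, ?_⟩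
  · rw [← Iic_union_Icc_eq_Iic hka.le]
    exact ((h.cap.Th1_cont h.frame hx1 hx2).congr fun κ hκ => hΘ1 κ hκ).union_of_isClosed
      (hν1.congr fun κ hκ => hΘ2 κ hκ.1) isClosed_Iic isClosed_Icc
  · have h1 := h.cont_Dk
    have h2 := h.cont_alk
    fun_prop
  · rcases le_total κ (ka θ) with h1 | h1
    · rw [ht1 κ h1, ← h.ang_hf_M hx1 hx2]
      exact (h.cap.Th1_phase h.frame hx1 hx2 h1).1
    · rw [ht2 κ h1, ← norm_ne_zero_iff, h.ang_norm hε (hP κ ⟨h1, hκ⟩).1]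
      exact one_ne_zero
  · rcases le_total κ (ka θ) with h1 | h1
    · rw [ht1 κ h1, hΘ1 κ h1, ← h.ang_hf_M hx1 hx2]
      exact (h.cap.Th1_phase h.frame hx1 hx2 h1).2
    · rw [ht2 κ h1, hΘ2 κ h1, h.ang_norm hε (hP κ ⟨h1, hκ⟩).1, hν2 κ ⟨h1, hκ⟩]
      simp
  · have hq := h.quadD κ
    have hD2 : Dk b τ F κ ^ 2 < 1 := (sq_lt_one_iff_abs_lt_one _).2 hD
    have hαY : 0 < alk ψ b τ g s F κ ^ 2 * (Yf ψ b g s κ).re := by linarith
    have hα : 0 < alk ψ b τ g s F κ ^ 2 := by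
      rcases (sq_nonneg (alk ψ b τ g s F κ)).eq_or_lt with h0 | h0
      · rw [← h0, zero_mul] at hαY
        exact absurd hαY (lt_irrefl _)
      · exact h0
    have hY : 0 < (Yf ψ b g s κ).re := (mul_pos_iff_of_pos_left hα).1 hαY
    have him : (Dk b τ F κ + I * alk ψ b τ g s F κ * t κ : ℂ).im = alk ψ b τ g s F κ * t κ := by
      simp
    have hPt : t κ * (Pf ψ b τ g s κ).re < 0 := by
      rcases lt_or_ge κ (ka θ) with h1 | h1
      · rw [ht1 κ h1.le]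
        exact h.w_left_sign hW h1 hY
      · rw [ht2 κ h1]
        have h2 := mul_pos (Real.sqrt_pos.2 hY) (hP κ ⟨h1, hκ⟩).2
        linarith
    rw [him, hPe]
    have := mul_neg_of_pos_of_neg hα hPt
    linarith
  · simp [h.D_zero.1, h.D_zero.2]
  · rw [hΘ2 0 hka.le]
    exact hν4
  · obtain ⟨κ₁, hκ₁⟩ := h.cap.Th1_low h.frame hx1 hx2
    refine ⟨min κ₁ (ka θ), fun κ hκ => ?_⟩
    rw [hΘ1 κ (hκ.trans (min_le_right _ _))]
    exact hκ₁ κ (hκ.trans (min_le_left _ _))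

theorem genus_leO : g ≤ 1 := by
  obtain ⟨Y, P, R, hp⟩ := h.exists_polys h.P_real
  obtain ⟨Θ, m, hA⟩ := h.exists_angleO hW hp
  have hS := h.specO hW hp
  exact hS.count (hS.neg_unique hA)

end Setup

theorem Cap.short {ψ : ℝ × ℝ → V3} {a b τ θ : ℝ} (h : Cap ψ a b τ θ)
    (hLa : lenL ψ τ a < 2 * Real.pi * Real.sin θ) (hSa : lenS ψ b τ a < 2 * Real.pi * Real.sin θ)
    (hLb : lenL ψ τ b < 2 * Real.pi * Real.sin θ) (hSb : lenS ψ b τ b < 2 * Real.pi * Real.sin θ) :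
    ∃ e : V3, e ≠ 0 ∧ FoliatedAbout ψ a b e := by
  obtain ⟨g, s, hk⟩ := h.exists_kill
  obtain ⟨F, G, hF⟩ := exists_frame h.ann.hab h.ann.hτ h.pd_A fun p hp => h.per_A hp
  have hS : Setup ψ a b τ θ g s F G := ⟨h, hk, hF⟩
  obtain ⟨ε, ϕ, hW⟩ := hS.exists_wnd hLa hSa hLb hSb h.len_sum
  exact h.foliated_of_genus hk (hS.genus_leO hW)

end Pool.Agent.Lib.MP_c7e804_gt
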