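import Pool.Agent.Lib.MP_c7e804_gt.H43PD2

/-!
Calculus on the strip: holomorphic periodic functions.
-/

namespace Pool.Agent.Lib.MP_c7e804_gt

open Matrix Set Complex
open scoped ContDiff ComplexConjugate

section
variable {a b τ : ℝ} {f fu fv g gu gv : ℝ × ℝ → ℂ}

theorem hol_fderiv_mul {p : ℝ × ℝ} (hf : DifferentiableAt ℝ f p) (hg : DifferentiableAt ℝ g p)
    (w : ℝ × ℝ) : fderiv ℝ (fun r => f r * g r) p w =
      fderiv ℝ f p w * g p + f p * fderiv ℝ g p w := by
  rw [fderiv_fun_mul hf hg]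
  simp only [_root_.add_apply, _root_.smul_apply, smul_eq_mul]
  ring

theorem Hol.pd (h : Hol a b τ f) : PD a b f (du f) (fun p => I * du f p) :=
  (PD.of_sm h.sm).congr (fun _ _ => rfl) (fun _ _ => rfl) fun p hp => (h.cr p hp).symm

theorem Hol.const (c : ℂ) : Hol a b τ (fun _ => c) :=
  ⟨fun _ _ => contDiffAt_const, fun _ _ => by simp [du, dv], fun _ _ => rfl⟩

theorem Hol.add (h : Hol a b τ f) (h' : Hol a b τ g) : Hol a b τ (fun p => f p + g p) :=
  ⟨fun p hp => (h.sm p hp).add (h'.sm p hp), fun p hp => by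
    rw [((hasD_dv (sm_diff (h.sm p hp))).add (hasD_dv (sm_diff (h'.sm p hp)))).dv_eq,
      ((hasD_du (sm_diff (h.sm p hp))).add (hasD_du (sm_diff (h'.sm p hp)))).du_eq,
      h.cr p hp, h'.cr p hp, mul_add],
    fun p hp => by simp only [h.per p hp, h'.per p hp]⟩

theorem Hol.sub (h : Hol a b τ f) (h' : Hol a b τ g) : Hol a b τ (fun p => f p - g p) :=
  ⟨fun p hp => (h.sm p hp).sub (h'.sm p hp), fun p hp => by
    rw [((hasD_dv (sm_diff (h.sm p hp))).sub (hasD_dv (sm_diff (h'.sm p hp)))).dv_eq,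
      ((hasD_du (sm_diff (h.sm p hp))).sub (hasD_du (sm_diff (h'.sm p hp)))).du_eq,
      h.cr p hp, h'.cr p hp, mul_sub],
    fun p hp => by simp only [h.per p hp, h'.per p hp]⟩

theorem Hol.mul (h : Hol a b τ f) (h' : Hol a b τ g) : Hol a b τ (fun p => f p * g p) :=
  ⟨fun p hp => (h.sm p hp).mul (h'.sm p hp), fun p hp => by
    have e1 := h.cr p hp
    have e2 := h'.cr p hp
    simp only [du, dv] at e1 e2 ⊢
    rw [hol_fderiv_mul (sm_diff (h.sm p hp)) (sm_diff (h'.sm p hp)),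
      hol_fderiv_mul (sm_diff (h.sm p hp)) (sm_diff (h'.sm p hp)), e1, e2]
    ring,
    fun p hp => by simp only [h.per p hp, h'.per p hp]⟩

theorem Hol.const_mul (c : ℂ) (h : Hol a b τ f) : Hol a b τ (fun p => c * f p) :=
  (Hol.const c).mul h

theorem Hol.sum {ι : Type} (s : Finset ι) {f : ι → ℝ × ℝ → ℂ} (h : ∀ i ∈ s, Hol a b τ (f i)) :
    Hol a b τ (fun p => ∑ i ∈ s, f i p) := by
  classical
  induction s using Finset.induction_on with
  | empty => simpa using Hol.const 0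
  | insert i s hi ih =>
    simp only [Finset.sum_insert hi]
    exact (h i (Finset.mem_insert_self _ _)).add
      (ih fun j hj => h j (Finset.mem_insert_of_mem hj))

theorem Hol.du (hab : a < b) (h : Hol a b τ f) : Hol a b τ (du f) :=
  ⟨fun p hp => sm_du (h.sm p hp), fun p hp => by
    rw [← du_dv_comm (h.sm p hp)]
    have d := sm_diff (sm_du (h.sm p hp))
    have e := fderiv_congr_strip hab hp (sm_diff (sm_dv (h.sm p hp))) (d.const_mul I) h.cr
    rw [MP_c7e804_gt.du, e, hol_fderiv_mul (differentiableAt_const I) d]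
    simp [MP_c7e804_gt.du],
    Per.du hab (fun p hp => sm_diff (h.sm p hp)) h.per⟩

theorem du_const (c : ℂ) : du (fun _ : ℝ × ℝ => c) = fun _ => 0 := by
  funext p
  simp [du]

theorem Hol.du_add (h : Hol a b τ f) (h' : Hol a b τ g) {p : ℝ × ℝ} (hp : p ∈ strip a b) :
    MP_c7e804_gt.du (fun r => f r + g r) p = MP_c7e804_gt.du f p + MP_c7e804_gt.du g p :=
  ((hasD_du (sm_diff (h.sm p hp))).add (hasD_du (sm_diff (h'.sm p hp)))).du_eq

theorem Hol.du_sub (h : Hol a b τ f) (h' : Hol a b τ g) {p : ℝ × ℝ} (hp : p ∈ strip a b) :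
    MP_c7e804_gt.du (fun r => f r - g r) p = MP_c7e804_gt.du f p - MP_c7e804_gt.du g p :=
  ((hasD_du (sm_diff (h.sm p hp))).sub (hasD_du (sm_diff (h'.sm p hp)))).du_eq

theorem Hol.du_mul (h : Hol a b τ f) (h' : Hol a b τ g) {p : ℝ × ℝ} (hp : p ∈ strip a b) :
    MP_c7e804_gt.du (fun r => f r * g r) p =
      MP_c7e804_gt.du f p * g p + f p * MP_c7e804_gt.du g p :=
  hol_fderiv_mul (sm_diff (h.sm p hp)) (sm_diff (h'.sm p hp)) _

theorem Hol.du_const_mul (c : ℂ) (h : Hol a b τ f) {p : ℝ × ℝ} (hp : p ∈ strip a b) :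
    MP_c7e804_gt.du (fun r => c * f r) p = c * MP_c7e804_gt.du f p := by
  rw [(Hol.const c).du_mul h hp, du_const]
  simp

theorem Hol.du_sum {ι : Type} (s : Finset ι) {f : ι → ℝ × ℝ → ℂ} (h : ∀ i ∈ s, Hol a b τ (f i))
    {p : ℝ × ℝ} (hp : p ∈ strip a b) :
    MP_c7e804_gt.du (fun r => ∑ i ∈ s, f i r) p = ∑ i ∈ s, MP_c7e804_gt.du (f i) p := by
  simp only [MP_c7e804_gt.du]
  rw [fderiv_fun_sum fun i hi => sm_diff ((h i hi).sm p hp), _root_.sum_apply]

/-- functions that agree on the strip have the same `u`-derivative there -/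
theorem Hol.du_congr (hab : a < b) (h : Hol a b τ f) (h' : Hol a b τ g)
    (e : ∀ p ∈ strip a b, f p = g p) :
    ∀ p ∈ strip a b, MP_c7e804_gt.du f p = MP_c7e804_gt.du g p := fun p hp => by
  simp only [MP_c7e804_gt.du]
  rw [fderiv_congr_strip hab hp (sm_diff (h.sm p hp)) (sm_diff (h'.sm p hp)) e]

end

end Pool.Agent.Lib.MP_c7e804_gt
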