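import Pool.Agent.Lib.MP_c7e804_gt.H43Basic

/-!
Calculus on the strip: algebraic rules for PD.
-/

namespace Pool.Agent.Lib.MP_c7e804_gt

open Matrix Set Complex
open scoped ContDiff ComplexConjugate

section
variable {F : Type} [NormedAddCommGroup F] [NormedSpace ℝ F] {a b τ : ℝ}
  {f fu fv g gu gv : ℝ × ℝ → F}

theorem PD.of_sm (h : ∀ p ∈ strip a b, ContDiffAt ℝ ∞ f p) : PD a b f (du f) (dv f) :=
  ⟨fun p hp => (h p hp).continuousAt.continuousWithinAt,
    fun p hp => (sm_du (h p hp)).continuousAt.continuousWithinAt,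
    fun p hp => (sm_dv (h p hp)).continuousAt.continuousWithinAt,
    fun p hp => (hasDerivAt_line_u (u := p.1) (v := p.2) (sm_diff (h p hp))).hasDerivWithinAt,
    fun p hp => hasDerivAt_line_v (u := p.1) (v := p.2) (sm_diff (h p hp))⟩

theorem PD.congr (h : PD a b f fu fv) (h1 : ∀ p ∈ strip a b, g p = f p)
    (h2 : ∀ p ∈ strip a b, gu p = fu p) (h3 : ∀ p ∈ strip a b, gv p = fv p) :
    PD a b g gu gv := by
  refine ⟨h.cont.congr h1, h.contu.congr h2, h.contv.congr h3, fun p hp => ?_, fun p hp => ?_⟩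
  · rw [h2 p hp]
    exact (h.hu p hp).congr (fun x hx => h1 (x, p.2) hx) (h1 (p.1, p.2) hp)
  · rw [h3 p hp, show (fun y => g (p.1, y)) = fun y => f (p.1, y) from
      funext fun y => h1 (p.1, y) hp]
    exact h.hv p hp

theorem PD.const (c : F) : PD a b (fun _ => c) (fun _ => 0) (fun _ => 0) :=
  ⟨continuousOn_const, continuousOn_const, continuousOn_const,
    fun _ _ => hasDerivWithinAt_const _ _ _, fun _ _ => hasDerivAt_const _ _⟩

theorem PD.add (h : PD a b f fu fv) (h' : PD a b g gu gv) :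
    PD a b (fun p => f p + g p) (fun p => fu p + gu p) (fun p => fv p + gv p) :=
  ⟨h.cont.add h'.cont, h.contu.add h'.contu, h.contv.add h'.contv,
    fun p hp => (h.hu p hp).add (h'.hu p hp), fun p hp => (h.hv p hp).add (h'.hv p hp)⟩

theorem PD.sub (h : PD a b f fu fv) (h' : PD a b g gu gv) :
    PD a b (fun p => f p - g p) (fun p => fu p - gu p) (fun p => fv p - gv p) :=
  ⟨h.cont.sub h'.cont, h.contu.sub h'.contu, h.contv.sub h'.contv,
    fun p hp => (h.hu p hp).sub (h'.hu p hp), fun p hp => (h.hv p hp).sub (h'.hv p hp)⟩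

theorem PD.neg (h : PD a b f fu fv) :
    PD a b (fun p => -f p) (fun p => -fu p) (fun p => -fv p) :=
  ⟨h.cont.neg, h.contu.neg, h.contv.neg, fun p hp => (h.hu p hp).neg, fun p hp => (h.hv p hp).neg⟩

theorem PD.clm {G : Type} [NormedAddCommGroup G] [NormedSpace ℝ G] (L : F →L[ℝ] G)
    (h : PD a b f fu fv) :
    PD a b (fun p => L (f p)) (fun p => L (fu p)) (fun p => L (fv p)) :=
  ⟨L.continuous.comp_continuousOn h.cont, L.continuous.comp_continuousOn h.contu,
    L.continuous.comp_continuousOn h.contv,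
    fun p hp => L.hasFDerivAt.comp_hasDerivWithinAt p.1 (h.hu p hp),
    fun p hp => L.hasFDerivAt.comp_hasDerivAt p.2 (h.hv p hp)⟩

theorem PD.smul {c cu cv : ℝ × ℝ → ℝ} (hc : PD a b c cu cv) (h : PD a b f fu fv) :
    PD a b (fun p => c p • f p) (fun p => c p • fu p + cu p • f p)
      (fun p => c p • fv p + cv p • f p) :=
  ⟨hc.cont.smul h.cont, (hc.cont.smul h.contu).add (hc.contu.smul h.cont),
    (hc.cont.smul h.contv).add (hc.contv.smul h.cont),
    fun p hp => (hc.hu p hp).smul (h.hu p hp), fun p hp => (hc.hv p hp).smul (h.hv p hp)⟩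

theorem PD.sum {ι : Type} (s : Finset ι) {f fu fv : ι → ℝ × ℝ → F}
    (h : ∀ i ∈ s, PD a b (f i) (fu i) (fv i)) :
    PD a b (fun p => ∑ i ∈ s, f i p) (fun p => ∑ i ∈ s, fu i p) (fun p => ∑ i ∈ s, fv i p) :=
  ⟨continuousOn_finsetSum s fun i hi => (h i hi).cont,
    continuousOn_finsetSum s fun i hi => (h i hi).contu,
    continuousOn_finsetSum s fun i hi => (h i hi).contv,
    fun p hp => HasDerivWithinAt.fun_sum fun i hi => (h i hi).hu p hp,
    fun p hp => HasDerivAt.fun_sum fun i hi => (h i hi).hv p hp⟩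

theorem PD.pi {ι : Type} [Fintype ι] {f fu fv : ℝ × ℝ → ι → F} :
    PD a b f fu fv ↔
      ∀ i, PD a b (fun p => f p i) (fun p => fu p i) (fun p => fv p i) :=
  ⟨fun h i => ⟨continuousOn_pi.1 h.cont i, continuousOn_pi.1 h.contu i,
      continuousOn_pi.1 h.contv i, fun p hp => hasDerivWithinAt_pi.1 (h.hu p hp) i,
      fun p hp => hasDerivAt_pi.1 (h.hv p hp) i⟩,
    fun h => ⟨continuousOn_pi.2 fun i => (h i).cont, continuousOn_pi.2 fun i => (h i).contu,
      continuousOn_pi.2 fun i => (h i).contv,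
      fun p hp => hasDerivWithinAt_pi.2 fun i => (h i).hu p hp,
      fun p hp => hasDerivAt_pi.2 fun i => (h i).hv p hp⟩⟩

theorem PD.fst : PD a b (fun p => p.1) (fun _ => (1 : ℝ)) (fun _ => 0) :=
  ⟨continuousOn_fst, continuousOn_const, continuousOn_const,
    fun _ _ => hasDerivWithinAt_id _ _, fun _ _ => hasDerivAt_const _ _⟩

theorem PD.snd : PD a b (fun p => p.2) (fun _ => (0 : ℝ)) (fun _ => 1) :=
  ⟨continuousOn_snd, continuousOn_const, continuousOn_const,
    fun _ _ => hasDerivWithinAt_const _ _ _, fun _ _ => hasDerivAt_id _⟩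

/-- composition with a `C¹` function of one real variable -/
theorem PD.comp {f fu fv : ℝ × ℝ → ℝ} (h : PD a b f fu fv) {G G' : ℝ → ℝ}
    (hG : ∀ t, HasDerivAt G (G' t) t) (hG' : Continuous G') :
    PD a b (fun p => G (f p)) (fun p => G' (f p) * fu p) (fun p => G' (f p) * fv p) := by
  have hc : Continuous G := continuous_iff_continuousAt.2 fun t => (hG t).continuousAt
  exact ⟨hc.comp_continuousOn h.cont, (hG'.comp_continuousOn h.cont).mul h.contu,
    (hG'.comp_continuousOn h.cont).mul h.contv,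
    fun p hp => (hG (f p)).comp_hasDerivWithinAt p.1 (h.hu p hp),
    fun p hp => (hG (f p)).comp p.2 (h.hv p hp)⟩

theorem PD.unique_u (hab : a < b) (h : PD a b f fu fv) (h' : PD a b f gu gv) :
    ∀ p ∈ strip a b, fu p = gu p := fun p hp =>
  (uniqueDiffOn_Icc hab p.1 hp).eq_deriv _ (h.hu p hp) (h'.hu p hp)

theorem PD.unique_v (h : PD a b f fu fv) (h' : PD a b f gu gv) :
    ∀ p ∈ strip a b, fv p = gv p := fun p hp =>
  (h.hv p hp).unique (h'.hv p hp)

theorem PD.shift (h : PD a b f fu fv) (t : ℝ) :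
    PD a b (fun p => f (p.1, p.2 + t)) (fun p => fu (p.1, p.2 + t))
      (fun p => fv (p.1, p.2 + t)) := by
  have hc : ContinuousOn (fun p : ℝ × ℝ => ((p.1, p.2 + t) : ℝ × ℝ)) (strip a b) := by fun_prop
  have hm : MapsTo (fun p : ℝ × ℝ => ((p.1, p.2 + t) : ℝ × ℝ)) (strip a b) (strip a b) :=
    fun p hp => hp
  exact ⟨h.cont.comp hc hm, h.contu.comp hc hm, h.contv.comp hc hm,
    fun p hp => h.hu (p.1, p.2 + t) hp,
    fun p hp => HasDerivAt.comp_add_const p.2 t (h.hv (p.1, p.2 + t) hp)⟩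

theorem PD.per_u (hab : a < b) (h : PD a b f fu fv)
    (hp : ∀ p ∈ strip a b, f (p.1, p.2 + τ) = f p) :
    ∀ p ∈ strip a b, fu (p.1, p.2 + τ) = fu p :=
  PD.unique_u hab ((h.shift τ).congr (fun p hp' => (hp p hp').symm) (fun _ _ => rfl)
    (fun _ _ => rfl)) h

theorem PD.per_v (h : PD a b f fu fv) (hp : ∀ p ∈ strip a b, f (p.1, p.2 + τ) = f p) :
    ∀ p ∈ strip a b, fv (p.1, p.2 + τ) = fv p :=
  PD.unique_v ((h.shift τ).congr (fun p hp' => (hp p hp').symm) (fun _ _ => rfl)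
    (fun _ _ => rfl)) h

theorem cont_line_v (h : ContinuousOn f (strip a b)) {u : ℝ} (hu : u ∈ Icc a b) :
    Continuous (fun v => f (u, v)) :=
  h.comp_continuous (f := fun v : ℝ => ((u, v) : ℝ × ℝ)) (by fun_prop) fun _ => hu

theorem cont_line_u (h : ContinuousOn f (strip a b)) (v : ℝ) :
    ContinuousOn (fun u => f (u, v)) (Icc a b) :=
  h.comp (f := fun u : ℝ => ((u, v) : ℝ × ℝ)) (by fun_prop) fun _ hu => hu

/-- a continuous periodic function on the strip is bounded -/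
theorem bdd_of_per (hτ : 0 < τ) (h : ContinuousOn f (strip a b))
    (hp : ∀ p ∈ strip a b, f (p.1, p.2 + τ) = f p) : ∃ C, ∀ p ∈ strip a b, ‖f p‖ ≤ C := by
  obtain ⟨C, hC⟩ := (isCompact_Icc.prod isCompact_Icc :
    IsCompact (Icc a b ×ˢ Icc (0 : ℝ) τ)).exists_bound_of_continuousOn
    (h.mono fun p hp => hp.1)
  refine ⟨C, fun p hp' => ?_⟩
  have hper : Function.Periodic (fun v => f (p.1, v)) τ := fun v => hp (p.1, v) hp'
  obtain ⟨y, hy, e⟩ := hper.exists_mem_Ico₀ hτ p.2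
  have e' : f p = f (p.1, y) := e
  rw [e']
  exact hC (p.1, y) ⟨hp', Ico_subset_Icc_self hy⟩

/-- a continuous periodic positive function on a line is bounded below -/
theorem lower_of_per (hτ : 0 < τ) {f : ℝ → ℝ} (h : Continuous f) (hp : ∀ v, f (v + τ) = f v)
    (h0 : ∀ v, 0 < f v) : ∃ c, 0 < c ∧ ∀ v, c ≤ f v := by
  obtain ⟨x, -, hx⟩ := isCompact_Icc.exists_isMinOn (nonempty_Icc.2 hτ.le) h.continuousOn
  refine ⟨f x, h0 x, fun v => ?_⟩
  obtain ⟨y, hy, e⟩ := Function.Periodic.exists_mem_Ico₀ (f := f) hp hτ v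
  rw [e]
  exact hx (Ico_subset_Icc_self hy)

end

end Pool.Agent.Lib.MP_c7e804_gt
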