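import Pool.Agent.Lib.MP_c7e804_gt.H43PD1

/-!
Calculus on the strip: complex valued functions and matrices.
-/

namespace Pool.Agent.Lib.MP_c7e804_gt

open Matrix Set Complex
open scoped ContDiff ComplexConjugate

section
variable {a b τ : ℝ} {f fu fv g gu gv : ℝ × ℝ → ℂ}

theorem PD.mul (h : PD a b f fu fv) (h' : PD a b g gu gv) :
    PD a b (fun p => f p * g p) (fun p => fu p * g p + f p * gu p)
      (fun p => fv p * g p + f p * gv p) := 
  ⟨h.cont.mul h'.cont, (h.contu.mul h'.cont).add (h.cont.mul h'.contu),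
    (h.contv.mul h'.cont).add (h.cont.mul h'.contv),
    fun p hp => (h.hu p hp).mul (h'.hu p hp), fun p hp => (h.hv p hp).mul (h'.hv p hp)⟩

theorem PD.rmul {f fu fv g gu gv : ℝ × ℝ → ℝ} (h : PD a b f fu fv) (h' : PD a b g gu gv) :
    PD a b (fun p => f p * g p) (fun p => fu p * g p + f p * gu p)
      (fun p => fv p * g p + f p * gv p) := 
  ⟨h.cont.mul h'.cont, (h.contu.mul h'.cont).add (h.cont.mul h'.contu),
    (h.contv.mul h'.cont).add (h.cont.mul h'.contv),
    fun p hp => (h.hu p hp).mul (h'.hu p hp), fun p hp => (h.hv p hp).mul (h'.hv p hp)⟩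

theorem PD.const_mul (c : ℂ) (h : PD a b f fu fv) :
    PD a b (fun p => c * f p) (fun p => c * fu p) (fun p => c * fv p) := 
  ((PD.const c).mul h).congr (fun _ _ => rfl) (fun _ _ => by simp) (fun _ _ => by simp)

theorem PD.conj (h : PD a b f fu fv) :
    PD a b (fun p => conj (f p)) (fun p => conj (fu p)) (fun p => conj (fv p)) := 
  (h.clm (Complex.conjCLE : ℂ →L[ℝ] ℂ)).congr (fun _ _ => by simp) (fun _ _ => by simp)
    (fun _ _ => by simp)

theorem PD.re (h : PD a b f fu fv) :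
    PD a b (fun p => (f p).re) (fun p => (fu p).re) (fun p => (fv p).re) := 
  (h.clm Complex.reCLM).congr (fun _ _ => by simp) (fun _ _ => by simp) (fun _ _ => by simp)

theorem PD.im (h : PD a b f fu fv) :
    PD a b (fun p => (f p).im) (fun p => (fu p).im) (fun p => (fv p).im) := 
  (h.clm Complex.imCLM).congr (fun _ _ => by simp) (fun _ _ => by simp) (fun _ _ => by simp)

theorem PD.ofReal {f fu fv : ℝ × ℝ → ℝ} (h : PD a b f fu fv) :
    PD a b (fun p => (f p : ℂ)) (fun p => (fu p : ℂ)) (fun p => (fv p : ℂ)) := 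
  (h.clm Complex.ofRealCLM).congr (fun _ _ => by simp) (fun _ _ => by simp) (fun _ _ => by simp)

theorem PD.inv (h : PD a b f fu fv) (h0 : ∀ p ∈ strip a b, f p ≠ 0) :
    PD a b (fun p => (f p)⁻¹) (fun p => -fu p / f p ^ 2) (fun p => -fv p / f p ^ 2) := 
  ⟨h.cont.inv₀ h0, h.contu.neg.div (h.cont.pow 2) (fun p hp => pow_ne_zero 2 (h0 p hp)),
    h.contv.neg.div (h.cont.pow 2) (fun p hp => pow_ne_zero 2 (h0 p hp)),
    fun p hp => (h.hu p hp).inv (h0 p hp), fun p hp => (h.hv p hp).inv (h0 p hp)⟩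

theorem PD.dot {n : ℕ} {x xu xv y yu yv : ℝ × ℝ → Fin n → ℂ} (h : PD a b x xu xv)
    (h' : PD a b y yu yv) :
    PD a b (fun p => x p ⬝ᵥ y p) (fun p => xu p ⬝ᵥ y p + x p ⬝ᵥ yu p)
      (fun p => xv p ⬝ᵥ y p + x p ⬝ᵥ yv p) := 
  (PD.sum Finset.univ (fun i _ => (PD.pi.1 h i).mul (PD.pi.1 h' i))).congr
    (fun _ _ => by simp [dotProduct])
    (fun _ _ => by simp [dotProduct, Finset.sum_add_distrib])
    (fun _ _ => by simp [dotProduct, Finset.sum_add_distrib])

theorem PD.csmul {n : ℕ} {x xu xv : ℝ × ℝ → Fin n → ℂ} (h : PD a b f fu fv) (h' : PD a b x xu xv) :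
    PD a b (fun p => f p • x p) (fun p => fu p • x p + f p • xu p)
      (fun p => fv p • x p + f p • xv p) := 
  PD.pi.2 fun i => (h.mul (PD.pi.1 h' i)).congr (fun _ _ => by simp) (fun _ _ => by simp)
    (fun _ _ => by simp)

theorem PD.star {n : ℕ} {x xu xv : ℝ × ℝ → Fin n → ℂ} (h : PD a b x xu xv) :
    PD a b (fun p => star (x p)) (fun p => star (xu p)) (fun p => star (xv p)) := 
  PD.pi.2 fun i => (PD.pi.1 h i).conj.congr (fun _ _ => by simp) (fun _ _ => by simp)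
    (fun _ _ => by simp)

theorem PD.cv {x xu xv : ℝ × ℝ → V3} (h : PD a b x xu xv) :
    PD a b (fun p => cv (x p)) (fun p => cv (xu p)) (fun p => cv (xv p)) := 
  PD.pi.2 fun i => (PD.pi.1 h i).ofReal.congr (fun _ _ => rfl) (fun _ _ => rfl)
    (fun _ _ => rfl)

theorem PD.br {x xu xv y yu yv : ℝ × ℝ → C2} (h : PD a b x xu xv) (h' : PD a b y yu yv) :
    PD a b (fun p => br (x p) (y p)) (fun p => br (xu p) (y p) + br (x p) (yu p))
      (fun p => br (xv p) (y p) + br (x p) (yv p)) := 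
  (((PD.pi.1 h 0).mul (PD.pi.1 h' 1)).sub ((PD.pi.1 h 1).mul (PD.pi.1 h' 0))).congr
    (fun _ _ => rfl)
    (fun _ _ => by simp only [Pool.Agent.Lib.MP_c7e804_gt.br]; ring)
    (fun _ _ => by simp only [Pool.Agent.Lib.MP_c7e804_gt.br]; ring)

theorem PDm.sg {x xu xv : ℝ × ℝ → C3} (h : PD a b x xu xv) :
    PDm a b (fun p => sg (x p)) (fun p => sg (xu p)) (fun p => sg (xv p)) := by
  intro i j
  fin_cases i <;> fin_cases j
  · exact (PD.pi.1 h 2).congr (fun _ _ => rfl) (fun _ _ => rfl) (fun _ _ => rfl)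
  · exact ((PD.pi.1 h 0).sub ((PD.pi.1 h 1).const_mul I)).congr (fun _ _ => rfl)
      (fun _ _ => rfl) (fun _ _ => rfl)
  · exact ((PD.pi.1 h 0).add ((PD.pi.1 h 1).const_mul I)).congr (fun _ _ => rfl)
      (fun _ _ => rfl) (fun _ _ => rfl)
  · exact (PD.pi.1 h 2).neg.congr (fun _ _ => rfl) (fun _ _ => rfl) (fun _ _ => rfl)

theorem PDm.congr {M Mu Mv K Ku Kv : ℝ × ℝ → M2} (h : PDm a b M Mu Mv)
    (h1 : ∀ p ∈ strip a b, K p = M p) (h2 : ∀ p ∈ strip a b, Ku p = Mu p)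
    (h3 : ∀ p ∈ strip a b, Kv p = Mv p) : PDm a b K Ku Kv := 
  fun i j => (h i j).congr (fun p hp => by rw [h1 p hp]) (fun p hp => by rw [h2 p hp])
    (fun p hp => by rw [h3 p hp])

theorem PDm.const (M : M2) : PDm a b (fun _ => M) (fun _ => 0) (fun _ => 0) := 
  fun i j => (PD.const (M i j)).congr (fun _ _ => rfl) (fun _ _ => rfl) (fun _ _ => rfl)

theorem PDm.add {M Mu Mv K Ku Kv : ℝ × ℝ → M2} (h : PDm a b M Mu Mv) (h' : PDm a b K Ku Kv) :
    PDm a b (fun p => M p + K p) (fun p => Mu p + Ku p) (fun p => Mv p + Kv p) := 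
  fun i j => ((h i j).add (h' i j)).congr (fun _ _ => rfl) (fun _ _ => rfl) (fun _ _ => rfl)

theorem PDm.const_smul (c : ℂ) {M Mu Mv : ℝ × ℝ → M2} (h : PDm a b M Mu Mv) :
    PDm a b (fun p => c • M p) (fun p => c • Mu p) (fun p => c • Mv p) := 
  fun i j => ((h i j).const_mul c).congr (fun _ _ => rfl) (fun _ _ => rfl) (fun _ _ => rfl)

theorem PDm.mul {M Mu Mv K Ku Kv : ℝ × ℝ → M2} (h : PDm a b M Mu Mv) (h' : PDm a b K Ku Kv) :
    PDm a b (fun p => M p * K p) (fun p => Mu p * K p + M p * Ku p)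
      (fun p => Mv p * K p + M p * Kv p) := 
  fun i j => (PD.sum Finset.univ (fun k _ => (h i k).mul (h' k j))).congr
    (fun _ _ => by simp only [Matrix.mul_apply])
    (fun _ _ => by simp only [Matrix.add_apply, Matrix.mul_apply, Finset.sum_add_distrib])
    (fun _ _ => by simp only [Matrix.add_apply, Matrix.mul_apply, Finset.sum_add_distrib])

theorem PDm.ct {M Mu Mv : ℝ × ℝ → M2} (h : PDm a b M Mu Mv) :
    PDm a b (fun p => (M p)ᴴ) (fun p => (Mu p)ᴴ) (fun p => (Mv p)ᴴ) := 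
  fun i j => (h j i).conj.congr (fun _ _ => rfl) (fun _ _ => rfl) (fun _ _ => rfl)

theorem PDm.adj {M Mu Mv : ℝ × ℝ → M2} (h : PDm a b M Mu Mv) :
    PDm a b (fun p => (M p).adjugate) (fun p => (Mu p).adjugate)
      (fun p => (Mv p).adjugate) := by
  intro i j
  fin_cases i <;> fin_cases j
  · exact (h 1 1).congr (fun _ _ => by simp [Matrix.adjugate_fin_two])
      (fun _ _ => by simp [Matrix.adjugate_fin_two]) (fun _ _ => by simp [Matrix.adjugate_fin_two])
  · exact (h 0 1).neg.congr (fun _ _ => by simp [Matrix.adjugate_fin_two])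
      (fun _ _ => by simp [Matrix.adjugate_fin_two]) (fun _ _ => by simp [Matrix.adjugate_fin_two])
  · exact (h 1 0).neg.congr (fun _ _ => by simp [Matrix.adjugate_fin_two])
      (fun _ _ => by simp [Matrix.adjugate_fin_two]) (fun _ _ => by simp [Matrix.adjugate_fin_two])
  · exact (h 0 0).congr (fun _ _ => by simp [Matrix.adjugate_fin_two])
      (fun _ _ => by simp [Matrix.adjugate_fin_two]) (fun _ _ => by simp [Matrix.adjugate_fin_two])

theorem PDm.trace {M Mu Mv : ℝ × ℝ → M2} (h : PDm a b M Mu Mv) :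
    PD a b (fun p => (M p).trace) (fun p => (Mu p).trace) (fun p => (Mv p).trace) := 
  ((h 0 0).add (h 1 1)).congr (fun _ _ => by simp [Matrix.trace_fin_two])
    (fun _ _ => by simp [Matrix.trace_fin_two]) (fun _ _ => by simp [Matrix.trace_fin_two])

theorem PDm.mulVec {M Mu Mv : ℝ × ℝ → M2} {x xu xv : ℝ × ℝ → C2} (h : PDm a b M Mu Mv)
    (h' : PD a b x xu xv) :
    PD a b (fun p => M p *ᵥ x p) (fun p => Mu p *ᵥ x p + M p *ᵥ xu p)
      (fun p => Mv p *ᵥ x p + M p *ᵥ xv p) := 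
  PD.pi.2 fun i => (PD.sum Finset.univ (fun k _ => (h i k).mul (PD.pi.1 h' k))).congr
    (fun _ _ => by simp only [Matrix.mulVec, dotProduct])
    (fun _ _ => by simp only [Pi.add_apply, Matrix.mulVec, dotProduct, Finset.sum_add_distrib])
    (fun _ _ => by simp only [Pi.add_apply, Matrix.mulVec, dotProduct, Finset.sum_add_distrib])

theorem PDm.hf {M Mu Mv : ℝ × ℝ → M2} {x xu xv y yu yv : ℝ × ℝ → C2} (hx : PD a b x xu xv)
    (h : PDm a b M Mu Mv) (hy : PD a b y yu yv) :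
    PD a b (fun p => hf (x p) (M p) (y p))
      (fun p => hf (xu p) (M p) (y p) + hf (x p) (Mu p) (y p) + hf (x p) (M p) (yu p))
      (fun p => hf (xv p) (M p) (y p) + hf (x p) (Mv p) (y p) + hf (x p) (M p) (yv p)) := 
  (hx.star.dot (h.mulVec hy)).congr (fun _ _ => rfl)
    (fun _ _ => by simp only [Pool.Agent.Lib.MP_c7e804_gt.hf, dotProduct_add]; ring)
    (fun _ _ => by simp only [Pool.Agent.Lib.MP_c7e804_gt.hf, dotProduct_add]; ring)

end

end Pool.Agent.Lib.MP_c7e804_gt
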