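import Pool.Agent.Lib.MP_c7e804_gt.H43Poin2

/-!
The Poincare inequality of the sphere in Mercator coordinates.
-/

namespace Pool.Agent.Lib.MP_c7e804_gt

open Matrix Set Complex
open scoped ContDiff ComplexConjugate

theorem poin_cont_int {g : ℝ × ℝ → ℝ} (hg : Continuous g) (y y' : ℝ) :
    Continuous fun t => ∫ φ in y..y', g (t, φ) :=
  intervalIntegral.continuous_parametric_intervalIntegral_of_continuous'
    (f := fun t φ => g (t, φ)) hg y y'

theorem poin_cont_int' {g : ℝ × ℝ → ℝ} (hg : Continuous g) (x x' : ℝ) :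
    Continuous fun φ => ∫ t in x..x', g (t, φ) :=
  intervalIntegral.continuous_parametric_intervalIntegral_of_continuous'
    (f := fun φ t => g (t, φ)) (hg.comp (continuous_snd.prodMk continuous_fst)) x x'

theorem poin_fubini {g : ℝ × ℝ → ℝ} (hg : Continuous g) (x x' y y' : ℝ) :
    ∫ r in x..x', ∫ t in y..y', g (r, t) = ∫ t in y..y', ∫ r in x..x', g (r, t) :=
  fubini_strip (a := min x x') (b := max x x') hg.continuousOn
    ⟨min_le_left _ _, le_max_left _ _⟩ ⟨min_le_right _ _, le_max_right _ _⟩ y y'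

theorem poin_cont_du {F : ℝ × ℝ → ℝ} (hF : ContDiff ℝ 1 F) : Continuous (du F) :=
  (hF.continuous_fderiv (by simp)).clm_apply continuous_const

theorem poin_cont_dv {F : ℝ × ℝ → ℝ} (hF : ContDiff ℝ 1 F) : Continuous (dv F) :=
  (hF.continuous_fderiv (by simp)).clm_apply continuous_const

theorem poin_deriv {F : ℝ × ℝ → ℝ} (hF : ContDiff ℝ 1 F) (y y' t : ℝ) :
    HasDerivAt (fun x => ∫ r in y..y', F (x, r)) (∫ r in y..y', du F (t, r)) t := by
  have hd : Differentiable ℝ F := hF.differentiable (by simp)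
  have hPD : PD (t - 1) (t + 1) F (du F) (dv F) :=
    ⟨hF.continuous.continuousOn, (poin_cont_du hF).continuousOn, (poin_cont_dv hF).continuousOn,
      fun p _ => (hasDerivAt_line_u (hd (p.1, p.2))).hasDerivWithinAt,
      fun p _ => hasDerivAt_line_v (hd (p.1, p.2))⟩
  exact (hPD.deriv_int_v y y' ⟨by linarith, by linarith⟩).hasDerivAt
    (Icc_mem_nhds (by linarith) (by linarith))

/-- variance identity -/
theorem poin_var {g : ℝ → ℝ} (hg : Continuous g) {P : ℝ} (hP : 0 < P) :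
    ∫ φ in (0 : ℝ)..P, (g φ - (∫ s in (0 : ℝ)..P, g s) / P) ^ 2
      = (∫ φ in (0 : ℝ)..P, g φ ^ 2) - P * ((∫ s in (0 : ℝ)..P, g s) / P) ^ 2 := by
  set μ := (∫ s in (0 : ℝ)..P, g s) / P with hμ
  have h1 : ∫ s in (0 : ℝ)..P, g s = P * μ := by rw [hμ]; field_simp
  have h2 : ∀ φ, (g φ - μ) ^ 2 = g φ ^ 2 - 2 * μ * g φ + μ ^ 2 := fun φ => by ring
  simp_rw [h2]
  rw [intervalIntegral.integral_add, intervalIntegral.integral_sub,
    intervalIntegral.integral_const_mul, intervalIntegral.integral_const, h1]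
  · simp only [sub_zero, smul_eq_mul]; ring
  · exact (hg.pow 2).intervalIntegrable _ _
  · exact (continuous_const.mul hg).intervalIntegrable _ _
  · exact ((hg.pow 2).sub (continuous_const.mul hg)).intervalIntegrable _ _
  · exact continuous_const.intervalIntegrable _ _

/-- splitting of the energy integral -/
theorem poin_split {f g h : ℝ → ℝ} (hf : Continuous f) (hg : Continuous g) (hh : Continuous h)
    (c y y' : ℝ) :
    ∫ φ in y..y', (f φ ^ 2 + g φ ^ 2 - 2 * h φ ^ 2 / c)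
      = (∫ φ in y..y', f φ ^ 2) + (∫ φ in y..y', g φ ^ 2) - 2 * (∫ φ in y..y', h φ ^ 2) / c := by
  rw [intervalIntegral.integral_sub, intervalIntegral.integral_add,
    intervalIntegral.integral_div, intervalIntegral.integral_const_mul]
  · exact (hf.pow 2).intervalIntegrable _ _
  · exact (hg.pow 2).intervalIntegrable _ _
  · exact ((hf.pow 2).add (hg.pow 2)).intervalIntegrable _ _
  · exact ((continuous_const.mul (hh.pow 2)).div_const c).intervalIntegrable _ _

theorem poincare {X Pd : ℝ} (hX : 0 < X) (h0 : 0 < Pd) (h1 : Pd ≤ 2 * Real.pi) :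
    ∃ c : ℝ, 0 < c ∧ ∀ F : ℝ × ℝ → ℝ, ContDiff ℝ 1 F → (∀ w : ℝ × ℝ, F (w.1, w.2 + Pd) = F w) →
      (∀ φ, F (-X, φ) = 0) → (∀ φ, F (X, φ) = 0) → ∫ φ in (0 : ℝ)..Pd, F (0, φ) = 0 →
      c * ∫ t in (-X)..X, ∫ φ in (0 : ℝ)..Pd, F (t, φ) ^ 2
        ≤ ∫ t in (-X)..X, ∫ φ in (0 : ℝ)..Pd,
          (du F (t, φ) ^ 2 + dv F (t, φ) ^ 2 - 2 * F (t, φ) ^ 2 / Real.cosh t ^ 2) := by
  obtain ⟨c1, hc1, H1⟩ := mode_one hX
  obtain ⟨c0, hc0, H0⟩ := mode_zero hX
  refine ⟨min c0 c1, lt_min hc0 hc1, fun F hF hper hl hr hz => ?_⟩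
  have hd : Differentiable ℝ F := hF.differentiable (by simp)
  have cF : Continuous F := hF.continuous
  have cu : Continuous (du F) := poin_cont_du hF
  have cv : Continuous (dv F) := poin_cont_dv hF
  have hXX : -X ≤ X := by linarith
  have ccosh : Continuous fun t : ℝ => Real.cosh t ^ 2 := Real.continuous_cosh.pow 2
  have ncosh : ∀ t : ℝ, Real.cosh t ^ 2 ≠ 0 := fun t => pow_ne_zero 2 (Real.cosh_pos t).ne'
  -- the mean and its derivative
  set m : ℝ → ℝ := fun t => (∫ φ in (0 : ℝ)..Pd, F (t, φ)) / Pd with hm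
  set m' : ℝ → ℝ := fun t => (∫ φ in (0 : ℝ)..Pd, du F (t, φ)) / Pd with hm'
  have dm : ∀ t, HasDerivAt m (m' t) t := fun t => (poin_deriv hF 0 Pd t).div_const Pd
  have cm : Continuous m := (poin_cont_int cF 0 Pd).div_const Pd
  have cm' : Continuous m' := (poin_cont_int cu 0 Pd).div_const Pd
  have ml : m (-X) = 0 := by simp [hm, hl]
  have mr : m X = 0 := by simp [hm, hr]
  have mz : m 0 = 0 := by simp only [hm]; rw [hz]; simp
  set G : ℝ × ℝ → ℝ := fun p => F p - m p.1 with hG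
  set Gu : ℝ × ℝ → ℝ := fun p => du F p - m' p.1 with hGu
  have cG : Continuous G := cF.sub (cm.comp continuous_fst)
  have cGu : Continuous Gu := cu.sub (cm'.comp continuous_fst)
  have line : ∀ {g : ℝ × ℝ → ℝ}, Continuous g → ∀ t : ℝ, Continuous fun φ : ℝ => g (t, φ) :=
    fun hg t => hg.comp (continuous_const.prodMk continuous_id)
  have line' : ∀ {g : ℝ × ℝ → ℝ}, Continuous g → ∀ φ : ℝ, Continuous fun t : ℝ => g (t, φ) :=
    fun hg φ => hg.comp (continuous_id.prodMk continuous_const)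
  have vG : ∀ t, ∫ φ in (0 : ℝ)..Pd, G (t, φ) ^ 2
      = (∫ φ in (0 : ℝ)..Pd, F (t, φ) ^ 2) - Pd * m t ^ 2 := fun t => poin_var (line cF t) h0
  have vGu : ∀ t, ∫ φ in (0 : ℝ)..Pd, Gu (t, φ) ^ 2
      = (∫ φ in (0 : ℝ)..Pd, du F (t, φ) ^ 2) - Pd * m' t ^ 2 := fun t => poin_var (line cu t) h0
  have wir : ∀ t, ∫ φ in (0 : ℝ)..Pd, G (t, φ) ^ 2 ≤ ∫ φ in (0 : ℝ)..Pd, dv F (t, φ) ^ 2 := by
    intro t
    have hp : F (t, Pd) = F (t, 0) := by simpa using hper (t, 0)
    have := wirtinger h0 h1 (f := fun φ => F (t, φ)) (f' := fun φ => dv F (t, φ))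
      (fun φ => hasDerivAt_line_v (hd (t, φ))) (line cv t) hp
    rw [vG t]
    have e : Pd * m t ^ 2 = (∫ φ in (0 : ℝ)..Pd, F (t, φ)) ^ 2 / Pd := by
      simp only [hm]; field_simp
    rw [e]; exact this
  -- the energy densities
  set EG : ℝ × ℝ → ℝ := fun p => Gu p ^ 2 + G p ^ 2 - 2 * G p ^ 2 / Real.cosh p.1 ^ 2 with hEG
  set EF : ℝ × ℝ → ℝ := fun p => du F p ^ 2 + dv F p ^ 2 - 2 * F p ^ 2 / Real.cosh p.1 ^ 2
    with hEF
  set Em : ℝ → ℝ := fun t => m' t ^ 2 - 2 * m t ^ 2 / Real.cosh t ^ 2 with hEm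
  have cEG : Continuous EG := ((cGu.pow 2).add (cG.pow 2)).sub
    ((continuous_const.mul (cG.pow 2)).div (ccosh.comp continuous_fst) fun p => ncosh p.1)
  have cEF : Continuous EF := ((cu.pow 2).add (cv.pow 2)).sub
    ((continuous_const.mul (cF.pow 2)).div (ccosh.comp continuous_fst) fun p => ncosh p.1)
  have cEm : Continuous Em := (cm'.pow 2).sub
    ((continuous_const.mul (cm.pow 2)).div ccosh ncosh)
  have pt : ∀ t, (∫ φ in (0 : ℝ)..Pd, EG (t, φ)) + Pd * Em t ≤ ∫ φ in (0 : ℝ)..Pd, EF (t, φ) := by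
    intro t
    have e1 : ∫ φ in (0 : ℝ)..Pd, EG (t, φ) = _ :=
      poin_split (line cGu t) (line cG t) (line cG t) (Real.cosh t ^ 2) 0 Pd
    have e2 : ∫ φ in (0 : ℝ)..Pd, EF (t, φ) = _ :=
      poin_split (line cu t) (line cv t) (line cF t) (Real.cosh t ^ 2) 0 Pd
    have w := wir t
    rw [e1, e2, vGu t]
    rw [vG t] at w ⊢
    have e3 : Pd * Em t = Pd * m' t ^ 2 - 2 * (Pd * m t ^ 2) / Real.cosh t ^ 2 := by
      simp only [hEm]; ring
    rw [e3]
    have e4 : 2 * ((∫ φ in (0 : ℝ)..Pd, F (t, φ) ^ 2) - Pd * m t ^ 2) / Real.cosh t ^ 2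
        = 2 * (∫ φ in (0 : ℝ)..Pd, F (t, φ) ^ 2) / Real.cosh t ^ 2
          - 2 * (Pd * m t ^ 2) / Real.cosh t ^ 2 := by ring
    rw [e4]
    linarith
  -- integrate over `t`
  have iG := poin_cont_int cEG 0 Pd
  have iF := poin_cont_int cEF 0 Pd
  have cPE : Continuous fun t => Pd * Em t := continuous_const.mul cEm
  have cPm : Continuous fun t => Pd * m t ^ 2 := continuous_const.mul (cm.pow 2)
  have s1 : (∫ t in (-X)..X, ∫ φ in (0 : ℝ)..Pd, EG (t, φ)) + Pd * ∫ t in (-X)..X, Em t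
      ≤ ∫ t in (-X)..X, ∫ φ in (0 : ℝ)..Pd, EF (t, φ) := by
    rw [← intervalIntegral.integral_const_mul, ← intervalIntegral.integral_add
      (iG.intervalIntegrable _ _) (cPE.intervalIntegrable _ _)]
    exact intervalIntegral.integral_mono_on hXX
      ((iG.add cPE).intervalIntegrable _ _) (iF.intervalIntegrable _ _)
      fun t _ => pt t
  have cG2 : Continuous fun p => G p ^ 2 := cG.pow 2
  have cF2 : Continuous fun p => F p ^ 2 := cF.pow 2
  have s2 : c1 * ∫ t in (-X)..X, ∫ φ in (0 : ℝ)..Pd, G (t, φ) ^ 2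
      ≤ ∫ t in (-X)..X, ∫ φ in (0 : ℝ)..Pd, EG (t, φ) := by
    rw [poin_fubini cEG, poin_fubini cG2, ← intervalIntegral.integral_const_mul]
    refine intervalIntegral.integral_mono_on h0.le
      ((continuous_const.mul (poin_cont_int' cG2 (-X) X)).intervalIntegrable _ _)
      ((poin_cont_int' cEG (-X) X).intervalIntegrable _ _) fun φ _ => ?_
    exact H1 (fun t => G (t, φ)) (fun t => Gu (t, φ))
      (fun t => (hasDerivAt_line_u (hd (t, φ))).sub (dm t)) (line' cGu φ)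
      (by simp only [hG]; rw [hl, ml]; simp) (by simp only [hG]; rw [hr, mr]; simp)
  have s3 : c0 * ∫ t in (-X)..X, m t ^ 2 ≤ ∫ t in (-X)..X, Em t := H0 m m' dm cm' ml mz mr
  have s4 : ∫ t in (-X)..X, ∫ φ in (0 : ℝ)..Pd, F (t, φ) ^ 2
      = (∫ t in (-X)..X, ∫ φ in (0 : ℝ)..Pd, G (t, φ) ^ 2) + Pd * ∫ t in (-X)..X, m t ^ 2 := by
    rw [← intervalIntegral.integral_const_mul, ← intervalIntegral.integral_add
      ((poin_cont_int cG2 0 Pd).intervalIntegrable _ _)
      (cPm.intervalIntegrable _ _)]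
    congr 1
    funext t
    rw [vG t]; ring
  have p1 : 0 ≤ ∫ t in (-X)..X, ∫ φ in (0 : ℝ)..Pd, G (t, φ) ^ 2 :=
    intervalIntegral.integral_nonneg hXX fun t _ =>
      intervalIntegral.integral_nonneg h0.le fun φ _ => sq_nonneg _
  have p2 : 0 ≤ ∫ t in (-X)..X, m t ^ 2 :=
    intervalIntegral.integral_nonneg hXX fun t _ => sq_nonneg _
  have q1 := mul_le_mul_of_nonneg_right (min_le_right c0 c1) p1
  have q2 := mul_le_mul_of_nonneg_right (min_le_left c0 c1) p2
  have q3 := mul_le_mul_of_nonneg_left (q2.trans s3) h0.le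
  rw [s4]
  change _ ≤ ∫ t in (-X)..X, ∫ φ in (0 : ℝ)..Pd, EF (t, φ)
  nlinarith

end Pool.Agent.Lib.MP_c7e804_gt
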