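import Pool.Agent.Lib.MP_c7e804_gt.H43Int

/-!
The Wirtinger inequality.
-/

namespace Pool.Agent.Lib.MP_c7e804_gt

open Matrix Set Complex
open scoped ContDiff ComplexConjugate

theorem poin1_memLp {Pd : ℝ} {g : ℝ → ℂ} (hg : Continuous g) :
    MeasureTheory.MemLp g 2 (MeasureTheory.volume.restrict (Ioc 0 Pd)) := by
  obtain ⟨C, hC⟩ := (isCompact_Icc (a := (0 : ℝ)) (b := Pd)).exists_bound_of_continuousOn
    hg.continuousOn
  refine MeasureTheory.MemLp.of_bound hg.aestronglyMeasurable C ?_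
  filter_upwards [MeasureTheory.ae_restrict_mem measurableSet_Ioc] with x hx
  exact hC x (Ioc_subset_Icc_self hx)

theorem poin1_parseval {Pd : ℝ} (h0 : 0 < Pd) {g : ℝ → ℝ} (hg : Continuous g) :
    HasSum (fun i => ‖fourierCoeffOn h0 (fun t => (g t : ℂ)) i‖ ^ 2)
      (Pd⁻¹ * ∫ t in (0 : ℝ)..Pd, g t ^ 2) := by
  have := hasSum_sq_fourierCoeffOn h0
    (poin1_memLp (Pd := Pd) (Complex.continuous_ofReal.comp hg))
  simpa [Function.comp_def] using this

theorem wirtinger {Pd : ℝ} (h0 : 0 < Pd) (h1 : Pd ≤ 2 * Real.pi) {f f' : ℝ → ℝ}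
    (hf : ∀ t, HasDerivAt f (f' t) t) (hc : Continuous f') (hp : f Pd = f 0) :
    (∫ t in (0 : ℝ)..Pd, f t ^ 2) - (∫ t in (0 : ℝ)..Pd, f t) ^ 2 / Pd
      ≤ ∫ t in (0 : ℝ)..Pd, f' t ^ 2 := by
  have hfc : Continuous f := continuous_iff_continuousAt.2 fun t => (hf t).continuousAt
  have P1 := poin1_parseval h0 hfc
  have P2 := poin1_parseval h0 hc
  have c0 : ‖fourierCoeffOn h0 (fun t => (f t : ℂ)) 0‖ ^ 2 =
      (Pd⁻¹ * ∫ t in (0 : ℝ)..Pd, f t) ^ 2 := by
    rw [fourierCoeffOn_eq_integral]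
    simp only [neg_zero, fourier_zero, one_smul, sub_zero, intervalIntegral.integral_ofReal,
      one_div, Complex.real_smul]
    rw [← Complex.ofReal_mul, Complex.norm_real, Real.norm_eq_abs, sq_abs]
  have key : ∀ n : ℤ, ‖fourierCoeffOn h0 (fun t => (f t : ℂ)) n‖ ^ 2 ≤
      ‖fourierCoeffOn h0 (fun t => (f' t : ℂ)) n‖ ^ 2 +
        (if n = 0 then (Pd⁻¹ * ∫ t in (0 : ℝ)..Pd, f t) ^ 2 else 0) := by
    intro n
    by_cases hn : n = 0
    · subst hn
      rw [c0, if_pos rfl]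
      linarith [sq_nonneg ‖fourierCoeffOn h0 (fun t => (f' t : ℂ)) 0‖]
    · rw [if_neg hn, add_zero]
      have e := fourierCoeffOn_of_hasDerivAt h0 (f := fun t => (f t : ℂ))
        (f' := fun t => (f' t : ℂ)) hn (fun x _ => (hf x).ofReal_comp)
        ((Complex.continuous_ofReal.comp hc).intervalIntegrable _ _)
      have hn1 : (1 : ℝ) ≤ |(n : ℝ)| := by exact_mod_cast Int.one_le_abs hn
      have hpi := Real.pi_pos
      refine pow_le_pow_left₀ (norm_nonneg _) ?_ 2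
      rw [e, hp, sub_self, mul_zero, zero_sub, norm_mul, norm_neg, norm_mul]
      have n1 : ‖(1 : ℂ) / (-2 * Real.pi * I * n)‖ = 1 / (2 * Real.pi * |(n : ℝ)|) := by
        simp [abs_of_pos hpi]
      have n2 : ‖((Pd : ℂ) - ((0 : ℝ) : ℂ))‖ = Pd := by
        simp [abs_of_pos h0]
      rw [n1, n2, ← mul_assoc]
      refine mul_le_of_le_one_left (norm_nonneg _) ?_
      rw [div_mul_eq_mul_div, one_mul, div_le_one (by positivity)]
      nlinarith
  have hs := hasSum_le key P1 (P2.add (hasSum_ite_eq (0 : ℤ) _))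
  have e : (∫ t in (0 : ℝ)..Pd, f t) ^ 2 / Pd = Pd * (Pd⁻¹ * ∫ t in (0 : ℝ)..Pd, f t) ^ 2 := by
    field_simp
  have h2 := mul_le_mul_of_nonneg_left hs h0.le
  rw [mul_add, ← mul_assoc, ← mul_assoc, mul_inv_cancel₀ h0.ne', one_mul, one_mul] at h2
  linarith

end Pool.Agent.Lib.MP_c7e804_gt
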