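import Pool.Agent.Lib.MP_c7e804_gt.H43Poin1

/-!
Two one dimensional inequalities.
-/

namespace Pool.Agent.Lib.MP_c7e804_gt

open Matrix Set Complex
open scoped ContDiff ComplexConjugate

/-- the Riccati form of the Picone argument -/
theorem poin2_riccati {x0 x1 c : ℝ} (hx : x0 ≤ x1) {ρ ρ' V : ℝ → ℝ}
    (hρ : ∀ t ∈ Icc x0 x1, HasDerivAt ρ (ρ' t) t) (cρ' : ContinuousOn ρ' (Icc x0 x1))
    (cV : ContinuousOn V (Icc x0 x1)) (hc : ∀ t ∈ Icc x0 x1, c ≤ V t + ρ' t - ρ t ^ 2)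
    {f f' : ℝ → ℝ} (hf : ∀ t, HasDerivAt f (f' t) t) (cf' : Continuous f')
    (h0 : f x0 = 0) (h1 : f x1 = 0) :
    c * ∫ t in x0..x1, f t ^ 2 ≤ ∫ t in x0..x1, (f' t ^ 2 + V t * f t ^ 2) := by
  have cf : Continuous f := continuous_iff_continuousAt.2 fun t => (hf t).continuousAt
  have cρ : ContinuousOn ρ (Icc x0 x1) := fun t ht => (hρ t ht).continuousAt.continuousWithinAt
  have uI : uIcc x0 x1 = Icc x0 x1 := uIcc_of_le hx
  have cD : ContinuousOn (fun t => ρ' t * f t ^ 2 + ρ t * (2 * f t * f' t)) (Icc x0 x1) :=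
    (cρ'.mul (cf.pow 2).continuousOn).add
      (cρ.mul ((continuous_const.mul cf).mul cf').continuousOn)
  have iD : IntervalIntegrable (fun t => ρ' t * f t ^ 2 + ρ t * (2 * f t * f' t))
      MeasureTheory.volume x0 x1 := by
    apply ContinuousOn.intervalIntegrable; rw [uI]; exact cD
  have hD : ∫ t in x0..x1, (ρ' t * f t ^ 2 + ρ t * (2 * f t * f' t)) = 0 := by
    have := intervalIntegral.integral_eq_sub_of_hasDerivAt (f := fun t => ρ t * f t ^ 2)
      (f' := fun t => ρ' t * f t ^ 2 + ρ t * (2 * f t * f' t)) (a := x0) (b := x1)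
      (fun t ht => by
        rw [uI] at ht
        have h2 : HasDerivAt (fun t => f t ^ 2) (2 * f t * f' t) t := by
          have h3 : HasDerivAt (fun t => f t ^ 2) (((2 : ℕ) : ℝ) * f t ^ (2 - 1) * f' t) t :=
            (hf t).pow 2
          exact h3.congr_deriv (by norm_num)
        exact (hρ t ht).mul h2) iD
    rw [this, h0, h1]; ring
  have cE : ContinuousOn (fun t => f' t ^ 2 + V t * f t ^ 2) (Icc x0 x1) :=
    (cf'.pow 2).continuousOn.add (cV.mul (cf.pow 2).continuousOn)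
  have iE : IntervalIntegrable (fun t => f' t ^ 2 + V t * f t ^ 2) MeasureTheory.volume x0 x1 := by
    apply ContinuousOn.intervalIntegrable; rw [uI]; exact cE
  have cc : Continuous fun t => c * f t ^ 2 := continuous_const.mul (cf.pow 2)
  have key : ∫ t in x0..x1, (c * f t ^ 2 - (ρ' t * f t ^ 2 + ρ t * (2 * f t * f' t)))
      ≤ ∫ t in x0..x1, (f' t ^ 2 + V t * f t ^ 2) := by
    refine intervalIntegral.integral_mono_on hx ((cc.intervalIntegrable _ _).sub iD) iE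
      fun t ht => ?_
    have h2 := mul_le_mul_of_nonneg_right (hc t ht) (sq_nonneg (f t))
    nlinarith [sq_nonneg (f' t - ρ t * f t), sq_nonneg (f' t + ρ t * f t)]
  rw [intervalIntegral.integral_sub (cc.intervalIntegrable _ _) iD, hD,
    intervalIntegral.integral_const_mul, sub_zero] at key
  exact key

/-- a positive solution of `φ'' = V φ` gives a spectral gap -/
theorem poin2_picone {x0 x1 : ℝ} (hx : x0 ≤ x1) {φ φ' V : ℝ → ℝ}
    (hφ : ∀ t ∈ Icc x0 x1, HasDerivAt φ (φ' t) t)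
    (hφ' : ∀ t ∈ Icc x0 x1, HasDerivAt φ' (V t * φ t) t)
    (hpos : ∀ t ∈ Icc x0 x1, 0 < φ t) (cV : ContinuousOn V (Icc x0 x1)) :
    ∃ c : ℝ, 0 < c ∧ ∀ f f' : ℝ → ℝ, (∀ t, HasDerivAt f (f' t) t) → Continuous f' →
      f x0 = 0 → f x1 = 0 →
      c * ∫ t in x0..x1, f t ^ 2 ≤ ∫ t in x0..x1, (f' t ^ 2 + V t * f t ^ 2) := by
  have cφ : ContinuousOn φ (Icc x0 x1) := fun t ht => (hφ t ht).continuousAt.continuousWithinAt
  have cφ' : ContinuousOn φ' (Icc x0 x1) := fun t ht => (hφ' t ht).continuousAt.continuousWithinAt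
  have hne : ∀ t ∈ Icc x0 x1, φ t ≠ 0 := fun t ht => (hpos t ht).ne'
  have hne2 : ∀ t ∈ Icc x0 x1, φ t ^ 2 ≠ 0 := fun t ht => pow_ne_zero 2 (hne t ht)
  have cA : ContinuousOn (fun t => 1 / φ t ^ 2) (Icc x0 x1) :=
    continuousOn_const.div (cφ.pow 2) hne2
  have cB : ContinuousOn (fun t => (t / φ t ^ 2) ^ 2) (Icc x0 x1) :=
    (continuousOn_id.div (cφ.pow 2) hne2).pow 2
  obtain ⟨ta, hta, hA⟩ := isCompact_Icc.exists_isMinOn (nonempty_Icc.2 hx) cA
  obtain ⟨tb, htb, hB⟩ := isCompact_Icc.exists_isMaxOn (nonempty_Icc.2 hx) cB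
  set A := 1 / φ ta ^ 2 with hAdef
  set B := (tb / φ tb ^ 2) ^ 2 with hBdef
  have hA0 : 0 < A := one_div_pos.2 (pow_pos (hpos ta hta) 2)
  have hB0 : 0 ≤ B := sq_nonneg _
  set ε := A / (2 * (B + 1)) with hε
  have hε0 : 0 < ε := div_pos hA0 (by linarith)
  have hεB : ε * B ≤ A / 2 := by
    have : ε * (B + 1) = A / 2 := by rw [hε]; field_simp
    nlinarith
  refine ⟨ε * A / 2, by positivity, fun f f' hf cf' h0 h1 => ?_⟩
  refine poin2_riccati hx (ρ := fun t => -(φ' t / φ t) + ε * (t / φ t ^ 2))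
    (ρ' := fun t => -((V t * φ t * φ t - φ' t * φ' t) / φ t ^ 2)
      + ε * ((1 * φ t ^ 2 - t * (2 * φ t * φ' t)) / (φ t ^ 2) ^ 2)) ?_ ?_ cV ?_ hf cf' h0 h1
  · intro t ht
    have h3 : HasDerivAt (fun t => φ t ^ 2) (((2 : ℕ) : ℝ) * φ t ^ (2 - 1) * φ' t) t :=
      (hφ t ht).pow 2
    have h4 : HasDerivAt (fun t => φ t ^ 2) (2 * φ t * φ' t) t := h3.congr_deriv (by norm_num)
    exact (((hφ' t ht).div (hφ t ht) (hne t ht)).neg).add
      (((hasDerivAt_id t).div h4 (hne2 t ht)).const_mul ε)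
  · exact ((((cV.mul cφ).mul cφ).sub (cφ'.mul cφ')).div (cφ.pow 2) hne2).neg.add
      (continuousOn_const.mul (((continuousOn_const.mul (cφ.pow 2)).sub
        (continuousOn_id.mul ((continuousOn_const.mul cφ).mul cφ'))).div ((cφ.pow 2).pow 2)
          fun t ht => pow_ne_zero 2 (hne2 t ht)))
  · intro t ht
    have hn := hne t ht
    have e : V t + (-((V t * φ t * φ t - φ' t * φ' t) / φ t ^ 2)
        + ε * ((1 * φ t ^ 2 - t * (2 * φ t * φ' t)) / (φ t ^ 2) ^ 2))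
        - (-(φ' t / φ t) + ε * (t / φ t ^ 2)) ^ 2
        = ε * (1 / φ t ^ 2) - ε * (ε * (t / φ t ^ 2) ^ 2) := by
      field_simp; ring
    rw [e]
    have a1 : A ≤ 1 / φ t ^ 2 := hA ht
    have b1 : (t / φ t ^ 2) ^ 2 ≤ B := hB ht
    have a2 := mul_le_mul_of_nonneg_left a1 hε0.le
    have b2 := mul_le_mul_of_nonneg_left ((mul_le_mul_of_nonneg_left b1 hε0.le).trans hεB) hε0.le
    linarith

theorem poin2_contV (k : ℝ) : Continuous fun t : ℝ => k - 2 / Real.cosh t ^ 2 :=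
  continuous_const.sub (continuous_const.div (Real.continuous_cosh.pow 2)
    fun t => pow_ne_zero 2 (Real.cosh_pos t).ne')

theorem mode_one {X : ℝ} (hX : 0 < X) : ∃ c : ℝ, 0 < c ∧ ∀ f f' : ℝ → ℝ,
    (∀ t, HasDerivAt f (f' t) t) → Continuous f' → f (-X) = 0 → f X = 0 →
    c * ∫ t in (-X)..X, f t ^ 2
      ≤ ∫ t in (-X)..X, (f' t ^ 2 + f t ^ 2 - 2 * f t ^ 2 / Real.cosh t ^ 2) := by
  obtain ⟨c, hc, H⟩ := poin2_picone (x0 := -X) (x1 := X) (by linarith)
    (φ := fun t => (Real.cosh t)⁻¹) (φ' := fun t => -Real.sinh t / Real.cosh t ^ 2)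
    (V := fun t => 1 - 2 / Real.cosh t ^ 2)
    (fun t _ => (Real.hasDerivAt_cosh t).inv (Real.cosh_pos t).ne')
    (fun t _ => by
      have hn := (Real.cosh_pos t).ne'
      have h3 : HasDerivAt (fun t => Real.cosh t ^ 2)
          (((2 : ℕ) : ℝ) * Real.cosh t ^ (2 - 1) * Real.sinh t) t := (Real.hasDerivAt_cosh t).pow 2
      have h4 := (Real.hasDerivAt_sinh t).neg.div h3 (pow_ne_zero 2 hn)
      refine HasDerivAt.congr_deriv h4 ?_
      have hs := Real.cosh_sq t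
      simp only [Pi.neg_apply]
      push_cast
      rw [pow_one]
      field_simp
      linear_combination (-2) * hs)
    (fun t _ => inv_pos.2 (Real.cosh_pos t)) (poin2_contV 1).continuousOn
  refine ⟨c, hc, fun f f' hf cf' h0 h1 => (H f f' hf cf' h0 h1).trans (le_of_eq ?_)⟩
  congr 1
  funext t
  ring

theorem poin2_tanh (t : ℝ) :
    HasDerivAt (fun t => Real.sinh t / Real.cosh t) (1 / Real.cosh t ^ 2) t := by
  have hn := (Real.cosh_pos t).ne'
  refine HasDerivAt.congr_deriv ((Real.hasDerivAt_sinh t).div (Real.hasDerivAt_cosh t) hn) ?_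
  have hs := Real.cosh_sq t
  congr 1
  linear_combination hs

theorem poin2_sech2 (t : ℝ) :
    HasDerivAt (fun t => 1 / Real.cosh t ^ 2)
      (-2 / Real.cosh t ^ 2 * (Real.sinh t / Real.cosh t)) t := by
  have hn := (Real.cosh_pos t).ne'
  have h3 : HasDerivAt (fun t => Real.cosh t ^ 2)
      (((2 : ℕ) : ℝ) * Real.cosh t ^ (2 - 1) * Real.sinh t) t := (Real.hasDerivAt_cosh t).pow 2
  refine HasDerivAt.congr_deriv ((hasDerivAt_const t (1 : ℝ)).div h3 (pow_ne_zero 2 hn)) ?_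
  push_cast
  field_simp
  ring

theorem poin2_half {x0 x1 σ δ : ℝ} (hx : x0 ≤ x1)
    (hpos : ∀ t ∈ Icc x0 x1, 0 < (σ - δ * t) * (Real.sinh t / Real.cosh t) + δ) :
    ∃ c : ℝ, 0 < c ∧ ∀ f f' : ℝ → ℝ, (∀ t, HasDerivAt f (f' t) t) → Continuous f' →
      f x0 = 0 → f x1 = 0 →
      c * ∫ t in x0..x1, f t ^ 2
        ≤ ∫ t in x0..x1, (f' t ^ 2 - 2 * f t ^ 2 / Real.cosh t ^ 2) := by
  have hl : ∀ t : ℝ, HasDerivAt (fun t => σ - δ * t) (-δ) t := fun t => by
    simpa using ((hasDerivAt_id t).const_mul δ).const_sub σ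
  obtain ⟨c, hc, H⟩ := poin2_picone hx
    (φ := fun t => (σ - δ * t) * (Real.sinh t / Real.cosh t) + δ)
    (φ' := fun t => -δ * (Real.sinh t / Real.cosh t) + (σ - δ * t) * (1 / Real.cosh t ^ 2))
    (V := fun t => 0 - 2 / Real.cosh t ^ 2)
    (fun t _ => ((hl t).mul (poin2_tanh t)).add_const δ)
    (fun t _ => by
      refine HasDerivAt.congr_deriv
        (((poin2_tanh t).const_mul (-δ)).add ((hl t).mul (poin2_sech2 t))) ?_
      ring)
    hpos (poin2_contV 0).continuousOn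
  refine ⟨c, hc, fun f f' hf cf' h0 h1 => (H f f' hf cf' h0 h1).trans (le_of_eq ?_)⟩
  congr 1
  funext t
  ring

theorem mode_zero {X : ℝ} (hX : 0 < X) : ∃ c : ℝ, 0 < c ∧ ∀ f f' : ℝ → ℝ,
    (∀ t, HasDerivAt f (f' t) t) → Continuous f' → f (-X) = 0 → f 0 = 0 → f X = 0 →
    c * ∫ t in (-X)..X, f t ^ 2
      ≤ ∫ t in (-X)..X, (f' t ^ 2 - 2 * f t ^ 2 / Real.cosh t ^ 2) := by
  have hδ : 0 < X⁻¹ := inv_pos.2 hX
  have hXδ : X⁻¹ * X = 1 := inv_mul_cancel₀ hX.ne'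
  obtain ⟨c1, hc1, H1⟩ := poin2_half (x0 := 0) (x1 := X) (σ := 1) (δ := X⁻¹) hX.le (by
    intro t ht
    have h1 : 0 ≤ Real.sinh t / Real.cosh t :=
      div_nonneg (Real.sinh_nonneg_iff.2 ht.1) (Real.cosh_pos t).le
    have h2 : 0 ≤ 1 - X⁻¹ * t := by
      have := mul_le_mul_of_nonneg_left ht.2 hδ.le
      linarith
    have := mul_nonneg h2 h1
    linarith)
  obtain ⟨c2, hc2, H2⟩ := poin2_half (x0 := -X) (x1 := 0) (σ := -1) (δ := X⁻¹) (by linarith) (by
    intro t ht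
    have h1 : Real.sinh t / Real.cosh t ≤ 0 :=
      div_nonpos_of_nonpos_of_nonneg (Real.sinh_nonpos_iff.2 ht.2) (Real.cosh_pos t).le
    have h2 : -1 - X⁻¹ * t ≤ 0 := by
      have := mul_le_mul_of_nonneg_left ht.1 hδ.le
      linarith
    have := mul_nonneg_of_nonpos_of_nonpos h2 h1
    linarith)
  refine ⟨min c1 c2, lt_min hc1 hc2, fun f f' hf cf' hl hz hr => ?_⟩
  have cf : Continuous f := continuous_iff_continuousAt.2 fun t => (hf t).continuousAt
  have c2' : Continuous fun t => f t ^ 2 := cf.pow 2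
  have cE : Continuous fun t => f' t ^ 2 - 2 * f t ^ 2 / Real.cosh t ^ 2 :=
    (cf'.pow 2).sub ((continuous_const.mul c2').div (Real.continuous_cosh.pow 2)
      fun t => pow_ne_zero 2 (Real.cosh_pos t).ne')
  have s1 := H1 f f' hf cf' hz hr
  have s2 := H2 f f' hf cf' hl hz
  rw [← intervalIntegral.integral_add_adjacent_intervals (b := 0)
      (c2'.intervalIntegrable _ _) (c2'.intervalIntegrable _ _),
    ← intervalIntegral.integral_add_adjacent_intervals (b := 0)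
      (cE.intervalIntegrable _ _) (cE.intervalIntegrable _ _)]
  have p1 : 0 ≤ ∫ t in (0 : ℝ)..X, f t ^ 2 :=
    intervalIntegral.integral_nonneg hX.le fun t _ => sq_nonneg _
  have p2 : 0 ≤ ∫ t in (-X)..0, f t ^ 2 :=
    intervalIntegral.integral_nonneg (by linarith) fun t _ => sq_nonneg _
  have q1 := mul_le_mul_of_nonneg_right (min_le_left c1 c2) p1
  have q2 := mul_le_mul_of_nonneg_right (min_le_right c1 c2) p2
  rw [mul_add]
  linarith

end Pool.Agent.Lib.MP_c7e804_gt
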