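import Pool.Agent.Lib.MP_c7e804_gt.H43Chg
import Pool.Agent.Lib.MP_c7e804_gt.H43Poin

/-!
The Poincare inequality pulled back to the strip.
-/

namespace Pool.Agent.Lib.MP_c7e804_gt

open Matrix Set Complex
open scoped ContDiff ComplexConjugate

private theorem poinS_fderiv_per {K : ℝ × ℝ → ℝ} {Pd : ℝ}
    (hper : ∀ w : ℝ × ℝ, K (w.1, w.2 + Pd) = K w) (w : ℝ × ℝ) :
    fderiv ℝ K (w.1, w.2 + Pd) = fderiv ℝ K w := by
  have e : (fun z : ℝ × ℝ => K (z + (0, Pd))) = K := by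
    funext z
    have := hper z
    rw [← this]
    congr 1
    ext <;> simp
  have e2 : ((w.1, w.2 + Pd) : ℝ × ℝ) = w + (0, Pd) := by ext <;> simp
  rw [e2, ← fderiv_comp_add_right, e]

private theorem poinS_core {a b τ Pd : ℝ} {x y r s : ℝ × ℝ → ℝ} (h : Merc a b τ Pd x y r s)
    {X c : ℝ} (hX : ∀ p ∈ strip a b, |x p| < X)
    (hc : ∀ F : ℝ × ℝ → ℝ, ContDiff ℝ 1 F → (∀ w : ℝ × ℝ, F (w.1, w.2 + Pd) = F w) →
      (∀ φ, F (-X, φ) = 0) → (∀ φ, F (X, φ) = 0) → ∫ φ in (0 : ℝ)..Pd, F (0, φ) = 0 →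
      c * ∫ t in (-X)..X, ∫ φ in (0 : ℝ)..Pd, F (t, φ) ^ 2
        ≤ ∫ t in (-X)..X, ∫ φ in (0 : ℝ)..Pd,
          (du F (t, φ) ^ 2 + dv F (t, φ) ^ 2 - 2 * F (t, φ) ^ 2 / Real.cosh t ^ 2))
    {k ku kv : ℝ × ℝ → ℝ} {δ : ℝ} (hδ : 0 < δ) (hk : PD a b k ku kv)
    (hper : ∀ p ∈ strip a b, k (p.1, p.2 + τ) = k p)
    (h0 : ∀ p ∈ strip a b, p.1 ≤ a + δ ∨ b - δ ≤ p.1 → k p = 0)
    (hm : ∫ φ in (0 : ℝ)..Pd, Tr a b x y k (0, φ) = 0) :
    c * ∫ u in a..b, ∫ v in (0 : ℝ)..τ, k (u, v) ^ 2 * (r (u, v) ^ 2 + s (u, v) ^ 2)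
      ≤ ∫ u in a..b, ∫ v in (0 : ℝ)..τ, (ku (u, v) ^ 2 + kv (u, v) ^ 2
          - 2 * k (u, v) ^ 2 * ((r (u, v) ^ 2 + s (u, v) ^ 2) / Real.cosh (x (u, v)) ^ 2)) := by
  obtain ⟨hsm, hgr, hoff⟩ := h.tr_smooth hk hδ h0
  have hKper : ∀ w : ℝ × ℝ, Tr a b x y k (w.1, w.2 + Pd) = Tr a b x y k w := h.tr_per hper
  have hl : ∀ φ, Tr a b x y k (-X, φ) = 0 := by
    intro φ
    refine Merc.tr_off k ?_
    intro p hp e
    have h2 := hX p hp
    have h3 : x p = -X := congrArg Prod.fst e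
    rw [h3, abs_neg] at h2
    exact absurd h2 (not_lt.mpr (le_abs_self X))
  have hr : ∀ φ, Tr a b x y k (X, φ) = 0 := by
    intro φ
    refine Merc.tr_off k ?_
    intro p hp e
    have h2 := hX p hp
    have h3 : x p = X := congrArg Prod.fst e
    rw [h3] at h2
    exact absurd h2 (not_lt.mpr (le_abs_self X))
  have key := hc (Tr a b x y k) hsm hKper hl hr hm
  have hcK : Continuous (Tr a b x y k) := hsm.continuous
  have hcf : Continuous (fderiv ℝ (Tr a b x y k)) := hsm.continuous_fderiv (by norm_num)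
  have hcu : Continuous (du (Tr a b x y k)) := by
    unfold du
    exact hcf.clm_apply continuous_const
  have hcv : Continuous (dv (Tr a b x y k)) := by
    unfold dv
    exact hcf.clm_apply continuous_const
  have hpu : ∀ w : ℝ × ℝ, du (Tr a b x y k) (w.1, w.2 + Pd) = du (Tr a b x y k) w := by
    intro w
    unfold du
    rw [poinS_fderiv_per hKper]
  have hpv : ∀ w : ℝ × ℝ, dv (Tr a b x y k) (w.1, w.2 + Pd) = dv (Tr a b x y k) w := by
    intro w
    unfold dv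
    rw [poinS_fderiv_per hKper]
  have c1 := h.change hX (G := fun w => Tr a b x y k w ^ 2) (hcK.pow 2)
    (fun w => by simp only [hKper w])
    (fun w hw => by simp only [Merc.tr_off k hw]; norm_num)
  have c2 := h.change hX (G := fun w => du (Tr a b x y k) w ^ 2 + dv (Tr a b x y k) w ^ 2
      - 2 * Tr a b x y k w ^ 2 / Real.cosh w.1 ^ 2)
    (((hcu.pow 2).add (hcv.pow 2)).sub ((continuous_const.mul (hcK.pow 2)).div
      ((Real.continuous_cosh.comp continuous_fst).pow 2)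
      (fun w => pow_ne_zero 2 (Real.cosh_pos _).ne')))
    (fun w => by simp only [hKper w, hpu w, hpv w])
    (fun w hw => by simp only [Merc.tr_off k hw, (hoff w hw).1, (hoff w hw).2]; norm_num)
  simp only at c1 c2
  rw [c1, c2] at key
  have hmem : ∀ u ∈ uIcc a b, ∀ v : ℝ, ((u, v) : ℝ × ℝ) ∈ strip a b := by
    intro u hu v
    rw [uIcc_of_le h.hab.le] at hu
    exact ⟨hu.1, hu.2⟩
  have e1 : ∫ u in a..b, ∫ v in (0 : ℝ)..τ, k (u, v) ^ 2 * (r (u, v) ^ 2 + s (u, v) ^ 2)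
      = ∫ u in a..b, ∫ v in (0 : ℝ)..τ,
        Tr a b x y k (x (u, v), y (u, v)) ^ 2 * (r (u, v) ^ 2 + s (u, v) ^ 2) := by
    refine intervalIntegral.integral_congr (fun u hu => ?_)
    refine intervalIntegral.integral_congr (fun v _ => ?_)
    simp only [h.tr_apply k (hmem u hu v)]
  have e2 : ∫ u in a..b, ∫ v in (0 : ℝ)..τ, (ku (u, v) ^ 2 + kv (u, v) ^ 2
          - 2 * k (u, v) ^ 2 * ((r (u, v) ^ 2 + s (u, v) ^ 2) / Real.cosh (x (u, v)) ^ 2))
      = ∫ u in a..b, ∫ v in (0 : ℝ)..τ,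
        (du (Tr a b x y k) (x (u, v), y (u, v)) ^ 2 + dv (Tr a b x y k) (x (u, v), y (u, v)) ^ 2
          - 2 * Tr a b x y k (x (u, v), y (u, v)) ^ 2 / Real.cosh (x (u, v)) ^ 2)
          * (r (u, v) ^ 2 + s (u, v) ^ 2) := by
    refine intervalIntegral.integral_congr (fun u hu => ?_)
    refine intervalIntegral.integral_congr (fun v _ => ?_)
    have g1 := hgr (u, v) (hmem u hu v)
    simp only [h.tr_apply k (hmem u hu v)]
    rw [← g1]
    ring
  rw [e1, e2]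
  exact key

private theorem poinS_lin {a b : ℝ} {x y : ℝ × ℝ → ℝ} (f g : ℝ × ℝ → ℝ) (α β : ℝ) (w : ℝ × ℝ) :
    Tr a b x y (fun p => α * f p - β * g p) w = α * Tr a b x y f w - β * Tr a b x y g w := by
  unfold Tr
  by_cases hw : ∃ p, p ∈ strip a b ∧ (x p, y p) = w
  · simp only [dif_pos hw]
  · simp only [dif_neg hw]
    ring

theorem Merc.poincare_strip {a b τ Pd : ℝ} {x y r s : ℝ × ℝ → ℝ} (h : Merc a b τ Pd x y r s)
    (h1 : Pd ≤ 2 * Real.pi) : ∃ c : ℝ, 0 < c ∧ ∀ f fu fv g gu gv : ℝ × ℝ → ℝ, ∀ δ : ℝ, 0 < δ →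
      PD a b f fu fv → PD a b g gu gv →
      (∀ p ∈ strip a b, f (p.1, p.2 + τ) = f p) → (∀ p ∈ strip a b, g (p.1, p.2 + τ) = g p) →
      (∀ p ∈ strip a b, 0 ≤ f p) → (∀ p ∈ strip a b, 0 ≤ g p) →
      (∀ p ∈ strip a b, p.1 ≤ a + δ ∨ b - δ ≤ p.1 → f p = 0 ∧ g p = 0) →
      ∃ α β : ℝ, (α ≠ 0 ∨ β ≠ 0) ∧
        c * ∫ u in a..b, ∫ v in (0 : ℝ)..τ,
            (α * f (u, v) - β * g (u, v)) ^ 2 * (r (u, v) ^ 2 + s (u, v) ^ 2)
          ≤ ∫ u in a..b, ∫ v in (0 : ℝ)..τ,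
            ((α * fu (u, v) - β * gu (u, v)) ^ 2 + (α * fv (u, v) - β * gv (u, v)) ^ 2
              - 2 * (α * f (u, v) - β * g (u, v)) ^ 2
                * ((r (u, v) ^ 2 + s (u, v) ^ 2) / Real.cosh (x (u, v)) ^ 2)) := by
  obtain ⟨C, hC⟩ := bdd_of_per h.hτ h.pdx.cont h.perx
  have hX0 : 0 < |C| + 1 := by positivity
  have hX : ∀ p ∈ strip a b, |x p| < |C| + 1 := by
    intro p hp
    have := hC p hp
    rw [Real.norm_eq_abs] at this
    have h2 := le_abs_self C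
    linarith
  obtain ⟨c, hc0, hc⟩ := poincare hX0 h.Pd_pos h1
  refine ⟨c, hc0, ?_⟩
  intro f fu fv g gu gv δ hδ hf hg pf pg _ _ h0
  have hF := (h.tr_smooth hf hδ (fun p hp hq => (h0 p hp hq).1)).1
  have hG := (h.tr_smooth hg hδ (fun p hp hq => (h0 p hp hq).2)).1
  have iF : IntervalIntegrable (fun φ : ℝ => Tr a b x y f (0, φ)) MeasureTheory.volume 0 Pd :=
    (hF.continuous.comp (continuous_const.prodMk continuous_id)).intervalIntegrable _ _
  have iG : IntervalIntegrable (fun φ : ℝ => Tr a b x y g (0, φ)) MeasureTheory.volume 0 Pd :=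
    (hG.continuous.comp (continuous_const.prodMk continuous_id)).intervalIntegrable _ _
  have main : ∀ α β : ℝ, α * (∫ φ in (0 : ℝ)..Pd, Tr a b x y f (0, φ))
      = β * (∫ φ in (0 : ℝ)..Pd, Tr a b x y g (0, φ)) →
      c * ∫ u in a..b, ∫ v in (0 : ℝ)..τ,
            (α * f (u, v) - β * g (u, v)) ^ 2 * (r (u, v) ^ 2 + s (u, v) ^ 2)
          ≤ ∫ u in a..b, ∫ v in (0 : ℝ)..τ,
            ((α * fu (u, v) - β * gu (u, v)) ^ 2 + (α * fv (u, v) - β * gv (u, v)) ^ 2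
              - 2 * (α * f (u, v) - β * g (u, v)) ^ 2
                * ((r (u, v) ^ 2 + s (u, v) ^ 2) / Real.cosh (x (u, v)) ^ 2)) := by
    intro α β hab
    have hk : PD a b (fun p => α * f p - β * g p) (fun p => α * fu p - β * gu p)
        (fun p => α * fv p - β * gv p) := by
      refine PD.congr (((PD.const α).rmul hf).sub ((PD.const β).rmul hg)) ?_ ?_ ?_
      · intro p _
        rfl
      · intro p _
        simp
      · intro p _
        simp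
    refine poinS_core h hX hc (k := fun p => α * f p - β * g p) hδ hk ?_ ?_ ?_
    · intro p hp
      simp only [pf p hp, pg p hp]
    · intro p hp hq
      simp only [(h0 p hp hq).1, (h0 p hp hq).2]
      ring
    · simp only [poinS_lin]
      rw [intervalIntegral.integral_sub (iF.const_mul α) (iG.const_mul β),
        intervalIntegral.integral_const_mul, intervalIntegral.integral_const_mul, hab, sub_self]
  by_cases hz : (∫ φ in (0 : ℝ)..Pd, Tr a b x y f (0, φ)) = 0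
  · exact ⟨1, 0, Or.inl one_ne_zero, main 1 0 (by rw [hz]; ring)⟩
  · exact ⟨∫ φ in (0 : ℝ)..Pd, Tr a b x y g (0, φ), ∫ φ in (0 : ℝ)..Pd, Tr a b x y f (0, φ),
      Or.inr hz, main _ _ (mul_comm _ _)⟩

end Pool.Agent.Lib.MP_c7e804_gt
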