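import Pool.Agent.Lib.MP_c7e804_gt.H43XLax

/-!
Scalar form of the boundary condition.
-/

namespace Pool.Agent.Lib.MP_c7e804_gt

open Matrix Set Complex
open scoped ContDiff ComplexConjugate

namespace Cap
variable {ψ : ℝ × ℝ → V3} {a b τ θ : ℝ} (h : Cap ψ a b τ θ)
include h

omit h in
theorem sbc_im_ph (X : C3) (p : ℝ × ℝ) :
    (X ⬝ᵥ ph ψ p).im = (du ψ p ⬝ᵥ im3 X - dv ψ p ⬝ᵥ re3 X) / 2 := by
  simp only [dotProduct, Fin.sum_univ_three, ph, im3, re3, add_im, mul_im, div_ofNat_re,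
    div_ofNat_im, sub_re, sub_im, mul_re, ofReal_re, ofReal_im, I_re, I_im]
  ring

omit h in
theorem sbc_triple (n x y : V3) : n ⬝ᵥ (x ⨯₃ y) = (n ⨯₃ x) ⬝ᵥ y := by
  simp [cross_apply, dotProduct, Fin.sum_univ_three]; ring

/-- the imaginary part of `T'` on the boundary -/
theorem sbc_first {T T' T'' : ℝ × ℝ → ℂ} {u : ℝ} (hu : u = a ∨ u = b) (v : ℝ)
    (hR : Rel ψ θ (u, v) (Xv ψ b T T' (u, v)) (Xv ψ b T' T'' (u, v))) :
    2 * hq ψ b * (T' (u, v)).im * pu ψ (u, v)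
      = confE ψ (u, v) * (du T (u, v) - gam ψ (u, v) * T (u, v)).im := by
  have hp := h.mem_bd hu v
  have hE := h.ann.immersion _ hp
  have hq0 := h.q_pos
  have hang : ∀ v, normal ψ (u, v) ⬝ᵥ ψ (u, v) = Real.cos θ := fun v => by
    have := h.bd_ww hu v
    rw [ww] at this
    linarith
  have hψ := h.ann.bd_psi hp (h.bd_unit hu) hang v
  have h1 := congrArg (fun z => normal ψ (u, v) ⬝ᵥ z) hR.1
  have h2 := hR.2
  have h3 := congrArg Complex.im (h.Xv_ph (T := T') (T' := T'') hp)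
  have h4 := congrArg Complex.im (h.N_Xv (T := T) (T' := T') hp)
  rw [cv_dot_im, Complex.im_ofReal_mul] at h4
  rw [sbc_im_ph, ← Complex.ofReal_pow, Complex.im_ofReal_mul] at h3
  simp only [dotProduct_add, dotProduct_smul, dotProduct_zero, smul_eq_mul] at h1
  rw [sbc_triple, h.bd_cross_N hu v, smul_dotProduct, smul_eq_mul, h4] at h1
  rw [hψ, add_dotProduct, smul_dotProduct, smul_dotProduct, smul_eq_mul, smul_eq_mul] at h2
  change (pu ψ (u, v) * (confE ψ (u, v))⁻¹) * _ + _ = 0 at h2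
  generalize du ψ (u, v) ⬝ᵥ im3 (Xv ψ b T' T'' (u, v)) = x1 at h2 h3
  generalize dv ψ (u, v) ⬝ᵥ re3 (Xv ψ b T' T'' (u, v)) = x2 at h1 h3
  generalize normal ψ (u, v) ⬝ᵥ im3 (Xv ψ b T' T'' (u, v)) = x3 at h1 h2
  generalize (du T (u, v) - gam ψ (u, v) * T (u, v)).im = x4 at h1 ⊢
  have h5 : confE ψ (u, v) * (confE ψ (u, v))⁻¹ = 1 := mul_inv_cancel₀ hE.ne'
  rw [div_eq_mul_inv] at h1
  apply mul_left_cancel₀ hq0.ne'
  linear_combination (-confE ψ (u, v)) * h1 + confE ψ (u, v) * h2 - 2 * pu ψ (u, v) * h3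
    - pu ψ (u, v) * (x1 - x2) * h5

/-- the second derivative on the boundary -/
theorem sbc_second {T T' T'' : ℝ × ℝ → ℂ} {u : ℝ} (hu : u = a ∨ u = b) (v : ℝ)
    (h0 : ψ (u, v) ⬝ᵥ im3 (Xv ψ b T T' (u, v)) = 0)
    (hR : Rel ψ θ (u, v) (Xv ψ b T T' (u, v)) (Xv ψ b T' T'' (u, v))) :
    (du (du T) (u, v)).im * pu ψ (u, v)
      = (du T (u, v) * (confE ψ (u, v) + 2 * (cv (ψ (u, v)) ⬝ᵥ ph1 ψ (u, v)))).im
        - (T (u, v) * (confE ψ (u, v) * gam ψ (u, v) + 2 * (cv (ψ (u, v)) ⬝ᵥ ph2 ψ (u, v)))).im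
        - 4 * (T (u, v) * UU ψ b (u, v)).im * pu ψ (u, v) := by
  have h1 := h.sbc_first hu v hR
  rw [← cv_dot_im, Xv, dotProduct_sub, dotProduct_add, dotProduct_smul, dotProduct_smul,
    dotProduct_smul, h.bd_psi_ph hu v] at h0
  simp only [smul_eq_mul, sub_im, add_im, mul_im, sub_re, add_re, mul_re, div_ofNat_re,
    div_ofNat_im, ofReal_re, ofReal_im, re_ofNat, im_ofNat] at h0 h1 ⊢
  linear_combination (-2) * h0 + h1

theorem scalar_bc : ∃ C : ℝ, ∀ T T' T'' : ℝ × ℝ → ℂ, ∀ u, u = a ∨ u = b → ∀ v,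
    ψ (u, v) ⬝ᵥ im3 (Xv ψ b T T' (u, v)) = 0 →
    Rel ψ θ (u, v) (Xv ψ b T T' (u, v)) (Xv ψ b T' T'' (u, v)) →
    |(du (du T) (u, v)).im| ≤ C * (‖du T (u, v)‖ + ‖T (u, v)‖) := by
  have hτ := h.ann.hτ
  have hs := h.sin_pos
  have cψ : ∀ i, ContinuousOn (fun r => (ψ r i : ℂ)) (strip a b) := fun i =>
    Complex.continuous_ofReal.comp_continuousOn
      ((continuous_apply i).comp_continuousOn h.pd_psi.cont)
  have cE : ContinuousOn (fun r => (confE ψ r : ℂ)) (strip a b) :=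
    Complex.continuous_ofReal.comp_continuousOn h.cont_E
  have cd : ∀ {Z : ℝ × ℝ → C3}, (∀ i, Hol a b τ fun r => Z r i) →
      ContinuousOn (fun r => cv (ψ r) ⬝ᵥ Z r) (strip a b) := fun hZ =>
    continuousOn_finsetSum _ fun i _ => (cψ i).mul (hZ i).pd.cont
  have pd : ∀ {Z : ℝ × ℝ → C3}, (∀ i, Hol a b τ fun r => Z r i) → ∀ r ∈ strip a b,
      cv (ψ (r.1, r.2 + τ)) ⬝ᵥ Z (r.1, r.2 + τ) = cv (ψ r) ⬝ᵥ Z r := fun {Z} hZ r hr => by
    rw [h.ann.periodic r hr, show Z (r.1, r.2 + τ) = Z r from funext fun i => (hZ i).per r hr]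
  obtain ⟨C0, hC0⟩ := bdd_of_per (f := fun r => (√(confE ψ r) * Real.sin θ)⁻¹) hτ
    ((h.cont_E.sqrt.mul continuousOn_const).inv₀ fun r hr =>
      (mul_pos (Real.sqrt_pos.2 (h.ann.immersion r hr)) hs).ne')
    fun r hr => by rw [h.ann.perE r hr]
  obtain ⟨C1, hC1⟩ := bdd_of_per
    (f := fun r => (confE ψ r : ℂ) + 2 * (cv (ψ r) ⬝ᵥ ph1 ψ r)) hτ
    (cE.add (continuousOn_const.mul (cd h.hol_ph1)))
    fun r hr => by rw [h.ann.perE r hr, pd h.hol_ph1 r hr]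
  obtain ⟨C2, hC2⟩ := bdd_of_per
    (f := fun r => (confE ψ r : ℂ) * gam ψ r + 2 * (cv (ψ r) ⬝ᵥ ph2 ψ r)) hτ
    ((cE.mul h.cont_gam).add (continuousOn_const.mul (cd h.hol_ph2)))
    fun r hr => by rw [h.ann.perE r hr, pd h.hol_ph2 r hr, h.per_gam hr]
  obtain ⟨C3, hC3⟩ := bdd_of_per hτ h.hol_U.pd.cont h.hol_U.per
  refine ⟨C0 * C1 + C0 * C2 + 4 * C3, fun T T' T'' u hu v h0 hR => ?_⟩
  have hp := h.mem_bd hu v
  have e := h.sbc_second hu v h0 hR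
  have hw : 0 < √(confE ψ (u, v)) * Real.sin θ :=
    mul_pos (Real.sqrt_pos.2 (h.ann.immersion _ hp)) hs
  have habs : |pu ψ (u, v)| = √(confE ψ (u, v)) * Real.sin θ := by
    rcases hu with rfl | rfl
    · rw [h.pu_a, abs_neg, abs_of_pos hw]
    · rw [h.pu_b, abs_of_pos hw]
  have hpu : pu ψ (u, v) ≠ 0 := abs_pos.1 (habs ▸ hw)
  have b0 : |(pu ψ (u, v))⁻¹| ≤ C0 := by
    have := hC0 _ hp
    rwa [Real.norm_eq_abs, ← habs, abs_inv, abs_abs, ← abs_inv] at this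
  have bd : ∀ (z w : ℂ) (C : ℝ), ‖w‖ ≤ C → |(z * w).im| ≤ ‖z‖ * C := fun z w C hC =>
    (Complex.abs_im_le_norm _).trans ((norm_mul z w).le.trans
      (mul_le_mul_of_nonneg_left hC (norm_nonneg z)))
  have b1 := bd (du T (u, v)) _ _ (hC1 _ hp)
  have b2 := bd (T (u, v)) _ _ (hC2 _ hp)
  have b3 := bd (T (u, v)) _ _ (hC3 _ hp)
  have n0 : 0 ≤ C0 := (abs_nonneg _).trans b0
  have n1 : 0 ≤ C1 := (norm_nonneg _).trans (hC1 _ hp)
  have n2 : 0 ≤ C2 := (norm_nonneg _).trans (hC2 _ hp)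
  have n3 : 0 ≤ C3 := (norm_nonneg _).trans (hC3 _ hp)
  generalize (du T (u, v) * (confE ψ (u, v) + 2 * (cv (ψ (u, v)) ⬝ᵥ ph1 ψ (u, v)))).im = y1
    at e b1
  generalize (T (u, v) * (confE ψ (u, v) * gam ψ (u, v)
    + 2 * (cv (ψ (u, v)) ⬝ᵥ ph2 ψ (u, v)))).im = y2 at e b2
  generalize (T (u, v) * UU ψ b (u, v)).im = y3 at e b3
  have e' : (du (du T) (u, v)).im
      = (pu ψ (u, v))⁻¹ * y1 - (pu ψ (u, v))⁻¹ * y2 - 4 * y3 := by
    field_simp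
    linear_combination e
  have c1 : |(pu ψ (u, v))⁻¹ * y1| ≤ C0 * (‖du T (u, v)‖ * C1) := by
    rw [abs_mul]; exact mul_le_mul b0 b1 (abs_nonneg _) n0
  have c2 : |(pu ψ (u, v))⁻¹ * y2| ≤ C0 * (‖T (u, v)‖ * C2) := by
    rw [abs_mul]; exact mul_le_mul b0 b2 (abs_nonneg _) n0
  have m1 := norm_nonneg (du T (u, v))
  have m2 := norm_nonneg (T (u, v))
  rw [e', abs_le]
  rw [abs_le] at c1 c2 b3
  have k1 : 0 ≤ C0 * C1 * ‖T (u, v)‖ := by positivity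
  have k2 : 0 ≤ C0 * C2 * ‖du T (u, v)‖ := by positivity
  have k3 : 0 ≤ C3 * ‖du T (u, v)‖ := by positivity
  constructor <;> nlinarith [c1.1, c1.2, c2.1, c2.2, b3.1, b3.2]

end Cap

end Pool.Agent.Lib.MP_c7e804_gt
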