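import Pool.Agent.Lib.MP_c7e804_gt.H43Len
import Pool.Agent.Lib.MP_c7e804_gt.H43BCI
import Pool.Agent.Lib.MP_c7e804_gt.H43SBC
import Pool.Agent.Lib.MP_c7e804_gt.H43Fou

/-!
Finite type: the Lenard sequence is linearly dependent.
-/

namespace Pool.Agent.Lib.MP_c7e804_gt

open Matrix Set Complex
open scoped ContDiff ComplexConjugate

theorem p0_im3 (c : ℝ) (x y : C3) : im3 ((c : ℂ) • x + y) = c • im3 x + im3 y := by
  funext i
  simp [im3]

theorem p0_re3 (c : ℝ) (x y : C3) : re3 ((c : ℂ) • x + y) = c • re3 x + re3 y := by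
  funext i
  simp [re3]

/-- the boundary relation is real linear -/
theorem p0_rel_sum {ψ : ℝ × ℝ → V3} {θ : ℝ} {p : ℝ × ℝ} {ι : Type} (s : Finset ι) (c : ι → ℝ)
    {X X' : ι → C3} (h : ∀ j, Rel ψ θ p (X j) (X' j)) :
    Rel ψ θ p (∑ j ∈ s, (c j : ℂ) • X j) (∑ j ∈ s, (c j : ℂ) • X' j) := by
  classical
  induction s using Finset.induction_on with
  | empty =>
    have e1 : im3 0 = 0 := funext fun i => by simp [im3]
    have e2 : re3 0 = 0 := funext fun i => by simp [re3]
    simp [Rel, e1, e2]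
  | insert j s hj ih =>
    rw [Finset.sum_insert hj, Finset.sum_insert hj, Rel, p0_im3, p0_im3, p0_re3, map_add, map_smul,
      dotProduct_add, dotProduct_smul, (h j).2, ih.2]
    refine ⟨?_, by simp⟩
    have e := congrArg₂ (fun x y => c j • x + y) (h j).1 ih.1
    simp only [smul_zero, add_zero] at e
    rw [← e]
    module

namespace Cap
variable {ψ : ℝ × ℝ → V3} {a b τ θ : ℝ} (h : Cap ψ a b τ θ)
include h

theorem lenard_dep {S : ℕ → ℝ × ℝ → ℂ} (hS : Lenard a b τ (hq ψ b) (UU ψ b) S) :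
    ∃ (m : ℕ) (c : ℕ → ℝ), c (m + 1) = 1 ∧
      ∀ p ∈ strip a b, ∑ j ∈ Finset.range (m + 2), (c j : ℂ) * S j p = 0 := by
  classical
  obtain ⟨C, hC⟩ := h.scalar_bc
  obtain ⟨n₀, hn⟩ := fourier_unique h.ann.hab h.ann.hτ C
  obtain ⟨s, g, hg, j₀, hj₀, hj₀'⟩ := not_linearIndependent_iff.1
    (Module.Finite.not_linearIndependent_of_infinite (R := ℝ)
      fun (j : ℕ) (n : Finset.Icc (-(n₀ : ℤ)) n₀) =>
        ∫ v in (0 : ℝ)..τ, cexp (-(2 * Real.pi * I * (n : ℤ) * v / τ)) * S j (a, v))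
  have hT : ∀ p ∈ strip a b, ∑ j ∈ s, (g j : ℂ) * S j p = 0 := by
    refine hn _ (Hol.sum s fun j _ => (hS.hol j).const_mul _) (fun u hu v => ?_) fun n hn' => ?_
    · have hp := h.mem_bd hu v
      have e1 := h.Xv_sum s (fun j => (g j : ℂ)) (T := S) (T' := fun j => S (j + 1))
        (fun j _ => hS.hol j) hp
      have e2 := h.Xv_sum s (fun j => (g j : ℂ)) (T := fun j => S (j + 1))
        (T' := fun j => S (j + 2)) (fun j _ => hS.hol _) hp
      refine hC _ (fun r => ∑ j ∈ s, (g j : ℂ) * S (j + 1) r)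
        (fun r => ∑ j ∈ s, (g j : ℂ) * S (j + 2) r) u hu v ?_ ?_
      · rw [e1]
        exact (p0_rel_sum s g (h.rel_Xj hS hu v).2).2
      · rw [e1, e2]
        exact p0_rel_sum s g fun j => (h.rel_Xj hS hu v).2 (j + 1)
    · have e := congrFun hg ⟨n, Finset.mem_Icc.2 (abs_le.1 hn')⟩
      simp only [Finset.sum_apply, Pi.smul_apply, Pi.zero_apply, real_smul] at e
      simp only [Finset.mul_sum]
      rw [intervalIntegral.integral_finsetSum, ← e]
      · refine Finset.sum_congr rfl fun j _ => ?_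
        rw [← intervalIntegral.integral_const_mul]
        simp only [mul_left_comm]
      · intro j _
        have hc := cont_line_v (hS.hol j).pd.cont (left_mem_Icc.2 h.ann.hab.le)
        exact (Continuous.mul (by fun_prop) (continuous_const.mul hc)).intervalIntegrable _ _
  let s' := s.filter fun j => g j ≠ 0
  have hne : s'.Nonempty := ⟨j₀, Finset.mem_filter.2 ⟨hj₀, hj₀'⟩⟩
  have hk := s'.max'_mem hne
  have hk0 : g (s'.max' hne) ≠ 0 := (Finset.mem_filter.1 hk).2
  have key : ∀ p ∈ strip a b, ∑ j ∈ Finset.range (s'.max' hne + 1),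
      ((if j ∈ s' then g j / g (s'.max' hne) else 0 : ℝ) : ℂ) * S j p = 0 := fun p hp => by
    rw [← Finset.sum_subset (s₁ := s') (fun j hj => Finset.mem_range.2
      (Nat.lt_succ_of_le (s'.le_max' j hj))) fun j _ hj => by simp [hj]]
    have e : ∑ j ∈ s', (g j : ℂ) * S j p = 0 := by
      rw [← hT p hp]
      exact Finset.sum_filter_of_ne fun j _ hj h0 => hj (by simp [h0])
    rw [← zero_div (g (s'.max' hne) : ℂ), ← e, Finset.sum_div]
    refine Finset.sum_congr rfl fun j hj => ?_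
    rw [if_pos hj, ofReal_div]
    ring
  generalize s'.max' hne = k at hk hk0 key
  rcases k with _ | m
  · have := key _ (h.mem_b 0)
    simp [hk, hk0, hS.zero] at this
  · exact ⟨m, _, by rw [if_pos hk, div_self hk0], key⟩

end Cap

end Pool.Agent.Lib.MP_c7e804_gt
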