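import Pool.Agent.Lib.MP_c7e804_gt.H43XLax1

/-!
Polynomial Killing fields.
-/

namespace Pool.Agent.Lib.MP_c7e804_gt

open Matrix Set Complex
open scoped ContDiff ComplexConjugate

theorem xl_congr {n m : ℕ} {c c' : ℂ} {f f' : ℂ → ℂ} (h : IsPoly n c f) (hn : m = n)
    (hc : c' = c) (hf : ∀ κ, f' κ = f κ) : IsPoly m c' f' := by
  subst hn hc
  rwa [show f' = f from funext hf]

theorem xl_hol_Sk {a b τ : ℝ} {g : ℕ} {s : ℕ → ℝ × ℝ → ℂ} (hs : ∀ j, Hol a b τ (s j)) (κ : ℂ) :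
    Hol a b τ (Sk g s κ) :=
  Hol.sum (Finset.range (g + 1)) (f := fun j p => κ ^ j * s j p) fun j _ => (hs j).const_mul _

theorem xl_du_Sk {a b τ : ℝ} {g : ℕ} {s : ℕ → ℝ × ℝ → ℂ} (hs : ∀ j, Hol a b τ (s j)) (κ : ℂ)
    {p : ℝ × ℝ} (hp : p ∈ strip a b) : du (Sk g s κ) p = Sk g (fun j => du (s j)) κ p := by
  have := Hol.du_sum (Finset.range (g + 1)) (f := fun j p => κ ^ j * s j p)
    (fun j _ => (hs j).const_mul _) hp
  refine this.trans (Finset.sum_congr rfl fun j _ => ?_)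
  exact (hs j).du_const_mul _ hp

theorem xl_du2_Sk {a b τ : ℝ} (hab : a < b) {g : ℕ} {s : ℕ → ℝ × ℝ → ℂ}
    (hs : ∀ j, Hol a b τ (s j)) (κ : ℂ) {p : ℝ × ℝ} (hp : p ∈ strip a b) :
    du (du (Sk g s κ)) p = Sk g (fun j => du (du (s j))) κ p := by
  rw [Hol.du_congr hab ((xl_hol_Sk hs κ).du hab) (xl_hol_Sk (fun j => (hs j).du hab) κ)
    (fun r hr => xl_du_Sk hs κ hr) p hp]
  exact xl_du_Sk (fun j => (hs j).du hab) κ hp

theorem xl_poly_Sk (g : ℕ) (s : ℕ → ℝ × ℝ → ℂ) (p : ℝ × ℝ) :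
    IsPoly g (s g p) (fun κ => Sk g s κ p) := IsPoly.sum_range g fun j => s j p

namespace Cap
variable {ψ : ℝ × ℝ → V3} {a b τ θ : ℝ} (h : Cap ψ a b τ θ) {p : ℝ × ℝ}
include h

variable {g : ℕ} {s : ℕ → ℝ × ℝ → ℂ}

omit h in
theorem hol_Sk (hs : ∀ j, Hol a b τ (s j)) (κ : ℂ) : Hol a b τ (Sk g s κ) := xl_hol_Sk hs κ

theorem Xk_eq (hs : ∀ j, Hol a b τ (s j)) (κ : ℂ) (hp : p ∈ strip a b) :
    Xk ψ b g s κ p = ∑ j ∈ Finset.range (g + 1),
      (κ ^ j • Xv ψ b (s j) (fun _ => 0) p + (κ ^ (j + 1) * (2 * hq ψ b * s j p)) • ph ψ p) := by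
  have e : (fun r => κ * Sk g s κ r) =
      fun r => ∑ j ∈ Finset.range (g + 1), κ ^ j * (κ * s j r) := by
    funext r
    simp only [Sk, Finset.mul_sum]
    exact Finset.sum_congr rfl fun j _ => by ring
  have := h.Xv_sum (Finset.range (g + 1)) (fun j => κ ^ j) (T := s) (T' := fun j r => κ * s j r)
    (fun j _ => hs j) hp
  rw [Xk, e]
  refine this.trans (Finset.sum_congr rfl fun j _ => ?_)
  simp only [Xv]
  module

theorem pd_Xk (hk : PKill ψ a b τ θ g s) (κ : ℂ) :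
    PD a b (Xk ψ b g s κ) (fun r => (-(2 * I * κ)) • (ph ψ r ⨯₃ Xk ψ b g s κ r))
      (fun r => (2 * κ) • (ph ψ r ⨯₃ Xk ψ b g s κ r)) := by
  have hS : Hol a b τ (Sk g s κ) := xl_hol_Sk hk.hol κ
  have h1 := h.pd_Xv hS (hS.const_mul κ) (fun r hr => by
    rw [hk.ode κ r hr, hS.du_const_mul κ hr]; ring) (fun r => κ * (κ * Sk g s κ r))
  have e : ∀ r ∈ strip a b, Xv ψ b (fun r => κ * Sk g s κ r) (fun r => κ * (κ * Sk g s κ r)) r =
      κ • Xk ψ b g s κ r := fun r hr => by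
    have := h.Xv_sum (ι := Unit) {()} (fun _ => κ) (T := fun _ => Sk g s κ)
      (T' := fun _ r => κ * Sk g s κ r) (fun _ _ => hS) hr
    simp only [Finset.sum_singleton] at this
    exact this
  refine h1.congr (fun _ _ => rfl) (fun r hr => ?_) (fun r hr => ?_)
  · rw [e r hr, map_smul, smul_smul]; congr 1; ring
  · rw [e r hr, map_smul, smul_smul]

theorem per_Xk (hs : ∀ j, Hol a b τ (s j)) (κ : ℂ) (hp : p ∈ strip a b) :
    Xk ψ b g s κ (p.1, p.2 + τ) = Xk ψ b g s κ p := by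
  have hS : Hol a b τ (Sk g s κ) := xl_hol_Sk hs κ
  ext i
  exact (h.hol_Xv hS (hS.const_mul κ) i).per p hp

theorem Xk_ph (κ : ℂ) (hp : p ∈ strip a b) :
    Xk ψ b g s κ p ⬝ᵥ ph ψ p = (hq ψ b : ℂ) ^ 2 * Sk g s κ p := h.Xv_ph hp

theorem poly_Xk (hk : PKill ψ a b τ θ g s) (hp : p ∈ strip a b) (i : Fin 3) :
    IsPoly (g + 1) (2 * hq ψ b * ph ψ p i) (fun κ => Xk ψ b g s κ p i) := by
  have h1 := (IsPoly.sum_range g fun j => Xv ψ b (s j) (fun _ => 0) p i).mono (Nat.lt_succ_self g)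
  have h2 := (IsPoly.sum_range g fun j => 2 * (hq ψ b : ℂ) * s j p * ph ψ p i).mul IsPoly.id
  refine xl_congr (h1.add h2) rfl ?_ fun κ => ?_
  · rw [hk.top]; ring
  · rw [h.Xk_eq hk.hol κ hp, Finset.sum_apply, Finset.sum_mul, ← Finset.sum_add_distrib]
    refine Finset.sum_congr rfl fun j _ => ?_
    simp only [Pi.add_apply, Pi.smul_apply, smul_eq_mul]
    ring

theorem poly_XX (hk : PKill ψ a b τ θ g s) (hp : p ∈ strip a b) :
    IsPoly (2 * g + 1) (4 * (hq ψ b : ℂ) ^ 3) (fun κ => Xk ψ b g s κ p ⬝ᵥ Xk ψ b g s κ p) := by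
  have S0 := xl_poly_Sk g s p
  have S1 := xl_poly_Sk g (fun j => du (s j)) p
  have S2 := xl_poly_Sk g (fun j => du (du (s j))) p
  have t1 := ((IsPoly.const (4 * (hq ψ b : ℂ) ^ 3)).mul (S0.mul S0)).mul IsPoly.id
  have t2 := (((IsPoly.const (-2 * (hq ψ b : ℂ) ^ 2)).mul (S2.mul S0)).add
    ((IsPoly.const (-4 * (hq ψ b : ℂ) ^ 2 * UU ψ b p)).mul (S0.mul S0))).add
    ((IsPoly.const ((hq ψ b : ℂ) ^ 2)).mul (S1.mul S1))
  refine xl_congr (t1.add (t2.mono (Nat.lt_succ_self _))) (by omega) ?_ fun κ => ?_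
  · rw [hk.top]; ring
  · rw [Xk, h.Xv_Xv hp, xl_du2_Sk h.ann.hab hk.hol κ hp, xl_du_Sk hk.hol κ hp]
    ring

/-- matrix form of the boundary relation of a polynomial Killing field -/
theorem Km_Xk (hk : PKill ψ a b τ θ g s) (κ : ℝ) {u : ℝ} (hu : u = a ∨ u = b) (v : ℝ) :
    Km ψ θ κ (u, v) * sg (Xk ψ b g s κ (u, v))
      = sg (star (Xk ψ b g s κ (u, v))) * Km ψ θ κ (u, v) := by
  rw [Km_eq]
  exact bc_matrix (hk.bc κ u hu v).1 (hk.bc κ u hu v).2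

end Cap

end Pool.Agent.Lib.MP_c7e804_gt
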