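import Pool.Agent.Lib.MP_c7e804_gt.H43SpecDefs
import Pool.Agent.Lib.MP_c7e804_gt.H43XLax
import Pool.Agent.Lib.MP_c7e804_gt.H43Xi

/-!
The real polynomials of the spectral curve.
-/

namespace Pool.Agent.Lib.MP_c7e804_gt

open Matrix Set Complex
open scoped ContDiff ComplexConjugate

theorem spec1_dot_re (x : C3) : (x ⬝ᵥ x).re = re3 x ⬝ᵥ re3 x - im3 x ⬝ᵥ im3 x := by
  simp [dotProduct, Fin.sum_univ_three, re3, im3]
  ring

theorem spec1_dot_im (x : C3) : (x ⬝ᵥ x).im = 2 * (re3 x ⬝ᵥ im3 x) := by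
  simp [dotProduct, Fin.sum_univ_three, re3, im3]
  ring

theorem spec1_orth {n x y : V3} {d t c : ℝ} (hn : n ⬝ᵥ n = 1) (hd : d = 1 + t * c)
    (h1 : d • y + t • n ⨯₃ x = 0) (h2 : n ⬝ᵥ y = 0) : x ⬝ᵥ y = 0 := by
  by_cases hd0 : d = 0
  · have ht : t ≠ 0 := by
      rintro rfl
      rw [hd0] at hd
      simp at hd
    rw [hd0, zero_smul, zero_add] at h1
    have h3 : n ⨯₃ x = 0 := by
      rcases smul_eq_zero.mp h1 with h | h
      · exact absurd h ht
      · exact h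
    have h4 := cross_cross_eq_smul_sub_smul' n n x
    rw [h3, hn, one_smul, map_zero] at h4
    have h5 : x = (n ⬝ᵥ x) • n := (sub_eq_zero.mp h4.symm).symm
    rw [h5, smul_dotProduct, h2, smul_zero]
  · have h3 := congrArg (fun z => x ⬝ᵥ z) h1
    simp only [dotProduct_add, dotProduct_smul, dot_cross_self, mul_zero, add_zero,
      dotProduct_zero, smul_eq_mul] at h3
    rcases mul_eq_zero.mp h3 with h | h
    · exact absurd h hd0
    · exact h

theorem spec1_self_nonneg (x : V3) : 0 ≤ x ⬝ᵥ x := by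
  simp only [dotProduct, Fin.sum_univ_three]
  nlinarith [mul_self_nonneg (x 0), mul_self_nonneg (x 1), mul_self_nonneg (x 2)]

theorem spec1_lt {n x y : V3} {d t : ℝ} (hn : n ⬝ᵥ n = 1) (hd : |t| < d)
    (h1 : d • y + t • n ⨯₃ x = 0) (hx : x ≠ 0 ∨ y ≠ 0) : y ⬝ᵥ y < x ⬝ᵥ x := by
  have hd0 : 0 < d := lt_of_le_of_lt (abs_nonneg t) hd
  have h2 : d • y = -(t • n ⨯₃ x) := eq_neg_of_add_eq_zero_left h1
  have hx0 : x ≠ 0 := by
    rintro rfl
    rcases hx with h | h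
    · exact h rfl
    · apply h
      rw [map_zero, smul_zero, neg_zero] at h2
      rcases smul_eq_zero.mp h2 with h' | h'
      · exact absurd h' hd0.ne'
      · exact h'
  have hxx : 0 < x ⬝ᵥ x := by
    rcases (spec1_self_nonneg x).lt_or_eq with h | h
    · exact h
    · exact absurd (dotProduct_self_eq_zero.mp h.symm) hx0
  have h3 : d ^ 2 * (y ⬝ᵥ y) = t ^ 2 * (x ⬝ᵥ x - (n ⬝ᵥ x) ^ 2) := by
    have h4 : (d • y) ⬝ᵥ (d • y) = (t • n ⨯₃ x) ⬝ᵥ (t • n ⨯₃ x) := by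
      rw [h2, neg_dotProduct, dotProduct_neg, neg_neg]
    simp only [smul_dotProduct, dotProduct_smul, smul_eq_mul, cross_dot_cross, hn] at h4
    rw [dotProduct_comm x n] at h4
    linear_combination h4
  have h5 : t ^ 2 < d ^ 2 := by
    rw [← sq_abs t]
    exact pow_lt_pow_left₀ hd (abs_nonneg t) two_ne_zero
  have h6 : d ^ 2 * (y ⬝ᵥ y) < d ^ 2 * (x ⬝ᵥ x) := by
    rw [h3]
    nlinarith [sq_nonneg t, sq_nonneg (n ⬝ᵥ x), mul_nonneg (sq_nonneg t) (sq_nonneg (n ⬝ᵥ x))]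
  exact lt_of_mul_lt_mul_left h6 (sq_nonneg d)

theorem spec1_int_apply {f : ℝ → C3} {y y' : ℝ} (hf : IntervalIntegrable f MeasureTheory.volume y y')
    (i : Fin 3) : (∫ v in y..y', f v) i = ∫ v in y..y', f v i :=
  ((ContinuousLinearMap.proj (R := ℝ) (φ := fun _ : Fin 3 => ℂ) i).intervalIntegral_comp_comm
    hf).symm

theorem spec1_int_dot {f : ℝ → C3} {y y' : ℝ} (hf : IntervalIntegrable f MeasureTheory.volume y y')
    (x : C3) : ∫ v in y..y', x ⬝ᵥ f v = x ⬝ᵥ ∫ v in y..y', f v := by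
  have hi : ∀ i, IntervalIntegrable (fun v => f v i) MeasureTheory.volume y y' := fun i =>
    ⟨(ContinuousLinearMap.proj (R := ℝ) (φ := fun _ : Fin 3 => ℂ) i).integrable_comp hf.1,
      (ContinuousLinearMap.proj (R := ℝ) (φ := fun _ : Fin 3 => ℂ) i).integrable_comp hf.2⟩
  simp only [dotProduct]
  rw [intervalIntegral.integral_finsetSum (fun i _ => (hi i).const_mul (x i))]
  refine Finset.sum_congr rfl fun i _ => ?_
  rw [intervalIntegral.integral_const_mul, spec1_int_apply hf]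

theorem spec1_int_cross {f : ℝ → C3} {y y' : ℝ} (hf : Continuous f) (x : C3) :
    ∫ v in y..y', f v ⨯₃ x = (∫ v in y..y', f v) ⨯₃ x := by
  let L : C3 →L[ℂ] C3 := LinearMap.toContinuousLinearMap ((crossProduct (R := ℂ)).flip x)
  exact L.intervalIntegral_comp_comm (hf.intervalIntegrable y y')

theorem spec1_cont_cross {f g : ℝ → C3} (hf : Continuous f) (hg : Continuous g) :
    Continuous (fun v => f v ⨯₃ g v) := by
  refine continuous_pi fun i => ?_
  have h1 : ∀ j, Continuous (fun v => f v j) := fun j => (continuous_apply j).comp hf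
  have h2 : ∀ j, Continuous (fun v => g v j) := fun j => (continuous_apply j).comp hg
  fin_cases i <;> simp [cross_apply] <;> fun_prop

theorem spec1_poly_congr {n : ℕ} {c : ℂ} {f f' : ℂ → ℂ} (h : IsPoly n c f)
    (e : ∀ κ, f κ = f' κ) : IsPoly n c f' := by
  obtain ⟨P, h1, h2, h3⟩ := h
  exact ⟨P, h1, h2, fun κ => (h3 κ).trans (e κ)⟩

theorem spec1_poly_const_mul {n : ℕ} {c : ℂ} {f : ℂ → ℂ} (h : IsPoly n c f) (t : ℂ) :
    IsPoly n (t * c) (fun κ => t * f κ) := by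
  have := (IsPoly.const t).mul h
  rwa [zero_add] at this

/-- integrals of a polynomial family with integrable coefficients -/
theorem spec1_poly_int (n : ℕ) {c : ℕ → ℝ → ℂ} {y y' : ℝ}
    (hc : ∀ j, IntervalIntegrable (c j) MeasureTheory.volume y y') :
    IsPoly n (∫ v in y..y', c n v)
      (fun κ => ∫ v in y..y', ∑ j ∈ Finset.range (n + 1), κ ^ j * c j v) := by
  refine spec1_poly_congr (IsPoly.sum_range n (fun j => ∫ v in y..y', c j v)) fun κ => ?_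
  rw [intervalIntegral.integral_finsetSum (fun j _ => (hc j).const_mul (κ ^ j))]
  refine Finset.sum_congr rfl fun j _ => ?_
  rw [intervalIntegral.integral_const_mul]

namespace Setup
variable {ψ : ℝ × ℝ → V3} {a b τ θ : ℝ} {g : ℕ} {s : ℕ → ℝ × ℝ → ℂ} {F G : ℂ → ℝ × ℝ → M2}
  (h : Setup ψ a b τ θ g s F G)
include h

theorem X0_ne (κ : ℂ) : X0 ψ b g s κ ≠ 0 := h.kill.ne κ _ (h.cap.mem_b 0)

theorem Y_real (κ : ℝ) : (Yf ψ b g s κ).im = 0 := by
  obtain ⟨h1, h2⟩ := h.kill.bc κ b (Or.inr rfl) 0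
  rw [Yf, spec1_dot_im, X0, spec1_orth (h.cap.bd_unit (Or.inr rfl) 0) rfl h1 h2, mul_zero]

theorem Y_pos {κ : ℝ} (hκ : κ ∈ Ioo (ka θ) (kb θ)) : 0 < (Yf ψ b g s κ).re := by
  obtain ⟨h1, -⟩ := h.kill.bc κ b (Or.inr rfl) 0
  rw [Yf, spec1_dot_re, sub_pos]
  refine spec1_lt (h.cap.bd_unit (Or.inr rfl) 0) (abs_lt_of_mem h.cap.ann.hθa hκ) h1 ?_
  by_contra hne
  push Not at hne
  apply h.X0_ne κ
  rw [eq_re_im (X0 ψ b g s κ)]
  have e1 : re3 (X0 ψ b g s κ) = 0 := hne.1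
  have e2 : im3 (X0 ψ b g s κ) = 0 := hne.2
  rw [e1, e2]
  ext i
  simp [cv]

/-- the period of `X · φ` does not depend on the line -/
theorem Pf_eq (κ : ℂ) {u : ℝ} (hu : u ∈ Icc a b) :
    ∫ v in (0 : ℝ)..τ, Xk ψ b g s κ (u, v) ⬝ᵥ ph ψ (u, v) = Pf ψ b τ g s κ := by
  have hb : b ∈ Icc a b := ⟨h.cap.ann.hab.le, le_rfl⟩
  have hS : Hol a b τ (fun p => (hq ψ b : ℂ) ^ 2 * Sk g s κ p) :=
    (Cap.hol_Sk h.kill.hol κ).const_mul _
  have e : ∀ x ∈ Icc a b, ∫ v in (0 : ℝ)..τ, Xk ψ b g s κ (x, v) ⬝ᵥ ph ψ (x, v)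
      = ∫ v in (0 : ℝ)..τ, (hq ψ b : ℂ) ^ 2 * Sk g s κ (x, v) := by
    intro x hx
    refine intervalIntegral.integral_congr fun v _ => ?_
    exact h.cap.Xk_ph κ (p := (x, v)) hx
  rw [Pf, e u hu, e b hb]
  exact period_const hS.pd hS.per hu hb

theorem spec1_cont_ph {u : ℝ} (hu : u ∈ Icc a b) : Continuous (fun v => ph ψ (u, v)) :=
  cont_line_v h.cap.pd_ph.cont hu

theorem spec1_X_const : ∃ x : V3, x ≠ 0 ∧ ∀ p ∈ strip a b, Xk ψ b g s 0 p = cv x := by
  have hc : ∀ p ∈ strip a b, Xk ψ b g s 0 p = Xk ψ b g s 0 (b, 0) := fun p hp =>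
    (h.cap.pd_Xk h.kill.toPKill 0).eq_of_zero (by simp) (by simp) p hp _ (h.cap.mem_b 0)
  obtain ⟨h1, -⟩ := h.kill.bc 0 b (Or.inr rfl) 0
  simp only [zero_mul, add_zero, one_smul, zero_smul, Complex.ofReal_zero] at h1
  have h2 : Xk ψ b g s 0 (b, 0) = cv (re3 (Xk ψ b g s 0 (b, 0))) := by
    conv_lhs => rw [eq_re_im (Xk ψ b g s 0 (b, 0)), h1]
    ext i
    simp [cv]
  refine ⟨re3 (Xk ψ b g s 0 (b, 0)), ?_, fun p hp => (hc p hp).trans h2⟩
  intro h0
  apply h.kill.ne 0 _ (h.cap.mem_b 0)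
  rw [h2, h0]
  ext i
  simp [cv]

theorem spec1_int_cross_zero (κ : ℂ) :
    ∫ v in (0 : ℝ)..τ, ph ψ (b, v) ⨯₃ Xk ψ b g s κ (b, v) = 0 := by
  have hb : b ∈ Icc a b := ⟨h.cap.ann.hab.le, le_rfl⟩
  have hph := h.spec1_cont_ph hb
  have hXv : ∀ j, Continuous (fun v => Xv ψ b (s j) (fun _ => 0) (b, v)) := fun j =>
    continuous_pi fun i =>
      cont_line_v (h.cap.hol_Xv (h.kill.hol j) (Hol.const 0) i).pd.cont hb
  have hX : ∀ k : ℂ, Continuous (fun v => Xk ψ b g s k (b, v)) := fun k =>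
    cont_line_v (h.cap.pd_Xk h.kill.toPKill k).cont hb
  have hne : ∀ k : ℂ, k ≠ 0 →
      ∫ v in (0 : ℝ)..τ, ph ψ (b, v) ⨯₃ Xk ψ b g s k (b, v) = 0 := by
    intro k hk
    have h1 := (h.cap.pd_Xk h.kill.toPKill k).int_v hb 0 τ
    have h2 := h.cap.per_Xk (g := g) h.kill.hol k (h.cap.mem_b 0)
    simp only [zero_add] at h2
    rw [h2, sub_self, intervalIntegral.integral_smul] at h1
    rcases smul_eq_zero.mp h1 with h3 | h3
    · exact absurd h3 (mul_ne_zero two_ne_zero hk)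
    · exact h3
  ext i
  have hp : IsPoly g
      (∫ v in (0 : ℝ)..τ, (ph ψ (b, v) ⨯₃ Xv ψ b (s g) (fun _ => 0) (b, v)) i) (fun k : ℂ =>
      (∫ v in (0 : ℝ)..τ, ph ψ (b, v) ⨯₃ Xk ψ b g s k (b, v)) i) := by
    refine spec1_poly_congr (spec1_poly_int g
      (c := fun j v => (ph ψ (b, v) ⨯₃ Xv ψ b (s j) (fun _ => 0) (b, v)) i) (y := 0) (y' := τ)
      fun j => (((continuous_apply i).comp
        (spec1_cont_cross hph (hXv j))).intervalIntegrable _ _)) fun k => ?_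
    rw [spec1_int_apply ((spec1_cont_cross hph (hX k)).intervalIntegrable _ _)]
    refine intervalIntegral.integral_congr fun v _ => ?_
    rw [h.cap.Xk_eq h.kill.hol k (h.cap.mem_b v), map_sum, Finset.sum_apply]
    refine Finset.sum_congr rfl fun j _ => ?_
    simp only [map_add, map_smul, cross_self, smul_zero, add_zero, Pi.smul_apply, smul_eq_mul]
  refine hp.eq_zero {0} (fun k hk => ?_) κ
  rw [hne k (by simpa using hk)]
  rfl

/-- at `κ = 0` the Killing field is a constant real vector parallel to the flux -/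
theorem X_zero : ∃ x : V3, x ≠ 0 ∧ (∀ p ∈ strip a b, Xk ψ b g s 0 p = cv x) ∧
    x ⨯₃ flux ψ τ b = 0 ∧ Pf ψ b τ g s 0 = ((x ⬝ᵥ flux ψ τ b / 2 : ℝ) : ℂ) := by
  have hb : b ∈ Icc a b := ⟨h.cap.ann.hab.le, le_rfl⟩
  have hph := h.spec1_cont_ph hb
  obtain ⟨x, hx, hc⟩ := h.spec1_X_const
  refine ⟨x, hx, hc, ?_, ?_⟩
  · have h1 := h.spec1_int_cross_zero 0
    have h2 : ∫ v in (0 : ℝ)..τ, ph ψ (b, v) ⨯₃ Xk ψ b g s 0 (b, v)
        = ∫ v in (0 : ℝ)..τ, ph ψ (b, v) ⨯₃ cv x := by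
      refine intervalIntegral.integral_congr fun v _ => ?_
      rw [hc _ (h.cap.mem_b v)]
    rw [h2, spec1_int_cross hph, h.cap.int_ph hb, LinearMap.map_smul₂, cv_cross] at h1
    have h3 : cv (flux ψ τ b ⨯₃ x) = 0 := by
      rcases smul_eq_zero.mp h1 with h4 | h4
      · norm_num at h4
      · exact h4
    have h4 : flux ψ τ b ⨯₃ x = 0 := by
      ext i
      have := congrFun h3 i
      simpa [cv] using this
    rw [← cross_anticomm, h4, neg_zero]
  · have h2 : Pf ψ b τ g s 0 = ∫ v in (0 : ℝ)..τ, cv x ⬝ᵥ ph ψ (b, v) := by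
      refine intervalIntegral.integral_congr fun v _ => ?_
      rw [hc _ (h.cap.mem_b v)]
    rw [h2, spec1_int_dot (hph.intervalIntegrable _ _), h.cap.int_ph hb, dotProduct_smul, cv_dot]
    push_cast
    rw [smul_eq_mul]
    ring

theorem R_zero : (Rf ψ a b θ g s (0 : ℝ)).re = 0 := by
  have hab := h.cap.ann.hab
  have ha : a ∈ Icc a b := ⟨le_rfl, hab.le⟩
  have hb : b ∈ Icc a b := ⟨hab.le, le_rfl⟩
  obtain ⟨x, -, hc⟩ := h.spec1_X_const
  have hph : IntervalIntegrable (fun u => ph ψ (u, 0)) MeasureTheory.volume a b := by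
    refine ContinuousOn.intervalIntegrable ?_
    rw [uIcc_of_le hab.le]
    exact cont_line_u h.cap.pd_ph.cont 0
  have hsph : IntervalIntegrable (fun u => star (ph ψ (u, 0))) MeasureTheory.volume a b := by
    refine ContinuousOn.intervalIntegrable ?_
    rw [uIcc_of_le hab.le]
    exact cont_line_u h.cap.pd_ph.star.cont 0
  have h1 : ∫ u in a..b, Xk ψ b g s 0 (u, 0) ⬝ᵥ ph ψ (u, 0)
      = cv x ⬝ᵥ ∫ u in a..b, ph ψ (u, 0) := by
    rw [← spec1_int_dot hph]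
    refine intervalIntegral.integral_congr fun u hu => ?_
    rw [uIcc_of_le hab.le] at hu
    rw [hc (u, 0) hu]
  have h2 := h.cap.pd_psi.cv.int_u ha hb 0
  simp only [Cap.cv_du] at h2
  rw [intervalIntegral.integral_add hph hsph] at h2
  have h3 : ∫ u in a..b, star (ph ψ (u, 0)) = star (∫ u in a..b, ph ψ (u, 0)) := by
    ext i
    rw [spec1_int_apply hsph, Pi.star_apply, spec1_int_apply hph]
    exact intervalIntegral.intervalIntegral_conj
  rw [h3] at h2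
  have h4 : re3 (∫ u in a..b, ph ψ (u, 0)) = (1 / 2 : ℝ) • (ψ (b, 0) - ψ (a, 0)) := by
    ext i
    have := congrArg Complex.re (congrFun h2 i)
    simp [cv] at this
    simp only [re3, Pi.smul_apply, Pi.sub_apply, smul_eq_mul]
    linarith
  rw [Rf, Complex.ofReal_zero, h1, hc _ (h.cap.mem_a 0), hc _ (h.cap.mem_b 0), cv_dot, cv_dot]
  have h5 := cv_dot_re x (∫ u in a..b, ph ψ (u, 0))
  rw [h4, dotProduct_smul, dotProduct_sub, dotProduct_comm x, dotProduct_comm x] at h5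
  simp only [zero_mul, add_zero, one_pow, ne_eq, OfNat.ofNat_ne_zero, not_false_eq_true, zero_pow,
    sub_zero, mul_one, Complex.sub_re, Complex.mul_re, Complex.re_ofNat, Complex.im_ofNat,
    Complex.ofReal_re, h5, smul_eq_mul]
  ring

theorem spec1_poly_P : IsPoly g ((hq ψ b : ℂ) ^ 2 * τ) (Pf ψ b τ g s) := by
  have hb : b ∈ Icc a b := ⟨h.cap.ann.hab.le, le_rfl⟩
  have hp := spec1_poly_const_mul (spec1_poly_int g (c := fun j v => s j (b, v)) (y := 0) (y' := τ)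
    fun j => (cont_line_v (h.kill.hol j).pd.cont hb).intervalIntegrable _ _) ((hq ψ b : ℂ) ^ 2)
  have e : ∫ v in (0 : ℝ)..τ, s g (b, v) = τ := by
    rw [h.kill.top]
    simp
  rw [e] at hp
  refine spec1_poly_congr hp fun κ => ?_
  rw [Pf, ← intervalIntegral.integral_const_mul]
  refine intervalIntegral.integral_congr fun v _ => ?_
  exact (h.cap.Xk_ph κ (h.cap.mem_b v)).symm

theorem spec1_poly_J : IsPoly g ((hq ψ b : ℂ) ^ 2 * ((b - a : ℝ) : ℂ))
    (fun κ => ∫ u in a..b, Xk ψ b g s κ (u, 0) ⬝ᵥ ph ψ (u, 0)) := by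
  have hab := h.cap.ann.hab
  have hp := spec1_poly_const_mul (spec1_poly_int g (c := fun j u => s j (u, 0)) (y := a) (y' := b)
    fun j => by
      refine ContinuousOn.intervalIntegrable ?_
      rw [uIcc_of_le hab.le]
      exact cont_line_u (h.kill.hol j).pd.cont 0) ((hq ψ b : ℂ) ^ 2)
  have e : ∫ u in a..b, s g (u, 0) = ((b - a : ℝ) : ℂ) := by
    rw [h.kill.top]
    simp
  rw [e] at hp
  refine spec1_poly_congr hp fun κ => ?_
  rw [← intervalIntegral.integral_const_mul]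
  refine intervalIntegral.integral_congr fun u hu => ?_
  rw [uIcc_of_le hab.le] at hu
  exact (h.cap.Xk_ph κ (p := (u, 0)) hu).symm

theorem spec1_poly_dot (y : C3) {p : ℝ × ℝ} (hp : p ∈ strip a b) :
    IsPoly (g + 2) 0 (fun κ => y ⬝ᵥ Xk ψ b g s κ p) := by
  have hi := fun i => spec1_poly_const_mul (h.cap.poly_Xk h.kill.toPKill hp i) (y i)
  refine spec1_poly_congr ((((hi 0).add (hi 1)).add (hi 2)).mono (by omega)) fun κ => ?_
  simp only [dotProduct, Fin.sum_univ_three]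

theorem spec1_poly_R : IsPoly (g + 2)
    ((4 * Real.sin θ ^ 2 * (hq ψ b ^ 2 * (b - a)) : ℝ) : ℂ) (Rf ψ a b θ g s) := by
  have h1 := spec1_poly_const_mul (h.spec1_poly_dot (cv (ψ (b, 0))) (h.cap.mem_b 0)) 2
  have h2 := spec1_poly_const_mul (h.spec1_poly_dot (cv (ψ (a, 0))) (h.cap.mem_a 0)) (-2)
  have h3 := IsPoly.sum_range 2 (fun j => if j = 0 then (-4 : ℂ) else if j = 1 then
    -8 * (Real.cos θ : ℂ) else 4 * (1 - (Real.cos θ : ℂ) ^ 2))
  have h4 := h.spec1_poly_J.mul h3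
  have h5 := (h1.add h2).add h4
  have e : (2 : ℂ) * 0 + -2 * 0 + (hq ψ b : ℂ) ^ 2 * ((b - a : ℝ) : ℂ) *
      (if (2 : ℕ) = 0 then (-4 : ℂ) else if (2 : ℕ) = 1 then -8 * (Real.cos θ : ℂ)
        else 4 * (1 - (Real.cos θ : ℂ) ^ 2))
      = ((4 * Real.sin θ ^ 2 * (hq ψ b ^ 2 * (b - a)) : ℝ) : ℂ) := by
    rw [Real.sin_sq, if_neg (by norm_num), if_neg (by norm_num)]
    push_cast
    ring
  rw [e] at h5
  refine spec1_poly_congr h5 fun κ => ?_
  rw [Rf]
  simp only [Finset.sum_range_succ, Finset.sum_range_zero]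
  norm_num
  ring

theorem exists_polys (hP : ∀ κ : ℝ, (Pf ψ b τ g s κ).im = 0) :
    ∃ Y P R, Polys ψ a b τ θ g s Y P R := by
  have hq0 := h.cap.q_pos
  have hτ := h.cap.ann.hτ
  have hab := h.cap.ann.hab
  have hs := h.cap.sin_pos
  obtain ⟨Y, Y1, Y2, -, Y4⟩ := (h.cap.poly_XX h.kill.toPKill (h.cap.mem_b 0)).exists_real (by
    have : (4 * (hq ψ b : ℂ) ^ 3) = ((4 * hq ψ b ^ 3 : ℝ) : ℂ) := by push_cast; ring
    rw [this, Complex.ofReal_re]
    positivity)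
  obtain ⟨P, P1, P2, P3, -⟩ := h.spec1_poly_P.exists_real (by
    have : ((hq ψ b : ℂ) ^ 2 * τ) = ((hq ψ b ^ 2 * τ : ℝ) : ℂ) := by push_cast; ring
    rw [this, Complex.ofReal_re]
    positivity)
  obtain ⟨R, R1, R2, R3, -⟩ := h.spec1_poly_R.exists_real (by
    rw [Complex.ofReal_re]
    have : 0 < b - a := sub_pos.mpr hab
    positivity)
  refine ⟨Y, P, R, Y1, Y2, P1, P2, R1, R2, Y4 h.Y_real, fun κ => ?_, R3⟩
  rw [P3]
  exact Complex.ext (by simp) (by simp [hP κ])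

end Setup

end Pool.Agent.Lib.MP_c7e804_gt
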