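import Pool.Agent.Lib.MP_c7e804_gt.H43Spec2a

/-!
Derivatives of the monodromy.
-/

namespace Pool.Agent.Lib.MP_c7e804_gt

open Matrix Set Complex
open scoped ContDiff ComplexConjugate

/-- entrywise derivative of a matrix valued function of a real variable -/
def s2MD (f : ℝ → M2) (f' : M2) (κ : ℝ) : Prop :=
  ∀ i j, HasDerivAt (fun k => f k i j) (f' i j) κ

theorem s2MD.const (M : M2) (κ : ℝ) : s2MD (fun _ => M) 0 κ :=
  fun i j => hasDerivAt_const κ (M i j)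

theorem s2MD.add {f g : ℝ → M2} {f' g' : M2} {κ : ℝ} (hf : s2MD f f' κ) (hg : s2MD g g' κ) :
    s2MD (fun k => f k + g k) (f' + g') κ :=
  fun i j => (hf i j).add (hg i j)

theorem s2MD.smul {c : ℝ → ℂ} {c' : ℂ} {f : ℝ → M2} {f' : M2} {κ : ℝ} (hc : HasDerivAt c c' κ)
    (hf : s2MD f f' κ) : s2MD (fun k => c k • f k) (c' • f κ + c κ • f') κ :=
  fun i j => hc.mul (hf i j)

theorem s2MD.mul {f g : ℝ → M2} {f' g' : M2} {κ : ℝ} (hf : s2MD f f' κ) (hg : s2MD g g' κ) :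
    s2MD (fun k => f k * g k) (f' * g κ + f κ * g') κ := by
  intro i j
  have := ((hf i 0).fun_mul (hg 0 j)).fun_add ((hf i 1).fun_mul (hg 1 j))
  simp only [Matrix.add_apply, Matrix.mul_apply, Fin.sum_univ_two]
  exact this.congr_deriv (by ring)

theorem s2MD.trace {f : ℝ → M2} {f' : M2} {κ : ℝ} (hf : s2MD f f' κ) :
    HasDerivAt (fun k => (f k).trace) f'.trace κ := by
  simp only [Matrix.trace_fin_two]
  exact (hf 0 0).add (hf 1 1)

theorem s2MD.sg {x : ℝ → C3} {x' : C3} {κ : ℝ} (hx : ∀ i, HasDerivAt (fun k => x k i) (x' i) κ) :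
    s2MD (fun k => sg (x k)) (sg x') κ := by
  intro i j
  fin_cases i <;> fin_cases j
  · exact hx 2
  · exact (hx 0).sub ((hx 1).const_mul I)
  · exact (hx 0).add ((hx 1).const_mul I)
  · exact (hx 2).neg

theorem s2MD.unique {f g : ℝ → M2} {f' g' : M2} {κ : ℝ} (hf : s2MD f f' κ) (hg : s2MD g g' κ)
    (e : ∀ᶠ k in nhds κ, f k = g k) : f' = g' := by
  ext i j
  refine (hf i j).unique ((hg i j).congr_of_eventuallyEq ?_)
  filter_upwards [e] with k hk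
  rw [hk]

theorem s2_dot {x : ℝ → C3} {x' : C3} {y : ℝ → C3} {y' : C3} {κ : ℝ}
    (hx : ∀ i, HasDerivAt (fun k => x k i) (x' i) κ)
    (hy : ∀ i, HasDerivAt (fun k => y k i) (y' i) κ) :
    HasDerivAt (fun k => x k ⬝ᵥ y k) (x' ⬝ᵥ y κ + x κ ⬝ᵥ y') κ := by
  have := (((hx 0).fun_mul (hy 0)).fun_add ((hx 1).fun_mul (hy 1))).fun_add
    ((hx 2).fun_mul (hy 2))
  simp only [dotProduct, Fin.sum_univ_three]
  exact this.congr_deriv (by ring)

theorem s2_re {f : ℝ → ℂ} {f' : ℂ} {κ : ℝ} (hf : HasDerivAt f f' κ) :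
    HasDerivAt (fun k => (f k).re) f'.re κ :=
  Complex.reCLM.hasFDerivAt.comp_hasDerivAt κ hf

theorem s2_alg3 (x x' : C3) (T β T' β' : ℂ) :
    (sg x * ((T • (1 : M2) - β • sg x) * (T' • (1 : M2) + (β' • sg x + β • sg x')))).trace
      = T * (2 * β' * (x ⬝ᵥ x) + β * (x' ⬝ᵥ x + x ⬝ᵥ x')) - 2 * β * (x ⬝ᵥ x) * T' := by
  have e : sg x * sg x = (x ⬝ᵥ x) • (1 : M2) := by
    rw [sg_mul, cross_self, sg_zero, smul_zero, add_zero]
  have e1 : sg x * (T • (1 : M2) - β • sg x) = T • sg x - (β * (x ⬝ᵥ x)) • (1 : M2) := by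
    rw [mul_sub, Matrix.mul_smul, Matrix.mul_smul, mul_one, e, smul_smul]
  rw [← mul_assoc, e1, dotProduct_comm x' x]
  simp only [sub_mul, mul_add, Matrix.mul_smul, Matrix.smul_mul, mul_one, one_mul,
    Matrix.trace_add, Matrix.trace_sub, Matrix.trace_smul, trace_sg, trace_sg_mul, smul_eq_mul,
    Matrix.trace_one, Fintype.card_fin]
  push_cast
  ring

namespace Setup
variable {ψ : ℝ × ℝ → V3} {a b τ θ : ℝ} {g : ℕ} {s : ℕ → ℝ × ℝ → ℂ} {F G : ℂ → ℝ × ℝ → M2}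
  (h : Setup ψ a b τ θ g s F G)
include h

theorem s2_X (κ : ℝ) : ∃ x' : C3, ∀ i, HasDerivAt (fun k : ℝ => X0 ψ b g s k i) (x' i) κ := by
  refine ⟨fun i => deriv (fun z : ℂ => X0 ψ b g s z i) κ, fun i => ?_⟩
  exact ((h.cap.poly_Xk h.kill.toPKill (h.cap.mem_b 0) i).differentiable
    (κ : ℂ)).hasDerivAt.comp_ofReal

theorem s2_F (κ : ℝ) : s2MD (fun k : ℝ => F k (b, τ)) (G κ (b, τ)) κ :=
  fun i j => (h.frame.der κ _ (h.cap.mem_b τ) i j).comp_ofReal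

theorem s2_D (κ : ℝ) : ∃ D', HasDerivAt (Dk b τ F) D' κ :=
  ⟨_, s2_re ((h.s2_F κ).trace.div_const 2)⟩

theorem s2_α (κ : ℝ) : ∃ α', HasDerivAt (alk ψ b τ g s F) α' κ := by
  obtain ⟨x', hx⟩ := h.s2_X κ
  have hs : ∀ i, HasDerivAt (fun k : ℝ => star (X0 ψ b g s k) i) (star x' i) κ :=
    fun i => (hx i).star
  have hne : 2 * I * (X0 ψ b g s κ ⬝ᵥ star (X0 ψ b g s κ)) ≠ 0 := by
    refine mul_ne_zero (mul_ne_zero two_ne_zero I_ne_zero) fun e => ?_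
    have := (dot_star_pos (h.X0_ne κ)).1
    rw [e] at this
    simp at this
  exact ⟨_, s2_re (((h.s2_F κ).mul (s2MD.sg hs)).trace.fun_div
    ((s2_dot hx hs).const_mul (2 * I)) hne)⟩

theorem s2_Yre (κ : ℝ) :
    (((Yf ψ b g s κ).re : ℝ) : ℂ) = X0 ψ b g s κ ⬝ᵥ X0 ψ b g s κ := by
  have := h.Y_real κ
  apply Complex.ext
  · rw [Complex.ofReal_re, Yf]
  · rw [Complex.ofReal_im, ← this, Yf]

theorem deriv_aux (κ : ℝ) : ∃ D' α' Y' : ℝ, HasDerivAt (Dk b τ F) D' κ ∧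
    HasDerivAt (alk ψ b τ g s F) α' κ ∧ HasDerivAt (fun k : ℝ => (Yf ψ b g s k).re) Y' κ ∧
    (D' : ℂ) = alk ψ b τ g s F κ * Pf ψ b τ g s κ ∧
    ((2 * α' * (Yf ψ b g s κ).re + alk ψ b τ g s F κ * Y' : ℝ) : ℂ)
      = -2 * Dk b τ F κ * Pf ψ b τ g s κ := by
  obtain ⟨D', hD⟩ := h.s2_D κ
  obtain ⟨α', hα⟩ := h.s2_α κ
  obtain ⟨x', hx⟩ := h.s2_X κ
  have hYc := s2_dot hx hx
  have hY : HasDerivAt (fun k : ℝ => (Yf ψ b g s k).re)
      (x' ⬝ᵥ X0 ψ b g s κ + X0 ψ b g s κ ⬝ᵥ x').re κ := s2_re hYc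
  generalize hY'def : (x' ⬝ᵥ X0 ψ b g s κ + X0 ψ b g s κ ⬝ᵥ x').re = Y' at hY
  have hY' : ((Y' : ℝ) : ℂ) = x' ⬝ᵥ X0 ψ b g s κ + X0 ψ b g s κ ⬝ᵥ x' := by
    refine hY.ofReal_comp.unique ?_
    have e : (fun k : ℝ => (((Yf ψ b g s k).re : ℝ) : ℂ))
        = fun k : ℝ => X0 ψ b g s k ⬝ᵥ X0 ψ b g s k := funext h.s2_Yre
    rw [e]
    exact hYc
  have q0 := h.quadD κ
  have q1 : 2 * Dk b τ F κ * D' + alk ψ b τ g s F κ *
      (2 * α' * (Yf ψ b g s κ).re + alk ψ b τ g s F κ * Y') = 0 := by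
    have d1 := (hD.fun_mul hD).fun_add ((hα.fun_mul hα).fun_mul hY)
    have d2 : HasDerivAt (fun k : ℝ => Dk b τ F k * Dk b τ F k
        + alk ψ b τ g s F k * alk ψ b τ g s F k * (Yf ψ b g s k).re) 0 κ := by
      refine (hasDerivAt_const κ (1 : ℝ)).congr_of_eventuallyEq ?_
      filter_upwards with k
      have := h.quadD k
      linear_combination this
    have := d1.unique d2
    linear_combination this
  have hMd := (s2MD.smul hD.ofReal_comp (s2MD.const (1 : M2) κ)).add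
    (s2MD.smul (hα.ofReal_comp.const_mul I) (s2MD.sg hx))
  rw [smul_zero, add_zero] at hMd
  have hG := (h.s2_F κ).unique hMd (by
    filter_upwards with k
    exact h.M_eq k)
  have hadj : (F κ (b, τ)).adjugate = (Dk b τ F κ : ℂ) • (1 : M2)
      - (I * alk ψ b τ g s F κ) • sg (X0 ψ b g s κ) := by
    conv_lhs => rw [h.M_eq κ, ← sg_smul, adj_sg, sg_smul]
  have main := h.cap.trace_XG_b h.frame (h.cap.pd_Xk h.kill.toPKill κ)
  change (sg (X0 ψ b g s κ) * _).trace = -(2 * I) * Pf ψ b τ g s κ at main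
  rw [hadj, hG, s2_alg3, ← hY', ← h.s2_Yre] at main
  have key : (Dk b τ F κ : ℂ) * (2 * α' * ((Yf ψ b g s κ).re : ℂ) + alk ψ b τ g s F κ * Y')
      - 2 * alk ψ b τ g s F κ * ((Yf ψ b g s κ).re : ℂ) * D' = -2 * Pf ψ b τ g s κ := by
    apply mul_left_cancel₀ I_ne_zero
    linear_combination main
  have q0' : (Dk b τ F κ : ℂ) ^ 2 + (alk ψ b τ g s F κ : ℂ) ^ 2 * ((Yf ψ b g s κ).re : ℂ) = 1 := by
    exact_mod_cast q0
  have q1' : 2 * (Dk b τ F κ : ℂ) * D' + alk ψ b τ g s F κ *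
      (2 * α' * ((Yf ψ b g s κ).re : ℂ) + alk ψ b τ g s F κ * Y') = 0 := by
    exact_mod_cast q1
  refine ⟨D', α', Y', hD, hα, hY, ?_, ?_⟩
  · linear_combination (-(D' : ℂ)) * q0' + ((Dk b τ F κ : ℂ) / 2) * q1'
      - ((alk ψ b τ g s F κ : ℂ) / 2) * key
  · push_cast
    linear_combination
      (-(2 * (α' : ℂ) * ((Yf ψ b g s κ).re : ℂ) + alk ψ b τ g s F κ * Y')) * q0'
        + ((alk ψ b τ g s F κ : ℂ) * ((Yf ψ b g s κ).re : ℂ)) * q1' + (Dk b τ F κ : ℂ) * key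

theorem P_real (κ : ℝ) : (Pf ψ b τ g s κ).im = 0 := by
  obtain ⟨D', α', Y', -, -, -, e1, e2⟩ := h.deriv_aux κ
  have i1 := congrArg Complex.im e1
  have i2 := congrArg Complex.im e2
  rw [Complex.ofReal_im] at i1 i2
  have q0 := h.quadD κ
  have j1 : alk ψ b τ g s F κ * (Pf ψ b τ g s κ).im = 0 := by
    rw [Complex.im_ofReal_mul] at i1
    exact i1.symm
  have j2 : Dk b τ F κ * (Pf ψ b τ g s κ).im = 0 := by
    have e : (-2 : ℂ) * Dk b τ F κ = ((-2 * Dk b τ F κ : ℝ) : ℂ) := by push_cast; ring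
    rw [e, Complex.im_ofReal_mul] at i2
    linear_combination i2 / 2
  linear_combination (-(Pf ψ b τ g s κ).im) * q0 + Dk b τ F κ * j2
    + alk ψ b τ g s F κ * (Yf ψ b g s κ).re * j1

variable {Y P R : Polynomial ℝ} (hp : Polys ψ a b τ θ g s Y P R)
include hp

theorem dD (κ : ℝ) : HasDerivAt (Dk b τ F) (alk ψ b τ g s F κ * P.eval κ) κ := by
  obtain ⟨D', α', Y', hD, -, -, e1, -⟩ := h.deriv_aux κ
  rw [← hp.Pev] at e1
  exact hD.congr_deriv (by exact_mod_cast e1)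

theorem dα (κ : ℝ) : ∃ α', HasDerivAt (alk ψ b τ g s F) α' κ ∧
    2 * α' * Y.eval κ + alk ψ b τ g s F κ * Y.derivative.eval κ
      = -2 * Dk b τ F κ * P.eval κ := by
  obtain ⟨D', α', Y', -, hα, hY, -, e2⟩ := h.deriv_aux κ
  have hYre : ∀ k : ℝ, (Yf ψ b g s k).re = Y.eval k := fun k => by
    rw [← hp.Yev k]
    have : Polynomial.aeval (k : ℂ) Y = ((Y.eval k : ℝ) : ℂ) :=
      Polynomial.aeval_algebraMap_apply_eq_algebraMap_eval k Y
    rw [this, Complex.ofReal_re]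
  have e : (fun k : ℝ => (Yf ψ b g s k).re) = fun k => Y.eval k := funext hYre
  rw [e] at hY
  have hY' := hY.unique (Y.hasDerivAt κ)
  rw [← hp.Pev, hYre, hY'] at e2
  exact ⟨α', hα, by exact_mod_cast e2⟩

end Setup

end Pool.Agent.Lib.MP_c7e804_gt
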