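import Pool.Agent.Lib.MP_c7e804_gt.H43Spec1
import Pool.Agent.Lib.MP_c7e804_gt.H43FPr

/-!
The monodromy along the periodic direction.
-/

namespace Pool.Agent.Lib.MP_c7e804_gt

open Matrix Set Complex
open scoped ContDiff ComplexConjugate

theorem s2a_det_sg (x : C3) : (sg x).det = -(x ⬝ᵥ x) := by
  have := det_sg 0 x
  simpa using this

theorem s2a_null {n : V3} {x : C3} {k : ℝ} (hk : k ≠ 0) (hn : n ⬝ᵥ n = 1)
    (h1 : k • im3 x + k • n ⨯₃ re3 x = 0) (h0 : x ⬝ᵥ x = 0) : n ⬝ᵥ re3 x = 0 := by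
  have e : im3 x = -(n ⨯₃ re3 x) := by
    have : k • (im3 x + n ⨯₃ re3 x) = 0 := by rw [smul_add]; exact h1
    rcases smul_eq_zero.1 this with h | h
    · exact absurd h hk
    · exact eq_neg_of_add_eq_zero_left h
  have e2 : re3 x ⬝ᵥ re3 x = im3 x ⬝ᵥ im3 x := by
    have := congrArg Complex.re h0
    simp only [dotProduct, Fin.sum_univ_three, add_re, mul_re, zero_re] at this
    simp only [dotProduct, Fin.sum_univ_three, re3, im3]
    linarith
  rw [e, neg_dotProduct_neg, cross_dot_cross, hn, dotProduct_comm (re3 x) n] at e2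
  have : (n ⬝ᵥ re3 x) * (n ⬝ᵥ re3 x) = 0 := by linarith
  exact mul_self_eq_zero.1 this

theorem s2a_coef {x : C3} (hx : x ≠ 0) {M : M2} (h : M * sg x = sg x * M) :
    M = (M.trace / 2) • (1 : M2) + ((M * sg (star x)).trace / (2 * (x ⬝ᵥ star x))) • sg x := by
  obtain ⟨d, t, e⟩ := centralizer hx h
  have hne : x ⬝ᵥ star x ≠ 0 := by
    intro h0
    have := (dot_star_pos hx).1
    rw [h0] at this
    simp at this
  have e1 : M.trace / 2 = d := by
    rw [e, trace_add, trace_smul, trace_smul, trace_sg, trace_one]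
    simp
  have e2 : (M * sg (star x)).trace / (2 * (x ⬝ᵥ star x)) = t := by
    rw [e, add_mul, smul_mul_assoc, smul_mul_assoc, one_mul, trace_add, trace_smul, trace_smul,
      trace_sg, trace_sg_mul]
    simp only [smul_eq_mul, mul_zero, zero_add]
    field_simp
  rw [e1, e2]
  exact e

theorem s2a_unit {x : C3} (hx : x ≠ 0) {K M : M2} {d t : ℂ} (hK : K.det ≠ 0)
    (hM : M = d • (1 : M2) + t • sg x) (hdet : M.det = 1) (hu : Mᴴ * K * M = K)
    (hKx : K * sg x = sg (star x) * K) : d.im = 0 ∧ t.re = 0 := by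
  have hadj : M.adjugate = d • (1 : M2) - t • sg x := by
    rw [hM, ← sg_smul, adj_sg]
  have hinv : M * M.adjugate = 1 := by
    rw [mul_adjugate, hdet, one_smul]
  have h1 : Mᴴ * K = K * (d • (1 : M2) - t • sg x) := by
    rw [← hadj]
    calc Mᴴ * K = Mᴴ * K * (M * M.adjugate) := by rw [hinv, mul_one]
      _ = (Mᴴ * K * M) * M.adjugate := by simp only [mul_assoc]
      _ = K * M.adjugate := by rw [hu]
  have h2 : Mᴴ * K = K * (conj d • (1 : M2) + conj t • sg x) := by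
    rw [hM, conjTranspose_add, conjTranspose_smul, conjTranspose_smul, conjTranspose_one, sg_ct,
      add_mul, mul_add, smul_mul_assoc, smul_mul_assoc, mul_smul_comm, mul_smul_comm, hKx,
      one_mul, mul_one]
    rfl
  have h3 : K * ((conj d - d) • (1 : M2) + sg ((conj t + t) • x)) = 0 := by
    have : (conj d - d) • (1 : M2) + sg ((conj t + t) • x)
        = (conj d • (1 : M2) + conj t • sg x) - (d • (1 : M2) - t • sg x) := by
      rw [sg_smul, sub_smul, add_smul]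
      abel
    rw [this, mul_sub, ← h1, ← h2, sub_self]
  have h4 : (conj d - d) • (1 : M2) + sg ((conj t + t) • x) = 0 := by
    have hk : K.adjugate * K = K.det • (1 : M2) := adjugate_mul K
    have : K.det • ((conj d - d) • (1 : M2) + sg ((conj t + t) • x)) = 0 := by
      calc _ = (K.adjugate * K) * ((conj d - d) • (1 : M2) + sg ((conj t + t) • x)) := by
            rw [hk, smul_mul_assoc, one_mul]
        _ = 0 := by rw [mul_assoc, h3, mul_zero]
    exact (smul_eq_zero.1 this).resolve_left hK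
  obtain ⟨h5, h6⟩ := sg_inj h4
  have h7 : conj t + t = 0 := (smul_eq_zero.1 h6).resolve_right hx
  constructor
  · have := congrArg Complex.im h5
    simp only [sub_im, conj_im, zero_im] at this
    linarith
  · have := congrArg Complex.re h7
    simp only [add_re, conj_re, zero_re] at this
    linarith

theorem s2a_ext {f : ℝ → ℝ} (hf : Continuous f) {k k' : ℝ}
    (h : ∀ x, x ≠ k → x ≠ k' → f x = 0) (x : ℝ) : f x = 0 := by
  have hd : Dense (({k, k'} : Set ℝ)ᶜ) :=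
    Set.Countable.dense_compl ℝ ((Set.finite_singleton k').insert k).countable
  have : f = fun _ => 0 := by
    refine Continuous.ext_on hd hf continuous_const ?_
    intro y hy
    simp only [mem_compl_iff, mem_insert_iff, mem_singleton_iff, not_or] at hy
    exact h y hy.1 hy.2
  rw [this]

theorem s2a_cont_sg : Continuous (sg : C3 → M2) := by
  refine continuous_matrix ?_
  intro i j
  fin_cases i <;> fin_cases j <;> simp [sg] <;> fun_prop

namespace Setup
variable {ψ : ℝ × ℝ → V3} {a b τ θ : ℝ} {g : ℕ} {s : ℕ → ℝ × ℝ → ℂ} {F G : ℂ → ℝ × ℝ → M2}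
  (h : Setup ψ a b τ θ g s F G)
include h

theorem s2a_conj (κ : ℂ) {p : ℝ × ℝ} (hp : p ∈ strip a b) :
    sg (Xk ψ b g s κ p) * F κ p = F κ p * sg (X0 ψ b g s κ) :=
  h.cap.lax_conj h.frame (h.cap.pd_Xk h.kill.toPKill κ) hp

theorem XX_const (κ : ℂ) {p : ℝ × ℝ} (hp : p ∈ strip a b) :
    Xk ψ b g s κ p ⬝ᵥ Xk ψ b g s κ p = Yf ψ b g s κ := by
  have e := congrArg Matrix.det (h.s2a_conj κ hp)
  rw [det_mul, det_mul, h.cap.det_F h.frame κ hp, s2a_det_sg, s2a_det_sg, mul_one, one_mul] at e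
  exact neg_injective e

theorem M_comm (κ : ℂ) :
    F κ (b, τ) * sg (X0 ψ b g s κ) = sg (X0 ψ b g s κ) * F κ (b, τ) := by
  have e := h.s2a_conj κ (h.cap.mem_b τ)
  have e2 := h.cap.per_Xk (g := g) h.kill.hol κ (h.cap.mem_b 0)
  simp only [zero_add] at e2
  rw [e2] at e
  exact e.symm

theorem Ha_X (κ : ℝ) :
    Ha ψ a θ F κ * sg (X0 ψ b g s κ) = sg (star (X0 ψ b g s κ)) * Ha ψ a θ F κ := by
  have e := h.s2a_conj κ (h.cap.mem_a 0)
  have e2 := h.cap.Km_Xk h.kill.toPKill κ (Or.inl rfl) 0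
  have e3 := congrArg Matrix.conjTranspose e
  rw [conjTranspose_mul, conjTranspose_mul, sg_ct, sg_ct] at e3
  unfold Ha
  calc (F κ (a, 0))ᴴ * Km ψ θ κ (a, 0) * F κ (a, 0) * sg (X0 ψ b g s κ)
      = (F κ (a, 0))ᴴ * Km ψ θ κ (a, 0) * (F κ (a, 0) * sg (X0 ψ b g s κ)) := by
        simp only [mul_assoc]
    _ = (F κ (a, 0))ᴴ * (Km ψ θ κ (a, 0) * sg (Xk ψ b g s κ (a, 0))) * F κ (a, 0) := by
        rw [← e]; simp only [mul_assoc]
    _ = ((F κ (a, 0))ᴴ * sg (star (Xk ψ b g s κ (a, 0)))) * Km ψ θ κ (a, 0) * F κ (a, 0) := by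
        rw [e2]; simp only [mul_assoc]
    _ = _ := by rw [e3]; simp only [mul_assoc]

theorem R_kb (h0 : Yf ψ b g s (kb θ) = 0) : (Rf ψ a b θ g s (kb θ)).re = 0 := by
  have hθ := h.cap.ann.hθa
  have hk : 0 < kb θ := kb_pos hθ
  have hc : 1 - Real.cos θ ≠ 0 := by
    intro e
    unfold kb at hk
    rw [e] at hk
    simp at hk
  have hd : 1 + kb θ * Real.cos θ = kb θ := by
    unfold kb
    field_simp
    ring
  have key : ∀ u, u = a ∨ u = b → ψ (u, 0) ⬝ᵥ re3 (Xk ψ b g s (kb θ) (u, 0)) = 0 := by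
    intro u hu
    have e := (h.kill.bc (kb θ) u hu 0).1
    rw [hd] at e
    refine s2a_null hk.ne' (h.cap.bd_unit hu 0) e ?_
    rw [h.XX_const _ (h.cap.mem_bd hu 0), h0]
  have hz : ((1 : ℂ) + (kb θ : ℂ) * (Real.cos θ : ℂ)) ^ 2 - (kb θ : ℂ) ^ 2 = 0 := by
    have : ((1 : ℂ) + (kb θ : ℂ) * (Real.cos θ : ℂ)) = kb θ := by exact_mod_cast hd
    rw [this, sub_self]
  unfold Rf
  rw [hz, mul_zero, zero_mul, sub_zero, sub_re]
  have t2 : ∀ z : ℂ, (2 * z).re = 2 * z.re := by intro z; simp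
  rw [t2, t2, cv_dot_re, cv_dot_re, key a (Or.inl rfl), key b (Or.inr rfl)]
  simp

theorem s2a_contM : Continuous (fun κ : ℝ => F κ (b, τ)) := by
  refine continuous_matrix ?_
  intro i j
  have : Continuous (fun k : ℂ => F k (b, τ) i j) :=
    continuous_iff_continuousAt.2 fun k => (h.frame.der k _ (h.cap.mem_b τ) i j).continuousAt
  exact this.comp continuous_ofReal

theorem s2a_contX : Continuous (fun κ : ℝ => X0 ψ b g s κ) := by
  refine continuous_pi ?_
  intro i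
  exact (h.cap.poly_Xk h.kill.toPKill (h.cap.mem_b 0) i).differentiable.continuous.comp
    continuous_ofReal

theorem s2a_ne (κ : ℂ) : X0 ψ b g s κ ⬝ᵥ star (X0 ψ b g s κ) ≠ 0 := by
  intro h0
  have := (dot_star_pos (h.X0_ne κ)).1
  rw [h0] at this
  simp at this

theorem s2a_contd : Continuous (fun κ : ℝ => (F κ (b, τ)).trace / 2) :=
  h.s2a_contM.matrix_trace.div_const 2

theorem s2a_contn :
    Continuous (fun κ : ℝ => (F κ (b, τ) * sg (star (X0 ψ b g s κ))).trace) :=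
  (h.s2a_contM.matrix_mul (s2a_cont_sg.comp h.s2a_contX.star)).matrix_trace

theorem s2a_contq : Continuous (fun κ : ℝ => X0 ψ b g s κ ⬝ᵥ star (X0 ψ b g s κ)) :=
  h.s2a_contX.dotProduct h.s2a_contX.star

theorem s2a_contt : Continuous (fun κ : ℝ => (F κ (b, τ) * sg (star (X0 ψ b g s κ))).trace
    / (2 * (X0 ψ b g s κ ⬝ᵥ star (X0 ψ b g s κ)))) :=
  h.s2a_contn.div (continuous_const.mul h.s2a_contq)
    fun κ => mul_ne_zero two_ne_zero (h.s2a_ne κ)

theorem cont_Dk : Continuous (Dk b τ F) := continuous_re.comp h.s2a_contd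

theorem cont_alk : Continuous (alk ψ b τ g s F) :=
  continuous_re.comp (h.s2a_contn.div (continuous_const.mul h.s2a_contq)
    fun κ => mul_ne_zero (mul_ne_zero two_ne_zero I_ne_zero) (h.s2a_ne κ))

theorem s2a_gen {κ : ℝ} (h1 : κ ≠ ka θ) (h2 : κ ≠ kb θ) :
    ((F κ (b, τ)).trace / 2).im = 0 ∧ ((F κ (b, τ) * sg (star (X0 ψ b g s κ))).trace
      / (2 * (X0 ψ b g s κ ⬝ᵥ star (X0 ψ b g s κ)))).re = 0 := by
  have hθ := h.cap.ann.hθa
  refine s2a_unit (h.X0_ne κ) (K := Km ψ θ κ (b, 0)) ?_ (s2a_coef (h.X0_ne κ) (h.M_comm κ))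
    (h.cap.det_F h.frame κ (h.cap.mem_b τ)) ?_ (h.cap.Km_Xk h.kill.toPKill κ (Or.inr rfl) 0)
  · rw [Km_det (h.cap.bd_unit (Or.inr rfl) 0), Dl_eq hθ]
    have := h.cap.sin_pos
    exact_mod_cast mul_ne_zero (pow_ne_zero 2 this.ne')
      (mul_ne_zero (sub_ne_zero.2 h1) (sub_ne_zero.2 h2.symm))
  · have e := h.cap.H_const h.frame κ (Or.inr rfl) τ
    have e2 := h.cap.per_K0 (h.cap.mem_b 0)
    simp only [zero_add] at e2
    have e3 : Km ψ θ κ (b, τ) = Km ψ θ κ (b, 0) := by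
      unfold Km
      rw [e2]
    rw [e3, h.frame.baseF, conjTranspose_one, one_mul, mul_one] at e
    exact e

/-- the monodromy is unitary for the boundary form -/
theorem M_eq (κ : ℝ) : F κ (b, τ) =
    (Dk b τ F κ : ℂ) • (1 : M2) + (I * alk ψ b τ g s F κ) • sg (X0 ψ b g s κ) := by
  have e := s2a_coef (h.X0_ne κ) (h.M_comm κ)
  have e1 := s2a_ext (continuous_im.comp h.s2a_contd) (fun x h1 h2 => (h.s2a_gen h1 h2).1) κ
  have e2 := s2a_ext (continuous_re.comp h.s2a_contt) (fun x h1 h2 => (h.s2a_gen h1 h2).2) κ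
  simp only [Function.comp] at e1 e2
  have f1 : (Dk b τ F κ : ℂ) = (F κ (b, τ)).trace / 2 := by
    unfold Dk
    apply Complex.ext
    · simp only [ofReal_re]
    · rw [ofReal_im, e1]
  have f2 : I * (alk ψ b τ g s F κ : ℂ) = (F κ (b, τ) * sg (star (X0 ψ b g s κ))).trace
      / (2 * (X0 ψ b g s κ ⬝ᵥ star (X0 ψ b g s κ))) := by
    unfold alk
    have hq := h.s2a_ne κ
    have : (F κ (b, τ) * sg (star (X0 ψ b g s κ))).trace
        / (2 * I * (X0 ψ b g s κ ⬝ᵥ star (X0 ψ b g s κ)))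
        = -I * ((F κ (b, τ) * sg (star (X0 ψ b g s κ))).trace
          / (2 * (X0 ψ b g s κ ⬝ᵥ star (X0 ψ b g s κ)))) := by
      field_simp
      rw [I_sq]
      ring
    rw [this]
    generalize (F κ (b, τ) * sg (star (X0 ψ b g s κ))).trace
      / (2 * (X0 ψ b g s κ ⬝ᵥ star (X0 ψ b g s κ))) = t at e2 ⊢
    apply Complex.ext <;> simp [e2]
  rw [f1, f2]
  exact e

theorem quadD (κ : ℝ) :
    Dk b τ F κ ^ 2 + alk ψ b τ g s F κ ^ 2 * (Yf ψ b g s κ).re = 1 := by
  have e := h.cap.det_F h.frame κ (h.cap.mem_b τ)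
  rw [h.M_eq κ, ← sg_smul, det_sg, smul_dotProduct, dotProduct_smul] at e
  have e2 : ((Dk b τ F κ ^ 2 : ℝ) : ℂ) + ((alk ψ b τ g s F κ ^ 2 : ℝ) : ℂ) * Yf ψ b g s κ = 1 := by
    rw [← e]
    unfold Yf
    simp only [smul_eq_mul]
    push_cast
    linear_combination ((alk ψ b τ g s F κ : ℂ) ^ 2 * (X0 ψ b g s κ ⬝ᵥ X0 ψ b g s κ)) * I_sq
  have := congrArg Complex.re e2
  rw [add_re, re_ofReal_mul, ofReal_re, one_re] at this
  exact this

theorem D_zero : Dk b τ F 0 = 1 ∧ alk ψ b τ g s F 0 = 0 := by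
  have e := h.frame.zero _ (h.cap.mem_b τ)
  unfold Dk alk
  rw [ofReal_zero, e, one_mul, trace_sg, trace_one]
  simp

end Setup

end Pool.Agent.Lib.MP_c7e804_gt
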