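import Pool.Agent.Lib.MP_c7e804_gt.H43Spec3a

/-!
Derivatives of the second monodromy.
-/

namespace Pool.Agent.Lib.MP_c7e804_gt

open Matrix Set Complex
open scoped ContDiff ComplexConjugate

/-- entrywise derivative of a matrix valued function of a real variable -/
def s3MD (f : ℝ → M2) (f' : M2) (κ : ℝ) : Prop :=
  ∀ i j, HasDerivAt (fun k => f k i j) (f' i j) κ

theorem s3MD.const (M : M2) (κ : ℝ) : s3MD (fun _ => M) 0 κ :=
  fun i j => hasDerivAt_const κ (M i j)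

theorem s3MD.add {f g : ℝ → M2} {f' g' : M2} {κ : ℝ} (hf : s3MD f f' κ) (hg : s3MD g g' κ) :
    s3MD (fun k => f k + g k) (f' + g') κ :=
  fun i j => (hf i j).add (hg i j)

theorem s3MD.smul {c : ℝ → ℂ} {c' : ℂ} {f : ℝ → M2} {f' : M2} {κ : ℝ} (hc : HasDerivAt c c' κ)
    (hf : s3MD f f' κ) : s3MD (fun k => c k • f k) (c' • f κ + c κ • f') κ :=
  fun i j => hc.mul (hf i j)

theorem s3MD.mul {f g : ℝ → M2} {f' g' : M2} {κ : ℝ} (hf : s3MD f f' κ) (hg : s3MD g g' κ) :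
    s3MD (fun k => f k * g k) (f' * g κ + f κ * g') κ := by
  intro i j
  have := ((hf i 0).fun_mul (hg 0 j)).fun_add ((hf i 1).fun_mul (hg 1 j))
  simp only [Matrix.add_apply, Matrix.mul_apply, Fin.sum_univ_two]
  exact this.congr_deriv (by ring)

theorem s3MD.ct {f : ℝ → M2} {f' : M2} {κ : ℝ} (hf : s3MD f f' κ) :
    s3MD (fun k => (f k)ᴴ) f'ᴴ κ :=
  fun i j => (hf j i).star

theorem s3MD.adj {f : ℝ → M2} {f' : M2} {κ : ℝ} (hf : s3MD f f' κ) :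
    s3MD (fun k => (f k).adjugate) f'.adjugate κ := by
  intro i j
  fin_cases i <;> fin_cases j <;> simp only [Matrix.adjugate_fin_two]
  · exact hf 1 1
  · exact (hf 0 1).neg
  · exact (hf 1 0).neg
  · exact hf 0 0

theorem s3MD.trace {f : ℝ → M2} {f' : M2} {κ : ℝ} (hf : s3MD f f' κ) :
    HasDerivAt (fun k => (f k).trace) f'.trace κ := by
  simp only [Matrix.trace_fin_two]
  exact (hf 0 0).add (hf 1 1)

theorem s3MD.sg {x : ℝ → C3} {x' : C3} {κ : ℝ} (hx : ∀ i, HasDerivAt (fun k => x k i) (x' i) κ) :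
    s3MD (fun k => sg (x k)) (sg x') κ := by
  intro i j
  fin_cases i <;> fin_cases j
  · exact hx 2
  · exact (hx 0).sub ((hx 1).const_mul I)
  · exact (hx 0).add ((hx 1).const_mul I)
  · exact (hx 2).neg

theorem s3MD.unique {f g : ℝ → M2} {f' g' : M2} {κ : ℝ} (hf : s3MD f f' κ) (hg : s3MD g g' κ)
    (e : ∀ᶠ k in nhds κ, f k = g k) : f' = g' := by
  ext i j
  refine (hf i j).unique ((hg i j).congr_of_eventuallyEq ?_)
  filter_upwards [e] with k hk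
  rw [hk]

theorem s3_dot {x : ℝ → C3} {x' : C3} {y : ℝ → C3} {y' : C3} {κ : ℝ}
    (hx : ∀ i, HasDerivAt (fun k => x k i) (x' i) κ)
    (hy : ∀ i, HasDerivAt (fun k => y k i) (y' i) κ) :
    HasDerivAt (fun k => x k ⬝ᵥ y k) (x' ⬝ᵥ y κ + x κ ⬝ᵥ y') κ := by
  have := (((hx 0).fun_mul (hy 0)).fun_add ((hx 1).fun_mul (hy 1))).fun_add
    ((hx 2).fun_mul (hy 2))
  simp only [dotProduct, Fin.sum_univ_three]
  exact this.congr_deriv (by ring)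

theorem s3_re {f : ℝ → ℂ} {f' : ℂ} {κ : ℝ} (hf : HasDerivAt f f' κ) :
    HasDerivAt (fun k => (f k).re) f'.re κ :=
  Complex.reCLM.hasFDerivAt.comp_hasDerivAt κ hf

theorem s3_alg1 {X B Bi B' K Ki K' H Hi H' : M2} (hHB : H * B = K) (hd : H' * B + H * B' = K')
    (hKi : Ki * K = 1) (hKi' : K * Ki = 1) (hHi : Hi * H = 1) (hBi : B * Bi = 1)
    (hc : B * X = X * B) :
    (X * (Bi * B')).trace = (X * (Ki * K')).trace - (X * (Hi * H')).trace := by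
  have e1 : Ki * H = Bi := by
    calc Ki * H = Ki * H * (B * Bi) := by rw [hBi, mul_one]
      _ = Ki * (H * B) * Bi := by simp only [mul_assoc]
      _ = Bi := by rw [hHB, hKi, one_mul]
  have e2 : B * Ki = Hi := by
    calc B * Ki = (Hi * H) * B * Ki := by rw [hHi, one_mul]
      _ = Hi * ((H * B) * Ki) := by simp only [mul_assoc]
      _ = Hi := by rw [hHB, hKi', mul_one]
  have e3 : X * (Bi * B') = X * (Ki * K') - X * Ki * H' * B := by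
    rw [← e1, ← hd]
    noncomm_ring
  have e4 : (X * Ki * H' * B).trace = (X * (Hi * H')).trace := by
    rw [Matrix.trace_mul_comm, ← e2]
    congr 1
    calc B * (X * Ki * H') = (B * X) * Ki * H' := by simp only [mul_assoc]
      _ = X * (B * Ki * H') := by rw [hc]; simp only [mul_assoc]
  rw [e3, Matrix.trace_sub, e4]

theorem s3_alg2 {X Xa F Fi G K Ki K' : M2} (hF : Fi * F = 1) (hF' : F * Fi = 1)
    (hK : Ki * K = 1) (hK' : K * Ki = 1) (hX : Xa * F = F * X)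
    (hH : Fᴴ * K * F * X = Xᴴ * (Fᴴ * K * F)) :
    (Fi * Ki * Fiᴴ) * (Fᴴ * K * F) = 1 ∧
    (X * ((Fi * Ki * Fiᴴ) * ((Gᴴ * K + Fᴴ * K') * F + Fᴴ * K * G))).trace
      = conj (X * (Fi * G)).trace + (Xa * (Ki * K')).trace + (X * (Fi * G)).trace := by
  have c1 : Fiᴴ * Fᴴ = 1 := by rw [← Matrix.conjTranspose_mul, hF', Matrix.conjTranspose_one]
  have c2 : Fᴴ * Fiᴴ = 1 := by rw [← Matrix.conjTranspose_mul, hF, Matrix.conjTranspose_one]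
  have i1 : (Fi * Ki * Fiᴴ) * (Fᴴ * K * F) = 1 := by
    calc (Fi * Ki * Fiᴴ) * (Fᴴ * K * F) = Fi * (Ki * ((Fiᴴ * Fᴴ) * K)) * F := by
          simp only [mul_assoc]
      _ = 1 := by rw [c1, one_mul, hK, mul_one, hF]
  have i0 : K * F * (Fi * Ki * Fiᴴ) = Fiᴴ := by
    calc K * F * (Fi * Ki * Fiᴴ) = K * ((F * Fi) * Ki) * Fiᴴ := by simp only [mul_assoc]
      _ = Fiᴴ := by rw [hF', one_mul, hK', one_mul]
  have i2 : (Fᴴ * K * F) * (Fi * Ki * Fiᴴ) = 1 := by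
    rw [mul_assoc Fᴴ, mul_assoc Fᴴ, i0, c2]
  have i3 : X * (Fi * Ki * Fiᴴ) = (Fi * Ki * Fiᴴ) * Xᴴ := by
    calc X * (Fi * Ki * Fiᴴ) = ((Fi * Ki * Fiᴴ) * (Fᴴ * K * F)) * X * (Fi * Ki * Fiᴴ) := by
          rw [i1, one_mul]
      _ = (Fi * Ki * Fiᴴ) * (Fᴴ * K * F * X) * (Fi * Ki * Fiᴴ) := by simp only [mul_assoc]
      _ = (Fi * Ki * Fiᴴ) * Xᴴ * ((Fᴴ * K * F) * (Fi * Ki * Fiᴴ)) := by
          rw [hH]; simp only [mul_assoc]
      _ = _ := by rw [i2, mul_one]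
  refine ⟨i1, ?_⟩
  have t1 : (X * (Fi * Ki * Fiᴴ) * (Gᴴ * K * F)).trace = conj (X * (Fi * G)).trace := by
    rw [i3, mul_assoc, Matrix.trace_mul_comm]
    have : Xᴴ * (Gᴴ * K * F) * (Fi * Ki * Fiᴴ) = (Fi * G * X)ᴴ := by
      calc Xᴴ * (Gᴴ * K * F) * (Fi * Ki * Fiᴴ) = Xᴴ * (Gᴴ * (K * F * (Fi * Ki * Fiᴴ))) := by
            simp only [mul_assoc]
        _ = _ := by rw [i0]; simp only [Matrix.conjTranspose_mul]
    rw [this, Matrix.trace_conjTranspose, Matrix.trace_mul_comm]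
    rfl
  have t2 : (X * (Fi * Ki * Fiᴴ) * (Fᴴ * K' * F)).trace = (Xa * (Ki * K')).trace := by
    have : X * (Fi * Ki * Fiᴴ) * (Fᴴ * K' * F) = X * Fi * Ki * K' * F := by
      calc X * (Fi * Ki * Fiᴴ) * (Fᴴ * K' * F) = X * Fi * Ki * (Fiᴴ * Fᴴ) * K' * F := by
            simp only [mul_assoc]
        _ = _ := by rw [c1, mul_one]
    rw [this, Matrix.trace_mul_comm]
    congr 1
    calc F * (X * Fi * Ki * K') = (F * X) * Fi * (Ki * K') := by simp only [mul_assoc]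
      _ = Xa * (F * Fi) * (Ki * K') := by rw [← hX]; simp only [mul_assoc]
      _ = _ := by rw [hF', mul_one]
  have t3 : X * (Fi * Ki * Fiᴴ) * (Fᴴ * K * G) = X * (Fi * G) := by
    calc X * (Fi * Ki * Fiᴴ) * (Fᴴ * K * G) = X * (Fi * (Ki * ((Fiᴴ * Fᴴ) * K)) * G) := by
          simp only [mul_assoc]
      _ = _ := by rw [c1, one_mul, hK, mul_one]
  rw [← t1, ← t2, ← t3, ← Matrix.trace_add, ← Matrix.trace_add]
  congr 1
  noncomm_ring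

theorem s3_alg3 (x x' : C3) (T β T' β' : ℂ) :
    (sg x * ((T • (1 : M2) - β • sg x) * (T' • (1 : M2) + (β' • sg x + β • sg x')))).trace
      = T * (2 * β' * (x ⬝ᵥ x) + β * (x' ⬝ᵥ x + x ⬝ᵥ x')) - 2 * β * (x ⬝ᵥ x) * T' := by
  have e : sg x * sg x = (x ⬝ᵥ x) • (1 : M2) := by
    rw [sg_mul, cross_self, sg_zero, smul_zero, add_zero]
  have e1 : sg x * (T • (1 : M2) - β • sg x) = T • sg x - (β * (x ⬝ᵥ x)) • (1 : M2) := by
    rw [mul_sub, Matrix.mul_smul, Matrix.mul_smul, mul_one, e, smul_smul]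
  rw [← mul_assoc, e1, dotProduct_comm x' x]
  simp only [sub_mul, mul_add, Matrix.mul_smul, Matrix.smul_mul, mul_one, one_mul,
    Matrix.trace_add, Matrix.trace_sub, Matrix.trace_smul, trace_sg, trace_sg_mul, smul_eq_mul,
    Matrix.trace_one, Fintype.card_fin]
  push_cast
  ring

/-- inverse of the boundary matrix on the sphere -/
theorem s3_K {ψ : ℝ × ℝ → V3} {p : ℝ × ℝ} (hp : ψ p ⬝ᵥ ψ p = 1) {θ κ : ℝ} (hD : Dl θ κ ≠ 0)
    (x : C3) :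
    ((Dl θ κ : ℂ)⁻¹ • (Km ψ θ κ p).adjugate) * Km ψ θ κ p = 1 ∧
    Km ψ θ κ p * ((Dl θ κ : ℂ)⁻¹ • (Km ψ θ κ p).adjugate) = 1 ∧
    (sg x * (((Dl θ κ : ℂ)⁻¹ • (Km ψ θ κ p).adjugate) * K0 ψ θ p)).trace
      = (Dl θ κ : ℂ)⁻¹ * (2 * (cv (ψ p) ⬝ᵥ x)) := by
  have hD' : (Dl θ κ : ℂ) ≠ 0 := by exact_mod_cast hD
  refine ⟨?_, ?_, ?_⟩
  · rw [Matrix.smul_mul, Matrix.adjugate_mul, Km_det hp, smul_smul, inv_mul_cancel₀ hD', one_smul]
  · rw [Matrix.mul_smul, Matrix.mul_adjugate, Km_det hp, smul_smul, inv_mul_cancel₀ hD', one_smul]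
  · rw [Matrix.smul_mul, Matrix.mul_smul, Matrix.trace_smul, smul_eq_mul]
    congr 1
    have e : cv (ψ p) ⬝ᵥ cv (ψ p) = 1 := by rw [cv_dot, hp]; simp
    have e2 : sg (cv (ψ p)) * sg (cv (ψ p)) = 1 := by
      rw [sg_mul, e, cross_self, sg_zero, smul_zero, add_zero, one_smul]
    have e3 : (Km ψ θ κ p).adjugate * K0 ψ θ p
        = (((1 + κ * Real.cos θ : ℝ) : ℂ) * (Real.cos θ : ℂ) - κ) • (1 : M2) + sg (cv (ψ p)) := by
      rw [Km_eq, ← sg_smul, adj_sg, sg_smul, K0, sub_mul, mul_add, mul_add, Matrix.smul_mul,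
        Matrix.smul_mul, Matrix.smul_mul, Matrix.smul_mul, e2, one_mul, one_mul, Matrix.mul_smul,
        mul_one]
      push_cast
      module
    rw [e3, mul_add, Matrix.mul_smul, mul_one, Matrix.trace_add, Matrix.trace_smul, trace_sg,
      trace_sg_mul, dotProduct_comm]
    simp

theorem s3_Km (ψ : ℝ × ℝ → V3) (θ : ℝ) (p : ℝ × ℝ) (κ : ℝ) :
    s3MD (fun k : ℝ => Km ψ θ k p) (K0 ψ θ p) κ := by
  have h1 : HasDerivAt (fun k : ℝ => (k : ℂ)) 1 κ := Complex.ofRealCLM.hasDerivAt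
  have := (s3MD.const 1 κ).add (s3MD.smul h1 (s3MD.const (K0 ψ θ p) κ))
  rw [one_smul, smul_zero, add_zero, zero_add] at this
  exact this

theorem s3_Dl (θ κ : ℝ) : ∃ d : ℂ, HasDerivAt (fun k : ℝ => (Dl θ k : ℂ)) d κ := by
  have : DifferentiableAt ℝ (Dl θ) κ := by unfold Dl; fun_prop
  exact ⟨_, this.hasDerivAt.ofReal_comp⟩

namespace Setup
variable {ψ : ℝ × ℝ → V3} {a b τ θ : ℝ} {g : ℕ} {s : ℕ → ℝ × ℝ → ℂ} {F G : ℂ → ℝ × ℝ → M2}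
  (h : Setup ψ a b τ θ g s F G)
include h

theorem s3_Dl_ne {κ : ℝ} (h1 : κ ≠ ka θ) (h2 : κ ≠ kb θ) : Dl θ κ ≠ 0 := by
  have hθ := h.cap.ann.hθa
  rw [Dl_eq hθ]
  have := Real.sin_pos_of_pos_of_lt_pi hθ.1 hθ.2
  exact mul_ne_zero (by positivity) (mul_ne_zero (sub_ne_zero.2 h1) (sub_ne_zero.2 h2.symm))

theorem s3_X (κ : ℝ) : ∃ x' : C3, ∀ i, HasDerivAt (fun k : ℝ => X0 ψ b g s k i) (x' i) κ := by
  refine ⟨fun i => deriv (fun z : ℂ => X0 ψ b g s z i) κ, fun i => ?_⟩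
  exact ((h.cap.poly_Xk h.kill.toPKill (h.cap.mem_b 0) i).differentiable
    (κ : ℂ)).hasDerivAt.comp_ofReal

theorem s3_F (κ : ℝ) : s3MD (fun k : ℝ => F k (a, 0)) (G κ (a, 0)) κ :=
  fun i j => (h.frame.der κ _ (h.cap.mem_a 0) i j).comp_ofReal

theorem s3_H (κ : ℝ) : s3MD (Ha ψ a θ F)
    (((G κ (a, 0))ᴴ * Km ψ θ κ (a, 0) + (F κ (a, 0))ᴴ * K0 ψ θ (a, 0)) * F κ (a, 0)
      + (F κ (a, 0))ᴴ * Km ψ θ κ (a, 0) * G κ (a, 0)) κ :=
  ((h.s3_F κ).ct.mul (s3_Km ψ θ (a, 0) κ)).mul (h.s3_F κ)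

theorem s3_B {κ : ℝ} (h1 : κ ≠ ka θ) (h2 : κ ≠ kb θ) : ∃ B', s3MD (Bm ψ a b θ F) B' κ := by
  obtain ⟨d, hd⟩ := s3_Dl θ κ
  have hD : (Dl θ κ : ℂ) ≠ 0 := by exact_mod_cast h.s3_Dl_ne h1 h2
  exact ⟨_, s3MD.smul (hd.fun_inv hD) ((h.s3_H κ).adj.mul (s3_Km ψ θ (b, 0) κ))⟩

theorem s3_T {κ : ℝ} (h1 : κ ≠ ka θ) (h2 : κ ≠ kb θ) :
    ∃ T', HasDerivAt (Tk ψ a b θ F) T' κ := by
  obtain ⟨B', hB⟩ := h.s3_B h1 h2
  exact ⟨_, s3_re (hB.trace.div_const 2)⟩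

theorem s3_β {κ : ℝ} (h1 : κ ≠ ka θ) (h2 : κ ≠ kb θ) :
    ∃ β', HasDerivAt (bek ψ a b θ g s F) β' κ := by
  obtain ⟨B', hB⟩ := h.s3_B h1 h2
  obtain ⟨x', hx⟩ := h.s3_X κ
  have hs : ∀ i, HasDerivAt (fun k : ℝ => star (X0 ψ b g s k) i) (star x' i) κ :=
    fun i => (hx i).star
  have hne : 2 * (X0 ψ b g s κ ⬝ᵥ star (X0 ψ b g s κ)) ≠ 0 := by
    refine mul_ne_zero two_ne_zero fun e => ?_
    have := (dot_star_pos (h.X0_ne κ)).1
    rw [e] at this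
    simp at this
  exact ⟨_, s3_re ((hB.mul (s3MD.sg hs)).trace.fun_div ((s3_dot hx hs).const_mul 2) hne)⟩

variable {Y P R : Polynomial ℝ} (hp : Polys ψ a b τ θ g s Y P R)
include hp

omit h in
theorem s3_Y (κ : ℝ) : ((Y.eval κ : ℝ) : ℂ) = X0 ψ b g s κ ⬝ᵥ X0 ψ b g s κ := by
  have := hp.Yev κ
  rw [Yf] at this
  rw [← this]
  exact (Polynomial.aeval_algebraMap_apply_eq_algebraMap_eval κ Y).symm

theorem dTβ {κ : ℝ} (h1 : κ ≠ ka θ) (h2 : κ ≠ kb θ) :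
    HasDerivAt (Tk ψ a b θ F) (bek ψ a b θ g s F κ * R.eval κ / (2 * Dl θ κ)) κ ∧
    ∃ β', HasDerivAt (bek ψ a b θ g s F) β' κ ∧
      2 * β' * Y.eval κ + bek ψ a b θ g s F κ * Y.derivative.eval κ
        = Tk ψ a b θ F κ * R.eval κ / Dl θ κ := by
  obtain ⟨T', hT⟩ := h.s3_T h1 h2
  obtain ⟨β', hβ⟩ := h.s3_β h1 h2
  obtain ⟨x', hx⟩ := h.s3_X κ
  have hD := h.s3_Dl_ne h1 h2
  have hD' : (Dl θ κ : ℂ) ≠ 0 := by exact_mod_cast hD
  have hev : ∀ᶠ k in nhds κ, k ≠ ka θ ∧ k ≠ kb θ :=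
    (eventually_ne_nhds h1).and (eventually_ne_nhds h2)
  have hYre : ∀ k : ℝ, (Yf ψ b g s k).re = Y.eval k := fun k => by
    rw [Yf, ← s3_Y hp k, Complex.ofReal_re]
  -- derivative of `Y`
  have hY' : ((Y.derivative.eval κ : ℝ) : ℂ) = x' ⬝ᵥ X0 ψ b g s κ + X0 ψ b g s κ ⬝ᵥ x' := by
    refine (Y.hasDerivAt κ).ofReal_comp.unique ?_
    have e : (fun k : ℝ => ((Y.eval k : ℝ) : ℂ)) = fun k : ℝ => X0 ψ b g s k ⬝ᵥ X0 ψ b g s k :=
      funext (s3_Y hp)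
    rw [e]
    exact s3_dot hx hx
  -- the quadratic relation and its derivative
  have q0 : Tk ψ a b θ F κ ^ 2 - bek ψ a b θ g s F κ ^ 2 * Y.eval κ = 1 := by
    rw [← hYre]; exact h.quadT h1 h2
  have q1 : 2 * Tk ψ a b θ F κ * T' = bek ψ a b θ g s F κ *
      (2 * β' * Y.eval κ + bek ψ a b θ g s F κ * Y.derivative.eval κ) := by
    have d1 := (hT.fun_mul hT).fun_sub ((hβ.fun_mul hβ).fun_mul (Y.hasDerivAt κ))
    have d2 : HasDerivAt (fun k => Tk ψ a b θ F k * Tk ψ a b θ F k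
        - bek ψ a b θ g s F k * bek ψ a b θ g s F k * Y.eval k) 0 κ := by
      refine (hasDerivAt_const κ (1 : ℝ)).congr_of_eventuallyEq ?_
      filter_upwards [hev] with k hk
      have := h.quadT hk.1 hk.2
      rw [hYre] at this
      linear_combination this
    have := d1.unique d2
    linear_combination this
  -- derivative of `Ha * B = K`
  have hBd := (s3MD.smul hT.ofReal_comp (s3MD.const (1 : M2) κ)).add
    (s3MD.smul hβ.ofReal_comp (s3MD.sg hx))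
  rw [smul_zero, add_zero] at hBd
  have hd := ((h.s3_H κ).mul hBd).unique (s3_Km ψ θ (b, 0) κ) (by
    filter_upwards [hev] with k hk
    rw [← h.B_eq hk.1 hk.2, h.Ha_Bm hk.1 hk.2])
  have hHB := h.Ha_Bm h1 h2
  rw [h.B_eq h1 h2] at hHB
  obtain ⟨ka1, ka2, ka3⟩ := s3_K (h.cap.ann.sphere_a 0) hD (Xk ψ b g s κ (a, 0))
  obtain ⟨kb1, kb2, kb3⟩ := s3_K (h.cap.ann.sphere_b 0) hD (X0 ψ b g s κ)
  obtain ⟨f1, f2⟩ := h.cap.adj_F h.frame κ (h.cap.mem_a 0)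
  have hX := h.cap.pd_Xk h.kill.toPKill κ
  obtain ⟨i1, i2⟩ := s3_alg2 (G := G κ (a, 0)) (K' := K0 ψ θ (a, 0)) f1 f2 ka1 ka2
    (h.cap.lax_conj h.frame hX (h.cap.mem_a 0)) (by
      have := h.Ha_X κ
      rw [← sg_ct] at this
      exact this)
  have hXX : sg (X0 ψ b g s κ) * sg (X0 ψ b g s κ) = ((Y.eval κ : ℝ) : ℂ) • (1 : M2) := by
    rw [sg_mul, cross_self, sg_zero, smul_zero, add_zero, s3_Y hp]
  have hBi : ((Tk ψ a b θ F κ : ℂ) • (1 : M2) + (bek ψ a b θ g s F κ : ℂ) • sg (X0 ψ b g s κ)) *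
      ((Tk ψ a b θ F κ : ℂ) • (1 : M2) - (bek ψ a b θ g s F κ : ℂ) • sg (X0 ψ b g s κ)) = 1 := by
    have q0' : (Tk ψ a b θ F κ : ℂ) ^ 2 - (bek ψ a b θ g s F κ : ℂ) ^ 2 * ((Y.eval κ : ℝ) : ℂ)
        = 1 := by exact_mod_cast q0
    simp only [add_mul, mul_sub, Matrix.mul_smul, Matrix.smul_mul, mul_one, one_mul, hXX]
    calc _ = ((Tk ψ a b θ F κ : ℂ) ^ 2 - (bek ψ a b θ g s F κ : ℂ) ^ 2 * ((Y.eval κ : ℝ) : ℂ))
          • (1 : M2) := by module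
      _ = 1 := by rw [q0', one_smul]
  have main := s3_alg1 (X := sg (X0 ψ b g s κ)) hHB hd kb1 kb2 i1 hBi (by
    simp only [add_mul, mul_add, Matrix.mul_smul, Matrix.smul_mul, mul_one, one_mul])
  have tJ := h.cap.trace_XG_a h.frame hX
  rw [s3_alg3, kb3] at main
  erw [i2] at main
  rw [ka3, tJ, ← hY', ← s3_Y hp] at main
  have key : Tk ψ a b θ F κ * (2 * β' * Y.eval κ + bek ψ a b θ g s F κ * Y.derivative.eval κ)
      - 2 * bek ψ a b θ g s F κ * Y.eval κ * T' = R.eval κ / Dl θ κ := by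
    have hR : Rf ψ a b θ g s κ = 2 * (cv (ψ (b, 0)) ⬝ᵥ X0 ψ b g s κ)
        - 2 * (cv (ψ (a, 0)) ⬝ᵥ Xk ψ b g s κ (a, 0))
        - 4 * (Dl θ κ : ℂ) * ∫ u in a..b, Xk ψ b g s κ (u, 0) ⬝ᵥ ph ψ (u, 0) := by
      rw [Rf, Dl, X0]
      push_cast
      ring
    rw [hp.Rev, hR, eq_div_iff hD]
    generalize (∫ u in a..b, Xk ψ b g s κ (u, 0) ⬝ᵥ ph ψ (u, 0)) = J at main ⊢
    generalize cv (ψ (b, 0)) ⬝ᵥ X0 ψ b g s κ = zb at main ⊢
    generalize cv (ψ (a, 0)) ⬝ᵥ Xk ψ b g s κ (a, 0) = za at main ⊢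
    have m2 : (((Tk ψ a b θ F κ * (2 * β' * Y.eval κ + bek ψ a b θ g s F κ * Y.derivative.eval κ)
        - 2 * bek ψ a b θ g s F κ * Y.eval κ * T') * Dl θ κ : ℝ) : ℂ)
        = 2 * zb - 2 * za - (Dl θ κ : ℂ) * (conj (2 * J) + 2 * J) := by
      push_cast
      rw [main]
      field_simp
      ring
    have m3 := congrArg Complex.re m2
    rw [Complex.ofReal_re] at m3
    rw [m3]
    simp
    ring
  refine ⟨hT.congr_deriv ?_, β', hβ, ?_⟩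
  · have : bek ψ a b θ g s F κ * R.eval κ / (2 * Dl θ κ)
        = bek ψ a b θ g s F κ * (R.eval κ / Dl θ κ) / 2 := by field_simp
    rw [this, ← key]
    linear_combination (-T') * q0 + (Tk ψ a b θ F κ / 2) * q1
  · rw [mul_div_assoc, ← key]
    linear_combination
      (-(2 * β' * Y.eval κ + bek ψ a b θ g s F κ * Y.derivative.eval κ)) * q0
        + (bek ψ a b θ g s F κ * Y.eval κ) * q1

end Setup

end Pool.Agent.Lib.MP_c7e804_gt
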