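import Pool.Agent.Lib.MP_c7e804_gt.H43Spec2

/-!
The second monodromy (reflection in both boundary lines).
-/

namespace Pool.Agent.Lib.MP_c7e804_gt

open Matrix Set Complex
open scoped ContDiff ComplexConjugate

theorem s3a_cancel {H A B : M2} (hH : H.det ≠ 0) (e : H * A = H * B) : A = B := by
  have h1 : H.adjugate * (H * A) = H.adjugate * (H * B) := by rw [e]
  rw [← Matrix.mul_assoc, ← Matrix.mul_assoc, Matrix.adjugate_mul, Matrix.smul_mul,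
    Matrix.smul_mul, Matrix.one_mul, Matrix.one_mul] at h1
  exact smul_right_injective M2 hH h1

theorem s3a_real {H K B : M2} {x : C3} (hx : x ≠ 0) (hH : H.det ≠ 0) (h1 : Hᴴ = H) (h2 : Kᴴ = K)
    (h3 : H * sg x = sg (star x) * H) (h4 : K * sg x = sg (star x) * K) (h5 : H * B = K) :
    B = ((B.trace / 2).re : ℂ) • (1 : M2)
      + (((B * sg (star x)).trace / (2 * (x ⬝ᵥ star x))).re : ℂ) • sg x := by
  have hc : B * sg x = sg x * B := by
    apply s3a_cancel hH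
    rw [← Matrix.mul_assoc, h5, h4, ← Matrix.mul_assoc, h3, Matrix.mul_assoc, h5]
  obtain ⟨d, t, hB⟩ := centralizer hx hc
  have e1 : H * (conj d • (1 : M2) + conj t • sg x) = H * (d • (1 : M2) + t • sg x) := by
    rw [← hB, h5, ← h2, ← h5, hB, Matrix.conjTranspose_mul, h1, Matrix.conjTranspose_add,
      Matrix.conjTranspose_smul, Matrix.conjTranspose_smul, Matrix.conjTranspose_one, sg_ct,
      Matrix.mul_add, Matrix.add_mul, Matrix.mul_smul, Matrix.mul_smul, Matrix.smul_mul,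
      Matrix.smul_mul, h3, Matrix.mul_one, Matrix.one_mul]
    rfl
  have e2 := s3a_cancel hH e1
  have e3 : (conj d - d) • (1 : M2) + sg ((conj t - t) • x) = 0 := by
    rw [sg_smul]
    linear_combination (norm := module) e2
  obtain ⟨e4, e5⟩ := sg_inj e3
  have hd : conj d = d := sub_eq_zero.1 e4
  have ht : conj t = t := sub_eq_zero.1 ((smul_eq_zero.1 e5).resolve_right hx)
  have hn : x ⬝ᵥ star x ≠ 0 := fun h0 => by
    have := (dot_star_pos hx).1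
    rw [h0] at this
    simp at this
  have e6 : B.trace / 2 = d := by
    rw [hB, Matrix.trace_add, Matrix.trace_smul, Matrix.trace_smul, trace_sg, Matrix.trace_one]
    simp
  have e7 : (B * sg (star x)).trace / (2 * (x ⬝ᵥ star x)) = t := by
    rw [hB, Matrix.add_mul, Matrix.smul_mul, Matrix.smul_mul, Matrix.one_mul, Matrix.trace_add,
      Matrix.trace_smul, Matrix.trace_smul, trace_sg, trace_sg_mul, smul_zero, zero_add,
      smul_eq_mul]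
    field_simp
  rw [e6, e7, Complex.conj_eq_iff_re.1 hd, Complex.conj_eq_iff_re.1 ht]
  exact hB

namespace Setup
variable {ψ : ℝ × ℝ → V3} {a b τ θ : ℝ} {g : ℕ} {s : ℕ → ℝ × ℝ → ℂ} {F G : ℂ → ℝ × ℝ → M2}
  (h : Setup ψ a b τ θ g s F G)
include h

theorem Ha_herm (κ : ℝ) : (Ha ψ a θ F κ)ᴴ = Ha ψ a θ F κ := by
  have _ := h
  rw [Ha, Matrix.conjTranspose_mul, Matrix.conjTranspose_mul, Matrix.conjTranspose_conjTranspose,
    Km_herm, Matrix.mul_assoc]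

theorem Ha_det (κ : ℝ) : (Ha ψ a θ F κ).det = (Dl θ κ : ℂ) := by
  rw [Ha, Matrix.det_mul, Matrix.det_mul, Matrix.det_conjTranspose,
    h.cap.det_F h.frame κ (h.cap.mem_a 0), Km_det (h.cap.bd_unit (Or.inl rfl) 0)]
  simp

theorem s3a_Dl {κ : ℝ} (h1 : κ ≠ ka θ) (h2 : κ ≠ kb θ) : (Dl θ κ : ℂ) ≠ 0 := by
  rw [Complex.ofReal_ne_zero, Dl_eq h.cap.ann.hθa]
  exact mul_ne_zero (pow_ne_zero _ h.cap.sin_pos.ne')
    (mul_ne_zero (sub_ne_zero.2 h1) (sub_ne_zero.2 h2.symm))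

theorem Ha_Bm {κ : ℝ} (h1 : κ ≠ ka θ) (h2 : κ ≠ kb θ) :
    Ha ψ a θ F κ * Bm ψ a b θ F κ = Km ψ θ κ (b, 0) := by
  rw [Bm, Matrix.mul_smul, ← Matrix.mul_assoc, Matrix.mul_adjugate, h.Ha_det, Matrix.smul_mul,
    Matrix.one_mul, smul_smul, inv_mul_cancel₀ (h.s3a_Dl h1 h2), one_smul]

theorem B_eq {κ : ℝ} (h1 : κ ≠ ka θ) (h2 : κ ≠ kb θ) : Bm ψ a b θ F κ =
    (Tk ψ a b θ F κ : ℂ) • (1 : M2) + (bek ψ a b θ g s F κ : ℂ) • sg (X0 ψ b g s κ) :=
  s3a_real (h.X0_ne κ) (by rw [h.Ha_det]; exact h.s3a_Dl h1 h2) (h.Ha_herm κ)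
    (Km_herm ψ θ κ (b, 0)) (h.Ha_X κ) (h.cap.Km_Xk h.kill.toPKill κ (Or.inr rfl) 0)
    (h.Ha_Bm h1 h2)

theorem quadT {κ : ℝ} (h1 : κ ≠ ka θ) (h2 : κ ≠ kb θ) :
    Tk ψ a b θ F κ ^ 2 - bek ψ a b θ g s F κ ^ 2 * (Yf ψ b g s κ).re = 1 := by
  have e1 := congrArg Matrix.det (h.Ha_Bm h1 h2)
  rw [Matrix.det_mul, h.Ha_det, Km_det (h.cap.bd_unit (Or.inr rfl) 0)] at e1
  have e2 : (Bm ψ a b θ F κ).det = 1 :=
    mul_left_cancel₀ (h.s3a_Dl h1 h2) (e1.trans (mul_one _).symm)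
  rw [h.B_eq h1 h2, ← sg_smul, det_sg, smul_dotProduct, dotProduct_smul] at e2
  have e3 : X0 ψ b g s κ ⬝ᵥ X0 ψ b g s κ = ((Yf ψ b g s κ).re : ℂ) := by
    apply Complex.ext
    · simp [Yf]
    · rw [Complex.ofReal_im]; exact h.Y_real κ
  rw [e3, smul_eq_mul, smul_eq_mul] at e2
  have e4 : ((Tk ψ a b θ F κ ^ 2 - bek ψ a b θ g s F κ ^ 2 * (Yf ψ b g s κ).re : ℝ) : ℂ)
      = ((1 : ℝ) : ℂ) := by
    push_cast
    linear_combination e2
  exact_mod_cast e4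

theorem bek_zero : bek ψ a b θ g s F 0 = 0 := by
  have e1 : Ha ψ a θ F 0 = 1 := by
    simp [Ha, Km, h.frame.zero _ (h.cap.mem_a 0)]
  have e2 : Km ψ θ ((0 : ℝ) : ℂ) (b, 0) = 1 := by simp [Km]
  rw [bek, Bm, e1, e2, Matrix.adjugate_one, Matrix.one_mul, Matrix.smul_mul, Matrix.one_mul,
    Matrix.trace_smul, trace_sg]
  simp

end Setup

end Pool.Agent.Lib.MP_c7e804_gt
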