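import Pool.Agent.Lib.MP_c7e804_gt.H43Spec4b

/-!
Sign information from the key identities: assembly.
-/

namespace Pool.Agent.Lib.MP_c7e804_gt

open Matrix Set Complex
open scoped ContDiff ComplexConjugate

theorem spec4_gram (H : M2) (x y : C2) :
    hf x H x * hf y H y - hf x H y * hf y H x = H.det * (conj (br x y) * br x y) := by
  simp [hf, br, Matrix.det_fin_two, Matrix.mulVec, dotProduct, Fin.sum_univ_two]
  ring

theorem spec4_right (x : C2) (H M : M2) (y : C2) : hf x (H * M) y = hf x H (M *ᵥ y) := by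
  simp only [hf, Matrix.mulVec_mulVec]

theorem spec4_smul (x : C2) (H : M2) (t : ℂ) (y : C2) : hf x H (t • y) = t * hf x H y := by
  simpa using hf_smul_smul 1 t x H y

theorem spec4_orth {H : M2} {X : C3} (hH : H * sg X = sg (star X) * H) {t : ℝ} (ht : t ≠ 0)
    {x y : C2} (hx : sg X *ᵥ x = (t : ℂ) • x) (hy : sg X *ᵥ y = ((-t : ℝ) : ℂ) • y) :
    hf x H y = 0 := by
  have h1 := spec4_right x H (sg X) y
  have h2 := hf_mul x (sg X) H 1 y
  rw [hy, spec4_smul] at h1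
  rw [Matrix.mul_one, Matrix.one_mulVec, sg_ct, ← hH, h1, hx] at h2
  have h3 := hf_smul_smul (t : ℂ) 1 x H y
  rw [one_smul, h2, Complex.conj_ofReal] at h3
  have h4 : (2 * t : ℂ) * hf x H y = 0 := by
    push_cast at h3
    linear_combination -h3
  exact (mul_eq_zero.1 h4).resolve_left (mul_ne_zero two_ne_zero (Complex.ofReal_ne_zero.2 ht))

theorem spec4_neg {H : M2} (hh : Hᴴ = H) {Δ : ℝ} (hd : H.det = (Δ : ℂ)) (hΔ : Δ < 0) {X : C3}
    (hH : H * sg X = sg (star X) * H) {t : ℝ} (ht : t ≠ 0) {x y : C2} (hx0 : x ≠ 0) (hy0 : y ≠ 0)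
    (hx : sg X *ᵥ x = (t : ℂ) • x) (hy : sg X *ᵥ y = ((-t : ℝ) : ℂ) • y) :
    (hf x H x).re * (hf y H y).re < 0 := by
  have h1 := spec4_gram H x y
  have h2 : br x y ≠ 0 := fun e => by
    obtain ⟨c, rfl⟩ := br_eq_zero hx0 e
    rw [Matrix.mulVec_smul, hx, smul_comm] at hy
    have h3 : ((2 * t : ℝ) : ℂ) • (c • x) = 0 := by
      rw [show ((2 * t : ℝ) : ℂ) = t - ((-t : ℝ) : ℂ) by push_cast; ring, sub_smul, hy, sub_self]
    exact hy0 ((smul_eq_zero.1 h3).resolve_left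
      (Complex.ofReal_ne_zero.2 (mul_ne_zero two_ne_zero ht)))
  rw [spec4_orth hH ht hx hy, zero_mul, sub_zero, hd, ← Complex.normSq_eq_conj_mul_self] at h1
  have h4 := congrArg Complex.re h1
  rw [Complex.mul_re, hf_herm_im hh, zero_mul, sub_zero, ← Complex.ofReal_mul,
    Complex.ofReal_re] at h4
  rw [h4]
  exact mul_neg_of_neg_of_pos hΔ (Complex.normSq_pos.2 h2)

theorem spec4_axis {n : V3} (hn : n ⬝ᵥ n = 1) {d k t : ℝ} {X : C3} {H : M2}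
    (hK : H = (d : ℂ) • (1 : M2) + (k : ℂ) • sg (cv n)) (hh : Hᴴ = H)
    (hH : H * sg X = sg (star X) * H) {x : C2} (hx : sg X *ᵥ x = (t : ℂ) • x) :
    t * ((d ^ 2 - k ^ 2) * (hf x 1 x).re) = (hf x H x).re * (d * t - k * (cv n ⬝ᵥ X).re) := by
  have h1 := hf_eig (w := cv n) hH hx
  have h2 : sg (cv n) * sg (cv n) = 1 := by
    rw [sg_mul, cv_dot, hn, cross_self, sg_zero, smul_zero, add_zero, Complex.ofReal_one, one_smul]
  have h3 : H * sg (cv n) = (d : ℂ) • sg (cv n) + (k : ℂ) • (1 : M2) := by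
    rw [hK, add_mul, smul_mul_assoc, smul_mul_assoc, h2, one_mul]
  have h4 : hf x H x = d * hf x 1 x + k * hf x (sg (cv n)) x := by
    rw [hK, hf_add, hf_smul, hf_smul]
  rw [h3, hf_add, hf_smul, hf_smul, dotProduct_comm] at h1
  have h5 : (t : ℂ) * ((d ^ 2 - k ^ 2) * hf x 1 x) = hf x H x * (d * t - k * (cv n ⬝ᵥ X)) := by
    linear_combination (-k : ℂ) * h1 - d * t * h4
  have h6 := congrArg Complex.re h5
  rw [Complex.mul_re (hf x H x), hf_herm_im hh, zero_mul, sub_zero] at h6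
  simpa only [← Complex.ofReal_pow, ← Complex.ofReal_sub, ← Complex.ofReal_mul,
    Complex.re_ofReal_mul, Complex.sub_re, Complex.ofReal_re] using h6

theorem spec4_real {t k d T β P Z n1 n2 m1 m2 w1 w2 : ℝ} (ht : 0 < t) (hk : k < 0)
    (e1 : m1 = (T + β * t) * n1) (e2 : m2 = (T + β * -t) * n2) (e3 : T ^ 2 - β ^ 2 * t ^ 2 = 1)
    (e4 : m1 * m2 < 0) (c1 : 0 < (m1 - n1) * P * t) (c2 : 0 < (m2 - n2) * P * -t)
    (f1 : t * w1 = m1 * (d * t - k * Z)) (f2 : -t * w2 = m2 * (d * -t - k * Z))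
    (g1 : w1 < 0) (g2 : w2 < 0) : Z * P < 0 := by
  have a1 : n1 = (T - β * t) * m1 := by rw [e1]; linear_combination (-n1) * e3
  have a2 : n2 = (T + β * t) * m2 := by rw [e2]; linear_combination (-n2) * e3
  have b1 : 0 < (1 - (T - β * t)) * (m1 * P) :=
    (mul_pos_iff_of_pos_right ht).1 (by rw [a1] at c1; linarith)
  have b2 : 0 < ((T + β * t) - 1) * (m2 * P) :=
    (mul_pos_iff_of_pos_right ht).1 (by rw [a2] at c2; linarith)
  have e5 : (T + β * t) * (T - β * t) = 1 := by linarith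
  generalize T + β * t = l at *
  generalize T - β * t = l' at *
  have hP : P ≠ 0 := by
    rintro rfl
    simp at b1
  have b3 : (m1 * P) * (m2 * P) < 0 := by
    have := mul_neg_of_neg_of_pos e4 (pow_pos (abs_pos.2 hP) 2)
    rw [sq_abs] at this
    linarith
  have b4 : (1 - l') * (l - 1) < 0 := by
    by_contra hc
    have := mul_nonpos_of_nonneg_of_nonpos (not_lt.1 hc) b3.le
    nlinarith [mul_pos b1 b2]
  have b5 : l < 0 := by
    by_contra hc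
    have h1 : l * ((1 - l') * (l - 1)) = (l - 1) ^ 2 := by linear_combination (1 - l) * e5
    have h2 : l ≠ 0 := by
      rintro rfl
      simp at e5
    have := mul_neg_of_pos_of_neg (lt_of_le_of_ne (not_lt.1 hc) h2.symm) b4
    nlinarith [sq_nonneg (l - 1)]
  have b6 : l' < 0 := by
    by_contra hc
    nlinarith [mul_nonpos_of_nonpos_of_nonneg b5.le (not_lt.1 hc)]
  have d1 : 0 < m1 * P := (mul_pos_iff_of_pos_left (by linarith)).1 b1
  have d2 : m2 * P < 0 := by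
    by_contra hc
    nlinarith [mul_nonneg d1.le (not_lt.1 hc)]
  have hP2 : 0 < P ^ 2 := by positivity
  have r1 : (d * t - k * Z) * P < 0 := by
    by_contra hc
    have h1 := mul_nonneg d1.le (not_lt.1 hc)
    have h2 := mul_neg_of_neg_of_pos (mul_neg_of_pos_of_neg ht g1) hP2
    rw [f1] at h2
    linarith
  have r2 : (d * -t - k * Z) * P < 0 := by
    by_contra hc
    have h1 := mul_nonpos_of_nonpos_of_nonneg d2.le (not_lt.1 hc)
    have h2 := mul_pos (mul_pos_of_neg_of_neg (neg_neg_of_pos ht) g2) hP2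
    rw [f2] at h2
    linarith
  have r3 : -k * (Z * P) < 0 := by linarith
  by_contra hc
  linarith [mul_nonneg (neg_pos.2 hk).le (not_lt.1 hc)]

namespace Setup
variable {ψ : ℝ × ℝ → V3} {a b τ θ : ℝ} {g : ℕ} {s : ℕ → ℝ × ℝ → ℂ} {F G : ℂ → ℝ × ℝ → M2}
  (h : Setup ψ a b τ θ g s F G)
  (hw : ∀ r ∈ strip a b, 0 ≤ ww ψ θ r)
include h hw

omit hw in
theorem spec4_eig {κ : ℝ} (hY : 0 < (Yf ψ b g s κ).re) : ∃ (t : ℝ) (x y : C2), 0 < t ∧
    t ^ 2 = (Yf ψ b g s κ).re ∧ x ≠ 0 ∧ y ≠ 0 ∧ sg (X0 ψ b g s κ) *ᵥ x = (t : ℂ) • x ∧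
      sg (X0 ψ b g s κ) *ᵥ y = ((-t : ℝ) : ℂ) • y := by
  have h1 : √(Yf ψ b g s κ).re ^ 2 = (Yf ψ b g s κ).re := Real.sq_sqrt hY.le
  have h2 : ((√(Yf ψ b g s κ).re : ℝ) : ℂ) ^ 2 = X0 ψ b g s κ ⬝ᵥ X0 ψ b g s κ := by
    rw [← Complex.ofReal_pow, h1]
    exact Complex.ext rfl (h.Y_real κ).symm
  obtain ⟨x, hx0, hx⟩ := exists_eig _ h2
  obtain ⟨y, hy0, hy⟩ := exists_eig (s := ((-√(Yf ψ b g s κ).re : ℝ) : ℂ)) (X0 ψ b g s κ)
    (by rw [Complex.ofReal_neg, neg_sq, h2])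
  exact ⟨_, x, y, Real.sqrt_pos.2 hY, h1, hx0, hy0, hx, hy⟩

omit hw in
theorem spec4_nb {κ t : ℝ} (h1 : κ ≠ ka θ) (h2 : κ ≠ kb θ) {x : C2}
    (hx : sg (X0 ψ b g s κ) *ᵥ x = (t : ℂ) • x) :
    (hf x (Km ψ θ κ (b, 0)) x).re
      = (Tk ψ a b θ F κ + bek ψ a b θ g s F κ * t) * (hf x (Ha ψ a θ F κ) x).re := by
  rw [← h.Ha_Bm h1 h2, spec4_right, h.B_eq h1 h2, Matrix.add_mulVec, Matrix.smul_mulVec,
    Matrix.smul_mulVec, Matrix.one_mulVec, hx, smul_smul, ← add_smul, spec4_smul,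
    ← Complex.ofReal_mul, ← Complex.ofReal_add, Complex.re_ofReal_mul]

theorem center_sign {κ : ℝ} (hκ : κ ∈ Ioo (ka θ) (kb θ)) :
    0 < Tk ψ a b θ F κ ∧ (κ ≠ 0 → 0 < bek ψ a b θ g s F κ * (Pf ψ b τ g s κ).re) := by
  have hθ := h.cap.ann.hθa
  obtain ⟨t, x, y, ht, -, hx0, hy0, hx, hy⟩ := h.spec4_eig (h.Y_pos hκ)
  have hb : ∀ z : C2, z ≠ 0 → 0 < (hf z (Km ψ θ κ (b, 0)) z).re := fun z hz => by
    rw [Km_eq]
    exact hf_pos (h.cap.ann.sphere_b 0) (abs_lt_of_mem hθ hκ) hz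
  have ha : ∀ z : C2, z ≠ 0 → 0 < (hf z (Ha ψ a θ F κ) z).re := fun z hz => by
    rw [← h.form_a κ z z 0, Km_eq]
    exact hf_pos (h.cap.ann.sphere_a 0) (abs_lt_of_mem hθ hκ)
      (h.cap.F_ne h.frame κ hz (h.cap.mem_a 0))
  have e1 := h.spec4_nb hκ.1.ne' hκ.2.ne hx
  have e2 := h.spec4_nb hκ.1.ne' hκ.2.ne hy
  have a1 := ha x hx0
  have a2 := ha y hy0
  refine ⟨?_, fun h0 => ?_⟩
  · have b1 := (mul_pos_iff_of_pos_right a1).1 (e1 ▸ hb x hx0)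
    have b2 := (mul_pos_iff_of_pos_right a2).1 (e2 ▸ hb y hy0)
    linarith
  · have c1 := h.band_ineq hw h0 ht.ne' hx0 hx
    have c2 := h.band_ineq hw h0 (neg_ne_zero.2 ht.ne') hy0 hy
    rw [e1] at c1
    rw [e2] at c2
    generalize (hf x (Ha ψ a θ F κ) x).re = n1 at *
    generalize (hf y (Ha ψ a θ F κ) y).re = n2 at *
    generalize Tk ψ a b θ F κ = T at *
    generalize bek ψ a b θ g s F κ = β at *
    generalize (Pf ψ b τ g s κ).re = P at *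
    have d1 : 0 < (T + β * t - 1) * P * t :=
      (mul_pos_iff_of_pos_right a1).1 (by linarith)
    have d2 : 0 < (T - β * t - 1) * P * -t :=
      (mul_pos_iff_of_pos_right a2).1 (by linarith)
    have d3 : 0 < β * P * t ^ 2 := by linarith
    exact (mul_pos_iff_of_pos_right (pow_pos ht 2)).1 d3

theorem left_sign {κ : ℝ} (hκ : κ < ka θ) (hY : 0 < (Yf ψ b g s κ).re) :
    (cv (ψ (b, 0)) ⬝ᵥ X0 ψ b g s κ).re * (Pf ψ b τ g s κ).re < 0 := by
  have hθ := h.cap.ann.hθa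
  have k0 : κ < 0 := hκ.trans (ka_neg hθ)
  have k1 : κ < kb θ := k0.trans (kb_pos hθ)
  have hΔ : Dl θ κ < 0 := by
    rw [Dl_eq hθ]
    exact mul_neg_of_pos_of_neg (pow_pos h.cap.sin_pos 2)
      (mul_neg_of_neg_of_pos (sub_neg.2 hκ) (sub_pos.2 k1))
  obtain ⟨t, x, y, ht, ht2, hx0, hy0, hx, hy⟩ := h.spec4_eig hY
  have hH : Km ψ θ κ (b, 0) * sg (X0 ψ b g s κ) = sg (star (X0 ψ b g s κ)) * Km ψ θ κ (b, 0) :=
    h.cap.Km_Xk h.kill.toPKill κ (Or.inr rfl) 0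
  have hs := h.cap.ann.sphere_b 0
  have e1 := h.spec4_nb hκ.ne k1.ne hx
  have e2 := h.spec4_nb hκ.ne k1.ne hy
  have e3 := h.quadT hκ.ne k1.ne
  have e4 := spec4_neg (Km_herm ψ θ κ (b, 0)) (Km_det hs θ κ) hΔ hH ht.ne' hx0 hy0 hx hy
  have c1 := h.band_ineq hw k0.ne ht.ne' hx0 hx
  have c2 := h.band_ineq hw k0.ne (neg_ne_zero.2 ht.ne') hy0 hy
  have f1 := spec4_axis hs (Km_eq ψ θ κ (b, 0)) (Km_herm ψ θ κ (b, 0)) hH hx
  have f2 := spec4_axis hs (Km_eq ψ θ κ (b, 0)) (Km_herm ψ θ κ (b, 0)) hH hy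
  have g1 := mul_neg_of_neg_of_pos hΔ (hf_one_pos hx0)
  have g2 := mul_neg_of_neg_of_pos hΔ (hf_one_pos hy0)
  rw [← ht2] at e3
  rw [Dl] at g1 g2
  generalize ((1 + κ * Real.cos θ) ^ 2 - κ ^ 2) * (hf x 1 x).re = w1 at *
  generalize ((1 + κ * Real.cos θ) ^ 2 - κ ^ 2) * (hf y 1 y).re = w2 at *
  generalize (hf x (Ha ψ a θ F κ) x).re = n1 at *
  generalize (hf y (Ha ψ a θ F κ) y).re = n2 at *
  generalize (hf x (Km ψ θ κ (b, 0)) x).re = m1 at *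
  generalize (hf y (Km ψ θ κ (b, 0)) y).re = m2 at *
  generalize Tk ψ a b θ F κ = T at *
  generalize bek ψ a b θ g s F κ = β at *
  generalize (Pf ψ b τ g s κ).re = P at *
  generalize (cv (ψ (b, 0)) ⬝ᵥ X0 ψ b g s κ).re = Z at *
  exact spec4_real ht k0 e1 e2 e3 e4 c1 c2 f1 f2 g1 g2

theorem spec {Y P R : Polynomial ℝ} (hp : Polys ψ a b τ θ g s Y P R) :
    Spec g Y P R (ka θ) (kb θ) (Real.cosh (Real.pi * τ / (2 * (b - a)))) (Dl θ) (Dk b τ F)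
      (alk ψ b τ g s F) (Tk ψ a b θ F) (bek ψ a b θ g s F) := by
  have hθ := h.cap.ann.hθa
  have hY : ∀ κ : ℝ, Y.eval κ = (Yf ψ b g s κ).re := fun κ => by
    have e := Polynomial.aeval_algebraMap_apply_eq_algebraMap_eval (A := ℂ) κ Y
    rw [← hp.Yev]
    have e' : Polynomial.aeval (κ : ℂ) Y = ((Y.eval κ : ℝ) : ℂ) := e
    rw [e', Complex.ofReal_re]
  have hP : ∀ κ : ℝ, P.eval κ = (Pf ψ b τ g s κ).re := fun κ => by
    rw [← hp.Pev]; simp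
  have hs : 0 < Real.sin θ ^ 2 := pow_pos h.cap.sin_pos 2
  refine
    { ka_neg := ka_neg hθ, kb_pos := kb_pos hθ, Ydeg := hp.Ydeg, Ylead := hp.Ylead,
      Pdeg := hp.Pdeg, Plead := hp.Plead, Rdeg := hp.Rdeg, Rlead := hp.Rlead,
      Δpos := ?_, Δne := ?_, dD := h.dD hp, dα := h.dα hp, quadD := ?_,
      dT := fun κ h1 h2 => (h.dTβ hp h1 h2).1, dβ := fun κ h1 h2 => (h.dTβ hp h1 h2).2,
      quadT := ?_, Ypos := ?_, real := ?_, Pne := ?_, C₀gt := ?_, k3 := ?_, k2 := ?_, βP := ?_,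
      Tpos := fun κ hκ => (h.center_sign hw hκ).1, β0 := h.bek_zero, R0 := ?_, Rb := ?_ }
  · intro κ hκ
    rw [Dl_eq hθ]
    exact mul_pos hs (mul_pos (sub_pos.2 hκ.1) (sub_pos.2 hκ.2))
  · intro κ hκ
    rw [Dl_eq hθ]
    have h1 : 0 < κ - ka θ := by linarith [ka_neg hθ, kb_pos hθ]
    exact mul_ne_zero hs.ne' (mul_ne_zero h1.ne' (sub_neg.2 hκ).ne)
  · intro κ; rw [hY]; exact h.quadD κ
  · intro κ h1 h2; rw [hY]; exact h.quadT h1 h2
  · intro κ hκ; rw [hY]; exact h.Y_pos hκ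
  · intro z hz; rw [hp.Yev] at hz; exact h.root_real hw hz
  · intro κ hκ; rw [hY] at hκ; rw [hP]; exact h.P_ne hw hκ
  · have hτ := h.cap.ann.hτ
    have hab := sub_pos.2 h.cap.ann.hab
    exact Real.one_lt_cosh.2 (by have := Real.pi_pos; positivity)
  · intro κ h1 h2; rw [hY] at h2; exact h.gap_k3 hw h1 h2
  · intro κ h1 h2 h3; rw [hY] at h2; exact h.gap_k2 hw h1 h2 h3
  · intro κ hκ; rw [hP]
    exact (h.center_sign hw ⟨hκ.1, hκ.2.trans (kb_pos hθ)⟩).2 hκ.2.ne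
  · rw [hp.Rev]; exact h.R_zero
  · intro h0
    rw [hp.Rev]
    refine h.R_kb ?_
    rw [hY] at h0
    exact Complex.ext h0 (h.Y_real _)

end Setup

end Pool.Agent.Lib.MP_c7e804_gt
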