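import Pool.Agent.Lib.MP_c7e804_gt.H43Spec3
import Pool.Agent.Lib.MP_c7e804_gt.H43K

/-!
Sign information from the key identities: bands.
-/

namespace Pool.Agent.Lib.MP_c7e804_gt

open Matrix Set Complex
open scoped ContDiff ComplexConjugate

theorem s4a_sq {X : C3} {t : ℂ} {x : C2} (hx : x ≠ 0) (he : sg X *ᵥ x = t • x) :
    X ⬝ᵥ X = t ^ 2 := by
  have h1 : sg X * sg X = (X ⬝ᵥ X) • (1 : M2) := by
    rw [sg_mul, cross_self, sg_zero, smul_zero, add_zero]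
  have h2 : (sg X * sg X) *ᵥ x = (t ^ 2) • x := by
    rw [← mulVec_mulVec, he, mulVec_smul, he, smul_smul, sq]
  rw [h1, smul_mulVec, one_mulVec] at h2
  exact smul_left_injective ℂ hx h2

theorem s4a_dot_ne {x f : V3} (hx : x ≠ 0) (hf : f ≠ 0) (h : x ⨯₃ f = 0) : x ⬝ᵥ f ≠ 0 := by
  intro h0
  have h1 := cross_dot_cross x f x f
  rw [h, dotProduct_zero, h0, zero_mul, sub_zero] at h1
  rcases mul_eq_zero.1 h1.symm with h2 | h2
  · exact hx (dotProduct_self_eq_zero.1 h2)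
  · exact hf (dotProduct_self_eq_zero.1 h2)

namespace Setup
variable {ψ : ℝ × ℝ → V3} {a b τ θ : ℝ} {g : ℕ} {s : ℕ → ℝ × ℝ → ℂ} {F G : ℂ → ℝ × ℝ → M2}
  (h : Setup ψ a b τ θ g s F G)
  (hw : ∀ r ∈ strip a b, 0 ≤ ww ψ θ r)
include h

theorem s4a_conj (κ : ℂ) {r : ℝ × ℝ} (hr : r ∈ strip a b) (y : C2) :
    sg (Xk ψ b g s κ r) *ᵥ (F κ r *ᵥ y) = F κ r *ᵥ (sg (X0 ψ b g s κ) *ᵥ y) := by
  rw [mulVec_mulVec, mulVec_mulVec, h.cap.lax_conj h.frame (h.cap.pd_Xk h.kill.toPKill κ) hr]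
  rfl

theorem s4a_surj (κ : ℂ) {r : ℝ × ℝ} (hr : r ∈ strip a b) (y : C2) :
    ∃ y' : C2, y = F κ r *ᵥ y' :=
  ⟨(F κ r).adjugate *ᵥ y, by rw [mulVec_mulVec, (h.cap.adj_F h.frame κ hr).2, one_mulVec]⟩

theorem s4a_br (κ : ℂ) {r : ℝ × ℝ} (hr : r ∈ strip a b) (x y : C2) :
    br (F κ r *ᵥ x) (F κ r *ᵥ y) = br x y := by
  rw [br_mulVec, h.cap.det_F h.frame κ hr, one_mul]

/-- eigenvectors of the Killing field are Floquet solutions -/
theorem floq_eig {κ t : ℝ} {x : C2} (hx : x ≠ 0) (he : sg (X0 ψ b g s κ) *ᵥ x = (t : ℂ) • x) :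
    Floq ψ a b τ κ (Dk b τ F κ + I * alk ψ b τ g s F κ * t) (fun r => F κ r *ᵥ x) ∧
      ‖(Dk b τ F κ + I * alk ψ b τ g s F κ * t : ℂ)‖ = 1 := by
  constructor
  · refine h.cap.floq_F h.frame hx ?_
    rw [h.M_eq κ, add_mulVec, smul_mulVec, smul_mulVec, one_mulVec, he, smul_smul, add_smul]
  · have hY : (Yf ψ b g s κ).re = t ^ 2 := by
      rw [Yf, s4a_sq hx he]; norm_cast
    have hq := h.quadD κ
    rw [hY] at hq
    have e : (Dk b τ F κ + I * alk ψ b τ g s F κ * t : ℂ)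
        = (Dk b τ F κ : ℂ) + ((alk ψ b τ g s F κ * t : ℝ) : ℂ) * I := by push_cast; ring
    rw [e, norm_add_mul_I, Real.sqrt_eq_one]
    linarith

theorem form_a (κ : ℝ) (x y : C2) (v : ℝ) :
    hf (F κ (a, v) *ᵥ x) (Km ψ θ κ (a, v)) (F κ (a, v) *ᵥ y) = hf x (Ha ψ a θ F κ) y := by
  rw [hf_mul, h.cap.H_const h.frame κ (Or.inl rfl) v, Ha]

theorem form_b (κ : ℝ) (x y : C2) (v : ℝ) :
    hf (F κ (b, v) *ᵥ x) (Km ψ θ κ (b, v)) (F κ (b, v) *ᵥ y) = hf x (Km ψ θ κ (b, 0)) y := by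
  rw [hf_mul, h.cap.H_const h.frame κ (Or.inr rfl) v, h.frame.baseF]
  simp

theorem s4a_int {κ t : ℝ} {x : C2} (he : sg (X0 ψ b g s κ) *ᵥ x = (t : ℂ) • x) {u : ℝ}
    (hu : u = a ∨ u = b) {n : ℂ}
    (hn : ∀ v, hf (F κ (u, v) *ᵥ x) (Km ψ θ κ (u, v)) (F κ (u, v) *ᵥ x) = n) :
    (t : ℂ) * ∫ v in (0 : ℝ)..τ, hf (F κ (u, v) *ᵥ x) (Km ψ θ κ (u, v) * Am ψ (u, v))
      (F κ (u, v) *ᵥ x) = Pf ψ b τ g s κ * n := by
  have hm : ∀ v, (u, v) ∈ strip a b := fun v => by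
    rcases hu with rfl | rfl
    exacts [h.cap.mem_a v, h.cap.mem_b v]
  have hu' : u ∈ Icc a b := by
    have := h.cap.ann.hab.le
    rcases hu with rfl | rfl
    exacts [left_mem_Icc.2 this, right_mem_Icc.2 this]
  rw [← h.Pf_eq κ hu', ← intervalIntegral.integral_const_mul, ← intervalIntegral.integral_mul_const]
  congr 1
  funext v
  rw [← hn v]
  refine hf_eig (h.cap.Km_Xk h.kill.toPKill κ hu v) ?_
  rw [h.s4a_conj κ (hm v), he, mulVec_smul]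

include hw

theorem root_real {z : ℂ} (h0 : Yf ψ b g s z = 0) : z.im = 0 := by
  obtain ⟨x, hx, he⟩ := exists_eig (X0 ψ b g s z) (s := 0) (by rw [← Yf, h0]; simp)
  obtain ⟨d, t, hM⟩ := centralizer (h.X0_ne z) (h.M_comm z)
  have hd : d ^ 2 = 1 := by
    have h1 := h.cap.det_F h.frame z (h.cap.mem_b τ)
    rw [hM, ← sg_smul, det_sg, smul_dotProduct, dotProduct_smul, ← Yf, h0] at h1
    simpa using h1
  have hn : ‖d‖ = 1 := by
    have h1 := congrArg norm hd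
    rw [norm_pow, norm_one] at h1
    exact (pow_eq_one_iff_of_nonneg (norm_nonneg d) two_ne_zero).1 h1
  refine h.cap.key1 hw (h.cap.floq_F h.frame (μ := d) hx ?_) hn
  rw [hM, add_mulVec, smul_mulVec, smul_mulVec, one_mulVec, he]
  simp

/-- band inequality -/
theorem band_ineq {κ t : ℝ} (hκ : κ ≠ 0) (ht : t ≠ 0) {x : C2} (hx : x ≠ 0)
    (he : sg (X0 ψ b g s κ) *ᵥ x = (t : ℂ) • x) :
    0 < ((hf x (Km ψ θ κ (b, 0)) x).re - (hf x (Ha ψ a θ F κ) x).re)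
      * (Pf ψ b τ g s κ).re * t := by
  obtain ⟨hc, hμ⟩ := h.floq_eig hx he
  obtain ⟨r, hr, hI⟩ := h.cap.key4 hw hκ hc hμ
  have ha := h.s4a_int he (Or.inl rfl) (h.form_a κ x x)
  have hb := h.s4a_int he (Or.inr rfl) (h.form_b κ x x)
  have e : (t : ℂ) * r = Pf ψ b τ g s κ * (hf x (Km ψ θ κ (b, 0)) x - hf x (Ha ψ a θ F κ) x) := by
    rw [← hI, mul_sub, ha, hb, mul_sub]
  have e' := congrArg Complex.re e
  rw [← ofReal_mul, ofReal_re, mul_re, h.P_real κ, zero_mul, sub_zero, sub_re] at e'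
  have : ((hf x (Km ψ θ κ (b, 0)) x).re - (hf x (Ha ψ a θ F κ) x).re)
      * (Pf ψ b τ g s κ).re * t = t ^ 2 * r := by
    rw [mul_comm _ (Pf ψ b τ g s κ).re, ← e']; ring
  rw [this]
  positivity

theorem P_ne {κ : ℝ} (hY : 0 ≤ (Yf ψ b g s κ).re) : (Pf ψ b τ g s κ).re ≠ 0 := by
  by_cases hκ : κ = 0
  · subst hκ
    obtain ⟨x, hx, -, hc, hP⟩ := h.X_zero
    obtain ⟨e, -, -, -, -, he⟩ := h.cap.exists_axis
    have hf : flux ψ τ b ≠ 0 := by
      intro h0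
      have := he hw
      rw [h0, dotProduct_zero] at this
      exact lt_irrefl _ this
    rw [ofReal_zero, hP, ofReal_re]
    exact div_ne_zero (s4a_dot_ne hx hf hc) two_ne_zero
  have hYe : Yf ψ b g s κ = ((Yf ψ b g s κ).re : ℂ) :=
    Complex.ext rfl (by rw [h.Y_real κ, ofReal_im])
  rcases hY.eq_or_lt with hY0 | hY0
  · have h0 : Yf ψ b g s κ = 0 := by rw [hYe, ← hY0, ofReal_zero]
    obtain ⟨x, hx, he⟩ := exists_eig (X0 ψ b g s κ) (s := 0) (by rw [← Yf, h0]; simp)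
    obtain ⟨hc, hμ⟩ := h.floq_eig (t := 0) hx (by rw [he, ofReal_zero])
    rw [ofReal_zero, mul_zero, add_zero] at hc hμ
    have he' : sg (X0 ψ b g s κ) *ᵥ x = (I * (0 : ℝ)) • x := by rw [he]; simp
    obtain ⟨ta, hta⟩ := null_form hx (hf_null (h.X0_ne κ) (h.Ha_X κ) he')
    obtain ⟨tb, htb⟩ := null_form hx
      (hf_null (h.X0_ne κ) (h.cap.Km_Xk h.kill.toPKill κ (Or.inr rfl) 0) he')
    have hk := (h.cap.key2 hw (β := 0) hκ hc (by simpa using hμ) (by simpa using Real.pi_pos.le)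
      (ta := ta) (tb := tb) (fun v y => ?_) (fun v y => ?_)).2
    · obtain ⟨t, ht, hn⟩ := nilp_form (h.X0_ne κ) hx (by rw [he, zero_smul])
      have e : 2 * Pf ψ b τ g s κ
          = t * av τ 0 (fun r => br (F κ r *ᵥ x) (Am ψ r *ᵥ (F κ r *ᵥ x))) b := by
        rw [Pf, av, ← intervalIntegral.integral_const_mul, ← intervalIntegral.integral_const_mul]
        congr 1
        funext v
        rw [← trace_sg_mul, trace_of_nilp_form (t := t) (c := F κ (b, v) *ᵥ x)]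
        · simp [Am]
        · intro y
          obtain ⟨y', rfl⟩ := h.s4a_surj κ (h.cap.mem_b v) y
          rw [h.s4a_conj κ (h.cap.mem_b v), hn, mulVec_smul, h.s4a_br κ (h.cap.mem_b v)]
      intro hP
      have hP0 : Pf ψ b τ g s κ = 0 := Complex.ext hP (h.P_real κ)
      rw [hP0, mul_zero] at e
      exact mul_ne_zero ht hk e.symm
    · obtain ⟨y', rfl⟩ := h.s4a_surj κ (h.cap.mem_a v) y
      rw [h.form_a, hta, h.s4a_br κ (h.cap.mem_a v)]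
    · obtain ⟨y', rfl⟩ := h.s4a_surj κ (h.cap.mem_b v) y
      rw [h.form_b, htb, h.s4a_br κ (h.cap.mem_b v)]
  · obtain ⟨x, hx, he⟩ := exists_eig (X0 ψ b g s κ) (s := (√(Yf ψ b g s κ).re : ℝ))
      (by rw [← Yf, ← ofReal_pow, Real.sq_sqrt hY, ← hYe])
    have := h.band_ineq hw hκ (Real.sqrt_pos.2 hY0).ne' hx he
    intro hP
    rw [hP, mul_zero, zero_mul] at this
    exact lt_irrefl _ this

end Setup

end Pool.Agent.Lib.MP_c7e804_gt
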