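import Pool.Agent.Lib.MP_c7e804_gt.H43Spec4a

/-!
Sign information from the key identities: gaps.
-/

namespace Pool.Agent.Lib.MP_c7e804_gt

open Matrix Set Complex
open scoped ContDiff ComplexConjugate

theorem s4b_cosh {D m τ : ℝ} (hτ : 0 < τ) (h : (D - m) * (D + m) = 1) :
    ∃ β : ℝ, |D - m| = Real.exp (β * τ) ∧ |D| = Real.cosh (β * τ) := by
  have h0 : D - m ≠ 0 := left_ne_zero_of_mul_eq_one h
  have e : Real.log |D - m| / τ * τ = Real.log |D - m| := div_mul_cancel₀ _ hτ.ne'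
  refine ⟨Real.log |D - m| / τ, by rw [e, Real.exp_log (abs_pos.2 h0)], ?_⟩
  rw [e, Real.cosh_log (abs_pos.2 h0), ← abs_inv, ← eq_inv_of_mul_eq_one_right h,
    ← (abs_add_eq_add_abs_iff _ _).2, show D - m + (D + m) = 2 * D by ring, abs_mul, abs_two]
  · ring
  · rcases pos_and_pos_or_neg_and_neg_of_mul_pos (h ▸ one_pos : 0 < (D - m) * (D + m)) with h' | h'
    · exact Or.inl ⟨h'.1.le, h'.2.le⟩
    · exact Or.inr ⟨h'.1.le, h'.2.le⟩

theorem s4b_br {x : C2} (hx : x ≠ 0) {t t' : ℂ} (h : ∀ y, t * br x y = t' * br x y) : t = t' := by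
  by_contra hne
  have h0 : ∀ y, br x y = 0 := fun y =>
    (mul_eq_zero.1 (by rw [sub_mul, h, sub_self] : (t - t') * br x y = 0)).resolve_left
      (sub_ne_zero.2 hne)
  refine hx (funext fun i => ?_)
  fin_cases i
  · simpa [br] using h0 ![0, 1]
  · simpa [br] using h0 ![1, 0]

namespace Setup
variable {ψ : ℝ × ℝ → V3} {a b τ θ : ℝ} {g : ℕ} {s : ℕ → ℝ × ℝ → ℂ} {F G : ℂ → ℝ × ℝ → M2}
  (h : Setup ψ a b τ θ g s F G)
  (hw : ∀ r ∈ strip a b, 0 ≤ ww ψ θ r)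

include h in
/-- a Floquet solution with real multiplier in a closed gap -/
theorem s4b_floq {κ : ℝ} (hY : (Yf ψ b g s κ).re ≤ 0) : ∃ (σ μ β : ℝ) (x : C2), x ≠ 0 ∧
    σ ^ 2 = -(Yf ψ b g s κ).re ∧ sg (X0 ψ b g s κ) *ᵥ x = (I * σ) • x ∧
    Floq ψ a b τ κ μ (fun r => F κ r *ᵥ x) ∧ |μ| = Real.exp (β * τ) ∧
    |Dk b τ F κ| = Real.cosh (β * τ) := by
  have hσ : √(-(Yf ψ b g s κ).re) ^ 2 = -(Yf ψ b g s κ).re := Real.sq_sqrt (neg_nonneg.2 hY)
  generalize √(-(Yf ψ b g s κ).re) = σ at hσ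
  obtain ⟨x, hx, he⟩ := exists_eig (X0 ψ b g s κ) (s := I * σ) (by
    rw [mul_pow, I_sq, ← ofReal_pow, hσ]
    exact Complex.ext (by simp [Yf]) (by simpa [Yf] using (h.Y_real κ).symm))
  obtain ⟨β, h1, h2⟩ := s4b_cosh (D := Dk b τ F κ) (m := alk ψ b τ g s F κ * σ) h.cap.ann.hτ
    (by linear_combination h.quadD κ - alk ψ b τ g s F κ ^ 2 * hσ)
  refine ⟨σ, _, β, x, hx, hσ, he, h.cap.floq_F h.frame hx ?_, h1, h2⟩
  rw [h.M_eq, add_mulVec, smul_mulVec, smul_mulVec, one_mulVec, he, smul_smul, ← add_smul]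
  congr 1
  push_cast
  linear_combination (alk ψ b τ g s F κ * σ : ℂ) * I_sq

include h hw

theorem gap_k3 {κ : ℝ} (hκ : 0 < κ) (hY : (Yf ψ b g s κ).re < 0) :
    |Dk b τ F κ| ≠ Real.cosh (Real.pi * τ / (2 * (b - a))) := by
  obtain ⟨σ, μ, β, x, -, -, -, hc, h1, h2⟩ := h.s4b_floq hY.le
  intro e
  have hτ := h.cap.ann.hτ
  have hl := sub_pos.2 h.cap.ann.hab
  refine h.cap.key3 hw hκ hc (β := β) (by rw [norm_real, Real.norm_eq_abs, h1]) ?_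
  rw [h2] at e
  have e' : |β * τ| = |Real.pi * τ / (2 * (b - a))| :=
    le_antisymm (Real.cosh_le_cosh.1 e.le) (Real.cosh_le_cosh.1 e.ge)
  rw [abs_mul, abs_of_pos hτ, abs_of_pos (a := Real.pi * τ / (2 * (b - a))) (by positivity)] at e'
  field_simp at e'
  linarith

theorem gap_k2 {κ : ℝ} (hκ : kb θ < κ) (hY : (Yf ψ b g s κ).re ≤ 0)
    (hD : |Dk b τ F κ| < Real.cosh (Real.pi * τ / (2 * (b - a)))) : Tk ψ a b θ F κ ≠ 1 := by
  obtain ⟨σ, μ, β, x, hx, hσ, he, hc, h1, h2⟩ := h.s4b_floq hY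
  intro hT
  have hτ := h.cap.ann.hτ
  have hl := sub_pos.2 h.cap.ann.hab
  have hκ0 : 0 < κ := (kb_pos h.cap.ann.hθb).trans hκ
  have hκa : κ ≠ ka θ := ((ka_neg h.cap.ann.hθb).trans hκ0).ne'
  have hβ : 2 * |β| * (b - a) ≤ Real.pi := by
    rw [h2, Real.cosh_lt_cosh, abs_mul, abs_of_pos hτ,
      abs_of_pos (a := Real.pi * τ / (2 * (b - a))) (by positivity), lt_div_iff₀ (by positivity)]
      at hD
    nlinarith
  obtain ⟨ta, hta⟩ := null_form hx (hf_null (h.X0_ne κ) (h.Ha_X κ) he)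
  obtain ⟨tb, htb⟩ := null_form hx
    (hf_null (h.X0_ne κ) (h.cap.Km_Xk h.kill.toPKill κ (Or.inr rfl) 0) he)
  have hsur : ∀ p ∈ strip a b, ∀ y : C2, ∃ y', y = F κ p *ᵥ y' := fun p hp y =>
    ⟨(F κ p).adjugate *ᵥ y, by rw [mulVec_mulVec, (h.cap.adj_F h.frame κ hp).2, one_mulVec]⟩
  refine (h.cap.key2 hw hκ0.ne' hc h1 hβ (ta := ta) (tb := tb) (fun v y => ?_)
    fun v y => ?_).1 (s4b_br hx fun y => ?_)
  · obtain ⟨y', rfl⟩ := hsur _ (h.cap.mem_a v) y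
    rw [h.form_a, br_mulVec, h.cap.det_F h.frame κ (h.cap.mem_a v), one_mul, hta]
  · obtain ⟨y', rfl⟩ := hsur _ (h.cap.mem_b v) y
    rw [h.form_b, br_mulVec, h.cap.det_F h.frame κ (h.cap.mem_b v), one_mul, htb]
  · have hq := h.quadT hκa hκ.ne'
    have h0 : bek ψ a b θ g s F κ * σ = 0 := by
      rw [hT] at hq
      exact (pow_eq_zero_iff two_ne_zero).1 (by
        linear_combination hq + bek ψ a b θ g s F κ ^ 2 * hσ)
    have hB : Bm ψ a b θ F κ *ᵥ x = x := by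
      have h0' : (bek ψ a b θ g s F κ : ℂ) * (I * σ) = 0 := by
        rw [mul_left_comm, ← ofReal_mul, h0, ofReal_zero, mul_zero]
      rw [h.B_eq hκa hκ.ne', add_mulVec, smul_mulVec, smul_mulVec, one_mulVec, he, smul_smul, h0',
        hT, zero_smul, add_zero, ofReal_one, one_smul]
    rw [← hta, ← htb, ← h.Ha_herm, ← Km_herm, hf_ct, hf_ct, ← h.Ha_Bm hκa hκ.ne', hf, hf,
      ← mulVec_mulVec, hB]

end Setup

end Pool.Agent.Lib.MP_c7e804_gt
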