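import Pool.Agent.Lib.MP_c7e804_gt.H43Basic

/-!
Spectral data on the real line.
-/

namespace Pool.Agent.Lib.MP_c7e804_gt

open Matrix Set Complex
open scoped ContDiff ComplexConjugate

open Polynomial in
/-- abstract spectral data -/
structure Spec (g : ℕ) (Y P R : Polynomial ℝ) (κa κb C₀ : ℝ) (Δ D α T β : ℝ → ℝ) : Prop where
  ka_neg : κa < 0
  kb_pos : 0 < κb
  Ydeg : Y.natDegree = 2 * g + 1
  Ylead : 0 < Y.leadingCoeff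
  Pdeg : P.natDegree = g
  Plead : 0 < P.leadingCoeff
  Rdeg : R.natDegree = g + 2
  Rlead : 0 < R.leadingCoeff
  Δpos : ∀ κ ∈ Ioo κa κb, 0 < Δ κ
  Δne : ∀ κ, κb < κ → Δ κ ≠ 0
  dD : ∀ κ, HasDerivAt D (α κ * P.eval κ) κ
  dα : ∀ κ, ∃ α', HasDerivAt α α' κ ∧
    2 * α' * Y.eval κ + α κ * Y.derivative.eval κ = -2 * D κ * P.eval κ
  quadD : ∀ κ, D κ ^ 2 + α κ ^ 2 * Y.eval κ = 1
  dT : ∀ κ, κ ≠ κa → κ ≠ κb → HasDerivAt T (β κ * R.eval κ / (2 * Δ κ)) κ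
  dβ : ∀ κ, κ ≠ κa → κ ≠ κb → ∃ β', HasDerivAt β β' κ ∧
    2 * β' * Y.eval κ + β κ * Y.derivative.eval κ = T κ * R.eval κ / Δ κ
  quadT : ∀ κ, κ ≠ κa → κ ≠ κb → T κ ^ 2 - β κ ^ 2 * Y.eval κ = 1
  Ypos : ∀ κ ∈ Ioo κa κb, 0 < Y.eval κ
  real : ∀ z : ℂ, aeval z Y = 0 → z.im = 0
  Pne : ∀ κ, 0 ≤ Y.eval κ → P.eval κ ≠ 0
  C₀gt : 1 < C₀
  k3 : ∀ κ, 0 < κ → Y.eval κ < 0 → |D κ| ≠ C₀
  k2 : ∀ κ, κb < κ → Y.eval κ ≤ 0 → |D κ| < C₀ → T κ ≠ 1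
  βP : ∀ κ ∈ Ioo κa 0, 0 < β κ * P.eval κ
  Tpos : ∀ κ ∈ Ioo κa κb, 0 < T κ
  β0 : β 0 = 0
  R0 : R.eval 0 = 0
  Rb : Y.eval κb = 0 → R.eval κb = 0

/-- abstract rotation angle on the negative half line -/
structure Angle (P : Polynomial ℝ) (D α Θ : ℝ → ℝ) (m : ℝ → ℂ) : Prop where
  contΘ : ContinuousOn Θ (Iic 0)
  contm : ContinuousOn m (Iic 0)
  ne : ∀ κ ≤ 0, m κ ≠ 0
  re : ∀ κ ≤ 0, (m κ).re = D κ
  phase : ∀ κ ≤ 0, cexp (2 * I * Θ κ) = m κ ^ 2 / (‖m κ‖ : ℂ) ^ 2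
  sign : ∀ κ ≤ 0, |D κ| < 1 → α κ * P.eval κ * (m κ).im < 0
  m0 : m 0 = 1
  Θ0 : Θ 0 ≤ Real.pi
  low : ∃ κ₁, ∀ κ ≤ κ₁, -(Real.pi / 2) < Θ κ

section
variable (ψ : ℝ × ℝ → V3) (a b τ θ : ℝ) (g : ℕ) (s : ℕ → ℝ × ℝ → ℂ) (F : ℂ → ℝ × ℝ → M2)

/-- Killing field at the base point -/
noncomputable def X0 (κ : ℂ) : C3 := Xk ψ b g s κ (b, 0)

noncomputable def Yf (κ : ℂ) : ℂ := X0 ψ b g s κ ⬝ᵥ X0 ψ b g s κ

noncomputable def Pf (κ : ℂ) : ℂ := ∫ v in (0 : ℝ)..τ, Xk ψ b g s κ (b, v) ⬝ᵥ ph ψ (b, v)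

noncomputable def Rf (κ : ℂ) : ℂ :=
  2 * (cv (ψ (b, 0)) ⬝ᵥ Xk ψ b g s κ (b, 0)) - 2 * (cv (ψ (a, 0)) ⬝ᵥ Xk ψ b g s κ (a, 0))
    - 4 * ((1 + κ * Real.cos θ) ^ 2 - κ ^ 2) * ∫ u in a..b, Xk ψ b g s κ (u, 0) ⬝ᵥ ph ψ (u, 0)

/-- half trace of the monodromy -/
noncomputable def Dk (κ : ℝ) : ℝ := ((F κ (b, τ)).trace / 2).re

noncomputable def alk (κ : ℝ) : ℝ :=
  ((F κ (b, τ) * sg (star (X0 ψ b g s κ))).trace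
    / (2 * I * (X0 ψ b g s κ ⬝ᵥ star (X0 ψ b g s κ)))).re

/-- boundary form of the line `u = a` transported to the base point -/
noncomputable def Ha (κ : ℝ) : M2 := (F κ (a, 0))ᴴ * Km ψ θ κ (a, 0) * F κ (a, 0)

/-- the second monodromy -/
noncomputable def Bm (κ : ℝ) : M2 :=
  ((Dl θ κ : ℂ))⁻¹ • ((Ha ψ a θ F κ).adjugate * Km ψ θ κ (b, 0))

noncomputable def Tk (κ : ℝ) : ℝ := ((Bm ψ a b θ F κ).trace / 2).re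

noncomputable def bek (κ : ℝ) : ℝ :=
  ((Bm ψ a b θ F κ * sg (star (X0 ψ b g s κ))).trace
    / (2 * (X0 ψ b g s κ ⬝ᵥ star (X0 ψ b g s κ)))).re

/-- the real polynomials attached to a Killing field -/
structure Polys (Y P R : Polynomial ℝ) : Prop where
  Ydeg : Y.natDegree = 2 * g + 1
  Ylead : 0 < Y.leadingCoeff
  Pdeg : P.natDegree = g
  Plead : 0 < P.leadingCoeff
  Rdeg : R.natDegree = g + 2
  Rlead : 0 < R.leadingCoeff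
  Yev : ∀ z : ℂ, Polynomial.aeval z Y = Yf ψ b g s z
  Pev : ∀ κ : ℝ, ((P.eval κ : ℝ) : ℂ) = Pf ψ b τ g s κ
  Rev : ∀ κ : ℝ, R.eval κ = (Rf ψ a b θ g s κ).re

/-- `[c, A c]` along the boundary line `u = b` -/
noncomputable def Qf (c : ℝ → C2) (v : ℝ) : ℂ := br (c v) (Am ψ (b, v) *ᵥ c v)

/-- its derivative for solutions of the Lax system -/
noncomputable def Qd (c : ℝ → C2) (v : ℝ) : ℂ := I * br (c v) (sg (ph1 ψ (b, v)) *ᵥ c v)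

end

/-- everything fixed in the spectral argument -/
structure Setup (ψ : ℝ × ℝ → V3) (a b τ θ : ℝ) (g : ℕ) (s : ℕ → ℝ × ℝ → ℂ)
    (F G : ℂ → ℝ × ℝ → M2) : Prop where
  cap : Cap ψ a b τ θ
  kill : Kill ψ a b τ θ g s
  frame : Frame a b (Am ψ) F G

end Pool.Agent.Lib.MP_c7e804_gt
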