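import Pool.Agent.Lib.MP_c7e804_gt.H43MercDefs

/-!
Transplantation: regularity.
-/

namespace Pool.Agent.Lib.MP_c7e804_gt

open Matrix Set Complex
open scoped ContDiff ComplexConjugate

open Filter Topology

/-- the rotation-dilation with coefficients `r`, `s` -/
noncomputable def trRot (r s : ℝ) : ℝ × ℝ →L[ℝ] ℝ × ℝ :=
  ((ContinuousLinearMap.fst ℝ ℝ ℝ).smulRight r + (ContinuousLinearMap.snd ℝ ℝ ℝ).smulRight (-s)).prod
    ((ContinuousLinearMap.fst ℝ ℝ ℝ).smulRight s + (ContinuousLinearMap.snd ℝ ℝ ℝ).smulRight r)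

theorem trRot_apply (r s : ℝ) (d : ℝ × ℝ) :
    trRot r s d = (d.1 * r - d.2 * s, d.1 * s + d.2 * r) := by
  simp [trRot, sub_eq_add_neg]

theorem trRot_equiv {r s : ℝ} (hr : 0 < r) :
    ∃ e : (ℝ × ℝ) ≃L[ℝ] (ℝ × ℝ), (e : ℝ × ℝ →L[ℝ] ℝ × ℝ) = trRot r s := by
  have hn : r ^ 2 + s ^ 2 ≠ 0 := by positivity
  refine ⟨ContinuousLinearEquiv.equivOfInverse (trRot r s)
    (trRot (r / (r ^ 2 + s ^ 2)) (-s / (r ^ 2 + s ^ 2))) (fun d => ?_) (fun d => ?_), rfl⟩
  · simp only [trRot_apply]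
    ext <;> simp only [] <;> field_simp <;> ring
  · simp only [trRot_apply]
    ext <;> simp only [] <;> field_simp <;> ring

theorem tr_strip_nhds {a b : ℝ} {p : ℝ × ℝ} (h1 : a < p.1) (h2 : p.1 < b) : strip a b ∈ 𝓝 p := by
  filter_upwards [continuous_fst.continuousAt.eventually (Ioo_mem_nhds h1 h2)] with q hq
  exact ⟨hq.1.le, hq.2.le⟩

namespace Merc
variable {a b τ Pd : ℝ} {x y r s : ℝ × ℝ → ℝ} (h : Merc a b τ Pd x y r s)
include h

theorem tr_hasF {p : ℝ × ℝ} (h1 : a < p.1) (h2 : p.1 < b) :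
    HasFDerivAt (fun q => (x q, y q)) (trRot (r p) (s p)) p :=
  (h.pdx.hasFDerivAt h1 h2).prodMk (h.pdy.hasFDerivAt h1 h2)

theorem inj {p p' : ℝ × ℝ} (hp : p ∈ strip a b) (hp' : p' ∈ strip a b) (hx : x p = x p')
    (hy : y p = y p') : p = p' := by
  by_cases h1 : p.1 = p'.1
  · have hm : StrictMono fun v => y (p.1, v) :=
      strictMono_of_hasDerivAt_pos (f' := fun v => r (p.1, v))
        (fun v => h.pdy.hv (p.1, v) hp) fun v => h.rpos (p.1, v) hp
    have h2 : p.2 = p'.2 := hm.injective (by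
      have e : ((p.1, p'.2) : ℝ × ℝ) = p' := Prod.ext h1 rfl
      show y p = y (p.1, p'.2)
      rw [e, hy])
    exact Prod.ext h1 h2
  exfalso
  set d := p' - p with hd
  have hd1 : d.1 ≠ 0 := fun e => h1 (sub_eq_zero.1 e).symm
  have hin : ∀ t ∈ Icc (0 : ℝ) 1, p + t • d ∈ strip a b := fun t ht => by
    have := (convex_Icc a b).add_smul_sub_mem (x := p.1) (y := p'.1) hp hp' ht
    exact this
  have hopen : ∀ t ∈ Ioo (0 : ℝ) 1, a < (p + t • d).1 ∧ (p + t • d).1 < b := fun t ht => by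
    have e : (p + t • d).1 = p.1 + t * (p'.1 - p.1) := rfl
    rw [e]
    obtain ⟨a1, a2⟩ := hp
    obtain ⟨a3, a4⟩ := hp'
    obtain ⟨t1, t2⟩ := ht
    rcases lt_or_gt_of_ne h1 with c | c
    · constructor <;> nlinarith
    · constructor <;> nlinarith
  have hc : Continuous fun t : ℝ => p + t • d := by fun_prop
  have hcont : ContinuousOn (fun t : ℝ => d.1 * x (p + t • d) + d.2 * y (p + t • d)) (Icc 0 1) :=
    (continuousOn_const.mul (h.pdx.cont.comp hc.continuousOn hin)).add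
      (continuousOn_const.mul (h.pdy.cont.comp hc.continuousOn hin))
  have hder : ∀ t ∈ Ioo (0 : ℝ) 1,
      HasDerivAt (fun t : ℝ => d.1 * x (p + t • d) + d.2 * y (p + t • d))
        (r (p + t • d) * (d.1 ^ 2 + d.2 ^ 2)) t := fun t ht => by
    have a1 : HasDerivAt (fun t : ℝ => p + t • d) d t := by
      simpa using ((hasDerivAt_id t).smul_const d).const_add p
    have a2 := HasFDerivAt.comp_hasDerivAt (f := fun t : ℝ => p + t • d) t
      (h.pdx.hasFDerivAt (hopen t ht).1 (hopen t ht).2) a1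
    have a3 := HasFDerivAt.comp_hasDerivAt (f := fun t : ℝ => p + t • d) t
      (h.pdy.hasFDerivAt (hopen t ht).1 (hopen t ht).2) a1
    exact ((a2.const_mul d.1).add (a3.const_mul d.2)).congr_deriv (by simp; ring)
  obtain ⟨c, hc, h0⟩ := exists_hasDerivAt_eq_zero one_pos hcont
    (by simp [hd, hx, hy]) hder
  have := h.rpos _ (hin c (Ioo_subset_Icc_self hc))
  have : 0 < r (p + c • d) * (d.1 ^ 2 + d.2 ^ 2) := by positivity
  linarith

theorem tr_apply (f : ℝ × ℝ → ℝ) {p : ℝ × ℝ} (hp : p ∈ strip a b) :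
    Tr a b x y f (x p, y p) = f p := by
  have he : ∃ q, q ∈ strip a b ∧ (x q, y q) = (x p, y p) := ⟨p, hp, rfl⟩
  unfold Tr
  rw [dif_pos he]
  have hs := he.choose_spec
  rw [h.inj hs.1 hp (congrArg Prod.fst hs.2) (congrArg Prod.snd hs.2)]

omit h in
theorem tr_off (f : ℝ × ℝ → ℝ) {w : ℝ × ℝ} (hw : ∀ p ∈ strip a b, (x p, y p) ≠ w) :
    Tr a b x y f w = 0 := by
  unfold Tr
  rw [dif_neg]
  rintro ⟨p, hp, e⟩
  exact hw p hp e

theorem tr_per {f : ℝ × ℝ → ℝ} (hper : ∀ p ∈ strip a b, f (p.1, p.2 + τ) = f p) (w : ℝ × ℝ) :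
    Tr a b x y f (w.1, w.2 + Pd) = Tr a b x y f w := by
  by_cases hw : ∃ p ∈ strip a b, (x p, y p) = w
  · obtain ⟨p, hp, rfl⟩ := hw
    have h1 := h.tr_apply f (p := (p.1, p.2 + τ)) hp
    rw [h.perx p hp, h.pery p hp, hper p hp] at h1
    rw [h.tr_apply f hp]
    exact h1
  · push Not at hw
    rw [tr_off f hw]
    refine tr_off f fun p hp e => hw (p.1, p.2 - τ) hp ?_
    have h1 := h.perx (p.1, p.2 - τ) hp
    have h2 := h.pery (p.1, p.2 - τ) hp
    simp only [sub_add_cancel, Prod.mk.eta] at h1 h2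
    obtain ⟨e1, e2⟩ := Prod.mk.inj e
    exact Prod.ext (h1.symm.trans e1) (by simp only []; linarith)

/-- away from the image of the middle strip the transplanted function vanishes locally -/
theorem tr_zero {f : ℝ × ℝ → ℝ} {δ : ℝ} (hδ : 0 < δ)
    (h0 : ∀ p ∈ strip a b, p.1 ≤ a + δ ∨ b - δ ≤ p.1 → f p = 0) {w : ℝ × ℝ}
    (hw : ∀ p ∈ strip (a + δ) (b - δ), (x p, y p) ≠ w) : Tr a b x y f =ᶠ[𝓝 w] fun _ => 0 := by
  have hsub : strip (a + δ) (b - δ) ⊆ strip a b := fun p hp =>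
    ⟨by linarith [hp.1], by linarith [hp.2]⟩
  have hτ := h.hτ
  have hP := h.Pd_pos
  obtain ⟨C, hC⟩ := bdd_of_per (f := fun p : ℝ × ℝ => y p - Pd / τ * p.2) h.hτ
    (h.pdy.cont.sub (by fun_prop)) fun p hp => by
      simp only [h.pery p hp]
      field_simp
      ring
  set M := τ / Pd * (C + |w.2| + 1) with hM
  have hQ : IsCompact (Icc (a + δ) (b - δ) ×ˢ Icc (-M) M) := isCompact_Icc.prod isCompact_Icc
  have hQs : Icc (a + δ) (b - δ) ×ˢ Icc (-M) M ⊆ strip a b := fun p hp => hsub hp.1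
  have hK := (hQ.image_of_continuousOn ((h.pdx.cont.prodMk h.pdy.cont).mono hQs)).isClosed
  have h1 := hK.isOpen_compl.mem_nhds (x := w) (by
    rintro ⟨p, hp, e⟩
    exact hw p hp.1 e)
  have h2 : ∀ᶠ z : ℝ × ℝ in 𝓝 w, |z.2 - w.2| < 1 := by
    have := Metric.tendsto_nhds.1 (continuous_snd.tendsto w) 1 one_pos
    simpa only [Real.dist_eq] using this
  filter_upwards [h1, h2] with z hz1 hz2
  by_cases hz : ∃ p ∈ strip a b, (x p, y p) = z
  · obtain ⟨p, hp, rfl⟩ := hz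
    rw [h.tr_apply f hp]
    refine h0 p hp ?_
    by_contra hn
    push Not at hn
    refine hz1 ⟨p, ⟨⟨hn.1.le, hn.2.le⟩, abs_le.1 ?_⟩, rfl⟩
    have a1 := hC p hp
    rw [Real.norm_eq_abs] at a1
    have a2 : |Pd / τ * p.2| ≤ C + |w.2| + 1 := by
      obtain ⟨b1, b2⟩ := abs_le.1 a1
      obtain ⟨b3, b4⟩ := abs_lt.1 hz2
      rw [abs_le]
      constructor <;> linarith [le_abs_self w.2, neg_abs_le w.2]
    have a3 : p.2 = τ / Pd * (Pd / τ * p.2) := by field_simp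
    rw [a3, abs_mul, abs_of_pos (div_pos hτ hP)]
    exact mul_le_mul_of_nonneg_left a2 (div_pos hτ hP).le
  · push Not at hz
    exact tr_off f hz

theorem tr_at {f fu fv : ℝ × ℝ → ℝ} (hf : PD a b f fu fv) {p : ℝ × ℝ} (h1 : a < p.1)
    (h2 : p.1 < b) : ContDiffAt ℝ 1 (Tr a b x y f) (x p, y p) := by
  obtain ⟨e, he⟩ := trRot_equiv (s := s p) (h.rpos p ⟨h1.le, h2.le⟩)
  have hZ : ContDiffAt ℝ 1 (fun q => (x q, y q)) p :=
    (h.pdx.contDiffAt h1 h2).prodMk (h.pdy.contDiffAt h1 h2)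
  have hZ' : HasFDerivAt (fun q => (x q, y q)) (e : ℝ × ℝ →L[ℝ] ℝ × ℝ) p := he ▸ h.tr_hasF h1 h2
  have a1 := hZ.to_localInverse hZ' one_ne_zero
  have a2 := hZ.localInverse_apply_image hZ' one_ne_zero
  have a3 : ∀ᶠ w in 𝓝 (x p, y p), (x (hZ.localInverse hZ' one_ne_zero w),
      y (hZ.localInverse hZ' one_ne_zero w)) = w :=
    (hZ.hasStrictFDerivAt' hZ' one_ne_zero).eventually_right_inverse
  have a4 : ∀ᶠ w in 𝓝 (x p, y p), hZ.localInverse hZ' one_ne_zero w ∈ strip a b :=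
    a1.continuousAt.eventually (by rw [a2]; exact tr_strip_nhds h1 h2)
  have a5 : ContDiffAt ℝ 1 f (hZ.localInverse hZ' one_ne_zero (x p, y p)) := by
    rw [a2]
    exact hf.contDiffAt h1 h2
  refine (a5.comp _ a1).congr_of_eventuallyEq ?_
  filter_upwards [a3, a4] with w e1 e2
  rw [Function.comp_apply, ← h.tr_apply f e2, e1]

theorem tr_smooth {f fu fv : ℝ × ℝ → ℝ} (hf : PD a b f fu fv) {δ : ℝ} (hδ : 0 < δ)
    (h0 : ∀ p ∈ strip a b, p.1 ≤ a + δ ∨ b - δ ≤ p.1 → f p = 0) :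
    ContDiff ℝ 1 (Tr a b x y f) ∧
    (∀ p ∈ strip a b, (du (Tr a b x y f) (x p, y p) ^ 2 + dv (Tr a b x y f) (x p, y p) ^ 2)
      * (r p ^ 2 + s p ^ 2) = fu p ^ 2 + fv p ^ 2) ∧
    ∀ w, (∀ p ∈ strip a b, (x p, y p) ≠ w) →
      du (Tr a b x y f) w = 0 ∧ dv (Tr a b x y f) w = 0 := by
  have hsub : strip (a + δ) (b - δ) ⊆ strip a b := fun p hp =>
    ⟨by linarith [hp.1], by linarith [hp.2]⟩
  have hz : ∀ w, (∀ p ∈ strip (a + δ) (b - δ), (x p, y p) ≠ w) →
      du (Tr a b x y f) w = 0 ∧ dv (Tr a b x y f) w = 0 := fun w hw => by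
    have := (h.tr_zero hδ h0 hw).fderiv_eq (𝕜 := ℝ)
    simp [du, dv, this]
  refine ⟨contDiff_iff_contDiffAt.2 fun w => ?_, fun p hp => ?_,
    fun w hw => hz w fun p hp => hw p (hsub hp)⟩
  · by_cases hw : ∃ p ∈ strip (a + δ) (b - δ), (x p, y p) = w
    · obtain ⟨p, hp, rfl⟩ := hw
      exact h.tr_at hf (by linarith [hp.1]) (by linarith [hp.2])
    · push Not at hw
      exact contDiffAt_const.congr_of_eventuallyEq (h.tr_zero hδ h0 hw)
  by_cases hi : a < p.1 ∧ p.1 < b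
  · have a1 := ((h.tr_at hf hi.1 hi.2).differentiableAt one_ne_zero).hasFDerivAt
    have a2 := HasFDerivAt.comp (f := fun q => (x q, y q)) p a1 (h.tr_hasF hi.1 hi.2)
    have a3 := a2.congr_of_eventuallyEq (f₁ := f) (by
      filter_upwards [tr_strip_nhds hi.1 hi.2] with q hq
      exact (h.tr_apply f hq).symm)
    have a4 := a3.unique (hf.hasFDerivAt hi.1 hi.2)
    have lin : ∀ c d : ℝ, fderiv ℝ (Tr a b x y f) (x p, y p) (c, d) =
        c * du (Tr a b x y f) (x p, y p) + d * dv (Tr a b x y f) (x p, y p) := fun c d => by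
      have : ((c, d) : ℝ × ℝ) = c • ((1, 0) : ℝ × ℝ) + d • ((0, 1) : ℝ × ℝ) := by simp
      rw [this, map_add, map_smul, map_smul]
      rfl
    have b1 := congrArg (fun A : ℝ × ℝ →L[ℝ] ℝ => A (1, 0)) a4
    have b2 := congrArg (fun A : ℝ × ℝ →L[ℝ] ℝ => A (0, 1)) a4
    simp only [ContinuousLinearMap.comp_apply, trRot_apply, lin] at b1 b2
    simp at b1 b2
    rw [← b1, ← b2]
    ring
  · have hb : p.1 = a ∨ p.1 = b := by
      rcases hp.1.eq_or_lt with c | c
      · exact Or.inl c.symm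
      · exact Or.inr (le_antisymm hp.2 (not_lt.1 fun c' => hi ⟨c, c'⟩))
    obtain ⟨a1, a2⟩ := hz (x p, y p) fun q hq e => by
      obtain ⟨e1, e2⟩ := Prod.mk.inj e
      have := h.inj (hsub hq) hp e1 e2
      subst this
      rcases hb with c | c <;> linarith [hq.1, hq.2]
    have a3 : fv p = 0 := by
      refine (hf.hv p hp).unique ?_
      have : (fun v => f (p.1, v)) = fun _ => 0 := funext fun v => h0 (p.1, v) hp (by
        rcases hb with c | c
        · exact Or.inl (by simp only []; linarith)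
        · exact Or.inr (by simp only []; linarith))
      rw [this]
      exact hasDerivAt_const _ _
    have a4 : fu p = 0 := by
      refine (uniqueDiffOn_Icc h.hab p.1 hp).eq_deriv _ (hf.hu p hp) ?_
      have hev : ∀ᶠ u in 𝓝[Icc a b] p.1, f (u, p.2) = 0 := by
        filter_upwards [self_mem_nhdsWithin,
          mem_nhdsWithin_of_mem_nhds (Ioo_mem_nhds (sub_lt_self p.1 hδ) (lt_add_of_pos_right p.1 hδ))]
          with u hu hu'
        refine h0 (u, p.2) hu ?_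
        rcases hb with c | c
        · exact Or.inl (by simp only []; linarith [hu'.2])
        · exact Or.inr (by simp only []; linarith [hu'.1])
      exact (hasDerivWithinAt_const p.1 (Icc a b) (0 : ℝ)).congr_of_eventuallyEq hev
        (hev.self_of_nhdsWithin hp)
    rw [a1, a2, a3, a4]
    ring

end Merc

end Pool.Agent.Lib.MP_c7e804_gt
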