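import Pool.Agent.Lib.MP_c7e804_gt.H63Calc

/-!
An equivariant local diffeomorphism between closed strips is a bijection.
-/

namespace Pool.Agent.Lib.MP_c7e804_gt

open Set Filter Topology
open scoped ContDiff

theorem uia_fst {f : ℝ → ℝ × ℝ} {d : ℝ × ℝ} {a : ℝ} (h : HasDerivAt f d a) :
    HasDerivAt (fun t => (f t).1) d.1 a :=
  (ContinuousLinearMap.fst ℝ ℝ ℝ).hasFDerivAt.comp_hasDerivAt a h

theorem uia_snd {f : ℝ → ℝ × ℝ} {d : ℝ × ℝ} {a : ℝ} (h : HasDerivAt f d a) :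
    HasDerivAt (fun t => (f t).2) d.2 a :=
  (ContinuousLinearMap.snd ℝ ℝ ℝ).hasFDerivAt.comp_hasDerivAt a h

theorem uia_right {f : ℝ → ℝ} {d a : ℝ} (h : HasDerivAt f d a) (hd : 0 < d) :
    ∀ᶠ t in 𝓝[>] a, f a < f t := by
  have h1 := (hasDerivAt_iff_tendsto_slope_left_right.1 h).2
  filter_upwards [h1.eventually (lt_mem_nhds hd), self_mem_nhdsWithin] with t ht ht'
  rw [slope_def_field] at ht
  have := (div_pos_iff_of_pos_right (sub_pos.2 ht')).1 ht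
  linarith

theorem uia_left {f : ℝ → ℝ} {d a : ℝ} (h : HasDerivAt f d a) (hd : d < 0) :
    ∀ᶠ t in 𝓝[<] a, f a < f t := by
  have h1 := (hasDerivAt_iff_tendsto_slope_left_right.1 h).1
  filter_upwards [h1.eventually (gt_mem_nhds hd), self_mem_nhdsWithin] with t ht ht'
  rw [slope_def_field] at ht
  have h2 : t - a < 0 := sub_neg.2 ht'
  by_contra h3
  exact absurd ht (not_lt.2 (div_nonneg_of_nonpos (by linarith) h2.le))

theorem uia_max {F : ℝ × ℝ → ℝ} (hF : ContinuousOn F (strip 0 1))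
    (hp : ∀ p ∈ strip 0 1, F (p.1, p.2 + 1) = F p) :
    ∃ p ∈ strip 0 1, ∀ q ∈ strip 0 1, F q ≤ F p := by
  have hK : IsCompact (Icc (0 : ℝ) 1 ×ˢ Icc (0 : ℝ) 1) := isCompact_Icc.prod isCompact_Icc
  have hs : Icc (0 : ℝ) 1 ×ˢ Icc (0 : ℝ) 1 ⊆ strip 0 1 := fun q hq => hq.1
  obtain ⟨p, hp1, hp2⟩ := hK.exists_isMaxOn ⟨(0, 0), by simp⟩ (hF.mono hs)
  refine ⟨p, hs hp1, fun q hq => ?_⟩
  have h1 : Function.Periodic (fun v => F (q.1, v)) 1 := fun v => hp (q.1, v) hq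
  obtain ⟨y, hy, e⟩ := h1.exists_mem_Ico₀ one_pos q.2
  have e' : F q = F (q.1, y) := e
  rw [e']
  exact hp2 (show (q.1, y) ∈ Icc (0 : ℝ) 1 ×ˢ Icc (0 : ℝ) 1 from ⟨hq, hy.1, hy.2.le⟩)

theorem uia_clopen {S Z : Set (ℝ × ℝ)} (hS : IsPreconnected S) (hc : IsClosed Z)
    (ho : ∀ z ∈ Z, Z ∈ 𝓝[S] z) {z : ℝ × ℝ} (hz : z ∈ S) (hz' : z ∈ Z) : S ⊆ Z := by
  haveI := isPreconnected_iff_preconnectedSpace.1 hS
  have h1 : IsClopen ((↑) ⁻¹' Z : Set S) := ⟨hc.preimage continuous_subtype_val,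
    isOpen_iff_mem_nhds.2 fun a ha => preimage_coe_mem_nhds_subtype.2 (ho a ha)⟩
  have h2 := h1.eq_univ ⟨⟨z, hz⟩, hz'⟩
  intro x hx
  exact (h2.ge (mem_univ (⟨x, hx⟩ : S)) :)

theorem uia_closed {Z : Set (ℝ × ℝ)}
    (h : ∀ z, ∃ T, IsClosed T ∧ T ⊆ Z ∧ ∀ x ∈ Z, dist x z < 1 → x ∈ T) : IsClosed Z := by
  refine isClosed_of_closure_subset fun z hz => ?_
  obtain ⟨T, h1, h2, h3⟩ := h z
  refine h2 (h1.closure_subset ?_)
  have h4 := Metric.isOpen_ball.inter_closure (⟨Metric.mem_ball_self one_pos, hz⟩ :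
    z ∈ Metric.ball z 1 ∩ closure Z)
  exact closure_mono (fun x hx => h3 x hx.2 hx.1) h4

theorem uia_mono {w : ℝ × ℝ → ℝ × ℝ} {p : ℝ × ℝ} (hs : ContDiffAt ℝ ∞ w p)
    (hd : 0 < (du w p).1) : ∃ r, 0 < r ∧ r ≤ 1 ∧ ∀ v, dist v p.2 < r →
      StrictMonoOn (fun t => (w (t, v)).1) (Ioo (p.1 - r) (p.1 + r)) := by
  have h1 : ∀ᶠ q in 𝓝 p, ContDiffAt ℝ 1 w q :=
    (hs.of_le (m := 1) (by exact_mod_cast le_top)).eventually (by simp)
  have h2 : ∀ᶠ q in 𝓝 p, 0 < (du w q).1 :=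
    (continuous_fst.continuousAt.comp (sm_du hs).continuousAt).eventually (lt_mem_nhds hd)
  obtain ⟨r, r0, hr⟩ := Metric.eventually_nhds_iff.1 (h1.and h2)
  refine ⟨min r 1, lt_min r0 one_pos, min_le_right _ _, fun v hv => ?_⟩
  have h3 : ∀ t ∈ Ioo (p.1 - min r 1) (p.1 + min r 1),
      HasDerivAt (fun t => (w (t, v)).1) (du w (t, v)).1 t ∧ 0 < (du w (t, v)).1 := by
    intro t ht
    have h4 : dist (t, v) p < r := by
      rw [Prod.dist_eq, max_lt_iff]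
      refine ⟨?_, hv.trans_le (min_le_left _ _)⟩
      rw [Real.dist_eq, abs_lt]
      have := min_le_left r 1
      constructor <;> linarith [ht.1, ht.2]
    exact ⟨uia_fst (hasDerivAt_line_u ((hr h4).1.differentiableAt one_ne_zero)), (hr h4).2⟩
  refine strictMonoOn_of_deriv_pos (convex_Ioo _ _)
    (fun t ht => (h3 t ht).1.continuousAt.continuousWithinAt) fun t ht => ?_
  rw [interior_Ioo] at ht
  rw [(h3 t ht).1.deriv]
  exact (h3 t ht).2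

/-- Hypotheses on the coordinate map. -/
structure UCoord (w : ℝ × ℝ → ℝ × ℝ) (b τ : ℝ) : Prop where
  hτ : 0 < τ
  sm : ∀ p ∈ strip 0 1, ContDiffAt ℝ ∞ w p
  det : ∀ p ∈ strip 0 1, 0 < (du w p).1 * (dv w p).2 - (du w p).2 * (dv w p).1
  h0 : ∀ v, (w (0, v)).1 = 0
  h1 : ∀ v, (w (1, v)).1 = b
  hV : ∀ v, 0 < (dv w (0, v)).2
  per : ∀ p ∈ strip 0 1, w (p.1, p.2 + 1) = ((w p).1, (w p).2 + τ)

namespace UCoord
variable {w : ℝ × ℝ → ℝ × ℝ} {b τ : ℝ} (h : UCoord w b τ)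
include h

/-- the derivative is invertible -/
theorem equiv {p : ℝ × ℝ} (hp : p ∈ strip 0 1) :
    ∃ e : (ℝ × ℝ) ≃L[ℝ] (ℝ × ℝ), HasFDerivAt w (e : (ℝ × ℝ) →L[ℝ] (ℝ × ℝ)) p := by
  have hd := (sm_diff (h.sm p hp)).hasFDerivAt
  have h1 : Function.Injective (fderiv ℝ w p).toLinearMap := by
    refine (injective_iff_map_eq_zero _).2 fun x hx => ?_
    have e : x = x.1 • ((1, 0) : ℝ × ℝ) + x.2 • ((0, 1) : ℝ × ℝ) := by ext <;> simp
    have h2 : x.1 • du w p + x.2 • dv w p = 0 := by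
      rw [e, map_add, map_smul, map_smul] at hx
      exact hx
    have h3 : x.1 * (du w p).1 + x.2 * (dv w p).1 = 0 := congrArg Prod.fst h2
    have h4 : x.1 * (du w p).2 + x.2 * (dv w p).2 = 0 := congrArg Prod.snd h2
    have h5 := (h.det p hp).ne'
    refine Prod.ext (mul_right_cancel₀ h5 ?_) (mul_right_cancel₀ h5 ?_)
    · simp only [Prod.fst_zero, zero_mul]
      linear_combination (dv w p).2 * h3 - (dv w p).1 * h4
    · simp only [Prod.snd_zero, zero_mul]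
      linear_combination (du w p).1 * h4 - (du w p).2 * h3
  refine ⟨(LinearEquiv.ofInjectiveEndo _ h1).toContinuousLinearEquiv, ?_⟩
  exact hd.congr_fderiv (ContinuousLinearMap.ext fun _ => rfl)

theorem uia_cont : ContinuousOn w (strip 0 1) :=
  fun p hp => (h.sm p hp).continuousAt.continuousWithinAt

theorem uia_noext {p : ℝ × ℝ} (h0 : 0 < p.1) (h1 : p.1 < 1) {s : ℝ} (hs : s ≠ 0)
    (hm : ∀ q ∈ strip 0 1, s * (w q).1 ≤ s * (w p).1) : False := by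
  obtain ⟨u, v⟩ := p
  have hp : (u, v) ∈ strip 0 1 := ⟨h0.le, h1.le⟩
  have hd := sm_diff (h.sm _ hp)
  have a1 : s * (du w (u, v)).1 = 0 := by
    refine IsLocalMax.hasDerivAt_eq_zero ?_ ((uia_fst (hasDerivAt_line_u hd)).const_mul s)
    filter_upwards [Icc_mem_nhds h0 h1] with t ht
    exact hm (t, v) ht
  have a2 : s * (dv w (u, v)).1 = 0 := by
    refine IsLocalMax.hasDerivAt_eq_zero ?_ ((uia_fst (hasDerivAt_line_v hd)).const_mul s)
    exact Eventually.of_forall fun t => hm (u, t) hp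
  have := h.det _ hp
  rw [(mul_eq_zero.1 a1).resolve_left hs, (mul_eq_zero.1 a2).resolve_left hs] at this
  simp at this

theorem uia_dv {u c : ℝ} (hu : u ∈ Icc (0 : ℝ) 1) (hc : ∀ v, (w (u, v)).1 = c) (v : ℝ) :
    0 < (du w (u, v)).1 * (dv w (u, v)).2 := by
  have hp : (u, v) ∈ strip 0 1 := hu
  have a1 := uia_fst (hasDerivAt_line_v (sm_diff (h.sm _ hp)))
  simp only [hc] at a1
  have a2 := a1.unique (hasDerivAt_const v c)
  have := h.det _ hp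
  rwa [a2, mul_zero, sub_zero] at this

theorem uia_du0 (v : ℝ) : 0 < (du w (0, v)).1 :=
  (pos_iff_pos_of_mul_pos (h.uia_dv ⟨le_rfl, zero_le_one⟩ h.h0 v)).2 (h.hV v)

theorem uia_ext {s : ℝ} (hs : s ≠ 0) :
    (∀ q ∈ strip 0 1, s * (w q).1 ≤ 0) ∨ ∀ q ∈ strip 0 1, s * (w q).1 ≤ s * b := by
  obtain ⟨⟨u, v⟩, hp, hm⟩ := uia_max (F := fun q => s * (w q).1)
    (continuousOn_const.mul h.uia_cont.fst) fun p hp => by simp only [h.per p hp]
  rcases hp.1.eq_or_lt with e | e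
  · obtain rfl : 0 = u := e
    refine .inl fun q hq => ?_
    have := hm q hq
    rwa [h.h0, mul_zero] at this
  rcases hp.2.eq_or_lt with e' | e'
  · obtain rfl : u = 1 := e'
    refine .inr fun q hq => ?_
    have := hm q hq
    rwa [h.h1] at this
  exact (h.uia_noext e e' hs hm).elim

theorem uia_pos : ∃ q ∈ strip 0 1, 0 < (w q).1 := by
  have hp : ((0, 0) : ℝ × ℝ) ∈ strip 0 1 := ⟨le_rfl, zero_le_one⟩
  have a1 := uia_right (uia_fst (hasDerivAt_line_u (sm_diff (h.sm _ hp)))) (h.uia_du0 0)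
  obtain ⟨t, ht, ht'⟩ := (a1.and (Ioo_mem_nhdsGT one_pos)).exists
  rw [h.h0] at ht
  exact ⟨(t, 0), ⟨ht'.1.le, ht'.2.le⟩, ht⟩

theorem uia_le {q : ℝ × ℝ} (hq : q ∈ strip 0 1) : (w q).1 ≤ b := by
  rcases h.uia_ext one_ne_zero with a | a
  · obtain ⟨p, hp, hp'⟩ := h.uia_pos
    have := a p hp
    linarith
  · have := a q hq
    linarith

theorem hb : 0 < b := by
  obtain ⟨p, hp, hp'⟩ := h.uia_pos
  exact hp'.trans_le (h.uia_le hp)

theorem uia_ge {q : ℝ × ℝ} (hq : q ∈ strip 0 1) : 0 ≤ (w q).1 := by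
  rcases h.uia_ext (s := -1) (by norm_num) with a | a
  · have := a q hq
    linarith
  · have := a q hq
    have := h.hb
    linarith

theorem interior {p : ℝ × ℝ} (h0 : 0 < p.1) (h1 : p.1 < 1) : 0 < (w p).1 ∧ (w p).1 < b := by
  have hp : p ∈ strip 0 1 := ⟨h0.le, h1.le⟩
  refine ⟨(h.uia_ge hp).lt_of_ne fun e => ?_, (h.uia_le hp).lt_of_ne fun e => ?_⟩
  · refine h.uia_noext h0 h1 (s := -1) (by norm_num) fun q hq => ?_
    have := h.uia_ge hq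
    linarith
  · refine h.uia_noext h0 h1 one_ne_zero fun q hq => ?_
    have := h.uia_le hq
    linarith

theorem uia_du1 (v : ℝ) : 0 < (du w (1, v)).1 := by
  have hp : ((1, v) : ℝ × ℝ) ∈ strip 0 1 := ⟨zero_le_one, le_rfl⟩
  have a0 := h.uia_dv ⟨zero_le_one, le_rfl⟩ h.h1 v
  rcases lt_trichotomy 0 (du w (1, v)).1 with e | e | e
  · exact e
  · rw [← e, zero_mul] at a0
    exact absurd a0 (lt_irrefl _)
  · have a1 := uia_left (uia_fst (hasDerivAt_line_u (sm_diff (h.sm _ hp)))) e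
    obtain ⟨t, ht, ht'⟩ := (a1.and (Ioo_mem_nhdsLT one_pos)).exists
    rw [h.h1] at ht
    exact absurd (h.uia_le (q := (t, v)) ⟨ht'.1.le, ht'.2.le⟩) (not_le.2 ht)

/-- properness -/
theorem bound : ∃ C : ℝ, ∀ p ∈ strip 0 1, |(w p).2 - τ * p.2| ≤ C := by
  obtain ⟨p, -, hm⟩ := uia_max (F := fun q => |(w q).2 - τ * q.2|)
    (h.uia_cont.snd.sub (continuous_const.mul continuous_snd).continuousOn).abs fun p hp => by
      simp only [h.per p hp]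
      congr 1
      ring
  exact ⟨_, hm⟩

theorem uia_sign {p : ℝ × ℝ} (hp : p ∈ strip 0 1) :
    ∀ᶠ q in 𝓝 p, w q ∈ strip 0 b → q ∈ strip 0 1 := by
  obtain ⟨u, v⟩ := p
  rcases hp.1.eq_or_lt with e | e
  · obtain rfl : 0 = u := e
    obtain ⟨r, r0, r1, hr⟩ := uia_mono (h.sm _ hp) (h.uia_du0 v)
    filter_upwards [Metric.ball_mem_nhds _ r0] with q hq hw
    rw [Metric.mem_ball, Prod.dist_eq, max_lt_iff, Real.dist_eq, abs_lt] at hq
    refine ⟨not_lt.1 fun hlt => ?_, by linarith [hq.1.2]⟩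
    have := hr q.2 hq.2 (a := q.1) (b := 0) ⟨by linarith [hq.1.1], by linarith [hq.1.2]⟩
      ⟨by linarith, by linarith⟩ hlt
    simp only [h.h0] at this
    exact absurd hw.1 (not_le.2 this)
  rcases hp.2.eq_or_lt with e' | e'
  · obtain rfl : u = 1 := e'
    obtain ⟨r, r0, r1, hr⟩ := uia_mono (h.sm _ hp) (h.uia_du1 v)
    filter_upwards [Metric.ball_mem_nhds _ r0] with q hq hw
    rw [Metric.mem_ball, Prod.dist_eq, max_lt_iff, Real.dist_eq, abs_lt] at hq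
    refine ⟨by linarith [hq.1.1], not_lt.1 fun hlt => ?_⟩
    have := hr q.2 hq.2 (a := 1) (b := q.1) ⟨by linarith, by linarith⟩
      ⟨by linarith [hq.1.1], by linarith [hq.1.2]⟩ hlt
    simp only [h.h1] at this
    exact absurd hw.2 (not_le.2 this)
  filter_upwards [continuous_fst.continuousAt.eventually (Icc_mem_nhds e e')] with q hq _
  exact hq

theorem uia_strict {p : ℝ × ℝ} (hp : p ∈ strip 0 1) :
    ∃ e : (ℝ × ℝ) ≃L[ℝ] (ℝ × ℝ), HasStrictFDerivAt w (e : (ℝ × ℝ) →L[ℝ] (ℝ × ℝ)) p := by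
  obtain ⟨e, he⟩ := h.equiv hp
  exact ⟨e, (h.sm p hp).hasStrictFDerivAt' he (by simp)⟩

theorem uia_open {p : ℝ × ℝ} (hp : p ∈ strip 0 1) {N : Set (ℝ × ℝ)} (hN : N ∈ 𝓝 p) :
    w '' (N ∩ strip 0 1) ∈ 𝓝[strip 0 b] (w p) := by
  obtain ⟨e, he⟩ := h.uia_strict hp
  have h1 : w '' (N ∩ {q | w q ∈ strip 0 b → q ∈ strip 0 1}) ∈ 𝓝 (w p) := by
    rw [← he.map_nhds_eq_of_equiv]
    exact image_mem_map (inter_mem hN (h.uia_sign hp))
  filter_upwards [mem_nhdsWithin_of_mem_nhds h1, self_mem_nhdsWithin] with z hz hz'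
  obtain ⟨q, hq, rfl⟩ := hz
  exact ⟨q, ⟨hq.1, hq.2 hz'⟩, rfl⟩

theorem uia_inj {p : ℝ × ℝ} (hp : p ∈ strip 0 1) : ∃ N, IsOpen N ∧ InjOn w N ∧ p ∈ N := by
  obtain ⟨e, he⟩ := h.uia_strict hp
  exact ⟨_, (he.toOpenPartialHomeomorph w).open_source, (he.toOpenPartialHomeomorph w).injOn,
    he.mem_toOpenPartialHomeomorph_source⟩

theorem uia_proper (z : ℝ × ℝ) : ∃ K, IsCompact K ∧ K ⊆ strip 0 1 ∧
    ∀ q ∈ strip 0 1, dist (w q) z < 1 → q ∈ K := by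
  obtain ⟨C, hC⟩ := h.bound
  refine ⟨Icc 0 1 ×ˢ Icc ((z.2 - 1 - C) / τ) ((z.2 + 1 + C) / τ),
    isCompact_Icc.prod isCompact_Icc, fun q hq => hq.1, fun q hq hd => ⟨hq, ?_⟩⟩
  rw [Prod.dist_eq, max_lt_iff, Real.dist_eq (w q).2, abs_lt] at hd
  have := abs_le.1 (hC q hq)
  refine ⟨(div_le_iff₀ h.hτ).2 ?_, (le_div_iff₀ h.hτ).2 ?_⟩ <;> linarith [hd.2.1, hd.2.2]

theorem bijOn : BijOn w (strip 0 1) (strip 0 b) := by
  have hS : IsPreconnected (strip 0 b) := by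
    rw [strip_eq]
    exact ((convex_Icc 0 b).prod convex_univ).isPreconnected
  have hm : MapsTo w (strip 0 1) (strip 0 b) := fun q hq => ⟨h.uia_ge hq, h.uia_le hq⟩
  have h0 : ((0, 0) : ℝ × ℝ) ∈ strip 0 1 := ⟨le_rfl, zero_le_one⟩
  refine ⟨hm, fun p hp p' hp' e => by_contra fun hne => ?_, ?_⟩
  · have h1 : strip 0 b ⊆ {z | ∃ q ∈ strip 0 1, ∃ q' ∈ strip 0 1, q ≠ q' ∧ w q = z ∧ w q' = z} := by
      refine uia_clopen hS (uia_closed fun z => ?_) ?_ (hm hp) ⟨p, hp, p', hp', hne, rfl, e.symm⟩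
      · obtain ⟨K, k1, k2, k3⟩ := h.uia_proper z
        have hU : IsOpen {x : (ℝ × ℝ) × (ℝ × ℝ) |
            ∃ N, IsOpen N ∧ InjOn w N ∧ x.1 ∈ N ∧ x.2 ∈ N} := by
          refine isOpen_iff_mem_nhds.2 fun x ⟨N, n1, n2, n3, n4⟩ => ?_
          filter_upwards [(n1.prod n1).mem_nhds (show x ∈ N ×ˢ N from ⟨n3, n4⟩)] with y hy
          exact ⟨N, n1, n2, hy.1, hy.2⟩
        have c1 : ContinuousOn (fun x : (ℝ × ℝ) × (ℝ × ℝ) => w x.1) (K ×ˢ K) :=
          h.uia_cont.comp continuousOn_fst fun x hx => k2 hx.1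
        have c2 : ContinuousOn (fun x : (ℝ × ℝ) × (ℝ × ℝ) => w x.2) (K ×ˢ K) :=
          h.uia_cont.comp continuousOn_snd fun x hx => k2 hx.2
        have hA := ((k1.prod k1).of_isClosed_subset
          ((k1.prod k1).isClosed.isClosed_eq c1 c2) fun x hx => hx.1).diff hU
        refine ⟨_, (hA.image_of_continuousOn (c1.mono fun x hx => hx.1.1)).isClosed, ?_, ?_⟩
        · rintro _ ⟨x, ⟨⟨x1, x2⟩, x3⟩, rfl⟩
          refine ⟨x.1, k2 x1.1, x.2, k2 x1.2, fun e => x3 ?_, rfl, x2.symm⟩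
          obtain ⟨N, n1, n2, n3⟩ := h.uia_inj (k2 x1.1)
          exact ⟨N, n1, n2, n3, e ▸ n3⟩
        · rintro x ⟨q, hq, q', hq', q1, q2, q3⟩ hd
          refine ⟨(q, q'), ⟨⟨⟨k3 q hq (q2 ▸ hd), k3 q' hq' (q3 ▸ hd)⟩, q2.trans q3.symm⟩, ?_⟩, q2⟩
          rintro ⟨N, -, n2, n3, n4⟩
          exact q1 (n2 n3 n4 (q2.trans q3.symm))
      · rintro z ⟨q, hq, q', hq', q1, q2, q3⟩
        obtain ⟨N, N', n1, n2, n3, n4, n5⟩ := t2_separation q1
        have a1 := h.uia_open hq (n1.mem_nhds n3)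
        have a2 := h.uia_open hq' (n2.mem_nhds n4)
        rw [q2] at a1
        rw [q3] at a2
        filter_upwards [a1, a2] with x ⟨y, hy, y1⟩ ⟨y', hy', y2⟩
        exact ⟨y, hy.2, y', hy'.2, fun e => disjoint_left.1 n5 hy.1 (e ▸ hy'.1), y1, y2⟩
    obtain ⟨q, hq, q', hq', q1, q2, q3⟩ := h1 (hm h0)
    have a0 : ∀ q ∈ strip 0 1, w q = w (0, 0) → q.1 = 0 := by
      intro q hq e
      have a1 : (w q).1 = 0 := by rw [e, h.h0]
      by_contra a2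
      rcases hq.2.eq_or_lt with a3 | a3
      · have a4 := h.h1 q.2
        rw [← a3] at a4
        exact h.hb.ne' (a4.symm.trans a1)
      · exact (h.interior (hq.1.lt_of_ne' a2) a3).1.ne' a1
    have a5 : StrictMono fun v => (w (0, v)).2 :=
      strictMono_of_hasDerivAt_pos (fun v => uia_snd (hasDerivAt_line_v
        (sm_diff (h.sm (0, v) ⟨le_rfl, zero_le_one⟩)))) h.hV
    refine q1 (Prod.ext ((a0 q hq q2).trans (a0 q' hq' q3).symm) (a5.injective ?_))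
    have a6 : (w (q.1, q.2)).2 = (w (q'.1, q'.2)).2 := congrArg Prod.snd (q2.trans q3.symm)
    rwa [a0 q hq q2, a0 q' hq' q3] at a6
  · refine uia_clopen hS (uia_closed fun z => ?_) ?_ (hm h0) ⟨_, h0, rfl⟩
    · obtain ⟨K, k1, k2, k3⟩ := h.uia_proper z
      refine ⟨_, (k1.image_of_continuousOn (h.uia_cont.mono k2)).isClosed, image_mono k2, ?_⟩
      rintro _ ⟨q, hq, rfl⟩ hd
      exact ⟨q, k3 q hq hd, rfl⟩
    · rintro _ ⟨q, hq, rfl⟩
      have := h.uia_open hq univ_mem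
      rwa [univ_inter] at this

end UCoord

end Pool.Agent.Lib.MP_c7e804_gt
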