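import Pool.Agent.Lib.MP_c7e804_gt.H43Int1

/-!
Primitives of closed forms on the strip, smooth at every point of the closed strip.
-/

namespace Pool.Agent.Lib.MP_c7e804_gt

open Set Filter Topology
open scoped ContDiff Manifold

/-- the primitive in the first variable -/
noncomputable def upr_P (a : ℝ × ℝ → ℂ) (p : ℝ × ℝ) : ℂ := ∫ t in (0 : ℝ)..p.1, a (t, p.2)

theorem upr_cont {a : ℝ × ℝ → ℂ} (h : Continuous a) : Continuous (upr_P a) :=
  (intervalIntegral.continuous_parametric_primitive_of_continuous (μ := MeasureTheory.volume)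
    (f := fun v t => a (t, v)) (a₀ := 0) (h.comp continuous_swap)).comp continuous_swap

theorem upr_fd {n : WithTop ℕ∞} {a : ℝ × ℝ → ℂ} (h : ContDiff ℝ (n + 1) a) (w : ℝ × ℝ) :
    ContDiff ℝ n fun q => fderiv ℝ a q w :=
  (h.fderiv_right le_rfl).clm_apply contDiff_const

/-- the linear map with prescribed values on the two basis vectors -/
noncomputable def upr_L (x y : ℂ) : ℝ × ℝ →L[ℝ] ℂ :=
  (ContinuousLinearMap.fst ℝ ℝ ℝ).smulRight x + (ContinuousLinearMap.snd ℝ ℝ ℝ).smulRight y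

theorem upr_hasFDerivAt {a : ℝ × ℝ → ℂ} (h : ContDiff ℝ 1 a) (p : ℝ × ℝ) :
    HasFDerivAt (upr_P a) (upr_L (a p) (upr_P (dv a) p)) p := by
  have h0 : ContDiff ℝ (0 + 1) a := by simpa using h
  have hd : Differentiable ℝ a := h.differentiable one_ne_zero
  have hu : Continuous (du a) := (upr_fd h0 _).continuous
  have hv : Continuous (dv a) := (upr_fd h0 _).continuous
  have h1 : ∀ q : ℝ × ℝ, HasDerivAt (fun u => upr_P a (u, q.2)) (a q) q.1 := fun q =>
    ((h.continuous.comp (continuous_id.prodMk continuous_const)).integral_hasStrictDerivAt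
      0 q.1).hasDerivAt
  have h2 : ∀ q : ℝ × ℝ, HasDerivAt (fun v => upr_P a (q.1, v)) (upr_P (dv a) q) q.2 := fun q =>
    PD.deriv_int_u (a := min 0 q.1) (b := max 0 q.1) (f := a) (fu := du a) (fv := dv a)
      ⟨h.continuous.continuousOn, hu.continuousOn, hv.continuousOn,
        fun r _ => (hasDerivAt_line_u (hd _)).hasDerivWithinAt, fun r _ => hasDerivAt_line_v (hd _)⟩
      ⟨min_le_left _ _, le_max_left _ _⟩ ⟨min_le_right _ _, le_max_right _ _⟩ q.2
  have h3 := hasStrictFDerivAt_uncurry_coprod (𝕜 := ℝ) (u := p) (f := fun u v => upr_P a (u, v))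
    (f₁ := fun u v => ContinuousLinearMap.toSpanSingleton ℝ (a (u, v)))
    (f₂ := fun u v => ContinuousLinearMap.toSpanSingleton ℝ (upr_P (dv a) (u, v)))
    (Eventually.of_forall fun q => (h1 q).hasFDerivAt)
    (Eventually.of_forall fun q => (h2 q).hasFDerivAt)
    (((ContinuousLinearMap.smulRightL ℝ ℝ ℂ 1).continuous.comp h.continuous).continuousAt)
    (((ContinuousLinearMap.smulRightL ℝ ℝ ℂ 1).continuous.comp (upr_cont hv)).continuousAt)
  refine h3.hasFDerivAt.congr_fderiv ?_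
  ext <;> simp [upr_L, Function.HasUncurry.uncurry]

theorem upr_contDiff (n : ℕ) : ∀ {a : ℝ × ℝ → ℂ}, ContDiff ℝ n a → ContDiff ℝ n (upr_P a) := by
  induction n with
  | zero =>
    intro a h
    exact contDiff_zero.2 (upr_cont h.continuous)
  | succ n ih =>
    intro a h
    rw [Nat.cast_succ] at h ⊢
    refine contDiff_succ_iff_hasFDerivAt.2 ⟨fun p => upr_L (a p) (upr_P (dv a) p), ?_,
      upr_hasFDerivAt (h.of_le le_add_self)⟩
    exact (contDiff_const.smulRight (h.of_le le_self_add)).add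
      (contDiff_const.smulRight (ih (upr_fd h _)))

theorem upr_cutoff {a : ℝ × ℝ → ℂ} (ha : ∀ p ∈ strip 0 1, ContDiffAt ℝ ∞ a p) (n : ℕ)
    {p : ℝ × ℝ} (hp : p ∈ strip 0 1) : ∃ b : ℝ × ℝ → ℂ, ContDiff ℝ n b ∧
      ∀ᶠ q in 𝓝 p, ∀ t ∈ uIcc 0 q.1, b =ᶠ[𝓝 (t, q.2)] a := by
  have hK : IsCompact (Icc (0 : ℝ) 1 ×ˢ ({p.2} : Set ℝ)) := isCompact_Icc.prod isCompact_singleton
  have hO : IsOpen {q | ContDiffAt ℝ n a q} :=
    isOpen_iff_mem_nhds.2 fun q hq => ContDiffAt.eventually hq (by simp)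
  obtain ⟨T, h1, h2, h3⟩ := exists_compact_between hK hO
    fun q hq => contDiffAt_infty.1 (ha q hq.1) n
  obtain ⟨χ, h4, h5, -⟩ := exists_contMDiffMap_one_nhds_of_subset_interior (n := n)
    𝓘(ℝ, ℝ × ℝ) hK.isClosed h2
  have h6 : ContDiff ℝ n χ := contMDiff_iff_contDiff.1 χ.contMDiff
  refine ⟨fun q => χ q • a q, contDiff_iff_contDiffAt.2 fun q => ?_, ?_⟩
  · by_cases hq : q ∈ T
    · exact h6.contDiffAt.smul (h3 hq)
    · refine (contDiffAt_const (c := 0)).congr_of_eventuallyEq ?_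
      filter_upwards [h1.isClosed.isOpen_compl.mem_nhds hq] with r hr
      rw [h5 r hr, zero_smul]
  · have h7 := (isCompact_Icc (a := (0 : ℝ)) (b := 1)).eventually_forall_of_forall_eventually
      (x₀ := p) (P := fun q s => ∀ᶠ r in 𝓝 ((s * q.1, q.2) : ℝ × ℝ), χ r = 1) fun s hs => by
        have h8 : ∀ᶠ r in 𝓝 ((s * p.1, p.2) : ℝ × ℝ), χ r = 1 :=
          h4.filter_mono (nhds_le_nhdsSet (mk_mem_prod (mem_Icc.2
            ⟨mul_nonneg hs.1 hp.1, mul_le_one₀ hs.2 hp.1 hp.2⟩) (mem_singleton _)))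
        have h9 : Continuous fun z : (ℝ × ℝ) × ℝ => ((z.2 * z.1.1, z.1.2) : ℝ × ℝ) := by fun_prop
        exact (h9.tendsto (p, s)).eventually h8.eventually_nhds
    filter_upwards [h7] with q hq t ht
    rw [← segment_eq_uIcc] at ht
    obtain ⟨x, s, hx, hs, hxs, rfl⟩ := ht
    have h8 := hq s ⟨hs, by linarith⟩
    rw [smul_zero, zero_add, smul_eq_mul]
    filter_upwards [h8] with r hr
    rw [hr, one_smul]

theorem upr_local {a : ℝ × ℝ → ℂ} (ha : ∀ p ∈ strip 0 1, ContDiffAt ℝ ∞ a p)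
    {p : ℝ × ℝ} (hp : p ∈ strip 0 1) : ContDiffAt ℝ ∞ (upr_P a) p ∧
      HasFDerivAt (upr_P a) (upr_L (a p) (upr_P (dv a) p)) p := by
  have e : ∀ {b : ℝ × ℝ → ℂ}, (∀ᶠ q in 𝓝 p, ∀ t ∈ uIcc 0 q.1, b =ᶠ[𝓝 (t, q.2)] a) →
      upr_P a =ᶠ[𝓝 p] upr_P b := fun h => by
    filter_upwards [h] with q hq
    exact intervalIntegral.integral_congr fun t ht => (hq t ht).self_of_nhds.symm
  refine ⟨contDiffAt_infty.2 fun n => ?_, ?_⟩
  · obtain ⟨b, h1, h2⟩ := upr_cutoff ha n hp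
    exact (upr_contDiff n h1).contDiffAt.congr_of_eventuallyEq (e h2)
  · obtain ⟨b, h1, h2⟩ := upr_cutoff ha 1 hp
    have h3 := h2.self_of_nhds
    have h4 : b p = a p := (h3 p.1 right_mem_uIcc).self_of_nhds
    have h5 : upr_P (dv b) p = upr_P (dv a) p :=
      intervalIntegral.integral_congr fun t ht => by
        simp only [dv, (h3 t ht).fderiv_eq]
    rw [← h4, ← h5]
    exact (upr_hasFDerivAt (by exact_mod_cast h1) p).congr_of_eventuallyEq (e h2)

theorem exists_primitive {a c : ℝ × ℝ → ℂ}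
    (ha : ∀ p ∈ strip 0 1, ContDiffAt ℝ ∞ a p) (hc : ∀ p ∈ strip 0 1, ContDiffAt ℝ ∞ c p)
    (pa : Per 0 1 1 a) (pc : Per 0 1 1 c) (hcl : ∀ p ∈ strip 0 1, dv a p = du c p) :
    ∃ w : ℝ × ℝ → ℂ,
      (∀ p ∈ strip 0 1, ContDiffAt ℝ ∞ w p ∧ du w p = a p ∧ dv w p = c p) ∧ w (0, 0) = 0 ∧
      ∀ p ∈ strip 0 1, w (p.1, p.2 + 1) = w p + ∫ s in (0 : ℝ)..1, c (0, s) := by
  have m0 : ∀ v : ℝ, ((0, v) : ℝ × ℝ) ∈ strip 0 1 := fun v => ⟨le_rfl, zero_le_one⟩
  have h0 : ContDiff ℝ ∞ fun v : ℝ => c (0, v) := contDiff_iff_contDiffAt.2 fun v =>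
    (hc _ (m0 v)).comp v (contDiffAt_const.prodMk contDiffAt_id)
  have h1 : ∀ v, HasDerivAt (fun v => ∫ s in (0 : ℝ)..v, c (0, s)) (c (0, v)) v := fun v =>
    (h0.continuous.integral_hasStrictDerivAt 0 v).hasDerivAt
  have h2 : ContDiff ℝ ∞ fun v => ∫ s in (0 : ℝ)..v, c (0, s) :=
    contDiff_infty_iff_deriv.2 ⟨fun v => (h1 v).differentiableAt, by
      rw [funext fun v => (h1 v).deriv]; exact h0⟩
  refine ⟨fun p => (∫ s in (0 : ℝ)..p.2, c (0, s)) + upr_P a p, fun p hp => ?_, by simp [upr_P],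
    fun p hp => ?_⟩
  · obtain ⟨h3, h4⟩ := upr_local ha hp
    have h5 : HasFDerivAt (fun p : ℝ × ℝ => (∫ s in (0 : ℝ)..p.2, c (0, s)) + upr_P a p) _ p :=
      ((h1 p.2).hasFDerivAt.comp p (hasFDerivAt_snd (𝕜 := ℝ))).add h4
    have h6 : upr_P (dv a) p = c p - c (0, p.2) := by
      rw [← (PD.of_sm hc).int_u (left_mem_Icc.2 zero_le_one) hp p.2]
      exact intervalIntegral.integral_congr fun t ht =>
        hcl _ (uIcc_subset_Icc (left_mem_Icc.2 zero_le_one) hp ht)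
    refine ⟨(h2.comp contDiff_snd).contDiffAt.add h3, ?_, ?_⟩
    · rw [du, h5.fderiv]
      simp [upr_L]
    · rw [dv, h5.fderiv]
      simp [upr_L, h6]
  · have h3 : Function.Periodic (fun v : ℝ => c (0, v)) 1 := fun v => pc _ (m0 v)
    have h4 := h3.intervalIntegral_add_eq p.2 0
    have h5 := intervalIntegral.integral_add_adjacent_intervals (μ := MeasureTheory.volume)
      (h0.continuous.intervalIntegrable 0 p.2) (h0.continuous.intervalIntegrable p.2 (p.2 + 1))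
    have h6 : upr_P a (p.1, p.2 + 1) = upr_P a p :=
      intervalIntegral.integral_congr fun t ht =>
        pa (t, p.2) (uIcc_subset_Icc (left_mem_Icc.2 zero_le_one) hp ht)
    rw [zero_add] at h4
    simp only [h6, ← h5, h4]
    ring

end Pool.Agent.Lib.MP_c7e804_gt
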