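import Pool.Agent.Lib.MP_c7e804_gt.H43UFrB
import Pool.Agent.Lib.MP_c7e804_gt.H43UPrim
import Pool.Agent.Lib.MP_c7e804_gt.H43UInvA

/-!
The flat coordinate `w` with `dw = E ω`, `E ^ 2 = q / q (0, 0)`.
-/

namespace Pool.Agent.Lib.MP_c7e804_gt

open Matrix Set Filter Topology Complex
open scoped ContDiff

section
variable {w p : ℝ × ℝ}

theorem HasD.cmul {f g : ℝ × ℝ → ℂ} {f' g' : ℂ} (hf : HasD w f f' p) (hg : HasD w g g' p) :
    HasD w (fun q => f q * g q) (f' * g p + f p * g') p := by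
  refine ⟨hf.1.mul hg.1, ?_⟩
  rw [fderiv_fun_mul hf.1 hg.1, ← hf.2, ← hg.2]; simp; ring

theorem HasD.ccomp {f : ℝ × ℝ → ℂ} {f' : ℂ} (hf : HasD w f f' p) {G : ℂ → ℂ} {G' : ℂ}
    (hG : HasDerivAt G G' (f p)) : HasD w (fun q => G (f q)) (G' * f') p := by
  have h1 : HasFDerivAt (fun q => G (f q)) _ p :=
    (hG.hasFDerivAt.restrictScalars ℝ).comp p hf.1.hasFDerivAt
  refine ⟨h1.differentiableAt, ?_⟩
  rw [h1.fderiv, ← hf.2]; simp; ring

theorem HasD.clm {F G : Type} [NormedAddCommGroup F] [NormedSpace ℝ F] [NormedAddCommGroup G]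
    [NormedSpace ℝ G] {f : ℝ × ℝ → F} {f' : F} (hf : HasD w f f' p) (L : F →L[ℝ] G) :
    HasD w (fun q => L (f q)) (L f') p := by
  have h1 : HasFDerivAt (fun q => L (f q)) _ p := L.hasFDerivAt.comp p hf.1.hasFDerivAt
  refine ⟨h1.differentiableAt, ?_⟩
  rw [h1.fderiv, ← hf.2]; simp

theorem sm_cx {r s : ℝ × ℝ → ℝ} (hr : ContDiffAt ℝ ∞ r p) (hs : ContDiffAt ℝ ∞ s p) :
    ContDiffAt ℝ ∞ (cx r s) p :=
  (ofRealCLM.contDiff.contDiffAt.comp p hr).add
    ((ofRealCLM.contDiff.contDiffAt.comp p hs).mul contDiffAt_const)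

theorem cx_re (r s : ℝ × ℝ → ℝ) (p : ℝ × ℝ) : (cx r s p).re = r p := by simp [cx]

theorem cx_im (r s : ℝ × ℝ → ℝ) (p : ℝ × ℝ) : (cx r s p).im = s p := by simp [cx]

theorem per_cx {r s : ℝ × ℝ → ℝ} (hr : Per 0 1 1 r) (hs : Per 0 1 1 s) : Per 0 1 1 (cx r s) :=
  fun p hp => by simp only [cx]; rw [hr p hp, hs p hp]

end

theorem uco_m0 (v : ℝ) : ((0, v) : ℝ × ℝ) ∈ strip 0 1 := ⟨le_rfl, zero_le_one⟩

theorem uco_m1 (v : ℝ) : ((1, v) : ℝ × ℝ) ∈ strip 0 1 := ⟨zero_le_one, le_rfl⟩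

/-- a real function of `v` with vanishing derivative along a line of the strip is constant -/
theorem uco_line {f : ℝ × ℝ → ℂ} (hf : ∀ p ∈ strip 0 1, ContDiffAt ℝ ∞ f p) (L : ℂ →L[ℝ] ℝ)
    {u : ℝ} (hu : u ∈ Icc (0 : ℝ) 1) (h0 : ∀ v, L (dv f (u, v)) = 0) (v v' : ℝ) :
    L (f (u, v)) = L (f (u, v')) :=
  ((PD.of_sm hf).clm L).line_const hu h0 v v'

/-- smooth periodic square root of `q / q (0, 0)` -/
theorem uco_root {q : ℝ × ℝ → ℂ} (hq : ∀ p ∈ strip 0 1, ContDiffAt ℝ ∞ q p) (pq : Per 0 1 1 q)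
    (hn : ∀ p ∈ strip 0 1, q p ≠ 0) (h0 : ∀ v, (q (0, v)).im = 0) :
    ∃ E : ℝ × ℝ → ℂ, (∀ p ∈ strip 0 1, ContDiffAt ℝ ∞ E p ∧ E p ≠ 0 ∧
      du E p = E p * du q p / (2 * q p) ∧ dv E p = E p * dv q p / (2 * q p) ∧
      q p = q (0, 0) * E p ^ 2) ∧ Per 0 1 1 E ∧ ∀ v, (E (0, v)).im = 0 ∧ 0 < (E (0, v)).re := by
  have hi : ∀ p ∈ strip 0 1, ContDiffAt ℝ ∞ (fun r => (q r)⁻¹) p := fun p hp =>
    (hq p hp).inv (hn p hp)
  have pu : Per 0 1 1 (du q) := Per.du one_pos (fun p hp => sm_diff (hq p hp)) pq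
  have pv : Per 0 1 1 (dv q) := Per.dv one_pos (fun p hp => sm_diff (hq p hp)) pq
  obtain ⟨L, hL, hL0, hLp⟩ := exists_primitive (a := fun p => du q p * (q p)⁻¹)
    (c := fun p => dv q p * (q p)⁻¹) (fun p hp => (sm_du (hq p hp)).mul (hi p hp))
    (fun p hp => (sm_dv (hq p hp)).mul (hi p hp))
    (fun p hp => by simp only; rw [pu p hp, pq p hp])
    (fun p hp => by simp only; rw [pv p hp, pq p hp]) (fun p hp => by
      have a1 := ((hasD_dv (sm_diff (sm_du (hq p hp)))).cmul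
        ((hasD_dv (sm_diff (hq p hp))).ccomp (hasDerivAt_inv (hn p hp)))).dv_eq
      have a2 := ((hasD_du (sm_diff (sm_dv (hq p hp)))).cmul
        ((hasD_du (sm_diff (hq p hp))).ccomp (hasDerivAt_inv (hn p hp)))).du_eq
      rw [a1, a2, du_dv_comm (hq p hp)]; ring)
  have hLs : ∀ p ∈ strip 0 1, ContDiffAt ℝ ∞ L p := fun p hp => (hL p hp).1
  have hG : ∀ p ∈ strip 0 1, ContDiffAt ℝ ∞ (fun r => q r * cexp (-L r)) p := fun p hp =>
    (hq p hp).mul (hLs p hp).neg.cexp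
  have hconst : ∀ p ∈ strip 0 1, q p * cexp (-L p) = q (0, 0) := by
    intro p hp
    have := (PD.of_sm hG).eq_of_zero (fun r hr => by
        have a := ((hasD_du (sm_diff (hq r hr))).cmul
          ((hasD_du (sm_diff (hLs r hr))).neg.ccomp (Complex.hasDerivAt_exp _))).du_eq
        rw [a, (hL r hr).2.1]
        have := hn r hr
        field_simp; ring) (fun r hr => by
        have a := ((hasD_dv (sm_diff (hq r hr))).cmul
          ((hasD_dv (sm_diff (hLs r hr))).neg.ccomp (Complex.hasDerivAt_exp _))).dv_eq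
        rw [a, (hL r hr).2.2]
        have := hn r hr
        field_simp; ring) p hp (0, 0) (uco_m0 0)
    simpa [hL0] using this
  have hqv : ∀ v, (dv q (0, v)).im = 0 := fun v => by
    have a := (hasD_dv (sm_diff (hq _ (uco_m0 v)))).clm imCLM
    exact a.eq_of_line (HasD.const 0) h0
  have hLim : ∀ v, (L (0, v)).im = 0 := fun v => by
    have := uco_line hLs imCLM (u := 0) ⟨le_rfl, zero_le_one⟩ (fun t => by
      rw [(hL _ (uco_m0 t)).2.2]
      simp [Complex.mul_im, hqv t, h0 t]) v 0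
    simpa [hL0] using this
  have hP : ∫ s in (0 : ℝ)..1, dv q (0, s) * (q (0, s))⁻¹ = 0 := by
    have e1 := hLp (0, 0) (uco_m0 0)
    simp only [zero_add, hL0] at e1
    have e2 := hconst (0, 1) (uco_m0 1)
    have e3 := pq (0, 0) (uco_m0 0)
    simp only [zero_add] at e3
    rw [e3] at e2
    have e4 : cexp (-L (0, 1)) = 1 := mul_left_cancel₀ (hn _ (uco_m0 0)) (by rw [e2, mul_one])
    have e5 := congrArg (fun z => ‖z‖) e4
    simp only [Complex.norm_exp, norm_one, Real.exp_eq_one_iff, neg_re, neg_eq_zero] at e5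
    rw [← e1]
    exact Complex.ext e5 (hLim 1)
  refine ⟨fun p => cexp (L p / 2), fun p hp => ⟨((hLs p hp).div_const 2).cexp, exp_ne_zero _,
    ?_, ?_, ?_⟩, fun p hp => by simp only; rw [hLp p hp, hP, add_zero], fun v => ?_⟩
  · have a := (((hasD_du (sm_diff (hLs p hp))).ccomp ((hasDerivAt_id _).div_const 2)).ccomp
      (Complex.hasDerivAt_exp _)).du_eq
    simp only [id] at a
    rw [a, (hL p hp).2.1]
    have := hn p hp
    field_simp
  · have a := (((hasD_dv (sm_diff (hLs p hp))).ccomp ((hasDerivAt_id _).div_const 2)).ccomp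
      (Complex.hasDerivAt_exp _)).dv_eq
    simp only [id] at a
    rw [a, (hL p hp).2.2]
    have := hn p hp
    field_simp
  · rw [← hconst p hp, sq, ← Complex.exp_add, mul_assoc, ← Complex.exp_add]
    simp
  · have : (L (0, v) / 2).im = 0 := by simp [hLim v]
    simp only [Complex.exp_im, Complex.exp_re, this, Real.sin_zero, Real.cos_zero, mul_zero,
      mul_one, true_and]
    exact Real.exp_pos _

/-- the flat coordinate -/
theorem UFrame.coord {X N f1 f2 : ℝ × ℝ → V3} {A B g x y : ℝ × ℝ → ℝ}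
    (h : UFrame X N f1 f2 A B g x y) (hn : ∀ p ∈ strip 0 1, cx x y p ≠ 0) :
    ∃ (W E : ℝ × ℝ → ℂ) (b τ : ℝ), UCoord (fun p => ((W p).re, (W p).im)) b τ ∧
      ∀ p ∈ strip 0 1, DifferentiableAt ℝ W p ∧ E p ≠ 0 ∧ du W p = E p * cx A B p ∧
        dv W p = E p * cx (fun _ => 0) g p := by
  have hq : ∀ p ∈ strip 0 1, ContDiffAt ℝ ∞ (cx x y) p := fun p hp =>
    sm_cx (h.sx p hp) (h.sy p hp)
  have su : ∀ p ∈ strip 0 1, ContDiffAt ℝ ∞ (cx A B) p := fun p hp =>
    sm_cx (h.sA p hp) (h.sB p hp)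
  have sv : ∀ p ∈ strip 0 1, ContDiffAt ℝ ∞ (cx (fun _ => 0) g) p := fun p hp =>
    sm_cx contDiffAt_const (h.sg p hp)
  obtain ⟨E, hE, pE, hE0⟩ := uco_root hq (per_cx h.px h.py) hn fun v => by rw [cx_im, h.y0]
  obtain ⟨T, -, hT⟩ := h.structure_eq
  obtain ⟨W, hW, hW0, hWp⟩ := exists_primitive (a := fun p => E p * cx A B p)
    (c := fun p => E p * cx (fun _ => 0) g p) (fun p hp => (hE p hp).1.mul (su p hp))
    (fun p hp => (hE p hp).1.mul (sv p hp))
    (fun p hp => by simp only; rw [pE p hp, per_cx h.pA h.pB p hp])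
    (fun p hp => by simp only; rw [pE p hp, per_cx (fun _ _ => rfl) h.pg p hp]) (fun p hp => by
      have a1 := ((hasD_dv (sm_diff (hE p hp).1)).cmul (hasD_dv (sm_diff (su p hp)))).dv_eq
      have a2 := ((hasD_du (sm_diff (hE p hp).1)).cmul (hasD_du (sm_diff (sv p hp)))).du_eq
      rw [a1, a2, (hE p hp).2.2.1, (hE p hp).2.2.2.1]
      obtain ⟨t1, t2⟩ := hT p hp
      have := hn p hp
      field_simp
      linear_combination E p * t2 + 2 * E p * cx x y p * t1)
  have hWs : ∀ p ∈ strip 0 1, ContDiffAt ℝ ∞ W p := fun p hp => (hW p hp).1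
  set P : ℂ := ∫ s in (0 : ℝ)..1, E (0, s) * cx (fun _ => 0) g (0, s) with hPdef
  have hv : ∀ p ∈ strip 0 1, (dv W p).re = -((E p).im * g p) ∧ (dv W p).im = (E p).re * g p :=
    fun p hp => by rw [(hW p hp).2.2]; simp [cx]
  have hu : ∀ p ∈ strip 0 1, (du W p).re = (E p).re * A p - (E p).im * B p ∧
      (du W p).im = (E p).re * B p + (E p).im * A p :=
    fun p hp => by rw [(hW p hp).2.1]; simp [cx]
  have hU0 : ∀ v, (W (0, v)).re = 0 := fun v => by
    have := uco_line hWs reCLM (u := 0) ⟨le_rfl, zero_le_one⟩ (fun t => by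
      simp [(hv _ (uco_m0 t)).1, (hE0 t).1]) v 0
    simpa [hW0] using this
  have hP1 : W (0, 1) = P := by simpa [hW0] using hWp (0, 0) (uco_m0 0)
  have hPre : P.re = 0 := hP1 ▸ hU0 1
  have hPim : 0 < P.im := by
    have hd : ∀ t, HasDerivAt (fun s => (W (0, s)).im) ((E (0, t)).re * g (0, t)) t := fun t => by
      have a := (hasD_dv (sm_diff (hWs _ (uco_m0 t)))).clm imCLM
      have := hasDerivAt_line_v a.1
      rw [a.dv_eq] at this
      simpa [(hv _ (uco_m0 t)).2] using this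
    have := strictMono_of_hasDerivAt_pos hd
      (fun t => mul_pos (hE0 t).2 (h.hg _ (uco_m0 t))) (zero_lt_one (α := ℝ))
    simpa [hW0, hP1] using this
  -- on the second boundary line `E` is real
  have hq0 : cx x y (0, 0) = (x (0, 0) : ℂ) := by simp [cx, h.y0]
  have hx0 : x (0, 0) ≠ 0 := fun e => hn _ (uco_m0 0) (by rw [hq0, e]; simp)
  have hprod : ∀ v, (E (1, v)).re * (E (1, v)).im = 0 := fun v => by
    have := congrArg Complex.im (hE _ (uco_m1 v)).2.2.2.2
    rw [cx_im, h.y1, hq0] at this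
    simp only [sq, Complex.mul_im, ofReal_re, ofReal_im, zero_mul, add_zero] at this
    have := (mul_eq_zero.1 this.symm).resolve_left hx0
    linarith
  have hEc : Continuous fun v => E (1, v) := continuous_iff_continuousAt.2 fun v =>
    (hE _ (uco_m1 v)).1.continuousAt.comp (f := fun t : ℝ => ((1, t) : ℝ × ℝ)) (by fun_prop)
  have hD : ∀ v, (E (1, v)).re ^ 2 - (E (1, v)).im ^ 2 ≠ 0 := fun v e => by
    apply (hE _ (uco_m1 v)).2.1
    have := hprod v
    apply Complex.ext <;> simp only [zero_re, zero_im] <;>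
      rcases mul_eq_zero.1 this with a | a <;> first | exact a | (rw [a] at e; nlinarith)
  have hreal : ∀ v, (E (1, v)).im = 0 := by
    by_contra hc
    push Not at hc
    obtain ⟨v₀, hv₀⟩ := hc
    have hneg : ∀ v, (E (1, v)).re ^ 2 - (E (1, v)).im ^ 2 < 0 := fun v => by
      by_contra hge
      have r0 : (E (1, v₀)).re = 0 := (mul_eq_zero.1 (hprod v₀)).resolve_right hv₀
      have n0 : (E (1, v₀)).re ^ 2 - (E (1, v₀)).im ^ 2 ≤ 0 := by rw [r0]; nlinarith
      obtain ⟨t, ht⟩ := intermediate_value_univ v₀ v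
        (f := fun v => (E (1, v)).re ^ 2 - (E (1, v)).im ^ 2)
        (((continuous_re.comp hEc).pow 2).sub ((continuous_im.comp hEc).pow 2))
        ⟨n0, not_lt.1 hge⟩
      exact hD t ht
    have hre : ∀ v, (E (1, v)).re = 0 := fun v => by
      rcases mul_eq_zero.1 (hprod v) with a | a
      · exact a
      · have := hneg v
        rw [a] at this; nlinarith
    have c1 := uco_line hWs imCLM (u := 1) ⟨zero_le_one, le_rfl⟩ (fun t => by
      simp [(hv _ (uco_m1 t)).2, hre t]) 1 0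
    have c2 := congrArg Complex.im (hWp (1, 0) (uco_m1 0))
    simp only [zero_add, add_im] at c2
    simp only [imCLM_apply] at c1
    linarith
  have dW : ∀ p ∈ strip 0 1, ∀ k : ℝ × ℝ, fderiv ℝ (fun p => ((W p).re, (W p).im)) p k =
      ((fderiv ℝ W p k).re, (fderiv ℝ W p k).im) := fun p hp k =>
    ((HasD.of_diff (w := k) (sm_diff (hWs p hp))).clm (reCLM.prod imCLM)).2
  refine ⟨W, E, (W (1, 0)).re, P.im, ⟨hPim, fun p hp => ?_, fun p hp => ?_, hU0, fun v => ?_,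
    fun v => ?_, fun p hp => ?_⟩, fun p hp =>
      ⟨sm_diff (hWs p hp), (hE p hp).2.1, (hW p hp).2.1, (hW p hp).2.2⟩⟩
  · exact (reCLM.prod imCLM).contDiff.contDiffAt.comp p (hWs p hp)
  · have a1 := dW p hp (1, 0)
    have a2 := dW p hp (0, 1)
    change du _ p = ((du W p).re, (du W p).im) at a1
    change dv _ p = ((dv W p).re, (dv W p).im) at a2
    rw [a1, a2]
    simp only [(hu p hp).1, (hu p hp).2, (hv p hp).1, (hv p hp).2]
    have h1 : 0 < (E p).re ^ 2 + (E p).im ^ 2 := by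
      have := Complex.normSq_pos.2 (hE p hp).2.1
      rw [Complex.normSq_apply] at this; nlinarith
    have h2 := mul_pos h1 (mul_pos (h.hA p hp) (h.hg p hp))
    nlinarith
  · exact uco_line hWs reCLM (u := 1) ⟨zero_le_one, le_rfl⟩ (fun t => by
      simp [(hv _ (uco_m1 t)).1, hreal t]) v 0
  · have a2 := dW _ (uco_m0 v) (0, 1)
    change dv _ _ = ((dv W (0, v)).re, (dv W (0, v)).im) at a2
    rw [a2]
    simp only [(hv _ (uco_m0 v)).2]
    exact mul_pos (hE0 v).2 (h.hg _ (uco_m0 v))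
  · simp only [hWp p hp, add_re, add_im, hPre, add_zero]

end Pool.Agent.Lib.MP_c7e804_gt
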