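import Pool.Agent.Lib.MP_c7e804_gt.H43UFrD

/-!
The annulus in the new coordinates is conformal and harmonic.
-/

namespace Pool.Agent.Lib.MP_c7e804_gt

open Matrix Set Filter Topology
open scoped ContDiff

theorem ucf_fderiv {F : Type} [NormedAddCommGroup F] [NormedSpace ℝ F] (f : ℝ × ℝ → F)
    (p k : ℝ × ℝ) : fderiv ℝ f p k = k.1 • du f p + k.2 • dv f p := by
  have e : k = k.1 • ((1, 0) : ℝ × ℝ) + k.2 • ((0, 1) : ℝ × ℝ) := by ext <;> simp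
  conv_lhs => rw [e]
  rw [map_add, map_smul, map_smul]; rfl

/-- a conformal immersion with trace-free shape operator is harmonic -/
theorem ucf_harmonic {ψ : ℝ × ℝ → V3} {b : ℝ} (hb : 0 < b)
    (sm : ∀ p ∈ strip 0 b, ContDiffAt ℝ ∞ ψ p)
    (fr : ∀ p ∈ strip 0 b, Fr (du ψ p) (dv ψ p) (normal ψ p) (confE ψ p))
    {p : ℝ × ℝ} (hp : p ∈ strip 0 b) (hN : DifferentiableAt ℝ (normal ψ) p)
    (tr : du ψ p ⬝ᵥ du (normal ψ) p + dv ψ p ⬝ᵥ dv (normal ψ) p = 0) :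
    du (du ψ) p + dv (dv ψ) p = 0 := by
  have a1 := hasD_du (sm_diff (sm_du (sm p hp)))
  have a2 := hasD_dv (sm_diff (sm_du (sm p hp)))
  have b1 := hasD_du (sm_diff (sm_dv (sm p hp)))
  have b2 := hasD_dv (sm_diff (sm_dv (sm p hp)))
  have n1 := hasD_du hN
  have n2 := hasD_dv hN
  have e1 := (a1.dot a1).eq_of_strip hb hp (b1.dot b1) fun q hq => by
    rw [(fr q hq).AA, (fr q hq).BB]
  have e2 := (a2.dot a2).eq_of_strip hb hp (b2.dot b2) fun q hq => by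
    rw [(fr q hq).AA, (fr q hq).BB]
  have e3 := (a1.dot b1).eq_of_strip hb hp (HasD.const 0) fun q hq => (fr q hq).AB
  have e4 := (a2.dot b2).eq_of_strip hb hp (HasD.const 0) fun q hq => (fr q hq).AB
  have e5 := (a1.dot n1).eq_of_strip hb hp (HasD.const 0) fun q hq => (fr q hq).AN
  have e6 := (b2.dot n2).eq_of_strip hb hp (HasD.const 0) fun q hq => (fr q hq).BN
  rw [du_dv_comm (sm p hp)] at e1 e3
  rw [dotProduct_comm (du ψ p), dotProduct_comm (dv ψ p)] at e1 e2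
  rw [dotProduct_comm (du ψ p)] at e3 e4
  have hd := (fr p hp).decomp (du (du ψ) p + dv (dv ψ) p)
  have c1 : (du (du ψ) p + dv (dv ψ) p) ⬝ᵥ du ψ p = 0 := by rw [add_dotProduct]; linarith
  have c2 : (du (du ψ) p + dv (dv ψ) p) ⬝ᵥ dv ψ p = 0 := by rw [add_dotProduct]; linarith
  have c3 : (du (du ψ) p + dv (dv ψ) p) ⬝ᵥ normal ψ p = 0 := by rw [add_dotProduct]; linarith
  rw [c1, c2, c3] at hd
  simpa using hd

theorem Reparam.deck_int {Φ : ℝ × ℝ → ℝ × ℝ} {b τ : ℝ} (h : Reparam Φ b τ) {z : ℝ × ℝ}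
    (hz : z ∈ strip 0 b) (k : ℤ) : Φ (z.1, z.2 + k * τ) = ((Φ z).1, (Φ z).2 + k * 1) := by
  induction k using Int.induction_on with
  | zero => simp
  | succ n ih =>
    have := h.deck (z.1, z.2 + (n : ℤ) * τ) hz
    simp only at this
    rw [ih] at this
    rw [show z.2 + (((n : ℤ) + 1 : ℤ) : ℝ) * τ = z.2 + ((n : ℤ) : ℝ) * τ + τ by push_cast; ring,
      this]
    ext
    · rfl
    · simp only; push_cast; ring
  | pred n ih =>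
    have := h.deck (z.1, z.2 + (-(n : ℤ) - 1 : ℤ) * τ) hz
    simp only at this
    rw [show z.2 + ((-(n : ℤ) - 1 : ℤ) : ℝ) * τ + τ = z.2 + ((-(n : ℤ) : ℤ) : ℝ) * τ by
      push_cast; ring, ih] at this
    have h1 := congrArg Prod.fst this
    have h2 := congrArg Prod.snd this
    simp only at h1 h2
    ext
    · exact h1.symm
    · simp only; push_cast at h2 ⊢; linarith

section
variable {X f1 f2 : ℝ × ℝ → V3} {A B g x y : ℝ × ℝ → ℝ} {θ b τ : ℝ} {Φ : ℝ × ℝ → ℝ × ℝ}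

theorem UFrame.dXN {N : ℝ × ℝ → V3} (h : UFrame X N f1 f2 A B g x y) {p : ℝ × ℝ}
    (hp : p ∈ strip 0 1) (k : ℝ × ℝ) {α β : ℝ} (ha : k.1 * A p = α)
    (hb : k.1 * B p + k.2 * g p = β) :
    fderiv ℝ X p k = α • f1 p + β • f2 p ∧
      fderiv ℝ N p k = (-(x p * α) + y p * β) • f1 p + (y p * α + x p * β) • f2 p := by
  rw [ucf_fderiv, ucf_fderiv, h.Xu p hp, h.Xv p hp, h.Nu p hp, h.Nv p hp, ← ha, ← hb]
  constructor <;> module

/-- `Φ` is conformal for the induced metric: `ω (dΦ k) = μ (k₁ + i k₂)`. -/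
def UConf (Φ : ℝ × ℝ → ℝ × ℝ) (b : ℝ) (A B g : ℝ × ℝ → ℝ) : Prop :=
  ∀ z ∈ strip 0 b, ∃ μ₁ μ₂ : ℝ, 0 < μ₁ ^ 2 + μ₂ ^ 2 ∧
    (du Φ z).1 * A (Φ z) = μ₁ ∧ (du Φ z).1 * B (Φ z) + (du Φ z).2 * g (Φ z) = μ₂ ∧
    (dv Φ z).1 * A (Φ z) = -μ₂ ∧ (dv Φ z).1 * B (Φ z) + (dv Φ z).2 * g (Φ z) = μ₁

theorem ucf_chain {F : Type} [NormedAddCommGroup F] [NormedSpace ℝ F] {f : ℝ × ℝ → F}
    {z : ℝ × ℝ} (hf : DifferentiableAt ℝ f (Φ z)) (hΦ : DifferentiableAt ℝ Φ z) (k : ℝ × ℝ) :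
    fderiv ℝ (fun w => f (Φ w)) z k = fderiv ℝ f (Φ z) (fderiv ℝ Φ z k) := by
  have := (hf.hasFDerivAt.comp z hΦ.hasFDerivAt).fderiv
  change fderiv ℝ (f ∘ Φ) z k = _
  rw [this]; rfl

theorem ucf_point (h : UFrame X (unitN X) f1 f2 A B g x y) (hΦ : Reparam Φ b τ)
    (hc : UConf Φ b A B g) {z : ℝ × ℝ} (hz : z ∈ strip 0 b) :
    normal (fun w => X (Φ w)) z = unitN X (Φ z) ∧
    Fr (du (fun w => X (Φ w)) z) (dv (fun w => X (Φ w)) z) (normal (fun w => X (Φ w)) z)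
      (confE (fun w => X (Φ w)) z) ∧
    du (fun w => X (Φ w)) z ⬝ᵥ du (fun w => unitN X (Φ w)) z +
      dv (fun w => X (Φ w)) z ⬝ᵥ dv (fun w => unitN X (Φ w)) z = 0 := by
  obtain ⟨μ₁, μ₂, hμ, e1, e2, e3, e4⟩ := hc z hz
  have hp := hΦ.bij.mapsTo hz
  have hf := h.fr _ hp
  have dΦ := sm_diff (hΦ.smooth z hz)
  obtain ⟨u1, u2⟩ := h.dXN hp (du Φ z) e1 e2
  obtain ⟨v1, v2⟩ := h.dXN hp (dv Φ z) e3 e4
  have a1 : du (fun w => X (Φ w)) z = μ₁ • f1 (Φ z) + μ₂ • f2 (Φ z) :=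
    (ucf_chain (sm_diff (h.sX _ hp)) dΦ _).trans u1
  have a2 : dv (fun w => X (Φ w)) z = (-μ₂) • f1 (Φ z) + μ₁ • f2 (Φ z) :=
    (ucf_chain (sm_diff (h.sX _ hp)) dΦ _).trans v1
  have a3 := (ucf_chain (sm_diff (h.sN _ hp)) dΦ (1, 0)).trans u2
  have a4 := (ucf_chain (sm_diff (h.sN _ hp)) dΦ (0, 1)).trans v2
  change du (fun w => unitN X (Φ w)) z = _ at a3
  change dv (fun w => unitN X (Φ w)) z = _ at a4
  have hE : confE (fun w => X (Φ w)) z = μ₁ ^ 2 + μ₂ ^ 2 := by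
    simp only [confE, a1, add_dotProduct, dotProduct_add, smul_dotProduct, dotProduct_smul,
      smul_eq_mul, hf.AA, hf.BB, hf.AB, hf.BA]
    ring
  have hx : (μ₁ • f1 (Φ z) + μ₂ • f2 (Φ z)) ⨯₃ ((-μ₂) • f1 (Φ z) + μ₁ • f2 (Φ z)) =
      (μ₁ ^ 2 + μ₂ ^ 2) • (f1 (Φ z) ⨯₃ f2 (Φ z)) := by
    ext i; fin_cases i <;> simp [cross_apply] <;> ring
  refine ⟨?_, ⟨hE ▸ hμ, rfl, ?_, ?_, rfl⟩, ?_⟩
  · simp only [normal]
    rw [hE, a1, a2, hx, hf.AxB, one_smul, smul_smul, inv_mul_cancel₀ hμ.ne', one_smul]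
  · rw [hE]
    simp only [a2, add_dotProduct, dotProduct_add, smul_dotProduct, dotProduct_smul,
      smul_eq_mul, hf.AA, hf.BB, hf.AB, hf.BA]
    ring
  · simp only [a1, a2, add_dotProduct, dotProduct_add, smul_dotProduct, dotProduct_smul,
      smul_eq_mul, hf.AA, hf.BB, hf.AB, hf.BA]
    ring
  · simp only [a1, a2, a3, a4, add_dotProduct, dotProduct_add, smul_dotProduct, dotProduct_smul,
      smul_eq_mul, hf.AA, hf.BB, hf.AB, hf.BA]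
    ring

theorem ucf_cap (hX : MinAnnulus X θ) (h : UFrame X (unitN X) f1 f2 A B g x y)
    (hΦ : Reparam Φ b τ) (hc : UConf Φ b A B g)
    (hbd : ∀ z ∈ strip 0 b, ((Φ z).1 = 0 ↔ z.1 = 0) ∧ ((Φ z).1 = 1 ↔ z.1 = b)) :
    CapAnnulus (fun w => X (Φ w)) 0 b τ θ θ := by
  have sm : ∀ z ∈ strip 0 b, ContDiffAt ℝ ∞ (fun w => X (Φ w)) z := fun z hz =>
    (h.sX _ (hΦ.bij.mapsTo hz)).comp z (hΦ.smooth z hz)
  have smN : ∀ z ∈ strip 0 b, ContDiffAt ℝ ∞ (fun w => unitN X (Φ w)) z := fun z hz =>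
    (h.sN _ (hΦ.bij.mapsTo hz)).comp z (hΦ.smooth z hz)
  have m0 : ∀ v, ((0, v) : ℝ × ℝ) ∈ strip 0 b := fun v => ⟨le_rfl, hΦ.hb.le⟩
  have m1 : ∀ v, ((b, v) : ℝ × ℝ) ∈ strip 0 b := fun v => ⟨hΦ.hb.le, le_rfl⟩
  have e0 : ∀ v, Φ (0, v) = (0, (Φ (0, v)).2) := fun v =>
    Prod.ext ((hbd _ (m0 v)).1.2 rfl) rfl
  have e1 : ∀ v, Φ (b, v) = (1, (Φ (b, v)).2) := fun v =>
    Prod.ext ((hbd _ (m1 v)).2.2 rfl) rfl
  refine ⟨hΦ.hb, hΦ.hτ, sm, fun z hz => ?_, fun z hz => (ucf_point h hΦ hc hz).2.1.pos,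
    fun z hz => (ucf_point h hΦ hc hz).2.1.BB, fun z hz => (ucf_point h hΦ hc hz).2.1.AB,
    fun z hz => ?_, fun z h0 h1 => ?_, fun v => ?_, fun v => ?_, hX.hθ, hX.hθ,
    fun v => ?_, fun v => ?_⟩
  · rw [hΦ.deck z hz, hX.periodic _ (hΦ.bij.mapsTo hz)]
  · have hE := (ucf_point h hΦ hc hz).2.1.pos
    have hN : DifferentiableAt ℝ (normal fun w => X (Φ w)) z :=
      sm_diff (((sm_dot (sm_du (sm z hz)) (sm_du (sm z hz))).inv hE.ne').smul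
        (sm_cross (sm_du (sm z hz)) (sm_dv (sm z hz))))
    refine ucf_harmonic hΦ.hb sm (fun q hq => (ucf_point h hΦ hc hq).2.1) hz hN ?_
    have := fderiv_congr_strip hΦ.hb hz hN (sm_diff (smN z hz))
      fun q hq => (ucf_point h hΦ hc hq).1
    have t := (ucf_point h hΦ hc hz).2.2
    simp only [du, dv] at t ⊢
    rw [this]; exact t
  · have hz : z ∈ strip 0 b := ⟨h0.le, h1.le⟩
    have hp := hΦ.bij.mapsTo hz
    exact hX.inside _ (lt_of_le_of_ne hp.1 fun e => h0.ne' ((hbd z hz).1.1 e.symm))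
      (lt_of_le_of_ne hp.2 fun e => h1.ne ((hbd z hz).2.1 e))
  · rw [e0]; exact (hX.sphere _).1
  · rw [e1]; exact (hX.sphere _).2
  · rw [(ucf_point h hΦ hc (m0 v)).1, e0]; exact (hX.angle _).1
  · rw [(ucf_point h hΦ hc (m1 v)).1, e1]; exact (hX.angle _).2

theorem ucf_embedded (he : Embedded X 0 1 1) (hΦ : Reparam Φ b τ) :
    Embedded (fun w => X (Φ w)) 0 b τ := by
  intro p hp q hq e
  obtain ⟨e1, k, e2⟩ := he _ (hΦ.bij.mapsTo hp) _ (hΦ.bij.mapsTo hq) e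
  have h1 : Φ (p.1, p.2 + k * τ) = Φ q := by
    rw [hΦ.deck_int hp k]; exact Prod.ext e1 e2.symm
  have h2 := hΦ.bij.injOn (show ((p.1, p.2 + k * τ) : ℝ × ℝ) ∈ strip 0 b from hp) hq h1
  exact ⟨(Prod.ext_iff.1 h2).1, k, (Prod.ext_iff.1 h2).2.symm⟩

theorem ucf_lines (hX : MinAnnulus X θ) (h : UFrame X (unitN X) f1 f2 A B g x y)
    (hΦ : Reparam Φ b τ) (hc : UConf Φ b A B g)
    (hbd : ∀ z ∈ strip 0 b, ((Φ z).1 = 0 ↔ z.1 = 0) ∧ ((Φ z).1 = 1 ↔ z.1 = b)) {e : V3}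
    (hF : FoliatedAbout (fun w => X (Φ w)) 0 b e) {u : ℝ} (hu : u ∈ Icc 0 b) :
    CurvatureLine X (fun v => Φ (u, v)) ∧ SphericalAbout e (fun v => X (Φ (u, v))) := by
  refine ⟨fun t => ?_, hF.2 u hu.1 hu.2⟩
  have hz : ((u, t) : ℝ × ℝ) ∈ strip 0 b := hu
  have hcap := ucf_cap hX h hΦ hc hbd
  obtain ⟨κ, hκ⟩ := hF.1 _ hz
  refine ⟨κ, ?_⟩
  have d1 := (hasDerivAt_line_v (sm_diff (hcap.smN hz))).deriv
  have d2 := (hasDerivAt_line_v (sm_diff (hcap.smooth _ hz))).deriv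
  have e : (fun s => unitN X (Φ (u, s))) = fun s => normal (fun w => X (Φ w)) (u, s) :=
    funext fun s => ((ucf_point h hΦ hc (show ((u, s) : ℝ × ℝ) ∈ strip 0 b from hu)).1).symm
  rw [e, d1, d2, hκ]

end

end Pool.Agent.Lib.MP_c7e804_gt
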