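import Pool.Agent.Lib.MP_c7e804_gt.H49Defs

/-!
Constant-angle minimal annuli in the unit ball in an arbitrary smooth parametrisation by
`[0, 1] × ℝ / ℤ`.
-/

namespace Pool.Agent.Lib.MP_c7e804_gt

open Matrix Set
open scoped ContDiff

/-- Unit normal `N = X_u × X_v / |X_u × X_v|` of an immersion. -/
noncomputable def unitN (X : ℝ × ℝ → V3) (p : ℝ × ℝ) : V3 :=
  (√((du X p ⨯₃ dv X p) ⬝ᵥ (du X p ⨯₃ dv X p)))⁻¹ • (du X p ⨯₃ dv X p)

/-- Mean curvature `H = (G l - 2 F m + E n) / (2 (E G - F ^ 2))`, where `E, F, G` and `l, m, n`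
are the coefficients of the first and second fundamental forms. -/
noncomputable def meanCurv (X : ℝ × ℝ → V3) (p : ℝ × ℝ) : ℝ :=
  ((dv X p ⬝ᵥ dv X p) * (du (du X) p ⬝ᵥ unitN X p)
      - 2 * (du X p ⬝ᵥ dv X p) * (dv (du X) p ⬝ᵥ unitN X p)
      + (du X p ⬝ᵥ du X p) * (dv (dv X) p ⬝ᵥ unitN X p)) /
    (2 * ((du X p ⬝ᵥ du X p) * (dv X p ⬝ᵥ dv X p) - (du X p ⬝ᵥ dv X p) ^ 2))

/-- `X` is an immersion of the compact annulus `[0, 1] × ℝ / ℤ`, smooth up to the boundary, with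
mean curvature zero, interior in the open unit ball and both boundary curves on the unit sphere,
which it meets at the constant angle `θ ∈ (0, π)`: the angle between the unit normal `N` of the
surface and the normal `X` of the sphere. -/
structure MinAnnulus (X : ℝ × ℝ → V3) (θ : ℝ) : Prop where
  smooth : ∀ p ∈ strip 0 1, ContDiffAt ℝ ∞ X p
  periodic : ∀ p ∈ strip 0 1, X (p.1, p.2 + 1) = X p
  immersion : ∀ p ∈ strip 0 1, du X p ⨯₃ dv X p ≠ 0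
  minimal : ∀ p ∈ strip 0 1, meanCurv X p = 0
  inside : ∀ p : ℝ × ℝ, 0 < p.1 → p.1 < 1 → X p ⬝ᵥ X p < 1
  sphere : ∀ v, X (0, v) ⬝ᵥ X (0, v) = 1 ∧ X (1, v) ⬝ᵥ X (1, v) = 1
  hθ : 0 < θ ∧ θ < Real.pi
  angle : ∀ v, unitN X (0, v) ⬝ᵥ X (0, v) = Real.cos θ ∧ unitN X (1, v) ⬝ᵥ X (1, v) = Real.cos θ

/-- `Φ` induces a diffeomorphism of the annulus `[0, b] × ℝ / τ ℤ` onto `[0, 1] × ℝ / ℤ`; the
closed curves `v ↦ Φ (u, v)`, `u ∈ [0, b]`, are then the leaves of a smooth foliation. -/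
structure Reparam (Φ : ℝ × ℝ → ℝ × ℝ) (b τ : ℝ) : Prop where
  hb : 0 < b
  hτ : 0 < τ
  smooth : ∀ z ∈ strip 0 b, ContDiffAt ℝ ∞ Φ z
  regular : ∀ z ∈ strip 0 b, Function.Bijective (fderiv ℝ Φ z)
  bij : BijOn Φ (strip 0 b) (strip 0 1)
  deck : ∀ z ∈ strip 0 b, Φ (z.1, z.2 + τ) = ((Φ z).1, (Φ z).2 + 1)

/-- The parameter curve `γ` is a line of curvature of `X` (Rodrigues' equation: along `γ` the
derivative of the normal is parallel to the derivative of the position). -/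
def CurvatureLine (X : ℝ × ℝ → V3) (γ : ℝ → ℝ × ℝ) : Prop :=
  ∀ t, ∃ κ : ℝ, deriv (fun s => unitN X (γ s)) t = κ • deriv (fun s => X (γ s)) t

end Pool.Agent.Lib.MP_c7e804_gt
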