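import Pool.Agent.Lib.MP_c7e804_gt.H43UFrD

/-!
Existence of the adapted frame.
-/

namespace Pool.Agent.Lib.MP_c7e804_gt

open Matrix Set Filter Topology
open scoped ContDiff

theorem ufa_dot_pos {n : V3} (hn : n ≠ 0) : 0 < n ⬝ᵥ n := by
  have h0 : 0 ≤ n ⬝ᵥ n := by
    simp only [dotProduct, Fin.sum_univ_three]
    nlinarith [mul_self_nonneg (n 0), mul_self_nonneg (n 1), mul_self_nonneg (n 2)]
  exact lt_of_le_of_ne h0 fun e => hn (dotProduct_self_eq_zero.1 e.symm)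

theorem ufa_ne {a b : V3} (h : a ⨯₃ b ≠ 0) : b ≠ 0 := fun e => h (by rw [e]; simp)

/-- pointwise algebra of the adapted frame -/
theorem ufa_alg {a b N f1 f2 : V3} {W g : ℝ} (h : a ⨯₃ b ≠ 0)
    (hW : W = √((a ⨯₃ b) ⬝ᵥ (a ⨯₃ b))) (hg : g = √(b ⬝ᵥ b)) (hN : N = W⁻¹ • (a ⨯₃ b))
    (h2 : f2 = g⁻¹ • b) (h1 : f1 = f2 ⨯₃ N) :
    0 < g ∧ Fr f1 f2 N 1 ∧ 0 < a ⬝ᵥ f1 ∧ a ⬝ᵥ N = 0 ∧ b = g • f2 := by
  have hn := ufa_dot_pos h
  have hb := ufa_dot_pos (ufa_ne h)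
  have hWp : 0 < W := hW ▸ Real.sqrt_pos.2 hn
  have hgp : 0 < g := hg ▸ Real.sqrt_pos.2 hb
  have hWW : W * W = (a ⨯₃ b) ⬝ᵥ (a ⨯₃ b) := hW ▸ Real.mul_self_sqrt hn.le
  have hgg : g * g = b ⬝ᵥ b := hg ▸ Real.mul_self_sqrt hb.le
  have NN : N ⬝ᵥ N = 1 := by
    rw [hN, smul_dotProduct, dotProduct_smul, ← hWW]; simp only [smul_eq_mul]; field_simp
  have ff : f2 ⬝ᵥ f2 = 1 := by
    rw [h2, smul_dotProduct, dotProduct_smul, ← hgg]; simp only [smul_eq_mul]; field_simp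
  have aN : a ⬝ᵥ N = 0 := by rw [hN, dotProduct_smul, dot_self_cross]; simp
  have bN : b ⬝ᵥ N = 0 := by rw [hN, dotProduct_smul, dot_cross_self]; simp
  have fN : f2 ⬝ᵥ N = 0 := by rw [h2, smul_dotProduct, bN]; simp
  have Nf : N ⬝ᵥ f2 = 0 := by rw [dotProduct_comm]; exact fN
  have e1 : (f2 ⨯₃ N) ⨯₃ f2 = (f2 ⬝ᵥ f2) • N - (N ⬝ᵥ f2) • f2 := by
    ext i; fin_cases i <;> simp [cross_apply, dotProduct, Fin.sum_univ_three] <;> ring
  have e2 : a ⬝ᵥ (f2 ⨯₃ N) = N ⬝ᵥ (a ⨯₃ f2) := by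
    simp [cross_apply, dotProduct, Fin.sum_univ_three]; ring
  refine ⟨hgp, ⟨one_pos, ?_, ff, ?_, ?_⟩, ?_, aN, ?_⟩
  · rw [h1, cross_dot_cross, ff, NN, fN, Nf]; ring
  · rw [h1, dotProduct_comm, dot_self_cross]
  · rw [h1, e1, ff, Nf]; simp
  · rw [h1, e2, h2, map_smul, dotProduct_smul, hN, smul_dotProduct, ← hWW]
    simp only [smul_eq_mul]
    positivity
  · rw [h2, smul_smul, mul_inv_cancel₀ hgp.ne', one_smul]

noncomputable def ufaG (X : ℝ × ℝ → V3) (p : ℝ × ℝ) : ℝ := √(dv X p ⬝ᵥ dv X p)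
noncomputable def ufa2 (X : ℝ × ℝ → V3) (p : ℝ × ℝ) : V3 := (ufaG X p)⁻¹ • dv X p
noncomputable def ufa1 (X : ℝ × ℝ → V3) (p : ℝ × ℝ) : V3 := ufa2 X p ⨯₃ unitN X p
noncomputable def ufaA (X : ℝ × ℝ → V3) (p : ℝ × ℝ) : ℝ := du X p ⬝ᵥ ufa1 X p
noncomputable def ufaB (X : ℝ × ℝ → V3) (p : ℝ × ℝ) : ℝ := du X p ⬝ᵥ ufa2 X p
noncomputable def ufaX (X : ℝ × ℝ → V3) (p : ℝ × ℝ) : ℝ :=
  (dv (unitN X) p ⬝ᵥ ufa2 X p) * (ufaG X p)⁻¹
noncomputable def ufaY (X : ℝ × ℝ → V3) (p : ℝ × ℝ) : ℝ :=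
  (dv (unitN X) p ⬝ᵥ ufa1 X p) * (ufaG X p)⁻¹

theorem ufa_decomp {f1 f2 N : V3} (h : Fr f1 f2 N 1) (w : V3) (hw : w ⬝ᵥ N = 0) :
    w = (w ⬝ᵥ f1) • f1 + (w ⬝ᵥ f2) • f2 := by
  have := h.decomp w
  rw [hw] at this
  simpa using this

namespace MinAnnulus
variable {X : ℝ × ℝ → V3} {θ : ℝ} (h : MinAnnulus X θ) {p : ℝ × ℝ}
include h

theorem alg (hp : p ∈ strip 0 1) : 0 < ufaG X p ∧ Fr (ufa1 X p) (ufa2 X p) (unitN X p) 1 ∧
    0 < ufaA X p ∧ du X p ⬝ᵥ unitN X p = 0 ∧ dv X p = ufaG X p • ufa2 X p :=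
  ufa_alg (h.immersion p hp) rfl rfl rfl rfl rfl

theorem smN (hp : p ∈ strip 0 1) : ContDiffAt ℝ ∞ (unitN X) p := by
  have hc := sm_cross (sm_du (h.smooth p hp)) (sm_dv (h.smooth p hp))
  have hn := ufa_dot_pos (h.immersion p hp)
  exact (((sm_dot hc hc).sqrt hn.ne').inv (Real.sqrt_pos.2 hn).ne').smul hc

theorem smG (hp : p ∈ strip 0 1) : ContDiffAt ℝ ∞ (ufaG X) p := by
  have hc := sm_dv (h.smooth p hp)
  exact (sm_dot hc hc).sqrt (ufa_dot_pos (ufa_ne (h.immersion p hp))).ne'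

theorem smGi (hp : p ∈ strip 0 1) : ContDiffAt ℝ ∞ (fun q => (ufaG X q)⁻¹) p :=
  (h.smG hp).inv (h.alg hp).1.ne'

theorem sm2 (hp : p ∈ strip 0 1) : ContDiffAt ℝ ∞ (ufa2 X) p :=
  (h.smGi hp).smul (sm_dv (h.smooth p hp))

theorem sm1 (hp : p ∈ strip 0 1) : ContDiffAt ℝ ∞ (ufa1 X) p := sm_cross (h.sm2 hp) (h.smN hp)

theorem perU : Per 0 1 1 (du X) :=
  Per.du one_pos (fun _ hp => sm_diff (h.smooth _ hp)) h.periodic

theorem perV : Per 0 1 1 (dv X) :=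
  Per.dv one_pos (fun _ hp => sm_diff (h.smooth _ hp)) h.periodic

theorem perN : Per 0 1 1 (unitN X) := fun p hp => by
  simp only [unitN]; rw [h.perU p hp, h.perV p hp]

theorem perG : Per 0 1 1 (ufaG X) := fun p hp => by simp only [ufaG]; rw [h.perV p hp]

theorem per2 : Per 0 1 1 (ufa2 X) := fun p hp => by
  simp only [ufa2]; rw [h.perV p hp, h.perG p hp]

theorem per1 : Per 0 1 1 (ufa1 X) := fun p hp => by
  simp only [ufa1]; rw [h.per2 p hp, h.perN p hp]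

theorem perNv : Per 0 1 1 (dv (unitN X)) :=
  Per.dv one_pos (fun _ hp => sm_diff (h.smN hp)) h.perN

theorem Xu (hp : p ∈ strip 0 1) : du X p = ufaA X p • ufa1 X p + ufaB X p • ufa2 X p :=
  ufa_decomp (h.alg hp).2.1 _ (h.alg hp).2.2.2.1

theorem vN (hp : p ∈ strip 0 1) : dv X p ⬝ᵥ unitN X p = 0 := by
  rw [(h.alg hp).2.2.2.2, smul_dotProduct, (h.alg hp).2.1.BN]; simp

theorem dNN (hp : p ∈ strip 0 1) (w : ℝ × ℝ) : fderiv ℝ (unitN X) p w ⬝ᵥ unitN X p = 0 := by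
  have h1 := HasD.of_diff (w := w) (sm_diff (h.smN hp))
  have := (h1.dot h1).eq_of_strip one_pos hp (HasD.const 1) fun q hq => (h.alg hq).2.1.NN
  rw [dotProduct_comm (unitN X p)] at this
  linarith

theorem dNu (hp : p ∈ strip 0 1) (w : ℝ × ℝ) :
    fderiv ℝ (du X) p w ⬝ᵥ unitN X p + du X p ⬝ᵥ fderiv ℝ (unitN X) p w = 0 := by
  have h1 := HasD.of_diff (w := w) (sm_diff (h.smN hp))
  have h2 := HasD.of_diff (w := w) (sm_diff (sm_du (h.smooth p hp)))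
  exact (h2.dot h1).eq_of_strip one_pos hp (HasD.const 0) fun q hq => (h.alg hq).2.2.2.1

theorem dNv (hp : p ∈ strip 0 1) (w : ℝ × ℝ) :
    fderiv ℝ (dv X) p w ⬝ᵥ unitN X p + dv X p ⬝ᵥ fderiv ℝ (unitN X) p w = 0 := by
  have h1 := HasD.of_diff (w := w) (sm_diff (h.smN hp))
  have h2 := HasD.of_diff (w := w) (sm_diff (sm_dv (h.smooth p hp)))
  exact (h2.dot h1).eq_of_strip one_pos hp (HasD.const 0) fun q hq => h.vN hq

theorem Nv (hp : p ∈ strip 0 1) : dv (unitN X) p =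
    (ufaG X p * ufaY X p) • ufa1 X p + (ufaG X p * ufaX X p) • ufa2 X p := by
  have hg := (h.alg hp).1.ne'
  have e1 : ufaG X p * ufaY X p = dv (unitN X) p ⬝ᵥ ufa1 X p := by
    simp only [ufaY]; field_simp
  have e2 : ufaG X p * ufaX X p = dv (unitN X) p ⬝ᵥ ufa2 X p := by
    simp only [ufaX]; field_simp
  rw [e1, e2]
  exact ufa_decomp (h.alg hp).2.1 _ (h.dNN hp (0, 1))

theorem Nu (hp : p ∈ strip 0 1) : du (unitN X) p =
    (-(ufaA X p * ufaX X p) + ufaB X p * ufaY X p) • ufa1 X p +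
      (ufaA X p * ufaY X p + ufaB X p * ufaX X p) • ufa2 X p := by
  obtain ⟨hg, hf, hA, -, hv⟩ := h.alg hp
  have hd := ufa_decomp hf _ (h.dNN hp (1, 0))
  change du (unitN X) p = (du (unitN X) p ⬝ᵥ ufa1 X p) • ufa1 X p +
    (du (unitN X) p ⬝ᵥ ufa2 X p) • ufa2 X p at hd
  have l1 : du (du X) p ⬝ᵥ unitN X p + du X p ⬝ᵥ du (unitN X) p = 0 := h.dNu hp (1, 0)
  have l2 : dv (du X) p ⬝ᵥ unitN X p + du X p ⬝ᵥ dv (unitN X) p = 0 := h.dNu hp (0, 1)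
  have l3 : du (dv X) p ⬝ᵥ unitN X p + dv X p ⬝ᵥ du (unitN X) p = 0 := h.dNv hp (1, 0)
  have l4 : dv (dv X) p ⬝ᵥ unitN X p + dv X p ⬝ᵥ dv (unitN X) p = 0 := h.dNv hp (0, 1)
  rw [du_dv_comm (h.smooth p hp)] at l3
  have hm := h.minimal p hp
  simp only [meanCurv] at hm
  have hu := h.Xu hp
  have hNv := h.Nv hp
  generalize du (unitN X) p ⬝ᵥ ufa1 X p = P at hd
  generalize du (unitN X) p ⬝ᵥ ufa2 X p = Q at hd
  generalize du (du X) p ⬝ᵥ unitN X p = l at l1 hm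
  generalize dv (du X) p ⬝ᵥ unitN X p = m at l2 l3 hm
  generalize dv (dv X) p ⬝ᵥ unitN X p = n at l4 hm
  rw [hd] at l1 l3 ⊢
  rw [hNv] at l2 l4
  rw [hu] at l1 l2 hm
  rw [hv] at l3 l4 hm
  generalize ufaA X p = A at *
  generalize ufaB X p = B at *
  generalize ufaG X p = g at *
  generalize ufaX X p = x at *
  generalize ufaY X p = y at *
  simp only [add_dotProduct, dotProduct_add, smul_dotProduct, dotProduct_smul, smul_eq_mul,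
    hf.AA, hf.BB, hf.AB, hf.BA] at l1 l2 l3 l4 hm
  have hden : 2 * ((A * (A * 1 + B * 0) + B * (A * 0 + B * 1)) * (g * (g * 1)) -
      (A * (g * 0) + B * (g * 1)) ^ 2) ≠ 0 := by
    have : 0 < A ^ 2 * g ^ 2 := by positivity
    nlinarith
  have hnum := (div_eq_zero_iff.1 hm).resolve_right (by convert hden using 2; ring)
  have hQ : Q = A * y + B * x := by
    apply mul_left_cancel₀ hg.ne'
    linear_combination l3 - l2
  have hP : P = -(A * x) + B * y := by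
    apply mul_left_cancel₀ (mul_pos hA (mul_pos hg hg)).ne'
    subst hQ
    linear_combination (g * g) * l1 - 2 * B * g * l3 + (A ^ 2 + B ^ 2) * l4 - hnum
  rw [hP, hQ]

theorem bdY {u : ℝ} (hu : 0 ≤ u ∧ u ≤ 1) (hs : ∀ v, X (u, v) ⬝ᵥ X (u, v) = 1)
    (ha : ∀ v, unitN X (u, v) ⬝ᵥ X (u, v) = Real.cos θ) (v : ℝ) : ufaY X (u, v) = 0 := by
  have hp : ((u, v) : ℝ × ℝ) ∈ strip 0 1 := hu
  obtain ⟨hg, hf, -, -, hv⟩ := h.alg hp
  have h1 := hasD_dv (sm_diff (h.smooth _ hp))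
  have h2 := hasD_dv (sm_diff (h.smN hp))
  have e1 := (h1.dot h1).eq_of_line (HasD.const 1) hs
  have e2 := (h2.dot h1).eq_of_line (HasD.const _) ha
  rw [dotProduct_comm (unitN X (u, v)), h.vN hp, h.Nv hp] at e2
  rw [dotProduct_comm (dv X (u, v)), hv] at e1
  simp only [dotProduct_smul, smul_eq_mul] at e1
  have e3 : X (u, v) ⬝ᵥ ufa2 X (u, v) = 0 := by
    apply mul_left_cancel₀ hg.ne'; linarith
  have e := congrArg (fun x => X (u, v) ⬝ᵥ x) (hf.decomp (X (u, v)))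
  simp only [dotProduct_add, dotProduct_smul, smul_eq_mul] at e
  rw [hs v, e3, dotProduct_comm (X (u, v)) (unitN X (u, v)), ha v] at e
  simp only [add_dotProduct, smul_dotProduct, smul_eq_mul] at e2
  rw [dotProduct_comm (ufa2 X (u, v)), e3, dotProduct_comm (ufa1 X (u, v))] at e2
  have hsin := Real.sin_pos_of_pos_of_lt_pi h.hθ.1 h.hθ.2
  have hne : X (u, v) ⬝ᵥ ufa1 X (u, v) ≠ 0 := by
    intro h0
    rw [h0] at e
    nlinarith [Real.sin_sq_add_cos_sq θ]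
  have : ufaG X (u, v) * ufaY X (u, v) * (X (u, v) ⬝ᵥ ufa1 X (u, v)) = 0 := by linarith
  rcases mul_eq_zero.1 this with h3 | h3
  · exact (mul_eq_zero.1 h3).resolve_left hg.ne'
  · exact absurd h3 hne

end MinAnnulus

theorem MinAnnulus.frame {X : ℝ × ℝ → V3} {θ : ℝ} (h : MinAnnulus X θ) :
    ∃ (f1 f2 : ℝ × ℝ → V3) (A B g x y : ℝ × ℝ → ℝ), UFrame X (unitN X) f1 f2 A B g x y := by
  refine ⟨ufa1 X, ufa2 X, ufaA X, ufaB X, ufaG X, ufaX X, ufaY X,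
    h.smooth, fun _ hp => h.smN hp, fun _ hp => h.sm1 hp, fun _ hp => h.sm2 hp,
    fun p hp => sm_dot (sm_du (h.smooth p hp)) (h.sm1 hp),
    fun p hp => sm_dot (sm_du (h.smooth p hp)) (h.sm2 hp), fun _ hp => h.smG hp,
    fun p hp => (sm_dot (sm_dv (h.smN hp)) (h.sm2 hp)).mul (h.smGi hp),
    fun p hp => (sm_dot (sm_dv (h.smN hp)) (h.sm1 hp)).mul (h.smGi hp),
    fun p hp => ?_, fun p hp => ?_, h.perG, fun p hp => ?_, fun p hp => ?_,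
    fun _ hp => (h.alg hp).2.1, fun _ hp => (h.alg hp).2.2.1, fun _ hp => (h.alg hp).1,
    fun _ hp => h.Xu hp, fun _ hp => (h.alg hp).2.2.2.2, fun _ hp => h.Nu hp, fun _ hp => h.Nv hp,
    h.bdY ⟨le_rfl, zero_le_one⟩ (fun v => (h.sphere v).1) (fun v => (h.angle v).1),
    h.bdY ⟨zero_le_one, le_rfl⟩ (fun v => (h.sphere v).2) (fun v => (h.angle v).2)⟩
  · simp only [ufaA]; rw [h.perU p hp, h.per1 p hp]
  · simp only [ufaB]; rw [h.perU p hp, h.per2 p hp]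
  · simp only [ufaX]; rw [h.perNv p hp, h.per2 p hp, h.perG p hp]
  · simp only [ufaY]; rw [h.perNv p hp, h.per1 p hp, h.perG p hp]

end Pool.Agent.Lib.MP_c7e804_gt
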