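import Pool.Agent.Lib.MP_c7e804_gt.H43UFrD

/-!
Structure equations of the adapted frame.
-/

namespace Pool.Agent.Lib.MP_c7e804_gt

open Matrix Set Filter Topology Complex
open scoped ContDiff

theorem ufb_cx {w p : ℝ × ℝ} {r s : ℝ × ℝ → ℝ} {r' s' : ℝ} (hr : HasD w r r' p)
    (hs : HasD w s s' p) : HasD w (cx r s) ((r' : ℂ) + (s' : ℂ) * I) p := by
  have h := (hr.smul (HasD.const (w := w) (p := p) (1 : ℂ))).add
    (hs.smul (HasD.const (w := w) (p := p) I))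
  have e : cx r s = fun q => r q • (1 : ℂ) + s q • I := by
    ext q
    simp [cx]
  rw [e]
  exact h.congr_val (by simp)

theorem ufb_cont {p : ℝ × ℝ} {r s : ℝ × ℝ → ℝ} (hr : ContinuousAt r p) (hs : ContinuousAt s p) :
    ContinuousAt (cx r s) p :=
  (continuous_ofReal.continuousAt.comp hr).add
    ((continuous_ofReal.continuousAt.comp hs).mul continuousAt_const)

/-- Derivatives of the orthonormality relations in a direction `w`. -/
theorem ufb_rot {X N f1 f2 : ℝ × ℝ → V3} {A B g x y : ℝ × ℝ → ℝ}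
    (h : UFrame X N f1 f2 A B g x y) {p : ℝ × ℝ} (hp : p ∈ strip 0 1) {w : ℝ × ℝ} {a b : V3}
    (h1 : HasD w f1 a p) (h2 : HasD w f2 b p) :
    a ⬝ᵥ f1 p = 0 ∧ b ⬝ᵥ f2 p = 0 ∧ b ⬝ᵥ f1 p = -(a ⬝ᵥ f2 p) := by
  have e1 := (h1.dot h1).eq_of_strip zero_lt_one hp (HasD.const 1) fun q hq => (h.fr q hq).AA
  have e2 := (h2.dot h2).eq_of_strip zero_lt_one hp (HasD.const 1) fun q hq => (h.fr q hq).BB
  have e3 := (h1.dot h2).eq_of_strip zero_lt_one hp (HasD.const 0) fun q hq => (h.fr q hq).AB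
  rw [dotProduct_comm (f1 p)] at e1 e3
  rw [dotProduct_comm (f2 p)] at e2
  refine ⟨by linarith, by linarith, by linarith⟩

/-- Integrability condition for a map `Y` with `Y_u = P f1 + Q f2`, `Y_v = R f1 + S f2`. -/
theorem ufb_int {X N f1 f2 : ℝ × ℝ → V3} {A B g x y : ℝ × ℝ → ℝ}
    (h : UFrame X N f1 f2 A B g x y) {p : ℝ × ℝ} (hp : p ∈ strip 0 1) {Y : ℝ × ℝ → V3}
    {P Q R S : ℝ × ℝ → ℝ} {P' Q' R' S' : ℝ} (hY : ContDiffAt ℝ ∞ Y p)
    (hu : ∀ q ∈ strip 0 1, du Y q = P q • f1 q + Q q • f2 q)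
    (hv : ∀ q ∈ strip 0 1, dv Y q = R q • f1 q + S q • f2 q)
    (hP : HasD (0, 1) P P' p) (hQ : HasD (0, 1) Q Q' p)
    (hR : HasD (1, 0) R R' p) (hS : HasD (1, 0) S S' p) :
    P' - Q p * (dv f1 p ⬝ᵥ f2 p) = R' - S p * (du f1 p ⬝ᵥ f2 p) ∧
      Q' + P p * (dv f1 p ⬝ᵥ f2 p) = S' + R p * (du f1 p ⬝ᵥ f2 p) := by
  have F := h.fr p hp
  have u1 := hasD_du (sm_diff (h.s1 p hp))
  have v1 := hasD_dv (sm_diff (h.s1 p hp))
  have u2 := hasD_du (sm_diff (h.s2 p hp))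
  have v2 := hasD_dv (sm_diff (h.s2 p hp))
  obtain ⟨a1, a2, a3⟩ := ufb_rot h hp u1 u2
  obtain ⟨b1, b2, b3⟩ := ufb_rot h hp v1 v2
  have e1 := (hasD_dv (sm_diff (sm_du hY))).eq_of_strip zero_lt_one hp
    ((hP.smul v1).add (hQ.smul v2)) hu
  have e2 := (hasD_du (sm_diff (sm_dv hY))).eq_of_strip zero_lt_one hp
    ((hR.smul u1).add (hS.smul u2)) hv
  rw [du_dv_comm hY, e1] at e2
  have eA := congrArg (fun z => z ⬝ᵥ f1 p) e2
  have eB := congrArg (fun z => z ⬝ᵥ f2 p) e2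
  simp only [add_dotProduct, smul_dotProduct, smul_eq_mul, F.AA, F.BB, F.AB, F.BA, a1, a2, a3,
    b1, b2, b3] at eA eB
  constructor <;> linarith

/-- With `ω_u = A + i B`, `ω_v = i g`, `q = x + i y`: `dω = - i ρ ∧ ω` and `dq ∧ ω = 2 i q ρ ∧ ω`. -/
theorem UFrame.structure_eq {X N f1 f2 : ℝ × ℝ → V3} {A B g x y : ℝ × ℝ → ℝ}
    (h : UFrame X N f1 f2 A B g x y) :
    ∃ T : ℝ × ℝ → ℂ, ContinuousOn T (strip 0 1) ∧ ∀ p ∈ strip 0 1,
      dv (cx A B) p - du (cx (fun _ => 0) g) p = -(I * T p) ∧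
      dv (cx x y) p * cx A B p - du (cx x y) p * cx (fun _ => 0) g p = 2 * I * cx x y p * T p := by
  refine ⟨fun p => ((dv f1 p ⬝ᵥ f2 p : ℝ) : ℂ) * cx A B p -
    ((du f1 p ⬝ᵥ f2 p : ℝ) : ℂ) * cx (fun _ => 0) g p, fun p hp => ?_, fun p hp => ?_⟩
  · have c1 : ContinuousAt (fun q => dv f1 q ⬝ᵥ f2 q) p :=
      (sm_dot (sm_dv (h.s1 p hp)) (h.s2 p hp)).continuousAt
    have c2 : ContinuousAt (fun q => du f1 q ⬝ᵥ f2 q) p :=
      (sm_dot (sm_du (h.s1 p hp)) (h.s2 p hp)).continuousAt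
    exact (((continuous_ofReal.continuousAt.comp c1).mul
      (ufb_cont (h.sA p hp).continuousAt (h.sB p hp).continuousAt)).sub
      ((continuous_ofReal.continuousAt.comp c2).mul
        (ufb_cont continuousAt_const (h.sg p hp).continuousAt))).continuousWithinAt
  · have Av := hasD_dv (sm_diff (h.sA p hp))
    have Bv := hasD_dv (sm_diff (h.sB p hp))
    have gu := hasD_du (sm_diff (h.sg p hp))
    have xu := hasD_du (sm_diff (h.sx p hp))
    have xv := hasD_dv (sm_diff (h.sx p hp))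
    have yu := hasD_du (sm_diff (h.sy p hp))
    have yv := hasD_dv (sm_diff (h.sy p hp))
    obtain ⟨e1, e2⟩ := ufb_int h hp (R := fun _ => 0) (h.sX p hp) h.Xu
      (fun q hq => by rw [h.Xv q hq]; simp) Av Bv (HasD.const 0) gu
    obtain ⟨e3, e4⟩ := ufb_int h hp (h.sN p hp) h.Nu h.Nv
      ((Av.mul xv).neg.add (Bv.mul yv)) ((Av.mul yv).add (Bv.mul xv)) (gu.mul yu) (gu.mul xu)
    rw [(ufb_cx Av Bv).dv_eq, (ufb_cx (HasD.const 0) gu).du_eq, (ufb_cx xv yv).dv_eq,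
      (ufb_cx xu yu).du_eq]
    beta_reduce
    generalize dv f1 p ⬝ᵥ f2 p = rv at e1 e2 e3 e4 ⊢
    generalize du f1 p ⬝ᵥ f2 p = ru at e1 e2 e3 e4 ⊢
    constructor
    · apply Complex.ext
      · simp [cx]
        linarith
      · simp [cx]
        linarith
    · apply Complex.ext
      · simp [cx]
        linear_combination -e3 - x p * e1 + y p * e2
      · simp [cx]
        linear_combination e4 - y p * e1 - x p * e2

end Pool.Agent.Lib.MP_c7e804_gt
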