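import Pool.Agent.Lib.MP_c7e804_gt.H63Frame
import Pool.Agent.Lib.MP_c7e804_gt.H43UDefs

/-!
Orthonormal frame adapted to the `v`-curves of a minimal annulus.
-/

namespace Pool.Agent.Lib.MP_c7e804_gt

open Matrix Set Filter Topology
open scoped ContDiff

/-- Adapted orthonormal frame `f1, f2, N`; `x + i y` is the Hopf differential in the frame. -/
structure UFrame (X N f1 f2 : ℝ × ℝ → V3) (A B g x y : ℝ × ℝ → ℝ) : Prop where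
  sX : ∀ p ∈ strip 0 1, ContDiffAt ℝ ∞ X p
  sN : ∀ p ∈ strip 0 1, ContDiffAt ℝ ∞ N p
  s1 : ∀ p ∈ strip 0 1, ContDiffAt ℝ ∞ f1 p
  s2 : ∀ p ∈ strip 0 1, ContDiffAt ℝ ∞ f2 p
  sA : ∀ p ∈ strip 0 1, ContDiffAt ℝ ∞ A p
  sB : ∀ p ∈ strip 0 1, ContDiffAt ℝ ∞ B p
  sg : ∀ p ∈ strip 0 1, ContDiffAt ℝ ∞ g p
  sx : ∀ p ∈ strip 0 1, ContDiffAt ℝ ∞ x p
  sy : ∀ p ∈ strip 0 1, ContDiffAt ℝ ∞ y p
  pA : Per 0 1 1 A
  pB : Per 0 1 1 B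
  pg : Per 0 1 1 g
  px : Per 0 1 1 x
  py : Per 0 1 1 y
  fr : ∀ p ∈ strip 0 1, Fr (f1 p) (f2 p) (N p) 1
  hA : ∀ p ∈ strip 0 1, 0 < A p
  hg : ∀ p ∈ strip 0 1, 0 < g p
  Xu : ∀ p ∈ strip 0 1, du X p = A p • f1 p + B p • f2 p
  Xv : ∀ p ∈ strip 0 1, dv X p = g p • f2 p
  Nu : ∀ p ∈ strip 0 1,
    du N p = (-(A p * x p) + B p * y p) • f1 p + (A p * y p + B p * x p) • f2 p
  Nv : ∀ p ∈ strip 0 1, dv N p = (g p * y p) • f1 p + (g p * x p) • f2 p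
  y0 : ∀ v, y (0, v) = 0
  y1 : ∀ v, y (1, v) = 0

/-- the complex function with real part `r` and imaginary part `s` -/
noncomputable def cx (r s : ℝ × ℝ → ℝ) (p : ℝ × ℝ) : ℂ := (r p : ℂ) + (s p : ℂ) * Complex.I

end Pool.Agent.Lib.MP_c7e804_gt
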