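import Pool.Agent.Lib.MP_c7e804_gt.H43UInvA
import Pool.Agent.Lib.MP_c7e804_gt.H43UDefs

/-!
The smooth inverse of the coordinate map.
-/

namespace Pool.Agent.Lib.MP_c7e804_gt

open Set Filter Topology
open scoped ContDiff

/-- A locally injective map whose restriction to `S` has a continuous inverse is injective on a
neighbourhood of `S`. -/
theorem uib_godement {X Y : Type} [MetricSpace X] [MetricSpace Y] {S : Set X} {w : X → Y}
    (ha : ∀ p ∈ S, ContinuousAt w p) (hb : ∀ p ∈ S, ∃ U ∈ 𝓝 p, InjOn w U)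
    (hc : ∀ p ∈ S, ∀ δ > 0, ∃ ε > 0, ∀ q ∈ S, dist (w q) (w p) < ε → dist q p < δ) :
    ∃ O, (∀ p ∈ S, O ∈ 𝓝 p) ∧ InjOn w O := by
  have key : ∀ p : S, ∃ δ ε r : ℝ, InjOn w (Metric.ball p.1 δ) ∧ 0 < r ∧ r ≤ ε ∧ ε ≤ δ / 2 ∧
      (∀ q ∈ S, dist (w q) (w p) < 2 * ε → dist q p < δ / 2) ∧
      ∀ x : X, dist x p < r → dist (w x) (w p) < ε := by
    rintro ⟨p, hp⟩
    obtain ⟨U, hU, hi⟩ := hb p hp
    obtain ⟨δ, hδ, hδU⟩ := Metric.mem_nhds_iff.1 hU
    obtain ⟨ε, hε, h1⟩ := hc p hp (δ / 2) (by positivity)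
    have h2 : 0 < min (ε / 2) (δ / 2) := by positivity
    obtain ⟨r, hr, h3⟩ := Metric.continuousAt_iff.1 (ha p hp) _ h2
    refine ⟨δ, min (ε / 2) (δ / 2), min r (min (ε / 2) (δ / 2)), hi.mono hδU, by positivity,
      min_le_right _ _, min_le_right _ _, fun q hq h => h1 q hq ?_,
      fun x hx => h3 (hx.trans_le (min_le_left _ _))⟩
    have := min_le_left (ε / 2) (δ / 2)
    linarith
  choose δ ε r k1 k2 k3 k4 k5 k6 using key
  have main : ∀ p q : S, ε q ≤ ε p → ∀ x y : X, dist x p < r p → dist y q < r q → w x = w y →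
      x = y := by
    intro p q h x y hx hy e
    have h1 := k6 p x hx
    have h2 := k6 q y hy
    rw [e] at h1
    have h3 := k5 p q q.2 (by linarith [dist_triangle_left (w q) (w p) (w y)])
    have h4 := k3 p
    have h5 := k3 q
    have h6 := k4 p
    have h7 := k2 p
    refine k1 p (Metric.mem_ball.2 (by linarith)) (Metric.mem_ball.2 ?_) e
    linarith [dist_triangle y q p]
  refine ⟨⋃ p : S, Metric.ball p.1 (r p), fun p hp => mem_of_superset
    (Metric.ball_mem_nhds p (k2 ⟨p, hp⟩)) (subset_iUnion (fun p : S => Metric.ball p.1 (r p))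
      ⟨p, hp⟩), fun x hx y hy e => ?_⟩
  obtain ⟨p, hp⟩ := mem_iUnion.1 hx
  obtain ⟨q, hq⟩ := mem_iUnion.1 hy
  rcases le_total (ε q) (ε p) with h | h
  · exact main p q h x y hp hq e
  · exact (main q p h y x hq hp e.symm).symm

theorem UCoord.uib_cont {w : ℝ × ℝ → ℝ × ℝ} {b τ : ℝ} (h : UCoord w b τ) :
    ∀ p ∈ strip 0 1, ∀ δ > 0, ∃ ε > 0, ∀ q ∈ strip 0 1, dist (w q) (w p) < ε → dist q p < δ := by
  intro p hp δ hδ
  obtain ⟨C, hC⟩ := h.bound
  have hτ := h.hτ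
  obtain ⟨M, hM⟩ : ∃ M, τ * M = 2 * C + 1 := ⟨(2 * C + 1) / τ, by field_simp⟩
  have hK : IsCompact ((Icc (0 : ℝ) 1 ×ˢ Icc (p.2 - M) (p.2 + M)) ∩ {q | δ ≤ dist q p}) :=
    (isCompact_Icc.prod isCompact_Icc).inter_right
      (isClosed_le continuous_const (continuous_id.dist continuous_const))
  obtain ⟨ε, hε, h1⟩ := hK.exists_forall_le' (f := fun q => dist (w q) (w p)) (a := 0)
    (fun q hq => ContinuousAt.continuousWithinAt
      ((h.sm q hq.1.1).continuousAt.dist continuousAt_const))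
    fun q hq => dist_pos.2 fun e => by
      have h2 : δ ≤ dist q p := hq.2
      rw [h.bijOn.injOn hq.1.1 hp e, dist_self] at h2
      linarith
  refine ⟨min ε 1, by positivity, fun q hq hd => not_le.1 fun hn => ?_⟩
  have h2 : |(w q).2 - (w p).2| < 1 := by
    rw [← Real.dist_eq]
    rw [Prod.dist_eq (x := w q)] at hd
    exact ((le_max_right _ _).trans_lt hd).trans_le (min_le_right _ _)
  have h3 := abs_le.1 (hC q hq)
  have h4 := abs_le.1 (hC p hp)
  rw [abs_lt] at h2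
  have h5 : p.2 - M ≤ q.2 := le_of_mul_le_mul_left (by linarith) hτ
  have h6 : q.2 ≤ p.2 + M := le_of_mul_le_mul_left (by linarith) hτ
  exact absurd (h1 q ⟨⟨hq, h5, h6⟩, hn⟩) (not_le.2 (hd.trans_le (min_le_left _ _)))

theorem UCoord.uib_inj {w : ℝ × ℝ → ℝ × ℝ} {b τ : ℝ} (h : UCoord w b τ) :
    ∃ O, (∀ p ∈ strip 0 1, O ∈ 𝓝 p) ∧ InjOn w O := by
  refine uib_godement (fun p hp => (h.sm p hp).continuousAt) (fun p hp => ?_) h.uib_cont
  obtain ⟨e, he⟩ := h.equiv hp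
  exact ⟨_, ((h.sm p hp).toOpenPartialHomeomorph w he (by simp)).open_source.mem_nhds
    ((h.sm p hp).mem_toOpenPartialHomeomorph_source he (by simp)),
    ((h.sm p hp).toOpenPartialHomeomorph w he (by simp)).injOn⟩

theorem UCoord.inverse {w : ℝ × ℝ → ℝ × ℝ} {b τ : ℝ} (h : UCoord w b τ) :
    ∃ Φ : ℝ × ℝ → ℝ × ℝ, Reparam Φ b τ ∧ (∀ z ∈ strip 0 b, ∀ᶠ z' in 𝓝 z, w (Φ z') = z') ∧
      ∀ z ∈ strip 0 b, ((Φ z).1 = 0 ↔ z.1 = 0) ∧ ((Φ z).1 = 1 ↔ z.1 = b) := by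
  obtain ⟨O, hO, hi⟩ := h.uib_inj
  have hl : ∀ x ∈ O, Function.invFunOn w O (w x) = x := fun x hx => hi.leftInvOn_invFunOn hx
  have hl' : ∀ p ∈ strip 0 1, Function.invFunOn w O (w p) = p :=
    fun p hp => hl p (mem_of_mem_nhds (hO p hp))
  have key : ∀ p ∈ strip 0 1, ContDiffAt ℝ ∞ (Function.invFunOn w O) (w p) ∧
      (∀ᶠ z' in 𝓝 (w p), w (Function.invFunOn w O z') = z') ∧
      Function.Bijective (fderiv ℝ (Function.invFunOn w O) (w p)) := by
    intro p hp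
    obtain ⟨e, he⟩ := h.equiv hp
    have hs := h.sm p hp
    have hn : (∞ : WithTop ℕ∞) ≠ 0 := by simp
    have g1 := hs.to_localInverse he hn
    have g2 := hs.localInverse_apply_image he hn
    have g3 : ∀ᶠ z in 𝓝 (w p), w (hs.localInverse he hn z) = z :=
      (hs.hasStrictFDerivAt' he hn).eventually_right_inverse
    have g4 : ∀ᶠ z in 𝓝 (w p), hs.localInverse he hn z ∈ O :=
      g1.continuousAt.preimage_mem_nhds (by rw [g2]; exact hO p hp)
    have g5 : Function.invFunOn w O =ᶠ[𝓝 (w p)] hs.localInverse he hn := by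
      filter_upwards [g3, g4] with z h3 h4
      rw [← hl _ h4, h3]
    have g6 := g1.congr_of_eventuallyEq g5
    have g7 : ∀ᶠ z' in 𝓝 (w p), w (Function.invFunOn w O z') = z' := by
      filter_upwards [g3, g5] with z h3 h5
      rw [h5, h3]
    refine ⟨g6, g7, ?_⟩
    rw [(HasFDerivAt.of_local_left_inverse (f' := e) g6.continuousAt (by rw [hl' p hp]; exact he)
      g7).fderiv]
    exact e.symm.bijective
  have hs := h.bijOn.surjOn
  refine ⟨Function.invFunOn w O, ⟨h.hb, h.hτ, ?_, ?_, ?_, ?_⟩, ?_, ?_⟩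
  · intro z hz
    obtain ⟨p, hp, rfl⟩ := hs hz
    exact (key p hp).1
  · intro z hz
    obtain ⟨p, hp, rfl⟩ := hs hz
    exact (key p hp).2.2
  · refine BijOn.symm ⟨fun z hz => ?_, hl'⟩ h.bijOn
    obtain ⟨p, hp, rfl⟩ := hs hz
    rw [hl' p hp]
  · intro z hz
    obtain ⟨p, hp, rfl⟩ := hs hz
    rw [← h.per p hp, hl' p hp, hl' _ (shift_mem hp)]
  · intro z hz
    obtain ⟨p, hp, rfl⟩ := hs hz
    exact (key p hp).2.1
  · intro z hz
    obtain ⟨⟨u, v⟩, hp, rfl⟩ := hs hz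
    rw [hl' _ hp]
    have hb := h.hb
    have h0 : 0 ≤ u := hp.1
    have h1 : u ≤ 1 := hp.2
    rcases h0.eq_or_lt with rfl | h0
    · simp [h.h0, hb.ne]
    rcases h1.eq_or_lt with rfl | h1
    · simp [h.h1, hb.ne']
    · obtain ⟨h2, h3⟩ := h.interior (p := (u, v)) h0 h1
      simp [h0.ne', h1.ne, h2.ne', h3.ne]

end Pool.Agent.Lib.MP_c7e804_gt
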