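import Pool.Agent.Lib.MP_c7e804_gt.H43Int1

/-!
Capacity estimate at a zero.
-/

namespace Pool.Agent.Lib.MP_c7e804_gt

open Set Filter Topology
open scoped ContDiff

/-- The logarithmic energy density. -/
noncomputable def uzcEn (x y : ℝ × ℝ → ℝ) (ε : ℝ) (p : ℝ × ℝ) : ℝ :=
  (du x p ^ 2 + dv x p ^ 2 + du y p ^ 2 + dv y p ^ 2) / (x p ^ 2 + y p ^ 2 + ε ^ 2)

theorem uzc_nonneg (x y : ℝ × ℝ → ℝ) (ε : ℝ) (p : ℝ × ℝ) : 0 ≤ uzcEn x y ε p := by
  unfold uzcEn; positivity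

theorem uzc_cont {x y : ℝ × ℝ → ℝ}
    (hx : ∀ p ∈ strip 0 1, ContDiffAt ℝ ∞ x p) (hy : ∀ p ∈ strip 0 1, ContDiffAt ℝ ∞ y p)
    {ε : ℝ} (hε : 0 < ε) : ContinuousOn (uzcEn x y ε) (strip 0 1) := by
  intro p hp
  have h1 := (hx p hp).continuousAt
  have h2 := (hy p hp).continuousAt
  have h3 := (sm_du (hx p hp)).continuousAt
  have h4 := (sm_dv (hx p hp)).continuousAt
  have h5 := (sm_du (hy p hp)).continuousAt
  have h6 := (sm_dv (hy p hp)).continuousAt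
  refine ContinuousAt.continuousWithinAt ?_
  exact ((((h3.pow 2).add (h4.pow 2)).add (h5.pow 2)).add (h6.pow 2)).div
    (((h1.pow 2).add (h2.pow 2)).add continuousAt_const) (by positivity)

theorem uzc_real {r Q x y a b E : ℝ} (hr : 0 < r) (hQ : 0 < Q) (h1 : x ^ 2 + y ^ 2 ≤ Q)
    (h2 : a ^ 2 + b ^ 2 ≤ 2 * E) : (2 * x * a + 2 * y * b) / Q - r⁻¹ ≤ 2 * (r * (E / Q)) := by
  have h3 : r * (2 * x * a + 2 * y * b) - Q ≤ 2 * r ^ 2 * E := by
    nlinarith [sq_nonneg (x - r * a), sq_nonneg (y - r * b), mul_le_mul_of_nonneg_left h2 (sq_nonneg r)]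
  have e1 : (2 * x * a + 2 * y * b) / Q - r⁻¹ = (r * (2 * x * a + 2 * y * b) - Q) / (r * Q) := by
    field_simp
  have e2 : 2 * (r * (E / Q)) = 2 * r ^ 2 * E / (r * Q) := by field_simp
  rw [e1, e2]
  exact div_le_div_of_nonneg_right h3 (by positivity)

theorem uzc_mem {u d : ℝ} (h0 : u ∈ Icc (0 : ℝ) 1) (h1 : u + d ∈ Icc (0 : ℝ) 1) {r : ℝ}
    (hr : r ∈ Icc (0 : ℝ) 1) : u + d * r ∈ Icc (0 : ℝ) 1 := by
  constructor <;> nlinarith [h0.1, h0.2, h1.1, h1.2, hr.1, hr.2]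

theorem uzc_line {f : ℝ × ℝ → ℝ} {u v d e r : ℝ} (h : DifferentiableAt ℝ f (u + d * r, v + r * e)) :
    HasDerivAt (fun t => f (u + d * t, v + t * e))
      (d * du f (u + d * r, v + r * e) + e * dv f (u + d * r, v + r * e)) r := by
  have h1 : HasDerivAt (fun t : ℝ => ((u + d * t, v + t * e) : ℝ × ℝ)) (d, e) r := by
    refine HasDerivAt.prodMk ?_ ?_
    · simpa using ((hasDerivAt_id r).const_mul d).const_add u
    · simpa using ((hasDerivAt_id r).mul_const e).const_add v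
  have h2 := h.hasFDerivAt.comp_hasDerivAt r h1
  have e1 : ((d, e) : ℝ × ℝ) = d • ((1, 0) : ℝ × ℝ) + e • ((0, 1) : ℝ × ℝ) := by simp
  rw [e1, map_add, map_smul, map_smul] at h2
  exact h2

theorem uzc_contH {F : ℝ × ℝ → ℝ} (hF : ContinuousOn F (strip 0 1)) {u v d : ℝ}
    (h0 : u ∈ Icc (0 : ℝ) 1) (h1 : u + d ∈ Icc (0 : ℝ) 1) :
    ContinuousOn (fun p : ℝ × ℝ => p.1 * F (u + d * p.1, v + p.1 * p.2)) (strip 0 1) :=
  continuousOn_fst.mul (hF.comp (by fun_prop) fun p hp => uzc_mem h0 h1 hp)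

theorem uzc_ray {x y : ℝ × ℝ → ℝ}
    (hx : ∀ p ∈ strip 0 1, ContDiffAt ℝ ∞ x p) (hy : ∀ p ∈ strip 0 1, ContDiffAt ℝ ∞ y p)
    {u v d e ε : ℝ} (h0 : u ∈ Icc (0 : ℝ) 1) (h1 : u + d ∈ Icc (0 : ℝ) 1) (he : |e| ≤ 1)
    (hε : 0 < ε) (hε1 : ε ≤ 1) :
    Real.log (x (u + d, v + e) ^ 2 + y (u + d, v + e) ^ 2 + ε ^ 2) -
      Real.log (x (u + d * ε, v + ε * e) ^ 2 + y (u + d * ε, v + ε * e) ^ 2 + ε ^ 2) +
        Real.log ε ≤ 2 * ∫ r in ε..1, r * uzcEn x y ε (u + d * r, v + r * e) := by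
  have hd : d ^ 2 ≤ 1 := by nlinarith [h0.1, h0.2, h1.1, h1.2]
  have he2 : e ^ 2 ≤ 1 := by nlinarith [abs_nonneg e, sq_abs e]
  have hm : ∀ r ∈ Icc ε 1, ((u + d * r, v + r * e) : ℝ × ℝ) ∈ strip 0 1 := fun r hr =>
    uzc_mem h0 h1 ⟨hε.le.trans hr.1, hr.2⟩
  have hder : ∀ r ∈ Icc ε 1, HasDerivAt (fun t => Real.log (x (u + d * t, v + t * e) ^ 2 +
      y (u + d * t, v + t * e) ^ 2 + ε ^ 2) - Real.log t)
      ((2 * x (u + d * r, v + r * e) *
        (d * du x (u + d * r, v + r * e) + e * dv x (u + d * r, v + r * e)) +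
        2 * y (u + d * r, v + r * e) *
        (d * du y (u + d * r, v + r * e) + e * dv y (u + d * r, v + r * e))) /
        (x (u + d * r, v + r * e) ^ 2 + y (u + d * r, v + r * e) ^ 2 + ε ^ 2) - r⁻¹) r := by
    intro r hr
    have a1 := (uzc_line (sm_diff (hx _ (hm r hr)))).fun_pow 2
    have a2 := (uzc_line (sm_diff (hy _ (hm r hr)))).fun_pow 2
    have a3 := ((a1.fun_add a2).add_const (ε ^ 2)).log (by positivity)
    have a4 := a3.fun_sub (Real.hasDerivAt_log (hε.trans_le hr.1).ne')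
    simpa using a4
  have hc : ContinuousOn (fun r => 2 * (r * uzcEn x y ε (u + d * r, v + r * e))) (Icc ε 1) :=
    continuousOn_const.mul (continuousOn_id.mul
      ((uzc_cont hx hy hε).comp (by fun_prop) fun r hr => hm r hr))
  have key := intervalIntegral.sub_le_integral_of_hasDeriv_right_of_le hε1
    (fun r hr => (hder r hr).continuousAt.continuousWithinAt)
    (fun r hr => (hder r ⟨hr.1.le, hr.2.le⟩).hasDerivWithinAt) hc.integrableOn_Icc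
    (fun r hr => uzc_real (hε.trans hr.1) (by positivity) (by nlinarith [sq_nonneg ε]) (by
      set a := du x (u + d * r, v + r * e)
      set b := dv x (u + d * r, v + r * e)
      set a' := du y (u + d * r, v + r * e)
      set b' := dv y (u + d * r, v + r * e)
      nlinarith [sq_nonneg (d * b - e * a), sq_nonneg (d * b' - e * a'),
        mul_le_mul_of_nonneg_left hd (add_nonneg (add_nonneg (sq_nonneg a) (sq_nonneg b))
          (add_nonneg (sq_nonneg a') (sq_nonneg b'))),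
        mul_le_mul_of_nonneg_left he2 (add_nonneg (add_nonneg (sq_nonneg a) (sq_nonneg b))
          (add_nonneg (sq_nonneg a') (sq_nonneg b')))]))
  rw [intervalIntegral.integral_const_mul] at key
  simp only [mul_one, one_mul, Real.log_one, sub_zero] at key
  linarith

theorem uzc_subst {F : ℝ × ℝ → ℝ} (hF : ContinuousOn F (strip 0 1)) (h0F : ∀ p, 0 ≤ F p)
    {u v d e₁ e₂ ε : ℝ} (h0 : u ∈ Icc (0 : ℝ) 1) (h1 : u + d ∈ Icc (0 : ℝ) 1) (he₁ : -1 ≤ e₁)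
    (he : e₁ ≤ e₂) (he₂ : e₂ ≤ 1) (hε : 0 < ε) (hε1 : ε ≤ 1) :
    |d| * ∫ e in e₁..e₂, ∫ r in ε..1, r * F (u + d * r, v + r * e) ≤
      ∫ s in (0 : ℝ)..1, ∫ t in (v - 1)..(v + 1), F (s, t) := by
  have hH := uzc_contH (v := v) hF h0 h1
  have hεm : ε ∈ Icc (0 : ℝ) 1 := ⟨hε.le, hε1⟩
  have h1m : (1 : ℝ) ∈ Icc (0 : ℝ) 1 := ⟨zero_le_one, le_rfl⟩
  have hI := contOn_int_v hF (v - 1) (v + 1)
  set I : ℝ → ℝ := fun s => ∫ t in (v - 1)..(v + 1), F (s, t) with hIdef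
  have hI0 : ∀ s, 0 ≤ I s := fun s =>
    intervalIntegral.integral_nonneg_of_forall (by linarith) fun t => h0F _
  have hIc : ContinuousOn (fun r => I (u + d * r)) (Icc 0 1) :=
    hI.comp (by fun_prop) fun r hr => uzc_mem h0 h1 hr
  have s1 : ∫ e in e₁..e₂, ∫ r in ε..1, r * F (u + d * r, v + r * e) ≤
      ∫ r in (0 : ℝ)..1, I (u + d * r) := by
    rw [← fubini_strip hH hεm h1m e₁ e₂]
    refine le_trans ?_ (intervalIntegral.integral_mono_interval hε.le hε1 le_rfl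
      (Eventually.of_forall fun r => hI0 _) (hIc.intervalIntegrable_of_Icc zero_le_one))
    refine intervalIntegral.integral_mono_on hε1
      (((contOn_int_v hH e₁ e₂).mono (Icc_subset_Icc_left hε.le)).intervalIntegrable_of_Icc hε1)
      ((hIc.mono (Icc_subset_Icc_left hε.le)).intervalIntegrable_of_Icc hε1) fun r hr => ?_
    have hr0 : 0 ≤ r := hε.le.trans hr.1
    have e1 := intervalIntegral.smul_integral_comp_add_mul (a := e₁) (b := e₂)
      (fun t => F (u + d * r, t)) r v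
    rw [smul_eq_mul] at e1
    show ∫ e in e₁..e₂, r * F (u + d * r, v + r * e) ≤ _
    rw [intervalIntegral.integral_const_mul, e1]
    refine intervalIntegral.integral_mono_interval (by nlinarith [hr.2]) (by nlinarith)
      (by nlinarith [hr.2]) (Eventually.of_forall fun t => h0F _) ?_
    exact (Continuous.intervalIntegrable (continuousOn_univ.1 (hF.comp (by fun_prop)
      fun t _ => uzc_mem h0 h1 ⟨hr0, hr.2⟩)) _ _)
  have e2 := intervalIntegral.smul_integral_comp_add_mul (a := 0) (b := 1) I d u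
  rw [smul_eq_mul, mul_zero, add_zero, mul_one] at e2
  have hint := hI.intervalIntegrable_of_Icc (μ := MeasureTheory.volume) zero_le_one
  refine (mul_le_mul_of_nonneg_left s1 (abs_nonneg d)).trans ?_
  rcases le_total 0 d with hd | hd
  · rw [abs_of_nonneg hd, e2]
    exact intervalIntegral.integral_mono_interval h0.1 (by linarith) h1.2
      (Eventually.of_forall hI0) hint
  · rw [abs_of_nonpos hd, neg_mul, e2, ← intervalIntegral.integral_symm]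
    exact intervalIntegral.integral_mono_interval h1.1 (by linarith) h0.2
      (Eventually.of_forall hI0) hint

theorem uzc_zero {f : ℝ × ℝ → ℝ} {p : ℝ × ℝ} (h : DifferentiableAt ℝ f p) (h0 : f p = 0) :
    ∃ L : ℝ, ∀ᶠ q in 𝓝 p, f q ^ 2 ≤ L ^ 2 * ‖q - p‖ ^ 2 := by
  obtain ⟨L, hL⟩ := h.isBigO_sub.bound
  refine ⟨L, hL.mono fun q hq => ?_⟩
  rw [h0, sub_zero, Real.norm_eq_abs] at hq
  rw [← mul_pow, ← sq_abs]
  exact pow_le_pow_left₀ (abs_nonneg _) hq 2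

/-- Capacity: a bounded logarithmic energy excludes a zero next to a non-zero. -/
theorem uz_capacity {x y : ℝ × ℝ → ℝ}
    (hx : ∀ p ∈ strip 0 1, ContDiffAt ℝ ∞ x p) (hy : ∀ p ∈ strip 0 1, ContDiffAt ℝ ∞ y p)
    {p₀ p₁ : ℝ × ℝ} (hp₀ : p₀ ∈ strip 0 1) (hp₁ : p₁ ∈ strip 0 1)
    (hv : |p₁.2 - p₀.2| ≤ 1 / 2) (hz : x p₀ = 0 ∧ y p₀ = 0) (hn : x p₁ ≠ 0 ∨ y p₁ ≠ 0) {K : ℝ}
    (hK : ∀ ε : ℝ, 0 < ε → ∫ u in (0 : ℝ)..1, ∫ v in (p₀.2 - 1)..(p₀.2 + 1),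
      (du x (u, v) ^ 2 + dv x (u, v) ^ 2 + du y (u, v) ^ 2 + dv y (u, v) ^ 2) /
        (x (u, v) ^ 2 + y (u, v) ^ 2 + ε ^ 2) ≤ K) : False := by
  obtain ⟨u₀, v₀⟩ := p₀
  obtain ⟨u₁, v₁⟩ := p₁
  have hu₀ : u₀ ∈ Icc (0 : ℝ) 1 := hp₀
  have hu₁ : u₁ ∈ Icc (0 : ℝ) 1 := hp₁
  simp only at hv hK
  obtain ⟨hv1, hv2⟩ := abs_le.1 hv
  -- lower bound near the second point
  obtain ⟨η, hη, δ, hδ, hlow⟩ : ∃ η : ℝ, 0 < η ∧ ∃ δ : ℝ, 0 < δ ∧
      ∀ q : ℝ × ℝ, dist q (u₁, v₁) < δ → η < x q ^ 2 + y q ^ 2 := by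
    have hpos : 0 < x (u₁, v₁) ^ 2 + y (u₁, v₁) ^ 2 := by
      rcases hn with h | h <;> positivity
    have hc : ContinuousAt (fun q => x q ^ 2 + y q ^ 2) (u₁, v₁) :=
      ((hx _ hp₁).continuousAt.pow 2).add ((hy _ hp₁).continuousAt.pow 2)
    obtain ⟨δ, hδ, h⟩ := Metric.eventually_nhds_iff.1
      (hc.eventually (lt_mem_nhds (half_lt_self hpos)))
    exact ⟨_, half_pos hpos, δ, hδ, fun q hq => h hq⟩
  obtain ⟨α, hα0, hαδ, hα1⟩ : ∃ α : ℝ, 0 < α ∧ α < δ ∧ α ≤ 1 / 2 :=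
    ⟨min (δ / 2) (1 / 2), by positivity, (min_le_left _ _).trans_lt (half_lt_self hδ),
      min_le_right _ _⟩
  obtain ⟨d, hd0, hd1, hd2⟩ : ∃ d : ℝ, d ≠ 0 ∧ u₀ + d ∈ Icc (0 : ℝ) 1 ∧ |u₀ + d - u₁| ≤ α := by
    by_cases h : u₁ = u₀
    · subst h
      rcases le_total u₁ (1 / 2) with h2 | h2
      · exact ⟨α, hα0.ne', ⟨by linarith [hu₁.1], by linarith⟩, by simp [abs_of_pos hα0]⟩
      · exact ⟨-α, (neg_neg_of_pos hα0).ne, ⟨by linarith, by linarith [hu₁.2]⟩,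
          by simp [abs_of_pos hα0]⟩
    · exact ⟨u₁ - u₀, sub_ne_zero.2 h, by simpa using hu₁, by simpa using hα0.le⟩
  have hdpos : 0 < |d| := abs_pos.2 hd0
  have hdle : |d| ≤ 1 := abs_le.2 ⟨by linarith [hd1.1, hu₀.2], by linarith [hd1.2, hu₀.1]⟩
  -- upper bound near the zero
  obtain ⟨L₁, hL₁⟩ := uzc_zero (sm_diff (hx _ hp₀)) hz.1
  obtain ⟨L₂, hL₂⟩ := uzc_zero (sm_diff (hy _ hp₀)) hz.2
  obtain ⟨r₀, hr₀, hup⟩ := Metric.eventually_nhds_iff.1 (hL₁.and hL₂)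
  set L := L₁ ^ 2 + L₂ ^ 2 + 1 with hL
  have hLpos : 0 < L := by positivity
  set T := Real.log L - Real.log η + K / (4 * α * |d|) * 4 + 1 with hT
  obtain ⟨ε, hε, hε1, hεr, hεT⟩ : ∃ ε : ℝ, 0 < ε ∧ ε ≤ 1 ∧ ε < r₀ ∧ Real.log ε ≤ -T := by
    refine ⟨min (min 1 (r₀ / 2)) (Real.exp (-T)), by positivity,
      (min_le_left _ _).trans (min_le_left _ _),
      ((min_le_left _ _).trans (min_le_right _ _)).trans_lt (half_lt_self hr₀), ?_⟩
    rw [Real.log_le_iff_le_exp (by positivity)]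
    exact min_le_right _ _
  have hpt : ∀ e ∈ Icc (v₁ - v₀ - α) (v₁ - v₀ + α), K / (4 * α * |d|) * 2 + 1 / 2 ≤
      ∫ r in ε..1, r * uzcEn x y ε (u₀ + d * r, v₀ + r * e) := by
    intro e he
    have he1 : |e| ≤ 1 := abs_le.2 ⟨by linarith [he.1], by linarith [he.2]⟩
    have h1 := uzc_ray (v := v₀) hx hy hu₀ hd1 he1 hε hε1
    have h2 : Real.log η ≤
        Real.log (x (u₀ + d, v₀ + e) ^ 2 + y (u₀ + d, v₀ + e) ^ 2 + ε ^ 2) := by
      refine Real.log_le_log hη ?_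
      have := hlow (u₀ + d, v₀ + e) (by
        rw [Prod.dist_eq, Real.dist_eq, Real.dist_eq]
        refine max_lt (hd2.trans_lt hαδ) (lt_of_le_of_lt (abs_le.2 ⟨?_, ?_⟩) hαδ)
        · show -α ≤ v₀ + e - v₁
          linarith [he.1]
        · show v₀ + e - v₁ ≤ α
          linarith [he.2])
      nlinarith [sq_nonneg ε]
    have hn : ‖((u₀ + d * ε, v₀ + ε * e) : ℝ × ℝ) - (u₀, v₀)‖ ≤ ε := by
      rw [Prod.norm_def]
      refine _root_.max_le ?_ ?_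
      · show ‖u₀ + d * ε - u₀‖ ≤ ε
        rw [add_sub_cancel_left, Real.norm_eq_abs, abs_mul, abs_of_pos hε]
        nlinarith
      · show ‖v₀ + ε * e - v₀‖ ≤ ε
        rw [add_sub_cancel_left, Real.norm_eq_abs, abs_mul, abs_of_pos hε]
        nlinarith
    obtain ⟨b1, b2⟩ := hup (y := (u₀ + d * ε, v₀ + ε * e)) (by
      rw [dist_eq_norm]; exact hn.trans_lt hεr)
    have hn2 := pow_le_pow_left₀ (norm_nonneg _) hn 2
    have h3 : Real.log (x (u₀ + d * ε, v₀ + ε * e) ^ 2 + y (u₀ + d * ε, v₀ + ε * e) ^ 2 + ε ^ 2) ≤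
        Real.log L + 2 * Real.log ε := by
      have e1 : Real.log L + 2 * Real.log ε = Real.log (L * ε ^ 2) := by
        rw [Real.log_mul hLpos.ne' (by positivity), Real.log_pow]
        norm_num
      rw [e1]
      refine Real.log_le_log (by positivity) ?_
      nlinarith [mul_le_mul_of_nonneg_left hn2 (sq_nonneg L₁),
        mul_le_mul_of_nonneg_left hn2 (sq_nonneg L₂)]
    linarith
  have hc := cont_int_u (uzc_contH (v := v₀) (uzc_cont hx hy hε) hu₀ hd1)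
    (⟨hε.le, hε1⟩ : ε ∈ Icc (0 : ℝ) 1) (⟨zero_le_one, le_rfl⟩ : (1 : ℝ) ∈ Icc (0 : ℝ) 1)
  have h4 := intervalIntegral.integral_mono_on (μ := MeasureTheory.volume)
    (by linarith : v₁ - v₀ - α ≤ v₁ - v₀ + α) intervalIntegrable_const
    (hc.intervalIntegrable _ _) hpt
  have h5 := uzc_subst (v := v₀) (uzc_cont hx hy hε) (uzc_nonneg x y ε) hu₀ hd1
    (by linarith : -1 ≤ v₁ - v₀ - α) (by linarith : v₁ - v₀ - α ≤ v₁ - v₀ + α)
    (by linarith : v₁ - v₀ + α ≤ 1) hε hε1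
  have h6 := (mul_le_mul_of_nonneg_left h4 hdpos.le).trans (h5.trans (hK ε hε))
  rw [intervalIntegral.integral_const, smul_eq_mul] at h6
  have e2 : |d| * ((v₁ - v₀ + α - (v₁ - v₀ - α)) * (K / (4 * α * |d|) * 2 + 1 / 2)) =
      K + α * |d| := by
    field_simp
    ring
  rw [e2] at h6
  nlinarith [mul_pos hα0 hdpos]

end Pool.Agent.Lib.MP_c7e804_gt
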