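import Pool.Agent.Lib.MP_c7e804_gt.H43UZA
import Pool.Agent.Lib.MP_c7e804_gt.H43UZC

/-!
A solution of a first order elliptic equation on the annulus, real on the boundary, vanishes
identically or nowhere.
-/

namespace Pool.Agent.Lib.MP_c7e804_gt

open Set Filter Topology
open scoped ContDiff

theorem uzb_alg {a b m₁ m₂ r s β M : ℝ} (hβ : 0 < β) (h2 : m₂ ≤ -β) (hM : m₁ ^ 2 + m₂ ^ 2 ≤ M) :
    (m₁ * a - m₂ * b + r) ^ 2 + a ^ 2 + (m₁ * b + m₂ * a + s) ^ 2 + b ^ 2 ≤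
      (2 * M + 1) * (2 / β) * ((m₁ * a - m₂ * b + r) * b - a * (m₁ * b + m₂ * a + s)) +
        ((2 * M + 1) / β ^ 2 + 2) * (r ^ 2 + s ^ 2) := by
  set J := (m₁ * a - m₂ * b + r) * b - a * (m₁ * b + m₂ * a + s) with hJ
  have hn : 0 ≤ a ^ 2 + b ^ 2 := by positivity
  have hM0 : 0 ≤ M := le_trans (by positivity) hM
  have h1 : β ^ 2 * (a ^ 2 + b ^ 2) ≤ 2 * β * J + (r ^ 2 + s ^ 2) := by
    have h3 : 0 ≤ β * (-m₂ - β) * (a ^ 2 + b ^ 2) :=
      mul_nonneg (mul_nonneg hβ.le (by linarith)) hn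
    rw [hJ]
    nlinarith [sq_nonneg (β * b + r), sq_nonneg (β * a - s)]
  have h4 : a ^ 2 + b ^ 2 ≤ 2 / β * J + (r ^ 2 + s ^ 2) / β ^ 2 := by
    have e : 2 / β * J + (r ^ 2 + s ^ 2) / β ^ 2 = (2 * β * J + (r ^ 2 + s ^ 2)) / β ^ 2 := by
      field_simp
    rw [e, le_div_iff₀ (by positivity)]
    linarith
  have h5 : (m₁ * a - m₂ * b + r) ^ 2 + (m₁ * b + m₂ * a + s) ^ 2 ≤
      2 * M * (a ^ 2 + b ^ 2) + 2 * (r ^ 2 + s ^ 2) := by
    have h6 := mul_le_mul_of_nonneg_right hM hn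
    nlinarith [sq_nonneg (m₁ * a - m₂ * b - r), sq_nonneg (m₁ * b + m₂ * a - s)]
  have h7 := mul_le_mul_of_nonneg_left h4 (by positivity : 0 ≤ 2 * M + 1)
  have e : (2 * M + 1) * (2 / β) * J + ((2 * M + 1) / β ^ 2 + 2) * (r ^ 2 + s ^ 2) =
      (2 * M + 1) * (2 / β * J + (r ^ 2 + s ^ 2) / β ^ 2) + 2 * (r ^ 2 + s ^ 2) := by ring
  rw [e]
  linarith

theorem uzb_clm {q : ℝ × ℝ → ℂ} {p : ℝ × ℝ} (L : ℂ →L[ℝ] ℝ) (h : DifferentiableAt ℝ q p)
    (w : ℝ × ℝ) : fderiv ℝ (fun z => L (q z)) p w = L (fderiv ℝ q p w) := by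
  have h1 : HasFDerivAt (fun z => L (q z)) _ p := L.hasFDerivAt.comp p h.hasFDerivAt
  rw [h1.fderiv]
  rfl

theorem uzb_shift {q : ℝ × ℝ → ℂ} (pq : Per 0 1 1 q) {p : ℝ × ℝ} (hp : p ∈ strip 0 1) (k : ℤ) :
    q (p.1, p.2 + k) = q p := by
  have h : Function.Periodic (fun v => q (p.1, v)) 1 := fun v => pq (p.1, v) hp
  have := h.int_mul k p.2
  simpa using this

theorem uzb_line {f : ℝ × ℝ → ℝ} (h : ContinuousOn f (strip 0 1)) {u : ℝ} (hu : u ∈ Icc (0 : ℝ) 1) :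
    Continuous (fun v => f (u, v)) :=
  h.comp_continuous (continuous_const.prodMk continuous_id) (fun _ => hu)

theorem uzb_int {f g : ℝ × ℝ → ℝ} (hf : ContinuousOn f (strip 0 1))
    (hg : ContinuousOn g (strip 0 1)) {v₀ K₁ K₂ : ℝ}
    (h : ∀ u ∈ Icc (0 : ℝ) 1, ∀ v ∈ Icc (v₀ - 1) (v₀ + 1), f (u, v) ≤ K₁ * g (u, v) + K₂)
    (h0 : ∫ u in (0 : ℝ)..1, ∫ v in (v₀ - 1)..(v₀ + 1), g (u, v) = 0) :
    ∫ u in (0 : ℝ)..1, ∫ v in (v₀ - 1)..(v₀ + 1), f (u, v) ≤ 2 * K₂ := by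
  have hF := (contOn_int_v hf (v₀ - 1) (v₀ + 1)).intervalIntegrable_of_Icc
    (μ := MeasureTheory.volume) zero_le_one
  have hG := (contOn_int_v hg (v₀ - 1) (v₀ + 1)).intervalIntegrable_of_Icc
    (μ := MeasureTheory.volume) zero_le_one
  have h1 : ∫ u in (0 : ℝ)..1, ∫ v in (v₀ - 1)..(v₀ + 1), f (u, v) ≤
      ∫ u in (0 : ℝ)..1, (K₁ * (∫ v in (v₀ - 1)..(v₀ + 1), g (u, v)) + 2 * K₂) := by
    refine intervalIntegral.integral_mono_on zero_le_one hF
      ((hG.const_mul K₁).add intervalIntegrable_const) fun u hu => ?_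
    have a1 := (uzb_line hf hu).intervalIntegrable (μ := MeasureTheory.volume) (v₀ - 1) (v₀ + 1)
    have a2 := (uzb_line hg hu).intervalIntegrable (μ := MeasureTheory.volume) (v₀ - 1) (v₀ + 1)
    have a3 := intervalIntegral.integral_mono_on (by linarith : v₀ - 1 ≤ v₀ + 1) a1
      ((a2.const_mul K₁).add (intervalIntegrable_const (c := K₂))) (h u hu)
    rw [intervalIntegral.integral_add (a2.const_mul K₁) intervalIntegrable_const,
      intervalIntegral.integral_const_mul, intervalIntegral.integral_const, smul_eq_mul] at a3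
    linarith
  rw [intervalIntegral.integral_add (hG.const_mul K₁) intervalIntegrable_const,
    intervalIntegral.integral_const_mul, h0, intervalIntegral.integral_const, smul_eq_mul] at h1
  linarith

theorem zero_or_nowhere {q m c : ℝ × ℝ → ℂ}
    (hq : ∀ p ∈ strip 0 1, ContDiffAt ℝ ∞ q p) (pq : Per 0 1 1 q)
    (hm : ContinuousOn m (strip 0 1)) (hc : ContinuousOn c (strip 0 1))
    (him : ∀ p ∈ strip 0 1, (m p).im < 0)
    (heq : ∀ p ∈ strip 0 1, du q p = m p * dv q p + c p * q p)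
    (h0 : ∀ v, (q (0, v)).im = 0) (h1 : ∀ v, (q (1, v)).im = 0) :
    (∀ p ∈ strip 0 1, q p = 0) ∨ (∀ p ∈ strip 0 1, q p ≠ 0) := by
  by_contra hcon
  rw [not_or] at hcon
  obtain ⟨hA, hB⟩ := hcon
  push Not at hA hB
  obtain ⟨p₁, hp₁, hq₁⟩ := hA
  obtain ⟨p₀, hp₀, hq₀⟩ := hB
  set x : ℝ × ℝ → ℝ := fun p => Complex.reCLM (q p) with hxd
  set y : ℝ × ℝ → ℝ := fun p => Complex.imCLM (q p) with hyd
  have hx : ∀ p ∈ strip 0 1, ContDiffAt ℝ ∞ x p := fun p hp =>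
    Complex.reCLM.contDiff.contDiffAt.comp p (hq p hp)
  have hy : ∀ p ∈ strip 0 1, ContDiffAt ℝ ∞ y p := fun p hp =>
    Complex.imCLM.contDiff.contDiffAt.comp p (hq p hp)
  have px : Per 0 1 1 x := fun p hp => by simp only [hxd, pq p hp]
  have py : Per 0 1 1 y := fun p hp => by simp only [hyd, pq p hp]
  set R : Set (ℝ × ℝ) := Icc (0 : ℝ) 1 ×ˢ Icc (p₀.2 - 1) (p₀.2 + 1) with hR
  have hRc : IsCompact R := isCompact_Icc.prod isCompact_Icc
  have hRs : R ⊆ strip 0 1 := fun p hp => hp.1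
  have hRn : R.Nonempty := ⟨p₀, hp₀, by constructor <;> linarith⟩
  obtain ⟨z, hz, hz'⟩ := hRc.exists_isMaxOn hRn
    (Complex.continuous_im.comp_continuousOn (hm.mono hRs))
  obtain ⟨M, hM⟩ := hRc.exists_bound_of_continuousOn (hm.mono hRs)
  obtain ⟨C, hC⟩ := hRc.exists_bound_of_continuousOn (hc.mono hRs)
  set β : ℝ := -(m z).im with hβd
  have hβ : 0 < β := neg_pos.2 (him z (hRs hz))
  set K₁ : ℝ := (2 * M ^ 2 + 1) * (2 / β) with hK₁
  set K₂ : ℝ := ((2 * M ^ 2 + 1) / β ^ 2 + 2) * C ^ 2 with hK₂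
  have key : ∀ p ∈ R, du x p ^ 2 + dv x p ^ 2 + du y p ^ 2 + dv y p ^ 2 ≤
      K₁ * (du x p * dv y p - dv x p * du y p) + K₂ * (x p ^ 2 + y p ^ 2) := by
    intro p hp
    have hd := sm_diff (hq p (hRs hp))
    have e1 : du x p = (du q p).re := uzb_clm Complex.reCLM hd _
    have e2 : dv x p = (dv q p).re := uzb_clm Complex.reCLM hd _
    have e3 : du y p = (du q p).im := uzb_clm Complex.imCLM hd _
    have e4 : dv y p = (dv q p).im := uzb_clm Complex.imCLM hd _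
    have b1 : (m p).im ≤ -β := by
      have : (m p).im ≤ (m z).im := hz' hp
      linarith
    have b2 : (m p).re ^ 2 + (m p).im ^ 2 ≤ M ^ 2 := by
      have h1 := pow_le_pow_left₀ (norm_nonneg _) (hM p hp) 2
      rw [Complex.sq_norm, Complex.normSq_apply] at h1
      linarith
    have b3 : (c p * q p).re ^ 2 + (c p * q p).im ^ 2 ≤ C ^ 2 * (x p ^ 2 + y p ^ 2) := by
      have h1 := pow_le_pow_left₀ (norm_nonneg _) (hC p hp) 2
      rw [Complex.sq_norm, Complex.normSq_apply] at h1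
      have h2 := mul_le_mul_of_nonneg_right h1 (by positivity : 0 ≤ x p ^ 2 + y p ^ 2)
      refine le_trans (le_of_eq ?_) h2
      simp only [hxd, hyd, Complex.reCLM_apply, Complex.imCLM_apply, Complex.mul_re, Complex.mul_im]
      ring
    have b4 := uzb_alg (a := (dv q p).re) (b := (dv q p).im) (r := (c p * q p).re)
      (s := (c p * q p).im) hβ b1 b2
    have b5 := mul_le_mul_of_nonneg_left b3
      (by positivity : 0 ≤ (2 * M ^ 2 + 1) / β ^ 2 + 2)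
    have e5 : (du q p).re = (m p).re * (dv q p).re - (m p).im * (dv q p).im + (c p * q p).re := by
      rw [heq p (hRs hp), Complex.add_re, Complex.mul_re]
    have e6 : (du q p).im = (m p).re * (dv q p).im + (m p).im * (dv q p).re + (c p * q p).im := by
      rw [heq p (hRs hp), Complex.add_im, Complex.mul_im]
    rw [e1, e2, e3, e4, e5, e6, hK₁, hK₂]
    linarith
  have hK₂0 : 0 ≤ K₂ := by positivity
  have cs : ∀ {f : ℝ × ℝ → ℝ}, (∀ p ∈ strip 0 1, ContDiffAt ℝ ∞ f p) →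
      ContinuousOn f (strip 0 1) := fun h p hp => (h p hp).continuousAt.continuousWithinAt
  have cx := cs hx
  have cy := cs hy
  have cxu := cs fun p hp => sm_du (hx p hp)
  have cxv := cs fun p hp => sm_dv (hx p hp)
  have cyu := cs fun p hp => sm_du (hy p hp)
  have cyv := cs fun p hp => sm_dv (hy p hp)
  refine uz_capacity hx hy (p₁ := (p₁.1, p₁.2 + (round (p₀.2 - p₁.2) : ℤ))) hp₀ hp₁ ?_ ?_ ?_
    (K := 2 * K₂) fun ε hε => ?_
  · have h1 := abs_sub_round (p₀.2 - p₁.2)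
    rw [abs_sub_comm] at h1
    refine le_trans (le_of_eq ?_) h1
    congr 1
    ring
  · simp [hxd, hyd, hq₀]
  · by_contra hcon
    push Not at hcon
    simp only [hxd, hyd, uzb_shift pq hp₁, Complex.reCLM_apply, Complex.imCLM_apply] at hcon
    exact hq₁ (Complex.ext hcon.1 hcon.2)
  · have hden : ∀ p : ℝ × ℝ, 0 < x p ^ 2 + y p ^ 2 + ε ^ 2 := fun p => by positivity
    have cd : ContinuousOn (fun p => x p ^ 2 + y p ^ 2 + ε ^ 2) (strip 0 1) :=
      ((cx.pow 2).add (cy.pow 2)).add continuousOn_const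
    refine uzb_int
      (f := fun p => (du x p ^ 2 + dv x p ^ 2 + du y p ^ 2 + dv y p ^ 2) /
        (x p ^ 2 + y p ^ 2 + ε ^ 2))
      (g := fun p => (du x p * dv y p - dv x p * du y p) / (x p ^ 2 + y p ^ 2 + ε ^ 2))
      (K₁ := K₁)
      (((((cxu.pow 2).add (cxv.pow 2)).add (cyu.pow 2)).add (cyv.pow 2)).div cd
        fun p _ => (hden p).ne')
      (((cxu.mul cyv).sub (cxv.mul cyu)).div cd fun p _ => (hden p).ne') (fun u hu v hv => ?_)
      (uz_stokes hx hy px py h0 h1 hε p₀.2)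
    have h2 := key (u, v) ⟨hu, hv⟩
    have h3 := hden (u, v)
    rw [div_le_iff₀ h3, add_mul, mul_assoc, div_mul_cancel₀ _ h3.ne']
    have h4 : 0 ≤ K₂ * ε ^ 2 := by positivity
    linarith

end Pool.Agent.Lib.MP_c7e804_gt
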