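import Pool.Agent.Lib.MP_c7e804_gt.H43UCo
import Pool.Agent.Lib.MP_c7e804_gt.H43UConf
import Pool.Agent.Lib.MP_c7e804_gt.H43UFrA
import Pool.Agent.Lib.MP_c7e804_gt.H43UInvB
import Pool.Agent.Lib.MP_c7e804_gt.H43UZB
import Pool.Agent.Lib.MP_c7e804_gt.H43OFin

/-!
Uniformisation of a constant-angle minimal annulus and the main theorem in an arbitrary
parametrisation.
-/

namespace Pool.Agent.Lib.MP_c7e804_gt

open Matrix Set Filter Topology Complex
open scoped ContDiff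

section
variable {X N f1 f2 : ℝ × ℝ → V3} {A B g x y : ℝ × ℝ → ℝ}

/-- no umbilic point, unless all points are umbilic -/
theorem UFrame.umbilic (h : UFrame X N f1 f2 A B g x y) :
    (∀ p ∈ strip 0 1, cx x y p = 0) ∨ (∀ p ∈ strip 0 1, cx x y p ≠ 0) := by
  obtain ⟨T, hTc, hT⟩ := h.structure_eq
  have hv : ∀ p ∈ strip 0 1, cx (fun _ => 0) g p ≠ 0 := fun p hp e =>
    (h.hg p hp).ne' (by simpa [cx_im] using congrArg Complex.im e)
  have cu : ContinuousOn (cx A B) (strip 0 1) := fun p hp =>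
    (sm_cx (h.sA p hp) (h.sB p hp)).continuousAt.continuousWithinAt
  have cv : ContinuousOn (cx (fun _ => 0) g) (strip 0 1) := fun p hp =>
    (sm_cx contDiffAt_const (h.sg p hp)).continuousAt.continuousWithinAt
  refine zero_or_nowhere (m := fun p => cx A B p / cx (fun _ => 0) g p)
    (c := fun p => -(2 * I * T p) / cx (fun _ => 0) g p)
    (fun p hp => sm_cx (h.sx p hp) (h.sy p hp)) (per_cx h.px h.py) (cu.div cv hv)
    ((continuousOn_const.mul hTc).neg.div cv hv) (fun p hp => ?_) (fun p hp => ?_)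
    (fun v => by rw [cx_im, h.y0]) (fun v => by rw [cx_im, h.y1])
  · have hg := h.hg p hp
    have hA := h.hA p hp
    have : (cx A B p / cx (fun _ => 0) g p).im = -(A p / g p) := by
      rw [Complex.div_im, Complex.normSq_apply]
      simp only [cx_re, cx_im]
      field_simp; ring
    rw [this]
    exact neg_neg_of_pos (div_pos hA hg)
  · have := hv p hp
    field_simp
    linear_combination -(hT p hp).2

theorem uma_conf {W E : ℝ × ℝ → ℂ} {Φ : ℝ × ℝ → ℝ × ℝ} {b τ : ℝ} (hΦ : Reparam Φ b τ)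
    (hW : ∀ p ∈ strip 0 1, DifferentiableAt ℝ W p ∧ E p ≠ 0 ∧ du W p = E p * cx A B p ∧
      dv W p = E p * cx (fun _ => 0) g p)
    (hinv : ∀ z ∈ strip 0 b, ∀ᶠ z' in 𝓝 z, ((W (Φ z')).re, (W (Φ z')).im) = z') :
    UConf Φ b A B g := by
  intro z hz
  obtain ⟨dW, hE, hu, hv⟩ := hW _ (hΦ.bij.mapsTo hz)
  have dΦ := sm_diff (hΦ.smooth z hz)
  have key : ∀ k : ℝ × ℝ,
      (((fderiv ℝ Φ z k).1 * A (Φ z) : ℝ) : ℂ) +
        (((fderiv ℝ Φ z k).1 * B (Φ z) + (fderiv ℝ Φ z k).2 * g (Φ z) : ℝ) : ℂ) * I =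
      (E (Φ z))⁻¹ * (k.1 + k.2 * I) := by
    intro k
    have e1 : (fun z' => W (Φ z')) =ᶠ[𝓝 z] fun z' => (z'.1 : ℂ) + (z'.2 : ℂ) * I := by
      filter_upwards [hinv z hz] with z' hz'
      have a := congrArg Prod.fst hz'
      have c := congrArg Prod.snd hz'
      simp only at a c
      rw [← a, ← c]; exact (Complex.re_add_im _).symm
    have e2 : HasFDerivAt (fun z' : ℝ × ℝ => (z'.1 : ℂ) + (z'.2 : ℂ) * I)
        (ofRealCLM.comp (ContinuousLinearMap.fst ℝ ℝ ℝ) +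
          (I : ℂ) • ofRealCLM.comp (ContinuousLinearMap.snd ℝ ℝ ℝ)) z := by
      have := (ofRealCLM.comp (ContinuousLinearMap.fst ℝ ℝ ℝ) +
          (I : ℂ) • ofRealCLM.comp (ContinuousLinearMap.snd ℝ ℝ ℝ)).hasFDerivAt (x := z)
      refine this.congr_of_eventuallyEq (Eventually.of_forall fun z' => ?_)
      simp [mul_comm]
    have e3 := ucf_chain dW dΦ k
    rw [e1.fderiv_eq, e2.fderiv, ucf_fderiv W, hu, hv] at e3
    simp only [ContinuousLinearMap.add_apply, ContinuousLinearMap.comp_apply,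
      ContinuousLinearMap.smul_apply, ContinuousLinearMap.coe_fst', ContinuousLinearMap.coe_snd',
      ofRealCLM_apply, smul_eq_mul, real_smul, cx] at e3
    field_simp
    push_cast at e3 ⊢
    linear_combination -e3
  have k1 := key (1, 0)
  have k2 := key (0, 1)
  refine ⟨(E (Φ z))⁻¹.re, (E (Φ z))⁻¹.im, ?_, ?_, ?_, ?_, ?_⟩
  · have := Complex.normSq_pos.2 (inv_ne_zero hE)
    rw [Complex.normSq_apply] at this; nlinarith
  · simpa [du, -Complex.inv_re, -Complex.inv_im] using congrArg Complex.re k1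
  · simpa [du, -Complex.inv_re, -Complex.inv_im] using congrArg Complex.im k1
  · simpa [dv, -Complex.inv_re, -Complex.inv_im] using congrArg Complex.re k2
  · simpa [dv, -Complex.inv_re, -Complex.inv_im] using congrArg Complex.im k2

end

theorem uma_id : Reparam id 1 1 :=
  ⟨one_pos, one_pos, fun _ _ => contDiffAt_id, fun _ _ => by
    rw [fderiv_id]; exact Function.bijective_id, bijOn_id _, fun _ _ => rfl⟩

theorem textbook_main {X : ℝ × ℝ → V3} {θ : ℝ} (hX : MinAnnulus X θ) (he : Embedded X 0 1 1) :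
    ∃ (e : V3) (Φ : ℝ × ℝ → ℝ × ℝ) (b τ : ℝ), e ≠ 0 ∧ Reparam Φ b τ ∧ ∀ u ∈ Icc 0 b,
      CurvatureLine X (fun v => Φ (u, v)) ∧ SphericalAbout e (fun v => X (Φ (u, v))) := by
  obtain ⟨f1, f2, A, B, g, x, y, h⟩ := hX.frame
  rcases h.umbilic with h0 | hn
  · have hx : ∀ p ∈ strip 0 1, x p = 0 := fun p hp => by
      simpa [cx_re] using congrArg Complex.re (h0 p hp)
    have hy : ∀ p ∈ strip 0 1, y p = 0 := fun p hp => by
      simpa [cx_im] using congrArg Complex.im (h0 p hp)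
    have nu : ∀ p ∈ strip 0 1, du (unitN X) p = 0 := fun p hp => by
      rw [h.Nu p hp, hx p hp, hy p hp]; simp
    have nv : ∀ p ∈ strip 0 1, dv (unitN X) p = 0 := fun p hp => by
      rw [h.Nv p hp, hx p hp, hy p hp]; simp
    have hc := (PD.of_sm h.sN).eq_of_zero nu nv
    refine ⟨unitN X (0, 0), id, 1, 1, fun e => ?_, uma_id, fun u hu => ⟨fun t => ⟨0, ?_⟩, ?_⟩⟩
    · have := (h.fr _ (uco_m0 0)).NN
      rw [e] at this; simp at this
    · have hp : ((u, t) : ℝ × ℝ) ∈ strip 0 1 := hu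
      have := (hasDerivAt_line_v (sm_diff (h.sN _ hp))).deriv
      simp only [id]
      rw [this, nv _ hp, zero_smul]
    · refine Or.inr ⟨unitN X (0, 0) ⬝ᵥ X (u, 0), fun v => ?_⟩
      have hs : ∀ p ∈ strip 0 1, ContDiffAt ℝ ∞ (fun r => unitN X (0, 0) ⬝ᵥ X r) p :=
        fun p hp => sm_dot contDiffAt_const (h.sX p hp)
      refine (PD.of_sm hs).line_const hu (fun t => ?_) v 0
      have hp : ((u, t) : ℝ × ℝ) ∈ strip 0 1 := hu
      rw [((HasD.const _).dot (hasD_dv (sm_diff (h.sX _ hp)))).dv_eq, ← hc _ hp _ (uco_m0 0),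
        dotProduct_comm (unitN X (u, t)), hX.vN hp]
      simp
  · obtain ⟨W, E, b, τ, hw, hW⟩ := h.coord hn
    obtain ⟨Φ, hΦ, hinv, hbd⟩ := hw.inverse
    have hc := uma_conf hΦ hW hinv
    obtain ⟨e, he0, hF⟩ := full_main (ucf_cap hX h hΦ hc hbd) (ucf_embedded he hΦ)
    exact ⟨e, Φ, b, τ, he0, hΦ, fun u hu => ucf_lines hX h hΦ hc hbd hF hu⟩

end Pool.Agent.Lib.MP_c7e804_gt
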