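import Pool.Agent.Lib.MP_c7e804_gt.H43Int1

/-!
A weighted Jacobian integrates to zero.
-/

namespace Pool.Agent.Lib.MP_c7e804_gt

open Set Filter Topology
open scoped ContDiff

/-- The primitive of the weight in the second variable. -/
noncomputable def uza_B (ε : ℝ) (z : ℝ × ℝ) : ℝ :=
  Real.arctan (z.2 / Real.sqrt (z.1 ^ 2 + ε ^ 2)) / Real.sqrt (z.1 ^ 2 + ε ^ 2)

theorem uza_smooth {ε : ℝ} (hε : 0 < ε) : ContDiff ℝ ∞ (uza_B ε) := by
  have h0 : ∀ z : ℝ × ℝ, z.1 ^ 2 + ε ^ 2 ≠ 0 := fun z => by positivity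
  have h1 : ContDiff ℝ ∞ fun z : ℝ × ℝ => Real.sqrt (z.1 ^ 2 + ε ^ 2) :=
    ((contDiff_fst.pow 2).add contDiff_const).sqrt h0
  have h2 : ∀ z : ℝ × ℝ, Real.sqrt (z.1 ^ 2 + ε ^ 2) ≠ 0 := fun z => by positivity
  exact (Real.contDiff_arctan.comp (contDiff_snd.div h1 h2)).div h1 h2

theorem uza_dv {ε : ℝ} (hε : 0 < ε) (s t : ℝ) :
    dv (uza_B ε) (s, t) = 1 / (s ^ 2 + t ^ 2 + ε ^ 2) := by
  have h1 := hasDerivAt_line_v (f := uza_B ε) (u := s) (v := t)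
    (sm_diff (uza_smooth hε).contDiffAt)
  have hp : 0 < s ^ 2 + ε ^ 2 := by positivity
  have ha : 0 < Real.sqrt (s ^ 2 + ε ^ 2) := Real.sqrt_pos.mpr hp
  have h2 : HasDerivAt (fun r : ℝ => uza_B ε (s, r))
      (1 / (1 + (t / Real.sqrt (s ^ 2 + ε ^ 2)) ^ 2) * (1 / Real.sqrt (s ^ 2 + ε ^ 2)) /
        Real.sqrt (s ^ 2 + ε ^ 2)) t := by
    have := (((hasDerivAt_id' t).div_const (Real.sqrt (s ^ 2 + ε ^ 2))).arctan).div_const
      (Real.sqrt (s ^ 2 + ε ^ 2))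
    exact this
  rw [h1.unique h2]
  have h3 := Real.sq_sqrt hp.le
  set a := Real.sqrt (s ^ 2 + ε ^ 2)
  have h4 : s ^ 2 + t ^ 2 + ε ^ 2 = a ^ 2 + t ^ 2 := by linarith
  rw [h4]
  field_simp

theorem uza_chain {x y : ℝ × ℝ → ℝ} {ε : ℝ} (hε : 0 < ε) {p : ℝ × ℝ}
    (hx : DifferentiableAt ℝ x p) (hy : DifferentiableAt ℝ y p) (w : ℝ × ℝ) :
    fderiv ℝ (fun q => uza_B ε (x q, y q)) p w =
      fderiv ℝ x p w * du (uza_B ε) (x p, y p) +
        fderiv ℝ y p w * (1 / (x p ^ 2 + y p ^ 2 + ε ^ 2)) := by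
  have h1 : HasFDerivAt (fun q => uza_B ε (x q, y q)) _ p :=
    (sm_diff (uza_smooth hε).contDiffAt).hasFDerivAt.comp p
      (hx.hasFDerivAt.prodMk hy.hasFDerivAt)
  rw [h1.fderiv, ← uza_dv hε]
  have e : ((fderiv ℝ x p).prod (fderiv ℝ y p)) w =
      fderiv ℝ x p w • ((1, 0) : ℝ × ℝ) + fderiv ℝ y p w • ((0, 1) : ℝ × ℝ) := by
    ext <;> simp
  rw [ContinuousLinearMap.comp_apply, e, map_add, map_smul, map_smul]
  rfl

/-- Stokes: the Jacobian against the weight `1 / (x ^ 2 + y ^ 2 + ε ^ 2)` integrates to zero over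
two periods. -/
theorem uz_stokes {x y : ℝ × ℝ → ℝ}
    (hx : ∀ p ∈ strip 0 1, ContDiffAt ℝ ∞ x p) (hy : ∀ p ∈ strip 0 1, ContDiffAt ℝ ∞ y p)
    (px : Per 0 1 1 x) (py : Per 0 1 1 y)
    (h0 : ∀ v, y (0, v) = 0) (h1 : ∀ v, y (1, v) = 0) {ε : ℝ} (hε : 0 < ε) (v₀ : ℝ) :
    ∫ u in (0 : ℝ)..1, ∫ v in (v₀ - 1)..(v₀ + 1),
      (du x (u, v) * dv y (u, v) - dv x (u, v) * du y (u, v)) /
        (x (u, v) ^ 2 + y (u, v) ^ 2 + ε ^ 2) = 0 := by
  set b : ℝ × ℝ → ℝ := fun q => uza_B ε (x q, y q) with hb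
  have sb : ∀ p ∈ strip 0 1, ContDiffAt ℝ ∞ b p := fun p hp =>
    (uza_smooth hε).contDiffAt.comp p ((hx p hp).prodMk (hy p hp))
  set P : ℝ × ℝ → ℝ := fun q => b q * du x q with hP
  set Q : ℝ × ℝ → ℝ := fun q => b q * dv x q with hQ
  have sP : ∀ p ∈ strip 0 1, ContDiffAt ℝ ∞ P p := fun p hp => (sb p hp).mul (sm_du (hx p hp))
  have sQ : ∀ p ∈ strip 0 1, ContDiffAt ℝ ∞ Q p := fun p hp => (sb p hp).mul (sm_dv (hx p hp))
  have key : ∀ p ∈ strip 0 1, (du x p * dv y p - dv x p * du y p) /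
      (x p ^ 2 + y p ^ 2 + ε ^ 2) = dv P p - du Q p := by
    intro p hp
    rw [((hasD_dv (sm_diff (sb p hp))).mul (hasD_dv (sm_diff (sm_du (hx p hp))))).dv_eq,
      ((hasD_du (sm_diff (sb p hp))).mul (hasD_du (sm_diff (sm_dv (hx p hp))))).du_eq,
      du_dv_comm (hx p hp)]
    have e1 : du b p = du x p * du (uza_B ε) (x p, y p) +
        du y p * (1 / (x p ^ 2 + y p ^ 2 + ε ^ 2)) :=
      uza_chain hε (sm_diff (hx p hp)) (sm_diff (hy p hp)) (1, 0)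
    have e2 : dv b p = dv x p * du (uza_B ε) (x p, y p) +
        dv y p * (1 / (x p ^ 2 + y p ^ 2 + ε ^ 2)) :=
      uza_chain hε (sm_diff (hx p hp)) (sm_diff (hy p hp)) (0, 1)
    rw [e1, e2]
    ring
  have pP : Per 0 1 1 P := by
    intro p hp
    simp only [hP, hb]
    rw [px p hp, py p hp, Per.du one_pos (fun q hq => sm_diff (hx q hq)) px p hp]
  have dP := PD.of_sm sP
  have dQ := PD.of_sm sQ
  have m0 : (0 : ℝ) ∈ Icc (0 : ℝ) 1 := ⟨le_rfl, zero_le_one⟩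
  have m1 : (1 : ℝ) ∈ Icc (0 : ℝ) 1 := ⟨zero_le_one, le_rfl⟩
  have inner : ∀ u ∈ uIcc (0 : ℝ) 1, ∫ v in (v₀ - 1)..(v₀ + 1),
      (du x (u, v) * dv y (u, v) - dv x (u, v) * du y (u, v)) /
        (x (u, v) ^ 2 + y (u, v) ^ 2 + ε ^ 2) = -∫ v in (v₀ - 1)..(v₀ + 1), du Q (u, v) := by
    intro u hu
    rw [uIcc_of_le zero_le_one] at hu
    have c1 : Continuous fun v => dv P (u, v) := continuous_iff_continuousAt.mpr fun v =>
      (sm_dv (sP (u, v) hu)).continuousAt.comp (f := fun v : ℝ => ((u, v) : ℝ × ℝ)) (by fun_prop)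
    have c2 : Continuous fun v => du Q (u, v) := continuous_iff_continuousAt.mpr fun v =>
      (sm_du (sQ (u, v) hu)).continuousAt.comp (f := fun v : ℝ => ((u, v) : ℝ × ℝ)) (by fun_prop)
    rw [intervalIntegral.integral_congr (g := fun v => dv P (u, v) - du Q (u, v))
      (fun v _ => key (u, v) hu),
      intervalIntegral.integral_sub (c1.intervalIntegrable _ _) (c2.intervalIntegrable _ _),
      dP.int_v hu]
    have e1 := pP (u, v₀) hu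
    have e2 := pP (u, v₀ - 1) hu
    simp only [sub_add_cancel] at e1 e2
    rw [e1, e2]
    ring
  rw [intervalIntegral.integral_congr inner, intervalIntegral.integral_neg,
    fubini_strip dQ.contu m0 m1, neg_eq_zero]
  have z : ∀ v, ∫ r in (0 : ℝ)..1, du Q (r, v) = 0 := by
    intro v
    rw [dQ.int_u m0 m1]
    simp [hQ, hb, uza_B, h0, h1]
  simp [z]

end Pool.Agent.Lib.MP_c7e804_gt
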