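import Pool.Agent.Lib.MP_c7e804_gt.H43Geo

/-!
The vector attached to a solution of the third order equation.
-/

namespace Pool.Agent.Lib.MP_c7e804_gt

open Matrix Set Complex
open scoped ContDiff ComplexConjugate

theorem xlax1_du_sum {a b τ : ℝ} {ι : Type} (s : Finset ι) (c : ι → ℂ) {T : ι → ℝ × ℝ → ℂ}
    (hT : ∀ i ∈ s, Hol a b τ (T i)) :
    ∀ r ∈ strip a b, du (fun r => ∑ i ∈ s, c i * T i r) r = ∑ i ∈ s, c i * du (T i) r := by
  intro r hr
  rw [Hol.du_sum s (fun i hi => (hT i hi).const_mul (c i)) hr]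
  exact Finset.sum_congr rfl fun i hi => (hT i hi).du_const_mul (c i) hr

theorem xlax1_du2_sum {a b τ : ℝ} (hab : a < b) {ι : Type} (s : Finset ι) (c : ι → ℂ)
    {T : ι → ℝ × ℝ → ℂ} (hT : ∀ i ∈ s, Hol a b τ (T i)) :
    ∀ r ∈ strip a b,
      du (du (fun r => ∑ i ∈ s, c i * T i r)) r = ∑ i ∈ s, c i * du (du (T i)) r := by
  intro r hr
  rw [Hol.du_congr hab ((Hol.sum s fun i hi => (hT i hi).const_mul (c i)).du hab)
    (Hol.sum s fun i hi => ((hT i hi).du hab).const_mul (c i)) (xlax1_du_sum s c hT) r hr]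
  exact xlax1_du_sum s c (fun i hi => (hT i hi).du hab) r hr

theorem xlax1_du3_sum {a b τ : ℝ} (hab : a < b) {ι : Type} (s : Finset ι) (c : ι → ℂ)
    {T : ι → ℝ × ℝ → ℂ} (hT : ∀ i ∈ s, Hol a b τ (T i)) :
    ∀ r ∈ strip a b,
      du (du (du (fun r => ∑ i ∈ s, c i * T i r))) r = ∑ i ∈ s, c i * du (du (du (T i))) r := by
  intro r hr
  rw [Hol.du_congr hab (((Hol.sum s fun i hi => (hT i hi).const_mul (c i)).du hab).du hab)
    (Hol.sum s fun i hi => (((hT i hi).du hab).du hab).const_mul (c i))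
    (xlax1_du2_sum hab s c hT) r hr]
  exact xlax1_du_sum s c (fun i hi => ((hT i hi).du hab).du hab) r hr

namespace Cap
variable {ψ : ℝ × ℝ → V3} {a b τ θ : ℝ} (h : Cap ψ a b τ θ) {p : ℝ × ℝ}
  {T T' T'' R R' : ℝ × ℝ → ℂ}
include h

theorem hol_Xv (hT : Hol a b τ T) (hT' : Hol a b τ T') (i : Fin 3) :
    Hol a b τ (fun r => Xv ψ b T T' r i) := by
  have hab := h.ann.hab
  exact (((((hT'.const_mul (2 * (hq ψ b : ℂ))).sub ((hT.du hab).du hab)).sub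
    ((h.hol_U.const_mul 4).mul hT)).mul (h.hol_ph i)).add ((hT.du hab).mul (h.hol_ph1 i))).sub
    (hT.mul (h.hol_ph2 i))

theorem Xv_ph (hp : p ∈ strip a b) :
    Xv ψ b T T' p ⬝ᵥ ph ψ p = (hq ψ b : ℂ) ^ 2 * T p := by
  simp only [Xv, add_dotProduct, sub_dotProduct, smul_dotProduct, smul_eq_mul,
    dotProduct_comm (ph1 ψ p) (ph ψ p), dotProduct_comm (ph2 ψ p) (ph ψ p), h.ph_ph hp,
    h.ph_ph1 hp, h.ph_ph2 hp]
  ring

theorem N_Xv (hp : p ∈ strip a b) :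
    cv (normal ψ p) ⬝ᵥ Xv ψ b T T' p = hq ψ b * (du T p - gam ψ p * T p) := by
  simp only [Xv, dotProduct_add, dotProduct_sub, dotProduct_smul, smul_eq_mul, h.N_ph hp,
    h.N_ph1 hp, h.N_ph2 hp]
  ring

theorem Xv_Xv (hp : p ∈ strip a b) :
    Xv ψ b T T' p ⬝ᵥ Xv ψ b R R' p = (hq ψ b : ℂ) ^ 2 * (2 * hq ψ b * (T' p * R p + T p * R' p)
      - (du (du T) p * R p + T p * du (du R) p) - 4 * UU ψ b p * T p * R p
      + du T p * du R p) := by
  simp only [Xv, add_dotProduct, sub_dotProduct, smul_dotProduct, dotProduct_add, dotProduct_sub,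
    dotProduct_smul, smul_eq_mul, dotProduct_comm (ph1 ψ p) (ph ψ p),
    dotProduct_comm (ph2 ψ p) (ph ψ p), dotProduct_comm (ph2 ψ p) (ph1 ψ p), h.ph_ph hp,
    h.ph_ph1 hp, h.ph_ph2 hp, h.ph1_ph1 hp, h.ph1_ph2 hp, h.ph2_ph2 hp]
  ring

/-- Lax equation -/
theorem pd_Xv (hT : Hol a b τ T) (hT' : Hol a b τ T')
    (hode : ∀ r ∈ strip a b, L3 (UU ψ b) T r = 4 * (hq ψ b : ℂ) * du T' r) (T'' : ℝ × ℝ → ℂ) :
    PD a b (Xv ψ b T T') (fun r => (-(2 * I)) • (ph ψ r ⨯₃ Xv ψ b T' T'' r))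
      (fun r => (2 : ℂ) • (ph ψ r ⨯₃ Xv ψ b T' T'' r)) := by
  have hab := h.ann.hab
  have h1 : PD a b (ph1 ψ) (ph2 ψ) (fun r => I • ph2 ψ r) :=
    PD.pi.2 fun i => (h.hol_ph1 i).pd
  have h2 : PD a b (ph2 ψ) (du3 (ph2 ψ)) (fun r => I • du3 (ph2 ψ) r) :=
    PD.pi.2 fun i => (h.hol_ph2 i).pd
  have hα := ((hT'.pd.const_mul (2 * (hq ψ b : ℂ))).sub ((hT.du hab).du hab).pd).sub
    ((h.hol_U.pd.const_mul 4).mul hT.pd)
  have hX := ((hα.csmul h.pd_ph).add ((hT.du hab).pd.csmul h1)).sub (hT.pd.csmul h2)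
  have hc : ∀ r ∈ strip a b, ph ψ r ⨯₃ Xv ψ b T' T'' r =
      (-(I * hq ψ b) * du T' r) • ph ψ r + (I * hq ψ b * T' r) • ph1 ψ r := by
    intro r hr
    simp only [Xv, map_add, map_sub, map_smul, cross_self, h.ph_x_ph1 hr, h.ph_x_ph2 hr]
    module
  refine hX.congr (fun _ _ => rfl) ?_ ?_
  · intro r hr
    have e := hode r hr
    rw [L3] at e
    rw [hc r hr, h.ph3 hr]
    ext i
    simp only [Pi.add_apply, Pi.sub_apply, Pi.smul_apply, smul_eq_mul]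
    linear_combination ph ψ r i * e
      + (2 * hq ψ b * du T' r * ph ψ r i - 2 * hq ψ b * T' r * ph1 ψ r i) * I_sq
  · intro r hr
    have e := hode r hr
    rw [L3] at e
    rw [hc r hr, h.ph3 hr]
    ext i
    simp only [Pi.add_apply, Pi.sub_apply, Pi.smul_apply, smul_eq_mul]
    linear_combination I * ph ψ r i * e

theorem Xv_sum {ι : Type} (s : Finset ι) (c : ι → ℂ) {T T' : ι → ℝ × ℝ → ℂ}
    (hT : ∀ i ∈ s, Hol a b τ (T i)) (hp : p ∈ strip a b) :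
    Xv ψ b (fun r => ∑ i ∈ s, c i * T i r) (fun r => ∑ i ∈ s, c i * T' i r) p
      = ∑ i ∈ s, c i • Xv ψ b (T i) (T' i) p := by
  ext j
  simp only [Xv, xlax1_du_sum s c hT p hp, xlax1_du2_sum h.ann.hab s c hT p hp, Pi.add_apply,
    Pi.sub_apply, Pi.smul_apply, smul_eq_mul, Finset.sum_apply, Finset.mul_sum, Finset.sum_mul,
    ← Finset.sum_sub_distrib, ← Finset.sum_add_distrib]
  exact Finset.sum_congr rfl fun i _ => by ring

theorem Xv_congr (hT : Hol a b τ T) (hR : Hol a b τ R) (e : ∀ r ∈ strip a b, T r = R r)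
    (hp : p ∈ strip a b) (e' : T' p = R' p) : Xv ψ b T T' p = Xv ψ b R R' p := by
  have hab := h.ann.hab
  have e1 := Hol.du_congr hab hT hR e
  have e2 := Hol.du_congr hab (hT.du hab) (hR.du hab) e1
  simp only [Xv, e p hp, e1 p hp, e2 p hp, e']

theorem L3_sum {ι : Type} (s : Finset ι) (c : ι → ℂ) {T : ι → ℝ × ℝ → ℂ}
    (hT : ∀ i ∈ s, Hol a b τ (T i)) (hp : p ∈ strip a b) :
    L3 (UU ψ b) (fun r => ∑ i ∈ s, c i * T i r) p = ∑ i ∈ s, c i * L3 (UU ψ b) (T i) p := by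
  simp only [L3, xlax1_du_sum s c hT p hp, xlax1_du3_sum h.ann.hab s c hT p hp, Finset.mul_sum,
    ← Finset.sum_add_distrib]
  exact Finset.sum_congr rfl fun i _ => by ring

theorem L3_congr (hT : Hol a b τ T) (hR : Hol a b τ R) (e : ∀ r ∈ strip a b, T r = R r)
    (hp : p ∈ strip a b) : L3 (UU ψ b) T p = L3 (UU ψ b) R p := by
  have hab := h.ann.hab
  have e1 := Hol.du_congr hab hT hR e
  have e2 := Hol.du_congr hab (hT.du hab) (hR.du hab) e1
  have e3 := Hol.du_congr hab ((hT.du hab).du hab) ((hR.du hab).du hab) e2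
  simp only [L3, e p hp, e1 p hp, e3 p hp]

end Cap

end Pool.Agent.Lib.MP_c7e804_gt
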