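import Pool.Agent.Lib.MP_c7e804_gt.H43Geo

/-!
The capillary torque potential.
-/

namespace Pool.Agent.Lib.MP_c7e804_gt

open Matrix Set Complex
open scoped ContDiff ComplexConjugate

section
variable {a b τ : ℝ}

theorem xi1_dot {x xu xv y yu yv : ℝ × ℝ → V3} (h : PD a b x xu xv) (h' : PD a b y yu yv) :
    PD a b (fun p => x p ⬝ᵥ y p) (fun p => xu p ⬝ᵥ y p + x p ⬝ᵥ yu p)
      (fun p => xv p ⬝ᵥ y p + x p ⬝ᵥ yv p) := by
  have hx := PD.pi.1 h
  have hy := PD.pi.1 h'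
  refine ((((hx 0).rmul (hy 0)).add ((hx 1).rmul (hy 1))).add ((hx 2).rmul (hy 2))).congr
    ?_ ?_ ?_ <;> intro p _ <;> simp only [dotProduct, Fin.sum_univ_three] <;> ring

theorem xi1_cross {x xu xv y yu yv : ℝ × ℝ → V3} (h : PD a b x xu xv) (h' : PD a b y yu yv) :
    PD a b (fun p => x p ⨯₃ y p) (fun p => xu p ⨯₃ y p + x p ⨯₃ yu p)
      (fun p => xv p ⨯₃ y p + x p ⨯₃ yv p) := by
  have hx := PD.pi.1 h
  have hy := PD.pi.1 h'
  refine PD.pi.2 fun i => ?_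
  fin_cases i
  · refine (((hx 1).rmul (hy 2)).sub ((hx 2).rmul (hy 1))).congr ?_ ?_ ?_ <;> intro p _ <;>
      simp [cross_apply] <;> ring
  · refine (((hx 2).rmul (hy 0)).sub ((hx 0).rmul (hy 2))).congr ?_ ?_ ?_ <;> intro p _ <;>
      simp [cross_apply] <;> ring
  · refine (((hx 0).rmul (hy 1)).sub ((hx 1).rmul (hy 0))).congr ?_ ?_ ?_ <;> intro p _ <;>
      simp [cross_apply] <;> ring

/-- a conservation law `f_u + g_v = k` integrated over a period -/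
theorem xi1_cons {F : Type} [NormedAddCommGroup F] [NormedSpace ℝ F] [CompleteSpace F]
    {f fu fv g gu gv k : ℝ × ℝ → F} (hab : a ≤ b) (hf : PD a b f fu fv) (hg : PD a b g gu gv)
    (hper : ∀ p ∈ strip a b, g (p.1, p.2 + τ) = g p) (hk : ∀ p ∈ strip a b, k p = fu p + gv p) :
    (∫ v in (0 : ℝ)..τ, f (b, v)) - ∫ v in (0 : ℝ)..τ, f (a, v) =
      ∫ u in a..b, ∫ v in (0 : ℝ)..τ, k (u, v) := by
  have hkc : ContinuousOn k (strip a b) := (hf.contu.add hg.contv).congr hk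
  have h1 : ∀ u ∈ Icc a b, HasDerivWithinAt (fun x => ∫ r in (0 : ℝ)..τ, f (x, r))
      (∫ r in (0 : ℝ)..τ, k (u, r)) (Icc a b) u := by
    intro u hu
    have e : ∫ r in (0 : ℝ)..τ, k (u, r) = ∫ r in (0 : ℝ)..τ, fu (u, r) := by
      have e1 : ∫ r in (0 : ℝ)..τ, k (u, r) =
          (∫ r in (0 : ℝ)..τ, fu (u, r)) + ∫ r in (0 : ℝ)..τ, gv (u, r) := by
        rw [← intervalIntegral.integral_add
          ((cont_line_v hf.contu hu).intervalIntegrable _ _)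
          ((cont_line_v hg.contv hu).intervalIntegrable _ _)]
        exact intervalIntegral.integral_congr fun r _ => hk (u, r) hu
      have e2 := hper (u, 0) hu
      simp only [zero_add] at e2
      rw [e1, hg.int_v hu, e2, sub_self, add_zero]
    rw [e]
    exact hf.deriv_int_v 0 τ hu
  exact (ftc_Icc hab h1 (contOn_int_v hkc 0 τ)).symm

theorem xi1_P {A B N x : V3} {E : ℝ} (h : Fr A B N E) (c : ℝ) :
    x ⨯₃ B + c • A = -(N ⬝ᵥ x - c) • A + (x ⬝ᵥ A) • N := by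
  have hE : E ≠ 0 := h.pos.ne'
  have e := h.decomp x
  have e1 : x ⨯₃ B = ((x ⬝ᵥ A) * E⁻¹) • (A ⨯₃ B) + ((x ⬝ᵥ B) * E⁻¹) • (B ⨯₃ B)
      + (x ⬝ᵥ N) • (N ⨯₃ B) := by
    conv_lhs => rw [e]
    simp only [map_add, map_smul, LinearMap.add_apply, LinearMap.smul_apply]
  rw [e1, h.AxB, h.NxB, cross_self, dotProduct_comm N x, smul_smul, mul_assoc,
    inv_mul_cancel₀ hE]
  module

theorem xi1_Q {A B N x : V3} {E : ℝ} (h : Fr A B N E) (c : ℝ) :
    -(x ⨯₃ A) + c • B = -(N ⬝ᵥ x - c) • B + (x ⬝ᵥ B) • N := by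
  have hE : E ≠ 0 := h.pos.ne'
  have e := h.decomp x
  have e1 : x ⨯₃ A = ((x ⬝ᵥ A) * E⁻¹) • (A ⨯₃ A) + ((x ⬝ᵥ B) * E⁻¹) • (B ⨯₃ A)
      + (x ⬝ᵥ N) • (N ⨯₃ A) := by
    conv_lhs => rw [e]
    simp only [map_add, map_smul, LinearMap.add_apply, LinearMap.smul_apply]
  rw [e1, ← cross_anticomm A B, h.AxB, h.NxA, cross_self, dotProduct_comm N x, smul_neg,
    smul_smul, mul_assoc, inv_mul_cancel₀ hE]
  module

end

namespace Cap
variable {ψ : ℝ × ℝ → V3} {a b τ θ : ℝ} (h : Cap ψ a b τ θ)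
include h

/-- the potential `Ξ` with `dΞ = -w dψ + N dp`, zero on `u = b`, constant on `u = a` -/
theorem exists_xi : ∃ (Ξ : ℝ × ℝ → V3) (t : V3),
    PD a b Ξ (fun r => -ww ψ θ r • du ψ r + pu ψ r • normal ψ r)
      (fun r => -ww ψ θ r • dv ψ r + (ψ r ⬝ᵥ dv ψ r) • normal ψ r) ∧
    (∀ v, Ξ (b, v) = 0) ∧ (∀ v, Ξ (a, v) = -t) ∧
    (∀ r ∈ strip a b, Ξ (r.1, r.2 + τ) = Ξ r) ∧
    t ⨯₃ flux ψ τ b = 0 ∧
    t ⬝ᵥ flux ψ τ b = -2 * ∫ u in a..b, ∫ v in (0 : ℝ)..τ, ww ψ θ (u, v) * confE ψ (u, v) := by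
  have hab := h.ann.hab
  have ha : a ∈ Icc a b := ⟨le_rfl, hab.le⟩
  have hb : b ∈ Icc a b := ⟨hab.le, le_rfl⟩
  have hψ := h.pd_psi
  have hA : PD a b (du ψ) (du (du ψ)) (dv (du ψ)) := PD.of_sm fun p hp => h.ann.smA hp
  have hB : PD a b (dv ψ) (dv (du ψ)) (fun p => -du (du ψ) p) :=
    (PD.of_sm fun p hp => h.ann.smB hp).congr (fun _ _ => rfl)
      (fun p hp => (h.ann.Bu hp).symm) (fun p hp => (h.ann.Bv hp).symm)
  set P : ℝ × ℝ → V3 := fun r => -ww ψ θ r • du ψ r + pu ψ r • normal ψ r with hPdef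
  set Q : ℝ × ℝ → V3 := fun r => -ww ψ θ r • dv ψ r + (ψ r ⬝ᵥ dv ψ r) • normal ψ r with hQdef
  have eP : ∀ p ∈ strip a b, P p = ψ p ⨯₃ dv ψ p + Real.cos θ • du ψ p := fun p hp =>
    (xi1_P (h.ann.fr hp) (Real.cos θ)).symm
  have eQ : ∀ p ∈ strip a b, Q p = -(ψ p ⨯₃ du ψ p) + Real.cos θ • dv ψ p := fun p hp =>
    (xi1_Q (h.ann.fr hp) (Real.cos θ)).symm
  have hP := ((xi1_cross hψ hB).add ((PD.const (Real.cos θ)).smul hA)).congr eP
    (fun _ _ => rfl) (fun _ _ => rfl)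
  have hQ := ((xi1_cross hψ hA).neg.add ((PD.const (Real.cos θ)).smul hB)).congr eQ
    (fun _ _ => rfl) (fun _ _ => rfl)
  have hΞ := PD.primitive hab.le hP hQ (by
    intro p _
    simp only [cross_self, map_neg, zero_add, zero_smul])
  have Q0 : ∀ u, u = a ∨ u = b → ∀ v, Q (u, v) = 0 := by
    intro u hu v
    have h1 := h.bd_ww hu v
    have h2 := h.ann.bd_psiB (h.mem_bd hu 0) (h.bd_unit hu) v
    simp only [hQdef, h1, h2, neg_zero, zero_smul, add_zero]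
  have perP : ∀ p ∈ strip a b, P (p.1, p.2 + τ) = P p := by
    intro p hp
    rw [eP p hp, eP _ (shift_mem hp), h.ann.perψ p hp, h.ann.perA p hp, h.ann.perB p hp]
  set Ξ : ℝ × ℝ → V3 := fun p => (∫ t in (0 : ℝ)..p.2, Q (b, t)) + ∫ r in b..p.1, P (r, p.2)
    with hΞdef
  have Ξb : ∀ v, Ξ (b, v) = 0 := by
    intro v
    simp [hΞdef, Q0 b (Or.inr rfl)]
  have Ξa : ∀ v, Ξ (a, v) = -(-Ξ (a, 0)) := by
    intro v
    rw [neg_neg]
    exact hΞ.line_const ha (Q0 a (Or.inl rfl)) v 0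
  have Ξper : ∀ r ∈ strip a b, Ξ (r.1, r.2 + τ) = Ξ r := by
    intro r hr
    simp only [hΞdef, Q0 b (Or.inr rfl), intervalIntegral.integral_zero, zero_add]
    refine intervalIntegral.integral_congr fun x hx => ?_
    have hx' : x ∈ Icc a b := uIcc_subset_Icc hb hr hx
    exact perP (x, r.2) hx'
  have hp2 : PD a b (fun p => (1 / 2 : ℝ) * (ψ p ⬝ᵥ ψ p)) (fun p => ψ p ⬝ᵥ du ψ p)
      (fun p => ψ p ⬝ᵥ dv ψ p) := by
    refine ((PD.const (1 / 2 : ℝ)).rmul (xi1_dot hψ hψ)).congr (fun _ _ => rfl) ?_ ?_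
    · intro p _
      rw [dotProduct_comm (du ψ p) (ψ p)]; ring
    · intro p _
      rw [dotProduct_comm (dv ψ p) (ψ p)]; ring
  have cA : Continuous fun v => du ψ (a, v) := cont_line_v hA.cont ha
  have intB : ∀ u ∈ Icc a b, ∫ v in (0 : ℝ)..τ, dv ψ (u, v) = 0 := by
    intro u hu
    have e2 := h.ann.perψ (u, 0) hu
    simp only [zero_add] at e2
    rw [hψ.int_v hu, e2, sub_self]
  refine ⟨Ξ, -Ξ (a, 0), hΞ, Ξb, Ξa, Ξper, ?_, ?_⟩
  · have c1 := xi1_cons (τ := τ) (k := fun _ => (0 : V3)) hab.le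
      ((xi1_cross hΞ hA).sub (hp2.smul hB)) ((xi1_cross hΞ hB).add (hp2.smul hA))
      (by
        intro p hp
        simp only [Ξper p hp, h.ann.perψ p hp, h.ann.perA p hp, h.ann.perB p hp])
      (by
        intro p hp
        have fr := h.ann.fr hp
        simp only [hPdef, hQdef, map_add, map_smul, map_neg, LinearMap.add_apply,
          LinearMap.smul_apply, cross_self, fr.NxA, fr.NxB, pu]
        module)
    have e1 : ∫ v in (0 : ℝ)..τ, (Ξ (b, v) ⨯₃ du ψ (b, v)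
        - ((1 / 2 : ℝ) * (ψ (b, v) ⬝ᵥ ψ (b, v))) • dv ψ (b, v)) = 0 := by
      simp only [Ξb, h.ann.sphere_b, map_zero, LinearMap.zero_apply, zero_sub,
        intervalIntegral.integral_neg, intervalIntegral.integral_smul, intB b hb, smul_zero,
        neg_zero]
    have e2 : ∫ v in (0 : ℝ)..τ, (Ξ (a, v) ⨯₃ du ψ (a, v)
        - ((1 / 2 : ℝ) * (ψ (a, v) ⬝ᵥ ψ (a, v))) • dv ψ (a, v)) = Ξ (a, 0) ⨯₃ flux ψ τ a := by
      have e3 := (LinearMap.toContinuousLinearMap (crossProduct (Ξ (a, 0)))).intervalIntegral_comp_comm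
        (cA.intervalIntegrable (μ := MeasureTheory.volume) 0 τ)
      simp only [LinearMap.coe_toContinuousLinearMap'] at e3
      have i1 : IntervalIntegrable (fun v => Ξ (a, 0) ⨯₃ du ψ (a, v)) MeasureTheory.volume 0 τ :=
        ((LinearMap.toContinuousLinearMap (crossProduct (Ξ (a, 0)))).continuous.comp
          cA).intervalIntegrable 0 τ
      have i2 : IntervalIntegrable (fun v => ((1 / 2 : ℝ) * 1) • dv ψ (a, v))
          MeasureTheory.volume 0 τ :=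
        ((cont_line_v hB.cont ha).const_smul ((1 / 2 : ℝ) * 1)).intervalIntegrable 0 τ
      have e4 : ∀ v, Ξ (a, v) = Ξ (a, 0) := fun v => by rw [Ξa v, neg_neg]
      have e5 : ∫ v in (0 : ℝ)..τ, (Ξ (a, v) ⨯₃ du ψ (a, v)
          - ((1 / 2 : ℝ) * (ψ (a, v) ⬝ᵥ ψ (a, v))) • dv ψ (a, v)) =
          ∫ v in (0 : ℝ)..τ, (Ξ (a, 0) ⨯₃ du ψ (a, v) - ((1 / 2 : ℝ) * 1) • dv ψ (a, v)) :=
        intervalIntegral.integral_congr fun v _ => by rw [e4 v, h.ann.sphere_a v]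
      rw [e5, intervalIntegral.integral_sub i1 i2, intervalIntegral.integral_smul, intB a ha,
        smul_zero, sub_zero, e3, flux]
    simp only [e1, e2, intervalIntegral.integral_zero, zero_sub, h.flux_const ha] at c1
    simpa using c1
  · have c2 := xi1_cons (τ := τ) (k := fun p => -2 * (ww ψ θ p * confE ψ p)) hab.le
      (xi1_dot hΞ hA) (xi1_dot hΞ hB)
      (by
        intro p hp
        simp only [Ξper p hp, h.ann.perB p hp])
      (by
        intro p hp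
        have fr := h.ann.fr hp
        simp only [hPdef, hQdef, add_dotProduct, smul_dotProduct, dotProduct_neg, fr.AA, fr.BB,
          fr.NA, fr.NB, smul_eq_mul]
        ring)
    have e2 : ∫ v in (0 : ℝ)..τ, Ξ (a, v) ⬝ᵥ du ψ (a, v) = Ξ (a, 0) ⬝ᵥ flux ψ τ a := by
      have e3 := (LinearMap.toContinuousLinearMap
        (dotProductBilin ℝ ℝ (Ξ (a, 0)))).intervalIntegral_comp_comm
        (cA.intervalIntegrable (μ := MeasureTheory.volume) 0 τ)
      simp only [LinearMap.coe_toContinuousLinearMap', dotProductBilin_apply_apply] at e3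
      have e4 : ∀ v, Ξ (a, v) = Ξ (a, 0) := fun v => by rw [Ξa v, neg_neg]
      rw [flux, ← e3]
      exact intervalIntegral.integral_congr fun v _ => by rw [e4 v]
    simp only [Ξb, zero_dotProduct, intervalIntegral.integral_zero, e2, zero_sub,
      intervalIntegral.integral_const_mul, h.flux_const ha] at c2
    rw [neg_dotProduct]
    exact c2

end Cap

end Pool.Agent.Lib.MP_c7e804_gt
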