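import Pool.Agent.Lib.MP_c7e804_gt.H49Base

/-!
Circular arcs orthogonal to a plane.
-/

namespace Pool.Agent.Lib.MP_c7e804_gt

open Matrix Set Filter Topology

/-- height of the arc above the chord -/
noncomputable def arcG (A B D σ : ℝ) : ℝ :=
  √(((1 - σ) * A + σ * B) ^ 2 + σ * (1 - σ) * D) - ((1 - σ) * A + σ * B)

/-- the arc -/
noncomputable def arcZ (n x y : V3) (t σ : ℝ) : V3 :=
  (1 - σ) • x + σ • y + arcG (n ⬝ᵥ x - t) (n ⬝ᵥ y - t) ((x - y) ⬝ᵥ (x - y)) σ • n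

theorem arc_symm_dot (x y : V3) : (y - x) ⬝ᵥ (y - x) = (x - y) ⬝ᵥ (x - y) := by
  rw [← neg_sub x y, neg_dotProduct, dotProduct_neg, neg_neg]

theorem arcZ_symm (n x y : V3) (t σ : ℝ) : arcZ n x y t (1 - σ) = arcZ n y x t σ := by
  unfold arcZ arcG
  rw [arc_symm_dot x y, sub_sub_cancel, add_comm (σ • x), add_comm (σ * (n ⬝ᵥ x - t)),
    mul_comm (1 - σ) σ]

theorem arcG_zero {A B D : ℝ} (hA : 0 < A) : arcG A B D 0 = 0 := by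
  simp [arcG, Real.sqrt_sq hA.le]

theorem arcZ_zero {n x y : V3} {t : ℝ} (hxt : t < n ⬝ᵥ x) : arcZ n x y t 0 = x := by
  simp [arcZ, arcG_zero (sub_pos.2 hxt)]

theorem arcG_deriv {A B D : ℝ} (hA : 0 < A) : HasDerivAt (arcG A B D) (D / (2 * A)) 0 := by
  have hm : HasDerivAt (fun σ : ℝ => (1 - σ) * A + σ * B) (B - A) 0 := by
    have h := (((hasDerivAt_id (0 : ℝ)).const_sub 1).mul_const A).add
      ((hasDerivAt_id (0 : ℝ)).mul_const B)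
    exact h.congr_deriv (by ring)
  have hq : HasDerivAt (fun σ : ℝ => ((1 - σ) * A + σ * B) ^ 2 + σ * (1 - σ) * D)
      (2 * A * (B - A) + D) 0 := by
    have h := (hm.fun_pow 2).add
      (((hasDerivAt_id (0 : ℝ)).mul ((hasDerivAt_id (0 : ℝ)).const_sub 1)).mul_const D)
    exact h.congr_deriv (by simp)
  have h0 : ((1 - (0 : ℝ)) * A + 0 * B) ^ 2 + 0 * (1 - 0) * D = A ^ 2 := by ring
  have hs := (hq.sqrt (by rw [h0]; positivity)).sub hm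
  refine hs.congr_deriv ?_
  rw [h0, Real.sqrt_sq hA.le]
  field_simp
  ring

theorem arcZ_deriv {n x y : V3} {t : ℝ} (hxt : t < n ⬝ᵥ x) :
    HasDerivAt (arcZ n x y t) ((2 * (n ⬝ᵥ x - t))⁻¹ •
      ((2 * (n ⬝ᵥ x - t)) • (y - x) + ((x - y) ⬝ᵥ (x - y)) • n)) 0 := by
  have hA := sub_pos.2 hxt
  have h := ((((hasDerivAt_id (0 : ℝ)).const_sub 1).smul_const x).add
    ((hasDerivAt_id (0 : ℝ)).smul_const y)).add
    ((arcG_deriv (B := n ⬝ᵥ y - t) (D := (x - y) ⬝ᵥ (x - y)) hA).smul_const n)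
  refine h.congr_deriv ?_
  rw [smul_add, smul_smul, smul_smul, inv_mul_cancel₀ (by positivity), div_eq_inv_mul]
  simp only [neg_smul, one_smul]
  abel

theorem arc_scalar {A B D σ h : ℝ} (hA : 0 < A) (hB : 0 < B) (hD : 0 < D) (h0 : 0 < σ)
    (h1 : σ < 1) (hh : 0 ≤ h) (hq : h ^ 2 = ((1 - σ) * A + σ * B) ^ 2 + σ * (1 - σ) * D) :
    B * (σ * D + 2 * ((1 - σ) * A + σ * B) * A) < h * (D + 2 * A * B) := by
  have h2 : 0 < 1 - σ := sub_pos.2 h1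
  refine lt_of_pow_lt_pow_left₀ 2 (by positivity) ?_
  have e : (h * (D + 2 * A * B)) ^ 2 - (B * (σ * D + 2 * ((1 - σ) * A + σ * B) * A)) ^ 2
      = D * (D + 4 * A * B) * (1 - σ) * ((1 - σ) * A ^ 2 + σ * (D + 2 * A * B)) := by
    rw [mul_pow, hq]; ring
  have : 0 < D * (D + 4 * A * B) * (1 - σ) * ((1 - σ) * A ^ 2 + σ * (D + 2 * A * B)) := by
    positivity
  linarith

theorem arcZ_dot {n x y : V3} {t : ℝ} (hn : n ⬝ᵥ n = 1) (σ : ℝ) :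
    n ⬝ᵥ arcZ n x y t σ - t = √(((1 - σ) * (n ⬝ᵥ x - t) + σ * (n ⬝ᵥ y - t)) ^ 2
      + σ * (1 - σ) * ((x - y) ⬝ᵥ (x - y))) := by
  simp only [arcZ, arcG, dotProduct_add, dotProduct_smul, smul_eq_mul, hn]
  ring

theorem arcZ_lt {n x y : V3} {t : ℝ} (hn : n ⬝ᵥ n = 1) (hxt : t < n ⬝ᵥ x) (hyt : t < n ⬝ᵥ y)
    (hxy : x ≠ y) {σ : ℝ} (h0 : 0 < σ) (h1 : σ < 1) :
    ((x - arcZ n x y t σ) ⬝ᵥ (x - arcZ n x y t σ)) * (n ⬝ᵥ y - t)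
      < ((x - y) ⬝ᵥ (x - y)) * (n ⬝ᵥ arcZ n x y t σ - t) := by
  have hA := sub_pos.2 hxt
  have hB := sub_pos.2 hyt
  have hD := dot_pos (sub_ne_zero.2 hxy)
  have h2 : 0 < 1 - σ := sub_pos.2 h1
  have e : x - arcZ n x y t σ = σ • (x - y)
      - arcG (n ⬝ᵥ x - t) (n ⬝ᵥ y - t) ((x - y) ⬝ᵥ (x - y)) σ • n := by
    unfold arcZ
    module
  have e2 : n ⬝ᵥ (x - y) = (n ⬝ᵥ x - t) - (n ⬝ᵥ y - t) := by rw [dotProduct_sub]; ring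
  rw [arcZ_dot hn, e]
  unfold arcG
  generalize x - y = d at *
  generalize n ⬝ᵥ x - t = A at *
  generalize n ⬝ᵥ y - t = B at *
  have hq := Real.sq_sqrt (x := ((1 - σ) * A + σ * B) ^ 2 + σ * (1 - σ) * (d ⬝ᵥ d))
    (by positivity)
  have hs := arc_scalar hA hB hD h0 h1 (Real.sqrt_nonneg _) hq
  generalize √(((1 - σ) * A + σ * B) ^ 2 + σ * (1 - σ) * (d ⬝ᵥ d)) = h at *
  simp only [sub_dotProduct, dotProduct_sub, smul_dotProduct, dotProduct_smul, smul_eq_mul, hn,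
    dotProduct_comm d n, e2]
  generalize d ⬝ᵥ d = D at *
  have e3 : σ * (σ * D) - (h - ((1 - σ) * A + σ * B)) * (σ * (A - B)) -
      (σ * ((h - ((1 - σ) * A + σ * B)) * (A - B)) -
        (h - ((1 - σ) * A + σ * B)) * ((h - ((1 - σ) * A + σ * B)) * 1))
      = σ * D + 2 * ((1 - σ) * A + σ * B) * A - 2 * h * A := by
    linear_combination hq
  nlinarith [e3, hs]

theorem arcZ_ball {n x y : V3} {t : ℝ} (hn : n ⬝ᵥ n = 1) (ht : t < 0) (hx : x ∈ ball3)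
    (hy : y ∈ ball3) (hxt : t < n ⬝ᵥ x) (hyt : t < n ⬝ᵥ y) {σ : ℝ} (h0 : 0 ≤ σ) (h1 : σ ≤ 1) :
    arcZ n x y t σ ∈ ball3 ∧ t < n ⬝ᵥ arcZ n x y t σ := by
  have hA := sub_pos.2 hxt
  have hB := sub_pos.2 hyt
  have hD := dot_nonneg (x - y)
  have h2 : 0 ≤ 1 - σ := sub_nonneg.2 h1
  have hm : 0 < (1 - σ) * (n ⬝ᵥ x - t) + σ * (n ⬝ᵥ y - t) := by
    rcases h0.eq_or_lt with rfl | h0
    · simpa using hxt
    · positivity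
  have hge : (1 - σ) * (n ⬝ᵥ x - t) + σ * (n ⬝ᵥ y - t) ≤
      √(((1 - σ) * (n ⬝ᵥ x - t) + σ * (n ⬝ᵥ y - t)) ^ 2
        + σ * (1 - σ) * ((x - y) ⬝ᵥ (x - y))) :=
    Real.le_sqrt_of_sq_le (le_add_of_nonneg_right (by positivity))
  refine ⟨?_, ?_⟩
  · have hq := Real.sq_sqrt (x := ((1 - σ) * (n ⬝ᵥ x - t) + σ * (n ⬝ᵥ y - t)) ^ 2
      + σ * (1 - σ) * ((x - y) ⬝ᵥ (x - y))) (by positivity)
    have hx' : x ⬝ᵥ x ≤ 1 := hx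
    have hy' : y ⬝ᵥ y ≤ 1 := hy
    show arcZ n x y t σ ⬝ᵥ arcZ n x y t σ ≤ 1
    unfold arcZ arcG
    generalize √(((1 - σ) * (n ⬝ᵥ x - t) + σ * (n ⬝ᵥ y - t)) ^ 2
        + σ * (1 - σ) * ((x - y) ⬝ᵥ (x - y))) = h at *
    simp only [sub_dotProduct, dotProduct_sub, dotProduct_comm y x] at hq
    simp only [add_dotProduct, dotProduct_add, smul_dotProduct, dotProduct_smul, smul_eq_mul, hn,
      dotProduct_comm y x, dotProduct_comm x n, dotProduct_comm y n]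
    have h3 := mul_nonneg (sub_nonneg.2 hge) (neg_nonneg.2 ht.le)
    have h4 := mul_le_mul_of_nonneg_left hx' h2
    have h5 := mul_le_mul_of_nonneg_left hy' h0
    nlinarith [hq, h3, h4, h5]
  · rw [← sub_pos, arcZ_dot hn]
    exact hm.trans_le hge

theorem exists_arc {n x y : V3} {t : ℝ} (hn : n ⬝ᵥ n = 1) (ht : t < 0) (hx : x ∈ ball3)
    (hy : y ∈ ball3) (hxt : t < n ⬝ᵥ x) (hyt : t < n ⬝ᵥ y) (hxy : x ≠ y) :
    ∃ z : ℝ → V3, Continuous z ∧ z 0 = x ∧ z 1 = y ∧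
      (∀ σ ∈ Icc (0 : ℝ) 1, z σ ∈ ball3 ∧ t < n ⬝ᵥ z σ) ∧
      (∀ σ ∈ Ioo (0 : ℝ) 1,
        ((x - z σ) ⬝ᵥ (x - z σ)) * (n ⬝ᵥ y - t) < ((x - y) ⬝ᵥ (x - y)) * (n ⬝ᵥ z σ - t) ∧
        ((z σ - y) ⬝ᵥ (z σ - y)) * (n ⬝ᵥ x - t) < ((x - y) ⬝ᵥ (x - y)) * (n ⬝ᵥ z σ - t)) ∧
      HasDerivAt z ((2 * (n ⬝ᵥ x - t))⁻¹ •
        ((2 * (n ⬝ᵥ x - t)) • (y - x) + ((x - y) ⬝ᵥ (x - y)) • n)) 0 ∧
      HasDerivAt (fun σ => z (1 - σ)) ((2 * (n ⬝ᵥ y - t))⁻¹ •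
        ((2 * (n ⬝ᵥ y - t)) • (x - y) + ((y - x) ⬝ᵥ (y - x)) • n)) 0 := by
  refine ⟨arcZ n x y t, ?_, arcZ_zero hxt, ?_, fun σ hσ => arcZ_ball hn ht hx hy hxt hyt hσ.1 hσ.2,
    fun σ hσ => ⟨arcZ_lt hn hxt hyt hxy hσ.1 hσ.2, ?_⟩, arcZ_deriv hxt, ?_⟩
  · unfold arcZ arcG
    fun_prop
  · have h := arcZ_symm n x y t 0
    rw [sub_zero] at h
    rw [h, arcZ_zero hyt]
  · have h := arcZ_lt hn hyt hxt hxy.symm (σ := 1 - σ) (sub_pos.2 hσ.2) (by linarith [hσ.1])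
    rw [arcZ_symm n y x t σ, arc_symm_dot x y, arc_symm_dot (arcZ n x y t σ) y] at h
    exact h
  · simp only [arcZ_symm]
    exact arcZ_deriv hyt

end Pool.Agent.Lib.MP_c7e804_gt
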