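import Pool.Agent.Lib.MP_c7e804_gt.H49Defs
import Pool.Agent.Lib.MP_c7e804_gt.H43Geo

/-!
Definitions for the two-point argument: sides of an embedded annulus.
-/

namespace Pool.Agent.Lib.MP_c7e804_gt

open Matrix Set Filter Topology

/-- closed unit ball -/
def ball3 : Set V3 := {x | x ⬝ᵥ x ≤ 1}

/-- unit sphere -/
def sph : Set V3 := {x | x ⬝ᵥ x = 1}

/-- radial projection to the sphere -/
noncomputable def nz (x : V3) : V3 := (√(x ⬝ᵥ x))⁻¹ • x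

/-- every continuous circle valued function on `X` has a continuous real lift -/
def Lifts (X : Set V3) : Prop :=
  ∀ f : V3 → AddCircle (1 : ℝ), ContinuousOn f X →
    ∃ G : V3 → ℝ, ContinuousOn G X ∧ ∀ x ∈ X, (G x : AddCircle (1 : ℝ)) = f x

/-- `r` is a signed distance like function on the open neighbourhood `T` of the surface -/
structure Tube (ψ : ℝ × ℝ → V3) (a b : ℝ) (T T' : Set V3) (r : V3 → ℝ) (ε₀ : ℝ) : Prop where
  hopen : IsOpen T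
  hclosed : IsClosed T'
  sub : T' ⊆ T
  pos : 0 < ε₀
  cont : ContinuousOn r T
  big : ∀ y ∈ T, y ∈ ball3 → y ∉ T' → ε₀ ≤ |r y|
  zero : ∀ y ∈ T, y ∈ ball3 → r y = 0 → y ∈ ψ '' strip a b
  est : ∀ η : ℝ, 0 < η → ∃ ε : ℝ, 0 < ε ∧ ∀ p ∈ strip a b, ∀ y : V3, ‖y - ψ p‖ < ε →
    y ∈ T ∧ |normal ψ p ⬝ᵥ (y - ψ p) - r y| ≤ η * ‖y - ψ p‖

/-- `F` vanishes exactly on the surface and is positive on the side of the normal -/
structure Sep (ψ : ℝ × ℝ → V3) (a b : ℝ) (F : V3 → ℝ) : Prop where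
  cont : ContinuousOn F ball3
  zero : ∀ x ∈ ball3, F x = 0 ↔ x ∈ ψ '' strip a b
  cone : ∀ η : ℝ, 0 < η → ∃ ε : ℝ, 0 < ε ∧ ∀ p ∈ strip a b, ∀ x ∈ ball3, ‖x - ψ p‖ < ε →
    (η * ‖x - ψ p‖ < normal ψ p ⬝ᵥ (x - ψ p) → 0 < F x) ∧
    (normal ψ p ⬝ᵥ (x - ψ p) < -(η * ‖x - ψ p‖) → F x < 0)

/-- a simple closed spherical curve `γ` with conormal `m`, a further compact set `Γ`, and a function
`F` on the sphere vanishing exactly on their union -/
structure PIData (τ c s : ℝ) (γ γ' m : ℝ → V3) (Γ : Set V3) (F : V3 → ℝ) : Prop where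
  hτ : 0 < τ
  hc : 0 < c
  hs : 0 < s
  hcs : c ^ 2 + s ^ 2 = 1
  der : ∀ v, HasDerivAt γ (γ' v) v
  contm : Continuous m
  per : ∀ v, γ (v + τ) = γ v
  perm : ∀ v, m (v + τ) = m v
  simple : ∀ v v', γ v = γ v' → ∃ k : ℤ, v' = v + k * τ
  gg : ∀ v, γ v ⬝ᵥ γ v = 1
  mm : ∀ v, m v ⬝ᵥ m v = 1
  gm : ∀ v, γ v ⬝ᵥ m v = 0
  span : ∀ v, ∀ w : V3, w ⬝ᵥ γ' v = 0 → w = (w ⬝ᵥ γ v) • γ v + (w ⬝ᵥ m v) • m v
  cpt : IsCompact Γ
  sub : Γ ⊆ sph
  disj : ∀ v, γ v ∉ Γ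
  contF : ContinuousOn F sph
  zero : ∀ x ∈ sph, F x = 0 ↔ x ∈ range γ ∪ Γ
  side : ∃ ε : ℝ, 0 < ε ∧ ∀ v, ∀ t ∈ Ioc (0 : ℝ) ε,
    0 < F (nz (γ v + t • m v)) ∧ F (nz (γ v - t • m v)) < 0
  near : ∃ η : ℝ, 0 < η ∧ ∀ v v', v' ≠ v → |v' - v| < η → (c • γ v + s • m v) ⬝ᵥ γ v' < c
  far : ∀ v, ∃ y ∈ range γ ∪ Γ, c < (c • γ v + s • m v) ⬝ᵥ y

/-- the open cap `w · x > M` lies on the positive side and misses the curves -/
structure ECap (γ : ℝ → V3) (Γ : Set V3) (F : V3 → ℝ) (w : V3) (M : ℝ) : Prop where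
  ww : w ⬝ᵥ w = 1
  pos : 0 < M
  lt : M < 1
  le : ∀ y ∈ range γ ∪ Γ, w ⬝ᵥ y ≤ M
  side : 0 < F w

theorem dot_nonneg (x : V3) : 0 ≤ x ⬝ᵥ x := Finset.sum_nonneg fun i _ => mul_self_nonneg (x i)

theorem dot_pos {x : V3} (h : x ≠ 0) : 0 < x ⬝ᵥ x :=
  lt_of_le_of_ne (dot_nonneg x) fun e => h (dotProduct_self_eq_zero.1 e.symm)

theorem dot_sq_le (x y : V3) : (x ⬝ᵥ y) ^ 2 ≤ (x ⬝ᵥ x) * (y ⬝ᵥ y) := by
  simp only [dotProduct, Fin.sum_univ_three]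
  nlinarith [sq_nonneg (x 0 * y 1 - x 1 * y 0), sq_nonneg (x 0 * y 2 - x 2 * y 0),
    sq_nonneg (x 1 * y 2 - x 2 * y 1)]

theorem abs_dot_le_one {x y : V3} (hx : x ⬝ᵥ x ≤ 1) (hy : y ⬝ᵥ y ≤ 1) : |x ⬝ᵥ y| ≤ 1 := by
  have h1 := dot_sq_le x y
  have h2 := mul_le_mul hx hy (dot_nonneg y) zero_le_one
  exact (sq_le_one_iff_abs_le_one _).1 (by linarith)

theorem norm_sq_le_dot (x : V3) : ‖x‖ ^ 2 ≤ x ⬝ᵥ x := by
  have h : ‖x‖ ≤ √(x ⬝ᵥ x) := by
    refine (pi_norm_le_iff_of_nonneg (Real.sqrt_nonneg _)).2 fun i => ?_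
    refine Real.abs_le_sqrt ?_
    rw [sq]
    exact Finset.single_le_sum (f := fun j => x j * x j) (fun j _ => mul_self_nonneg (x j))
      (Finset.mem_univ i)
  calc ‖x‖ ^ 2 ≤ √(x ⬝ᵥ x) ^ 2 := by gcongr
    _ = x ⬝ᵥ x := Real.sq_sqrt (dot_nonneg x)

theorem abs_dot_le_norm (x y : V3) : |x ⬝ᵥ y| ≤ 3 * (‖x‖ * ‖y‖) := by
  have h : ∀ i, |x i * y i| ≤ ‖x‖ * ‖y‖ := fun i => by
    rw [abs_mul]
    exact mul_le_mul (norm_le_pi_norm x i) (norm_le_pi_norm y i) (abs_nonneg _) (norm_nonneg _)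
  simp only [dotProduct, Fin.sum_univ_three]
  have h1 := abs_add_three (x 0 * y 0) (x 1 * y 1) (x 2 * y 2)
  linarith [h 0, h 1, h 2]

theorem nz_unit {x : V3} (h : x ≠ 0) : nz x ⬝ᵥ nz x = 1 := by
  have h1 := dot_pos h
  have h2 := Real.sqrt_pos.2 h1
  have h3 := Real.mul_self_sqrt h1.le
  simp only [nz, smul_dotProduct, dotProduct_smul, smul_eq_mul]
  field_simp
  nlinarith

theorem nz_of_unit {x : V3} (h : x ⬝ᵥ x = 1) : nz x = x := by simp [nz, h]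

theorem dot_nz (w x : V3) : w ⬝ᵥ nz x = w ⬝ᵥ x / √(x ⬝ᵥ x) := by
  simp only [nz, dotProduct_smul, smul_eq_mul]
  ring

theorem continuousAt_nz {x : V3} (h : x ≠ 0) : ContinuousAt nz x := by
  have h1 : Continuous fun y : V3 => √(y ⬝ᵥ y) := by fun_prop
  exact (h1.continuousAt.inv₀ (Real.sqrt_pos.2 (dot_pos h)).ne').smul continuousAt_id

theorem convex_ball3 : Convex ℝ ball3 := by
  intro x hx y hy s t hs ht hst
  have h1 := (abs_le.1 (abs_dot_le_one hx hy)).2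
  have h2 : x ⬝ᵥ x ≤ 1 := hx
  have h3 : y ⬝ᵥ y ≤ 1 := hy
  show (s • x + t • y) ⬝ᵥ (s • x + t • y) ≤ 1
  simp only [add_dotProduct, dotProduct_add, smul_dotProduct, dotProduct_smul, smul_eq_mul,
    dotProduct_comm y x]
  have h4 : s * s + 2 * (s * t) + t * t = 1 := by
    have : (s + t) * (s + t) = 1 := by rw [hst, mul_one]
    linarith
  nlinarith [mul_nonneg hs hs, mul_nonneg hs ht, mul_nonneg ht ht]

theorem isClosed_ball3 : IsClosed ball3 := isClosed_le (by fun_prop) continuous_const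

theorem isClosed_sph : IsClosed sph := isClosed_eq (by fun_prop) continuous_const

theorem sph_subset : sph ⊆ ball3 := fun _ hx => le_of_eq hx

theorem isCompact_sph : IsCompact sph := by
  refine (isCompact_closedBall (0 : V3) 1).of_isClosed_subset isClosed_sph fun x hx => ?_
  have h1 := norm_sq_le_dot x
  have h2 : x ⬝ᵥ x = 1 := hx
  rw [mem_closedBall_zero_iff]
  nlinarith [norm_nonneg x]

/-- an integer valued continuous function is constant along a path -/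
theorem const_of_path {Y : Type} [TopologicalSpace Y] {α : Y → ℤ} {S : Set Y}
    (hα : ContinuousOn α S) {z : ℝ → Y} {x y : ℝ} (hxy : x ≤ y) (hz : ContinuousOn z (Icc x y))
    (hm : ∀ t ∈ Icc x y, z t ∈ S) : α (z x) = α (z y) :=
  isPreconnected_Icc.constant (f := fun t => α (z t)) (hα.comp hz hm) (left_mem_Icc.2 hxy)
    (right_mem_Icc.2 hxy)

theorem int_cont {Y : Type} [TopologicalSpace Y] {S : Set Y} {g : Y → ℝ} (hg : ContinuousOn g S)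
    (hz : ∀ x ∈ S, ∃ k : ℤ, g x = k) : ∃ α : Y → ℤ, ContinuousOn α S ∧ ∀ x ∈ S, (α x : ℝ) = g x := by
  have h : ∀ x ∈ S, ((round (g x) : ℤ) : ℝ) = g x := fun x hx => by
    obtain ⟨k, hk⟩ := hz x hx
    rw [hk, round_intCast]
  refine ⟨fun x => round (g x), ?_, h⟩
  rw [Int.isClosedEmbedding_coe_real.isInducing.continuousOn_iff]
  exact hg.congr h

theorem CapAnnulus.mem_ball {ψ : ℝ × ℝ → V3} {a b τ θa θb : ℝ} (h : CapAnnulus ψ a b τ θa θb)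
    {p : ℝ × ℝ} (hp : p ∈ strip a b) : ψ p ∈ ball3 := by
  obtain ⟨u, v⟩ := p
  rcases eq_or_lt_of_le (show a ≤ u from hp.1) with rfl | h1
  · exact le_of_eq (h.sphere_a v)
  rcases eq_or_lt_of_le (show u ≤ b from hp.2) with rfl | h2
  · exact le_of_eq (h.sphere_b v)
  exact (h.inside (u, v) h1 h2).le

theorem CapAnnulus.contOn {ψ : ℝ × ℝ → V3} {a b τ θa θb : ℝ} (h : CapAnnulus ψ a b τ θa θb) :
    ContinuousOn ψ (strip a b) := fun p hp => (h.smooth p hp).continuousAt.continuousWithinAt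

theorem CapAnnulus.contOnN {ψ : ℝ × ℝ → V3} {a b τ θa θb : ℝ} (h : CapAnnulus ψ a b τ θa θb) :
    ContinuousOn (normal ψ) (strip a b) := fun _ hp => (h.smN hp).continuousAt.continuousWithinAt

/-- a function periodic on the strip is invariant under all integer multiples of the period -/
theorem per_int {Y : Type} {a b τ : ℝ} {f : ℝ × ℝ → Y}
    (hp : ∀ p ∈ strip a b, f (p.1, p.2 + τ) = f p) {p : ℝ × ℝ} (h : p ∈ strip a b) (k : ℤ) :
    f (p.1, p.2 + k * τ) = f p :=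
  Function.Periodic.int_mul (f := fun t => f (p.1, t)) (c := τ) (fun t => hp (p.1, t) h) k p.2

theorem exists_shift {τ : ℝ} (hτ : 0 < τ) (v : ℝ) : ∃ k : ℤ, v + k * τ ∈ Ico 0 τ := by
  refine ⟨-⌊v / τ⌋, ?_, ?_⟩
  · have := Int.floor_le (v / τ)
    rw [le_div_iff₀ hτ] at this
    push_cast
    linarith
  · have := Int.lt_floor_add_one (v / τ)
    rw [div_lt_iff₀ hτ] at this
    push_cast
    linarith

end Pool.Agent.Lib.MP_c7e804_gt
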