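import Pool.Agent.Lib.MP_c7e804_gt.H49Base

/-!
Curves leaving the surface and bridges along it.
-/

namespace Pool.Agent.Lib.MP_c7e804_gt

open Matrix Set Filter Topology

variable {ψ : ℝ × ℝ → V3} {a b τ θ : ℝ} {F : V3 → ℝ}

theorem Sep.curve (hF : Sep ψ a b F) {p : ℝ × ℝ} (hp : p ∈ strip a b) {z : ℝ → V3} {d : V3}
    (hz : HasDerivAt z d 0) (h0 : z 0 = ψ p) (hb : ∀ σ ∈ Icc (0 : ℝ) 1, z σ ∈ ball3)
    (hd : normal ψ p ⬝ᵥ d < 0) : ∃ σ ∈ Ioo (0 : ℝ) 1, F (z σ) < 0 := by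
  have hd0 := norm_nonneg d
  obtain ⟨η, hη, h1⟩ : ∃ η : ℝ, 0 < η ∧ normal ψ p ⬝ᵥ d + η * ‖d‖ < 0 := by
    refine ⟨-(normal ψ p ⬝ᵥ d) / (‖d‖ + 1), div_pos (neg_pos.2 hd) (by linarith), ?_⟩
    have h2 : -(normal ψ p ⬝ᵥ d) / (‖d‖ + 1) * ‖d‖ < -(normal ψ p ⬝ᵥ d) := by
      rw [div_mul_eq_mul_div, div_lt_iff₀ (by linarith)]
      nlinarith
    linarith
  obtain ⟨ε, hε, hc⟩ := hF.cone η hη
  have hg : Continuous fun w : V3 => normal ψ p ⬝ᵥ w + η * ‖w‖ := by fun_prop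
  have e1 := ((hg.tendsto d).comp hz.tendsto_slope_zero_right).eventually (gt_mem_nhds h1)
  have e2 : ∀ᶠ σ in 𝓝[>] (0 : ℝ), ‖z σ - ψ p‖ < ε := by
    have h3 := (Metric.tendsto_nhds.1 hz.continuousAt.tendsto ε hε).filter_mono
      (nhdsWithin_le_nhds (s := Ioi (0 : ℝ)))
    simpa only [dist_eq_norm, h0] using h3
  obtain ⟨σ, h2, h3, h4⟩ := (e1.and (e2.and (Ioo_mem_nhdsGT (zero_lt_one' ℝ)))).exists
  refine ⟨σ, h4, (hc p hp (z σ) (hb σ (Ioo_subset_Icc_self h4)) h3).2 ?_⟩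
  simp only [Function.comp, zero_add, h0, dotProduct_smul, smul_eq_mul, norm_smul,
    Real.norm_eq_abs, abs_of_pos (inv_pos.2 h4.1)] at h2
  have h5 : σ⁻¹ * (normal ψ p ⬝ᵥ (z σ - ψ p) + η * ‖z σ - ψ p‖) < 0 := by linarith
  have h6 := neg_of_mul_neg_right h5 (inv_pos.2 h4.1).le
  linarith

theorem Sep.bridge (h : CapAnnulus ψ a b τ θ θ) (hF : Sep ψ a b F) {n : V3} {h₀ σ : ℝ}
    (hσ : σ = 1 ∨ σ = -1) (hn : n ⬝ᵥ n = 1) {c : ℝ → ℝ × ℝ} {x y : ℝ} (hxy : x ≤ y)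
    (hc : ContinuousOn c (Icc x y)) (hin : ∀ s ∈ Icc x y, a < (c s).1 ∧ (c s).1 < b)
    (hN : ∀ s ∈ Icc x y, 1 / 2 ≤ normal ψ (c s) ⬝ᵥ n)
    (hf : ∀ s ∈ Icc x y, 0 ≤ σ * (n ⬝ᵥ ψ (c s) - h₀)) (hx : 0 < σ * (n ⬝ᵥ ψ (c x) - h₀))
    (hy : 0 < σ * (n ⬝ᵥ ψ (c y) - h₀)) {α : V3 → ℤ}
    (hα : ContinuousOn α {z ∈ ball3 | 0 < σ * (n ⬝ᵥ z - h₀) ∧ 0 ≤ σ * F z}) :
    α (ψ (c x)) = α (ψ (c y)) := by
  have hst : ∀ s ∈ Icc x y, c s ∈ strip a b := fun s hs => ⟨(hin s hs).1.le, (hin s hs).2.le⟩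
  have hψ : ContinuousOn (fun s => ψ (c s)) (Icc x y) := h.contOn.comp hc hst
  have hσ2 : σ * σ = 1 := by rcases hσ with rfl | rfl <;> norm_num
  have hσa : |σ| = 1 := by rcases hσ with rfl | rfl <;> norm_num
  have hn1 : ‖n‖ ≤ 1 := by
    have := norm_sq_le_dot n
    nlinarith [norm_nonneg n]
  obtain ⟨s₀, hs₀, hM⟩ := isCompact_Icc.exists_isMaxOn (nonempty_Icc.2 hxy)
    (f := fun s => ψ (c s) ⬝ᵥ ψ (c s))
    ((show Continuous fun w : V3 => w ⬝ᵥ w by fun_prop).comp_continuousOn hψ)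
  have hM1 : ψ (c s₀) ⬝ᵥ ψ (c s₀) < 1 := h.inside (c s₀) (hin s₀ hs₀).1 (hin s₀ hs₀).2
  obtain ⟨ε, hε, hco⟩ := hF.cone (1 / 4) (by norm_num)
  obtain ⟨e, he, he1, he2, he3⟩ : ∃ e : ℝ, 0 < e ∧ e < ε ∧ e ≤ 1 ∧
      ψ (c s₀) ⬝ᵥ ψ (c s₀) + 3 * e ≤ 1 := by
    refine ⟨min (ε / 2) (min 1 ((1 - ψ (c s₀) ⬝ᵥ ψ (c s₀)) / 3)),
      lt_min (by linarith) (lt_min one_pos (by linarith)), (min_le_left _ _).trans_lt (by linarith),
      (min_le_right _ _).trans (min_le_left _ _), ?_⟩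
    have := (min_le_right (ε / 2) _).trans
      (min_le_right 1 ((1 - ψ (c s₀) ⬝ᵥ ψ (c s₀)) / 3))
    linarith
  have key : ∀ s ∈ Icc x y, ∀ t ∈ Icc 0 e, (0 < t ∨ 0 < σ * (n ⬝ᵥ ψ (c s) - h₀)) →
      ψ (c s) + (t * σ) • n ∈ {z ∈ ball3 | 0 < σ * (n ⬝ᵥ z - h₀) ∧ 0 ≤ σ * F z} := by
    intro s hs t ht h1
    have hb : ψ (c s) + (t * σ) • n ∈ ball3 := by
      have h2 : ψ (c s) ⬝ᵥ ψ (c s) ≤ ψ (c s₀) ⬝ᵥ ψ (c s₀) := hM hs
      have h3 : σ * (n ⬝ᵥ ψ (c s)) ≤ 1 := by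
        have h4 := abs_dot_le_one hn.le (h.mem_ball (hst s hs))
        refine (le_abs_self _).trans ?_
        rwa [abs_mul, hσa, one_mul]
      show (ψ (c s) + (t * σ) • n) ⬝ᵥ (ψ (c s) + (t * σ) • n) ≤ 1
      simp only [add_dotProduct, dotProduct_add, smul_dotProduct, dotProduct_smul, smul_eq_mul,
        dotProduct_comm (ψ (c s)) n, hn]
      have h5 : t * σ * (t * σ) = t * t := by linear_combination t * t * hσ2
      have h6 := mul_le_mul_of_nonneg_left h3 ht.1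
      have h7 := mul_le_mul_of_nonneg_left (ht.2.trans he2) ht.1
      nlinarith [ht.2]
    refine ⟨hb, ?_, ?_⟩
    · have h2 : σ * (n ⬝ᵥ (ψ (c s) + (t * σ) • n) - h₀) = σ * (n ⬝ᵥ ψ (c s) - h₀) + t := by
        rw [dotProduct_add, dotProduct_smul, hn, smul_eq_mul]
        linear_combination t * hσ2
      rw [h2]
      have := hf s hs
      rcases h1 with h1 | h1 <;> linarith [ht.1]
    · rcases ht.1.eq_or_lt with rfl | h2
      · rw [zero_mul, zero_smul, add_zero,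
          (hF.zero _ (h.mem_ball (hst s hs))).2 (mem_image_of_mem _ (hst s hs)), mul_zero]
      have h3 : ‖ψ (c s) + (t * σ) • n - ψ (c s)‖ ≤ t := by
        rw [add_sub_cancel_left, norm_smul, Real.norm_eq_abs, abs_mul, hσa, mul_one, abs_of_pos h2]
        exact mul_le_of_le_one_right h2.le hn1
      have h4 := hco (c s) (hst s hs) _ hb (h3.trans_lt (ht.2.trans_lt he1))
      have h5 : normal ψ (c s) ⬝ᵥ (ψ (c s) + (t * σ) • n - ψ (c s)) =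
          σ * (t * (normal ψ (c s) ⬝ᵥ n)) := by
        rw [add_sub_cancel_left, dotProduct_smul, smul_eq_mul]
        ring
      have h6 := mul_le_mul_of_nonneg_left (hN s hs) h2.le
      rw [h5] at h4
      rcases hσ with rfl | rfl
      · have := h4.1 (by linarith)
        linarith
      · have := h4.2 (by linarith)
        linarith
  have up : ∀ s ∈ Icc x y, 0 < σ * (n ⬝ᵥ ψ (c s) - h₀) →
      α (ψ (c s)) = α (ψ (c s) + (e * σ) • n) := fun s hs h1 => by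
    have := const_of_path hα (z := fun t => ψ (c s) + (t * σ) • n) he.le (by fun_prop)
      fun t ht => key s hs t ht (Or.inr h1)
    simpa only [zero_mul, zero_smul, add_zero] using this
  rw [up x (left_mem_Icc.2 hxy) hx, up y (right_mem_Icc.2 hxy) hy]
  exact const_of_path hα (z := fun s => ψ (c s) + (e * σ) • n) hxy (hψ.add continuousOn_const)
    fun s hs => key s hs e (right_mem_Icc.2 he.le) (Or.inl he)

end Pool.Agent.Lib.MP_c7e804_gt
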