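import Pool.Agent.Lib.MP_c7e804_gt.H49Lift

/-!
Descent of periodic labels to the surface.
-/

namespace Pool.Agent.Lib.MP_c7e804_gt

open Matrix Set Filter Topology

variable {ψ : ℝ × ℝ → V3} {a b τ θ : ℝ}

theorem descend (h : CapAnnulus ψ a b τ θ θ) (he : Embedded ψ a b τ) {K : Set V3}
    {χ : ℝ × ℝ → ℤ} (hp : ∀ p ∈ strip a b, χ (p.1, p.2 + τ) = χ p)
    (hc : ContinuousOn χ {p ∈ strip a b | ψ p ∈ K}) :
    ∃ χ' : V3 → ℤ, ContinuousOn χ' (K ∩ ψ '' strip a b) ∧ ∀ p ∈ strip a b, χ' (ψ p) = χ p := by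
  classical
  have wd : ∀ p ∈ strip a b, ∀ q ∈ strip a b, ψ p = ψ q → χ q = χ p := by
    intro p hp' q hq e
    obtain ⟨h1, k, hk⟩ := he p hp' q hq e
    have : q = (p.1, p.2 + k * τ) := Prod.ext h1.symm hk
    rw [this]
    exact per_int hp hp' k
  set χ' : V3 → ℤ := fun y => if hy : ∃ p ∈ strip a b, ψ p = y then χ hy.choose else 0 with hχ'
  have hval : ∀ p ∈ strip a b, χ' (ψ p) = χ p := by
    intro p hp'
    have hy : ∃ q ∈ strip a b, ψ q = ψ p := ⟨p, hp', rfl⟩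
    simp only [hχ', dif_pos hy]
    exact wd p hp' _ hy.choose_spec.1 hy.choose_spec.2.symm
  refine ⟨χ', ?_, hval⟩
  rintro y ⟨hyK, p, hp', rfl⟩
  set B : Set (ℝ × ℝ) := Icc a b ×ˢ Icc 0 τ with hB
  have hBc : IsCompact B := isCompact_Icc.prod isCompact_Icc
  have hBs : B ⊆ strip a b := fun q hq => hq.1
  set D : Set (ℝ × ℝ) := {q ∈ B | ψ q ∈ K ∧ χ q ≠ χ p} with hD
  have hCB : closure D ⊆ B := closure_minimal (fun q hq => hq.1) hBc.isClosed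
  have hCc : IsCompact (closure D) := hBc.of_isClosed_subset isClosed_closure hCB
  have hne : ψ p ∉ ψ '' closure D := by
    rintro ⟨q, hq, e⟩
    have hqs : q ∈ strip a b := hBs (hCB hq)
    have h1 : ContinuousWithinAt χ D q :=
      (hc q ⟨hqs, e ▸ hyK⟩).mono fun r hr => ⟨hBs hr.1, hr.2.1⟩
    have h2 : ∀ᶠ r in 𝓝[D] q, χ r = χ q := by
      simpa [ContinuousWithinAt, nhds_discrete ℤ, tendsto_pure] using h1
    have : (𝓝[D] q).NeBot := mem_closure_iff_nhdsWithin_neBot.1 hq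
    obtain ⟨r, hr1, hr2⟩ := (h2.and self_mem_nhdsWithin).exists
    exact hr2.2.2 (hr1.trans (wd p hp' q hqs e.symm))
  have hcl : IsClosed (ψ '' closure D) :=
    (hCc.image_of_continuousOn (h.contOn.mono (hCB.trans hBs))).isClosed
  have hev : ∀ᶠ z in 𝓝[K ∩ ψ '' strip a b] (ψ p), χ' z = χ' (ψ p) := by
    filter_upwards [mem_nhdsWithin_of_mem_nhds (hcl.isOpen_compl.mem_nhds hne),
      self_mem_nhdsWithin] with z hz hz'
    obtain ⟨hzK, q, hq, rfl⟩ := hz'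
    obtain ⟨k, hk⟩ := exists_shift h.hτ q.2
    have h1 : ψ (q.1, q.2 + k * τ) = ψ q := per_int h.periodic hq k
    have h2 : χ (q.1, q.2 + k * τ) = χ q := per_int hp hq k
    rw [hval q hq, hval p hp', ← h2]
    by_contra hne'
    exact hz ⟨(q.1, q.2 + k * τ), subset_closure ⟨⟨hq, hk.1, hk.2.le⟩, by rwa [h1], hne'⟩, h1⟩
  exact tendsto_const_nhds.congr' (hev.mono fun z hz => hz.symm)

theorem Sep.mv (h : CapAnnulus ψ a b τ θ θ) (he : Embedded ψ a b τ) {F : V3 → ℝ}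
    (hF : Sep ψ a b F) {K : Set V3} (hK : K ⊆ ball3) (hL : Lifts K) {χ : ℝ × ℝ → ℤ}
    (hp : ∀ p ∈ strip a b, χ (p.1, p.2 + τ) = χ p)
    (hc : ContinuousOn χ {p ∈ strip a b | ψ p ∈ K}) :
    ∃ α β : V3 → ℤ, ContinuousOn α {x ∈ K | 0 ≤ F x} ∧ ContinuousOn β {x ∈ K | F x ≤ 0} ∧
      ∀ p ∈ strip a b, ψ p ∈ K → α (ψ p) - β (ψ p) = χ p := by
  obtain ⟨χ', h1, h2⟩ := descend h he hp hc
  obtain ⟨α, β, hα, hβ, h3⟩ := mv_split hL (hF.cont.mono hK) (χ := χ')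
    (h1.mono fun x hx => ⟨hx.1, (hF.zero x (hK hx.1)).1 hx.2⟩)
  refine ⟨α, β, hα, hβ, fun p hp' hpK => ?_⟩
  rw [h3 _ hpK ((hF.zero _ (hK hpK)).2 ⟨p, hp', rfl⟩), h2 p hp']

end Pool.Agent.Lib.MP_c7e804_gt
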