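import Pool.Agent.Lib.MP_c7e804_gt.H49Base

/-!
Lifting of circle valued functions and splitting of integer labels.
-/

namespace Pool.Agent.Lib.MP_c7e804_gt

open Matrix Set Filter Topology

theorem lift_contr {X : Set V3} {x₀ : V3} (h : ℝ × V3 → V3)
    (hc : ContinuousOn h (Icc (0 : ℝ) 1 ×ˢ X)) (hm : ∀ t ∈ Icc (0 : ℝ) 1, ∀ x ∈ X, h (t, x) ∈ X)
    (h0 : ∀ x ∈ X, h (0, x) = x₀) (h1 : ∀ x ∈ X, h (1, x) = x) : Lifts X := by
  classical
  intro f hf
  have hj : Continuous fun q : unitInterval × X => ((q.1 : ℝ), (q.2 : V3)) := by fun_prop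
  have hH : Continuous fun q : unitInterval × X => f (h ((q.1 : ℝ), (q.2 : V3))) :=
    hf.comp_continuous (hc.comp_continuous hj fun q => ⟨q.1.2, q.2.2⟩)
      fun q => hm _ q.1.2 _ q.2.2
  obtain ⟨c, hc0⟩ : ∃ c : ℝ, (c : AddCircle (1 : ℝ)) = f x₀ := QuotientAddGroup.mk_surjective _
  have cov := AddCircle.isCoveringMap_coe (1 : ℝ)
  have H0 : ∀ a : X, (⟨_, hH⟩ : C(unitInterval × X, AddCircle (1 : ℝ))) (0, a) =
      ((ContinuousMap.const X c a : ℝ) : AddCircle (1 : ℝ)) := fun a => by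
    show f (h (0, a)) = (c : AddCircle (1 : ℝ))
    rw [h0 _ a.2, hc0]
  have hl := cov.liftHomotopy_lifts ⟨_, hH⟩ (ContinuousMap.const X c) H0
  set L := cov.liftHomotopy ⟨_, hH⟩ (ContinuousMap.const X c) H0
  refine ⟨fun x => if hx : x ∈ X then L (1, ⟨x, hx⟩) else 0, ?_, fun x hx => ?_⟩
  · rw [continuousOn_iff_continuous_domRestrict]
    have : Continuous fun a : X => L (1, a) := by fun_prop
    exact this.congr fun a => by simp [a.2]
  · have := congr_fun hl (1, ⟨x, hx⟩)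
    simp only [dif_pos hx]
    refine this.trans ?_
    show f (h (1, x)) = f x
    rw [h1 x hx]

theorem lifts_star {X : Set V3} {x₀ : V3} (h : StarConvex ℝ x₀ X) : Lifts X := by
  refine lift_contr (x₀ := x₀) (fun q => (1 - q.1) • x₀ + q.1 • q.2) (by fun_prop)
    (fun t ht x hx => h hx (sub_nonneg.2 ht.2) ht.1 (sub_add_cancel 1 t)) ?_ ?_
  · intro x _
    simp
  · intro x _
    simp

theorem lifts_convex {X : Set V3} (h : Convex ℝ X) : Lifts X := by
  rcases X.eq_empty_or_nonempty with rfl | ⟨x₀, hx⟩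
  · exact fun _ _ => ⟨fun _ => 0, continuousOn_empty _, fun _ hx => hx.elim⟩
  · exact lifts_star (h.starConvex hx)

theorem lift_cap_ineq {s k t : ℝ} (h0 : 0 ≤ k) (h1 : k ≤ 1) (hs : s < k) (ht0 : 0 ≤ t)
    (ht1 : t ≤ 1) : t * s - (1 - t) < k * √((1 - t) ^ 2 - 2 * t * (1 - t) * s + t ^ 2) := by
  rcases lt_or_ge (t * s - (1 - t)) 0 with hL | hL
  · exact hL.trans_le (mul_nonneg h0 (Real.sqrt_nonneg _))
  have ht : 0 < t := by
    rcases eq_or_lt_of_le ht0 with rfl | h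
    · norm_num at hL
    · exact h
  have hs0 : 0 ≤ s := by
    by_contra hneg
    have := mul_neg_of_pos_of_neg ht (not_le.1 hneg)
    linarith
  have hk : 0 < k := hs0.trans_lt hs
  rw [← Real.sqrt_sq h0, ← Real.sqrt_mul (sq_nonneg k)]
  refine Real.lt_sqrt_of_sq_lt ?_
  have e1 : (t * s - (1 - t)) ^ 2 ≤ (t * s) ^ 2 := pow_le_pow_left₀ hL (by linarith) 2
  have e2 : 0 ≤ 1 - k ^ 2 := by nlinarith
  have e3 := mul_le_mul_of_nonneg_right e1 e2
  have e4 : s ^ 2 < k ^ 2 := pow_lt_pow_left₀ hs hs0 two_ne_zero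
  have e5 := mul_lt_mul_of_pos_left e4 (pow_pos ht 2)
  nlinarith

theorem lifts_cap {w : V3} {k : ℝ} (hw : w ⬝ᵥ w = 1) (h0 : 0 ≤ k) (h1 : k ≤ 1) :
    Lifts {x ∈ sph | w ⬝ᵥ x < k} := by
  have key : ∀ t ∈ Icc (0 : ℝ) 1, ∀ x ∈ {x ∈ sph | w ⬝ᵥ x < k},
      w ⬝ᵥ ((1 - t) • -w + t • x) < k * √(((1 - t) • -w + t • x) ⬝ᵥ ((1 - t) • -w + t • x)) := by
    intro t ht x hx
    have hx1 : x ⬝ᵥ x = 1 := hx.1
    have := lift_cap_ineq h0 h1 hx.2 ht.1 ht.2
    simp only [add_dotProduct, dotProduct_add, smul_dotProduct, dotProduct_smul, smul_eq_mul,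
      neg_dotProduct, dotProduct_neg, dotProduct_comm x w, hw, hx1]
    convert this using 1
    · ring
    · congr 2
      ring
  have hne : ∀ t ∈ Icc (0 : ℝ) 1, ∀ x ∈ {x ∈ sph | w ⬝ᵥ x < k}, (1 - t) • -w + t • x ≠ 0 := by
    intro t ht x hx e
    have := key t ht x hx
    rw [e] at this
    simp at this
  refine lift_contr (x₀ := -w) (fun q => nz ((1 - q.1) • -w + q.1 • q.2)) ?_ ?_ ?_ ?_
  · intro q hq
    refine ContinuousAt.continuousWithinAt ?_
    exact ContinuousAt.comp (f := fun q : ℝ × V3 => (1 - q.1) • -w + q.1 • q.2)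
      (continuousAt_nz (hne _ hq.1 _ hq.2)) (by fun_prop)
  · intro t ht x hx
    refine ⟨nz_unit (hne t ht x hx), ?_⟩
    show w ⬝ᵥ nz ((1 - t) • -w + t • x) < k
    rw [dot_nz, div_lt_iff₀ (Real.sqrt_pos.2 (dot_pos (hne t ht x hx)))]
    exact key t ht x hx
  · intro x _
    show nz ((1 - (0 : ℝ)) • -w + (0 : ℝ) • x) = -w
    rw [sub_zero, one_smul, zero_smul, add_zero]
    exact nz_of_unit (by rw [neg_dotProduct, dotProduct_neg, neg_neg, hw])
  · intro x hx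
    show nz ((1 - (1 : ℝ)) • -w + (1 : ℝ) • x) = x
    rw [sub_self, one_smul, zero_smul, zero_add]
    exact nz_of_unit hx.1

theorem lift_ext {X : Set V3} {F : V3 → ℝ} (hF : ContinuousOn F X) {u : V3 → ℝ}
    (hu : ContinuousOn u {x ∈ X | F x = 0}) :
    ∃ g : V3 → ℝ, ContinuousOn g X ∧ ∀ x ∈ X, F x = 0 → g x = u x := by
  classical
  have hF' : Continuous fun a : X => F a := continuousOn_iff_continuous_domRestrict.1 hF
  have hcl : IsClosed {a : X | F a = 0} := isClosed_eq hF' continuous_const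
  have hu' : Continuous fun b : {a : X | F a = 0} => u (b : X) :=
    hu.comp_continuous (by fun_prop) fun b => ⟨b.1.2, b.2⟩
  obtain ⟨g, hg⟩ := ContinuousMap.exists_restrict_eq hcl ⟨_, hu'⟩
  refine ⟨fun x => if hx : x ∈ X then g ⟨x, hx⟩ else 0, ?_, fun x hx h0 => ?_⟩
  · rw [continuousOn_iff_continuous_domRestrict]
    exact g.continuous.congr fun a => by simp [a.2]
  · simp only [dif_pos hx]
    exact DFunLike.congr_fun hg ⟨⟨x, hx⟩, h0⟩

theorem lift_int {a b : ℝ} (h : (a : AddCircle (1 : ℝ)) = b) : ∃ k : ℤ, b - a = k := by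
  have h1 : ((b - a : ℝ) : AddCircle (1 : ℝ)) = 0 := by rw [AddCircle.coe_sub, h, sub_self]
  obtain ⟨k, hk⟩ := (AddCircle.coe_eq_zero_iff _).1 h1
  exact ⟨k, by simpa using hk.symm⟩

theorem mv_split {X : Set V3} (hX : Lifts X) {F : V3 → ℝ} (hF : ContinuousOn F X) {χ : V3 → ℤ}
    (hχ : ContinuousOn χ {x ∈ X | F x = 0}) :
    ∃ α β : V3 → ℤ, ContinuousOn α {x ∈ X | 0 ≤ F x} ∧ ContinuousOn β {x ∈ X | F x ≤ 0} ∧
      ∀ x ∈ X, F x = 0 → α x - β x = χ x := by
  classical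
  obtain ⟨g, hg, hgχ⟩ := lift_ext hF (u := fun x => (χ x : ℝ))
    (Int.isClosedEmbedding_coe_real.continuous.comp_continuousOn hχ)
  have hz : ∀ x ∈ X, F x = 0 → ((g x : ℝ) : AddCircle (1 : ℝ)) = ((0 : ℝ) : AddCircle (1 : ℝ)) := by
    intro x hx h0
    rw [hgχ x hx h0]
    exact (AddCircle.coe_eq_zero_iff _).2 ⟨χ x, by simp⟩
  have hf : ContinuousOn (fun x => if 0 ≤ F x then ((g x : ℝ) : AddCircle (1 : ℝ))
      else ((0 : ℝ) : AddCircle (1 : ℝ))) X := by
    rw [continuousOn_iff_continuous_domRestrict]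
    have hF' : Continuous fun a : X => F a := continuousOn_iff_continuous_domRestrict.1 hF
    have hg' : Continuous fun a : X => g a := continuousOn_iff_continuous_domRestrict.1 hg
    exact Continuous.if_le (f := fun _ : X => (0 : ℝ)) (g := fun a : X => F a)
      ((AddCircle.continuous_mk' 1).comp hg') continuous_const continuous_const hF'
      fun a ha => hz a a.2 ha.symm
  obtain ⟨G, hG, hGf⟩ := hX _ hf
  obtain ⟨α, hα, eα⟩ := int_cont (S := {x ∈ X | 0 ≤ F x}) (g := fun x => g x - G x)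
    ((hg.sub hG).mono fun _ hx => hx.1) fun x hx => lift_int (by rw [hGf x hx.1, if_pos hx.2])
  obtain ⟨β, hβ, eβ⟩ := int_cont (S := {x ∈ X | F x ≤ 0}) (g := fun x => 0 - G x)
    ((continuousOn_const.sub hG).mono fun _ hx => hx.1) fun x hx => lift_int (by
      rw [hGf x hx.1]
      split_ifs with h
      · exact hz x hx.1 (le_antisymm hx.2 h)
      · rfl)
  refine ⟨α, β, hα, hβ, fun x hx h0 => ?_⟩
  have e1 := eα x ⟨hx, h0.ge⟩
  have e2 := eβ x ⟨hx, h0.le⟩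
  have e3 := hgχ x hx h0
  have : ((α x - β x : ℤ) : ℝ) = (χ x : ℝ) := by
    push_cast
    linarith
  exact_mod_cast this

end Pool.Agent.Lib.MP_c7e804_gt
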