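import Pool.Agent.Lib.MP_c7e804_gt.H49Base

/-!
Every piece of a sublevel set of a linear function reaches the boundary.
-/

namespace Pool.Agent.Lib.MP_c7e804_gt

open Matrix Set Filter Topology

variable {ψ : ℝ × ℝ → V3} {a b τ θ : ℝ}

theorem minp_du {g : ℝ × ℝ → V3} {u v : ℝ} (hg : DifferentiableAt ℝ g (u, v)) (n : V3) :
    HasDerivAt (fun t => n ⬝ᵥ g (t, v)) (n ⬝ᵥ du g (u, v)) u := by
  have h1 := (HasD.const n).dot (hasD_du hg)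
  have h2 := hasDerivAt_line_u h1.1
  rw [h1.du_eq, zero_dotProduct, zero_add] at h2
  exact h2

theorem minp_dv {g : ℝ × ℝ → V3} {u v : ℝ} (hg : DifferentiableAt ℝ g (u, v)) (n : V3) :
    HasDerivAt (fun t => n ⬝ᵥ g (u, t)) (n ⬝ᵥ dv g (u, v)) v := by
  have h1 := (HasD.const n).dot (hasD_dv hg)
  have h2 := hasDerivAt_line_v h1.1
  rw [h1.dv_eq, zero_dotProduct, zero_add] at h2
  exact h2

theorem minp_ev (h : CapAnnulus ψ a b τ θ θ) {p : ℝ × ℝ} (hp : p ∈ strip a b) :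
    ∀ᶠ q in 𝓝 p, DifferentiableAt ℝ ψ q := by
  have h1 : ContDiffAt ℝ 1 ψ p := (h.smooth p hp).of_le (by simp)
  exact (h1.eventually (by simp)).mono fun q hq => hq.differentiableAt (by simp)

theorem minp_sq (c x t : ℝ) : HasDerivAt (fun s : ℝ => c * (s - x) ^ 2) (c * (2 * (t - x))) t := by
  have := (((hasDerivAt_id t).sub_const x).pow 2).const_mul c
  simpa using this

theorem minp_lin (c x t : ℝ) : HasDerivAt (fun s : ℝ => c * (2 * (s - x))) (c * 2) t := by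
  have := (((hasDerivAt_id t).sub_const x).const_mul 2).const_mul c
  simpa using this

theorem minp_strict {g g' : ℝ → ℝ} {g'' x : ℝ} (h1 : ∀ᶠ t in 𝓝 x, HasDerivAt g (g' t) t)
    (h2 : HasDerivAt g' g'' x) (h0 : g' x = 0) (hpos : 0 < g'') :
    ∃ d : ℝ, 0 < d ∧ ∀ s, s ≠ 0 → |s| ≤ d → g x < g (x + s) := by
  have k1 : ∀ᶠ t in 𝓝 x, HasDerivAt (fun s => g s - g'' / 4 * (s - x) ^ 2)
      (g' t - g'' / 4 * (2 * (t - x))) t := h1.mono fun t ht => ht.sub (minp_sq _ x t)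
  have k2 := h2.sub (minp_lin (g'' / 4) x x)
  have hd : deriv (fun s => g s - g'' / 4 * (s - x) ^ 2)
      =ᶠ[𝓝 x] fun t => g' t - g'' / 4 * (2 * (t - x)) := k1.mono fun t ht => ht.deriv
  have hdd : deriv (deriv (fun s => g s - g'' / 4 * (s - x) ^ 2)) x = g'' - g'' / 4 * 2 := by
    rw [hd.deriv_eq]; exact k2.deriv
  have hmin : IsLocalMin (fun s => g s - g'' / 4 * (s - x) ^ 2) x :=
    isLocalMin_of_deriv_deriv_pos (by rw [hdd]; linarith)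
      (by rw [k1.self_of_nhds.deriv, h0]; ring) k1.self_of_nhds.continuousAt
  obtain ⟨d, hd0, hball⟩ := Metric.eventually_nhds_iff.1 hmin
  refine ⟨d / 2, by linarith, fun s hs hsd => ?_⟩
  have h3 : dist (x + s) x < d := by
    rw [Real.dist_eq, add_sub_cancel_left]; linarith
  have h4 := hball h3
  simp only [sub_self, add_sub_cancel_left] at h4
  have h5 : 0 < g'' / 4 * s ^ 2 := by positivity
  linarith

theorem reach_bd (h : CapAnnulus ψ a b τ θ θ) (n : V3) (h₀ : ℝ) {β : ℝ × ℝ → ℤ}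
    (hp : ∀ p ∈ strip a b, β (p.1, p.2 + τ) = β p)
    (hc : ContinuousOn β {p ∈ strip a b | n ⬝ᵥ ψ p < h₀}) {q : ℝ × ℝ} (hq : q ∈ strip a b)
    (hlt : n ⬝ᵥ ψ q < h₀) :
    ∃ x ∈ strip a b, (x.1 = a ∨ x.1 = b) ∧ n ⬝ᵥ ψ x < h₀ ∧ β x = β q := by
  by_contra hno
  have hab : 0 < b - a := sub_pos.2 h.hab
  obtain ⟨ε, hε, hεlt⟩ : ∃ ε : ℝ, 0 < ε ∧ n ⬝ᵥ ψ q + ε * (b - a) ^ 2 < h₀ := by
    refine ⟨(h₀ - n ⬝ᵥ ψ q) / 2 / (b - a) ^ 2, div_pos (by linarith) (by positivity), ?_⟩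
    rw [div_mul_cancel₀ _ (by positivity)]
    linarith
  have hf : ContinuousOn (fun p => n ⬝ᵥ ψ p) (strip a b) :=
    (show Continuous fun y : V3 => n ⬝ᵥ y by fun_prop).comp_continuousOn h.contOn
  have hB : IsCompact (Icc a b ×ˢ Icc (0 : ℝ) τ) := isCompact_Icc.prod isCompact_Icc
  have hBs : Icc a b ×ˢ Icc (0 : ℝ) τ ⊆ strip a b := fun p hp => hp.1
  set K₀ : Set (ℝ × ℝ) := (Icc a b ×ˢ Icc (0 : ℝ) τ) ∩
    (fun p => n ⬝ᵥ ψ p) ⁻¹' Iic (n ⬝ᵥ ψ q + ε * (b - a) ^ 2) with hK₀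
  have hK₀c : IsClosed K₀ := (hf.mono hBs).preimage_isClosed_of_isClosed hB.isClosed isClosed_Iic
  have hK₀S : K₀ ⊆ {p ∈ strip a b | n ⬝ᵥ ψ p < h₀} :=
    fun p hp => ⟨hBs hp.1, lt_of_le_of_lt hp.2 hεlt⟩
  set K : Set (ℝ × ℝ) := K₀ ∩ β ⁻¹' {β q} with hK
  have hKc : IsCompact K :=
    hB.of_isClosed_subset ((hc.mono hK₀S).preimage_isClosed_of_isClosed hK₀c isClosed_singleton)
      fun p hp => hp.1.1
  have hshift : ∀ r ∈ strip a b, ∃ r' ∈ Icc a b ×ˢ Icc (0 : ℝ) τ,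
      r'.1 = r.1 ∧ ψ r' = ψ r ∧ β r' = β r := by
    intro r hr
    obtain ⟨k, hk⟩ := exists_shift h.hτ r.2
    exact ⟨(r.1, r.2 + k * τ), ⟨hr, Ico_subset_Icc_self hk⟩, rfl, per_int h.periodic hr k,
      per_int hp hr k⟩
  have hWc : ContinuousOn (fun p : ℝ × ℝ => n ⬝ᵥ ψ p - ε * (p.1 - a) ^ 2) K :=
    (hf.mono fun p hp => hBs hp.1.1).sub (by fun_prop)
  obtain ⟨q', hq'B, hq'1, hq'2, hq'3⟩ := hshift q hq
  have hq'K : q' ∈ K := by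
    refine ⟨⟨hq'B, ?_⟩, hq'3⟩
    show n ⬝ᵥ ψ q' ≤ _
    rw [hq'2]
    exact le_add_of_nonneg_right (by positivity)
  obtain ⟨x, hxK, hxmin⟩ := hKc.exists_isMinOn ⟨q', hq'K⟩ hWc
  have hxq : n ⬝ᵥ ψ x - ε * (x.1 - a) ^ 2 ≤ n ⬝ᵥ ψ q := by
    have h1 : n ⬝ᵥ ψ x - ε * (x.1 - a) ^ 2 ≤ n ⬝ᵥ ψ q' - ε * (q'.1 - a) ^ 2 := hxmin hq'K
    have h2 : 0 ≤ ε * (q'.1 - a) ^ 2 := by positivity
    rw [hq'2] at h1
    linarith
  have hglob : ∀ r ∈ strip a b, β r = β q →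
      n ⬝ᵥ ψ x - ε * (x.1 - a) ^ 2 ≤ n ⬝ᵥ ψ r - ε * (r.1 - a) ^ 2 := by
    intro r hr hβ
    obtain ⟨r', hr'B, hr'1, hr'2, hr'3⟩ := hshift r hr
    by_cases hle : n ⬝ᵥ ψ r ≤ n ⬝ᵥ ψ q + ε * (b - a) ^ 2
    · have hr'K : r' ∈ K := by
        refine ⟨⟨hr'B, ?_⟩, hr'3.trans hβ⟩
        show n ⬝ᵥ ψ r' ≤ _
        rw [hr'2]
        exact hle
      have h1 : n ⬝ᵥ ψ x - ε * (x.1 - a) ^ 2 ≤ n ⬝ᵥ ψ r' - ε * (r'.1 - a) ^ 2 := hxmin hr'K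
      rw [hr'1, hr'2] at h1
      exact h1
    · have h1 : (r.1 - a) ^ 2 ≤ (b - a) ^ 2 :=
        pow_le_pow_left₀ (sub_nonneg.2 hr.1) (sub_le_sub_right hr.2 a) 2
      have h2 := mul_le_mul_of_nonneg_left h1 hε.le
      linarith [not_le.1 hle]
  have hxS := hK₀S hxK.1
  have hxβ : β x = β q := hxK.2
  have hxa : a < x.1 :=
    lt_of_le_of_ne hxS.1.1 fun e => hno ⟨x, hxS.1, Or.inl e.symm, hxS.2, hxβ⟩
  have hxb : x.1 < b :=
    lt_of_le_of_ne hxS.1.2 fun e => hno ⟨x, hxS.1, Or.inr e, hxS.2, hxβ⟩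
  have hstrip : strip a b ∈ 𝓝 x := by
    filter_upwards [continuous_fst.continuousAt.eventually (Ioo_mem_nhds hxa hxb)] with r hr
    exact ⟨hr.1.le, hr.2.le⟩
  have hS : {p ∈ strip a b | n ⬝ᵥ ψ p < h₀} ∈ 𝓝 x := by
    filter_upwards [hstrip, (hf.continuousAt hstrip).eventually (gt_mem_nhds hxS.2)] with r h1 h2
    exact ⟨h1, h2⟩
  have hβ : ∀ᶠ r in 𝓝 x, β r = β x :=
    (hc.continuousAt hS).eventually ((isOpen_discrete {β x}).mem_nhds rfl)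
  have hloc : ∀ᶠ r in 𝓝 x,
      n ⬝ᵥ ψ x - ε * (x.1 - a) ^ 2 ≤ n ⬝ᵥ ψ r - ε * (r.1 - a) ^ 2 := by
    filter_upwards [hstrip, hβ] with r h1 h2
    exact hglob r h1 (h2.trans hxβ)
  obtain ⟨u, v⟩ := x
  have hev := minp_ev h hxS.1
  have hcu : ContinuousAt (fun t : ℝ => ((t, v) : ℝ × ℝ)) u := by fun_prop
  have hcv : ContinuousAt (fun t : ℝ => ((u, t) : ℝ × ℝ)) v := by fun_prop
  have e1 := second_deriv_nonpos (g := fun t => ε * (t - a) ^ 2 - n ⬝ᵥ ψ (t, v))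
    (g' := fun t => ε * (2 * (t - a)) - n ⬝ᵥ du ψ (t, v)) (x := u)
    ((hcu.eventually hloc).mono fun t ht => by simp only at ht ⊢; linarith)
    ((hcu.eventually hev).mono fun t ht => (minp_sq ε a t).sub (minp_du ht n))
    ((minp_lin ε a u).sub (minp_du (sm_diff (h.smA hxS.1)) n))
  have e2 := second_deriv_nonpos (g := fun t => -(n ⬝ᵥ ψ (u, t)))
    (g' := fun t => -(n ⬝ᵥ dv ψ (u, t))) (x := v)
    ((hcv.eventually hloc).mono fun t ht => by simp only at ht ⊢; linarith)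
    ((hcv.eventually hev).mono fun t ht => (minp_dv ht n).neg)
    (minp_dv (sm_diff (h.smB hxS.1)) n).neg
  have e3 := e2.2
  rw [h.Bv hxS.1, dotProduct_neg] at e3
  linarith [e1.2]

theorem saddle (h : Cap ψ a b τ θ) {p : ℝ × ℝ} (hp : p ∈ strip a b) : ∃ d₀ : ℝ, 0 < d₀ ∧
    ∀ s, s ≠ 0 → |s| ≤ d₀ →
      (p.1 + s ∈ Icc a b → normal ψ p ⬝ᵥ ψ p < normal ψ p ⬝ᵥ ψ (p.1 + s, p.2)) ∧
      normal ψ p ⬝ᵥ ψ (p.1, p.2 + s) < normal ψ p ⬝ᵥ ψ p := by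
  obtain ⟨u, v⟩ := p
  have hev := minp_ev h.ann hp
  have hcu : ContinuousAt (fun t : ℝ => ((t, v) : ℝ × ℝ)) u := by fun_prop
  have hcv : ContinuousAt (fun t : ℝ => ((u, t) : ℝ × ℝ)) v := by fun_prop
  have hL : 0 < normal ψ (u, v) ⬝ᵥ du (du ψ) (u, v) := by
    have h1 : 0 < sffL ψ (u, v) := by
      rw [h.L_const hp]
      linarith [h.q_pos]
    rwa [sffL, dotProduct_comm] at h1
  obtain ⟨d₁, hd₁, h₁⟩ := minp_strict (g := fun t => normal ψ (u, v) ⬝ᵥ ψ (t, v))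
    (g' := fun t => normal ψ (u, v) ⬝ᵥ du ψ (t, v)) (x := u)
    ((hcu.eventually hev).mono fun t ht => minp_du ht _)
    (minp_du (sm_diff (h.ann.smA hp)) _) (h.ann.fr hp).NA hL
  obtain ⟨d₂, hd₂, h₂⟩ := minp_strict (g := fun t => -(normal ψ (u, v) ⬝ᵥ ψ (u, t)))
    (g' := fun t => -(normal ψ (u, v) ⬝ᵥ dv ψ (u, t))) (x := v)
    ((hcv.eventually hev).mono fun t ht => (minp_dv ht _).neg)
    (minp_dv (sm_diff (h.ann.smB hp)) _).neg (by rw [(h.ann.fr hp).NB, neg_zero])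
    (by rw [h.ann.Bv hp, dotProduct_neg, neg_neg]; exact hL)
  refine ⟨min d₁ d₂, lt_min hd₁ hd₂, fun s hs hsd => ⟨fun _ => ?_, ?_⟩⟩
  · exact h₁ s hs (hsd.trans (min_le_left _ _))
  · exact neg_lt_neg_iff.1 (h₂ s hs (hsd.trans (min_le_right _ _)))

end Pool.Agent.Lib.MP_c7e804_gt
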