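import Pool.Agent.Lib.MP_c7e804_gt.H60Sep
import Pool.Agent.Lib.MP_c7e804_gt.H49MinP
import Pool.Agent.Lib.MP_c7e804_gt.H49Lift
import Pool.Agent.Lib.MP_c7e804_gt.H49Desc
import Pool.Agent.Lib.MP_c7e804_gt.H49Cone

/-!
The two boundary curves are not joined below a plane on the negative side.
-/

namespace Pool.Agent.Lib.MP_c7e804_gt

open Matrix Set Filter Topology

variable {ψ : ℝ × ℝ → V3} {a b τ θ : ℝ} {F : V3 → ℝ}

theorem exists_pole (h : Cap ψ a b τ θ) (hc : 0 < Real.cos θ) (hF : Sep ψ a b F) {n : V3}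
    {h₀ : ℝ} {p : ℝ × ℝ} (hp : p ∈ strip a b) (hup : h₀ < n ⬝ᵥ ψ p) :
    ∃ o ∈ sph, F o < 0 ∧ h₀ < n ⬝ᵥ o := by
  obtain ⟨x, hx, hxb, hlt, -⟩ := reach_bd h.ann (-n) (-h₀) (β := fun _ => 0) (fun _ _ => rfl)
    continuousOn_const hp (by rw [neg_dotProduct]; linarith)
  rw [neg_dotProduct, neg_lt_neg_iff] at hlt
  have hs : 0 < Real.sin θ := Real.sin_pos_of_pos_of_lt_pi h.ann.hθa.1 h.ann.hθa.2
  have hyy : ψ x ⬝ᵥ ψ x = 1 := h.bd_unit hxb x.2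
  have hNy : normal ψ x ⬝ᵥ ψ x = Real.cos θ := h.geo_angle hxb x.2
  have hNN : normal ψ x ⬝ᵥ normal ψ x = 1 := (h.ann.fr hx).NN
  have hsc := Real.sin_sq_add_cos_sq θ
  set m : V3 := (Real.sin θ)⁻¹ • (normal ψ x - Real.cos θ • ψ x) with hm
  have hNm : normal ψ x ⬝ᵥ m = Real.sin θ := by
    rw [hm, dotProduct_smul, dotProduct_sub, dotProduct_smul, hNN, hNy, smul_eq_mul, smul_eq_mul]
    field_simp
    linarith
  have hym : ψ x ⬝ᵥ m = 0 := by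
    rw [hm, dotProduct_smul, dotProduct_sub, dotProduct_smul, hyy, dotProduct_comm, hNy]
    simp
  have hmm : m ⬝ᵥ m = 1 := by
    conv_lhs => lhs; rw [hm]
    rw [smul_dotProduct, sub_dotProduct, smul_dotProduct, hNm, hym, smul_eq_mul, smul_eq_mul,
      mul_zero, sub_zero, inv_mul_cancel₀ hs.ne']
  have hunit : ∀ t : ℝ, Real.cos t • ψ x - Real.sin t • m ∈ sph := fun t => by
    show (Real.cos t • ψ x - Real.sin t • m) ⬝ᵥ (Real.cos t • ψ x - Real.sin t • m) = 1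
    simp only [sub_dotProduct, dotProduct_sub, smul_dotProduct, dotProduct_smul, smul_eq_mul,
      dotProduct_comm m (ψ x), hyy, hym, hmm]
    linarith [Real.sin_sq_add_cos_sq t]
  have hcont : Continuous fun t : ℝ => n ⬝ᵥ (Real.cos t • ψ x - Real.sin t • m) := by fun_prop
  have hev : ∀ᶠ t in 𝓝 (0 : ℝ), h₀ < n ⬝ᵥ (Real.cos t • ψ x - Real.sin t • m) :=
    hcont.continuousAt.eventually (lt_mem_nhds (by simpa using hlt))
  obtain ⟨ε, hε, hb⟩ := Metric.eventually_nhds_iff.1 hev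
  have h1 : HasDerivAt (fun σ : ℝ => ε * σ) ε 0 := by
    simpa using (hasDerivAt_id (0 : ℝ)).const_mul ε
  have hz : HasDerivAt (fun σ : ℝ => Real.cos (ε * σ) • ψ x - Real.sin (ε * σ) • m)
      (-(ε • m)) 0 := by
    simpa using (h1.cos.smul_const (ψ x)).fun_sub (h1.sin.smul_const m)
  obtain ⟨σ, hσ, hneg⟩ := hF.curve hx hz (by simp) (fun σ _ => sph_subset (hunit _)) (by
    rw [dotProduct_neg, dotProduct_smul, hNm, smul_eq_mul]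
    exact neg_neg_of_pos (mul_pos hε hs))
  refine ⟨_, hunit _, hneg, hb ?_⟩
  rw [Real.dist_eq, sub_zero, abs_of_pos (mul_pos hε hσ.1)]
  exact mul_lt_of_lt_one_right hε hσ.2

theorem beta_dot_lt {o x : V3} (ho : o ∈ sph) (hx : x ∈ sph) (hne : x ≠ o) : o ⬝ᵥ x < 1 := by
  have h1 := dot_pos (sub_ne_zero.2 hne)
  have h2 : o ⬝ᵥ o = 1 := ho
  have h3 : x ⬝ᵥ x = 1 := hx
  rw [sub_dotProduct, dotProduct_sub, dotProduct_sub, h2, h3, dotProduct_comm x o] at h1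
  linarith

theorem beta_bd (h : CapAnnulus ψ a b τ θ θ) {p : ℝ × ℝ} (hp : p ∈ strip a b) (hs : ψ p ∈ sph) :
    p.1 = a ∨ p.1 = b := by
  rcases eq_or_lt_of_le (show a ≤ p.1 from hp.1) with h1 | h1
  · exact Or.inl h1.symm
  rcases eq_or_lt_of_le (show p.1 ≤ b from hp.2) with h2 | h2
  · exact Or.inr h2
  exact absurd (show ψ p ⬝ᵥ ψ p = 1 from hs) (h.inside p h1 h2).ne

theorem beta_nz {n z : V3} {h₀ : ℝ} (h0 : h₀ < 0) (hz : z ∈ ball3) (hlt : n ⬝ᵥ z < h₀) :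
    z ≠ 0 ∧ nz z ∈ sph ∧ n ⬝ᵥ nz z < h₀ := by
  have h1 : z ≠ 0 := by
    rintro rfl
    rw [dotProduct_zero] at hlt
    linarith
  refine ⟨h1, nz_unit h1, ?_⟩
  have h2 : √(z ⬝ᵥ z) ≤ 1 := Real.sqrt_le_one.2 hz
  rw [dot_nz, div_lt_iff₀ (Real.sqrt_pos.2 (dot_pos h1))]
  nlinarith

theorem beta_false (h : Cap ψ a b τ θ) (hc : 0 < Real.cos θ) (he : Embedded ψ a b τ)
    (hF : Sep ψ a b F) {n : V3} (hn : n ⬝ᵥ n = 1) {h₀ : ℝ} (h0 : h₀ < 0) {p q₁ q₂ : ℝ × ℝ}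
    (hp : p ∈ strip a b) (hup : h₀ < n ⬝ᵥ ψ p) (hq₁ : q₁ ∈ strip a b) (hq₂ : q₂ ∈ strip a b)
    (h1 : n ⬝ᵥ ψ q₁ < h₀) (h2 : n ⬝ᵥ ψ q₂ < h₀)
    (hbr : ∀ β : V3 → ℤ, ContinuousOn β {z ∈ ball3 | n ⬝ᵥ z < h₀ ∧ F z ≤ 0} →
      β (ψ q₁) = β (ψ q₂))
    {χ : ℝ × ℝ → ℤ} (hper : ∀ p ∈ strip a b, χ (p.1, p.2 + τ) = χ p)
    (hχ : ContinuousOn χ {p ∈ strip a b | n ⬝ᵥ ψ p < h₀})
    (ha : ∀ v, n ⬝ᵥ ψ (a, v) < h₀ → χ (a, v) = 1) (hb : ∀ v, n ⬝ᵥ ψ (b, v) < h₀ → χ (b, v) = 0)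
    (h01 : ∀ p, χ p = 0 ∨ χ p = 1) (hne : χ q₁ ≠ χ q₂) : False := by
  have hab := h.ann.hab
  have hF0 : ∀ p ∈ strip a b, F (ψ p) = 0 := fun p hp =>
    (hF.zero _ (h.ann.mem_ball hp)).2 ⟨p, hp, rfl⟩
  have hsa : ∀ v, ((a, v) : ℝ × ℝ) ∈ strip a b := fun v => ⟨le_rfl, hab.le⟩
  have hsb : ∀ v, ((b, v) : ℝ × ℝ) ∈ strip a b := fun v => ⟨hab.le, le_rfl⟩
  have hK : Convex ℝ {z ∈ ball3 | n ⬝ᵥ z < h₀} :=
    convex_ball3.inter (convex_halfSpace_lt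
      ⟨fun x y => dotProduct_add n x y, fun r x => dotProduct_smul r n x⟩ h₀)
  obtain ⟨α₁, β₁, hα₁, hβ₁, e₁⟩ := hF.mv h.ann he (K := {z ∈ ball3 | n ⬝ᵥ z < h₀})
    (fun _ hz => hz.1) (lifts_convex hK) hper (hχ.mono fun p hp => ⟨hp.1, hp.2.2⟩)
  have hq : β₁ (ψ q₁) = β₁ (ψ q₂) := hbr β₁ (hβ₁.mono fun z hz => ⟨⟨hz.1, hz.2.1⟩, hz.2.2⟩)
  have hreach : ∀ q ∈ strip a b, n ⬝ᵥ ψ q < h₀ → ∃ v,
      (n ⬝ᵥ ψ (a, v) < h₀ ∧ β₁ (ψ (a, v)) = β₁ (ψ q) ∧ χ q = 1) ∨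
      (n ⬝ᵥ ψ (b, v) < h₀ ∧ β₁ (ψ (b, v)) = β₁ (ψ q) ∧ χ q = 0) := fun q hq hlt => by
    have hc1 : ContinuousOn (fun p => β₁ (ψ p)) {p ∈ strip a b | n ⬝ᵥ ψ p < h₀} :=
      hβ₁.comp (h.ann.contOn.mono fun p hp => hp.1) fun p hp =>
        ⟨⟨h.ann.mem_ball hp.1, hp.2⟩, (hF0 p hp.1).le⟩
    obtain ⟨⟨u, v⟩, -, hxb, h3, h4⟩ := reach_bd h.ann n h₀ (β := fun p => 2 * β₁ (ψ p) + χ p)
      (fun p hp => by simp only [h.ann.periodic p hp, hper p hp])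
      ((continuousOn_const.mul hc1).add hχ) hq hlt
    have h5 := h01 q
    refine ⟨v, ?_⟩
    rcases hxb with h7 | h7
    · obtain rfl : u = a := h7
      have h6 := ha v h3
      exact Or.inl ⟨h3, by omega, by omega⟩
    · obtain rfl : u = b := h7
      have h6 := hb v h3
      exact Or.inr ⟨h3, by omega, by omega⟩
  obtain ⟨va, vb, h3, h4, h5⟩ : ∃ va vb, n ⬝ᵥ ψ (a, va) < h₀ ∧ n ⬝ᵥ ψ (b, vb) < h₀ ∧
      β₁ (ψ (a, va)) = β₁ (ψ (b, vb)) := by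
    obtain ⟨v, h3 | h3⟩ := hreach q₁ hq₁ h1 <;> obtain ⟨v', h4 | h4⟩ := hreach q₂ hq₂ h2
    · exact absurd (h3.2.2.trans h4.2.2.symm) hne
    · exact ⟨v, v', h3.1, h4.1, by rw [h3.2.1, h4.2.1, hq]⟩
    · exact ⟨v', v, h4.1, h3.1, by rw [h3.2.1, h4.2.1, hq]⟩
    · exact absurd (h3.2.2.trans h4.2.2.symm) hne
  obtain ⟨o, ho, hFo, hno⟩ := exists_pole h hc hF hp hup
  have hK2 : ∀ x ∈ sph, 0 ≤ F x → x ∈ {x ∈ sph | o ⬝ᵥ x < 1} := fun x hx h6 =>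
    ⟨hx, beta_dot_lt ho hx fun e => absurd (e ▸ h6) (not_le.2 hFo)⟩
  have hC2 : ∀ x ∈ sph, n ⬝ᵥ x < h₀ → x ∈ {x ∈ sph | o ⬝ᵥ x < 1} := fun x hx h6 =>
    ⟨hx, beta_dot_lt ho hx fun e => absurd (e ▸ h6) (not_lt.2 hno.le)⟩
  obtain ⟨α₂, β₂, hα₂, hβ₂, e₂⟩ := hF.mv h.ann he (K := {x ∈ sph | o ⬝ᵥ x < 1})
    (fun _ hz => sph_subset hz.1) (lifts_cap ho zero_le_one le_rfl)
    (χ := fun p => if p.1 < (a + b) / 2 then 1 else 0) (fun _ _ => rfl) (fun p hp => by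
      refine ContinuousAt.continuousWithinAt ?_
      rcases beta_bd h.ann hp.1 hp.2.1 with h6 | h6
      · refine (continuousAt_const (y := (1 : ℤ))).congr ?_
        filter_upwards [continuousAt_fst.eventually
          (gt_mem_nhds (show p.1 < (a + b) / 2 by linarith))] with q hq
        rw [if_pos hq]
      · refine (continuousAt_const (y := (0 : ℤ))).congr ?_
        filter_upwards [continuousAt_fst.eventually
          (lt_mem_nhds (show (a + b) / 2 < p.1 by linarith))] with q hq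
        rw [if_neg (not_lt.2 hq.le)])
  have hma : ∀ v, ψ (a, v) ∈ {x ∈ sph | o ⬝ᵥ x < 1} := fun v =>
    hK2 _ (h.ann.sphere_a v) (hF0 _ (hsa v)).ge
  have hmb : ∀ v, ψ (b, v) ∈ {x ∈ sph | o ⬝ᵥ x < 1} := fun v =>
    hK2 _ (h.ann.sphere_b v) (hF0 _ (hsb v)).ge
  have ea : ∀ v, α₂ (ψ (a, v)) - β₂ (ψ (a, v)) = 1 := fun v => by
    rw [e₂ _ (hsa v) (hma v), if_pos (show a < (a + b) / 2 by linarith)]
  have eb : ∀ v, α₂ (ψ (b, v)) - β₂ (ψ (b, v)) = 0 := fun v => by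
    rw [e₂ _ (hsb v) (hmb v), if_neg (show ¬ b < (a + b) / 2 by linarith)]
  have hline : ∀ u, (∀ v, ((u, v) : ℝ × ℝ) ∈ strip a b) →
      (∀ v, ψ (u, v) ∈ {x ∈ sph | o ⬝ᵥ x < 1}) →
      ∀ v v', β₂ (ψ (u, v)) = β₂ (ψ (u, v')) := fun u h6 h7 v v' =>
    isPreconnected_univ.constant (f := fun v => β₂ (ψ (u, v)))
      (hβ₂.comp (h.ann.contOn.comp (f := fun v : ℝ => (u, v)) (by fun_prop) fun v _ => h6 v)
        fun v _ => ⟨h7 v, (hF0 _ (h6 v)).le⟩) (mem_univ v) (mem_univ v')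
  have hg : ContinuousOn (fun x => if 0 ≤ F x then α₂ x - α₁ x else β₂ x - β₁ x)
      {x ∈ sph | n ⬝ᵥ x < h₀} := by
    rw [continuousOn_iff_continuous_domRestrict]
    have hFc : Continuous fun x : {x ∈ sph | n ⬝ᵥ x < h₀} => F x :=
      (hF.cont.mono fun x hx => sph_subset hx.1).domRestrict
    refine continuous_if_le (f := fun _ => (0 : ℝ)) (g := fun x : {x ∈ sph | n ⬝ᵥ x < h₀} => F x)
      (f' := fun x => α₂ x - α₁ x) (g' := fun x => β₂ x - β₁ x) continuous_const hFc ?_ ?_ ?_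
    · exact (hα₂.comp continuous_subtype_val.continuousOn fun x hx =>
        ⟨hC2 _ x.2.1 x.2.2, hx⟩).sub (hα₁.comp continuous_subtype_val.continuousOn fun x hx =>
        ⟨⟨sph_subset x.2.1, x.2.2⟩, hx⟩)
    · exact (hβ₂.comp continuous_subtype_val.continuousOn fun x hx =>
        ⟨hC2 _ x.2.1 x.2.2, hx⟩).sub (hβ₁.comp continuous_subtype_val.continuousOn fun x hx =>
        ⟨⟨sph_subset x.2.1, x.2.2⟩, hx⟩)
    · rintro ⟨x, hx, hlt⟩ h6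
      obtain ⟨⟨u, v⟩, h7, rfl⟩ := (hF.zero x (sph_subset hx)).1 h6.symm
      have h8 := e₁ _ h7 ⟨sph_subset hx, hlt⟩
      show α₂ (ψ (u, v)) - α₁ (ψ (u, v)) = β₂ (ψ (u, v)) - β₁ (ψ (u, v))
      rcases beta_bd h.ann h7 hx with h11 | h11
      · obtain rfl : u = a := h11
        have h9 := ea v
        have h10 := ha v hlt
        omega
      · obtain rfl : u = b := h11
        have h9 := eb v
        have h10 := hb v hlt
        omega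
  have hcap := hK.isPreconnected.constant
    (f := fun x => if 0 ≤ F (nz x) then α₂ (nz x) - α₁ (nz x) else β₂ (nz x) - β₁ (nz x))
    (hg.comp (fun z hz => (continuousAt_nz (beta_nz h0 hz.1 hz.2).1).continuousWithinAt)
      fun z hz => (beta_nz h0 hz.1 hz.2).2)
    (⟨h.ann.mem_ball (hsa va), h3⟩ : ψ (a, va) ∈ {z ∈ ball3 | n ⬝ᵥ z < h₀})
    (⟨h.ann.mem_ball (hsb vb), h4⟩ : ψ (b, vb) ∈ {z ∈ ball3 | n ⬝ᵥ z < h₀})
  rw [nz_of_unit (h.ann.sphere_a va), nz_of_unit (h.ann.sphere_b vb),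
    if_pos (hF0 _ (hsa va)).ge, if_pos (hF0 _ (hsb vb)).ge] at hcap
  obtain ⟨v, v', h6⟩ := h.sep_joined hc he hF
    (hα₂.mono fun y hy => ⟨hK2 y hy.1 hy.2, hy.2⟩)
  have k1 := e₁ _ (hsa va) ⟨h.ann.mem_ball (hsa va), h3⟩
  have k2 := e₁ _ (hsb vb) ⟨h.ann.mem_ball (hsb vb), h4⟩
  have k3 := ha va h3
  have k4 := hb vb h4
  have k5 := hline a hsa hma v va
  have k6 := hline b hsb hmb v' vb
  have k7 := ea v
  have k8 := ea va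
  have k9 := eb v'
  have k10 := eb vb
  omega

end Pool.Agent.Lib.MP_c7e804_gt
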