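import Pool.Agent.Lib.MP_c7e804_gt.H43Defs

/-!
Embedded annuli.
-/

namespace Pool.Agent.Lib.MP_c7e804_gt

/-- The annulus `[a, b] × ℝ / τ ℤ` is embedded by `ψ`: two points of the strip with the same image
have the same first coordinate and second coordinates differing by a multiple of the period. -/
def Embedded (ψ : ℝ × ℝ → V3) (a b τ : ℝ) : Prop :=
  ∀ p ∈ strip a b, ∀ q ∈ strip a b, ψ p = ψ q → p.1 = q.1 ∧ ∃ k : ℤ, q.2 = p.2 + k * τ

end Pool.Agent.Lib.MP_c7e804_gt
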