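import Pool.Agent.Lib.MP_c7e804_gt.H49Base

/-!
First and second variation of the two-point function.
-/

namespace Pool.Agent.Lib.MP_c7e804_gt

open Matrix Set Filter Topology

variable {ψ : ℝ × ℝ → V3} {a b τ θ : ℝ}

theorem two_dot {f g : ℝ → V3} {f' g' : V3} {s : ℝ} (hf : HasDerivAt f f' s)
    (hg : HasDerivAt g g' s) :
    HasDerivAt (fun r => f r ⬝ᵥ g r) (f' ⬝ᵥ g s + f s ⬝ᵥ g') s := by
  have hf' := hasDerivAt_pi.1 hf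
  have hg' := hasDerivAt_pi.1 hg
  have := (((hf' 0).mul (hg' 0)).add ((hf' 1).mul (hg' 1))).add ((hf' 2).mul (hg' 2))
  simp only [dotProduct, Fin.sum_univ_three]
  exact this.congr_deriv (by ring)

theorem two_cdot (n : V3) {g : ℝ → V3} {g' : V3} {s : ℝ} (hg : HasDerivAt g g' s) :
    HasDerivAt (fun r => n ⬝ᵥ g r) (n ⬝ᵥ g') s :=
  (two_dot (hasDerivAt_const s n) hg).congr_deriv (by simp)

theorem two_line {f : ℝ × ℝ → V3} {p ξ : ℝ × ℝ} {s : ℝ} (h : DifferentiableAt ℝ f (p + s • ξ)) :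
    HasDerivAt (fun r : ℝ => f (p + r • ξ))
      (ξ.1 • du f (p + s • ξ) + ξ.2 • dv f (p + s • ξ)) s := by
  have h1 : HasDerivAt (fun r : ℝ => p + r • ξ) ξ s := by
    simpa using ((hasDerivAt_id s).smul_const ξ).const_add p
  have h2 := h.hasFDerivAt.comp_hasDerivAt s h1
  refine h2.congr_deriv ?_
  have e : ξ = ξ.1 • ((1, 0) : ℝ × ℝ) + ξ.2 • ((0, 1) : ℝ × ℝ) := by ext <;> simp
  generalize p + s • ξ = r
  conv_lhs => rw [e]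
  rw [map_add, map_smul, map_smul]
  rfl

/-- first and second variation along a pair of curves -/
theorem two_curve {n : V3} {t Z : ℝ} {x y x' y' : ℝ → V3} {x'' y'' : V3}
    (hx : ∀ᶠ s in 𝓝 (0 : ℝ), HasDerivAt x (x' s) s) (hy : ∀ᶠ s in 𝓝 (0 : ℝ), HasDerivAt y (y' s) s)
    (hx' : HasDerivAt x' x'' 0) (hy' : HasDerivAt y' y'' 0)
    (hZ : (x 0 - y 0) ⬝ᵥ (x 0 - y 0) = Z * ((n ⬝ᵥ x 0 - t) * (n ⬝ᵥ y 0 - t)))
    (hmin : ∀ᶠ s in 𝓝 (0 : ℝ),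
      Z * ((n ⬝ᵥ x s - t) * (n ⬝ᵥ y s - t)) ≤ (x s - y s) ⬝ᵥ (x s - y s)) :
    (2 * ((x 0 - y 0) ⬝ᵥ x' 0) - Z * (n ⬝ᵥ y 0 - t) * (n ⬝ᵥ x' 0)) +
      (-2 * ((x 0 - y 0) ⬝ᵥ y' 0) - Z * (n ⬝ᵥ x 0 - t) * (n ⬝ᵥ y' 0)) = 0 ∧
    0 ≤ 2 * ((x' 0 - y' 0) ⬝ᵥ (x' 0 - y' 0)) - 2 * Z * ((n ⬝ᵥ x' 0) * (n ⬝ᵥ y' 0)) +
      (2 * ((x 0 - y 0) ⬝ᵥ x'') - Z * (n ⬝ᵥ y 0 - t) * (n ⬝ᵥ x'')) +
      (-2 * ((x 0 - y 0) ⬝ᵥ y'') - Z * (n ⬝ᵥ x 0 - t) * (n ⬝ᵥ y'')) := by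
  have hm : IsLocalMax
      (fun s => Z * ((n ⬝ᵥ x s - t) * (n ⬝ᵥ y s - t)) - (x s - y s) ⬝ᵥ (x s - y s)) 0 := by
    filter_upwards [hmin] with s hs
    linarith
  have h1 : ∀ᶠ s in 𝓝 (0 : ℝ), HasDerivAt
      (fun s => Z * ((n ⬝ᵥ x s - t) * (n ⬝ᵥ y s - t)) - (x s - y s) ⬝ᵥ (x s - y s))
      (Z * ((n ⬝ᵥ x' s) * (n ⬝ᵥ y s - t) + (n ⬝ᵥ x s - t) * (n ⬝ᵥ y' s)) -
        2 * ((x s - y s) ⬝ᵥ (x' s - y' s))) s := by
    filter_upwards [hx, hy] with s hs hs'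
    have e1 := ((((two_cdot n hs).sub_const t).mul ((two_cdot n hs').sub_const t)).const_mul Z).sub
      (two_dot (hs.sub hs') (hs.sub hs'))
    refine e1.congr_deriv ?_
    simp only [Pi.sub_apply, dotProduct, Fin.sum_univ_three]
    ring
  have hx0 := hx.self_of_nhds
  have hy0 := hy.self_of_nhds
  have h2 := ((((two_cdot n hx').mul ((two_cdot n hy0).sub_const t)).add
    (((two_cdot n hx0).sub_const t).mul (two_cdot n hy'))).const_mul Z).sub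
    ((two_dot (hx0.sub hy0) (hx'.sub hy')).const_mul 2)
  obtain ⟨k1, k2⟩ := second_deriv_nonpos hm h1 h2
  simp only [Pi.sub_apply, dotProduct, Fin.sum_univ_three] at k1 k2 ⊢
  constructor
  · linarith
  · linarith

theorem two_rot {e1 e2 z1 z2 : ℝ} (h0 : 0 < e1 ^ 2 + e2 ^ 2)
    (h1 : e1 ^ 2 + e2 ^ 2 = z1 ^ 2 + z2 ^ 2) (h2 : e1 * z1 + e2 * z2 = 0) :
    e1 ^ 2 - e2 ^ 2 + (z1 ^ 2 - z2 ^ 2) = 0 := by
  have h3 : (e1 ^ 2 + e2 ^ 2) * (z1 ^ 2 - e2 ^ 2) = 0 := by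
    linear_combination (e1 * z1 - e2 * z2) * h2 - e2 ^ 2 * h1
  have h4 := (mul_eq_zero.1 h3).resolve_left h0.ne'
  linarith

theorem two_quad {m c : ℝ} (h : ∀ s : ℝ, 0 ≤ 2 * s * m + s ^ 2 * c) : m = 0 := by
  by_contra hb
  have hc : 0 < |c| + 1 := by positivity
  have h1 := h (-m / (|c| + 1))
  have h2 : 2 * (-m / (|c| + 1)) * m + (-m / (|c| + 1)) ^ 2 * c =
      m ^ 2 * (c - 2 * (|c| + 1)) / (|c| + 1) ^ 2 := by
    field_simp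
    ring
  rw [h2] at h1
  have h3 : m ^ 2 * (c - 2 * (|c| + 1)) < 0 :=
    mul_neg_of_pos_of_neg (by positivity) (by linarith [le_abs_self c, abs_nonneg c])
  have h4 := div_neg_of_neg_of_pos h3 (pow_pos hc 2)
  linarith

/-- a nonzero vector orthogonal to the tangent plane has a nonzero normal component -/
theorem two_normal {A B N g : V3} {E : ℝ} (F : Fr A B N E) (h1 : g ⬝ᵥ A = 0) (h2 : g ⬝ᵥ B = 0) :
    g = (g ⬝ᵥ N) • N := by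
  have := F.decomp g
  rw [h1, h2] at this
  simpa using this

theorem two_tangent {A B N g w : V3} {E : ℝ} (F : Fr A B N E) (h1 : g ⬝ᵥ A = 0)
    (h2 : g ⬝ᵥ B = 0) (hg : 0 < g ⬝ᵥ g) (hw : g ⬝ᵥ w = 0) :
    ∃ c d : ℝ, w = c • A + d • B := by
  have e := two_normal F h1 h2
  have h3 : g ⬝ᵥ N ≠ 0 := fun h0 => by
    rw [e, h0] at hg
    simp at hg
  have h4 : w ⬝ᵥ N = 0 := by
    rw [e, smul_dotProduct, smul_eq_mul, dotProduct_comm N] at hw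
    exact (mul_eq_zero.1 hw).resolve_left h3
  have h5 := F.decomp w
  rw [h4, zero_smul, add_zero] at h5
  exact ⟨_, _, h5⟩

theorem two_alg {A1 B1 N1 A2 B2 N2 n d : V3} {E1 E2 A B Z L : ℝ} (F1 : Fr A1 B1 N1 E1)
    (F2 : Fr A2 B2 N2 E2) (hL : 0 < L) (hA : 0 < A) (hB : 0 < B) (hD : 0 < d ⬝ᵥ d)
    (hZ : d ⬝ᵥ d = Z * (A * B)) (hn : n ⬝ᵥ d = A - B)
    (a1 : 2 * (d ⬝ᵥ A1) - Z * B * (n ⬝ᵥ A1) = 0) (b1 : 2 * (d ⬝ᵥ B1) - Z * B * (n ⬝ᵥ B1) = 0)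
    (a2 : -2 * (d ⬝ᵥ A2) - Z * A * (n ⬝ᵥ A2) = 0) (b2 : -2 * (d ⬝ᵥ B2) - Z * A * (n ⬝ᵥ B2) = 0)
    (h2 : ∀ x1 x2 y1 y2 : ℝ,
      0 ≤ 2 * ((x1 • A1 + x2 • B1 - (y1 • A2 + y2 • B2)) ⬝ᵥ (x1 • A1 + x2 • B1 - (y1 • A2 + y2 • B2)))
        - 2 * Z * ((n ⬝ᵥ (x1 • A1 + x2 • B1)) * (n ⬝ᵥ (y1 • A2 + y2 • B2)))
        + (2 * (d ⬝ᵥ N1) - Z * B * (n ⬝ᵥ N1)) * L * (x1 ^ 2 - x2 ^ 2)
        + (-2 * (d ⬝ᵥ N2) - Z * A * (n ⬝ᵥ N2)) * L * (y1 ^ 2 - y2 ^ 2)) : False := by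
  have hZ0 : 0 < Z := by
    rw [hZ] at hD
    exact (mul_pos_iff_of_pos_right (mul_pos hA hB)).1 hD
  have hnn := dot_nonneg n
  have hdn : d ⬝ᵥ n = A - B := by rw [dotProduct_comm, hn]
  -- the two gradients
  have gy : ∀ w : V3, ((-2 : ℝ) • d - (Z * A) • n) ⬝ᵥ w = -2 * (d ⬝ᵥ w) - Z * A * (n ⬝ᵥ w) :=
    fun w => by simp only [sub_dotProduct, smul_dotProduct, smul_eq_mul]
  have gx : ∀ w : V3, ((2 : ℝ) • d - (Z * B) • n) ⬝ᵥ w = 2 * (d ⬝ᵥ w) - Z * B * (n ⬝ᵥ w) :=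
    fun w => by simp only [sub_dotProduct, smul_dotProduct, smul_eq_mul]
  have gy0 : 0 < ((-2 : ℝ) • d - (Z * A) • n) ⬝ᵥ ((-2 : ℝ) • d - (Z * A) • n) := by
    rw [gy]
    simp only [dotProduct_sub, dotProduct_smul, smul_eq_mul, hdn, hn, hZ]
    have := mul_nonneg (sq_nonneg (Z * A)) hnn
    have := mul_pos hZ0 (mul_pos hA hA)
    nlinarith
  have gx0 : 0 < ((2 : ℝ) • d - (Z * B) • n) ⬝ᵥ ((2 : ℝ) • d - (Z * B) • n) := by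
    rw [gx]
    simp only [dotProduct_sub, dotProduct_smul, smul_eq_mul, hdn, hn, hZ]
    have := mul_nonneg (sq_nonneg (Z * B)) hnn
    have := mul_pos hZ0 (mul_pos hB hB)
    nlinarith
  -- the reflection
  obtain ⟨α, hα⟩ : ∃ α, n ⬝ᵥ A1 = α * A := ⟨n ⬝ᵥ A1 / A, by field_simp⟩
  obtain ⟨β, hβ⟩ : ∃ β, n ⬝ᵥ B1 = β * A := ⟨n ⬝ᵥ B1 / A, by field_simp⟩
  have dA : d ⬝ᵥ A1 = Z * (A * B) * α / 2 := by rw [hα] at a1; linarith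
  have dB : d ⬝ᵥ B1 = Z * (A * B) * β / 2 := by rw [hβ] at b1; linarith
  have Ad : A1 ⬝ᵥ d = Z * (A * B) * α / 2 := by rw [dotProduct_comm, dA]
  have Bd : B1 ⬝ᵥ d = Z * (A * B) * β / 2 := by rw [dotProduct_comm, dB]
  obtain ⟨e1, e2, he⟩ := two_tangent F2 (w := A1 - α • d) ((gy A2).trans a2) ((gy B2).trans b2) gy0
    (by
      rw [gy]
      simp only [dotProduct_sub, dotProduct_smul, smul_eq_mul, hn, hZ, dA, hα]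
      ring)
  obtain ⟨z1, z2, hz⟩ := two_tangent F2 (w := B1 - β • d) ((gy A2).trans a2) ((gy B2).trans b2) gy0
    (by
      rw [gy]
      simp only [dotProduct_sub, dotProduct_smul, smul_eq_mul, hn, hZ, dB, hβ]
      ring)
  have k1 : (e1 ^ 2 + e2 ^ 2) * E2 = E1 := by
    have h1 : (A1 - α • d) ⬝ᵥ (A1 - α • d) = E1 := by
      simp only [sub_dotProduct, dotProduct_sub, smul_dotProduct, dotProduct_smul, smul_eq_mul,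
        F1.AA, hZ, dA, Ad]
      ring
    rw [← h1, he]
    simp only [add_dotProduct, dotProduct_add, smul_dotProduct, dotProduct_smul, smul_eq_mul,
      F2.AA, F2.BB, F2.AB, F2.BA]
    ring
  have k2 : (z1 ^ 2 + z2 ^ 2) * E2 = E1 := by
    have h1 : (B1 - β • d) ⬝ᵥ (B1 - β • d) = E1 := by
      simp only [sub_dotProduct, dotProduct_sub, smul_dotProduct, dotProduct_smul, smul_eq_mul,
        F1.BB, hZ, dB, Bd]
      ring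
    rw [← h1, hz]
    simp only [add_dotProduct, dotProduct_add, smul_dotProduct, dotProduct_smul, smul_eq_mul,
      F2.AA, F2.BB, F2.AB, F2.BA]
    ring
  have k3 : (e1 * z1 + e2 * z2) * E2 = 0 := by
    have h1 : (A1 - α • d) ⬝ᵥ (B1 - β • d) = 0 := by
      simp only [sub_dotProduct, dotProduct_sub, smul_dotProduct, dotProduct_smul, smul_eq_mul,
        F1.AB, hZ, dB, Ad]
      ring
    rw [← h1, he, hz]
    simp only [add_dotProduct, dotProduct_add, smul_dotProduct, dotProduct_smul, smul_eq_mul,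
      F2.AA, F2.BB, F2.AB, F2.BA]
    ring
  have hE1 := F1.pos
  have hE2 := F2.pos
  have k4 : e1 ^ 2 - e2 ^ 2 + (z1 ^ 2 - z2 ^ 2) = 0 := by
    refine two_rot ?_ (mul_right_cancel₀ hE2.ne' (k1.trans k2.symm))
      ((mul_eq_zero.1 k3).resolve_right hE2.ne')
    by_contra h0
    have := mul_nonpos_of_nonpos_of_nonneg (not_lt.1 h0) hE2.le
    linarith
  have k5 : (2 * (d ⬝ᵥ N1) - Z * B * (n ⬝ᵥ N1)) * L = 0 := by
    refine two_quad (c := 2 * E1 + (2 * (d ⬝ᵥ N1) - Z * B * (n ⬝ᵥ N1)) * L) fun s => ?_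
    have t1 := h2 (1 + s) 0 e1 e2
    have t2 := h2 0 1 z1 z2
    rw [← he] at t1
    rw [← hz] at t2
    simp only [zero_smul, add_zero, zero_add, one_smul, sub_dotProduct, dotProduct_sub,
      smul_dotProduct, dotProduct_smul, smul_eq_mul, F1.AA, F1.BB, hZ, dA, Ad, dB, Bd, hα, hβ,
      hn] at t1 t2
    have t3 : (-2 * (d ⬝ᵥ N2) - Z * A * (n ⬝ᵥ N2)) * L * (e1 ^ 2 - e2 ^ 2) +
        (-2 * (d ⬝ᵥ N2) - Z * A * (n ⬝ᵥ N2)) * L * (z1 ^ 2 - z2 ^ 2) = 0 := by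
      rw [← mul_add, k4, mul_zero]
    nlinarith [t1, t2, t3]
  have k6 := two_normal F1 ((gx A1).trans a1) ((gx B1).trans b1)
  rw [gx N1, (mul_eq_zero.1 k5).resolve_right hL.ne', zero_smul] at k6
  rw [k6] at gx0
  simp at gx0

theorem two_ev {p : ℝ × ℝ} (hp : a < p.1 ∧ p.1 < b) (ξ : ℝ × ℝ) :
    ∀ᶠ s in 𝓝 (0 : ℝ), p + s • ξ ∈ strip a b := by
  have h1 : Tendsto (fun s : ℝ => (p + s • ξ).1) (𝓝 0) (𝓝 p.1) := by
    have : Continuous fun s : ℝ => (p + s • ξ).1 := by fun_prop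
    simpa using this.tendsto 0
  exact h1.eventually (Icc_mem_nhds hp.1 hp.2)

theorem two_second (h : Cap ψ a b τ θ) {p : ℝ × ℝ} (hp : p ∈ strip a b) (ξ : ℝ × ℝ) :
    ∃ c d : ℝ, HasDerivAt (fun s : ℝ => ξ.1 • du ψ (p + s • ξ) + ξ.2 • dv ψ (p + s • ξ))
      (c • du ψ p + d • dv ψ p + (2 * hq ψ b * (ξ.1 ^ 2 - ξ.2 ^ 2)) • normal ψ p) 0 := by
  have e : p + (0 : ℝ) • ξ = p := by simp
  have h1 := two_line (f := du ψ) (p := p) (ξ := ξ) (s := 0) (by rw [e]; exact (h.ann.dAu hp).1)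
  have h2 := two_line (f := dv ψ) (p := p) (ξ := ξ) (s := 0) (by rw [e]; exact (h.ann.dBu hp).1)
  rw [e, (h.ann.dAu hp).du_eq, (h.ann.dAv hp).dv_eq, h.L_const hp] at h1
  rw [e, (h.ann.dBu hp).du_eq, (h.ann.dBv hp).dv_eq, h.L_const hp] at h2
  refine ⟨al ψ p * (ξ.1 ^ 2 - ξ.2 ^ 2) + 2 * be ψ p * ξ.1 * ξ.2,
    -be ψ p * (ξ.1 ^ 2 - ξ.2 ^ 2) + 2 * al ψ p * ξ.1 * ξ.2,
    ((h1.const_smul ξ.1).add (h2.const_smul ξ.2)).congr_deriv ?_⟩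
  module

theorem two_interior (h : Cap ψ a b τ θ) {n : V3} (hn : n ⬝ᵥ n = 1) {t Z : ℝ} {p q : ℝ × ℝ}
    (hp : a < p.1 ∧ p.1 < b) (hq : a < q.1 ∧ q.1 < b) (hA : t < n ⬝ᵥ ψ p) (hB : t < n ⬝ᵥ ψ q)
    (hne : ψ p ≠ ψ q)
    (hZ : (ψ p - ψ q) ⬝ᵥ (ψ p - ψ q) = Z * ((n ⬝ᵥ ψ p - t) * (n ⬝ᵥ ψ q - t)))
    (hmin : ∀ᶠ x : (ℝ × ℝ) × ℝ × ℝ in 𝓝 (p, q),
      Z * ((n ⬝ᵥ ψ x.1 - t) * (n ⬝ᵥ ψ x.2 - t)) ≤ (ψ x.1 - ψ x.2) ⬝ᵥ (ψ x.1 - ψ x.2)) :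
    False := by
  have hp' : p ∈ strip a b := ⟨hp.1.le, hp.2.le⟩
  have hq' : q ∈ strip a b := ⟨hq.1.le, hq.2.le⟩
  have key : ∀ ξ η : ℝ × ℝ, ∃ c d c' d' : ℝ, _ := fun ξ η => by
    obtain ⟨c, d, hx⟩ := two_second h hp' ξ
    obtain ⟨c', d', hy⟩ := two_second h hq' η
    have hm : ∀ᶠ s in 𝓝 (0 : ℝ),
        Z * ((n ⬝ᵥ ψ (p + s • ξ) - t) * (n ⬝ᵥ ψ (q + s • η) - t)) ≤
          (ψ (p + s • ξ) - ψ (q + s • η)) ⬝ᵥ (ψ (p + s • ξ) - ψ (q + s • η)) := by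
      have h1 : Tendsto (fun s : ℝ => ((p + s • ξ, q + s • η) : (ℝ × ℝ) × ℝ × ℝ)) (𝓝 0)
          (𝓝 (p, q)) := by
        have : Continuous fun s : ℝ => ((p + s • ξ, q + s • η) : (ℝ × ℝ) × ℝ × ℝ) := by fun_prop
        simpa using this.tendsto 0
      exact h1.eventually hmin
    have := two_curve (x := fun s => ψ (p + s • ξ)) (y := fun s => ψ (q + s • η))
      ((two_ev hp ξ).mono fun s hs => two_line (sm_diff (h.ann.smooth _ hs)))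
      ((two_ev hq η).mono fun s hs => two_line (sm_diff (h.ann.smooth _ hs))) hx hy
      (by simpa only [zero_smul, add_zero] using hZ) hm
    simp only [zero_smul, add_zero] at this
    exact ⟨c, d, c', d', this⟩
  have a1 : 2 * ((ψ p - ψ q) ⬝ᵥ du ψ p) - Z * (n ⬝ᵥ ψ q - t) * (n ⬝ᵥ du ψ p) = 0 := by
    obtain ⟨_, _, _, _, k, -⟩ := key (1, 0) (0, 0)
    simpa using k
  have b1 : 2 * ((ψ p - ψ q) ⬝ᵥ dv ψ p) - Z * (n ⬝ᵥ ψ q - t) * (n ⬝ᵥ dv ψ p) = 0 := by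
    obtain ⟨_, _, _, _, k, -⟩ := key (0, 1) (0, 0)
    simpa using k
  have a2 : -2 * ((ψ p - ψ q) ⬝ᵥ du ψ q) - Z * (n ⬝ᵥ ψ p - t) * (n ⬝ᵥ du ψ q) = 0 := by
    obtain ⟨_, _, _, _, k, -⟩ := key (0, 0) (1, 0)
    simpa using k
  have b2 : -2 * ((ψ p - ψ q) ⬝ᵥ dv ψ q) - Z * (n ⬝ᵥ ψ p - t) * (n ⬝ᵥ dv ψ q) = 0 := by
    obtain ⟨_, _, _, _, k, -⟩ := key (0, 0) (0, 1)
    simpa using k
  refine two_alg (h.ann.fr hp') (h.ann.fr hq') (mul_pos two_pos h.q_pos) (sub_pos.2 hA)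
    (sub_pos.2 hB) (dot_pos (sub_ne_zero.2 hne)) hZ (by rw [dotProduct_sub]; ring) a1 b1 a2 b2
    fun x1 x2 y1 y2 => ?_
  obtain ⟨c, d, c', d', -, k⟩ := key (x1, x2) (y1, y2)
  generalize (x1 • du ψ p + x2 • dv ψ p - (y1 • du ψ q + y2 • dv ψ q)) ⬝ᵥ
    (x1 • du ψ p + x2 • dv ψ p - (y1 • du ψ q + y2 • dv ψ q)) = W at k ⊢
  generalize n ⬝ᵥ (x1 • du ψ p + x2 • dv ψ p) = X at k ⊢
  generalize n ⬝ᵥ (y1 • du ψ q + y2 • dv ψ q) = Y at k ⊢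
  simp only [dotProduct_add, dotProduct_smul, smul_eq_mul] at k
  linear_combination k + c * a1 + d * b1 + c' * a2 + d' * b2

theorem two_right {g : ℝ → ℝ} {g' x : ℝ} (hg : HasDerivAt g g' x)
    (h : ∀ᶠ s in 𝓝[>] x, g x ≤ g s) : 0 ≤ g' := by
  refine ge_of_tendsto (hasDerivAt_iff_tendsto_slope_left_right.1 hg).2 ?_
  filter_upwards [h, self_mem_nhdsWithin] with s hs hs'
  rw [slope_def_field]
  exact div_nonneg (sub_nonneg.2 hs) (sub_nonneg.2 (le_of_lt hs'))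

theorem two_left {g : ℝ → ℝ} {g' x : ℝ} (hg : HasDerivAt g g' x)
    (h : ∀ᶠ s in 𝓝[<] x, g x ≤ g s) : g' ≤ 0 := by
  refine le_of_tendsto (hasDerivAt_iff_tendsto_slope_left_right.1 hg).1 ?_
  filter_upwards [h, self_mem_nhdsWithin] with s hs hs'
  rw [slope_def_field]
  exact div_nonpos_of_nonneg_of_nonpos (sub_nonneg.2 hs) (sub_nonpos.2 (le_of_lt hs'))

theorem two_boundary (h : Cap ψ a b τ θ) (hc : 0 ≤ Real.cos θ) {n : V3} {t Z : ℝ} (ht : t < 0)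
    {p : ℝ × ℝ} (hp : p.1 = a ∨ p.1 = b) {y : V3} (hy : y ∈ ball3) (hA : t < n ⬝ᵥ ψ p)
    (hB : t < n ⬝ᵥ y) (hne : ψ p ≠ y)
    (hZ : (ψ p - y) ⬝ᵥ (ψ p - y) = Z * ((n ⬝ᵥ ψ p - t) * (n ⬝ᵥ y - t)))
    (hmin : ∀ᶠ x in 𝓝[strip a b] p,
      Z * ((n ⬝ᵥ ψ x - t) * (n ⬝ᵥ y - t)) ≤ (ψ x - y) ⬝ᵥ (ψ x - y)) :
    normal ψ p ⬝ᵥ ((2 * (n ⬝ᵥ ψ p - t)) • (y - ψ p) + ((ψ p - y) ⬝ᵥ (ψ p - y)) • n) < 0 := by
  obtain ⟨u, v⟩ := p
  have hp' : ((u, v) : ℝ × ℝ) ∈ strip a b := h.mem_bd hp v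
  have hE := h.ann.immersion _ hp'
  have hx := hasDerivAt_line_u (sm_diff (h.ann.smooth _ hp'))
  have hd : HasDerivAt
      (fun s => (ψ (s, v) - y) ⬝ᵥ (ψ (s, v) - y) - Z * ((n ⬝ᵥ ψ (s, v) - t) * (n ⬝ᵥ y - t)))
      (2 * ((ψ (u, v) - y) ⬝ᵥ du ψ (u, v)) - Z * (n ⬝ᵥ y - t) * (n ⬝ᵥ du ψ (u, v))) u := by
    refine ((two_dot (hx.sub_const y) (hx.sub_const y)).sub
      ((((two_cdot n hx).sub_const t).mul_const (n ⬝ᵥ y - t)).const_mul Z)).congr_deriv ?_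
    rw [dotProduct_comm (du ψ (u, v))]
    ring
  have hcont : Tendsto (fun s : ℝ => ((s, v) : ℝ × ℝ)) (𝓝 u) (𝓝 (u, v)) :=
    (continuous_id.prodMk continuous_const).tendsto u
  have hs : 0 < √(confE ψ (u, v)) * Real.sin θ := mul_pos (Real.sqrt_pos.2 hE) h.sin_pos
  have k1 : pu ψ (u, v) * (2 * ((ψ (u, v) - y) ⬝ᵥ du ψ (u, v)) -
      Z * (n ⬝ᵥ y - t) * (n ⬝ᵥ du ψ (u, v))) ≤ 0 := by
    rcases hp with hp | hp
    · have hu : u = a := hp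
      subst hu
      have h1 : Tendsto (fun s : ℝ => ((s, v) : ℝ × ℝ)) (𝓝[>] u) (𝓝[strip u b] (u, v)) :=
        tendsto_nhdsWithin_iff.2 ⟨hcont.mono_left nhdsWithin_le_nhds,
          mem_of_superset (Ioo_mem_nhdsGT h.ann.hab) fun s hs => ⟨hs.1.le, hs.2.le⟩⟩
      have h2 := two_right hd ((h1.eventually hmin).mono fun s hs => by linarith)
      rw [h.pu_a]
      exact mul_nonpos_of_nonpos_of_nonneg (by linarith) h2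
    · have hu : u = b := hp
      subst hu
      have h1 : Tendsto (fun s : ℝ => ((s, v) : ℝ × ℝ)) (𝓝[<] u) (𝓝[strip a u] (u, v)) :=
        tendsto_nhdsWithin_iff.2 ⟨hcont.mono_left nhdsWithin_le_nhds,
          mem_of_superset (Ioo_mem_nhdsLT h.ann.hab) fun s hs => ⟨hs.1.le, hs.2.le⟩⟩
      have h2 := two_left hd ((h1.eventually hmin).mono fun s hs => by linarith)
      rw [h.pu_b]
      exact mul_nonpos_of_nonneg_of_nonpos hs.le h2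
  have hD := dot_pos (sub_ne_zero.2 hne)
  have hxx := h.bd_unit hp v
  have hyy : y ⬝ᵥ y ≤ 1 := hy
  have hdec := h.geo_psi hp v
  generalize hw : (2 * (n ⬝ᵥ ψ (u, v) - t)) • (y - ψ (u, v)) +
    ((ψ (u, v) - y) ⬝ᵥ (ψ (u, v) - y)) • n = w
  have k2 : w ⬝ᵥ du ψ (u, v) = -(n ⬝ᵥ ψ (u, v) - t) * (2 * ((ψ (u, v) - y) ⬝ᵥ du ψ (u, v)) -
      Z * (n ⬝ᵥ y - t) * (n ⬝ᵥ du ψ (u, v))) := by
    rw [← hw, hZ]
    simp only [add_dotProduct, sub_dotProduct, smul_dotProduct, smul_eq_mul]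
    ring
  have k3 : w ⬝ᵥ ψ (u, v) < 0 := by
    have e1 : (ψ (u, v) - y) ⬝ᵥ (ψ (u, v) - y) = 1 - 2 * (y ⬝ᵥ ψ (u, v)) + y ⬝ᵥ y := by
      simp only [sub_dotProduct, dotProduct_sub, hxx, dotProduct_comm (ψ (u, v)) y]
      ring
    rw [← hw]
    simp only [add_dotProduct, smul_dotProduct, smul_eq_mul]
    rw [sub_dotProduct y, hxx]
    have e2 := mul_neg_of_neg_of_pos ht hD
    have e3 := mul_nonneg (sub_pos.2 hA).le (sub_nonneg.2 hyy)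
    rw [e1] at e2 ⊢
    nlinarith
  have k4 : w ⬝ᵥ ψ (u, v) = pu ψ (u, v) * (confE ψ (u, v))⁻¹ * (w ⬝ᵥ du ψ (u, v)) +
      Real.cos θ * (normal ψ (u, v) ⬝ᵥ w) := by
    conv_lhs => rw [hdec]
    simp only [dotProduct_add, dotProduct_smul, smul_eq_mul, dotProduct_comm w (normal ψ (u, v))]
  by_contra h0
  have k5 := mul_nonneg hc (not_lt.1 h0)
  have k6 : 0 ≤ pu ψ (u, v) * (confE ψ (u, v))⁻¹ * (w ⬝ᵥ du ψ (u, v)) := by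
    have := mul_nonneg (mul_nonneg (inv_pos.2 hE).le (sub_pos.2 hA).le) (neg_nonneg.2 k1)
    rw [k2]
    linarith
  linarith

end Pool.Agent.Lib.MP_c7e804_gt
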