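import Pool.Agent.Lib.MP_c7e804_gt.H49Arc
import Pool.Agent.Lib.MP_c7e804_gt.H49Two
import Pool.Agent.Lib.MP_c7e804_gt.H49Cone

/-!
The part of the surface in a half-space is connected through the negative side.
-/

namespace Pool.Agent.Lib.MP_c7e804_gt

open Matrix Set Filter Topology

variable {ψ : ℝ × ℝ → V3} {a b τ θ : ℝ} {F : V3 → ℝ}

theorem frk_compact (h : CapAnnulus ψ a b τ θ θ) : IsCompact (ψ '' strip a b) := by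
  have hs : Icc a b ×ˢ Icc 0 τ ⊆ strip a b := fun _ hp => hp.1
  have e : ψ '' strip a b = ψ '' (Icc a b ×ˢ Icc 0 τ) := by
    refine Subset.antisymm ?_ (image_mono hs)
    rintro _ ⟨p, hp, rfl⟩
    obtain ⟨k, hk⟩ := exists_shift h.hτ p.2
    exact ⟨(p.1, p.2 + k * τ), ⟨hp, Ico_subset_Icc_self hk⟩, per_int h.periodic hp k⟩
  rw [e]
  exact (isCompact_Icc.prod isCompact_Icc).image_of_continuousOn (h.contOn.mono hs)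

theorem frk_max {K : Set V3} (hK : IsCompact K) {n : V3} {t : ℝ} (hKt : ∀ x ∈ K, t ≤ n ⬝ᵥ x)
    {β : V3 → ℤ} (hβ : ContinuousOn β K) {x y : V3} (hx : x ∈ K) (hy : y ∈ K)
    (hA : t < n ⬝ᵥ x) (hB : t < n ⬝ᵥ y) (hne : β x ≠ β y) :
    ∃ x ∈ K, ∃ y ∈ K, β x ≠ β y ∧ t < n ⬝ᵥ x ∧ t < n ⬝ᵥ y ∧ ∃ Z : ℝ,
      (x - y) ⬝ᵥ (x - y) = Z * ((n ⬝ᵥ x - t) * (n ⬝ᵥ y - t)) ∧
      ∀ x' ∈ K, ∀ y' ∈ K, β x' ≠ β y' →
        Z * ((n ⬝ᵥ x' - t) * (n ⬝ᵥ y' - t)) ≤ (x' - y') ⬝ᵥ (x' - y') := by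
  have hc : ContinuousOn (fun w : V3 × V3 => β w.1 - β w.2) (K ×ˢ K) :=
    (hβ.comp continuousOn_fst fun _ hw => hw.1).sub (hβ.comp continuousOn_snd fun _ hw => hw.2)
  have hS : IsCompact (K ×ˢ K ∩ (fun w : V3 × V3 => β w.1 - β w.2) ⁻¹' {0}ᶜ) :=
    (hK.prod hK).of_isClosed_subset
      (hc.preimage_isClosed_of_isClosed (hK.prod hK).isClosed (isClosed_discrete _))
      inter_subset_left
  have hD : ∀ x y : V3, β x ≠ β y → 0 < (x - y) ⬝ᵥ (x - y) := fun x y hw =>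
    dot_pos fun e => hw (by rw [sub_eq_zero.1 e])
  obtain ⟨⟨x0, y0⟩, ⟨⟨h1, h2⟩, h3⟩, hm⟩ := hS.exists_isMaxOn
    ⟨(x, y), ⟨hx, hy⟩, sub_ne_zero.2 hne⟩
    (f := fun w : V3 × V3 => (n ⬝ᵥ w.1 - t) * (n ⬝ᵥ w.2 - t) / ((w.1 - w.2) ⬝ᵥ (w.1 - w.2)))
    (ContinuousOn.div (by fun_prop) (by fun_prop) fun w hw => (hD _ _ (sub_ne_zero.1 hw.2)).ne')
  have h3' : β x0 ≠ β y0 := sub_ne_zero.1 h3
  have hD0 := hD _ _ h3'
  have key : ∀ x' ∈ K, ∀ y' ∈ K, β x' ≠ β y' →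
      (n ⬝ᵥ x' - t) * (n ⬝ᵥ y' - t) / ((x' - y') ⬝ᵥ (x' - y')) ≤
        (n ⬝ᵥ x0 - t) * (n ⬝ᵥ y0 - t) / ((x0 - y0) ⬝ᵥ (x0 - y0)) := fun x' hx' y' hy' hw =>
    hm (show (x', y') ∈ _ from ⟨⟨hx', hy'⟩, sub_ne_zero.2 hw⟩)
  have hpos : 0 < (n ⬝ᵥ x0 - t) * (n ⬝ᵥ y0 - t) :=
    (div_pos_iff_of_pos_right hD0).1 ((div_pos (mul_pos (sub_pos.2 hA) (sub_pos.2 hB))
      (hD _ _ hne)).trans_le (key x hx y hy hne))
  have hA0 : 0 < n ⬝ᵥ x0 - t :=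
    lt_of_le_of_ne (sub_nonneg.2 (hKt _ h1)) fun e => by simp [← e] at hpos
  refine ⟨x0, h1, y0, h2, h3', sub_pos.1 hA0, sub_pos.1 ((mul_pos_iff_of_pos_left hA0).1 hpos),
    (x0 - y0) ⬝ᵥ (x0 - y0) / ((n ⬝ᵥ x0 - t) * (n ⬝ᵥ y0 - t)), (div_mul_cancel₀ _ hpos.ne').symm,
    fun x' hx' y' hy' hw => ?_⟩
  have h4 := key x' hx' y' hy' hw
  rw [div_le_div_iff₀ (hD _ _ hw) hD0] at h4
  rw [div_mul_eq_mul_div, div_le_iff₀ hpos]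
  linarith

theorem frankel (h : Cap ψ a b τ θ) (hc : 0 ≤ Real.cos θ) (hF : Sep ψ a b F) {n : V3}
    (hn : n ⬝ᵥ n = 1) {t : ℝ} (ht : t < 0) {β : V3 → ℤ}
    (hβ : ContinuousOn β {x ∈ ball3 | t ≤ n ⬝ᵥ x ∧ F x ≤ 0}) {p q : ℝ × ℝ} (hp : p ∈ strip a b)
    (hq : q ∈ strip a b) (hA : t < n ⬝ᵥ ψ p) (hB : t < n ⬝ᵥ ψ q) : β (ψ p) = β (ψ q) := by
  by_contra hne
  set K : Set V3 := ψ '' strip a b ∩ {x | t ≤ n ⬝ᵥ x} with hKdef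
  have hK : IsCompact K :=
    (frk_compact h.ann).inter_right (isClosed_le continuous_const (by fun_prop))
  have hF0 : ∀ p ∈ strip a b, F (ψ p) = 0 := fun p hp =>
    (hF.zero _ (h.ann.mem_ball hp)).2 ⟨p, hp, rfl⟩
  have hβK : ContinuousOn β K := hβ.mono (by
    rintro _ ⟨⟨p, hp, rfl⟩, h1⟩
    exact ⟨h.ann.mem_ball hp, h1, (hF0 p hp).le⟩)
  have loc : ∀ p ∈ strip a b, t < n ⬝ᵥ ψ p →
      ∀ᶠ x in 𝓝[strip a b] p, ψ x ∈ K ∧ β (ψ x) = β (ψ p) := fun p hp hA => by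
    have h1 := h.ann.contOn p hp
    have h2 : ∀ᶠ x in 𝓝[strip a b] p, ψ x ∈ K := by
      have h3 : ∀ᶠ y in 𝓝 (ψ p), t < n ⬝ᵥ y :=
        (isOpen_lt continuous_const (by fun_prop)).mem_nhds hA
      filter_upwards [h1.eventually h3, self_mem_nhdsWithin] with x h4 h5
      exact ⟨⟨x, h5, rfl⟩, h4.le⟩
    have h3 := (hβK _ ⟨⟨p, hp, rfl⟩, hA.le⟩).tendsto.comp
      (tendsto_nhdsWithin_iff.2 ⟨h1.tendsto, h2⟩)
    rw [nhds_discrete, tendsto_pure] at h3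
    exact h2.and h3
  obtain ⟨_, ⟨⟨p, hp, rfl⟩, -⟩, _, ⟨⟨q, hq, rfl⟩, -⟩, hne, hA, hB, Z, hZ, key⟩ :=
    frk_max hK (fun _ hx => hx.2) hβK ⟨⟨p, hp, rfl⟩, hA.le⟩ ⟨⟨q, hq, rfl⟩, hB.le⟩ hA hB hne
  have hpK : ψ p ∈ K := ⟨⟨p, hp, rfl⟩, hA.le⟩
  have hqK : ψ q ∈ K := ⟨⟨q, hq, rfl⟩, hB.le⟩
  have hne' : ψ p ≠ ψ q := fun e => hne (by rw [e])
  have hA' := sub_pos.2 hA
  have hB' := sub_pos.2 hB
  obtain ⟨z, hz, z0, z1, hzm, hzl, d0, d1⟩ :=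
    exists_arc hn ht (h.ann.mem_ball hp) (h.ann.mem_ball hq) hA hB hne'
  have hFz : ContinuousOn (fun σ => F (z σ)) (Ioo 0 1) :=
    hF.cont.comp hz.continuousOn fun σ hσ => (hzm σ (Ioo_subset_Icc_self hσ)).1
  have hnz : ∀ σ ∈ Ioo (0 : ℝ) 1, F (z σ) ≠ 0 := fun σ hσ e => by
    obtain ⟨h1, h2⟩ := hzm σ (Ioo_subset_Icc_self hσ)
    have h3 : z σ ∈ K := ⟨(hF.zero _ h1).1 e, h2.le⟩
    obtain ⟨h4, h5⟩ := hzl σ hσ
    rw [hZ] at h4 h5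
    by_cases h6 : β (ψ p) = β (z σ)
    · have := mul_le_mul_of_nonneg_right (key _ h3 _ hqK (h6 ▸ hne)) hA'.le
      linarith
    · have := mul_le_mul_of_nonneg_right (key _ hpK _ h3 h6) hB'.le
      linarith
  have hneg : ∀ σ ∈ Ioo (0 : ℝ) 1, ¬ F (z σ) < 0 := fun σ hσ hlt => by
    refine hne ?_
    rw [← z0, ← z1]
    refine const_of_path hβ zero_le_one hz.continuousOn fun s hs =>
      ⟨(hzm s hs).1, (hzm s hs).2.le, ?_⟩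
    rcases hs.1.eq_or_lt with rfl | h1
    · rw [z0, hF0 p hp]
    rcases hs.2.eq_or_lt with rfl | h2
    · rw [z1, hF0 q hq]
    by_contra h3
    obtain ⟨r, hr, e⟩ := isPreconnected_Ioo.intermediate_value hσ ⟨h1, h2⟩ hFz
      ⟨hlt.le, (not_le.1 h3).le⟩
    exact hnz r hr e
  by_cases hpb : p.1 = a ∨ p.1 = b
  · have h1 := two_boundary h hc ht hpb (h.ann.mem_ball hq) hA hB hne' hZ
      ((loc p hp hA).mono fun x hx => key _ hx.1 _ hqK (hx.2 ▸ hne))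
    obtain ⟨σ, hσ, h2⟩ := hF.curve hp d0 z0 (fun σ hσ => (hzm σ hσ).1) (by
      rw [dotProduct_smul, smul_eq_mul]
      exact mul_neg_of_pos_of_neg (by positivity) h1)
    exact hneg σ hσ h2
  by_cases hqb : q.1 = a ∨ q.1 = b
  · have h1 := two_boundary h hc ht hqb (h.ann.mem_ball hp) hB hA hne'.symm (Z := Z)
      (by rw [mul_comm (n ⬝ᵥ ψ q - t), ← hZ, ← neg_sub, neg_dotProduct_neg])
      ((loc q hq hB).mono fun x hx => key _ hx.1 _ hpK (hx.2 ▸ Ne.symm hne))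
    obtain ⟨σ, hσ, h2⟩ := hF.curve hq d1 (by simpa using z1)
      (fun σ hσ => (hzm (1 - σ) ⟨by linarith [hσ.2], by linarith [hσ.1]⟩).1) (by
      rw [dotProduct_smul, smul_eq_mul]
      exact mul_neg_of_pos_of_neg (by positivity) h1)
    exact hneg (1 - σ) ⟨by linarith [hσ.2], by linarith [hσ.1]⟩ h2
  have hi : ∀ p ∈ strip a b, ¬ (p.1 = a ∨ p.1 = b) →
      (a < p.1 ∧ p.1 < b) ∧ 𝓝[strip a b] p = 𝓝 p := fun p hp hb => by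
    have h1 : a < p.1 := lt_of_le_of_ne hp.1 fun e => hb (Or.inl e.symm)
    have h2 : p.1 < b := lt_of_le_of_ne hp.2 fun e => hb (Or.inr e)
    exact ⟨⟨h1, h2⟩, nhdsWithin_eq_nhds.2
      (continuous_fst.continuousAt.preimage_mem_nhds (Icc_mem_nhds h1 h2))⟩
  have l1 := loc p hp hA
  have l2 := loc q hq hB
  rw [(hi p hp hpb).2] at l1
  rw [(hi q hq hqb).2] at l2
  exact two_interior h hn (hi p hp hpb).1 (hi q hq hqb).1 hA hB hne' hZ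
    ((l1.prod_nhds l2).mono fun x hx => key _ hx.1.1 _ hx.2.1 (by rw [hx.1.2, hx.2.2]; exact hne))

end Pool.Agent.Lib.MP_c7e804_gt
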