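import Pool.Agent.Lib.MP_c7e804_gt.H49Plane1

/-!
The alternative at a saddle point.
-/

namespace Pool.Agent.Lib.MP_c7e804_gt

open Matrix Set Filter Topology

/-- a function constant on path components of an open set is continuous on it -/
theorem p2_cont {Z : Set (ℝ × ℝ)} (hZ : IsOpen Z) {β : ℝ × ℝ → ℤ}
    (h : ∀ p q, JoinedIn Z p q → β p = β q) : ContinuousOn β Z := by
  intro p hp
  have h1 : pathComponentIn Z p ∈ 𝓝 p := pathComponentIn_mem_nhds (hZ.mem_nhds hp)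
  have h2 : β =ᶠ[𝓝 p] fun _ => β p := by
    filter_upwards [h1] with q hq
    exact (h p q hq).symm
  exact (continuousAt_const.congr h2.symm).continuousWithinAt

theorem p2_left {Z : Set (ℝ × ℝ)} {a : ℝ} (hZ : ∀ p : ℝ × ℝ, p.1 < a → p ∈ Z) {y : ℝ × ℝ}
    (hy : y ∈ Z) (hya : y.1 ≤ a) : JoinedIn Z (a - 1, 0) y := by
  refine JoinedIn.of_segment_subset ?_
  rintro z ⟨s, t, hs, ht, hst, rfl⟩
  rcases eq_or_lt_of_le hs with rfl | hs'
  · have : t = 1 := by linarith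
    subst this
    simpa using hy
  · refine hZ _ ?_
    have h1 : t * y.1 ≤ t * a := mul_le_mul_of_nonneg_left hya ht
    have h2 : s * a + t * a = a := by rw [← add_mul, hst, one_mul]
    show s * (a - 1) + t * y.1 < a
    linarith

theorem p2_right {Z : Set (ℝ × ℝ)} {b : ℝ} (hZ : ∀ p : ℝ × ℝ, b < p.1 → p ∈ Z) {y : ℝ × ℝ}
    (hy : y ∈ Z) (hyb : b ≤ y.1) : JoinedIn Z (b + 1, 0) y := by
  refine JoinedIn.of_segment_subset ?_
  rintro z ⟨s, t, hs, ht, hst, rfl⟩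
  rcases eq_or_lt_of_le hs with rfl | hs'
  · have : t = 1 := by linarith
    subst this
    simpa using hy
  · refine hZ _ ?_
    have h1 : t * b ≤ t * y.1 := mul_le_mul_of_nonneg_left hyb ht
    have h2 : s * b + t * b = b := by rw [← add_mul, hst, one_mul]
    show b < s * (b + 1) + t * y.1
    linarith

theorem p2_shift {Z : Set (ℝ × ℝ)} {c : ℝ} (hZ : ∀ p ∈ Z, (p.1, p.2 + c) ∈ Z) {x y : ℝ × ℝ}
    (h : JoinedIn Z x y) : JoinedIn Z (x.1, x.2 + c) (y.1, y.2 + c) := by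
  have hc : Continuous fun p : ℝ × ℝ => (p.1, p.2 + c) := by fun_prop
  refine (h.map hc).mono ?_
  rintro _ ⟨p, hp, rfl⟩
  exact hZ p hp

theorem p2_inv {Z : Set (ℝ × ℝ)} {τ : ℝ} (hZ : ∀ p ∈ Z, (p.1, p.2 + τ) ∈ Z)
    (hZ' : ∀ p ∈ Z, (p.1, p.2 + -τ) ∈ Z) {x : ℝ × ℝ} (hx : ∀ c, JoinedIn Z x (x.1, x.2 + c))
    (p : ℝ × ℝ) : JoinedIn Z x (p.1, p.2 + τ) ↔ JoinedIn Z x p := by
  constructor
  · intro h
    have h1 := (hx (-τ)).trans (p2_shift hZ' h)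
    simpa using h1
  · intro h
    exact (hx τ).trans (p2_shift hZ h)

/-- the exponential chart of the cylinder -/
noncomputable def p2Ex (κ u₀ v₀ : ℝ) (p : ℝ × ℝ) : ℂ :=
  Complex.exp (((κ * (p.1 - u₀) : ℝ) : ℂ) + ((κ * (p.2 - v₀) : ℝ) : ℂ) * Complex.I)

theorem p2Ex_cont (κ u₀ v₀ : ℝ) : Continuous (p2Ex κ u₀ v₀) := by
  unfold p2Ex
  fun_prop

theorem p2Ex_inj {κ τ u₀ v₀ : ℝ} (hκ : 0 < κ) (hκτ : κ * τ = 2 * Real.pi) {p q : ℝ × ℝ}
    (h : p2Ex κ u₀ v₀ p = p2Ex κ u₀ v₀ q) : ∃ k : ℤ, p = (q.1, q.2 + k * τ) := by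
  obtain ⟨k, hk⟩ := Complex.exp_eq_exp_iff_exists_int.1 h
  have h1 := congrArg Complex.re hk
  have h2 := congrArg Complex.im hk
  simp at h1 h2
  refine ⟨k, Prod.ext ?_ ?_⟩
  · rcases h1 with h1 | h1
    · exact h1
    · exact absurd h1 hκ.ne'
  · show p.2 = q.2 + k * τ
    refine mul_left_cancel₀ hκ.ne' ?_
    rw [← hκτ] at h2
    linarith

theorem p2Ex_per {κ τ u₀ v₀ : ℝ} (hκτ : κ * τ = 2 * Real.pi) (p : ℝ × ℝ) (k : ℤ) :
    p2Ex κ u₀ v₀ (p.1, p.2 + k * τ) = p2Ex κ u₀ v₀ p := by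
  refine Complex.exp_eq_exp_iff_exists_int.2 ⟨k, ?_⟩
  have h : κ * (p.2 + k * τ - v₀) = κ * (p.2 - v₀) + k * (2 * Real.pi) := by
    rw [← hκτ]
    ring
  simp only [h]
  push_cast
  ring

theorem p2Ex_norm (κ u₀ v₀ : ℝ) (p : ℝ × ℝ) :
    ‖p2Ex κ u₀ v₀ p‖ = Real.exp (κ * (p.1 - u₀)) := by
  unfold p2Ex
  rw [Complex.norm_exp]
  simp

theorem p2Ex_re (κ u₀ v₀ : ℝ) (p : ℝ × ℝ) :
    (p2Ex κ u₀ v₀ p).re = Real.exp (κ * (p.1 - u₀)) * Real.cos (κ * (p.2 - v₀)) := by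
  unfold p2Ex
  rw [Complex.exp_re]
  simp

theorem p2Ex_real (κ u₀ v₀ u : ℝ) :
    p2Ex κ u₀ v₀ (u, v₀) = ((Real.exp (κ * (u - u₀)) : ℝ) : ℂ) := by
  unfold p2Ex
  simp

theorem p2_joined {a b τ u₀ v₀ d h₀ : ℝ} {f : ℝ × ℝ → ℝ} (hd : 0 < d) (hdτ : 2 * d < τ)
    (ha : a < u₀ - d) (hb : u₀ + d < b)
    (hp : ∀ p ∈ strip a b, f (p.1, p.2 + τ) = f p)
    (hu : ∀ u ∈ Icc (u₀ - d) (u₀ + d), h₀ ≤ f (u, v₀))
    (hv : ∀ v ∈ Icc (v₀ - d) (v₀ + d), f (u₀, v) ≤ h₀)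
    (hj : JoinedIn {p | p ∈ strip a b → f p < h₀} (u₀, v₀ + d) (u₀, v₀ - d)) :
    ∃ J : ℝ × ℝ → ℤ, (∀ p ∈ strip a b, J (p.1, p.2 + τ) = J p) ∧
      ContinuousOn J {p ∈ strip a b | h₀ < f p} ∧ J (u₀ - d, v₀) ≠ J (u₀ + d, v₀) := by
  obtain ⟨P, hP⟩ := hj
  have hτ : 0 < τ := by linarith
  have hπ := Real.pi_pos
  obtain ⟨κ, hκ, hκτ⟩ : ∃ κ : ℝ, 0 < κ ∧ κ * τ = 2 * Real.pi :=
    ⟨2 * Real.pi / τ, by positivity, by field_simp⟩
  have hδ : 0 < κ * d := mul_pos hκ hd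
  have hδ' : κ * d < Real.pi := by nlinarith
  have hρ : 1 < Real.exp (κ * d) := Real.one_lt_exp_iff.2 hδ
  have hPZ : ∀ t : ℝ, P.extend t ∈ strip a b → f (P.extend t) < h₀ := fun t => hP _
  have hne : ∀ t : ℝ, ∀ q ∈ strip a b, h₀ ≤ f q →
      p2Ex κ u₀ v₀ (P.extend t) ≠ p2Ex κ u₀ v₀ q := by
    intro t q hq hle e
    obtain ⟨k, hk⟩ := p2Ex_inj hκ hκτ e
    have h1 := hPZ t (by rw [hk]; exact hq)
    rw [hk, per_int hp hq k] at h1
    linarith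
  obtain ⟨J, hJ, hJ'⟩ := index_jump (γ := fun t => p2Ex κ u₀ v₀ (P.extend t)) hδ hδ' hρ
    (((p2Ex_cont κ u₀ v₀).comp P.continuous_extend).continuousOn)
    (by simp [p2Ex]) (by simp [p2Ex]) (by
      intro t _ r hr
      have hr0 : 0 < r := lt_of_lt_of_le (by positivity) hr.1
      have h1 : -(κ * d) ≤ Real.log r := by
        rw [Real.le_log_iff_exp_le hr0, Real.exp_neg]
        exact hr.1
      have h2 : Real.log r ≤ κ * d := (Real.log_le_iff_le_exp hr0).2 hr.2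
      have h3 : -d ≤ Real.log r / κ := by
        rw [le_div_iff₀ hκ]
        linarith
      have h4 : Real.log r / κ ≤ d := by
        rw [div_le_iff₀ hκ]
        linarith
      have h5 : (r : ℂ) = p2Ex κ u₀ v₀ (u₀ + Real.log r / κ, v₀) := by
        rw [p2Ex_real]
        have : κ * (u₀ + Real.log r / κ - u₀) = Real.log r := by
          field_simp
          ring
        rw [this, Real.exp_log hr0]
      rw [h5]
      exact hne t _ ⟨by show a ≤ u₀ + _; linarith, by show u₀ + _ ≤ b; linarith⟩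
        (hu _ ⟨by linarith, by linarith⟩))
  refine ⟨fun p => J (p2Ex κ u₀ v₀ p), fun p _ => ?_, ?_, ?_⟩
  · have h1 := p2Ex_per (u₀ := u₀) (v₀ := v₀) hκτ p 1
    simp only [Int.cast_one, one_mul] at h1
    simp only [h1]
  · refine hJ.comp (p2Ex_cont κ u₀ v₀).continuousOn ?_
    rintro q ⟨hq, hlt⟩
    refine ⟨fun t _ => hne t q hq hlt.le, ?_⟩
    rintro ⟨h1, h2⟩
    rw [p2Ex_norm] at h1
    rw [p2Ex_re, h1, one_mul] at h2
    have h3 : q.1 = u₀ := by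
      rw [Real.exp_eq_one_iff] at h1
      rcases mul_eq_zero.1 h1 with h | h
      · exact absurd h hκ.ne'
      · linarith
    obtain ⟨k, hk0, hk1⟩ := exists_shift hτ (q.2 - v₀ + τ / 2)
    have h4 : Real.cos (κ * (q.2 + k * τ - v₀)) = Real.cos (κ * (q.2 - v₀)) := by
      have : κ * (q.2 + k * τ - v₀) = κ * (q.2 - v₀) + k * (2 * Real.pi) := by
        rw [← hκτ]
        ring
      rw [this, Real.cos_add_int_mul_two_pi]
    have h5 : |q.2 + k * τ - v₀| ≤ τ / 2 := abs_le.2 ⟨by linarith, by linarith⟩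
    have h6 : |q.2 + k * τ - v₀| ≤ d := by
      by_contra hcon
      push Not at hcon
      have h7 : κ * |q.2 + k * τ - v₀| ≤ Real.pi := by nlinarith
      have h8 := Real.cos_lt_cos_of_nonneg_of_le_pi hδ.le h7 (mul_lt_mul_of_pos_left hcon hκ)
      rw [← abs_of_pos hκ, ← abs_mul, Real.cos_abs, abs_of_pos hκ, h4] at h8
      linarith
    have h9 := hv (q.2 + k * τ) ⟨by linarith [(abs_le.1 h6).1], by linarith [(abs_le.1 h6).2]⟩
    rw [← h3, per_int hp hq k] at h9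
    linarith
  · simp only [p2Ex_real]
    have h1 : κ * (u₀ - d - u₀) = -(κ * d) := by ring
    have h2 : κ * (u₀ + d - u₀) = κ * d := by ring
    rw [h1, h2, Real.exp_neg]
    exact hJ'.symm

theorem plane_alt {a b τ u₀ v₀ d h₀ : ℝ} {f : ℝ × ℝ → ℝ} (hd : 0 < d) (hdτ : 2 * d < τ)
    (ha : a < u₀ - d) (hb : u₀ + d < b) (hf : ContinuousOn f (strip a b))
    (hp : ∀ p ∈ strip a b, f (p.1, p.2 + τ) = f p)
    (hu : ∀ u ∈ Icc (u₀ - d) (u₀ + d), h₀ ≤ f (u, v₀))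
    (hv : ∀ v ∈ Icc (v₀ - d) (v₀ + d), f (u₀, v) ≤ h₀)
    (hq₁ : f (u₀, v₀ + d) < h₀) (hq₂ : f (u₀, v₀ - d) < h₀)
    (hmin : ∀ β : ℝ × ℝ → ℤ, (∀ p ∈ strip a b, β (p.1, p.2 + τ) = β p) →
      ContinuousOn β {p ∈ strip a b | f p < h₀} → ∀ q ∈ strip a b, f q < h₀ →
      ∃ x ∈ strip a b, (x.1 = a ∨ x.1 = b) ∧ f x < h₀ ∧ β x = β q) :
    (∃ J : ℝ × ℝ → ℤ, (∀ p ∈ strip a b, J (p.1, p.2 + τ) = J p) ∧
      ContinuousOn J {p ∈ strip a b | h₀ < f p} ∧ J (u₀ - d, v₀) ≠ J (u₀ + d, v₀)) ∨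
    ∃ χ : ℝ × ℝ → ℤ, (∀ p ∈ strip a b, χ (p.1, p.2 + τ) = χ p) ∧
      ContinuousOn χ {p ∈ strip a b | f p < h₀} ∧ (∀ v, f (a, v) < h₀ → χ (a, v) = 1) ∧
      (∀ v, f (b, v) < h₀ → χ (b, v) = 0) ∧ (∀ p, χ p = 0 ∨ χ p = 1) ∧
      χ (u₀, v₀ - d) ≠ χ (u₀, v₀ + d) := by
  classical
  by_cases hj : JoinedIn {p | p ∈ strip a b → f p < h₀} (u₀, v₀ + d) (u₀, v₀ - d)
  · exact Or.inl (p2_joined hd hdτ ha hb hp hu hv hj)
  right
  obtain ⟨Z, hZ⟩ : ∃ Z : Set (ℝ × ℝ), Z = {p | p ∈ strip a b → f p < h₀} := ⟨_, rfl⟩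
  rw [← hZ] at hj
  have hmem : ∀ p, p ∈ Z ↔ (p ∈ strip a b → f p < h₀) := fun p => by rw [hZ]; rfl
  have hcl : IsClosed (strip a b) :=
    (isClosed_le continuous_const continuous_fst).inter (isClosed_le continuous_fst continuous_const)
  have hZo : IsOpen Z := by
    have h1 := hf.preimage_isClosed_of_isClosed hcl (isClosed_Ici (a := h₀))
    have h2 : Z = (strip a b ∩ f ⁻¹' Ici h₀)ᶜ := by
      ext p
      rw [hmem]
      simp
    rw [h2]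
    exact h1.isOpen_compl
  have hsub : {p ∈ strip a b | f p < h₀} ⊆ Z := fun p h => (hmem p).2 fun _ => h.2
  have hZa : ∀ p : ℝ × ℝ, p.1 < a → p ∈ Z := fun p h => (hmem p).2 fun h' => absurd h'.1 h.not_ge
  have hZb : ∀ p : ℝ × ℝ, b < p.1 → p ∈ Z := fun p h => (hmem p).2 fun h' => absurd h'.2 h.not_ge
  have hZk : ∀ k : ℤ, ∀ p ∈ Z, (p.1, p.2 + k * τ) ∈ Z := fun k p h => (hmem _).2 fun h' => by
    have h1 : p ∈ strip a b := h'
    rw [per_int hp h1 k]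
    exact (hmem p).1 h h1
  have hZ1 : ∀ p ∈ Z, (p.1, p.2 + τ) ∈ Z := by simpa using hZk 1
  have hZ2 : ∀ p ∈ Z, (p.1, p.2 + -τ) ∈ Z := by simpa using hZk (-1)
  have hia := p2_inv hZ1 hZ2 (x := (a - 1, 0)) fun c =>
    p2_left hZa (hZa _ (by show a - 1 < a; linarith)) (by show a - 1 ≤ a; linarith)
  have hib := p2_inv hZ1 hZ2 (x := (b + 1, 0)) fun c =>
    p2_right hZb (hZb _ (by show b < b + 1; linarith)) (by show b ≤ b + 1; linarith)
  have hcov : ∀ q ∈ strip a b, f q < h₀ →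
      JoinedIn Z (a - 1, 0) q ∨ JoinedIn Z (b + 1, 0) q := by
    intro q hq hlt
    obtain ⟨x, -, hx, hxl, hβ⟩ := hmin
      (fun p => if JoinedIn Z (a - 1, 0) p ∨ JoinedIn Z (b + 1, 0) p then 1 else 0)
      (fun p _ => by simp only [hia, hib])
      ((p2_cont hZo fun p q h => if_congr
        (or_congr ⟨fun h' => h'.trans h, fun h' => h'.trans h.symm⟩
          ⟨fun h' => h'.trans h, fun h' => h'.trans h.symm⟩) rfl rfl).mono hsub) q hq hlt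
    have hxZ : x ∈ Z := (hmem x).2 fun _ => hxl
    have h1 : JoinedIn Z (a - 1, 0) x ∨ JoinedIn Z (b + 1, 0) x :=
      hx.imp (fun h => p2_left hZa hxZ h.le) fun h => p2_right hZb hxZ h.ge
    by_contra hcon
    rw [if_pos h1, if_neg hcon] at hβ
    exact one_ne_zero hβ
  have hs : ∀ v, (u₀, v) ∈ strip a b := fun v =>
    ⟨by show a ≤ u₀; linarith, by show u₀ ≤ b; linarith⟩
  have c1 := hcov _ (hs _) hq₁
  have c2 := hcov _ (hs _) hq₂
  have hdis : ¬ JoinedIn Z (a - 1, 0) (b + 1, 0) := by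
    intro h
    have e1 : JoinedIn Z (a - 1, 0) (u₀, v₀ + d) := c1.elim id fun h' => h.trans h'
    have e2 : JoinedIn Z (a - 1, 0) (u₀, v₀ - d) := c2.elim id fun h' => h.trans h'
    exact hj (e1.symm.trans e2)
  refine ⟨fun p => if JoinedIn Z (a - 1, 0) p then 1 else 0, fun p _ => by simp only [hia],
    (p2_cont hZo fun p q h => if_congr ⟨fun h' => h'.trans h, fun h' => h'.trans h.symm⟩
      rfl rfl).mono hsub, fun v h => if_pos (p2_left hZa ((hmem _).2 fun _ => h) le_rfl),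
    fun v h => if_neg fun h' =>
      hdis (h'.trans (p2_right hZb ((hmem _).2 fun _ => h) le_rfl).symm), fun p => ?_, ?_⟩
  · by_cases h : JoinedIn Z (a - 1, 0) p
    · exact Or.inr (if_pos h)
    · exact Or.inl (if_neg h)
  · by_cases h1 : JoinedIn Z (a - 1, 0) (u₀, v₀ + d)
    · have h2 : ¬ JoinedIn Z (a - 1, 0) (u₀, v₀ - d) := fun h => hj (h1.symm.trans h)
      simp only [if_pos h1, if_neg h2]
      exact zero_ne_one
    · have h2 : JoinedIn Z (a - 1, 0) (u₀, v₀ - d) := by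
        refine c2.resolve_right fun h => ?_
        exact hj ((c1.resolve_left h1).symm.trans h)
      simp only [if_neg h1, if_pos h2]
      exact one_ne_zero

end Pool.Agent.Lib.MP_c7e804_gt
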