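import Pool.Agent.Lib.MP_c7e804_gt.H49Tube2
import Pool.Agent.Lib.MP_c7e804_gt.H49Lift

/-!
An embedded annulus has two sides in the ball.
-/

namespace Pool.Agent.Lib.MP_c7e804_gt

open Matrix Set Filter Topology

variable {ψ : ℝ × ℝ → V3} {a b τ θ : ℝ}

/-- the clamped affine function used to build the circle valued map -/
noncomputable def sepRho (ε t : ℝ) : ℝ := max 0 (min 1 (1 / 2 + t / (2 * ε)))

theorem sep_cont (ε : ℝ) : Continuous (sepRho ε) := by
  unfold sepRho
  fun_prop

theorem sep_nonneg (ε t : ℝ) : 0 ≤ sepRho ε t := le_max_left _ _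

theorem sep_le_one (ε t : ℝ) : sepRho ε t ≤ 1 := _root_.max_le zero_le_one (min_le_left _ _)

theorem sep_zero (ε : ℝ) : sepRho ε 0 = 1 / 2 := by
  unfold sepRho
  norm_num

theorem sep_pos {ε t : ℝ} (hε : 0 < ε) (ht : 0 < t) : 1 / 2 < sepRho ε t := by
  have : 0 < t / (2 * ε) := by positivity
  exact lt_max_of_lt_right (lt_min (by norm_num) (by linarith))

theorem sep_neg {ε t : ℝ} (hε : 0 < ε) (ht : t < 0) : sepRho ε t < 1 / 2 := by
  have : t / (2 * ε) < 0 := div_neg_of_neg_of_pos ht (by positivity)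
  exact max_lt (by norm_num) (min_lt_of_right_lt (by linarith))

theorem sep_big {ε t : ℝ} (hε : 0 < ε) (ht : ε ≤ |t|) : sepRho ε t = 0 ∨ sepRho ε t = 1 := by
  rcases le_abs.1 ht with h | h
  · right
    have : 1 / 2 ≤ t / (2 * ε) := by
      rw [le_div_iff₀ (by positivity)]; linarith
    unfold sepRho
    rw [min_eq_left (by linarith), max_eq_right zero_le_one]
  · left
    have : t / (2 * ε) ≤ -(1 / 2) := by
      rw [div_le_iff₀ (by positivity)]; linarith
    exact max_eq_left (min_le_of_right_le (by linarith))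

theorem sep_int {s t : ℝ} (h : (s : AddCircle (1 : ℝ)) = (t : AddCircle (1 : ℝ))) :
    ∃ k : ℤ, s - t = k := by
  have h1 : ((s - t : ℝ) : AddCircle (1 : ℝ)) = 0 := by
    rw [AddCircle.coe_sub, h, sub_self]
  obtain ⟨k, hk⟩ := (AddCircle.coe_eq_zero_iff (1 : ℝ)).1 h1
  exact ⟨k, by simpa using hk.symm⟩

theorem sep_const {Y : Type} [TopologicalSpace Y] {S : Set Y} (hS : IsPreconnected S) {g : Y → ℝ}
    (hg : ContinuousOn g S) (hz : ∀ x ∈ S, ∃ k : ℤ, g x = k) {x y : Y} (hx : x ∈ S) (hy : y ∈ S) :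
    g x = g y := by
  obtain ⟨α, hα, he⟩ := int_cont hg hz
  rw [← he x hx, ← he y hy, hS.constant hα hx hy]

theorem sep_convex_strip (a b : ℝ) : Convex ℝ (strip a b) :=
  (convex_Icc a b).linear_preimage (LinearMap.fst ℝ ℝ ℝ)

theorem Tube.sep (h : CapAnnulus ψ a b τ θ θ) {T T' : Set V3} {r : V3 → ℝ} {ε₀ : ℝ}
    (hT : Tube ψ a b T T' r ε₀) : ∃ F, Sep ψ a b F := by
  classical
  have hε := hT.pos
  have hρ : ContinuousOn (fun y => sepRho ε₀ (r y)) T := (sep_cont ε₀).comp_continuousOn hT.cont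
  have hcoe : Continuous (fun t : ℝ => (t : AddCircle (1 : ℝ))) := continuous_quot_mk
  set f : V3 → AddCircle (1 : ℝ) :=
    fun y => if y ∈ T then ((sepRho ε₀ (r y) : ℝ) : AddCircle (1 : ℝ)) else 0 with hf
  have hfc : ContinuousOn f ball3 := by
    intro y hy
    by_cases hyT : y ∈ T
    · have h1 : ContinuousAt (fun z => ((sepRho ε₀ (r z) : ℝ) : AddCircle (1 : ℝ))) y :=
        hcoe.continuousAt.comp (hρ.continuousAt (hT.hopen.mem_nhds hyT))
      refine (h1.congr ?_).continuousWithinAt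
      filter_upwards [hT.hopen.mem_nhds hyT] with z hz
      simp only [hf, hz, if_true]
    · have hyT' : y ∉ T' := fun h' => hyT (hT.sub h')
      have h0 : f y = 0 := by simp only [hf, hyT, if_false]
      refine (continuousWithinAt_const (b := (0 : AddCircle (1 : ℝ)))).congr_of_eventuallyEq ?_ h0
      filter_upwards [self_mem_nhdsWithin,
        mem_nhdsWithin_of_mem_nhds (hT.hclosed.isOpen_compl.mem_nhds hyT')] with z hz hz'
      by_cases hzT : z ∈ T
      · simp only [hf, hzT, if_true]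
        rcases sep_big hε (hT.big z hzT hz hz') with h2 | h2
        · rw [h2]; rfl
        · rw [h2]; exact AddCircle.coe_period (1 : ℝ)
      · simp only [hf, hzT, if_false]
  obtain ⟨G, hG, hGf⟩ := lifts_convex convex_ball3 f hfc
  have hint : ∀ y ∈ ball3, y ∈ T → ∃ k : ℤ, G y - sepRho ε₀ (r y) = k := by
    intro y hy hyT
    refine sep_int ?_
    rw [hGf y hy]
    simp only [hf, hyT, if_true]
  have hon : ∀ p ∈ strip a b, ψ p ∈ T ∧ r (ψ p) = 0 := by
    intro p hp
    obtain ⟨ε, hε', he⟩ := hT.est 1 one_pos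
    obtain ⟨h1, h2⟩ := he p hp (ψ p) (by simpa using hε')
    refine ⟨h1, ?_⟩
    simpa using h2
  have hp0 : ((a, 0) : ℝ × ℝ) ∈ strip a b := ⟨le_rfl, h.hab.le⟩
  have hint' : ∀ p ∈ strip a b, ∃ k : ℤ, G (ψ p) - 1 / 2 = k := by
    intro p hp
    obtain ⟨k, hk⟩ := hint (ψ p) (h.mem_ball hp) (hon p hp).1
    rw [(hon p hp).2, sep_zero] at hk
    exact ⟨k, hk⟩
  obtain ⟨k, hk⟩ := hint' _ hp0
  have hall : ∀ p ∈ strip a b, G (ψ p) - 1 / 2 = k := by
    intro p hp
    rw [← hk]
    exact sep_const (g := fun p => G (ψ p) - 1 / 2) (sep_convex_strip a b).isPreconnected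
      ((hG.comp h.contOn fun q hq => h.mem_ball hq).sub continuousOn_const) hint' hp hp0
  refine ⟨fun y => G y - k - 1 / 2, (hG.sub continuousOn_const).sub continuousOn_const, ?_, ?_⟩
  · intro x hx
    constructor
    · intro hF
      by_cases hxT : x ∈ T
      · obtain ⟨l, hl⟩ := hint x hx hxT
        have e : sepRho ε₀ (r x) - 1 / 2 = ((k - l : ℤ) : ℝ) := by push_cast; linarith
        have b1 : ((k - l : ℤ) : ℝ) < 1 := by linarith [sep_le_one ε₀ (r x)]
        have b2 : (-1 : ℝ) < ((k - l : ℤ) : ℝ) := by linarith [sep_nonneg ε₀ (r x)]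
        have b3 : k - l < 1 := by exact_mod_cast b1
        have b4 : -1 < k - l := by exact_mod_cast b2
        have b5 : k - l = 0 := by omega
        rw [b5, Int.cast_zero] at e
        refine hT.zero x hxT hx ?_
        rcases lt_trichotomy (r x) 0 with h1 | h1 | h1
        · linarith [sep_neg hε h1]
        · exact h1
        · linarith [sep_pos hε h1]
      · exfalso
        have h1 : (G x : AddCircle (1 : ℝ)) = ((0 : ℝ) : AddCircle (1 : ℝ)) := by
          rw [hGf x hx]
          simp only [hf, hxT, if_false]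
          rfl
        obtain ⟨l, hl⟩ := sep_int h1
        have e : ((2 * (l - k) : ℤ) : ℝ) = 1 := by push_cast; linarith
        have e' : 2 * (l - k) = 1 := by exact_mod_cast e
        omega
    · rintro ⟨p, hp, rfl⟩
      linarith [hall p hp]
  · intro η hη
    obtain ⟨ε, hε', he⟩ := hT.est η hη
    refine ⟨ε, hε', fun p hp x hx hxp => ?_⟩
    have hS : Convex ℝ (ball3 ∩ Metric.ball (ψ p) ε) := convex_ball3.inter (convex_ball _ _)
    have hST : ∀ y ∈ ball3 ∩ Metric.ball (ψ p) ε, y ∈ T := fun y hy =>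
      (he p hp y (mem_ball_iff_norm.1 hy.2)).1
    have hc := sep_const (g := fun y => G y - sepRho ε₀ (r y)) hS.isPreconnected
      ((hG.mono inter_subset_left).sub (hρ.mono hST)) (fun y hy => hint y hy.1 (hST y hy))
      ⟨hx, mem_ball_iff_norm.2 hxp⟩ ⟨h.mem_ball hp, Metric.mem_ball_self hε'⟩
    simp only [(hon p hp).2, sep_zero, hall p hp] at hc
    obtain ⟨h1, h2⟩ := abs_le.1 (he p hp x hxp).2
    constructor
    · intro h3
      have := sep_pos hε (show 0 < r x by linarith)
      linarith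
    · intro h3
      have := sep_neg hε (show r x < 0 by linarith)
      linarith

theorem exists_sep (h : CapAnnulus ψ a b τ θ θ) (he : Embedded ψ a b τ) : ∃ F, Sep ψ a b F := by
  obtain ⟨T, T', r, ε₀, hT⟩ := exists_tube h he
  exact hT.sep h

end Pool.Agent.Lib.MP_c7e804_gt
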