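import Pool.Agent.Lib.MP_c7e804_gt.H49Beta
import Pool.Agent.Lib.MP_c7e804_gt.H49Frankel
import Pool.Agent.Lib.MP_c7e804_gt.H49Plane2
import Pool.Agent.Lib.MP_c7e804_gt.H49Sep
import Pool.Agent.Lib.MP_c7e804_gt.H43Core

/-!
Embedded annuli with an acute contact angle are star-shaped.
-/

namespace Pool.Agent.Lib.MP_c7e804_gt

open Matrix Set Filter Topology

variable {ψ : ℝ × ℝ → V3} {a b τ θ : ℝ}

theorem main_small (h : Cap ψ a b τ θ) {p : ℝ × ℝ} (ha : a < p.1) (hb : p.1 < b) :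
    ∃ d : ℝ, 0 < d ∧ 2 * d < τ ∧ a < p.1 - d ∧ p.1 + d < b ∧
      (∀ s, s ≠ 0 → |s| ≤ d → normal ψ p ⬝ᵥ ψ p < normal ψ p ⬝ᵥ ψ (p.1 + s, p.2) ∧
        normal ψ p ⬝ᵥ ψ (p.1, p.2 + s) < normal ψ p ⬝ᵥ ψ p) ∧
      ∀ q : ℝ × ℝ, |q.1 - p.1| ≤ d → |q.2 - p.2| ≤ d → 1 / 2 ≤ normal ψ q ⬝ᵥ normal ψ p := by
  have hp : p ∈ strip a b := ⟨ha.le, hb.le⟩
  obtain ⟨d₀, hd₀, hs⟩ := saddle h hp
  have hc : ContinuousAt (fun q => normal ψ q ⬝ᵥ normal ψ p) p :=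
    (sm_dot (h.ann.smN hp) contDiffAt_const).continuousAt
  have h1 : (1 / 2 : ℝ) < normal ψ p ⬝ᵥ normal ψ p := by
    rw [(h.ann.fr hp).NN]
    norm_num
  obtain ⟨ε, hε, h2⟩ := Metric.eventually_nhds_iff.1 (hc.eventually (lt_mem_nhds h1))
  have hτ := h.ann.hτ
  obtain ⟨d, hd, e1, e2, e3, e4, e5⟩ : ∃ d : ℝ, 0 < d ∧ d ≤ d₀ ∧ d ≤ ε / 2 ∧ d ≤ τ / 4 ∧
      d ≤ (p.1 - a) / 2 ∧ d ≤ (b - p.1) / 2 := by
    refine ⟨min d₀ (min (ε / 2) (min (τ / 4) (min ((p.1 - a) / 2) ((b - p.1) / 2)))), ?_,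
      min_le_left _ _, ?_, ?_, ?_, ?_⟩
    · simp only [lt_min_iff]
      refine ⟨hd₀, ?_, ?_, ?_, ?_⟩ <;> linarith
    all_goals simp only [min_le_iff, le_refl, true_or, or_true]
  refine ⟨d, hd, by linarith, by linarith, by linarith, fun s h0 hs' => ?_, fun q q1 q2 => ?_⟩
  · obtain ⟨k1, k2⟩ := hs s h0 (hs'.trans e1)
    have := abs_le.1 hs'
    exact ⟨k1 ⟨by linarith, by linarith⟩, k2⟩
  · refine (h2 ?_).le
    rw [Prod.dist_eq, Real.dist_eq, Real.dist_eq, max_lt_iff]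
    constructor <;> linarith

theorem Cap.acute_star (h : Cap ψ a b τ θ) (hc : 0 < Real.cos θ) (he : Embedded ψ a b τ) :
    ∀ p ∈ strip a b, 0 ≤ normal ψ p ⬝ᵥ ψ p := by
  rintro ⟨u₀, v₀⟩ hp
  by_contra hneg
  rw [not_le] at hneg
  have ha : a < u₀ := by
    refine lt_of_le_of_ne hp.1 ?_
    rintro rfl
    linarith [h.ann.angle_a v₀]
  have hb : u₀ < b := by
    refine lt_of_le_of_ne hp.2 ?_
    rintro rfl
    linarith [h.ann.angle_b v₀]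
  obtain ⟨F, hF⟩ := exists_sep h.ann he
  obtain ⟨d, hd, hdτ, had, hdb, hs, hN⟩ := main_small h (p := (u₀, v₀)) ha hb
  set n := normal ψ (u₀, v₀) with hn'
  set h₀ := n ⬝ᵥ ψ (u₀, v₀) with hh₀
  have hn : n ⬝ᵥ n = 1 := (h.ann.fr hp).NN
  simp only at had hdb hs hN
  have hu : ∀ u ∈ Icc (u₀ - d) (u₀ + d), h₀ ≤ n ⬝ᵥ ψ (u, v₀) := by
    intro u hu
    by_cases e : u = u₀
    · rw [e]
    · have := (hs (u - u₀) (sub_ne_zero.2 e) (abs_le.2 ⟨by linarith [hu.1], by linarith [hu.2]⟩)).1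
      rw [add_sub_cancel] at this
      exact this.le
  have hv : ∀ v ∈ Icc (v₀ - d) (v₀ + d), n ⬝ᵥ ψ (u₀, v) ≤ h₀ := by
    intro v hv
    by_cases e : v = v₀
    · rw [e]
    · have := (hs (v - v₀) (sub_ne_zero.2 e) (abs_le.2 ⟨by linarith [hv.1], by linarith [hv.2]⟩)).2
      rw [add_sub_cancel] at this
      exact this.le
  have hpos := hs d hd.ne' (abs_of_pos hd).le
  have hneg' := hs (-d) (neg_ne_zero.2 hd.ne') (by rw [abs_neg, abs_of_pos hd])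
  rw [← sub_eq_add_neg, ← sub_eq_add_neg] at hneg'
  have hp₁ : ((u₀ - d, v₀) : ℝ × ℝ) ∈ strip a b := ⟨had.le, by show u₀ - d ≤ b; linarith⟩
  have hp₂ : ((u₀ + d, v₀) : ℝ × ℝ) ∈ strip a b := ⟨by show a ≤ u₀ + d; linarith, hdb.le⟩
  have hcf : ContinuousOn (fun p => n ⬝ᵥ ψ p) (strip a b) := fun p hp =>
    (sm_dot contDiffAt_const (h.ann.smooth p hp)).continuousAt.continuousWithinAt
  rcases plane_alt (f := fun p => n ⬝ᵥ ψ p) hd hdτ had hdb hcf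
    (fun p hp => by simp only [h.ann.periodic p hp]) hu hv hpos.2 hneg'.2
    (fun β h1 h2 q hq h3 => reach_bd h.ann n h₀ h1 h2 hq h3) with
    ⟨J, J1, J2, J3⟩ | ⟨χ, c1, c2, c3, c4, c5, c6⟩
  · have hK : Convex ℝ {x ∈ ball3 | h₀ < n ⬝ᵥ x} := by
      refine convex_ball3.inter (convex_halfSpace_gt ⟨fun x y => dotProduct_add n x y,
        fun c x => dotProduct_smul c n x⟩ h₀)
    obtain ⟨α, β, hα, hβ, hab⟩ := hF.mv h.ann he (K := {x ∈ ball3 | h₀ < n ⬝ᵥ x})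
      (fun x hx => hx.1) (lifts_convex hK) J1 (J2.mono fun p hp => ⟨hp.1, hp.2.2⟩)
    have e1 : α (ψ (u₀ - d, v₀)) = α (ψ (u₀ + d, v₀)) :=
      hF.bridge h.ann (n := n) (h₀ := h₀) (σ := 1) (Or.inl rfl) hn (c := fun u => (u, v₀))
        (by linarith) (by fun_prop)
        (fun u hu => ⟨by linarith [hu.1], by linarith [hu.2]⟩)
        (fun u hu => hN (u, v₀) (abs_le.2 ⟨by linarith [hu.1], by linarith [hu.2]⟩)
          (by simpa using hd.le))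
        (fun u hu' => by linarith [hu u hu']) (by linarith [hneg'.1]) (by linarith [hpos.1])
        (hα.mono fun z hz => ⟨⟨hz.1, by linarith [hz.2.1]⟩, by linarith [hz.2.2]⟩)
    obtain ⟨t, t1, t2⟩ := exists_between (show h₀ < min 0 (min (n ⬝ᵥ ψ (u₀ - d, v₀))
      (n ⬝ᵥ ψ (u₀ + d, v₀))) from lt_min hneg (lt_min hneg'.1 hpos.1))
    simp only [lt_min_iff] at t2
    have e2 : β (ψ (u₀ - d, v₀)) = β (ψ (u₀ + d, v₀)) :=
      frankel h hc.le hF hn t2.1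
        (hβ.mono fun z hz => ⟨⟨hz.1, t1.trans_le hz.2.1⟩, hz.2.2⟩) hp₁ hp₂ t2.2.1 t2.2.2
    have e3 := hab _ hp₁ ⟨h.ann.mem_ball hp₁, hneg'.1⟩
    have e4 := hab _ hp₂ ⟨h.ann.mem_ball hp₂, hpos.1⟩
    exact J3 (by rw [← e3, ← e4, e1, e2])
  · refine beta_false h hc he hF hn hneg hp₂ hpos.1 (q₁ := (u₀, v₀ - d)) (q₂ := (u₀, v₀ + d)) hp hp
      hneg'.2 hpos.2 (fun β hβ => ?_) c1 c2 c3 c4 c5 c6
    exact hF.bridge h.ann (n := n) (h₀ := h₀) (σ := -1) (Or.inr rfl) hn (c := fun v => (u₀, v))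
      (by linarith) (by fun_prop) (fun v _ => ⟨ha, hb⟩)
      (fun v hv => hN (u₀, v) (by simpa using hd.le)
        (abs_le.2 ⟨by linarith [hv.1], by linarith [hv.2]⟩))
      (fun v hv' => by linarith [hv v hv']) (by linarith [hneg'.2]) (by linarith [hpos.2])
      (hβ.mono fun z hz => ⟨hz.1, by linarith [hz.2.1], by linarith [hz.2.2]⟩)

theorem Embedded.simple (hab : a ≤ b) (he : Embedded ψ a b τ) :
    SimpleAt ψ τ a ∧ SimpleAt ψ τ b :=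
  ⟨fun v v' e => (he (a, v) ⟨le_rfl, hab⟩ (a, v') ⟨le_rfl, hab⟩ e).2,
    fun v v' e => (he (b, v) ⟨hab, le_rfl⟩ (b, v') ⟨hab, le_rfl⟩ e).2⟩

theorem Cap.acute_main (h : Cap ψ a b τ θ) (hc : 0 < Real.cos θ) (he : Embedded ψ a b τ) :
    ∃ e : V3, e ≠ 0 ∧ FoliatedAbout ψ a b e :=
  star_pos h.ann (he.simple h.ann.hab.le).2 (h.acute_star hc he)

theorem Cap.emb_star (h : Cap ψ a b τ θ) (hc : 0 < Real.cos θ)
    (he : ∀ p ∈ strip a b, ∀ q ∈ strip a b, ψ p = ψ q → ∃ k : ℤ, q = (p.1, p.2 + k * τ)) :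
    ∀ p ∈ strip a b, 0 ≤ normal ψ p ⬝ᵥ ψ p :=
  h.acute_star hc fun p hp q hq e => by
    obtain ⟨k, rfl⟩ := he p hp q hq e
    exact ⟨rfl, k, rfl⟩

end Pool.Agent.Lib.MP_c7e804_gt
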