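import Pool.Agent.Lib.MP_c7e804_gt.H49Base

/-!
The index of a loop jumps across an arc.
-/

namespace Pool.Agent.Lib.MP_c7e804_gt

open Matrix Set Filter Topology

/-- a continuous logarithm of the total change of `γ t - z` -/
theorem pl1_log {γ : ℝ → ℂ} (hγ : ContinuousOn γ (Icc 0 1)) :
    ∃ Λ : ℂ → ℂ, ContinuousOn Λ {z | ∀ t ∈ Icc (0 : ℝ) 1, γ t ≠ z} ∧
      ∀ z, (∀ t ∈ Icc (0 : ℝ) 1, γ t ≠ z) → Complex.exp (Λ z) * (γ 0 - z) = γ 1 - z := by
  classical
  set U : Set ℂ := {z | ∀ t ∈ Icc (0 : ℝ) 1, γ t ≠ z} with hU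
  have h0 : ∀ z : U, γ 0 - z ≠ 0 := fun z => sub_ne_zero.2 (z.2 0 ⟨le_rfl, zero_le_one⟩)
  have hc : Continuous fun x : unitInterval × U => γ x.1 :=
    (continuousOn_iff_continuous_domRestrict.1 hγ).comp continuous_fst
  let H : C(unitInterval × U, {z : ℂ // z ≠ 0}) :=
    ⟨fun x => ⟨(γ x.1 - x.2) / (γ 0 - x.2),
      div_ne_zero (sub_ne_zero.2 (x.2.2 x.1 x.1.2)) (h0 x.2)⟩,
      Continuous.subtype_mk ((hc.sub (by fun_prop)).div (by fun_prop) fun x => h0 x.2) _⟩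
  have hH : ∀ a : U, H (0, a) = (fun z : ℂ => (⟨_, z.exp_ne_zero⟩ : {z : ℂ // z ≠ 0}))
      ((ContinuousMap.const U (0 : ℂ)) a) := by
    intro a
    apply Subtype.ext
    show (γ 0 - a) / (γ 0 - a) = Complex.exp 0
    rw [div_self (h0 a), Complex.exp_zero]
  let G := Complex.isCoveringMap_exp.liftHomotopy H (ContinuousMap.const U (0 : ℂ)) hH
  have hG : ∀ a : U, Complex.exp (G (1, a)) = (γ 1 - a) / (γ 0 - a) := fun a =>
    congrArg Subtype.val (congrFun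
      (Complex.isCoveringMap_exp.liftHomotopy_lifts H (ContinuousMap.const U (0 : ℂ)) hH) (1, a))
  refine ⟨fun z => if h : z ∈ U then G (1, ⟨z, h⟩) else 0, ?_, fun z hz => ?_⟩
  · rw [continuousOn_iff_continuous_domRestrict]
    have : U.domRestrict (fun z => if h : z ∈ U then G (1, ⟨z, h⟩) else 0) = fun a => G (1, a) := by
      funext a
      simp [Set.domRestrict, a.2]
    rw [this]
    fun_prop
  · have hz' : z ∈ U := hz
    simp only [hz', dif_pos]
    rw [hG ⟨z, hz'⟩]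
    exact div_mul_cancel₀ _ (h0 ⟨z, hz'⟩)

theorem pl1_int {w : ℂ} {x : ℝ} (hx : 0 < x) (h : Complex.exp w = x) :
    ∃ k : ℤ, w.im / (2 * Real.pi) = k := by
  have h1 : Complex.exp (w - (Real.log x : ℝ)) = 1 := by
    rw [Complex.exp_sub, h, ← Complex.ofReal_exp, Real.exp_log hx, div_self]
    exact_mod_cast hx.ne'
  obtain ⟨n, hn⟩ := Complex.exp_eq_one_iff.1 h1
  refine ⟨n, ?_⟩
  have h2 := congrArg Complex.im hn
  simp only [Complex.sub_im, Complex.ofReal_im, sub_zero] at h2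
  rw [h2, div_eq_iff (by positivity)]
  simp

/-- the auxiliary function whose argument measures the angle under which the arc is seen -/
noncomputable def pl1T (δ : ℝ) (z : ℂ) : ℂ :=
  ⟨Real.cos δ * (1 + ‖z‖ ^ 2) - 2 * z.re, Real.sin δ * (1 - ‖z‖ ^ 2)⟩

theorem pl1T_cont (δ : ℝ) : Continuous (pl1T δ) := by
  have : pl1T δ = fun z => ((Real.cos δ * (1 + ‖z‖ ^ 2) - 2 * z.re : ℝ) : ℂ) +
      ((Real.sin δ * (1 - ‖z‖ ^ 2) : ℝ) : ℂ) * Complex.I := by
    funext z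
    apply Complex.ext <;>
      simp only [pl1T, Complex.add_re, Complex.add_im, Complex.mul_re, Complex.mul_im,
        Complex.ofReal_re, Complex.ofReal_im, Complex.I_re, Complex.I_im] <;> ring
  rw [this]
  fun_prop

theorem pl1T_eq (δ : ℝ) (z : ℂ) :
    (Complex.exp (-(δ * Complex.I)) - z) * (pl1T δ z * Complex.exp (δ * Complex.I)) =
      (Complex.exp (δ * Complex.I) - z) * (Complex.normSq (Complex.exp (-(δ * Complex.I)) - z) : ℝ) := by
  have e1 : Complex.exp (δ * Complex.I) = ⟨Real.cos δ, Real.sin δ⟩ := by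
    apply Complex.ext <;> simp
  have e2 : Complex.exp (-(δ * Complex.I)) = ⟨Real.cos δ, -Real.sin δ⟩ := by
    have : -((δ : ℂ) * Complex.I) = ((-δ : ℝ) : ℂ) * Complex.I := by simp
    rw [this]
    apply Complex.ext
    · rw [Complex.exp_ofReal_mul_I_re, Real.cos_neg]
    · rw [Complex.exp_ofReal_mul_I_im, Real.sin_neg]
  have e3 := Real.sin_sq_add_cos_sq δ
  rw [e1, e2]
  obtain ⟨x, y⟩ := z
  simp only [pl1T, Complex.sq_norm, Complex.normSq_apply]
  generalize Real.cos δ = c at e3 ⊢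
  generalize Real.sin δ = s at e3 ⊢
  apply Complex.ext
  · simp only [Complex.mul_re, Complex.mul_im, Complex.sub_re, Complex.sub_im, Complex.ofReal_re,
      Complex.ofReal_im]
    linear_combination ((c - x) * (x * x + y * y)) * e3
  · simp only [Complex.mul_re, Complex.mul_im, Complex.sub_re, Complex.sub_im, Complex.ofReal_re,
      Complex.ofReal_im]
    linear_combination ((-s - y) * (x * x + y * y)) * e3

theorem index_jump {δ ρ : ℝ} (hδ : 0 < δ) (hδ' : δ < Real.pi) (hρ : 1 < ρ) {γ : ℝ → ℂ}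
    (hγ : ContinuousOn γ (Icc 0 1)) (h0 : γ 0 = Complex.exp (δ * Complex.I))
    (h1 : γ 1 = Complex.exp (-(δ * Complex.I)))
    (hav : ∀ t ∈ Icc (0 : ℝ) 1, ∀ r ∈ Icc ρ⁻¹ ρ, γ t ≠ (r : ℂ)) :
    ∃ J : ℂ → ℤ,
      ContinuousOn J {z | (∀ t ∈ Icc (0 : ℝ) 1, γ t ≠ z) ∧ ¬ (‖z‖ = 1 ∧ Real.cos δ ≤ z.re)} ∧
      J (ρ : ℂ) ≠ J ((ρ⁻¹ : ℝ) : ℂ) := by
  obtain ⟨Λ, hΛ, hexp⟩ := pl1_log hγ
  rw [h0, h1] at hexp
  have hsin : 0 < Real.sin δ := Real.sin_pos_of_pos_of_lt_pi hδ hδ'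
  have hcos : Real.cos δ < 1 := by
    have := Real.sin_sq_add_cos_sq δ
    nlinarith [Real.cos_le_one δ]
  have hπ : 0 < Real.pi := Real.pi_pos
  have key : ∀ z, (∀ t ∈ Icc (0 : ℝ) 1, γ t ≠ z) →
      0 < Complex.normSq (Complex.exp (-(δ * Complex.I)) - z) ∧
      Complex.exp (Λ z) * (pl1T δ z * Complex.exp (δ * Complex.I)) =
        (Complex.normSq (Complex.exp (-(δ * Complex.I)) - z) : ℝ) := by
    intro z hz
    have a0 : Complex.exp (δ * Complex.I) - z ≠ 0 :=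
      sub_ne_zero.2 (h0 ▸ hz 0 ⟨le_rfl, zero_le_one⟩)
    have a1 : Complex.exp (-(δ * Complex.I)) - z ≠ 0 :=
      sub_ne_zero.2 (h1 ▸ hz 1 ⟨zero_le_one, le_rfl⟩)
    refine ⟨Complex.normSq_pos.2 a1, mul_left_cancel₀ a0 ?_⟩
    rw [← pl1T_eq, ← hexp z hz]
    ring
  have him : ∀ z : ℂ, ‖z‖ ≠ 1 → (pl1T δ z).im ≠ 0 := by
    intro z hz h
    have h2 : Real.sin δ * (1 - ‖z‖ ^ 2) = 0 := h
    rcases mul_eq_zero.1 h2 with h3 | h3
    · exact hsin.ne' h3
    · exact hz (by nlinarith [norm_nonneg z])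
  have hslit : ∀ z : ℂ, ¬ (‖z‖ = 1 ∧ Real.cos δ ≤ z.re) → pl1T δ z ∈ Complex.slitPlane := by
    intro z hz
    by_cases h : ‖z‖ = 1
    · left
      have h2 : z.re < Real.cos δ := lt_of_not_ge fun h3 => hz ⟨h, h3⟩
      show 0 < Real.cos δ * (1 + ‖z‖ ^ 2) - 2 * z.re
      rw [h]
      linarith
    · exact Or.inr (him z h)
  have hρ0 : 0 < ρ := by linarith
  have hρi : 0 < ρ⁻¹ := inv_pos.2 hρ0
  have hρi1 : ρ⁻¹ < 1 := inv_lt_one_of_one_lt₀ hρ
  have hslit' : ∀ r ∈ Icc ρ⁻¹ ρ, -pl1T δ (r : ℂ) ∈ Complex.slitPlane := by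
    intro r hr
    by_cases h : ‖(r : ℂ)‖ = 1
    · left
      have h2 : r = 1 := by
        rw [Complex.norm_real, Real.norm_eq_abs, abs_of_pos (hρi.trans_le hr.1)] at h
        exact h
      show 0 < -(Real.cos δ * (1 + ‖(r : ℂ)‖ ^ 2) - 2 * (r : ℂ).re)
      rw [h, Complex.ofReal_re, h2]
      linarith
    · right
      rw [Complex.neg_im]
      exact neg_ne_zero.2 (him _ h)
  obtain ⟨J, hJ, hJe⟩ := int_cont
    (S := {z | (∀ t ∈ Icc (0 : ℝ) 1, γ t ≠ z) ∧ ¬ (‖z‖ = 1 ∧ Real.cos δ ≤ z.re)})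
    (g := fun z => ((Λ z).im + Complex.arg (pl1T δ z) + δ) / (2 * Real.pi))
    (by
      refine ContinuousOn.div_const (ContinuousOn.add (ContinuousOn.add ?_ ?_) continuousOn_const) _
      · exact Complex.continuous_im.comp_continuousOn (hΛ.mono fun z hz => hz.1)
      · exact fun z hz => ((Complex.continuousAt_arg (hslit z hz.2)).comp
          (pl1T_cont δ).continuousAt).continuousWithinAt)
    (by
      intro z hz
      obtain ⟨a1, a2⟩ := key z hz.1
      have := pl1_int (w := Λ z + (Complex.log (pl1T δ z) + δ * Complex.I)) a1 (by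
        rw [Complex.exp_add, Complex.exp_add,
          Complex.exp_log (Complex.slitPlane_ne_zero (hslit z hz.2)), a2])
      simpa [Complex.log_im, add_assoc] using this)
  obtain ⟨K, hK, hKe⟩ := int_cont (S := Icc ρ⁻¹ ρ)
    (g := fun r : ℝ => ((Λ r).im + Complex.arg (-pl1T δ r) + δ + Real.pi) / (2 * Real.pi))
    (by
      refine ContinuousOn.div_const (ContinuousOn.add (ContinuousOn.add (ContinuousOn.add ?_ ?_)
        continuousOn_const) continuousOn_const) _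
      · exact Complex.continuous_im.comp_continuousOn
          (hΛ.comp Complex.continuous_ofReal.continuousOn fun r hr t ht => hav t ht r hr)
      · exact fun r hr => ((Complex.continuousAt_arg (hslit' r hr)).comp
          (f := fun r : ℝ => -pl1T δ r)
          ((pl1T_cont δ).comp Complex.continuous_ofReal).neg.continuousAt).continuousWithinAt)
    (by
      intro r hr
      obtain ⟨a1, a2⟩ := key r fun t ht => hav t ht r hr
      have := pl1_int
        (w := Λ r + (Complex.log (-pl1T δ r) + δ * Complex.I + Real.pi * Complex.I)) a1 (by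
        rw [Complex.exp_add, Complex.exp_add, Complex.exp_add,
          Complex.exp_log (Complex.slitPlane_ne_zero (hslit' r hr)), Complex.exp_pi_mul_I, ← a2]
        ring)
      simpa [Complex.log_im, add_assoc] using this)
  refine ⟨J, hJ, ?_⟩
  have hle : ρ⁻¹ ≤ ρ := by linarith
  have hKc : K ρ⁻¹ = K ρ :=
    isPreconnected_Icc.constant hK (left_mem_Icc.2 hle) (right_mem_Icc.2 hle)
  have n1 : ‖(ρ : ℂ)‖ = ρ := by rw [Complex.norm_real, Real.norm_eq_abs, abs_of_pos hρ0]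
  have n2 : ‖((ρ⁻¹ : ℝ) : ℂ)‖ = ρ⁻¹ := by rw [Complex.norm_real, Real.norm_eq_abs, abs_of_pos hρi]
  have j1 := hJe (ρ : ℂ) ⟨fun t ht => hav t ht ρ (right_mem_Icc.2 hle), fun h => by
    rw [n1] at h; linarith [h.1]⟩
  have j2 := hJe ((ρ⁻¹ : ℝ) : ℂ) ⟨fun t ht => hav t ht ρ⁻¹ (left_mem_Icc.2 hle), fun h => by
    rw [n2] at h; linarith [h.1]⟩
  have k1 := hKe ρ (right_mem_Icc.2 hle)
  have k2 := hKe ρ⁻¹ (left_mem_Icc.2 hle)
  have i1 : (pl1T δ ρ).im < 0 := by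
    show Real.sin δ * (1 - ‖(ρ : ℂ)‖ ^ 2) < 0
    rw [n1]
    exact mul_neg_of_pos_of_neg hsin (by nlinarith)
  have i2 : 0 < (pl1T δ ((ρ⁻¹ : ℝ) : ℂ)).im := by
    show 0 < Real.sin δ * (1 - ‖((ρ⁻¹ : ℝ) : ℂ)‖ ^ 2)
    rw [n2]
    exact mul_pos hsin (by nlinarith)
  rw [Complex.arg_neg_eq_arg_add_pi_of_im_neg i1] at k1
  rw [Complex.arg_neg_eq_arg_sub_pi_of_im_pos i2] at k2
  intro hJJ
  rw [hJJ] at j1
  rw [hKc] at k2
  rw [eq_div_iff (by positivity)] at j1 j2 k1 k2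
  linarith

end Pool.Agent.Lib.MP_c7e804_gt
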