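import Pool.Agent.Lib.MP_c7e804_gt.H49Base

/-!
Normal coordinates near the surface: local theory.
-/

namespace Pool.Agent.Lib.MP_c7e804_gt

open Matrix Set Filter Topology

/-- nearest point of the strip -/
noncomputable def clp (a b : ℝ) (p : ℝ × ℝ) : ℝ × ℝ := (max a (min p.1 b), p.2)

/-- normal coordinates around the linear extension of the surface -/
noncomputable def tubeE (ψ : ℝ × ℝ → V3) (a b : ℝ) (x : (ℝ × ℝ) × ℝ) : V3 :=
  ψ (clp a b x.1) + (x.1.1 - (clp a b x.1).1) • du ψ (clp a b x.1) + x.2 • normal ψ (clp a b x.1)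

variable {ψ : ℝ × ℝ → V3} {a b τ θ : ℝ}

theorem clp_mem (hab : a ≤ b) (p : ℝ × ℝ) : clp a b p ∈ strip a b :=
  ⟨le_max_left a (min p.1 b), _root_.max_le hab (min_le_right p.1 b)⟩

theorem clp_of_mem {p : ℝ × ℝ} (hp : p ∈ strip a b) : clp a b p = p := by
  have h1 : a ≤ p.1 := hp.1
  have h2 : p.1 ≤ b := hp.2
  simp only [clp, min_eq_left h2, max_eq_right h1]

theorem tubeE_of_mem {p : ℝ × ℝ} (hp : p ∈ strip a b) (r : ℝ) :
    tubeE ψ a b (p, r) = ψ p + r • normal ψ p := by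
  simp only [tubeE, clp_of_mem hp, sub_self, zero_smul, add_zero]

theorem tb1_clp_cont : Continuous (clp a b) := by
  unfold clp
  fun_prop

theorem tubeE_cont (h : CapAnnulus ψ a b τ θ θ) : Continuous (tubeE ψ a b) := by
  have hm : ∀ x : (ℝ × ℝ) × ℝ, clp a b x.1 ∈ strip a b := fun x => clp_mem h.hab.le x.1
  have hc : Continuous fun x : (ℝ × ℝ) × ℝ => clp a b x.1 := tb1_clp_cont.comp continuous_fst
  have h1 := h.contOn.comp_continuous hc hm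
  have h2 := (show ContinuousOn (du ψ) (strip a b) from fun _ hp =>
    (h.smA hp).continuousAt.continuousWithinAt).comp_continuous hc hm
  have h3 := h.contOnN.comp_continuous hc hm
  exact (h1.add ((continuous_fst.fst.sub hc.fst).smul h2)).add (continuous_snd.smul h3)

theorem tubeE_per (h : CapAnnulus ψ a b τ θ θ) (u v r : ℝ) (k : ℤ) :
    tubeE ψ a b ((u, v + k * τ), r) = tubeE ψ a b ((u, v), r) := by
  have hm := clp_mem h.hab.le (u, v)
  have h1 := per_int h.perψ hm k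
  have h2 := per_int h.perA hm k
  have h3 := per_int h.perN hm k
  simp only [tubeE, clp] at h1 h2 h3 ⊢
  rw [h1, h2, h3]

/-- the differential of the normal coordinates -/
noncomputable def tb1D (A B N : V3) : (ℝ × ℝ) × ℝ →L[ℝ] V3 :=
  ((ContinuousLinearMap.fst ℝ ℝ ℝ).comp (ContinuousLinearMap.fst ℝ (ℝ × ℝ) ℝ)).smulRight A +
    ((ContinuousLinearMap.snd ℝ ℝ ℝ).comp (ContinuousLinearMap.fst ℝ (ℝ × ℝ) ℝ)).smulRight B +
    (ContinuousLinearMap.snd ℝ (ℝ × ℝ) ℝ).smulRight N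

theorem tb1D_apply (A B N : V3) (x : (ℝ × ℝ) × ℝ) :
    tb1D A B N x = x.1.1 • A + x.1.2 • B + x.2 • N := rfl

theorem tb1_lip (a b u u' : ℝ) : |max a (min u b) - max a (min u' b)| ≤ |u - u'| := by
  have h1 : LipschitzWith 1 fun t : ℝ => max a (min t b) :=
    (LipschitzWith.id.min_const b).const_max a
  have := h1.dist_le_mul u u'
  simpa [Real.dist_eq] using this

theorem tb1_strict (h : CapAnnulus ψ a b τ θ θ) {p : ℝ × ℝ} (hp : p ∈ strip a b) :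
    HasStrictFDerivAt (tubeE ψ a b) (tb1D (du ψ p) (dv ψ p) (normal ψ p)) (p, 0) := by
  have hψ : HasStrictFDerivAt ψ (fderiv ℝ ψ p) p := (h.smooth p hp).hasStrictFDerivAt (by simp)
  have hA := (h.smA hp).hasStrictFDerivAt (by simp)
  have hN := (h.smN hp).hasStrictFDerivAt (by simp)
  have f1 : HasStrictFDerivAt (fun y : (ℝ × ℝ) × ℝ × ℝ => y.1)
      (ContinuousLinearMap.fst ℝ (ℝ × ℝ) (ℝ × ℝ)) (p, 0, 0) := hasStrictFDerivAt_fst
  have f2 : HasStrictFDerivAt (fun y : (ℝ × ℝ) × ℝ × ℝ => y.2)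
      (ContinuousLinearMap.snd ℝ (ℝ × ℝ) (ℝ × ℝ)) (p, 0, 0) := hasStrictFDerivAt_snd
  have hΦ := ((hψ.comp ((p, 0, 0) : (ℝ × ℝ) × ℝ × ℝ) f1).add
    (f2.fst.smul (hA.comp ((p, 0, 0) : (ℝ × ℝ) × ℝ × ℝ) f1))).add
    (f2.snd.smul (hN.comp ((p, 0, 0) : (ℝ × ℝ) × ℝ × ℝ) f1))
  let Λ : (ℝ × ℝ) × ℝ → (ℝ × ℝ) × ℝ × ℝ := fun x => (clp a b x.1, x.1.1 - (clp a b x.1).1, x.2)
  have hΛc : Continuous Λ := by
    have := (tb1_clp_cont (a := a) (b := b)).comp (continuous_fst (X := ℝ × ℝ) (Y := ℝ))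
    exact this.prodMk ((continuous_fst.fst.sub this.fst).prodMk continuous_snd)
  have hΛ0 : Λ (p, 0) = (p, 0, 0) := by simp only [Λ, clp_of_mem hp, sub_self]
  have ht : Tendsto (fun z : ((ℝ × ℝ) × ℝ) × (ℝ × ℝ) × ℝ => (Λ z.1, Λ z.2)) (𝓝 ((p, 0), (p, 0)))
      (𝓝 ((p, 0, 0), (p, 0, 0))) := by
    rw [← hΛ0]
    exact ((hΛc.comp continuous_fst).prodMk (hΛc.comp continuous_snd)).tendsto ((p, 0), (p, 0))
  have hO : (fun z : ((ℝ × ℝ) × ℝ) × (ℝ × ℝ) × ℝ => Λ z.1 - Λ z.2) =O[𝓝 ((p, 0), (p, 0))]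
      fun z => z.1 - z.2 := by
    refine Asymptotics.IsBigO.of_bound 2 (Eventually.of_forall ?_)
    rintro ⟨⟨⟨u, v⟩, r⟩, ⟨u', v'⟩, r'⟩
    have e1 := tb1_lip a b u u'
    have e2 : |u - max a (min u b) - (u' - max a (min u' b))| ≤ 2 * |u - u'| := by
      have := abs_sub (u - u') (max a (min u b) - max a (min u' b))
      rw [show u - max a (min u b) - (u' - max a (min u' b)) =
        u - u' - (max a (min u b) - max a (min u' b)) by ring]
      linarith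
    have e3 : |u - u'| ≤ max (max |u - u'| |v - v'|) |r - r'| :=
      (le_max_left _ _).trans (le_max_left _ _)
    have e4 : |v - v'| ≤ max (max |u - u'| |v - v'|) |r - r'| :=
      (le_max_right _ _).trans (le_max_left _ _)
    have e5 : |r - r'| ≤ max (max |u - u'| |v - v'|) |r - r'| := le_max_right _ _
    have e6 := abs_nonneg (u - u')
    simp only [Λ, clp, Prod.mk_sub_mk, Prod.norm_mk, Real.norm_eq_abs, max_le_iff]
    refine ⟨⟨?_, ?_⟩, ?_, ?_⟩ <;> linarith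
  refine HasStrictFDerivAt.of_isLittleO ?_
  refine ((hΦ.isLittleO.comp_tendsto ht).trans_isBigO hO).congr_left ?_
  rintro ⟨⟨⟨u, v⟩, r⟩, ⟨u', v'⟩, r'⟩
  have e : ∀ s t : ℝ, fderiv ℝ ψ p (s, t) = s • du ψ p + t • dv ψ p := fun s t => by
    rw [du, dv, ← map_smul, ← map_smul, ← map_add]
    simp
  simp only [Function.comp, Λ, tubeE, tb1D_apply, Pi.add_apply, Pi.smul_apply',
    _root_.add_apply, ContinuousLinearMap.comp_apply, ContinuousLinearMap.coe_fst',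
    ContinuousLinearMap.coe_snd', ContinuousLinearMap.smulRight_apply, zero_smul, zero_add,
    Prod.mk_sub_mk, clp, e]
  module

theorem tb1_equiv {A B N : V3} {E : ℝ} (h : Fr A B N E) :
    ∃ D : ((ℝ × ℝ) × ℝ) ≃L[ℝ] V3, (D : (ℝ × ℝ) × ℝ →L[ℝ] V3) = tb1D A B N := by
  refine ⟨ContinuousLinearEquiv.ofBijective (tb1D A B N) ?_ ?_, rfl⟩
  · rw [LinearMap.ker_eq_bot']
    rintro ⟨⟨x, y⟩, z⟩ h0
    have h1 : x • A + y • B + z • N = 0 := h0
    have e1 := congrArg (fun w => A ⬝ᵥ w) h1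
    have e2 := congrArg (fun w => B ⬝ᵥ w) h1
    have e3 := congrArg (fun w => N ⬝ᵥ w) h1
    simp only [dotProduct_add, dotProduct_smul, smul_eq_mul, h.AA, h.AB, h.AN, h.BA, h.BB, h.BN,
      h.NA, h.NB, h.NN, dotProduct_zero, mul_zero, add_zero, zero_add, mul_one, mul_eq_zero,
      h.pos.ne', or_false] at e1 e2 e3
    rw [e1, e2, e3]
    rfl
  · rw [LinearMap.range_eq_top]
    intro w
    exact ⟨(((w ⬝ᵥ A) * E⁻¹, (w ⬝ᵥ B) * E⁻¹), w ⬝ᵥ N), (h.decomp w).symm⟩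

theorem tubeE_local (h : CapAnnulus ψ a b τ θ θ) {p : ℝ × ℝ} (hp : p ∈ strip a b) :
    (∃ V ∈ 𝓝 ((p, 0) : (ℝ × ℝ) × ℝ), InjOn (tubeE ψ a b) V ∧
      ∀ x ∈ V, 𝓝 (tubeE ψ a b x) ≤ map (tubeE ψ a b) (𝓝 x)) ∧
    ∀ η : ℝ, 0 < η → ∃ V ∈ 𝓝 ((p, 0) : (ℝ × ℝ) × ℝ), ∀ x ∈ V, ∀ x' ∈ V,
      |normal ψ p ⬝ᵥ (tubeE ψ a b x - tubeE ψ a b x') - (x.2 - x'.2)|
        ≤ η * ‖tubeE ψ a b x - tubeE ψ a b x'‖ := by
  have hfr := h.fr hp
  obtain ⟨D, hD⟩ := tb1_equiv hfr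
  have hs := tb1_strict h hp
  rw [← hD] at hs
  refine ⟨⟨(hs.toOpenPartialHomeomorph _).source, (hs.toOpenPartialHomeomorph _).open_source.mem_nhds
    hs.mem_toOpenPartialHomeomorph_source, (hs.toOpenPartialHomeomorph _).injOn, fun x hx =>
    ((hs.toOpenPartialHomeomorph _).map_nhds_eq hx).ge⟩, fun η hη => ?_⟩
  have h1 := (hs.isLittleO.trans_isBigO
    (hs.isTheta_sub D.toHomeomorph.isInducing).isBigO_symm).def (show 0 < η / 3 by linarith)
  rw [nhds_prod_eq] at h1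
  obtain ⟨V, hV, h2⟩ := mem_prod_self_iff.1 h1
  refine ⟨V, hV, fun x hx x' hx' => ?_⟩
  have h3 : ‖tubeE ψ a b x - tubeE ψ a b x' - (D : (ℝ × ℝ) × ℝ →L[ℝ] V3) (x - x')‖
      ≤ η / 3 * ‖tubeE ψ a b x - tubeE ψ a b x'‖ := by
    have := h2 (mk_mem_prod hx hx')
    simpa only [mem_ofPred_eq] using this
  have h4 : normal ψ p ⬝ᵥ (D : (ℝ × ℝ) × ℝ →L[ℝ] V3) (x - x') = x.2 - x'.2 := by
    rw [hD, tb1D_apply]
    simp only [dotProduct_add, dotProduct_smul, hfr.NA, hfr.NB, hfr.NN, smul_eq_mul, mul_zero,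
      zero_add, mul_one, Prod.snd_sub]
  have h5 : ‖normal ψ p‖ ≤ 1 := by
    have := norm_sq_le_dot (normal ψ p)
    rw [hfr.NN] at this
    nlinarith [norm_nonneg (normal ψ p)]
  rw [← h4, ← dotProduct_sub]
  refine (abs_dot_le_norm _ _).trans ?_
  have h6 := mul_le_mul h5 h3 (norm_nonneg _) zero_le_one
  linarith

end Pool.Agent.Lib.MP_c7e804_gt
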