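import Pool.Agent.Lib.MP_c7e804_gt.H49Tube1

/-!
Normal coordinates near the surface: global theory.
-/

namespace Pool.Agent.Lib.MP_c7e804_gt

open Matrix Set Filter Topology

variable {ψ : ℝ × ℝ → V3} {a b τ θ : ℝ}

/-- a point of the box displaced in the first and in the normal coordinate -/
def t2mk (p d : ℝ × ℝ) : (ℝ × ℝ) × ℝ := ((p.1 + d.1, p.2), d.2)

/-- translation by a multiple of the period -/
def t2sh (τ : ℝ) (k : ℤ) (x : (ℝ × ℝ) × ℝ) : (ℝ × ℝ) × ℝ := ((x.1.1, x.1.2 + k * τ), x.2)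

theorem t2sh_cont (τ : ℝ) (k : ℤ) : Continuous (t2sh τ k) := by
  unfold t2sh
  fun_prop

theorem t2_E_sh (h : CapAnnulus ψ a b τ θ θ) (k : ℤ) (x : (ℝ × ℝ) × ℝ) :
    tubeE ψ a b (t2sh τ k x) = tubeE ψ a b x := tubeE_per h x.1.1 x.1.2 x.2 k

theorem t2_rep (h : CapAnnulus ψ a b τ θ θ) {δ : ℝ} {x : (ℝ × ℝ) × ℝ} (h1 : a - δ < x.1.1)
    (h2 : x.1.1 < b + δ) (h3 : |x.2| < δ) :
    ∃ p ∈ Icc a b ×ˢ Icc 0 τ, ∃ d : ℝ × ℝ, ‖d‖ < δ ∧ d.2 = x.2 ∧ ∃ k : ℤ, t2mk p d = t2sh τ k x := by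
  obtain ⟨k, hk⟩ := exists_shift h.hτ x.1.2
  have hab := h.hab
  have hδ := (abs_nonneg _).trans_lt h3
  refine ⟨(max a (min x.1.1 b), x.1.2 + k * τ), ⟨clp_mem hab.le x.1, Ico_subset_Icc_self hk⟩,
    (x.1.1 - max a (min x.1.1 b), x.2), ?_, rfl, k, by simp [t2mk, t2sh]⟩
  rw [Prod.norm_def, max_lt_iff]
  refine ⟨?_, h3⟩
  rw [Real.norm_eq_abs, abs_lt]
  rcases min_cases x.1.1 b with ⟨e, e'⟩ | ⟨e, e'⟩ <;> rw [e] <;>
    [rcases max_cases a x.1.1 with ⟨f, f'⟩ | ⟨f, f'⟩; rcases max_cases a b with ⟨f, f'⟩ | ⟨f, f'⟩] <;>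
    rw [f] <;> constructor <;> linarith

theorem tube_width (h : CapAnnulus ψ a b τ θ θ) (he : Embedded ψ a b τ) :
    ∃ δ : ℝ, 0 < δ ∧
      (∀ x x' : (ℝ × ℝ) × ℝ, a - δ < x.1.1 → x.1.1 < b + δ → |x.2| < δ →
        a - δ < x'.1.1 → x'.1.1 < b + δ → |x'.2| < δ →
        tubeE ψ a b x = tubeE ψ a b x' → x.2 = x'.2) ∧
      ∀ x : (ℝ × ℝ) × ℝ, a - δ < x.1.1 → x.1.1 < b + δ → |x.2| < δ →
        𝓝 (tubeE ψ a b x) ≤ map (tubeE ψ a b) (𝓝 x) := by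
  have hK : IsCompact (Icc a b ×ˢ Icc 0 τ) := isCompact_Icc.prod isCompact_Icc
  have hE := tubeE_cont h
  have key := (hK.prod hK).eventually_forall_of_forall_eventually
    (x₀ := (0 : (ℝ × ℝ) × (ℝ × ℝ)))
    (P := fun d p => (tubeE ψ a b (t2mk p.1 d.1) = tubeE ψ a b (t2mk p.2 d.2) → d.1.2 = d.2.2) ∧
      𝓝 (tubeE ψ a b (t2mk p.1 d.1)) ≤ map (tubeE ψ a b) (𝓝 (t2mk p.1 d.1))) (by
    rintro ⟨p, p'⟩ ⟨hp, hp'⟩
    have m1 : p ∈ strip a b := hp.1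
    have m2 : p' ∈ strip a b := hp'.1
    obtain ⟨V, hV, hi, ho⟩ := (tubeE_local h m1).1
    have c1 : Continuous fun z : ((ℝ × ℝ) × (ℝ × ℝ)) × ((ℝ × ℝ) × (ℝ × ℝ)) =>
        t2mk z.2.1 z.1.1 := by
      unfold t2mk
      fun_prop
    have c2 : Continuous fun z : ((ℝ × ℝ) × (ℝ × ℝ)) × ((ℝ × ℝ) × (ℝ × ℝ)) =>
        t2mk z.2.2 z.1.2 := by
      unfold t2mk
      fun_prop
    have e1 := (c1.tendsto' (0, (p, p')) (p, 0) (by simp [t2mk])).eventually hV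
    refine Eventually.and ?_ (e1.mono fun z hz => ho _ hz)
    by_cases hpp : ψ p = ψ p'
    · obtain ⟨f1, k, f2⟩ := he p' m2 p m1 hpp.symm
      have e2 := (((t2sh_cont τ k).comp c2).tendsto' (0, (p, p')) (p, 0)
        (by simp [t2mk, t2sh, f1, ← f2])).eventually hV
      filter_upwards [e1, e2] with z h1 h2 h3
      have h4 := congrArg Prod.snd (hi h1 h2 (h3.trans (t2_E_sh h k _).symm))
      exact h4
    · have e2 := ((hE.comp c1).continuousAt.ne_iff_eventually_ne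
        (x := (0, (p, p'))) (hE.comp c2).continuousAt).1
        (by simpa [t2mk, tubeE_of_mem m1, tubeE_of_mem m2] using hpp)
      exact e2.mono fun z hz h3 => absurd h3 hz)
  obtain ⟨δ, hδ, key⟩ := Metric.eventually_nhds_iff.1 key
  refine ⟨δ, hδ, fun x x' h1 h2 h3 h4 h5 h6 h7 => ?_, fun x h1 h2 h3 => ?_⟩
  · obtain ⟨p, hp, d, hd, e, k, f⟩ := t2_rep h h1 h2 h3
    obtain ⟨p', hp', d', hd', e', k', f'⟩ := t2_rep h h4 h5 h6
    have := (key (y := (d, d')) (by rw [dist_zero_right, Prod.norm_def]; exact max_lt hd hd')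
      (p, p') ⟨hp, hp'⟩).1 (by simp only [f, f', t2_E_sh h, h7])
    rw [← e, ← e']
    exact this
  · obtain ⟨p, hp, d, hd, -, k, f⟩ := t2_rep h h1 h2 h3
    have h4 := (key (y := (d, d)) (by rw [dist_zero_right, Prod.norm_def]; exact max_lt hd hd)
      (p, p) ⟨hp, hp⟩).2
    simp only [f, t2_E_sh h] at h4
    refine h4.trans ?_
    have h5 : tubeE ψ a b = tubeE ψ a b ∘ t2sh τ (-k) := funext fun y => (t2_E_sh h _ y).symm
    conv_lhs => rw [h5, ← Filter.map_map]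
    exact map_mono ((t2sh_cont τ (-k)).tendsto' _ x (by simp [t2sh]))

theorem t2_out {P A B N : V3} {E s r c : ℝ} (F : Fr A B N E) (hP : P ⬝ᵥ P = 1)
    (hN : N ⬝ᵥ P = Real.cos c) (hb : P + s • A + r • N ∈ ball3) : s * (P ⬝ᵥ A) ≤ |r| := by
  have h1 : (P + s • A + r • N) ⬝ᵥ (P + s • A + r • N) ≤ 1 := hb
  simp only [add_dotProduct, dotProduct_add, smul_dotProduct, dotProduct_smul, smul_eq_mul,
    dotProduct_comm A P, dotProduct_comm P N, dotProduct_comm A N, F.AA, F.NA, F.NN, hP, hN] at h1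
  have h2 : |r * Real.cos c| ≤ |r| := by
    rw [abs_mul]
    exact mul_le_of_le_one_right (abs_nonneg r) (Real.abs_cos_le_one c)
  have h3 := mul_nonneg (mul_self_nonneg s) F.pos.le
  nlinarith [neg_abs_le (r * Real.cos c), mul_self_nonneg r]

theorem tube_out (h : CapAnnulus ψ a b τ θ θ) : ∃ σ : ℝ, 0 < σ ∧ ∀ x : (ℝ × ℝ) × ℝ,
    tubeE ψ a b x ∈ ball3 → σ * (x.1.1 - b) ≤ |x.2| ∧ σ * (a - x.1.1) ≤ |x.2| := by
  have hab := h.hab
  have hs := Real.sin_pos_of_pos_of_lt_pi h.hθa.1 h.hθa.2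
  have low : ∀ u ∈ Icc a b, ∃ c, 0 < c ∧ ∀ v, c ≤ √(confE ψ (u, v)) * Real.sin θ := fun u hu =>
    lower_of_per h.hτ
      ((cont_line_v (fun _ hq => (h.smE hq).continuousAt.continuousWithinAt) hu).sqrt.mul
        continuous_const)
      (fun v => by rw [h.perE (u, v) hu])
      fun v => mul_pos (Real.sqrt_pos.2 (h.immersion (u, v) hu)) hs
  obtain ⟨c1, p1, l1⟩ := low a (left_mem_Icc.2 hab.le)
  obtain ⟨c2, p2, l2⟩ := low b (right_mem_Icc.2 hab.le)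
  have hσ := lt_min p1 p2
  refine ⟨min c1 c2, hσ, fun ⟨⟨u, v⟩, r⟩ hx => ⟨?_, ?_⟩⟩
  · show min c1 c2 * (u - b) ≤ |r|
    rcases le_total u b with h1 | h1
    · nlinarith [abs_nonneg r]
    have e : clp a b (u, v) = (b, v) := by simp [clp, h1, hab.le]
    simp only [tubeE, e] at hx
    have h2 := t2_out (h.fr (p := (b, v)) ⟨hab.le, le_rfl⟩) (h.sphere_b v) (h.angle_b v) hx
    rw [h.s_b v] at h2
    nlinarith [l2 v, min_le_right c1 c2]
  · show min c1 c2 * (a - u) ≤ |r|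
    rcases le_total a u with h1 | h1
    · nlinarith [abs_nonneg r]
    have e : clp a b (u, v) = (a, v) := by simp [clp, h1]
    simp only [tubeE, e] at hx
    have h2 := t2_out (h.fr (p := (a, v)) ⟨le_rfl, hab.le⟩) (h.sphere_a v) (h.angle_a v) hx
    rw [h.s_a v] at h2
    nlinarith [l1 v, min_le_left c1 c2]

theorem exists_tube (h : CapAnnulus ψ a b τ θ θ) (he : Embedded ψ a b τ) :
    ∃ (T T' : Set V3) (r : V3 → ℝ) (ε₀ : ℝ), Tube ψ a b T T' r ε₀ := by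
  classical
  obtain ⟨δ, hδ, hi, ho⟩ := tube_width h he
  obtain ⟨σ, hσ, hout⟩ := tube_out h
  have hE := tubeE_cont h
  set D : Set ((ℝ × ℝ) × ℝ) := {x | a - δ < x.1.1 ∧ x.1.1 < b + δ ∧ |x.2| < δ} with hD
  have oD : IsOpen D := by
    rw [hD, ofPred_and, ofPred_and]
    refine IsOpen.inter ?_ (IsOpen.inter ?_ ?_) <;> exact isOpen_lt (by fun_prop) (by fun_prop)
  have hn : ∀ x ∈ D, ∀ U ∈ 𝓝 x, tubeE ψ a b '' U ∈ 𝓝 (tubeE ψ a b x) := fun x hx U hU =>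
    ho x hx.1 hx.2.1 hx.2.2 (image_mem_map hU)
  obtain ⟨r, hr⟩ : ∃ r : V3 → ℝ, ∀ x ∈ D, r (tubeE ψ a b x) = x.2 := by
    refine ⟨fun y => if hy : y ∈ tubeE ψ a b '' D then hy.choose.2 else 0, fun x hx => ?_⟩
    have hy : tubeE ψ a b x ∈ tubeE ψ a b '' D := mem_image_of_mem _ hx
    simp only [dif_pos hy]
    obtain ⟨h1, h2⟩ := hy.choose_spec
    exact hi _ _ h1.1 h1.2.1 h1.2.2 hx.1 hx.2.1 hx.2.2 h2
  have hε : 0 < min (δ / 2) (σ * (δ / 2)) := lt_min (half_pos hδ) (mul_pos hσ (half_pos hδ))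
  have hε1 := min_le_left (δ / 2) (σ * (δ / 2))
  have hε2 := min_le_right (δ / 2) (σ * (δ / 2))
  generalize min (δ / 2) (σ * (δ / 2)) = ε₀ at hε hε1 hε2
  refine ⟨tubeE ψ a b '' D,
    tubeE ψ a b '' ((Icc (a - δ / 2) (b + δ / 2) ×ˢ Icc 0 τ) ×ˢ Icc (-ε₀) ε₀), r, ε₀,
    isOpen_iff_mem_nhds.2 ?_,
    (((isCompact_Icc.prod isCompact_Icc).prod isCompact_Icc).image hE).isClosed,
    image_mono fun x hx => ⟨by linarith [hx.1.1.1], by linarith [hx.1.1.2],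
      (abs_le.2 hx.2).trans_lt (by linarith)⟩, hε, ?_, ?_, ?_, fun η hη => ?_⟩
  · rintro _ ⟨x, hx, rfl⟩
    exact hn x hx D (oD.mem_nhds hx)
  · rintro _ ⟨x, hx, rfl⟩
    refine ContinuousAt.continuousWithinAt ?_
    rw [ContinuousAt, hr x hx]
    refine Tendsto.mono_left ?_ (ho x hx.1 hx.2.1 hx.2.2)
    rw [tendsto_map'_iff]
    exact (continuous_snd.tendsto x).congr'
      (mem_of_superset (oD.mem_nhds hx) fun y hy => (hr y hy).symm)
  · rintro _ ⟨x, hx, rfl⟩ hb hn'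
    rw [hr x hx]
    by_contra h1
    rw [not_le] at h1
    obtain ⟨h2, h3⟩ := hout x hb
    obtain ⟨k, hk⟩ := exists_shift h.hτ x.1.2
    refine hn' ⟨t2sh τ k x, ⟨⟨⟨?_, ?_⟩, Ico_subset_Icc_self hk⟩, abs_le.1 h1.le⟩, t2_E_sh h k x⟩
    · show a - δ / 2 ≤ x.1.1
      nlinarith
    · show x.1.1 ≤ b + δ / 2
      nlinarith
  · rintro _ ⟨⟨p, s⟩, hx, rfl⟩ hb h0
    rw [hr _ hx] at h0
    obtain rfl : s = 0 := h0
    obtain ⟨h2, h3⟩ := hout _ hb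
    simp only [abs_zero] at h2 h3
    have hp : p ∈ strip a b := ⟨by nlinarith, by nlinarith⟩
    exact ⟨p, hp, by simp [tubeE_of_mem hp]⟩
  have key := (isCompact_Icc.prod isCompact_Icc :
      IsCompact (Icc a b ×ˢ Icc 0 τ)).eventually_forall_of_forall_eventually (x₀ := (0 : V3))
    (P := fun ξ p => p ∈ strip a b → ψ p + ξ ∈ tubeE ψ a b '' D ∧
      |normal ψ p ⬝ᵥ ξ - r (ψ p + ξ)| ≤ η * ‖ξ‖) (by
    intro p hp
    have m1 : p ∈ strip a b := hp.1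
    obtain ⟨V, hV, hest⟩ := (tubeE_local h m1).2 (η / 2) (half_pos hη)
    have m2 : ((p, 0) : (ℝ × ℝ) × ℝ) ∈ D :=
      ⟨by linarith [m1.1], by linarith [m1.2], by simpa using hδ⟩
    have c1 : Continuous fun z : V3 × (ℝ × ℝ) => ((z.2, 0) : (ℝ × ℝ) × ℝ) := by fun_prop
    have e1 := (c1.tendsto' (0, p) (p, 0) rfl).eventually hV
    have e2 := (((hE.comp c1).add continuous_fst).tendsto' (0, p) (tubeE ψ a b (p, 0))
      (by simp)).eventually (hn _ m2 _ (inter_mem hV (oD.mem_nhds m2)))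
    have e3 := ((h.smN m1).continuousAt.tendsto.comp
      (continuous_snd.tendsto ((0 : V3), p))).eventually
      (Metric.ball_mem_nhds (normal ψ p) (show 0 < η / 6 by positivity))
    filter_upwards [e1, e2, e3] with z h1 h2 h3 hz
    obtain ⟨x, ⟨h4, h5⟩, h6⟩ := h2
    have h7 : tubeE ψ a b (z.2, 0) = ψ z.2 := by simp [tubeE_of_mem hz]
    have h8 : tubeE ψ a b x = ψ z.2 + z.1 := by rw [h6, ← h7]; rfl
    refine ⟨⟨x, h5, h8⟩, ?_⟩
    have h9 := hest x h4 _ h1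
    rw [h7, h8, add_sub_cancel_left, sub_zero] at h9
    have h10 := abs_dot_le_norm (normal ψ z.2 - normal ψ p) z.1
    have h11 : ‖normal ψ z.2 - normal ψ p‖ < η / 6 := by simpa [dist_eq_norm] using h3
    rw [sub_dotProduct] at h10
    rw [← h8, hr x h5]
    have h12 := abs_add_le (normal ψ z.2 ⬝ᵥ z.1 - normal ψ p ⬝ᵥ z.1) (normal ψ p ⬝ᵥ z.1 - x.2)
    rw [sub_add_sub_cancel] at h12
    nlinarith [norm_nonneg z.1])
  obtain ⟨ε, hε', key⟩ := Metric.eventually_nhds_iff.1 key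
  refine ⟨ε, hε', fun p hp y hy => ?_⟩
  obtain ⟨k, hk⟩ := exists_shift h.hτ p.2
  have h1 := key (y := y - ψ p) (by rwa [dist_zero_right]) (p.1, p.2 + k * τ)
    ⟨hp, Ico_subset_Icc_self hk⟩ hp
  rwa [per_int h.periodic hp k, per_int h.perN hp k, add_sub_cancel] at h1

end Pool.Agent.Lib.MP_c7e804_gt
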