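import Pool.Agent.Lib.MP_c7e804_gt.H60PI
import Pool.Agent.Lib.MP_c7e804_gt.H43Geo

/-!
For an acute contact angle the two boundary curves are joined on the sphere on the side of the
normal.
-/

namespace Pool.Agent.Lib.MP_c7e804_gt

open Matrix Set Filter Topology

variable {ψ : ℝ × ℝ → V3} {a b τ θ : ℝ}

theorem PI.mvt2 {k k1 k2 : ℝ → ℝ} {x y : ℝ} (hxy : y ≠ x)
    (h1 : ∀ t ∈ uIcc x y, HasDerivAt k (k1 t) t) (h2 : ∀ t ∈ uIcc x y, HasDerivAt k1 (k2 t) t)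
    (h0 : k1 x = 0) (hn : ∀ t ∈ uIcc x y, k2 t < 0) : k y < k x := by
  rcases lt_or_gt_of_ne hxy with h | h
  · rw [uIcc_of_ge h.le] at h1 h2 hn
    obtain ⟨s, hs, e1⟩ := exists_hasDerivAt_eq_slope k k1 h
      (fun t ht => (h1 t ht).continuousAt.continuousWithinAt)
      fun t ht => h1 t (Ioo_subset_Icc_self ht)
    obtain ⟨r, hr, e2⟩ := exists_hasDerivAt_eq_slope k1 k2 hs.2
      (fun t ht => (h2 t ⟨by linarith [hs.1, ht.1], ht.2⟩).continuousAt.continuousWithinAt)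
      fun t ht => h2 t ⟨by linarith [hs.1, ht.1], ht.2.le⟩
    have k3 := hn r ⟨by linarith [hs.1, hr.1], hr.2.le⟩
    rw [e2, h0, div_lt_iff₀ (sub_pos.2 hs.2), zero_mul, zero_sub, neg_lt_zero, e1,
      lt_div_iff₀ (sub_pos.2 h)] at k3
    linarith
  · rw [uIcc_of_le h.le] at h1 h2 hn
    obtain ⟨s, hs, e1⟩ := exists_hasDerivAt_eq_slope k k1 h
      (fun t ht => (h1 t ht).continuousAt.continuousWithinAt)
      fun t ht => h1 t (Ioo_subset_Icc_self ht)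
    obtain ⟨r, hr, e2⟩ := exists_hasDerivAt_eq_slope k1 k2 hs.1
      (fun t ht => (h2 t ⟨ht.1, by linarith [hs.2, ht.2]⟩).continuousAt.continuousWithinAt)
      fun t ht => h2 t ⟨ht.1.le, by linarith [hs.2, ht.2]⟩
    have k3 := hn r ⟨hr.1.le, by linarith [hs.2, hr.2]⟩
    rw [e2, h0, div_lt_iff₀ (sub_pos.2 hs.1), zero_mul, sub_zero, e1,
      div_lt_iff₀ (sub_pos.2 h)] at k3
    linarith

theorem PI.hd_dot1 {g : ℝ → V3} {g1 : V3} {v : ℝ} (hd : HasDerivAt g g1 v) (e : V3) :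
    HasDerivAt (fun s => e ⬝ᵥ g s) (e ⬝ᵥ g1) v := by
  simp only [dotProduct]
  exact HasDerivAt.fun_sum fun i _ => (hasDerivAt_pi.1 hd i).const_mul _

/-- Weak maximum principle for linear functions. -/
theorem CapAnnulus.lin_max {θa θb : ℝ} (h : CapAnnulus ψ a b τ θa θb) (n : V3) {c : ℝ}
    (ha : ∀ v, n ⬝ᵥ ψ (a, v) ≤ c) (hb : ∀ v, n ⬝ᵥ ψ (b, v) ≤ c) :
    ∀ p ∈ strip a b, n ⬝ᵥ ψ p ≤ c := by
  intro p hp
  by_contra H
  have hab := sub_pos.2 h.hab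
  obtain ⟨ε, ε0, hε⟩ : ∃ ε : ℝ, 0 < ε ∧ c + ε * (b - a) ^ 2 < n ⬝ᵥ ψ p :=
    ⟨(n ⬝ᵥ ψ p - c) / (2 * (b - a) ^ 2), div_pos (by linarith) (by positivity), by
      have : (n ⬝ᵥ ψ p - c) / (2 * (b - a) ^ 2) * (b - a) ^ 2 = (n ⬝ᵥ ψ p - c) / 2 := by
        field_simp
      linarith⟩
  have cψ : ContinuousOn ψ (Icc a b ×ˢ Icc 0 τ) := fun q hq =>
    (h.smooth q hq.1).continuousAt.continuousWithinAt
  obtain ⟨⟨u, v⟩, hq, hm⟩ := (isCompact_Icc.prod isCompact_Icc).exists_isMaxOn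
    (f := fun q : ℝ × ℝ => n ⬝ᵥ ψ q + ε * (q.1 - a) ^ 2)
    ⟨(a, 0), ⟨le_rfl, h.hab.le⟩, le_rfl, h.hτ.le⟩ (by fun_prop)
  have M : ∀ q ∈ strip a b, n ⬝ᵥ ψ q + ε * (q.1 - a) ^ 2 ≤ n ⬝ᵥ ψ (u, v) + ε * (u - a) ^ 2 :=
    fun q hq => by
      obtain ⟨t, ht, e⟩ := per_reduce h.hτ h.perψ hq
      rw [e]
      exact hm (a := (q.1, t)) ⟨hq, ht⟩
  have hs : ((u, v) : ℝ × ℝ) ∈ strip a b := hq.1
  have k := M p hp
  have k0 : 0 ≤ ε * (p.1 - a) ^ 2 := by positivity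
  have hu1 : a < u := lt_of_le_of_ne hq.1.1 fun e => by
    have := ha v
    have : 0 ≤ ε * (b - a) ^ 2 := by positivity
    rw [← e] at k
    simp only [sub_self, zero_pow two_ne_zero, mul_zero] at k
    linarith
  have hu2 : u < b := lt_of_le_of_ne hq.1.2 fun e => by
    have := hb v
    rw [e] at k
    linarith
  have nb : ∀ᶠ t in 𝓝 u, ((t, v) : ℝ × ℝ) ∈ strip a b :=
    (Icc_mem_nhds hu1 hu2 : Icc a b ∈ 𝓝 u)
  have d1 := (second_deriv_nonpos (g := fun t => n ⬝ᵥ ψ (t, v) + ε * (t - a) ^ 2)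
    (g' := fun t => n ⬝ᵥ du ψ (t, v) + ε * (2 * (t - a))) (g'' := n ⬝ᵥ du (du ψ) (u, v) + ε * 2)
    (nb.mono fun t ht => M _ ht)
    (nb.mono fun t ht => (PI.hd_dot1 (hasDerivAt_line_u (sm_diff (h.smooth _ ht))) n).add
      ((by simpa using ((hasDerivAt_id t).sub_const a).fun_pow 2 :
        HasDerivAt (fun t => (t - a) ^ 2) (2 * (t - a)) t).const_mul ε))
    ((PI.hd_dot1 (hasDerivAt_line_u (sm_diff (h.smA hs))) n).add
      ((by simpa using ((hasDerivAt_id u).sub_const a).const_mul 2 :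
        HasDerivAt (fun t => 2 * (t - a)) 2 u).const_mul ε))).2
  have d2 := (second_deriv_nonpos (g := fun t => n ⬝ᵥ ψ (u, t)) (g' := fun t => n ⬝ᵥ dv ψ (u, t))
    (x := v) (Eventually.of_forall fun t => by simpa using M (u, t) hs)
    (Eventually.of_forall fun t => PI.hd_dot1 (hasDerivAt_line_v (sm_diff (h.smooth (u, t) hs))) n)
    (PI.hd_dot1 (hasDerivAt_line_v (sm_diff (h.smB hs))) n)).2
  rw [h.Bv hs, dotProduct_neg] at d2
  linarith

theorem Cap.n_uu (h : Cap ψ a b τ θ) {p : ℝ × ℝ} (hp : p ∈ strip a b) :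
    0 < normal ψ p ⬝ᵥ du (du ψ) p := by
  have := h.q_pos
  rw [dotProduct_comm, ← sffL, h.L_const hp]
  linarith

/-- A tangent cap on the side of the normal misses the first boundary curve and meets the second. -/
theorem Cap.empty_cap (h : Cap ψ a b τ θ) (hc : 0 < Real.cos θ) (hs : SimpleAt ψ τ a) :
    ∃ v, (∀ v2, normal ψ (a, v) ⬝ᵥ ψ (a, v2) ≤ Real.cos θ) ∧
      ∃ v1, Real.cos θ < normal ψ (a, v) ⬝ᵥ ψ (b, v1) := by
  have cl : ∀ {f : ℝ × ℝ → V3}, (∀ p ∈ strip a b, ContinuousAt f p) → Continuous fun v => f (a, v) :=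
    fun hf => continuous_iff_continuousAt.2 fun v =>
      (hf _ (h.mem_a v)).comp (f := fun v : ℝ => ((a, v) : ℝ × ℝ)) (by fun_prop)
  have D1 : ∀ v, HasDerivAt (fun v => ψ (a, v)) (dv ψ (a, v)) v := fun v =>
    hasDerivAt_line_v (sm_diff (h.ann.smooth _ (h.mem_a v)))
  have D2 : ∀ v, HasDerivAt (fun v => dv ψ (a, v)) (-du (du ψ) (a, v)) v := fun v =>
    h.ann.Bv (h.mem_a v) ▸ hasDerivAt_line_v (sm_diff (h.ann.smB (h.mem_a v)))
  obtain ⟨v, hv⟩ := PI.pestov_ionin (g := fun v => ψ (a, v)) (g1 := fun v => dv ψ (a, v))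
    (N := fun v => normal ψ (a, v)) (ε := -1) h.ann.hτ hc D1
    (cl fun p hp => (h.ann.smB hp).continuousAt) (fun v => h.ann.periodic _ (h.mem_a v)) hs
    h.ann.sphere_a h.ann.angle_a (fun v => by
      have := mul_pos (Real.sqrt_pos.2 (h.ann.immersion _ (h.mem_a v))) h.sin_pos
      rw [(h.ann.fr (h.mem_a v)).eBN, ← pu, h.pu_a]
      linarith) (by
      have c1 := cl fun p hp => (h.ann.smN hp).continuousAt
      have c2 := cl fun p hp => (sm_du (h.ann.smA hp)).continuousAt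
      have c3 : Continuous fun x : ℝ × ℝ => normal ψ (a, x.2) ⬝ᵥ du (du ψ) (a, x.2 + x.1) :=
        (c1.comp continuous_snd).dotProduct (c2.comp (continuous_snd.add continuous_fst))
      obtain ⟨d, d0, H⟩ := Metric.eventually_nhds_iff.1
        ((isCompact_Icc (a := (0 : ℝ)) (b := τ)).eventually_forall_of_forall_eventually (x₀ := (0 : ℝ))
          (P := fun s v => 0 < normal ψ (a, v) ⬝ᵥ du (du ψ) (a, v + s)) fun v _ =>
          c3.continuousAt.eventually (lt_mem_nhds (by simpa using h.n_uu (h.mem_a v))))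
      refine ⟨d, d0, fun v v2 hn hd => (PI.mvt2 hn (fun t _ => PI.hd_dot1 (D1 t) _)
        (fun t _ => PI.hd_dot1 (D2 t) _) (h.ann.fr (h.mem_a v)).NB fun t ht => ?_).trans_eq
        (h.ann.angle_a v)⟩
      have hP : Function.Periodic
          (fun x => normal ψ (a, x) ⬝ᵥ du (du ψ) (a, x + (t - v))) τ := fun x => by
        have e1 := h.ann.perN _ (h.mem_a x)
        have e2 := h.ann.perAu _ (h.mem_a (x + (t - v)))
        simp only at e1 e2 ⊢
        rw [e1, add_right_comm, e2]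
      obtain ⟨y, hy, e⟩ := hP.exists_mem_Ico₀ h.ann.hτ v
      have := H (y := t - v) (by
        rw [Real.dist_eq, sub_zero]
        exact (abs_sub_left_of_mem_uIcc ht).trans_lt hd) y (Ico_subset_Icc_self hy)
      simp only [add_sub_cancel] at e
      rw [dotProduct_neg, e]
      linarith)
  refine ⟨v, hv, ?_⟩
  by_contra H
  push Not at H
  have c1 : ContinuousAt (fun t => normal ψ (a, v) ⬝ᵥ du (du ψ) (t, v)) a := by
    have := (sm_du (h.ann.smA (h.mem_a v))).continuousAt.comp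
      (f := fun t : ℝ => ((t, v) : ℝ × ℝ)) (by fun_prop)
    exact (continuous_const.dotProduct continuous_id).continuousAt.comp this
  obtain ⟨d, d0, H1⟩ := Metric.eventually_nhds_iff.1 (c1.eventually (lt_mem_nhds (h.n_uu (h.mem_a v))))
  have hy : a < min b (a + d / 2) := lt_min h.ann.hab (by linarith)
  have hm : ∀ t ∈ uIcc a (min b (a + d / 2)), ((t, v) : ℝ × ℝ) ∈ strip a b := fun t ht => by
    rw [uIcc_of_le hy.le] at ht
    exact ⟨ht.1, ht.2.trans (min_le_left _ _)⟩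
  have k := PI.mvt2 hy.ne'
    (fun t ht => PI.hd_dot1 (hasDerivAt_line_u (sm_diff (h.ann.smooth _ (hm t ht))))
      (-normal ψ (a, v)))
    (fun t ht => PI.hd_dot1 (hasDerivAt_line_u (sm_diff (h.ann.smA (hm t ht)))) (-normal ψ (a, v)))
    (by rw [neg_dotProduct, (h.ann.fr (h.mem_a v)).NA, neg_zero]) fun t ht => by
      rw [uIcc_of_le hy.le] at ht
      have := ht.2.trans (min_le_right _ _)
      rw [neg_dotProduct, neg_lt_zero]
      exact H1 (by rw [Real.dist_eq, abs_lt]; constructor <;> linarith [ht.1])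
  have := h.ann.lin_max _ hv H _ (hm _ right_mem_uIcc)
  rw [neg_dotProduct, neg_dotProduct, h.ann.angle_a] at k
  linarith

/-- A path on the sphere from the first boundary curve to the second, off the surface in between,
leaving on the side of the normal. -/
theorem Cap.bridge (h : Cap ψ a b τ θ) (hc : 0 < Real.cos θ) (hs : SimpleAt ψ τ a)
    (hd : ∀ v v', ψ (a, v) ≠ ψ (b, v')) :
    ∃ (v v' T η : ℝ) (z : ℝ → V3), 0 < T ∧ 0 < η ∧ ContinuousOn z (Icc 0 T) ∧ z 0 = ψ (a, v) ∧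
      z T = ψ (b, v') ∧ (∀ t ∈ Icc 0 T, z t ⬝ᵥ z t = 1) ∧
      (∀ t ∈ Ioo 0 T, z t ∉ ψ '' strip a b) ∧
      ∀ᶠ t in 𝓝[>] 0, η * ‖z t - z 0‖ < normal ψ (a, v) ⬝ᵥ (z t - z 0) := by
  obtain ⟨v, hv, v1, hv1⟩ := h.empty_cap hc hs
  have NN := (h.ann.fr (h.mem_a v)).NN
  have Nx := h.ann.angle_a v
  have xx := h.ann.sphere_a v
  have yy := h.ann.sphere_b v1
  have xy := PI.dot_le xx yy
  generalize hN : normal ψ (a, v) = N at *
  let x : ℝ → V3 := fun t => ψ (a, v) + t • (ψ (b, v1) - ψ (a, v))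
  let z : ℝ → V3 := fun t => (2 * (1 + N ⬝ᵥ x t) / ((x t + N) ⬝ᵥ (x t + N))) • (x t + N) - N
  have e1 : ∀ t, N ⬝ᵥ x t = Real.cos θ + t * (N ⬝ᵥ ψ (b, v1) - Real.cos θ) := fun t => by
    simp only [x, dotProduct_add, dotProduct_smul, dotProduct_sub, Nx, smul_eq_mul]
  have e2 : ∀ t, x t ⬝ᵥ x t = 1 - 2 * (t * (1 - t) * (1 - ψ (a, v) ⬝ᵥ ψ (b, v1))) := fun t => by
    simp only [x, dotProduct_add, add_dotProduct, dotProduct_smul, smul_dotProduct, dotProduct_sub,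
      sub_dotProduct, xx, yy, smul_eq_mul, dotProduct_comm (ψ (b, v1)) (ψ (a, v))]
    ring
  have e3 : ∀ t, (x t + N) ⬝ᵥ (x t + N) = x t ⬝ᵥ x t + 2 * N ⬝ᵥ x t + 1 := fun t => by
    simp only [dotProduct_add, add_dotProduct, NN, dotProduct_comm (x t) N]; ring
  have p1 : ∀ t, 0 ≤ t → 0 < N ⬝ᵥ x t := fun t ht => by
    have := mul_nonneg ht (sub_pos.2 hv1).le
    rw [e1]; linarith
  have p2 : ∀ t, 0 ≤ t → 0 < (x t + N) ⬝ᵥ (x t + N) := fun t ht => by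
    have : 0 ≤ x t ⬝ᵥ x t := Finset.sum_nonneg fun _ _ => mul_self_nonneg _
    rw [e3]; linarith [p1 t ht]
  have z1 : ∀ t, 0 ≤ t → z t ⬝ᵥ z t = 1 := fun t ht => by
    have := (p2 t ht).ne'
    have e4 : N ⬝ᵥ (x t + N) = 1 + N ⬝ᵥ x t := by rw [dotProduct_add, NN, add_comm]
    simp only [z, sub_dotProduct, dotProduct_sub, smul_dotProduct, dotProduct_smul, NN, e4,
      dotProduct_comm (x t + N) N, smul_eq_mul]
    field_simp
    ring
  have z2 : ∀ t ∈ Icc (0 : ℝ) 1, N ⬝ᵥ x t ≤ N ⬝ᵥ z t := fun t ht => by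
    have k1 := mul_nonneg (mul_nonneg ht.1 (sub_nonneg.2 ht.2)) (sub_nonneg.2 xy)
    have k2 : 1 ≤ 2 * (1 + N ⬝ᵥ x t) / ((x t + N) ⬝ᵥ (x t + N)) := by
      rw [le_div_iff₀ (p2 t ht.1), e3, e2]; linarith
    have k3 := mul_le_mul_of_nonneg_right k2 (show 0 ≤ N ⬝ᵥ x t + 1 by linarith [p1 t ht.1])
    simp only [z, dotProduct_sub, dotProduct_smul, dotProduct_add N, NN, smul_eq_mul]
    linarith
  have z3 : ∀ t, 0 ≤ t → x t ⬝ᵥ x t = 1 → z t = x t := fun t ht e => by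
    have : 2 * (1 + N ⬝ᵥ x t) / ((x t + N) ⬝ᵥ (x t + N)) = 1 := by
      rw [div_eq_one_iff_eq (p2 t ht).ne', e3, e]; ring
    simp only [z, this, one_smul, add_sub_cancel_right]
  have z0 : z 0 = ψ (a, v) := by rw [z3 0 le_rfl (by rw [e2]; ring)]; simp [x]
  have z4 : z 1 = ψ (b, v1) := by rw [z3 1 zero_le_one (by rw [e2]; ring)]; simp [x]
  have dz : ∀ t, 0 ≤ t → DifferentiableAt ℝ z t := fun t ht => by
    have k1 : DifferentiableAt ℝ x t := by simp only [x]; fun_prop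
    have k2 : DifferentiableAt ℝ (fun t => (x t + N) ⬝ᵥ (x t + N)) t := by
      simp only [e3, e2, e1]; fun_prop
    have k3 : DifferentiableAt ℝ (fun t => 2 * (1 + N ⬝ᵥ x t)) t := by
      simp only [e1]; fun_prop
    exact ((k3.div k2 (p2 t ht).ne').smul (k1.add_const N)).sub_const N
  have cz : ContinuousOn z (Icc 0 1) := fun t ht => (dz t ht.1).continuousAt.continuousWithinAt
  have cb : IsClosed (range fun v => ψ (b, v)) := by
    have c1 : Continuous fun v => ψ (b, v) := continuous_iff_continuousAt.2 fun v =>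
      (h.ann.smooth _ (h.mem_b v)).continuousAt.comp (f := fun v : ℝ => ((b, v) : ℝ × ℝ))
        (by fun_prop)
    have hP : Function.Periodic (fun v => ψ (b, v)) τ := fun v => h.ann.periodic _ (h.mem_b v)
    exact (hP.compact_of_continuous h.ann.hτ.ne' c1).isClosed
  obtain ⟨T, ⟨hT, v', e'⟩, hmin⟩ := (isCompact_Icc.of_isClosed_subset
    (cz.preimage_isClosed_of_isClosed isClosed_Icc cb) inter_subset_left).exists_isLeast
    ⟨1, right_mem_Icc.2 zero_le_one, v1, z4.symm⟩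
  have T0 : 0 < T := lt_of_le_of_ne hT.1 fun e => hd v v' (by rw [← z0, e]; exact e'.symm)
  obtain ⟨C, C0, hC⟩ := (dz 0 le_rfl).isBigO_sub.exists_pos
  have δ := sub_pos.2 hv1
  refine ⟨v, v', T, (N ⬝ᵥ ψ (b, v1) - Real.cos θ) / (2 * C), z, T0, by positivity,
    cz.mono (Icc_subset_Icc_right hT.2), z0, e'.symm, fun t ht => z1 t ht.1, ?_, ?_⟩
  · rintro t ht ⟨⟨u, w⟩, hp, e⟩
    have t1 : t ∈ Icc (0 : ℝ) 1 := ⟨ht.1.le, ht.2.le.trans hT.2⟩
    rcases eq_or_lt_of_le (show a ≤ u from hp.1) with rfl | h1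
    · have k1 := z2 t t1
      have k2 := mul_pos ht.1 δ
      have k3 := hv w
      rw [e1, ← e] at k1
      linarith
    rcases eq_or_lt_of_le (show u ≤ b from hp.2) with rfl | h2
    · exact (hmin ⟨t1, w, e⟩).not_gt ht.2
    · exact (h.ann.inside (u, w) h1 h2).ne (e ▸ z1 t ht.1.le)
  · filter_upwards [hC.bound.filter_mono nhdsWithin_le_nhds, Ioc_mem_nhdsGT (zero_lt_one' ℝ)]
      with t k1 k2
    have k3 := z2 t ⟨k2.1.le, k2.2⟩
    have k4 := mul_pos k2.1 δ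
    rw [sub_zero, Real.norm_eq_abs, abs_of_pos k2.1] at k1
    have k5 := mul_le_mul_of_nonneg_left k1
      (show 0 ≤ (N ⬝ᵥ ψ (b, v1) - Real.cos θ) / (2 * C) by positivity)
    have k6 : (N ⬝ᵥ ψ (b, v1) - Real.cos θ) / (2 * C) * (C * t) =
        t * (N ⬝ᵥ ψ (b, v1) - Real.cos θ) / 2 := by field_simp
    rw [dotProduct_sub, z0, hN, Nx]
    rw [z0] at k5
    rw [e1] at k3
    linarith

/-- The two boundary curves are joined inside the part of the sphere on the side `W` of the normal. -/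
theorem Cap.joined (h : Cap ψ a b τ θ) (hc : 0 < Real.cos θ) (hs : SimpleAt ψ τ a)
    (hd : ∀ v v', ψ (a, v) ≠ ψ (b, v')) {U W : Set V3} (hU : IsClosed U) (hW : IsClosed W)
    (hcov : ∀ x : V3, x ⬝ᵥ x = 1 → x ∈ U ∪ W)
    (hI : ∀ x : V3, x ⬝ᵥ x = 1 → x ∈ U → x ∈ W → x ∈ ψ '' strip a b)
    (hcone : ∀ v, ∀ η > 0, ∃ ε > 0, ∀ y : V3, y ⬝ᵥ y = 1 → ‖y - ψ (a, v)‖ < ε →
      η * ‖y - ψ (a, v)‖ < normal ψ (a, v) ⬝ᵥ (y - ψ (a, v)) → y ∉ U)
    {α : V3 → ℤ} (hα : ContinuousOn α ({x | x ⬝ᵥ x = 1} ∩ W)) :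
    ∃ v v', α (ψ (a, v)) = α (ψ (b, v')) := by
  obtain ⟨v, v', T, η, z, T0, η0, cz, z0, zT, z1, z2, z3⟩ := h.bridge hc hs hd
  obtain ⟨ε, ε0, H⟩ := hcone v η η0
  have c0 : Tendsto z (𝓝[>] 0) (𝓝 (ψ (a, v))) :=
    z0 ▸ (cz 0 (left_mem_Icc.2 T0.le)).mono_of_mem_nhdsWithin (Icc_mem_nhdsGT T0)
  obtain ⟨s, k1, k2, k3⟩ := (z3.and ((c0.eventually (Metric.ball_mem_nhds _ ε0)).and
    (Ioo_mem_nhdsGT T0))).exists
  have hs0 : z s ∉ U := H _ (z1 s (Ioo_subset_Icc_self k3)) (by simpa [dist_eq_norm] using k2)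
    (z0 ▸ k1)
  have sub : z '' Ioo 0 T ⊆ W :=
    (isPreconnected_iff_subset_of_disjoint_closed.1
      (isPreconnected_Ioo.image z (cz.mono Ioo_subset_Icc_self)) U W hU hW
      (by rintro _ ⟨t, ht, rfl⟩; exact hcov _ (z1 t (Ioo_subset_Icc_self ht)))
      (eq_empty_of_forall_notMem (by
        rintro _ ⟨⟨t, ht, rfl⟩, k⟩
        exact z2 t ht (hI _ (z1 t (Ioo_subset_Icc_self ht)) k.1 k.2)))).resolve_left
      fun k => hs0 (k ⟨s, k3, rfl⟩)
  have all : ∀ t ∈ Icc 0 T, z t ∈ W := fun t ht =>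
    (hW.closure_subset_iff.2 sub) ((cz.mono (closure_Ioo T0.ne).le).image_closure
      ⟨t, (closure_Ioo T0.ne).ge ht, rfl⟩)
  refine ⟨v, v', ?_⟩
  rw [← z0, ← zT]
  exact isPreconnected_Icc.constant (f := fun t => α (z t))
    (hα.comp cz fun t ht => ⟨z1 t ht, all t ht⟩) (left_mem_Icc.2 T0.le) (right_mem_Icc.2 T0.le)

end Pool.Agent.Lib.MP_c7e804_gt
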