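import Mathlib

/-!
Constant-angle (capillary) minimal annuli in the unit ball, in conformal coordinates
`(u, v) ∈ [a, b] × ℝ`, periodic in `v`.
-/

namespace Pool.Agent.Lib.MP_c7e804_gt

open Matrix Set
open scoped ContDiff

/-- Vectors of three-space; `⬝ᵥ` is the Euclidean inner product, `⨯₃` the cross product. -/
abbrev V3 := Fin 3 → ℝ

/-- Derivative in the first coordinate `u`. -/
noncomputable def du {F : Type} [NormedAddCommGroup F] [NormedSpace ℝ F]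
    (f : ℝ × ℝ → F) (p : ℝ × ℝ) : F := fderiv ℝ f p (1, 0)

/-- Derivative in the second coordinate `v`. -/
noncomputable def dv {F : Type} [NormedAddCommGroup F] [NormedSpace ℝ F]
    (f : ℝ × ℝ → F) (p : ℝ × ℝ) : F := fderiv ℝ f p (0, 1)

/-- The closed strip `[a, b] × ℝ`. -/
def strip (a b : ℝ) : Set (ℝ × ℝ) := {p | a ≤ p.1 ∧ p.1 ≤ b}

/-- Conformal factor `E = |ψ_u|²`. -/
noncomputable def confE (ψ : ℝ × ℝ → V3) (p : ℝ × ℝ) : ℝ := du ψ p ⬝ᵥ du ψ p

/-- Unit normal `N = ψ_u × ψ_v / E` of a conformal immersion. -/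
noncomputable def normal (ψ : ℝ × ℝ → V3) (p : ℝ × ℝ) : V3 :=
  (confE ψ p)⁻¹ • (du ψ p ⨯₃ dv ψ p)

/-- Second fundamental form, coefficient `ψ_uu · N`. -/
noncomputable def sffL (ψ : ℝ × ℝ → V3) (p : ℝ × ℝ) : ℝ := du (du ψ) p ⬝ᵥ normal ψ p

/-- Second fundamental form, coefficient `ψ_uv · N`. -/
noncomputable def sffM (ψ : ℝ × ℝ → V3) (p : ℝ × ℝ) : ℝ := dv (du ψ) p ⬝ᵥ normal ψ p

/-- Second fundamental form, coefficient `ψ_vv · N`. -/
noncomputable def sffN (ψ : ℝ × ℝ → V3) (p : ℝ × ℝ) : ℝ := dv (dv ψ) p ⬝ᵥ normal ψ p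

/-- Gauss curvature of a conformal immersion. -/
noncomputable def gaussK (ψ : ℝ × ℝ → V3) (p : ℝ × ℝ) : ℝ :=
  (sffL ψ p * sffN ψ p - sffM ψ p ^ 2) / confE ψ p ^ 2

/-- Squared norm `|A|²` of the second fundamental form of a conformal immersion. -/
noncomputable def normA2 (ψ : ℝ × ℝ → V3) (p : ℝ × ℝ) : ℝ :=
  (sffL ψ p ^ 2 + 2 * sffM ψ p ^ 2 + sffN ψ p ^ 2) / confE ψ p ^ 2

/-- Normal component `N · (e × ψ)` of the rotation field `x ↦ e × x` about the axis `ℝ e`. -/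
noncomputable def rotN (ψ : ℝ × ℝ → V3) (e : V3) (p : ℝ × ℝ) : ℝ := normal ψ p ⬝ᵥ (e ⨯₃ ψ p)

/-- `ψ` is a conformal minimal immersion of the compact annulus `[a, b] × ℝ / τ ℤ`, smooth up to
the boundary, with interior in the open unit ball and both boundary curves on the unit sphere,
which it meets at the constant angles `θa` (along `u = a`) and `θb` (along `u = b`) in `(0, π)`:
the angle is the one between the normal `N` of the surface and the normal `ψ` of the sphere.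
The constant-angle annuli of the problem are the case `θa = θb`; no embeddedness is required. -/
structure CapAnnulus (ψ : ℝ × ℝ → V3) (a b τ θa θb : ℝ) : Prop where
  hab : a < b
  hτ : 0 < τ
  smooth : ∀ p ∈ strip a b, ContDiffAt ℝ ∞ ψ p
  periodic : ∀ p ∈ strip a b, ψ (p.1, p.2 + τ) = ψ p
  immersion : ∀ p ∈ strip a b, 0 < confE ψ p
  conformal_eq : ∀ p ∈ strip a b, dv ψ p ⬝ᵥ dv ψ p = confE ψ p
  conformal_orth : ∀ p ∈ strip a b, du ψ p ⬝ᵥ dv ψ p = 0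
  harmonic : ∀ p ∈ strip a b, du (du ψ) p + dv (dv ψ) p = 0
  inside : ∀ p : ℝ × ℝ, a < p.1 → p.1 < b → ψ p ⬝ᵥ ψ p < 1
  sphere_a : ∀ v, ψ (a, v) ⬝ᵥ ψ (a, v) = 1
  sphere_b : ∀ v, ψ (b, v) ⬝ᵥ ψ (b, v) = 1
  hθa : 0 < θa ∧ θa < Real.pi
  hθb : 0 < θb ∧ θb < Real.pi
  angle_a : ∀ v, normal ψ (a, v) ⬝ᵥ ψ (a, v) = Real.cos θa
  angle_b : ∀ v, normal ψ (b, v) ⬝ᵥ ψ (b, v) = Real.cos θb

/-- The curve `γ` lies on a round sphere centred on the line `ℝ e` or on a plane orthogonal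
to `e`. -/
def SphericalAbout (e : V3) (γ : ℝ → V3) : Prop :=
  (∃ t r : ℝ, 0 < r ∧ ∀ v, (γ v - t • e) ⬝ᵥ (γ v - t • e) = r ^ 2) ∨ (∃ d : ℝ, ∀ v, e ⬝ᵥ γ v = d)

/-- The closed curves `v ↦ ψ (u, v)`, `u ∈ [a, b]`, which foliate the annulus, are lines of
curvature (Rodrigues: `N_v` is parallel to `ψ_v`), and each lies on a sphere centred on the line
`ℝ e` or on a plane orthogonal to `e`. -/
def FoliatedAbout (ψ : ℝ × ℝ → V3) (a b : ℝ) (e : V3) : Prop :=
  (∀ p ∈ strip a b, ∃ κ : ℝ, dv (normal ψ) p = κ • dv ψ p) ∧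
    ∀ u, a ≤ u → u ≤ b → SphericalAbout e (fun v => ψ (u, v))

/-- The curve `γ` has contact of second order at `v` with a sphere centred on the line `ℝ e` or a
plane orthogonal to `e`: some nontrivial combination of `|γ|²` and `e · γ` has vanishing first and
second derivative at `v`. -/
def OsculatesAbout (e : V3) (γ : ℝ → V3) (v : ℝ) : Prop :=
  ∃ s t : ℝ, (s ≠ 0 ∨ t ≠ 0) ∧
    deriv (fun w => s * (γ w ⬝ᵥ γ w) + t * (e ⬝ᵥ γ w)) v = 0 ∧
    deriv (deriv (fun w => s * (γ w ⬝ᵥ γ w) + t * (e ⬝ᵥ γ w))) v = 0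

/-- Reflection of three-space in the plane through the origin with unit normal `n`. -/
def reflect (n x : V3) : V3 := x - (2 * (n ⬝ᵥ x)) • n

/-- The arc `v = v₀` of the annulus is fixed by a reflective symmetry of the annulus in a plane
through the origin containing the axis `ℝ e`. -/
def OnMirror (ψ : ℝ × ℝ → V3) (a b : ℝ) (e : V3) (v₀ : ℝ) : Prop :=
  ∃ n : V3, n ⬝ᵥ n = 1 ∧ n ⬝ᵥ e = 0 ∧
    ∀ p ∈ strip a b, ψ (p.1, 2 * v₀ - p.2) = reflect n (ψ p)

/-- Jacobi fields of the capillary problem: smooth functions `f` on the annulus with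
`Δ_Σ f + |A|² f = 0` and the Robin condition `∂_ν f = (1 / sin θ + cot θ · A(ν, ν)) f` on the
boundary, where `ν = ± ψ_u / √E` is the outer unit conormal and `A(ν, ν) = ψ_uu · N / E`. -/
structure IsJacobi (ψ : ℝ × ℝ → V3) (a b τ θa θb : ℝ) (f : ℝ × ℝ → ℝ) : Prop where
  smooth : ∀ p ∈ strip a b, ContDiffAt ℝ ∞ f p
  periodic : ∀ p ∈ strip a b, f (p.1, p.2 + τ) = f p
  pde : ∀ p ∈ strip a b,
    (du (du f) p + dv (dv f) p) / confE ψ p + normA2 ψ p * f p = 0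
  robin_a : ∀ v, -du f (a, v) / √(confE ψ (a, v)) =
    (1 / Real.sin θa + Real.cos θa / Real.sin θa * (sffL ψ (a, v) / confE ψ (a, v))) * f (a, v)
  robin_b : ∀ v, du f (b, v) / √(confE ψ (b, v)) =
    (1 / Real.sin θb + Real.cos θb / Real.sin θb * (sffL ψ (b, v) / confE ψ (b, v))) * f (b, v)

end Pool.Agent.Lib.MP_c7e804_gt
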