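import Pool.Agent.Lib.MP_c7e804_gt.H60PI3
import Pool.Agent.Lib.MP_c7e804_gt.H63Defs

/-!
A Pestov-Ionin lemma on the unit sphere: if every point of a simple closed curve has a cap of
fixed radius less than a right angle that touches it there on a fixed side and locally misses it,
then one of these caps misses the whole curve.
-/

namespace Pool.Agent.Lib.MP_c7e804_gt.PI

open Set Filter Topology Matrix

variable {g g1 : ℝ → V3} {a b τ : ℝ}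

lemma hd_dot (hd : ∀ v, HasDerivAt g (g1 v) v) (e : V3) (v : ℝ) :
    HasDerivAt (fun s => e ⬝ᵥ g s) (e ⬝ᵥ g1 v) v := by
  simp only [dotProduct]
  exact HasDerivAt.fun_sum fun i _ => (hasDerivAt_pi.1 (hd v) i).const_mul _

lemma ex_perp (m n : V3) : ∃ q : V3, q ≠ 0 ∧ m ⬝ᵥ q = 0 ∧ n ⬝ᵥ q = 0 := by
  obtain ⟨q, hq, h0⟩ := (Submodule.ne_bot_iff _).1
    (LinearMap.ker_ne_bot_of_finrank_lt (f := Matrix.mulVecLin (Matrix.of ![m, n])) (by simp))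
  exact ⟨q, h0, congrFun hq 0, congrFun hq 1⟩

lemma self_pos {q : V3} (h : q ≠ 0) : 0 < q ⬝ᵥ q :=
  lt_of_le_of_ne (Finset.sum_nonneg fun _ _ => mul_self_nonneg _)
    fun e => h (dotProduct_self_eq_zero.1 e.symm)

lemma unit_of {q : V3} (h : 0 < q ⬝ᵥ q) :
    ∃ r : ℝ, 0 < r ∧ r * r * (q ⬝ᵥ q) = 1 ∧ (r • q) ⬝ᵥ (r • q) = 1 := by
  have e : (√(q ⬝ᵥ q))⁻¹ * (√(q ⬝ᵥ q))⁻¹ * (q ⬝ᵥ q) = 1 := by
    rw [← mul_inv, Real.mul_self_sqrt h.le, inv_mul_cancel₀ h.ne']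
  exact ⟨_, inv_pos.2 (Real.sqrt_pos.2 h), e, by
    rw [smul_dotProduct, dotProduct_smul, smul_eq_mul, smul_eq_mul, ← mul_assoc, e]⟩

lemma dot_lt {x y : V3} (hx : x ⬝ᵥ x = 1) (hy : y ⬝ᵥ y = 1) (h : x ≠ y) : x ⬝ᵥ y < 1 := by
  have := self_pos (sub_ne_zero.2 h)
  rw [sub_dotProduct, dotProduct_sub, dotProduct_sub, dotProduct_comm y x] at this
  linarith

lemma dot_le {x y : V3} (hx : x ⬝ᵥ x = 1) (hy : y ⬝ᵥ y = 1) : x ⬝ᵥ y ≤ 1 := by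
  by_cases h : x = y
  · rw [← h, hx]
  · exact (dot_lt hx hy h).le

lemma ex_pole (hd : ∀ v, HasDerivAt g (g1 v) v) (hc : Continuous g1) (h1 : ∀ v, g v ⬝ᵥ g v = 1)
    {m n : V3} {μ ν : ℝ} (hμ : 0 < μ) (hν : 0 < ν) :
    ∃ p : V3, p ⬝ᵥ p = 1 ∧ p ⬝ᵥ m < μ ∧ p ⬝ᵥ n < ν ∧ ∀ v, p ⬝ᵥ g v < 1 := by
  have cg : ContDiff ℝ 1 g := contDiff_one_iff_deriv.2
    ⟨fun v => (hd v).differentiableAt, by rwa [show deriv g = g1 from funext fun v => (hd v).deriv]⟩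
  have cf : ContDiff ℝ 1 fun x : ℝ × ℝ => x.2 • g x.1 := contDiff_snd.smul (cg.comp contDiff_fst)
  obtain ⟨q0, q1, q2, q3⟩ := ex_perp m n
  obtain ⟨q, hq, k1, k2⟩ := (cf.dense_compl_range_of_finrank_lt_finrank (by simp)).exists_mem_open
    (U := {q : V3 | (q ⬝ᵥ m) ^ 2 < μ ^ 2 * (q ⬝ᵥ q)} ∩ {q : V3 | (q ⬝ᵥ n) ^ 2 < ν ^ 2 * (q ⬝ᵥ q)})
    ((isOpen_lt (by fun_prop) (by fun_prop)).inter (isOpen_lt (by fun_prop) (by fun_prop)))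
    ⟨q0, by
      have := self_pos q1
      simp only [mem_inter_iff, mem_ofPred_eq, dotProduct_comm q0 m, dotProduct_comm q0 n, q2, q3,
        zero_pow two_ne_zero]
      constructor <;> positivity⟩
  simp only [mem_ofPred_eq] at k1 k2
  have p0 : 0 < q ⬝ᵥ q := (pos_iff_pos_of_mul_pos ((sq_nonneg _).trans_lt k1)).1 (by positivity)
  obtain ⟨r, hr, e1, e2⟩ := unit_of p0
  have lt : ∀ {t μ : ℝ}, 0 < μ → t ^ 2 < μ ^ 2 * (q ⬝ᵥ q) → r * t < μ := fun {t μ} h k => by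
    refine lt_of_pow_lt_pow_left₀ 2 h.le ?_
    have := mul_lt_mul_of_pos_left k (mul_pos hr hr)
    calc (r * t) ^ 2 = r * r * t ^ 2 := by ring
      _ < r * r * (μ ^ 2 * (q ⬝ᵥ q)) := this
      _ = μ ^ 2 := by linear_combination μ ^ 2 * e1
  refine ⟨r • q, e2, ?_, ?_, fun v => dot_lt e2 (h1 v) fun e => hq ⟨(v, r⁻¹), ?_⟩⟩
  · rw [smul_dotProduct]; exact lt hμ k1
  · rw [smul_dotProduct]; exact lt hν k2
  · simp only [← e, smul_smul, inv_mul_cancel₀ hr.ne', one_smul]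

lemma fr_dot {u p : V3} (hu : u ⬝ᵥ u = 1) (hp : p ⬝ᵥ p = 1) (h : p ⬝ᵥ u = 0) (x y : V3) :
    u ⬝ᵥ x * u ⬝ᵥ y + (u ⨯₃ p) ⬝ᵥ x * (u ⨯₃ p) ⬝ᵥ y + p ⬝ᵥ x * p ⬝ᵥ y = x ⬝ᵥ y := by
  have e : (u ⨯₃ p) ⬝ᵥ x * (u ⨯₃ p) ⬝ᵥ y =
      u ⬝ᵥ u * (p ⬝ᵥ p * x ⬝ᵥ y - p ⬝ᵥ x * p ⬝ᵥ y) - p ⬝ᵥ u * (p ⬝ᵥ u * x ⬝ᵥ y - u ⬝ᵥ x * p ⬝ᵥ y) +
        u ⬝ᵥ y * (p ⬝ᵥ u * p ⬝ᵥ x - u ⬝ᵥ x * p ⬝ᵥ p) := by
    simp [cross_apply, dotProduct, Fin.sum_univ_three]; ring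
  rw [e, hu, hp, h]; ring

lemma fr_det {u p : V3} (hu : u ⬝ᵥ u = 1) (hp : p ⬝ᵥ p = 1) (h : p ⬝ᵥ u = 0) (m x y : V3) :
    u ⬝ᵥ m * ((u ⨯₃ p) ⬝ᵥ x * p ⬝ᵥ y - p ⬝ᵥ x * (u ⨯₃ p) ⬝ᵥ y) +
      (u ⨯₃ p) ⬝ᵥ m * (p ⬝ᵥ x * u ⬝ᵥ y - u ⬝ᵥ x * p ⬝ᵥ y) +
      p ⬝ᵥ m * (u ⬝ᵥ x * (u ⨯₃ p) ⬝ᵥ y - (u ⨯₃ p) ⬝ᵥ x * u ⬝ᵥ y) = -(m ⬝ᵥ (x ⨯₃ y)) := by
  have e : u ⬝ᵥ m * ((u ⨯₃ p) ⬝ᵥ x * p ⬝ᵥ y - p ⬝ᵥ x * (u ⨯₃ p) ⬝ᵥ y) +
      (u ⨯₃ p) ⬝ᵥ m * (p ⬝ᵥ x * u ⬝ᵥ y - u ⬝ᵥ x * p ⬝ᵥ y) +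
      p ⬝ᵥ m * (u ⬝ᵥ x * (u ⨯₃ p) ⬝ᵥ y - (u ⨯₃ p) ⬝ᵥ x * u ⬝ᵥ y) =
      -((u ⬝ᵥ u * p ⬝ᵥ p - p ⬝ᵥ u * p ⬝ᵥ u) * m ⬝ᵥ (x ⨯₃ y)) := by
    simp [cross_apply, dotProduct, Fin.sum_univ_three]; ring
  rw [e, hu, hp, h]; ring

/-- Two empty caps touching on the same side in interlaced pairs of points. -/
theorem caps0 {w w' : ℝ} (hd : ∀ v, HasDerivAt g (g1 v) v) (hc : Continuous g1)
    (h1 : ∀ v, g v ⬝ᵥ g v = 1) (h0 : ∀ v, g1 v ≠ 0)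
    (hinj : ∀ s t, g s = g t → |s - t| < τ → s = t)
    (haw : a < w) (hwb : w < b) (hbw : b < w') (hwa : w' < a + τ) {m n : V3} {μ ν : ℝ}
    (hμ : 0 < μ) (hν : 0 < ν) (H1 : ∀ s, m ⬝ᵥ g s ≤ μ) (Ea : m ⬝ᵥ g a = μ) (Eb : m ⬝ᵥ g b = μ)
    (H2 : ∀ s, n ⬝ᵥ g s ≤ ν) (Ew : n ⬝ᵥ g w = ν) (Ew' : n ⬝ᵥ g w' = ν) (hw : m ⬝ᵥ g w ≠ μ)
    (l1 : 0 < m ⬝ᵥ (g b ⨯₃ g1 b)) (l2 : 0 < n ⬝ᵥ (g w ⨯₃ g1 w)) : False := by
  obtain ⟨p, hp, pm, pn, pg⟩ := ex_pole hd hc h1 (m := m) (n := n) hμ hν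
  obtain ⟨q, q1, q2, -⟩ := ex_perp p p
  obtain ⟨r, -, -, hu⟩ := unit_of (self_pos q1)
  have h : p ⬝ᵥ (r • q) = 0 := by rw [dotProduct_smul, q2, smul_zero]
  generalize r • q = u at hu h
  have F := fr_dot hu hp h
  have D := fr_det hu hp h
  refine coord (τ := τ) (hd_dot hd u) (hd_dot hd (u ⨯₃ p)) (hd_dot hd p) (by fun_prop)
    (by fun_prop) (by fun_prop) (fun v => (F _ _).trans (h1 v)) pg
    (fun v => (self_pos (h0 v)).trans_eq (F _ _).symm) (fun s t e1 e2 e3 => hinj s t ?_)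
    haw hwb hbw hwa (m1 := u ⬝ᵥ m) (m2 := (u ⨯₃ p) ⬝ᵥ m) (n1 := u ⬝ᵥ n) (n2 := (u ⨯₃ p) ⬝ᵥ n)
    pm pn (fun s => (F _ _).trans_le (H1 s)) ((F _ _).trans Ea) ((F _ _).trans Eb)
    (fun s => (F _ _).trans_le (H2 s)) ((F _ _).trans Ew) ((F _ _).trans Ew')
    (fun e => hw ((F _ _).symm.trans e)) ((D _ _ _).trans_lt (neg_lt_zero.2 l1))
    ((D _ _ _).trans_lt (neg_lt_zero.2 l2))
  by_contra hn
  have k := F (g s) (g t)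
  rw [e1, e2, e3, F, h1] at k
  exact (dot_lt (h1 s) (h1 t) hn).ne k.symm

theorem caps1 {w w' ε : ℝ} (hd : ∀ v, HasDerivAt g (g1 v) v) (hc : Continuous g1)
    (h1 : ∀ v, g v ⬝ᵥ g v = 1) (h0 : ∀ v, g1 v ≠ 0)
    (hinj : ∀ s t, g s = g t → |s - t| < τ → s = t)
    (haw : a < w) (hwb : w < b) (hbw : b < w') (hwa : w' < a + τ) {m n : V3} {μ ν : ℝ}
    (hμ : 0 < μ) (hν : 0 < ν) (H1 : ∀ s, m ⬝ᵥ g s ≤ μ) (Ea : m ⬝ᵥ g a = μ) (Eb : m ⬝ᵥ g b = μ)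
    (H2 : ∀ s, n ⬝ᵥ g s ≤ ν) (Ew : n ⬝ᵥ g w = ν) (Ew' : n ⬝ᵥ g w' = ν) (hw : m ⬝ᵥ g w ≠ μ)
    (l1 : 0 < ε * m ⬝ᵥ (g b ⨯₃ g1 b)) (l2 : 0 < ε * n ⬝ᵥ (g w ⨯₃ g1 w)) : False := by
  rcases lt_trichotomy ε 0 with e | e | e
  · refine caps0 (g := fun s => -g s) (g1 := fun s => -g1 s) (τ := τ) (fun v => (hd v).neg) hc.neg
      (by simpa using h1) (by simpa using h0) (fun s t k => hinj s t (neg_injective k))
      haw hwb hbw hwa (m := -m) (n := -n) hμ hν (by simpa using H1) (by simpa using Ea)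
      (by simpa using Eb) (by simpa using H2) (by simpa using Ew) (by simpa using Ew')
      (by simpa using hw) ?_ ?_
    · simpa using neg_of_mul_pos_right l1 e.le
    · simpa using neg_of_mul_pos_right l2 e.le
  · simp [e] at l1
  · exact caps0 hd hc h1 h0 hinj haw hwb hbw hwa hμ hν H1 Ea Eb H2 Ew Ew' hw
      ((pos_iff_pos_of_mul_pos l1).1 e) ((pos_iff_pos_of_mul_pos l2).1 e)

theorem caps2 {w w' ε : ℝ} (hd : ∀ v, HasDerivAt g (g1 v) v) (hc : Continuous g1)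
    (h1 : ∀ v, g v ⬝ᵥ g v = 1) (h0 : ∀ v, g1 v ≠ 0)
    (hinj : ∀ s t, g s = g t → |s - t| < τ → s = t)
    (haw : a < w) (hwb : w < b) (hbw : w' < a) (hwa : b < w' + τ) {m n : V3} {μ ν : ℝ}
    (hμ : 0 < μ) (hν : 0 < ν) (H1 : ∀ s, m ⬝ᵥ g s ≤ μ) (Ea : m ⬝ᵥ g a = μ) (Eb : m ⬝ᵥ g b = μ)
    (H2 : ∀ s, n ⬝ᵥ g s ≤ ν) (Ew : n ⬝ᵥ g w = ν) (Ew' : n ⬝ᵥ g w' = ν) (hw : m ⬝ᵥ g w ≠ μ)
    (l1 : 0 < ε * m ⬝ᵥ (g a ⨯₃ g1 a)) (l2 : 0 < ε * n ⬝ᵥ (g w ⨯₃ g1 w)) : False := by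
  refine caps1 (g := fun s => g (-s)) (g1 := fun s => -g1 (-s)) (τ := τ) (ε := -ε) (a := -b)
    (b := -a) (w := -w) (w' := -w') (fun v => ?_) (by fun_prop) (fun v => h1 _)
    (fun v => neg_ne_zero.2 (h0 _))
    (fun s t e h => neg_injective (hinj _ _ e (by rwa [neg_sub_neg, abs_sub_comm])))
    (by linarith) (by linarith) (by linarith) (by linarith) hμ hν (fun s => H1 _)
    (by simpa using Eb) (by simpa using Ea) (fun s => H2 _) (by simpa using Ew)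
    (by simpa using Ew') (by simpa using hw) ?_ ?_
  · simpa [Function.comp_def] using (hd (-v)).scomp v (hasDerivAt_neg v)
  · simpa only [neg_neg, map_neg, dotProduct_neg, neg_mul_neg] using l1
  · simpa only [neg_neg, map_neg, dotProduct_neg, neg_mul_neg] using l2

/-- Shrinking a cap that meets the curve until it touches a second time. -/
lemma touch (hτ : 0 < τ) (hg : Continuous g) (hp : Function.Periodic g τ)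
    (hinj : ∀ s t, g s = g t → |s - t| < τ → s = t) (h1 : ∀ v, g v ⬝ᵥ g v = 1) {N : V3}
    {c d v : ℝ} (hd : 0 < d) (hN : N ⬝ᵥ g v = c)
    (hloc : ∀ s, s ≠ v → |s - v| < d → N ⬝ᵥ g s < c) (hbig : ∃ s, c < N ⬝ᵥ g s) :
    ∃ l : ℝ, 0 < l ∧ (∀ s, (N + l • g v) ⬝ᵥ g s ≤ c + l) ∧
      ∃ s, v < s ∧ s < v + τ ∧ (N + l • g v) ⬝ᵥ g s = c + l := by
  have red : ∀ s, N ⬝ᵥ g s ≤ c ∨ ∃ t ∈ Icc (v + d / 2) (v + τ - d / 2), g s = g t := fun s => by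
    obtain ⟨t, ht, e⟩ := hp.exists_mem_Ico hτ s (v - d / 2)
    by_cases k : v + d / 2 ≤ t
    · exact Or.inr ⟨t, ⟨k, by linarith [ht.2]⟩, e⟩
    · left
      rw [e]
      by_cases k' : t = v
      · rw [k', hN]
      · exact (hloc t k' (abs_lt.2 ⟨by linarith [ht.1], by linarith⟩)).le
  have pos : ∀ t ∈ Icc (v + d / 2) (v + τ - d / 2), 0 < 1 - g v ⬝ᵥ g t := fun t ht =>
    sub_pos.2 (dot_lt (h1 v) (h1 t) fun e => absurd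
      (hinj _ _ e (abs_lt.2 ⟨by linarith [ht.2], by linarith [ht.1]⟩)) (by linarith [ht.1]))
  obtain ⟨s0, hs0⟩ := hbig
  obtain ⟨t0, ht0, e0⟩ := (red s0).resolve_left hs0.not_ge
  obtain ⟨s, hs, hmax⟩ := isCompact_Icc.exists_isMaxOn ⟨t0, ht0⟩
    (f := fun t => (N ⬝ᵥ g t - c) / (1 - g v ⬝ᵥ g t))
    (ContinuousOn.div (by fun_prop) (by fun_prop) fun t ht => (pos t ht).ne')
  have l0 : 0 < (N ⬝ᵥ g s - c) / (1 - g v ⬝ᵥ g s) :=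
    (div_pos (by rw [← e0]; linarith) (pos t0 ht0)).trans_le (hmax ht0)
  refine ⟨_, l0, fun r => ?_, s, by linarith [hs.1], by linarith [hs.2], ?_⟩
  · rw [add_dotProduct, smul_dotProduct, smul_eq_mul]
    rcases red r with k | ⟨t, ht, e⟩
    · have := mul_le_mul_of_nonneg_left (dot_le (h1 v) (h1 r)) l0.le
      linarith
    · have := (div_le_iff₀ (pos t ht)).1 (hmax ht)
      rw [e]
      linarith
  · have := div_mul_cancel₀ (N ⬝ᵥ g s - c) (pos s hs).ne'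
    rw [add_dotProduct, smul_dotProduct, smul_eq_mul]
    linarith

theorem pestov_ionin {g g1 N : ℝ → V3} {τ c ε : ℝ} (hτ : 0 < τ) (hc : 0 < c)
    (hd : ∀ v, HasDerivAt g (g1 v) v) (hcont : Continuous g1) (hp : ∀ v, g (v + τ) = g v)
    (hs : ∀ v v2, g v = g v2 → ∃ k : ℤ, v2 = v + k * τ) (h1 : ∀ v, g v ⬝ᵥ g v = 1)
    (hN : ∀ v, N v ⬝ᵥ g v = c) (hside : ∀ v, 0 < ε * (N v ⬝ᵥ (g v ⨯₃ g1 v)))
    (hloc : ∃ d > 0, ∀ v v2, v2 ≠ v → |v2 - v| < d → N v ⬝ᵥ g v2 < c) :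
    ∃ v, ∀ v2, N v ⬝ᵥ g v2 ≤ c := by
  by_contra H
  push Not at H
  obtain ⟨d, d0, hloc⟩ := hloc
  have hinj : ∀ s t, g s = g t → |s - t| < τ → s = t := fun s t e h => by
    obtain ⟨k, rfl⟩ := hs s t e
    rw [sub_add_cancel_left, abs_neg, abs_mul, abs_of_pos hτ, mul_lt_iff_lt_one_left hτ] at h
    have : k = 0 := Int.abs_lt_one_iff.1 (by exact_mod_cast h)
    simp [this]
  have h0 : ∀ v, g1 v ≠ 0 := fun v e => by simpa [e] using hside v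
  choose l l0 hl hl' using fun v => touch hτ (continuous_iff_continuousAt.2 fun v =>
    (hd v).continuousAt) hp hinj h1 d0 (hN v) (hloc v) (H v)
  have E : ∀ v, (N v + l v • g v) ⬝ᵥ g v = c + l v := fun v => by
    rw [add_dotProduct, smul_dotProduct, hN, h1, smul_eq_mul, mul_one]
  have L : ∀ v, 0 < ε * (N v + l v • g v) ⬝ᵥ (g v ⨯₃ g1 v) := fun v => by
    rw [add_dotProduct, smul_dotProduct, dot_self_cross, smul_zero, add_zero]; exact hside v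
  have P : ∀ v, 0 < c + l v := fun v => add_pos hc (l0 v)
  generalize hm : (fun v => N v + l v • g v) = m
  have em : ∀ v, N v + l v • g v = m v := fun v => congrFun hm v
  let S : Set ℝ := {r | ∃ v s, m v ⬝ᵥ g s = c + l v ∧ s ≠ v ∧ r = |s - v|}
  have lb : ∀ r ∈ S, d ≤ r := by
    rintro r ⟨v, s, e, hn, rfl⟩
    by_contra k
    have k1 := hloc v s hn (not_le.1 k)
    have k2 := mul_le_mul_of_nonneg_left (dot_le (h1 v) (h1 s)) (l0 v).le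
    rw [← em, add_dotProduct, smul_dotProduct, smul_eq_mul] at e
    linarith
  simp only [em] at hl hl' E L
  have inf : ∀ v s, m v ⬝ᵥ g s = c + l v → s ≠ v → sInf S ≤ |s - v| := fun v s e hn =>
    csInf_le ⟨d, lb⟩ ⟨v, s, e, hn, rfl⟩
  obtain ⟨s0, k1, k2, k3⟩ := hl' 0
  have ne : S.Nonempty := ⟨_, 0, s0, k3, k1.ne', rfl⟩
  have i0 : d ≤ sInf S := le_csInf ne lb
  have i1 : sInf S < τ := (inf 0 s0 k3 k1.ne').trans_lt (abs_lt.2 ⟨by linarith, by linarith⟩)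
  obtain ⟨r, ⟨v, s, e, hn, rfl⟩, hr⟩ := exists_lt_of_csInf_lt ne
    (lt_min (show sInf S < 2 * sInf S by linarith) i1)
  rw [lt_min_iff, abs_lt, abs_lt] at hr
  have hw : m v ⬝ᵥ g ((v + s) / 2) ≠ c + l v := fun k =>
    (inf v _ k fun k' => hn (by linarith)).not_gt
      (abs_lt.2 ⟨by linarith [hr.1.1], by linarith [hr.1.2]⟩)
  obtain ⟨t, t1, t2, t3⟩ := hl' ((v + s) / 2)
  have far : ∀ t', g t = g t' → sInf S ≤ |t' - (v + s) / 2| := fun t' k =>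
    inf _ t' (k ▸ t3) fun k' => t1.ne'
      (hinj _ _ (k' ▸ k) (abs_lt.2 ⟨by linarith, by linarith⟩))
  rcases lt_or_gt_of_ne hn with h | h
  · obtain ⟨t', ht, k⟩ := Function.Periodic.exists_mem_Ico hp hτ t s
    refine caps1 hd hcont h1 h0 hinj (a := s) (b := v) (w := (v + s) / 2) (w' := t')
      (by linarith) (by linarith) (lt_of_not_ge fun k' => (far t' k).not_gt ?_) ht.2 (P v) (P _)
      (hl v) e (E v) (hl _) (E _) (k ▸ t3) hw (L v) (L _)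
    exact abs_lt.2 ⟨by linarith [hr.1.1, ht.1], by linarith [hr.1.1]⟩
  · obtain ⟨t', ht, k⟩ := Function.Periodic.exists_mem_Ioc hp hτ t (s - τ)
    refine caps2 hd hcont h1 h0 hinj (a := v) (b := s) (w := (v + s) / 2) (w' := t')
      (by linarith) (by linarith) (lt_of_not_ge fun k' => (far t' k).not_gt ?_)
      (by linarith [ht.1]) (P v) (P _) (hl v) (E v) e (hl _) (E _) (k ▸ t3) hw (L v) (L _)
    exact abs_lt.2 ⟨by linarith [hr.1.2], by linarith [hr.1.2, ht.2]⟩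

end Pool.Agent.Lib.MP_c7e804_gt.PI
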