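import Mathlib

/-!
Winding angle of a closed curve made of an arc and a chord.
-/

namespace Pool.Agent.Lib.MP_c7e804_gt.PI

open Set Filter Topology Complex
open scoped ComplexConjugate

/-- Angle swept by the arc `z [a, b]` seen from `y`. -/
noncomputable def sw (z z' : ℝ → ℂ) (a b : ℝ) (y : ℂ) : ℝ := ∫ s in a..b, (z' s / (z s - y)).im

/-- Winding angle of the arc closed up by its chord. -/
noncomputable def wd (z z' : ℝ → ℂ) (a b : ℝ) (y : ℂ) : ℝ :=
  sw z z' a b y + arg ((z a - y) / (z b - y))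

/-- The closed curve. -/
def lp (z : ℝ → ℂ) (a b : ℝ) : Set ℂ := z '' Icc a b ∪ segment ℝ (z a) (z b)

variable {z z' : ℝ → ℂ} {a b : ℝ}

lemma cont_of (hd : ∀ v, HasDerivAt z (z' v) v) : Continuous z :=
  continuous_iff_continuousAt.2 fun v => (hd v).continuousAt

lemma q_contOn (hd : ∀ v, HasDerivAt z (z' v) v) (hc : Continuous z') {y : ℂ} {S : Set ℝ}
    (h : ∀ s ∈ S, z s ≠ y) : ContinuousOn (fun s => z' s / (z s - y)) S :=
  hc.continuousOn.div ((cont_of hd).sub continuous_const).continuousOn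
    fun s hs => sub_ne_zero.2 (h s hs)

lemma sw_eq (hd : ∀ v, HasDerivAt z (z' v) v) (hc : Continuous z') {y : ℂ}
    (h : ∀ s ∈ uIcc a b, z s ≠ y) : sw z z' a b y = (∫ s in a..b, z' s / (z s - y)).im :=
  Complex.imCLM.intervalIntegral_comp_comm (q_contOn hd hc h).intervalIntegrable

lemma sw_add (hd : ∀ v, HasDerivAt z (z' v) v) (hc : Continuous z') {y : ℂ} {m : ℝ}
    (h1 : ∀ s ∈ uIcc a m, z s ≠ y) (h2 : ∀ s ∈ uIcc m b, z s ≠ y) :
    sw z z' a b y = sw z z' a m y + sw z z' m b y :=
  (intervalIntegral.integral_add_adjacent_intervals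
    (continuous_im.comp_continuousOn (q_contOn hd hc h1)).intervalIntegrable
    (continuous_im.comp_continuousOn (q_contOn hd hc h2)).intervalIntegrable).symm

lemma sw_arg (hd : ∀ v, HasDerivAt z (z' v) v) (hc : Continuous z') {y k : ℂ}
    (h : ∀ s ∈ uIcc a b, (z s - y) * k ∈ slitPlane) :
    sw z z' a b y = arg ((z b - y) * k) - arg ((z a - y) * k) := by
  have h0 : ∀ s ∈ uIcc a b, z s ≠ y := fun s hs e => by
    have := slitPlane_ne_zero (h s hs); simp [e] at this
  rw [sw_eq hd hc h0, intervalIntegral.integral_eq_sub_of_hasDerivAt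
    (f := fun s => Complex.log ((z s - y) * k)) (fun s hs => ?_)
    (q_contOn hd hc h0).intervalIntegrable]
  · simp [Complex.log_im]
  · have hk : k ≠ 0 := fun e => by have := slitPlane_ne_zero (h s hs); simp [e] at this
    have h1 := (((hd s).sub_const y).mul_const k).clog_real (h s hs)
    rwa [mul_div_mul_right _ _ hk] at h1

lemma sw_exp (hab : a ≤ b) (hd : ∀ v, HasDerivAt z (z' v) v) (hc : Continuous z') {y : ℂ}
    (h : ∀ s ∈ Icc a b, z s ≠ y) :
    cexp (∫ s in a..b, z' s / (z s - y)) = (z b - y) / (z a - y) := by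
  have cq := q_contOn hd hc h
  have mq : Measurable fun s => z' s / (z s - y) :=
    hc.measurable.div ((cont_of hd).sub continuous_const).measurable
  have hL : ∀ x ∈ Icc a b, HasDerivAt (fun x => ∫ s in a..x, z' s / (z s - y))
      (z' x / (z x - y)) x := fun x hx =>
    intervalIntegral.integral_hasDerivAt_right
      ((cq.mono (by rw [uIcc_of_le hx.1]; exact Icc_subset_Icc_right hx.2)).intervalIntegrable)
      mq.stronglyMeasurable.stronglyMeasurableAtFilter
      (hc.continuousAt.div ((cont_of hd).sub continuous_const).continuousAt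
        (sub_ne_zero.2 (h x hx)))
  have hF : ∀ x ∈ Icc a b,
      HasDerivAt (fun x => (z x - y) * cexp (-∫ s in a..x, z' s / (z s - y))) 0 x := fun x hx => by
    have h1 := ((hd x).sub_const y).mul (hL x hx).neg.cexp
    have h2 := sub_ne_zero.2 (h x hx)
    refine h1.congr_deriv ?_
    simp only [Pi.neg_apply]
    field_simp
    ring
  have e := constant_of_has_deriv_right_zero
    (fun x hx => (hF x hx).continuousAt.continuousWithinAt)
    (fun x hx => (hF x (Ico_subset_Icc_self hx)).hasDerivWithinAt) b (right_mem_Icc.2 hab)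
  simp only [intervalIntegral.integral_same, neg_zero, Complex.exp_zero, mul_one,
    Complex.exp_neg] at e
  have h2 := sub_ne_zero.2 (h a (left_mem_Icc.2 hab))
  rw [eq_div_iff h2, ← e]
  field_simp

lemma wd_int (hab : a ≤ b) (hd : ∀ v, HasDerivAt z (z' v) v) (hc : Continuous z') {y : ℂ}
    (h : ∀ s ∈ Icc a b, z s ≠ y) : ∃ n : ℤ, wd z z' a b y = n * (2 * Real.pi) := by
  have e := sw_exp hab hd hc h
  have ha := sub_ne_zero.2 (h a (left_mem_Icc.2 hab))
  have hb := sub_ne_zero.2 (h b (right_mem_Icc.2 hab))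
  have e2 : cexp ((∫ s in a..b, z' s / (z s - y)) + Complex.log ((z a - y) / (z b - y))) = 1 := by
    rw [Complex.exp_add, e, Complex.exp_log (div_ne_zero ha hb)]
    field_simp
  obtain ⟨n, hn⟩ := Complex.exp_eq_one_iff.1 e2
  refine ⟨n, ?_⟩
  have := congrArg Complex.im hn
  unfold wd
  rw [sw_eq hd hc (by rwa [uIcc_of_le hab])]
  simpa [Complex.log_im] using this

lemma sw_cont (hab : a ≤ b) (hd : ∀ v, HasDerivAt z (z' v) v) (hc : Continuous z') :
    ContinuousOn (sw z z' a b) (z '' Icc a b)ᶜ := by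
  rw [continuousOn_iff_continuous_domRestrict]
  have cp : Continuous fun s => (projIcc a b hab s : ℝ) :=
    continuous_subtype_val.comp continuous_projIcc
  have c1 : Continuous fun p : ↥(z '' Icc a b)ᶜ × ℝ =>
      (z' (projIcc a b hab p.2) / (z (projIcc a b hab p.2) - p.1)).im := by
    refine continuous_im.comp (Continuous.div (hc.comp (cp.comp continuous_snd))
      (((cont_of hd).comp (cp.comp continuous_snd)).sub
        (continuous_subtype_val.comp continuous_fst)) fun p => sub_ne_zero.2 fun e => ?_)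
    exact p.1.2 ⟨_, (projIcc a b hab p.2).2, e⟩
  have c2 := intervalIntegral.continuous_parametric_intervalIntegral_of_continuous'
    (μ := MeasureTheory.volume)
    (f := fun (y : ↥(z '' Icc a b)ᶜ) (s : ℝ) =>
      (z' (projIcc a b hab s) / (z (projIcc a b hab s) - y)).im) c1 a b
  refine c2.congr fun y => intervalIntegral.integral_congr fun s hs => ?_
  rw [uIcc_of_le hab] at hs
  simp only [projIcc_of_mem hab hs]

lemma sw_contAt (hab : a ≤ b) (hd : ∀ v, HasDerivAt z (z' v) v) (hc : Continuous z') {y : ℂ}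
    (h : ∀ s ∈ Icc a b, z s ≠ y) : ContinuousAt (sw z z' a b) y :=
  (sw_cont hab hd hc).continuousAt
    ((isCompact_Icc.image (cont_of hd)).isClosed.isOpen_compl.mem_nhds fun ⟨s, hs, e⟩ => h s hs e)

lemma chord_contAt {p q y : ℂ} (h : y ∉ segment ℝ p q) :
    ContinuousAt (fun y => arg ((p - y) / (q - y))) y := by
  have hq : q - y ≠ 0 := sub_ne_zero.2 fun e => h (e ▸ right_mem_segment ℝ p q)
  refine (continuousAt_arg ?_).comp (f := fun y => (p - y) / (q - y))
    ((continuousAt_const.sub continuousAt_id).div (continuousAt_const.sub continuousAt_id) hq)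
  by_contra hn
  rw [mem_slitPlane_iff, not_or, not_lt, not_ne_iff] at hn
  obtain ⟨t, ht, e⟩ : ∃ t : ℝ, 0 ≤ t ∧ p - y = -t * (q - y) :=
    ⟨-((p - y) / (q - y)).re, by linarith [hn.1], by
      rw [← div_eq_iff hq]; exact Complex.ext (by simp) (by simpa using hn.2)⟩
  have h1 : (1 + t : ℝ) ≠ 0 := by positivity
  have h2 : (1 + t : ℂ) ≠ 0 := by exact_mod_cast h1
  refine h ⟨1 / (1 + t), t / (1 + t), by positivity, by positivity, by field_simp, ?_⟩
  simp only [real_smul]
  push_cast
  field_simp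
  linear_combination e

lemma wd_contAt (hab : a ≤ b) (hd : ∀ v, HasDerivAt z (z' v) v) (hc : Continuous z') {y : ℂ}
    (h : y ∉ lp z a b) : ContinuousAt (wd z z' a b) y :=
  (sw_contAt hab hd hc fun s hs e => h (Or.inl ⟨s, hs, e⟩)).add
    (chord_contAt fun e => h (Or.inr e))

/-- The winding angle is constant along connected families off the curve. -/
lemma wd_const (hab : a ≤ b) (hd : ∀ v, HasDerivAt z (z' v) v) (hc : Continuous z')
    {X : Type} [TopologicalSpace X] {S : Set X} (hS : IsPreconnected S) {f : X → ℂ}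
    (hf : ContinuousOn f S) (h : ∀ x ∈ S, f x ∉ lp z a b) {x x' : X} (hx : x ∈ S) (hx' : x' ∈ S) :
    wd z z' a b (f x) = wd z z' a b (f x') := by
  have hw : ContinuousOn (fun x => wd z z' a b (f x) / (2 * Real.pi)) S := fun x hx =>
    ((wd_contAt hab hd hc (h x hx)).comp_continuousWithinAt (hf x hx)).div_const _
  have hpi : (2 * Real.pi) ≠ 0 := by positivity
  have := hS.constant_of_mapsTo (T := range ((↑) : ℤ → ℝ))
    Int.isClosedEmbedding_coe_real.isInducing.isDiscrete_range hw (fun x hx => by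
      obtain ⟨n, hn⟩ := wd_int hab hd hc (y := f x) fun s hs e => h x hx (Or.inl ⟨s, hs, e⟩)
      exact ⟨n, by simp only [hn]; field_simp⟩) hx hx'
  exact (div_left_inj' hpi).1 this

end Pool.Agent.Lib.MP_c7e804_gt.PI
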