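import Pool.Agent.Lib.MP_c7e804_gt.H60PI1

/-!
Two chords of a simple arc on the same side, with interlaced end points, must cross.
-/

namespace Pool.Agent.Lib.MP_c7e804_gt.PI

open Set Filter Topology Complex
open scoped ComplexConjugate

variable {z z' : ℝ → ℂ} {a b : ℝ}

/-- Mean of the derivative. -/
noncomputable def mn (z' : ℝ → ℂ) (s t : ℝ) : ℂ := ∫ r in (0 : ℝ)..1, z' (s + r * (t - s))

lemma mn_cont (hc : Continuous z') : Continuous fun p : ℝ × ℝ => mn z' p.1 p.2 :=
  intervalIntegral.continuous_parametric_intervalIntegral_of_continuous'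
    (f := fun (p : ℝ × ℝ) r => z' (p.1 + r * (p.2 - p.1))) (by fun_prop) 0 1

lemma mn_mul (hd : ∀ v, HasDerivAt z (z' v) v) (hc : Continuous z') (s t : ℝ) :
    z t - z s = ((t - s : ℝ) : ℂ) * mn z' s t := by
  have h : ∀ r, HasDerivAt (fun r : ℝ => z (s + r * (t - s)))
      (((t - s : ℝ) : ℂ) * z' (s + r * (t - s))) r := fun r => by
    have := (hd (s + r * (t - s))).scomp r (((hasDerivAt_id r).mul_const (t - s)).const_add s)
    simpa [Function.comp_def] using this
  have := intervalIntegral.integral_eq_sub_of_hasDerivAt (a := 0) (b := 1) (fun r _ => h r)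
    (Continuous.intervalIntegrable (by fun_prop) _ _)
  rw [intervalIntegral.integral_const_mul] at this
  simpa [mn] using this.symm

lemma mn_self (z' : ℝ → ℂ) (s : ℝ) : mn z' s s = z' s := by simp [mn]

lemma lim_dir (hd : ∀ v, HasDerivAt z (z' v) v) (hc : Continuous z') {w p q : ℝ} {d : ℂ}
    (hap : a ≤ p) (hpw : p < w) (hwq : w < q) (hqb : q ≤ b)
    (hinj : ∀ s ∈ Icc a b, z s = z w → s = w) (hseg : z w ∉ segment ℝ (z a) (z b)) (hd0 : d ≠ 0)
    (hne : ∀ s ∈ Icc p q, ((z s - z w) * conj d).im = 0 → s = w) :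
    Tendsto (fun ε : ℝ => wd z z' a b (z w + ε * d)) (𝓝[>] 0)
      (𝓝 (sw z z' a p (z w) + (arg ((z q - z w) * -conj d) - arg ((z p - z w) * -conj d)) +
        sw z z' q b (z w) + arg ((z a - z w) / (z b - z w)))) := by
  have h1 : ∀ s ∈ Icc a p, z s ≠ z w := fun s hs e =>
    absurd (hinj s ⟨hs.1, by linarith [hs.2]⟩ e) (by linarith [hs.2])
  have h2 : ∀ s ∈ Icc q b, z s ≠ z w := fun s hs e =>
    absurd (hinj s ⟨by linarith [hs.1], hs.2⟩ e) (by linarith [hs.1])
  have ty : Tendsto (fun ε : ℝ => z w + ε * d) (𝓝[>] 0) (𝓝 (z w)) := by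
    have : Continuous fun ε : ℝ => z w + ε * d := by fun_prop
    simpa using (this.tendsto 0).mono_left nhdsWithin_le_nhds
  have ta : ∀ s ∈ Icc p q, s ≠ w → Tendsto (fun ε : ℝ => arg ((z s - (z w + ε * d)) * -conj d))
      (𝓝[>] 0) (𝓝 (arg ((z s - z w) * -conj d))) := fun s hs hsw => by
    have c1 : ContinuousAt (fun y => arg ((z s - y) * -conj d)) (z w) :=
      (continuousAt_arg (Or.inr (by
        rw [mul_neg, neg_im, neg_ne_zero]; exact fun e => hsw (hne s hs e)))).comp
        (f := fun y => (z s - y) * -conj d) (by fun_prop)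
    exact c1.tendsto.comp ty
  have lim := ((((sw_contAt hap hd hc h1).tendsto.comp ty).add
    ((ta q ⟨by linarith, le_rfl⟩ hwq.ne').sub (ta p ⟨le_rfl, by linarith⟩ hpw.ne))).add
    ((sw_contAt hqb hd hc h2).tendsto.comp ty)).add ((chord_contAt hseg).tendsto.comp ty)
  refine lim.congr' ?_
  have o1 := ty.eventually
    ((isCompact_Icc.image (cont_of hd)).isClosed.isOpen_compl.mem_nhds fun ⟨s, hs, e⟩ => h1 s hs e)
  have o2 := ty.eventually
    ((isCompact_Icc.image (cont_of hd)).isClosed.isOpen_compl.mem_nhds fun ⟨s, hs, e⟩ => h2 s hs e)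
  filter_upwards [o1, o2, self_mem_nhdsWithin] with ε e1 e2 e3
  have hpq : p ≤ q := by linarith
  have sl : ∀ s ∈ uIcc p q, (z s - (z w + ε * d)) * -conj d ∈ slitPlane := fun s hs => by
    rw [uIcc_of_le hpq] at hs
    have e : (z s - (z w + ε * d)) * -conj d =
        -((z s - z w) * conj d) + ((ε * normSq d : ℝ) : ℂ) := by
      push_cast; rw [← Complex.mul_conj]; ring
    rw [e, mem_slitPlane_iff]
    by_cases hs0 : s = w
    · left
      have : 0 < ε * normSq d := mul_pos e3 (normSq_pos.2 hd0)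
      simpa [hs0] using this
    · right
      rw [add_im, ofReal_im, add_zero, neg_im, neg_ne_zero]
      exact fun e => hs0 (hne s hs e)
  have n1 : ∀ s ∈ uIcc a p, z s ≠ z w + ε * d := fun s hs e =>
    e1 ⟨s, by rwa [uIcc_of_le hap] at hs, e⟩
  have n2 : ∀ s ∈ uIcc p q, z s ≠ z w + ε * d := fun s hs e => by
    have := slitPlane_ne_zero (sl s hs); simp [e] at this
  have n3 : ∀ s ∈ uIcc q b, z s ≠ z w + ε * d := fun s hs e =>
    e2 ⟨s, by rwa [uIcc_of_le hqb] at hs, e⟩
  have n4 : ∀ s ∈ uIcc a q, z s ≠ z w + ε * d := fun s hs =>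
    (uIcc_subset_uIcc_union_uIcc hs).elim (n1 s) (n2 s)
  simp only [Function.comp, wd]
  rw [sw_add hd hc n4 n3, sw_add hd hc n1 n2, sw_arg hd hc sl]

lemma anti_dir (hd : ∀ v, HasDerivAt z (z' v) v) {w p q : ℝ} {d : ℂ}
    (h : ∀ s ∈ Icc p q, 0 < (d * conj (z' s)).im) :
    StrictAntiOn (fun s => ((z s - z w) * conj d).im) (Icc p q) := by
  have hD : ∀ s, HasDerivAt (fun s => ((z s - z w) * conj d).im) (z' s * conj d).im s := fun s =>
    imCLM.hasFDerivAt.comp_hasDerivAt s (((hd s).sub_const _).mul_const _)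
  refine strictAntiOn_of_deriv_neg (convex_Icc _ _)
    (fun s _ => (hD s).continuousAt.continuousWithinAt) fun s hs => ?_
  rw [(hD s).deriv]
  have := h s (interior_subset hs)
  simp only [mul_im, conj_re, conj_im] at this ⊢
  linarith

/-- The winding angle jumps across the arc. -/
lemma jump (hd : ∀ v, HasDerivAt z (z' v) v) (hc : Continuous z') {w : ℝ} {d d' : ℂ}
    (haw : a < w) (hwb : w < b) (hinj : ∀ s ∈ Icc a b, z s = z w → s = w)
    (hseg : z w ∉ segment ℝ (z a) (z b)) (h1 : 0 < (d * conj (z' w)).im)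
    (h2 : (d' * conj (z' w)).im < 0) {A B : ℝ}
    (hA : ∀ᶠ ε : ℝ in 𝓝[>] 0, wd z z' a b (z w + ε * d) = A)
    (hB : ∀ᶠ ε : ℝ in 𝓝[>] 0, wd z z' a b (z w + ε * d') = B) : B < A := by
  have ev : ∀ᶠ s in 𝓝 w, (a < s ∧ s < b) ∧ 0 < (d * conj (z' s)).im ∧
      0 < (-d' * conj (z' s)).im := by
    have c1 : Continuous fun s => (d * conj (z' s)).im := by fun_prop
    have c2 : Continuous fun s => (-d' * conj (z' s)).im := by fun_prop
    exact ((lt_mem_nhds haw).and (gt_mem_nhds hwb)).and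
      ((c1.continuousAt.eventually (lt_mem_nhds h1)).and
        (c2.continuousAt.eventually (lt_mem_nhds (by simpa using h2))))
  obtain ⟨η, hη, H⟩ := Metric.nhds_basis_closedBall.eventually_iff.1 ev
  rw [Real.closedBall_eq_Icc] at H
  have hp : w - η ∈ Icc (w - η) (w + η) := ⟨le_rfl, by linarith⟩
  have hq : w + η ∈ Icc (w - η) (w + η) := ⟨by linarith, le_rfl⟩
  have hw : w ∈ Icc (w - η) (w + η) := ⟨by linarith, by linarith⟩
  have a1 := anti_dir hd (w := w) fun s hs => (H hs).2.1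
  have a2 := anti_dir hd (w := w) fun s hs => (H hs).2.2
  have d0 : d ≠ 0 := fun e => by simp [e] at h1
  have d0' : d' ≠ 0 := fun e => by simp [e] at h2
  have L1 := lim_dir hd hc (H hp).1.1.le (by linarith) (by linarith) (H hq).1.2.le hinj hseg d0
    fun s hs e => a1.injOn hs hw (by simpa using e)
  have L2 := lim_dir hd hc (H hp).1.1.le (by linarith) (by linarith) (H hq).1.2.le hinj hseg d0'
    fun s hs e => a2.injOn hs hw (by
      simp only [map_neg, mul_neg, neg_im, e, sub_self, zero_mul, zero_im])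
  have eA := tendsto_nhds_unique (tendsto_const_nhds.congr' (hA.mono fun _ h => h.symm)) L1
  have eB := tendsto_nhds_unique (tendsto_const_nhds.congr' (hB.mono fun _ h => h.symm)) L2
  have s1 := a1 hw hq (by linarith)
  have s2 := a1 hp hw (by linarith)
  have s3 := a2 hw hq (by linarith)
  have s4 := a2 hp hw (by linarith)
  simp only [sub_self, zero_mul, zero_im, map_neg, mul_neg, neg_im] at s1 s2 s3 s4
  have t1 : 0 ≤ arg ((z (w + η) - z w) * -conj d) :=
    arg_nonneg_iff.2 (by rw [mul_neg, neg_im]; linarith)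
  have t2 : arg ((z (w - η) - z w) * -conj d) < 0 :=
    arg_neg_iff.2 (by rw [mul_neg, neg_im]; linarith)
  have t3 : arg ((z (w + η) - z w) * -conj d') < 0 :=
    arg_neg_iff.2 (by rw [mul_neg, neg_im]; linarith)
  have t4 : 0 ≤ arg ((z (w - η) - z w) * -conj d') :=
    arg_nonneg_iff.2 (by rw [mul_neg, neg_im]; linarith)
  linarith

/-- Points pushed to the right of the arc avoid the closed curve. -/
lemma push (hd : ∀ v, HasDerivAt z (z' v) v) (hc : Continuous z') (h0 : ∀ v, z' v ≠ 0)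
    {K : Set ℝ} (hK : IsCompact K) (hinj : ∀ s ∈ K, ∀ t ∈ Icc a b, z s = z t → s = t)
    (hseg : ∀ s ∈ K, z s ∈ segment ℝ (z a) (z b) → s = b)
    (hl : 0 < ((z a - z b) * conj (z' b)).im) :
    ∀ᶠ ε : ℝ in 𝓝 0, ∀ s ∈ K, 0 < ε → z s + ε * (-I * z' s) ∉ lp z a b := by
  have cz := cont_of hd
  have cm := mn_cont hc
  have pos : ∀ s, 0 < (z' s * conj (mn z' s s)).re := fun s => by
    rw [mn_self, Complex.mul_conj, ofReal_re]; exact normSq_pos.2 (h0 s)
  have E1 : ∀ᶠ ε : ℝ in 𝓝 0, ∀ p ∈ K ×ˢ Icc a b, 0 < ε → z p.1 + ε * (-I * z' p.1) ≠ z p.2 := by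
    refine (hK.prod isCompact_Icc).eventually_forall_of_forall_eventually fun p hp => ?_
    by_cases e : z p.1 = z p.2
    · have e' := hinj _ hp.1 _ hp.2 e
      have c1 : Continuous fun x : ℝ × ℝ × ℝ => (z' x.2.1 * conj (mn z' x.2.2 x.2.1)).re := by
        have : Continuous fun x : ℝ × ℝ × ℝ => mn z' x.2.2 x.2.1 :=
          cm.comp (f := fun x : ℝ × ℝ × ℝ => (x.2.2, x.2.1)) (by fun_prop)
        fun_prop
      refine (c1.continuousAt.eventually (lt_mem_nhds (show 0 < _ from ?_))).mono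
        fun x hx hε e1 => ?_
      · simp only [← e']; exact pos _
      · have e2 := mn_mul hd hc x.2.2 x.2.1
        have e3 : ((x.2.1 - x.2.2 : ℝ) : ℂ) * (normSq (mn z' x.2.2 x.2.1) : ℝ) =
            x.1 * (I * (z' x.2.1 * conj (mn z' x.2.2 x.2.1))) := by
          rw [← Complex.mul_conj]
          linear_combination (conj (mn z' x.2.2 x.2.1)) * (e1 - e2)
        have e4 := congrArg Complex.im e3
        simp only [mul_im, ofReal_re, ofReal_im, I_re, I_im, mul_zero, zero_mul, add_zero,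
          one_mul, zero_add] at e4
        exact absurd e4.symm (mul_pos hε hx).ne'
    · have c1 : Continuous fun x : ℝ × ℝ × ℝ => z x.2.1 + x.1 * (-I * z' x.2.1) - z x.2.2 := by
        fun_prop
      refine ((c1.continuousAt (x := ((0 : ℝ), p))).eventually_ne (y := 0)
        (by simpa [sub_eq_zero] using e)).mono fun x hx _ e1 => hx (sub_eq_zero.2 e1)
  have E2 : ∀ᶠ ε : ℝ in 𝓝 0, ∀ p ∈ K ×ˢ Icc (0 : ℝ) 1, 0 < ε → 0 ≤ p.2 →
      z p.1 + ε * (-I * z' p.1) ≠ z b + p.2 * (z a - z b) := by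
    refine (hK.prod isCompact_Icc).eventually_forall_of_forall_eventually fun p hp => ?_
    by_cases e : z p.1 = z b + p.2 * (z a - z b)
    · have e' : p.1 = b := hseg _ hp.1 ⟨p.2, 1 - p.2, hp.2.1, by linarith [hp.2.2], by ring, by
        rw [e]; simp only [real_smul]; push_cast; ring⟩
      have c0 : Continuous fun x : ℝ × ℝ × ℝ => mn z' b x.2.1 :=
        cm.comp (f := fun x : ℝ × ℝ × ℝ => (b, x.2.1)) (by fun_prop)
      have c1 : Continuous fun x : ℝ × ℝ × ℝ => (z' x.2.1 * conj (mn z' b x.2.1)).re := by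
        fun_prop
      have c2 : Continuous fun x : ℝ × ℝ × ℝ => ((z a - z b) * conj (mn z' b x.2.1)).im := by
        fun_prop
      refine ((c1.continuousAt.eventually (lt_mem_nhds (show 0 < _ from ?_))).and
        (c2.continuousAt.eventually (lt_mem_nhds (show 0 < _ from ?_)))).mono
        fun x hx hε hl' e1 => ?_
      · simp only [e']; exact pos _
      · simp only [e', mn_self]; exact hl
      · have e2 := mn_mul hd hc b x.2.1
        have e3 : ((x.2.1 - b : ℝ) : ℂ) * (normSq (mn z' b x.2.1) : ℝ) =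
            x.1 * (I * (z' x.2.1 * conj (mn z' b x.2.1))) +
              x.2.2 * ((z a - z b) * conj (mn z' b x.2.1)) := by
          rw [← Complex.mul_conj]
          linear_combination (conj (mn z' b x.2.1)) * (e1 - e2)
        have e4 := congrArg Complex.im e3
        have e5 := mul_pos hε hx.1
        have e6 := mul_nonneg hl' hx.2.le
        generalize (z a - z b) * conj (mn z' b x.2.1) = U at *
        generalize z' x.2.1 * conj (mn z' b x.2.1) = V at *
        simp only [add_im, mul_im, ofReal_re, ofReal_im, I_re, I_im, mul_zero, zero_mul, add_zero,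
          one_mul, zero_add] at e4
        linarith
    · have c1 : Continuous fun x : ℝ × ℝ × ℝ =>
          z x.2.1 + x.1 * (-I * z' x.2.1) - (z b + x.2.2 * (z a - z b)) := by fun_prop
      refine ((c1.continuousAt (x := ((0 : ℝ), p))).eventually_ne (y := 0)
        (by simpa [sub_eq_zero] using e)).mono fun x hx _ _ e1 => hx (sub_eq_zero.2 e1)
  filter_upwards [E1, E2] with ε e1 e2 s hs hε hm
  rcases hm with ⟨t, ht, e⟩ | ⟨p, q, hp, hq, hpq, e⟩
  · exact e1 (s, t) ⟨hs, ht⟩ hε e.symm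
  · refine e2 (s, p) ⟨hs, hp, by linarith⟩ hε hp ?_
    rw [← e, show q = 1 - p by linarith]
    simp only [real_smul]; push_cast; ring

/-- Non-crossing lemma. -/
theorem NC {τ w w' : ℝ} (hd : ∀ v, HasDerivAt z (z' v) v) (hc : Continuous z')
    (h0 : ∀ v, z' v ≠ 0) (hinj : ∀ s t, z s = z t → |s - t| < τ → s = t)
    (haw : a < w) (hwb : w < b) (hbw : b < w') (hwa : w' < a + τ)
    (h1 : ∀ s, z s ∈ segment ℝ (z a) (z b) → z s = z a ∨ z s = z b)
    (h2 : ∀ s, z s ∈ segment ℝ (z w) (z w') → z s = z w ∨ z s = z w')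
    (h3 : Disjoint (segment ℝ (z a) (z b)) (segment ℝ (z w) (z w')))
    (l1 : 0 < ((z a - z b) * conj (z' b)).im) (l2 : 0 < ((z w' - z w) * conj (z' w)).im) :
    False := by
  have hab : a ≤ b := by linarith
  have inj : ∀ s ∈ Icc w w', ∀ t ∈ Icc a b, z s = z t → s = t := fun s hs t ht e =>
    hinj s t e (abs_lt.2 ⟨by linarith [hs.1, ht.2], by linarith [hs.2, ht.1]⟩)
  have seg : ∀ s ∈ Icc w w', z s ∈ segment ℝ (z a) (z b) → s = b := fun s hs e => by
    rcases h1 s e with e | e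
    · exact absurd (inj s hs a (left_mem_Icc.2 hab) e) (by linarith [hs.1])
    · exact inj s hs b (right_mem_Icc.2 hab) e
  have hww : w ≤ w' := by linarith
  have hw := left_mem_Icc.2 hww
  have hw' := right_mem_Icc.2 hww
  have d0 : z w' - z w ≠ 0 := fun e => by simp [e] at l2
  have off : ∀ t ∈ Ioc (0 : ℝ) 1, z w + t * (z w' - z w) ∉ lp z a b := fun t ht hm => by
    have m : z w + t * (z w' - z w) ∈ segment ℝ (z w) (z w') :=
      ⟨1 - t, t, by linarith [ht.2], ht.1.le, by ring, by simp only [real_smul]; push_cast; ring⟩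
    rcases hm with ⟨s, hs, e⟩ | hm
    · rcases h2 s (e ▸ m) with e' | e'
      · rw [e', left_eq_add, mul_eq_zero] at e
        exact e.elim (fun e => ht.1.ne' (by exact_mod_cast e)) d0
      · exact absurd (inj w' hw' s hs e'.symm) (by linarith [hs.2])
    · exact disjoint_left.1 h3 hm m
  have hA : ∀ᶠ ε : ℝ in 𝓝[>] 0, wd z z' a b (z w + ε * (z w' - z w)) = wd z z' a b (z w') := by
    filter_upwards [Ioc_mem_nhdsGT (zero_lt_one' ℝ)] with ε hε
    have := wd_const hab hd hc isPreconnected_Ioc (f := fun t : ℝ => z w + t * (z w' - z w))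
      (by fun_prop) off hε (right_mem_Ioc.2 zero_lt_one)
    simpa using this
  obtain ⟨ε0, hε0, H⟩ := Metric.eventually_nhds_iff.1 (push hd hc h0 isCompact_Icc inj seg l1)
  have cz := cont_of hd
  have same : ∀ ε ∈ Ioo (0 : ℝ) ε0, ∀ ε' ∈ Ioo (0 : ℝ) ε0,
      wd z z' a b (z w + ε * (-I * z' w)) = wd z z' a b (z w' + ε' * (-I * z' w')) :=
    fun ε hε ε' hε' => wd_const hab hd hc (isPreconnected_Icc.prod isPreconnected_Ioo)
      (f := fun p : ℝ × ℝ => z p.1 + p.2 * (-I * z' p.1)) (by fun_prop)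
      (fun p hp => H (by rw [Real.dist_eq, sub_zero, abs_of_pos hp.2.1]; exact hp.2.2) _ hp.1
        hp.2.1) (x := (w, ε)) (x' := (w', ε')) ⟨hw, hε⟩ ⟨hw', hε'⟩
  have hB : ∀ᶠ ε : ℝ in 𝓝[>] 0, wd z z' a b (z w + ε * (-I * z' w)) = wd z z' a b (z w') := by
    filter_upwards [Ioo_mem_nhdsGT hε0] with ε hε
    have ty : Tendsto (fun ε : ℝ => z w' + ε * (-I * z' w')) (𝓝[>] 0) (𝓝 (z w')) := by
      have : Continuous fun ε : ℝ => z w' + ε * (-I * z' w') := by fun_prop
      simpa using (this.tendsto 0).mono_left nhdsWithin_le_nhds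
    have n1 : z w' ∉ lp z a b := by simpa using off 1 (right_mem_Ioc.2 zero_lt_one)
    refine tendsto_nhds_unique (tendsto_const_nhds.congr' ?_)
      ((wd_contAt hab hd hc n1).tendsto.comp ty)
    filter_upwards [Ioo_mem_nhdsGT hε0] with ε' hε' using same ε hε ε' hε'
  refine lt_irrefl _ (jump hd hc haw hwb (fun s hs e => (inj w hw s hs e.symm).symm)
    (fun e => hwb.ne (seg w hw e)) l2 ?_ hA hB)
  rw [mul_assoc, Complex.mul_conj]
  simpa using normSq_pos.2 (h0 w)

/-- Mirror form. -/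
theorem NC' {τ w w' : ℝ} (hd : ∀ v, HasDerivAt z (z' v) v) (hc : Continuous z')
    (h0 : ∀ v, z' v ≠ 0) (hinj : ∀ s t, z s = z t → |s - t| < τ → s = t)
    (haw : a < w) (hwb : w < b) (hbw : w' < a) (hwa : b < w' + τ)
    (h1 : ∀ s, z s ∈ segment ℝ (z a) (z b) → z s = z a ∨ z s = z b)
    (h2 : ∀ s, z s ∈ segment ℝ (z w) (z w') → z s = z w ∨ z s = z w')
    (h3 : Disjoint (segment ℝ (z a) (z b)) (segment ℝ (z w) (z w')))
    (l1 : ((z b - z a) * conj (z' a)).im < 0) (l2 : ((z w' - z w) * conj (z' w)).im < 0) :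
    False := by
  refine NC (z := fun s => z (-s)) (z' := fun s => -z' (-s)) (a := -b) (b := -a) (w := -w)
    (w' := -w') (τ := τ) (fun v => ?_) (by fun_prop) (fun v => neg_ne_zero.2 (h0 _))
    (fun s t e h => neg_injective (hinj _ _ e (by rwa [neg_sub_neg, abs_sub_comm])))
    (by linarith) (by linarith) (by linarith) (by linarith) ?_ ?_ ?_ ?_ ?_
  · simpa [Function.comp_def] using (hd (-v)).scomp v (hasDerivAt_neg v)
  · intro s hs
    simp only [neg_neg] at hs ⊢
    rw [segment_symm] at hs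
    exact (h1 _ hs).symm
  · intro s hs
    simp only [neg_neg] at hs ⊢
    exact h2 _ hs
  · simp only [neg_neg]; rwa [segment_symm]
  · simp only [neg_neg, map_neg, mul_neg, neg_im]; linarith
  · simp only [neg_neg, map_neg, mul_neg, neg_im]; linarith

end Pool.Agent.Lib.MP_c7e804_gt.PI
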