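import Pool.Agent.Lib.MP_c7e804_gt.H60PI2

/-!
Two empty discs touching a simple arc on the same side in interlaced pairs of points;
the same in stereographic coordinates.
-/

namespace Pool.Agent.Lib.MP_c7e804_gt.PI

open Set Filter Topology Complex
open scoped ComplexConjugate

variable {z z' : ℝ → ℂ} {a b : ℝ}

lemma seg_sq {p q C : ℂ} {α β : ℝ} (h : α + β = 1) :
    normSq (α • p + β • q - C) = α * normSq (p - C) + β * normSq (q - C) - α * β * normSq (p - q) := by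
  obtain rfl : β = 1 - α := by linarith
  simp only [normSq_apply, real_smul, add_re, add_im, sub_re, sub_im, mul_re, mul_im, ofReal_re,
    ofReal_im]
  ring

lemma chord_end {p q C y : ℂ} (e : normSq (p - C) = normSq (q - C)) (hy : y ∈ segment ℝ p q)
    (h : normSq (q - C) ≤ normSq (y - C)) : y = p ∨ y = q := by
  obtain ⟨α, β, hα, hβ, hs, rfl⟩ := hy
  rw [seg_sq hs, e, ← add_mul, hs] at h
  have h0 : α * β * normSq (p - q) = 0 :=
    le_antisymm (by linarith) (mul_nonneg (mul_nonneg hα hβ) (normSq_nonneg _))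
  rcases mul_eq_zero.1 h0 with h0 | h0
  · rcases mul_eq_zero.1 h0 with h0 | h0
    · right; rw [h0, show β = 1 by linarith]; simp
    · left; rw [h0, show α = 1 by linarith]; simp
  · left
    rw [← sub_eq_zero.1 (normSq_eq_zero.1 h0), ← add_smul, hs, one_smul]

lemma side_of (hd : ∀ v, HasDerivAt z (z' v) v) {C : ℂ} {s t : ℝ}
    (H : ∀ r, normSq (z s - C) ≤ normSq (z r - C)) (E : normSq (z t - C) = normSq (z s - C))
    (hn : z t ≠ z s) (l : 0 < ((C - z s) * conj (z' s)).im) :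
    0 < ((z t - z s) * conj (z' s)).im := by
  have r1 : HasDerivAt (fun r => (z r - C).re) (z' s).re s :=
    reCLM.hasFDerivAt.comp_hasDerivAt s ((hd s).sub_const C)
  have r2 : HasDerivAt (fun r => (z r - C).im) (z' s).im s :=
    imCLM.hasFDerivAt.comp_hasDerivAt s ((hd s).sub_const C)
  have T := IsLocalMin.hasDerivAt_eq_zero (f := fun r => normSq (z r - C)) (a := s)
    (Eventually.of_forall H) ((r1.mul r1).add (r2.mul r2))
  have P := normSq_pos.2 (sub_ne_zero.2 hn)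
  have D : 0 < normSq (z' s) := normSq_pos.2 fun e => by simp [e] at l
  have := mul_pos P D
  simp only [normSq_apply, sub_re, sub_im, mul_im, conj_re, conj_im] at *
  refine (pos_iff_pos_of_mul_pos ?_).2 l
  generalize (z t).re = t1, (z t).im = t2, (z s).re = s1, (z s).im = s2, (z' s).re = d1,
    (z' s).im = d2, C.re = c1, C.im = c2 at *
  have : ((t1 - s1) * -d2 + (t2 - s2) * d1) * ((c1 - s1) * -d2 + (c2 - s2) * d1) =
      ((t1 - s1) * (t1 - s1) + (t2 - s2) * (t2 - s2)) * (d1 * d1 + d2 * d2) / 2 := by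
    linear_combination (-(d1 * d1 + d2 * d2) / 2) * E + (((t1 - s1) * d1 + (t2 - s2) * d2) / 2) * T
  linarith

theorem disc {τ w w' : ℝ} (hd : ∀ v, HasDerivAt z (z' v) v) (hc : Continuous z')
    (h0 : ∀ v, z' v ≠ 0) (hinj : ∀ s t, z s = z t → |s - t| < τ → s = t)
    (haw : a < w) (hwb : w < b) (hbw : b < w') (hwa : w' < a + τ) {C C' : ℂ}
    (H1 : ∀ s, normSq (z b - C) ≤ normSq (z s - C)) (E1 : normSq (z a - C) = normSq (z b - C))
    (H2 : ∀ s, normSq (z w - C') ≤ normSq (z s - C'))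
    (E2 : normSq (z w' - C') = normSq (z w - C')) (hw : normSq (z w - C) ≠ normSq (z b - C))
    (l1 : 0 < ((C - z b) * conj (z' b)).im) (l2 : 0 < ((C' - z w) * conj (z' w)).im) :
    False := by
  have ne : ∀ s t, s < t → t < s + τ → z s ≠ z t := fun s t h1 h2 e =>
    h1.ne (hinj s t e (abs_lt.2 ⟨by linarith, by linarith⟩))
  have h1 : ∀ s, z s ∈ segment ℝ (z a) (z b) → z s = z a ∨ z s = z b := fun s hs =>
    chord_end E1 hs (H1 s)
  refine NC hd hc h0 hinj haw hwb hbw hwa h1 (fun s hs => chord_end E2.symm hs (E2 ▸ H2 s)) ?_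
    (side_of hd H1 E1 (ne a b (by linarith) (by linarith)) l1)
    (side_of hd H2 E2 (ne w w' (by linarith) (by linarith)).symm l2)
  refine disjoint_left.2 fun y hy ⟨α', β', hα', hβ', hs', e'⟩ => ?_
  obtain ⟨α, β, hα, hβ, hs, e⟩ := id hy
  have q1 := seg_sq (p := z a) (q := z b) (C := C) hs
  have q2 := seg_sq (p := z a) (q := z b) (C := C') hs
  have q3 := seg_sq (p := z w) (q := z w') (C := C) hs'
  have q4 := seg_sq (p := z w) (q := z w') (C := C') hs'
  rw [e] at q1 q2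
  rw [e'] at q3 q4
  have p1 := mul_nonneg hα (sub_nonneg.2 (H2 a))
  have p2 := mul_nonneg hβ (sub_nonneg.2 (H2 b))
  have p3 := mul_nonneg hβ' (sub_nonneg.2 (H1 w'))
  have p4 : 0 < normSq (z w - C) - normSq (z b - C) := sub_pos.2 (lt_of_le_of_ne (H1 w) hw.symm)
  have a0 : α' = 0 := by
    by_contra hn
    have p5 := mul_pos (lt_of_le_of_ne hα' (Ne.symm hn)) p4
    obtain rfl : β = 1 - α := by linarith
    obtain rfl : β' = 1 - α' := by linarith
    rw [E1] at q1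
    rw [E2] at q4
    linarith
  rw [a0, show β' = 1 by linarith, zero_smul, one_smul, zero_add] at e'
  rcases h1 w' (e' ▸ hy) with e | e
  · exact ne a w' (by linarith) hwa e.symm
  · exact ne b w' hbw (by linarith) e.symm

lemma st_sq {x1 x2 x3 m1 m2 m3 μ : ℝ} (h : x1 * x1 + x2 * x2 + x3 * x3 = 1) (h3 : x3 < 1)
    (hm : m3 < μ) :
    normSq ((⟨x1 / (1 - x3), x2 / (1 - x3)⟩ : ℂ) - ⟨m1 / (μ - m3), m2 / (μ - m3)⟩) =
      (m1 * m1 + m2 * m2) / (μ - m3) ^ 2 - (m3 + μ) / (μ - m3) +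
        2 / ((1 - x3) * (μ - m3)) * (μ - (m1 * x1 + m2 * x2 + m3 * x3)) := by
  have t := (sub_pos.2 h3).ne'
  have k := (sub_pos.2 hm).ne'
  simp only [normSq_apply, sub_re, sub_im]
  field_simp
  linear_combination (μ - m3) ^ 2 * h

theorem coord {τ w w' : ℝ} {x1 x2 x3 y1 y2 y3 : ℝ → ℝ} (d1 : ∀ v, HasDerivAt x1 (y1 v) v)
    (d2 : ∀ v, HasDerivAt x2 (y2 v) v) (d3 : ∀ v, HasDerivAt x3 (y3 v) v) (c1 : Continuous y1)
    (c2 : Continuous y2) (c3 : Continuous y3)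
    (hx : ∀ v, x1 v * x1 v + x2 v * x2 v + x3 v * x3 v = 1) (h3 : ∀ v, x3 v < 1)
    (hy : ∀ v, 0 < y1 v * y1 v + y2 v * y2 v + y3 v * y3 v)
    (hinj : ∀ s t, x1 s = x1 t → x2 s = x2 t → x3 s = x3 t → |s - t| < τ → s = t)
    (haw : a < w) (hwb : w < b) (hbw : b < w') (hwa : w' < a + τ) {m1 m2 m3 μ n1 n2 n3 ν : ℝ}
    (hm : m3 < μ) (hn : n3 < ν) (H1 : ∀ s, m1 * x1 s + m2 * x2 s + m3 * x3 s ≤ μ)
    (Ea : m1 * x1 a + m2 * x2 a + m3 * x3 a = μ) (Eb : m1 * x1 b + m2 * x2 b + m3 * x3 b = μ)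
    (H2 : ∀ s, n1 * x1 s + n2 * x2 s + n3 * x3 s ≤ ν)
    (Ew : n1 * x1 w + n2 * x2 w + n3 * x3 w = ν)
    (Ew' : n1 * x1 w' + n2 * x2 w' + n3 * x3 w' = ν)
    (hw : m1 * x1 w + m2 * x2 w + m3 * x3 w ≠ μ)
    (l1 : m1 * (x2 b * y3 b - x3 b * y2 b) + m2 * (x3 b * y1 b - x1 b * y3 b) +
      m3 * (x1 b * y2 b - x2 b * y1 b) < 0)
    (l2 : n1 * (x2 w * y3 w - x3 w * y2 w) + n2 * (x3 w * y1 w - x1 w * y3 w) +
      n3 * (x1 w * y2 w - x2 w * y1 w) < 0) : False := by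
  have t0 : ∀ v, 0 < 1 - x3 v := fun v => sub_pos.2 (h3 v)
  have B : ∀ v, x1 v * y1 v + x2 v * y2 v + x3 v * y3 v = 0 := fun v => by
    have h := ((((d1 v).mul (d1 v)).add ((d2 v).mul (d2 v))).add ((d3 v).mul (d3 v))).unique
      ((hasDerivAt_const v (1 : ℝ)).congr_of_eventuallyEq (Eventually.of_forall hx))
    linarith
  have k1 : Continuous x1 := continuous_iff_continuousAt.2 fun v => (d1 v).continuousAt
  have k2 : Continuous x2 := continuous_iff_continuousAt.2 fun v => (d2 v).continuousAt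
  have k3 : Continuous x3 := continuous_iff_continuousAt.2 fun v => (d3 v).continuousAt
  have sd : ∀ {m1 m2 m3 μ : ℝ} (b : ℝ), m3 < μ → m1 * x1 b + m2 * x2 b + m3 * x3 b = μ →
      m1 * (x2 b * y3 b - x3 b * y2 b) + m2 * (x3 b * y1 b - x1 b * y3 b) +
        m3 * (x1 b * y2 b - x2 b * y1 b) < 0 →
      0 < (((⟨m1 / (μ - m3), m2 / (μ - m3)⟩ : ℂ) - ⟨x1 b / (1 - x3 b), x2 b / (1 - x3 b)⟩) *
        conj (⟨(y1 b * (1 - x3 b) + x1 b * y3 b) / (1 - x3 b) ^ 2,
          (y2 b * (1 - x3 b) + x2 b * y3 b) / (1 - x3 b) ^ 2⟩ : ℂ)).im := by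
    intro m1 m2 m3 μ b hm E l
    have t := t0 b
    have k := sub_pos.2 hm
    have A := hx b
    have B := B b
    generalize x1 b = x1, x2 b = x2, x3 b = x3, y1 b = y1, y2 b = y2, y3 b = y3 at *
    refine (div_pos (neg_pos.2 l) (mul_pos k t)).trans_eq ?_
    simp only [mul_im, sub_re, sub_im, conj_re, conj_im]
    field_simp
    linear_combination (1 - x3) * ((m2 * y1 - m1 * y2) * A - (x1 * m2 - x2 * m1) * B +
      (x1 * y2 - x2 * y1) * E)
  have pos : ∀ {m3 μ : ℝ} (s : ℝ), m3 < μ → 0 < 2 / ((1 - x3 s) * (μ - m3)) := fun s h =>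
    div_pos two_pos (mul_pos (t0 s) (sub_pos.2 h))
  refine disc (z := fun v => ⟨x1 v / (1 - x3 v), x2 v / (1 - x3 v)⟩)
    (z' := fun v => ⟨(y1 v * (1 - x3 v) + x1 v * y3 v) / (1 - x3 v) ^ 2,
      (y2 v * (1 - x3 v) + x2 v * y3 v) / (1 - x3 v) ^ 2⟩) (τ := τ) (fun v => ?_) ?_
    (fun v e => ?_) (fun s t e => ?_) haw hwb hbw hwa (C := ⟨m1 / (μ - m3), m2 / (μ - m3)⟩)
    (C' := ⟨n1 / (ν - n3), n2 / (ν - n3)⟩) (fun s => ?_) ?_ (fun s => ?_) ?_ ?_
    (sd b hm Eb l1) (sd w hn Ew l2)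
  · have e1 := ((d1 v).div ((d3 v).const_sub 1) (t0 v).ne').ofReal_comp
    have e2 := ((d2 v).div ((d3 v).const_sub 1) (t0 v).ne').ofReal_comp
    simp only [Complex.mk_eq_add_mul_I]
    refine (e1.add (e2.mul_const I)).congr_deriv ?_
    simp only [mul_neg, sub_neg_eq_add]
  · simp only [Complex.mk_eq_add_mul_I]
    have := fun v => (pow_pos (t0 v) 2).ne'
    fun_prop (disch := assumption)
  · have t := (pow_pos (t0 v) 2).ne'
    have e1 := (div_eq_zero_iff.1 (congrArg re e)).resolve_right t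
    have e2 := (div_eq_zero_iff.1 (congrArg im e)).resolve_right t
    have := mul_pos (hy v) (pow_pos (t0 v) 2)
    have e3 : (y1 v * y1 v + y2 v * y2 v + y3 v * y3 v) * (1 - x3 v) ^ 2 = 0 := by
      linear_combination (y1 v * (1 - x3 v) + x1 v * y3 v) * e1 +
        (y2 v * (1 - x3 v) + x2 v * y3 v) * e2 - y3 v * y3 v * hx v -
        2 * (1 - x3 v) * y3 v * B v
    linarith
  · have e1 : x1 s / (1 - x3 s) = x1 t / (1 - x3 t) := congrArg re e
    have e2 : x2 s / (1 - x3 s) = x2 t / (1 - x3 t) := congrArg im e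
    rw [div_eq_div_iff (t0 s).ne' (t0 t).ne'] at e1 e2
    have e3 : (1 - x3 s) * (1 - x3 t) * (x3 s - x3 t) = 0 := by
      linear_combination (x1 s * (1 - x3 t) + x1 t * (1 - x3 s)) / 2 * e1 +
        (x2 s * (1 - x3 t) + x2 t * (1 - x3 s)) / 2 * e2 - (1 - x3 t) ^ 2 / 2 * hx s +
        (1 - x3 s) ^ 2 / 2 * hx t
    have e4 := sub_eq_zero.1 ((mul_eq_zero.1 e3).resolve_left (mul_pos (t0 s) (t0 t)).ne')
    rw [e4] at e1 e2
    exact hinj s t (mul_right_cancel₀ (t0 t).ne' e1) (mul_right_cancel₀ (t0 t).ne' e2) e4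
  · simp only [st_sq (hx _) (h3 _) hm, Eb]
    have := mul_nonneg (pos s hm).le (sub_nonneg.2 (H1 s))
    linarith
  · simp only [st_sq (hx _) (h3 _) hm, Eb, Ea, sub_self, mul_zero]
  · simp only [st_sq (hx _) (h3 _) hn, Ew]
    have := mul_nonneg (pos s hn).le (sub_nonneg.2 (H2 s))
    linarith
  · simp only [st_sq (hx _) (h3 _) hn, Ew, Ew', sub_self, mul_zero]
  · simp only [st_sq (hx _) (h3 _) hm, Eb]
    have := mul_pos (pos w hm) (sub_pos.2 (lt_of_le_of_ne (H1 w) hw))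
    linarith

end Pool.Agent.Lib.MP_c7e804_gt.PI
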