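import Pool.Agent.Lib.MP_c7e804_gt.H60Caps
import Pool.Agent.Lib.MP_c7e804_gt.H49Base

/-!
The two boundary curves are joined on the positive side of the sphere.
-/

namespace Pool.Agent.Lib.MP_c7e804_gt

open Matrix Set Filter Topology

variable {ψ : ℝ × ℝ → V3} {a b τ θ : ℝ} {F : V3 → ℝ}

theorem Cap.sep_joined (h : Cap ψ a b τ θ) (hc : 0 < Real.cos θ) (he : Embedded ψ a b τ)
    (hF : Sep ψ a b F) {α : V3 → ℤ} (hα : ContinuousOn α {y ∈ sph | 0 ≤ F y}) :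
    ∃ v v', α (ψ (a, v)) = α (ψ (b, v')) :=
  h.joined hc (fun v v' e => (he _ (h.mem_a v) _ (h.mem_a v') e).2)
    (fun v v' e => h.ann.hab.ne (he _ (h.mem_a v) _ (h.mem_b v') e).1)
    (U := ball3 ∩ F ⁻¹' Iic 0) (W := ball3 ∩ F ⁻¹' Ici 0)
    (hF.cont.preimage_isClosed_of_isClosed isClosed_ball3 isClosed_Iic)
    (hF.cont.preimage_isClosed_of_isClosed isClosed_ball3 isClosed_Ici)
    (fun x hx => (le_total (F x) 0).imp (fun k => ⟨hx.le, k⟩) fun k => ⟨hx.le, k⟩)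
    (fun x hx k1 k2 => (hF.zero x hx.le).1 (le_antisymm k1.2 k2.2))
    (fun v η η0 => (hF.cone η η0).imp fun _ k => ⟨k.1, fun y hy k1 k2 k3 =>
      ((k.2 _ (h.mem_a v) y hy.le k1).1 k2).not_ge k3.2⟩)
    (hα.mono fun _ hx => ⟨hx.1, hx.2.2⟩)

end Pool.Agent.Lib.MP_c7e804_gt
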