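import Pool.Agent.Lib.MP_c7e804_gt.H63Defs

/-!
Calculus of directional derivatives on the strip.
-/

namespace Pool.Agent.Lib.MP_c7e804_gt

open Matrix Set Filter Topology
open scoped ContDiff

section
variable {F : Type} [NormedAddCommGroup F] [NormedSpace ℝ F]

/-- `f` is differentiable at `p` with derivative `f'` in direction `w`. -/
def HasD (w : ℝ × ℝ) (f : ℝ × ℝ → F) (f' : F) (p : ℝ × ℝ) : Prop :=
  DifferentiableAt ℝ f p ∧ fderiv ℝ f p w = f'

variable {w p : ℝ × ℝ}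

theorem HasD.of_diff {f : ℝ × ℝ → F} (h : DifferentiableAt ℝ f p) : HasD w f (fderiv ℝ f p w) p :=
  ⟨h, rfl⟩

theorem hasD_du {f : ℝ × ℝ → F} (h : DifferentiableAt ℝ f p) : HasD (1, 0) f (du f p) p := ⟨h, rfl⟩

theorem hasD_dv {f : ℝ × ℝ → F} (h : DifferentiableAt ℝ f p) : HasD (0, 1) f (dv f p) p := ⟨h, rfl⟩

theorem HasD.du_eq {f : ℝ × ℝ → F} {f' : F} (h : HasD (1, 0) f f' p) : du f p = f' := h.2

theorem HasD.dv_eq {f : ℝ × ℝ → F} {f' : F} (h : HasD (0, 1) f f' p) : dv f p = f' := h.2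

theorem HasD.congr_val {f : ℝ × ℝ → F} {f' g' : F} (h : HasD w f f' p) (e : f' = g') :
    HasD w f g' p := e ▸ h

theorem HasD.const (c : F) : HasD w (fun _ => c) 0 p := ⟨differentiableAt_const c, by simp⟩

theorem HasD.add {f g : ℝ × ℝ → F} {f' g' : F} (hf : HasD w f f' p) (hg : HasD w g g' p) :
    HasD w (fun q => f q + g q) (f' + g') p := by
  refine ⟨hf.1.add hg.1, ?_⟩
  rw [fderiv_fun_add hf.1 hg.1, ← hf.2, ← hg.2]; rfl

theorem HasD.sub {f g : ℝ × ℝ → F} {f' g' : F} (hf : HasD w f f' p) (hg : HasD w g g' p) :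
    HasD w (fun q => f q - g q) (f' - g') p := by
  refine ⟨hf.1.sub hg.1, ?_⟩
  rw [fderiv_fun_sub hf.1 hg.1, ← hf.2, ← hg.2]; rfl

theorem HasD.neg {f : ℝ × ℝ → F} {f' : F} (hf : HasD w f f' p) :
    HasD w (fun q => -f q) (-f') p := by
  refine ⟨hf.1.neg, ?_⟩
  rw [fderiv_fun_neg, ← hf.2]; rfl

theorem HasD.smul {c : ℝ × ℝ → ℝ} {c' : ℝ} {f : ℝ × ℝ → F} {f' : F} (hc : HasD w c c' p)
    (hf : HasD w f f' p) : HasD w (fun q => c q • f q) (c p • f' + c' • f p) p := by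
  refine ⟨hc.1.smul hf.1, ?_⟩
  rw [fderiv_fun_smul hc.1 hf.1, ← hf.2, ← hc.2]; simp

theorem HasD.mul {f g : ℝ × ℝ → ℝ} {f' g' : ℝ} (hf : HasD w f f' p) (hg : HasD w g g' p) :
    HasD w (fun q => f q * g q) (f' * g p + f p * g') p := by
  have := hf.smul hg
  simp only [smul_eq_mul] at this
  exact this.congr_val (by ring)

theorem HasD.inv {f : ℝ × ℝ → ℝ} {f' : ℝ} (hf : HasD w f f' p) (h0 : f p ≠ 0) :
    HasD w (fun q => (f q)⁻¹) (-f' / f p ^ 2) p := by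
  have h1 : HasFDerivAt (fun q => (f q)⁻¹) _ p :=
    (hasDerivAt_inv h0).comp_hasFDerivAt p hf.1.hasFDerivAt
  refine ⟨h1.differentiableAt, ?_⟩
  rw [h1.fderiv, ← hf.2]; simp; ring

theorem HasD.apply {f : ℝ × ℝ → V3} {f' : V3} (hf : HasD w f f' p) (i : Fin 3) :
    HasD w (fun q => f q i) (f' i) p := by
  have h1 : HasFDerivAt (fun q => f q i) _ p :=
    (ContinuousLinearMap.proj (R := ℝ) (φ := fun _ : Fin 3 => ℝ) i).hasFDerivAt.comp p
      hf.1.hasFDerivAt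
  refine ⟨h1.differentiableAt, ?_⟩
  rw [h1.fderiv, ← hf.2]; simp

theorem HasD.pi {f : ℝ × ℝ → V3} {f' : V3} (hf : ∀ i, HasD w (fun q => f q i) (f' i) p) :
    HasD w f f' p := by
  have hd : DifferentiableAt ℝ f p := differentiableAt_pi.2 fun i => (hf i).1
  refine ⟨hd, ?_⟩
  ext i
  have := ((HasD.of_diff (w := w) hd).apply i).2
  rw [← this, (hf i).2]

theorem HasD.dot {f g : ℝ × ℝ → V3} {f' g' : V3} (hf : HasD w f f' p) (hg : HasD w g g' p) :
    HasD w (fun q => f q ⬝ᵥ g q) (f' ⬝ᵥ g p + f p ⬝ᵥ g') p := by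
  have := (((hf.apply 0).mul (hg.apply 0)).add ((hf.apply 1).mul (hg.apply 1))).add
    ((hf.apply 2).mul (hg.apply 2))
  simp only [dotProduct, Fin.sum_univ_three]
  exact this.congr_val (by ring)

theorem HasD.cross {f g : ℝ × ℝ → V3} {f' g' : V3} (hf : HasD w f f' p) (hg : HasD w g g' p) :
    HasD w (fun q => f q ⨯₃ g q) (f' ⨯₃ g p + f p ⨯₃ g') p := by
  apply HasD.pi
  intro i
  fin_cases i
  · have := ((hf.apply 1).mul (hg.apply 2)).sub ((hf.apply 2).mul (hg.apply 1))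
    simp only [cross_apply]
    exact this.congr_val (by simp; ring)
  · have := ((hf.apply 2).mul (hg.apply 0)).sub ((hf.apply 0).mul (hg.apply 2))
    simp only [cross_apply]
    exact this.congr_val (by simp; ring)
  · have := ((hf.apply 0).mul (hg.apply 1)).sub ((hf.apply 1).mul (hg.apply 0))
    simp only [cross_apply]
    exact this.congr_val (by simp; ring)

theorem strip_eq (a b : ℝ) : strip a b = Icc a b ×ˢ (univ : Set ℝ) := by
  ext p; simp [strip]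

theorem uniqueDiffOn_strip {a b : ℝ} (hab : a < b) : UniqueDiffOn ℝ (strip a b) := by
  rw [strip_eq]; exact (uniqueDiffOn_Icc hab).prod uniqueDiffOn_univ

theorem fderiv_congr_strip {a b : ℝ} (hab : a < b) {f g : ℝ × ℝ → F} (hp : p ∈ strip a b)
    (hf : DifferentiableAt ℝ f p) (hg : DifferentiableAt ℝ g p)
    (e : ∀ q ∈ strip a b, f q = g q) : fderiv ℝ f p = fderiv ℝ g p := by
  have h1 : HasFDerivWithinAt f (fderiv ℝ g p) (strip a b) p :=
    hg.hasFDerivAt.hasFDerivWithinAt.congr e (e p hp)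
  exact (uniqueDiffOn_strip hab p hp).eq hf.hasFDerivAt.hasFDerivWithinAt h1

theorem HasD.congr_strip {a b : ℝ} (hab : a < b) {f g : ℝ × ℝ → F} {f' : F} (hp : p ∈ strip a b)
    (hf : HasD w f f' p) (hg : DifferentiableAt ℝ g p)
    (e : ∀ q ∈ strip a b, g q = f q) : HasD w g f' p :=
  ⟨hg, by rw [fderiv_congr_strip hab hp hg hf.1 e]; exact hf.2⟩

theorem HasD.eq_of_strip {a b : ℝ} (hab : a < b) {f g : ℝ × ℝ → F} {f' g' : F}
    (hp : p ∈ strip a b) (hf : HasD w f f' p) (hg : HasD w g g' p)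
    (e : ∀ q ∈ strip a b, f q = g q) : f' = g' := by
  rw [← hf.2, ← hg.2, fderiv_congr_strip hab hp hf.1 hg.1 e]

theorem hasDerivAt_line_v {f : ℝ × ℝ → F} {u v : ℝ} (h : DifferentiableAt ℝ f (u, v)) :
    HasDerivAt (fun t => f (u, t)) (dv f (u, v)) v := by
  have h1 : HasDerivAt (fun t : ℝ => ((u, t) : ℝ × ℝ)) (0, 1) v :=
    (hasDerivAt_const v u).prodMk (hasDerivAt_id v)
  exact h.hasFDerivAt.comp_hasDerivAt v h1

theorem hasDerivAt_line_u {f : ℝ × ℝ → F} {u v : ℝ} (h : DifferentiableAt ℝ f (u, v)) :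
    HasDerivAt (fun t => f (t, v)) (du f (u, v)) u := by
  have h1 : HasDerivAt (fun t : ℝ => ((t, v) : ℝ × ℝ)) (1, 0) u :=
    (hasDerivAt_id u).prodMk (hasDerivAt_const u v)
  exact h.hasFDerivAt.comp_hasDerivAt u h1

theorem HasD.eq_of_line {f g : ℝ × ℝ → F} {f' g' : F} {u v : ℝ}
    (hf : HasD (0, 1) f f' (u, v)) (hg : HasD (0, 1) g g' (u, v))
    (e : ∀ t, f (u, t) = g (u, t)) : f' = g' := by
  have h1 := hasDerivAt_line_v hf.1
  have h2 := hasDerivAt_line_v hg.1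
  rw [hf.dv_eq] at h1
  rw [hg.dv_eq] at h2
  have : (fun t => f (u, t)) = fun t => g (u, t) := funext e
  rw [this] at h1
  exact h1.unique h2

theorem sm_diff {f : ℝ × ℝ → F} (h : ContDiffAt ℝ ∞ f p) : DifferentiableAt ℝ f p :=
  h.differentiableAt (by simp)

theorem sm_fderiv {f : ℝ × ℝ → F} (h : ContDiffAt ℝ ∞ f p) (w : ℝ × ℝ) :
    ContDiffAt ℝ ∞ (fun q => fderiv ℝ f q w) p :=
  (h.fderiv_right (m := ∞) (by simp)).clm_apply contDiffAt_const

theorem sm_du {f : ℝ × ℝ → F} (h : ContDiffAt ℝ ∞ f p) : ContDiffAt ℝ ∞ (du f) p := sm_fderiv h _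

theorem sm_dv {f : ℝ × ℝ → F} (h : ContDiffAt ℝ ∞ f p) : ContDiffAt ℝ ∞ (dv f) p := sm_fderiv h _

theorem fderiv_fderiv_apply {f : ℝ × ℝ → F} (h : ContDiffAt ℝ ∞ f p) (w₁ w₂ : ℝ × ℝ) :
    fderiv ℝ (fun q => fderiv ℝ f q w₂) p w₁ = fderiv ℝ (fderiv ℝ f) p w₁ w₂ := by
  have h1 : DifferentiableAt ℝ (fderiv ℝ f) p :=
    (h.fderiv_right (m := ∞) (by simp)).differentiableAt (by simp)
  rw [fderiv_clm_apply h1 (differentiableAt_const _)]
  simp

theorem two_le_infty : (2 : WithTop ℕ∞) ≤ ∞ := by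
  have : ((2 : ℕ∞) : WithTop ℕ∞) ≤ ((⊤ : ℕ∞) : WithTop ℕ∞) := by exact_mod_cast le_top
  exact this

theorem du_dv_comm {f : ℝ × ℝ → F} (h : ContDiffAt ℝ ∞ f p) : du (dv f) p = dv (du f) p := by
  have hs : IsSymmSndFDerivAt ℝ f p := h.isSymmSndFDerivAt (by
    simp only [minSmoothness_of_isRCLikeNormedField]
    exact two_le_infty)
  show fderiv ℝ (fun q => fderiv ℝ f q (0, 1)) p (1, 0) =
    fderiv ℝ (fun q => fderiv ℝ f q (1, 0)) p (0, 1)
  rw [fderiv_fderiv_apply h, fderiv_fderiv_apply h, hs.eq]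

theorem sm_apply {f : ℝ × ℝ → V3} (hf : ContDiffAt ℝ ∞ f p) (i : Fin 3) :
    ContDiffAt ℝ ∞ (fun q => f q i) p := contDiffAt_pi.1 hf i

theorem sm_dot {f g : ℝ × ℝ → V3} (hf : ContDiffAt ℝ ∞ f p) (hg : ContDiffAt ℝ ∞ g p) :
    ContDiffAt ℝ ∞ (fun q => f q ⬝ᵥ g q) p := by
  simp only [dotProduct, Fin.sum_univ_three]
  exact (((sm_apply hf 0).mul (sm_apply hg 0)).add ((sm_apply hf 1).mul (sm_apply hg 1))).add
    ((sm_apply hf 2).mul (sm_apply hg 2))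

theorem sm_cross {f g : ℝ × ℝ → V3} (hf : ContDiffAt ℝ ∞ f p) (hg : ContDiffAt ℝ ∞ g p) :
    ContDiffAt ℝ ∞ (fun q => f q ⨯₃ g q) p := by
  refine contDiffAt_pi.2 fun i => ?_
  fin_cases i
  · simpa [cross_apply] using
      ((sm_apply hf 1).mul (sm_apply hg 2)).sub ((sm_apply hf 2).mul (sm_apply hg 1))
  · simpa [cross_apply] using
      ((sm_apply hf 2).mul (sm_apply hg 0)).sub ((sm_apply hf 0).mul (sm_apply hg 2))
  · simpa [cross_apply] using
      ((sm_apply hf 0).mul (sm_apply hg 1)).sub ((sm_apply hf 1).mul (sm_apply hg 0))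

/-- periodicity on the strip -/
def Per (a b τ : ℝ) (f : ℝ × ℝ → F) : Prop := ∀ p ∈ strip a b, f (p.1, p.2 + τ) = f p

theorem shift_mem {a b τ : ℝ} (hp : p ∈ strip a b) : ((p.1, p.2 + τ) : ℝ × ℝ) ∈ strip a b := hp

theorem per_fderiv {a b τ : ℝ} (hab : a < b) {f : ℝ × ℝ → F}
    (hd : ∀ p ∈ strip a b, DifferentiableAt ℝ f p) (hper : Per a b τ f) (hp : p ∈ strip a b) :
    fderiv ℝ f (p.1, p.2 + τ) = fderiv ℝ f p := by
  have e : ((p.1, p.2 + τ) : ℝ × ℝ) = p + (0, τ) := by ext <;> simp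
  have h1 : HasFDerivAt (fun q : ℝ × ℝ => f (q + (0, τ))) (fderiv ℝ f (p.1, p.2 + τ)) p := by
    have h2 := (hd _ (shift_mem (τ := τ) hp)).hasFDerivAt
    rw [e] at h2 ⊢
    have h3 := h2.comp p ((hasFDerivAt_id p).add_const ((0, τ) : ℝ × ℝ))
    rw [ContinuousLinearMap.comp_id] at h3
    exact h3
  rw [← h1.fderiv]
  refine fderiv_congr_strip hab hp h1.differentiableAt (hd p hp) fun q hq => ?_
  have e' : q + (0, τ) = ((q.1, q.2 + τ) : ℝ × ℝ) := by ext <;> simp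
  rw [e', hper q hq]

theorem Per.du {a b τ : ℝ} (hab : a < b) {f : ℝ × ℝ → F}
    (hd : ∀ p ∈ strip a b, DifferentiableAt ℝ f p) (hper : Per a b τ f) : Per a b τ (du f) :=
  fun p hp => by simp only [MP_c7e804_gt.du]; rw [per_fderiv hab hd hper hp]

theorem Per.dv {a b τ : ℝ} (hab : a < b) {f : ℝ × ℝ → F}
    (hd : ∀ p ∈ strip a b, DifferentiableAt ℝ f p) (hper : Per a b τ f) : Per a b τ (dv f) :=
  fun p hp => by simp only [MP_c7e804_gt.dv]; rw [per_fderiv hab hd hper hp]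

end

end Pool.Agent.Lib.MP_c7e804_gt
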