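import Pool.Agent.Lib.MP_c7e804_gt.H63Sphere

namespace Pool.Agent.Lib.MP_c7e804_gt.OldCriterion

open Pool.Agent.Lib.MP_c7e804_gt

/-- Let `ψ` be a constant-angle minimal annulus in the unit ball and `ℝ e` an axis. Suppose that
every interior point at which both the rotation field about the axis is tangent to the surface and
the derivative of the Gauss curvature along the closed curve `v ↦ ψ (u, v)` vanishes either lies on
an arc fixed by a reflective symmetry in a plane containing the axis, or is a point where that
closed curve osculates a sphere centred on the axis or a plane orthogonal to it. Then the closed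
curves `v ↦ ψ (u, v)` are curvature lines, each contained in a sphere centred on the axis or in a
plane orthogonal to it. -/
theorem result (ψ : ℝ × ℝ → V3) (a b τ θa θb : ℝ) (h : CapAnnulus ψ a b τ θa θb)
    (e : V3) (_he : e ≠ 0)
    (hz : ∀ u v : ℝ, a < u → u < b → rotN ψ e (u, v) = 0 → dv (gaussK ψ) (u, v) = 0 →
      OnMirror ψ a b e v ∨ OsculatesAbout e (fun w => ψ (u, w)) v) :
    FoliatedAbout ψ a b e := by
  refine h.foliated_of_Z e fun p hp => h.Z_zero e (fun q h1 h2 hb hR => ?_) hp
  have hq : q ∈ strip a b := ⟨h1.le, h2.le⟩
  have hK : dv (gaussK ψ) q = 0 := by rw [h.dK hq, hb]; ring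
  rcases hz q.1 q.2 h1 h2 hR hK with hm | ho
  · exact h.Z_of_mirror e hq hm
  · exact h.Z_of_osc e hq ho

end Pool.Agent.Lib.MP_c7e804_gt.OldCriterion
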