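import Pool.Agent.Lib.MP_c7e804_gt.H63Max

/-!
Moving frame of a capillary minimal annulus; the Hopf differential is a real constant.
-/

namespace Pool.Agent.Lib.MP_c7e804_gt

open Matrix Set Filter Topology
open scoped ContDiff

/-- Algebra of a conformal frame. -/
structure Fr (A B N : V3) (E : ℝ) : Prop where
  pos : 0 < E
  AA : A ⬝ᵥ A = E
  BB : B ⬝ᵥ B = E
  AB : A ⬝ᵥ B = 0
  hN : N = E⁻¹ • (A ⨯₃ B)

namespace Fr
variable {A B N : V3} {E : ℝ} (h : Fr A B N E)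
include h

theorem BA : B ⬝ᵥ A = 0 := by rw [dotProduct_comm]; exact h.AB

theorem AxB : A ⨯₃ B = E • N := by
  rw [h.hN, smul_smul, mul_inv_cancel₀ h.pos.ne', one_smul]

theorem NA : N ⬝ᵥ A = 0 := by
  rw [h.hN, smul_dotProduct, dotProduct_comm, dot_self_cross]; simp

theorem NB : N ⬝ᵥ B = 0 := by
  rw [h.hN, smul_dotProduct, dotProduct_comm, dot_cross_self]; simp

theorem AN : A ⬝ᵥ N = 0 := by rw [dotProduct_comm]; exact h.NA

theorem BN : B ⬝ᵥ N = 0 := by rw [dotProduct_comm]; exact h.NB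

theorem NN : N ⬝ᵥ N = 1 := by
  have hE := h.pos.ne'
  rw [h.hN, smul_dotProduct, dotProduct_smul, cross_dot_cross, h.AA, h.BB, h.AB, h.BA]
  simp only [smul_eq_mul]; field_simp; ring

theorem NxA : N ⨯₃ A = B := by
  have hE := h.pos.ne'
  have e : (A ⨯₃ B) ⨯₃ A = (A ⬝ᵥ A) • B - (A ⬝ᵥ B) • A := by
    ext i; fin_cases i <;> simp [cross_apply, dotProduct, Fin.sum_univ_three] <;> ring
  rw [h.hN, map_smul, LinearMap.smul_apply, e, h.AA, h.AB, zero_smul, sub_zero, smul_smul,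
    inv_mul_cancel₀ hE, one_smul]

theorem NxB : N ⨯₃ B = -A := by
  have hE := h.pos.ne'
  have e : (A ⨯₃ B) ⨯₃ B = (A ⬝ᵥ B) • B - (B ⬝ᵥ B) • A := by
    ext i; fin_cases i <;> simp [cross_apply, dotProduct, Fin.sum_univ_three] <;> ring
  rw [h.hN, map_smul, LinearMap.smul_apply, e, h.BB, h.AB, zero_smul, zero_sub, smul_neg, smul_smul,
    inv_mul_cancel₀ hE, one_smul]

theorem decomp (w : V3) :
    w = ((w ⬝ᵥ A) * E⁻¹) • A + ((w ⬝ᵥ B) * E⁻¹) • B + (w ⬝ᵥ N) • N := by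
  have hE := h.pos.ne'
  have e1 : (N ⬝ᵥ N) • w = (w ⬝ᵥ N) • N + N ⨯₃ (w ⨯₃ N) := by
    ext i; fin_cases i <;> simp [cross_apply, dotProduct, Fin.sum_univ_three] <;> ring
  have e2 : w ⨯₃ (A ⨯₃ B) = (w ⬝ᵥ B) • A - (w ⬝ᵥ A) • B := by
    ext i; fin_cases i <;> simp [cross_apply, dotProduct, Fin.sum_univ_three] <;> ring
  have e3 : w ⨯₃ N = E⁻¹ • ((w ⬝ᵥ B) • A - (w ⬝ᵥ A) • B) := by
    rw [← e2]; conv_lhs => rw [h.hN]
    rw [map_smul]
  rw [h.NN, one_smul, e3, map_smul, map_sub, map_smul, map_smul, h.NxA, h.NxB] at e1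
  rw [e1]
  conv_rhs => rw [← e1]
  module

theorem eAN (e : V3) : N ⬝ᵥ (e ⨯₃ A) = -(e ⬝ᵥ B) := by
  have : N ⬝ᵥ (e ⨯₃ A) = -(e ⬝ᵥ (N ⨯₃ A)) := by
    simp [cross_apply, dotProduct, Fin.sum_univ_three]; ring
  rw [this, h.NxA]

theorem eBN (e : V3) : N ⬝ᵥ (e ⨯₃ B) = e ⬝ᵥ A := by
  have : N ⬝ᵥ (e ⨯₃ B) = -(e ⬝ᵥ (N ⨯₃ B)) := by
    simp [cross_apply, dotProduct, Fin.sum_univ_three]; ring
  rw [this, h.NxB]; simp

theorem eBA (e : V3) : (e ⨯₃ B) ⬝ᵥ A = -(E * (e ⬝ᵥ N)) := by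
  have : (e ⨯₃ B) ⬝ᵥ A = -(e ⬝ᵥ (A ⨯₃ B)) := by
    simp [cross_apply, dotProduct, Fin.sum_univ_three]; ring
  rw [this, h.AxB]; simp

theorem eAB (e : V3) : (e ⨯₃ A) ⬝ᵥ B = E * (e ⬝ᵥ N) := by
  have : (e ⨯₃ A) ⬝ᵥ B = e ⬝ᵥ (A ⨯₃ B) := by
    simp [cross_apply, dotProduct, Fin.sum_univ_three]; ring
  rw [this, h.AxB]; simp

theorem eNA (e : V3) : (e ⨯₃ N) ⬝ᵥ A = e ⬝ᵥ B := by
  have : (e ⨯₃ N) ⬝ᵥ A = e ⬝ᵥ (N ⨯₃ A) := by
    simp [cross_apply, dotProduct, Fin.sum_univ_three]; ring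
  rw [this, h.NxA]

end Fr

theorem cross_dot_self' (e x : V3) : (e ⨯₃ x) ⬝ᵥ x = 0 := by
  simp [cross_apply, dotProduct, Fin.sum_univ_three]; ring

theorem dot_cross_self' (e x : V3) : x ⬝ᵥ (e ⨯₃ x) = 0 := by
  simp [cross_apply, dotProduct, Fin.sum_univ_three]; ring

/-- `ω_u` for `ω = log √E` -/
noncomputable def al (ψ : ℝ × ℝ → V3) (p : ℝ × ℝ) : ℝ :=
  (du (du ψ) p ⬝ᵥ du ψ p) * (confE ψ p)⁻¹

/-- `ω_v` for `ω = log √E` -/
noncomputable def be (ψ : ℝ × ℝ → V3) (p : ℝ × ℝ) : ℝ :=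
  (dv (du ψ) p ⬝ᵥ du ψ p) * (confE ψ p)⁻¹

namespace CapAnnulus

variable {ψ : ℝ × ℝ → V3} {a b τ θa θb : ℝ} (h : CapAnnulus ψ a b τ θa θb) {p : ℝ × ℝ}
include h

theorem fr (hp : p ∈ strip a b) : Fr (du ψ p) (dv ψ p) (normal ψ p) (confE ψ p) :=
  ⟨h.immersion p hp, rfl, h.conformal_eq p hp, h.conformal_orth p hp, rfl⟩

theorem smA (hp : p ∈ strip a b) : ContDiffAt ℝ ∞ (du ψ) p := sm_du (h.smooth p hp)
theorem smB (hp : p ∈ strip a b) : ContDiffAt ℝ ∞ (dv ψ) p := sm_dv (h.smooth p hp)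
theorem smE (hp : p ∈ strip a b) : ContDiffAt ℝ ∞ (confE ψ) p := sm_dot (h.smA hp) (h.smA hp)
theorem smEi (hp : p ∈ strip a b) : ContDiffAt ℝ ∞ (fun q => (confE ψ q)⁻¹) p :=
  (h.smE hp).inv (h.immersion p hp).ne'
theorem smN (hp : p ∈ strip a b) : ContDiffAt ℝ ∞ (normal ψ) p :=
  (h.smEi hp).smul (sm_cross (h.smA hp) (h.smB hp))
theorem smL (hp : p ∈ strip a b) : ContDiffAt ℝ ∞ (sffL ψ) p :=
  sm_dot (sm_du (h.smA hp)) (h.smN hp)
theorem smM (hp : p ∈ strip a b) : ContDiffAt ℝ ∞ (sffM ψ) p :=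
  sm_dot (sm_dv (h.smA hp)) (h.smN hp)
theorem smal (hp : p ∈ strip a b) : ContDiffAt ℝ ∞ (al ψ) p :=
  (sm_dot (sm_du (h.smA hp)) (h.smA hp)).mul (h.smEi hp)
theorem smbe (hp : p ∈ strip a b) : ContDiffAt ℝ ∞ (be ψ) p :=
  (sm_dot (sm_dv (h.smA hp)) (h.smA hp)).mul (h.smEi hp)

theorem Bu (hp : p ∈ strip a b) : du (dv ψ) p = dv (du ψ) p := du_dv_comm (h.smooth p hp)

theorem Bv (hp : p ∈ strip a b) : dv (dv ψ) p = -du (du ψ) p := by
  have := h.harmonic p hp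
  rw [add_comm] at this
  exact eq_neg_of_add_eq_zero_left this

theorem AuA (hp : p ∈ strip a b) : du (du ψ) p ⬝ᵥ du ψ p = al ψ p * confE ψ p := by
  have := (h.immersion p hp).ne'
  simp only [al]; field_simp

theorem AvA (hp : p ∈ strip a b) : dv (du ψ) p ⬝ᵥ du ψ p = be ψ p * confE ψ p := by
  have := (h.immersion p hp).ne'
  simp only [be]; field_simp

theorem Eu (hp : p ∈ strip a b) : HasD (1, 0) (confE ψ) (2 * al ψ p * confE ψ p) p := by
  have h1 := hasD_du (sm_diff (h.smA hp))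
  refine (h1.dot h1).congr_val ?_
  rw [dotProduct_comm (du ψ p), h.AuA hp]; ring

theorem Ev (hp : p ∈ strip a b) : HasD (0, 1) (confE ψ) (2 * be ψ p * confE ψ p) p := by
  have h1 := hasD_dv (sm_diff (h.smA hp))
  refine (h1.dot h1).congr_val ?_
  rw [dotProduct_comm (du ψ p), h.AvA hp]; ring

theorem Eiu (hp : p ∈ strip a b) :
    HasD (1, 0) (fun q => (confE ψ q)⁻¹) (-(2 * al ψ p * (confE ψ p)⁻¹)) p := by
  have := (h.immersion p hp).ne'
  refine ((h.Eu hp).inv this).congr_val ?_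
  field_simp

theorem Eiv (hp : p ∈ strip a b) :
    HasD (0, 1) (fun q => (confE ψ q)⁻¹) (-(2 * be ψ p * (confE ψ p)⁻¹)) p := by
  have := (h.immersion p hp).ne'
  refine ((h.Ev hp).inv this).congr_val ?_
  field_simp

theorem AvB (hp : p ∈ strip a b) : dv (du ψ) p ⬝ᵥ dv ψ p = al ψ p * confE ψ p := by
  have h1 := hasD_du (sm_diff (h.smB hp))
  have := (h1.dot h1).eq_of_strip h.hab hp (h.Eu hp) h.conformal_eq
  rw [dotProduct_comm (dv ψ p), h.Bu hp] at this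
  linarith

theorem AuB (hp : p ∈ strip a b) : du (du ψ) p ⬝ᵥ dv ψ p = -(be ψ p * confE ψ p) := by
  have h1 := hasD_du (sm_diff (h.smA hp))
  have h2 := hasD_du (sm_diff (h.smB hp))
  have := (h1.dot h2).eq_of_strip h.hab hp (HasD.const 0) h.conformal_orth
  rw [dotProduct_comm (du ψ p), h.Bu hp, h.AvA hp] at this
  linarith

theorem Au (hp : p ∈ strip a b) :
    du (du ψ) p = al ψ p • du ψ p - be ψ p • dv ψ p + sffL ψ p • normal ψ p := by
  have hE := (h.immersion p hp).ne'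
  have := (h.fr hp).decomp (du (du ψ) p)
  rw [h.AuA hp, h.AuB hp] at this
  rw [this]
  have e1 : al ψ p * confE ψ p * (confE ψ p)⁻¹ = al ψ p := by field_simp
  have e2 : -(be ψ p * confE ψ p) * (confE ψ p)⁻¹ = -be ψ p := by field_simp
  rw [e1, e2, ← sffL]
  module

theorem Av (hp : p ∈ strip a b) :
    dv (du ψ) p = be ψ p • du ψ p + al ψ p • dv ψ p + sffM ψ p • normal ψ p := by
  have hE := (h.immersion p hp).ne'
  have := (h.fr hp).decomp (dv (du ψ) p)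
  rw [h.AvA hp, h.AvB hp] at this
  rw [this]
  have e1 : al ψ p * confE ψ p * (confE ψ p)⁻¹ = al ψ p := by field_simp
  have e2 : be ψ p * confE ψ p * (confE ψ p)⁻¹ = be ψ p := by field_simp
  rw [e1, e2, ← sffM]

theorem Nu (hp : p ∈ strip a b) :
    du (normal ψ) p = -(sffL ψ p * (confE ψ p)⁻¹) • du ψ p
      - (sffM ψ p * (confE ψ p)⁻¹) • dv ψ p := by
  have hN := hasD_du (sm_diff (h.smN hp))
  have hA := hasD_du (sm_diff (h.smA hp))
  have hB := hasD_du (sm_diff (h.smB hp))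
  have e1 := (hN.dot hN).eq_of_strip h.hab hp (HasD.const 1) fun q hq => (h.fr hq).NN
  have e2 := (hN.dot hA).eq_of_strip h.hab hp (HasD.const 0) fun q hq => (h.fr hq).NA
  have e3 := (hN.dot hB).eq_of_strip h.hab hp (HasD.const 0) fun q hq => (h.fr hq).NB
  rw [dotProduct_comm (normal ψ p)] at e1 e2 e3
  rw [h.Bu hp] at e3
  have f1 : du (normal ψ) p ⬝ᵥ normal ψ p = 0 := by linarith
  have f2 : du (normal ψ) p ⬝ᵥ du ψ p = -sffL ψ p := by rw [sffL]; linarith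
  have f3 : du (normal ψ) p ⬝ᵥ dv ψ p = -sffM ψ p := by rw [sffM]; linarith
  have := (h.fr hp).decomp (du (normal ψ) p)
  rw [f1, f2, f3] at this
  rw [this]; module

theorem Nv (hp : p ∈ strip a b) :
    dv (normal ψ) p = -(sffM ψ p * (confE ψ p)⁻¹) • du ψ p
      + (sffL ψ p * (confE ψ p)⁻¹) • dv ψ p := by
  have hN := hasD_dv (sm_diff (h.smN hp))
  have hA := hasD_dv (sm_diff (h.smA hp))
  have hB := hasD_dv (sm_diff (h.smB hp))
  have e1 := (hN.dot hN).eq_of_strip h.hab hp (HasD.const 1) fun q hq => (h.fr hq).NN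
  have e2 := (hN.dot hA).eq_of_strip h.hab hp (HasD.const 0) fun q hq => (h.fr hq).NA
  have e3 := (hN.dot hB).eq_of_strip h.hab hp (HasD.const 0) fun q hq => (h.fr hq).NB
  rw [dotProduct_comm (normal ψ p)] at e1 e2 e3
  rw [h.Bv hp, neg_dotProduct] at e3
  have f1 : dv (normal ψ) p ⬝ᵥ normal ψ p = 0 := by linarith
  have f2 : dv (normal ψ) p ⬝ᵥ du ψ p = -sffM ψ p := by rw [sffM]; linarith
  have f3 : dv (normal ψ) p ⬝ᵥ dv ψ p = sffL ψ p := by rw [sffL]; linarith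
  have := (h.fr hp).decomp (dv (normal ψ) p)
  rw [f1, f2, f3] at this
  rw [this]; module

theorem codazzi₁ (hp : p ∈ strip a b) : dv (sffL ψ) p = du (sffM ψ) p := by
  have hE := (h.immersion p hp).ne'
  have e1 := ((hasD_dv (sm_diff (sm_du (h.smA hp)))).dot (hasD_dv (sm_diff (h.smN hp)))).dv_eq
  have e2 := ((hasD_du (sm_diff (sm_dv (h.smA hp)))).dot (hasD_du (sm_diff (h.smN hp)))).du_eq
  change dv (sffL ψ) p = _ at e1
  change du (sffM ψ) p = _ at e2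
  rw [e1, e2, du_dv_comm (h.smA hp), h.Nu hp, h.Nv hp]
  simp only [dotProduct_add, dotProduct_sub, dotProduct_smul, smul_eq_mul, h.AuA hp, h.AuB hp,
    h.AvA hp, h.AvB hp]
  ring

theorem codazzi₂ (hp : p ∈ strip a b) : dv (sffM ψ) p = -du (sffL ψ) p := by
  have hE := (h.immersion p hp).ne'
  have e1 := ((hasD_du (sm_diff (sm_du (h.smA hp)))).dot (hasD_du (sm_diff (h.smN hp)))).du_eq
  have e2 := ((hasD_dv (sm_diff (sm_dv (h.smA hp)))).dot (hasD_dv (sm_diff (h.smN hp)))).dv_eq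
  change du (sffL ψ) p = _ at e1
  change dv (sffM ψ) p = _ at e2
  have e3 : dv (dv (du ψ)) p = dv (du (dv ψ)) p :=
    (hasD_dv (sm_diff (sm_dv (h.smA hp)))).eq_of_strip h.hab hp
      (hasD_dv (sm_diff (sm_du (h.smB hp)))) fun q hq => (h.Bu hq).symm
  have e4 : du (dv (dv ψ)) p = -du (du (du ψ)) p :=
    (hasD_du (sm_diff (sm_dv (h.smB hp)))).eq_of_strip h.hab hp
      (hasD_du (sm_diff (sm_du (h.smA hp)))).neg fun q hq => h.Bv hq
  rw [e1, e2, e3, ← du_dv_comm (h.smB hp), e4, h.Nu hp, h.Nv hp]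
  simp only [dotProduct_add, dotProduct_sub, dotProduct_smul, smul_eq_mul, h.AuA hp, h.AuB hp,
    h.AvA hp, h.AvB hp, neg_dotProduct]
  ring

theorem M_harmonic (hp : p ∈ strip a b) : du (du (sffM ψ)) p + dv (dv (sffM ψ)) p = 0 := by
  have e1 : du (du (sffM ψ)) p = du (dv (sffL ψ)) p :=
    (hasD_du (sm_diff (sm_du (h.smM hp)))).eq_of_strip h.hab hp
      (hasD_du (sm_diff (sm_dv (h.smL hp)))) fun q hq => (h.codazzi₁ hq).symm
  have e2 : dv (dv (sffM ψ)) p = -dv (du (sffL ψ)) p :=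
    (hasD_dv (sm_diff (sm_dv (h.smM hp)))).eq_of_strip h.hab hp
      (hasD_dv (sm_diff (sm_du (h.smL hp)))).neg fun q hq => h.codazzi₂ hq
  rw [e1, e2, du_dv_comm (h.smL hp)]; ring

/-- along a boundary curve -/
theorem bd_psiB {u : ℝ} (hu : a ≤ u ∧ u ≤ b) (hs : ∀ v, ψ (u, v) ⬝ᵥ ψ (u, v) = 1) (v : ℝ) :
    ψ (u, v) ⬝ᵥ dv ψ (u, v) = 0 := by
  have hp : ((u, v) : ℝ × ℝ) ∈ strip a b := hu
  have h1 := hasD_dv (sm_diff (h.smooth _ hp))
  have := (h1.dot h1).eq_of_line (HasD.const 1) hs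
  rw [dotProduct_comm (dv ψ (u, v))] at this
  linarith

theorem bd_psiA_sq {u θ : ℝ} (hu : a ≤ u ∧ u ≤ b) (hs : ∀ v, ψ (u, v) ⬝ᵥ ψ (u, v) = 1)
    (ha : ∀ v, normal ψ (u, v) ⬝ᵥ ψ (u, v) = Real.cos θ) (v : ℝ) :
    (ψ (u, v) ⬝ᵥ du ψ (u, v)) ^ 2 = confE ψ (u, v) * Real.sin θ ^ 2 := by
  have hp : ((u, v) : ℝ × ℝ) ∈ strip a b := hu
  have hE := (h.immersion _ hp).ne'
  have e := congrArg (fun x => ψ (u, v) ⬝ᵥ x) ((h.fr hp).decomp (ψ (u, v)))
  simp only [dotProduct_add, dotProduct_smul, smul_eq_mul] at e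
  rw [hs v, h.bd_psiB hu hs v, dotProduct_comm (ψ (u, v)) (normal ψ (u, v)), ha v] at e
  rw [Real.sin_sq]
  field_simp at e
  linarith

theorem bd_M {u θ : ℝ} (hu : a ≤ u ∧ u ≤ b) (hs : ∀ v, ψ (u, v) ⬝ᵥ ψ (u, v) = 1)
    (hθ : 0 < θ ∧ θ < Real.pi)
    (ha : ∀ v, normal ψ (u, v) ⬝ᵥ ψ (u, v) = Real.cos θ) (v : ℝ) : sffM ψ (u, v) = 0 := by
  have hp : ((u, v) : ℝ × ℝ) ∈ strip a b := hu
  have hE := h.immersion _ hp
  have h1 := hasD_dv (sm_diff (h.smooth _ hp))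
  have h2 := hasD_dv (sm_diff (h.smN hp))
  have e := (h2.dot h1).eq_of_line (HasD.const _) ha
  rw [(h.fr hp).NB, h.Nv hp] at e
  simp only [add_dotProduct, smul_dotProduct, smul_eq_mul] at e
  rw [dotProduct_comm (dv ψ (u, v)), h.bd_psiB hu hs v, dotProduct_comm (du ψ (u, v))] at e
  have hs2 := h.bd_psiA_sq hu hs ha v
  have hsin := Real.sin_pos_of_pos_of_lt_pi hθ.1 hθ.2
  have hne : ψ (u, v) ⬝ᵥ du ψ (u, v) ≠ 0 := by
    intro h0
    rw [h0] at hs2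
    have : 0 < confE ψ (u, v) * Real.sin θ ^ 2 := by positivity
    linarith
  have : sffM ψ (u, v) * (confE ψ (u, v))⁻¹ * (ψ (u, v) ⬝ᵥ du ψ (u, v)) = 0 := by linarith
  rcases mul_eq_zero.1 this with h3 | h3
  · rcases mul_eq_zero.1 h3 with h4 | h4
    · exact h4
    · exact absurd h4 (inv_ne_zero hE.ne')
  · exact absurd h3 hne

theorem perψ : Per a b τ ψ := h.periodic
theorem perA : Per a b τ (du ψ) := h.perψ.du h.hab fun _ hp => sm_diff (h.smooth _ hp)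
theorem perB : Per a b τ (dv ψ) := h.perψ.dv h.hab fun _ hp => sm_diff (h.smooth _ hp)
theorem perAu : Per a b τ (du (du ψ)) := h.perA.du h.hab fun _ hp => sm_diff (h.smA hp)
theorem perAv : Per a b τ (dv (du ψ)) := h.perA.dv h.hab fun _ hp => sm_diff (h.smA hp)
theorem perE : Per a b τ (confE ψ) := fun p hp => by simp only [confE]; rw [h.perA p hp]
theorem perN : Per a b τ (normal ψ) := fun p hp => by
  simp only [normal]; rw [h.perA p hp, h.perB p hp, h.perE p hp]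
theorem perM : Per a b τ (sffM ψ) := fun p hp => by
  simp only [sffM]; rw [h.perAv p hp, h.perN p hp]
theorem perL : Per a b τ (sffL ψ) := fun p hp => by
  simp only [sffL]; rw [h.perAu p hp, h.perN p hp]
theorem peral : Per a b τ (al ψ) := fun p hp => by
  simp only [al]; rw [h.perAu p hp, h.perA p hp, h.perE p hp]
theorem perbe : Per a b τ (be ψ) := fun p hp => by
  simp only [be]; rw [h.perAv p hp, h.perA p hp, h.perE p hp]

/-- The Hopf differential is real. -/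
theorem M_zero (hp : p ∈ strip a b) : sffM ψ p = 0 := by
  refine max_principle (P := fun _ => 1) h.hτ (fun q hq => h.smM hq) (fun _ _ => contDiffAt_const)
    h.perM (fun _ _ => zero_le_one) (fun q hq => ?_)
    (h.bd_M ⟨le_rfl, h.hab.le⟩ h.sphere_a h.hθa h.angle_a)
    (h.bd_M ⟨h.hab.le, le_rfl⟩ h.sphere_b h.hθb h.angle_b) (fun _ _ _ h0 => absurd h0 one_ne_zero)
    p hp
  rw [h.M_harmonic hq, (HasD.const (p := q) (1 : ℝ)).du_eq, (HasD.const (p := q) (1 : ℝ)).dv_eq]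
  ring

theorem Lu (hp : p ∈ strip a b) : HasD (1, 0) (sffL ψ) 0 p := by
  have e : dv (sffM ψ) p = 0 :=
    (hasD_dv (sm_diff (h.smM hp))).eq_of_strip h.hab hp (HasD.const 0) fun q hq => h.M_zero hq
  refine (hasD_du (sm_diff (h.smL hp))).congr_val ?_
  linarith [h.codazzi₂ hp]

theorem Lv (hp : p ∈ strip a b) : HasD (0, 1) (sffL ψ) 0 p := by
  have e : du (sffM ψ) p = 0 :=
    (hasD_du (sm_diff (h.smM hp))).eq_of_strip h.hab hp (HasD.const 0) fun q hq => h.M_zero hq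
  refine (hasD_dv (sm_diff (h.smL hp))).congr_val ?_
  linarith [h.codazzi₁ hp]

theorem dAu (hp : p ∈ strip a b) : HasD (1, 0) (du ψ)
    (al ψ p • du ψ p - be ψ p • dv ψ p + sffL ψ p • normal ψ p) p :=
  (hasD_du (sm_diff (h.smA hp))).congr_val (h.Au hp)

theorem dAv (hp : p ∈ strip a b) : HasD (0, 1) (du ψ) (be ψ p • du ψ p + al ψ p • dv ψ p) p :=
  (hasD_dv (sm_diff (h.smA hp))).congr_val (by rw [h.Av hp, h.M_zero hp]; simp)

theorem dBu (hp : p ∈ strip a b) : HasD (1, 0) (dv ψ) (be ψ p • du ψ p + al ψ p • dv ψ p) p :=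
  (hasD_du (sm_diff (h.smB hp))).congr_val (by rw [h.Bu hp, h.Av hp, h.M_zero hp]; simp)

theorem dBv (hp : p ∈ strip a b) : HasD (0, 1) (dv ψ)
    (-(al ψ p • du ψ p - be ψ p • dv ψ p + sffL ψ p • normal ψ p)) p :=
  (hasD_dv (sm_diff (h.smB hp))).congr_val (by rw [h.Bv hp, h.Au hp])

theorem dNu (hp : p ∈ strip a b) :
    HasD (1, 0) (normal ψ) (-(sffL ψ p * (confE ψ p)⁻¹) • du ψ p) p :=
  (hasD_du (sm_diff (h.smN hp))).congr_val (by rw [h.Nu hp, h.M_zero hp]; simp)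

theorem dNv (hp : p ∈ strip a b) :
    HasD (0, 1) (normal ψ) ((sffL ψ p * (confE ψ p)⁻¹) • dv ψ p) p :=
  (hasD_dv (sm_diff (h.smN hp))).congr_val (by rw [h.Nv hp, h.M_zero hp]; simp)

/-- Gauss equation and symmetry of the second derivatives of `ω`. -/
theorem gauss (hp : p ∈ strip a b) : dv (al ψ) p = du (be ψ) p ∧
    du (al ψ) p + dv (be ψ) p = sffL ψ p ^ 2 * (confE ψ p)⁻¹ := by
  have hE := (h.immersion p hp).ne'
  have F := h.fr hp
  have au := hasD_du (sm_diff (h.smal hp))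
  have av := hasD_dv (sm_diff (h.smal hp))
  have bu := hasD_du (sm_diff (h.smbe hp))
  have bv := hasD_dv (sm_diff (h.smbe hp))
  have e1 := (hasD_dv (sm_diff (sm_du (h.smA hp)))).eq_of_strip h.hab hp
    (((av.smul (h.dAv hp)).sub (bv.smul (h.dBv hp))).add ((h.Lv hp).smul (h.dNv hp)))
    fun q hq => h.Au hq
  have e2 := (hasD_du (sm_diff (sm_dv (h.smA hp)))).eq_of_strip h.hab hp
    ((bu.smul (h.dAu hp)).add (au.smul (h.dBu hp))) fun q hq => (h.dAv hq).dv_eq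
  rw [du_dv_comm (h.smA hp), e1] at e2
  have eA := congrArg (fun x => x ⬝ᵥ du ψ p) e2
  have eB := congrArg (fun x => x ⬝ᵥ dv ψ p) e2
  simp only [add_dotProduct, sub_dotProduct, smul_dotProduct, neg_dotProduct, smul_eq_mul,
    F.AA, F.BB, F.AB, F.BA, F.NA, F.NB] at eA eB
  constructor
  · apply mul_right_cancel₀ hE; linarith
  · apply mul_right_cancel₀ hE
    have : sffL ψ p * (sffL ψ p * (confE ψ p)⁻¹ * confE ψ p) =
      sffL ψ p ^ 2 * (confE ψ p)⁻¹ * confE ψ p := by ring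
    linarith

end CapAnnulus

end Pool.Agent.Lib.MP_c7e804_gt
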