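import Pool.Agent.Lib.MP_c7e804_gt.H63Sphere

/-!
The rotation fields and `ω_v` are Jacobi fields of the capillary problem.
-/

namespace Pool.Agent.Lib.MP_c7e804_gt

open Matrix Set Filter Topology
open scoped ContDiff

theorem deriv_nonneg_of_max_left {g : ℝ → ℝ} {g' a b : ℝ} (hab : a < b) (hg : HasDerivAt g g' b)
    (hle : ∀ t, a < t → t < b → g t ≤ g b) : 0 ≤ g' := by
  have h1 : Tendsto (slope g b) (𝓝[<] b) (𝓝 g') :=
    (hasDerivAt_iff_tendsto_slope.1 hg).mono_left (nhdsWithin_mono _ fun t ht => ne_of_lt ht)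
  refine ge_of_tendsto h1 ?_
  filter_upwards [Ioo_mem_nhdsLT hab] with t ht
  rw [slope_def_field]
  exact div_nonneg_of_nonpos (by linarith [hle t ht.1 ht.2]) (by linarith [ht.2])

theorem deriv_nonpos_of_max_right {g : ℝ → ℝ} {g' a b : ℝ} (hab : a < b) (hg : HasDerivAt g g' a)
    (hle : ∀ t, a < t → t < b → g t ≤ g a) : g' ≤ 0 := by
  have h1 : Tendsto (slope g a) (𝓝[>] a) (𝓝 g') :=
    (hasDerivAt_iff_tendsto_slope.1 hg).mono_left (nhdsWithin_mono _ fun t ht => ne_of_gt ht)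
  refine le_of_tendsto h1 ?_
  filter_upwards [Ioo_mem_nhdsGT hab] with t ht
  rw [slope_def_field]
  exact div_nonpos_of_nonpos_of_nonneg (by linarith [hle t ht.1 ht.2]) (by linarith [ht.1])

namespace CapAnnulus

variable {ψ : ℝ × ℝ → V3} {a b τ θa θb : ℝ} (h : CapAnnulus ψ a b τ θa θb) {p : ℝ × ℝ}
include h

theorem normA2_eq (hp : p ∈ strip a b) :
    normA2 ψ p = 2 * (sffL ψ p * (confE ψ p)⁻¹) ^ 2 := by
  rw [normA2, h.sffN_eq hp, h.M_zero hp]; field_simp; ring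

theorem pde_be (hp : p ∈ strip a b) :
    (du (du (be ψ)) p + dv (dv (be ψ)) p) / confE ψ p + normA2 ψ p * be ψ p = 0 := by
  have hE := (h.immersion p hp).ne'
  have e1 : du (du (be ψ)) p = du (dv (al ψ)) p :=
    (hasD_du (sm_diff (sm_du (h.smbe hp)))).eq_of_strip h.hab hp
      (hasD_du (sm_diff (sm_dv (h.smal hp)))) fun q hq => (h.gauss hq).1.symm
  have e2 := ((hasD_dv (sm_diff (sm_du (h.smal hp)))).add
    (hasD_dv (sm_diff (sm_dv (h.smbe hp))))).eq_of_strip h.hab hp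
    (((h.Lv hp).mul (h.Lv hp)).mul (h.Eiv hp)) fun q hq => by rw [(h.gauss hq).2]; ring
  rw [e1, du_dv_comm (h.smal hp), e2, h.normA2_eq hp]
  field_simp; ring

theorem pde_R (e : V3) (hp : p ∈ strip a b) :
    (du (du (rotN ψ e)) p + dv (dv (rotN ψ e)) p) / confE ψ p + normA2 ψ p * rotN ψ e p = 0 := by
  have hE := (h.immersion p hp).ne'
  have e1 := (hasD_du (sm_diff (sm_du (h.smR e hp)))).eq_of_strip h.hab hp
    ((h.dg2u e hp).neg.sub (((h.Lu hp).mul (h.Eiu hp)).mul (h.dk1u e hp)))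
    fun q hq => (h.dRu e hq).du_eq
  have e2 := (hasD_dv (sm_diff (sm_dv (h.smR e hp)))).eq_of_strip h.hab hp
    ((h.dg1v e hp).add (((h.Lv hp).mul (h.Eiv hp)).mul (h.dk2v e hp)))
    fun q hq => (h.dRv e hq).dv_eq
  rw [e1, e2, h.normA2_eq hp]
  field_simp; ring

theorem bd_psi {u θ : ℝ} (hu : a ≤ u ∧ u ≤ b) (hs : ∀ v, ψ (u, v) ⬝ᵥ ψ (u, v) = 1)
    (ha : ∀ v, normal ψ (u, v) ⬝ᵥ ψ (u, v) = Real.cos θ) (v : ℝ) :
    ψ (u, v) = ((ψ (u, v) ⬝ᵥ du ψ (u, v)) * (confE ψ (u, v))⁻¹) • du ψ (u, v)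
      + Real.cos θ • normal ψ (u, v) := by
  have hp : ((u, v) : ℝ × ℝ) ∈ strip a b := hu
  have e := (h.fr hp).decomp (ψ (u, v))
  rw [h.bd_psiB hu hs v, dotProduct_comm (ψ (u, v)) (normal ψ (u, v)), ha v] at e
  simpa using e

/-- Robin condition for the rotation fields, with `s = ψ · ψ_u`. -/
theorem bd_robin_R (e : V3) {u θ : ℝ} (hu : a ≤ u ∧ u ≤ b)
    (hs : ∀ v, ψ (u, v) ⬝ᵥ ψ (u, v) = 1)
    (ha : ∀ v, normal ψ (u, v) ⬝ᵥ ψ (u, v) = Real.cos θ) (v : ℝ) :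
    du (rotN ψ e) (u, v) * (ψ (u, v) ⬝ᵥ du ψ (u, v)) =
      rotN ψ e (u, v) * (confE ψ (u, v) + Real.cos θ * sffL ψ (u, v)) := by
  have hp : ((u, v) : ℝ × ℝ) ∈ strip a b := hu
  have hE := (h.immersion _ hp).ne'
  have F := h.fr hp
  have hψ := h.bd_psi hu hs ha v
  set s := ψ (u, v) ⬝ᵥ du ψ (u, v)
  have e1 : rotN ψ e (u, v) = -(s * (confE ψ (u, v))⁻¹ * (e ⬝ᵥ dv ψ (u, v))) := by
    rw [rotN]; conv_lhs => rw [hψ]
    simp only [map_add, map_smul, dotProduct_add, dotProduct_smul, smul_eq_mul, F.eAN,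
      dot_cross_self']
    ring
  have e2 : (e ⨯₃ ψ (u, v)) ⬝ᵥ du ψ (u, v) = Real.cos θ * (e ⬝ᵥ dv ψ (u, v)) := by
    conv_lhs => rw [hψ]
    simp only [map_add, map_smul, add_dotProduct, smul_dotProduct, smul_eq_mul, F.eNA,
      cross_dot_self']
    ring
  rw [(h.dRu e hp).du_eq, e1, e2]
  field_simp; ring

/-- Robin condition for `ω_v`, with `s = ψ · ψ_u`. -/
theorem bd_robin_be {u θ : ℝ} (hu : a ≤ u ∧ u ≤ b)
    (hs : ∀ v, ψ (u, v) ⬝ᵥ ψ (u, v) = 1)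
    (ha : ∀ v, normal ψ (u, v) ⬝ᵥ ψ (u, v) = Real.cos θ) (v : ℝ) :
    du (be ψ) (u, v) * (ψ (u, v) ⬝ᵥ du ψ (u, v)) =
      be ψ (u, v) * (confE ψ (u, v) + Real.cos θ * sffL ψ (u, v)) := by
  have hp : ((u, v) : ℝ × ℝ) ∈ strip a b := hu
  have key : ∀ t, al ψ (u, t) * (ψ (u, t) ⬝ᵥ du ψ (u, t)) =
      confE ψ (u, t) - Real.cos θ * sffL ψ (u, t) := by
    intro t
    have ht : ((u, t) : ℝ × ℝ) ∈ strip a b := hu
    have e := h.bd_psiBv hu hs t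
    rw [(h.dBv ht).dv_eq] at e
    simp only [dotProduct_neg, dotProduct_add, dotProduct_sub, dotProduct_smul, smul_eq_mul] at e
    rw [h.bd_psiB hu hs t, dotProduct_comm (ψ (u, t)) (normal ψ (u, t)), ha t] at e
    linarith
  have e := ((hasD_dv (sm_diff (h.smal hp))).mul
    ((hasD_dv (sm_diff (h.smooth _ hp))).dot (h.dAv hp))).eq_of_line
    ((h.Ev hp).sub ((HasD.const (Real.cos θ)).mul (h.Lv hp))) key
  simp only [dotProduct_add, dotProduct_smul, smul_eq_mul] at e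
  rw [(h.fr hp).BA, h.bd_psiB hu hs v, (h.gauss hp).1] at e
  linear_combination e - be ψ (u, v) * key v

theorem s_b (v : ℝ) : ψ (b, v) ⬝ᵥ du ψ (b, v) = √(confE ψ (b, v)) * Real.sin θb := by
  have hu : a ≤ b ∧ b ≤ b := ⟨h.hab.le, le_rfl⟩
  have hp : ((b, v) : ℝ × ℝ) ∈ strip a b := hu
  have hE := h.immersion _ hp
  have h1 := hasD_du (sm_diff (h.smooth _ hp))
  have h2 := hasDerivAt_line_u (h1.dot h1).1
  rw [(h1.dot h1).du_eq, dotProduct_comm (du ψ (b, v))] at h2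
  have h3 := deriv_nonneg_of_max_left h.hab h2 fun t h₁ h₂ => by
    rw [h.sphere_b v]; exact (h.inside (t, v) h₁ h₂).le
  have h4 := h.bd_psiA_sq hu h.sphere_b h.angle_b v
  have hsin := Real.sin_pos_of_pos_of_lt_pi h.hθb.1 h.hθb.2
  refine (pow_left_inj₀ (by linarith) (by positivity) two_ne_zero).1 ?_
  rw [h4, mul_pow, Real.sq_sqrt hE.le]

theorem s_a (v : ℝ) : ψ (a, v) ⬝ᵥ du ψ (a, v) = -(√(confE ψ (a, v)) * Real.sin θa) := by
  have hu : a ≤ a ∧ a ≤ b := ⟨le_rfl, h.hab.le⟩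
  have hp : ((a, v) : ℝ × ℝ) ∈ strip a b := hu
  have hE := h.immersion _ hp
  have h1 := hasD_du (sm_diff (h.smooth _ hp))
  have h2 := hasDerivAt_line_u (h1.dot h1).1
  rw [(h1.dot h1).du_eq, dotProduct_comm (du ψ (a, v))] at h2
  have h3 := deriv_nonpos_of_max_right h.hab h2 fun t h₁ h₂ => by
    rw [h.sphere_a v]; exact (h.inside (t, v) h₁ h₂).le
  have h4 := h.bd_psiA_sq hu h.sphere_a h.angle_a v
  have hsin := Real.sin_pos_of_pos_of_lt_pi h.hθa.1 h.hθa.2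
  rw [← neg_eq_iff_eq_neg]
  refine (pow_left_inj₀ (by linarith) (by positivity) two_ne_zero).1 ?_
  rw [neg_sq, h4, mul_pow, Real.sq_sqrt hE.le]

theorem jacobi_of {f : ℝ × ℝ → ℝ} (hsm : ∀ p ∈ strip a b, ContDiffAt ℝ ∞ f p)
    (hper : Per a b τ f)
    (hpde : ∀ p ∈ strip a b, (du (du f) p + dv (dv f) p) / confE ψ p + normA2 ψ p * f p = 0)
    (ha : ∀ v, du f (a, v) * (ψ (a, v) ⬝ᵥ du ψ (a, v)) =
      f (a, v) * (confE ψ (a, v) + Real.cos θa * sffL ψ (a, v)))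
    (hb : ∀ v, du f (b, v) * (ψ (b, v) ⬝ᵥ du ψ (b, v)) =
      f (b, v) * (confE ψ (b, v) + Real.cos θb * sffL ψ (b, v))) :
    IsJacobi ψ a b τ θa θb f := by
  refine ⟨hsm, hper, hpde, fun v => ?_, fun v => ?_⟩
  · have hE := h.immersion (a, v) ⟨le_rfl, h.hab.le⟩
    have hsin := (Real.sin_pos_of_pos_of_lt_pi h.hθa.1 h.hθa.2).ne'
    have e := ha v
    rw [h.s_a v] at e
    have hX := (Real.sqrt_pos.2 hE).ne'
    have hX2 := Real.mul_self_sqrt hE.le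
    set X := √(confE ψ (a, v))
    rw [← hX2] at e ⊢
    field_simp
    linear_combination e
  · have hE := h.immersion (b, v) ⟨h.hab.le, le_rfl⟩
    have hsin := (Real.sin_pos_of_pos_of_lt_pi h.hθb.1 h.hθb.2).ne'
    have e := hb v
    rw [h.s_b v] at e
    have hX := (Real.sqrt_pos.2 hE).ne'
    have hX2 := Real.mul_self_sqrt hE.le
    set X := √(confE ψ (b, v))
    rw [← hX2] at e ⊢
    field_simp
    linear_combination e

theorem jacobi_be : IsJacobi ψ a b τ θa θb (be ψ) :=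
  h.jacobi_of (fun _ hp => h.smbe hp) h.perbe (fun _ hp => h.pde_be hp)
    (h.bd_robin_be ⟨le_rfl, h.hab.le⟩ h.sphere_a h.angle_a)
    (h.bd_robin_be ⟨h.hab.le, le_rfl⟩ h.sphere_b h.angle_b)

theorem jacobi_R (e : V3) : IsJacobi ψ a b τ θa θb (rotN ψ e) :=
  h.jacobi_of (fun _ hp => h.smR e hp) (h.perR e) (fun _ hp => h.pde_R e hp)
    (h.bd_robin_R e ⟨le_rfl, h.hab.le⟩ h.sphere_a h.angle_a)
    (h.bd_robin_R e ⟨h.hab.le, le_rfl⟩ h.sphere_b h.angle_b)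

end CapAnnulus

end Pool.Agent.Lib.MP_c7e804_gt
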