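import Pool.Agent.Lib.MP_c7e804_gt.H63Calc

/-!
A weak maximum principle on the periodic strip for the degenerate equation
`P ΔZ = ∇P · ∇Z`, `P ≥ 0`.
-/

namespace Pool.Agent.Lib.MP_c7e804_gt

open Matrix Set Filter Topology
open scoped ContDiff

theorem second_deriv_nonpos {g g' : ℝ → ℝ} {g'' x : ℝ} (hm : IsLocalMax g x)
    (h1 : ∀ᶠ t in 𝓝 x, HasDerivAt g (g' t) t) (h2 : HasDerivAt g' g'' x) :
    g' x = 0 ∧ g'' ≤ 0 := by
  have hx : HasDerivAt g (g' x) x := h1.self_of_nhds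
  have h0 : g' x = 0 := hm.hasDerivAt_eq_zero hx
  refine ⟨h0, ?_⟩
  by_contra hpos
  push Not at hpos
  have hd : deriv g =ᶠ[𝓝 x] g' := h1.mono fun t ht => ht.deriv
  have hdd : deriv (deriv g) x = g'' := by rw [hd.deriv_eq, h2.deriv]
  have hmin : IsLocalMin g x :=
    isLocalMin_of_deriv_deriv_pos (by rw [hdd]; exact hpos) (by rw [hx.deriv, h0]) hx.continuousAt
  have hc : g =ᶠ[𝓝 x] fun _ => g x := by
    filter_upwards [hm, hmin] with t h₁ h₂ using le_antisymm h₁ h₂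
  have hc' : deriv g =ᶠ[𝓝 x] fun _ => (0 : ℝ) := by
    filter_upwards [hc.deriv] with t ht
    rw [ht]; simp
  have : deriv (deriv g) x = 0 := by rw [hc'.deriv_eq]; simp
  linarith

theorem per_reduce {F : Type} [NormedAddCommGroup F] [NormedSpace ℝ F] {a b τ : ℝ} (hτ : 0 < τ)
    {f : ℝ × ℝ → F} (hper : Per a b τ f) {p : ℝ × ℝ} (hp : p ∈ strip a b) :
    ∃ v ∈ Icc (0 : ℝ) τ, f p = f (p.1, v) := by
  have hP : Function.Periodic (fun t => f (p.1, t)) τ := fun t => hper (p.1, t) hp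
  obtain ⟨y, hy, e⟩ := hP.exists_mem_Ico₀ hτ p.2
  exact ⟨y, Ico_subset_Icc_self hy, e⟩

theorem eventually_diff {f : ℝ × ℝ → ℝ} {p : ℝ × ℝ} (h : ContDiffAt ℝ ∞ f p) :
    ∀ᶠ q in 𝓝 p, DifferentiableAt ℝ f q := by
  have h1 : ContDiffAt ℝ 1 f p := h.of_le (by simp)
  exact (h1.eventually (by simp)).mono fun q hq => hq.differentiableAt (by simp)

theorem max_le {a b τ : ℝ} (hτ : 0 < τ) {Z P : ℝ × ℝ → ℝ}
    (hZ : ∀ p ∈ strip a b, ContDiffAt ℝ ∞ Z p) (hP : ∀ p ∈ strip a b, ContDiffAt ℝ ∞ P p)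
    (hper : Per a b τ Z) (hP0 : ∀ p ∈ strip a b, 0 ≤ P p)
    (heq : ∀ p ∈ strip a b,
      P p * (du (du Z) p + dv (dv Z) p) = du P p * du Z p + dv P p * dv Z p)
    (ha : ∀ v, Z (a, v) = 0) (hb : ∀ v, Z (b, v) = 0)
    (hz : ∀ p : ℝ × ℝ, a < p.1 → p.1 < b → P p = 0 → Z p = 0) :
    ∀ p ∈ strip a b, Z p ≤ 0 := by
  intro p₀ hp₀
  by_contra hm
  push Not at hm
  set m := Z p₀ with hmdef
  set K : Set (ℝ × ℝ) := Icc a b ×ˢ Icc 0 τ with hK
  have hKc : IsCompact K := isCompact_Icc.prod isCompact_Icc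
  have hKs : K ⊆ strip a b := fun q hq => hq.1
  have hZc : ContinuousOn Z K := fun q hq => (hZ q (hKs hq)).continuousAt.continuousWithinAt
  set C : Set (ℝ × ℝ) := K ∩ Z ⁻¹' Ici (m / 2) with hC
  have hCc : IsCompact C :=
    hKc.of_isClosed_subset (hZc.preimage_isClosed_of_isClosed hKc.isClosed isClosed_Ici)
      inter_subset_left
  have hint : ∀ q ∈ C, a < q.1 ∧ q.1 < b := by
    intro q hq
    have h1 : m / 2 ≤ Z q := hq.2
    constructor
    · rcases eq_or_lt_of_le hq.1.1.1 with h | h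
      · have : q = (a, q.2) := by ext <;> simp [h]
        rw [this, ha] at h1; linarith
      · exact h
    · rcases eq_or_lt_of_le hq.1.1.2 with h | h
      · have : q = (b, q.2) := by ext <;> simp [h]
        rw [this, hb] at h1; linarith
      · exact h
  have hPpos : ∀ q ∈ C, 0 < P q := by
    intro q hq
    rcases eq_or_lt_of_le (hP0 q (hKs hq.1)) with h | h
    · have h1 : m / 2 ≤ Z q := hq.2
      rw [hz q (hint q hq).1 (hint q hq).2 h.symm] at h1; linarith
    · exact h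
  have hqc : ContinuousOn (fun q => du P q / P q) C := fun q hq =>
    ((sm_du (hP q (hKs hq.1))).continuousAt.div (hP q (hKs hq.1)).continuousAt
      (hPpos q hq).ne').continuousWithinAt
  obtain ⟨B, hB⟩ := hCc.exists_bound_of_continuousOn hqc
  set l := |B| + 1 with hl
  have hl0 : 0 < l := by positivity
  set ε := m / 4 with hε
  have hε0 : 0 < ε := by positivity
  set W : ℝ × ℝ → ℝ := fun q => Z q + ε * Real.exp (l * (q.1 - b)) with hW
  have hWc : ContinuousOn W K := hZc.add (by fun_prop)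
  obtain ⟨v₀, hv₀, e₀⟩ := per_reduce hτ hper hp₀
  have hK0 : ((p₀.1, v₀) : ℝ × ℝ) ∈ K := ⟨hp₀, hv₀⟩
  obtain ⟨q, hqK, hqmax⟩ := hKc.exists_isMaxOn ⟨_, hK0⟩ hWc
  have hglob : ∀ r ∈ strip a b, W r ≤ W q := by
    intro r hr
    obtain ⟨v, hv, e⟩ := per_reduce hτ hper hr
    have h1 : W (r.1, v) ≤ W q := hqmax (show ((r.1, v) : ℝ × ℝ) ∈ K from ⟨hr, hv⟩)
    have h2 : W r = W (r.1, v) := by simp only [hW]; rw [e]
    rw [h2]; exact h1
  have hexp1 : Real.exp (l * (q.1 - b)) ≤ 1 := by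
    rw [Real.exp_le_one_iff]
    exact mul_nonpos_of_nonneg_of_nonpos hl0.le (by linarith [hqK.1.2])
  have hqC : q ∈ C := by
    refine ⟨hqK, ?_⟩
    have h1 := hglob p₀ hp₀
    simp only [hW] at h1
    have h2 : 0 < ε * Real.exp (l * (p₀.1 - b)) := by positivity
    have h3 : ε * Real.exp (l * (q.1 - b)) ≤ ε := by nlinarith
    show m / 2 ≤ Z q
    linarith
  obtain ⟨u, v⟩ := q
  have hu := hint _ hqC
  have hqs : ((u, v) : ℝ × ℝ) ∈ strip a b := hKs hqK
  have hZq := hZ _ hqs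
  have hev := eventually_diff hZq
  -- the `v` direction
  have hv : dv Z (u, v) = 0 ∧ dv (dv Z) (u, v) ≤ 0 := by
    apply second_deriv_nonpos (g := fun t => Z (u, t)) (g' := fun t => dv Z (u, t))
    · refine Filter.Eventually.of_forall fun t => ?_
      have := hglob (u, t) hqs
      simp only [hW] at this
      linarith
    · have hc : ContinuousAt (fun t : ℝ => ((u, t) : ℝ × ℝ)) v := by fun_prop
      exact (hc.eventually hev).mono fun t ht => hasDerivAt_line_v ht
    · exact hasDerivAt_line_v (sm_diff (sm_dv hZq))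
  -- the `u` direction
  have hexp : ∀ t : ℝ, HasDerivAt (fun s : ℝ => Real.exp (l * (s - b)))
      (Real.exp (l * (t - b)) * l) t := fun t => by
    have := (((hasDerivAt_id t).sub_const b).const_mul l).exp
    simpa using this
  have hu' : du Z (u, v) + ε * (Real.exp (l * (u - b)) * l) = 0 ∧
      du (du Z) (u, v) + ε * (Real.exp (l * (u - b)) * l * l) ≤ 0 := by
    apply second_deriv_nonpos (g := fun t => W (t, v))
      (g' := fun t => du Z (t, v) + ε * (Real.exp (l * (t - b)) * l))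
    · filter_upwards [Ioo_mem_nhds hu.1 hu.2] with t ht
      exact hglob (t, v) ⟨ht.1.le, ht.2.le⟩
    · have hc : ContinuousAt (fun t : ℝ => ((t, v) : ℝ × ℝ)) u := by fun_prop
      exact (hc.eventually hev).mono fun t ht =>
        (hasDerivAt_line_u ht).add ((hexp t).const_mul ε)
    · exact (hasDerivAt_line_u (sm_diff (sm_du hZq))).add (((hexp u).mul_const l).const_mul ε)
  have hPq := hPpos _ hqC
  have hBq : du P (u, v) / P (u, v) < l := by
    have := hB _ hqC
    rw [Real.norm_eq_abs] at this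
    have h2 := le_abs_self (du P (u, v) / P (u, v))
    have h3 := le_abs_self B
    linarith
  rw [div_lt_iff₀ hPq] at hBq
  have hE := heq _ hqs
  set x := Real.exp (l * (u - b)) with hx
  have hx0 : 0 < x := Real.exp_pos _
  have hy : 0 < ε * (x * l) := by positivity
  have e1 : du Z (u, v) = -(ε * (x * l)) := by linarith [hu'.1]
  rw [hv.1, e1] at hE
  have h5 : P (u, v) * (du (du Z) (u, v) + dv (dv Z) (u, v)) ≤ P (u, v) * (-(ε * (x * l * l))) :=
    mul_le_mul_of_nonneg_left (by linarith [hu'.2, hv.2]) hPq.le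
  nlinarith

theorem max_principle {a b τ : ℝ} (hτ : 0 < τ) {Z P : ℝ × ℝ → ℝ}
    (hZ : ∀ p ∈ strip a b, ContDiffAt ℝ ∞ Z p) (hP : ∀ p ∈ strip a b, ContDiffAt ℝ ∞ P p)
    (hper : Per a b τ Z) (hP0 : ∀ p ∈ strip a b, 0 ≤ P p)
    (heq : ∀ p ∈ strip a b,
      P p * (du (du Z) p + dv (dv Z) p) = du P p * du Z p + dv P p * dv Z p)
    (ha : ∀ v, Z (a, v) = 0) (hb : ∀ v, Z (b, v) = 0)
    (hz : ∀ p : ℝ × ℝ, a < p.1 → p.1 < b → P p = 0 → Z p = 0) :
    ∀ p ∈ strip a b, Z p = 0 := by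
  intro p hp
  have h1 := max_le hτ hZ hP hper hP0 heq ha hb hz p hp
  have e1 : du (fun q => -Z q) = fun q => -du Z q := by
    funext q; simp only [du]; rw [fderiv_fun_neg]; rfl
  have e2 : dv (fun q => -Z q) = fun q => -dv Z q := by
    funext q; simp only [dv]; rw [fderiv_fun_neg]; rfl
  have e3 : du (fun q => -du Z q) = fun q => -du (du Z) q := by
    funext q; simp only [du]; rw [fderiv_fun_neg]; rfl
  have e4 : dv (fun q => -dv Z q) = fun q => -dv (dv Z) q := by
    funext q; simp only [dv]; rw [fderiv_fun_neg]; rfl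
  have h2 := max_le (Z := fun q => -Z q) hτ (fun q hq => (hZ q hq).neg) hP
    (fun q hq => by simp only; rw [hper q hq]) hP0
    (fun q hq => by rw [e1, e2, e3, e4]; simp only; linarith [heq q hq])
    (fun v => by simp [ha]) (fun v => by simp [hb])
    (fun q h₁ h₂ h₃ => by simp [hz q h₁ h₂ h₃]) p hp
  linarith

end Pool.Agent.Lib.MP_c7e804_gt
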