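import Pool.Agent.Lib.MP_c7e804_gt.H63Z

/-!
From `Z = 0` to spherical curvature lines (real analyticity and a Wronskian argument).
-/

namespace Pool.Agent.Lib.MP_c7e804_gt

open Matrix Set Filter Topology
open scoped ContDiff

theorem analyticAt_of_harmonic {g : ℝ × ℝ → ℝ} {U : Set (ℝ × ℝ)} (hU : IsOpen U)
    (hg : ∀ p ∈ U, ContDiffAt ℝ ∞ g p) (hh : ∀ p ∈ U, du (du g) p + dv (dv g) p = 0)
    {p : ℝ × ℝ} (hp : p ∈ U) : AnalyticAt ℝ g p := by
  set T := Complex.equivRealProdCLM with hT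
  have hG : ∀ z : ℂ, T z ∈ U → ContDiffAt ℝ ∞ (g ∘ T) z := fun z hz =>
    (hg _ hz).comp z T.contDiff.contDiffAt
  have hf : ∀ (k : ℝ × ℝ → ℝ) (z w : ℂ), fderiv ℝ (k ∘ T) z w = fderiv ℝ k (T z) (T w) := by
    intro k z w
    rw [T.comp_right_fderiv]; rfl
  have h2 : ∀ z : ℂ, T z ∈ U → ∀ w : ℂ, iteratedFDeriv ℝ 2 (g ∘ T) z ![w, w] =
      fderiv ℝ (fun q => fderiv ℝ g q (T w)) (T z) (T w) := by
    intro z hz w
    have h1 : DifferentiableAt ℝ (fderiv ℝ (g ∘ T)) z :=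
      ((hG z hz).fderiv_right (m := ∞) (by simp)).differentiableAt (by simp)
    have e : fderiv ℝ (fun y => fderiv ℝ (g ∘ T) y w) z w = fderiv ℝ (fderiv ℝ (g ∘ T)) z w w := by
      rw [fderiv_clm_apply h1 (differentiableAt_const _)]; simp
    rw [iteratedFDeriv_two_apply]
    simp only [Matrix.cons_val_zero, Matrix.cons_val_one]
    rw [← e, ← hf]
    congr 2
    funext y
    exact hf g y w
  have hT1 : T 1 = (1, 0) := by simp [hT]
  have hTI : T Complex.I = (0, 1) := by simp [hT]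
  have hH : InnerProductSpace.HarmonicAt (g ∘ T) (T.symm p) := by
    refine ⟨(hG _ (by simpa using hp)).of_le two_le_infty, ?_⟩
    have hO : T ⁻¹' U ∈ 𝓝 (T.symm p) :=
      (hU.preimage T.continuous).mem_nhds (by simpa using hp)
    filter_upwards [hO] with z hz
    rw [InnerProductSpace.laplacian_eq_iteratedFDeriv_complexPlane]
    simp only [Pi.zero_apply]
    rw [h2 z hz, h2 z hz, hT1, hTI]
    exact hh _ hz
  have hA := HarmonicAt.analyticAt hH
  have : g = (g ∘ T) ∘ T.symm := by funext q; simp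
  rw [this]
  exact hA.comp (T.symm.analyticAt p)

theorem wronskian_zero {x y x' y' : ℝ → ℝ} (hx : AnalyticOnNhd ℝ x univ)
    (hy : AnalyticOnNhd ℝ y univ) (dx : ∀ v, HasDerivAt x (x' v) v)
    (dy : ∀ v, HasDerivAt y (y' v) v) (hw : ∀ v, x' v * y v - x v * y' v = 0) :
    (∀ v, y v = 0) ∨ ∃ t, ∀ v, x v = t * y v := by
  by_cases h0 : ∀ v, y v = 0
  · exact Or.inl h0
  right
  push Not at h0
  obtain ⟨v₀, hv₀⟩ := h0
  have hev : ∀ᶠ v in 𝓝 v₀, y v ≠ 0 := (dy v₀).continuousAt.eventually_ne hv₀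
  obtain ⟨ε, hε, hb⟩ := Metric.eventually_nhds_iff_ball.1 hev
  have hq : ∀ v ∈ Metric.ball v₀ ε, HasDerivAt (fun s => x s / y s) 0 v := by
    intro v hv
    have := (dx v).div (dy v) (hb v hv)
    rw [hw v, zero_div] at this
    exact this
  have hc : ∀ v ∈ Metric.ball v₀ ε, x v / y v = x v₀ / y v₀ := by
    intro v hv
    exact Metric.isOpen_ball.is_const_of_deriv_eq_zero (convex_ball v₀ ε).isPreconnected
      (fun s hs => (hq s hs).differentiableAt.differentiableWithinAt)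
      (fun s hs => (hq s hs).deriv) hv (Metric.mem_ball_self hε)
  refine ⟨x v₀ / y v₀, fun v => ?_⟩
  have hz : AnalyticOnNhd ℝ (fun s => x v₀ / y v₀ * y s) univ :=
    analyticOnNhd_const.mul hy
  refine hx.eqOn_of_preconnected_of_eventuallyEq hz isPreconnected_univ (mem_univ v₀) ?_
    (mem_univ v)
  filter_upwards [Metric.ball_mem_nhds v₀ hε] with s hs
  rw [← hc s hs, div_mul_cancel₀ _ (hb s hs)]

theorem an_dot {f g : ℝ → V3} {v : ℝ} (hf : AnalyticAt ℝ f v) (hg : AnalyticAt ℝ g v) :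
    AnalyticAt ℝ (fun t => f t ⬝ᵥ g t) v := by
  have a := analyticAt_pi_iff.1 hf
  have b := analyticAt_pi_iff.1 hg
  simp only [dotProduct, Fin.sum_univ_three]
  exact (((a 0).mul (b 0)).add ((a 1).mul (b 1))).add ((a 2).mul (b 2))

namespace CapAnnulus

variable {ψ : ℝ × ℝ → V3} {a b τ θa θb : ℝ} (h : CapAnnulus ψ a b τ θa θb) {p : ℝ × ℝ}
include h

theorem analytic (h1 : a < p.1) (h2 : p.1 < b) : AnalyticAt ℝ ψ p := by
  have hU : IsOpen {q : ℝ × ℝ | a < q.1 ∧ q.1 < b} :=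
    (isOpen_lt continuous_const continuous_fst).inter (isOpen_lt continuous_fst continuous_const)
  refine analyticAt_pi_iff.2 fun i => analyticAt_of_harmonic hU
    (fun q hq => sm_apply (h.smooth q ⟨hq.1.le, hq.2.le⟩) i) (fun q hq => ?_) ⟨h1, h2⟩
  have hs : q ∈ strip a b := ⟨hq.1.le, hq.2.le⟩
  have e1 : du (du fun r => ψ r i) q = du (du ψ) q i :=
    (hasD_du (sm_diff (sm_du (sm_apply (h.smooth q hs) i)))).eq_of_strip h.hab hs
      ((hasD_du (sm_diff (sm_du (h.smooth q hs)))).apply i)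
      fun r hr => ((hasD_du (sm_diff (h.smooth r hr))).apply i).du_eq
  have e2 : dv (dv fun r => ψ r i) q = dv (dv ψ) q i :=
    (hasD_dv (sm_diff (sm_dv (sm_apply (h.smooth q hs) i)))).eq_of_strip h.hab hs
      ((hasD_dv (sm_diff (sm_dv (h.smooth q hs)))).apply i)
      fun r hr => ((hasD_dv (sm_diff (h.smooth r hr))).apply i).dv_eq
  rw [e1, e2]
  exact congrFun (h.harmonic q hs) i

theorem analytic_line {u : ℝ} (h1 : a < u) (h2 : u < b) (v : ℝ) :
    AnalyticAt ℝ (fun t => ψ (u, t)) v ∧ AnalyticAt ℝ (fun t => dv ψ (u, t)) v := by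
  have hl : AnalyticAt ℝ (fun t : ℝ => ((u, t) : ℝ × ℝ)) v := analyticAt_const.prod analyticAt_id
  have hA : AnalyticAt ℝ ψ (u, v) := h.analytic h1 h2
  refine ⟨hA.comp_of_eq hl rfl, ?_⟩
  have hB : AnalyticAt ℝ (dv ψ) (u, v) :=
    ((ContinuousLinearMap.apply ℝ V3 ((0, 1) : ℝ × ℝ)).analyticAt _).comp hA.fderiv
  exact hB.comp_of_eq hl rfl

theorem line_x {u : ℝ} (hu : a ≤ u ∧ u ≤ b) (v : ℝ) :
    HasDerivAt (fun t => ψ (u, t) ⬝ᵥ dv ψ (u, t))
      (confE ψ (u, v) + ψ (u, v) ⬝ᵥ dv (dv ψ) (u, v)) v := by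
  have hp : ((u, v) : ℝ × ℝ) ∈ strip a b := hu
  have := (hasD_dv (sm_diff (h.smooth _ hp))).dot (hasD_dv (sm_diff (h.smB hp)))
  have h2 := hasDerivAt_line_v this.1
  rw [this.dv_eq, h.conformal_eq _ hp] at h2
  exact h2

theorem line_y (e : V3) {u : ℝ} (hu : a ≤ u ∧ u ≤ b) (v : ℝ) :
    HasDerivAt (fun t => e ⬝ᵥ dv ψ (u, t)) (e ⬝ᵥ dv (dv ψ) (u, v)) v := by
  have hp : ((u, v) : ℝ × ℝ) ∈ strip a b := hu
  have := (HasD.const e).dot (hasD_dv (sm_diff (h.smB hp)))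
  have h2 := hasDerivAt_line_v this.1
  rw [this.dv_eq, zero_dotProduct, zero_add] at h2
  exact h2

theorem line_h (e : V3) {u : ℝ} (hu : a ≤ u ∧ u ≤ b) (v : ℝ) :
    HasDerivAt (fun t => e ⬝ᵥ ψ (u, t)) (e ⬝ᵥ dv ψ (u, v)) v := by
  have hp : ((u, v) : ℝ × ℝ) ∈ strip a b := hu
  have := (HasD.const e).dot (hasD_dv (sm_diff (h.smooth _ hp)))
  have h2 := hasDerivAt_line_v this.1
  rw [this.dv_eq, zero_dotProduct, zero_add] at h2
  exact h2

theorem line_p (c : V3) {u : ℝ} (hu : a ≤ u ∧ u ≤ b) (v : ℝ) :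
    HasDerivAt (fun t => (ψ (u, t) - c) ⬝ᵥ (ψ (u, t) - c))
      (2 * ((ψ (u, v) - c) ⬝ᵥ dv ψ (u, v))) v := by
  have hp : ((u, v) : ℝ × ℝ) ∈ strip a b := hu
  have h1 := (hasD_dv (sm_diff (h.smooth _ hp))).sub (HasD.const c)
  have := h1.dot h1
  have h2 := hasDerivAt_line_v this.1
  rw [this.dv_eq, sub_zero, dotProduct_comm (dv ψ (u, v)), ← two_mul] at h2
  exact h2

theorem foliated_of_Z (e : V3) (hZ : ∀ p ∈ strip a b, Zf ψ e p = 0) : FoliatedAbout ψ a b e := by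
  refine ⟨fun p hp => ⟨_, (h.dNv hp).dv_eq⟩, fun u hu1 hu2 => ?_⟩
  have hu : a ≤ u ∧ u ≤ b := ⟨hu1, hu2⟩
  rcases eq_or_lt_of_le hu1 with rfl | h1
  · exact Or.inl ⟨0, 1, one_pos, fun v => by simpa using h.sphere_a v⟩
  rcases eq_or_lt_of_le hu2 with rfl | h2
  · exact Or.inl ⟨0, 1, one_pos, fun v => by simpa using h.sphere_b v⟩
  have hw := wronskian_zero (x := fun t => ψ (u, t) ⬝ᵥ dv ψ (u, t))
    (y := fun t => e ⬝ᵥ dv ψ (u, t))
    (fun v _ => an_dot (h.analytic_line h1 h2 v).1 (h.analytic_line h1 h2 v).2)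
    (fun v _ => an_dot analyticAt_const (h.analytic_line h1 h2 v).2)
    (h.line_x hu) (h.line_y e hu) (fun v => by
      have hp : ((u, v) : ℝ × ℝ) ∈ strip a b := hu
      rw [← h.EZ e hp, hZ _ hp, mul_zero])
  rcases hw with hy | ⟨t, ht⟩
  · right
    refine ⟨e ⬝ᵥ ψ (u, 0), fun v => ?_⟩
    exact is_const_of_deriv_eq_zero (f := fun t => e ⬝ᵥ ψ (u, t))
      (fun s => (h.line_h e hu s).differentiableAt) (fun s => by rw [(h.line_h e hu s).deriv, hy s])
      v 0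
  · left
    have hc : ∀ v, (ψ (u, v) - t • e) ⬝ᵥ (ψ (u, v) - t • e) =
        (ψ (u, 0) - t • e) ⬝ᵥ (ψ (u, 0) - t • e) := fun v =>
      is_const_of_deriv_eq_zero (f := fun s => (ψ (u, s) - t • e) ⬝ᵥ (ψ (u, s) - t • e))
        (fun s => (h.line_p _ hu s).differentiableAt) (fun s => by
          rw [(h.line_p _ hu s).deriv, sub_dotProduct, smul_dotProduct, ht s]; simp) v 0
    set ρ := (ψ (u, 0) - t • e) ⬝ᵥ (ψ (u, 0) - t • e) with hρ
    have hρ0 : 0 ≤ ρ := by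
      rw [hρ]; simp only [dotProduct, Fin.sum_univ_three]
      nlinarith [mul_self_nonneg ((ψ (u, 0) - t • e) 0), mul_self_nonneg ((ψ (u, 0) - t • e) 1),
        mul_self_nonneg ((ψ (u, 0) - t • e) 2)]
    have hρ1 : ρ ≠ 0 := by
      intro h0
      have hp : ((u, 0) : ℝ × ℝ) ∈ strip a b := hu
      have hconst : (fun s => ψ (u, s)) = fun _ => t • e := by
        funext s
        have := hc s
        rw [h0, dotProduct_self_eq_zero] at this
        exact sub_eq_zero.1 this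
      have h3 := hasDerivAt_line_v (sm_diff (h.smooth _ hp))
      rw [hconst] at h3
      have h4 : dv ψ (u, 0) = 0 := h3.unique (hasDerivAt_const _ _)
      have h5 := h.conformal_eq _ hp
      rw [h4, zero_dotProduct] at h5
      exact (h.immersion _ hp).ne h5
    refine ⟨t, √ρ, Real.sqrt_pos.2 (lt_of_le_of_ne hρ0 hρ1.symm), fun v => ?_⟩
    rw [Real.sq_sqrt hρ0]; exact hc v

theorem Z_of_osc (e : V3) {u v : ℝ} (hu : a ≤ u ∧ u ≤ b)
    (ho : OsculatesAbout e (fun w => ψ (u, w)) v) : Zf ψ e (u, v) = 0 := by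
  obtain ⟨s, t, hst, h1, h2⟩ := ho
  have hp : ((u, v) : ℝ × ℝ) ∈ strip a b := hu
  have d1 : ∀ w, HasDerivAt (fun w => s * (ψ (u, w) ⬝ᵥ ψ (u, w)) + t * (e ⬝ᵥ ψ (u, w)))
      (s * (2 * (ψ (u, w) ⬝ᵥ dv ψ (u, w))) + t * (e ⬝ᵥ dv ψ (u, w))) w := by
    intro w
    have := h.line_p 0 hu w
    simp only [sub_zero] at this
    exact (this.const_mul s).add ((h.line_h e hu w).const_mul t)
  have e1 : deriv (fun w => s * (ψ (u, w) ⬝ᵥ ψ (u, w)) + t * (e ⬝ᵥ ψ (u, w))) =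
      fun w => s * (2 * (ψ (u, w) ⬝ᵥ dv ψ (u, w))) + t * (e ⬝ᵥ dv ψ (u, w)) :=
    funext fun w => (d1 w).deriv
  simp only at h1 h2
  rw [e1] at h1 h2
  rw [((((h.line_x hu v).const_mul 2).const_mul s).fun_add
    ((h.line_y e hu v).const_mul t)).deriv] at h2
  simp only at h1
  have h3 := h.EZ e hp
  have h4 : confE ψ (u, v) * Zf ψ e (u, v) = 0 := by
    rw [h3]
    rcases hst with h0 | h0
    · apply mul_left_cancel₀ h0
      linear_combination (e ⬝ᵥ dv ψ (u, v)) / 2 * h2 - (e ⬝ᵥ dv (dv ψ) (u, v)) / 2 * h1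
    · apply mul_left_cancel₀ h0
      linear_combination (confE ψ (u, v) + ψ (u, v) ⬝ᵥ dv (dv ψ) (u, v)) * h1
        - (ψ (u, v) ⬝ᵥ dv ψ (u, v)) * h2
  exact (mul_eq_zero.1 h4).resolve_left (h.immersion _ hp).ne'

theorem Z_of_mirror (e : V3) {u v : ℝ} (hu : a ≤ u ∧ u ≤ b) (hm : OnMirror ψ a b e v) :
    Zf ψ e (u, v) = 0 := by
  obtain ⟨n, hn, hne, hr⟩ := hm
  have hp : ((u, v) : ℝ × ℝ) ∈ strip a b := hu
  have even : ∀ {f : ℝ → ℝ} {f' : ℝ}, HasDerivAt f f' v → (∀ w, f (2 * v - w) = f w) → f' = 0 := by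
    intro f f' hf hev
    have hl : HasDerivAt (fun w : ℝ => 2 * v - w) (-1) v := by
      simpa using (hasDerivAt_id v).const_sub (2 * v)
    have hf' : HasDerivAt f f' (2 * v - v) := by rw [show 2 * v - v = v by ring]; exact hf
    have h2 := hf'.comp v hl
    have : f ∘ (fun w : ℝ => 2 * v - w) = f := funext hev
    rw [this] at h2
    linarith [h2.unique hf]
  have e1 : e ⬝ᵥ dv ψ (u, v) = 0 := by
    refine even (h.line_h e hu v) fun w => ?_
    rw [hr (u, w) hu, reflect, dotProduct_sub, dotProduct_smul, dotProduct_comm e n, hne]; simp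
  have e2 : ψ (u, v) ⬝ᵥ dv ψ (u, v) = 0 := by
    have h1 := h.line_p 0 hu v
    simp only [sub_zero] at h1
    have := even h1 fun w => by
      rw [hr (u, w) hu, reflect]
      simp only [dotProduct_sub, sub_dotProduct, dotProduct_smul, smul_dotProduct, smul_eq_mul, hn,
        dotProduct_comm (ψ (u, w)) n]
      ring
    linarith
  have h3 := h.EZ e hp
  rw [e1, e2] at h3
  have h4 : confE ψ (u, v) * Zf ψ e (u, v) = 0 := by rw [h3]; ring
  exact (mul_eq_zero.1 h4).resolve_left (h.immersion _ hp).ne'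

theorem sffN_eq (hp : p ∈ strip a b) : sffN ψ p = -sffL ψ p := by
  rw [sffN, h.Bv hp, neg_dotProduct, sffL]

theorem dK (hp : p ∈ strip a b) :
    dv (gaussK ψ) p = 4 * be ψ p * (sffL ψ p * (confE ψ p)⁻¹) ^ 2 := by
  have h1 := (h.Lv hp).mul (h.Eiv hp)
  have h2 := (h1.mul h1).neg
  have hsm : ContDiffAt ℝ ∞ (gaussK ψ) p :=
    (((h.smL hp).mul (sm_dot (sm_dv (h.smB hp)) (h.smN hp))).sub ((h.smM hp).pow 2)).div
      ((h.smE hp).pow 2) (pow_ne_zero 2 (h.immersion p hp).ne')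
  rw [(hasD_dv (sm_diff hsm)).eq_of_strip h.hab hp h2 fun q hq => by
    rw [gaussK, h.sffN_eq hq, h.M_zero hq]; field_simp; ring]
  ring

end CapAnnulus

end Pool.Agent.Lib.MP_c7e804_gt
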