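import Pool.Agent.Lib.MP_c7e804_gt.H63Frame

/-!
The stream function `Z` of the pair of Jacobi fields `ω_v` and `N · (e × ψ)`.
-/

namespace Pool.Agent.Lib.MP_c7e804_gt

open Matrix Set Filter Topology
open scoped ContDiff

/-- The stream function. -/
noncomputable def Zf (ψ : ℝ × ℝ → V3) (e : V3) (p : ℝ × ℝ) : ℝ :=
  e ⬝ᵥ dv ψ p + al ψ p * rotN ψ e p
    - sffL ψ p * (confE ψ p)⁻¹ * ((e ⨯₃ ψ p) ⬝ᵥ du ψ p)

namespace CapAnnulus

variable {ψ : ℝ × ℝ → V3} {a b τ θa θb : ℝ} (h : CapAnnulus ψ a b τ θa θb) {p : ℝ × ℝ}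
include h

theorem smK (e : V3) (hp : p ∈ strip a b) : ContDiffAt ℝ ∞ (fun q => e ⨯₃ ψ q) p :=
  sm_cross contDiffAt_const (h.smooth p hp)

theorem smR (e : V3) (hp : p ∈ strip a b) : ContDiffAt ℝ ∞ (rotN ψ e) p :=
  sm_dot (h.smN hp) (h.smK e hp)

theorem smZ (e : V3) (hp : p ∈ strip a b) : ContDiffAt ℝ ∞ (Zf ψ e) p :=
  ((sm_dot contDiffAt_const (h.smB hp)).add ((h.smal hp).mul (h.smR e hp))).sub
    (((h.smL hp).mul (h.smEi hp)).mul (sm_dot (h.smK e hp) (h.smA hp)))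

theorem perR (e : V3) : Per a b τ (rotN ψ e) := fun p hp => by
  simp only [rotN]; rw [h.perN p hp, h.perψ p hp]

theorem perZ (e : V3) : Per a b τ (Zf ψ e) := fun p hp => by
  simp only [Zf]
  rw [h.perB p hp, h.peral p hp, h.perR e p hp, h.perL p hp, h.perE p hp, h.perψ p hp, h.perA p hp]

theorem dKu (e : V3) (hp : p ∈ strip a b) :
    HasD (1, 0) (fun q => e ⨯₃ ψ q) (e ⨯₃ du ψ p) p :=
  ((HasD.const e).cross (hasD_du (sm_diff (h.smooth p hp)))).congr_val (by simp)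

theorem dKv (e : V3) (hp : p ∈ strip a b) :
    HasD (0, 1) (fun q => e ⨯₃ ψ q) (e ⨯₃ dv ψ p) p :=
  ((HasD.const e).cross (hasD_dv (sm_diff (h.smooth p hp)))).congr_val (by simp)

theorem dRu (e : V3) (hp : p ∈ strip a b) : HasD (1, 0) (rotN ψ e)
    (-(e ⬝ᵥ dv ψ p) - sffL ψ p * (confE ψ p)⁻¹ * ((e ⨯₃ ψ p) ⬝ᵥ du ψ p)) p := by
  refine ((h.dNu hp).dot (h.dKu e hp)).congr_val ?_
  rw [(h.fr hp).eAN, smul_dotProduct, dotProduct_comm (du ψ p)]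
  simp only [smul_eq_mul]; ring

theorem dRv (e : V3) (hp : p ∈ strip a b) : HasD (0, 1) (rotN ψ e)
    (e ⬝ᵥ du ψ p + sffL ψ p * (confE ψ p)⁻¹ * ((e ⨯₃ ψ p) ⬝ᵥ dv ψ p)) p := by
  refine ((h.dNv hp).dot (h.dKv e hp)).congr_val ?_
  rw [(h.fr hp).eBN, smul_dotProduct, dotProduct_comm (dv ψ p)]
  simp only [smul_eq_mul]; ring

theorem dk1u (e : V3) (hp : p ∈ strip a b) : HasD (1, 0) (fun q => (e ⨯₃ ψ q) ⬝ᵥ du ψ q)
    (al ψ p * ((e ⨯₃ ψ p) ⬝ᵥ du ψ p) - be ψ p * ((e ⨯₃ ψ p) ⬝ᵥ dv ψ p)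
      + sffL ψ p * rotN ψ e p) p := by
  refine ((h.dKu e hp).dot (h.dAu hp)).congr_val ?_
  rw [cross_dot_self', rotN, dotProduct_comm (normal ψ p)]
  simp only [dotProduct_add, dotProduct_sub, dotProduct_smul, smul_eq_mul]; ring

theorem dk1v (e : V3) (hp : p ∈ strip a b) : HasD (0, 1) (fun q => (e ⨯₃ ψ q) ⬝ᵥ du ψ q)
    (-(confE ψ p * (e ⬝ᵥ normal ψ p)) + be ψ p * ((e ⨯₃ ψ p) ⬝ᵥ du ψ p)
      + al ψ p * ((e ⨯₃ ψ p) ⬝ᵥ dv ψ p)) p := by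
  refine ((h.dKv e hp).dot (h.dAv hp)).congr_val ?_
  rw [(h.fr hp).eBA]
  simp only [dotProduct_add, dotProduct_smul, smul_eq_mul]; ring

theorem dk2v (e : V3) (hp : p ∈ strip a b) : HasD (0, 1) (fun q => (e ⨯₃ ψ q) ⬝ᵥ dv ψ q)
    (-(al ψ p * ((e ⨯₃ ψ p) ⬝ᵥ du ψ p)) + be ψ p * ((e ⨯₃ ψ p) ⬝ᵥ dv ψ p)
      - sffL ψ p * rotN ψ e p) p := by
  refine ((h.dKv e hp).dot (h.dBv hp)).congr_val ?_
  rw [cross_dot_self', rotN, dotProduct_comm (normal ψ p)]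
  simp only [dotProduct_add, dotProduct_sub, dotProduct_smul, dotProduct_neg, smul_eq_mul]; ring

theorem dg2u (e : V3) (hp : p ∈ strip a b) : HasD (1, 0) (fun q => e ⬝ᵥ dv ψ q)
    (be ψ p * (e ⬝ᵥ du ψ p) + al ψ p * (e ⬝ᵥ dv ψ p)) p := by
  refine ((HasD.const e).dot (h.dBu hp)).congr_val ?_
  simp only [dotProduct_add, dotProduct_smul, smul_eq_mul, zero_dotProduct]; ring

theorem dg2v (e : V3) (hp : p ∈ strip a b) : HasD (0, 1) (fun q => e ⬝ᵥ dv ψ q)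
    (-(al ψ p * (e ⬝ᵥ du ψ p)) + be ψ p * (e ⬝ᵥ dv ψ p) - sffL ψ p * (e ⬝ᵥ normal ψ p)) p := by
  refine ((HasD.const e).dot (h.dBv hp)).congr_val ?_
  simp only [dotProduct_add, dotProduct_sub, dotProduct_smul, dotProduct_neg, smul_eq_mul,
    zero_dotProduct]; ring

theorem dg1v (e : V3) (hp : p ∈ strip a b) : HasD (0, 1) (fun q => e ⬝ᵥ du ψ q)
    (be ψ p * (e ⬝ᵥ du ψ p) + al ψ p * (e ⬝ᵥ dv ψ p)) p := by
  refine ((HasD.const e).dot (h.dAv hp)).congr_val ?_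
  simp only [dotProduct_add, dotProduct_smul, smul_eq_mul, zero_dotProduct]; ring

theorem dZu (e : V3) (hp : p ∈ strip a b) : HasD (1, 0) (Zf ψ e)
    (be ψ p * dv (rotN ψ e) p - dv (be ψ) p * rotN ψ e p) p := by
  have hE := (h.immersion p hp).ne'
  have au := hasD_du (sm_diff (h.smal hp))
  refine (((h.dg2u e hp).add (au.mul (h.dRu e hp))).sub
    (((h.Lu hp).mul (h.Eiu hp)).mul (h.dk1u e hp))).congr_val ?_
  rw [(h.dRv e hp).dv_eq]
  have g := (h.gauss hp).2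
  have : dv (be ψ) p = sffL ψ p ^ 2 * (confE ψ p)⁻¹ - du (al ψ) p := by linarith
  rw [this]; ring

theorem dZv (e : V3) (hp : p ∈ strip a b) : HasD (0, 1) (Zf ψ e)
    (du (be ψ) p * rotN ψ e p - be ψ p * du (rotN ψ e) p) p := by
  have hE := (h.immersion p hp).ne'
  have av := hasD_dv (sm_diff (h.smal hp))
  refine (((h.dg2v e hp).add (av.mul (h.dRv e hp))).sub
    (((h.Lv hp).mul (h.Eiv hp)).mul (h.dk1v e hp))).congr_val ?_
  rw [(h.dRu e hp).du_eq, (h.gauss hp).1]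
  field_simp; ring

theorem lapZ (e : V3) (hp : p ∈ strip a b) : du (du (Zf ψ e)) p + dv (dv (Zf ψ e)) p =
    2 * (du (be ψ) p * dv (rotN ψ e) p - dv (be ψ) p * du (rotN ψ e) p) := by
  have sb := h.smbe hp
  have sR := h.smR e hp
  have e1 := (hasD_du (sm_diff (sm_du (h.smZ e hp)))).eq_of_strip h.hab hp
    (((hasD_du (sm_diff sb)).mul (hasD_du (sm_diff (sm_dv sR)))).sub
      ((hasD_du (sm_diff (sm_dv sb))).mul (hasD_du (sm_diff sR))))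
    fun q hq => (h.dZu e hq).du_eq
  have e2 := (hasD_dv (sm_diff (sm_dv (h.smZ e hp)))).eq_of_strip h.hab hp
    (((hasD_dv (sm_diff (sm_du sb))).mul (hasD_dv (sm_diff sR))).sub
      ((hasD_dv (sm_diff sb)).mul (hasD_dv (sm_diff (sm_du sR)))))
    fun q hq => (h.dZv e hq).dv_eq
  rw [e1, e2, du_dv_comm sb, du_dv_comm sR]; ring

/-- `E Z` is the Wronskian of the `v`-derivatives of `|ψ|² / 2` and `e · ψ`. -/
theorem EZ (e : V3) (hp : p ∈ strip a b) : confE ψ p * Zf ψ e p =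
    (confE ψ p + ψ p ⬝ᵥ dv (dv ψ) p) * (e ⬝ᵥ dv ψ p)
      - (ψ p ⬝ᵥ dv ψ p) * (e ⬝ᵥ dv (dv ψ) p) := by
  have hE := (h.immersion p hp).ne'
  have F := h.fr hp
  have e1 : ∀ X Y : V3, (ψ p ⬝ᵥ X) * (e ⬝ᵥ Y) - (ψ p ⬝ᵥ Y) * (e ⬝ᵥ X) =
      -((e ⨯₃ ψ p) ⬝ᵥ (X ⨯₃ Y)) := by
    intro X Y
    simp [cross_apply, dotProduct, Fin.sum_univ_three]; ring
  have e2 : dv (dv ψ) p ⨯₃ dv ψ p =
      -((al ψ p * confE ψ p) • normal ψ p) + sffL ψ p • du ψ p := by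
    rw [(h.dBv hp).dv_eq]
    simp only [map_neg, map_add, map_sub, map_smul, LinearMap.neg_apply, LinearMap.add_apply,
      LinearMap.sub_apply, LinearMap.smul_apply, F.AxB, F.NxB, cross_self]
    module
  have e3 := e1 (dv (dv ψ) p) (dv ψ p)
  rw [e2] at e3
  simp only [dotProduct_add, dotProduct_neg, dotProduct_smul, smul_eq_mul] at e3
  rw [Zf, rotN, dotProduct_comm (normal ψ p)]
  field_simp
  linarith

theorem bd_psiBv {u : ℝ} (hu : a ≤ u ∧ u ≤ b) (hs : ∀ v, ψ (u, v) ⬝ᵥ ψ (u, v) = 1) (v : ℝ) :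
    confE ψ (u, v) + ψ (u, v) ⬝ᵥ dv (dv ψ) (u, v) = 0 := by
  have hp : ((u, v) : ℝ × ℝ) ∈ strip a b := hu
  have := ((hasD_dv (sm_diff (h.smooth _ hp))).dot (hasD_dv (sm_diff (h.smB hp)))).eq_of_line
    (HasD.const 0) (h.bd_psiB hu hs)
  rw [h.conformal_eq _ hp] at this
  exact this

theorem bd_Z (e : V3) {u : ℝ} (hu : a ≤ u ∧ u ≤ b) (hs : ∀ v, ψ (u, v) ⬝ᵥ ψ (u, v) = 1) (v : ℝ) :
    Zf ψ e (u, v) = 0 := by
  have hp : ((u, v) : ℝ × ℝ) ∈ strip a b := hu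
  have := h.EZ e hp
  rw [h.bd_psiBv hu hs v, h.bd_psiB hu hs v] at this
  have h2 : confE ψ (u, v) * Zf ψ e (u, v) = 0 := by linarith
  exact (mul_eq_zero.1 h2).resolve_left (h.immersion _ hp).ne'

/-- If `Z` vanishes at the common interior zeros of `ω_v` and the rotation field, it vanishes. -/
theorem Z_zero (e : V3)
    (hz : ∀ p : ℝ × ℝ, a < p.1 → p.1 < b → be ψ p = 0 → rotN ψ e p = 0 → Zf ψ e p = 0)
    (hp : p ∈ strip a b) : Zf ψ e p = 0 := by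
  refine max_principle (P := fun q => be ψ q * be ψ q + rotN ψ e q * rotN ψ e q) h.hτ
    (fun q hq => h.smZ e hq)
    (fun q hq => ((h.smbe hq).mul (h.smbe hq)).add ((h.smR e hq).mul (h.smR e hq)))
    (h.perZ e) (fun q _ => by nlinarith [mul_self_nonneg (be ψ q), mul_self_nonneg (rotN ψ e q)])
    (fun q hq => ?_) (h.bd_Z e ⟨le_rfl, h.hab.le⟩ h.sphere_a)
    (h.bd_Z e ⟨h.hab.le, le_rfl⟩ h.sphere_b) (fun q h1 h2 h0 => ?_) p hp
  · have bu := hasD_du (sm_diff (h.smbe hq))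
    have bv := hasD_dv (sm_diff (h.smbe hq))
    have ru := hasD_du (sm_diff (h.smR e hq))
    have rv := hasD_dv (sm_diff (h.smR e hq))
    rw [h.lapZ e hq, ((bu.mul bu).add (ru.mul ru)).du_eq, ((bv.mul bv).add (rv.mul rv)).dv_eq,
      (h.dZu e hq).du_eq, (h.dZv e hq).dv_eq]
    ring
  · have h3 := mul_self_nonneg (be ψ q)
    have h4 := mul_self_nonneg (rotN ψ e q)
    exact hz q h1 h2 (mul_self_eq_zero.1 (by linarith)) (mul_self_eq_zero.1 (by linarith))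

/-- If `ω_v` and the rotation field are linearly dependent, `Z` vanishes. -/
theorem Z_zero_of_dep (e : V3) {s t : ℝ} (hst : s ≠ 0 ∨ t ≠ 0)
    (hd : ∀ q ∈ strip a b, s * be ψ q + t * rotN ψ e q = 0)
    (hp : p ∈ strip a b) : Zf ψ e p = 0 := by
  refine max_principle (P := fun _ => 1) h.hτ (fun q hq => h.smZ e hq)
    (fun _ _ => contDiffAt_const) (h.perZ e) (fun _ _ => zero_le_one) (fun q hq => ?_)
    (h.bd_Z e ⟨le_rfl, h.hab.le⟩ h.sphere_a)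
    (h.bd_Z e ⟨h.hab.le, le_rfl⟩ h.sphere_b) (fun _ _ _ h0 => absurd h0 one_ne_zero) p hp
  have bu := hasD_du (sm_diff (h.smbe hq))
  have bv := hasD_dv (sm_diff (h.smbe hq))
  have ru := hasD_du (sm_diff (h.smR e hq))
  have rv := hasD_dv (sm_diff (h.smR e hq))
  have e1 := (((HasD.const s).mul bu).add ((HasD.const t).mul ru)).eq_of_strip h.hab hq
    (HasD.const 0) hd
  have e2 := (((HasD.const s).mul bv).add ((HasD.const t).mul rv)).eq_of_strip h.hab hq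
    (HasD.const 0) hd
  rw [h.lapZ e hq, (HasD.const (p := q) (1 : ℝ)).du_eq, (HasD.const (p := q) (1 : ℝ)).dv_eq]
  have : du (be ψ) q * dv (rotN ψ e) q - dv (be ψ) q * du (rotN ψ e) q = 0 := by
    rcases hst with h0 | h0
    · apply mul_left_cancel₀ h0
      linear_combination dv (rotN ψ e) q * e1 - du (rotN ψ e) q * e2
    · apply mul_left_cancel₀ h0
      linear_combination du (be ψ) q * e2 - dv (be ψ) q * e1
  rw [this]; ring

end CapAnnulus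

end Pool.Agent.Lib.MP_c7e804_gt
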