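import Pool.Agent.Lib.MP_c7e804_gt.H71J
import Pool.Agent.Lib.MP_c7e804_gt.H43Spec4

/-!
Special solutions and the boundary form on the sheets of the spectral curve.
-/

namespace Pool.Agent.Lib.MP_c7e804_gt

open Matrix Set Complex
open scoped ContDiff ComplexConjugate

private theorem ex_Ka {θ : ℝ} (h : 0 < θ ∧ θ < Real.pi) (ψ : ℝ × ℝ → V3) (p : ℝ × ℝ) (y : C2) :
    Km ψ θ (ka θ) p *ᵥ y = (ka θ : ℂ) • (sg (cv (ψ p)) *ᵥ y - ((1 : ℝ) : ℂ) • y) := by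
  have h1 : 1 + ka θ * Real.cos θ = -ka θ := by
    have := (alg2_cos h).1.ne'
    unfold ka
    field_simp
    ring
  rw [Km_eq, h1, add_mulVec, smul_mulVec, smul_mulVec, one_mulVec, ofReal_neg, ofReal_one]
  module

private theorem ex_Kb {θ : ℝ} (h : 0 < θ ∧ θ < Real.pi) (ψ : ℝ × ℝ → V3) (p : ℝ × ℝ) (y : C2) :
    Km ψ θ (kb θ) p *ᵥ y = (kb θ : ℂ) • (sg (cv (ψ p)) *ᵥ y - ((-1 : ℝ) : ℂ) • y) := by
  have h1 : 1 + kb θ * Real.cos θ = kb θ := by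
    have := (alg2_cos h).2.ne'
    unfold kb
    field_simp
    ring
  rw [Km_eq, h1, add_mulVec, smul_mulVec, smul_mulVec, one_mulVec, ofReal_neg, ofReal_one]
  module

private theorem ex_hf_eig {n : V3} {c : C2} (hc : sg (cv n) *ᵥ c = c) (w : C3) :
    hf c (sg w) c = (cv n ⬝ᵥ w) * hf c 1 c := by
  have := hf_eig (H := 1) (x := cv n) (w := w) (c := c) (s := 1)
    (by rw [star_cv, one_mul, mul_one]) (by rw [hc, ofReal_one, one_smul])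
  rwa [ofReal_one, one_mul, one_mul] at this

namespace Setup
variable {ψ : ℝ × ℝ → V3} {a b τ θ : ℝ} {g : ℕ} {s : ℕ → ℝ × ℝ → ℂ} {F G : ℂ → ℝ × ℝ → M2}
  (h : Setup ψ a b τ θ g s F G) {u : ℝ} (hu : u = a ∨ u = b)
include h hu

private theorem ex_mem : u ∈ Icc a b := h.cap.mem_bd hu 0

private theorem ex_gen {κ σ : ℝ} (hκ : κ ≠ 0) (hσ : σ * σ = 1)
    (hK : ∀ p y, Km ψ θ κ p *ᵥ y = (κ : ℂ) • (sg (cv (ψ p)) *ᵥ y - (σ : ℂ) • y)) {x : C2}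
    (hx : x ≠ 0) (hx2 : sg (cv (ψ (u, 0))) *ᵥ x = (σ : ℂ) • x) :
    ∃ (y : C2) (t : ℝ), x = F κ (u, 0) *ᵥ y ∧ y ≠ 0 ∧ sg (X0 ψ b g s κ) *ᵥ y = (t : ℂ) • y ∧
      ∀ v, sg (cv (ψ (u, v))) *ᵥ (F κ (u, v) *ᵥ y) = (σ : ℂ) • (F κ (u, v) *ᵥ y) := by
  have hκ' : (κ : ℂ) ≠ 0 := ofReal_ne_zero.2 hκ
  have hm := h.cap.mem_bd hu
  obtain ⟨y, hy⟩ := h.s4a_surj κ (hm 0) x
  have hker : ∀ {p z}, Km ψ θ κ p *ᵥ z = 0 → sg (cv (ψ p)) *ᵥ z = (σ : ℂ) • z := fun e => by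
    rw [hK] at e
    exact sub_eq_zero.1 ((smul_eq_zero.1 e).resolve_left hκ')
  have hx0 : Km ψ θ κ (u, 0) *ᵥ x = 0 := by rw [hK, hx2, sub_self, smul_zero]
  have h1 : sg (cv (ψ (u, 0))) *ᵥ (sg (Xk ψ b g s κ (u, 0)) *ᵥ x) =
      (σ : ℂ) • (sg (Xk ψ b g s κ (u, 0)) *ᵥ x) := by
    refine hker ?_
    rw [mulVec_mulVec, h.cap.Km_Xk h.kill.toPKill κ hu 0, ← mulVec_mulVec, hx0, mulVec_zero]
  have h3 : cv (ψ (u, 0)) ≠ 0 := fun e => by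
    have := cv_dot (ψ (u, 0)) (ψ (u, 0))
    rw [e, h.cap.bd_unit hu] at this
    simp at this
  obtain ⟨l, hl⟩ := eig_unique h3 hx hx2 h1
  have hl1 : l = σ * (cv (ψ (u, 0)) ⬝ᵥ Xk ψ b g s κ (u, 0)) := by
    have e := congrArg (fun M : M2 => M *ᵥ x)
      (sg_anti (cv (ψ (u, 0))) (Xk ψ b g s κ (u, 0)))
    simp only [add_mulVec, ← mulVec_mulVec, smul_mulVec, one_mulVec] at e
    rw [h1, hx2, mulVec_smul, hl, smul_smul, ← add_smul] at e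
    have e1 := smul_left_injective ℂ hx e
    have e2 : (σ : ℂ) * σ = 1 := by exact_mod_cast hσ
    linear_combination (σ / 2 : ℂ) * e1 - l * e2
  have hl3 : l.im = 0 := by
    rw [hl1, im_ofReal_mul, cv_dot_im, (h.kill.bc κ u hu 0).2, mul_zero]
  have hl4 : l = (l.re : ℂ) := Complex.ext (by simp) (by simp [hl3])
  refine ⟨y, l.re, hy, fun e => hx (by rw [hy, e, mulVec_zero]), ?_, fun v => hker ?_⟩
  · by_contra hne
    refine h.cap.F_ne h.frame κ (sub_ne_zero.2 hne) (hm 0) ?_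
    rw [mulVec_sub, ← h.s4a_conj κ (hm 0), mulVec_smul, ← hy, hl, ← hl4, sub_self]
  · have e1 := congrArg (· *ᵥ y) (h.cap.H_const h.frame κ hu v)
    simp only [← mulVec_mulVec] at e1
    rw [← hy, hx0, mulVec_zero] at e1
    have e2 := congrArg ((F κ (u, v)).adjugateᴴ *ᵥ ·) e1
    simp only [mulVec_zero] at e2
    rwa [mulVec_mulVec, ← conjTranspose_mul, (h.cap.adj_F h.frame _ (hm v)).2, conjTranspose_one,
      one_mulVec] at e2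

theorem exists_spA : ∃ (y : C2) (t : ℝ), y ≠ 0 ∧ sg (X0 ψ b g s (ka θ)) *ᵥ y = (t : ℂ) • y ∧
    SpA ψ τ θ u (fun v => F (ka θ) (u, v) *ᵥ y)
      (Dk b τ F (ka θ) + I * alk ψ b τ g s F (ka θ) * t) := by
  have hθ := h.cap.ann.hθa
  obtain ⟨x, hx1, hx2⟩ := exists_unit_eig (h.cap.bd_unit hu 0)
  obtain ⟨y, t, hy, hy0, he, hv⟩ := ex_gen h hu (σ := 1) (ka_neg hθ).ne (one_mul 1) (ex_Ka hθ ψ)
    (x := x) (fun e => by simp [e] at hx1) (by rw [hx2, ofReal_one, one_smul])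
  simp only [ofReal_one, one_smul] at hv
  have hc := (h.floq_eig hy0 he).1
  refine ⟨y, t, hy0, he, hc.sol.lsol (ex_mem h hu), hv, fun v => ?_, ?_⟩
  · have hi := fun v => hf_herm_im (K := 1) conjTranspose_one (F (ka θ) (u, v) *ᵥ y)
    have hd : ∀ v, HasDerivAt (fun v => (hf (F (ka θ) (u, v) *ᵥ y) 1 (F (ka θ) (u, v) *ᵥ y)).re)
        0 v := fun v => by
      refine ((h.cap.pd_n1 hc.sol).hv (u, v) (h.cap.mem_bd hu v)).congr_deriv ?_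
      have h1 : hf (F (ka θ) (u, v) *ᵥ y) (Am ψ (u, v)) (F (ka θ) (u, v) *ᵥ y) =
          (pu ψ (u, v) : ℂ) / 2 * hf (F (ka θ) (u, v) *ᵥ y) 1 (F (ka θ) (u, v) *ᵥ y) := by
        rw [Am, ex_hf_eig (hv v), h.cap.bd_psi_ph hu]
      simp only [h1, mul_im, hi v, ofReal_im, div_ofNat_im, mul_zero, zero_mul, zero_div, add_zero]
    have h1 := is_const_of_deriv_eq_zero (fun v => (hd v).differentiableAt) (fun v => (hd v).deriv)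
      v 0
    have h2 : hf (F (ka θ) (u, 0) *ᵥ y) 1 (F (ka θ) (u, 0) *ᵥ y) = 1 := by
      rw [← hy, hf, one_mulVec, hx1]
    rw [h2] at h1
    have h3 : hf (F (ka θ) (u, v) *ᵥ y) 1 (F (ka θ) (u, v) *ᵥ y) = 1 := Complex.ext h1 (hi v)
    rwa [hf, one_mulVec] at h3
  · simpa using hc.per (u, 0) (h.cap.mem_bd hu 0)

theorem exists_spB : ∃ (y : C2) (t : ℝ), y ≠ 0 ∧ sg (X0 ψ b g s (kb θ)) *ᵥ y = (t : ℂ) • y ∧
    ∀ v, sg (cv (ψ (u, v))) *ᵥ (F (kb θ) (u, v) *ᵥ y) = -(F (kb θ) (u, v) *ᵥ y) := by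
  have hθ := h.cap.ann.hθa
  obtain ⟨x, hx, hx2⟩ := exists_eig (cv (ψ (u, 0))) (s := ((-1 : ℝ) : ℂ))
    (by rw [cv_dot, h.cap.bd_unit hu]; simp)
  obtain ⟨y, t, -, hy0, he, hv⟩ := ex_gen h hu (σ := -1) (kb_pos hθ).ne' (by norm_num)
    (ex_Kb hθ ψ) hx hx2
  exact ⟨y, t, hy0, he, fun v => by rw [hv, ofReal_neg, ofReal_one, neg_one_smul]⟩

/-- the boundary form of a Floquet solution as a period -/
theorem Jf_floq {κ : ℝ} {μ : ℂ} {c : ℝ × ℝ → C2} (hc : Floq ψ a b τ κ μ c) (hμ : ‖μ‖ = 1) :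
    Jf ψ b τ u (fun v => c (u, v)) (fun v => c (u, v)) = ∫ v in (0 : ℝ)..τ,
      hf (c (u, v)) (Km ψ θ κ (u, v) * Am ψ (u, v)) (c (u, v)) := by
  have h1 := hc.sol.lsol (ex_mem h hu)
  have h2 : c (u, τ) = μ • c (u, 0) := by simpa using hc.per (u, 0) (h.cap.mem_bd hu 0)
  have := h.cap.Jf_eq hu h1 h1 h2 h2 (by rw [conj_mul', hμ]; simp)
  rwa [conj_ofReal] at this

theorem sheet_J {κ t : ℝ} {y : C2} (hy : y ≠ 0) (he : sg (X0 ψ b g s κ) *ᵥ y = (t : ℂ) • y) :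
    t * (Jf ψ b τ u (fun v => F κ (u, v) *ᵥ y) (fun v => F κ (u, v) *ᵥ y)).re
      = (Pf ψ b τ g s κ).re
        * (hf (F κ (u, 0) *ᵥ y) (Km ψ θ κ (u, 0)) (F κ (u, 0) *ᵥ y)).re := by
  obtain ⟨hc, hμ⟩ := h.floq_eig hy he
  have h1 := h.s4a_int he hu (n := hf (F κ (u, 0) *ᵥ y) (Km ψ θ κ (u, 0)) (F κ (u, 0) *ᵥ y))
    fun v => by rw [hf_mul, h.cap.H_const h.frame κ hu v, hf_mul]
  rw [← h.Jf_floq hu hc hμ] at h1
  have h2 := congrArg Complex.re h1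
  rwa [re_ofReal_mul, mul_re, h.P_real κ, zero_mul, sub_zero] at h2

/-- the form vanishes on solutions in the kernel of the boundary matrix -/
theorem Jf_ker {κ : ℝ} {μ : ℂ} {c : ℝ × ℝ → C2} (hc : Floq ψ a b τ κ μ c) (hμ : ‖μ‖ = 1)
    (hK : ∀ v, Km ψ θ κ (u, v) *ᵥ c (u, v) = 0) :
    Jf ψ b τ u (fun v => c (u, v)) (fun v => c (u, v)) = 0 := by
  rw [h.Jf_floq hu hc hμ]
  have : ∀ v, hf (c (u, v)) (Km ψ θ κ (u, v) * Am ψ (u, v)) (c (u, v)) = 0 := fun v => by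
    have e := hf_mul (c (u, v)) (Km ψ θ κ (u, v)) 1 (Am ψ (u, v)) (c (u, v))
    rw [mul_one, Km_herm, hK] at e
    rw [← e]
    simp [hf]
  simp [this]

omit h hu in
theorem Km_ka (hθ : 0 < θ ∧ θ < Real.pi) {p : ℝ × ℝ} {y : C2} (hy : sg (cv (ψ p)) *ᵥ y = y) :
    Km ψ θ (ka θ) p *ᵥ y = 0 := by
  rw [ex_Ka hθ, hy, ofReal_one, one_smul, sub_self, smul_zero]

omit h hu in
theorem Km_kb (hθ : 0 < θ ∧ θ < Real.pi) {p : ℝ × ℝ} {y : C2} (hy : sg (cv (ψ p)) *ᵥ y = -y) :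
    Km ψ θ (kb θ) p *ᵥ y = 0 := by
  rw [ex_Kb hθ, hy, ofReal_neg, ofReal_one, neg_one_smul, sub_self, smul_zero]

end Setup

end Pool.Agent.Lib.MP_c7e804_gt
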