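import Pool.Agent.Lib.MP_c7e804_gt.H71J0

/-!
The boundary form on Floquet solutions.
-/

namespace Pool.Agent.Lib.MP_c7e804_gt

open Matrix Set Complex
open scoped ContDiff ComplexConjugate

theorem jj_hf (x : C2) (M : M2) (y : C2) : hf x M y =
    conj (x 0) * (M 0 0 * y 0 + M 0 1 * y 1) + conj (x 1) * (M 1 0 * y 0 + M 1 1 * y 1) := by
  simp [hf, dotProduct, mulVec, Fin.sum_univ_two]

theorem jj_deriv {x y : ℝ → C2} {M : ℝ → M2} {x' y' : C2} {M' : M2} {v : ℝ}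
    (hx : HasDerivAt x x' v) (hM : ∀ i j, HasDerivAt (fun t => M t i j) (M' i j) v)
    (hy : HasDerivAt y y' v) : HasDerivAt (fun t => hf (x t) (M t) (y t))
      (hf x' (M v) (y v) + hf (x v) M' (y v) + hf (x v) (M v) y') v := by
  have a : ∀ i, HasDerivAt (fun t => conj (x t i)) (conj (x' i)) v := fun i =>
    (hasDerivAt_pi.1 hx i).star
  have b := hasDerivAt_pi.1 hy
  simp only [jj_hf]
  exact (((a 0).mul (((hM 0 0).mul (b 0)).add ((hM 0 1).mul (b 1)))).add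
    ((a 1).mul (((hM 1 0).mul (b 0)).add ((hM 1 1).mul (b 1))))).congr_deriv
    (by simp only [Pi.add_apply, Pi.mul_apply]; ring)

theorem jj_cont {x y : ℝ → C2} {M : ℝ → M2} (hx : Continuous x) (hM : Continuous M)
    (hy : Continuous y) : Continuous fun t => hf (x t) (M t) (y t) := by
  simp only [jj_hf]
  fun_prop

theorem jj_pdm {a b u : ℝ} {M Mu Mv : ℝ × ℝ → M2} (h : PDm a b M Mu Mv) (hu : u ∈ Icc a b) :
    Continuous fun v => M (u, v) :=
  continuous_pi fun i => continuous_pi fun j => cont_line_v (h i j).cont hu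

theorem Cap.jj_alg {ψ : ℝ × ℝ → V3} {a b τ θ : ℝ} (h : Cap ψ a b τ θ) {u : ℝ}
    (hu : u = a ∨ u = b) (v : ℝ) (κ κ' : ℂ) (x y : C2) :
    hf (-(I * κ') • (Am ψ (u, v) *ᵥ x)) (sg (cv (ψ (u, v))) * (1 + Nm ψ (u, v))) y
      + hf x (sg (cv (dv ψ (u, v))) * (1 + Nm ψ (u, v)) + sg (cv (ψ (u, v))) *
        (0 + sg (cv ((2 * hq ψ b / confE ψ (u, v)) • dv ψ (u, v))))) y
      + hf x (sg (cv (ψ (u, v))) * (1 + Nm ψ (u, v))) (-(I * κ) • (Am ψ (u, v) *ᵥ y))
    = 2 * I * (hf x (Km ψ θ (conj κ') (u, v) * Am ψ (u, v)) y - hf x (Jm ψ b (u, v)) y) := by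
  have hm : ∀ v, ((u, v) : ℝ × ℝ) ∈ strip a b := h.mem_bd hu
  have e0 : (1 + Nm ψ (u, v)) * Am ψ (u, v) = 0 := by
    rw [add_mul, one_mul, h.N_A (hm v), add_neg_cancel]
  have eN : (1 + Nm ψ (u, v))ᴴ = 1 + Nm ψ (u, v) := by
    rw [conjTranspose_add, conjTranspose_one, Nm, sg_ct, star_cv]
  have e1 : (Am ψ (u, v))ᴴ * (1 + Nm ψ (u, v)) = 0 := by
    rw [← eN, ← conjTranspose_mul, e0, conjTranspose_zero]
  have e2 : (Am ψ (u, v))ᴴ * (sg (cv (ψ (u, v))) * (1 + Nm ψ (u, v)))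
      = (2 : ℂ) • (K0 ψ θ (u, v) * Am ψ (u, v)) := by
    have e : sg (cv (ψ (u, v))) = K0 ψ θ (u, v) - (Real.cos θ : ℂ) • (1 : M2) := by
      rw [K0, add_sub_cancel_left]
    rw [e, sub_mul, mul_sub, smul_mul_assoc, one_mul, mul_smul_comm, e1, smul_zero, sub_zero,
      ← mul_assoc, h.bd_Ah_K0 hu, h.bd_K0_A hu, smul_mul_assoc, add_mul, one_mul, mul_add,
      mul_one, h.N_N (hm v)]
    module
  have e3 : sg (cv (dv ψ (u, v))) * (1 + Nm ψ (u, v)) = (2 * I) • Am ψ (u, v) := by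
    rw [cv_dv, sg_smul, sg_sub, ← sg_ct, ← Am, smul_mul_assoc, sub_mul, e1, mul_add, mul_one,
      h.A_N (hm v)]
    module
  have e4 : sg (cv (ψ (u, v))) * sg (cv ((2 * hq ψ b / confE ψ (u, v)) • dv ψ (u, v)))
      = -(2 * I) • Jm ψ b (u, v) := by
    rw [sg_mul, cv_dot, dotProduct_smul, h.geo_psiB hu, cv_cross, map_smul, Jm, cv_smul, cv_smul,
      sg_smul, sg_smul, smul_smul, smul_smul, smul_zero, ofReal_zero, zero_smul, zero_add]
    congr 1
    push_cast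
    ring
  simp only [zero_add]
  rw [kav1_l, kav1_r, mul_assoc (sg _), e0, mul_zero, kav1_zero, e2, e3, e4, Km, add_mul,
    one_mul, smul_mul_assoc, hf_add, hf_add, hf_smul, hf_smul, hf_smul, hf_smul]
  simp only [map_neg, map_mul, conj_I]
  ring

namespace Cap
variable {ψ : ℝ × ℝ → V3} {a b τ θ : ℝ} (h : Cap ψ a b τ θ) {u : ℝ} (hu : u = a ∨ u = b)
  {κ κ' μ μ' : ℂ} {c c' : ℝ → C2} (hc : LSol ψ u κ c) (hc' : LSol ψ u κ' c')
  (hp : c τ = μ • c 0) (hp' : c' τ = μ' • c' 0) (hμ : conj μ' * μ = 1)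
include h hu hc hc' hp hp' hμ

theorem Jf_eq : Jf ψ b τ u c' c
    = ∫ v in (0 : ℝ)..τ, hf (c' v) (Km ψ θ (conj κ') (u, v) * Am ψ (u, v)) (c v) := by
  have hm : ∀ v, ((u, v) : ℝ × ℝ) ∈ strip a b := h.mem_bd hu
  have hI : u ∈ Icc a b := hm 0
  have pM := (PDm.sg h.pd_psi.cv).mul ((PDm.const 1).add (PDm.sg h.pd_N.cv))
  have cK : Continuous fun v => Km ψ θ (conj κ') (u, v) * Am ψ (u, v) :=
    jj_pdm (((PDm.const 1).add (h.pd_K0.const_smul (conj κ'))).mul h.pd_A) hI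
  have i1 : IntervalIntegrable
      (fun v => hf (c' v) (Km ψ θ (conj κ') (u, v) * Am ψ (u, v)) (c v)) MeasureTheory.volume 0 τ :=
    (jj_cont hc'.adm.cont cK hc.adm.cont).intervalIntegrable 0 τ
  have i2 : IntervalIntegrable
      (fun v => hf (c' v) (Jm ψ b (u, v)) (c v)) MeasureTheory.volume 0 τ :=
    (jj_cont hc'.adm.cont (h.cont_Jm hI) hc.adm.cont).intervalIntegrable 0 τ
  have hd : ∀ v, HasDerivAt (fun t => hf (c' t) (sg (cv (ψ (u, t))) * (1 + Nm ψ (u, t))) (c t))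
      (2 * I * (hf (c' v) (Km ψ θ (conj κ') (u, v) * Am ψ (u, v)) (c v)
        - hf (c' v) (Jm ψ b (u, v)) (c v))) v := fun v => by
    exact (jj_deriv (M := fun t => sg (cv (ψ (u, t))) * (1 + Nm ψ (u, t)))
      (M' := sg (cv (dv ψ (u, v))) * (1 + Nm ψ (u, v)) + sg (cv (ψ (u, v))) *
        (0 + sg (cv ((2 * hq ψ b / confE ψ (u, v)) • dv ψ (u, v))))) (hc' v)
      (fun i j => (pM i j).hv (u, v) (hm v)) (hc v)).congr_deriv
      (h.jj_alg hu v κ κ' _ _)
  have hz := intervalIntegral.integral_eq_sub_of_hasDerivAt (a := 0) (b := τ) (fun v _ => hd v)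
    ((i1.sub i2).const_mul _)
  have q1 := h.ann.periodic _ (hm 0)
  have q2 := h.per_Nm (hm 0)
  simp only [zero_add] at q1 q2
  rw [hp, hp', hf_smul_smul, hμ, one_mul, q1, q2, sub_self, intervalIntegral.integral_const_mul,
    intervalIntegral.integral_sub i1 i2, mul_eq_zero, sub_eq_zero] at hz
  exact (hz.resolve_left (mul_ne_zero two_ne_zero I_ne_zero)).symm

theorem Jf_orth (hne : κ ≠ conj κ') : Jf ψ b τ u c' c = 0 := by
  have hm : ∀ v, ((u, v) : ℝ × ℝ) ∈ strip a b := h.mem_bd hu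
  have hI : u ∈ Icc a b := hm 0
  have cA := jj_pdm h.pd_A hI
  have int : ∀ {M : ℝ → M2}, Continuous M →
      IntervalIntegrable (fun v => hf (c' v) (M v) (c v)) MeasureTheory.volume 0 τ :=
    fun hM => (jj_cont hc'.adm.cont hM hc.adm.cont).intervalIntegrable 0 τ
  have iA := int cA
  have iH := int (jj_pdm h.pd_A.ct hI)
  have iK := int (jj_pdm (h.pd_K0.mul h.pd_A) hI)
  have h1 := h.Jf_eq hu hc hc' hp hp' hμ
  have h2 := h.Jf_eq hu hc' hc hp' hp (by simpa [mul_comm] using congrArg conj hμ)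
  have e1 : Jf ψ b τ u c' c = (∫ v in (0 : ℝ)..τ, hf (c' v) (Am ψ (u, v)) (c v))
      + conj κ' * ∫ v in (0 : ℝ)..τ, hf (c' v) (K0 ψ θ (u, v) * Am ψ (u, v)) (c v) := by
    rw [h1, ← intervalIntegral.integral_const_mul, ← intervalIntegral.integral_add iA
      (iK.const_mul _)]
    simp only [Km, add_mul, one_mul, smul_mul_assoc, hf_add, hf_smul]
  have e2 : Jf ψ b τ u c' c = (∫ v in (0 : ℝ)..τ, hf (c' v) (Am ψ (u, v))ᴴ (c v))
      + κ * ∫ v in (0 : ℝ)..τ, hf (c' v) (K0 ψ θ (u, v) * Am ψ (u, v)) (c v) := by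
    rw [Jf_conj, h2, ← intervalIntegral.integral_const_mul, ← intervalIntegral.integral_add iH
      (iK.const_mul _), intervalIntegral.integral_of_le h.ann.hτ.le,
      intervalIntegral.integral_of_le h.ann.hτ.le, ← integral_conj]
    congr 1
    ext v
    rw [← hf_ct, ← hf_smul, ← hf_add, Km, add_mul, one_mul, smul_mul_assoc, conjTranspose_add,
      conjTranspose_smul, conjTranspose_mul, kav1_K0_herm, h.bd_Ah_K0 hu]
    simp
  have hd : ∀ v, HasDerivAt (fun t => hf (c' t) 1 (c t))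
      (I * (conj κ' * hf (c' v) (Am ψ (u, v))ᴴ (c v) - κ * hf (c' v) (Am ψ (u, v)) (c v))) v :=
    fun v => by
    refine (jj_deriv (M := fun _ => 1) (M' := 0) (hc' v) (fun i j => hasDerivAt_const _ _)
      (hc v)).congr_deriv ?_
    rw [kav1_l, kav1_r, kav1_zero, mul_one, one_mul]
    simp only [map_neg, map_mul, conj_I]
    ring
  have hz := intervalIntegral.integral_eq_sub_of_hasDerivAt (a := 0) (b := τ) (fun v _ => hd v)
    (((iH.const_mul _).sub (iA.const_mul _)).const_mul _)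
  rw [hp, hp', hf_smul_smul, hμ, one_mul, sub_self, intervalIntegral.integral_const_mul,
    intervalIntegral.integral_sub (iH.const_mul _) (iA.const_mul _),
    intervalIntegral.integral_const_mul, intervalIntegral.integral_const_mul] at hz
  have h3 := (mul_eq_zero.1 hz).resolve_left I_ne_zero
  refine (mul_eq_zero.1 (?_ : (κ - conj κ') * _ = 0)).resolve_left (sub_ne_zero.2 hne)
  linear_combination κ * e1 - conj κ' * e2 - h3

end Cap

end Pool.Agent.Lib.MP_c7e804_gt
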