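import Pool.Agent.Lib.MP_c7e804_gt.H71Defs
import Pool.Agent.Lib.MP_c7e804_gt.H43KAv

/-!
Boundary forms: elementary properties.
-/

namespace Pool.Agent.Lib.MP_c7e804_gt

open Matrix Set Complex
open scoped ContDiff ComplexConjugate

theorem LSol.adm {ψ : ℝ × ℝ → V3} {u : ℝ} {κ : ℂ} {c : ℝ → C2} (h : LSol ψ u κ c) :
    Adm ψ u c :=
  ⟨fun v => -(I * κ) • c v, fun v => by rw [mulVec_smul]; exact h v⟩

theorem Adm.cont {ψ : ℝ × ℝ → V3} {u : ℝ} {c : ℝ → C2} (h : Adm ψ u c) : Continuous c := by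
  obtain ⟨d, hd⟩ := h
  exact continuous_iff_continuousAt.2 fun v => (hd v).continuousAt

theorem Adm.const (ψ : ℝ × ℝ → V3) (u : ℝ) (x : C2) : Adm ψ u (fun _ => x) :=
  ⟨fun _ => 0, fun v => by rw [mulVec_zero]; exact hasDerivAt_const v x⟩

theorem Adm.lin {ψ : ℝ × ℝ → V3} {u : ℝ} {c₁ c₂ : ℝ → C2} (h₁ : Adm ψ u c₁) (h₂ : Adm ψ u c₂)
    (s t : ℂ) : Adm ψ u (fun v => s • c₁ v + t • c₂ v) := by
  obtain ⟨d₁, e₁⟩ := h₁
  obtain ⟨d₂, e₂⟩ := h₂
  refine ⟨fun v => s • d₁ v + t • d₂ v, fun v => ?_⟩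
  rw [mulVec_add, mulVec_smul, mulVec_smul]
  exact ((e₁ v).const_smul s).add ((e₂ v).const_smul t)

theorem IsSol.lsol {ψ : ℝ × ℝ → V3} {a b u : ℝ} {κ : ℂ} {c : ℝ × ℝ → C2}
    (h : IsSol a b (Am ψ) κ c) (hu : u ∈ Icc a b) : LSol ψ u κ (fun v => c (u, v)) :=
  fun v => h.hv (u, v) hu

theorem Jm_herm (ψ : ℝ × ℝ → V3) (b : ℝ) (p : ℝ × ℝ) : (Jm ψ b p)ᴴ = Jm ψ b p := by
  rw [Jm, sg_ct, star_cv]

theorem Jf_conj (ψ : ℝ × ℝ → V3) (b τ u : ℝ) (c' c : ℝ → C2) :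
    Jf ψ b τ u c' c = conj (Jf ψ b τ u c c') := by
  have e : ∀ v, hf (c' v) (Jm ψ b (u, v)) (c v) = conj (hf (c v) (Jm ψ b (u, v)) (c' v)) :=
    fun v => by rw [← hf_ct, Jm_herm]
  simp only [Jf]
  simp only [e, intervalIntegral, integral_conj, map_sub]

theorem cj_norm {ε : ℝ} (hε : ε = 1 ∨ ε = -1) (μ : ℂ) : ‖cj ε μ‖ = ‖μ‖ := by
  rcases hε with rfl | rfl
  · rw [cj_one]
  · rw [cj_neg_one, Complex.norm_conj]

theorem cj_cj {ε : ℝ} (hε : ε = 1 ∨ ε = -1) (μ : ℂ) : cj ε (cj ε μ) = μ := by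
  rcases hε with rfl | rfl
  · rw [cj_one, cj_one]
  · rw [cj_neg_one, cj_neg_one, Complex.conj_conj]

theorem cj_mul {ε : ℝ} (hε : ε = 1 ∨ ε = -1) (μ ν : ℂ) : cj ε (μ * ν) = cj ε μ * cj ε ν := by
  rcases hε with rfl | rfl
  · rw [cj_one, cj_one, cj_one]
  · rw [cj_neg_one, cj_neg_one, cj_neg_one, map_mul]

theorem cj_exp {ε : ℝ} (hε : ε = 1 ∨ ε = -1) (x : ℝ) :
    cj ε (cexp (I * x)) = cexp (I * (ε * x : ℝ)) := by
  rcases hε with rfl | rfl
  · rw [cj_one, one_mul]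
  · rw [cj_neg_one, ← Complex.exp_conj, map_mul, conj_I, conj_ofReal]
    push_cast
    congr 1
    ring

theorem cj_sheet (ε D α t : ℝ) :
    cj ε (D + I * α * t) = D + I * α * (ε * t : ℝ) := by
  apply Complex.ext
  · simp [cj]
  · simp only [cj, add_im, ofReal_im, mul_im, mul_re, I_re, I_im, ofReal_re]
    ring

private theorem j0_cont_sg {x : ℝ → V3} (hx : Continuous x) : Continuous fun v => sg (cv (x v)) := by
  have e : ∀ i, Continuous fun v => cv (x v) i := fun i =>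
    continuous_ofReal.comp ((continuous_apply i).comp hx)
  refine continuous_matrix fun i j => ?_
  fin_cases i <;> fin_cases j
  · exact e 2
  · exact (e 0).sub (continuous_const.mul (e 1))
  · exact (e 0).add (continuous_const.mul (e 1))
  · exact (e 2).neg

private theorem j0_cont_cross {x y : ℝ → V3} (hx : Continuous x) (hy : Continuous y) :
    Continuous fun v => x v ⨯₃ y v := by
  have e : ∀ i, Continuous fun v => x v i := fun i => (continuous_apply i).comp hx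
  have e' : ∀ i, Continuous fun v => y v i := fun i => (continuous_apply i).comp hy
  refine continuous_pi fun i => ?_
  fin_cases i
  · exact ((e 1).mul (e' 2)).sub ((e 2).mul (e' 1))
  · exact ((e 2).mul (e' 0)).sub ((e 0).mul (e' 2))
  · exact ((e 0).mul (e' 1)).sub ((e 1).mul (e' 0))

private theorem j0_cont_hf {x y : ℝ → C2} {M : ℝ → M2} (hx : Continuous x) (hM : Continuous M)
    (hy : Continuous y) : Continuous fun v => hf (x v) (M v) (y v) :=
  hx.star.dotProduct (hM.matrix_mulVec hy)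

private theorem j0_lin (x y : C2) (M : M2) (s t : ℂ) :
    hf (s • x + t • y) M (s • x + t • y) = conj s * s * hf x M x + conj s * t * hf x M y
      + conj t * s * hf y M x + conj t * t * hf y M y := by
  simp only [hf, star_add, star_smul, mulVec_add, mulVec_smul, add_dotProduct, dotProduct_add,
    smul_dotProduct, dotProduct_smul, smul_eq_mul, RCLike.star_def]
  ring

private theorem j0_zero {F : Type} [NormedAddCommGroup F] [NormedSpace ℝ F] {f : ℝ → F} {f' : F}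
    {τ v : ℝ} (hv : v ∈ Ioo 0 τ) (hd : HasDerivAt f f' v) (h0 : ∀ y ∈ Ioo 0 τ, f y = 0) :
    f' = 0 :=
  hd.unique ((hasDerivAt_const v (0 : F)).congr_of_eventuallyEq
    (Filter.eventually_of_mem (Ioo_mem_nhds hv.1 hv.2) h0))

namespace Cap
variable {ψ : ℝ × ℝ → V3} {a b τ θ : ℝ} (h : Cap ψ a b τ θ) {u ε : ℝ}
include h

theorem sd_mem (hu : Sd a b u ε) : u ∈ Icc a b := h.geo_mem hu.bd

theorem pu_eq (hu : Sd a b u ε) (v : ℝ) :
    pu ψ (u, v) = ε * (√(confE ψ (u, v)) * Real.sin θ) := by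
  rcases hu with ⟨rfl, rfl⟩ | ⟨rfl, rfl⟩
  · rw [h.pu_b, one_mul]
  · rw [h.pu_a, neg_one_mul]

theorem one_add_cos_pos : 0 < 1 + Real.cos θ := (alg2_cos h.ann.hθa).1

private theorem j0_E (hu : u ∈ Icc a b) (v : ℝ) : 0 < confE ψ (u, v) :=
  h.ann.immersion (u, v) hu

theorem lenL_pos (hu : u ∈ Icc a b) : 0 < lenL ψ τ u :=
  intervalIntegral.intervalIntegral_pos_of_pos
    ((cont_line_v h.cont_E hu).sqrt.intervalIntegrable 0 τ)
    (fun v => Real.sqrt_pos.2 (h.j0_E hu v)) h.ann.hτ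

theorem lenS_pos (hu : u ∈ Icc a b) : 0 < lenS ψ b τ u :=
  intervalIntegral.intervalIntegral_pos_of_pos
    ((continuous_const.div (cont_line_v h.cont_E hu).sqrt
      fun v => (Real.sqrt_pos.2 (h.j0_E hu v)).ne').intervalIntegrable 0 τ)
    (fun v => div_pos (mul_pos two_pos h.q_pos) (Real.sqrt_pos.2 (h.j0_E hu v))) h.ann.hτ

theorem cont_Jm (hu : u ∈ Icc a b) : Continuous fun v => Jm ψ b (u, v) :=
  j0_cont_sg ((continuous_const.div (cont_line_v h.cont_E hu) fun v => (h.j0_E hu v).ne').neg.smul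
    (j0_cont_cross (cont_line_v h.pd_psi.cont hu) (cont_line_v h.pd_psi.contv hu)))

theorem cont_Nvm (hu : u ∈ Icc a b) : Continuous fun v => Nvm ψ b (u, v) :=
  j0_cont_sg (cont_line_v h.pd_N.contv hu)

/-- `σ N` has derivative `σ (N_v)` along a line -/
theorem deriv_Nm (hu : u ∈ Icc a b) (v : ℝ) (i j : Fin 2) :
    HasDerivAt (fun y => Nm ψ (u, y) i j) (Nvm ψ b (u, v) i j) v :=
  (PDm.sg h.pd_N.cv i j).hv (u, v) hu

theorem Jf_lin (hu : u ∈ Icc a b) {c₁ c₂ : ℝ → C2} (h₁ : Continuous c₁) (h₂ : Continuous c₂)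
    (s t : ℂ) :
    Jf ψ b τ u (fun v => s • c₁ v + t • c₂ v) (fun v => s • c₁ v + t • c₂ v)
      = conj s * s * Jf ψ b τ u c₁ c₁ + conj s * t * Jf ψ b τ u c₁ c₂
        + conj t * s * Jf ψ b τ u c₂ c₁ + conj t * t * Jf ψ b τ u c₂ c₂ := by
  have i11 := ((j0_cont_hf h₁ (h.cont_Jm hu) h₁).intervalIntegrable
    (μ := MeasureTheory.volume) 0 τ).const_mul (conj s * s)
  have i12 := ((j0_cont_hf h₁ (h.cont_Jm hu) h₂).intervalIntegrable
    (μ := MeasureTheory.volume) 0 τ).const_mul (conj s * t)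
  have i21 := ((j0_cont_hf h₂ (h.cont_Jm hu) h₁).intervalIntegrable
    (μ := MeasureTheory.volume) 0 τ).const_mul (conj t * s)
  have i22 := ((j0_cont_hf h₂ (h.cont_Jm hu) h₂).intervalIntegrable
    (μ := MeasureTheory.volume) 0 τ).const_mul (conj t * t)
  simp only [Jf, j0_lin]
  rw [intervalIntegral.integral_add ((i11.add i12).add i21) i22,
    intervalIntegral.integral_add (i11.add i12) i21, intervalIntegral.integral_add i11 i12]
  simp only [intervalIntegral.integral_const_mul]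

/-- solutions for different spectral parameters are linearly independent -/
theorem lsol_indep (hu : u ∈ Icc a b) {κ₁ κ₂ : ℂ} {c₁ c₂ : ℝ → C2} (h₁ : LSol ψ u κ₁ c₁)
    (h₂ : LSol ψ u κ₂ c₂) (n₁ : ∀ v, c₁ v ≠ 0) (n₂ : ∀ v, c₂ v ≠ 0) {s t : ℂ}
    (hst : s ≠ 0 ∨ t ≠ 0) (h0 : ∀ v ∈ Icc 0 τ, s • c₁ v + t • c₂ v = 0) : κ₁ = κ₂ := by
  have hτ := h.ann.hτ
  have hs : s ≠ 0 := by
    rintro rfl
    have e := h0 0 (left_mem_Icc.2 hτ.le)
    rw [zero_smul, zero_add, smul_eq_zero] at e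
    exact e.elim (hst.resolve_left fun x => x rfl) (n₂ 0)
  by_contra hne
  have hA : ∀ v ∈ Ioo 0 τ, Am ψ (u, v) *ᵥ c₁ v = 0 := fun v hv => by
    have e := j0_zero hv (((h₁ v).const_smul s).add ((h₂ v).const_smul t))
      fun y hy => h0 y (Ioo_subset_Icc_self hy)
    have e2 : t • c₂ v = -(s • c₁ v) := eq_neg_of_add_eq_zero_right (h0 v (Ioo_subset_Icc_self hv))
    rw [smul_comm t, ← mulVec_smul _ t, e2, mulVec_neg, mulVec_smul, smul_smul, smul_neg,
      smul_smul, ← neg_smul, ← add_smul, smul_eq_zero] at e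
    refine e.resolve_left fun e3 => ?_
    have e4 : s * I * (κ₂ - κ₁) = 0 := by linear_combination e3
    exact mul_ne_zero (mul_ne_zero hs I_ne_zero) (sub_ne_zero.2 (Ne.symm hne)) e4
  have hv : τ / 2 ∈ Ioo 0 τ := ⟨half_pos hτ, half_lt_self hτ⟩
  have hp : ((u, τ / 2) : ℝ × ℝ) ∈ strip a b := hu
  have hc : HasDerivAt c₁ 0 (τ / 2) := by
    have e := h₁ (τ / 2)
    rwa [hA _ hv, smul_zero] at e
  have hd : HasDerivAt (fun y => Am ψ (u, y) *ᵥ c₁ y)
      ((I • sg (ph1 ψ (u, τ / 2))) *ᵥ c₁ (τ / 2)) (τ / 2) := by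
    refine hasDerivAt_pi.2 fun i => ?_
    have e := (((h.pd_A i 0).hv _ hp).mul (hasDerivAt_pi.1 hc 0)).add
      (((h.pd_A i 1).hv _ hp).mul (hasDerivAt_pi.1 hc 1))
    simp only [Pi.zero_apply, mul_zero, add_zero] at e
    simp only [mulVec, dotProduct, Fin.sum_univ_two]
    exact e
  have e := j0_zero hv hd hA
  rw [h.sg_ph1 hp, smul_mulVec, add_mulVec, smul_mulVec, smul_mulVec, hA _ hv, smul_zero, zero_add,
    smul_eq_zero, smul_eq_zero] at e
  have e5 := (e.resolve_left I_ne_zero).resolve_left (ofReal_ne_zero.2 h.q_pos.ne')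
  refine n₁ (τ / 2) ?_
  rw [← one_mulVec (c₁ (τ / 2)), ← h.N_N hp, ← mulVec_mulVec, e5, mulVec_zero]

end Cap

end Pool.Agent.Lib.MP_c7e804_gt
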