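import Pool.Agent.Lib.MP_c7e804_gt.H71Wnd

/-!
Positivity of the boundary forms outside the window.
-/

namespace Pool.Agent.Lib.MP_c7e804_gt

open Matrix Set Complex
open scoped ContDiff ComplexConjugate

theorem out1_per {ψ : ℝ × ℝ → V3} {a b τ u : ℝ} {κ μ : ℂ} {c : ℝ × ℝ → C2}
    (hc : Floq ψ a b τ κ μ c) (hu : ((u, 0) : ℝ × ℝ) ∈ strip a b) : c (u, τ) = μ • c (u, 0) := by
  simpa using hc.per (u, 0) hu

theorem out1_abs_le {θ κ : ℝ} (h : 0 < θ ∧ θ < Real.pi) (hκ : κ ∈ Icc (ka θ) (kb θ)) :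
    |κ| ≤ 1 + κ * Real.cos θ := by
  have h1 := (div_le_iff₀ (alg2_cos h).1).1 hκ.1
  have h2 := (le_div_iff₀ (alg2_cos h).2).1 hκ.2
  rw [abs_le]
  constructor <;> linarith

theorem out1_im {D α t x : ℝ} (h : cexp (I * x) = D + I * α * t) : Real.sin x = α * t := by
  have e := congrArg Complex.im h
  rw [mul_comm I, Complex.exp_ofReal_mul_I_im] at e
  simpa using e

namespace Setup
variable {ψ : ℝ × ℝ → V3} {a b τ θ : ℝ} {g : ℕ} {s : ℕ → ℝ × ℝ → ℂ} {F G : ℂ → ℝ × ℝ → M2}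
  (h : Setup ψ a b τ θ g s F G) {ε : ℝ} {ϕ : ℝ → ℝ} (hW : Wnd ψ a b τ θ g s F ε ϕ)
include h hW

theorem w_floq_real {κ μ : ℂ} {c : ℝ × ℝ → C2} (hc : Floq ψ a b τ κ μ c) (hμ : ‖μ‖ = 1) :
    κ.im = 0 := by
  by_contra hne
  have hl := hc.sol.lsol (right_mem_Icc.2 h.cap.ann.hab.le)
  have hp := out1_per hc (h.cap.mem_b 0)
  have hJ := h.cap.Jf_orth (Or.inr rfl) hl hl hp hp (by rw [Complex.conj_mul', hμ]; simp)
    fun e => hne (Complex.conj_eq_iff_im.1 e.symm)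
  obtain ⟨k, -, hk, -⟩ := hW.onlyb κ μ ⟨hμ, c, by rwa [cj_one], by rw [hJ]; simp⟩
  exact hne (by rw [hk, ofReal_im])

theorem w_root_real {z : ℂ} (h0 : Yf ψ b g s z = 0) : z.im = 0 := by
  obtain ⟨x, hx, he⟩ := exists_eig (X0 ψ b g s z) (s := 0) (by rw [← Yf, h0]; simp)
  obtain ⟨d, t, hM⟩ := centralizer (h.X0_ne z) (h.M_comm z)
  have hd : d ^ 2 = 1 := by
    have h1 := h.cap.det_F h.frame z (h.cap.mem_b τ)
    rw [hM, ← sg_smul, det_sg, smul_dotProduct, dotProduct_smul, ← Yf, h0] at h1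
    simpa using h1
  have hn : ‖d‖ = 1 := by
    have h1 := congrArg norm hd
    rw [norm_pow, norm_one] at h1
    exact (pow_eq_one_iff_of_nonneg (norm_nonneg d) two_ne_zero).1 h1
  refine h.w_floq_real hW (h.cap.floq_F h.frame (μ := d) hx ?_) hn
  rw [hM, add_mulVec, smul_mulVec, smul_mulVec, one_mulVec, he]
  simp

theorem w_posJ {κ : ℝ} (hκ : κ ∉ Icc (ka θ) (kb θ)) {μ : ℂ} {c : ℝ × ℝ → C2}
    (hc : Floq ψ a b τ κ μ c) (hμ : ‖μ‖ = 1) :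
    0 < (Jf ψ b τ b (fun v => c (b, v)) (fun v => c (b, v))).re ∧
      (Jf ψ b τ a (fun v => c (a, v)) (fun v => c (a, v))).re < 0 := by
  constructor <;> by_contra hn <;> rw [not_lt] at hn
  · obtain ⟨k, hk, e, -⟩ := hW.onlyb κ μ ⟨hμ, c, by rwa [cj_one], by rwa [one_mul]⟩
    exact hκ (by rwa [Complex.ofReal_injective e])
  · obtain ⟨k, hk, e, -⟩ := hW.onlya κ (conj μ)
      ⟨by rwa [Complex.norm_conj], c, by rwa [cj_neg_one, Complex.conj_conj], by linarith⟩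
    exact hκ (by rwa [Complex.ofReal_injective e])

theorem w_pos {κ : ℝ} (hκ : κ ∉ Icc (ka θ) (kb θ)) {μ : ℂ} {c : ℝ × ℝ → C2}
    (hc : Floq ψ a b τ κ μ c) (hμ : ‖μ‖ = 1) :
    0 < (∫ v in (0 : ℝ)..τ, hf (c (b, v)) (Km ψ θ κ (b, v) * Am ψ (b, v)) (c (b, v))).re ∧
      (∫ v in (0 : ℝ)..τ, hf (c (a, v)) (Km ψ θ κ (a, v) * Am ψ (a, v)) (c (a, v))).re < 0 := by
  rw [← h.Jf_floq (Or.inr rfl) hc hμ, ← h.Jf_floq (Or.inl rfl) hc hμ]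
  exact h.w_posJ hW hκ hc hμ

theorem out1_end {κ : ℝ} (hκ : κ ∈ Icc (ka θ) (kb θ)) (hs : Real.sin (ϕ κ) ≠ 0) :
    0 < (Yf ψ b g s κ).re ∧ 0 < ε * (Pf ψ b τ g s κ).re := by
  have e1 := out1_im (hW.win.ex κ hκ)
  have hε : ε * ε = 1 := by rcases hW.win.hε with e | e <;> rw [e] <;> norm_num
  have hr : 0 < √(Yf ψ b g s κ).re := by
    refine (Real.sqrt_nonneg _).lt_of_ne fun e => hs ?_
    rw [e1, ← e, mul_zero, mul_zero]
  have hY := Real.sqrt_pos.1 hr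
  refine ⟨hY, ?_⟩
  have hYe : Yf ψ b g s κ = ((Yf ψ b g s κ).re : ℂ) :=
    Complex.ext rfl (by rw [h.Y_real κ, ofReal_im])
  obtain ⟨x, hx, he⟩ := exists_eig (X0 ψ b g s κ) (s := (ε * √(Yf ψ b g s κ).re : ℝ))
    (by rw [← Yf, ← ofReal_pow, mul_pow, Real.sq_sqrt hY.le, sq, hε, one_mul, ← hYe])
  obtain ⟨hc, hμ⟩ := h.floq_eig hx he
  have hJ : 0 < (Jf ψ b τ b (fun v => F κ (b, v) *ᵥ x) (fun v => F κ (b, v) *ᵥ x)).re := by
    by_contra hn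
    obtain ⟨k, -, e2, e3⟩ := hW.onlyb κ _ ⟨hμ, _, by rwa [cj_one], by rwa [one_mul, ← not_lt]⟩
    rw [← Complex.ofReal_injective e2] at e3
    have e4 := out1_im e3.symm
    exact hs (by linarith)
  have e5 := h.sheet_J (Or.inr rfl) hx he
  have hK : 0 ≤ (hf (F κ (b, 0) *ᵥ x) (Km ψ θ κ (b, 0)) (F κ (b, 0) *ᵥ x)).re := by
    rw [Km_eq]
    exact hf_nonneg (h.cap.bd_unit (Or.inr rfl) 0) (out1_abs_le h.cap.ann.hθa hκ) _
  have e6 : ε * (Pf ψ b τ g s κ).re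
      * (hf (F κ (b, 0) *ᵥ x) (Km ψ θ κ (b, 0)) (F κ (b, 0) *ᵥ x)).re = √(Yf ψ b g s κ).re *
      (Jf ψ b τ b (fun v => F κ (b, v) *ᵥ x) (fun v => F κ (b, v) *ᵥ x)).re := by
    rw [mul_assoc, ← e5, ← mul_assoc, ← mul_assoc, hε, one_mul]
  have e7 := mul_pos hr hJ
  rw [← e6] at e7
  exact pos_of_mul_pos_left e7 hK

theorem w_centre {κ : ℝ} (hκ : κ ∈ Icc (ka θ) (kb θ)) :
    0 < (Yf ψ b g s κ).re ∧ 0 < ε * (Pf ψ b τ g s κ).re := by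
  rcases hκ.1.eq_or_lt with e | h1
  · refine h.out1_end hW hκ ?_
    rw [← e]
    exact (Real.sin_neg_of_neg_of_neg_pi_lt hW.win.lo.2 hW.win.lo.1).ne
  rcases hκ.2.eq_or_lt with e | h2
  · refine h.out1_end hW hκ ?_
    rw [e]
    exact (Real.sin_pos_of_pos_of_lt_pi hW.win.hi.1 hW.win.hi.2).ne'
  exact ⟨h.Y_pos ⟨h1, h2⟩, hW.win.pos κ ⟨h1, h2⟩⟩

theorem w_P_ne {κ : ℝ} (hY : 0 ≤ (Yf ψ b g s κ).re) : (Pf ψ b τ g s κ).re ≠ 0 := by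
  by_cases hκ : κ ∈ Icc (ka θ) (kb θ)
  · exact right_ne_zero_of_mul (h.w_centre hW hκ).2.ne'
  have hYe : Yf ψ b g s κ = ((Yf ψ b g s κ).re : ℂ) :=
    Complex.ext rfl (by rw [h.Y_real κ, ofReal_im])
  rcases hY.eq_or_lt with hY0 | hY0
  · have h0 : Yf ψ b g s κ = 0 := by rw [hYe, ← hY0, ofReal_zero]
    obtain ⟨x, hx, he⟩ := exists_eig (X0 ψ b g s κ) (s := 0) (by rw [← Yf, h0]; simp)
    obtain ⟨hc, hμ⟩ := h.floq_eig (t := 0) hx (by rw [he, ofReal_zero])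
    have he' : sg (X0 ψ b g s κ) *ᵥ x = (I * (0 : ℝ)) • x := by rw [he]; simp
    obtain ⟨tb, htb⟩ := null_form hx
      (hf_null (h.X0_ne κ) (h.cap.Km_Xk h.kill.toPKill κ (Or.inr rfl) 0) he')
    have e1 : (∫ v in (0 : ℝ)..τ, hf (F κ (b, v) *ᵥ x) (Km ψ θ κ (b, v) * Am ψ (b, v))
        (F κ (b, v) *ᵥ x)) = tb * ∫ v in (0 : ℝ)..τ,
          br (F κ (b, v) *ᵥ x) (Am ψ (b, v) *ᵥ (F κ (b, v) *ᵥ x)) := by
      rw [← intervalIntegral.integral_const_mul]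
      congr 1
      funext v
      obtain ⟨y', hy'⟩ := h.s4a_surj κ (h.cap.mem_b v) (Am ψ (b, v) *ᵥ (F κ (b, v) *ᵥ x))
      rw [hy', h.s4a_br κ (h.cap.mem_b v), ← htb, ← h.form_b κ x y' v, ← hy', hf, hf,
        mulVec_mulVec _ (Km ψ θ κ (b, v))]
    have hk := (h.w_pos hW hκ hc hμ).1
    obtain ⟨t, ht, hn⟩ := nilp_form (h.X0_ne κ) hx (by rw [he, zero_smul])
    have e : 2 * Pf ψ b τ g s κ = t * ∫ v in (0 : ℝ)..τ,
        br (F κ (b, v) *ᵥ x) (Am ψ (b, v) *ᵥ (F κ (b, v) *ᵥ x)) := by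
      rw [Pf, ← intervalIntegral.integral_const_mul, ← intervalIntegral.integral_const_mul]
      congr 1
      funext v
      rw [← trace_sg_mul, trace_of_nilp_form (t := t) (c := F κ (b, v) *ᵥ x)]
      · rfl
      · intro y
        obtain ⟨y', rfl⟩ := h.s4a_surj κ (h.cap.mem_b v) y
        rw [h.s4a_conj κ (h.cap.mem_b v), hn, mulVec_smul, h.s4a_br κ (h.cap.mem_b v)]
    intro hP
    have hP0 : Pf ψ b τ g s κ = 0 := Complex.ext hP (h.P_real κ)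
    rw [hP0, mul_zero] at e
    rw [e1, (mul_eq_zero.1 e.symm).resolve_left ht, mul_zero, zero_re] at hk
    exact lt_irrefl _ hk
  · obtain ⟨x, hx, he⟩ := exists_eig (X0 ψ b g s κ) (s := (√(Yf ψ b g s κ).re : ℝ))
      (by rw [← Yf, ← ofReal_pow, Real.sq_sqrt hY, ← hYe])
    obtain ⟨hc, hμ⟩ := h.floq_eig hx he
    have h1 := mul_pos (Real.sqrt_pos.2 hY0) (h.w_posJ hW hκ hc hμ).1
    rw [h.sheet_J (Or.inr rfl) hx he] at h1
    exact left_ne_zero_of_mul h1.ne'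

theorem w_sheet_ka {x : C2} (hx : x ≠ 0) (hx2 : sg (cv (ψ (b, 0))) *ᵥ x = x) :
    sg (X0 ψ b g s (ka θ)) *ᵥ x = ((-ε * √(Yf ψ b g s (ka θ)).re : ℝ) : ℂ) • x := by
  obtain ⟨y, hy, h1, h2⟩ := hW.yb
  have hn : cv (ψ (b, 0)) ≠ 0 := fun e => by
    have h3 := cv_dot (ψ (b, 0)) (ψ (b, 0))
    rw [e, h.cap.bd_unit (Or.inr rfl) 0] at h3
    simp at h3
  obtain ⟨t, rfl⟩ := eig_unique (s := 1) hn hy (by rw [h1, one_smul]) (by rw [hx2, one_smul])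
  rw [mulVec_smul, h2, smul_comm]

end Setup

end Pool.Agent.Lib.MP_c7e804_gt
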