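import Pool.Agent.Lib.MP_c7e804_gt.H43Wind

/-!
A Sturm comparison argument (Picone identity).
-/

namespace Pool.Agent.Lib.MP_c7e804_gt

open Matrix Set Complex
open scoped ContDiff ComplexConjugate

private theorem pic_normsq {f f' : ℝ → ℂ} (hf : ∀ v, HasDerivAt f (f' v) v) (v : ℝ) :
    HasDerivAt (fun v => ‖f v‖ ^ 2)
      (2 * ((f v).re * (f' v).re + (f v).im * (f' v).im)) v := by
  have hre : HasDerivAt (fun v => (f v).re) (f' v).re v :=
    Complex.reCLM.hasFDerivAt.comp_hasDerivAt v (hf v)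
  have him : HasDerivAt (fun v => (f v).im) (f' v).im v :=
    Complex.imCLM.hasFDerivAt.comp_hasDerivAt v (hf v)
  have h := (hre.mul hre).add (him.mul him)
  have e : (fun v => ‖f v‖ ^ 2) = fun v => (f v).re * (f v).re + (f v).im * (f v).im := by
    funext v
    rw [Complex.sq_norm, Complex.normSq_apply]
  rw [e]
  have e2 : 2 * ((f v).re * (f' v).re + (f v).im * (f' v).im) =
      ((f' v).re * (f v).re + (f v).re * (f' v).re) +
        ((f' v).im * (f v).im + (f v).im * (f' v).im) := by ring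
  rw [e2]
  exact h

private theorem pic_alg (a b : ℂ) (s r k : ℝ) (hs : 0 < s) :
    ‖b‖ ^ 2 / s - k ^ 2 * s * ‖a‖ ^ 2 =
      ‖b - ((s * r : ℝ) : ℂ) * a‖ ^ 2 / s +
        (-(s * (k ^ 2 + r ^ 2)) * ‖a‖ ^ 2 + r * (2 * (a.re * b.re + a.im * b.im))) := by
  simp only [Complex.sq_norm, Complex.normSq_apply, Complex.sub_re, Complex.sub_im,
    Complex.mul_re, Complex.mul_im, Complex.ofReal_re, Complex.ofReal_im]
  field_simp
  ring

/-- the Dirichlet form is positive below the first eigenvalue -/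
theorem dirichlet_pos {τ k : ℝ} (hτ : 0 < τ) (hk : 0 < k) {σ : ℝ → ℝ} (hσ : Continuous σ)
    (hσ0 : ∀ v, 0 < σ v) (hB : k * ∫ v in (0 : ℝ)..τ, σ v < Real.pi) {f f' : ℝ → ℂ}
    (hf : ∀ v, HasDerivAt f (f' v) v) (hf' : Continuous f') (h0 : f 0 = 0) (h1 : f τ = 0) :
    0 ≤ ∫ v in (0 : ℝ)..τ, (‖f' v‖ ^ 2 / σ v - k ^ 2 * σ v * ‖f v‖ ^ 2) ∧
      ((∫ v in (0 : ℝ)..τ, (‖f' v‖ ^ 2 / σ v - k ^ 2 * σ v * ‖f v‖ ^ 2)) ≤ 0 →
        ∀ v ∈ Icc 0 τ, f v = 0) := by
  have hfc : Continuous f := continuous_iff_continuousAt.2 fun v => (hf v).continuousAt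
  set S : ℝ → ℝ := fun v => ∫ t in (0 : ℝ)..v, σ t with hS
  have hSd : ∀ v, HasDerivAt S (σ v) v := fun v =>
    intervalIntegral.integral_hasDerivAt_right (hσ.intervalIntegrable _ _)
        (hσ.stronglyMeasurableAtFilter _ _) hσ.continuousAt
  have hSm : Monotone S := monotone_of_deriv_nonneg (fun v => (hSd v).differentiableAt)
    (fun v => by rw [(hSd v).deriv]; exact (hσ0 v).le)
  have hS0 : S 0 = 0 := by simp [hS]
  set L : ℝ := S τ with hL
  have hLB : k * L < Real.pi := hB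
  set θ : ℝ → ℝ := fun v => k * (S v - L / 2) with hθ
  have hθd : ∀ v, HasDerivAt θ (k * σ v) v := fun v => ((hSd v).sub_const _).const_mul k
  have hθc : Continuous θ := continuous_iff_continuousAt.2 fun v => (hθd v).continuousAt
  have hcos : ∀ v ∈ Icc (0 : ℝ) τ, 0 < Real.cos (θ v) := by
    intro v hv
    have a1 : 0 ≤ S v := hS0 ▸ hSm hv.1
    have a2 : S v ≤ L := hSm hv.2
    apply Real.cos_pos_of_mem_Ioo
    constructor
    · have : k * (-(L / 2)) ≤ θ v := mul_le_mul_of_nonneg_left (by linarith) hk.le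
      linarith
    · have : θ v ≤ k * (L / 2) := mul_le_mul_of_nonneg_left (by linarith) hk.le
      linarith
  set ρ : ℝ → ℝ := fun v => -k * Real.tan (θ v) with hρ
  have hρd : ∀ v ∈ Icc (0 : ℝ) τ, HasDerivAt ρ (-(σ v * (k ^ 2 + ρ v ^ 2))) v := by
    intro v hv
    have hc := (hcos v hv).ne'
    have h := ((Real.hasDerivAt_tan hc).comp v (hθd v)).const_mul (-k)
    refine h.congr_deriv ?_
    show -k * (1 / Real.cos (θ v) ^ 2 * (k * σ v)) =
      -(σ v * (k ^ 2 + (-k * Real.tan (θ v)) ^ 2))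
    rw [Real.tan_eq_sin_div_cos]
    field_simp
    have := Real.sin_sq_add_cos_sq (θ v)
    linear_combination σ v * this
  have hρc : ContinuousOn ρ (Icc (0 : ℝ) τ) := fun v hv =>
    (hρd v hv).continuousAt.continuousWithinAt
  have huI : uIcc (0 : ℝ) τ = Icc 0 τ := uIcc_of_le hτ.le
  set g : ℝ → ℝ := fun v => ‖f' v - ((σ v * ρ v : ℝ) : ℂ) * f v‖ ^ 2 / σ v with hg
  set D : ℝ → ℝ := fun v => -(σ v * (k ^ 2 + ρ v ^ 2)) * ‖f v‖ ^ 2 +
    ρ v * (2 * ((f v).re * (f' v).re + (f v).im * (f' v).im)) with hD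
  have hgc : ContinuousOn g (Icc (0 : ℝ) τ) := by
    apply ContinuousOn.div _ hσ.continuousOn (fun v _ => (hσ0 v).ne')
    apply ContinuousOn.pow
    apply ContinuousOn.norm
    apply hf'.continuousOn.sub
    exact (Complex.continuous_ofReal.comp_continuousOn (hσ.continuousOn.mul hρc)).mul
      hfc.continuousOn
  have hDc : ContinuousOn D (Icc (0 : ℝ) τ) := by
    apply ContinuousOn.add
    · exact ((hσ.continuousOn.mul (continuousOn_const.add (hρc.pow 2))).neg).mul
        (hfc.norm.pow 2).continuousOn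
    · apply hρc.mul
      apply Continuous.continuousOn
      exact continuous_const.mul (((Complex.continuous_re.comp hfc).mul
        (Complex.continuous_re.comp hf')).add ((Complex.continuous_im.comp hfc).mul
        (Complex.continuous_im.comp hf')))
  have hDi : ∫ v in (0 : ℝ)..τ, D v = 0 := by
    have h := intervalIntegral.integral_eq_sub_of_hasDerivAt
      (f := fun v => ρ v * ‖f v‖ ^ 2) (f' := D) (a := 0) (b := τ)
      (fun v hv => (hρd v (huI ▸ hv)).mul (pic_normsq hf v))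
      (ContinuousOn.intervalIntegrable (huI ▸ hDc))
    rw [h]
    simp [h0, h1]
  have hI : ∫ v in (0 : ℝ)..τ, (‖f' v‖ ^ 2 / σ v - k ^ 2 * σ v * ‖f v‖ ^ 2) =
      ∫ v in (0 : ℝ)..τ, g v := by
    have e : (fun v => ‖f' v‖ ^ 2 / σ v - k ^ 2 * σ v * ‖f v‖ ^ 2) = fun v => g v + D v := by
      funext v
      exact pic_alg (f v) (f' v) (σ v) (ρ v) k (hσ0 v)
    rw [e, intervalIntegral.integral_add (ContinuousOn.intervalIntegrable (huI ▸ hgc))
      (ContinuousOn.intervalIntegrable (huI ▸ hDc)), hDi, add_zero]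
  have hg0 : ∀ v, 0 ≤ g v := fun v => div_nonneg (sq_nonneg _) (hσ0 v).le
  rw [hI]
  refine ⟨intervalIntegral.integral_nonneg hτ.le fun v _ => hg0 v, fun hle => ?_⟩
  have hz : ∀ v ∈ Icc (0 : ℝ) τ, g v = 0 := by
    intro v hv
    by_contra hne
    have := intervalIntegral.integral_pos hτ hgc (fun x _ => hg0 x)
      ⟨v, hv, lt_of_le_of_ne (hg0 v) (Ne.symm hne)⟩
    linarith
  have hq : ∀ v ∈ Icc (0 : ℝ) τ,
      HasDerivAt (fun v => f v / ((Real.cos (θ v) : ℝ) : ℂ)) 0 v := by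
    intro v hv
    have hc := (hcos v hv).ne'
    have hc' : ((Real.cos (θ v) : ℝ) : ℂ) ≠ 0 := by exact_mod_cast hc
    have hcd : HasDerivAt (fun v => ((Real.cos (θ v) : ℝ) : ℂ))
        ((-Real.sin (θ v) * (k * σ v) : ℝ) : ℂ) v :=
      ((Real.hasDerivAt_cos (θ v)).comp v (hθd v)).ofReal_comp
    have h := (hf v).div hcd hc'
    have e : f' v = ((σ v * ρ v : ℝ) : ℂ) * f v := by
      have h2 := hz v hv
      simp only [hg, div_eq_zero_iff, (hσ0 v).ne', or_false, pow_eq_zero_iff two_ne_zero,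
        norm_eq_zero] at h2
      exact sub_eq_zero.1 h2
    refine h.congr_deriv ?_
    rw [e, div_eq_zero_iff]
    left
    have e2 : σ v * ρ v * Real.cos (θ v) = -Real.sin (θ v) * (k * σ v) := by
      show σ v * (-k * Real.tan (θ v)) * Real.cos (θ v) = _
      rw [Real.tan_eq_sin_div_cos]
      field_simp
    have e3 : ((σ v * ρ v : ℝ) : ℂ) * ((Real.cos (θ v) : ℝ) : ℂ) =
        ((-Real.sin (θ v) * (k * σ v) : ℝ) : ℂ) := by
      rw [← e2, Complex.ofReal_mul (σ v * ρ v)]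
    linear_combination f v * e3
  intro v hv
  have h := constant_of_has_deriv_right_zero
    (f := fun v => f v / ((Real.cos (θ v) : ℝ) : ℂ)) (a := 0) (b := τ)
    (fun x hx => (hq x hx).continuousAt.continuousWithinAt)
    (fun x hx => (hq x (Ico_subset_Icc_self hx)).hasDerivWithinAt) v hv
  have hc' : ((Real.cos (θ v) : ℝ) : ℂ) ≠ 0 := by exact_mod_cast (hcos v hv).ne'
  simp only [h0, zero_div, div_eq_zero_iff, hc', or_false] at h
  exact h

end Pool.Agent.Lib.MP_c7e804_gt
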