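import Pool.Agent.Lib.MP_c7e804_gt.H71Pic

/-!
Lower bound for the quasi-periodic form.
-/

namespace Pool.Agent.Lib.MP_c7e804_gt

open Matrix Set Complex
open scoped ContDiff ComplexConjugate

theorem pic2_alg {k s : ℝ} (hs : s ≠ 0) (g g' u w : ℂ) :
    ‖g'‖ ^ 2 / s - k ^ 2 * s * ‖g‖ ^ 2 =
      (‖g' - s * w‖ ^ 2 / s - k ^ 2 * s * ‖g - u‖ ^ 2) +
        (conj (2 * g' - s * w) * w + conj (2 * g - u) * (-(k ^ 2 * s) * u)).re := by
  simp only [Complex.sq_norm, normSq_apply, ← ofReal_pow, add_re, mul_re, mul_im, sub_re, sub_im,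
    conj_re, conj_im, neg_re, neg_im, ofReal_re, ofReal_im, re_ofNat, im_ofNat]
  field_simp
  ring

theorem pic2_core {τ k B : ℝ} (hτ : 0 < τ) (hk : 0 < k) {σ : ℝ → ℝ}
    (hσ : Continuous σ) (hσ0 : ∀ v, 0 < σ v) (hB : B = k * ∫ v in (0 : ℝ)..τ, σ v)
    (hπ : B < Real.pi) {g g' : ℝ → ℂ} (hg : ∀ v, HasDerivAt g (g' v) v) (hg' : Continuous g')
    {μ : ℂ} (hμ : ‖μ‖ = 1) (hp : g τ = μ * g 0) :
    2 * k * (‖g 0‖ ^ 2 * (Real.cos B - μ.re) / Real.sin B)
        ≤ ∫ v in (0 : ℝ)..τ, (‖g' v‖ ^ 2 / σ v - k ^ 2 * σ v * ‖g v‖ ^ 2) := by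
  have hB0 : 0 < B := by
    rw [hB]
    exact mul_pos hk (intervalIntegral.intervalIntegral_pos_of_pos (hσ.intervalIntegrable _ _)
      hσ0 hτ)
  have hs := Real.sin_pos_of_pos_of_lt_pi hB0 hπ
  have hs' : (Real.sin B : ℂ) ≠ 0 := ofReal_ne_zero.2 hs.ne'
  obtain ⟨S, hS, S0, S1⟩ : ∃ S : ℝ → ℝ, (∀ v, HasDerivAt S (k * σ v) v) ∧ S 0 = 0 ∧ S τ = B :=
    ⟨fun v => k * ∫ x in (0 : ℝ)..v, σ x,
      fun v => (hσ.integral_hasStrictDerivAt 0 v).hasDerivAt.const_mul k, by simp, hB.symm⟩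
  have cS : Continuous S := continuous_iff_continuousAt.2 fun v => (hS v).continuousAt
  have cg : Continuous g := continuous_iff_continuousAt.2 fun v => (hg v).continuousAt
  set a : ℂ := g 0 / Real.sin B with ha
  set u : ℝ → ℂ := fun v => a * ((Real.sin (B - S v) : ℝ) + μ * (Real.sin (S v) : ℝ)) with hu
  set w : ℝ → ℂ := fun v => a * k * (μ * (Real.cos (S v) : ℝ) - (Real.cos (B - S v) : ℝ)) with hw
  have cu : Continuous u := by fun_prop
  have cw : Continuous w := by fun_prop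
  have du : ∀ v, HasDerivAt u (σ v * w v) v := fun v => by
    refine (((((hS v).const_sub B).sin.ofReal_comp).add
      (((hS v).sin.ofReal_comp).const_mul μ)).const_mul a).congr_deriv ?_
    simp only [hw]
    push_cast
    ring
  have dw : ∀ v, HasDerivAt w (-(k ^ 2 * σ v) * u v) v := fun v => by
    refine (((((hS v).cos.ofReal_comp).const_mul μ).sub
      (((hS v).const_sub B).cos.ofReal_comp)).const_mul (a * k)).congr_deriv ?_
    simp only [hu]
    push_cast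
    ring
  have u0 : u 0 = g 0 := by
    simp only [hu, ha, S0, sub_zero, Real.sin_zero, ofReal_zero, mul_zero, add_zero]
    field_simp
  have u1 : u τ = g τ := by
    simp only [hu, ha, S1, sub_self, Real.sin_zero, ofReal_zero, zero_add, hp]
    field_simp
  have h1 := (dirichlet_pos hτ hk hσ hσ0 (hB ▸ hπ) (f := fun v => g v - u v)
    (f' := fun v => g' v - σ v * w v) (fun v => (hg v).sub (du v)) (by fun_prop)
    (sub_eq_zero.2 u0.symm) (sub_eq_zero.2 u1.symm)).1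
  have dP : ∀ v, HasDerivAt (fun v => (conj (2 * g v - u v) * w v).re)
      (conj (2 * g' v - σ v * w v) * w v + conj (2 * g v - u v) * (-(k ^ 2 * σ v) * u v)).re v :=
    fun v => by
      have e := ((((hg v).const_mul 2).sub (du v)).star.mul (dw v))
      exact Complex.reCLM.hasFDerivAt.comp_hasDerivAt v e
  have cP : Continuous fun v => (conj (2 * g' v - σ v * w v) * w v +
      conj (2 * g v - u v) * (-(k ^ 2 * σ v) * u v)).re := by fun_prop
  have h2 := intervalIntegral.integral_eq_sub_of_hasDerivAt (a := 0) (b := τ) (fun v _ => dP v)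
    (cP.intervalIntegrable _ _)
  have c1 : Continuous fun v => ‖g' v - σ v * w v‖ ^ 2 / σ v - k ^ 2 * σ v * ‖g v - u v‖ ^ 2 :=
    (Continuous.div (by fun_prop) hσ fun v => (hσ0 v).ne').sub (by fun_prop)
  rw [intervalIntegral.integral_congr fun v _ => pic2_alg (hσ0 v).ne' (g v) (g' v) (u v) (w v),
    intervalIntegral.integral_add (c1.intervalIntegrable _ _) (cP.intervalIntegrable _ _), h2]
  have e : (conj (2 * g τ - u τ) * w τ).re - (conj (2 * g 0 - u 0) * w 0).re =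
      2 * k * (‖g 0‖ ^ 2 * (Real.cos B - μ.re) / Real.sin B) := by
    have hm : μ.re * μ.re + μ.im * μ.im = 1 := by
      rw [← normSq_apply, ← Complex.sq_norm, hμ, one_pow]
    have e1 : g 0 = Real.sin B * a := by rw [ha]; field_simp
    rw [u0, u1, hp, e1]
    simp only [hw, S0, S1, sub_self, sub_zero, Real.cos_zero, Complex.sq_norm, normSq_apply,
      mul_re, mul_im, sub_re, sub_im, conj_re, conj_im, ofReal_re, ofReal_im, re_ofNat, im_ofNat]
    field_simp
    linear_combination (Real.sin B ^ 2 * k * Real.cos B * (a.re ^ 2 + a.im ^ 2)) * hm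
  linarith

theorem picone {τ k ε B : ℝ} (hτ : 0 < τ) (hk : 0 < k) (hε : ε = 1 ∨ ε = -1) {σ : ℝ → ℝ}
    (hσ : Continuous σ) (hσ0 : ∀ v, 0 < σ v) (hB : B = k * ∫ v in (0 : ℝ)..τ, σ v)
    (hπ : B < Real.pi) {f f' : ℝ → ℂ} (hf : ∀ v, HasDerivAt f (f' v) v) (hf' : Continuous f')
    {η : ℂ} (hη : ‖η‖ = 1) (hp : f τ = η * f 0) :
    ‖f 0‖ ^ 2 * (Real.cos B - (η * cexp (-(I * (ε * B : ℝ)))).re) / Real.sin B
        ≤ ∫ v in (0 : ℝ)..τ, (‖f' v‖ ^ 2 / (2 * k * σ v) - ε * (conj (f v) * f' v).im) ∧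
      (f 0 = 0 →
        (∫ v in (0 : ℝ)..τ, (‖f' v‖ ^ 2 / (2 * k * σ v) - ε * (conj (f v) * f' v).im)) ≤ 0 →
        ∀ v ∈ Icc 0 τ, f v = 0) := by
  obtain ⟨S, hS, S0, S1⟩ : ∃ S : ℝ → ℝ, (∀ v, HasDerivAt S (k * σ v) v) ∧ S 0 = 0 ∧ S τ = B :=
    ⟨fun v => k * ∫ x in (0 : ℝ)..v, σ x,
      fun v => (hσ.integral_hasStrictDerivAt 0 v).hasDerivAt.const_mul k, by simp, hB.symm⟩
  have cS : Continuous S := continuous_iff_continuousAt.2 fun v => (hS v).continuousAt
  have cf : Continuous f := continuous_iff_continuousAt.2 fun v => (hf v).continuousAt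
  have hn : ∀ x : ℝ, ‖cexp (-(I * x))‖ = 1 := fun x => by
    rw [Complex.norm_exp]
    simp
  set g : ℝ → ℂ := fun v => f v * cexp (-(I * (ε * S v : ℝ))) with hg
  set g' : ℝ → ℂ := fun v => (f' v - I * (ε * (k * σ v) : ℝ) * f v) * cexp (-(I * (ε * S v : ℝ)))
    with hg'
  have dg : ∀ v, HasDerivAt g (g' v) v := fun v => by
    refine ((hf v).mul ((((hS v).const_mul ε).ofReal_comp.const_mul I).neg.cexp)).congr_deriv ?_
    simp only [hg', Pi.neg_apply]
    ring
  have cg' : Continuous g' := by fun_prop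
  have g0 : g 0 = f 0 := by simp [hg, S0]
  have g1 : g τ = η * cexp (-(I * (ε * B : ℝ))) * g 0 := by
    rw [g0]
    simp only [hg, S1, hp]
    ring
  have e : (∫ v in (0 : ℝ)..τ, (‖g' v‖ ^ 2 / σ v - k ^ 2 * σ v * ‖g v‖ ^ 2)) = 2 * k *
      ∫ v in (0 : ℝ)..τ, (‖f' v‖ ^ 2 / (2 * k * σ v) - ε * (conj (f v) * f' v).im) := by
    rw [← intervalIntegral.integral_const_mul]
    refine intervalIntegral.integral_congr fun v _ => ?_
    have h0 := (hσ0 v).ne'
    simp only [hg, hg', norm_mul, hn, mul_one]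
    simp only [Complex.sq_norm, normSq_apply, mul_re, mul_im, sub_re, sub_im, conj_re, conj_im,
      ofReal_re, ofReal_im, I_re, I_im]
    rcases hε with rfl | rfl <;> field_simp <;> ring
  constructor
  · have h1 := pic2_core hτ hk hσ hσ0 hB hπ dg cg' (by rw [norm_mul, hη, hn, mul_one]) g1
    rw [e, g0] at h1
    exact le_of_mul_le_mul_left h1 (by positivity)
  · intro h0 h1 v hv
    have h2 := (dirichlet_pos hτ hk hσ hσ0 (hB ▸ hπ) dg cg' (g0.trans h0)
      (by rw [g1, g0, h0, mul_zero])).2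
      (by rw [e]; exact mul_nonpos_of_nonneg_of_nonpos (by positivity) h1) v hv
    exact (mul_eq_zero.1 h2).resolve_right (Complex.exp_ne_zero _)

end Pool.Agent.Lib.MP_c7e804_gt
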