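import Pool.Agent.Lib.MP_c7e804_gt.H71J0

/-!
Pointwise algebra on a boundary line.
-/

namespace Pool.Agent.Lib.MP_c7e804_gt

open Matrix Set Complex
open scoped ContDiff ComplexConjugate

/-- the projection onto an eigenvector -/
theorem h71q_proj {n : V3} {V : C2} (hV : sg (cv n) *ᵥ V = V) (hV1 : star V ⬝ᵥ V = 1)
    (x y : C2) : hf x (1 + sg (cv n)) y = 2 * (conj (hf V 1 x) * hf V 1 y) := by
  have h0 := congrFun hV 0
  have h1 := congrFun hV 1
  simp only [sg, cv, Matrix.mulVec, dotProduct, Fin.sum_univ_two, Matrix.of_apply,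
    Matrix.cons_val', Matrix.cons_val_zero, Matrix.cons_val_one, Matrix.cons_val_fin_one] at h0 h1
  have h1' := congrArg conj h1
  have h0' := congrArg conj h0
  simp only [map_add, map_mul, map_sub, map_neg, conj_ofReal, conj_I] at h0' h1'
  simp only [dotProduct, Fin.sum_univ_two, Pi.star_apply, star_def] at hV1
  have e00 : 2 * (V 0 * conj (V 0)) = 1 + n 2 := by
    linear_combination (-conj (V 0)) * h0 + (V 1) * h1' + (1 + (n 2 : ℂ)) * hV1
  have e11 : 2 * (V 1 * conj (V 1)) = 1 - n 2 := by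
    linear_combination 2 * hV1 - e00
  have e01 : 2 * (V 0 * conj (V 1)) = n 0 - I * n 1 := by
    linear_combination (-conj (V 1)) * h0 - (V 0) * h1' + ((n 0 : ℂ) - I * n 1) * hV1
  have e10 : 2 * (V 1 * conj (V 0)) = n 0 + I * n 1 := by
    linear_combination (-V 1) * h0' - conj (V 0) * h1 + ((n 0 : ℂ) + I * n 1) * hV1
  simp only [hf, sg, cv, Matrix.mulVec, dotProduct, Fin.sum_univ_two, Matrix.add_apply,
    Matrix.one_apply, Matrix.of_apply, Matrix.cons_val', Matrix.cons_val_zero, Matrix.cons_val_one,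
    Matrix.cons_val_fin_one, Pi.star_apply, star_def, map_add, map_mul, conj_conj]
  simp
  linear_combination (-conj (x 0) * y 0) * e00 - (conj (x 0) * y 1) * e01
    - (conj (x 1) * y 0) * e10 - (conj (x 1) * y 1) * e11

theorem h71q_pair {n : V3} {V : C2} (hV : sg (cv n) *ᵥ V = V) (hV1 : star V ⬝ᵥ V = 1)
    (M M' : M2) (c : C2) :
    conj (hf V M c) * hf V M' c = hf c (Mᴴ * (1 + sg (cv n)) * M') c / 2 := by
  have e := h71q_proj hV hV1 (M *ᵥ c) (M' *ᵥ c)
  rw [hf_mul, ← alg2_right, ← alg2_right, one_mul, one_mul] at e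
  rw [e]
  ring

theorem h71q_real (w : V3) (c : C2) : (hf c (sg (cv w)) c).im = 0 :=
  hf_herm_im (by rw [sg_ct, star_cv]) c

theorem h71q_eig {n : V3} {c : C2} (hc : sg (cv n) *ᵥ c = c) (w : C3) :
    hf c (sg w) c = (cv n ⬝ᵥ w) * hf c 1 c := by
  have := hf_eig (H := 1) (x := cv n) (w := w) (c := c) (s := 1)
    (by rw [star_cv, one_mul, mul_one]) (by rw [hc, ofReal_one, one_smul])
  rwa [ofReal_one, one_mul, one_mul] at this

theorem h71q_left {n : V3} {V : C2} (hV : sg (cv n) *ᵥ V = V) (M : M2) (y : C2) :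
    hf V (sg (cv n) * M) y = hf V M y := by
  have e := alg2_left V (cv n) M y
  rwa [star_cv, hV] at e

private theorem h71q_br_add (x y z : C2) : br x (y + z) = br x y + br x z := by
  simp only [br, Pi.add_apply]
  ring

private theorem h71q_br_smul (t : ℂ) (x y : C2) : br x (t • y) = t * br x y := by
  simp only [br, Pi.smul_apply, smul_eq_mul]
  ring

namespace Cap
variable {ψ : ℝ × ℝ → V3} {a b τ θ : ℝ} (h : Cap ψ a b τ θ) {u ε : ℝ} (hu : Sd a b u ε)
  {v : ℝ} {V : C2} (hV : sg (cv (ψ (u, v))) *ᵥ V = V) (hV1 : star V ⬝ᵥ V = 1)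
include h hu

theorem h71q_m1 : sg (cv (dv ψ (u, v))) * (1 + sg (cv (ψ (u, v)))) * sg (cv (dv ψ (u, v)))
    = (confE ψ (u, v) : ℂ) • (1 - sg (cv (ψ (u, v)))) := by
  have F := h.ann.fr (h.mem_bd hu.bd v)
  have e1 := sg_anti (cv (dv ψ (u, v))) (cv (dv ψ (u, v)))
  have e2 := sg_anti (cv (ψ (u, v))) (cv (dv ψ (u, v)))
  rw [cv_dot, F.BB] at e1
  rw [cv_dot, h.geo_psiB hu.bd v, ofReal_zero, mul_zero, zero_smul] at e2
  generalize sg (cv (dv ψ (u, v))) = B at *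
  generalize sg (cv (ψ (u, v))) = P at *
  have e3 : B * B = (confE ψ (u, v) : ℂ) • (1 : M2) := by
    linear_combination (norm := module) (1 / 2 : ℂ) • e1
  have e4 : B * P = -(P * B) := by linear_combination (norm := module) e2
  rw [mul_add, mul_one, add_mul, e4, neg_mul, mul_assoc, e3, mul_smul_comm, mul_one, smul_sub]
  abel

theorem h71q_m2 : (1 + Nm ψ (u, v)) * (1 + sg (cv (ψ (u, v)))) * sg (cv (dv ψ (u, v)))
    = ((1 + Real.cos θ : ℝ) : ℂ) • sg (cv (dv ψ (u, v)))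
      + I • ((pu ψ (u, v) : ℂ) • (1 : M2) + (pu ψ (u, v) : ℂ) • Nm ψ (u, v)
        - ((1 + Real.cos θ : ℝ) : ℂ) • sg (cv (du ψ (u, v)))) := by
  have F := h.ann.fr (h.mem_bd hu.bd v)
  have hE : (confE ψ (u, v) : ℂ) ≠ 0 := ofReal_ne_zero.2 F.pos.ne'
  have e1 := sg_mul (cv (dv ψ (u, v))) (cv (dv ψ (u, v)))
  have e2 := sg_mul (cv (normal ψ (u, v))) (cv (dv ψ (u, v)))
  have e3 := sg_mul (cv (ψ (u, v))) (cv (dv ψ (u, v)))
  have e4 := sg_mul (cv (normal ψ (u, v))) (cv (ψ (u, v)))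
  rw [cv_dot, F.BB, cross_self, sg_zero, smul_zero, add_zero] at e1
  rw [cv_dot, F.NB, cv_cross, F.NxB, ← neg_one_smul ℝ (du ψ (u, v)), cv_smul, sg_smul] at e2
  rw [cv_dot, h.geo_psiB hu.bd v, cv_cross, h.geo_cross_v hu.bd v, cv_sub, cv_smul, cv_smul,
    sg_sub, sg_smul, sg_smul] at e3
  rw [cv_dot, h.geo_angle hu.bd v, cv_cross, h.bd_cross_N hu.bd v, cv_smul, sg_smul] at e4
  rw [Nm]
  generalize sg (cv (dv ψ (u, v))) = B at *
  generalize sg (cv (ψ (u, v))) = P at *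
  generalize sg (cv (normal ψ (u, v))) = N at *
  generalize sg (cv (du ψ (u, v))) = A at *
  have e5 : N * P * B = (Real.cos θ : ℂ) • B + (I * pu ψ (u, v)) • (1 : M2) := by
    rw [e4, add_mul, smul_mul_assoc, one_mul, smul_mul_assoc, smul_mul_assoc, e1, smul_smul,
      smul_smul]
    congr 2
    push_cast
    field_simp
  have e6 : (1 + N) * (1 + P) * B = B + P * B + N * B + N * P * B := by noncomm_ring
  rw [e6, e5, e2, e3]
  push_cast
  module

include hV hV1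

theorem h71q_g (c : C2) : ‖hf V (Nvm ψ b (u, v)) c‖ ^ 2 = 2 * hq ψ b ^ 2 / confE ψ (u, v)
    * ((hf c 1 c).re - (hf c (sg (cv (ψ (u, v)))) c).re) := by
  have hE := (h.ann.immersion _ (h.mem_bd hu.bd v)).ne'
  have e := h71q_pair hV hV1 (sg (cv (dv ψ (u, v)))) (sg (cv (dv ψ (u, v)))) c
  rw [sg_ct, star_cv, h.h71q_m1 hu, hf_smul, conj_mul', sub_eq_add_neg, hf_add,
    ← neg_one_smul ℂ (sg _), hf_smul] at e
  have e' := congrArg Complex.re e
  rw [← ofReal_pow, ofReal_re] at e'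
  simp only [div_ofNat_re, re_ofReal_mul, add_re, neg_mul, one_mul, neg_re] at e'
  rw [Nvm, cv_smul, sg_smul, hf_smul, norm_mul, mul_pow, e', Complex.norm_real, Real.norm_eq_abs,
    sq_abs]
  field_simp
  ring

/-- the density of the boundary form in the scalar variables -/
theorem Q_point (c : C2) : ε * (hf c (Jm ψ b (u, v)) c).re =
    (Real.sin θ * ‖hf V (Nvm ψ b (u, v)) c‖ ^ 2 / (2 * hq ψ b / √(confE ψ (u, v)))
      - ε * (conj (hf V (1 + Nm ψ (u, v)) c) * hf V (Nvm ψ b (u, v)) c).im)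
      / (1 + Real.cos θ) := by
  have hE := h.ann.immersion _ (h.mem_bd hu.bd v)
  have hr := Real.sqrt_pos.2 hE
  have hr2 := Real.sq_sqrt hE.le
  have hq0 := h.q_pos
  have hc := h.one_add_cos_pos
  have e := h71q_pair hV hV1 (1 + Nm ψ (u, v)) (sg (cv (dv ψ (u, v)))) c
  have hN : (1 + Nm ψ (u, v))ᴴ = 1 + Nm ψ (u, v) := by
    rw [conjTranspose_add, conjTranspose_one, Nm, sg_ct, star_cv]
  rw [hN, h.h71q_m2 hu, hf_add c, hf_smul, hf_smul, sub_eq_add_neg, ← neg_smul, hf_add c, hf_add c,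
    hf_smul, hf_smul, hf_smul, Nm] at e
  have e1 := congrArg Complex.im e
  have i1 := hf_herm_im (K := 1) conjTranspose_one c
  have i2 := h71q_real (dv ψ (u, v)) c
  simp only [div_ofNat_im, add_im, im_ofReal_mul, I_mul_im, add_re, re_ofReal_mul, neg_mul,
    neg_re, i2, mul_zero, zero_add] at e1
  have e2 : (conj (hf V (1 + Nm ψ (u, v)) c) * hf V (Nvm ψ b (u, v)) c).im
      = 2 * hq ψ b / confE ψ (u, v)
        * (conj (hf V (1 + Nm ψ (u, v)) c) * hf V (sg (cv (dv ψ (u, v)))) c).im := by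
    rw [Nvm, cv_smul, sg_smul, hf_smul, mul_left_comm, im_ofReal_mul]
  have e3 : (hf c (sg (cv (ψ (u, v)))) c).re = pu ψ (u, v) * (confE ψ (u, v))⁻¹
      * (hf c (sg (cv (du ψ (u, v)))) c).re + Real.cos θ * (hf c (sg (cv (normal ψ (u, v)))) c).re := by
    conv_lhs => rw [h.geo_psi hu.bd v]
    rw [cv_add, cv_smul, cv_smul, sg_add, sg_smul, sg_smul, hf_add, hf_smul, hf_smul, add_re,
      re_ofReal_mul, re_ofReal_mul]
  have e4 : (hf c (Jm ψ b (u, v)) c).re = -(hq ψ b / confE ψ (u, v)) * (pu ψ (u, v)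
      * (hf c (sg (cv (normal ψ (u, v)))) c).re - Real.cos θ * (hf c (sg (cv (du ψ (u, v)))) c).re) := by
    rw [Jm, h.geo_cross_v hu.bd v, cv_smul, sg_smul, hf_smul, re_ofReal_mul, sub_eq_add_neg,
      ← neg_smul, cv_add, cv_smul, cv_smul, sg_add, sg_smul, sg_smul, hf_add, hf_smul, hf_smul,
      add_re, re_ofReal_mul, re_ofReal_mul]
    ring
  rw [e2, Nm, e1, h.h71q_g hu hV hV1, e3, e4, h.pu_eq hu]
  have h1 := hu.sq
  have h2 := Real.sin_sq_add_cos_sq θ
  generalize (hf c (sg (cv (normal ψ (u, v)))) c).re = nN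
  generalize (hf c (sg (cv (du ψ (u, v)))) c).re = nA
  generalize (hf c 1 c).re = n1
  generalize √(confE ψ (u, v)) = r at *
  rw [← hr2]
  field_simp
  linear_combination (r * Real.sin θ * (n1 + nN) - r * Real.sin θ * nN * (1 + Real.cos θ)) * h1
    + ε * nA * h2

/-- the two scalar variables determine the spinor -/
theorem Q_inj {c : C2} (h1 : hf V (1 + Nm ψ (u, v)) c = 0) (h2 : hf V (Nvm ψ b (u, v)) c = 0) :
    c = 0 := by
  have hE := h.ann.immersion _ (h.mem_bd hu.bd v)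
  have hq0 := h.q_pos
  have hc := h.one_add_cos_pos
  have hP := h.bd_unit hu.bd v
  have e := h.h71q_g hu hV hV1 c
  rw [h2, norm_zero, zero_pow two_ne_zero, eq_comm, mul_eq_zero] at e
  have e1 := e.resolve_left (by positivity)
  have e2 := hf_eq_zero (n := (-1 : ℝ) • ψ (u, v)) (by simpa using hP) (x := c) (by
    rw [cv_smul, sg_smul, hf_add, hf_smul, add_re, re_ofReal_mul]; linarith)
  rw [cv_smul, sg_smul, smul_mulVec, ofReal_neg, ofReal_one, neg_one_smul, neg_inj] at e2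
  have h3 : cv (ψ (u, v)) ≠ 0 := fun e0 => by
    have := cv_dot (ψ (u, v)) (ψ (u, v))
    rw [e0, hP] at this
    simp at this
  have h4 : V ≠ 0 := fun e0 => by simp [e0] at hV1
  obtain ⟨t, rfl⟩ := eig_unique (s := 1) h3 h4 (by rw [hV, one_smul]) (by rw [e2, one_smul])
  have h5 : hf V 1 V = 1 := by rw [hf, one_mulVec, hV1]
  rw [alg2_smul_right, hf_add, Nm, h71q_eig hV, h5, cv_dot, dotProduct_comm,
    h.geo_angle hu.bd v, mul_one] at h1
  have h6 : (1 : ℂ) + Real.cos θ ≠ 0 := by exact_mod_cast hc.ne'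
  rw [(mul_eq_zero.1 h1).resolve_right h6, zero_smul]

/-- the scalar variables of the opposite spinor -/
theorem Q_opp {W : C2} (hW : sg (cv (ψ (u, v))) *ᵥ W = -W) :
    hf V (Nvm ψ b (u, v)) W
      = I * (ε * (2 * hq ψ b / √(confE ψ (u, v))) / Real.sin θ : ℝ) * hf V (1 + Nm ψ (u, v)) W ∧
    (W ≠ 0 → hf V (1 + Nm ψ (u, v)) W ≠ 0) := by
  have hE := h.ann.immersion _ (h.mem_bd hu.bd v)
  have hr := Real.sqrt_pos.2 hE
  have hr2 := Real.sq_sqrt hE.le
  have hs := h.sin_pos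
  have e0 : hf V (sg (cv (ψ (u, v)))) W = -hf V 1 W := by
    have := alg2_right V 1 (sg (cv (ψ (u, v)))) W
    rw [one_mul, hW, ← neg_one_smul ℂ W, alg2_smul_right] at this
    rw [this]; ring
  have e1 := h71q_left hV 1 W
  rw [mul_one, e0] at e1
  have e2 : hf V 1 W = 0 := by linear_combination (-1 / 2 : ℂ) * e1
  rw [e2, neg_zero] at e0
  have e3 := h71q_left hV (sg (cv (normal ψ (u, v)))) W
  have e4 : ψ (u, v) ⨯₃ normal ψ (u, v) = (-(pu ψ (u, v) / confE ψ (u, v))) • dv ψ (u, v) := by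
    rw [← cross_anticomm, h.bd_cross_N hu.bd v, neg_smul]
  rw [sg_mul, cv_cross, e4, cv_smul, sg_smul, hf_add, hf_smul, hf_smul, hf_smul, e2] at e3
  have e5 : hf V (Nvm ψ b (u, v)) W
      = I * (ε * (2 * hq ψ b / √(confE ψ (u, v))) / Real.sin θ : ℝ)
        * hf V (1 + Nm ψ (u, v)) W := by
    rw [Nvm, cv_smul, sg_smul, hf_smul, hf_add, e2, Nm, ← e3, h.pu_eq hu]
    have h1 : (ε : ℂ) * ε = 1 := by exact_mod_cast hu.sq
    generalize √(confE ψ (u, v)) = r at *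
    rw [← hr2]
    have h2 : (r : ℂ) ≠ 0 := ofReal_ne_zero.2 hr.ne'
    have h3 : (Real.sin θ : ℂ) ≠ 0 := ofReal_ne_zero.2 hs.ne'
    generalize Real.sin θ = s at *
    push_cast
    field_simp
    linear_combination
      ((hq ψ b : ℂ) * hf V (sg (cv (dv ψ (u, v)))) W * s * ε ^ 2) * Complex.I_sq
        - ((hq ψ b : ℂ) * hf V (sg (cv (dv ψ (u, v)))) W * s) * h1
  refine ⟨e5, fun h0 h1 => h0 (h.Q_inj hu hV hV1 h1 ?_)⟩
  rw [e5, h1, mul_zero]

/-- the bracket `[V, A V]` and the rate of its argument -/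
theorem Q_br : br V (Am ψ (u, v) *ᵥ V) ≠ 0 ∧
    (I * br V (sg (ph1 ψ (u, v)) *ᵥ V) / br V (Am ψ (u, v) *ᵥ V)).im
      = ε * (√(confE ψ (u, v)) - 2 * hq ψ b / √(confE ψ (u, v))) / Real.sin θ := by
  have hp := h.mem_bd hu.bd v
  have hE := Real.sqrt_pos.2 (h.ann.immersion _ hp)
  have h6 := Real.sq_sqrt (h.ann.immersion _ hp).le
  have hs := h.sin_pos
  have hc := h.one_add_cos_pos
  have hε : ε ≠ 0 := fun e => by simpa [e] using hu.sq
  have hQ : br V (Am ψ (u, v) *ᵥ V) ≠ 0 := by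
    intro e
    have h1 := nil_of_br (h.A_A hp) e
    have h2 := hf_mul V (Am ψ (u, v)) 1 (Am ψ (u, v)) V
    have h5 : hf V 1 V = 1 := by rw [hf, one_mulVec, hV1]
    rw [h1, mul_one, h.Ah_A hp, hf_smul, hf_add, Nm, h71q_eig hV, h5, cv_dot, dotProduct_comm,
      h.geo_angle hu.bd v, mul_one] at h2
    have h3 : hf 0 1 0 = 0 := by simp [hf]
    have h4 : (confE ψ (u, v) : ℂ) / 2 ≠ 0 :=
      div_ne_zero (ofReal_ne_zero.2 (h.ann.immersion _ hp).ne') two_ne_zero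
    have h7 : (1 : ℂ) + Real.cos θ ≠ 0 := by exact_mod_cast hc.ne'
    rw [h3] at h2
    exact mul_ne_zero h4 h7 h2.symm
  refine ⟨hQ, ?_⟩
  have hpu : pu ψ (u, v) ≠ 0 := by
    rw [h.pu_eq hu]
    positivity
  have h1 := congrArg (fun M => br V (M *ᵥ V)) (h.bd_K0_A hu.bd v)
  simp only [K0, ← mulVec_mulVec, add_mulVec, smul_mulVec, one_mulVec, h71q_br_add,
    h71q_br_smul, br_self, zero_add] at h1
  have h2 := br_sg (cv (ψ (u, v))) V (Am ψ (u, v) *ᵥ V)
  rw [hV] at h2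
  have h3 : I * br V (sg (ph1 ψ (u, v)) *ᵥ V) / br V (Am ψ (u, v) *ᵥ V) =
      I * (gam ψ (u, v) + (2 * hq ψ b * (Real.cos θ - 1) / pu ψ (u, v) : ℝ)) := by
    have hpu' : (pu ψ (u, v) : ℂ) ≠ 0 := ofReal_ne_zero.2 hpu
    rw [div_eq_iff hQ, h.sg_ph1 hp, add_mulVec, smul_mulVec, smul_mulVec, h71q_br_add,
      h71q_br_smul, h71q_br_smul]
    simp only [ofReal_div, ofReal_mul, ofReal_sub, ofReal_one, ofReal_ofNat]
    field_simp
    linear_combination (-2 * hq ψ b : ℂ) * h1 + (2 * hq ψ b : ℂ) * h2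
  have h4 := h.bd_al hu.bd v
  rw [h3, I_mul_im, add_re, ofReal_re, gam]
  simp only [sub_re, ofReal_re, I_mul_re, ofReal_im, neg_zero, sub_zero]
  rw [eq_div_of_mul_eq hpu h4, h.pu_eq hu]
  have h8 := hu.sq
  field_simp
  linear_combination -h6 - (√(confE ψ (u, v)) ^ 2 - 2 * hq ψ b) * h8

end Cap

end Pool.Agent.Lib.MP_c7e804_gt
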