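import Pool.Agent.Lib.MP_c7e804_gt.H71Sp
import Pool.Agent.Lib.MP_c7e804_gt.H71Pic2

/-!
The boundary form has at most one non-positive direction.
-/

namespace Pool.Agent.Lib.MP_c7e804_gt

open Matrix Set Complex
open scoped ContDiff ComplexConjugate

theorem w0_cont {x y : ℝ → C2} {K : ℝ → M2} (hx : Continuous x) (hK : Continuous K)
    (hy : Continuous y) : Continuous fun v => hf (x v) (K v) (y v) :=
  hx.star.dotProduct (hK.matrix_mulVec hy)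

theorem w0_lin (x : C2) (K : M2) (s t : ℂ) (y z : C2) :
    hf x K (s • y + t • z) = s * hf x K y + t * hf x K z := by
  simp only [hf, mulVec_add, mulVec_smul, dotProduct_add, dotProduct_smul, smul_eq_mul]

theorem w0_re (s z : ℂ) : (conj s * s * z).re = ‖s‖ ^ 2 * z.re := by
  rw [Complex.conj_mul', ← ofReal_pow, re_ofReal_mul]

namespace Cap
variable {ψ : ℝ × ℝ → V3} {a b τ θ : ℝ} (h : Cap ψ a b τ θ) {u ε : ℝ} (hu : Sd a b u ε)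
  {V : ℝ → C2} {μ : ℂ} (hV : SpA ψ τ θ u V μ)
  (hS : lenS ψ b τ u < 2 * Real.pi * Real.sin θ) {η : ℂ} (hη : ‖η‖ = 1)
include h hu hV hS hη

omit hu hV hη in
theorem w0_lt : lenS ψ b τ u / (2 * Real.sin θ) < Real.pi := by
  rw [div_lt_iff₀ (by linarith [h.sin_pos])]
  linarith

omit hV hη in
theorem w0_sin : 0 < Real.sin (lenS ψ b τ u / (2 * Real.sin θ)) :=
  Real.sin_pos_of_pos_of_lt_pi (div_pos (h.lenS_pos (h.sd_mem hu)) (by linarith [h.sin_pos]))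
    (h.w0_lt hS)

theorem w0_key {c : ℝ → C2} (hc : Adm ψ u c) (hp : c τ = η • c 0) :
    ‖hf (V 0) (1 + Nm ψ (u, 0)) (c 0)‖ ^ 2 * (Real.cos (lenS ψ b τ u / (2 * Real.sin θ)) -
        (conj μ * η * cexp (-(I * (ε * (lenS ψ b τ u / (2 * Real.sin θ)) : ℝ)))).re)
        / Real.sin (lenS ψ b τ u / (2 * Real.sin θ))
      ≤ (1 + Real.cos θ) * (ε * (Jf ψ b τ u c c).re) ∧
    (hf (V 0) (1 + Nm ψ (u, 0)) (c 0) = 0 → ε * (Jf ψ b τ u c c).re ≤ 0 →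
      ∀ v ∈ Icc 0 τ, c v = 0) := by
  have hI := h.sd_mem hu
  have hs := h.sin_pos
  have hc1 := h.one_add_cos_pos
  have hE : ∀ v, 0 < √(confE ψ (u, v)) := fun v => Real.sqrt_pos.2 (h.ann.immersion (u, v) hI)
  have hσ0 : ∀ v, 0 < 2 * hq ψ b / √(confE ψ (u, v)) := fun v =>
    div_pos (by linarith [h.q_pos]) (hE v)
  have hd := h.deriv_f hu hV hc
  have key := picone (k := 1 / (2 * Real.sin θ)) (B := lenS ψ b τ u / (2 * Real.sin θ))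
    h.ann.hτ (by positivity) hu.sgn (σ := fun v => 2 * hq ψ b / √(confE ψ (u, v)))
    (continuous_const.div (cont_line_v h.cont_E hI).sqrt fun v => (hE v).ne') hσ0
    (by rw [lenS]; ring) (h.w0_lt hS) hd
    (w0_cont hV.sol.adm.cont (h.cont_Nvm hI) hc.cont) (η := conj μ * η)
    (by rw [norm_mul, Complex.norm_conj, h.spA_norm hu hV, hη, one_mul]) (h.per_f hu hV hp)
  have e : (∫ v in (0 : ℝ)..τ, (‖hf (V v) (Nvm ψ b (u, v)) (c v)‖ ^ 2 /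
      (2 * (1 / (2 * Real.sin θ)) * (2 * hq ψ b / √(confE ψ (u, v)))) -
      ε * (conj (hf (V v) (1 + Nm ψ (u, v)) (c v)) * hf (V v) (Nvm ψ b (u, v)) (c v)).im))
      = (1 + Real.cos θ) * (ε * (Jf ψ b τ u c c).re) := by
    have e1 : (Jf ψ b τ u c c).re = ∫ v in (0 : ℝ)..τ, (hf (c v) (Jm ψ b (u, v)) (c v)).re :=
      (Complex.reCLM.intervalIntegral_comp_comm
        ((w0_cont hc.cont (h.cont_Jm hI) hc.cont).intervalIntegrable 0 τ)).symm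
    rw [e1, ← intervalIntegral.integral_const_mul, ← intervalIntegral.integral_const_mul]
    refine intervalIntegral.integral_congr fun v _ => ?_
    rw [h.Q_point hu (hV.eig v) (hV.unit v), mul_div_cancel₀ _ hc1.ne']
    have := hσ0 v
    generalize 2 * hq ψ b / √(confE ψ (u, v)) = x at this ⊢
    field_simp
  rw [e] at key
  refine ⟨key.1, fun h0 hJ v hv => ?_⟩
  have h1 := key.2 h0 (mul_nonpos_of_nonneg_of_nonpos hc1.le hJ)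
  refine h.Q_inj hu (hV.eig v) (hV.unit v) (h1 v hv) ?_
  exact (uniqueDiffOn_Icc h.ann.hτ v hv).eq_deriv _ (hd v).hasDerivWithinAt
    ((hasDerivWithinAt_const v _ (0 : ℂ)).congr_of_mem h1 hv)

theorem W1 {c : ℝ → C2} (hc : Adm ψ u c) (hp : c τ = η • c 0) (h0 : c 0 ≠ 0)
    (hJ : ε * (Jf ψ b τ u c c).re ≤ 0) :
    Real.cos (lenS ψ b τ u / (2 * Real.sin θ)) ≤
      (conj μ * η * cexp (-(I * (ε * (lenS ψ b τ u / (2 * Real.sin θ)) : ℝ)))).re := by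
  obtain ⟨k1, k2⟩ := h.w0_key hu hV hS hη hc hp
  have h1 : 0 < ‖hf (V 0) (1 + Nm ψ (u, 0)) (c 0)‖ ^ 2 :=
    pow_pos (norm_pos_iff.2 fun e => h0 (k2 e hJ 0 ⟨le_rfl, h.ann.hτ.le⟩)) 2
  by_contra hlt
  exact absurd (k1.trans (mul_nonpos_of_nonneg_of_nonpos h.one_add_cos_pos.le hJ))
    (not_le.2 (div_pos (mul_pos h1 (sub_pos.2 (not_le.1 hlt))) (h.w0_sin hu hS)))

theorem W2 {c : ℝ → C2} (hc : Adm ψ u c) (hp : c τ = η • c 0)
    (hJ : ε * (Jf ψ b τ u c c).re < 0) :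
    Real.cos (lenS ψ b τ u / (2 * Real.sin θ)) <
      (conj μ * η * cexp (-(I * (ε * (lenS ψ b τ u / (2 * Real.sin θ)) : ℝ)))).re := by
  by_contra hle
  exact absurd ((h.w0_key hu hV hS hη hc hp).1.trans_lt
    (mul_neg_of_pos_of_neg h.one_add_cos_pos hJ))
    (not_lt.2 (div_nonneg (mul_nonneg (sq_nonneg _) (sub_nonneg.2 (not_lt.1 hle)))
      (h.w0_sin hu hS).le))

theorem W3 {c₁ c₂ : ℝ → C2} (h₁ : Adm ψ u c₁) (h₂ : Adm ψ u c₂) (p₁ : c₁ τ = η • c₁ 0)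
    (p₂ : c₂ τ = η • c₂ 0) (J₁ : ε * (Jf ψ b τ u c₁ c₁).re ≤ 0)
    (J₂ : ε * (Jf ψ b τ u c₂ c₂).re ≤ 0) (J₁₂ : Jf ψ b τ u c₁ c₂ = 0) :
    ∃ s t : ℂ, (s ≠ 0 ∨ t ≠ 0) ∧ ∀ v ∈ Icc 0 τ, s • c₁ v + t • c₂ v = 0 := by
  obtain ⟨s, t, hst, h0⟩ : ∃ s t : ℂ, (s ≠ 0 ∨ t ≠ 0) ∧
      s * hf (V 0) (1 + Nm ψ (u, 0)) (c₁ 0) + t * hf (V 0) (1 + Nm ψ (u, 0)) (c₂ 0) = 0 := by
    by_cases e : hf (V 0) (1 + Nm ψ (u, 0)) (c₁ 0) = 0
    · exact ⟨1, 0, Or.inl one_ne_zero, by rw [e]; ring⟩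
    · exact ⟨-hf (V 0) (1 + Nm ψ (u, 0)) (c₂ 0), _, Or.inr e, by ring⟩
  refine ⟨s, t, hst, (h.w0_key hu hV hS hη (h₁.lin h₂ s t) ?_).2 ?_ ?_⟩
  · simp only [p₁, p₂, smul_add, smul_comm η]
  · rw [← h0]; exact w0_lin _ _ _ _ _ _
  · rw [h.Jf_lin (h.sd_mem hu) h₁.cont h₂.cont, Jf_conj ψ b τ u c₂ c₁, J₁₂, map_zero, mul_zero,
      mul_zero, add_zero, add_zero, add_re, w0_re, w0_re]
    nlinarith [mul_nonneg (sq_nonneg ‖s‖) (neg_nonneg.2 J₁), mul_nonneg (sq_nonneg ‖t‖) (neg_nonneg.2 J₂)]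

end Cap

end Pool.Agent.Lib.MP_c7e804_gt
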