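import Pool.Agent.Lib.MP_c7e804_gt.H71Ex
import Pool.Agent.Lib.MP_c7e804_gt.H71W

/-!
The abstract hypotheses hold on both boundary lines.
-/

namespace Pool.Agent.Lib.MP_c7e804_gt

open Matrix Set Complex
open scoped ContDiff ComplexConjugate

theorem side_re {ε : ℝ} (hε : ε = 1 ∨ ε = -1) (μ ν : ℂ) (B : ℝ) :
    (conj μ * cj ε ν * cexp (-(I * (ε * B : ℝ)))).re
      = (ν * conj (cj ε μ) * cexp (-(I * B))).re := by
  rcases hε with rfl | rfl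
  · rw [cj_one, cj_one, one_mul, mul_comm ν]
  · rw [cj_neg_one, cj_neg_one, ← conj_re, map_mul, map_mul, conj_conj, conj_conj, ← exp_conj,
      mul_comm ν]
    congr 3
    simp

theorem side_per {ψ : ℝ × ℝ → V3} {a b τ u : ℝ} {κ μ : ℂ} {c : ℝ × ℝ → C2}
    (hc : Floq ψ a b τ κ μ c) (hu : u ∈ Icc a b) : c (u, τ) = μ • c (u, 0) := by
  have := hc.per (u, 0) hu
  rwa [zero_add] at this

theorem side_unit {μ : ℂ} (h : ‖μ‖ = 1) : conj μ * μ = 1 := by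
  rw [conj_mul', h]
  simp

/-- the form `w ↦ x'^* σ(w) x` -/
noncomputable def sideL (x' x : C2) : C3 →L[ℂ] ℂ :=
  LinearMap.toContinuousLinearMap
    { toFun := fun w => hf x' (sg w) x
      map_add' := fun w w' => by rw [sg_add, hf_add]
      map_smul' := fun t w => by rw [sg_smul, hf_smul]; rfl }

namespace Setup
variable {ψ : ℝ × ℝ → V3} {a b τ θ : ℝ} {g : ℕ} {s : ℕ → ℝ × ℝ → ℂ} {F G : ℂ → ℝ × ℝ → M2}
  (h : Setup ψ a b τ θ g s F G)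
include h

theorem side_const (hf0 : flux ψ τ b = 0) (x' x : C2) :
    Jf ψ b τ b (fun _ => x') (fun _ => x) = 0 := by
  have hb : b ∈ Icc a b := h.cap.mem_b 0
  have hl : ∀ z : C2, LSol ψ b 0 (fun _ => z) := fun z v => by
    simpa using hasDerivAt_const v z
  rw [h.cap.Jf_eq (Or.inr rfl) (hl x) (hl x') (μ := 1) (μ' := 1) (one_smul _ _).symm
    (one_smul _ _).symm (by simp)]
  have e : ∀ v, hf x' (Km ψ θ (conj 0) (b, v) * Am ψ (b, v)) x = sideL x' x (ph ψ (b, v)) := by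
    intro v
    rw [Km, map_zero, zero_smul, add_zero, one_mul]
    rfl
  simp only [e]
  rw [(sideL x' x).intervalIntegral_comp_comm ((h.spec1_cont_ph hb).intervalIntegrable 0 τ),
    h.cap.int_ph hb, hf0, show cv 0 = 0 from funext fun _ => ofReal_zero, smul_zero, map_zero]

theorem flux_ne (hS : lenS ψ b τ b < 2 * Real.pi * Real.sin θ) : flux ψ τ b ≠ 0 := by
  intro hf0
  obtain ⟨y, t, -, -, hV⟩ := h.exists_spA (Or.inr rfl)
  obtain ⟨s₁, s₂, h1, h2⟩ := h.cap.W3 (Or.inl ⟨rfl, rfl⟩) hV hS (η := 1) norm_one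
    (Adm.const ψ b ![1, 0]) (Adm.const ψ b ![0, 1]) (one_smul _ _).symm (one_smul _ _).symm
    (by rw [h.side_const hf0]; simp) (by rw [h.side_const hf0]; simp) (h.side_const hf0 _ _)
  have h3 := h2 0 ⟨le_rfl, h.cap.ann.hτ.le⟩
  have h4 := congr_fun h3 0
  have h5 := congr_fun h3 1
  simp at h4 h5
  exact h1.elim (fun e => e h4) fun e => e h5

theorem base (hS : lenS ψ b τ b < 2 * Real.pi * Real.sin θ) :
    Base (Dk b τ F) (alk ψ b τ g s F) (fun κ => (Yf ψ b g s κ).re)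
      (fun κ => (Pf ψ b τ g s κ).re) (ka θ) (kb θ) := by
  refine ⟨ka_neg h.cap.ann.hθa, kb_pos h.cap.ann.hθa, ?_, fun κ => ?_, h.quadD,
    fun κ hκ => h.Y_pos hκ, h.D_zero.1, h.D_zero.2, ?_⟩
  · obtain ⟨Y, P, R, hP⟩ := h.exists_polys h.P_real
    refine P.continuous.congr fun κ => ?_
    rw [← hP.Pev κ, ofReal_re]
  · obtain ⟨D', α', Y', h1, h2, h3, e1, e2⟩ := h.deriv_aux κ
    have i1 := congrArg Complex.re e1
    have i2 := congrArg Complex.re e2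
    rw [ofReal_re] at i1 i2
    rw [re_ofReal_mul] at i1
    refine ⟨α', Y', i1 ▸ h1, h2, h3, i2.trans ?_⟩
    rw [show (-2 * (Dk b τ F κ : ℂ)) = ((-2 * Dk b τ F κ : ℝ) : ℂ) by push_cast; rfl, re_ofReal_mul]
  · obtain ⟨x, hx, -, h1, h2⟩ := h.X_zero
    show (Pf ψ b τ g s ((0 : ℝ) : ℂ)).re ≠ 0
    rw [ofReal_zero, h2, ofReal_re]
    exact div_ne_zero (s4a_dot_ne hx (h.flux_ne hS) h1) two_ne_zero

omit h in
theorem side_sq {κ t : ℝ} {y : C2} (hy : y ≠ 0) (he : sg (X0 ψ b g s κ) *ᵥ y = (t : ℂ) • y) :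
    t ^ 2 = (Yf ψ b g s κ).re := by
  rw [Yf, s4a_sq hy he]
  norm_cast

/-- the Floquet solution on a sheet and the sign of its form -/
theorem side_sheet {u ε : ℝ} (hu : Sd a b u ε) {κ : ℝ} (hκ : κ ∈ Ioo (ka θ) (kb θ)) {t : ℝ}
    (ht : t ^ 2 = (Yf ψ b g s κ).re) : ∃ (c : ℝ × ℝ → C2) (K : ℝ), 0 < K ∧
      Floq ψ a b τ κ (cj ε (Dk b τ F κ + I * alk ψ b τ g s F κ * t)) c ∧
      ‖cj ε (Dk b τ F κ + I * alk ψ b τ g s F κ * t)‖ = 1 ∧
      t ^ 2 * (ε * (Jf ψ b τ u (fun v => c (u, v)) (fun v => c (u, v))).re)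
        = t * (Pf ψ b τ g s κ).re * K := by
  obtain ⟨y, hy, he⟩ := exists_eig (X0 ψ b g s κ) (s := ((ε * t : ℝ) : ℂ)) (by
    have e : (ε * t) ^ 2 = (Yf ψ b g s κ).re := by rw [mul_pow, sq ε, hu.sq, one_mul, ht]
    rw [← ofReal_pow, e]
    exact Complex.ext rfl (h.Y_real κ).symm)
  obtain ⟨h1, h2⟩ := h.floq_eig hy he
  have h3 := h.sheet_J hu.bd hy he
  rw [cj_sheet]
  refine ⟨_, (hf (F κ (u, 0) *ᵥ y) (Km ψ θ κ (u, 0)) (F κ (u, 0) *ᵥ y)).re, ?_, h1, h2, ?_⟩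
  · rw [Km_eq]
    exact hf_pos (h.cap.bd_unit hu.bd 0) (abs_lt_of_mem h.cap.ann.hθa hκ)
      (h1.ne (u, 0) (h.cap.sd_mem hu))
  · rw [mul_assoc, ← h3]
    ring

theorem side {u ε : ℝ} (hu : Sd a b u ε) (hL : lenL ψ τ u < 2 * Real.pi * Real.sin θ)
    (hS : lenS ψ b τ u < 2 * Real.pi * Real.sin θ) {y : C2} {t : ℝ} (hy : y ≠ 0)
    (he : sg (X0 ψ b g s (ka θ)) *ᵥ y = (t : ℂ) • y)
    (hV : SpA ψ τ θ u (fun v => F (ka θ) (u, v) *ᵥ y)
      (Dk b τ F (ka θ) + I * alk ψ b τ g s F (ka θ) * t)) :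
    Side (Dk b τ F) (alk ψ b τ g s F) (fun κ => (Yf ψ b g s κ).re)
      (fun κ => (Pf ψ b τ g s κ).re) (ka θ) (kb θ) (lenL ψ τ u / (2 * Real.sin θ))
      (lenS ψ b τ u / (2 * Real.sin θ))
      (cj ε (Dk b τ F (ka θ) + I * alk ψ b τ g s F (ka θ) * t)) (Neg ψ a b τ u ε) := by
  have hs : 0 < 2 * Real.sin θ := mul_pos two_pos h.cap.sin_pos
  have hm := h.cap.sd_mem hu
  have hε := hu.sgn
  have h2 : ∀ x : ℝ, cj ε (cexp (2 * I * (ε * x : ℝ))) = cexp (2 * I * x) := fun x => by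
    rw [show 2 * I * ((ε * x : ℝ) : ℂ) = I * ((2 * (ε * x) : ℝ) : ℂ) by push_cast; ring, cj_exp hε,
      show ε * (2 * (ε * x)) = 2 * (ε * ε) * x by ring, hu.sq]
    congr 1
    push_cast
    ring
  refine ⟨div_pos (h.cap.lenL_pos hm) hs, (div_lt_iff₀ hs).2 (by linarith),
    div_pos (h.cap.lenS_pos hm) hs, (div_lt_iff₀ hs).2 (by linarith), ?_, ?_, ?_, ?_, ?_, ?_, ?_⟩
  · rw [sq, ← cj_mul hε, ← sq, h.cap.spA_sq hu hV, h2, ofReal_sub]
  · rintro κ μ ⟨h1, c, hc, hJ⟩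
    refine ⟨h1, ?_⟩
    rw [← side_re hε]
    exact h.cap.W1 hu hV hS ((cj_norm hε μ).trans h1) (hc.sol.lsol hm).adm (side_per hc hm)
      (hc.ne (u, 0) hm) hJ
  · rintro κ κ' μ ⟨h1, c, hc, hJ⟩ ⟨-, c', hc', hJ'⟩
    by_contra hne
    have hη := (cj_norm hε μ).trans h1
    have h0 := h.cap.Jf_orth hu.bd (hc.sol.lsol hm) (hc'.sol.lsol hm) (side_per hc hm)
      (side_per hc' hm) (side_unit hη) (by rwa [conj_ofReal])
    obtain ⟨s₁, s₂, h3, h4⟩ := h.cap.W3 hu hV hS hη (hc'.sol.lsol hm).adm (hc.sol.lsol hm).adm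
      (side_per hc' hm) (side_per hc hm) hJ' hJ h0
    exact hne (h.cap.lsol_indep hm (hc'.sol.lsol hm) (hc.sol.lsol hm) (fun v => hc'.ne (u, v) hm)
      (fun v => hc.ne (u, v) hm) h3 h4).symm
  · intro κ hκ r hr hP
    obtain ⟨c, K, hK, hc, h1, h3⟩ := h.side_sheet hu hκ hr
    refine ⟨(cj_norm hε _).symm.trans h1, c, hc, ?_⟩
    have h4 : 0 < r ^ 2 := hr ▸ h.Y_pos hκ
    exact nonpos_of_mul_nonpos_right (h3.trans_le (mul_nonpos_of_nonpos_of_nonneg hP hK.le)) h4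
  · intro κ hκ r hr hP
    obtain ⟨c, K, hK, hc, h1, h3⟩ := h.side_sheet hu hκ hr
    rw [← side_re hε]
    exact h.cap.W2 hu hV hS h1 (hc.sol.lsol hm).adm (side_per hc hm)
      (neg_of_mul_neg_right (h3.trans_lt (mul_neg_of_neg_of_pos hP hK)) (sq_nonneg r))
  · obtain ⟨h1, h3⟩ := h.floq_eig hy he
    refine ⟨⟨(cj_norm hε _).trans h3, _, by rw [cj_cj hε]; exact h1, ?_⟩, ε * t, ?_,
      cj_sheet _ _ _ _⟩
    · rw [h.Jf_ker hu.bd h1 h3 fun v => Km_ka h.cap.ann.hθa (hV.eig v)]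
      simp
    · rw [mul_pow, sq ε, hu.sq, one_mul]
      exact side_sq hy he
  · obtain ⟨y', t', hy', he', hW⟩ := h.exists_spB hu.bd
    obtain ⟨h1, h3⟩ := h.floq_eig hy' he'
    have h4 := h.cap.spB_mult hu hV (h1.sol.lsol hm).adm hW (h1.ne (u, 0) hm) (side_per h1 hm)
    have h5 := congrArg (cj ε) h4
    rw [cj_mul hε, h2] at h5
    rw [← h5]
    refine ⟨⟨(cj_norm hε _).trans h3, _, by rw [cj_cj hε]; exact h1, ?_⟩, ε * t', ?_,
      cj_sheet _ _ _ _⟩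
    · rw [h.Jf_ker hu.bd h1 h3 fun v => Km_kb h.cap.ann.hθa (hW v)]
      simp
    · rw [mul_pow, sq ε, hu.sq, one_mul]
      exact side_sq hy' he'

end Setup

end Pool.Agent.Lib.MP_c7e804_gt
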