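import Pool.Agent.Lib.MP_c7e804_gt.H71Q
import Pool.Agent.Lib.MP_c7e804_gt.H43Wind

/-!
Multipliers of the two special solutions on a boundary line.
-/

namespace Pool.Agent.Lib.MP_c7e804_gt

open Matrix Set Complex
open scoped ContDiff ComplexConjugate

private theorem h71sp_mv {M : ℝ → M2} {M' : M2} {z : ℝ → C2} {z' : C2} {v : ℝ}
    (hM : ∀ i j, HasDerivAt (fun y => M y i j) (M' i j) v) (hz : HasDerivAt z z' v) :
    HasDerivAt (fun y => M y *ᵥ z y) (M' *ᵥ z v + M v *ᵥ z') v := by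
  have hz' := hasDerivAt_pi.1 hz
  refine hasDerivAt_pi.2 fun i => ?_
  have e : (fun y => (M y *ᵥ z y) i) = fun y => M y i 0 * z y 0 + M y i 1 * z y 1 := by
    funext y
    simp [Matrix.mulVec, dotProduct, Fin.sum_univ_two]
  rw [e]
  refine (((hM i 0).mul (hz' 0)).add ((hM i 1).mul (hz' 1))).congr_deriv ?_
  simp only [Matrix.mulVec, dotProduct, Fin.sum_univ_two, Pi.add_apply]
  ring

private theorem h71sp_hf {x : ℝ → C2} {x' : C2} {M : ℝ → M2} {M' : M2} {z : ℝ → C2} {z' : C2}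
    {v : ℝ} (hx : HasDerivAt x x' v) (hM : ∀ i j, HasDerivAt (fun y => M y i j) (M' i j) v)
    (hz : HasDerivAt z z' v) :
    HasDerivAt (fun y => hf (x y) (M y) (z y))
      (hf x' (M v) (z v) + hf (x v) M' (z v) + hf (x v) (M v) z') v := by
  have hx' := hasDerivAt_pi.1 hx
  have hw := hasDerivAt_pi.1 (h71sp_mv hM hz)
  have e : (fun y => hf (x y) (M y) (z y))
      = fun y => star (x y 0) * (M y *ᵥ z y) 0 + star (x y 1) * (M y *ᵥ z y) 1 := by
    funext y
    simp only [hf, dotProduct, Fin.sum_univ_two, Pi.star_apply]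
  rw [e]
  refine (((hx' 0).star.mul (hw 0)).add ((hx' 1).star.mul (hw 1))).congr_deriv ?_
  simp only [hf, dotProduct, Fin.sum_univ_two, Pi.star_apply, Pi.add_apply]
  ring

private theorem h71sp_br {x : ℝ → C2} {x' : C2} {z : ℝ → C2} {z' : C2} {v : ℝ}
    (hx : HasDerivAt x x' v) (hz : HasDerivAt z z' v) :
    HasDerivAt (fun y => br (x y) (z y)) (br x' (z v) + br (x v) z') v := by
  have hx' := hasDerivAt_pi.1 hx
  have hz' := hasDerivAt_pi.1 hz
  refine (((hx' 0).mul (hz' 1)).sub ((hx' 1).mul (hz' 0))).congr_deriv ?_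
  simp only [br]
  ring

private theorem h71sp_cont_br {f g : ℝ → C2} (hf : Continuous f) (hg : Continuous g) :
    Continuous fun z => br (f z) (g z) := by
  unfold br
  fun_prop

namespace Cap
variable {ψ : ℝ × ℝ → V3} {a b τ θ : ℝ} (h : Cap ψ a b τ θ) {u ε : ℝ} (hu : Sd a b u ε)
  {V : ℝ → C2} {μ : ℂ} (hV : SpA ψ τ θ u V μ)
include h hu hV

theorem spA_norm : ‖μ‖ = 1 := by
  have h1 := hV.unit τ
  have h0 := hV.unit 0
  rw [hV.per, star_smul, smul_dotProduct, dotProduct_smul, h0, smul_eq_mul, smul_eq_mul, mul_one,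
    Complex.star_def, conj_mul'] at h1
  have h6 : ‖μ‖ ^ 2 = 1 := by exact_mod_cast h1
  exact (pow_eq_one_iff_of_nonneg (norm_nonneg _) two_ne_zero).1 h6

/-- the scalar variable of an admissible function -/
theorem deriv_f {c : ℝ → C2} (hc : Adm ψ u c) (v : ℝ) :
    HasDerivAt (fun y => hf (V y) (1 + Nm ψ (u, y)) (c y)) (hf (V v) (Nvm ψ b (u, v)) (c v)) v := by
  obtain ⟨d, hd⟩ := hc
  have hp := h.mem_bd hu.bd v
  have hM : ∀ i j, HasDerivAt (fun y => (1 + Nm ψ (u, y)) i j) (Nvm ψ b (u, v) i j) v :=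
    fun i j => (h.deriv_Nm (h.sd_mem hu) v i j).const_add ((1 : M2) i j)
  refine (h71sp_hf (hV.sol v) hM (hd v)).congr_deriv ?_
  have e1 : (1 + Nm ψ (u, v)) * Am ψ (u, v) = 0 := by
    rw [add_mul, one_mul, h.N_A hp, add_neg_cancel]
  have e2 : (Am ψ (u, v))ᴴ * (1 + Nm ψ (u, v)) = 0 := by
    have e := congrArg conjTranspose e1
    rw [conjTranspose_mul, conjTranspose_add, conjTranspose_one, conjTranspose_zero, Nm, sg_ct,
      star_cv] at e
    exact e
  have e3 : hf (Am ψ (u, v) *ᵥ V v) (1 + Nm ψ (u, v)) (c v) = 0 := by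
    have e := hf_mul (V v) (Am ψ (u, v)) (1 + Nm ψ (u, v)) 1 (c v)
    rw [one_mulVec, e2, zero_mul] at e
    rw [e]
    simp [hf]
  have e4 : hf (V v) (1 + Nm ψ (u, v)) (Am ψ (u, v) *ᵥ d v) = 0 := by
    rw [← alg2_right, e1]
    simp [hf]
  rw [alg2_smul_left, e3, e4, mul_zero, zero_add, add_zero]

theorem per_f {c : ℝ → C2} {η : ℂ} (hp : c τ = η • c 0) :
    hf (V τ) (1 + Nm ψ (u, τ)) (c τ) = conj μ * η * hf (V 0) (1 + Nm ψ (u, 0)) (c 0) := by
  have e : Nm ψ (u, τ) = Nm ψ (u, 0) := by simpa using h.per_Nm (h.mem_bd hu.bd 0)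
  rw [hV.per, hp, hf_smul_smul, e]

omit hV in
private theorem h71sp_sq : Continuous fun v => √(confE ψ (u, v)) :=
  (cont_line_v h.cont_E (h.sd_mem hu)).sqrt

omit hV in
private theorem h71sp_sig : Continuous fun v => 2 * hq ψ b / √(confE ψ (u, v)) :=
  continuous_const.div (h71sp_sq h hu) fun v =>
    (Real.sqrt_pos.2 (h.ann.immersion _ (h.mem_bd hu.bd v))).ne'

theorem spA_sq : μ ^ 2 = cexp (2 * I * (ε * (lenL ψ τ u / (2 * Real.sin θ)
    - lenS ψ b τ u / (2 * Real.sin θ)) : ℝ)) := by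
  have hA : ∀ v i j, HasDerivAt (fun y => Am ψ (u, y) i j) ((I • sg (ph1 ψ (u, v))) i j) v :=
    fun v i j => (h.pd_A i j).hv (u, v) (h.mem_bd hu.bd v)
  have hQ : ∀ v, HasDerivAt (fun y => br (V y) (Am ψ (u, y) *ᵥ V y))
      (I * br (V v) (sg (ph1 ψ (u, v)) *ᵥ V v)) v := by
    intro v
    refine (h71sp_br (hV.sol v) (h71sp_mv (hA v) (hV.sol v))).congr_deriv ?_
    rw [mulVec_smul, mulVec_mulVec, h.A_A (h.mem_bd hu.bd v), zero_mulVec, smul_zero, add_zero,
      smul_mulVec]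
    simp only [br, Pi.smul_apply, smul_eq_mul]
    ring
  have cV : Continuous V := hV.sol.adm.cont
  have cQ : Continuous fun v => I * br (V v) (sg (ph1 ψ (u, v)) *ᵥ V v) :=
    continuous_const.mul (h71sp_cont_br cV (Continuous.matrix_mulVec
      (continuous_matrix fun i j => cont_line_v (h.pd_A i j).contu (h.sd_mem hu)) cV))
  have h0 : ∀ v, br (V v) (Am ψ (u, v) *ᵥ V v) ≠ 0 := fun v =>
    (h.Q_br hu (hV.eig v) (hV.unit v)).1
  have e := wind_exp (τ := τ) hQ cQ h0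
  have eA : Am ψ (u, τ) = Am ψ (u, 0) := by simpa using h.per_A (h.mem_bd hu.bd 0)
  have eQ : br (V τ) (Am ψ (u, τ) *ᵥ V τ) = μ ^ 2 * br (V 0) (Am ψ (u, 0) *ᵥ V 0) := by
    rw [hV.per, eA, mulVec_smul, br_smul, sq]
  have n0 : (‖br (V 0) (Am ψ (u, 0) *ᵥ V 0)‖ : ℂ) ≠ 0 :=
    Complex.ofReal_ne_zero.2 (norm_ne_zero_iff.2 (h0 0))
  simp only [eQ, norm_mul, norm_pow, h.spA_norm hu hV, one_pow, one_mul] at e
  rw [div_self n0, mul_one, mul_div_cancel_right₀ _ (h0 0)] at e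
  have ew : wind τ (fun y => br (V y) (Am ψ (u, y) *ᵥ V y))
      (fun v => I * br (V v) (sg (ph1 ψ (u, v)) *ᵥ V v))
      = ε * (lenL ψ τ u - lenS ψ b τ u) / Real.sin θ := by
    unfold wind lenL lenS
    rw [← intervalIntegral.integral_sub ((h71sp_sq h hu).intervalIntegrable _ _)
      ((h71sp_sig h hu).intervalIntegrable _ _), ← intervalIntegral.integral_const_mul,
      ← intervalIntegral.integral_div]
    exact intervalIntegral.integral_congr fun v _ => (h.Q_br hu (hV.eig v) (hV.unit v)).2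
  rw [← e, ew]
  congr 1
  have hs : (Real.sin θ : ℂ) ≠ 0 := ofReal_ne_zero.2 h.sin_pos.ne'
  simp only [ofReal_mul, ofReal_div, ofReal_sub, ofReal_ofNat]
  field_simp

theorem spB_mult {W : ℝ → C2} {η : ℂ} (hW : Adm ψ u W)
    (he : ∀ v, sg (cv (ψ (u, v))) *ᵥ W v = -W v) (h0 : W 0 ≠ 0) (hp : W τ = η • W 0) :
    η = μ * cexp (2 * I * (ε * (lenS ψ b τ u / (2 * Real.sin θ)) : ℝ)) := by
  have cs : Continuous fun v => ε * (2 * hq ψ b / √(confE ψ (u, v))) / Real.sin θ :=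
    (continuous_const.mul (h71sp_sig h hu)).div_const _
  have hS : ∀ v, HasDerivAt
      (fun x => ∫ r in (0 : ℝ)..x, ε * (2 * hq ψ b / √(confE ψ (u, r))) / Real.sin θ)
      (ε * (2 * hq ψ b / √(confE ψ (u, v))) / Real.sin θ) v := fun v =>
    (cs.integral_hasStrictDerivAt 0 v).hasDerivAt
  have hK : ∀ v, HasDerivAt (fun x => hf (V x) (1 + Nm ψ (u, x)) (W x) * cexp (-(I *
      ((∫ r in (0 : ℝ)..x, ε * (2 * hq ψ b / √(confE ψ (u, r))) / Real.sin θ : ℝ) : ℂ)))) 0 v := by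
    intro v
    refine HasDerivAt.congr_deriv ((h.deriv_f hu hV hW v).mul
      ((hS v).ofReal_comp.const_mul I).neg.cexp) ?_
    rw [(h.Q_opp hu (hV.eig v) (hV.unit v) (he v)).1]
    simp only [Pi.neg_apply]
    ring
  have hconst := is_const_of_deriv_eq_zero (fun v => (hK v).differentiableAt)
    (fun v => (hK v).deriv) τ 0
  have f0 := (h.Q_opp hu (hV.eig 0) (hV.unit 0) (he 0)).2 h0
  have eS : (∫ r in (0 : ℝ)..τ, ε * (2 * hq ψ b / √(confE ψ (u, r))) / Real.sin θ)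
      = ε * lenS ψ b τ u / Real.sin θ := by
    unfold lenS
    rw [intervalIntegral.integral_div, intervalIntegral.integral_const_mul]
  simp only [intervalIntegral.integral_same, ofReal_zero, mul_zero, neg_zero, Complex.exp_zero,
    mul_one] at hconst
  rw [eS, h.per_f hu hV hp, Complex.exp_neg] at hconst
  have e1 : (2 * I * (ε * (lenS ψ b τ u / (2 * Real.sin θ)) : ℝ) : ℂ)
      = I * (ε * lenS ψ b τ u / Real.sin θ : ℝ) := by
    have hs : (Real.sin θ : ℂ) ≠ 0 := ofReal_ne_zero.2 h.sin_pos.ne'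
    simp only [ofReal_mul, ofReal_div, ofReal_ofNat]
    field_simp
  have e2 : μ * conj μ = 1 := by
    rw [mul_conj', h.spA_norm hu hV]
    simp
  have e3 := Complex.exp_ne_zero (I * (ε * lenS ψ b τ u / Real.sin θ : ℝ))
  rw [e1]
  generalize cexp (I * (ε * lenS ψ b τ u / Real.sin θ : ℝ)) = X at hconst e3
  have e4 : conj μ * η = X := by
    have e5 : conj μ * η * X⁻¹ = 1 := mul_right_cancel₀ f0 (by linear_combination hconst)
    field_simp at e5
    exact e5
  rw [← e4, ← mul_assoc, e2, one_mul]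

end Cap

end Pool.Agent.Lib.MP_c7e804_gt
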