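import Pool.Agent.Lib.MP_c7e804_gt.H71Defs

/-!
The phase of the multiplier over the definite interval.
-/

namespace Pool.Agent.Lib.MP_c7e804_gt

open Matrix Set Complex
open scoped ContDiff ComplexConjugate

theorem win1_contY {D α Y P : ℝ → ℝ} {κa κb : ℝ} (h : Base D α Y P κa κb) :
    Continuous D ∧ Continuous α ∧ Continuous Y := by
  refine ⟨continuous_iff_continuousAt.2 fun κ => ?_, continuous_iff_continuousAt.2 fun κ => ?_,
    continuous_iff_continuousAt.2 fun κ => ?_⟩ <;> obtain ⟨a, y, h1, h2, h3, -⟩ := h.der κ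
  · exact h1.continuousAt
  · exact h2.continuousAt
  · exact h3.continuousAt

theorem win1_Ynonneg {D α Y P : ℝ → ℝ} {κa κb : ℝ} (h : Base D α Y P κa κb) :
    ∀ κ ∈ Icc κa κb, 0 ≤ Y κ := by
  have hlt : κa ≠ κb := (h.ka_neg.trans h.kb_pos).ne
  have h1 : MapsTo Y (Ioo κa κb) (Ici 0) := fun κ hκ => (h.Ypos κ hκ).le
  have h2 := h1.closure (win1_contY h).2.2
  rw [closure_Ioo hlt, closure_Ici] at h2
  exact h2

theorem win1_deriv {f m : ℝ → ℂ} (hf : Continuous f) (he : ∀ κ, cexp (f κ) = m κ) {κ : ℝ} {c : ℂ}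
    (hm : HasDerivAt m (c * m κ) κ) : HasDerivAt f c κ := by
  have h0 : m κ ≠ 0 := he κ ▸ exp_ne_zero _
  have h1 : HasDerivAt (fun t => log (m t / m κ)) (c * m κ / m κ / (m κ / m κ)) κ :=
    (hm.div_const (m κ)).clog_real (by rw [div_self h0]; exact one_mem_slitPlane)
  rw [div_self h0, div_one, mul_div_cancel_right₀ _ h0] at h1
  refine (h1.add_const (f κ)).congr_of_eventuallyEq ?_
  have h2 : Continuous fun t => (f t - f κ).im := continuous_im.comp (hf.sub continuous_const)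
  have h3 : ∀ᶠ t in nhds κ, (f t - f κ).im ∈ Ioo (-Real.pi) Real.pi :=
    h2.continuousAt.eventually (Ioo_mem_nhds (by simp [Real.pi_pos]) (by simp [Real.pi_pos]))
  filter_upwards [h3] with t ht
  rw [← he t, ← he κ, ← exp_sub, log_exp ht.1 ht.2.le, sub_add_cancel]

theorem Base.lift {D α Y P : ℝ → ℝ} {κa κb : ℝ} (h : Base D α Y P κa κb) {ε : ℝ}
    (hε : ε = 1 ∨ ε = -1) : ∃ ϕ : ℝ → ℝ, ContinuousOn ϕ (Icc κa κb) ∧
    (∀ κ ∈ Icc κa κb, cexp (I * ϕ κ) = D κ + I * α κ * (-ε * √(Y κ) : ℝ)) ∧ ϕ 0 = 0 ∧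
    ∀ κ ∈ Ioo κa κb, HasDerivAt ϕ (ε * P κ / √(Y κ)) κ := by
  obtain ⟨cD, cα, cY⟩ := win1_contY h
  have hε2 : ε ^ 2 = 1 := by rcases hε with rfl | rfl <;> norm_num
  set m : ℝ → ℂ := fun κ => D κ + I * α κ * (-ε * √(Y κ) : ℝ) with hm
  have cm : Continuous m := by
    simp only [hm]
    fun_prop
  have nm : ∀ κ, normSq (m κ) = D κ ^ 2 + α κ ^ 2 * √(Y κ) ^ 2 := fun κ => by
    simp only [hm, normSq_apply, add_re, add_im, mul_re, mul_im, ofReal_re, ofReal_im, I_re, I_im]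
    linear_combination (α κ ^ 2 * √(Y κ) ^ 2) * hε2
  have n1 : ∀ κ, 0 ≤ Y κ → normSq (m κ) = 1 := fun κ hκ => by rw [nm, Real.sq_sqrt hκ, h.quad]
  have m0 : ∀ κ, m κ ≠ 0 := fun κ => by
    rw [← normSq_pos]
    rcases le_total 0 (Y κ) with k | k
    · rw [n1 κ k]; exact one_pos
    · rw [nm, Real.sqrt_eq_zero'.2 k]
      nlinarith [h.quad κ, mul_nonneg (sq_nonneg (α κ)) (neg_nonneg.2 k)]
  have hsc : IsSimplyConnected (univ : Set ℝ) := by
    have := (convex_univ (𝕜 := ℝ) (E := ℝ)).contractibleSpace univ_nonempty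
    exact SimplyConnectedSpace.ofContractible _
  obtain ⟨f, cf, hf⟩ := exists_continuousOn_eqOn_exp_comp hsc isOpen_univ cm.continuousOn
    (by rintro ⟨κ, -, e⟩; exact m0 κ e)
  have cf' : Continuous f := continuousOn_univ.1 cf
  have he : ∀ κ, cexp (f κ) = m κ := fun κ => hf (mem_univ κ)
  have hi : ∀ κ, 0 ≤ Y κ → cexp (I * (f κ).im) = m κ := fun κ hκ => by
    have h1 : (f κ).re = 0 := by
      have h2 : ‖m κ‖ = 1 := by rw [Complex.norm_def, n1 κ hκ, Real.sqrt_one]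
      rw [← he, norm_exp] at h2
      exact (Real.exp_eq_one_iff _).1 h2
    rw [← he]
    congr 1
    apply Complex.ext <;> simp [h1]
  have hm0 : m 0 = 1 := by simp [hm, h.D0, h.α0]
  refine ⟨fun κ => (f κ).im - (f 0).im,
    ((continuous_im.comp cf').sub continuous_const).continuousOn, fun κ hκ => ?_, sub_self _,
    fun κ hκ => ?_⟩
  · rw [ofReal_sub, mul_sub, exp_sub, hi κ (win1_Ynonneg h κ hκ),
      hi 0 (h.Ypos 0 ⟨h.ka_neg, h.kb_pos⟩).le, hm0, div_one]
  · obtain ⟨a, y, h1, h2, h3, h4⟩ := h.der κ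
    have hY := h.Ypos κ hκ
    have hs : 0 < √(Y κ) := Real.sqrt_pos.2 hY
    have h5 := (h3.sqrt hY.ne').const_mul (-ε)
    have h6 := h1.ofReal_comp.add ((h2.ofReal_comp.const_mul I).mul h5.ofReal_comp)
    have h7 : HasDerivAt m (I * (ε * P κ / √(Y κ) : ℝ) * m κ) κ := by
      refine h6.congr_deriv ?_
      have e1 : a * (-ε * √(Y κ)) + α κ * (-ε * (y / (2 * √(Y κ)))) =
          ε * P κ / √(Y κ) * D κ := by
        have e2 := Real.sq_sqrt hY.le
        field_simp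
        rw [e2]
        linear_combination (-ε) * h4
      have e3 : α κ * P κ = -(ε * P κ / √(Y κ) * (α κ * (-ε * √(Y κ)))) := by
        field_simp
        linear_combination (-(α κ * P κ)) * hε2
      apply Complex.ext
      · simp only [hm, add_re, add_im, mul_re, mul_im, ofReal_re, ofReal_im, I_re, I_im]
        linear_combination e3
      · simp only [hm, add_re, add_im, mul_re, mul_im, ofReal_re, ofReal_im, I_re, I_im]
        linear_combination e1
    have h8 := (imCLM.hasFDerivAt.comp_hasDerivAt κ (win1_deriv cf' he h7)).sub_const (f 0).im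
    refine h8.congr_deriv ?_
    simp only [imCLM_apply, mul_im, ofReal_re, ofReal_im, I_re, I_im]
    ring

theorem Base.Ynonneg {D α Y P : ℝ → ℝ} {κa κb : ℝ} (h : Base D α Y P κa κb) :
    ∀ κ ∈ Icc κa κb, 0 ≤ Y κ := win1_Ynonneg h

theorem win1_re (x β B : ℝ) :
    (cexp (I * x) * conj (cexp (I * β)) * cexp (-(I * B))).re = Real.cos (x - β - B) := by
  rw [← exp_conj, ← exp_add, ← exp_add, ← exp_ofReal_mul_I_re]
  congr 2
  simp only [map_mul, conj_I, conj_ofReal]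
  push_cast
  ring

theorem win1_red (y : ℝ) : ∃ n : ℤ, |y + 2 * Real.pi * n| ≤ Real.pi ∧
    Real.cos |y + 2 * Real.pi * n| = Real.cos y := by
  have hp : 0 < 2 * Real.pi := Real.two_pi_pos
  refine ⟨-toIocDiv hp (-Real.pi) y, ?_, ?_⟩
  · have := sub_toIocDiv_zsmul_mem_Ioc hp (-Real.pi) y
    rw [zsmul_eq_mul] at this
    push_cast
    rw [abs_le]
    constructor <;> linarith [this.1, this.2]
  · rw [Real.cos_abs, mul_comm, Real.cos_add_int_mul_two_pi]

/-- membership in the closed window -/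
theorem win_le {x β B : ℝ} (hB : 0 < B) (hπ : B < Real.pi)
    (h : Real.cos B ≤ (cexp (I * x) * conj (cexp (I * β)) * cexp (-(I * B))).re) :
    ∃ n : ℤ, β ≤ x + 2 * Real.pi * n ∧ x + 2 * Real.pi * n ≤ β + 2 * B := by
  obtain ⟨n, h1, h2⟩ := win1_red (x - β - B)
  rw [win1_re, ← h2] at h
  have h3 := abs_le.1 ((Real.strictAntiOn_cos.le_iff_ge ⟨hB.le, hπ.le⟩ ⟨abs_nonneg _, h1⟩).1 h)
  exact ⟨n, by linarith [h3.1], by linarith [h3.2]⟩

/-- membership in the open window -/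
theorem win_lt {x β B : ℝ} (hB : 0 < B) (hπ : B < Real.pi)
    (h : Real.cos B < (cexp (I * x) * conj (cexp (I * β)) * cexp (-(I * B))).re) :
    ∃ n : ℤ, β < x + 2 * Real.pi * n ∧ x + 2 * Real.pi * n < β + 2 * B := by
  obtain ⟨n, h1, h2⟩ := win1_red (x - β - B)
  rw [win1_re, ← h2] at h
  have h3 := abs_lt.1 ((Real.strictAntiOn_cos.lt_iff_gt ⟨hB.le, hπ.le⟩ ⟨abs_nonneg _, h1⟩).1 h)
  exact ⟨n, by linarith [h3.1], by linarith [h3.2]⟩

/-- a continuous phase that stays in the open window does not leave its component -/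
theorem win_stay {ϕ : ℝ → ℝ} {β B x y z : ℝ} (hB : 0 < B) (hπ : B < Real.pi) (hz : z ∈ Ioo x y)
    (hc : ContinuousOn ϕ (Icc x y)) (h0 : ϕ z ∈ Ioo β (β + 2 * B))
    (h : ∀ κ ∈ Ioo x y,
      Real.cos B < (cexp (I * ϕ κ) * conj (cexp (I * β)) * cexp (-(I * B))).re) :
    ∀ κ ∈ Icc x y, ϕ κ ∈ Icc β (β + 2 * B) := by
  simp only [win1_re] at h
  have hc' := hc.mono Ioo_subset_Icc_self
  have h1 : MapsTo ϕ (Ioo x y) (Icc β (β + 2 * B)) := fun κ hκ => by
    constructor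
    · by_contra k
      obtain ⟨t, ht, e⟩ := isPreconnected_Ioo.intermediate_value hκ hz hc'
        (⟨(not_le.1 k).le, h0.1.le⟩ : β ∈ Icc _ _)
      have := h t ht
      rw [e, sub_self, zero_sub, Real.cos_neg] at this
      exact lt_irrefl _ this
    · by_contra k
      obtain ⟨t, ht, e⟩ := isPreconnected_Ioo.intermediate_value hz hκ hc'
        (⟨h0.2.le, (not_le.1 k).le⟩ : β + 2 * B ∈ Icc _ _)
      have := h t ht
      rw [e, show β + 2 * B - β - B = B by ring] at this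
      exact lt_irrefl _ this
  have hne : x ≠ y := (hz.1.trans hz.2).ne
  have h2 := h1.closure_of_continuousOn (by rwa [closure_Ioo hne])
  rwa [closure_Ioo hne, closure_Icc] at h2

theorem win1_exp {x β : ℝ} (h : cexp (I * β) = cexp (I * x)) : ∃ n : ℤ, β = x + 2 * Real.pi * n := by
  obtain ⟨n, hn⟩ := exp_eq_exp_iff_exists_int.1 h
  refine ⟨n, ?_⟩
  have := congrArg Complex.im hn
  simp at this
  linarith

/-- the two multipliers at one spectral parameter are conjugate -/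
theorem sheet_cases {D α Y t ε x β : ℝ} (hε : ε = 1 ∨ ε = -1) (ht : t ^ 2 = Y)
    (hx : cexp (I * x) = D + I * α * (-ε * √Y : ℝ)) (hβ : cexp (I * β) = D + I * α * t) :
    ∃ n : ℤ, β = x + 2 * Real.pi * n ∨ β = -x + 2 * Real.pi * n := by
  have h1 : t ^ 2 = (-ε * √Y) ^ 2 := by
    rw [mul_pow, Real.sq_sqrt (ht ▸ sq_nonneg t), ht]
    rcases hε with rfl | rfl <;> norm_num
  rcases sq_eq_sq_iff_eq_or_eq_neg.1 h1 with e | e
  · obtain ⟨n, hn⟩ := win1_exp (x := x) (β := β) (by rw [hβ, hx, e])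
    exact ⟨n, Or.inl hn⟩
  · obtain ⟨n, hn⟩ := win1_exp (x := -x) (β := β) (by
      have h2 : cexp (I * (-x : ℝ)) = conj (cexp (I * x)) := by
        rw [← exp_conj]
        simp
      rw [h2, hβ, hx, e]
      simp only [map_add, map_mul, conj_I, conj_ofReal]
      push_cast
      ring)
    exact ⟨n, Or.inr hn⟩

end Pool.Agent.Lib.MP_c7e804_gt
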