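import Pool.Agent.Lib.MP_c7e804_gt.H71Win1

/-!
The window of the longer line.
-/

namespace Pool.Agent.Lib.MP_c7e804_gt

open Matrix Set Complex
open scoped ContDiff ComplexConjugate

private theorem win2_exp_add (x B : ℝ) :
    cexp (I * x) * cexp (2 * I * B) = cexp (I * (x + 2 * B : ℝ)) := by
  rw [← Complex.exp_add]
  congr 1
  push_cast
  ring

private theorem win2_exp_per (x : ℝ) (n : ℤ) :
    cexp (I * (x + 2 * Real.pi * n : ℝ)) = cexp (I * x) := by
  rw [Complex.exp_eq_exp_iff_exists_int]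
  exact ⟨n, by push_cast; ring⟩

private theorem win2_exp_neg (x : ℝ) : cexp (I * (-x : ℝ)) = conj (cexp (I * x)) := by
  rw [← Complex.exp_conj]
  congr 1
  simp

private theorem win2_int {n : ℤ} (h1 : -(2 * Real.pi) < 2 * Real.pi * n)
    (h2 : 2 * Real.pi * n < 2 * Real.pi) : n = 0 := by
  have hp := Real.pi_pos
  have a1 : (-1 : ℝ) < n := by nlinarith
  have a2 : (n : ℝ) < 1 := by nlinarith
  have b1 : (-1 : ℤ) < n := by exact_mod_cast a1
  have b2 : n < (1 : ℤ) := by exact_mod_cast a2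
  omega

private theorem win2_sq {ε y : ℝ} (hε : ε = 1 ∨ ε = -1) (hy : 0 ≤ y) : (-ε * √y) ^ 2 = y := by
  have e : ε ^ 2 = 1 := by rcases hε with e | e <;> rw [e] <;> norm_num
  rw [mul_pow, Real.sq_sqrt hy, neg_sq, e, one_mul]

/-- the negative sheet belongs to `N` where `ε P` is not negative -/
private theorem win2_sheet {D α Y P : ℝ → ℝ} {κa κb A B ε : ℝ} {μa : ℂ} {N : ℂ → ℂ → Prop}
    (h : Base D α Y P κa κb) (hS : Side D α Y P κa κb A B μa N) (hε : ε = 1 ∨ ε = -1)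
    {k x : ℝ} (hk : k ∈ Ioo κa κb) (hP : 0 ≤ ε * P k)
    (hx : cexp (I * x) = D k + I * α k * (-ε * √(Y k) : ℝ)) : N k (cexp (I * x)) := by
  rw [hx]
  refine hS.sheet k hk _ (win2_sq hε (h.Ypos k hk).le) ?_
  have := mul_nonneg (Real.sqrt_nonneg (Y k)) hP
  nlinarith

/-- at a zero of `P` the other sheet belongs to `N` as well -/
private theorem win2_other {D α Y P : ℝ → ℝ} {κa κb A B ε : ℝ} {μa : ℂ} {N : ℂ → ℂ → Prop}
    (h : Base D α Y P κa κb) (hS : Side D α Y P κa κb A B μa N) (hε : ε = 1 ∨ ε = -1)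
    {k x : ℝ} (hk : k ∈ Ioo κa κb) (hP : P k = 0)
    (hx : cexp (I * x) = D k + I * α k * (-ε * √(Y k) : ℝ)) : N k (cexp (I * (-x : ℝ))) := by
  refine win2_sheet (ε := -ε) h hS (by rcases hε with e | e <;> simp [e]) hk (by simp [hP]) ?_
  rw [win2_exp_neg, hx]
  simp

/-- once the end points are known, the window is swept out by the negative sheet -/
theorem Side.winSide {D α Y P : ℝ → ℝ} {κa κb A B ε : ℝ} {μa : ℂ} {N : ℂ → ℂ → Prop}
    {ϕ : ℝ → ℝ} (h : Base D α Y P κa κb) (hS : Side D α Y P κa κb A B μa N)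
    (hW : Win D α Y P κa κb ε ϕ) (ha : ϕ κa = A - B - Real.pi) (hb : ϕ κb = A + B - Real.pi)
    (hm : μa = cexp (I * ϕ κa)) : WinSide κa κb A B μa N ϕ := by
  have hb' : ϕ κb = ϕ κa + 2 * B := by rw [ha, hb]; ring
  have mb : μa * cexp (2 * I * B) = cexp (I * ϕ κb) := by rw [hm, win2_exp_add, hb']
  refine ⟨ha, hb, hm, mb, fun κ μ hN => ?_⟩
  obtain ⟨n1, n2⟩ := hS.win κ μ hN
  have hμ : μ = cexp (I * arg μ) := by
    have := Complex.norm_mul_exp_arg_mul_I μ
    rw [n1] at this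
    rw [mul_comm I]
    simpa using this.symm
  rw [hμ, hm] at n2
  obtain ⟨n, e1, e2⟩ := win_le hS.B0 hS.Bπ n2
  obtain ⟨k, hk, ek⟩ := intermediate_value_Icc (h.ka_neg.trans h.kb_pos).le hW.cont
    (show arg μ + 2 * Real.pi * n ∈ Icc (ϕ κa) (ϕ κb) from ⟨e1, hb' ▸ e2⟩)
  have hμk : μ = cexp (I * ϕ k) := by rw [ek, win2_exp_per, ← hμ]
  refine ⟨k, hk, hS.uniq κ k μ hN ?_, hμk⟩
  rw [hμk]
  rcases hk.1.eq_or_lt with e | e
  · rw [← e, ← hm]
    exact hS.spa.1
  rcases hk.2.eq_or_lt with e' | e'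
  · rw [e', ← mb]
    exact hS.spb.1
  exact win2_sheet h hS hW.hε ⟨e, e'⟩ (hW.pos k ⟨e, e'⟩).le (hW.ex k hk)

/-- the first zero to the right of the origin -/
private theorem win2_right {Q : ℝ → ℝ} {b : ℝ} (hQ : Continuous Q) (h0 : 0 < Q 0) (hb : 0 < b) :
    ∃ k ∈ Ioc 0 b, (∀ x ∈ Ico 0 k, 0 < Q x) ∧ (k = b ∨ Q k = 0) := by
  by_cases hS : (Icc 0 b ∩ {x | Q x = 0}).Nonempty
  · obtain ⟨k, ⟨hk, hk0⟩, hmin⟩ := (isCompact_Icc.inter_right
      (isClosed_eq hQ continuous_const)).exists_isLeast hS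
    have hk0' : Q k = 0 := hk0
    have hk1 : 0 < k := lt_of_le_of_ne hk.1 (by rintro rfl; exact h0.ne' hk0')
    refine ⟨k, ⟨hk1, hk.2⟩, fun x hx => ?_, Or.inr hk0'⟩
    by_contra hn
    obtain ⟨y, hy, ey⟩ := intermediate_value_Icc' hx.1 hQ.continuousOn
      (show (0 : ℝ) ∈ Icc (Q x) (Q 0) from ⟨not_lt.1 hn, h0.le⟩)
    have := hmin ⟨⟨hy.1, hy.2.trans (hx.2.le.trans hk.2)⟩, ey⟩
    linarith [hy.2, hx.2]
  · refine ⟨b, ⟨hb, le_rfl⟩, fun x hx => ?_, Or.inl rfl⟩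
    by_contra hn
    obtain ⟨y, hy, ey⟩ := intermediate_value_Icc' hx.1 hQ.continuousOn
      (show (0 : ℝ) ∈ Icc (Q x) (Q 0) from ⟨not_lt.1 hn, h0.le⟩)
    exact hS ⟨y, ⟨hy.1, hy.2.trans hx.2.le⟩, ey⟩

/-- the first zero to the left of the origin -/
private theorem win2_left {Q : ℝ → ℝ} {a : ℝ} (hQ : Continuous Q) (h0 : 0 < Q 0) (ha : a < 0) :
    ∃ k ∈ Ico a 0, (∀ x ∈ Ioc k 0, 0 < Q x) ∧ (k = a ∨ Q k = 0) := by
  obtain ⟨k, hk, h1, h2⟩ := win2_right (Q := fun x => Q (-x)) (b := -a) (hQ.comp continuous_neg)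
    (by simpa using h0) (by linarith)
  refine ⟨-k, ⟨by linarith [hk.2], by linarith [hk.1]⟩, fun x hx => ?_,
    h2.imp (fun e => by rw [e, neg_neg]) id⟩
  simpa using h1 (-x) ⟨by linarith [hx.2], by linarith [hx.1]⟩

theorem Side.first {D α Y P : ℝ → ℝ} {κa κb A B : ℝ} {μa : ℂ} {N : ℂ → ℂ → Prop}
    (h : Base D α Y P κa κb) (hS : Side D α Y P κa κb A B μa N) (hAB : B < A) :
    ∃ ε ϕ, Win D α Y P κa κb ε ϕ ∧ WinSide κa κb A B μa N ϕ := by
  have hp := Real.pi_pos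
  have hA0 := hS.A0
  have hAπ := hS.Aπ
  have hB0 := hS.B0
  have hBπ := hS.Bπ
  obtain ⟨ε, hε, hε0⟩ : ∃ ε : ℝ, (ε = 1 ∨ ε = -1) ∧ 0 < ε * P 0 := by
    rcases lt_or_gt_of_ne h.P0 with e | e
    · exact ⟨-1, Or.inr rfl, by linarith⟩
    · exact ⟨1, Or.inl rfl, by linarith⟩
  obtain ⟨ϕ, hc, hx, h0, hd⟩ := h.lift hε
  have z0 : (0 : ℝ) ∈ Ioo κa κb := ⟨h.ka_neg, h.kb_pos⟩
  have hstr : ∀ k ∈ Ioo κa κb, 0 < ε * P k →
      Real.cos B < (cexp (I * ϕ k) * conj μa * cexp (-(I * B))).re := fun k hk hP => by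
    rw [hx k (Ioo_subset_Icc_self hk)]
    refine hS.strict k hk _ (win2_sq hε (h.Ypos k hk).le) ?_
    have := mul_pos (Real.sqrt_pos.2 (h.Ypos k hk)) hP
    nlinarith
  -- the multiplier at the left end
  obtain ⟨β, hβ, hm, hβ2⟩ : ∃ β : ℝ, β = A - B - Real.pi ∧ μa = cexp (I * β) ∧ 0 < β + 2 * B := by
    have e : μa ^ 2 = cexp (I * (A - B : ℝ)) ^ 2 := by
      rw [hS.sq, ← Complex.exp_nat_mul]
      congr 1
      push_cast
      ring
    have s0 := hstr 0 z0 hε0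
    rcases sq_eq_sq_iff_eq_or_eq_neg.1 e with e | e
    · rw [e] at s0
      obtain ⟨n, e1, e2⟩ := win_lt hB0 hBπ s0
      rw [h0] at e1 e2
      have := win2_int (n := n) (by linarith) (by linarith)
      subst this
      simp only [Int.cast_zero, mul_zero] at e1
      linarith
    · have e' : μa = cexp (I * (A - B - Real.pi : ℝ)) := by
        rw [e, show I * (A - B - Real.pi : ℝ) = I * (A - B : ℝ) - Real.pi * I by push_cast; ring,
          Complex.exp_sub, Complex.exp_pi_mul_I, div_neg, div_one]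
      rw [e'] at s0
      obtain ⟨n, e1, e2⟩ := win_lt hB0 hBπ s0
      rw [h0] at e1 e2
      have := win2_int (n := n) (by linarith) (by linarith)
      subst this
      simp only [Int.cast_zero, mul_zero] at e2
      exact ⟨_, rfl, e', by linarith⟩
  have hβ0 : β < 0 := by linarith
  have hβ1 : -Real.pi < β := by linarith
  have hβ3 : β + 2 * B < Real.pi := by linarith
  have cP : Continuous fun x => ε * P x := continuous_const.mul h.contP
  have εne : ε ≠ 0 := by rcases hε with e | e <;> rw [e] <;> norm_num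
  obtain ⟨k2, r1, r2, r3⟩ := win2_right cP hε0 h.kb_pos
  obtain ⟨k1, l1, l2, l3⟩ := win2_left cP hε0 h.ka_neg
  have hpos : ∀ k ∈ Ioo k1 k2, 0 < ε * P k := fun k hk => by
    rcases le_total 0 k with e | e
    · exact r2 k ⟨e, hk.2⟩
    · exact l2 k ⟨hk.1, e⟩
  have sub : Icc k1 k2 ⊆ Icc κa κb := Icc_subset_Icc l1.1 r1.2
  have sub' : Ioo k1 k2 ⊆ Ioo κa κb := Ioo_subset_Ioo l1.1 r1.2
  have hc' := hc.mono sub
  have m1 : k1 ∈ Icc k1 k2 := left_mem_Icc.2 (l1.2.trans r1.1).le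
  have m2 : k2 ∈ Icc k1 k2 := right_mem_Icc.2 (l1.2.trans r1.1).le
  have m0 : (0 : ℝ) ∈ Icc k1 k2 := ⟨l1.2.le, r1.1.le⟩
  have mono : StrictMonoOn ϕ (Icc k1 k2) := by
    refine strictMonoOn_of_deriv_pos (convex_Icc _ _) hc' (fun k hk => ?_)
    rw [interior_Icc] at hk
    rw [(hd k (sub' hk)).deriv]
    exact div_pos (hpos k hk) (Real.sqrt_pos.2 (h.Ypos k (sub' hk)))
  have stay := win_stay (ϕ := ϕ) (β := β) (z := 0) hB0 hBπ ⟨l1.2, r1.1⟩ hc'
    (by rw [h0]; exact ⟨hβ0, hβ2⟩) (fun k hk => hm ▸ hstr k (sub' hk) (hpos k hk))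
  have p1 : ϕ k1 < 0 := h0 ▸ mono m1 m0 l1.2
  have p2 : 0 < ϕ k2 := h0 ▸ mono m0 m2 r1.1
  have q1 := (stay k1 m1).1
  have q2 := (stay k2 m2).2
  have va : k1 = κa → ϕ k1 = β := fun e => by
    obtain ⟨-, t, t1, t2⟩ := hS.spa
    rw [← e] at t1 t2
    obtain ⟨n, g | g⟩ := sheet_cases hε t1 (hx k1 (sub m1)) (hm.symm.trans t2)
    · have := win2_int (n := n) (by linarith) (by linarith)
      subst this
      simp only [Int.cast_zero, mul_zero] at g
      linarith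
    · have := win2_int (n := n) (by linarith) (by linarith)
      subst this
      simp only [Int.cast_zero, mul_zero] at g
      linarith
  have vb : k2 = κb → ϕ k2 = β + 2 * B := fun e => by
    obtain ⟨-, t, t1, t2⟩ := hS.spb
    rw [← e] at t1 t2
    rw [hm, win2_exp_add] at t2
    obtain ⟨n, g | g⟩ := sheet_cases hε t1 (hx k2 (sub m2)) t2
    · have := win2_int (n := n) (by linarith) (by linarith)
      subst this
      simp only [Int.cast_zero, mul_zero] at g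
      linarith
    · have := win2_int (n := n) (by linarith) (by linarith)
      subst this
      simp only [Int.cast_zero, mul_zero] at g
      linarith
  have hN : ∀ k ∈ Icc k1 k2, N k (cexp (I * ϕ k)) := fun k hk => by
    rcases (sub hk).1.eq_or_lt with e | e
    · have e1 : k1 = κa := le_antisymm (e ▸ hk.1) l1.1
      rw [← e, ← e1, va e1, ← hm, e1]
      exact hS.spa.1
    rcases (sub hk).2.eq_or_lt with e' | e'
    · have e1 : k2 = κb := le_antisymm r1.2 (e' ▸ hk.2)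
      rw [e', ← e1, vb e1, ← win2_exp_add, ← hm, e1]
      exact hS.spb.1
    refine win2_sheet h hS hε ⟨e, e'⟩ ?_ (hx k (sub hk))
    rcases hk.1.eq_or_lt with g | g
    · subst g
      exact (l3.resolve_left e.ne').ge
    rcases hk.2.eq_or_lt with g' | g'
    · subst g'
      exact (r3.resolve_left e'.ne).ge
    exact (hpos k ⟨g, g'⟩).le
  have oa : κa < k1 → N k1 (cexp (I * (-ϕ k1 : ℝ))) := fun e =>
    win2_other h hS hε ⟨e, l1.2.trans h.kb_pos⟩
      ((mul_eq_zero.1 (l3.resolve_left e.ne')).resolve_left εne) (hx k1 (sub m1))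
  have ob : k2 < κb → N k2 (cexp (I * (-ϕ k2 : ℝ))) := fun e =>
    win2_other h hS hε ⟨h.ka_neg.trans r1.1, e⟩
      ((mul_eq_zero.1 (r3.resolve_left e.ne)).resolve_left εne) (hx k2 (sub m2))
  have ca : κa < k1 → -ϕ k1 ≤ ϕ k2 → False := fun e g => by
    obtain ⟨k, hk, ek⟩ := intermediate_value_Icc r1.1.le (hc'.mono (Icc_subset_Icc_left l1.2.le))
      (show -ϕ k1 ∈ Icc (ϕ 0) (ϕ k2) from ⟨by linarith, g⟩)
    have u := hN k ⟨l1.2.le.trans hk.1, hk.2⟩
    rw [ek] at u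
    have := Complex.ofReal_injective (hS.uniq k1 k _ (oa e) u)
    linarith [hk.1, l1.2]
  have cb : k2 < κb → ϕ k1 ≤ -ϕ k2 → False := fun e g => by
    obtain ⟨k, hk, ek⟩ := intermediate_value_Icc l1.2.le (hc'.mono (Icc_subset_Icc_right r1.1.le))
      (show -ϕ k2 ∈ Icc (ϕ k1) (ϕ 0) from ⟨g, by linarith⟩)
    have u := hN k ⟨hk.1, hk.2.trans r1.1.le⟩
    rw [ek] at u
    have := Complex.ofReal_injective (hS.uniq k2 k _ (ob e) u)
    linarith [hk.2, r1.1]
  have wa : κa < k1 → -ϕ k1 ≤ β + 2 * B := fun e => by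
    have w := (hS.win _ _ (oa e)).2
    rw [hm] at w
    obtain ⟨n, e1, e2⟩ := win_le hB0 hBπ w
    have := win2_int (n := n) (by linarith) (by linarith)
    subst this
    simp only [Int.cast_zero, mul_zero] at e2
    linarith
  have wb : k2 < κb → β ≤ -ϕ k2 := fun e => by
    have w := (hS.win _ _ (ob e)).2
    rw [hm] at w
    obtain ⟨n, e1, e2⟩ := win_le hB0 hBπ w
    have := win2_int (n := n) (by linarith) (by linarith)
    subst this
    simp only [Int.cast_zero, mul_zero] at e1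
    linarith
  have e2 : k2 = κb := by
    by_contra e
    have e' := lt_of_le_of_ne r1.2 e
    rcases l1.1.eq_or_lt with g | g
    · exact cb e' (va g.symm ▸ wb e')
    · rcases le_total (-ϕ k1) (ϕ k2) with u | u
      · exact ca g u
      · exact cb e' (by linarith)
  have e1 : k1 = κa := by
    by_contra e
    have e' := lt_of_le_of_ne l1.1 (Ne.symm e)
    exact ca e' (vb e2 ▸ wa e')
  have fa := va e1
  have fb := vb e2
  subst e1 e2
  have hW : Win D α Y P k1 k2 ε ϕ :=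
    ⟨hε, hc, hx, h0, hpos, ⟨by linarith, p1⟩, ⟨p2, by linarith⟩⟩
  exact ⟨ε, ϕ, hW, hS.winSide h hW (by linarith) (by linarith) (by rw [fa, hm])⟩

end Pool.Agent.Lib.MP_c7e804_gt
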