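import Pool.Agent.Lib.MP_c7e804_gt.H71Win2

/-!
The windows of the two lines coincide.
-/

namespace Pool.Agent.Lib.MP_c7e804_gt

open Matrix Set Complex
open scoped ContDiff ComplexConjugate

private theorem w3_int_zero {n : ℤ} (h1 : -(2 * Real.pi) < 2 * Real.pi * n)
    (h2 : 2 * Real.pi * n < 2 * Real.pi) : n = 0 := by
  have hp := Real.pi_pos
  have a1 : (-1 : ℝ) < n := by
    by_contra hc
    push Not at hc
    nlinarith
  have a2 : (n : ℝ) < 1 := by
    by_contra hc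
    push Not at hc
    nlinarith
  have b1 : (-1 : ℤ) < n := by exact_mod_cast a1
  have b2 : n < (1 : ℤ) := by exact_mod_cast a2
  omega

private theorem w3_sq {β x : ℝ} (h : cexp (I * β) ^ 2 = cexp (2 * I * x)) :
    ∃ m : ℤ, 2 * β = 2 * x + 2 * Real.pi * m := by
  have e : cexp (I * β) ^ 2 = cexp (2 * I * β) := by
    rw [sq, ← Complex.exp_add]
    congr 1
    ring
  rw [e, Complex.exp_eq_exp_iff_exists_int] at h
  obtain ⟨m, hm⟩ := h
  refine ⟨m, ?_⟩
  have := congrArg Complex.im hm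
  simp at this
  linarith

theorem Side.second {D α Y P : ℝ → ℝ} {κa κb A B A' B' ε : ℝ} {μa μa' : ℂ}
    {N N' : ℂ → ℂ → Prop} {ϕ : ℝ → ℝ} (h : Base D α Y P κa κb)
    (hS : Side D α Y P κa κb A B μa N) (hS' : Side D α Y P κa κb A' B' μa' N')
    (hW : Win D α Y P κa κb ε ϕ) (hw : WinSide κa κb A B μa N ϕ) (hAB : B + B' < A + A') :
    WinSide κa κb A' B' μa' N' ϕ := by
  have hp := Real.pi_pos
  have hn1 : ‖μa'‖ = 1 := (hS'.win _ _ hS'.spa.1).1
  have h0 : (0 : ℝ) ∈ Ioo κa κb := ⟨h.ka_neg, h.kb_pos⟩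
  have hab : κa ≤ κb := (h.ka_neg.trans h.kb_pos).le
  have hst : ∀ κ ∈ Ioo κa κb,
      Real.cos B' < (cexp (I * ϕ κ) * conj μa' * cexp (-(I * B'))).re := by
    intro κ hκ
    have hY := h.Ypos κ hκ
    have hs : 0 < √(Y κ) := Real.sqrt_pos.2 hY
    rw [hW.ex κ (Ioo_subset_Icc_self hκ)]
    refine hS'.strict κ hκ (-ε * √(Y κ)) ?_ ?_
    · have e2 : ε ^ 2 = 1 := by rcases hW.hε with e | e <;> rw [e] <;> norm_num
      rw [mul_pow, neg_sq, e2, one_mul, Real.sq_sqrt hY.le]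
    · have := mul_pos (hW.pos κ hκ) hs
      nlinarith
  obtain ⟨β0, hβ0⟩ : ∃ β0 : ℝ, μa' = cexp (I * β0) := by
    refine ⟨μa'.arg, ?_⟩
    have := Complex.norm_mul_exp_arg_mul_I μa'
    rw [hn1] at this
    rw [mul_comm I]
    simpa using this.symm
  obtain ⟨n0, hn0a, hn0b⟩ := win_lt (x := ϕ 0) (β := β0) hS'.B0 hS'.Bπ (by
    rw [← hβ0]
    exact hst 0 h0)
  obtain ⟨β, hβ, hβ1, hβ2⟩ : ∃ β : ℝ, μa' = cexp (I * β) ∧ β < ϕ 0 ∧ ϕ 0 < β + 2 * B' := by
    refine ⟨β0 - 2 * Real.pi * n0, ?_, by linarith, by linarith⟩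
    rw [hβ0, Complex.exp_eq_exp_iff_exists_int]
    refine ⟨n0, ?_⟩
    push_cast
    ring
  have hstay := win_stay (ϕ := ϕ) (β := β) hS'.B0 hS'.Bπ h0 hW.cont ⟨hβ1, hβ2⟩ (by
    intro κ hκ
    rw [← hβ]
    exact hst κ hκ)
  have hla : β ≤ ϕ κa := (hstay κa ⟨le_rfl, hab⟩).1
  have hlb : ϕ κb ≤ β + 2 * B' := (hstay κb ⟨hab, le_rfl⟩).2
  obtain ⟨ta, hta, hμa⟩ := hS'.spa.2
  obtain ⟨tb, htb, hμb⟩ := hS'.spb.2
  have hγ : cexp (I * (β + 2 * B' : ℝ)) = μa' * cexp (2 * I * B') := by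
    rw [hβ, ← Complex.exp_add]
    congr 1
    push_cast
    ring
  obtain ⟨na, hna⟩ := sheet_cases (β := β) hW.hε hta (hW.ex κa ⟨le_rfl, hab⟩) (hβ ▸ hμa)
  obtain ⟨nb, hnb⟩ := sheet_cases (β := β + 2 * B') hW.hε htb (hW.ex κb ⟨hab, le_rfl⟩)
    (hγ.trans hμb)
  have hva := hw.vala
  have hvb := hw.valb
  have hlo := hW.lo
  have hhi := hW.hi
  have hB' := hS'.Bπ
  have hB'0 := hS'.B0
  have hA' := hS'.Aπ
  have hA'0 := hS'.A0
  have hB := hS.Bπ
  have hB0 := hS.B0
  have hA := hS.Aπ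
  have hA0 := hS.A0
  have ca : β = ϕ κa ∨ β = -ϕ κa - 2 * Real.pi := by
    rcases hna with e | e
    · left
      have : na = 0 := w3_int_zero (by linarith [hlo.2, hhi.1]) (by linarith)
      rw [e, this]
      simp
    · right
      have : na + 1 = 0 := w3_int_zero (by push_cast; linarith [hlo.1, hlo.2, hhi.1])
        (by push_cast; linarith [hlo.1, hlo.2, hhi.1])
      have e2 : (na : ℝ) = -1 := by
        have : na = -1 := by omega
        rw [this]
        simp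
      rw [e, e2]
      ring
  have cb : β + 2 * B' = ϕ κb ∨ β + 2 * B' = 2 * Real.pi - ϕ κb := by
    rcases hnb with e | e
    · left
      have : nb = 0 := w3_int_zero (by linarith) (by linarith [hlo.2, hhi.1])
      rw [e, this]
      simp
    · right
      have : nb - 1 = 0 := w3_int_zero (by push_cast; linarith [hhi.1, hhi.2, hlo.2])
        (by push_cast; linarith [hhi.1, hhi.2, hlo.2])
      have e2 : (nb : ℝ) = 1 := by
        have : nb = 1 := by omega
        rw [this]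
        simp
      rw [e, e2]
      ring
  have hsq : cexp (I * β) ^ 2 = cexp (2 * I * (A' - B' : ℝ)) := by
    rw [← hβ, hS'.sq]
    push_cast
    rfl
  obtain ⟨m, hm⟩ := w3_sq hsq
  rcases ca with ca | ca <;> rcases cb with cb | cb
  · have eB : B' = B := by linarith
    have : m + 1 = 0 := w3_int_zero (by push_cast; linarith) (by push_cast; linarith)
    have e2 : (m : ℝ) = -1 := by
      have : m = -1 := by omega
      rw [this]
      simp
    rw [e2] at hm
    have eA : A' = A := by linarith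
    refine hS'.winSide h hW (by rw [eA, eB]; exact hva) (by rw [eA, eB]; exact hvb) ?_
    rw [hβ, ca]
  · exfalso
    linarith
  · exfalso
    have eB : B' = A := by linarith
    have : m + 1 = 0 := w3_int_zero (by push_cast; linarith) (by push_cast; linarith)
    have e2 : (m : ℝ) = -1 := by
      have : m = -1 := by omega
      rw [this]
      simp
    rw [e2] at hm
    linarith
  · exfalso
    linarith

theorem window {D α Y P : ℝ → ℝ} {κa κb A B A' B' : ℝ} {μa μa' : ℂ}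
    {N N' : ℂ → ℂ → Prop} (h : Base D α Y P κa κb)
    (hS : Side D α Y P κa κb A B μa N) (hS' : Side D α Y P κa κb A' B' μa' N')
    (hAB : B + B' < A + A') : ∃ ε ϕ, Win D α Y P κa κb ε ϕ ∧ WinSide κa κb A B μa N ϕ ∧
      WinSide κa κb A' B' μa' N' ϕ := by
  rcases lt_or_ge B A with h1 | h1
  · obtain ⟨ε, ϕ, hW, hw⟩ := hS.first h h1
    exact ⟨ε, ϕ, hW, hw, hS.second h hS' hW hw hAB⟩
  · obtain ⟨ε, ϕ, hW, hw⟩ := hS'.first h (by linarith)
    exact ⟨ε, ϕ, hW, hS'.second h hS hW hw (by linarith), hw⟩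

end Pool.Agent.Lib.MP_c7e804_gt
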