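import Pool.Agent.Lib.MP_c7e804_gt.H71Side
import Pool.Agent.Lib.MP_c7e804_gt.H71Win3

/-!
The window theorem for the annulus.
-/

namespace Pool.Agent.Lib.MP_c7e804_gt

open Matrix Set Complex
open scoped ContDiff ComplexConjugate

/-- result of the window argument -/
structure Wnd (ψ : ℝ × ℝ → V3) (a b τ θ : ℝ) (g : ℕ) (s : ℕ → ℝ × ℝ → ℂ) (F : ℂ → ℝ × ℝ → M2)
    (ε : ℝ) (ϕ : ℝ → ℝ) : Prop where
  win : Win (Dk b τ F) (alk ψ b τ g s F) (fun κ => (Yf ψ b g s κ).re)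
    (fun κ => (Pf ψ b τ g s κ).re) (ka θ) (kb θ) ε ϕ
  vala : ϕ (ka θ) = lenL ψ τ b / (2 * Real.sin θ) - lenS ψ b τ b / (2 * Real.sin θ) - Real.pi
  onlya : ∀ κ μ, Neg ψ a b τ a (-1) κ μ → ∃ k ∈ Icc (ka θ) (kb θ), κ = k ∧ μ = cexp (I * ϕ k)
  onlyb : ∀ κ μ, Neg ψ a b τ b 1 κ μ → ∃ k ∈ Icc (ka θ) (kb θ), κ = k ∧ μ = cexp (I * ϕ k)
  ya : ∃ y : C2, y ≠ 0 ∧ sg (cv (ψ (a, 0))) *ᵥ (F (ka θ) (a, 0) *ᵥ y) = F (ka θ) (a, 0) *ᵥ y ∧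
    sg (X0 ψ b g s (ka θ)) *ᵥ y = ((ε * √(Yf ψ b g s (ka θ)).re : ℝ) : ℂ) • y
  yb : ∃ y : C2, y ≠ 0 ∧ sg (cv (ψ (b, 0))) *ᵥ y = y ∧
    sg (X0 ψ b g s (ka θ)) *ᵥ y = ((-ε * √(Yf ψ b g s (ka θ)).re : ℝ) : ℂ) • y

theorem wnd_eq {D α t t' x : ℝ} (h0 : -Real.pi < x ∧ x < 0)
    (h1 : cexp (I * x) = D + I * α * t) (h2 : cexp (I * x) = D + I * α * t') : t = t' := by
  have e1 := congrArg Complex.im h1
  have e2 := congrArg Complex.im h2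
  rw [mul_comm I, Complex.exp_ofReal_mul_I_im] at e1 e2
  simp only [add_im, ofReal_im, mul_im, mul_re, I_re, ofReal_re, I_im, zero_mul, mul_zero,
    sub_zero, one_mul, zero_add, add_zero] at e1 e2
  have e3 : Real.sin x < 0 := Real.sin_neg_of_neg_of_neg_pi_lt h0.2 h0.1
  have e4 : α ≠ 0 := by
    rintro rfl
    rw [zero_mul] at e1
    exact e3.ne e1
  exact mul_left_cancel₀ e4 (e1.symm.trans e2)

theorem Setup.exists_wnd {ψ : ℝ × ℝ → V3} {a b τ θ : ℝ} {g : ℕ} {s : ℕ → ℝ × ℝ → ℂ}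
    {F G : ℂ → ℝ × ℝ → M2} (h : Setup ψ a b τ θ g s F G)
    (hLa : lenL ψ τ a < 2 * Real.pi * Real.sin θ) (hSa : lenS ψ b τ a < 2 * Real.pi * Real.sin θ)
    (hLb : lenL ψ τ b < 2 * Real.pi * Real.sin θ) (hSb : lenS ψ b τ b < 2 * Real.pi * Real.sin θ)
    (hsum : lenS ψ b τ a + lenS ψ b τ b < lenL ψ τ a + lenL ψ τ b) :
    ∃ ε ϕ, Wnd ψ a b τ θ g s F ε ϕ := by
  obtain ⟨ya, ta, a1, a2, a3⟩ := h.exists_spA (Or.inl rfl)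
  obtain ⟨yb, tb, b1, b2, b3⟩ := h.exists_spA (Or.inr rfl)
  have hs := h.cap.sin_pos
  have Sa := h.side (Or.inr ⟨rfl, rfl⟩) hLa hSa a1 a2 a3
  have Sb := h.side (Or.inl ⟨rfl, rfl⟩) hLb hSb b1 b2 b3
  obtain ⟨ε, ϕ, hW, wa, wb⟩ := window (h.base hSb) Sa Sb (by
    rw [← add_div, ← add_div]
    exact div_lt_div_of_pos_right hsum (by positivity))
  have hk : ka θ ∈ Icc (ka θ) (kb θ) :=
    left_mem_Icc.2 ((ka_neg h.cap.ann.hθa).trans (kb_pos h.cap.ann.hθa)).le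
  have ex := hW.ex _ hk
  refine ⟨ε, ϕ, hW, wb.vala, wa.only, wb.only, ⟨ya, a1, a3.eig 0, ?_⟩, ⟨yb, b1, ?_, ?_⟩⟩
  · have e := wa.ma
    rw [cj_sheet] at e
    have e' := wnd_eq hW.lo e.symm ex
    rw [a2, show ta = ε * √(Yf ψ b g s (ka θ)).re by linarith]
  · have e := b3.eig 0
    rwa [h.frame.baseF, one_mulVec] at e
  · have e := wb.ma
    rw [cj_one] at e
    rw [b2, wnd_eq hW.lo e.symm ex]

end Pool.Agent.Lib.MP_c7e804_gt
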