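import Pool.Agent.Lib.MP_c7e804_gt.H43Uml

/-!
Tools for spherical curves around an axis.
-/

namespace Pool.Agent.Lib.MP_c7e804_gt

open Matrix Set Complex
open scoped ContDiff ComplexConjugate

/-- a unit vector orthogonal to a given vector -/
theorem len_exists_perp (e : V3) :
    ∃ f : V3, f ⬝ᵥ f = 1 ∧ e ⬝ᵥ f = 0 := by
  have key : ∀ u : V3, e ⬝ᵥ u = 0 → 0 < u ⬝ᵥ u → ∃ f : V3, f ⬝ᵥ f = 1 ∧ e ⬝ᵥ f = 0 := by
    intro u hu hp
    have hs : 0 < √(u ⬝ᵥ u) := Real.sqrt_pos.mpr hp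
    refine ⟨(√(u ⬝ᵥ u))⁻¹ • u, ?_, ?_⟩
    · rw [smul_dotProduct, dotProduct_smul, smul_eq_mul, smul_eq_mul]
      have := Real.mul_self_sqrt hp.le
      field_simp
      nlinarith
    · rw [dotProduct_smul, hu, smul_zero]
  by_cases h : e 0 = 0 ∧ e 1 = 0
  · refine key ![1, 0, 0] ?_ ?_
    · simp [dotProduct, Fin.sum_univ_three, h.1]
    · simp [dotProduct, Fin.sum_univ_three]
  · refine key ![-e 1, e 0, 0] ?_ ?_
    · simp [dotProduct, Fin.sum_univ_three]; ring
    · simp only [dotProduct, Fin.sum_univ_three]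
      simp only [Matrix.cons_val_zero, Matrix.cons_val_one, Matrix.cons_val]
      rcases not_and_or.mp h with h | h
      · have := mul_self_pos.mpr h
        nlinarith [mul_self_nonneg (e 1)]
      · have := mul_self_pos.mpr h
        nlinarith [mul_self_nonneg (e 0)]

/-- projection to the plane orthogonal to `e`, as a complex number -/
theorem len_exists_P {e : V3} (he : e ⬝ᵥ e = 1) :
    ∃ P : V3 →L[ℝ] ℂ, ∀ a b : V3,
      (conj (P a) * P b).re = a ⬝ᵥ b - (e ⬝ᵥ a) * (e ⬝ᵥ b) ∧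
      (conj (P a) * P b).im = e ⬝ᵥ (a ⨯₃ b) := by
  obtain ⟨f, hf, hef⟩ := len_exists_perp e
  let L : V3 →ₗ[ℝ] ℂ :=
    { toFun := fun w => ⟨f ⬝ᵥ w, (e ⨯₃ f) ⬝ᵥ w⟩
      map_add' := fun x y => by
        apply Complex.ext <;> simp [dotProduct_add]
      map_smul' := fun c x => by
        apply Complex.ext <;> simp [dotProduct_smul] }
  refine ⟨LinearMap.toContinuousLinearMap L, fun a b => ?_⟩
  have hL : ∀ w, (LinearMap.toContinuousLinearMap L) w = ⟨f ⬝ᵥ w, (e ⨯₃ f) ⬝ᵥ w⟩ := fun w => rfl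
  rw [hL, hL]
  simp only [Complex.mul_re, Complex.mul_im, Complex.conj_re, Complex.conj_im]
  simp only [dotProduct, Fin.sum_univ_three, cross_apply, Matrix.cons_val_zero,
    Matrix.cons_val_one, Matrix.cons_val] at he hf hef ⊢
  constructor
  · linear_combination
      ((f 0 * f 0 + f 1 * f 1 + f 2 * f 2) * (a 0 * b 0 + a 1 * b 1 + a 2 * b 2)
        - (f 0 * a 0 + f 1 * a 1 + f 2 * a 2) * (f 0 * b 0 + f 1 * b 1 + f 2 * b 2)) * he
      + ((a 0 * b 0 + a 1 * b 1 + a 2 * b 2)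
        - (e 0 * a 0 + e 1 * a 1 + e 2 * a 2) * (e 0 * b 0 + e 1 * b 1 + e 2 * b 2)) * hf
      + (-(e 0 * f 0 + e 1 * f 1 + e 2 * f 2) * (a 0 * b 0 + a 1 * b 1 + a 2 * b 2)
        + (f 0 * a 0 + f 1 * a 1 + f 2 * a 2) * (e 0 * b 0 + e 1 * b 1 + e 2 * b 2)
        + (e 0 * a 0 + e 1 * a 1 + e 2 * a 2) * (f 0 * b 0 + f 1 * b 1 + f 2 * b 2)) * hef
  · linear_combination
      (e 0 * (a 1 * b 2 - a 2 * b 1) + e 1 * (a 2 * b 0 - a 0 * b 2)
        + e 2 * (a 0 * b 1 - a 1 * b 0)) * hf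
      - (f 0 * (a 1 * b 2 - a 2 * b 1) + f 1 * (a 2 * b 0 - a 0 * b 2)
        + f 2 * (a 0 * b 1 - a 1 * b 0)) * hef

/-- a lift that turns more than once over a period meets itself -/
theorem len_meet {τ c : ℝ} (hτ : 0 < τ) {φ h : ℝ → ℝ} (hφ : Continuous φ)
    (hm : StrictMono φ) (hc : 2 * Real.pi < c) (hp : ∀ v, φ (v + τ) = φ v + c)
    (hh : Continuous h) (hhp : Function.Periodic h τ) :
    ∃ v w, v < w ∧ w < v + τ ∧ φ w = φ v + 2 * Real.pi ∧ h w = h v := by
  have hc0 : 0 < c := lt_trans (by positivity) hc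
  have hn : ∀ n : ℕ, φ (n * τ) = φ 0 + n * c := by
    intro n
    induction n with
    | zero => simp
    | succ n ih => push_cast; rw [add_mul, one_mul, hp, ih]; ring
  have hn' : ∀ n : ℕ, φ (-(n * τ)) = φ 0 - n * c := by
    intro n
    induction n with
    | zero => simp
    | succ n ih =>
      have := hp (-(((n + 1 : ℕ) : ℝ) * τ))
      have e1 : -(((n + 1 : ℕ) : ℝ) * τ) + τ = -(n * τ) := by push_cast; ring
      rw [e1, ih] at this
      push_cast at this ⊢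
      linarith
  have hsurj : Function.Surjective φ := by
    intro y
    obtain ⟨n, hn1⟩ := exists_nat_gt (|y - φ 0| / c)
    have hn2 : |y - φ 0| < n * c := by rwa [div_lt_iff₀ hc0] at hn1
    have := abs_lt.mp hn2
    apply intermediate_value_univ (-(n * τ)) (n * τ) hφ
    rw [hn, hn']
    constructor <;> linarith [this.1, this.2]
  let Φ := hm.orderIsoOfSurjective φ hsurj
  have hΦ : ∀ y, φ (Φ.symm y) = y := fun y => StrictMono.orderIsoOfSurjective_self_symm_apply φ hm hsurj y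
  have hcont : Continuous fun v => h (Φ.symm (φ v + 2 * Real.pi)) :=
    hh.comp (Φ.symm.continuous.comp (hφ.add continuous_const))
  obtain ⟨vM, -, hM⟩ := (isCompact_Icc (a := (0 : ℝ)) (b := τ)).exists_isMaxOn
    (nonempty_Icc.mpr hτ.le) hh.continuousOn
  obtain ⟨vm, -, hmn⟩ := (isCompact_Icc (a := (0 : ℝ)) (b := τ)).exists_isMinOn
    (nonempty_Icc.mpr hτ.le) hh.continuousOn
  have hM' : ∀ x, h x ≤ h vM := by
    intro x
    obtain ⟨y, hy, e⟩ := hhp.exists_mem_Ico₀ hτ x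
    rw [e]; exact hM (Ico_subset_Icc_self hy)
  have hm' : ∀ x, h vm ≤ h x := by
    intro x
    obtain ⟨y, hy, e⟩ := hhp.exists_mem_Ico₀ hτ x
    rw [e]; exact hmn (Ico_subset_Icc_self hy)
  obtain ⟨v, hv⟩ := intermediate_value_univ₂ hcont hh (hM' _) (hm' _)
  refine ⟨v, Φ.symm (φ v + 2 * Real.pi), ?_, ?_, hΦ _, hv⟩
  · apply hm.lt_iff_lt.mp
    rw [hΦ]; linarith [Real.pi_pos]
  · apply hm.lt_iff_lt.mp
    rw [hΦ, hp]; linarith

/-- up on the first half turn, down on the second one -/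
theorem len_hill {x y : ℝ} (hxy : x < y) {φ f f' : ℝ → ℝ} (hφ : Continuous φ)
    (hm : StrictMono φ) (hc : φ y = φ x + 2 * Real.pi) (hf : ∀ v, HasDerivAt f (f' v) v)
    (hs : ∀ v, ∃ r, 0 < r ∧ f' v = r * Real.sin (φ v - φ x)) (hx : f x = 0) (hy : f y = 0) :
    ∀ v ∈ Ioo x y, 0 < f v := by
  obtain ⟨t, ht, e⟩ : φ x + Real.pi ∈ φ '' Ioo x y := by
    apply intermediate_value_Ioo hxy.le hφ.continuousOn
    rw [hc]; constructor <;> linarith [Real.pi_pos]
  have hfc : Continuous f := continuous_iff_continuousAt.mpr fun v => (hf v).continuousAt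
  have h1 : StrictMonoOn f (Icc x t) := by
    apply strictMonoOn_of_deriv_pos (convex_Icc _ _) hfc.continuousOn
    intro v hv
    rw [interior_Icc] at hv
    obtain ⟨r, hr, er⟩ := hs v
    rw [(hf v).deriv, er]
    have a1 := hm hv.1
    have a2 := hm hv.2
    exact mul_pos hr (Real.sin_pos_of_pos_of_lt_pi (by linarith) (by linarith))
  have h2 : StrictAntiOn f (Icc t y) := by
    apply strictAntiOn_of_deriv_neg (convex_Icc _ _) hfc.continuousOn
    intro v hv
    rw [interior_Icc] at hv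
    obtain ⟨r, hr, er⟩ := hs v
    rw [(hf v).deriv, er]
    have a1 := hm hv.1
    have a2 := hm hv.2
    have : 0 < Real.sin (φ v - φ x - Real.pi) :=
      Real.sin_pos_of_pos_of_lt_pi (by linarith) (by linarith)
    rw [Real.sin_sub_pi] at this
    exact mul_neg_of_pos_of_neg hr (by linarith)
  intro v hv
  rcases le_total v t with h | h
  · have := h1 (left_mem_Icc.mpr ht.1.le) ⟨hv.1.le, h⟩ hv.1
    linarith
  · have := h2 ⟨h, hv.2.le⟩ (right_mem_Icc.mpr ht.2.le) hv.2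
    linarith

theorem len_hasDerivAt_dot {f g : ℝ → V3} {f' g' : V3} {v : ℝ} (hf : HasDerivAt f f' v)
    (hg : HasDerivAt g g' v) :
    HasDerivAt (fun t => f t ⬝ᵥ g t) (f' ⬝ᵥ g v + f v ⬝ᵥ g') v := by
  have a := hasDerivAt_pi.mp hf
  have b := hasDerivAt_pi.mp hg
  simp only [dotProduct, Fin.sum_univ_three]
  exact ((((a 0).mul (b 0)).add ((a 1).mul (b 1))).add ((a 2).mul (b 2))).congr_deriv (by ring)

theorem len_hasDerivAt_det {c : V3} {f g : ℝ → V3} {f' g' : V3} {v : ℝ}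
    (hf : HasDerivAt f f' v) (hg : HasDerivAt g g' v) :
    HasDerivAt (fun t => c ⬝ᵥ (f t ⨯₃ g t)) (c ⬝ᵥ (f' ⨯₃ g v) + c ⬝ᵥ (f v ⨯₃ g')) v := by
  have a := hasDerivAt_pi.mp hf
  have b := hasDerivAt_pi.mp hg
  simp only [dotProduct, Fin.sum_univ_three, cross_apply, Matrix.cons_val_zero,
    Matrix.cons_val_one, Matrix.cons_val]
  have := (((((a 1).mul (b 2)).sub ((a 2).mul (b 1))).const_mul (c 0)).add
    ((((a 2).mul (b 0)).sub ((a 0).mul (b 2))).const_mul (c 1))).add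
    ((((a 0).mul (b 1)).sub ((a 1).mul (b 0))).const_mul (c 2))
  exact this.congr_deriv (by ring)

theorem len_cont_dot {f g : ℝ → V3} (hf : Continuous f) (hg : Continuous g) :
    Continuous fun t => f t ⬝ᵥ g t := by
  simp only [dotProduct, Fin.sum_univ_three]
  fun_prop

/-- polar form of a nowhere vanishing curve -/
theorem len_polar {z z' : ℝ → ℂ} (hz : ∀ v, HasDerivAt z (z' v) v) (hc : Continuous z')
    (h0 : ∀ v, z v ≠ 0) (x v : ℝ) :
    conj (z x) * z v = ((‖z x‖ * ‖z v‖ : ℝ) : ℂ) *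
      cexp (((wind v z z' - wind x z z' : ℝ) : ℂ) * I) := by
  have hn : ∀ t, ((‖z t‖ : ℝ) : ℂ) ≠ 0 := fun t => by
    exact_mod_cast (norm_ne_zero_iff.mpr (h0 t))
  have e1 := wind_exp (τ := v) hz hc h0
  have e2 := wind_exp (τ := x) hz hc h0
  have e3 : cexp (((wind v z z' - wind x z z' : ℝ) : ℂ) * I)
      = cexp (I * wind v z z') / cexp (I * wind x z z') := by
    rw [← Complex.exp_sub]; congr 1; push_cast; ring
  have e4 : conj (z x) = ((‖z x‖ : ℝ) : ℂ) ^ 2 / z x := by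
    rw [eq_div_iff (h0 x), ← Complex.normSq_eq_conj_mul_self, Complex.normSq_eq_norm_sq]
    push_cast; ring
  rw [e3, e1, e2, e4]
  have := h0 0
  have := h0 x
  have := h0 v
  have := hn 0
  have := hn x
  have := hn v
  push_cast
  field_simp

theorem len_div_im (a b : ℂ) : (b / a).im = (conj a * b).im / normSq a := by
  rw [Complex.div_im]
  simp only [Complex.mul_im, Complex.conj_re, Complex.conj_im]
  ring

theorem len_self_pos {a : V3} (h : a ≠ 0) : 0 < a ⬝ᵥ a := by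
  have h1 : 0 ≤ a ⬝ᵥ a := by
    simp only [dotProduct, Fin.sum_univ_three]
    nlinarith [mul_self_nonneg (a 0), mul_self_nonneg (a 1), mul_self_nonneg (a 2)]
  exact lt_of_le_of_ne h1 fun e => h (dotProduct_self_eq_zero.mp e.symm)

theorem len_binet (a e t m : V3) :
    (a ⬝ᵥ t) * (e ⬝ᵥ m) - (a ⬝ᵥ m) * (e ⬝ᵥ t) = -(e ⬝ᵥ (a ⨯₃ (t ⨯₃ m))) := by
  simp only [dotProduct, Fin.sum_univ_three, cross_apply, Matrix.cons_val_zero,
    Matrix.cons_val_one, Matrix.cons_val]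
  ring

theorem len_dot_integral (c : V3) {F : ℝ → V3} (hF : Continuous F) (x y : ℝ) :
    c ⬝ᵥ (∫ v in x..y, F v) = ∫ v in x..y, c ⬝ᵥ F v := by
  let L : V3 →ₗ[ℝ] ℝ :=
    { toFun := fun w => c ⬝ᵥ w
      map_add' := fun x y => dotProduct_add _ _ _
      map_smul' := fun r x => dotProduct_smul _ _ _ }
  exact ((LinearMap.toContinuousLinearMap L).intervalIntegral_comp_comm
    (hF.intervalIntegrable x y)).symm

end Pool.Agent.Lib.MP_c7e804_gt
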