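import Pool.Agent.Lib.MP_c7e804_gt.H81Len0

/-!
Locally convex spherical curves with their moving frame.
-/

namespace Pool.Agent.Lib.MP_c7e804_gt

open Matrix Set Complex
open scoped ContDiff ComplexConjugate

/-- a closed locally convex spherical curve `x` with tangent `T` and dual curve `y` -/
structure FC (τ ε : ℝ) (x T y : ℝ → V3) (l m : ℝ → ℝ) : Prop where
  hτ : 0 < τ
  hε : ε = 1 ∨ ε = -1
  dx : ∀ v, HasDerivAt x (l v • T v) v
  dy : ∀ v, HasDerivAt y (-m v • T v) v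
  cl : Continuous l
  cm : Continuous m
  lp : ∀ v, 0 < l v
  mp : ∀ v, 0 < m v
  px : ∀ v, x (v + τ) = x v
  py : ∀ v, y (v + τ) = y v
  pl : ∀ v, l (v + τ) = l v
  pm : ∀ v, m (v + τ) = m v
  xx : ∀ v, x v ⬝ᵥ x v = 1
  yy : ∀ v, y v ⬝ᵥ y v = 1
  xy : ∀ v, x v ⬝ᵥ y v = 0
  hT : ∀ v, T v = ε • (y v ⨯₃ x v)

/-- total turning of the projection of `T` along the axis `e` -/
noncomputable def turn (τ : ℝ) (T : ℝ → V3) (e : V3) : ℝ :=
  ∫ v in (0 : ℝ)..τ, e ⬝ᵥ (T v ⨯₃ deriv T v) / (1 - (e ⬝ᵥ T v) ^ 2)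

theorem turn_neg (τ : ℝ) (T : ℝ → V3) (e : V3) : turn τ (fun v => -T v) e = turn τ T e := by
  simp [turn]

theorem len_cross3 (a b c : V3) : a ⨯₃ (b ⨯₃ c) = (a ⬝ᵥ c) • b - (a ⬝ᵥ b) • c := by
  ext i
  fin_cases i <;> simp [cross_apply, dotProduct, Fin.sum_univ_three] <;> ring

theorem len_gram (e a b : V3) : (e ⬝ᵥ (a ⨯₃ b)) ^ 2 =
    (e ⬝ᵥ e) * ((a ⬝ᵥ a) * (b ⬝ᵥ b) - (a ⬝ᵥ b) ^ 2) - (e ⬝ᵥ a) ^ 2 * (b ⬝ᵥ b)
      - (e ⬝ᵥ b) ^ 2 * (a ⬝ᵥ a) + 2 * (e ⬝ᵥ a) * (e ⬝ᵥ b) * (a ⬝ᵥ b) := by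
  simp [cross_apply, dotProduct, Fin.sum_univ_three]
  ring

theorem len_eq_of_dot {a b : V3} (ha : a ⬝ᵥ a = 1) (hb : b ⬝ᵥ b = 1) (h : a ⬝ᵥ b = 1) : a = b := by
  refine sub_eq_zero.1 (dotProduct_self_eq_zero.mp ?_)
  rw [sub_dotProduct, dotProduct_sub, dotProduct_sub, ha, hb, dotProduct_comm b, h]
  ring

/-- the defining property of the projection along `e` -/
def IsProj (e : V3) (P : V3 →L[ℝ] ℂ) : Prop := ∀ a b : V3,
  (conj (P a) * P b).re = a ⬝ᵥ b - (e ⬝ᵥ a) * (e ⬝ᵥ b) ∧ (conj (P a) * P b).im = e ⬝ᵥ (a ⨯₃ b)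

theorem IsProj.normSq {e : V3} {P : V3 →L[ℝ] ℂ} (hP : IsProj e P) (a : V3) :
    normSq (P a) = a ⬝ᵥ a - (e ⬝ᵥ a) * (e ⬝ᵥ a) := by
  rw [← (hP a a).1, ← Complex.normSq_eq_conj_mul_self, Complex.ofReal_re]

theorem len_re_I (ε : ℝ) (p q : ℂ) : (ε * I * p * conj q).re = ε * (conj p * q).im := by
  simp
  ring

namespace FC

variable {τ ε : ℝ} {x T y : ℝ → V3} {l m : ℝ → ℝ} (F : FC τ ε x T y l m)
include F

theorem ε2 : ε * ε = 1 := by rcases F.hε with h | h <;> rw [h] <;> norm_num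

theorem yx (v : ℝ) : y v ⬝ᵥ x v = 0 := by rw [dotProduct_comm]; exact F.xy v

theorem xT (v : ℝ) : x v ⬝ᵥ T v = 0 := by
  rw [F.hT, dotProduct_smul, dot_cross_self, smul_zero]

theorem yT (v : ℝ) : y v ⬝ᵥ T v = 0 := by
  rw [F.hT, dotProduct_smul, dot_self_cross, smul_zero]

theorem xxT (v : ℝ) : x v ⨯₃ T v = ε • y v := by
  rw [F.hT, map_smul, len_cross3, F.xx, F.xy, one_smul, zero_smul, sub_zero]

theorem Txy (v : ℝ) : T v ⨯₃ y v = ε • x v := by
  rw [← cross_anticomm, F.hT, map_smul, len_cross3, F.yy, F.yx, one_smul, zero_smul, zero_sub,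
    smul_neg, neg_neg]

theorem TT (v : ℝ) : T v ⬝ᵥ T v = 1 := by
  rw [F.hT, smul_dotProduct, dotProduct_smul, cross_dot_cross, F.xx, F.yy, F.xy, F.yx]
  simp [F.ε2]

theorem pars {e : V3} (he : e ⬝ᵥ e = 1) (v : ℝ) :
    (e ⬝ᵥ x v) ^ 2 + (e ⬝ᵥ y v) ^ 2 + (e ⬝ᵥ T v) ^ 2 = 1 := by
  have := len_gram e (y v) (x v)
  rw [he, F.xx, F.yy, F.yx] at this
  rw [F.hT, dotProduct_smul, smul_eq_mul, mul_pow, sq ε, F.ε2]
  linarith

theorem cx : Continuous x := continuous_iff_continuousAt.mpr fun v => (F.dx v).continuousAt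

theorem cy : Continuous y := continuous_iff_continuousAt.mpr fun v => (F.dy v).continuousAt

theorem pT (v : ℝ) : T (v + τ) = T v := by rw [F.hT, F.hT, F.px, F.py]

theorem dT (v : ℝ) : HasDerivAt T (-l v • x v + m v • y v) v := by
  have e : T = ε • fun v => y v ⨯₃ x v := funext F.hT
  have h : HasDerivAt (fun v => y v ⨯₃ x v) ((-m v • T v) ⨯₃ x v + y v ⨯₃ (l v • T v)) v := by
    refine hasDerivAt_pi.2 fun i => ?_
    have := len_hasDerivAt_det (c := Pi.single i 1) (F.dy v) (F.dx v)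
    simpa only [single_dotProduct, one_mul, Pi.add_apply] using this
  have h2 := h.const_smul ε
  rw [← e] at h2
  refine h2.congr_deriv ?_
  rw [map_smul, map_smul, LinearMap.smul_apply, ← cross_anticomm (x v) (T v),
    ← cross_anticomm (T v) (y v), F.xxT, F.Txy]
  ext i
  simp only [Pi.smul_apply, Pi.add_apply, Pi.neg_apply, smul_eq_mul]
  linear_combination (m v * y v i - l v * x v i) * F.ε2

theorem cT : Continuous T := continuous_iff_continuousAt.mpr fun v => (F.dT v).continuousAt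

theorem swap : FC τ ε y (fun v => -T v) x m l where
  hτ := F.hτ
  hε := F.hε
  dx v := by simpa using F.dy v
  dy v := by simpa using F.dx v
  cl := F.cm
  cm := F.cl
  lp := F.mp
  mp := F.lp
  px := F.py
  py := F.px
  pl := F.pm
  pm := F.pl
  xx := F.yy
  yy := F.xx
  xy := F.yx
  hT v := by rw [F.hT, ← smul_neg, cross_anticomm]

theorem rot {s c : ℝ} (hs : 0 < s) (hc : 0 ≤ c) (hsc : s ^ 2 + c ^ 2 = 1)
    (hp : ∀ v, 0 < s * l v - c * m v) :
    FC τ ε (fun v => s • x v + c • y v) T (fun v => -c • x v + s • y v)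
      (fun v => s * l v - c * m v) (fun v => c * l v + s * m v) where
  hτ := F.hτ
  hε := F.hε
  dx v := (((F.dx v).const_smul s).add ((F.dy v).const_smul c)).congr_deriv (by module)
  dy v := (((F.dx v).const_smul (-c)).add ((F.dy v).const_smul s)).congr_deriv (by module)
  cl := (F.cl.const_mul s).sub (F.cm.const_mul c)
  cm := (F.cl.const_mul c).add (F.cm.const_mul s)
  lp := hp
  mp v := add_pos_of_nonneg_of_pos (mul_nonneg hc (F.lp v).le) (mul_pos hs (F.mp v))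
  px v := by rw [F.px, F.py]
  py v := by rw [F.px, F.py]
  pl v := by rw [F.pl, F.pm]
  pm v := by rw [F.pl, F.pm]
  xx v := by
    simp only [add_dotProduct, dotProduct_add, smul_dotProduct, dotProduct_smul, F.xx, F.yy, F.xy,
      F.yx, smul_eq_mul]
    linarith
  yy v := by
    simp only [add_dotProduct, dotProduct_add, smul_dotProduct, dotProduct_smul, F.xx, F.yy, F.xy,
      F.yx, smul_eq_mul]
    linarith
  xy v := by
    simp only [add_dotProduct, dotProduct_add, smul_dotProduct, dotProduct_smul, F.xx, F.yy, F.xy,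
      F.yx, smul_eq_mul]
    ring
  hT v := by
    rw [F.hT]
    congr 1
    simp only [map_add, map_smul, LinearMap.add_apply, LinearMap.smul_apply, cross_self,
      ← cross_anticomm (y v) (x v)]
    ext i
    simp only [Pi.smul_apply, Pi.add_apply, Pi.neg_apply, Pi.zero_apply, smul_eq_mul]
    linear_combination (-((y v ⨯₃ x v) i)) * hsc

/-- the projections of `x` and of `T` turn by the same angle -/
theorem wind_x {e : V3} {P : V3 →L[ℝ] ℂ} (hP : IsProj e P) (hy : ∀ v, 0 < e ⬝ᵥ y v) :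
    wind τ (fun v => ε * I * P (x v)) (fun v => ε * I * P (l v • T v)) = turn τ T e := by
  have h := wind_eq_of_re (τ := τ) (G := fun v => ε * I * P (x v))
    (G' := fun v => ε * I * P (l v • T v)) (H := fun v => P (T v))
    (H' := fun v => P (-l v • x v + m v • y v))
    (fun v => (P.hasFDerivAt.comp_hasDerivAt v (F.dx v)).const_mul _)
    (continuous_const.mul (P.continuous.comp (F.cl.smul F.cT)))
    (fun v => P.hasFDerivAt.comp_hasDerivAt v (F.dT v))
    (P.continuous.comp ((F.cl.neg.smul F.cx).add (F.cm.smul F.cy)))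
    (by simp only [← F.px 0, zero_add]) (by simp only [← F.pT 0, zero_add]) fun v => by
      rw [len_re_I, (hP _ _).2, F.xxT, dotProduct_smul, smul_eq_mul, ← mul_assoc, F.ε2, one_mul]
      exact hy v
  rw [h, wind, turn]
  refine intervalIntegral.integral_congr fun v _ => ?_
  simp only [len_div_im, (hP _ _).2, hP.normSq, F.TT, (F.dT v).deriv, sq]

end FC

end Pool.Agent.Lib.MP_c7e804_gt
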