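import Pool.Agent.Lib.MP_c7e804_gt.H81Len1

/-!
Convexity and length of spherical curves that turn once around an axis.
-/

namespace Pool.Agent.Lib.MP_c7e804_gt

open Matrix Set Complex
open scoped ContDiff ComplexConjugate

namespace FC

variable {τ ε : ℝ} {x T y : ℝ → V3} {l m : ℝ → ℝ} (F : FC τ ε x T y l m)
include F

theorem wind_x' {e : V3} {P : V3 →L[ℝ] ℂ} (hP : IsProj e P) (hy : ∀ v, 0 < e ⬝ᵥ y v) :
    wind τ (fun v => P (x v)) (fun v => P (l v • T v)) = turn τ T e := by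
  have h0 : (ε * I : ℂ) ≠ 0 := by
    rcases F.hε with h | h <;> simp [h]
  rw [← F.wind_x hP hy, wind_smul h0]

theorem core {e : V3} (he : e ⬝ᵥ e = 1) (hy : ∀ v, 0 < e ⬝ᵥ y v)
    (H : (∀ v v', x v = x v' → ∃ j : ℤ, v' = v + j * τ) ∨ |turn τ T e| ≤ 2 * Real.pi) :
    |turn τ T e| ≤ 2 * Real.pi ∧ (∀ s, ∀ v ∈ Ioo s (s + τ), 0 < x s ⬝ᵥ y v) ∧
      ∫ v in (0 : ℝ)..τ, m v < 2 * Real.pi := by
  obtain ⟨P, hP⟩ : ∃ P, IsProj e P := len_exists_P he
  have hτ := F.hτ
  have hε2 := F.ε2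
  have hα : ∀ v, 0 < 1 - (e ⬝ᵥ x v) ^ 2 := fun v => by
    nlinarith [F.pars he v, hy v, sq_nonneg (e ⬝ᵥ T v)]
  obtain ⟨z, hzd⟩ : ∃ z : ℝ → ℂ, z = fun v => P (x v) := ⟨_, rfl⟩
  obtain ⟨z', hz'd⟩ : ∃ z' : ℝ → ℂ, z' = fun v => P (l v • T v) := ⟨_, rfl⟩
  have hzv : ∀ v, z v = P (x v) := fun v => by rw [hzd]
  have hz'v : ∀ v, z' v = P (l v • T v) := fun v => by rw [hz'd]
  have hz : ∀ v, HasDerivAt z (z' v) v := fun v => by
    rw [hzd, hz'v]
    exact P.hasFDerivAt.comp_hasDerivAt v (F.dx v)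
  have hzc : Continuous z := by rw [hzd]; exact P.continuous.comp F.cx
  have hz'c : Continuous z' := by rw [hz'd]; exact P.continuous.comp (F.cl.smul F.cT)
  have hn : ∀ v, normSq (z v) = 1 - (e ⬝ᵥ x v) ^ 2 := fun v => by rw [hzv, hP.normSq, F.xx, sq]
  have hz0 : ∀ v, z v ≠ 0 := fun v => Complex.normSq_pos.1 (hn v ▸ hα v)
  have hq : ∀ v, ε * (z' v / z v).im = l v * (e ⬝ᵥ y v) / (1 - (e ⬝ᵥ x v) ^ 2) := fun v => by
    rw [len_div_im, hn, hzv, hz'v, (hP _ _).2, map_smul, F.xxT]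
    simp only [dotProduct_smul, smul_eq_mul]
    linear_combination (l v * (e ⬝ᵥ y v) / (1 - (e ⬝ᵥ x v) ^ 2)) * hε2
  have hwc : Continuous fun v => (z' v / z v).im :=
    Complex.continuous_im.comp (hz'c.div hzc hz0)
  obtain ⟨φ, hφd⟩ : ∃ φ : ℝ → ℝ, φ = fun v => ε * wind v z z' := ⟨_, rfl⟩
  have hφv : ∀ v, φ v = ε * wind v z z' := fun v => by rw [hφd]
  have hφ : ∀ v, HasDerivAt φ (l v * (e ⬝ᵥ y v) / (1 - (e ⬝ᵥ x v) ^ 2)) v := by
    intro v
    rw [hφd, ← hq]
    exact ((hwc.integral_hasStrictDerivAt 0 v).hasDerivAt).const_mul ε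
  have hφc : Continuous φ := continuous_iff_continuousAt.mpr fun v => (hφ v).continuousAt
  have hφm : StrictMono φ := strictMono_of_deriv_pos fun v => by
    rw [(hφ v).deriv]
    exact div_pos (mul_pos (F.lp v) (hy v)) (hα v)
  have hφ0 : φ 0 = 0 := by rw [hφv]; simp [wind]
  have hφp : ∀ v, φ (v + τ) = φ v + φ τ := by
    intro v
    have hper : Function.Periodic (fun v => (z' v / z v).im) τ := fun v => by
      simp only [hzv, hz'v, F.px, F.pl, F.pT]
    have a := hper.intervalIntegral_add_eq_add 0 v fun x y => hwc.intervalIntegrable x y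
    rw [zero_add] at a
    simp only [hφv, wind]
    rw [a]; ring
  have hpol : ∀ s v, x s ⬝ᵥ x v - (e ⬝ᵥ x s) * (e ⬝ᵥ x v)
        = ‖z s‖ * ‖z v‖ * Real.cos (φ v - φ s) ∧
      ε * (e ⬝ᵥ (x s ⨯₃ x v)) = ‖z s‖ * ‖z v‖ * Real.sin (φ v - φ s) := by
    intro s v
    have a := len_polar hz hz'c hz0 s v
    have b := congrArg Complex.re a
    have c := congrArg Complex.im a
    rw [Complex.re_ofReal_mul, Complex.exp_ofReal_mul_I_re] at b
    rw [Complex.im_ofReal_mul, Complex.exp_ofReal_mul_I_im] at c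
    have b' := (hP (x s) (x v)).1
    have c' := (hP (x s) (x v)).2
    rw [← hzv, ← hzv] at b' c'
    rw [← b', ← c', b, c, hφv, hφv, ← mul_sub]
    rcases F.hε with h | h <;> rw [h]
    · simp
    · rw [neg_one_mul, neg_one_mul, Real.cos_neg, Real.sin_neg]
      exact ⟨rfl, by ring⟩
  have habs : |turn τ T e| = |φ τ| := by
    rw [hφv, hzd, hz'd, F.wind_x' hP hy, abs_mul]
    rcases F.hε with h | h <;> simp [h]
  have hone : φ τ = 2 * Real.pi := by
    obtain ⟨n, hn⟩ := wind_int (τ := τ) hz hz'c hz0 (by rw [hzv, hzv, ← F.px 0, zero_add])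
    obtain ⟨d, hd⟩ : ∃ d : ℤ, φ τ = 2 * Real.pi * d := by
      rcases F.hε with h | h
      · exact ⟨n, by rw [hφv, hn, h, one_mul]⟩
      · exact ⟨-n, by rw [hφv, hn, h]; push_cast; ring⟩
    have hpos : 0 < φ τ := hφ0 ▸ hφm hτ
    have hd0 : 0 < d := by
      rw [hd] at hpos
      have : (0 : ℝ) < d := by
        by_contra hh
        nlinarith [Real.pi_pos]
      exact_mod_cast this
    by_contra hne
    have hd1 : d ≠ 1 := fun h => hne (by rw [hd, h]; simp)
    have hd2 : (2 : ℝ) ≤ d := by exact_mod_cast (by omega : (2 : ℤ) ≤ d)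
    have hbig : 2 * Real.pi < φ τ := by rw [hd]; nlinarith [Real.pi_pos]
    rcases H with hs | hs
    swap
    · rw [habs, abs_of_pos hpos] at hs
      linarith
    obtain ⟨v, w, hvw, hwv, e1, e2⟩ := len_meet hτ hφc hφm (c := φ τ) hbig hφp
      (h := fun v => e ⬝ᵥ x v) (len_cont_dot continuous_const F.cx) (fun v => by simp only [F.px])
    have a := (hpol v w).1
    rw [e1, add_sub_cancel_left, Real.cos_two_pi, mul_one] at a
    have n1 := hP.normSq (x v)
    have n2 := hP.normSq (x w)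
    rw [← hzv, Complex.normSq_eq_norm_sq, F.xx] at n1 n2
    rw [e2] at n2 a
    have n3 : ‖z w‖ = ‖z v‖ :=
      (pow_left_inj₀ (norm_nonneg _) (norm_nonneg _) two_ne_zero).mp (n2.trans n1.symm)
    rw [n3] at a
    obtain ⟨j, hj⟩ := hs v w (len_eq_of_dot (F.xx v) (F.xx w) (by nlinarith))
    have j1 : (0 : ℝ) < j := by
      by_contra hh
      nlinarith
    have j2 : (j : ℝ) < 1 := by
      by_contra hh
      nlinarith
    have j3 : 0 < j := by exact_mod_cast j1
    have j4 : j < 1 := by exact_mod_cast j2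
    omega
  refine ⟨by rw [habs, hone, abs_of_pos Real.two_pi_pos], fun s v hv => ?_, ?_⟩
  · have a := len_hill (x := s) (y := s + τ) (by linarith) hφc hφm (by rw [hφp, hone])
      (f := fun v => (x s ⬝ᵥ y v) / (e ⬝ᵥ y v))
      (f' := fun v => m v * (‖z s‖ * ‖z v‖) / (e ⬝ᵥ y v) ^ 2 * Real.sin (φ v - φ s))
      (fun v => by
        have b := (len_hasDerivAt_dot (hasDerivAt_const v (x s)) (F.dy v)).div
          (len_hasDerivAt_dot (hasDerivAt_const v e) (F.dy v)) (hy v).ne'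
        refine b.congr_deriv ?_
        have c := len_binet (x s) e (T v) (y v)
        rw [F.Txy, map_smul, dotProduct_smul, smul_eq_mul] at c
        have c' := (hpol s v).2
        simp only [zero_dotProduct, zero_add, dotProduct_smul, smul_eq_mul]
        rw [div_mul_eq_mul_div]
        congr 1
        linear_combination (-m v) * c + m v * c')
      (fun v => ⟨_, div_pos (mul_pos (F.mp v)
        (mul_pos (norm_pos_iff.mpr (hz0 s)) (norm_pos_iff.mpr (hz0 v))))
        (pow_pos (hy v) 2), rfl⟩)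
      (by simp only [F.xy, zero_div]) (by simp only [F.py, F.xy, zero_div]) v hv
    exact (div_pos_iff_of_pos_right (hy v)).mp a
  · have ca := len_cont_dot (continuous_const (y := e)) F.cx
    have cb := len_cont_dot (continuous_const (y := e)) F.cy
    have c1 : Continuous fun v => l v * (e ⬝ᵥ y v) / (1 - (e ⬝ᵥ x v) ^ 2) :=
      (F.cl.mul cb).div (continuous_const.sub (ca.pow 2)) fun v => (hα v).ne'
    have c2 : Continuous fun v => (e ⬝ᵥ x v) * (l v * (e ⬝ᵥ y v) / (1 - (e ⬝ᵥ x v) ^ 2)) :=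
      ca.mul c1
    have hχ : ∀ v, HasDerivAt (fun v => Real.arctan ((e ⬝ᵥ T v) / (e ⬝ᵥ y v)))
        (m v - (e ⬝ᵥ x v) * (l v * (e ⬝ᵥ y v) / (1 - (e ⬝ᵥ x v) ^ 2))) v := fun v => by
      have b := ((len_hasDerivAt_dot (hasDerivAt_const v e) (F.dT v)).div
        (len_hasDerivAt_dot (hasDerivAt_const v e) (F.dy v)) (hy v).ne').arctan
      refine b.congr_deriv ?_
      have h1 : 1 - (e ⬝ᵥ x v) ^ 2 = (e ⬝ᵥ y v) ^ 2 + (e ⬝ᵥ T v) ^ 2 := by linarith [F.pars he v]
      have h2 := (hy v).ne'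
      have h3 : (e ⬝ᵥ y v) ^ 2 + (e ⬝ᵥ T v) ^ 2 ≠ 0 := h1 ▸ (hα v).ne'
      simp only [zero_dotProduct, zero_add, dotProduct_smul, dotProduct_add, smul_eq_mul, h1,
        Pi.div_apply]
      field_simp
      ring
    have i1 := intervalIntegral.integral_eq_sub_of_hasDerivAt (a := 0) (b := τ) (fun v _ => hχ v)
      ((F.cm.sub (ca.mul c1)).intervalIntegrable _ _)
    have i2 := intervalIntegral.integral_eq_sub_of_hasDerivAt (a := 0) (b := τ) (fun v _ => hφ v)
      (c1.intervalIntegrable _ _)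
    have p1 : T τ = T 0 := by rw [← F.pT 0, zero_add]
    have p2 : y τ = y 0 := by rw [← F.py 0, zero_add]
    rw [p1, p2, sub_self, intervalIntegral.integral_sub (F.cm.intervalIntegrable _ _)
      (c2.intervalIntegrable _ _)] at i1
    rw [hone, hφ0, sub_zero] at i2
    rw [← i2, sub_eq_zero.1 i1]
    refine intervalIntegral.integral_lt_integral_of_continuousOn_of_le_of_exists_lt hτ
      c2.continuousOn c1.continuousOn (fun v _ => ?_) ⟨0, left_mem_Icc.2 hτ.le, ?_⟩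
    · exact mul_le_of_le_one_left (div_pos (mul_pos (F.lp v) (hy v)) (hα v)).le
        (by nlinarith [hα v])
    · exact mul_lt_of_lt_one_left (div_pos (mul_pos (F.lp 0) (hy 0)) (hα 0)) (by nlinarith [hα 0])

/-- a convex curve is simple and has an axis -/
theorem axis (H : ∀ s, ∀ v ∈ Ioo s (s + τ), 0 < x s ⬝ᵥ y v) :
    (∀ v v', y v = y v' → ∃ j : ℤ, v' = v + j * τ) ∧
      ∃ e : V3, e ⬝ᵥ e = 1 ∧ (∀ v, 0 < e ⬝ᵥ x v) ∧ ∀ v, 0 < e ⬝ᵥ y v := by
  have hτ := F.hτ
  have px : Function.Periodic x τ := F.px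
  have py : Function.Periodic y τ := F.py
  refine ⟨fun v v' h => ?_, ?_⟩
  · refine ⟨toIcoDiv hτ v v', ?_⟩
    have h1 := toIcoMod_mem_Ico hτ v v'
    have h2 := toIcoMod_add_toIcoDiv_zsmul hτ v v'
    rw [zsmul_eq_mul] at h2
    rcases eq_or_lt_of_le h1.1 with h3 | h3
    · linarith
    · have h4 := H v _ ⟨h3, h1.2⟩
      rw [← py.int_mul (toIcoDiv hτ v v') (toIcoMod hτ v v'), h2, ← h, F.xy] at h4
      exact absurd h4 (lt_irrefl _)
  have c1 : Continuous fun v => l v • x v := F.cl.smul F.cx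
  have c2 : Continuous fun v => m v • y v := F.cm.smul F.cy
  have c3 : Continuous fun v => -(l v • x v) := c1.neg
  have hV : ∫ v in (0 : ℝ)..τ, l v • x v = ∫ v in (0 : ℝ)..τ, m v • y v := by
    have i1 := intervalIntegral.integral_eq_sub_of_hasDerivAt (a := 0) (b := τ)
      (fun v _ => F.dT v) (((F.cl.neg.smul F.cx).add c2).intervalIntegrable _ _)
    have p1 : T τ = T 0 := by rw [← F.pT 0, zero_add]
    simp only [neg_smul] at i1
    rw [p1, sub_self, intervalIntegral.integral_add (c3.intervalIntegrable _ _)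
      (c2.intervalIntegrable _ _), intervalIntegral.integral_neg] at i1
    exact neg_add_eq_zero.1 i1
  obtain ⟨V, hVd⟩ : ∃ V, V = ∫ v in (0 : ℝ)..τ, l v • x v := ⟨_, rfl⟩
  have key : ∀ (c : V3) (s : ℝ) {G : ℝ → V3}, Continuous G → Function.Periodic G τ →
      (∀ v ∈ Ioo s (s + τ), 0 < c ⬝ᵥ G v) → 0 < (∫ v in (0 : ℝ)..τ, G v) ⬝ᵥ c := by
    intro c s G hG hp h
    have hper : Function.Periodic (fun v => c ⬝ᵥ G v) τ := fun v => by simp only [hp v]
    have a := hper.intervalIntegral_add_eq 0 s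
    rw [zero_add] at a
    rw [dotProduct_comm, len_dot_integral c hG, a]
    exact intervalIntegral.intervalIntegral_pos_of_pos_on
      ((len_cont_dot continuous_const hG).intervalIntegrable _ _) h (by linarith)
  have h1 : ∀ s, 0 < V ⬝ᵥ x s := fun s => by
    rw [hVd, hV]
    refine key _ s c2 (fun v => by simp only [F.pm, F.py]) fun v hv => ?_
    rw [dotProduct_smul]
    exact mul_pos (F.mp v) (H s v hv)
  have h2 : ∀ s, 0 < V ⬝ᵥ y s := fun s => by
    rw [hVd]
    refine key _ s c1 (fun v => by simp only [F.pl, F.px]) fun v hv => ?_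
    rw [dotProduct_smul, dotProduct_comm, ← F.py s]
    exact mul_pos (F.lp v) (H v _ ⟨hv.2, by linarith [hv.1]⟩)
  have h3 : 0 < V ⬝ᵥ V := len_self_pos fun h => by simpa [h] using h1 0
  have h4 := Real.sqrt_pos.2 h3
  refine ⟨(√(V ⬝ᵥ V))⁻¹ • V, ?_, fun v => ?_, fun v => ?_⟩
  · rw [smul_dotProduct, dotProduct_smul, smul_eq_mul, smul_eq_mul]
    have := Real.mul_self_sqrt h3.le
    field_simp
    nlinarith
  · rw [smul_dotProduct]
    exact mul_pos (inv_pos.2 h4) (h1 v)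
  · rw [smul_dotProduct]
    exact mul_pos (inv_pos.2 h4) (h2 v)

end FC

end Pool.Agent.Lib.MP_c7e804_gt
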