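import Pool.Agent.Lib.MP_c7e804_gt.H81Len2

/-!
Length bounds for the parallel curves of a simple spherical curve.
-/

namespace Pool.Agent.Lib.MP_c7e804_gt

open Matrix Set Complex
open scoped ContDiff ComplexConjugate

namespace FC

variable {τ ε : ℝ} {x T y : ℝ → V3} {l m : ℝ → ℝ} (F : FC τ ε x T y l m)
include F

theorem umlauf {s c : ℝ} (hs : 0 < s) (hc : 0 ≤ c) (hsc : s ^ 2 + c ^ 2 = 1)
    (hp : ∀ v, 0 < s * l v - c * m v) (hsm : ContDiff ℝ ∞ fun v => s • x v + c • y v)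
    (hsi : ∀ v v', s • x v + c • y v = s • x v' + c • y v' → ∃ j : ℤ, v' = v + j * τ)
    {e : V3} (he : e ⬝ᵥ e = 1) (hy : ∀ v, 0 < e ⬝ᵥ y v) : |turn τ T e| ≤ 2 * Real.pi := by
  obtain ⟨P, hP⟩ : ∃ P, IsProj e P := len_exists_P he
  have G := F.rot hs hc hsc hp
  obtain ⟨g, hg⟩ : ∃ g : ℝ → V3, g = fun v => s • x v + c • y v := ⟨_, rfl⟩
  obtain ⟨σ, hσ⟩ : ∃ σ : ℝ → ℝ, σ = fun v => s * l v - c * m v := ⟨_, rfl⟩
  have hgv : ∀ v, g v = s • x v + c • y v := fun v => by rw [hg]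
  rw [← hg, ← hσ] at G
  rw [← hg] at hsm
  simp only [← hgv] at hsi
  have hα : ∀ v, 0 < 1 + e ⬝ᵥ g v := fun v => by
    have h1 := F.pars he v
    have h2 := hy v
    rw [hgv, dotProduct_add, dotProduct_smul, dotProduct_smul, smul_eq_mul, smul_eq_mul]
    have h3 : -1 < e ⬝ᵥ x v := by nlinarith [sq_nonneg (e ⬝ᵥ T v)]
    have h4 : s ≤ 1 := by nlinarith
    nlinarith [mul_nonneg hc h2.le]
  have ce : ContDiff ℝ ∞ fun v => e ⬝ᵥ g v := by
    simp only [dotProduct, Fin.sum_univ_three]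
    have := fun i => contDiff_pi.1 hsm i
    exact ((contDiff_const.mul (this 0)).add (contDiff_const.mul (this 1))).add
      (contDiff_const.mul (this 2))
  obtain ⟨z, hzd⟩ : ∃ z : ℝ → ℂ, z = fun v => (1 + e ⬝ᵥ g v)⁻¹ • P (g v) := ⟨_, rfl⟩
  have hzv : ∀ v, z v = (1 + e ⬝ᵥ g v)⁻¹ • P (g v) := fun v => by rw [hzd]
  have cz : ContDiff ℝ ∞ z := by
    rw [hzd]
    exact ((contDiff_const.add ce).inv fun v => (hα v).ne').smul (P.contDiff.comp hsm)
  obtain ⟨d1, cz1⟩ := contDiff_infty_iff_deriv.1 cz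
  obtain ⟨d2, cz2⟩ := contDiff_infty_iff_deriv.1 cz1
  have hz : ∀ v, deriv z v = (σ v / (1 + e ⬝ᵥ g v) ^ 2) •
      ((1 + e ⬝ᵥ g v) • P (T v) - (e ⬝ᵥ T v) • P (g v)) := fun v => by
    have h1 := ((len_hasDerivAt_dot (hasDerivAt_const v e) (G.dx v)).const_add 1).inv (hα v).ne'
    have h2 := h1.smul (P.hasFDerivAt.comp_hasDerivAt v (G.dx v))
    rw [hzd]
    refine h2.deriv.trans ?_
    have h0 := (hα v).ne'
    simp only [zero_dotProduct, zero_add, dotProduct_smul, smul_eq_mul, map_smul, Function.comp,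
      Pi.inv_apply, smul_sub, smul_smul]
    rw [sub_eq_add_neg, ← neg_smul]
    congr 2 <;> field_simp
  have him : ∀ v, 0 < ε * (conj (P (x v)) * deriv z v).im := fun v => by
    have h1 : x v ⨯₃ g v = -(c * ε) • T v := by
      rw [hgv, map_add, map_smul, map_smul, cross_self, smul_zero, zero_add, F.hT, smul_smul,
        ← cross_anticomm (x v) (y v), smul_neg, ← neg_smul]
      congr 1
      linear_combination (-c) * F.ε2
    have h2 : (conj (P (x v)) * deriv z v).im = (σ v / (1 + e ⬝ᵥ g v) ^ 2) *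
        ((1 + e ⬝ᵥ g v) * (conj (P (x v)) * P (T v)).im
          - (e ⬝ᵥ T v) * (conj (P (x v)) * P (g v)).im) := by
      rw [hz]
      simp only [Complex.real_smul, Complex.mul_im, Complex.mul_re, Complex.sub_re, Complex.sub_im,
        Complex.ofReal_re, Complex.ofReal_im]
      ring
    rw [h2, (hP _ _).2, (hP _ _).2, h1, F.xxT, dotProduct_smul, dotProduct_smul, smul_eq_mul,
      smul_eq_mul]
    have h3 : ε * ((σ v / (1 + e ⬝ᵥ g v) ^ 2) * ((1 + e ⬝ᵥ g v) * (ε * (e ⬝ᵥ y v))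
        - (e ⬝ᵥ T v) * (-(c * ε) * (e ⬝ᵥ T v)))) = (σ v / (1 + e ⬝ᵥ g v) ^ 2) *
          ((1 + e ⬝ᵥ g v) * (e ⬝ᵥ y v) + c * (e ⬝ᵥ T v) ^ 2) := by
      linear_combination ((σ v / (1 + e ⬝ᵥ g v) ^ 2) *
          ((1 + e ⬝ᵥ g v) * (e ⬝ᵥ y v) + c * (e ⬝ᵥ T v) ^ 2)) * F.ε2
    rw [h3]
    exact mul_pos (div_pos (G.lp v) (pow_pos (hα v) 2))
      (add_pos_of_pos_of_nonneg (mul_pos (hα v) (hy v)) (mul_nonneg hc (sq_nonneg _)))
  have hper : ∀ v, z (v + τ) = z v := fun v => by rw [hzv, hzv, G.px]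
  have hu := _root_.Pool.Agent.Lib.MP_c7e804_gt.umlauf F.hτ (fun v => (d1 v).hasDerivAt)
    (fun v => (d2 v).hasDerivAt) cz2.continuous hper
    (fun v h => by simpa [h] using him v) fun v v' h => by
      refine hsi v v' (len_eq_of_dot (G.xx v) (G.xx v') ?_)
      have h1 := hα v
      have h2 := hα v'
      have n1 := congrArg normSq h
      rw [hzv, hzv, Complex.real_smul, Complex.real_smul, map_mul, map_mul, normSq_ofReal,
        normSq_ofReal, hP.normSq, hP.normSq, G.xx, G.xx] at n1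
      have n2 : e ⬝ᵥ g v = e ⬝ᵥ g v' := by
        field_simp at n1
        have : (1 + e ⬝ᵥ g v) * (1 + e ⬝ᵥ g v') * (e ⬝ᵥ g v - e ⬝ᵥ g v') = 0 := by linarith
        rcases mul_eq_zero.1 this with h3 | h3
        · exact absurd h3 (mul_pos h1 h2).ne'
        · linarith
      rw [hzv, hzv, ← n2] at h
      have n3 := smul_right_injective ℂ (inv_ne_zero h1.ne') h
      have n4 := (hP (g v) (g v')).1
      rw [← n3, (hP _ _).1, G.xx, ← n2] at n4
      linarith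
  have hw := wind_eq_of_re (τ := τ) (G := fun v => ε * I * P (x v))
    (G' := fun v => ε * I * P (l v • T v)) (H := deriv z) (H' := deriv (deriv z))
    (fun v => (P.hasFDerivAt.comp_hasDerivAt v (F.dx v)).const_mul _)
    (continuous_const.mul (P.continuous.comp (F.cl.smul F.cT)))
    (fun v => (d2 v).hasDerivAt) cz2.continuous (by simp only [← F.px 0, zero_add])
    (by rw [hz, hz, ← G.px 0, ← G.pl 0, ← F.pT 0, zero_add]) fun v => by
      rw [len_re_I]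
      exact him v
  rwa [← hw, F.wind_x hP hy] at hu

theorem len_main {s c : ℝ} (hs : 0 < s) (hc : 0 ≤ c) (hsc : s ^ 2 + c ^ 2 = 1)
    (hp : ∀ v, 0 < s * l v - c * m v) (hsm : ContDiff ℝ ∞ fun v => s • x v + c • y v)
    (hsi : ∀ v v', s • x v + c • y v = s • x v' + c • y v' → ∃ j : ℤ, v' = v + j * τ)
    {e : V3} (he : e ⬝ᵥ e = 1) (hy : ∀ v, 0 < e ⬝ᵥ y v) :
    ∫ v in (0 : ℝ)..τ, l v < 2 * Real.pi ∧ ∫ v in (0 : ℝ)..τ, (c * l v + s * m v) < 2 * Real.pi ∧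
      ∃ e' : V3, ∀ v, 0 < e' ⬝ᵥ x v := by
  obtain ⟨-, h1, -⟩ := F.core he hy (Or.inr (F.umlauf hs hc hsc hp hsm hsi he hy))
  obtain ⟨sy, e₁, he₁, x₁, y₁⟩ := F.axis h1
  obtain ⟨t₁, -, L₁⟩ := F.swap.core he₁ x₁ (Or.inl sy)
  have G := F.rot hs hc hsc hp
  obtain ⟨-, h2, -⟩ := G.swap.core he₁ (fun v => by
    rw [dotProduct_add, dotProduct_smul, dotProduct_smul]
    exact add_pos_of_pos_of_nonneg (mul_pos hs (x₁ v)) (mul_nonneg hc (y₁ v).le)) (Or.inr t₁)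
  obtain ⟨-, e₂, he₂, x₂, -⟩ := G.swap.axis h2
  exact ⟨L₁, (G.core he₂ x₂ (Or.inl hsi)).2.2, e₁, x₁⟩

end FC

end Pool.Agent.Lib.MP_c7e804_gt
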